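import Pool.Agent.MU0.KL3

/-!
Kloosterman sums to the modulus M0 * r, r a prime not dividing M0: absolute value at most
phi(M0) * 2 r^(3/4) if r does not divide both coefficients.
-/

open Finset

namespace Pool.Agent.MU0.KL3

/-- the Kloosterman sum to a general modulus, standard character -/
noncomputable def KM (N : ℕ) [NeZero N] (m n : ZMod N) : ℂ :=
  ∑ x : (ZMod N)ˣ, ZMod.stdAddChar (m * (x : ZMod N) + n * ((x⁻¹ : (ZMod N)ˣ) : ZMod N))

theorem KM_le (M r : ℕ) [NeZero M] [Fact r.Prime] [NeZero (M * r)] (hMr : M.Coprime r)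
    (m n : ZMod (M * r))
    (h : (ZMod.castHom (dvd_mul_left r M) (ZMod r)) m ≠ 0 ∨
      (ZMod.castHom (dvd_mul_left r M) (ZMod r)) n ≠ 0) :
    ‖KM (M * r) m n‖ ≤ (M.totient : ℝ) * (2 * (r : ℝ) ^ (3 / 4 : ℝ)) := by
  classical
  set e : ZMod (M * r) ≃+* ZMod M × ZMod r := ZMod.chineseRemainder hMr with he
  set ψ : AddChar (ZMod (M * r)) ℂ := ZMod.stdAddChar with hψ
  -- the two components
  let ψ1 : AddChar (ZMod M) ℂ :=
    { toFun := fun x => ψ (e.symm (x, 0))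
      map_zero_eq_one' := by
        show ψ (e.symm ((0 : ZMod M), (0 : ZMod r))) = 1
        have : ((0 : ZMod M), (0 : ZMod r)) = 0 := rfl
        rw [this, map_zero, AddChar.map_zero_eq_one]
      map_add_eq_mul' := by
        intro x y
        show ψ (e.symm (x + y, 0)) = ψ (e.symm (x, 0)) * ψ (e.symm (y, 0))
        rw [← AddChar.map_add_eq_mul, ← map_add, Prod.mk_add_mk, add_zero] }
  let ψ2 : AddChar (ZMod r) ℂ :=
    { toFun := fun x => ψ (e.symm (0, x))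
      map_zero_eq_one' := by
        show ψ (e.symm ((0 : ZMod M), (0 : ZMod r))) = 1
        have : ((0 : ZMod M), (0 : ZMod r)) = 0 := rfl
        rw [this, map_zero, AddChar.map_zero_eq_one]
      map_add_eq_mul' := by
        intro x y
        show ψ (e.symm (0, x + y)) = ψ (e.symm (0, x)) * ψ (e.symm (0, y))
        rw [← AddChar.map_add_eq_mul, ← map_add, Prod.mk_add_mk, add_zero] }
  have h1 : ∀ x : ZMod M, ψ1 x = ψ (e.symm (x, 0)) := fun _ => rfl
  have h2 : ∀ y : ZMod r, ψ2 y = ψ (e.symm (0, y)) := fun _ => rfl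
  have h12 : ∀ z : ZMod (M * r), ψ z = ψ1 (e z).1 * ψ2 (e z).2 := by
    intro z
    rw [h1, h2, ← AddChar.map_add_eq_mul, ← map_add, Prod.mk_add_mk, add_zero, zero_add,
      Prod.mk.eta, e.symm_apply_apply]
  have hprim : ψ2.IsPrimitive := by
    apply AddChar.IsPrimitive.of_ne_one
    intro hone
    have hall : ∀ y : ZMod r, ψ (e.symm (0, y)) = 1 := by
      intro y
      rw [← h2, hone]; rfl
    have hinj : Function.Injective (ψ : ZMod (M * r) → ℂ) := ZMod.injective_stdAddChar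
    have h0 : e.symm ((0 : ZMod M), (1 : ZMod r)) = 0 := by
      apply hinj
      rw [hall 1, AddChar.map_zero_eq_one]
    have h01 : ((0 : ZMod M), (1 : ZMod r)) = 0 := by
      have := congrArg e h0
      rwa [e.apply_symm_apply, map_zero] at this
    have : (1 : ZMod r) = 0 := congrArg Prod.snd h01
    exact one_ne_zero this
  -- the second component of e
  have he2 : ∀ z : ZMod (M * r), (e z).2 = (ZMod.castHom (dvd_mul_left r M) (ZMod r)) z := by
    intro z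
    have hh : (RingHom.snd (ZMod M) (ZMod r)).comp (e : ZMod (M * r) →+* ZMod M × ZMod r) =
        ZMod.castHom (dvd_mul_left r M) (ZMod r) := Subsingleton.elim _ _
    exact congrArg (fun g : ZMod (M * r) →+* ZMod r => g z) hh
  let E : (ZMod (M * r))ˣ ≃ (ZMod M)ˣ × (ZMod r)ˣ :=
    ((Units.mapEquiv e.toMulEquiv).trans MulEquiv.prodUnits).toEquiv
  have hE1 : ∀ x : (ZMod (M * r))ˣ, (((E x).1 : (ZMod M)ˣ) : ZMod M) = (e x).1 := fun _ => rfl
  have hE2 : ∀ x : (ZMod (M * r))ˣ, (((E x).2 : (ZMod r)ˣ) : ZMod r) = (e x).2 := fun _ => rfl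
  have hE3 : ∀ x : (ZMod (M * r))ˣ, ((((E x).1)⁻¹ : (ZMod M)ˣ) : ZMod M) =
      (e ((x⁻¹ : (ZMod (M * r))ˣ) : ZMod (M * r))).1 := fun _ => rfl
  have hE4 : ∀ x : (ZMod (M * r))ˣ, ((((E x).2)⁻¹ : (ZMod r)ˣ) : ZMod r) =
      (e ((x⁻¹ : (ZMod (M * r))ˣ) : ZMod (M * r))).2 := fun _ => rfl
  have hsplit : KM (M * r) m n =
      (∑ x : (ZMod M)ˣ, ψ1 ((e m).1 * (x : ZMod M) + (e n).1 * ((x⁻¹ : (ZMod M)ˣ) : ZMod M))) *
      K ψ2 (e m).2 (e n).2 := by
    unfold KM K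
    rw [sum_mul_sum, ← Fintype.sum_prod_type'
      (f := fun (x : (ZMod M)ˣ) (y : (ZMod r)ˣ) =>
        ψ1 ((e m).1 * (x : ZMod M) + (e n).1 * ((x⁻¹ : (ZMod M)ˣ) : ZMod M)) *
        ψ2 ((e m).2 * (y : ZMod r) + (e n).2 * ((y⁻¹ : (ZMod r)ˣ) : ZMod r)))]
    refine Fintype.sum_equiv E _ _ (fun x => ?_)
    rw [hE1, hE2, hE3, hE4, ← hψ, h12]
    simp only [map_add, map_mul, Prod.fst_add, Prod.fst_mul, Prod.snd_add, Prod.snd_mul]
  rw [hsplit, norm_mul]
  have b1 : ‖∑ x : (ZMod M)ˣ,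
      ψ1 ((e m).1 * (x : ZMod M) + (e n).1 * ((x⁻¹ : (ZMod M)ˣ) : ZMod M))‖ ≤ (M.totient : ℝ) := by
    refine (norm_sum_le _ _).trans ?_
    have h3 : ∀ x : ZMod M, ‖ψ1 x‖ = 1 := fun x => AddChar.norm_apply ψ1 x
    simp only [h3, sum_const, card_univ, nsmul_eq_mul, mul_one, ZMod.card_units_eq_totient]
    exact le_refl _
  have b2 : ‖K ψ2 (e m).2 (e n).2‖ ≤ 2 * (r : ℝ) ^ (3 / 4 : ℝ) := by
    apply K_le ψ2 hprim
    rw [he2, he2]
    exact h
  exact mul_le_mul b1 b2 (norm_nonneg _) (Nat.cast_nonneg _)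

/-- integer form -/
theorem KM_int_le (M r : ℕ) [NeZero M] [Fact r.Prime] [NeZero (M * r)] (hMr : M.Coprime r)
    (m n : ℤ) (h : ¬ ((r : ℤ) ∣ m ∧ (r : ℤ) ∣ n)) :
    ‖KM (M * r) (m : ZMod (M * r)) (n : ZMod (M * r))‖ ≤
      (M.totient : ℝ) * (2 * (r : ℝ) ^ (3 / 4 : ℝ)) := by
  apply KM_le M r hMr
  by_contra hcon
  push Not at hcon
  rw [map_intCast, map_intCast] at hcon
  exact h ⟨(ZMod.intCast_zmod_eq_zero_iff_dvd _ _).1 hcon.1,
    (ZMod.intCast_zmod_eq_zero_iff_dvd _ _).1 hcon.2⟩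

/-- trivial bound -/
theorem KM_trivial (N : ℕ) [NeZero N] (m n : ZMod N) : ‖KM N m n‖ ≤ (N.totient : ℝ) := by
  unfold KM
  refine (norm_sum_le _ _).trans ?_
  have h3 : ∀ x : ZMod N, ‖ZMod.stdAddChar x‖ = 1 := fun x => AddChar.norm_apply _ x
  simp only [h3, sum_const, card_univ, nsmul_eq_mul, mul_one, ZMod.card_units_eq_totient]
  exact le_refl _

/-- with complex exponentials and integer representatives -/
theorem KM_eq_exp (N : ℕ) [NeZero N] (m n : ℤ) :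
    KM N (m : ZMod N) (n : ZMod N) = ∑ x : (ZMod N)ˣ, Complex.exp (2 * Real.pi * Complex.I *
      (((m * ((x : ZMod N).val : ℤ) + n * (((x⁻¹ : (ZMod N)ˣ) : ZMod N).val : ℤ) : ℤ)) : ℂ) / N) := by
  unfold KM
  refine sum_congr rfl (fun x _ => ?_)
  rw [← ZMod.stdAddChar_coe]
  congr 1
  push_cast
  rw [ZMod.natCast_zmod_val, ZMod.natCast_zmod_val]

end Pool.Agent.MU0.KL3
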