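import Pool.Agent.MU1.An1
import Pool.Agent.MU0.KL3M

/-!
# A cusp form near the rational numbers of a good denominator
-/

set_option autoImplicit false

open UpperHalfPlane hiding I
open Filter Topology Complex Function CongruenceSubgroup
open scoped MatrixGroups Real ModularForm ComplexConjugate

namespace Pool.Agent.MU0

open Pool.Agent.MZ Pool.Agent.MZ.Per

variable {N : ℕ} [NeZero N]

omit [NeZero N] in
/-- the transformation of `f(lz)` at `d/c` -/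
theorem arc_point (f : CuspForm (Gamma0 N) 2) {l c : ℕ} (hl : 0 < l) (hc : 0 < c)
    (hNl : N * l ∣ c) {d e : ℤ} (hde : (c : ℤ) ∣ e * d - 1) {w : ℂ} (hw : 0 < w.im) :
    f (ofComplex ((l : ℂ) * (-(e : ℂ) / c - 1 / ((c : ℂ) ^ 2 * w)))) =
      ((c : ℂ) * w) ^ 2 * f (ofComplex ((l : ℂ) * ((d : ℂ) / c + w))) := by
  obtain ⟨s, hs⟩ := hNl
  obtain ⟨t, ht⟩ := hde
  have hdet : (!![-e, (l : ℤ) * t; (N : ℤ) * s, -d] : Matrix (Fin 2) (Fin 2) ℤ).det = 1 := by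
    rw [Matrix.det_fin_two_of]
    have h1 : ((c : ℕ) : ℤ) = N * l * s := by exact_mod_cast hs
    rw [h1] at ht
    linear_combination ht
  let γ : SL(2, ℤ) := ⟨!![-e, (l : ℤ) * t; (N : ℤ) * s, -d], hdet⟩
  have h00 : γ 0 0 = -e := rfl
  have h01 : γ 0 1 = l * t := rfl
  have h10 : γ 1 0 = N * s := rfl
  have h11 : γ 1 1 = -d := rfl
  have hγ : γ ∈ Gamma0 N := by
    rw [Gamma0_mem, h10]
    push_cast
    simp
  have hlC : (l : ℂ) ≠ 0 := by exact_mod_cast hl.ne'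
  have hcC : (c : ℂ) ≠ 0 := by exact_mod_cast hc.ne'
  have hw0 : w ≠ 0 := by
    rintro rfl
    simp at hw
  have him : 0 < ((l : ℂ) * ((d : ℂ) / c + w)).im := by
    have h1 : ((l : ℂ) * ((d : ℂ) / c + w)).im = l * w.im := by
      have h2 : ((d : ℂ) / c).im = 0 := by
        have : ((d : ℂ) / c) = (((d : ℝ) / c : ℝ) : ℂ) := by push_cast; ring
        rw [this, ofReal_im]
      rw [mul_im, add_im, h2]
      simp
    rw [h1]
    have : (0 : ℝ) < l := by exact_mod_cast hl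
    positivity
  set τ : ℍ := ofComplex ((l : ℂ) * ((d : ℂ) / c + w)) with hτ
  have hτc : (τ : ℂ) = (l : ℂ) * ((d : ℂ) / c + w) := by
    rw [hτ, ofComplex_apply_of_im_pos him]
  have hcs : (c : ℂ) = N * l * s := by exact_mod_cast congrArg (fun x : ℕ => (x : ℂ)) hs
  have hden : ((γ 1 0 : ℤ) : ℂ) * τ + ((γ 1 1 : ℤ) : ℂ) = c * w := by
    rw [h10, h11, hτc]
    push_cast
    have h1 : (N : ℂ) * s * (l * ((d : ℂ) / c + w)) = c * ((d : ℂ) / c + w) := by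
      rw [hcs]
      ring
    rw [h1]
    field_simp
    ring
  have hact := SlashInvariantForm.slash_action_eqn_SL'' f hγ τ
  have hdenom : denom (γ : GL (Fin 2) ℝ) τ = c * w := by
    rw [← hden]
    simp [denom]
  have hsm : ((γ • τ : ℍ) : ℂ) = (l : ℂ) * (-(e : ℂ) / c - 1 / ((c : ℂ) ^ 2 * w)) := by
    rw [coe_specialLinearGroup_apply]
    have h2 : (((algebraMap ℤ ℝ) (γ 1 0) : ℝ) : ℂ) * τ + (((algebraMap ℤ ℝ) (γ 1 1) : ℝ) : ℂ) =
        c * w := by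
      rw [← hden]
      simp
    rw [h2, h00, h01, hτc]
    have h3 : (e : ℂ) * d - 1 = c * t := by exact_mod_cast congrArg (fun x : ℤ => (x : ℂ)) ht
    have h4 : (t : ℂ) = ((e : ℂ) * d - 1) / c := by
      rw [h3]
      field_simp
    simp only [algebraMap_int_eq, eq_intCast, Int.cast_neg, Int.cast_mul, Int.cast_natCast,
      ofReal_neg, ofReal_mul, ofReal_intCast, ofReal_natCast]
    rw [h4]
    field_simp
    ring
  rw [← hsm, ofComplex_apply, hact, hdenom]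
  norm_cast

/-- the series at a point near a rational number -/
theorem arc_series (f : CuspForm (Gamma0 N) 2) {a : ℕ → ℂ}
    (ha : ∀ n, (qExpansion 1 f).coeff n = a n) {l c : ℕ} (hl : 0 < l) (hc : 0 < c)
    (hNl : N * l ∣ c) {d e : ℤ} (hde : (c : ℤ) ∣ e * d - 1) {w : ℂ} (hw : 0 < w.im) :
    HasSum (fun m : ℕ => ((c : ℂ) * w)⁻¹ ^ 2 * ((a m * cexp (2 * π * Complex.I * m *
      (-(l : ℂ) / ((c : ℂ) ^ 2 * w)))) * cexp (2 * π * Complex.I * (-(m * l * e : ℤ) : ℂ) / c)))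
      (f (ofComplex ((l : ℂ) * ((d : ℂ) / c + w)))) := by
  have hw0 : w ≠ 0 := by
    rintro rfl
    simp at hw
  have hcC : (c : ℂ) ≠ 0 := by exact_mod_cast hc.ne'
  have hlR : (0 : ℝ) < l := by exact_mod_cast hl
  have hcR : (0 : ℝ) < c := by exact_mod_cast hc
  have h1 := arc_point f hl hc hNl hde hw
  have him : 0 < ((l : ℂ) * (-(e : ℂ) / c - 1 / ((c : ℂ) ^ 2 * w))).im := by
    have h2 : ((l : ℂ) * (-(e : ℂ) / c - 1 / ((c : ℂ) ^ 2 * w))) =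
        ((l * (-(e : ℝ) / c) : ℝ) : ℂ) + ((l / (c : ℝ) ^ 2 : ℝ) : ℂ) * (-w⁻¹) := by
      push_cast
      field_simp
      ring
    rw [h2, add_im, ofReal_im, zero_add, im_ofReal_mul, neg_im, inv_im]
    have h3 : 0 < normSq w := normSq_pos.2 hw0
    have : 0 < w.im / normSq w := div_pos hw h3
    rw [neg_div, neg_neg]
    positivity
  have h2 := hasSum_q f ha _ him
  rw [h1] at h2
  have h3 := h2.mul_left (((c : ℂ) * w)⁻¹ ^ 2)
  have h4 : ((c : ℂ) * w)⁻¹ ^ 2 * (((c : ℂ) * w) ^ 2 * f (ofComplex ((l : ℂ) * ((d : ℂ) / c + w)))) =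
      f (ofComplex ((l : ℂ) * ((d : ℂ) / c + w))) := by
    rw [← mul_assoc, ← _root_.mul_pow, inv_mul_cancel₀ (mul_ne_zero hcC hw0), one_pow, one_mul]
  rw [h4] at h3
  convert! h3 using 2 with m
  rw [mul_assoc (a m), ← Complex.exp_add]
  congr 2
  push_cast
  field_simp
  ring_nf

/-- the norm of the exponential -/
theorem arc_norm {l c : ℕ} (hc : 0 < c) {w : ℂ} (hw : 0 < w.im) (m : ℕ) :
    ‖cexp (2 * π * Complex.I * m * (-(l : ℂ) / ((c : ℂ) ^ 2 * w)))‖ =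
      Real.exp (-((2 * π * (l * w.im / (c ^ 2 * normSq w))) * m)) := by
  have hw0 : w ≠ 0 := by
    rintro rfl
    simp at hw
  have hcR : (0 : ℝ) < c := by exact_mod_cast hc
  rw [Complex.norm_exp]
  congr 1
  have h2 : (2 * π * Complex.I * m * (-(l : ℂ) / ((c : ℂ) ^ 2 * w))) =
      ((2 * π * m * (l / (c : ℝ) ^ 2) : ℝ) : ℂ) * (-(Complex.I * w⁻¹)) := by
    have hcC : (c : ℂ) ≠ 0 := by exact_mod_cast hc.ne'
    push_cast
    field_simp
  rw [h2, re_ofReal_mul, neg_re, mul_re, Complex.I_re, Complex.I_im, inv_im, inv_re]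
  have h3 : 0 < normSq w := normSq_pos.2 hw0
  field_simp
  ring

/-- `∑ m e^{-sm} ≤ 1/s²` -/
theorem tsum_mul_exp_le {s : ℝ} (hs : 0 < s) :
    Summable (fun m : ℕ => (m : ℝ) * Real.exp (-(s * m))) ∧
      ∑' m : ℕ, (m : ℝ) * Real.exp (-(s * m)) ≤ 1 / s ^ 2 := by
  have hx0 : 0 < Real.exp (-s) := Real.exp_pos _
  have hx1 : Real.exp (-s) < 1 := by
    rw [Real.exp_lt_one_iff]
    linarith
  have h1 : ∀ m : ℕ, (m : ℝ) * Real.exp (-(s * m)) = (m : ℝ) * Real.exp (-s) ^ m := by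
    intro m
    rw [← Real.exp_nat_mul]
    congr 2
    ring
  have h2 : ‖Real.exp (-s)‖ < 1 := by
    rw [Real.norm_of_nonneg hx0.le]
    exact hx1
  have h3 := hasSum_coe_mul_geometric_of_norm_lt_one h2
  simp only [h1]
  refine ⟨h3.summable, ?_⟩
  rw [h3.tsum_eq, div_le_div_iff₀ (by nlinarith [sq_pos_of_pos (sub_pos.2 hx1)]) (by positivity), one_mul]
  have h4 : s / 2 ≤ Real.sinh (s / 2) := Real.self_le_sinh_iff.2 (by linarith)
  rw [Real.sinh_eq] at h4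
  set u := Real.exp (s / 2) with hu
  have hu0 : 0 < u := Real.exp_pos _
  have hu2 : Real.exp (-(s / 2)) = u⁻¹ := by rw [Real.exp_neg]
  have hx : Real.exp (-s) = (u⁻¹) ^ 2 := by
    rw [← hu2, ← Real.exp_nat_mul]
    congr 1
    push_cast
    ring
  rw [hu2] at h4
  rw [hx]
  have h5 : s ≤ u - u⁻¹ := by linarith
  have h6 : s ^ 2 ≤ (u - u⁻¹) ^ 2 := pow_le_pow_left₀ hs.le h5 2
  have h7 : (1 - u⁻¹ ^ 2) ^ 2 = u⁻¹ ^ 2 * (u - u⁻¹) ^ 2 := by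
    field_simp
  rw [h7]
  exact mul_le_mul_of_nonneg_left h6 (by positivity)

/-- the coefficients of a cusp form of weight two grow at most linearly -/
theorem coeff_le (f : CuspForm (Gamma0 N) 2) {a : ℕ → ℂ}
    (ha : ∀ n, (qExpansion 1 f).coeff n = a n) : ∃ C : ℝ, 0 ≤ C ∧ ∀ n : ℕ, ‖a n‖ ≤ C * n := by
  have h0 := coeff_zero f ha
  obtain ⟨C, hC⟩ := (coeff_isBigO f ha).bound
  obtain ⟨n₀, hn₀⟩ := eventually_atTop.1 hC
  set D : ℝ := ∑ n ∈ Finset.range n₀, ‖a n‖ with hD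
  have hD0 : 0 ≤ D := Finset.sum_nonneg fun n _ => norm_nonneg _
  refine ⟨|C| + D, by positivity, fun n => ?_⟩
  rcases Nat.eq_zero_or_pos n with rfl | hn
  · rw [h0]
    simp
  · have hn1 : (1 : ℝ) ≤ n := by exact_mod_cast hn
    by_cases h : n₀ ≤ n
    · have h1 := hn₀ n h
      rw [Real.rpow_one, Real.norm_of_nonneg (by positivity : (0 : ℝ) ≤ n)] at h1
      calc ‖a n‖ ≤ C * n := h1
        _ ≤ (|C| + D) * n := by
          apply mul_le_mul_of_nonneg_right _ (by positivity)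
          linarith [le_abs_self C]
    · push Not at h
      have h1 : ‖a n‖ ≤ D := Finset.single_le_sum (f := fun n => ‖a n‖)
        (fun n _ => norm_nonneg _) (Finset.mem_range.2 h)
      have h2 : 0 ≤ |C| := abs_nonneg C
      nlinarith

/-- the absolute values on one arc -/
theorem arc_abs {a : ℕ → ℂ} {C : ℝ} (hC : 0 ≤ C) (ha : ∀ n : ℕ, ‖a n‖ ≤ C * n) {l c : ℕ}
    (hl : 0 < l) (hc : 0 < c) {y β : ℝ} (hy : 0 < y) {w : ℂ} (hw : w = β + (y / l : ℝ) * Complex.I) :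
    Summable (fun m : ℕ => ‖a m * cexp (2 * π * Complex.I * m *
      (-(l : ℂ) / ((c : ℂ) ^ 2 * w)))‖) ∧
    ∑' m : ℕ, ‖a m * cexp (2 * π * Complex.I * m * (-(l : ℂ) / ((c : ℂ) ^ 2 * w)))‖ ≤
      C * ((c : ℝ) ^ 2 * normSq w / y) ^ 2 := by
  have hlR : (0 : ℝ) < l := by exact_mod_cast hl
  have hcR : (0 : ℝ) < c := by exact_mod_cast hc
  have him : w.im = y / l := by
    rw [hw]
    simp
  have hw0 : 0 < w.im := by rw [him]; positivity
  have hwne : w ≠ 0 := by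
    rintro rfl
    simp at hw0
  have hns : 0 < normSq w := normSq_pos.2 hwne
  set s : ℝ := 2 * π * (l * w.im / (c ^ 2 * normSq w)) with hs
  have hs0 : 0 < s := by positivity
  have hs1 : s = 2 * π * (y / (c ^ 2 * normSq w)) := by
    rw [hs, him]
    field_simp
  obtain ⟨h1, h2⟩ := tsum_mul_exp_le hs0
  have h3 : ∀ m : ℕ, ‖a m * cexp (2 * π * Complex.I * m * (-(l : ℂ) / ((c : ℂ) ^ 2 * w)))‖ ≤
      C * (m * Real.exp (-(s * m))) := by
    intro m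
    rw [norm_mul, arc_norm hc hw0, ← mul_assoc]
    exact mul_le_mul_of_nonneg_right (ha m) (Real.exp_pos _).le
  have h4 := h1.mul_left C
  have h5 : Summable (fun m : ℕ => ‖a m * cexp (2 * π * Complex.I * m *
      (-(l : ℂ) / ((c : ℂ) ^ 2 * w)))‖) := Summable.of_nonneg_of_le (fun m => norm_nonneg _) h3 h4
  refine ⟨h5, ?_⟩
  calc ∑' m : ℕ, ‖a m * cexp (2 * π * Complex.I * m * (-(l : ℂ) / ((c : ℂ) ^ 2 * w)))‖ ≤
        ∑' m : ℕ, C * (m * Real.exp (-(s * m))) := h5.tsum_le_tsum h3 h4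
    _ = C * ∑' m : ℕ, (m * Real.exp (-(s * m))) := tsum_mul_left
    _ ≤ C * (1 / s ^ 2) := mul_le_mul_of_nonneg_left h2 hC
    _ ≤ C * ((c : ℝ) ^ 2 * normSq w / y) ^ 2 := by
      apply mul_le_mul_of_nonneg_left _ hC
      have h6 : (c : ℝ) ^ 2 * normSq w / y = 2 * π / s := by
        rw [hs1]
        field_simp
      rw [h6, div_pow]
      apply div_le_div_of_nonneg_right _ (by positivity)
      have : (3 : ℝ) < π := Real.pi_gt_three
      nlinarith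

/-- **the average over the fractions of denominator `c = N l₁ l₂ r`** -/
theorem arc_bound (f : CuspForm (Gamma0 N) 2) : ∃ C : ℝ, 0 ≤ C ∧ ∀ (l₁ l₂ r c : ℕ) [NeZero c],
    0 < l₁ → 0 < l₂ → r.Prime → ¬ r ∣ N * l₁ * l₂ → c = N * l₁ * l₂ * r →
    ∀ k : ℤ, ¬ (r : ℤ) ∣ k → ∀ y β : ℝ, 0 < y →
    ‖∑ x : (ZMod c)ˣ, (y : ℂ) ^ 2 * f (vert (l₁ * ((((x : ZMod c).val : ℝ) / c) + β)) y) *
      conj (f (vert (l₂ * ((((x : ZMod c).val : ℝ) / c) + β)) y)) *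
      cexp (2 * π * Complex.I * ((-k : ℤ) : ℂ) * (((((x : ZMod c).val : ℝ) / c) + β : ℝ) : ℂ))‖ ≤
      C * (N * l₁ * l₂).totient * (r : ℝ) ^ (3 / 4 : ℝ) * (c : ℝ) ^ 4 * (β ^ 2 + y ^ 2) ^ 2 / y ^ 2 := by
  set a : ℕ → ℂ := fun n => (qExpansion 1 f).coeff n with ha
  have ha' : ∀ n, (qExpansion 1 f).coeff n = a n := fun n => rfl
  obtain ⟨C, hC0, hC⟩ := coeff_le f ha'
  refine ⟨2 * C ^ 2, by positivity, ?_⟩
  intro l₁ l₂ r c _ hl₁ hl₂ hr hrN hc k hk y β hy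
  have hc0 : 0 < c := Nat.pos_of_ne_zero (NeZero.ne c)
  have hcR : (0 : ℝ) < c := by exact_mod_cast hc0
  have hcC : (c : ℂ) ≠ 0 := by exact_mod_cast hc0.ne'
  set w₁ : ℂ := β + (y / l₁ : ℝ) * Complex.I with hw₁
  set w₂ : ℂ := β + (y / l₂ : ℝ) * Complex.I with hw₂
  have hlR₁ : (0 : ℝ) < l₁ := by exact_mod_cast hl₁
  have hlR₂ : (0 : ℝ) < l₂ := by exact_mod_cast hl₂
  have him₁ : 0 < w₁.im := by
    rw [hw₁]
    simp only [add_im, ofReal_im, mul_im, ofReal_re, Complex.I_im, Complex.I_re, mul_one, mul_zero,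
      add_zero, zero_add]
    positivity
  have him₂ : 0 < w₂.im := by
    rw [hw₂]
    simp only [add_im, ofReal_im, mul_im, ofReal_re, Complex.I_im, Complex.I_re, mul_one, mul_zero,
      add_zero, zero_add]
    positivity
  obtain ⟨hs₁, hb₁⟩ := arc_abs hC0 hC hl₁ hc0 hy hw₁
  obtain ⟨hs₂, hb₂⟩ := arc_abs hC0 hC hl₂ hc0 hy hw₂
  -- the absolutely convergent series
  obtain ⟨E₁, hE₁⟩ : ∃ E : ℕ → ℂ, E = fun m : ℕ => a m * cexp (2 * π * Complex.I * m *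
    (-(l₁ : ℂ) / ((c : ℂ) ^ 2 * w₁))) := ⟨_, rfl⟩
  obtain ⟨E₂, hE₂⟩ : ∃ E : ℕ → ℂ, E = fun m : ℕ => a m * cexp (2 * π * Complex.I * m *
    (-(l₂ : ℂ) / ((c : ℂ) ^ 2 * w₂))) := ⟨_, rfl⟩
  have hs₁' : Summable (fun m => ‖E₁ m‖) := by rw [hE₁]; exact hs₁
  have hs₂' : Summable (fun m => ‖E₂ m‖) := by rw [hE₂]; exact hs₂
  have hb₁' : ∑' m, ‖E₁ m‖ ≤ C * ((c : ℝ) ^ 2 * normSq w₁ / y) ^ 2 := by rw [hE₁]; exact hb₁
  have hb₂' : ∑' m, ‖E₂ m‖ ≤ C * ((c : ℝ) ^ 2 * normSq w₂ / y) ^ 2 := by rw [hE₂]; exact hb₂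
  have hd₁ : N * l₁ ∣ c := ⟨l₂ * r, by rw [hc]; ring⟩
  have hd₂ : N * l₂ ∣ c := ⟨l₁ * r, by rw [hc]; ring⟩
  -- the characters
  let χ : (ZMod c)ˣ → ℤ → ℂ := fun x j => cexp (2 * π * Complex.I * (j : ℂ) *
    ((((x⁻¹ : (ZMod c)ˣ) : ZMod c).val : ℂ)) / c)
  have hχ : ∀ x j, ‖χ x j‖ = 1 := by
    intro x j
    have h1 : (2 * π * Complex.I * (j : ℂ) * ((((x⁻¹ : (ZMod c)ˣ) : ZMod c).val : ℂ)) / c) =
        ((2 * π * (j : ℝ) * (((x⁻¹ : (ZMod c)ˣ) : ZMod c).val : ℝ) / c : ℝ) : ℂ) * Complex.I := by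
      push_cast
      ring
    simp only [χ]
    rw [h1, Complex.norm_exp_ofReal_mul_I]
  have hpt : ∀ (l : ℕ), 0 < l → ∀ (x : (ZMod c)ˣ),
      vert (l * ((((x : ZMod c).val : ℝ) / c) + β)) y =
      ofComplex ((l : ℂ) * ((((x : ZMod c).val : ℤ) : ℂ) / c + (β + (y / l : ℝ) * Complex.I))) := by
    intro l hl x
    have hlC : (l : ℂ) ≠ 0 := by exact_mod_cast hl.ne'
    rw [vert]
    congr 1
    push_cast
    field_simp
    ring
  have hde : ∀ x : (ZMod c)ˣ, (c : ℤ) ∣ (((x⁻¹ : (ZMod c)ˣ) : ZMod c).val : ℤ) *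
      ((x : ZMod c).val : ℤ) - 1 := by
    intro x
    rw [← ZMod.intCast_zmod_eq_zero_iff_dvd]
    push_cast
    rw [ZMod.natCast_zmod_val, ZMod.natCast_zmod_val, Units.inv_mul, sub_self]
  have hF₁ : ∀ x : (ZMod c)ˣ, HasSum (fun m : ℕ => ((c : ℂ) * w₁)⁻¹ ^ 2 *
      (E₁ m * χ x (-(m * l₁ : ℤ)))) (f (vert (l₁ * ((((x : ZMod c).val : ℝ) / c) + β)) y)) := by
    intro x
    rw [hpt l₁ hl₁ x]
    have h1 := arc_series f ha' hl₁ hc0 hd₁ (hde x) him₁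
    convert! h1 using 2 with m
    rw [hE₁]
    simp only [χ]
    congr 2
    push_cast
    ring_nf
  have hF₂ : ∀ x : (ZMod c)ˣ, HasSum (fun m : ℕ => conj (((c : ℂ) * w₂)⁻¹ ^ 2) *
      (conj (E₂ m) * χ x (m * l₂ : ℤ)))
      (conj (f (vert (l₂ * ((((x : ZMod c).val : ℝ) / c) + β)) y))) := by
    intro x
    rw [hpt l₂ hl₂ x]
    have h1 := (arc_series f ha' hl₂ hc0 hd₂ (hde x) him₂).map (starRingEnd ℂ) continuous_conj
    convert! h1 using 2 with m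
    rw [comp_apply, map_mul, map_mul, hE₂]
    congr 2
    simp only [χ]
    rw [← Complex.exp_conj]
    congr 1
    simp only [map_mul, map_div₀, conj_ofReal, Complex.conj_I, map_natCast, map_ofNat,
      Int.cast_mul, Int.cast_natCast, map_neg]
    ring
  -- one term
  have hterm : ∀ x : (ZMod c)ˣ, (y : ℂ) ^ 2 *
      f (vert (l₁ * ((((x : ZMod c).val : ℝ) / c) + β)) y) *
      conj (f (vert (l₂ * ((((x : ZMod c).val : ℝ) / c) + β)) y)) *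
      cexp (2 * π * Complex.I * ((-k : ℤ) : ℂ) * (((((x : ZMod c).val : ℝ) / c) + β : ℝ) : ℂ)) =
      ((y : ℂ) ^ 2 * ((c : ℂ) * w₁)⁻¹ ^ 2 * conj (((c : ℂ) * w₂)⁻¹ ^ 2) *
        cexp (2 * π * Complex.I * ((-k : ℤ) : ℂ) * β)) *
      ∑' q : ℕ × ℕ, E₁ q.1 * conj (E₂ q.2) * cexp (2 * π * Complex.I *
        (((-k) * ((x : ZMod c).val : ℤ) + ((q.2 * l₂ : ℤ) - (q.1 * l₁ : ℤ)) *
        (((x⁻¹ : (ZMod c)ˣ) : ZMod c).val : ℤ) : ℤ) : ℂ) / c) := by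
    intro x
    have h1 := (hF₁ x).tsum_eq
    have h2 := (hF₂ x).tsum_eq
    rw [tsum_mul_left] at h1 h2
    rw [← h1, ← h2]
    have n₁ : Summable (fun m : ℕ => ‖E₁ m * χ x (-(m * l₁ : ℤ))‖) := by
      simp only [norm_mul, hχ, mul_one]
      exact hs₁'
    have n₂ : Summable (fun m : ℕ => ‖conj (E₂ m) * χ x (m * l₂ : ℤ)‖) := by
      simp only [norm_mul, hχ, mul_one, RCLike.norm_conj]
      exact hs₂'
    have h3 := tsum_mul_tsum_of_summable_norm n₁ n₂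
    have h4 : cexp (2 * π * Complex.I * ((-k : ℤ) : ℂ) * (((((x : ZMod c).val : ℝ) / c) + β : ℝ) : ℂ)) =
        cexp (2 * π * Complex.I * ((-k : ℤ) : ℂ) * β) *
        cexp (2 * π * Complex.I * ((-k : ℤ) : ℂ) * ((x : ZMod c).val : ℂ) / c) := by
      rw [← Complex.exp_add]
      congr 1
      push_cast
      ring
    rw [h4]
    have h5 : ∀ A B D E F G : ℂ, A ^ 2 * (B * D) * (E * F) * (G * cexp (2 * π * Complex.I *
        ((-k : ℤ) : ℂ) * ((x : ZMod c).val : ℂ) / c)) = (A ^ 2 * B * E * G) *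
        ((D * F) * cexp (2 * π * Complex.I * ((-k : ℤ) : ℂ) * ((x : ZMod c).val : ℂ) / c)) := by
      intros
      ring
    rw [h5, h3, ← tsum_mul_right]
    congr 1
    apply tsum_congr
    intro q
    simp only [χ]
    have h6 : ∀ A B D E F : ℂ, (A * B) * (D * E) * F = A * D * (B * E * F) := by
      intros
      ring
    rw [h6, ← Complex.exp_add, ← Complex.exp_add]
    congr 2
    push_cast
    ring
  rw [Finset.sum_congr rfl (fun x _ => hterm x), ← Finset.mul_sum]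
  -- exchange of the sums
  have hsum : Summable (fun q : ℕ × ℕ => ‖E₁ q.1‖ * ‖E₂ q.2‖) :=
    hs₁'.mul_of_nonneg hs₂' (fun m => norm_nonneg _) (fun m => norm_nonneg _)
  have hexp : ∀ j : ℤ, ‖cexp (2 * π * Complex.I * (j : ℂ) / c)‖ = 1 := by
    intro j
    have h1 : (2 * π * Complex.I * (j : ℂ) / c) = ((2 * π * (j : ℝ) / c : ℝ) : ℂ) * Complex.I := by
      push_cast
      ring
    rw [h1, Complex.norm_exp_ofReal_mul_I]
  have hsumx : ∀ x ∈ (Finset.univ : Finset (ZMod c)ˣ), Summable (fun q : ℕ × ℕ =>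
      E₁ q.1 * conj (E₂ q.2) * cexp (2 * π * Complex.I *
        (((-k) * ((x : ZMod c).val : ℤ) + ((q.2 * l₂ : ℤ) - (q.1 * l₁ : ℤ)) *
        (((x⁻¹ : (ZMod c)ˣ) : ZMod c).val : ℤ) : ℤ) : ℂ) / c)) := by
    intro x _
    apply Summable.of_norm
    simp only [norm_mul, hexp, mul_one, RCLike.norm_conj]
    exact hsum
  rw [← Summable.tsum_finsetSum hsumx]
  -- the Kloosterman sums
  have hrf : Fact r.Prime := ⟨hr⟩
  have hM0 : NeZero (N * l₁ * l₂) := ⟨by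
    have := NeZero.ne N
    positivity⟩
  set Kl : ℝ := ((N * l₁ * l₂).totient : ℝ) * (2 * (r : ℝ) ^ (3 / 4 : ℝ)) with hKl
  have hKl0 : 0 ≤ Kl := by positivity
  have hKM : ∀ j : ℤ, ‖KL3.KM c ((-k : ℤ) : ZMod c) (j : ZMod c)‖ ≤ Kl := by
    intro j
    subst hc
    apply KL3.KM_int_le (N * l₁ * l₂) r ((Nat.coprime_comm.1 ((Nat.Prime.coprime_iff_not_dvd hr).2 hrN)))
    rintro ⟨h1, -⟩
    exact hk ((dvd_neg).1 h1)
  have hin : ∀ q : ℕ × ℕ, ‖∑ x : (ZMod c)ˣ, E₁ q.1 * conj (E₂ q.2) * cexp (2 * π * Complex.I *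
        (((-k) * ((x : ZMod c).val : ℤ) + ((q.2 * l₂ : ℤ) - (q.1 * l₁ : ℤ)) *
        (((x⁻¹ : (ZMod c)ˣ) : ZMod c).val : ℤ) : ℤ) : ℂ) / c)‖ ≤ Kl * (‖E₁ q.1‖ * ‖E₂ q.2‖) := by
    intro q
    rw [← Finset.mul_sum, ← KL3.KM_eq_exp c (-k) ((q.2 * l₂ : ℤ) - (q.1 * l₁ : ℤ)), norm_mul, norm_mul,
      RCLike.norm_conj, mul_comm Kl]
    exact mul_le_mul_of_nonneg_left (hKM _) (by positivity)
  have hts : ‖∑' q : ℕ × ℕ, ∑ x : (ZMod c)ˣ, E₁ q.1 * conj (E₂ q.2) * cexp (2 * π * Complex.I *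
        (((-k) * ((x : ZMod c).val : ℤ) + ((q.2 * l₂ : ℤ) - (q.1 * l₁ : ℤ)) *
        (((x⁻¹ : (ZMod c)ˣ) : ZMod c).val : ℤ) : ℤ) : ℂ) / c)‖ ≤
      Kl * ((∑' m, ‖E₁ m‖) * ∑' m, ‖E₂ m‖) := by
    have h1 := tsum_of_norm_bounded ((hsum.mul_left Kl).hasSum) hin
    rw [tsum_mul_left] at h1
    have h2 : ∑' q : ℕ × ℕ, ‖E₁ q.1‖ * ‖E₂ q.2‖ = (∑' m, ‖E₁ m‖) * ∑' m, ‖E₂ m‖ :=
      (hs₁'.tsum_mul_tsum hs₂' hsum).symm
    rw [h2] at h1
    exact h1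
  -- the norms
  have hn₁ : normSq w₁ = β ^ 2 + (y / l₁) ^ 2 := by
    rw [normSq_apply, hw₁]
    simp only [add_re, ofReal_re, mul_re, Complex.I_re, mul_zero, ofReal_im, Complex.I_im, mul_one,
      sub_self, add_zero, add_im, mul_im, zero_add]
    ring
  have hn₂ : normSq w₂ = β ^ 2 + (y / l₂) ^ 2 := by
    rw [normSq_apply, hw₂]
    simp only [add_re, ofReal_re, mul_re, Complex.I_re, mul_zero, ofReal_im, Complex.I_im, mul_one,
      sub_self, add_zero, add_im, mul_im, zero_add]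
    ring
  have hyl : ∀ l : ℕ, 0 < l → (y / l) ^ 2 ≤ y ^ 2 := by
    intro l hl
    have h1 : (1 : ℝ) ≤ l := by exact_mod_cast hl
    apply pow_le_pow_left₀ (by positivity)
    exact div_le_self hy.le h1
  have hnl₁ : normSq w₁ ≤ β ^ 2 + y ^ 2 := by rw [hn₁]; linarith [hyl l₁ hl₁]
  have hnl₂ : normSq w₂ ≤ β ^ 2 + y ^ 2 := by rw [hn₂]; linarith [hyl l₂ hl₂]
  have hp₁ : 0 < normSq w₁ := normSq_pos.2 (by rintro h; rw [h] at him₁; simp at him₁)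
  have hp₂ : 0 < normSq w₂ := normSq_pos.2 (by rintro h; rw [h] at him₂; simp at him₂)
  have hnorm : ∀ w : ℂ, ‖((c : ℂ) * w)⁻¹ ^ 2‖ = 1 / ((c : ℝ) ^ 2 * normSq w) := by
    intro w
    rw [norm_pow, norm_inv, norm_mul, Complex.norm_natCast, inv_pow, _root_.mul_pow,
      Complex.sq_norm, _root_.one_div]
  have hexpβ : ‖cexp (2 * π * Complex.I * ((-k : ℤ) : ℂ) * β)‖ = 1 := by
    have h1 : (2 * π * Complex.I * ((-k : ℤ) : ℂ) * β) =
        ((2 * π * ((-k : ℤ) : ℝ) * β : ℝ) : ℂ) * Complex.I := by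
      push_cast
      ring
    rw [h1, Complex.norm_exp_ofReal_mul_I]
  rw [norm_mul, norm_mul, norm_mul, norm_mul, RCLike.norm_conj, hnorm, hnorm, hexpβ, norm_pow,
    Complex.norm_real, Real.norm_of_nonneg hy.le, mul_one]
  have hS : Kl * ((∑' m, ‖E₁ m‖) * ∑' m, ‖E₂ m‖) ≤ Kl * ((C * ((c : ℝ) ^ 2 * normSq w₁ / y) ^ 2) *
      (C * ((c : ℝ) ^ 2 * normSq w₂ / y) ^ 2)) := by
    apply mul_le_mul_of_nonneg_left _ hKl0
    exact mul_le_mul hb₁' hb₂' (tsum_nonneg fun m => norm_nonneg _) (by positivity)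
  have hK0 : 0 ≤ y ^ 2 * (1 / ((c : ℝ) ^ 2 * normSq w₁)) * (1 / ((c : ℝ) ^ 2 * normSq w₂)) := by
    positivity
  refine (mul_le_mul_of_nonneg_left (hts.trans hS) hK0).trans ?_
  have heq : y ^ 2 * (1 / ((c : ℝ) ^ 2 * normSq w₁)) * (1 / ((c : ℝ) ^ 2 * normSq w₂)) *
      (Kl * ((C * ((c : ℝ) ^ 2 * normSq w₁ / y) ^ 2) * (C * ((c : ℝ) ^ 2 * normSq w₂ / y) ^ 2))) =
      C ^ 2 * Kl * (c : ℝ) ^ 4 * (normSq w₁ * normSq w₂) / y ^ 2 := by
    field_simp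
  rw [heq, hKl]
  have h9 : normSq w₁ * normSq w₂ ≤ (β ^ 2 + y ^ 2) ^ 2 := by
    rw [sq (β ^ 2 + y ^ 2)]
    exact mul_le_mul hnl₁ hnl₂ hp₂.le (by positivity)
  have h10 : C ^ 2 * (((N * l₁ * l₂).totient : ℝ) * (2 * (r : ℝ) ^ (3 / 4 : ℝ))) * (c : ℝ) ^ 4 *
      (normSq w₁ * normSq w₂) / y ^ 2 ≤
      C ^ 2 * (((N * l₁ * l₂).totient : ℝ) * (2 * (r : ℝ) ^ (3 / 4 : ℝ))) * (c : ℝ) ^ 4 *
      ((β ^ 2 + y ^ 2) ^ 2) / y ^ 2 := by
    apply div_le_div_of_nonneg_right _ (by positivity)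
    exact mul_le_mul_of_nonneg_left h9 (by positivity)
  refine h10.trans (le_of_eq ?_)
  ring

end Pool.Agent.MU0
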