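import Mathlib

/-!
# Fourth moments of sums with a one-sided orthogonality

`N4 f = (∑ f⁴)^{1/2}`. If `∑ W S³ = 0` then `N4 (W + S) ≤ N4 S + 4 N4 W`. Iterated: if the sums
`∑ f_1 f_2 f_3 f_4` vanish whenever the minimum of some coordinate of the four vectors `v_i` is attained
only once, then `N4 (∑ f_i) ≤ 4^d ∑ N4 f_i`.
-/

open Finset

namespace Pool.Agent.MU0

variable {Ω : Type*} [Fintype Ω]

/-- the square of the `L⁴`-norm -/
noncomputable def N4 (f : Ω → ℝ) : ℝ := √(∑ w, f w ^ 4)

theorem N4_nonneg (f : Ω → ℝ) : 0 ≤ N4 f := Real.sqrt_nonneg _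

theorem N4_sq (f : Ω → ℝ) : N4 f ^ 2 = ∑ w, f w ^ 4 :=
  Real.sq_sqrt (Finset.sum_nonneg fun w _ => by positivity)

theorem N4_zero : N4 (fun _ : Ω => (0 : ℝ)) = 0 := by
  unfold N4
  simp

/-- Cauchy's inequality -/
theorem sum_sq_sq_le (f g : Ω → ℝ) : ∑ w, f w ^ 2 * g w ^ 2 ≤ N4 f * N4 g := by
  have h := Finset.sum_mul_sq_le_sq_mul_sq (univ : Finset Ω) (fun w => f w ^ 2) fun w => g w ^ 2
  have e1 : ∀ h : Ω → ℝ, ∑ w, (h w ^ 2) ^ 2 = ∑ w, h w ^ 4 := fun h =>
    Finset.sum_congr rfl fun w _ => by ring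
  rw [e1, e1] at h
  have h0 : 0 ≤ ∑ w, f w ^ 2 * g w ^ 2 := Finset.sum_nonneg fun w _ => by positivity
  unfold N4
  rw [← Real.sqrt_mul (Finset.sum_nonneg fun w _ => by positivity)]
  exact Real.le_sqrt_of_sq_le h

/-- the basic step -/
theorem N4_add_le (W S : Ω → ℝ) (h : ∑ w, W w * S w ^ 3 = 0) :
    N4 (fun w => W w + S w) ≤ N4 S + 4 * N4 W := by
  have hW := N4_nonneg W
  have hS := N4_nonneg S
  have h1 : ∑ w, (W w + S w) ^ 4 ≤ 3 * ∑ w, W w ^ 4 + 8 * ∑ w, W w ^ 2 * S w ^ 2 + ∑ w, S w ^ 4 := by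
    have h2 : ∑ w, (W w + S w) ^ 4 ≤ ∑ w, (3 * W w ^ 4 + 8 * (W w ^ 2 * S w ^ 2) + S w ^ 4 +
        4 * (W w * S w ^ 3)) := by
      refine Finset.sum_le_sum fun w _ => ?_
      nlinarith [sq_nonneg (W w * (W w - S w))]
    rw [Finset.sum_add_distrib, Finset.sum_add_distrib, Finset.sum_add_distrib, ← Finset.mul_sum,
      ← Finset.mul_sum, ← Finset.mul_sum, h] at h2
    linarith
  have h3 := sum_sq_sq_le W S
  have h4 := N4_sq W
  have h5 := N4_sq S
  unfold N4 at hW hS h3 h4 h5 ⊢
  refine Real.sqrt_le_iff.2 ⟨by positivity, ?_⟩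
  nlinarith

/-- the chain: levels of one integer-valued function -/
theorem N4_levels {ι : Type*} [DecidableEq ι] (f : ι → Ω → ℝ) (u : ι → ℤ) (A : Finset ι)
    (h : ∀ a ∈ A, ∀ b ∈ A, ∀ c ∈ A, ∀ d ∈ A, u a < u b → u a < u c → u a < u d →
      ∑ w, f a w * (f b w * f c w * f d w) = 0) :
    N4 (fun w => ∑ a ∈ A, f a w) ≤
      4 * ∑ j ∈ A.image u, N4 (fun w => ∑ a ∈ A.filter (fun a => u a = j), f a w) := by
  induction hn : A.card using Nat.strong_induction_on generalizing A with
  | _ n ih =>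
    rcases A.eq_empty_or_nonempty with rfl | hA
    · simp [N4]
    · obtain ⟨a₀, ha₀, hmin⟩ := A.exists_min_image u hA
      set j := u a₀ with hj
      set A' := A.filter (fun a => ¬ u a = j) with hA'
      have hsub : A' ⊆ A := Finset.filter_subset _ _
      have hlt : A'.card < n := by
        rw [← hn]
        refine Finset.card_lt_card ⟨hsub, fun hh => ?_⟩
        have := hh ha₀
        rw [hA', Finset.mem_filter] at this
        exact this.2 rfl
      have ih' := ih A'.card hlt A' (fun a ha b hb c hc d hd => h a (hsub ha) b (hsub hb) c (hsub hc)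
        d (hsub hd)) rfl
      have horth : ∑ w, (∑ a ∈ A.filter (fun a => u a = j), f a w) * (∑ a ∈ A', f a w) ^ 3 = 0 := by
        have e1 : ∀ w, (∑ a ∈ A.filter (fun a => u a = j), f a w) * (∑ a ∈ A', f a w) ^ 3 =
            ∑ a ∈ A.filter (fun a => u a = j), ∑ b ∈ A', ∑ c ∈ A', ∑ d ∈ A',
              f a w * (f b w * f c w * f d w) := by
          intro w
          rw [Finset.sum_mul]
          refine Finset.sum_congr rfl fun a _ => ?_
          rw [pow_succ, pow_two, Finset.sum_mul_sum, Finset.sum_mul, Finset.mul_sum]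
          refine Finset.sum_congr rfl fun b _ => ?_
          rw [Finset.sum_mul, Finset.mul_sum]
          refine Finset.sum_congr rfl fun c _ => ?_
          rw [Finset.mul_sum, Finset.mul_sum]
        rw [Finset.sum_congr rfl fun w _ => e1 w, Finset.sum_comm]
        refine Finset.sum_eq_zero fun a ha => ?_
        rw [Finset.sum_comm]
        refine Finset.sum_eq_zero fun b hb => ?_
        rw [Finset.sum_comm]
        refine Finset.sum_eq_zero fun c hc => ?_
        rw [Finset.sum_comm]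
        refine Finset.sum_eq_zero fun d hd => ?_
        rw [Finset.mem_filter] at ha
        have hgt : ∀ b ∈ A', u a < u b := by
          intro b hb
          rw [hA', Finset.mem_filter] at hb
          rw [ha.2]
          exact lt_of_le_of_ne (hmin b hb.1) (Ne.symm hb.2)
        exact h a ha.1 b (hsub hb) c (hsub hc) d (hsub hd) (hgt b hb) (hgt c hc) (hgt d hd)
      have hsplit : (fun w => ∑ a ∈ A, f a w) = fun w =>
          (∑ a ∈ A.filter (fun a => u a = j), f a w) + ∑ a ∈ A', f a w := by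
        funext w
        exact (Finset.sum_filter_add_sum_filter_not A (fun a => u a = j) fun a => f a w).symm
      have h1 := N4_add_le (fun w => ∑ a ∈ A.filter (fun a => u a = j), f a w)
        (fun w => ∑ a ∈ A', f a w) horth
      rw [hsplit]
      have himg : A.image u = insert j (A'.image u) := by
        ext i
        simp only [Finset.mem_image, Finset.mem_insert, hA', Finset.mem_filter]
        constructor
        · rintro ⟨a, ha, rfl⟩
          by_cases hh : u a = j
          · exact Or.inl hh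
          · exact Or.inr ⟨a, ⟨ha, hh⟩, rfl⟩
        · rintro (rfl | ⟨a, ⟨ha, _⟩, rfl⟩)
          · exact ⟨a₀, ha₀, rfl⟩
          · exact ⟨a, ha, rfl⟩
      have hnot : j ∉ A'.image u := by
        intro hh
        obtain ⟨a, ha, hja⟩ := Finset.mem_image.1 hh
        rw [hA', Finset.mem_filter] at ha
        exact ha.2 hja
      rw [himg, Finset.sum_insert hnot, mul_add]
      have hsame : ∀ i ∈ A'.image u, N4 (fun w => ∑ a ∈ A'.filter (fun a => u a = i), f a w) =
          N4 (fun w => ∑ a ∈ A.filter (fun a => u a = i), f a w) := by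
        intro i hi
        have : A'.filter (fun a => u a = i) = A.filter (fun a => u a = i) := by
          ext a
          simp only [hA', Finset.mem_filter]
          constructor
          · rintro ⟨⟨h1, _⟩, h2⟩
            exact ⟨h1, h2⟩
          · rintro ⟨h1, h2⟩
            refine ⟨⟨h1, ?_⟩, h2⟩
            rw [h2]
            rintro rfl
            exact hnot hi
        rw [this]
      rw [Finset.sum_congr rfl hsame] at ih'
      linarith

/-- the minimum of the four integers is attained only once -/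
def MinOnce (a b c d : ℤ) : Prop :=
  (a < b ∧ a < c ∧ a < d) ∨ (b < a ∧ b < c ∧ b < d) ∨ (c < a ∧ c < b ∧ c < d) ∨
    (d < a ∧ d < b ∧ d < c)

/-- all coordinates -/
theorem N4_vectors {ι : Type*} [DecidableEq ι] {D : ℕ} (f : ι → Ω → ℝ) (v : ι → Fin D → ℤ)
    (A : Finset ι) (hinj : Set.InjOn v A)
    (h : ∀ a ∈ A, ∀ b ∈ A, ∀ c ∈ A, ∀ d ∈ A, (∃ l, MinOnce (v a l) (v b l) (v c l) (v d l)) →
      ∑ w, f a w * (f b w * f c w * f d w) = 0) :
    N4 (fun w => ∑ a ∈ A, f a w) ≤ 4 ^ D * ∑ a ∈ A, N4 (f a) := by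
  have key : ∀ k : ℕ, k ≤ D → ∀ A' ⊆ A, (∀ a ∈ A', ∀ b ∈ A', ∀ l : Fin D, k ≤ (l : ℕ) → v a l = v b l) →
      N4 (fun w => ∑ a ∈ A', f a w) ≤ 4 ^ k * ∑ a ∈ A', N4 (f a) := by
    intro k
    induction k with
    | zero =>
      intro _ A' hA' hag
      have hc : A'.card ≤ 1 := by
        rw [Finset.card_le_one]
        intro a ha b hb
        refine hinj (hA' ha) (hA' hb) ?_
        funext l
        exact hag a ha b hb l (Nat.zero_le _)
      rcases Nat.le_one_iff_eq_zero_or_eq_one.1 hc with h0 | h1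
      · rw [Finset.card_eq_zero.1 h0]
        simp [N4]
      · obtain ⟨a, rfl⟩ := Finset.card_eq_one.1 h1
        simp
    | succ k ih =>
      intro hk A' hA' hag
      have hlev := N4_levels f (fun a => v a ⟨k, hk⟩) A' (fun a ha b hb c hc d hd h1 h2 h3 =>
        h a (hA' ha) b (hA' hb) c (hA' hc) d (hA' hd) ⟨⟨k, hk⟩, Or.inl ⟨h1, h2, h3⟩⟩)
      refine hlev.trans ?_
      have h2 : ∑ j ∈ A'.image (fun a => v a ⟨k, hk⟩),
          N4 (fun w => ∑ a ∈ A'.filter (fun a => v a ⟨k, hk⟩ = j), f a w) ≤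
          ∑ j ∈ A'.image (fun a => v a ⟨k, hk⟩),
            4 ^ k * ∑ a ∈ A'.filter (fun a => v a ⟨k, hk⟩ = j), N4 (f a) := by
        refine Finset.sum_le_sum fun j _ => ?_
        refine ih (by omega) _ ((Finset.filter_subset _ _).trans hA') ?_
        intro a ha b hb l hl
        rw [Finset.mem_filter] at ha hb
        rcases Nat.lt_or_ge k l with h3 | h3
        · exact hag a ha.1 b hb.1 l h3
        · have : l = ⟨k, hk⟩ := Fin.ext (le_antisymm h3 hl)
          rw [this, ha.2, hb.2]
      rw [← Finset.mul_sum, Finset.sum_fiberwise_of_maps_to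
        (fun a ha => Finset.mem_image_of_mem _ ha)] at h2
      rw [pow_succ]
      linarith
  exact key D le_rfl A (Finset.Subset.refl _) fun a _ b _ l hl => absurd l.2 (by omega)

end Pool.Agent.MU0
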