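import Pool.Agent.MU0.Corr
import Pool.Agent.MU0.L4

/-!
# The fourth moment of one cluster
-/

set_option autoImplicit false

open Finset
open scoped Real

namespace Pool.Agent.MU0

/-- the recursion for one integer valued function -/
theorem rec_four {ι Ω : Type*} [Fintype Ω] [DecidableEq ι] (s : Finset ι) (v : ι → ℤ) (F : ι → Ω → ℝ)
    (h : ∀ i ∈ s, ∀ j ∈ s, ∀ k ∈ s, ∀ l ∈ s, v i < v j → v i < v k → v i < v l →
      ∑ ω, F i ω * F j ω * F k ω * F l ω = 0) (hv : ∀ i ∈ s, ∀ j ∈ s, v i = v j → i = j) :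
    √(∑ ω, (∑ i ∈ s, F i ω) ^ 4) ≤ 4 * ∑ i ∈ s, √(∑ ω, F i ω ^ 4) := by
  have h1 := N4_levels F v s (fun a ha b hb c hc d hd h1 h2 h3 => by
    rw [← h a ha b hb c hc d hd h1 h2 h3]
    exact Finset.sum_congr rfl fun w _ => by ring)
  have h2 : ∑ j ∈ s.image v, N4 (fun w => ∑ a ∈ s.filter (fun a => v a = j), F a w) =
      ∑ a ∈ s, N4 (F a) := by
    rw [Finset.sum_image hv]
    refine Finset.sum_congr rfl fun a ha => ?_
    have : s.filter (fun b => v b = v a) = {a} := by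
      ext b
      rw [Finset.mem_filter, Finset.mem_singleton]
      constructor
      · rintro ⟨hb, he⟩
        exact hv b hb a ha he
      · rintro rfl
        exact ⟨ha, rfl⟩
    rw [this]
    congr 1
    funext w
    rw [Finset.sum_singleton]
  rw [h2] at h1
  exact h1

/-- a sum of four integers in which the valuation is minimal only once is not zero -/
theorem clm_val {l : ℕ} (hl : l.Prime) (t : Fin 4 → ℤ) (ht : ∀ i, t i ≠ 0) (i₀ : Fin 4)
    (h : ∀ j, j ≠ i₀ → padicValInt l (t i₀) < padicValInt l (t j)) : ∑ i, t i ≠ 0 := by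
  have : Fact l.Prime := ⟨hl⟩
  intro h0
  have h1 : ((l : ℤ) ^ (padicValInt l (t i₀) + 1)) ∣ t i₀ := by
    have hd : ((l : ℤ) ^ (padicValInt l (t i₀) + 1)) ∣ ∑ i ∈ univ.erase i₀, t i := by
      refine Finset.dvd_sum fun j hj => ?_
      rw [padicValInt_dvd_iff]
      exact Or.inr (h j (Finset.ne_of_mem_erase hj))
    rw [← Finset.add_sum_erase _ _ (Finset.mem_univ i₀)] at h0
    refine (dvd_add_left hd).1 ?_
    rw [h0]
    exact dvd_zero _
  rw [padicValInt_dvd_iff] at h1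
  rcases h1 with h1 | h1
  · exact ht i₀ h1
  · omega

theorem clm_min {V : Fin 4 → ℤ} (h : MinOnce (V 0) (V 1) (V 2) (V 3)) :
    ∃ i₀, ∀ j, j ≠ i₀ → V i₀ < V j := by
  rcases h with ⟨h1, h2, h3⟩ | ⟨h1, h2, h3⟩ | ⟨h1, h2, h3⟩ | ⟨h1, h2, h3⟩
  · exact ⟨0, fun j hj => by fin_cases j <;> first | exact absurd rfl hj | assumption⟩
  · exact ⟨1, fun j hj => by fin_cases j <;> first | exact absurd rfl hj | assumption⟩
  · exact ⟨2, fun j hj => by fin_cases j <;> first | exact absurd rfl hj | assumption⟩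
  · exact ⟨3, fun j hj => by fin_cases j <;> first | exact absurd rfl hj | assumption⟩

/-- relations in a cluster are relations between integers -/
theorem clm_rel {p n q K W : ℕ} [NeZero q] (hq : q = p ^ n)
    (hsmall : 4 * (K * W ^ 4) < p ^ (n - 1)) (x : Fin 4 → (ZMod q)ˣ) (A B : Fin 4 → ℤ)
    (hA : ∀ i, 0 < A i ∧ A i ≤ W) (hB : ∀ i, 0 < B i ∧ B i ≤ W)
    (hrel : ∀ i, ((p ^ (n - 1) : ℕ) : ℤ) ∣ A i * ((x i : ZMod q).val : ℤ) - B i)
    (k : Fin 4 → ℕ) (hk : ∀ i, k i ≤ K) (s : Fin 4 → ℤ) (hs : ∀ i, s i = 1 ∨ s i = -1)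
    (h0 : ∑ i, (s i : ZMod q) * ((k i : ZMod q) * (x i : ZMod q)) = 0) :
    ∑ i, s i * k i * B i * ∏ j ∈ univ.erase i, A j = 0 := by
  set Q : ℤ := ((p ^ (n - 1) : ℕ) : ℤ) with hQ
  have h1 : ((q : ℕ) : ℤ) ∣ ∑ i, s i * (k i * ((x i : ZMod q).val : ℤ)) := by
    rw [← ZMod.intCast_zmod_eq_zero_iff_dvd]
    push_cast
    rw [← h0]
    refine Finset.sum_congr rfl fun i _ => ?_
    rw [ZMod.natCast_zmod_val]
  have h2 : Q ∣ ∑ i, s i * (k i * ((x i : ZMod q).val : ℤ)) := by
    refine dvd_trans ?_ h1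
    rw [hQ, hq]
    exact_mod_cast pow_dvd_pow p (Nat.sub_le n 1)
  have h3 : Q ∣ ∑ i, s i * k i * B i * ∏ j ∈ univ.erase i, A j := by
    have e : ∑ i, s i * k i * B i * ∏ j ∈ univ.erase i, A j =
        (∏ j, A j) * (∑ i, s i * (k i * ((x i : ZMod q).val : ℤ))) -
          ∑ i, s i * k i * (∏ j ∈ univ.erase i, A j) * (A i * ((x i : ZMod q).val : ℤ) - B i) := by
      rw [Finset.mul_sum, ← Finset.sum_sub_distrib]
      refine Finset.sum_congr rfl fun i _ => ?_
      rw [← Finset.mul_prod_erase _ _ (Finset.mem_univ i)]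
      ring
    rw [e]
    refine dvd_sub (Dvd.dvd.mul_left h2 _) (Finset.dvd_sum fun i _ => Dvd.dvd.mul_left (hrel i) _)
  refine Int.eq_zero_of_abs_lt_dvd h3 ?_
  have h4 : ∀ i ∈ (univ : Finset (Fin 4)), |s i * k i * B i * ∏ j ∈ univ.erase i, A j| ≤ K * W ^ 4 := by
    intro i _
    have e1 : |s i| = 1 := by
      rcases hs i with h | h <;> rw [h] <;> norm_num
    have e2 : |∏ j ∈ univ.erase i, A j| ≤ (W : ℤ) ^ 3 := by
      rw [Finset.abs_prod]
      have : ∏ j ∈ univ.erase i, |A j| ≤ ∏ _j ∈ univ.erase i, (W : ℤ) :=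
        Finset.prod_le_prod (fun j _ => abs_nonneg _) fun j _ => by
          rw [abs_of_pos (hA j).1]
          exact (hA j).2
      rw [Finset.prod_const, Finset.card_erase_of_mem (Finset.mem_univ i), Finset.card_univ,
        Fintype.card_fin] at this
      exact this
    rw [abs_mul, abs_mul, abs_mul, e1, one_mul, abs_of_pos (hB i).1]
    have e3 : |(k i : ℤ)| ≤ K := by
      rw [abs_of_nonneg (by positivity)]
      exact_mod_cast hk i
    calc |(k i : ℤ)| * B i * |∏ j ∈ univ.erase i, A j| ≤ (K : ℤ) * W * (W : ℤ) ^ 3 := by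
          refine mul_le_mul (mul_le_mul e3 (hB i).2 (hB i).1.le (by positivity)) e2 (abs_nonneg _)
            (by positivity)
      _ = K * W ^ 4 := by ring
  calc |∑ i, s i * k i * B i * ∏ j ∈ univ.erase i, A j| ≤
        ∑ i, |s i * k i * B i * ∏ j ∈ univ.erase i, A j| := Finset.abs_sum_le_sum_abs _ _
    _ ≤ ∑ _i : Fin 4, (K * W ^ 4 : ℤ) := Finset.sum_le_sum h4
    _ = 4 * (K * W ^ 4) := by
        rw [Finset.sum_const, Finset.card_univ, Fintype.card_fin, nsmul_eq_mul]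
        push_cast
        ring
    _ < Q := by
        rw [hQ]
        exact_mod_cast hsmall

theorem clm_padic_term {l : ℕ} (hl : l.Prime) (A B : Fin 4 → ℤ) (hA : ∀ i, 0 < A i)
    (hB : ∀ i, 0 < B i) (k : Fin 4 → ℕ) (hk : ∀ i, 1 ≤ k i ∧ ¬ l ∣ k i) (s : Fin 4 → ℤ)
    (hs : ∀ i, s i = 1 ∨ s i = -1) (i : Fin 4) :
    s i * k i * B i * ∏ j ∈ univ.erase i, A j ≠ 0 ∧
    (padicValInt l (s i * k i * B i * ∏ j ∈ univ.erase i, A j) : ℤ) =
      ((padicValInt l (B i) : ℤ) - padicValInt l (A i)) + padicValInt l (∏ j, A j) := by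
  have : Fact l.Prime := ⟨hl⟩
  have hP : ∏ j ∈ univ.erase i, A j ≠ 0 := Finset.prod_ne_zero_iff.2 fun j _ => (hA j).ne'
  have hs0 : s i ≠ 0 := by
    rcases hs i with h | h <;> rw [h] <;> norm_num
  have hk0 : (k i : ℤ) ≠ 0 := by
    have := (hk i).1
    omega
  have hB0 := (hB i).ne'
  have hA0 := (hA i).ne'
  refine ⟨mul_ne_zero (mul_ne_zero (mul_ne_zero hs0 hk0) hB0) hP, ?_⟩
  rw [padicValInt.mul (mul_ne_zero (mul_ne_zero hs0 hk0) hB0) hP,
    padicValInt.mul (mul_ne_zero hs0 hk0) hB0, padicValInt.mul hs0 hk0,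
    ← Finset.mul_prod_erase _ _ (Finset.mem_univ i), padicValInt.mul hA0 hP]
  have e1 : padicValInt l (s i) = 0 := by
    rcases hs i with h | h <;> rw [h] <;> simp [padicValInt]
  have e2 : padicValInt l (k i : ℤ) = 0 := by
    rw [padicValInt.of_nat]
    exact padicValNat.eq_zero_of_not_dvd (hk i).2
  rw [e1, e2]
  push_cast
  ring

theorem cluster_four {p n q K r W : ℕ} [NeZero q] (_ : p.Prime) (_ : 2 ≤ n) (hq : q = p ^ n)
    {P : Finset ℕ} {B E : Finset (ZMod q)ˣ} {α β : (ZMod q)ˣ → ℤ}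
    (hC : Clu p n q K r P B E α β W) (c : ℕ → ℝ)
    (hc : ∀ k, c k ≠ 0 → ∀ l ∈ P, ¬ l ∣ k) (η : (ZMod q)ˣ) :
    EE q (fun b => (∑ x ∈ B, gq c K ((η : ZMod q) * (x : ZMod q) * b)) ^ 4) ≤
      (4 ^ r * B.card) ^ 2 * EE q (fun b => gq c K b ^ 4) := by
  have hq0 : (0 : ℝ) < q := by exact_mod_cast Nat.pos_of_ne_zero (NeZero.ne q)
  set D := P.card with hD
  set e : Fin D → ℕ := fun i => (P.equivFin.symm i : ℕ) with he
  have heP : ∀ i, e i ∈ P := fun i => (P.equivFin.symm i).2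
  have heS : ∀ l ∈ P, ∃ i, e i = l := fun l hl => ⟨P.equivFin ⟨l, hl⟩, by simp [he]⟩
  set v : (ZMod q)ˣ → Fin D → ℤ := fun x i =>
    (padicValInt (e i) (β x) : ℤ) - padicValInt (e i) (α x) with hv
  have hinj : Set.InjOn v B := by
    intro x hx y hy hxy
    refine hC.sep x hx y hy fun l hl => ?_
    obtain ⟨i, rfl⟩ := heS l hl
    have hl' : Fact (e i).Prime := ⟨(hC.prime _ hl).1⟩
    have h1 := congrFun hxy i
    simp only [hv] at h1
    obtain ⟨ax, bx, -, -⟩ := hC.pos x hx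
    obtain ⟨ay, by', -, -⟩ := hC.pos y hy
    rw [padicValInt.mul bx.ne' ay.ne', padicValInt.mul ax.ne' by'.ne']
    omega
  have hsmall : 4 * (K * W ^ 4) < p ^ (n - 1) := by
    refine lt_of_le_of_lt ?_ hC.small
    rcases Nat.eq_zero_or_pos K with hK | hK
    · simp [hK]
    · have hW := hC.one_le
      calc 4 * (K * W ^ 4) ≤ (16 * K * W) ^ 4 := by
            have h1 : K ≤ K ^ 4 := Nat.le_self_pow (by norm_num) K
            calc 4 * (K * W ^ 4) ≤ 65536 * (K ^ 4 * W ^ 4) := by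
                  have : K * W ^ 4 ≤ K ^ 4 * W ^ 4 := Nat.mul_le_mul_right _ h1
                  omega
              _ = (16 * K * W) ^ 4 := by ring
        _ ≤ (16 * K * W) ^ 16 := Nat.pow_le_pow_right (by positivity) (by norm_num)
  have key := N4_vectors (D := D) (fun (x : (ZMod q)ˣ) (b : ZMod q) =>
    gq c K ((η : ZMod q) * (x : ZMod q) * b)) v B hinj (by
      intro x₀ h₀ x₁ h₁ x₂ h₂ x₃ h₃ ⟨i, hi⟩
      set x : Fin 4 → (ZMod q)ˣ := ![x₀, x₁, x₂, x₃] with hx
      have hxB : ∀ j, x j ∈ B := by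
        intro j
        fin_cases j <;> assumption
      have hl := (hC.prime _ (heP i)).1
      have hzero := corr_zero c K (fun j => (η : ZMod q) * (x j : ZMod q)) (by
        intro k hk s hs h0
        have h0' : ∑ j, (s j : ZMod q) * ((k j : ZMod q) * (x j : ZMod q)) = 0 := by
          have e1 : (η : ZMod q) * ∑ j, (s j : ZMod q) * ((k j : ZMod q) * (x j : ZMod q)) = 0 := by
            rw [← h0, Finset.mul_sum]
            exact Finset.sum_congr rfl fun j _ => by ring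
          exact (Units.mul_right_eq_zero η).1 e1
        have h1 := clm_rel hq hsmall x (fun j => α (x j)) (fun j => β (x j))
          (fun j => ⟨(hC.pos _ (hxB j)).1, (hC.pos _ (hxB j)).2.2.1⟩)
          (fun j => ⟨(hC.pos _ (hxB j)).2.1, (hC.pos _ (hxB j)).2.2.2⟩)
          (fun j => hC.rel _ (hxB j)) k (fun j => (hk j).2.1) s hs h0'
        have hterm := clm_padic_term hl (fun j => α (x j)) (fun j => β (x j))
          (fun j => (hC.pos _ (hxB j)).1) (fun j => (hC.pos _ (hxB j)).2.1) k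
          (fun j => ⟨(hk j).1, hc _ (hk j).2.2 _ (heP i)⟩) s hs
        obtain ⟨i₀, hi₀⟩ := clm_min (V := fun j => v (x j) i) hi
        refine clm_val hl _ (fun j => (hterm j).1) i₀ (fun j hj => ?_) h1
        have e2 := (hterm i₀).2
        have e3 := (hterm j).2
        have e4 := hi₀ j hj
        simp only [hv] at e4
        have : (padicValInt (e i) (s i₀ * k i₀ * β (x i₀) * ∏ j ∈ univ.erase i₀, α (x j)) : ℤ) <
            padicValInt (e i) (s j * k j * β (x j) * ∏ j' ∈ univ.erase j, α (x j')) := by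
          rw [e2, e3]
          linarith
        exact_mod_cast this)
      rw [EE, div_eq_zero_iff] at hzero
      rcases hzero with h4 | h4
      · rw [← h4]
        refine Finset.sum_congr rfl fun b _ => ?_
        rw [Fin.prod_univ_four]
        simp only [hx]
        show _ = gq c K ((η : ZMod q) * (x₀ : ZMod q) * b) * gq c K ((η : ZMod q) * (x₁ : ZMod q) * b) *
          gq c K ((η : ZMod q) * (x₂ : ZMod q) * b) * gq c K ((η : ZMod q) * (x₃ : ZMod q) * b)
        ring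
      · exact absurd h4 hq0.ne')
  have hN : ∀ x : (ZMod q)ˣ, N4 (fun b : ZMod q => gq c K ((η : ZMod q) * (x : ZMod q) * b)) =
      N4 (fun b : ZMod q => gq c K b) := by
    intro x
    unfold N4
    congr 1
    have := Equiv.sum_comp (Units.mulLeft (η * x)) fun b : ZMod q => gq c K b ^ 4
    rw [← this]
    refine Finset.sum_congr rfl fun b _ => ?_
    rw [Units.mulLeft_apply, Units.val_mul]
  rw [Finset.sum_congr rfl fun x _ => hN x, Finset.sum_const, nsmul_eq_mul] at key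
  have hN0 := N4_nonneg (fun b : ZMod q => gq c K b)
  have key2 : N4 (fun b : ZMod q => ∑ x ∈ B, gq c K ((η : ZMod q) * (x : ZMod q) * b)) ≤
      (4 ^ r * B.card) * N4 (fun b : ZMod q => gq c K b) := by
    refine key.trans ?_
    have h5 : (4 : ℝ) ^ D ≤ 4 ^ r := pow_le_pow_right₀ (by norm_num) hC.card_le
    calc (4 : ℝ) ^ D * (B.card * N4 (fun b : ZMod q => gq c K b)) ≤
          4 ^ r * (B.card * N4 (fun b : ZMod q => gq c K b)) := by gcongr
      _ = _ := by ring
  have key3 := pow_le_pow_left₀ (N4_nonneg _) key2 2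
  rw [mul_pow, N4_sq, N4_sq] at key3
  unfold EE
  rw [mul_div_assoc']
  exact div_le_div_of_nonneg_right key3 hq0.le

end Pool.Agent.MU0
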