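import Mathlib

/-!
Sums over the integer relations between four elements no two of which are close.

`Λ` is a group of integer vectors of length four which contains no short nonzero vector supported on
two coordinates. The sum of `∏ a (m i)` over the vectors of `Λ` is split into dyadic boxes: unbalanced
boxes and boxes with few points are negligible, a balanced box with many points gives short vectors
of `Λ` with a given coordinate zero, and every box contributes at most a constant.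
-/

open Finset

namespace Pool.Agent.MU0

/-- the integers of absolute value in `[2^k, 2^(k+1))` -/
noncomputable def shell (k : ℕ) : Finset ℤ := (Ioo (-(2 ^ (k + 1) : ℤ)) (2 ^ (k + 1))).filter fun m => 2 ^ k ≤ |m|

lemma mem_shell {k : ℕ} {m : ℤ} : m ∈ shell k ↔ 2 ^ k ≤ |m| ∧ |m| < 2 ^ (k + 1) := by
  unfold shell
  rw [mem_filter, mem_Ioo, abs_lt]
  tauto

/-- number of divisors of `|m|` -/
noncomputable def qdv (m : ℤ) : ℝ := ((Nat.divisors m.natAbs).card : ℝ)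

lemma qdv_nonneg (m : ℤ) : 0 ≤ qdv m := Nat.cast_nonneg _

lemma one_le_qdv {m : ℤ} (h : m ≠ 0) : 1 ≤ qdv m := by
  unfold qdv
  have : 0 < (Nat.divisors m.natAbs).card := by
    rw [card_pos, Nat.nonempty_divisors]
    exact Int.natAbs_ne_zero.mpr h
  exact_mod_cast this

lemma sum_shell_le (k : ℕ) (F : ℕ → ℝ) (hF : ∀ n, 0 ≤ F n) :
    ∑ m ∈ shell k, F m.natAbs ≤ 2 * ∑ n ∈ range (2 ^ (k + 1)), F n := by
  have h1 : ∑ m ∈ shell k, F m.natAbs = ∑ n ∈ range (2 ^ (k + 1)), ∑ m ∈ (shell k).filter (fun m => m.natAbs = n), F m.natAbs := by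
    rw [Finset.sum_fiberwise_of_maps_to]
    intro m hm
    rw [mem_shell] at hm
    rw [mem_range]
    have : (m.natAbs : ℤ) < 2 ^ (k + 1) := by rw [Int.natCast_natAbs]; exact hm.2
    exact_mod_cast this
  rw [h1, Finset.mul_sum]
  refine Finset.sum_le_sum fun n _ => ?_
  have h2 : ∑ m ∈ (shell k).filter (fun m => m.natAbs = n), F m.natAbs = ((shell k).filter (fun m => m.natAbs = n)).card * F n := by
    rw [← nsmul_eq_mul, ← Finset.sum_const]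
    refine Finset.sum_congr rfl fun m hm => ?_
    rw [mem_filter] at hm
    rw [hm.2]
  rw [h2]
  refine mul_le_mul_of_nonneg_right ?_ (hF n)
  have h3 : (shell k).filter (fun m => m.natAbs = n) ⊆ {(n : ℤ), -(n : ℤ)} := by
    intro m hm
    rw [mem_filter] at hm
    rw [mem_insert, mem_singleton]
    exact Int.natAbs_eq_iff.mp hm.2
  have h4 := (Finset.card_le_card h3).trans Finset.card_le_two
  exact_mod_cast h4

variable (Λ : AddSubgroup (Fin 4 → ℤ))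

open Classical in
/-- vectors of `Λ` in a dyadic box -/
noncomputable def bx (k : Fin 4 → ℕ) : Finset (Fin 4 → ℤ) :=
  (Fintype.piFinset fun i => shell (k i)).filter fun m => m ∈ Λ

variable {Λ}

open Classical in
lemma mem_bx {k : Fin 4 → ℕ} {m : Fin 4 → ℤ} : m ∈ bx Λ k ↔ (∀ i, m i ∈ shell (k i)) ∧ m ∈ Λ := by
  unfold bx
  rw [mem_filter, Fintype.mem_piFinset]

/-- no short nonzero vector supported on two coordinates -/
def QSep (Λ : AddSubgroup (Fin 4 → ℤ)) (J : ℕ) : Prop :=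
  ∀ m ∈ Λ, (∀ i, |m i| ≤ 2 ^ (2 * J + 3)) → ∀ i j, i ≠ j → m i = 0 → m j = 0 → m = 0

lemma bx_sub_le {k : Fin 4 → ℕ} {J : ℕ} (hk : ∀ i, k i < J) {m m' : Fin 4 → ℤ} (hm : m ∈ bx Λ k)
    (hm' : m' ∈ bx Λ k) (i : Fin 4) : |(m - m') i| ≤ 2 ^ (k i + 2) := by
  rw [mem_bx] at hm hm'
  have h1 := (mem_shell.mp (hm.1 i)).2
  have h2 := (mem_shell.mp (hm'.1 i)).2
  have h3 : |(m - m') i| ≤ |m i| + |m' i| := by
    rw [Pi.sub_apply]
    exact abs_sub _ _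
  have h4 : (2 : ℤ) ^ (k i + 2) = 2 ^ (k i + 1) + 2 ^ (k i + 1) := by ring
  linarith

lemma pow_le_two_J {J a : ℕ} (ha : a < J) : (2 : ℤ) ^ (a + 2) ≤ 2 ^ (2 * J + 3) :=
  pow_le_pow_right₀ (by norm_num) (by omega)

lemma bx_inj {k : Fin 4 → ℕ} {J : ℕ} (hsep : QSep Λ J) (hk : ∀ i, k i < J) {i j : Fin 4} (hij : i ≠ j)
    {m m' : Fin 4 → ℤ} (hm : m ∈ bx Λ k) (hm' : m' ∈ bx Λ k) (h1 : m i = m' i) (h2 : m j = m' j) : m = m' := by
  rw [← sub_eq_zero]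
  refine hsep _ (Λ.sub_mem (mem_bx.mp hm).2 (mem_bx.mp hm').2) (fun a => ?_) i j hij ?_ ?_
  · exact (bx_sub_le hk hm hm' a).trans (pow_le_two_J (hk a))
  · rw [Pi.sub_apply, h1, sub_self]
  · rw [Pi.sub_apply, h2, sub_self]

lemma sum_pair {k : Fin 4 → ℕ} {J : ℕ} (hsep : QSep Λ J) (hk : ∀ i, k i < J) {i j : Fin 4} (hij : i ≠ j)
    (f g : ℤ → ℝ) (hf : ∀ x, 0 ≤ f x) (hg : ∀ x, 0 ≤ g x) :
    ∑ m ∈ bx Λ k, f (m i) * g (m j) ≤ (∑ r ∈ shell (k i), f r) * ∑ s ∈ shell (k j), g s := by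
  have h1 : ∑ m ∈ bx Λ k, f (m i) * g (m j) = ∑ x ∈ (bx Λ k).image (fun m => (m i, m j)), f x.1 * g x.2 := by
    rw [Finset.sum_image]
    intro m hm m' hm' h
    simp only [Prod.mk.injEq] at h
    exact bx_inj hsep hk hij hm hm' h.1 h.2
  rw [h1, Finset.sum_mul_sum, ← Finset.sum_product']
  refine Finset.sum_le_sum_of_subset_of_nonneg ?_ fun x _ _ => mul_nonneg (hf _) (hg _)
  intro x hx
  rw [mem_image] at hx
  obtain ⟨m, hm, rfl⟩ := hx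
  rw [mem_bx] at hm
  rw [mem_product]
  exact ⟨hm.1 i, hm.1 j⟩

/-- the hypotheses on the weights -/
structure Wt (a : ℤ → ℝ) (J : ℕ) (C0 D : ℝ) : Prop where
  nonneg : ∀ m, 0 ≤ a m
  div : ∀ m, a m ≤ qdv m / √(|m| : ℤ)
  l2 : ∀ k < J, ∑ m ∈ shell k, a m ^ 2 ≤ C0
  mom : ∀ k ≤ J, ∑ n ∈ range (2 ^ k), (((Nat.divisors n).card : ℝ)) ^ 4 ≤ D * 2 ^ k
  D1 : 1 ≤ D

variable {a : ℤ → ℝ} {J : ℕ} {C0 D : ℝ}

lemma Wt.C0_nonneg (h : Wt a J C0 D) (hJ : 0 < J) : 0 ≤ C0 :=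
  (Finset.sum_nonneg fun _ _ => sq_nonneg _).trans (h.l2 0 hJ)

lemma Wt.sum4 (h : Wt a J C0 D) {k : ℕ} (hk : k < J) : ∑ m ∈ shell k, qdv m ^ 4 ≤ 4 * D * 2 ^ k := by
  have h1 := sum_shell_le k (fun n => (((Nat.divisors n).card : ℝ)) ^ 4) (fun n => by positivity)
  have h2 := h.mom (k + 1) hk
  calc ∑ m ∈ shell k, qdv m ^ 4 ≤ 2 * ∑ n ∈ range (2 ^ (k + 1)), (((Nat.divisors n).card : ℝ)) ^ 4 := h1
    _ ≤ 2 * (D * 2 ^ (k + 1)) := by gcongr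
    _ = 4 * D * 2 ^ k := by ring

lemma Wt.sq_le (h : Wt a J C0 D) {k : ℕ} {m : ℤ} (hm : m ∈ shell k) : a m ^ 2 ≤ qdv m ^ 2 / 2 ^ k := by
  have h1 := h.div m
  have h2 : (2 : ℝ) ^ k ≤ (|m| : ℤ) := by exact_mod_cast (mem_shell.mp hm).1
  have h3 : (0 : ℝ) < (|m| : ℤ) := lt_of_lt_of_le (by positivity) h2
  calc a m ^ 2 ≤ (qdv m / √(|m| : ℤ)) ^ 2 := pow_le_pow_left₀ (h.nonneg m) h1 2
    _ = qdv m ^ 2 / (|m| : ℤ) := by rw [div_pow, Real.sq_sqrt h3.le]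
    _ ≤ qdv m ^ 2 / 2 ^ k := by gcongr

lemma sum_pair_a (h : Wt a J C0 D) {k : Fin 4 → ℕ} (hsep : QSep Λ J) (hk : ∀ i, k i < J) {i j : Fin 4}
    (hij : i ≠ j) : ∑ m ∈ bx Λ k, (a (m i) * a (m j)) ^ 2 ≤ C0 ^ 2 := by
  have hC := h.C0_nonneg (lt_of_le_of_lt (Nat.zero_le _) (hk 0))
  calc ∑ m ∈ bx Λ k, (a (m i) * a (m j)) ^ 2 = ∑ m ∈ bx Λ k, a (m i) ^ 2 * a (m j) ^ 2 :=
        Finset.sum_congr rfl fun m _ => by ring
    _ ≤ (∑ r ∈ shell (k i), a r ^ 2) * ∑ s ∈ shell (k j), a s ^ 2 :=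
        sum_pair hsep hk hij (fun x => a x ^ 2) (fun x => a x ^ 2) (fun _ => sq_nonneg _) (fun _ => sq_nonneg _)
    _ ≤ C0 * C0 := mul_le_mul (h.l2 _ (hk i)) (h.l2 _ (hk j)) (Finset.sum_nonneg fun _ _ => sq_nonneg _) hC
    _ = C0 ^ 2 := by ring

/-- the contribution of a box -/
noncomputable def wb (Λ : AddSubgroup (Fin 4 → ℤ)) (a : ℤ → ℝ) (k : Fin 4 → ℕ) : ℝ :=
  ∑ m ∈ bx Λ k, ∏ i, a (m i)

lemma wb_nonneg (h : Wt a J C0 D) (k : Fin 4 → ℕ) : 0 ≤ wb Λ a k :=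
  Finset.sum_nonneg fun _ _ => Finset.prod_nonneg fun _ _ => h.nonneg _

lemma wb_perm (σ : Equiv.Perm (Fin 4)) (k : Fin 4 → ℕ) : wb Λ a k =
    ∑ m ∈ bx Λ k, (a (m (σ 0)) * a (m (σ 1))) * (a (m (σ 2)) * a (m (σ 3))) := by
  unfold wb
  refine Finset.sum_congr rfl fun m _ => ?_
  rw [← Equiv.prod_comp σ, Fin.prod_univ_four]
  ring

lemma wb_sq_le (h : Wt a J C0 D) {k : Fin 4 → ℕ} (hsep : QSep Λ J) (hk : ∀ i, k i < J) (σ : Equiv.Perm (Fin 4)) :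
    wb Λ a k ^ 2 ≤ C0 ^ 2 * ∑ m ∈ bx Λ k, (a (m (σ 2)) * a (m (σ 3))) ^ 2 := by
  rw [wb_perm σ]
  refine (Finset.sum_mul_sq_le_sq_mul_sq _ _ _).trans ?_
  refine mul_le_mul_of_nonneg_right ?_ (Finset.sum_nonneg fun _ _ => sq_nonneg _)
  exact sum_pair_a h hsep hk (fun e => by simpa using σ.injective e)

/-- every box contributes at most a constant -/
lemma wb_le (h : Wt a J C0 D) {k : Fin 4 → ℕ} (hsep : QSep Λ J) (hk : ∀ i, k i < J) : wb Λ a k ≤ C0 ^ 2 := by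
  have h1 := wb_sq_le h hsep hk 1
  have h2 := sum_pair_a h hsep hk (i := (1 : Equiv.Perm (Fin 4)) 2) (j := (1 : Equiv.Perm (Fin 4)) 3) (by decide)
  have h3 : wb Λ a k ^ 2 ≤ (C0 ^ 2) ^ 2 := by
    refine h1.trans ?_
    rw [sq (C0 ^ 2)]
    exact mul_le_mul_of_nonneg_left h2 (sq_nonneg _)
  exact (pow_le_pow_iff_left₀ (wb_nonneg h k) (sq_nonneg _) two_ne_zero).mp h3

/-- sums of squares with divisor bounds -/
lemma sum_sq_qdv (h : Wt a J C0 D) {k : Fin 4 → ℕ} (i j : Fin 4) :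
    ∑ m ∈ bx Λ k, (a (m i) * a (m j)) ^ 2 ≤ (∑ m ∈ bx Λ k, qdv (m i) ^ 2 * qdv (m j) ^ 2) / 2 ^ (k i + k j) := by
  rw [Finset.sum_div]
  refine Finset.sum_le_sum fun m hm => ?_
  rw [mem_bx] at hm
  rw [mul_pow, pow_add]
  calc a (m i) ^ 2 * a (m j) ^ 2 ≤ (qdv (m i) ^ 2 / 2 ^ k i) * (qdv (m j) ^ 2 / 2 ^ k j) :=
        mul_le_mul (h.sq_le (hm.1 i)) (h.sq_le (hm.1 j)) (sq_nonneg _) (by positivity)
    _ = qdv (m i) ^ 2 * qdv (m j) ^ 2 / (2 ^ k i * 2 ^ k j) := by rw [div_mul_div_comm]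

lemma card_shell (k : ℕ) : ((shell k).card : ℝ) ≤ 4 * 2 ^ k := by
  have h1 := sum_shell_le k (fun _ => 1) (fun _ => zero_le_one)
  simp only [Finset.sum_const, card_range, nsmul_eq_mul, mul_one, Nat.cast_pow, Nat.cast_ofNat] at h1
  calc ((shell k).card : ℝ) ≤ 2 * 2 ^ (k + 1) := h1
    _ = 4 * 2 ^ k := by ring

/-- unbalanced boxes -/
lemma wb_unbalanced (h : Wt a J C0 D) {k : Fin 4 → ℕ} (hsep : QSep Λ J) (hk : ∀ i, k i < J) {κ : ℕ}
    {α β : Fin 4} (hmin : ∀ i, k α ≤ k i) (hαβ : k α + κ ≤ k β) (hne : α ≠ β) :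
    wb Λ a k ^ 4 ≤ 256 * C0 ^ 4 * D ^ 2 / 2 ^ κ := by
  obtain ⟨σ, hσ0, hσ3⟩ : ∃ σ : Equiv.Perm (Fin 4), σ 0 = α ∧ σ 3 = β := by
    clear hmin hαβ h hsep hk
    revert α β
    decide
  have hD := h.D1
  set S := ∑ m ∈ bx Λ k, (a (m (σ 2)) * a (m (σ 3))) ^ 2 with hS
  have h1 := wb_sq_le h hsep hk σ
  rw [← hS] at h1
  have h2 := sum_sq_qdv (Λ := Λ) h (k := k) (σ 2) (σ 3)
  rw [← hS] at h2
  have hS0 : 0 ≤ S := Finset.sum_nonneg fun _ _ => sq_nonneg _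
  set Q := ∑ m ∈ bx Λ k, qdv (m (σ 2)) ^ 2 * qdv (m (σ 3)) ^ 2 with hQ
  have hQ0 : 0 ≤ Q := Finset.sum_nonneg fun _ _ => by positivity
  have h3 : Q ^ 2 ≤ (∑ m ∈ bx Λ k, (qdv (m (σ 2)) ^ 2) ^ 2) * ∑ m ∈ bx Λ k, (qdv (m (σ 3)) ^ 2) ^ 2 :=
    Finset.sum_mul_sq_le_sq_mul_sq _ _ _
  have h02 : σ 0 ≠ σ 2 := fun e => by simpa using σ.injective e
  have h03 : σ 0 ≠ σ 3 := fun e => by simpa using σ.injective e
  have h4 : ∀ j, σ 0 ≠ j → ∑ m ∈ bx Λ k, (qdv (m j) ^ 2) ^ 2 ≤ 16 * D * 2 ^ (k α + k j) := by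
    intro j hj
    have e1 : ∑ m ∈ bx Λ k, (qdv (m j) ^ 2) ^ 2 = ∑ m ∈ bx Λ k, (fun _ => (1 : ℝ)) (m (σ 0)) * (fun x => qdv x ^ 4) (m j) :=
      Finset.sum_congr rfl fun m _ => by simp only; ring
    rw [e1]
    refine (sum_pair hsep hk hj (fun _ => (1 : ℝ)) (fun x => qdv x ^ 4) (fun _ => zero_le_one)
      (fun x => by positivity)).trans ?_
    have e2 := card_shell (k (σ 0))
    have e3 := h.sum4 (hk j)
    rw [Finset.sum_const, nsmul_eq_mul, mul_one, hσ0, pow_add]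
    rw [hσ0] at e2
    calc ((shell (k α)).card : ℝ) * ∑ s ∈ shell (k j), qdv s ^ 4 ≤ (4 * 2 ^ k α) * (4 * D * 2 ^ k j) :=
          mul_le_mul e2 e3 (Finset.sum_nonneg fun _ _ => by positivity) (by positivity)
      _ = 16 * D * (2 ^ k α * 2 ^ k j) := by ring
  have h5 : Q ^ 2 ≤ 256 * D ^ 2 * (2 ^ (k α + k (σ 2)) * 2 ^ (k α + k (σ 3))) := by
    refine h3.trans ((mul_le_mul (h4 _ h02) (h4 _ h03) (Finset.sum_nonneg fun _ _ => by positivity) (by positivity)).trans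
      (le_of_eq (by ring)))
  have h6 : S ^ 2 ≤ 256 * D ^ 2 / 2 ^ κ := by
    have e1 : S ^ 2 ≤ (Q / 2 ^ (k (σ 2) + k (σ 3))) ^ 2 := pow_le_pow_left₀ hS0 h2 2
    refine e1.trans ?_
    rw [div_pow, div_le_div_iff₀ (by positivity) (by positivity)]
    have e2 : (2 : ℝ) ^ (k α + k (σ 2)) * 2 ^ (k α + k (σ 3)) * 2 ^ κ ≤ (2 ^ (k (σ 2) + k (σ 3))) ^ 2 := by
      rw [← pow_add, ← pow_add, ← pow_mul]
      refine pow_le_pow_right₀ (by norm_num) ?_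
      have := hmin (σ 2)
      rw [hσ3]
      omega
    calc Q ^ 2 * 2 ^ κ ≤ 256 * D ^ 2 * (2 ^ (k α + k (σ 2)) * 2 ^ (k α + k (σ 3))) * 2 ^ κ := by gcongr
      _ = 256 * D ^ 2 * (2 ^ (k α + k (σ 2)) * 2 ^ (k α + k (σ 3)) * 2 ^ κ) := by ring
      _ ≤ 256 * D ^ 2 * (2 ^ (k (σ 2) + k (σ 3))) ^ 2 := by gcongr
  calc wb Λ a k ^ 4 = (wb Λ a k ^ 2) ^ 2 := by ring
    _ ≤ (C0 ^ 2 * S) ^ 2 := pow_le_pow_left₀ (sq_nonneg _) h1 2
    _ = C0 ^ 4 * S ^ 2 := by ring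
    _ ≤ C0 ^ 4 * (256 * D ^ 2 / 2 ^ κ) := by
        have hC := h.C0_nonneg (lt_of_le_of_lt (Nat.zero_le _) (hk 0))
        gcongr
    _ = 256 * C0 ^ 4 * D ^ 2 / 2 ^ κ := by ring

/-- boxes with few points -/
lemma wb_sparse (h : Wt a J C0 D) {k : Fin 4 → ℕ} (hsep : QSep Λ J) (hk : ∀ i, k i < J) {ρ : ℝ}
    (hcard : ((bx Λ k).card : ℝ) ≤ ρ * 2 ^ (k 2 + k 3)) :
    wb Λ a k ^ 4 ≤ 16 * C0 ^ 4 * D ^ 2 * ρ := by
  have hD := h.D1
  have h1 := wb_sq_le h hsep hk 1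
  simp only [Equiv.Perm.coe_one, id_eq] at h1
  set S := ∑ m ∈ bx Λ k, (a (m 2) * a (m 3)) ^ 2 with hS
  have h2 := sum_sq_qdv (Λ := Λ) h (k := k) 2 3
  rw [← hS] at h2
  have hS0 : 0 ≤ S := Finset.sum_nonneg fun _ _ => sq_nonneg _
  set Q := ∑ m ∈ bx Λ k, qdv (m 2) ^ 2 * qdv (m 3) ^ 2 with hQ
  have hQ0 : 0 ≤ Q := Finset.sum_nonneg fun _ _ => by positivity
  have h3 : Q ^ 2 ≤ ((bx Λ k).card : ℝ) * ∑ m ∈ bx Λ k, (qdv (m 2) ^ 2 * qdv (m 3) ^ 2) ^ 2 := by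
    have := Finset.sum_mul_sq_le_sq_mul_sq (bx Λ k) (fun _ => (1 : ℝ)) (fun m => qdv (m 2) ^ 2 * qdv (m 3) ^ 2)
    simpa using this
  have h4 : ∑ m ∈ bx Λ k, (qdv (m 2) ^ 2 * qdv (m 3) ^ 2) ^ 2 ≤ 16 * D ^ 2 * 2 ^ (k 2 + k 3) := by
    have e1 : ∑ m ∈ bx Λ k, (qdv (m 2) ^ 2 * qdv (m 3) ^ 2) ^ 2 = ∑ m ∈ bx Λ k, (fun x => qdv x ^ 4) (m 2) * (fun x => qdv x ^ 4) (m 3) :=
      Finset.sum_congr rfl fun m _ => by simp only; ring
    rw [e1]
    refine (sum_pair hsep hk (i := 2) (j := 3) (by decide) (fun x => qdv x ^ 4) (fun x => qdv x ^ 4)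
      (fun x => by positivity) (fun x => by positivity)).trans ?_
    have e2 := h.sum4 (hk 2)
    have e3 := h.sum4 (hk 3)
    rw [pow_add]
    calc (∑ r ∈ shell (k 2), qdv r ^ 4) * ∑ s ∈ shell (k 3), qdv s ^ 4 ≤ (4 * D * 2 ^ k 2) * (4 * D * 2 ^ k 3) :=
          mul_le_mul e2 e3 (Finset.sum_nonneg fun _ _ => by positivity) (by positivity)
      _ = 16 * D ^ 2 * (2 ^ k 2 * 2 ^ k 3) := by ring
  have h5 : Q ^ 2 ≤ 16 * D ^ 2 * ρ * (2 ^ (k 2 + k 3)) ^ 2 := by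
    refine h3.trans ?_
    calc ((bx Λ k).card : ℝ) * ∑ m ∈ bx Λ k, (qdv (m 2) ^ 2 * qdv (m 3) ^ 2) ^ 2
        ≤ (ρ * 2 ^ (k 2 + k 3)) * (16 * D ^ 2 * 2 ^ (k 2 + k 3)) :=
          mul_le_mul hcard h4 (Finset.sum_nonneg fun _ _ => by positivity) (le_trans (Nat.cast_nonneg _) hcard)
      _ = 16 * D ^ 2 * ρ * (2 ^ (k 2 + k 3)) ^ 2 := by ring
  have h6 : S ^ 2 ≤ 16 * D ^ 2 * ρ := by
    have e1 : S ^ 2 ≤ (Q / 2 ^ (k 2 + k 3)) ^ 2 := pow_le_pow_left₀ hS0 h2 2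
    refine e1.trans ?_
    rw [div_pow, div_le_iff₀ (by positivity)]
    exact h5
  calc wb Λ a k ^ 4 = (wb Λ a k ^ 2) ^ 2 := by ring
    _ ≤ (C0 ^ 2 * S) ^ 2 := pow_le_pow_left₀ (sq_nonneg _) h1 2
    _ = C0 ^ 4 * S ^ 2 := by ring
    _ ≤ C0 ^ 4 * (16 * D ^ 2 * ρ) := by
        have hC := h.C0_nonneg (lt_of_le_of_lt (Nat.zero_le _) (hk 0))
        gcongr
    _ = 16 * C0 ^ 4 * D ^ 2 * ρ := by ring

/-- two close elements of a finite set of integers -/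
lemma exists_close (A : Finset ℤ) (c : ℤ) (T L : ℕ) (hT : 0 < T) (hA : T < A.card)
    (h : ∀ x ∈ A, c ≤ x ∧ x < c + L) : ∃ x ∈ A, ∃ y ∈ A, x < y ∧ (y - x) * T < L := by
  have hne : A.Nonempty := by
    rw [← Finset.card_pos]
    omega
  obtain ⟨x0, hx0⟩ := hne
  have hL : (0 : ℤ) < L := by
    have := h x0 hx0
    linarith
  have hT' : (0 : ℤ) < T := by exact_mod_cast hT
  have hmaps : ∀ x ∈ A, (x - c) * T / L ∈ Ico (0 : ℤ) T := by
    intro x hx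
    obtain ⟨h1, h2⟩ := h x hx
    rw [mem_Ico]
    constructor
    · exact Int.ediv_nonneg (mul_nonneg (by linarith) hT'.le) hL.le
    · rw [Int.ediv_lt_iff_lt_mul hL, mul_comm]
      exact mul_lt_mul_of_pos_left (by linarith) hT'
  have hcard : (Ico (0 : ℤ) T).card < A.card := by
    rw [Int.card_Ico]
    simpa using hA
  obtain ⟨x, hx, y, hy, hxy, he⟩ := Finset.exists_ne_map_eq_of_card_lt_of_maps_to hcard hmaps
  have key : ∀ x y : ℤ, (x - c) * T / L = (y - c) * T / L → (y - x) * T < L := by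
    intro x y he
    have h1 : (x - c) * T ≥ (x - c) * T / L * L := Int.ediv_mul_le _ hL.ne'
    have h2 := Int.lt_ediv_add_one_mul_self ((y - c) * T) hL
    rw [← he] at h2
    nlinarith
  rcases lt_or_gt_of_ne hxy with h1 | h1
  · exact ⟨x, hx, y, hy, h1, key x y he⟩
  · exact ⟨y, hy, x, hx, h1, key y x he.symm⟩

/-- two distant elements -/
lemma exists_far (A : Finset ℤ) (T : ℕ) (hA : T < A.card) : ∃ x ∈ A, ∃ y ∈ A, (T : ℤ) ≤ y - x := by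
  have hne : A.Nonempty := by
    rw [← Finset.card_pos]
    omega
  refine ⟨A.min' hne, A.min'_mem hne, A.max' hne, A.max'_mem hne, ?_⟩
  have h1 : A ⊆ Icc (A.min' hne) (A.max' hne) := by
    intro x hx
    rw [mem_Icc]
    exact ⟨A.min'_le x hx, A.le_max' x hx⟩
  have h2 := Finset.card_le_card h1
  rw [Int.card_Icc] at h2
  omega

/-- short vectors of `Λ` with a given coordinate zero -/
def SmallRel (Λ : AddSubgroup (Fin 4 → ℤ)) (B : ℝ) : Prop :=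
  ∀ l, ∃ w ∈ Λ, w l = 0 ∧ (∀ i, i ≠ l → w i ≠ 0) ∧ ∀ i, ((|w i| : ℤ) : ℝ) ≤ B

/-- a balanced box with many points gives short vectors -/
lemma dense_rel {k : Fin 4 → ℕ} (hsep : QSep Λ J) (hk : ∀ i, k i < J) {κ : ℕ} (hbal : ∀ i j, k i ≤ k j + κ)
    {ρ : ℝ} (hρ : 0 < ρ) (hρ1 : ρ ≤ 1) (hX : ∀ i, (2 : ℝ) ^ (2 * κ + 3) ≤ ρ * 2 ^ k i)
    (hcard : ρ * 2 ^ (k 2 + k 3) < ((bx Λ k).card : ℝ)) : SmallRel Λ (2 ^ (5 * κ + 10) / ρ ^ 2) := by
  intro l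
  obtain ⟨i0, hi0⟩ : ∃ i0 : Fin 4, i0 ≠ l := by
    revert l
    decide
  -- a fibre
  obtain ⟨v, hv, hvc⟩ : ∃ v ∈ shell (k l), ((bx Λ k).card : ℝ) ≤ (4 * 2 ^ k l) * (((bx Λ k).filter fun m => m l = v).card : ℝ) := by
    by_contra hcon
    push Not at hcon
    have h1 : ((bx Λ k).card : ℝ) = ∑ v ∈ shell (k l), (((bx Λ k).filter fun m => m l = v).card : ℝ) := by
      rw [Finset.card_eq_sum_card_fiberwise (f := fun m => m l) (t := shell (k l)) (fun m hm => (mem_bx.mp hm).1 l)]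
      push_cast
      rfl
    have hpos : (0 : ℝ) < (bx Λ k).card := lt_of_le_of_lt (by positivity) hcard
    have hne : (shell (k l)).Nonempty := ⟨2 ^ k l, by
      rw [mem_shell, abs_of_pos (by positivity)]
      exact ⟨le_rfl, pow_lt_pow_right₀ (by norm_num) (Nat.lt_succ_self _)⟩⟩
    have h2 : ∑ v ∈ shell (k l), (((bx Λ k).filter fun m => m l = v).card : ℝ) <
        ∑ v ∈ shell (k l), ((bx Λ k).card : ℝ) / (4 * 2 ^ k l) := by
      refine Finset.sum_lt_sum_of_nonempty hne fun v hv => ?_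
      rw [lt_div_iff₀ (by positivity), mul_comm]
      exact hcon v hv
    rw [Finset.sum_const, nsmul_eq_mul, ← h1] at h2
    have h3 := card_shell (k l)
    have h4 : ((shell (k l)).card : ℝ) * (((bx Λ k).card : ℝ) / (4 * 2 ^ k l)) ≤ (bx Λ k).card := by
      rw [← mul_div_assoc, div_le_iff₀ (by positivity), mul_comm]
      exact mul_le_mul_of_nonneg_left h3 hpos.le
    linarith
  set F := (bx Λ k).filter fun m => m l = v with hF
  have hFm : ∀ m ∈ F, m ∈ bx Λ k ∧ m l = v := by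
    intro m hm
    rw [hF, mem_filter] at hm
    exact hm
  -- the number of points of the fibre
  have hFc : ∀ i, ρ * 2 ^ k i / 2 ^ (2 * κ + 2) < (F.card : ℝ) := by
    intro i
    have h1 : ρ * 2 ^ (k 2 + k 3) < (4 * 2 ^ k l) * (F.card : ℝ) := lt_of_lt_of_le hcard hvc
    have h2 : (2 : ℝ) ^ (k i + k l) ≤ 2 ^ (k 2 + k 3) * 2 ^ (2 * κ) := by
      rw [← pow_add]
      refine pow_le_pow_right₀ (by norm_num) ?_
      have := hbal i 2
      have := hbal l 3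
      omega
    have h3 : ρ * 2 ^ (k i + k l) < (4 * 2 ^ k l) * (F.card : ℝ) * 2 ^ (2 * κ) := by
      calc ρ * 2 ^ (k i + k l) ≤ ρ * (2 ^ (k 2 + k 3) * 2 ^ (2 * κ)) := by gcongr
        _ = ρ * 2 ^ (k 2 + k 3) * 2 ^ (2 * κ) := by ring
        _ < (4 * 2 ^ k l) * (F.card : ℝ) * 2 ^ (2 * κ) := by gcongr
    have h4 : (0 : ℝ) < 2 ^ k l := by positivity
    rw [div_lt_iff₀ (by positivity)]
    have h5 : ρ * 2 ^ k i * 2 ^ k l < (F.card : ℝ) * 2 ^ (2 * κ + 2) * 2 ^ k l := by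
      calc ρ * 2 ^ k i * 2 ^ k l = ρ * 2 ^ (k i + k l) := by rw [pow_add]; ring
        _ < (4 * 2 ^ k l) * (F.card : ℝ) * 2 ^ (2 * κ) := h3
        _ = (F.card : ℝ) * 2 ^ (2 * κ + 2) * 2 ^ k l := by rw [pow_add]; ring
    exact lt_of_mul_lt_mul_right h5 h4.le
  -- the coordinate i0
  set A := F.image fun m => m i0 with hA
  have hAc : A.card = F.card := by
    rw [hA, Finset.card_image_of_injOn]
    intro m hm m' hm' he
    obtain ⟨h1, h2⟩ := hFm m hm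
    obtain ⟨h1', h2'⟩ := hFm m' hm'
    exact bx_inj hsep hk hi0 h1 h1' he (h2.trans h2'.symm)
  obtain ⟨T, hT⟩ : ∃ T, T + 1 = F.card := by
    have h1 := hFc i0
    have h2 : (0 : ℝ) < F.card := lt_of_le_of_lt (by positivity) h1
    have h3 : 0 < F.card := by exact_mod_cast h2
    exact ⟨F.card - 1, by omega⟩
  have hTr : ρ * 2 ^ k i0 / 2 ^ (2 * κ + 3) ≤ (T : ℝ) := by
    have h1 := hFc i0
    rw [← hT] at h1
    push_cast at h1
    have h2 : (1 : ℝ) ≤ ρ * 2 ^ k i0 / 2 ^ (2 * κ + 3) := by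
      rw [le_div_iff₀ (by positivity), one_mul]
      exact hX i0
    have h3 : ρ * 2 ^ k i0 / 2 ^ (2 * κ + 2) = 2 * (ρ * 2 ^ k i0 / 2 ^ (2 * κ + 3)) := by
      have e : (2 : ℝ) ^ (2 * κ + 3) = 2 ^ (2 * κ + 2) * 2 := by ring
      rw [e]
      field_simp
    rw [h3] at h1
    linarith
  have hT1 : (1 : ℝ) ≤ T := by
    refine le_trans ?_ hTr
    rw [le_div_iff₀ (by positivity), one_mul]
    exact hX i0
  have hT0 : 0 < T := by exact_mod_cast (lt_of_lt_of_le one_pos hT1)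
  obtain ⟨x, hx, y, hy, hxy, hclose⟩ := exists_close A (-(2 ^ (k i0 + 1))) T (2 ^ (k i0 + 2)) hT0 (by omega) (by
    intro z hz
    rw [hA, mem_image] at hz
    obtain ⟨m, hm, rfl⟩ := hz
    have h1 := (mem_shell.mp ((mem_bx.mp (hFm m hm).1).1 i0)).2
    rw [abs_lt] at h1
    have h2 : (-(2 ^ (k i0 + 1)) : ℤ) + ((2 ^ (k i0 + 2) : ℕ) : ℤ) = 2 ^ (k i0 + 1) := by
      push_cast
      ring
    rw [h2]
    exact ⟨h1.1.le, h1.2⟩)
  obtain ⟨x', hx', y', hy', hfar⟩ := exists_far A T (by omega)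
  rw [hA, mem_image] at hx hy hx' hy'
  obtain ⟨m, hm, rfl⟩ := hx
  obtain ⟨m', hm', rfl⟩ := hy
  obtain ⟨n, hn, rfl⟩ := hx'
  obtain ⟨n', hn', rfl⟩ := hy'
  obtain ⟨δ, hδ⟩ : ∃ δ, δ = m' - m := ⟨_, rfl⟩
  obtain ⟨Δ, hΔ⟩ : ∃ Δ, Δ = n' - n := ⟨_, rfl⟩
  have hδΛ : δ ∈ Λ := by rw [hδ]; exact Λ.sub_mem (mem_bx.mp (hFm _ hm').1).2 (mem_bx.mp (hFm _ hm).1).2
  have hΔΛ : Δ ∈ Λ := by rw [hΔ]; exact Λ.sub_mem (mem_bx.mp (hFm _ hn').1).2 (mem_bx.mp (hFm _ hn).1).2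
  have hδs : ∀ i, |δ i| ≤ 2 ^ (k i + 2) := fun i => by rw [hδ]; exact bx_sub_le hk (hFm _ hm').1 (hFm _ hm).1 i
  have hΔs : ∀ i, |Δ i| ≤ 2 ^ (k i + 2) := fun i => by rw [hΔ]; exact bx_sub_le hk (hFm _ hn').1 (hFm _ hn).1 i
  have hδl : δ l = 0 := by rw [hδ, Pi.sub_apply, (hFm _ hm').2, (hFm _ hm).2, sub_self]
  have hΔl : Δ l = 0 := by rw [hΔ, Pi.sub_apply, (hFm _ hn').2, (hFm _ hn).2, sub_self]
  have hδ0 : 0 < δ i0 := by rw [hδ, Pi.sub_apply]; linarith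
  have hδT : δ i0 * T < 2 ^ (k i0 + 2) := by
    rw [hδ, Pi.sub_apply]
    exact_mod_cast hclose
  have hΔT : (T : ℤ) ≤ Δ i0 := by rw [hΔ, Pi.sub_apply]; exact hfar
  -- proportionality
  have hprop : ∀ j, Δ i0 * δ j = δ i0 * Δ j := by
    have hu : Δ i0 • δ - δ i0 • Δ = 0 := by
      refine hsep _ (Λ.sub_mem (Λ.zsmul_mem hδΛ _) (Λ.zsmul_mem hΔΛ _)) (fun i => ?_) l i0 (Ne.symm hi0) ?_ ?_
      · have hJ : ∀ i, (2 : ℤ) ^ (k i + 2) ≤ 2 ^ (J + 1) := fun i => pow_le_pow_right₀ (by norm_num) (by have := hk i; omega)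
        have e1 := (hδs i).trans (hJ i)
        have e2 := (hΔs i).trans (hJ i)
        have e3 := (hδs i0).trans (hJ i0)
        have e4 := (hΔs i0).trans (hJ i0)
        rw [Pi.sub_apply, Pi.smul_apply, Pi.smul_apply, smul_eq_mul, smul_eq_mul]
        refine (abs_sub _ _).trans ?_
        rw [abs_mul, abs_mul]
        calc |Δ i0| * |δ i| + |δ i0| * |Δ i| ≤ 2 ^ (J + 1) * 2 ^ (J + 1) + 2 ^ (J + 1) * 2 ^ (J + 1) := by gcongr
          _ = 2 ^ (2 * J + 3) := by ring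
      · rw [Pi.sub_apply, Pi.smul_apply, Pi.smul_apply, smul_eq_mul, smul_eq_mul, hδl, hΔl, mul_zero, mul_zero, sub_zero]
      · rw [Pi.sub_apply, Pi.smul_apply, Pi.smul_apply, smul_eq_mul, smul_eq_mul]
        ring
    intro j
    have := congrFun hu j
    rw [Pi.sub_apply, Pi.smul_apply, Pi.smul_apply, smul_eq_mul, smul_eq_mul, Pi.zero_apply] at this
    linarith
  have hpow : (0 : ℝ) < 2 ^ (2 * κ + 3) := by positivity
  have hTr' : ρ * 2 ^ k i0 ≤ (T : ℝ) * 2 ^ (2 * κ + 3) := by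
    rwa [div_le_iff₀ hpow] at hTr
  have hTR : (0 : ℝ) < T := by linarith
  refine ⟨δ, hδΛ, hδl, fun i hi he => ?_, fun j => ?_⟩
  · have h0 := hsep δ hδΛ (fun i => (hδs i).trans (pow_le_two_J (hk i))) i l hi he hδl
    rw [h0, Pi.zero_apply] at hδ0
    exact lt_irrefl _ hδ0
  · -- the size
    have h1 : (|δ j| : ℤ) * ((T : ℤ) * T) ≤ 2 ^ (k j + 2) * 2 ^ (k i0 + 2) := by
      have e1 : |Δ i0| * |δ j| = |δ i0| * |Δ j| := by rw [← abs_mul, ← abs_mul, hprop j]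
      have e2 : (T : ℤ) ≤ |Δ i0| := hΔT.trans (le_abs_self _)
      have e3 : |δ i0| * T ≤ 2 ^ (k i0 + 2) := by rw [abs_of_pos hδ0]; exact hδT.le
      have hT0' : (0 : ℤ) ≤ T := Int.natCast_nonneg T
      calc (|δ j| : ℤ) * ((T : ℤ) * T) = (T * |δ j|) * T := by ring
        _ ≤ (|Δ i0| * |δ j|) * T := by gcongr
        _ = |Δ j| * (|δ i0| * T) := by rw [e1]; ring
        _ ≤ 2 ^ (k j + 2) * 2 ^ (k i0 + 2) := mul_le_mul (hΔs j) e3 (by positivity) (by positivity)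
    have h2 : ((|δ j| : ℤ) : ℝ) * ((T : ℝ) * T) ≤ 2 ^ (k j + 2) * 2 ^ (k i0 + 2) := by exact_mod_cast h1
    have h3 : ((|δ j| : ℤ) : ℝ) * (ρ * 2 ^ k i0) ^ 2 ≤ 2 ^ (k j + k i0 + 4) * 2 ^ (4 * κ + 6) := by
      calc ((|δ j| : ℤ) : ℝ) * (ρ * 2 ^ k i0) ^ 2 ≤ ((|δ j| : ℤ) : ℝ) * ((T : ℝ) * 2 ^ (2 * κ + 3)) ^ 2 := by
            have : (0 : ℝ) ≤ ((|δ j| : ℤ) : ℝ) := by exact_mod_cast abs_nonneg (δ j)
            gcongr
        _ = ((|δ j| : ℤ) : ℝ) * ((T : ℝ) * T) * 2 ^ (4 * κ + 6) := by ring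
        _ ≤ (2 ^ (k j + 2) * 2 ^ (k i0 + 2)) * 2 ^ (4 * κ + 6) := by gcongr
        _ = 2 ^ (k j + k i0 + 4) * 2 ^ (4 * κ + 6) := by ring
    have h4 : (2 : ℝ) ^ (k j + k i0 + 4) * 2 ^ (4 * κ + 6) ≤ 2 ^ (5 * κ + 10) * (2 ^ k i0) ^ 2 := by
      rw [← pow_add, ← pow_mul, ← pow_add]
      refine pow_le_pow_right₀ (by norm_num) ?_
      have := hbal j i0
      omega
    rw [le_div_iff₀ (by positivity)]
    have h5 : (0 : ℝ) < (2 ^ k i0) ^ 2 := by positivity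
    refine le_of_mul_le_mul_right ?_ h5
    calc ((|δ j| : ℤ) : ℝ) * ρ ^ 2 * (2 ^ k i0) ^ 2 = ((|δ j| : ℤ) : ℝ) * (ρ * 2 ^ k i0) ^ 2 := by ring
      _ ≤ 2 ^ (k j + k i0 + 4) * 2 ^ (4 * κ + 6) := h3
      _ ≤ 2 ^ (5 * κ + 10) * (2 ^ k i0) ^ 2 := h4

/-- the number of balanced boxes -/
lemma card_balanced (J κ : ℕ) : (((Fintype.piFinset fun _ : Fin 4 => range J).filter
    fun k => ∀ i j, k i ≤ k j + κ).card) ≤ J * (2 * κ + 1) ^ 3 := by
  have h1 : (range J ×ˢ Fintype.piFinset fun _ : Fin 3 => range (2 * κ + 1)).card = J * (2 * κ + 1) ^ 3 := by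
    rw [card_product, card_range, Fintype.card_piFinset, Fin.prod_univ_three, card_range]
    ring
  rw [← h1]
  refine Finset.card_le_card_of_injOn (fun k => (k 0, fun i : Fin 3 => k i.succ + κ - k 0)) ?_ ?_
  · intro k hk
    rw [Finset.mem_coe, mem_filter, Fintype.mem_piFinset] at hk
    rw [Finset.mem_coe, mem_product, Fintype.mem_piFinset]
    refine ⟨hk.1 0, fun i => ?_⟩
    rw [mem_range]
    have := hk.2 i.succ 0
    have := hk.2 0 i.succ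
    dsimp only
    omega
  · intro k hk k' hk' he
    rw [Finset.mem_coe, mem_filter] at hk hk'
    simp only [Prod.mk.injEq] at he
    funext i
    refine Fin.cases he.1 (fun j => ?_) i
    have h2 := congrFun he.2 j
    have := hk.2 0 j.succ
    have := hk'.2 0 j.succ
    have := he.1
    omega

open Classical in
/-- the sum over the relations between four separated elements -/
theorem quad_sum (h : Wt a J C0 D) (hsep : QSep Λ J) {k0 κ : ℕ} {ρ ε : ℝ} (hκ : 1 ≤ κ) (hρ : 0 < ρ) (hρ1 : ρ ≤ 1)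
    (hε : 0 ≤ ε) (hε1 : 256 * C0 ^ 4 * D ^ 2 / 2 ^ κ ≤ ε ^ 4) (hε2 : 16 * C0 ^ 4 * D ^ 2 * ρ ≤ ε ^ 4)
    (hk0 : (2 : ℝ) ^ (2 * κ + 3) ≤ ρ * 2 ^ k0) (hlow : ∀ m : ℤ, |m| < 2 ^ k0 → a m = 0)
    (hhigh : ∀ m : ℤ, 2 ^ J ≤ |m| → a m = 0) :
    (∑ m ∈ (Fintype.piFinset fun _ : Fin 4 => Ioo (-(2 ^ J : ℤ)) (2 ^ J)).filter (fun m => m ∈ Λ), ∏ i, a (m i)) ≤
      (J : ℝ) ^ 4 * ε + if SmallRel Λ (2 ^ (5 * κ + 10) / ρ ^ 2) then (J : ℝ) * (2 * κ + 1) ^ 3 * C0 ^ 2 else 0 := by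
  set Bx := (Fintype.piFinset fun _ : Fin 4 => Ioo (-(2 ^ J : ℤ)) (2 ^ J)).filter (fun m => m ∈ Λ) with hBx
  set K := Fintype.piFinset fun _ : Fin 4 => range J with hK
  -- reduction to boxes
  have h1 : ∑ m ∈ Bx, ∏ i, a (m i) = ∑ m ∈ Bx.filter (fun m => ∏ i, a (m i) ≠ 0), ∏ i, a (m i) :=
    (Finset.sum_filter_ne_zero _).symm
  have hF : ∀ m ∈ Bx.filter (fun m => ∏ i, a (m i) ≠ 0), m ∈ Λ ∧ ∀ i, 2 ^ k0 ≤ |m i| ∧ |m i| < 2 ^ J := by
    intro m hm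
    rw [mem_filter, hBx, mem_filter] at hm
    refine ⟨hm.1.2, fun i => ?_⟩
    have h2 : a (m i) ≠ 0 := fun h0 => hm.2 (Finset.prod_eq_zero (mem_univ i) h0)
    constructor
    · by_contra h3
      push Not at h3
      exact h2 (hlow _ h3)
    · by_contra h3
      push Not at h3
      exact h2 (hhigh _ h3)
  have hlog : ∀ m ∈ Bx.filter (fun m => ∏ i, a (m i) ≠ 0), ∀ i, m i ∈ shell (Nat.log 2 (m i).natAbs) ∧
      k0 ≤ Nat.log 2 (m i).natAbs ∧ Nat.log 2 (m i).natAbs < J := by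
    intro m hm i
    obtain ⟨h2, h3⟩ := (hF m hm).2 i
    have h4 : 2 ^ k0 ≤ (m i).natAbs := by
      have : ((2 ^ k0 : ℕ) : ℤ) ≤ ((m i).natAbs : ℤ) := by rw [Int.natCast_natAbs]; exact_mod_cast h2
      exact_mod_cast this
    have h5 : (m i).natAbs < 2 ^ J := by
      have : ((m i).natAbs : ℤ) < ((2 ^ J : ℕ) : ℤ) := by rw [Int.natCast_natAbs]; exact_mod_cast h3
      exact_mod_cast this
    have h6 : (m i).natAbs ≠ 0 := by
      have : 0 < 2 ^ k0 := by positivity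
      omega
    refine ⟨?_, Nat.le_log_of_pow_le (by norm_num) h4, Nat.log_lt_of_lt_pow h6 h5⟩
    rw [mem_shell, ← Int.natCast_natAbs]
    constructor
    · exact_mod_cast Nat.pow_log_le_self 2 h6
    · exact_mod_cast Nat.lt_pow_succ_log_self (by norm_num) _
  set Kc := Fintype.piFinset fun _ : Fin 4 => Ico k0 J with hKc
  have h2 : ∑ m ∈ Bx.filter (fun m => ∏ i, a (m i) ≠ 0), ∏ i, a (m i) ≤ ∑ k ∈ Kc, wb Λ a k := by
    rw [← Finset.sum_fiberwise_of_maps_to (g := fun m i => Nat.log 2 (m i).natAbs) (t := Kc)]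
    · refine Finset.sum_le_sum fun k _ => ?_
      unfold wb
      refine Finset.sum_le_sum_of_subset_of_nonneg ?_ fun _ _ _ => Finset.prod_nonneg fun _ _ => h.nonneg _
      intro m hm
      rw [mem_filter] at hm
      rw [mem_bx]
      refine ⟨fun i => ?_, (hF m hm.1).1⟩
      have := (hlog m hm.1 i).1
      rwa [show Nat.log 2 (m i).natAbs = k i from congrFun hm.2 i] at this
    · intro m hm
      rw [hKc, Fintype.mem_piFinset]
      intro i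
      rw [mem_Ico]
      exact (hlog m hm i).2
  rw [h1]
  refine h2.trans ?_
  have hKcm : ∀ k ∈ Kc, ∀ i, k0 ≤ k i ∧ k i < J := by
    intro k hk i
    rw [hKc, Fintype.mem_piFinset] at hk
    exact mem_Ico.mp (hk i)
  -- the bound of a box
  have hbox : ∀ k ∈ Kc, wb Λ a k ≤ ε + if (∀ i j, k i ≤ k j + κ) ∧ SmallRel Λ (2 ^ (5 * κ + 10) / ρ ^ 2)
      then C0 ^ 2 else 0 := by
    intro k hk
    have hkJ : ∀ i, k i < J := fun i => (hKcm k hk i).2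
    by_cases hbal : ∀ i j, k i ≤ k j + κ
    · by_cases hc : ((bx Λ k).card : ℝ) ≤ ρ * 2 ^ (k 2 + k 3)
      · have h3 := (wb_sparse h hsep hkJ hc).trans hε2
        have h4 := (pow_le_pow_iff_left₀ (wb_nonneg h k) hε (by norm_num)).mp h3
        refine h4.trans (le_add_of_nonneg_right ?_)
        split_ifs <;> positivity
      · push Not at hc
        have h3 : SmallRel Λ (2 ^ (5 * κ + 10) / ρ ^ 2) := by
          refine dense_rel hsep hkJ hbal hρ hρ1 (fun i => hk0.trans ?_) hc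
          have := (hKcm k hk i).1
          gcongr
          norm_num
        rw [if_pos ⟨hbal, h3⟩]
        exact (wb_le h hsep hkJ).trans (le_add_of_nonneg_left hε)
    · push Not at hbal
      obtain ⟨i, j, hij⟩ := hbal
      obtain ⟨α, -, hα⟩ := Finset.exists_min_image Finset.univ k ⟨0, mem_univ _⟩
      have hαj := hα j (mem_univ _)
      have h3 := (wb_unbalanced h hsep hkJ (κ := κ) (α := α) (β := i) (fun i => hα i (mem_univ _)) (by omega)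
        (fun e => by rw [e] at hαj; omega)).trans hε1
      have h4 := (pow_le_pow_iff_left₀ (wb_nonneg h k) hε (by norm_num)).mp h3
      refine h4.trans (le_add_of_nonneg_right ?_)
      split_ifs <;> positivity
  refine (Finset.sum_le_sum hbox).trans ?_
  rw [Finset.sum_add_distrib]
  have hcK : (Kc.card : ℝ) ≤ (J : ℝ) ^ 4 := by
    have : Kc.card ≤ J ^ 4 := by
      rw [hKc, Fintype.card_piFinset, Fin.prod_univ_four, Nat.card_Ico]
      calc (J - k0) * (J - k0) * (J - k0) * (J - k0) ≤ J * J * J * J := by gcongr <;> omega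
        _ = J ^ 4 := by ring
    exact_mod_cast this
  refine add_le_add ?_ ?_
  · rw [Finset.sum_const, nsmul_eq_mul]
    gcongr
  · by_cases hS : SmallRel Λ (2 ^ (5 * κ + 10) / ρ ^ 2)
    · rw [if_pos hS]
      simp only [hS, and_true]
      rw [← Finset.sum_filter, Finset.sum_const, nsmul_eq_mul]
      have h5 : (Kc.filter fun k => ∀ i j, k i ≤ k j + κ).card ≤ J * (2 * κ + 1) ^ 3 := by
        refine (Finset.card_le_card ?_).trans (card_balanced J κ)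
        refine Finset.filter_subset_filter _ ?_
        intro k hk
        rw [Fintype.mem_piFinset]
        intro i
        rw [mem_range]
        exact (hKcm k hk i).2
      have h6 : (((Kc.filter fun k => ∀ i j, k i ≤ k j + κ).card : ℕ) : ℝ) ≤ (J : ℝ) * (2 * κ + 1) ^ 3 := by
        exact_mod_cast h5
      exact mul_le_mul_of_nonneg_right h6 (sq_nonneg _)
    · rw [if_neg hS]
      refine le_of_eq (Finset.sum_eq_zero fun k _ => if_neg fun h => hS h.2)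

end Pool.Agent.MU0
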