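import Pool.Agent.MU0.ZY2

/-!
# Roots of unity that are small rationals modulo a prime power
-/

set_option autoImplicit false

namespace Pool.Agent.MU0

/-- a number which is small and divides a difference of roots of unity kills it -/
theorem teich_cancel {p n : ℕ} (hp : p.Prime) (hn : 1 ≤ n) {z w : (ZMod (p ^ n))ˣ}
    (hz : z ^ (p - 1) = 1) (hw : w ^ (p - 1) = 1) {d : ℤ} (hd : d ≠ 0)
    (hdp : |d| < (p : ℤ) ^ n) (h : (d : ZMod (p ^ n)) * z = d * w) : z = w := by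
  have h0 : (z * w⁻¹) ^ (p - 1) = 1 := by
    rw [mul_pow, inv_pow, hz, hw]
    simp
  obtain ⟨c, hc⟩ := ZMod.intCast_surjective ((z * w⁻¹ : (ZMod (p ^ n))ˣ) : ZMod (p ^ n))
  have h1 : ((d * (c - 1) : ℤ) : ZMod (p ^ n)) = 0 := by
    push_cast
    rw [hc, Units.val_mul]
    calc (d : ZMod (p ^ n)) * (z * ((w⁻¹ : (ZMod (p ^ n))ˣ) : ZMod (p ^ n)) - 1) =
          d * z * ((w⁻¹ : (ZMod (p ^ n))ˣ) : ZMod (p ^ n)) - d := by ring
      _ = 0 := by rw [h, mul_assoc, Units.mul_inv, mul_one, sub_self]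
  have h2 := (ZMod.intCast_zmod_eq_zero_iff_dvd _ _).1 h1
  have h3 : (p : ℤ) ^ n ∣ d * (c - 1) := by exact_mod_cast h2
  have hpp : Prime (p : ℤ) := Nat.prime_iff_prime_int.1 hp
  have h4 : (p : ℤ) ∣ c - 1 := by
    by_contra h5
    rw [mul_comm] at h3
    have h6 := hpp.pow_dvd_of_dvd_mul_left _ h5 h3
    have h7 := Int.le_of_dvd (abs_pos.2 hd) ((dvd_abs _ _).2 h6)
    linarith
  exact mul_inv_eq_one.1 (teich_one hp hn h0 hc h4)

theorem padic_le {l : ℕ} (hl : l.Prime) {a : ℤ} {Y : ℕ} (h : |a| ≤ Y) :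
    0 ≤ padicValRat l (a : ℚ) ∧ padicValRat l (a : ℚ) ≤ Nat.log 2 Y := by
  rw [padicValRat.of_int]
  refine ⟨by positivity, ?_⟩
  have h1 : padicValInt l a ≤ Nat.log 2 Y := by
    unfold padicValInt
    have h2 := padicValNat_le_nat_log (p := l) a.natAbs
    have h3 : Nat.log l a.natAbs ≤ Nat.log 2 a.natAbs := Nat.log_anti_left (by norm_num) hl.two_le
    have h5 : a.natAbs ≤ Y := by
      have : (a.natAbs : ℤ) ≤ Y := by rwa [Int.natCast_natAbs]
      exact_mod_cast this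
    have h4 : Nat.log 2 a.natAbs ≤ Nat.log 2 Y := Nat.log_mono_right h5
    omega
  exact_mod_cast h1

theorem exists_val {ρ : ℚ} (h0 : ρ ≠ 0) (h1 : |ρ| ≠ 1) :
    ∃ l : ℕ, l.Prime ∧ padicValRat l ρ ≠ 0 := by
  by_cases hnum : ρ.num.natAbs = 1
  · have hden : ρ.den ≠ 1 := by
      intro hd
      apply h1
      have h2 : ρ = ρ.num := by
        conv_lhs => rw [← Rat.num_div_den ρ]
        rw [hd, Nat.cast_one, div_one]
      rw [h2]
      have h3 : |ρ.num| = 1 := by
        rw [Int.abs_eq_natAbs, hnum]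
        rfl
      exact_mod_cast h3
    refine ⟨ρ.den.minFac, Nat.minFac_prime hden, ?_⟩
    have hf : Fact (ρ.den.minFac).Prime := ⟨Nat.minFac_prime hden⟩
    have h2 : 1 ≤ padicValNat ρ.den.minFac ρ.den :=
      one_le_padicValNat_of_dvd ρ.den_ne_zero (Nat.minFac_dvd _)
    rw [padicValRat_def, padicValInt, hnum]
    simp only [padicValNat_one_right, Nat.cast_zero, zero_sub, ne_eq, neg_eq_zero]
    omega
  · refine ⟨ρ.num.natAbs.minFac, Nat.minFac_prime hnum, ?_⟩
    have hf : Fact (ρ.num.natAbs.minFac).Prime := ⟨Nat.minFac_prime hnum⟩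
    have hn0 : ρ.num.natAbs ≠ 0 := by
      rw [Ne, Int.natAbs_eq_zero, Rat.num_eq_zero]
      exact h0
    have h2 : 1 ≤ padicValNat ρ.num.natAbs.minFac ρ.num.natAbs :=
      one_le_padicValNat_of_dvd hn0 (Nat.minFac_dvd _)
    have h3 : padicValNat ρ.num.natAbs.minFac ρ.den = 0 := by
      apply padicValNat.eq_zero_of_not_dvd
      intro h4
      have h5 := Nat.dvd_gcd (Nat.minFac_dvd ρ.num.natAbs) h4
      rw [ρ.reduced] at h5
      exact (Nat.minFac_prime hnum).one_lt.ne' (Nat.dvd_one.1 h5)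
    rw [padicValRat_def, padicValInt, h3]
    omega

/-- **few roots of unity are small rationals** -/
theorem few_rational {p n Y I : ℕ} (hp : p.Prime) (hn : 1 ≤ n) (hY : 1 ≤ Y)
    (hI : p ≤ (I + 1) ^ 2) (hsize : 2 * Y ^ (6 * I) < p ^ n) (W : Finset (ZMod (p ^ n))ˣ)
    (hW : ∀ z ∈ W, z ^ (p - 1) = 1)
    (hrel : ∀ z ∈ W, ∃ α β : ℤ, α ≠ 0 ∧ β ≠ 0 ∧ |α| ≤ Y ∧ |β| ≤ Y ∧ (α : ZMod (p ^ n)) * z = β) :
    W.card ≤ 4 * Nat.log 2 Y + 2 := by
  classical
  choose! α β hα0 hβ0 hα hβ hr using hrel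
  have hI1 : 1 ≤ I := by
    rcases Nat.eq_zero_or_pos I with h | h
    · subst h
      have := hp.two_le
      omega
    · exact h
  have hY2 : Y ^ 2 < p ^ n := by
    have h1 : Y ^ 2 ≤ Y ^ (6 * I) := Nat.pow_le_pow_right hY (by omega)
    omega
  let ρ : (ZMod (p ^ n))ˣ → ℚ := fun z => (β z : ℚ) / α z
  have hαQ : ∀ z ∈ W, (α z : ℚ) ≠ 0 := fun z hz => by exact_mod_cast hα0 z hz
  have hβQ : ∀ z ∈ W, (β z : ℚ) ≠ 0 := fun z hz => by exact_mod_cast hβ0 z hz
  -- `ρ` is injective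
  have hρ : ∀ z ∈ W, ∀ w ∈ W, ρ z = ρ w → z = w := by
    intro z hz w hw h
    have h1 : (β z : ℚ) * α w = β w * α z := (div_eq_div_iff (hαQ z hz) (hαQ w hw)).1 h
    have h2 : β z * α w = β w * α z := by exact_mod_cast h1
    apply teich_cancel hp hn (hW z hz) (hW w hw) (d := α z * α w)
      (mul_ne_zero (hα0 z hz) (hα0 w hw))
    · rw [abs_mul]
      calc |α z| * |α w| ≤ (Y : ℤ) * Y :=
            mul_le_mul (hα z hz) (hα w hw) (abs_nonneg _) (by positivity)
        _ = ((Y ^ 2 : ℕ) : ℤ) := by push_cast; ring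
        _ < ((p ^ n : ℕ) : ℤ) := by exact_mod_cast hY2
        _ = _ := by push_cast; ring
    · have h3 : ((β z : ℤ) : ZMod (p ^ n)) * α w = β w * α z := by
        exact_mod_cast congrArg (fun t : ℤ => (t : ZMod (p ^ n))) h2
      push_cast
      linear_combination (α w : ZMod (p ^ n)) * hr z hz - (α z : ZMod (p ^ n)) * hr w hw + h3
  -- the target of the map
  let Tt : Finset (ℤ × Bool) :=
    Finset.Icc (-(Nat.log 2 Y : ℤ)) (Nat.log 2 Y) ×ˢ (Finset.univ : Finset Bool)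
  have hTt : Tt.card = 4 * Nat.log 2 Y + 2 := by
    simp only [Tt, Finset.card_product, Int.card_Icc, Finset.card_univ, Fintype.card_bool]
    omega
  rw [← hTt]
  have hdec : ∀ z w, decide (0 < ρ z) = decide (0 < ρ w) → (0 < ρ z ↔ 0 < ρ w) := by
    intro z w h
    simpa using h
  by_cases hall : ∀ z ∈ W, |ρ z| = 1
  · apply Finset.card_le_card_of_injOn (fun z => ((0 : ℤ), decide (0 < ρ z)))
    · intro z _
      rw [Finset.mem_coe, Finset.mem_product]
      have h0 : (0 : ℤ) ∈ Finset.Icc (-(Nat.log 2 Y : ℤ)) (Nat.log 2 Y) :=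
        Finset.mem_Icc.2 ⟨by omega, by omega⟩
      exact ⟨h0, Finset.mem_univ _⟩
    · intro z hz w hw h
      have h2 := hdec z w (Prod.ext_iff.1 h).2
      apply hρ z hz w hw
      rcases (abs_eq zero_le_one).1 (hall z hz) with h3 | h3 <;>
        rcases (abs_eq zero_le_one).1 (hall w hw) with h4 | h4 <;>
        rw [h3, h4] at h2 ⊢ <;> norm_num at h2
  · push Not at hall
    obtain ⟨z₁, hz₁, hne⟩ := hall
    -- a prime in the support
    have hρ1 : ρ z₁ ≠ 0 := div_ne_zero (hβQ z₁ hz₁) (hαQ z₁ hz₁)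
    obtain ⟨l, hl, hval⟩ := exists_val hρ1 hne
    have hfl : Fact l.Prime := ⟨hl⟩
    apply Finset.card_le_card_of_injOn (fun z => (padicValRat l (ρ z), decide (0 < ρ z)))
    · intro z hz
      rw [Finset.mem_coe, Finset.mem_product]
      refine ⟨Finset.mem_Icc.2 ?_, Finset.mem_univ _⟩
      have h1 := padic_le hl (hα z hz)
      have h2 := padic_le hl (hβ z hz)
      have h3 : padicValRat l (ρ z) = padicValRat l (β z : ℚ) - padicValRat l (α z : ℚ) :=
        padicValRat.div (hβQ z hz) (hαQ z hz)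
      simp only
      rw [h3]
      constructor <;> omega
    · intro z hz w hw h
      have h1 : padicValRat l (ρ z) = padicValRat l (ρ w) := (Prod.ext_iff.1 h).1
      have h2 := hdec z w (Prod.ext_iff.1 h).2
      have hρz : ρ z ≠ 0 := div_ne_zero (hβQ z hz) (hαQ z hz)
      have hρw : ρ w ≠ 0 := div_ne_zero (hβQ w hw) (hαQ w hw)
      -- the pigeonhole
      let f : ℕ × ℕ → (ZMod (p ^ n))ˣ := fun q => (z * w⁻¹) ^ q.1 * z₁ ^ q.2
      have hne0 : NeZero (p ^ n) := ⟨pow_ne_zero _ hp.ne_zero⟩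
      let T : Finset (ZMod (p ^ n))ˣ := Finset.univ.filter (fun z => z ^ (p - 1) = 1)
      have hT : T.card ≤ p - 1 := teich_card hp hn T (fun z hz => (Finset.mem_filter.1 hz).2)
      have hfT : ∀ q ∈ Finset.range (I + 1) ×ˢ Finset.range (I + 1), f q ∈ T := by
        intro q _
        refine Finset.mem_filter.2 ⟨Finset.mem_univ _, ?_⟩
        simp only [f]
        rw [mul_pow, ← pow_mul, mul_comm q.1, pow_mul, mul_pow, inv_pow, hW z hz, hW w hw,
          ← pow_mul, mul_comm q.2, pow_mul, hW z₁ hz₁]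
        simp
      have hcard : T.card < (Finset.range (I + 1) ×ˢ Finset.range (I + 1)).card := by
        rw [Finset.card_product, Finset.card_range, ← sq]
        have := hp.one_lt
        omega
      obtain ⟨⟨i, j⟩, hq, ⟨i', j'⟩, hq', hqne, heq⟩ :=
        Finset.exists_ne_map_eq_of_card_lt_of_maps_to hcard hfT
      simp only [Finset.mem_product, Finset.mem_range] at hq hq'
      -- integral forms
      set a := α z * β w with ha
      set b := β z * α w with hb
      have ha0 : a ≠ 0 := mul_ne_zero (hα0 z hz) (hβ0 w hw)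
      have hb0 : b ≠ 0 := mul_ne_zero (hβ0 z hz) (hα0 w hw)
      have hab : (a : ZMod (p ^ n)) * ((z * w⁻¹ : (ZMod (p ^ n))ˣ) : ZMod (p ^ n)) = b := by
        rw [ha, hb]
        push_cast
        rw [← hr z hz, ← hr w hw]
        calc (α z : ZMod (p ^ n)) * (α w * w) * (z * ((w⁻¹ : (ZMod (p ^ n))ˣ) : ZMod (p ^ n))) =
              (α z : ZMod (p ^ n)) * z * α w * (w * ((w⁻¹ : (ZMod (p ^ n))ˣ) : ZMod (p ^ n))) := by
              ring
          _ = _ := by rw [Units.mul_inv, mul_one]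
      have haB : |a| ≤ (Y : ℤ) ^ 2 := by
        rw [ha, abs_mul, sq]
        exact mul_le_mul (hα z hz) (hβ w hw) (abs_nonneg _) (by positivity)
      have hbB : |b| ≤ (Y : ℤ) ^ 2 := by
        rw [hb, abs_mul, sq]
        exact mul_le_mul (hβ z hz) (hα w hw) (abs_nonneg _) (by positivity)
      set c := α z₁
      set d := β z₁
      have hcd : (c : ZMod (p ^ n)) * z₁ = d := hr z₁ hz₁
      have hform : ∀ i j : ℕ, ((a ^ i * c ^ j : ℤ) : ZMod (p ^ n)) * f (i, j) =
          ((b ^ i * d ^ j : ℤ) : ZMod (p ^ n)) := by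
        intro i j
        simp only [f]
        push_cast
        rw [← hab, ← hcd]
        push_cast
        ring
      have h3 : (((a ^ i * c ^ j) * (b ^ i' * d ^ j') - (a ^ i' * c ^ j') * (b ^ i * d ^ j) : ℤ) :
          ZMod (p ^ n)) = 0 := by
        have h4 := hform i j
        have h5 := hform i' j'
        rw [← heq] at h5
        rw [Int.cast_sub, Int.cast_mul, Int.cast_mul (a ^ i' * c ^ j'), ← h4, ← h5]
        ring
      have hbd : ∀ i j i' j' : ℕ, i < I + 1 → j < I + 1 → i' < I + 1 → j' < I + 1 →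
          |(a ^ i * c ^ j) * (b ^ i' * d ^ j')| ≤ (Y : ℤ) ^ (6 * I) := by
        intro i j i' j' h1 h2 h3 h4
        rw [abs_mul, abs_mul, abs_mul, abs_pow, abs_pow, abs_pow, abs_pow]
        have hY' : (1 : ℤ) ≤ Y := by exact_mod_cast hY
        have e1 : |a| ^ i ≤ (Y : ℤ) ^ (2 * I) := by
          calc |a| ^ i ≤ ((Y : ℤ) ^ 2) ^ i := pow_le_pow_left₀ (abs_nonneg _) haB _
            _ = (Y : ℤ) ^ (2 * i) := (pow_mul _ _ _).symm
            _ ≤ _ := pow_le_pow_right₀ hY' (by omega)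
        have e2 : |b| ^ i' ≤ (Y : ℤ) ^ (2 * I) := by
          calc |b| ^ i' ≤ ((Y : ℤ) ^ 2) ^ i' := pow_le_pow_left₀ (abs_nonneg _) hbB _
            _ = (Y : ℤ) ^ (2 * i') := (pow_mul _ _ _).symm
            _ ≤ _ := pow_le_pow_right₀ hY' (by omega)
        have e3 : |c| ^ j ≤ (Y : ℤ) ^ I :=
          (pow_le_pow_left₀ (abs_nonneg _) (hα z₁ hz₁) _).trans (pow_le_pow_right₀ hY' (by omega))
        have e4 : |d| ^ j' ≤ (Y : ℤ) ^ I :=
          (pow_le_pow_left₀ (abs_nonneg _) (hβ z₁ hz₁) _).trans (pow_le_pow_right₀ hY' (by omega))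
        calc |a| ^ i * |c| ^ j * (|b| ^ i' * |d| ^ j') ≤
            ((Y : ℤ) ^ (2 * I) * (Y : ℤ) ^ I) * ((Y : ℤ) ^ (2 * I) * (Y : ℤ) ^ I) := by
              gcongr
          _ = _ := by ring
      have h4 : (a ^ i * c ^ j) * (b ^ i' * d ^ j') = (a ^ i' * c ^ j') * (b ^ i * d ^ j) := by
        have h5 := (ZMod.intCast_zmod_eq_zero_iff_dvd _ _).1 h3
        have h6 : |(a ^ i * c ^ j) * (b ^ i' * d ^ j') - (a ^ i' * c ^ j') * (b ^ i * d ^ j)| <
            ((p ^ n : ℕ) : ℤ) := by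
          calc _ ≤ |(a ^ i * c ^ j) * (b ^ i' * d ^ j')| + |(a ^ i' * c ^ j') * (b ^ i * d ^ j)| :=
                abs_sub _ _
            _ ≤ (Y : ℤ) ^ (6 * I) + (Y : ℤ) ^ (6 * I) :=
              add_le_add (hbd _ _ _ _ hq.1 hq.2 hq'.1 hq'.2) (hbd _ _ _ _ hq'.1 hq'.2 hq.1 hq.2)
            _ = ((2 * Y ^ (6 * I) : ℕ) : ℤ) := by push_cast; ring
            _ < _ := by exact_mod_cast hsize
        exact sub_eq_zero.1 (Int.eq_zero_of_abs_lt_dvd h5 h6)
      -- back to rational numbers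
      set τ : ℚ := ρ z / ρ w with hτ
      have hτab : τ = (b : ℚ) / a := by
        rw [hτ, ha, hb]
        simp only [ρ]
        push_cast
        rw [div_div_div_eq]
      have haQ : (a : ℚ) ≠ 0 := by exact_mod_cast ha0
      have hbQ : (b : ℚ) ≠ 0 := by exact_mod_cast hb0
      have hcQ : (c : ℚ) ≠ 0 := hαQ z₁ hz₁
      have hdQ : (d : ℚ) ≠ 0 := hβQ z₁ hz₁
      have h5 : τ ^ i' * ρ z₁ ^ j' = τ ^ i * ρ z₁ ^ j := by
        have h6 : ((a : ℚ) ^ i * c ^ j) * (b ^ i' * d ^ j') = (a ^ i' * c ^ j') * (b ^ i * d ^ j) := by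
          exact_mod_cast h4
        have h7 : ρ z₁ = (d : ℚ) / c := rfl
        rw [hτab, h7, div_pow, div_pow, div_pow, div_pow, div_mul_div_comm, div_mul_div_comm,
          div_eq_div_iff (by positivity) (by positivity)]
        linear_combination h6
      have hτ0 : τ ≠ 0 := div_ne_zero hρz hρw
      have hvτ : padicValRat l τ = 0 := by
        rw [hτ, padicValRat.div hρz hρw, h1, sub_self]
      have h6 : j = j' := by
        have h7 := congrArg (padicValRat l) h5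
        rw [padicValRat.mul (pow_ne_zero _ hτ0) (pow_ne_zero _ hρ1),
          padicValRat.mul (pow_ne_zero _ hτ0) (pow_ne_zero _ hρ1), padicValRat.pow,
          padicValRat.pow, padicValRat.pow, padicValRat.pow, hvτ] at h7
        have h8 : ((j' : ℤ) - j) * padicValRat l (ρ z₁) = 0 := by linarith
        rcases mul_eq_zero.1 h8 with h9 | h9
        · omega
        · exact absurd h9 hval
      subst h6
      have h7 : τ ^ i' = τ ^ i := mul_right_cancel₀ (pow_ne_zero _ hρ1) h5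
      have h8 : i ≠ i' := by
        rintro rfl
        exact hqne rfl
      have hτpos : 0 < τ := by
        rcases lt_or_gt_of_ne hρz with h9 | h9
        · have h10 : ρ w < 0 := by
            rcases lt_or_gt_of_ne hρw with h11 | h11
            · exact h11
            · exact absurd (h2.2 h11) (by linarith)
          exact div_pos_of_neg_of_neg h9 h10
        · exact div_pos h9 (h2.1 h9)
      have h9 : τ = 1 := by
        by_contra h10
        exact h8 (pow_right_injective₀ hτpos h10 h7).symm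
      apply hρ z hz w hw
      rw [hτ] at h9
      exact (div_eq_one_iff_eq hρw).1 h9

/-- **the count of the roots of unity with a small linear relation with `y`** -/
theorem zy_card {p n k m B L I s : ℕ} (hp : p.Prime) (hk : 1 ≤ k) (hB : 1 ≤ B)
    (hm : (k + 1) * m ≤ n) (y : ℤ) (Z : Finset (ZMod (p ^ n))ˣ) (hZ : ∀ z ∈ Z, z ^ (p - 1) = 1)
    (hrel : ∀ z ∈ Z, ∃ a b c : ℤ, b ≠ 0 ∧ c ≠ 0 ∧ |a| ≤ B ∧ |b| ≤ B ∧ |c| ≤ B ∧
      (a : ZMod (p ^ n)) + b * y + c * z = 0)
    (hpig : k.factorial * p ≤ s ^ k) (hbig : 2 * k ^ 2 < s)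
    (hL : 3 * (p / s) + 2 ≤ L)
    (hsize : (2 * (2 * B : ℝ) ^ (3 * L)) ^ k * ((4 * (B : ℝ) ^ 2) ^ k) ^ (3 * L) < (p : ℝ) ^ m)
    (hI : p ≤ (I + 1) ^ 2) (hsize2 : 2 * B ^ (12 * I) < p ^ n) :
    Z.card ≤ s * (4 * Nat.log 2 (B ^ 2) + 2) := by
  classical
  have hn : 1 ≤ n := by
    rcases Nat.eq_zero_or_pos n with h0 | h0
    · subst h0
      have : 1 ≤ B ^ (12 * I) := Nat.one_le_pow _ _ hB
      rw [pow_zero] at hsize2
      omega
    · exact h0
  let pr : (ZMod (p ^ n))ˣ → (ZMod (p ^ n))ˣ → Prop := fun z w =>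
    ∃ α β : ℤ, α ≠ 0 ∧ β ≠ 0 ∧ |α| ≤ (B : ℤ) ^ 2 ∧ |β| ≤ (B : ℤ) ^ 2 ∧
      (α : ZMod (p ^ n)) * z = β * w
  have hBZ : (1 : ℤ) ≤ (B : ℤ) ^ 2 := one_le_pow₀ (by exact_mod_cast hB)
  have hprr : ∀ z, pr z z := fun z =>
    ⟨1, 1, one_ne_zero, one_ne_zero, by simpa using hBZ, by simpa using hBZ, rfl⟩
  have hprs : ∀ z w, pr z w → pr w z := by
    rintro z w ⟨α, β, h1, h2, h3, h4, h5⟩
    exact ⟨β, α, h2, h1, h4, h3, h5.symm⟩
  let 𝒮 : Finset (Finset (ZMod (p ^ n))ˣ) :=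
    Z.powerset.filter (fun S => ∀ z ∈ S, ∀ w ∈ S, z ≠ w → ¬ pr z w)
  have h𝒮 : 𝒮.Nonempty := ⟨∅, by simp [𝒮]⟩
  obtain ⟨S, hS𝒮, hmax⟩ := Finset.exists_max_image 𝒮 Finset.card h𝒮
  obtain ⟨hSZ, hSnp⟩ := Finset.mem_filter.1 hS𝒮
  rw [Finset.mem_powerset] at hSZ
  have hcov : ∀ z ∈ Z, ∃ w ∈ S, pr z w := by
    intro z hz
    by_contra hcon
    push Not at hcon
    have hzS : z ∉ S := fun h => hcon z h (hprr z)
    have h1 : insert z S ∈ 𝒮 := by
      refine Finset.mem_filter.2 ⟨Finset.mem_powerset.2 (Finset.insert_subset hz hSZ), ?_⟩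
      intro u hu v hv huv
      rcases Finset.mem_insert.1 hu with rfl | hu' <;> rcases Finset.mem_insert.1 hv with rfl | hv'
      · exact absurd rfl huv
      · exact hcon v hv'
      · exact fun h => hcon u hu' (hprs _ _ h)
      · exact hSnp u hu' v hv' huv
    have h2 := hmax _ h1
    rw [Finset.card_insert_of_notMem hzS] at h2
    omega
  have hcls : ∀ w ∈ S, (Z.filter (fun z => pr z w)).card ≤ 4 * Nat.log 2 (B ^ 2) + 2 := by
    intro w hw
    rw [← Finset.card_image_of_injective (Z.filter (fun z => pr z w)) (mul_left_injective w⁻¹)]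
    apply few_rational hp hn (Y := B ^ 2) (I := I) (Nat.one_le_pow _ _ hB) hI
    · rw [← pow_mul]
      have : 2 * (6 * I) = 12 * I := by ring
      rw [this]
      exact hsize2
    · intro u hu
      obtain ⟨z, hz, rfl⟩ := Finset.mem_image.1 hu
      rw [mul_pow, inv_pow, hZ z (Finset.mem_filter.1 hz).1, hZ w (hSZ hw)]
      simp
    · intro u hu
      obtain ⟨z, hz, rfl⟩ := Finset.mem_image.1 hu
      obtain ⟨α, β, h1, h2, h3, h4, h5⟩ := (Finset.mem_filter.1 hz).2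
      refine ⟨α, β, h1, h2, by exact_mod_cast h3, by exact_mod_cast h4, ?_⟩
      rw [Units.val_mul, ← mul_assoc, h5, mul_assoc, Units.mul_inv, mul_one]
  have hZS : Z ⊆ S.biUnion (fun w => Z.filter (fun z => pr z w)) := by
    intro z hz
    obtain ⟨w, hw, h⟩ := hcov z hz
    exact Finset.mem_biUnion.2 ⟨w, hw, Finset.mem_filter.2 ⟨hz, h⟩⟩
  have hSs : S.card < s := by
    by_contra hcon
    push Not at hcon
    have hs0 : 0 < s := by omega
    apply zy_bound hp hk hB hm y S (fun z hz => hZ z (hSZ hz)) (fun z hz => hrel z (hSZ hz))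
      ?_ ?_ ?_ ?_ hsize
    · intro z hz w hw hzw α β hα hβ hαB hβB h
      exact hSnp z hz w hw hzw ⟨α, β, hα, hβ, hαB, hβB, h⟩
    · exact hpig.trans (Nat.pow_le_pow_left hcon k)
    · omega
    · have : p / S.card ≤ p / s := Nat.div_le_div_left hcon hs0
      omega
  calc Z.card ≤ _ := Finset.card_le_card hZS
    _ ≤ S.card * (4 * Nat.log 2 (B ^ 2) + 2) := Finset.card_biUnion_le_card_mul _ _ _ hcls
    _ ≤ _ := Nat.mul_le_mul_right _ hSs.le

end Pool.Agent.MU0
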