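import Mathlib
import Pool.Agent.MU0.Quad
import Pool.Agent.MU0.ZY3

/-!
Fourth moments of sums of a trigonometric polynomial over dilates: the quadruples of dilates in four
different clusters.
-/

open Finset

namespace Pool.Agent.MU0

section mean

variable {q : ℕ} [NeZero q]

/-- `g` is the trigonometric polynomial on `ℤ/q` with coefficients `x` -/
def IsTrig (g : ZMod q → ℝ) (x : ℤ → ℝ) (J : ℕ) : Prop :=
  ∀ b : ZMod q, ((g b : ℝ) : ℂ) =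
    ∑ m ∈ Ioo (-(2 ^ J : ℤ)) (2 ^ J), (x m : ℂ) * ZMod.stdAddChar ((m : ZMod q) * b)

/-- the integer relations between four elements -/
def Rel (ζ : Fin 4 → ZMod q) : AddSubgroup (Fin 4 → ℤ) where
  carrier := {m | ∑ i, (m i : ZMod q) * ζ i = 0}
  add_mem' := by
    intro a b ha hb
    have h1 : ∑ i, (((a + b) i : ℤ) : ZMod q) * ζ i = ∑ i, (a i : ZMod q) * ζ i + ∑ i, (b i : ZMod q) * ζ i := by
      rw [← Finset.sum_add_distrib]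
      refine Finset.sum_congr rfl fun i _ => ?_
      rw [Pi.add_apply]
      push_cast
      ring
    change ∑ i, (a i : ZMod q) * ζ i = 0 at ha
    change ∑ i, (b i : ZMod q) * ζ i = 0 at hb
    change ∑ i, (((a + b) i : ℤ) : ZMod q) * ζ i = 0
    rw [h1, ha, hb, add_zero]
  zero_mem' := by simp
  neg_mem' := by
    intro a ha
    have h1 : ∑ i, (((-a) i : ℤ) : ZMod q) * ζ i = -∑ i, (a i : ZMod q) * ζ i := by
      rw [← Finset.sum_neg_distrib]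
      refine Finset.sum_congr rfl fun i _ => ?_
      rw [Pi.neg_apply]
      push_cast
      ring
    change ∑ i, (a i : ZMod q) * ζ i = 0 at ha
    change ∑ i, (((-a) i : ℤ) : ZMod q) * ζ i = 0
    rw [h1, ha, neg_zero]

lemma mem_Rel {ζ : Fin 4 → ZMod q} {m : Fin 4 → ℤ} : m ∈ Rel ζ ↔ ∑ i, (m i : ZMod q) * ζ i = 0 := Iff.rfl

omit [NeZero q] in
lemma char_sum_four (ψ : AddChar (ZMod q) ℂ) (f : Fin 4 → ZMod q) : ψ (∑ i, f i) = ∏ i, ψ (f i) := by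
  rw [Fin.sum_univ_four, Fin.prod_univ_four, AddChar.map_add_eq_mul, AddChar.map_add_eq_mul,
    AddChar.map_add_eq_mul]

open Classical in
/-- the mean of a product of four dilates -/
theorem mean_four {g : ZMod q → ℝ} {x : ℤ → ℝ} {J : ℕ} (hg : IsTrig g x J) (ζ : Fin 4 → ZMod q) :
    ∑ b : ZMod q, ∏ i, g (ζ i * b) = q * ∑ m ∈ (Fintype.piFinset fun _ : Fin 4 =>
      Ioo (-(2 ^ J : ℤ)) (2 ^ J)).filter (fun m => m ∈ Rel ζ), ∏ i, x (m i) := by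
  have h1 : ∀ b : ZMod q, ((∏ i, g (ζ i * b) : ℝ) : ℂ) = ∑ m ∈ Fintype.piFinset fun _ : Fin 4 =>
      Ioo (-(2 ^ J : ℤ)) (2 ^ J), ((∏ i, x (m i) : ℝ) : ℂ) * ZMod.stdAddChar (b * ∑ i, (m i : ZMod q) * ζ i) := by
    intro b
    rw [Complex.ofReal_prod]
    simp only [hg _]
    rw [Finset.prod_univ_sum]
    refine Finset.sum_congr rfl fun m _ => ?_
    rw [Finset.prod_mul_distrib, Complex.ofReal_prod]
    congr 1
    rw [Finset.mul_sum, char_sum_four]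
    refine Finset.prod_congr rfl fun i _ => ?_
    congr 1
    ring
  have h2 : ((∑ b : ZMod q, ∏ i, g (ζ i * b) : ℝ) : ℂ) = ((q * ∑ m ∈ (Fintype.piFinset fun _ : Fin 4 =>
      Ioo (-(2 ^ J : ℤ)) (2 ^ J)).filter (fun m => m ∈ Rel ζ), ∏ i, x (m i) : ℝ) : ℂ) := by
    rw [Complex.ofReal_sum, Finset.sum_congr rfl fun b _ => h1 b, Finset.sum_comm, Complex.ofReal_mul,
      Complex.ofReal_sum, Finset.mul_sum, Finset.sum_filter]
    refine Finset.sum_congr rfl fun m _ => ?_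
    rw [← Finset.mul_sum, AddChar.sum_mulShift _ (ZMod.isPrimitive_stdAddChar q), ZMod.card]
    by_cases hm : m ∈ Rel ζ
    · rw [if_pos hm, if_pos (mem_Rel.mp hm)]
      push_cast
      ring
    · rw [if_neg hm, if_neg (fun h => hm (mem_Rel.mpr h))]
      simp
  exact_mod_cast h2

/-- no short relation between two elements -/
def Far (z w : ZMod q) (Y : ℤ) : Prop := ∀ u v : ℤ, |u| ≤ Y → |v| ≤ Y → (u : ZMod q) * z + v * w = 0 → u = 0 ∧ v = 0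

lemma sep_of_far {ζ : Fin 4 → ZMod q} {J : ℕ} (h : ∀ i j, i ≠ j → Far (ζ i) (ζ j) (2 ^ (2 * J + 3))) :
    QSep (Rel ζ) J := by
  intro m hm hsize i j hij hi hj
  obtain ⟨k, l, hkl, hk1, hk2, hl1, hl2, hall⟩ : ∃ k l : Fin 4, k ≠ l ∧ k ≠ i ∧ k ≠ j ∧ l ≠ i ∧ l ≠ j ∧
      ∀ f : Fin 4, f = i ∨ f = j ∨ f = k ∨ f = l := by
    clear hi hj
    revert i j
    decide
  rw [mem_Rel] at hm
  have h1 : ∑ a, (m a : ZMod q) * ζ a = (m k : ZMod q) * ζ k + (m l : ZMod q) * ζ l := by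
    rw [← Finset.sum_pair hkl (f := fun a => (m a : ZMod q) * ζ a)]
    symm
    refine Finset.sum_subset (Finset.subset_univ _) fun a _ ha => ?_
    rw [mem_insert, mem_singleton, not_or] at ha
    rcases hall a with rfl | rfl | rfl | rfl
    · rw [hi, Int.cast_zero, zero_mul]
    · rw [hj, Int.cast_zero, zero_mul]
    · exact absurd rfl ha.1
    · exact absurd rfl ha.2
  rw [h1] at hm
  obtain ⟨h2, h3⟩ := h k l hkl (m k) (m l) (hsize k) (hsize l) hm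
  funext a
  rcases hall a with rfl | rfl | rfl | rfl
  · exact hi
  · exact hj
  · exact h2
  · exact h3

open Classical in
/-- a product of four dilates, pairwise far -/
theorem four_bound {g : ZMod q → ℝ} {x : ℤ → ℝ} {J : ℕ} {C0 D : ℝ} (hg : IsTrig g x J)
    (h : Wt (fun m => |x m|) J C0 D) {k0 κ : ℕ} {ρ ε : ℝ} (hκ : 1 ≤ κ) (hρ : 0 < ρ) (hρ1 : ρ ≤ 1)
    (hε : 0 ≤ ε) (hε1 : 256 * C0 ^ 4 * D ^ 2 / 2 ^ κ ≤ ε ^ 4) (hε2 : 16 * C0 ^ 4 * D ^ 2 * ρ ≤ ε ^ 4)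
    (hk0 : (2 : ℝ) ^ (2 * κ + 3) ≤ ρ * 2 ^ k0) (hlow : ∀ m : ℤ, |m| < 2 ^ k0 → x m = 0)
    (hhigh : ∀ m : ℤ, 2 ^ J ≤ |m| → x m = 0) {ζ : Fin 4 → ZMod q}
    (hfar : ∀ i j, i ≠ j → Far (ζ i) (ζ j) (2 ^ (2 * J + 3))) :
    |∑ b : ZMod q, ∏ i, g (ζ i * b)| ≤ q * ((J : ℝ) ^ 4 * ε +
      if SmallRel (Rel ζ) (2 ^ (5 * κ + 10) / ρ ^ 2) then (J : ℝ) * (2 * κ + 1) ^ 3 * C0 ^ 2 else 0) := by
  rw [mean_four hg, abs_mul, abs_of_nonneg (Nat.cast_nonneg q : (0 : ℝ) ≤ q)]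
  refine mul_le_mul_of_nonneg_left ?_ (Nat.cast_nonneg q)
  refine (Finset.abs_sum_le_sum_abs _ _).trans ?_
  have h1 := quad_sum h (sep_of_far hfar) hκ hρ hρ1 hε hε1 hε2 hk0
    (fun m hm => by rw [hlow m hm, abs_zero]) (fun m hm => by rw [hhigh m hm, abs_zero])
  refine le_trans (le_of_eq (Finset.sum_congr rfl fun m _ => ?_)) h1
  exact Finset.abs_prod _ _

end mean

section count

variable {p n : ℕ}

open Classical in
/-- the number of quadruples with short relations -/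
theorem card_small (hp : p.Prime) (H : Finset (ZMod (p ^ n))ˣ) (hH : ∀ z ∈ H, z ^ (p - 1) = 1) {B : ℝ} {M : ℕ}
    (hM : ∀ (y : ℤ) (Z : Finset (ZMod (p ^ n))ˣ), (∀ z ∈ Z, z ^ (p - 1) = 1) →
      (∀ z ∈ Z, ∃ a b c : ℤ, b ≠ 0 ∧ c ≠ 0 ∧ ((|a| : ℤ) : ℝ) ≤ B ∧ ((|b| : ℤ) : ℝ) ≤ B ∧ ((|c| : ℤ) : ℝ) ≤ B ∧
        (a : ZMod (p ^ n)) + b * y + c * z = 0) → Z.card ≤ M) :
    ((Fintype.piFinset fun _ : Fin 4 => H).filter fun ζ =>
      SmallRel (Rel fun i => ((ζ i : (ZMod (p ^ n))ˣ) : ZMod (p ^ n))) B).card ≤ H.card ^ 2 * M ^ 2 := by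
  have : NeZero (p ^ n) := ⟨pow_ne_zero _ hp.ne_zero⟩
  -- the units close to the plane spanned by 1 and y
  let Zs : (ZMod (p ^ n))ˣ → Finset (ZMod (p ^ n))ˣ := fun y => (Finset.univ : Finset (ZMod (p ^ n))ˣ).filter fun z =>
    z ^ (p - 1) = 1 ∧ ∃ a b c : ℤ, b ≠ 0 ∧ c ≠ 0 ∧ ((|a| : ℤ) : ℝ) ≤ B ∧ ((|b| : ℤ) : ℝ) ≤ B ∧ ((|c| : ℤ) : ℝ) ≤ B ∧
      (a : ZMod (p ^ n)) + b * (y : ZMod (p ^ n)) + c * z = 0
  have hZs : ∀ y, (Zs y).card ≤ M := by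
    intro y
    obtain ⟨y', hy'⟩ := ZMod.intCast_surjective (y : ZMod (p ^ n))
    refine hM y' (Zs y) (fun z hz => ?_) (fun z hz => ?_)
    · simp only [Zs, mem_filter, mem_univ, true_and] at hz
      exact hz.1
    · simp only [Zs, mem_filter, mem_univ, true_and] at hz
      rw [hy']
      exact hz.2
  have hdiv : ∀ z z0 : (ZMod (p ^ n))ˣ, ((z / z0 : (ZMod (p ^ n))ˣ) : ZMod (p ^ n)) * z0 = z := by
    intro z z0
    rw [← Units.val_mul, div_mul_cancel]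
  have hsub : ((Fintype.piFinset fun _ : Fin 4 => H).filter fun ζ =>
      SmallRel (Rel fun i => ((ζ i : (ZMod (p ^ n))ˣ) : ZMod (p ^ n))) B) ⊆
      (H ×ˢ H).biUnion fun y => ((Zs (y.2 / y.1)) ×ˢ (Zs (y.2 / y.1))).image fun z =>
        ![y.1, y.2, z.1 * y.1, z.2 * y.1] := by
    intro ζ hζ
    rw [mem_filter, Fintype.mem_piFinset] at hζ
    obtain ⟨hm, hS⟩ := hζ
    rw [mem_biUnion]
    refine ⟨(ζ 0, ζ 1), by rw [mem_product]; exact ⟨hm 0, hm 1⟩, ?_⟩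
    rw [mem_image]
    have hmem : ∀ (j l : Fin 4), j ≠ 0 → j ≠ 1 → l ≠ 0 → l ≠ 1 → j ≠ l → ζ j / ζ 0 ∈ Zs (ζ 1 / ζ 0) := by
      intro j l hj0 hj1 hl0 hl1 hjl
      simp only [Zs, mem_filter, mem_univ, true_and]
      refine ⟨by rw [div_pow, hH _ (hm j), hH _ (hm 0), div_one], ?_⟩
      obtain ⟨w, hw, hwl, hwn, hwB⟩ := hS l
      refine ⟨w 0, w 1, w j, hwn 1 hl1.symm, hwn j hjl, hwB 0, hwB 1, hwB j, ?_⟩
      rw [mem_Rel] at hw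
      have h1 : ∑ i, (w i : ZMod (p ^ n)) * ((ζ i : (ZMod (p ^ n))ˣ) : ZMod (p ^ n)) =
          (w 0 : ZMod (p ^ n)) * ζ 0 + w 1 * ζ 1 + w j * ζ j := by
        rw [Fin.sum_univ_four]
        have h23 : (j = 2 ∧ l = 3) ∨ (j = 3 ∧ l = 2) := by
          clear hw hwl hwn hwB
          revert j l
          decide
        rcases h23 with ⟨rfl, rfl⟩ | ⟨rfl, rfl⟩
        · rw [hwl, Int.cast_zero, zero_mul, add_zero]
        · rw [hwl, Int.cast_zero, zero_mul, add_zero]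
      rw [h1] at hw
      have hu : IsUnit ((ζ 0 : (ZMod (p ^ n))ˣ) : ZMod (p ^ n)) := Units.isUnit _
      refine (hu.mul_left_eq_zero).mp ?_
      rw [← hw]
      have e1 := hdiv (ζ 1) (ζ 0)
      have e2 := hdiv (ζ j) (ζ 0)
      calc ((w 0 : ZMod (p ^ n)) + w 1 * ((ζ 1 / ζ 0 : (ZMod (p ^ n))ˣ) : ZMod (p ^ n)) +
            w j * ((ζ j / ζ 0 : (ZMod (p ^ n))ˣ) : ZMod (p ^ n))) * ζ 0 =
          (w 0 : ZMod (p ^ n)) * ζ 0 + w 1 * (((ζ 1 / ζ 0 : (ZMod (p ^ n))ˣ) : ZMod (p ^ n)) * ζ 0) +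
            w j * (((ζ j / ζ 0 : (ZMod (p ^ n))ˣ) : ZMod (p ^ n)) * ζ 0) := by ring
        _ = _ := by rw [e1, e2]
    refine ⟨(ζ 2 / ζ 0, ζ 3 / ζ 0), ?_, ?_⟩
    · rw [mem_product]
      exact ⟨hmem 2 3 (by decide) (by decide) (by decide) (by decide) (by decide),
        hmem 3 2 (by decide) (by decide) (by decide) (by decide) (by decide)⟩
    · funext i
      fin_cases i
      · rfl
      · rfl
      · exact div_mul_cancel _ _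
      · exact div_mul_cancel _ _
  refine (Finset.card_le_card hsub).trans (Finset.card_biUnion_le.trans ?_)
  calc ∑ y ∈ H ×ˢ H, (((Zs (y.2 / y.1)) ×ˢ (Zs (y.2 / y.1))).image fun z =>
        ![y.1, y.2, z.1 * y.1, z.2 * y.1]).card ≤ ∑ y ∈ H ×ˢ H, M ^ 2 := by
        refine Finset.sum_le_sum fun y _ => Finset.card_image_le.trans ?_
        rw [card_product, sq]
        exact Nat.mul_le_mul (hZs _) (hZs _)
    _ = H.card ^ 2 * M ^ 2 := by rw [Finset.sum_const, card_product, smul_eq_mul, sq H.card]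

open Classical in
/-- the quadruples of dilates in four different clusters -/
theorem distinct_sum [NeZero (p ^ n)] (hp : p.Prime) {ι : Type*} (H : Finset (ZMod (p ^ n))ˣ)
    (hH : ∀ z ∈ H, z ^ (p - 1) = 1) (cl : (ZMod (p ^ n))ˣ → ι)
    {g : ZMod (p ^ n) → ℝ} {x : ℤ → ℝ} {J : ℕ} {C0 D : ℝ} (hg : IsTrig g x J)
    (h : Wt (fun m => |x m|) J C0 D) {k0 κ : ℕ} {ρ ε : ℝ} (hκ : 1 ≤ κ) (hρ : 0 < ρ) (hρ1 : ρ ≤ 1)
    (hε : 0 ≤ ε) (hε1 : 256 * C0 ^ 4 * D ^ 2 / 2 ^ κ ≤ ε ^ 4) (hε2 : 16 * C0 ^ 4 * D ^ 2 * ρ ≤ ε ^ 4)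
    (hk0 : (2 : ℝ) ^ (2 * κ + 3) ≤ ρ * 2 ^ k0) (hlow : ∀ m : ℤ, |m| < 2 ^ k0 → x m = 0)
    (hhigh : ∀ m : ℤ, 2 ^ J ≤ |m| → x m = 0)
    (hfar : ∀ z ∈ H, ∀ w ∈ H, cl z ≠ cl w → Far (z : ZMod (p ^ n)) (w : ZMod (p ^ n)) (2 ^ (2 * J + 3))) {M : ℕ}
    (hM : ∀ (y : ℤ) (Z : Finset (ZMod (p ^ n))ˣ), (∀ z ∈ Z, z ^ (p - 1) = 1) →
      (∀ z ∈ Z, ∃ a b c : ℤ, b ≠ 0 ∧ c ≠ 0 ∧ ((|a| : ℤ) : ℝ) ≤ 2 ^ (5 * κ + 10) / ρ ^ 2 ∧
        ((|b| : ℤ) : ℝ) ≤ 2 ^ (5 * κ + 10) / ρ ^ 2 ∧ ((|c| : ℤ) : ℝ) ≤ 2 ^ (5 * κ + 10) / ρ ^ 2 ∧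
        (a : ZMod (p ^ n)) + b * y + c * z = 0) → Z.card ≤ M) :
    ∑ ζ ∈ (Fintype.piFinset fun _ : Fin 4 => H).filter (fun ζ => ∀ i j, i ≠ j → cl (ζ i) ≠ cl (ζ j)),
      |∑ b : ZMod (p ^ n), ∏ i, g ((ζ i : ZMod (p ^ n)) * b)| ≤
      (p ^ n : ℕ) * ((H.card : ℝ) ^ 4 * (J : ℝ) ^ 4 * ε +
        (H.card : ℝ) ^ 2 * (M : ℝ) ^ 2 * ((J : ℝ) * (2 * κ + 1) ^ 3 * C0 ^ 2)) := by
  set A := (Fintype.piFinset fun _ : Fin 4 => H).filter (fun ζ => ∀ i j, i ≠ j → cl (ζ i) ≠ cl (ζ j)) with hA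
  set E : ℝ := (J : ℝ) * (2 * κ + 1) ^ 3 * C0 ^ 2 with hE
  have hE0 : 0 ≤ E := by positivity
  have h1 : ∀ ζ ∈ A, |∑ b : ZMod (p ^ n), ∏ i, g ((ζ i : ZMod (p ^ n)) * b)| ≤ (p ^ n : ℕ) * ((J : ℝ) ^ 4 * ε +
      if SmallRel (Rel fun i => ((ζ i : (ZMod (p ^ n))ˣ) : ZMod (p ^ n))) (2 ^ (5 * κ + 10) / ρ ^ 2) then E else 0) := by
    intro ζ hζ
    rw [hA, mem_filter, Fintype.mem_piFinset] at hζ
    exact four_bound hg h hκ hρ hρ1 hε hε1 hε2 hk0 hlow hhigh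
      (fun i j hij => hfar _ (hζ.1 i) _ (hζ.1 j) (hζ.2 i j hij))
  refine (Finset.sum_le_sum h1).trans ?_
  rw [← Finset.mul_sum]
  refine mul_le_mul_of_nonneg_left ?_ (Nat.cast_nonneg _)
  rw [Finset.sum_add_distrib]
  refine add_le_add ?_ ?_
  · rw [Finset.sum_const, nsmul_eq_mul]
    have h2 : A.card ≤ H.card ^ 4 := by
      refine (Finset.card_filter_le _ _).trans ?_
      rw [Fintype.card_piFinset, Fin.prod_univ_four]
      exact le_of_eq (by ring)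
    have h3 : (A.card : ℝ) ≤ (H.card : ℝ) ^ 4 := by exact_mod_cast h2
    calc (A.card : ℝ) * ((J : ℝ) ^ 4 * ε) ≤ (H.card : ℝ) ^ 4 * ((J : ℝ) ^ 4 * ε) := by gcongr
      _ = _ := by ring
  · rw [← Finset.sum_filter, Finset.sum_const, nsmul_eq_mul]
    have h2 := card_small hp H hH (B := 2 ^ (5 * κ + 10) / ρ ^ 2) hM
    have h3 : (A.filter fun ζ => SmallRel (Rel fun i => ((ζ i : (ZMod (p ^ n))ˣ) : ZMod (p ^ n)))
        (2 ^ (5 * κ + 10) / ρ ^ 2)).card ≤ H.card ^ 2 * M ^ 2 := by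
      refine (Finset.card_le_card ?_).trans h2
      exact Finset.filter_subset_filter _ (Finset.filter_subset _ _)
    have h4 : (((A.filter fun ζ => SmallRel (Rel fun i => ((ζ i : (ZMod (p ^ n))ˣ) : ZMod (p ^ n)))
        (2 ^ (5 * κ + 10) / ρ ^ 2)).card : ℕ) : ℝ) ≤ (H.card : ℝ) ^ 2 * (M : ℝ) ^ 2 := by exact_mod_cast h3
    exact mul_le_mul_of_nonneg_right h4 hE0

end count

end Pool.Agent.MU0
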