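import Pool.Agent.MU0.Cnt
import Pool.Agent.MU0.ZY3

/-!
# The mean value theorem on the orbits of `H`
-/

set_option autoImplicit false

open Finset

namespace Pool.Agent.MU0

theorem mv_harm (K : ℕ) : ∑ m ∈ Icc 1 K, 1 / (m : ℝ) ≤ 1 + Real.log K := by
  have h := harmonic_le_one_add_log K
  have h2 : ((harmonic K : ℚ) : ℝ) = ∑ m ∈ Icc 1 K, 1 / (m : ℝ) := by
    rw [harmonic_eq_sum_Icc]
    push_cast
    simp only [one_div]
  rw [← h2]
  exact h

/-- unfolding a divisor -/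
theorem mv_unfold (K : ℕ) (g : ℕ → ℝ) (hg : ∀ m, 0 ≤ g m) :
    ∑ m ∈ Icc 1 K, (m.divisors.card : ℝ) * g m ≤ ∑ e ∈ Icc 1 K, ∑ k ∈ Icc 1 K, g (e * k) := by
  classical
  have h1 : ∀ m ∈ Icc 1 K, (m.divisors.card : ℝ) * g m = ∑ e ∈ Icc 1 K, if e ∣ m then g m else 0 := by
    intro m hm
    rw [mem_Icc] at hm
    rw [← sum_filter, sum_const, nsmul_eq_mul]
    congr 2
    congr 1
    ext e
    simp only [Nat.mem_divisors, mem_filter, mem_Icc]
    constructor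
    · rintro ⟨h1, h2⟩
      exact ⟨⟨Nat.pos_of_dvd_of_pos h1 (by omega), (Nat.le_of_dvd (by omega) h1).trans hm.2⟩, h1⟩
    · rintro ⟨-, h1⟩
      exact ⟨h1, by omega⟩
  rw [sum_congr rfl h1, sum_comm]
  refine sum_le_sum fun e he => ?_
  rw [mem_Icc] at he
  rw [← sum_filter]
  have h2 : (Icc 1 K).filter (fun m => e ∣ m) ⊆ (Icc 1 K).image (fun k => e * k) := by
    intro m hm
    rw [mem_filter, mem_Icc] at hm
    obtain ⟨⟨hm1, hm2⟩, k, rfl⟩ := hm
    rw [mem_image]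
    refine ⟨k, mem_Icc.2 ⟨?_, ?_⟩, rfl⟩
    · rcases Nat.eq_zero_or_pos k with h | h
      · subst h; omega
      · exact h
    · exact (Nat.le_mul_of_pos_left k (by omega)).trans hm2
  calc ∑ m ∈ (Icc 1 K).filter (fun m => e ∣ m), g m
      ≤ ∑ m ∈ (Icc 1 K).image (fun k => e * k), g m :=
        sum_le_sum_of_subset_of_nonneg h2 fun _ _ _ => hg _
    _ = ∑ k ∈ Icc 1 K, g (e * k) := by
        rw [sum_image]
        intro a _ b _ hab
        exact Nat.eq_of_mul_eq_mul_left (by omega) hab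

theorem mv_submul (e k : ℕ) : (e * k).divisors.card ≤ e.divisors.card * k.divisors.card := by
  rw [Nat.divisors_mul]
  exact card_mul_le

theorem mv_div (K j : ℕ) :
    ∑ m ∈ Icc 1 K, (m.divisors.card : ℝ) ^ j / m ≤ (1 + Real.log K) ^ (2 ^ j) := by
  induction j with
  | zero =>
    simp only [pow_zero, pow_one]
    exact mv_harm K
  | succ j ih =>
    have h0 : ∀ m ∈ Icc 1 K, (m.divisors.card : ℝ) ^ (j + 1) / m =
        (m.divisors.card : ℝ) * ((m.divisors.card : ℝ) ^ j / m) := fun m _ => by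
      rw [pow_succ]; ring
    rw [sum_congr rfl h0]
    refine (mv_unfold K (fun m => (m.divisors.card : ℝ) ^ j / m) (fun m => by positivity)).trans ?_
    calc ∑ e ∈ Icc 1 K, ∑ k ∈ Icc 1 K, ((e * k).divisors.card : ℝ) ^ j / ((e * k : ℕ) : ℝ)
        ≤ ∑ e ∈ Icc 1 K, ∑ k ∈ Icc 1 K,
          ((e.divisors.card : ℝ) ^ j / e) * ((k.divisors.card : ℝ) ^ j / k) := by
          refine sum_le_sum fun e _ => sum_le_sum fun k _ => ?_
          rw [div_mul_div_comm, ← mul_pow, Nat.cast_mul]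
          refine div_le_div_of_nonneg_right (pow_le_pow_left₀ (by positivity) ?_ _) (by positivity)
          exact_mod_cast mv_submul e k
      _ = (∑ e ∈ Icc 1 K, (e.divisors.card : ℝ) ^ j / e) ^ 2 := by
          rw [sq, sum_mul_sum]
      _ ≤ ((1 + Real.log K) ^ (2 ^ j)) ^ 2 := by
          refine pow_le_pow_left₀ (sum_nonneg fun m _ => by positivity) ih _
      _ = (1 + Real.log K) ^ (2 ^ (j + 1)) := by
          rw [← pow_mul, pow_succ]

/-- the pairs -/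
def mvP {M : ℕ} (ζ : ZMod M) (K : ℕ) : Finset (ℕ × ℕ) :=
  ((Icc 1 K) ×ˢ (Icc 1 K)).filter (fun n : ℕ × ℕ => (n.2 : ZMod M) = ζ * (n.1 : ℕ))

theorem mvP_mem {M : ℕ} {ζ : ZMod M} {K : ℕ} {n : ℕ × ℕ} : n ∈ mvP ζ K ↔
    ((1 ≤ n.1 ∧ n.1 ≤ K) ∧ (1 ≤ n.2 ∧ n.2 ≤ K)) ∧ (n.2 : ZMod M) = ζ * (n.1 : ℕ) := by
  simp only [mvP, mem_filter, mem_product, mem_Icc]

theorem mv_eq {M K a b : ℕ} (hK : K < M) (ha : 1 ≤ a ∧ a ≤ K) (hb : 1 ≤ b ∧ b ≤ K)
    (h : (a : ZMod M) = b) : a = b := by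
  have h1 := congrArg ZMod.val h
  rwa [ZMod.val_natCast, ZMod.val_natCast, Nat.mod_eq_of_lt (by omega), Nat.mod_eq_of_lt (by omega)] at h1

theorem mv_fst {M : ℕ} {ζ : ZMod M} {K : ℕ} (hK : K < M) (F : ℕ → ℝ) (hF : ∀ m, 0 ≤ F m) :
    ∑ n ∈ mvP ζ K, F n.1 ≤ ∑ m ∈ Icc 1 K, F m := by
  classical
  have h1 : Set.InjOn Prod.fst (mvP ζ K : Set (ℕ × ℕ)) := by
    intro x hx y hy hxy
    rw [mem_coe, mvP_mem] at hx hy
    refine Prod.ext hxy (mv_eq hK hx.1.2 hy.1.2 ?_)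
    rw [hx.2, hy.2, hxy]
  rw [← sum_image (f := F) (g := Prod.fst) h1]
  refine sum_le_sum_of_subset_of_nonneg ?_ fun _ _ _ => hF _
  intro m hm
  obtain ⟨x, hx, rfl⟩ := mem_image.1 hm
  rw [mvP_mem] at hx
  exact mem_Icc.2 hx.1.1

theorem mv_snd {M : ℕ} {ζ : ZMod M} (hζ : IsUnit ζ) {K : ℕ} (hK : K < M) (F : ℕ → ℝ)
    (hF : ∀ m, 0 ≤ F m) : ∑ n ∈ mvP ζ K, F n.2 ≤ ∑ m ∈ Icc 1 K, F m := by
  classical
  have h1 : Set.InjOn Prod.snd (mvP ζ K : Set (ℕ × ℕ)) := by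
    intro x hx y hy hxy
    rw [mem_coe, mvP_mem] at hx hy
    refine Prod.ext (mv_eq hK hx.1.1 hy.1.1 ?_) hxy
    have h2 := hx.2
    rw [hxy, hy.2] at h2
    exact (hζ.mul_left_cancel h2).symm
  rw [← sum_image (f := F) (g := Prod.snd) h1]
  refine sum_le_sum_of_subset_of_nonneg ?_ fun _ _ _ => hF _
  intro m hm
  obtain ⟨x, hx, rfl⟩ := mem_image.1 hm
  rw [mvP_mem] at hx
  exact mem_Icc.2 hx.1.2

/-- the special `ζ` -/
theorem mv_special {M : ℕ} {ζ : ZMod M} (hζ : IsUnit ζ) {K : ℕ} (hK : K < M) (x : ℕ → ℝ) :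
    ∑ n ∈ mvP ζ K, x n.1 * x n.2 ≤ ∑ m ∈ Icc 1 K, x m ^ 2 := by
  calc ∑ n ∈ mvP ζ K, x n.1 * x n.2 ≤ ∑ n ∈ mvP ζ K, (x n.1 ^ 2 / 2 + x n.2 ^ 2 / 2) :=
        sum_le_sum fun n _ => by nlinarith [sq_nonneg (x n.1 - x n.2)]
    _ ≤ _ := by
        rw [sum_add_distrib]
        have h1 := mv_fst (ζ := ζ) hK (fun m => x m ^ 2 / 2) (fun m => by positivity)
        have h2 := mv_snd hζ hK (fun m => x m ^ 2 / 2) (fun m => by positivity)
        have h3 : ∑ m ∈ Icc 1 K, x m ^ 2 / 2 + ∑ m ∈ Icc 1 K, x m ^ 2 / 2 = ∑ m ∈ Icc 1 K, x m ^ 2 := by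
          rw [← sum_add_distrib]
          exact sum_congr rfl fun m _ => by ring
        linarith

theorem mv_inv (K s : ℕ) (hs : 1 ≤ s) (hsK : s ≤ K) :
    1 / (s : ℝ) = ∑ S ∈ Icc s K, 1 / ((S : ℝ) * (S + 1)) + 1 / (K + 1) := by
  induction K, hsK using Nat.le_induction with
  | base =>
    have : (0 : ℝ) < s := by exact_mod_cast hs
    rw [Icc_self, sum_singleton]
    field_simp
    ring
  | succ K hK ih =>
    have h0 : (0 : ℝ) < K := by
      have : 0 < K := by omega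
      exact_mod_cast this
    rw [ih, sum_Icc_succ_top (by omega)]
    push_cast
    field_simp
    ring

theorem mv_max {M : ℕ} [NeZero M] {ζ : ZMod M} {V : ℝ} (hV : 1 ≤ V) (h : NoShort M ζ V) (K : ℕ) :
    ∑ n ∈ mvP ζ K, 1 / (max (n.1 : ℝ) n.2) ≤
      40 * (2 * (2 + Real.log K) / V + 2 * K / M) := by
  classical
  have hM : (0 : ℝ) < M := by exact_mod_cast Nat.pos_of_ne_zero (NeZero.ne M)
  have hV0 : 0 < V := by linarith
  -- the number of pairs
  have hN : ∀ S : ℕ, 1 ≤ S → ((mvP ζ S).card : ℝ) ≤ 40 * (2 * S / V + (S : ℝ) ^ 2 / M) := by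
    intro S hS
    rcases le_or_gt (S : ℝ) V with hSV | hSV
    · have h1 : mvP ζ S = ∅ := by
        rw [eq_empty_iff_forall_notMem]
        intro n hn
        rw [mvP_mem] at hn
        have h2 := h (n.1 : ℤ) (n.2 : ℤ) (by push_cast; exact hn.2)
          (by push_cast; rw [Nat.abs_cast]; exact le_trans (by exact_mod_cast hn.1.1.2) hSV)
          (by push_cast; rw [Nat.abs_cast]; exact le_trans (by exact_mod_cast hn.1.2.2) hSV)
        omega
      rw [h1, card_empty, Nat.cast_zero]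
      positivity
    · have h1 := count_square M ζ hV h S hS 1 1
      have h2 : Icc 1 S = Ico 1 (1 + S) := by ext; simp only [mem_Icc, mem_Ico]; omega
      rw [mvP, h2]
      refine h1.trans ?_
      have h3 : (1 : ℝ) ≤ S / V := by rw [le_div_iff₀ hV0]; linarith
      have h4 : 2 * (S : ℝ) / V = S / V + S / V := by ring
      rw [h4]
      linarith
  have hsub : ∀ S : ℕ, (mvP ζ K).filter (fun n => max n.1 n.2 ≤ S) ⊆ mvP ζ S := by
    intro S n hn
    rw [mem_filter, mvP_mem] at hn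
    rw [mvP_mem]
    exact ⟨⟨⟨hn.1.1.1.1, (le_max_left _ _).trans hn.2⟩, ⟨hn.1.1.2.1, (le_max_right _ _).trans hn.2⟩⟩, hn.1.2⟩
  have h1 : ∀ n ∈ mvP ζ K, 1 / (max (n.1 : ℝ) n.2) =
      ∑ S ∈ Icc 1 K, (if max n.1 n.2 ≤ S then 1 / ((S : ℝ) * (S + 1)) else 0) + 1 / ((K : ℝ) + 1) := by
    intro n hn
    rw [mvP_mem] at hn
    have h2 := mv_inv K (max n.1 n.2) (le_max_of_le_left hn.1.1.1) (max_le hn.1.1.2 hn.1.2.2)
    rw [Nat.cast_max] at h2
    rw [h2, ← sum_filter]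
    congr 2
    ext S
    have : 1 ≤ max n.1 n.2 := le_max_of_le_left hn.1.1.1
    simp only [mem_Icc, mem_filter]
    omega
  rw [sum_congr rfl h1, sum_add_distrib, sum_const, nsmul_eq_mul, sum_comm]
  rcases Nat.eq_zero_or_pos K with hK0 | hK0
  · subst hK0
    simp only [mvP]
    simp
    positivity
  have hKr : (1 : ℝ) ≤ K := by exact_mod_cast hK0
  have h2 : ∀ S ∈ Icc 1 K, ∑ n ∈ mvP ζ K, (if max n.1 n.2 ≤ S then 1 / ((S : ℝ) * (S + 1)) else 0) ≤
      40 * (2 / V * (1 / S) + 1 / M) := by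
    intro S hS
    rw [mem_Icc] at hS
    have hS0 : (0 : ℝ) < S := by
      have : 0 < S := by omega
      exact_mod_cast this
    rw [← sum_filter, sum_const, nsmul_eq_mul]
    have h3 : (((mvP ζ K).filter (fun n => max n.1 n.2 ≤ S)).card : ℝ) ≤
        40 * (2 * S / V + (S : ℝ) ^ 2 / M) :=
      le_trans (by exact_mod_cast card_le_card (hsub S)) (hN S hS.1)
    calc (((mvP ζ K).filter (fun n => max n.1 n.2 ≤ S)).card : ℝ) * (1 / ((S : ℝ) * (S + 1)))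
        ≤ 40 * (2 * S / V + (S : ℝ) ^ 2 / M) * (1 / ((S : ℝ) * (S + 1))) :=
          mul_le_mul_of_nonneg_right h3 (by positivity)
      _ ≤ 40 * (2 * S / V + (S : ℝ) ^ 2 / M) * (1 / ((S : ℝ) * S)) := by
          refine mul_le_mul_of_nonneg_left ?_ (by positivity)
          exact one_div_le_one_div_of_le (by positivity) (by nlinarith)
      _ = 40 * (2 / V * (1 / S) + 1 / M) := by
          field_simp
  have h3 : ((mvP ζ K).card : ℝ) * (1 / ((K : ℝ) + 1)) ≤ 40 * (2 / V + K / M) := by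
    calc ((mvP ζ K).card : ℝ) * (1 / ((K : ℝ) + 1))
        ≤ 40 * (2 * K / V + (K : ℝ) ^ 2 / M) * (1 / ((K : ℝ) + 1)) :=
          mul_le_mul_of_nonneg_right (hN K hK0) (by positivity)
      _ ≤ 40 * (2 * K / V + (K : ℝ) ^ 2 / M) * (1 / (K : ℝ)) := by
          refine mul_le_mul_of_nonneg_left ?_ (by positivity)
          exact one_div_le_one_div_of_le (by positivity) (by linarith)
      _ = 40 * (2 / V + K / M) := by field_simp
  calc ∑ S ∈ Icc 1 K, ∑ n ∈ mvP ζ K, (if max n.1 n.2 ≤ S then 1 / ((S : ℝ) * (S + 1)) else 0) +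
        ((mvP ζ K).card : ℝ) * (1 / ((K : ℝ) + 1))
      ≤ ∑ S ∈ Icc 1 K, 40 * (2 / V * (1 / (S : ℝ)) + 1 / M) + 40 * (2 / V + K / M) :=
        add_le_add (sum_le_sum h2) h3
    _ = 40 * (2 / V * ∑ S ∈ Icc 1 K, 1 / (S : ℝ) + K / M) + 40 * (2 / V + K / M) := by
        rw [← mul_sum, sum_add_distrib, ← mul_sum, sum_const, nsmul_eq_mul, Nat.card_Icc]
        simp only [Nat.add_sub_cancel]
        ring
    _ ≤ 40 * (2 / V * (1 + Real.log K) + K / M) + 40 * (2 / V + K / M) := by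
        have h4 : 2 / V * ∑ S ∈ Icc 1 K, 1 / (S : ℝ) ≤ 2 / V * (1 + Real.log K) :=
          mul_le_mul_of_nonneg_left (mv_harm K) (by positivity)
        linarith
    _ = _ := by ring

/-- the weights of the pairs -/
theorem mv_weight {M : ℕ} [NeZero M] {ζ : ZMod M} (hζ : IsUnit ζ) {V B : ℝ} (hV : 1 ≤ V) (hB : 1 ≤ B)
    (h : NoShort M ζ V) {K : ℕ} (hK : K < M) :
    ∑ n ∈ mvP ζ K, 1 / √((n.1 : ℝ) * n.2) ≤
      2 / B * (1 + Real.log K) + B * (40 * (2 * (2 + Real.log K) / V + 2 * K / M)) := by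
  have hB0 : 0 < B := by linarith
  have h1 : ∀ n ∈ mvP ζ K, 1 / √((n.1 : ℝ) * n.2) ≤
      1 / B * (1 / (n.1 : ℝ)) + 1 / B * (1 / (n.2 : ℝ)) + B * (1 / (max (n.1 : ℝ) n.2)) := by
    intro n hn
    rw [mvP_mem] at hn
    have h1 : (0 : ℝ) < n.1 := by
      have : 0 < n.1 := by omega
      exact_mod_cast this
    have h2 : (0 : ℝ) < n.2 := by
      have : 0 < n.2 := by omega
      exact_mod_cast this
    have hp1 : 0 ≤ 1 / B * (1 / (n.1 : ℝ)) := by positivity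
    have hp2 : 0 ≤ 1 / B * (1 / (n.2 : ℝ)) := by positivity
    have hp3 : 0 ≤ B * (1 / (max (n.1 : ℝ) n.2)) := by positivity
    rcases le_or_gt (B ^ 2 * n.1) (n.2 : ℝ) with h3 | h3
    · have h4 : 1 / √((n.1 : ℝ) * n.2) ≤ 1 / B * (1 / (n.1 : ℝ)) := by
        rw [div_mul_div_comm, one_mul]
        refine one_div_le_one_div_of_le (by positivity) (Real.le_sqrt_of_sq_le ?_)
        nlinarith
      linarith
    rcases le_or_gt (B ^ 2 * n.2) (n.1 : ℝ) with h5 | h5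
    · have h4 : 1 / √((n.1 : ℝ) * n.2) ≤ 1 / B * (1 / (n.2 : ℝ)) := by
        rw [div_mul_div_comm, one_mul]
        refine one_div_le_one_div_of_le (by positivity) (Real.le_sqrt_of_sq_le ?_)
        nlinarith
      linarith
    · have h4 : 1 / √((n.1 : ℝ) * n.2) ≤ B * (1 / (max (n.1 : ℝ) n.2)) := by
        have h6 : B * (1 / (max (n.1 : ℝ) n.2)) = 1 / (max (n.1 : ℝ) n.2 / B) := by
          field_simp
        rw [h6]
        refine one_div_le_one_div_of_le (by positivity) (Real.le_sqrt_of_sq_le ?_)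
        rw [div_pow, div_le_iff₀ (by positivity)]
        rcases max_choice (n.1 : ℝ) n.2 with h7 | h7
        · rw [h7]; nlinarith
        · rw [h7]; nlinarith
      linarith
  refine (sum_le_sum h1).trans ?_
  rw [sum_add_distrib, sum_add_distrib]
  have h2 := mv_fst (ζ := ζ) hK (fun m => 1 / B * (1 / (m : ℝ))) (fun m => by positivity)
  have h3 := mv_snd hζ hK (fun m => 1 / B * (1 / (m : ℝ))) (fun m => by positivity)
  have h4 : ∑ m ∈ Icc 1 K, 1 / B * (1 / (m : ℝ)) ≤ 1 / B * (1 + Real.log K) := by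
    rw [← mul_sum]
    exact mul_le_mul_of_nonneg_left (mv_harm K) (by positivity)
  have h5 : ∑ n ∈ mvP ζ K, B * (1 / (max (n.1 : ℝ) n.2)) ≤
      B * (40 * (2 * (2 + Real.log K) / V + 2 * K / M)) := by
    rw [← mul_sum]
    exact mul_le_mul_of_nonneg_left (mv_max hV h K) hB0.le
  have h6 : 2 / B * (1 + Real.log K) = 1 / B * (1 + Real.log K) + 1 / B * (1 + Real.log K) := by ring
  rw [h6]
  linarith

/-- the other `ζ` -/
theorem mv_generic {M : ℕ} [NeZero M] {ζ : ZMod M} (hζ : IsUnit ζ) {V B : ℝ} (hV : 1 ≤ V) (hB : 1 ≤ B)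
    (h : NoShort M ζ V) {K : ℕ} (hK : K < M) (x : ℕ → ℝ) (β : ℝ)
    (hx : ∀ m ∈ Icc 1 K, 0 ≤ x m ∧ x m ≤ β * (m.divisors.card / √(m : ℝ))) :
    ∑ n ∈ mvP ζ K, x n.1 * x n.2 ≤ β ^ 2 *
      (√(2 / B * (1 + Real.log K) + B * (40 * (2 * (2 + Real.log K) / V + 2 * K / M))) *
        (1 + Real.log K) ^ 8) := by
  have h1 : ∀ n ∈ mvP ζ K, x n.1 * x n.2 ≤ β ^ 2 * (√(1 / √((n.1 : ℝ) * n.2)) *
      (√(1 / √((n.1 : ℝ) * n.2)) * (n.1.divisors.card * n.2.divisors.card))) := by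
    intro n hn
    rw [mvP_mem] at hn
    have h1 := hx n.1 (mem_Icc.2 hn.1.1)
    have h2 := hx n.2 (mem_Icc.2 hn.1.2)
    have h3 : x n.1 * x n.2 ≤ (β * (n.1.divisors.card / √(n.1 : ℝ))) * (β * (n.2.divisors.card / √(n.2 : ℝ))) :=
      mul_le_mul h1.2 h2.2 h2.1 (h1.1.trans h1.2)
    refine h3.trans (le_of_eq ?_)
    have h4 : √(1 / √((n.1 : ℝ) * n.2)) * √(1 / √((n.1 : ℝ) * n.2)) = 1 / √((n.1 : ℝ) * n.2) :=
      Real.mul_self_sqrt (by positivity)
    have h5 : √((n.1 : ℝ) * n.2) = √(n.1 : ℝ) * √(n.2 : ℝ) := Real.sqrt_mul (by positivity) _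
    calc (β * (n.1.divisors.card / √(n.1 : ℝ))) * (β * (n.2.divisors.card / √(n.2 : ℝ)))
        = β ^ 2 * ((1 / (√(n.1 : ℝ) * √(n.2 : ℝ))) * (n.1.divisors.card * n.2.divisors.card)) := by
          have h6 : (0 : ℝ) < √(n.1 : ℝ) := by
            apply Real.sqrt_pos.2; have : 0 < n.1 := by omega
            exact_mod_cast this
          have h7 : (0 : ℝ) < √(n.2 : ℝ) := by
            apply Real.sqrt_pos.2; have : 0 < n.2 := by omega
            exact_mod_cast this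
          field_simp
      _ = β ^ 2 * ((1 / √((n.1 : ℝ) * n.2)) * (n.1.divisors.card * n.2.divisors.card)) := by rw [h5]
      _ = β ^ 2 * ((√(1 / √((n.1 : ℝ) * n.2)) * √(1 / √((n.1 : ℝ) * n.2))) *
            (n.1.divisors.card * n.2.divisors.card)) := by rw [h4]
      _ = _ := by ring
  refine (sum_le_sum h1).trans ?_
  rw [← mul_sum]
  refine mul_le_mul_of_nonneg_left ?_ (sq_nonneg β)
  have hlog : 0 ≤ Real.log K := Real.log_natCast_nonneg K
  have hcs := Finset.sum_mul_sq_le_sq_mul_sq (mvP ζ K) (fun n => √(1 / √((n.1 : ℝ) * n.2)))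
    (fun n => √(1 / √((n.1 : ℝ) * n.2)) * (n.1.divisors.card * n.2.divisors.card))
  refine Real.le_sqrt_of_sq_le hcs |>.trans ?_
  rw [Real.sqrt_mul (by positivity)]
  refine mul_le_mul ?_ ?_ (Real.sqrt_nonneg _) (Real.sqrt_nonneg _)
  · refine Real.sqrt_le_sqrt ?_
    have h2 : ∀ n ∈ mvP ζ K, √(1 / √((n.1 : ℝ) * n.2)) ^ 2 = 1 / √((n.1 : ℝ) * n.2) := fun n _ =>
      Real.sq_sqrt (by positivity)
    rw [sum_congr rfl h2]
    exact mv_weight hζ hV hB h hK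
  · rw [Real.sqrt_le_left (by positivity), ← pow_mul]
    have h2 : ∀ n ∈ mvP ζ K, (√(1 / √((n.1 : ℝ) * n.2)) * (n.1.divisors.card * n.2.divisors.card)) ^ 2 ≤
        ((n.1.divisors.card : ℝ) ^ 4 / n.1) / 2 + ((n.2.divisors.card : ℝ) ^ 4 / n.2) / 2 := by
      intro n hn
      rw [mvP_mem] at hn
      have h6 : (0 : ℝ) < n.1 := by
        have : 0 < n.1 := by omega
        exact_mod_cast this
      have h7 : (0 : ℝ) < n.2 := by
        have : 0 < n.2 := by omega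
        exact_mod_cast this
      rw [mul_pow, Real.sq_sqrt (by positivity)]
      have h8 : 1 / √((n.1 : ℝ) * n.2) * ((n.1.divisors.card : ℝ) * n.2.divisors.card) ^ 2 =
          ((n.1.divisors.card : ℝ) ^ 2 / √(n.1 : ℝ)) * ((n.2.divisors.card : ℝ) ^ 2 / √(n.2 : ℝ)) := by
        rw [Real.sqrt_mul h6.le]
        have h9 := Real.sqrt_pos.2 h6
        have h10 := Real.sqrt_pos.2 h7
        field_simp
      rw [h8]
      have h11 : ((n.1.divisors.card : ℝ) ^ 4 / n.1) = ((n.1.divisors.card : ℝ) ^ 2 / √(n.1 : ℝ)) ^ 2 := by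
        rw [div_pow, Real.sq_sqrt h6.le, ← pow_mul]
      have h12 : ((n.2.divisors.card : ℝ) ^ 4 / n.2) = ((n.2.divisors.card : ℝ) ^ 2 / √(n.2 : ℝ)) ^ 2 := by
        rw [div_pow, Real.sq_sqrt h7.le, ← pow_mul]
      rw [h11, h12]
      nlinarith [sq_nonneg (((n.1.divisors.card : ℝ) ^ 2 / √(n.1 : ℝ)) - ((n.2.divisors.card : ℝ) ^ 2 / √(n.2 : ℝ)))]
    refine (sum_le_sum h2).trans ?_
    rw [sum_add_distrib]
    have h3 := mv_fst (ζ := ζ) hK (fun m => ((m.divisors.card : ℝ) ^ 4 / m) / 2) (fun m => by positivity)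
    have h4 := mv_snd hζ hK (fun m => ((m.divisors.card : ℝ) ^ 4 / m) / 2) (fun m => by positivity)
    have h5 : ∑ m ∈ Icc 1 K, ((m.divisors.card : ℝ) ^ 4 / m) / 2 ≤ (1 + Real.log K) ^ 16 / 2 := by
      rw [← sum_div]
      have := mv_div K 4
      norm_num at this
      linarith
    have h6 : (8 * 2 : ℕ) = 16 := by norm_num
    rw [h6]
    linarith

end Pool.Agent.MU0
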