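import Pool.Agent.MU0.Defs
import Pool.Agent.MU0.Four
import Pool.Agent.MU0.Mv

/-!
# One quadruple of pairwise separated units
-/

set_option autoImplicit false

open Finset

namespace Pool.Agent.MU0

section quad

variable {Λ : AddSubgroup (Fin 4 → ℤ)} {a : ℤ → ℝ} {J : ℕ} {C0 D : ℝ}

open Classical in
/-- the sum over the relations between four separated elements, with small weights -/
theorem quad_sum2 (h : Wt a J C0 D) (hsep : QSep Λ J) {k0 κ : ℕ} {ρ ε τ : ℝ} (hκ : 1 ≤ κ) (hρ : 0 < ρ) (hρ1 : ρ ≤ 1)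
    (hε : 0 ≤ ε) (hε1 : 256 * C0 ^ 4 * D ^ 2 / 2 ^ κ ≤ ε ^ 4) (hε2 : 16 * C0 ^ 4 * D ^ 2 * ρ ≤ ε ^ 4)
    (hk0 : (2 : ℝ) ^ (2 * κ + 3) ≤ ρ * 2 ^ k0) (hτ : ∀ m, a m ≤ τ)
    (hτ1 : 16 * τ ^ 4 * 2 ^ (2 * k0 + κ) ≤ ε) (ha0 : a 0 = 0)
    (hhigh : ∀ m : ℤ, 2 ^ J ≤ |m| → a m = 0) :
    (∑ m ∈ (Fintype.piFinset fun _ : Fin 4 => Ioo (-(2 ^ J : ℤ)) (2 ^ J)).filter (fun m => m ∈ Λ), ∏ i, a (m i)) ≤
      (J : ℝ) ^ 4 * ε + if SmallRel Λ (2 ^ (5 * κ + 10) / ρ ^ 2) then (J : ℝ) * (2 * κ + 1) ^ 3 * C0 ^ 2 else 0 := by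
  set Bx := (Fintype.piFinset fun _ : Fin 4 => Ioo (-(2 ^ J : ℤ)) (2 ^ J)).filter (fun m => m ∈ Λ) with hBx
  -- reduction to boxes
  have h1 : ∑ m ∈ Bx, ∏ i, a (m i) = ∑ m ∈ Bx.filter (fun m => ∏ i, a (m i) ≠ 0), ∏ i, a (m i) :=
    (Finset.sum_filter_ne_zero _).symm
  have hF : ∀ m ∈ Bx.filter (fun m => ∏ i, a (m i) ≠ 0), m ∈ Λ ∧ ∀ i, m i ≠ 0 ∧ |m i| < 2 ^ J := by
    intro m hm
    rw [mem_filter, hBx, mem_filter] at hm
    refine ⟨hm.1.2, fun i => ?_⟩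
    have h2 : a (m i) ≠ 0 := fun h0 => hm.2 (Finset.prod_eq_zero (mem_univ i) h0)
    constructor
    · intro h3
      exact h2 (by rw [h3, ha0])
    · by_contra h3
      push Not at h3
      exact h2 (hhigh _ h3)
  have hlog : ∀ m ∈ Bx.filter (fun m => ∏ i, a (m i) ≠ 0), ∀ i, m i ∈ shell (Nat.log 2 (m i).natAbs) ∧
      Nat.log 2 (m i).natAbs < J := by
    intro m hm i
    obtain ⟨h2, h3⟩ := (hF m hm).2 i
    have h5 : (m i).natAbs < 2 ^ J := by
      have : ((m i).natAbs : ℤ) < ((2 ^ J : ℕ) : ℤ) := by rw [Int.natCast_natAbs]; exact_mod_cast h3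
      exact_mod_cast this
    have h6 : (m i).natAbs ≠ 0 := by simpa using h2
    refine ⟨?_, Nat.log_lt_of_lt_pow h6 h5⟩
    rw [mem_shell, ← Int.natCast_natAbs]
    constructor
    · exact_mod_cast Nat.pow_log_le_self 2 h6
    · exact_mod_cast Nat.lt_pow_succ_log_self (by norm_num) _
  set Kc := Fintype.piFinset fun _ : Fin 4 => range J with hKc
  have h2 : ∑ m ∈ Bx.filter (fun m => ∏ i, a (m i) ≠ 0), ∏ i, a (m i) ≤ ∑ k ∈ Kc, wb Λ a k := by
    rw [← Finset.sum_fiberwise_of_maps_to (g := fun m i => Nat.log 2 (m i).natAbs) (t := Kc)]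
    · refine Finset.sum_le_sum fun k _ => ?_
      unfold wb
      refine Finset.sum_le_sum_of_subset_of_nonneg ?_ fun _ _ _ => Finset.prod_nonneg fun _ _ => h.nonneg _
      intro m hm
      rw [mem_filter] at hm
      rw [mem_bx]
      refine ⟨fun i => ?_, (hF m hm.1).1⟩
      have := (hlog m hm.1 i).1
      rwa [show Nat.log 2 (m i).natAbs = k i from congrFun hm.2 i] at this
    · intro m hm
      rw [hKc, Fintype.mem_piFinset]
      intro i
      rw [mem_range]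
      exact (hlog m hm i).2
  rw [h1]
  refine h2.trans ?_
  have hKcm : ∀ k ∈ Kc, ∀ i, k i < J := by
    intro k hk i
    rw [hKc, Fintype.mem_piFinset] at hk
    exact mem_range.mp (hk i)
  have hτ0 : 0 ≤ τ := (h.nonneg 0).trans (hτ 0)
  -- the bound of a box
  have hbox : ∀ k ∈ Kc, wb Λ a k ≤ ε + if (∀ i j, k i ≤ k j + κ) ∧ SmallRel Λ (2 ^ (5 * κ + 10) / ρ ^ 2)
      then C0 ^ 2 else 0 := by
    intro k hk
    have hkJ : ∀ i, k i < J := hKcm k hk
    by_cases hbal : ∀ i j, k i ≤ k j + κ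
    · by_cases hlow : ∃ α, k α < k0
      · -- a small coordinate
        obtain ⟨α, hα⟩ := hlow
        have h3 : wb Λ a k ≤ ε := by
          obtain ⟨β, hβ⟩ : ∃ β : Fin 4, α ≠ β := by
            clear hα
            revert α
            decide
          have h4 : wb Λ a k ≤ ∑ m ∈ bx Λ k, (fun _ => τ ^ 4) (m α) * (fun _ => (1 : ℝ)) (m β) := by
            unfold wb
            refine Finset.sum_le_sum fun m _ => ?_
            rw [mul_one]
            calc ∏ i, a (m i) ≤ ∏ _i : Fin 4, τ := Finset.prod_le_prod (fun i _ => h.nonneg _) (fun i _ => hτ _)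
              _ = τ ^ 4 := by rw [Finset.prod_const, card_univ, Fintype.card_fin]
          refine h4.trans ((sum_pair hsep hkJ hβ (fun _ => τ ^ 4) (fun _ => (1 : ℝ)) (fun _ => by positivity)
            (fun _ => zero_le_one)).trans ?_)
          rw [Finset.sum_const, Finset.sum_const, nsmul_eq_mul, nsmul_eq_mul, mul_one]
          have e1 := card_shell (k α)
          have e2 := card_shell (k β)
          calc ((shell (k α)).card : ℝ) * τ ^ 4 * ((shell (k β)).card : ℝ) ≤ (4 * 2 ^ k α) * τ ^ 4 * (4 * 2 ^ k β) := by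
                gcongr
            _ = 16 * τ ^ 4 * 2 ^ (k α + k β) := by rw [pow_add]; ring
            _ ≤ 16 * τ ^ 4 * 2 ^ (2 * k0 + κ) := by
                have := hbal β α
                have h5 : (2 : ℝ) ^ (k α + k β) ≤ 2 ^ (2 * k0 + κ) := pow_le_pow_right₀ (by norm_num) (by omega)
                gcongr
            _ ≤ ε := hτ1
        refine h3.trans (le_add_of_nonneg_right ?_)
        split_ifs <;> positivity
      push Not at hlow
      by_cases hc : ((bx Λ k).card : ℝ) ≤ ρ * 2 ^ (k 2 + k 3)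
      · have h3 := (wb_sparse h hsep hkJ hc).trans hε2
        have h4 := (pow_le_pow_iff_left₀ (wb_nonneg h k) hε (by norm_num)).mp h3
        refine h4.trans (le_add_of_nonneg_right ?_)
        split_ifs <;> positivity
      · push Not at hc
        have h3 : SmallRel Λ (2 ^ (5 * κ + 10) / ρ ^ 2) := by
          refine dense_rel hsep hkJ hbal hρ hρ1 (fun i => hk0.trans ?_) hc
          have := hlow i
          gcongr
          norm_num
        rw [if_pos ⟨hbal, h3⟩]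
        exact (wb_le h hsep hkJ).trans (le_add_of_nonneg_left hε)
    · push Not at hbal
      obtain ⟨i, j, hij⟩ := hbal
      obtain ⟨α, -, hα⟩ := Finset.exists_min_image Finset.univ k ⟨0, mem_univ _⟩
      have hαj := hα j (mem_univ _)
      have h3 := (wb_unbalanced h hsep hkJ (κ := κ) (α := α) (β := i) (fun i => hα i (mem_univ _)) (by omega)
        (fun e => by rw [e] at hαj; omega)).trans hε1
      have h4 := (pow_le_pow_iff_left₀ (wb_nonneg h k) hε (by norm_num)).mp h3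
      refine h4.trans (le_add_of_nonneg_right ?_)
      split_ifs <;> positivity
  refine (Finset.sum_le_sum hbox).trans ?_
  rw [Finset.sum_add_distrib]
  have hcK : (Kc.card : ℝ) = (J : ℝ) ^ 4 := by
    rw [hKc, Fintype.card_piFinset, Fin.prod_univ_four, card_range]
    push_cast
    ring
  refine add_le_add ?_ ?_
  · rw [Finset.sum_const, nsmul_eq_mul, hcK]
  · by_cases hS : SmallRel Λ (2 ^ (5 * κ + 10) / ρ ^ 2)
    · rw [if_pos hS]
      simp only [hS, and_true]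
      rw [← Finset.sum_filter, Finset.sum_const, nsmul_eq_mul]
      have h5 : (Kc.filter fun k => ∀ i j, k i ≤ k j + κ).card ≤ J * (2 * κ + 1) ^ 3 := card_balanced J κ
      have h6 : (((Kc.filter fun k => ∀ i j, k i ≤ k j + κ).card : ℕ) : ℝ) ≤ (J : ℝ) * (2 * κ + 1) ^ 3 := by
        exact_mod_cast h5
      exact mul_le_mul_of_nonneg_right h6 (sq_nonneg _)
    · rw [if_neg hS]
      refine le_of_eq (Finset.sum_eq_zero fun k _ => if_neg fun h => hS h.2)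

end quad

section trig

variable {q : ℕ} [NeZero q]

open Classical in
/-- a product of four dilates, pairwise far, with small coefficients -/
theorem four_bound2 {g : ZMod q → ℝ} {x : ℤ → ℝ} {J : ℕ} {C0 D : ℝ} (hg : IsTrig g x J)
    (h : Wt (fun m => |x m|) J C0 D) {k0 κ : ℕ} {ρ ε τ : ℝ} (hκ : 1 ≤ κ) (hρ : 0 < ρ) (hρ1 : ρ ≤ 1)
    (hε : 0 ≤ ε) (hε1 : 256 * C0 ^ 4 * D ^ 2 / 2 ^ κ ≤ ε ^ 4) (hε2 : 16 * C0 ^ 4 * D ^ 2 * ρ ≤ ε ^ 4)
    (hk0 : (2 : ℝ) ^ (2 * κ + 3) ≤ ρ * 2 ^ k0) (hτ : ∀ m, |x m| ≤ τ)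
    (hτ1 : 16 * τ ^ 4 * 2 ^ (2 * k0 + κ) ≤ ε) (hx0 : x 0 = 0)
    (hhigh : ∀ m : ℤ, 2 ^ J ≤ |m| → x m = 0) {ζ : Fin 4 → ZMod q}
    (hfar : ∀ i j, i ≠ j → Far (ζ i) (ζ j) (2 ^ (2 * J + 3))) :
    |∑ b : ZMod q, ∏ i, g (ζ i * b)| ≤ q * ((J : ℝ) ^ 4 * ε +
      if SmallRel (Rel ζ) (2 ^ (5 * κ + 10) / ρ ^ 2) then (J : ℝ) * (2 * κ + 1) ^ 3 * C0 ^ 2 else 0) := by
  rw [mean_four hg, abs_mul, abs_of_nonneg (Nat.cast_nonneg q : (0 : ℝ) ≤ q)]
  refine mul_le_mul_of_nonneg_left ?_ (Nat.cast_nonneg q)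
  refine (Finset.abs_sum_le_sum_abs _ _).trans ?_
  have h1 := quad_sum2 h (sep_of_far hfar) hκ hρ hρ1 hε hε1 hε2 hk0 hτ hτ1 (by rw [hx0, abs_zero])
    (fun m hm => by rw [hhigh m hm, abs_zero])
  refine le_trans (le_of_eq (Finset.sum_congr rfl fun m _ => ?_)) h1
  exact Finset.abs_prod _ _

/-- the coefficients of the trigonometric polynomial -/
noncomputable def xc (c : ℕ → ℝ) (K : ℕ) (m : ℤ) : ℝ :=
  if m ≠ 0 ∧ m.natAbs ≤ K then c m.natAbs / 2 else 0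

lemma cs_eq_four (x : ZMod q) : ((cs x : ℝ) : ℂ) = (ZMod.stdAddChar x + ZMod.stdAddChar (-x)) / 2 := by
  unfold cs
  rw [Complex.re_eq_add_conj, AddChar.map_neg_eq_conj]

lemma isTrig_gq (c : ℕ → ℝ) {K J : ℕ} (hJ : K < 2 ^ J) : IsTrig (q := q) (gq c K) (xc c K) J := by
  intro b
  obtain ⟨f, hf⟩ : ∃ f : ℤ → ℂ, f = fun m => ((xc c K m : ℝ) : ℂ) * ZMod.stdAddChar ((m : ZMod q) * b) := ⟨_, rfl⟩
  have h1 : ∑ m ∈ Ioo (-(2 ^ J : ℤ)) (2 ^ J), f m =
      ∑ m ∈ (Icc 1 K).image (fun k : ℕ => (k : ℤ)) ∪ (Icc 1 K).image (fun k : ℕ => -(k : ℤ)), f m := by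
    symm
    apply Finset.sum_subset
    · intro m hm
      have hJ' : (K : ℤ) < 2 ^ J := by exact_mod_cast hJ
      rw [mem_union, mem_image, mem_image] at hm
      rw [mem_Ioo]
      rcases hm with ⟨k, hk, rfl⟩ | ⟨k, hk, rfl⟩
      · rw [mem_Icc] at hk
        omega
      · rw [mem_Icc] at hk
        omega
    · intro m _ hm
      rw [hf]
      simp only
      have : xc c K m = 0 := by
        unfold xc
        rw [if_neg]
        rintro ⟨h1, h2⟩
        apply hm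
        rw [mem_union, mem_image, mem_image]
        rcases Int.natAbs_eq m with h | h
        · left
          exact ⟨m.natAbs, mem_Icc.mpr ⟨by omega, h2⟩, h.symm⟩
        · right
          exact ⟨m.natAbs, mem_Icc.mpr ⟨by omega, h2⟩, h.symm⟩
      rw [this, Complex.ofReal_zero, zero_mul]
  have h2 : Disjoint ((Icc 1 K).image (fun k : ℕ => (k : ℤ))) ((Icc 1 K).image (fun k : ℕ => -(k : ℤ))) := by
    rw [Finset.disjoint_left]
    intro m hm hm'
    rw [mem_image] at hm hm'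
    obtain ⟨k, hk, rfl⟩ := hm
    obtain ⟨k', hk', h⟩ := hm'
    rw [mem_Icc] at hk hk'
    omega
  change ((gq c K b : ℝ) : ℂ) = ∑ m ∈ Ioo (-(2 ^ J : ℤ)) (2 ^ J), ((xc c K m : ℝ) : ℂ) * ZMod.stdAddChar ((m : ZMod q) * b)
  have h3 : ∑ m ∈ Ioo (-(2 ^ J : ℤ)) (2 ^ J), ((xc c K m : ℝ) : ℂ) * ZMod.stdAddChar ((m : ZMod q) * b) =
      ∑ m ∈ Ioo (-(2 ^ J : ℤ)) (2 ^ J), f m := by rw [hf]
  rw [h3, h1, Finset.sum_union h2, Finset.sum_image (fun a _ b _ h => by exact_mod_cast h),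
    Finset.sum_image (fun a _ b _ h => by
      have h' : -(a : ℤ) = -(b : ℤ) := h
      omega), ← Finset.sum_add_distrib]
  unfold gq
  rw [Complex.ofReal_sum]
  refine Finset.sum_congr rfl fun k hk => ?_
  rw [mem_Icc] at hk
  rw [hf, Complex.ofReal_mul, cs_eq_four]
  simp only
  have e1 : xc c K (k : ℤ) = c k / 2 := by
    unfold xc
    rw [if_pos (by simp; omega), Int.natAbs_natCast]
  have e2 : xc c K (-(k : ℤ)) = c k / 2 := by
    unfold xc
    rw [if_pos (by simp; omega), Int.natAbs_neg, Int.natAbs_natCast]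
  rw [e1, e2]
  push_cast
  rw [neg_mul]
  ring

end trig

section weights

lemma sum_shell_symm (k : ℕ) (F : ℕ → ℝ) (hF : ∀ n, 0 ≤ F n) :
    ∑ m ∈ shell k, F m.natAbs ≤ 2 * ∑ n ∈ Ico (2 ^ k) (2 * 2 ^ k), F n := by
  have h1 : ∑ m ∈ shell k, F m.natAbs = ∑ n ∈ Ico (2 ^ k) (2 * 2 ^ k), ∑ m ∈ (shell k).filter (fun m => m.natAbs = n), F m.natAbs := by
    rw [Finset.sum_fiberwise_of_maps_to]
    intro m hm
    rw [mem_shell, ← Int.natCast_natAbs] at hm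
    rw [mem_Ico]
    constructor
    · exact_mod_cast hm.1
    · have := hm.2
      rw [pow_succ'] at this
      exact_mod_cast this
  rw [h1, Finset.mul_sum]
  refine Finset.sum_le_sum fun n _ => ?_
  have h2 : ∑ m ∈ (shell k).filter (fun m => m.natAbs = n), F m.natAbs = ((shell k).filter (fun m => m.natAbs = n)).card * F n := by
    rw [← nsmul_eq_mul, ← Finset.sum_const]
    refine Finset.sum_congr rfl fun m hm => ?_
    rw [mem_filter] at hm
    rw [hm.2]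
  rw [h2]
  refine mul_le_mul_of_nonneg_right ?_ (hF n)
  have h3 : (shell k).filter (fun m => m.natAbs = n) ⊆ {(n : ℤ), -(n : ℤ)} := by
    intro m hm
    rw [mem_filter] at hm
    rw [mem_insert, mem_singleton]
    exact Int.natAbs_eq_iff.mp hm.2
  have h4 := (Finset.card_le_card h3).trans Finset.card_le_two
  exact_mod_cast h4

lemma wt_xc {c : ℕ → ℝ} {K J : ℕ} {C₂ P : ℝ} (hP : 2 ≤ P) (hJ : (J : ℝ) * Real.log 2 ≤ P + Real.log 2) (hC : 1 ≤ C₂)
    (h1 : ∀ k, |c k| ≤ k.divisors.card / √k) (h2 : ∀ X : ℕ, 1 ≤ X → ∑ k ∈ Ico X (2 * X), c k ^ 2 ≤ C₂) :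
    Wt (fun m => |xc c K m|) J (min C₂ (8 * P ^ 4)) ((2 * P) ^ 16) := by
  have hlog2 : Real.log 2 ≤ 1 := by
    have := Real.log_two_lt_d9
    linarith
  have hlog2' : 0 ≤ Real.log 2 := Real.log_nonneg (by norm_num)
  have hL : ∀ k ≤ J, 1 + Real.log ((2 ^ k : ℕ) : ℝ) ≤ 2 * P := by
    intro k hk
    have hkr : (k : ℝ) ≤ J := by exact_mod_cast hk
    rw [Nat.cast_pow, Nat.cast_ofNat, Real.log_pow]
    have e := mul_le_mul_of_nonneg_right hkr hlog2'
    have := Real.log_two_lt_d9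
    linarith
  have hP0 : 0 ≤ P := by linarith
  -- the sum of the squares over a shell
  have hsq : ∀ n : ℕ, c n ^ 2 ≤ (n.divisors.card : ℝ) ^ 2 / n := by
    intro n
    calc c n ^ 2 = |c n| ^ 2 := (sq_abs _).symm
      _ ≤ (n.divisors.card / √n) ^ 2 := pow_le_pow_left₀ (abs_nonneg _) (h1 n) 2
      _ = (n.divisors.card : ℝ) ^ 2 / n := by rw [div_pow, Real.sq_sqrt (Nat.cast_nonneg n)]
  have hshell : ∀ k, ∑ m ∈ shell k, |xc c K m| ^ 2 ≤ (1 / 2) * ∑ n ∈ Ico (2 ^ k) (2 * 2 ^ k), c n ^ 2 := by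
    intro k
    calc ∑ m ∈ shell k, |xc c K m| ^ 2 ≤ ∑ m ∈ shell k, (fun n : ℕ => c n ^ 2 / 4) m.natAbs := by
          refine Finset.sum_le_sum fun m _ => ?_
          rw [sq_abs]
          unfold xc
          split_ifs
          · simp only
            apply le_of_eq
            ring
          · simp only
            rw [zero_pow two_ne_zero]
            positivity
      _ ≤ 2 * ∑ n ∈ Ico (2 ^ k) (2 * 2 ^ k), c n ^ 2 / 4 := sum_shell_symm k (fun n : ℕ => c n ^ 2 / 4) (fun n => by positivity)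
      _ = (1 / 2) * ∑ n ∈ Ico (2 ^ k) (2 * 2 ^ k), c n ^ 2 := by
          rw [← Finset.sum_div]
          ring
  refine ⟨fun m => abs_nonneg _, fun m => ?_, fun k hk => ?_, fun k hk => ?_, ?_⟩
  · -- pointwise
    have h3 : |xc c K m| ≤ |c m.natAbs| := by
      unfold xc
      split_ifs
      · rw [abs_div, abs_two]
        have := abs_nonneg (c m.natAbs)
        linarith
      · rw [abs_zero]
        exact abs_nonneg _
    refine h3.trans ((h1 m.natAbs).trans (le_of_eq ?_))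
    unfold qdv
    have e : ((|m| : ℤ) : ℝ) = (m.natAbs : ℝ) := by
      rw [← Int.natCast_natAbs, Int.cast_natCast]
    rw [e]
  · refine le_min ?_ ?_
    · refine (hshell k).trans ?_
      have := h2 (2 ^ k) Nat.one_le_two_pow
      linarith
    · refine (hshell k).trans ?_
      have h3 : ∑ n ∈ Ico (2 ^ k) (2 * 2 ^ k), c n ^ 2 ≤ ∑ n ∈ Icc (1 : ℕ) (2 ^ (k + 1)), (n.divisors.card : ℝ) ^ 2 / n := by
        refine (Finset.sum_le_sum fun n _ => hsq n).trans ?_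
        refine Finset.sum_le_sum_of_subset_of_nonneg ?_ fun _ _ _ => by positivity
        intro n hn
        rw [mem_Ico] at hn
        rw [mem_Icc, pow_succ']
        have : 1 ≤ 2 ^ k := Nat.one_le_two_pow
        omega
      have h4 := mv_div (2 ^ (k + 1)) 2
      have h5 := hL (k + 1) hk
      have h6 : 0 ≤ 1 + Real.log ((2 ^ (k + 1) : ℕ) : ℝ) := by
        have : 0 ≤ Real.log ((2 ^ (k + 1) : ℕ) : ℝ) := Real.log_natCast_nonneg _
        linarith
      have h7 : (1 + Real.log ((2 ^ (k + 1) : ℕ) : ℝ)) ^ (2 ^ 2) ≤ (2 * P) ^ 4 := pow_le_pow_left₀ h6 h5 4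
      have h8 : (2 * P) ^ 4 = 16 * P ^ 4 := by ring
      have h9 := h3.trans (h4.trans h7)
      rw [h8] at h9
      linarith
  · -- the fourth moment
    have h3 : ∑ n ∈ range (2 ^ k), ((n.divisors.card : ℝ)) ^ 4 ≤
        2 ^ k * ∑ n ∈ Icc (1 : ℕ) (2 ^ k), (n.divisors.card : ℝ) ^ 4 / n := by
      rw [Finset.mul_sum]
      have h4 : ∑ n ∈ range (2 ^ k), ((n.divisors.card : ℝ)) ^ 4 ≤ ∑ n ∈ Icc (1 : ℕ) (2 ^ k), ((n.divisors.card : ℝ)) ^ 4 := by
        have h5 : ∑ n ∈ range (2 ^ k), ((n.divisors.card : ℝ)) ^ 4 =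
            ∑ n ∈ (range (2 ^ k)).filter (fun n => ((n.divisors.card : ℝ)) ^ 4 ≠ 0), ((n.divisors.card : ℝ)) ^ 4 :=
          (Finset.sum_filter_ne_zero _).symm
        rw [h5]
        refine Finset.sum_le_sum_of_subset_of_nonneg ?_ fun _ _ _ => by positivity
        intro n hn
        rw [mem_filter, mem_range] at hn
        rw [mem_Icc]
        refine ⟨?_, hn.1.le⟩
        by_contra h6
        have h7 : n = 0 := by omega
        apply hn.2
        rw [h7]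
        simp
      refine h4.trans (Finset.sum_le_sum fun n hn => ?_)
      rw [mem_Icc] at hn
      have hn0 : (0 : ℝ) < n := by exact_mod_cast hn.1
      have hn2 : (n : ℝ) ≤ 2 ^ k := by exact_mod_cast hn.2
      rw [mul_div_assoc', le_div_iff₀ hn0, mul_comm]
      exact mul_le_mul_of_nonneg_right hn2 (by positivity)
    have h4 := mv_div (2 ^ k) 4
    have h5 := hL k hk
    have h6 : 0 ≤ 1 + Real.log ((2 ^ k : ℕ) : ℝ) := by
      have : 0 ≤ Real.log ((2 ^ k : ℕ) : ℝ) := Real.log_natCast_nonneg _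
      linarith
    have h7 : (1 + Real.log ((2 ^ k : ℕ) : ℝ)) ^ (2 ^ 4) ≤ (2 * P) ^ 16 := pow_le_pow_left₀ h6 h5 16
    calc ∑ n ∈ range (2 ^ k), ((n.divisors.card : ℝ)) ^ 4 ≤ 2 ^ k * ∑ n ∈ Icc (1 : ℕ) (2 ^ k), (n.divisors.card : ℝ) ^ 4 / n := h3
      _ ≤ 2 ^ k * (2 * P) ^ 16 := by
          refine mul_le_mul_of_nonneg_left (h4.trans h7) (by positivity)
      _ = (2 * P) ^ 16 * 2 ^ k := mul_comm _ _
  · exact one_le_pow₀ (by linarith)

end weights

section main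

/-- the choice of the parameters -/
lemma params {P C0 D : ℝ} (hP : 2 ^ 73 ≤ P) (hC0 : 0 ≤ C0) (hC : C0 ≤ 8 * P ^ 4) (hD : D = (2 * P) ^ 16) :
    ∃ κ : ℕ, 1 ≤ κ ∧ (2 : ℝ) ^ κ ≤ 2 ^ 73 * P ^ 84 ∧
      256 * C0 ^ 4 * D ^ 2 / 2 ^ κ ≤ (1 / (32 * P ^ 9)) ^ 4 ∧
      16 * C0 ^ 4 * D ^ 2 * (1 / 2 ^ κ) ≤ (1 / (32 * P ^ 9)) ^ 4 ∧
      (2 : ℝ) ^ (5 * κ + 10) / (1 / 2 ^ κ) ^ 2 ≤ P ^ 600 ∧
      16 * (1 / P ^ 200) ^ 4 * 2 ^ (2 * (3 * κ + 3) + κ) ≤ 1 / (32 * P ^ 9) := by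
  have hP1 : 1 ≤ P := le_trans (by norm_num) hP
  have hP0 : 0 < P := by linarith
  obtain ⟨Θ, hΘ⟩ : ∃ Θ : ℝ, Θ = 2 ^ 72 * P ^ 84 := ⟨_, rfl⟩
  have hΘ1 : 1 ≤ Θ := by
    rw [hΘ]
    have : 1 ≤ P ^ 84 := one_le_pow₀ hP1
    nlinarith
  obtain ⟨n, hn1, hn2⟩ := exists_nat_pow_near hΘ1 (by norm_num : (1 : ℝ) < 2)
  obtain ⟨κ, hκ⟩ : ∃ κ, κ = n + 1 := ⟨_, rfl⟩
  rw [← hκ] at hn2
  have hup : (2 : ℝ) ^ κ ≤ 2 * Θ := by
    rw [hκ, pow_succ']
    linarith
  have h2κ : (0 : ℝ) < 2 ^ κ := by positivity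
  have hmain : 256 * C0 ^ 4 * D ^ 2 ≤ (1 / (32 * P ^ 9)) ^ 4 * Θ := by
    have e1 : C0 ^ 4 ≤ (8 * P ^ 4) ^ 4 := pow_le_pow_left₀ hC0 hC 4
    have e2 : (1 / (32 * P ^ 9)) ^ 4 * Θ = 2 ^ 52 * P ^ 48 := by
      rw [hΘ]
      field_simp
      norm_num
    rw [e2, hD]
    calc 256 * C0 ^ 4 * ((2 * P) ^ 16) ^ 2 ≤ 256 * (8 * P ^ 4) ^ 4 * ((2 * P) ^ 16) ^ 2 := by gcongr
      _ = 2 ^ 52 * P ^ 48 := by ring
  have h7 : (2 : ℝ) ^ (7 * κ) ≤ P ^ 595 := by
    rw [mul_comm, pow_mul]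
    calc ((2 : ℝ) ^ κ) ^ 7 ≤ (P ^ 85) ^ 7 := by
          refine pow_le_pow_left₀ h2κ.le (hup.trans ?_) 7
          rw [hΘ]
          calc 2 * (2 ^ 72 * P ^ 84) = 2 ^ 73 * P ^ 84 := by ring
            _ ≤ P * P ^ 84 := by gcongr
            _ = P ^ 85 := by ring
      _ = P ^ 595 := by ring
  have hP15 : (2 : ℝ) ^ 15 ≤ P := le_trans (by norm_num) hP
  refine ⟨κ, by omega, ?_, ?_, ?_, ?_, ?_⟩
  · refine hup.trans (le_of_eq ?_)
    rw [hΘ]
    ring
  · rw [div_le_iff₀ h2κ]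
    refine hmain.trans ?_
    exact mul_le_mul_of_nonneg_left hn2.le (by positivity)
  · rw [mul_one_div, div_le_iff₀ h2κ]
    have e1 : 16 * C0 ^ 4 * D ^ 2 ≤ 256 * C0 ^ 4 * D ^ 2 := by
      have : 0 ≤ C0 ^ 4 * D ^ 2 := by positivity
      nlinarith
    refine (e1.trans hmain).trans ?_
    exact mul_le_mul_of_nonneg_left hn2.le (by positivity)
  · have e1 : (2 : ℝ) ^ (5 * κ + 10) / (1 / 2 ^ κ) ^ 2 = 2 ^ 10 * 2 ^ (7 * κ) := by
      rw [one_div, inv_pow, div_inv_eq_mul, ← pow_mul, ← pow_add, ← pow_add]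
      congr 1
      ring
    rw [e1]
    calc (2 : ℝ) ^ 10 * 2 ^ (7 * κ) ≤ P * P ^ 595 := by
          gcongr
          exact le_trans (by norm_num) hP15
      _ = P ^ 596 := by ring
      _ ≤ P ^ 600 := pow_le_pow_right₀ hP1 (by norm_num)
  · have e1 : 16 * (1 / P ^ 200) ^ 4 * 2 ^ (2 * (3 * κ + 3) + κ) = 2 ^ 10 * 2 ^ (7 * κ) / P ^ 800 := by
      have e2 : (2 : ℝ) ^ (2 * (3 * κ + 3) + κ) = 2 ^ (7 * κ) * 2 ^ 6 := by
        rw [← pow_add]
        congr 1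
        ring
      rw [e2, one_div, inv_pow, ← pow_mul]
      ring
    rw [e1, div_le_div_iff₀ (by positivity) (by positivity)]
    calc (2 : ℝ) ^ 10 * 2 ^ (7 * κ) * (32 * P ^ 9) ≤ 2 ^ 10 * P ^ 595 * (32 * P ^ 9) := by gcongr
      _ = 2 ^ 15 * P ^ 604 := by ring
      _ ≤ P * P ^ 604 := by gcongr
      _ = P ^ 605 := by ring
      _ ≤ P ^ 800 := pow_le_pow_right₀ hP1 (by norm_num)
      _ = 1 * P ^ 800 := (one_mul _).symm

lemma fin4_last : ∀ l i j k a : Fin 4, i ≠ l → j ≠ l → k ≠ l → i ≠ j → i ≠ k → j ≠ k →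
    a ≠ i → a ≠ j → a ≠ k → a = l := by
  decide

/-- one quadruple of pairwise separated units -/
theorem four_tuple : ∃ p₀ : ℕ, ∀ p : ℕ, p₀ ≤ p → ∀ (q K : ℕ) [NeZero q], 1 ≤ K →
    Real.log K ≤ p → ∀ z : Fin 4 → (ZMod q)ˣ, (∀ i j, i ≠ j → Sep (z i) (z j) ((8 * K) ^ 2)) →
    ∀ (c : ℕ → ℝ) (C₂ : ℝ), 1 ≤ C₂ → (∀ k, |c k| ≤ k.divisors.card / √k) →
    (∀ k, |c k| ≤ (p : ℝ) ^ (-(200 : ℝ))) → (∀ X : ℕ, 1 ≤ X → ∑ k ∈ Ico X (2 * X), c k ^ 2 ≤ C₂) →
    (|EE q (fun b => ∏ i, gq c K ((z i : ZMod q) * b))| ≤ C₂ ^ 2 * (Real.log p) ^ 4 * (1 + Real.log K)) ∧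
    ((¬ (Tri (z 0) (z 1) (z 2) (p ^ 600) ∧ Tri (z 0) (z 1) (z 3) (p ^ 600))) →
      |EE q (fun b => ∏ i, gq c K ((z i : ZMod q) * b))| ≤ (p : ℝ) ^ (-(5 : ℝ))) := by
  classical
  refine ⟨⌈Real.exp 40000000⌉₊, ?_⟩
  intro p hp q K _ hK hlogK z hz c C₂ hC₂ h1 h200 h2
  obtain ⟨P, hP⟩ : ∃ P : ℝ, P = (p : ℝ) := ⟨_, rfl⟩
  have hexp : Real.exp 40000000 ≤ P := by
    rw [hP]
    exact (Nat.le_ceil _).trans (by exact_mod_cast hp)
  have hP0 : 0 < P := (Real.exp_pos _).trans_le hexp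
  have hlogP : 40000000 ≤ Real.log P := by
    rw [Real.le_log_iff_exp_le hP0]
    exact hexp
  have hlog2a := Real.log_two_gt_d9
  have hlog2b := Real.log_two_lt_d9
  have hP73 : 2 ^ 73 ≤ P := by
    rw [← Real.log_le_log_iff (by positivity) hP0, Real.log_pow]
    push_cast
    linarith
  have hP2 : 2 ≤ P := le_trans (by norm_num) hP73
  have hP1 : 1 ≤ P := by linarith
  rw [← hP] at hlogK h200 ⊢
  -- the length
  obtain ⟨J, hJ⟩ : ∃ J, J = Nat.log 2 K + 1 := ⟨_, rfl⟩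
  have hJK : K < 2 ^ J := by
    rw [hJ]
    exact Nat.lt_pow_succ_log_self (by norm_num) K
  have hJK2 : 2 ^ J ≤ 2 * K := by
    rw [hJ, pow_succ']
    exact Nat.mul_le_mul_left 2 (Nat.pow_log_le_self 2 (by omega))
  have hK0 : (0 : ℝ) < K := by exact_mod_cast hK
  have hlogK0 : 0 ≤ Real.log K := Real.log_natCast_nonneg K
  have hJlog : (J : ℝ) * Real.log 2 ≤ Real.log K + Real.log 2 := by
    have e1 : (2 : ℝ) ^ J ≤ 2 * K := by exact_mod_cast hJK2
    have e2 := Real.log_le_log (by positivity) e1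
    rw [Real.log_pow, Real.log_mul (by norm_num) hK0.ne'] at e2
    linarith
  have hJlog' : (J : ℝ) * Real.log 2 ≤ P + Real.log 2 := by linarith
  have hJ0 : (0 : ℝ) ≤ J := Nat.cast_nonneg J
  have hJa : (J : ℝ) ≤ 2 * (1 + Real.log K) := by nlinarith
  have hJb : (J : ℝ) ≤ 2 * P := by nlinarith
  obtain ⟨C0, hC0⟩ : ∃ C0, C0 = min C₂ (8 * P ^ 4) := ⟨_, rfl⟩
  obtain ⟨D, hD⟩ : ∃ D, D = (2 * P) ^ 16 := ⟨_, rfl⟩
  have hwt := wt_xc (K := K) hP2 hJlog' hC₂ h1 h2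
  rw [← hC0, ← hD] at hwt
  have hC00 : 0 ≤ C0 := by
    rw [hC0]
    exact le_min (by linarith) (by positivity)
  have hC0a : C0 ≤ C₂ := hC0 ▸ min_le_left _ _
  have hC0b : C0 ≤ 8 * P ^ 4 := hC0 ▸ min_le_right _ _
  obtain ⟨κ, hκ1, hκ2, hκ3, hκ4, hκ5, hκ6⟩ := params hP73 hC00 hC0b hD
  have h2κ : (0 : ℝ) < 2 ^ κ := by positivity
  have hτ : ∀ m, |xc c K m| ≤ 1 / P ^ 200 := by
    intro m
    have e1 : |xc c K m| ≤ |c m.natAbs| := by
      unfold xc
      split_ifs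
      · rw [abs_div, abs_two]
        have := abs_nonneg (c m.natAbs)
        linarith
      · rw [abs_zero]
        exact abs_nonneg _
    refine (e1.trans (h200 _)).trans (le_of_eq ?_)
    rw [Real.rpow_neg hP0.le, one_div]
    congr 1
    exact_mod_cast Real.rpow_natCast P 200
  have hfar : ∀ i j, i ≠ j → Far ((z i : (ZMod q)ˣ) : ZMod q) ((z j : (ZMod q)ˣ) : ZMod q) (2 ^ (2 * J + 3)) := by
    intro i j hij u v hu hv huv
    have e1 : (2 : ℤ) ^ (2 * J + 3) ≤ (((8 * K) ^ 2 : ℕ) : ℤ) := by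
      have e2 : 2 ^ (2 * J + 3) ≤ (8 * K) ^ 2 := by
        calc 2 ^ (2 * J + 3) = 8 * (2 ^ J) ^ 2 := by ring
          _ ≤ 8 * (2 * K) ^ 2 := by gcongr
          _ ≤ (8 * K) ^ 2 := by nlinarith [Nat.zero_le (K ^ 2)]
      exact_mod_cast e2
    exact hz i j hij u v (hu.trans e1) (hv.trans e1) huv
  have hmain := four_bound2 (isTrig_gq (q := q) c hJK) hwt (k0 := 3 * κ + 3) (κ := κ) (ρ := 1 / 2 ^ κ)
    (ε := 1 / (32 * P ^ 9)) (τ := 1 / P ^ 200) hκ1 (by positivity)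
    (by rw [div_le_one h2κ]; exact one_le_pow₀ (by norm_num)) (by positivity) hκ3 hκ4
    (by
      rw [one_div, inv_mul_eq_div, le_div_iff₀ h2κ, ← pow_add]
      refine pow_le_pow_right₀ (by norm_num) (by omega))
    hτ hκ6 (by unfold xc; simp) (by
      intro m hm
      unfold xc
      rw [if_neg]
      rintro ⟨-, h⟩
      have e1 : ((2 ^ J : ℕ) : ℤ) ≤ (m.natAbs : ℤ) := by
        rw [Int.natCast_natAbs]
        exact_mod_cast hm
      have e2 : 2 ^ J ≤ m.natAbs := by exact_mod_cast e1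
      omega) hfar
  have hq0 : (0 : ℝ) < q := by exact_mod_cast Nat.pos_of_ne_zero (NeZero.ne q)
  have hEE : |EE q (fun b => ∏ i, gq c K ((z i : ZMod q) * b))| ≤ (J : ℝ) ^ 4 * (1 / (32 * P ^ 9)) +
      if SmallRel (Rel fun i => ((z i : (ZMod q)ˣ) : ZMod q)) (2 ^ (5 * κ + 10) / (1 / 2 ^ κ) ^ 2) then
        (J : ℝ) * (2 * κ + 1) ^ 3 * C0 ^ 2 else 0 := by
    unfold EE
    rw [abs_div, abs_of_pos hq0, div_le_iff₀ hq0, mul_comm _ (q : ℝ)]
    exact hmain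
  have hJε : (J : ℝ) ^ 4 * (1 / (32 * P ^ 9)) ≤ 1 / (2 * P ^ 5) := by
    calc (J : ℝ) ^ 4 * (1 / (32 * P ^ 9)) ≤ (2 * P) ^ 4 * (1 / (32 * P ^ 9)) := by gcongr
      _ = 1 / (2 * P ^ 5) := by
        field_simp
        norm_num
  constructor
  · -- the general bound
    have hκlog : (κ : ℝ) * Real.log 2 ≤ 85 * Real.log P := by
      have e1 : (2 : ℝ) ^ κ ≤ P ^ 85 := by
        calc (2 : ℝ) ^ κ ≤ 2 ^ 73 * P ^ 84 := hκ2
          _ ≤ P * P ^ 84 := by gcongr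
          _ = P ^ 85 := by ring
      have e2 := Real.log_le_log h2κ e1
      rw [Real.log_pow, Real.log_pow] at e2
      exact_mod_cast e2
    have hκ0 : (0 : ℝ) ≤ κ := Nat.cast_nonneg κ
    have hκ250 : (2 * κ + 1 : ℝ) ≤ 250 * Real.log P := by nlinarith
    have hcube : (2 * κ + 1 : ℝ) ^ 3 ≤ 15625000 * Real.log P ^ 3 := by
      calc (2 * κ + 1 : ℝ) ^ 3 ≤ (250 * Real.log P) ^ 3 := pow_le_pow_left₀ (by positivity) hκ250 3
        _ = 15625000 * Real.log P ^ 3 := by ring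
    have hC2sq : C0 ^ 2 ≤ C₂ ^ 2 := pow_le_pow_left₀ hC00 hC0a 2
    have hlogP0 : 0 ≤ Real.log P := by linarith
    have e1 : (J : ℝ) * (2 * κ + 1) ^ 3 * C0 ^ 2 ≤
        (2 * (1 + Real.log K)) * (15625000 * Real.log P ^ 3) * C₂ ^ 2 := by gcongr
    have e2 : (if SmallRel (Rel fun i => ((z i : (ZMod q)ˣ) : ZMod q)) (2 ^ (5 * κ + 10) / (1 / 2 ^ κ) ^ 2) then
        (J : ℝ) * (2 * κ + 1) ^ 3 * C0 ^ 2 else 0) ≤
        (2 * (1 + Real.log K)) * (15625000 * Real.log P ^ 3) * C₂ ^ 2 := by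
      split_ifs
      · exact e1
      · positivity
    have e3 : 1 / (2 * P ^ 5) ≤ 1 := by
      rw [div_le_one (by positivity)]
      have : 1 ≤ P ^ 5 := one_le_pow₀ hP1
      linarith
    have e4 : 1 ≤ (1 + Real.log K) * Real.log P ^ 3 * C₂ ^ 2 := by
      have f1 : 1 ≤ 1 + Real.log K := by linarith
      have f2 : 1 ≤ Real.log P ^ 3 := one_le_pow₀ (by linarith)
      have f3 : 1 ≤ C₂ ^ 2 := one_le_pow₀ hC₂
      calc (1 : ℝ) = 1 * 1 * 1 := by norm_num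
        _ ≤ (1 + Real.log K) * Real.log P ^ 3 * C₂ ^ 2 := by gcongr
    have e5 : 0 ≤ (1 + Real.log K) * Real.log P ^ 3 * C₂ ^ 2 := by positivity
    refine hEE.trans ?_
    calc (J : ℝ) ^ 4 * (1 / (32 * P ^ 9)) + _ ≤ 1 + (2 * (1 + Real.log K)) * (15625000 * Real.log P ^ 3) * C₂ ^ 2 :=
          add_le_add (hJε.trans e3) e2
      _ ≤ 31250001 * ((1 + Real.log K) * Real.log P ^ 3 * C₂ ^ 2) := by nlinarith
      _ ≤ Real.log P * ((1 + Real.log K) * Real.log P ^ 3 * C₂ ^ 2) := by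
          refine mul_le_mul_of_nonneg_right ?_ e5
          linarith
      _ = C₂ ^ 2 * Real.log P ^ 4 * (1 + Real.log K) := by ring
  · intro hno
    have hns : ¬ SmallRel (Rel fun i => ((z i : (ZMod q)ˣ) : ZMod q)) (2 ^ (5 * κ + 10) / (1 / 2 ^ κ) ^ 2) := by
      intro hs
      apply hno
      have key : ∀ (l : Fin 4) (i j k : Fin 4), i ≠ l → j ≠ l → k ≠ l → i ≠ j → i ≠ k → j ≠ k →
          Tri (z i) (z j) (z k) (p ^ 600) := by
        intro l i j k hi hj hk hij hik hjk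
        obtain ⟨w, hw, hwl, hwn, hwB⟩ := hs l
        have hB : ∀ a, |w a| ≤ ((p ^ 600 : ℕ) : ℤ) := by
          intro a
          have f1 := (hwB a).trans hκ5
          rw [hP] at f1
          exact_mod_cast f1
        refine ⟨w i, w j, w k, hwn i hi, hwn j hj, hwn k hk, hB i, hB j, hB k, ?_⟩
        rw [mem_Rel] at hw
        have f2 : ∑ a, (w a : ZMod q) * ((z a : (ZMod q)ˣ) : ZMod q) = ∑ a ∈ ({i, j, k} : Finset (Fin 4)),
            (w a : ZMod q) * ((z a : (ZMod q)ˣ) : ZMod q) := by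
          symm
          refine Finset.sum_subset (Finset.subset_univ _) fun a _ ha => ?_
          have f3 : a = l := by
            rw [mem_insert, mem_insert, mem_singleton] at ha
            push Not at ha
            exact fin4_last l i j k a hi hj hk hij hik hjk ha.1 ha.2.1 ha.2.2
          rw [f3, hwl, Int.cast_zero, zero_mul]
        rw [f2, Finset.sum_insert (by
          rw [mem_insert, mem_singleton]
          push Not
          exact ⟨hij, hik⟩), Finset.sum_insert (by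
          rw [mem_singleton]
          exact hjk), Finset.sum_singleton, ← add_assoc] at hw
        exact hw
      exact ⟨key 3 0 1 2 (by decide) (by decide) (by decide) (by decide) (by decide) (by decide),
        key 2 0 1 3 (by decide) (by decide) (by decide) (by decide) (by decide) (by decide)⟩
    rw [if_neg hns, add_zero] at hEE
    refine hEE.trans (hJε.trans ?_)
    have e1 : P ^ (-(5 : ℝ)) = 1 / P ^ 5 := by
      rw [Real.rpow_neg hP0.le, one_div]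
      congr 1
      exact_mod_cast Real.rpow_natCast P 5
    rw [e1]
    apply one_div_le_one_div_of_le (by positivity)
    have : 0 < P ^ 5 := by positivity
    linarith

end main

end Pool.Agent.MU0
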