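import Pool.Agent.MU0.Corr

/-!
# Elements of different clusters

Three elements of one cluster and one element of another one are not correlated, and two elements of
different clusters satisfy no short linear relation.
-/

set_option autoImplicit false

open Finset
open scoped Real

namespace Pool.Agent.MU0

section

variable {q : ℕ} [NeZero q]

theorem th_dvd {Q : ℕ} (hQ : Q ∣ q) (N : ℤ) : (Q : ℤ) ∣ N ↔ (Q : ZMod q) ∣ (N : ZMod q) := by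
  constructor
  · rintro ⟨t, rfl⟩
    exact ⟨(t : ZMod q), by push_cast; rfl⟩
  · rintro ⟨t, ht⟩
    obtain ⟨t', rfl⟩ := ZMod.intCast_surjective t
    have h1 : ((N - Q * t' : ℤ) : ZMod q) = 0 := by
      push_cast
      rw [ht, sub_self]
    rw [ZMod.intCast_zmod_eq_zero_iff_dvd] at h1
    have h2 : (Q : ℤ) ∣ N - Q * t' := (Int.natCast_dvd_natCast.mpr hQ).trans h1
    have := dvd_add h2 (dvd_mul_right (Q : ℤ) t')
    simpa using this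

private theorem th_val (u : (ZMod q)ˣ) : ((((u : ZMod q).val : ℕ) : ℤ) : ZMod q) = u := by
  rw [Int.cast_natCast, ZMod.natCast_zmod_val]

end

variable {p n q K r W : ℕ} [NeZero q] {P : Finset ℕ} {B E : Finset (ZMod q)ˣ} {α β : (ZMod q)ˣ → ℤ}

private theorem th_rel (hq : q = p ^ n) (hC : Clu p n q K r P B E α β W) {x : (ZMod q)ˣ} (h : x ∈ B) :
    ((p ^ (n - 1) : ℕ) : ZMod q) ∣ (α x : ZMod q) * x - β x := by
  have hQ : p ^ (n - 1) ∣ q := by rw [hq]; exact pow_dvd_pow p (Nat.sub_le n 1)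
  have h1 := (th_dvd hQ _).mp (hC.rel x h)
  have e : ((α x * ((x : ZMod q).val : ℤ) - β x : ℤ) : ZMod q) = (α x : ZMod q) * x - β x := by
    rw [Int.cast_sub, Int.cast_mul, th_val]
  rwa [e] at h1

private theorem th_far (hq : q = p ^ n) (hC : Clu p n q K r P B E α β W) {η η' : (ZMod q)ˣ}
    (hη : η ∈ E) (hη' : η' ∈ E) (hne : η ≠ η') {A A' : ℤ} (hA : A ≠ 0) (hA' : A' ≠ 0)
    (h1 : |A| ≤ (((16 * K * W) ^ 8 : ℕ) : ℤ)) (h2 : |A'| ≤ (((16 * K * W) ^ 8 : ℕ) : ℤ))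
    (h : ((p ^ (n - 1) : ℕ) : ZMod q) ∣ (A : ZMod q) * η - A' * η') : False := by
  have hQ : p ^ (n - 1) ∣ q := by rw [hq]; exact pow_dvd_pow p (Nat.sub_le n 1)
  refine hC.far η hη η' hη' hne ⟨A, A', hA, hA', h1, h2, ?_⟩
  rw [th_dvd hQ]
  have e : ((A * (((η / η' : (ZMod q)ˣ) : ZMod q).val : ℤ) - A' : ℤ) : ZMod q) =
      ((A : ZMod q) * η - A' * η') * ((η'⁻¹ : (ZMod q)ˣ) : ZMod q) := by
    rw [Int.cast_sub, Int.cast_mul, th_val, div_eq_mul_inv, Units.val_mul, sub_mul, mul_assoc, mul_assoc,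
      Units.mul_inv, mul_one]
  rw [e]
  exact h.mul_right _

private theorem th_small (hC : Clu p n q K r P B E α β W) {N : ℤ} (hN : |N| ≤ (((16 * K * W) ^ 8 : ℕ) : ℤ))
    (hK : 1 ≤ K) (h : ((p ^ (n - 1) : ℕ) : ℤ) ∣ N) : N = 0 := by
  refine Int.eq_zero_of_abs_lt_dvd h (lt_of_le_of_lt hN ?_)
  have h1 : (16 * K * W) ^ 8 ≤ (16 * K * W) ^ 16 :=
    Nat.pow_le_pow_right (Nat.mul_pos (Nat.mul_pos (by norm_num) hK) hC.one_le) (by norm_num)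
  exact_mod_cast lt_of_le_of_lt h1 hC.small

private theorem th_size (hK : 1 ≤ K) (hW : 1 ≤ W) : 3 * ((K : ℤ) * W ^ 4) ≤ (((16 * K * W) ^ 8 : ℕ) : ℤ) := by
  have h1 : K ≤ K ^ 8 := Nat.le_self_pow (by norm_num) K
  have h2 : W ^ 4 ≤ W ^ 8 := Nat.pow_le_pow_right hW (by norm_num)
  have h3 : 3 * (K * W ^ 4) ≤ (16 * K * W) ^ 8 := by
    calc 3 * (K * W ^ 4) ≤ 16 ^ 8 * (K ^ 8 * W ^ 8) :=
          Nat.mul_le_mul (by norm_num) (Nat.mul_le_mul h1 h2)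
      _ = (16 * K * W) ^ 8 := by ring
  exact_mod_cast h3

private theorem th_size2 (hK : 1 ≤ K) (hW : 1 ≤ W) :
    ((8 * K : ℤ)) ^ 2 * (W * W) ≤ (((16 * K * W) ^ 8 : ℕ) : ℤ) := by
  have h3 : (8 * K) ^ 2 * (W * W) ≤ (16 * K * W) ^ 8 := by
    calc (8 * K) ^ 2 * (W * W) = (8 * K * W) ^ 2 := by ring
      _ ≤ (16 * K * W) ^ 2 := Nat.pow_le_pow_left (Nat.mul_le_mul_right W (Nat.mul_le_mul_right K (by norm_num))) 2
      _ ≤ (16 * K * W) ^ 8 :=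
          Nat.pow_le_pow_right (Nat.mul_pos (Nat.mul_pos (by norm_num) hK) hW) (by norm_num)
  exact_mod_cast h3

/-- a relation between three elements of a cluster and an element of another cluster -/
theorem three_rel (hq : q = p ^ n) (hC : Clu p n q K r P B E α β W) {η η' : (ZMod q)ˣ} (hη : η ∈ E)
    (hη' : η' ∈ E) (hne : η ≠ η') {x₁ x₂ x₃ x₄ : (ZMod q)ˣ} (h₁ : x₁ ∈ B) (h₂ : x₂ ∈ B) (h₃ : x₃ ∈ B)
    (h₄ : x₄ ∈ B) (hK : 1 ≤ K) {m₁ m₂ m₃ m₄ : ℤ} (b₁ : |m₁| ≤ K) (b₂ : |m₂| ≤ K) (b₃ : |m₃| ≤ K)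
    (b₄ : |m₄| ≤ K) (hm : m₄ ≠ 0) :
    (m₁ : ZMod q) * (η * x₁) + m₂ * (η * x₂) + m₃ * (η * x₃) + m₄ * (η' * x₄) ≠ 0 := by
  intro hrel
  obtain ⟨a1, c1, a1', c1'⟩ := hC.pos x₁ h₁
  obtain ⟨a2, c2, a2', c2'⟩ := hC.pos x₂ h₂
  obtain ⟨a3, c3, a3', c3'⟩ := hC.pos x₃ h₃
  obtain ⟨a4, c4, a4', c4'⟩ := hC.pos x₄ h₄
  have r1 := th_rel hq hC h₁
  have r2 := th_rel hq hC h₂
  have r3 := th_rel hq hC h₃
  have r4 := th_rel hq hC h₄
  obtain ⟨α₁, e1⟩ : ∃ t, t = α x₁ := ⟨_, rfl⟩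
  obtain ⟨α₂, e2⟩ : ∃ t, t = α x₂ := ⟨_, rfl⟩
  obtain ⟨α₃, e3⟩ : ∃ t, t = α x₃ := ⟨_, rfl⟩
  obtain ⟨α₄, e4⟩ : ∃ t, t = α x₄ := ⟨_, rfl⟩
  obtain ⟨β₁, f1⟩ : ∃ t, t = β x₁ := ⟨_, rfl⟩
  obtain ⟨β₂, f2⟩ : ∃ t, t = β x₂ := ⟨_, rfl⟩
  obtain ⟨β₃, f3⟩ : ∃ t, t = β x₃ := ⟨_, rfl⟩
  obtain ⟨β₄, f4⟩ : ∃ t, t = β x₄ := ⟨_, rfl⟩
  rw [← e1] at a1 a1' r1
  rw [← e2] at a2 a2' r2
  rw [← e3] at a3 a3' r3
  rw [← e4] at a4 a4' r4
  rw [← f1] at c1 c1' r1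
  rw [← f2] at c2 c2' r2
  rw [← f3] at c3 c3' r3
  rw [← f4] at c4 c4' r4
  have hW := hC.one_le
  have hterm : ∀ m s t u v : ℤ, |m| ≤ K → 0 < s → 0 < t → 0 < u → 0 < v → s ≤ W → t ≤ W → u ≤ W → v ≤ W →
      |m * (s * t * u * v)| ≤ (K : ℤ) * W ^ 4 := by
    intro m s t u v hm hs ht hu hv hs' ht' hu' hv'
    have hp : 0 < s * t * u * v := by positivity
    rw [abs_mul, abs_of_pos hp]
    calc |m| * (s * t * u * v) ≤ K * (W * W * W * W) := by gcongr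
      _ = (K : ℤ) * W ^ 4 := by ring
  obtain ⟨A, hA⟩ : ∃ A : ℤ, A = m₁ * (β₁ * α₂ * α₃ * α₄) + m₂ * (β₂ * α₁ * α₃ * α₄) +
      m₃ * (β₃ * α₁ * α₂ * α₄) := ⟨_, rfl⟩
  obtain ⟨A', hA'⟩ : ∃ A' : ℤ, A' = -(m₄ * (β₄ * α₁ * α₂ * α₃)) := ⟨_, rfl⟩
  have hsz := th_size (K := K) (W := W) hK hW
  have hKW : (0 : ℤ) ≤ (K : ℤ) * W ^ 4 := by positivity
  have g1 := hterm m₁ β₁ α₂ α₃ α₄ b₁ c1 a2 a3 a4 c1' a2' a3' a4'
  have g2 := hterm m₂ β₂ α₁ α₃ α₄ b₂ c2 a1 a3 a4 c2' a1' a3' a4'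
  have g3 := hterm m₃ β₃ α₁ α₂ α₄ b₃ c3 a1 a2 a4 c3' a1' a2' a4'
  have g4 := hterm m₄ β₄ α₁ α₂ α₃ b₄ c4 a1 a2 a3 c4' a1' a2' a3'
  have hAs : |A| ≤ (((16 * K * W) ^ 8 : ℕ) : ℤ) := by
    have t1 := abs_add_le (m₁ * (β₁ * α₂ * α₃ * α₄) + m₂ * (β₂ * α₁ * α₃ * α₄)) (m₃ * (β₃ * α₁ * α₂ * α₄))
    have t2 := abs_add_le (m₁ * (β₁ * α₂ * α₃ * α₄)) (m₂ * (β₂ * α₁ * α₃ * α₄))
    rw [hA]
    linarith
  have hAs' : |A'| ≤ (((16 * K * W) ^ 8 : ℕ) : ℤ) := by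
    rw [hA', abs_neg]
    linarith
  have hA0 : A' ≠ 0 := by
    rw [hA', neg_ne_zero]
    exact mul_ne_zero hm (mul_pos (mul_pos (mul_pos c4 a1) a2) a3).ne'
  have hdvd : ((p ^ (n - 1) : ℕ) : ZMod q) ∣ (A : ZMod q) * η - A' * η' := by
    have e : (A : ZMod q) * η - A' * η' =
        (α₁ * α₂ * α₃ * α₄ : ZMod q) * ((m₁ : ZMod q) * (η * x₁) + m₂ * (η * x₂) + m₃ * (η * x₃) +
          m₄ * (η' * x₄)) -
        ((m₁ * η * (α₂ * α₃ * α₄) : ZMod q) * ((α₁ : ZMod q) * x₁ - β₁) +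
        (m₂ * η * (α₁ * α₃ * α₄) : ZMod q) * ((α₂ : ZMod q) * x₂ - β₂) +
        (m₃ * η * (α₁ * α₂ * α₄) : ZMod q) * ((α₃ : ZMod q) * x₃ - β₃) +
        (m₄ * η' * (α₁ * α₂ * α₃) : ZMod q) * ((α₄ : ZMod q) * x₄ - β₄)) := by
      rw [hA, hA']
      push_cast
      ring
    rw [e, hrel, mul_zero, zero_sub, dvd_neg]
    exact dvd_add (dvd_add (dvd_add (r1.mul_left _) (r2.mul_left _)) (r3.mul_left _)) (r4.mul_left _)
  by_cases h0 : A = 0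
  · have hQ : p ^ (n - 1) ∣ q := by rw [hq]; exact pow_dvd_pow p (Nat.sub_le n 1)
    rw [h0, Int.cast_zero, zero_mul, zero_sub, dvd_neg, Units.dvd_mul_right, ← th_dvd hQ] at hdvd
    exact hA0 (th_small hC hAs' hK hdvd)
  · exact th_far hq hC hη hη' hne h0 hA0 hAs hAs' hdvd

theorem three_one {p n q K r W : ℕ} [NeZero q] (hp : p.Prime) (hn : 2 ≤ n) (hq : q = p ^ n)
    {P : Finset ℕ} {B E : Finset (ZMod q)ˣ} {α β : (ZMod q)ˣ → ℤ}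
    (hC : Clu p n q K r P B E α β W) (c : ℕ → ℝ) (η η' : (ZMod q)ˣ) (hη : η ∈ E) (hη' : η' ∈ E)
    (hne : η ≠ η') (x₁ x₂ x₃ x₄ : (ZMod q)ˣ) (h₁ : x₁ ∈ B) (h₂ : x₂ ∈ B) (h₃ : x₃ ∈ B) (h₄ : x₄ ∈ B) :
    EE q (fun b => gq c K ((η : ZMod q) * (x₁ : ZMod q) * b) * gq c K ((η : ZMod q) * (x₂ : ZMod q) * b) *
      gq c K ((η : ZMod q) * (x₃ : ZMod q) * b) * gq c K ((η' : ZMod q) * (x₄ : ZMod q) * b)) = 0 := by
  have h := corr_zero c K (![(η : ZMod q) * (x₁ : ZMod q), (η : ZMod q) * (x₂ : ZMod q),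
    (η : ZMod q) * (x₃ : ZMod q), (η' : ZMod q) * (x₄ : ZMod q)]) ?_
  · simpa only [Fin.prod_univ_four, Matrix.cons_val_zero, Matrix.cons_val_one, Matrix.cons_val] using h
  · intro k hk s hs hrel
    have hb : ∀ i, |s i * (k i : ℤ)| ≤ K := by
      intro i
      rw [abs_mul]
      have : |s i| = 1 := by rcases hs i with h | h <;> rw [h] <;> rfl
      rw [this, one_mul, abs_of_nonneg (Int.natCast_nonneg _)]
      exact_mod_cast (hk i).2.1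
    have h3 : s 3 * (k 3 : ℤ) ≠ 0 := by
      refine mul_ne_zero ?_ ?_
      · rcases hs 3 with h | h <;> rw [h] <;> norm_num
      · have := (hk 3).1
        exact_mod_cast (by omega : k 3 ≠ 0)
    refine three_rel hq hC hη hη' hne h₁ h₂ h₃ h₄ ((hk 0).1.trans (hk 0).2.1) (hb 0) (hb 1) (hb 2) (hb 3) h3 ?_
    rw [Fin.sum_univ_four] at hrel
    simp only [Matrix.cons_val_zero, Matrix.cons_val_one, Matrix.cons_val] at hrel
    push_cast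
    linear_combination hrel

/-- elements of different clusters are separated -/
theorem far_sep {p n q K r W : ℕ} [NeZero q] (hp : p.Prime) (hn : 2 ≤ n) (hq : q = p ^ n)
    {P : Finset ℕ} {B E : Finset (ZMod q)ˣ} {α β : (ZMod q)ˣ → ℤ}
    (hC : Clu p n q K r P B E α β W) (η η' : (ZMod q)ˣ) (hη : η ∈ E) (hη' : η' ∈ E)
    (hne : η ≠ η') (x x' : (ZMod q)ˣ) (h : x ∈ B) (h' : x' ∈ B) :
    Sep (η * x) (η' * x') ((8 * K) ^ 2) := by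
  intro m m' hm hm' hrel
  have hQ : p ^ (n - 1) ∣ q := by rw [hq]; exact pow_dvd_pow p (Nat.sub_le n 1)
  have hW := hC.one_le
  by_cases hK : K = 0
  · subst hK
    constructor
    · exact abs_eq_zero.mp (le_antisymm (by simpa using hm) (abs_nonneg _))
    · exact abs_eq_zero.mp (le_antisymm (by simpa using hm') (abs_nonneg _))
  have hK1 : 1 ≤ K := Nat.one_le_iff_ne_zero.mpr hK
  have hm2 : |m| ≤ (8 * K : ℤ) ^ 2 := by exact_mod_cast hm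
  have hm2' : |m'| ≤ (8 * K : ℤ) ^ 2 := by exact_mod_cast hm'
  have hsz := th_size2 (K := K) (W := W) hK1 hW
  have hWW : (1 : ℤ) ≤ W * W := by
    have : (1 : ℤ) ≤ W := by exact_mod_cast hW
    nlinarith
  have hz : ∀ t : ℤ, |t| ≤ (8 * K : ℤ) ^ 2 → (t : ZMod q) = 0 → t = 0 := by
    intro t ht h0
    rw [ZMod.intCast_zmod_eq_zero_iff_dvd] at h0
    refine th_small hC ?_ hK1 ((Int.natCast_dvd_natCast.mpr hQ).trans h0)
    have : (8 * K : ℤ) ^ 2 ≤ (8 * K : ℤ) ^ 2 * (W * W) := le_mul_of_one_le_right (by positivity) hWW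
    linarith
  rw [Units.val_mul, Units.val_mul] at hrel
  by_cases h0 : m = 0
  · refine ⟨h0, hz m' hm2' ?_⟩
    rw [h0, Int.cast_zero, zero_mul, zero_add, ← Units.val_mul] at hrel
    exact (Units.mul_left_eq_zero _).mp hrel
  by_cases h0' : m' = 0
  · refine ⟨hz m hm2 ?_, h0'⟩
    rw [h0', Int.cast_zero, zero_mul, add_zero, ← Units.val_mul] at hrel
    exact (Units.mul_left_eq_zero _).mp hrel
  exfalso
  obtain ⟨a1, c1, a1', c1'⟩ := hC.pos x h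
  obtain ⟨a2, c2, a2', c2'⟩ := hC.pos x' h'
  have r1 := th_rel hq hC h
  have r2 := th_rel hq hC h'
  have hterm : ∀ m s t : ℤ, |m| ≤ (8 * K : ℤ) ^ 2 → 0 < s → 0 < t → s ≤ W → t ≤ W →
      |m * (s * t)| ≤ (8 * K : ℤ) ^ 2 * (W * W) := by
    intro m s t hm hs ht hs' ht'
    have hp : 0 < s * t := by positivity
    rw [abs_mul, abs_of_pos hp]
    gcongr
  refine th_far hq hC hη hη' hne (A := m * (β x * α x')) (A' := -(m' * (β x' * α x))) ?_ ?_ ?_ ?_ ?_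
  · exact mul_ne_zero h0 (mul_pos c1 a2).ne'
  · rw [neg_ne_zero]
    exact mul_ne_zero h0' (mul_pos c2 a1).ne'
  · exact (hterm _ _ _ hm2 c1 a2 c1' a2').trans hsz
  · rw [abs_neg]
    exact (hterm _ _ _ hm2' c2 a1 c2' a1').trans hsz
  · have e : ((m * (β x * α x') : ℤ) : ZMod q) * η - ((-(m' * (β x' * α x)) : ℤ) : ZMod q) * η' =
        (α x * α x' : ZMod q) * ((m : ZMod q) * (η * x) + m' * (η' * x')) -
        ((m * η * α x' : ZMod q) * ((α x : ZMod q) * x - β x) +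
        (m' * η' * α x : ZMod q) * ((α x' : ZMod q) * x' - β x')) := by
      push_cast
      ring
    rw [e, hrel, mul_zero, zero_sub, dvd_neg]
    exact dvd_add (r1.mul_left _) (r2.mul_left _)

end Pool.Agent.MU0
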