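import Pool.Agent.MU0.AsmA
import Pool.Agent.MU0.Clm
import Pool.Agent.MU0.Three
import Pool.Agent.MU0.FourT

/-!
# The fourth moment of `R`

`E R⁴` is bounded by the fourth moments of the clusters (`cluster_four`), the sums with three
factors in one cluster vanish (`three_one`), and the sum over four different clusters is estimated
term by term (`four_tuple`): all but `p² Z²` of the terms are at most `p⁻⁵`.
-/

set_option autoImplicit false

open Finset CongruenceSubgroup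
open Pool.Agent.MU1
open scoped Real

namespace Pool.Agent.MU0

section ASM

private theorem asm_EE {q : ℕ} [NeZero q] (F : ZMod q → ℝ) : ∑ b, F b = q * EE q F := by
  have hq0 : (q : ℝ) ≠ 0 := by exact_mod_cast NeZero.ne q
  unfold EE
  field_simp

private theorem asm_pi {X : Type*} [DecidableEq X] (H : Finset X) (F : (Fin 4 → X) → ℝ) :
    ∑ ζ ∈ Fintype.piFinset (fun _ : Fin 4 => H), F ζ =
      ∑ z₁ ∈ H, ∑ z₂ ∈ H, ∑ z₃ ∈ H, ∑ z₄ ∈ H, F ![z₁, z₂, z₃, z₄] := by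
  rw [← Finset.sum_product', ← Finset.sum_product', ← Finset.sum_product']
  refine Finset.sum_nbij' (fun ζ => (((ζ 0, ζ 1), ζ 2), ζ 3))
    (fun t => ![t.1.1.1, t.1.1.2, t.1.2, t.2]) ?_ ?_ ?_ ?_ ?_
  · intro ζ hζ
    rw [Fintype.mem_piFinset] at hζ
    simp only [Finset.mem_product]
    exact ⟨⟨⟨hζ 0, hζ 1⟩, hζ 2⟩, hζ 3⟩
  · intro t ht
    simp only [Finset.mem_product] at ht
    rw [Fintype.mem_piFinset]
    intro i
    fin_cases i
    · exact ht.1.1.1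
    · exact ht.1.1.2
    · exact ht.1.2
    · exact ht.2
  · intro ζ _
    funext i
    fin_cases i <;> rfl
  · intro t _
    rfl
  · intro ζ _
    congr 1
    funext i
    fin_cases i <;> rfl

private theorem asm_cube {X : Type*} (B : Finset X) (u v : X → ℝ) :
    (∑ x ∈ B, u x) ^ 3 * (∑ x ∈ B, v x) =
      ∑ x₁ ∈ B, ∑ x₂ ∈ B, ∑ x₃ ∈ B, ∑ x₄ ∈ B, u x₁ * u x₂ * u x₃ * v x₄ := by
  simp only [← Finset.mul_sum, ← Finset.sum_mul]
  ring

/-- the number of quadruples with two relations -/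
private theorem asm_count {X : Type*} [DecidableEq X] (H : Finset X) (Q : X → X → X → Prop) (Z : ℝ)
    (hZ0 : 0 ≤ Z) (hQ : ∀ x ∈ H, ∀ y ∈ H, ∀ S : Finset X, S ⊆ H → (∀ z ∈ S, Q x y z) →
      (S.card : ℝ) ≤ Z) (M e : ℝ) (hM : 0 ≤ M) (F : (Fin 4 → X) → ℝ)
    (C : (Fin 4 → X) → Prop) [DecidablePred C]
    (h0 : ∀ ζ, (∀ i, ζ i ∈ H) → C ζ → F ζ ≤ M) (he : 0 ≤ e)
    (h1 : ∀ ζ, (∀ i, ζ i ∈ H) → C ζ →
      ¬ (Q (ζ 0) (ζ 1) (ζ 2) ∧ Q (ζ 0) (ζ 1) (ζ 3)) → F ζ ≤ e) :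
    ∑ ζ ∈ (Fintype.piFinset fun _ : Fin 4 => H).filter C, F ζ ≤
      (H.card : ℝ) ^ 2 * Z ^ 2 * M + (H.card : ℝ) ^ 4 * e := by
  classical
  have step1 : ∑ ζ ∈ (Fintype.piFinset fun _ : Fin 4 => H).filter C, F ζ ≤
      ∑ ζ ∈ Fintype.piFinset (fun _ : Fin 4 => H),
        ((if Q (ζ 0) (ζ 1) (ζ 2) then 1 else 0) * (if Q (ζ 0) (ζ 1) (ζ 3) then 1 else 0) * M + e) := by
    rw [Finset.sum_filter]
    refine Finset.sum_le_sum fun ζ hζ => ?_
    rw [Fintype.mem_piFinset] at hζ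
    by_cases hC : C ζ
    · rw [if_pos hC]
      by_cases hQ1 : Q (ζ 0) (ζ 1) (ζ 2)
      · by_cases hQ2 : Q (ζ 0) (ζ 1) (ζ 3)
        · rw [if_pos hQ1, if_pos hQ2]
          have := h0 ζ hζ hC
          linarith
        · rw [if_neg hQ2]
          have := h1 ζ hζ hC (fun h => hQ2 h.2)
          linarith
      · rw [if_neg hQ1]
        have := h1 ζ hζ hC (fun h => hQ1 h.1)
        linarith
    · rw [if_neg hC]
      have : 0 ≤ (if Q (ζ 0) (ζ 1) (ζ 2) then (1 : ℝ) else 0) *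
          (if Q (ζ 0) (ζ 1) (ζ 3) then 1 else 0) * M := by
        refine mul_nonneg (mul_nonneg ?_ ?_) hM <;> split_ifs <;> norm_num
      linarith
  refine step1.trans ?_
  rw [asm_pi]
  have step2 : ∀ z₁ ∈ H, ∀ z₂ ∈ H, ∑ z₃ ∈ H, ∑ z₄ ∈ H,
      ((if Q z₁ z₂ z₃ then 1 else 0) * (if Q z₁ z₂ z₄ then 1 else 0) * M + e) ≤
      Z ^ 2 * M + (H.card : ℝ) ^ 2 * e := by
    intro z₁ h₁ z₂ h₂
    have e1 : ∑ z₃ ∈ H, (if Q z₁ z₂ z₃ then (1 : ℝ) else 0) ≤ Z := by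
      rw [Finset.sum_boole]
      exact hQ z₁ h₁ z₂ h₂ _ (Finset.filter_subset _ _) fun z hz => (Finset.mem_filter.1 hz).2
    have e0 : 0 ≤ ∑ z₃ ∈ H, (if Q z₁ z₂ z₃ then (1 : ℝ) else 0) :=
      Finset.sum_nonneg fun z _ => by split_ifs <;> norm_num
    calc ∑ z₃ ∈ H, ∑ z₄ ∈ H,
        ((if Q z₁ z₂ z₃ then (1 : ℝ) else 0) * (if Q z₁ z₂ z₄ then 1 else 0) * M + e)
        = (∑ z₃ ∈ H, (if Q z₁ z₂ z₃ then (1 : ℝ) else 0)) ^ 2 * M + (H.card : ℝ) ^ 2 * e := by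
          rw [pow_two (∑ z₃ ∈ H, (if Q z₁ z₂ z₃ then (1 : ℝ) else 0)), Finset.sum_mul_sum,
            Finset.sum_mul]
          simp only [Finset.sum_add_distrib, Finset.sum_const, nsmul_eq_mul, Finset.sum_mul]
          ring
      _ ≤ Z ^ 2 * M + (H.card : ℝ) ^ 2 * e := by
          have := pow_le_pow_left₀ e0 e1 2
          have := mul_le_mul_of_nonneg_right this hM
          linarith
  calc ∑ z₁ ∈ H, ∑ z₂ ∈ H, ∑ z₃ ∈ H, ∑ z₄ ∈ H,
      ((if Q (![z₁, z₂, z₃, z₄] 0) (![z₁, z₂, z₃, z₄] 1) (![z₁, z₂, z₃, z₄] 2) then (1 : ℝ) else 0) *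
        (if Q (![z₁, z₂, z₃, z₄] 0) (![z₁, z₂, z₃, z₄] 1) (![z₁, z₂, z₃, z₄] 3) then 1 else 0) * M + e)
      = ∑ z₁ ∈ H, ∑ z₂ ∈ H, ∑ z₃ ∈ H, ∑ z₄ ∈ H,
        ((if Q z₁ z₂ z₃ then (1 : ℝ) else 0) * (if Q z₁ z₂ z₄ then 1 else 0) * M + e) := rfl
    _ ≤ ∑ z₁ ∈ H, ∑ z₂ ∈ H, (Z ^ 2 * M + (H.card : ℝ) ^ 2 * e) :=
        Finset.sum_le_sum fun z₁ h₁ => Finset.sum_le_sum fun z₂ h₂ => step2 z₁ h₁ z₂ h₂
    _ = (H.card : ℝ) ^ 2 * Z ^ 2 * M + (H.card : ℝ) ^ 4 * e := by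
        simp only [Finset.sum_const, nsmul_eq_mul]
        ring

private theorem asm_inj {p n q K r W : ℕ} [NeZero q] (hp : p.Prime) (hn : 2 ≤ n) (hq : q = p ^ n)
    (hK : 1 ≤ K) {P : Finset ℕ} {B E : Finset (ZMod q)ˣ} {α β : (ZMod q)ˣ → ℤ}
    (hC : Clu p n q K r P B E α β W) :
    Set.InjOn (fun z : (ZMod q)ˣ × (ZMod q)ˣ => z.1 * z.2) ((E ×ˢ B : Finset _) : Set _) := by
  rintro ⟨η, x⟩ h ⟨η', x'⟩ h' heq
  rw [Finset.mem_coe, Finset.mem_product] at h h'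
  simp only at heq h h'
  by_cases hne : η = η'
  · subst hne
    rw [mul_left_cancel heq]
  · exfalso
    have hs := far_sep hp hn hq hC η η' h.1 h'.1 hne x x' h.2 h'.2
    rw [heq] at hs
    have hT : (1 : ℤ) ≤ (((8 * K) ^ 2 : ℕ) : ℤ) := by
      have : 1 ≤ (8 * K) ^ 2 := Nat.one_le_pow _ _ (by omega)
      exact_mod_cast this
    have h1 := hs 1 (-1) (by simpa using hT) (by simpa using hT) (by push_cast; ring)
    exact one_ne_zero h1.1

theorem fourth_moment (r : ℕ) : ∃ (C : ℝ) (p₀ : ℕ), ∀ p : ℕ, p₀ ≤ p → p.Prime →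
    ∀ (n q K W : ℕ) [NeZero q], 2 ≤ n → q = p ^ n → 1 ≤ K → Real.log K ≤ p →
    ∀ (P : Finset ℕ) (B E : Finset (ZMod q)ˣ) (α β : (ZMod q)ˣ → ℤ), Clu p n q K r P B E α β W →
    ∀ (c : ℕ → ℝ) (C₂ Z : ℝ), 1 ≤ C₂ → (∀ k, c k ≠ 0 → ∀ l ∈ P, ¬ l ∣ k) →
    (∀ k, |c k| ≤ k.divisors.card / √k) →
    (∀ k, |c k| ≤ (p : ℝ) ^ (-(200 : ℝ))) → (∀ X : ℕ, 1 ≤ X → ∑ k ∈ Ico X (2 * X), c k ^ 2 ≤ C₂) →
    (∀ z₁ z₂ : (ZMod q)ˣ, z₁ ^ (p - 1) = 1 → z₂ ^ (p - 1) = 1 → ∀ S : Finset (ZMod q)ˣ,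
      (∀ z ∈ S, z ^ (p - 1) = 1) → (∀ z ∈ S, Tri z₁ z₂ z (p ^ 600)) → (S.card : ℝ) ≤ Z) →
    EE q (fun b => RR c K B E b ^ 4) ≤
      C * ((E.card * B.card : ℝ) ^ 2 * EE q (fun b => gq c K b ^ 4) +
        (p : ℝ) ^ 2 * Z ^ 2 * (C₂ ^ 2 * (Real.log p) ^ 4 * (1 + Real.log K)) + 1) := by
  classical
  obtain ⟨p₁, hfour⟩ := four_tuple
  refine ⟨72 * 16 ^ r, max p₁ 3, ?_⟩
  intro p hp₀ hp n q K W _ hn hq hK hlogK P B E α β hC c C₂ Z hC₂ hcP hcd hcp hcX hZ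
  have hp₁ : p₁ ≤ p := (le_max_left _ _).trans hp₀
  have hp3 : 3 ≤ p := (le_max_right _ _).trans hp₀
  have hq0 : (0 : ℝ) < q := by exact_mod_cast Nat.pos_of_ne_zero (NeZero.ne q)
  have hp0 : (0 : ℝ) < p := by exact_mod_cast hp.pos
  have hp1 : (1 : ℝ) ≤ p := by exact_mod_cast hp.one_le
  have hZ0 : 0 ≤ Z := by
    have := hZ 1 1 (one_pow _) (one_pow _) ∅ (by simp) (by simp)
    simpa using this
  set M : ℝ := C₂ ^ 2 * (Real.log p) ^ 4 * (1 + Real.log K) with hM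
  have hM0 : 0 ≤ M := by
    have : 0 ≤ Real.log K := Real.log_natCast_nonneg K
    positivity
  set H : Finset ((ZMod q)ˣ × (ZMod q)ˣ) := E ×ˢ B with hH
  set f : (ZMod q)ˣ × (ZMod q)ˣ → ZMod q → ℝ :=
    fun z b => gq c K ((z.1 : ZMod q) * (z.2 : ZMod q) * b) with hf
  have hinj := asm_inj hp hn hq hK hC
  have hroot : ∀ z ∈ H, (z.1 * z.2) ^ (p - 1) = 1 := by
    intro z hz
    rw [hH, Finset.mem_product] at hz
    rw [mul_pow, hC.root' _ hz.1, hC.root _ hz.2, one_mul]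
  have hHcard : (H.card : ℝ) = E.card * B.card := by
    rw [hH, Finset.card_product]
    push_cast
    ring
  have hHp : (H.card : ℝ) ≤ p := by
    have h1 : H.card = (H.image fun z => z.1 * z.2).card :=
      (Finset.card_image_of_injOn hinj).symm
    have h2 : (H.image fun z => z.1 * z.2) ⊆ HH p q := by
      intro y hy
      obtain ⟨z, hz, rfl⟩ := Finset.mem_image.1 hy
      exact Finset.mem_filter.2 ⟨Finset.mem_univ _, hroot z hz⟩
    have h3 : H.card ≤ p := by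
      rw [h1]
      exact (Finset.card_le_card h2).trans ((card_HH hp (by omega) hq).trans (Nat.sub_le _ _))
    exact_mod_cast h3
  -- the clusters
  have hfil : ∀ a ∈ E, H.filter (fun z => z.1 = a) = B.image (fun x => (a, x)) := by
    intro a ha
    ext ⟨η, x⟩
    simp only [hH, Finset.mem_filter, Finset.mem_product, Finset.mem_image, Prod.mk.injEq]
    constructor
    · rintro ⟨⟨_, hx⟩, rfl⟩
      exact ⟨x, hx, rfl, rfl⟩
    · rintro ⟨y, hy, rfl, rfl⟩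
      exact ⟨⟨ha, hy⟩, rfl⟩
  have hfil' : ∀ a, a ∉ E → H.filter (fun z => z.1 = a) = ∅ := by
    intro a ha
    rw [Finset.filter_eq_empty_iff]
    rintro ⟨η, x⟩ hz h
    rw [hH, Finset.mem_product] at hz
    exact ha (h ▸ hz.1)
  have hcs : ∀ a ∈ E, ∀ b, ∑ z ∈ H.filter (fun z => z.1 = a), f z b =
      ∑ x ∈ B, gq c K ((a : ZMod q) * (x : ZMod q) * b) := by
    intro a ha b
    rw [hfil a ha, Finset.sum_image]
    intro x _ y _ hxy
    exact (Prod.mk.injEq _ _ _ _ ▸ hxy).2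
  have h31 : ∀ a b : (ZMod q)ˣ, a ≠ b → ∑ w, (∑ z ∈ H.filter (fun z => z.1 = a), f z w) ^ 3 *
      (∑ z ∈ H.filter (fun z => z.1 = b), f z w) = 0 := by
    intro a b hab
    by_cases ha : a ∈ E
    · by_cases hb : b ∈ E
      · have e1 : ∀ w, (∑ z ∈ H.filter (fun z => z.1 = a), f z w) ^ 3 *
            (∑ z ∈ H.filter (fun z => z.1 = b), f z w) =
            ∑ x₁ ∈ B, ∑ x₂ ∈ B, ∑ x₃ ∈ B, ∑ x₄ ∈ B,
              gq c K ((a : ZMod q) * (x₁ : ZMod q) * w) * gq c K ((a : ZMod q) * (x₂ : ZMod q) * w) *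
                gq c K ((a : ZMod q) * (x₃ : ZMod q) * w) *
                gq c K ((b : ZMod q) * (x₄ : ZMod q) * w) := by
          intro w
          rw [hcs a ha, hcs b hb, asm_cube]
        rw [Finset.sum_congr rfl fun w _ => e1 w, Finset.sum_comm]
        refine Finset.sum_eq_zero fun x₁ h₁ => ?_
        rw [Finset.sum_comm]
        refine Finset.sum_eq_zero fun x₂ h₂ => ?_
        rw [Finset.sum_comm]
        refine Finset.sum_eq_zero fun x₃ h₃ => ?_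
        rw [Finset.sum_comm]
        refine Finset.sum_eq_zero fun x₄ h₄ => ?_
        have := three_one hp hn hq hC c a b ha hb hab x₁ x₂ x₃ x₄ h₁ h₂ h₃ h₄
        rw [asm_EE, this, mul_zero]
      · refine Finset.sum_eq_zero fun w _ => ?_
        rw [hfil' b hb, Finset.sum_empty, mul_zero]
    · refine Finset.sum_eq_zero fun w _ => ?_
      rw [hfil' a ha, Finset.sum_empty]
      ring
  have hcl : ∀ a : (ZMod q)ˣ, N4 (fun w => ∑ z ∈ H.filter (fun z => z.1 = a), f z w) ≤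
      (4 ^ r * N4 (fun b : ZMod q => gq c K b)) * ((H.filter (fun z => z.1 = a)).card : ℝ) := by
    intro a
    have hN := N4_nonneg (fun b : ZMod q => gq c K b)
    by_cases ha : a ∈ E
    · have hcard : ((H.filter (fun z => z.1 = a)).card : ℝ) = B.card := by
        rw [hfil a ha, Finset.card_image_of_injective]
        intro x y hxy
        exact (Prod.mk.injEq _ _ _ _ ▸ hxy).2
      rw [hcard]
      unfold N4
      refine Real.sqrt_le_iff.2 ⟨by positivity, ?_⟩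
      have h1 := cluster_four hp hn hq hC c hcP a
      have h2 : ∑ w, (∑ z ∈ H.filter (fun z => z.1 = a), f z w) ^ 4 =
          q * EE q (fun b => (∑ x ∈ B, gq c K ((a : ZMod q) * (x : ZMod q) * b)) ^ 4) := by
        rw [← asm_EE]
        exact Finset.sum_congr rfl fun w _ => by rw [hcs a ha]
      have h3 : √(∑ w : ZMod q, gq c K w ^ 4) ^ 2 = q * EE q (fun b => gq c K b ^ 4) := by
        rw [Real.sq_sqrt (Finset.sum_nonneg fun w _ => by positivity), ← asm_EE]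
      rw [h2, mul_pow, mul_pow, h3]
      calc (q : ℝ) * EE q (fun b => (∑ x ∈ B, gq c K ((a : ZMod q) * (x : ZMod q) * b)) ^ 4)
          ≤ q * ((4 ^ r * B.card) ^ 2 * EE q (fun b => gq c K b ^ 4)) :=
            mul_le_mul_of_nonneg_left h1 hq0.le
        _ = _ := by ring
    · rw [hfil' a ha]
      have : N4 (fun w : ZMod q => ∑ z ∈ (∅ : Finset ((ZMod q)ˣ × (ZMod q)ˣ)), f z w) = 0 := by
        simp only [Finset.sum_empty]
        exact N4_zero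
      rw [this]
      simp
  -- four different clusters
  have hfar : ∀ ζ : Fin 4 → (ZMod q)ˣ × (ZMod q)ˣ, (∀ i, ζ i ∈ H) →
      (∀ i j, i ≠ j → (ζ i).1 ≠ (ζ j).1) →
      ∀ i j, i ≠ j → Sep ((ζ i).1 * (ζ i).2) ((ζ j).1 * (ζ j).2) ((8 * K) ^ 2) := by
    intro ζ hζ hd i j hij
    have hi := hζ i
    have hj := hζ j
    rw [hH, Finset.mem_product] at hi hj
    exact far_sep hp hn hq hC _ _ hi.1 hj.1 (hd i j hij) _ _ hi.2 hj.2
  have hprod : ∀ ζ : Fin 4 → (ZMod q)ˣ × (ZMod q)ˣ, ∑ w, ∏ i, f (ζ i) w =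
      q * EE q (fun b => ∏ i, gq c K ((((ζ i).1 * (ζ i).2 : (ZMod q)ˣ) : ZMod q) * b)) := by
    intro ζ
    rw [← asm_EE]
    refine Finset.sum_congr rfl fun w _ => Finset.prod_congr rfl fun i _ => ?_
    simp only [hf, Units.val_mul]
  have hB : ∑ ζ ∈ (Fintype.piFinset fun _ : Fin 4 => H).filter
      (fun ζ => ∀ i j, i ≠ j → (ζ i).1 ≠ (ζ j).1), |∑ w, ∏ i, f (ζ i) w| ≤
      (H.card : ℝ) ^ 2 * Z ^ 2 * (q * M) + (H.card : ℝ) ^ 4 * (q * (p : ℝ) ^ (-(5 : ℝ))) := by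
    refine asm_count H (fun x y z => Tri (x.1 * x.2) (y.1 * y.2) (z.1 * z.2) (p ^ 600)) Z hZ0 ?_
      (q * M) (q * (p : ℝ) ^ (-(5 : ℝ))) (by positivity) _ _ ?_ (by positivity) ?_
    · intro x hx y hy S hS hT
      have h1 : S.card = (S.image fun z => z.1 * z.2).card := by
        refine (Finset.card_image_of_injOn ?_).symm
        exact hinj.mono (by exact_mod_cast hS)
      rw [h1]
      refine hZ (x.1 * x.2) (y.1 * y.2) (hroot x hx) (hroot y hy) _ ?_ ?_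
      · intro u hu
        obtain ⟨z, hz, rfl⟩ := Finset.mem_image.1 hu
        exact hroot z (hS hz)
      · intro u hu
        obtain ⟨z, hz, rfl⟩ := Finset.mem_image.1 hu
        exact hT z hz
    · intro ζ hζ hd
      rw [hprod ζ, abs_mul, abs_of_pos hq0]
      exact mul_le_mul_of_nonneg_left ((hfour p hp₁ q K hK hlogK (fun i => (ζ i).1 * (ζ i).2)
        (hfar ζ hζ hd) c C₂ hC₂ hcd hcp hcX).1) hq0.le
    · intro ζ hζ hd hT
      rw [hprod ζ, abs_mul, abs_of_pos hq0]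
      exact mul_le_mul_of_nonneg_left ((hfour p hp₁ q K hK hlogK (fun i => (ζ i).1 * (ζ i).2)
        (hfar ζ hζ hd) c C₂ hC₂ hcd hcp hcX).2 hT) hq0.le
  have main := fourth_assembly H (fun z => z.1) f _ _ h31 hcl hB
  have hRR : ∑ w, (∑ z ∈ H, f z w) ^ 4 = q * EE q (fun b => RR c K B E b ^ 4) := by
    rw [← asm_EE]
    refine Finset.sum_congr rfl fun w _ => ?_
    rw [hH, Finset.sum_product]
    rfl
  have hg : N4 (fun b : ZMod q => gq c K b) ^ 2 = q * EE q (fun b => gq c K b ^ 4) := by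
    rw [N4_sq, ← asm_EE]
  rw [hRR] at main
  have hG0 : 0 ≤ EE q (fun b => gq c K b ^ 4) :=
    div_nonneg (Finset.sum_nonneg fun b _ => by positivity) hq0.le
  have h16 : (1 : ℝ) ≤ 16 ^ r := one_le_pow₀ (by norm_num)
  -- the error term
  have hHn : (0 : ℝ) ≤ H.card := Nat.cast_nonneg _
  have herr : (H.card : ℝ) ^ 4 * (p : ℝ) ^ (-(5 : ℝ)) ≤ 1 := by
    have h1 : (H.card : ℝ) ^ 4 ≤ (p : ℝ) ^ 4 := pow_le_pow_left₀ hHn hHp 4
    have h2 : (p : ℝ) ^ (-(5 : ℝ)) = ((p : ℝ) ^ 5)⁻¹ := by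
      rw [Real.rpow_neg hp0.le, show (5 : ℝ) = ((5 : ℕ) : ℝ) by norm_num, Real.rpow_natCast]
    rw [h2]
    rw [mul_inv_le_iff₀ (by positivity)]
    calc (H.card : ℝ) ^ 4 ≤ (p : ℝ) ^ 4 := h1
      _ ≤ 1 * (p : ℝ) ^ 5 := by
        rw [one_mul]
        exact pow_le_pow_right₀ hp1 (by norm_num)
  have hcnt : (H.card : ℝ) ^ 2 * Z ^ 2 * M ≤ (p : ℝ) ^ 2 * Z ^ 2 * M := by
    have := pow_le_pow_left₀ hHn hHp 2
    gcongr
  have key : EE q (fun b => RR c K B E b ^ 4) ≤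
      72 * (16 ^ r * EE q (fun b => gq c K b ^ 4) * (H.card : ℝ) ^ 2) +
        2 * ((H.card : ℝ) ^ 2 * Z ^ 2 * M + (H.card : ℝ) ^ 4 * (p : ℝ) ^ (-(5 : ℝ))) := by
    have e1 : (4 ^ r * N4 (fun b : ZMod q => gq c K b) * (H.card : ℝ)) ^ 2 =
        q * (16 ^ r * EE q (fun b => gq c K b ^ 4) * (H.card : ℝ) ^ 2) := by
      rw [mul_pow, mul_pow, hg, ← pow_mul, mul_comm r 2, pow_mul]
      norm_num
      ring
    rw [e1] at main
    have e2 : (q : ℝ) * EE q (fun b => RR c K B E b ^ 4) ≤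
        q * (72 * (16 ^ r * EE q (fun b => gq c K b ^ 4) * (H.card : ℝ) ^ 2) +
        2 * ((H.card : ℝ) ^ 2 * Z ^ 2 * M + (H.card : ℝ) ^ 4 * (p : ℝ) ^ (-(5 : ℝ)))) := by
      refine main.trans (le_of_eq ?_)
      ring
    exact le_of_mul_le_mul_left e2 hq0
  rw [← hHcard]
  have hX : (0 : ℝ) ≤ (p : ℝ) ^ 2 * Z ^ 2 * M := by positivity
  nlinarith [mul_nonneg (sub_nonneg.2 h16) hX, mul_nonneg (sub_nonneg.2 h16) (zero_le_one (α := ℝ))]

end ASM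

end Pool.Agent.MU0
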