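import Pool.Agent.MU0.Pat

/-!
# The fourth moment of a sum over clusters: elements instead of clusters
-/

open Finset

namespace Pool.Agent.MU0

variable {Ω : Type*} [Fintype Ω] {ι X : Type*} [DecidableEq ι]

/-- the indicator of four distinct elements -/
def dist4 (a b c d : ι) : ℝ :=
  if a ≠ b ∧ a ≠ c ∧ b ≠ c ∧ a ≠ d ∧ b ≠ d ∧ c ≠ d then 1 else 0

private theorem as_erase (A : Finset ι) (a : ι) (φ : ι → ℝ) :
    ∑ x ∈ A.erase a, φ x = ∑ x ∈ A, if x ≠ a then φ x else 0 := by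
  rw [← Finset.sum_filter, Finset.filter_ne']

private theorem as_ite (A : Finset ι) (F : ι → ι → ι → ι → ℝ) :
    dsum4 A F = ∑ a ∈ A, ∑ b ∈ A, ∑ c ∈ A, ∑ d ∈ A, dist4 a b c d * F a b c d := by
  unfold dsum4
  refine Finset.sum_congr rfl fun a _ => ?_
  rw [as_erase]
  refine Finset.sum_congr rfl fun b _ => ?_
  rw [as_erase, as_erase]
  by_cases hb : b ≠ a
  · rw [if_pos hb]
    refine Finset.sum_congr rfl fun c _ => ?_
    rw [as_erase, as_erase, as_erase]
    by_cases hca : c ≠ a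
    · by_cases hcb : c ≠ b
      · rw [if_pos hca, if_pos hcb]
        refine Finset.sum_congr rfl fun d _ => ?_
        unfold dist4
        by_cases h : a ≠ b ∧ a ≠ c ∧ b ≠ c ∧ a ≠ d ∧ b ≠ d ∧ c ≠ d
        · rw [if_pos h, if_pos (Ne.symm h.2.2.2.1), if_pos (Ne.symm h.2.2.2.2.1),
            if_pos (Ne.symm h.2.2.2.2.2), one_mul]
        · rw [if_neg h, zero_mul]
          by_cases hda : d ≠ a
          · by_cases hdb : d ≠ b
            · by_cases hdc : d ≠ c
              · exact absurd ⟨Ne.symm hb, Ne.symm hca, Ne.symm hcb, Ne.symm hda, Ne.symm hdb,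
                  Ne.symm hdc⟩ h
              · rw [if_pos hda, if_pos hdb, if_neg hdc]
            · rw [if_pos hda, if_neg hdb]
          · rw [if_neg hda]
      · rw [if_pos hca, if_neg hcb]
        symm
        refine Finset.sum_eq_zero fun d _ => ?_
        unfold dist4
        rw [if_neg (fun h => hcb (Ne.symm h.2.2.1)), zero_mul]
    · rw [if_neg hca]
      symm
      refine Finset.sum_eq_zero fun d _ => ?_
      unfold dist4
      rw [if_neg (fun h => hca (Ne.symm h.2.1)), zero_mul]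
  · rw [if_neg hb]
    symm
    refine Finset.sum_eq_zero fun c _ => Finset.sum_eq_zero fun d _ => ?_
    unfold dist4
    rw [if_neg (fun h => hb (Ne.symm h.1)), zero_mul]

private theorem as_fiber (H : Finset X) (cl : X → ι) (φ : ι → ℝ) (f : X → ℝ) :
    ∑ a ∈ H.image cl, φ a * ∑ z ∈ H.filter (fun z => cl z = a), f z =
      ∑ z ∈ H, φ (cl z) * f z := by
  rw [← Finset.sum_fiberwise_of_maps_to (fun z hz => Finset.mem_image_of_mem cl hz)]
  refine Finset.sum_congr rfl fun a _ => ?_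
  rw [Finset.mul_sum]
  refine Finset.sum_congr rfl fun z hz => ?_
  rw [Finset.mem_filter] at hz
  rw [hz.2]

private theorem as_elem (H : Finset X) (cl : X → ι) (f : X → ℝ) (g : ι → ℝ)
    (hg : ∀ a, g a = ∑ z ∈ H.filter (fun z => cl z = a), f z) (A : Finset ι) (hA : A = H.image cl) :
    ∑ a ∈ A, ∑ b ∈ A, ∑ c ∈ A, ∑ d ∈ A, dist4 a b c d * (g a * g b * g c * g d) =
      ∑ z₁ ∈ H, ∑ z₂ ∈ H, ∑ z₃ ∈ H, ∑ z₄ ∈ H,
        dist4 (cl z₁) (cl z₂) (cl z₃) (cl z₄) * (f z₁ * f z₂ * f z₃ * f z₄) := by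
  have key : ∀ φ : ι → ℝ, ∑ a ∈ A, φ a * g a = ∑ z ∈ H, φ (cl z) * f z := by
    intro φ
    rw [hA, ← as_fiber H cl φ f]
    exact Finset.sum_congr rfl fun a _ => by rw [hg a]
  have s4 : ∀ a b c, ∑ d ∈ A, dist4 a b c d * (g a * g b * g c * g d) =
      (∑ z₄ ∈ H, dist4 a b c (cl z₄) * (g a * g b * f z₄)) * g c := by
    intro a b c
    have h := key (fun d => dist4 a b c d * (g a * g b * g c))
    rw [Finset.sum_mul]
    calc ∑ d ∈ A, dist4 a b c d * (g a * g b * g c * g d)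
        = ∑ d ∈ A, dist4 a b c d * (g a * g b * g c) * g d :=
          Finset.sum_congr rfl fun d _ => by ring
      _ = ∑ z ∈ H, dist4 a b c (cl z) * (g a * g b * g c) * f z := h
      _ = _ := Finset.sum_congr rfl fun z _ => by ring
  have s3 : ∀ a b, ∑ c ∈ A, ∑ d ∈ A, dist4 a b c d * (g a * g b * g c * g d) =
      (∑ z₃ ∈ H, ∑ z₄ ∈ H, dist4 a b (cl z₃) (cl z₄) * (g a * f z₃ * f z₄)) * g b := by
    intro a b
    rw [Finset.sum_congr rfl fun c _ => s4 a b c]
    have h := key (fun c => ∑ z₄ ∈ H, dist4 a b c (cl z₄) * (g a * g b * f z₄))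
    rw [h, Finset.sum_mul]
    refine Finset.sum_congr rfl fun z₃ _ => ?_
    rw [Finset.sum_mul, Finset.sum_mul]
    exact Finset.sum_congr rfl fun z _ => by ring
  have s2 : ∀ a, ∑ b ∈ A, ∑ c ∈ A, ∑ d ∈ A, dist4 a b c d * (g a * g b * g c * g d) =
      (∑ z₂ ∈ H, ∑ z₃ ∈ H, ∑ z₄ ∈ H, dist4 a (cl z₂) (cl z₃) (cl z₄) * (f z₂ * f z₃ * f z₄)) *
        g a := by
    intro a
    rw [Finset.sum_congr rfl fun b _ => s3 a b]
    have h := key (fun b => ∑ z₃ ∈ H, ∑ z₄ ∈ H, dist4 a b (cl z₃) (cl z₄) *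
      (g a * f z₃ * f z₄))
    rw [h, Finset.sum_mul]
    refine Finset.sum_congr rfl fun z₂ _ => ?_
    rw [Finset.sum_mul, Finset.sum_mul]
    refine Finset.sum_congr rfl fun z₃ _ => ?_
    rw [Finset.sum_mul, Finset.sum_mul]
    exact Finset.sum_congr rfl fun z _ => by ring
  rw [Finset.sum_congr rfl fun a _ => s2 a]
  have h := key (fun a => ∑ z₂ ∈ H, ∑ z₃ ∈ H, ∑ z₄ ∈ H,
    dist4 a (cl z₂) (cl z₃) (cl z₄) * (f z₂ * f z₃ * f z₄))
  rw [h]
  refine Finset.sum_congr rfl fun z₁ _ => ?_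
  rw [Finset.sum_mul]
  refine Finset.sum_congr rfl fun z₂ _ => ?_
  rw [Finset.sum_mul]
  refine Finset.sum_congr rfl fun z₃ _ => ?_
  rw [Finset.sum_mul]
  exact Finset.sum_congr rfl fun z _ => by ring

/-- the sum over four different clusters, as a sum over elements -/
theorem dsum4_elements (H : Finset X) (cl : X → ι) (f : X → ℝ) :
    dsum4 (H.image cl) (fun a b c d =>
      (∑ z ∈ H.filter (fun z => cl z = a), f z) * (∑ z ∈ H.filter (fun z => cl z = b), f z) *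
        (∑ z ∈ H.filter (fun z => cl z = c), f z) * (∑ z ∈ H.filter (fun z => cl z = d), f z)) =
      ∑ z₁ ∈ H, ∑ z₂ ∈ H, ∑ z₃ ∈ H, ∑ z₄ ∈ H,
        dist4 (cl z₁) (cl z₂) (cl z₃) (cl z₄) * (f z₁ * f z₂ * f z₃ * f z₄) := by
  rw [as_ite]
  exact as_elem H cl f (fun a => ∑ z ∈ H.filter (fun z => cl z = a), f z) (fun _ => rfl) _ rfl

private theorem as_pi (H : Finset X) [DecidableEq X] (F : (Fin 4 → X) → ℝ) :
    ∑ ζ ∈ Fintype.piFinset (fun _ : Fin 4 => H), F ζ =
      ∑ z₁ ∈ H, ∑ z₂ ∈ H, ∑ z₃ ∈ H, ∑ z₄ ∈ H, F ![z₁, z₂, z₃, z₄] := by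
  rw [← Finset.sum_product', ← Finset.sum_product', ← Finset.sum_product']
  refine Finset.sum_nbij' (fun ζ => (((ζ 0, ζ 1), ζ 2), ζ 3))
    (fun t => ![t.1.1.1, t.1.1.2, t.1.2, t.2]) ?_ ?_ ?_ ?_ ?_
  · intro ζ hζ
    rw [Fintype.mem_piFinset] at hζ
    simp only [Finset.mem_product]
    exact ⟨⟨⟨hζ 0, hζ 1⟩, hζ 2⟩, hζ 3⟩
  · intro t ht
    simp only [Finset.mem_product] at ht
    rw [Fintype.mem_piFinset]
    intro i
    fin_cases i
    · exact ht.1.1.1
    · exact ht.1.1.2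
    · exact ht.1.2
    · exact ht.2
  · intro ζ _
    funext i
    fin_cases i <;> rfl
  · intro t _
    rfl
  · intro ζ _
    congr 1
    funext i
    fin_cases i <;> rfl

/-- the sum over four different clusters is bounded by helper37's sum -/
theorem dsum4_le [DecidableEq X] (H : Finset X) (cl : X → ι) (f : X → Ω → ℝ) :
    ∑ w, dsum4 (H.image cl) (fun a b c d =>
      (∑ z ∈ H.filter (fun z => cl z = a), f z w) * (∑ z ∈ H.filter (fun z => cl z = b), f z w) *
        (∑ z ∈ H.filter (fun z => cl z = c), f z w) * (∑ z ∈ H.filter (fun z => cl z = d), f z w)) ≤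
      ∑ ζ ∈ (Fintype.piFinset fun _ : Fin 4 => H).filter
        (fun ζ => ∀ i j, i ≠ j → cl (ζ i) ≠ cl (ζ j)), |∑ w, ∏ i, f (ζ i) w| := by
  rw [Finset.sum_filter, as_pi, Finset.sum_congr rfl fun w _ => dsum4_elements H cl fun z => f z w,
    Finset.sum_comm]
  refine Finset.sum_le_sum fun z₁ _ => ?_
  rw [Finset.sum_comm]
  refine Finset.sum_le_sum fun z₂ _ => ?_
  rw [Finset.sum_comm]
  refine Finset.sum_le_sum fun z₃ _ => ?_
  rw [Finset.sum_comm]
  refine Finset.sum_le_sum fun z₄ _ => ?_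
  rw [← Finset.mul_sum]
  have hprod : ∀ w, ∏ i, f (![z₁, z₂, z₃, z₄] i) w = f z₁ w * f z₂ w * f z₃ w * f z₄ w := by
    intro w
    rw [Fin.prod_univ_four]
    rfl
  unfold dist4
  by_cases h : cl z₁ ≠ cl z₂ ∧ cl z₁ ≠ cl z₃ ∧ cl z₂ ≠ cl z₃ ∧ cl z₁ ≠ cl z₄ ∧ cl z₂ ≠ cl z₄ ∧
      cl z₃ ≠ cl z₄
  · rw [if_pos h, one_mul, if_pos]
    · rw [Finset.sum_congr rfl fun w _ => (hprod w)]
      exact le_abs_self _
    · obtain ⟨h1, h2, h3, h4, h5, h6⟩ := h
      intro i j hij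
      fin_cases i <;> fin_cases j
      all_goals first
        | exact absurd rfl hij
        | exact h1
        | exact h2
        | exact h3
        | exact h4
        | exact h5
        | exact h6
        | exact Ne.symm h1
        | exact Ne.symm h2
        | exact Ne.symm h3
        | exact Ne.symm h4
        | exact Ne.symm h5
        | exact Ne.symm h6
  · rw [if_neg h, zero_mul]
    split_ifs
    · exact abs_nonneg _
    · exact le_rfl

/-- **Assembly.** -/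
theorem fourth_assembly [DecidableEq X] (H : Finset X) (cl : X → ι) (f : X → Ω → ℝ) (c B : ℝ)
    (h31 : ∀ a b : ι, a ≠ b → ∑ w, (∑ z ∈ H.filter (fun z => cl z = a), f z w) ^ 3 *
      (∑ z ∈ H.filter (fun z => cl z = b), f z w) = 0)
    (hcl : ∀ a : ι, N4 (fun w => ∑ z ∈ H.filter (fun z => cl z = a), f z w) ≤
      c * ((H.filter (fun z => cl z = a)).card : ℝ))
    (hB : ∑ ζ ∈ (Fintype.piFinset fun _ : Fin 4 => H).filter
        (fun ζ => ∀ i j, i ≠ j → cl (ζ i) ≠ cl (ζ j)), |∑ w, ∏ i, f (ζ i) w| ≤ B) :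
    ∑ w, (∑ z ∈ H, f z w) ^ 4 ≤ 72 * (c * H.card) ^ 2 + 2 * B := by
  have h1 := pattern_bound (H.image cl)
    (fun a w => ∑ z ∈ H.filter (fun z => cl z = a), f z w) B (fun a _ b _ hab => h31 a b hab)
    ((dsum4_le H cl f).trans hB)
  have h2 : ∀ w, ∑ a ∈ H.image cl, ∑ z ∈ H.filter (fun z => cl z = a), f z w = ∑ z ∈ H, f z w :=
    fun w => Finset.sum_fiberwise_of_maps_to (fun z hz => Finset.mem_image_of_mem cl hz) _
  rw [Finset.sum_congr rfl fun w _ => by rw [h2 w]] at h1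
  refine h1.trans ?_
  have h3 : ∑ a ∈ H.image cl, N4 (fun w => ∑ z ∈ H.filter (fun z => cl z = a), f z w) ≤
      c * H.card := by
    refine (Finset.sum_le_sum fun a _ => hcl a).trans ?_
    rw [← Finset.mul_sum, ← Nat.cast_sum,
      ← Finset.card_eq_sum_card_fiberwise (fun z hz => Finset.mem_image_of_mem cl hz)]
  have h4 : 0 ≤ ∑ a ∈ H.image cl, N4 (fun w => ∑ z ∈ H.filter (fun z => cl z = a), f z w) :=
    Finset.sum_nonneg fun a _ => N4_nonneg _
  have h5 := pow_le_pow_left₀ h4 h3 2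
  linarith

end Pool.Agent.MU0
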