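import Pool.Agent.MU1.Defs

/-!
# Definitions for the upper bound of the mean square
-/

set_option autoImplicit false

open Finset
open scoped Real

namespace Pool.Agent.MU0

/-- the normalised absolute value `|a(m)| / √m` -/
noncomputable def lam (a : ℕ → ℤ) (m : ℕ) : ℝ := |(a m : ℝ)| / √(m : ℝ)

/-- The hypotheses on the coefficients: multiplicative, Hasse's bound, the mean square and the mean
value of `|λ(l)|^(3/2)` over the primes. -/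
structure CoefH (a : ℕ → ℤ) : Prop where
  zero : a 0 = 0
  one : a 1 = 1
  mul : ∀ {m n : ℕ}, Nat.Coprime m n → a (m * n) = a m * a n
  hasse : ∀ m : ℕ, |(a m : ℝ)| ≤ (m.divisors.card : ℝ) * √(m : ℝ)
  sq : ∃ C : ℝ, ∀ x : ℕ, ∑ m ∈ Icc 1 x, (a m : ℝ) ^ 2 ≤ C * (x : ℝ) ^ 2
  mean : ∃ c₀ : ℝ, 0 < c₀ ∧ ∃ C : ℝ, ∀ x : ℕ, 3 ≤ x →
    c₀ * Real.log (Real.log x) - C ≤
      ∑ l ∈ (Icc 1 x).filter Nat.Prime, (1 - lam a l ^ (3 / 2 : ℝ)) / l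

open Classical in
/-- the number of divisors of `m` composed of primes of `P` -/
noncomputable def dP (P : Set ℕ) (m : ℕ) : ℕ :=
  (m.divisors.filter fun e => ∀ l : ℕ, l.Prime → l ∣ e → l ∈ P).card

open Classical in
/-- the sum of the reciprocals of the `e ≤ x` composed of primes of `P` -/
noncomputable def LP (P : Set ℕ) (x : ℕ) : ℝ :=
  ∑ e ∈ (Icc 1 x).filter (fun e => ∀ l : ℕ, l.Prime → l ∣ e → l ∈ P), 1 / (e : ℝ)

/-- the product of the `θ l` over the primes `l ∈ Q` which divide `m` -/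
def Phi (θ : ℕ → ℝ) (Q : Finset ℕ) (m : ℕ) : ℝ := ∏ l ∈ Q.filter (· ∣ m), θ l

/-- no nonzero vector `(u₁, u₂)` with `u₂ = ζ u₁` modulo `M` has both coordinates at most `V` -/
def NoShort (M : ℕ) (ζ : ZMod M) (V : ℝ) : Prop :=
  ∀ u₁ u₂ : ℤ, (u₂ : ZMod M) = ζ * u₁ → |(u₁ : ℝ)| ≤ V → |(u₂ : ℝ)| ≤ V → u₁ = 0 ∧ u₂ = 0

/-- `(v₁, v₂)` is in the lattice and all the vectors with coordinates at most `U` are multiples -/
structure IsShort (M : ℕ) (ζ : ZMod M) (U : ℝ) (v₁ v₂ : ℤ) : Prop where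
  mem : (v₂ : ZMod M) = ζ * v₁
  ne : v₁ ≠ 0 ∨ v₂ ≠ 0
  mult : ∀ u₁ u₂ : ℤ, (u₂ : ZMod M) = ζ * u₁ → |(u₁ : ℝ)| ≤ U → |(u₂ : ℝ)| ≤ U →
    ∃ j : ℤ, u₁ = j * v₁ ∧ u₂ = j * v₂

/-- the correlation sum of `|a(m)| / m` along `m' = ζ m` modulo `M` with the cutoff `X` -/
noncomputable def Corr (a : ℕ → ℤ) (M : ℕ) (ζ : ZMod M) (X : ℝ) : ℝ :=
  ∑' m : ℕ × ℕ, (if (m.2 : ZMod M) = ζ * (m.1 : ℕ) then
    |(a m.1 : ℝ)| / m.1 * (|(a m.2 : ℝ)| / m.2) * Real.exp (-((m.1 + m.2) / X)) else 0)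

/-- the sum over a dyadic box -/
noncomputable def Tbox (a : ℕ → ℤ) (M : ℕ) (ζ : ZMod M) (i j : ℕ) : ℝ :=
  ∑ m ∈ Ico (2 ^ i) (2 ^ (i + 1)),
    ∑ m' ∈ (Ico (2 ^ j) (2 ^ (j + 1))).filter (fun m' : ℕ => (m' : ZMod M) = ζ * (m : ℕ)),
      lam a m * lam a m'

/-- the number of points in a dyadic box -/
noncomputable def Nbox (M : ℕ) (ζ : ZMod M) (i j : ℕ) : ℝ :=
  ((((Ico (2 ^ i) (2 ^ (i + 1))) ×ˢ (Ico (2 ^ j) (2 ^ (j + 1)))).filter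
      (fun n : ℕ × ℕ => (n.2 : ZMod M) = ζ * (n.1 : ℕ))).card : ℝ)

end Pool.Agent.MU0
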