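import Pool.Agent.MU0.Defs

/-!
# The boundary values of the primitive of a cusp form and of its Fricke image (module BD)

`MU1/An1.lean` with another cusp form `g` in the place of `ε f`.
-/

set_option autoImplicit false

open UpperHalfPlane hiding I
open Filter Topology Complex Function CongruenceSubgroup
open Matrix.SpecialLinearGroup (mapGL)
open scoped MatrixGroups Real ModularForm OnePoint ComplexConjugate

namespace Pool.Agent.MU0

open Pool.Agent.MZ Pool.Agent.MZ.Per Pool.Agent.MU1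

variable {N : ℕ} [NeZero N]

theorem G_pair (f g : CuspForm (Gamma0 N) 2) (hF : IsW f g) :
    ∃ c : ℂ, ∀ z : ℍ, G f (ofComplex (-1 / ((N : ℂ) * z))) = G g z + c := by
  have hN : N ≠ 0 := NeZero.ne N
  have hNc : (N : ℂ) ≠ 0 := by exact_mod_cast hN
  refine sub_const (g := fun z => (2 * π * Complex.I * g z))
    (G := fun z : ℍ => G f (ofComplex (-1 / ((N : ℂ) * z)))) (H := fun z => G g z) ?_ ?_
  · intro z
    have hz := im_W (N := N) hN z.im_pos
    have hz0 : (z : ℂ) ≠ 0 := z.ne_zero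
    have h1 := (prim_G f).der ⟨_, hz⟩
    have h2 : HasDerivAt (fun x : ℂ => -1 / ((N : ℂ) * x)) (1 / ((N : ℂ) * (z : ℂ) ^ 2)) (z : ℂ) := by
      have h3 : HasDerivAt (fun x : ℂ => (N : ℂ) * x) ((N : ℂ) * 1) (z : ℂ) :=
        (hasDerivAt_id (z : ℂ)).const_mul (N : ℂ)
      have h4 := (h3.inv (mul_ne_zero hNc hz0)).const_mul (-1 : ℂ)
      convert! h4 using 1
      field_simp
    have h5 := HasDerivAt.comp (z : ℂ) h1 h2
    have h6 : 2 * π * Complex.I * f ⟨_, hz⟩ * (1 / ((N : ℂ) * (z : ℂ) ^ 2)) =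
        2 * π * Complex.I * g z := by
      have h7 := hF z
      rw [ofComplex_apply_of_im_pos hz] at h7
      rw [h7]
      field_simp
    rw [h6] at h5
    refine h5.congr_of_eventuallyEq ?_
    filter_upwards [im_pos_open.mem_nhds z.im_pos] with x hx
    simp only [comp_apply]
    rw [ofComplex_apply_of_im_pos hx]
  · intro z
    exact (prim_G g).der z

theorem bd_pair {N : ℕ} [NeZero N] (f g : CuspForm (Gamma0 N) 2) (hW : IsW f g)
    {q : ℕ} (hq : 0 < q) {b r : ℤ} (hbr : (q : ℤ) ∣ N * r * b - 1) {y : ℝ} (hy : 0 < y) :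
    bd (G f) (((b : ℚ) / (q : ℚ) : ℚ) : OnePoint ℚ) =
      G f (vert ((b : ℝ) / q) y) - G g (vert (-(r : ℝ) / q) (1 / (N * q ^ 2 * y))) := by
  have hN : N ≠ 0 := NeZero.ne N
  have hNc : (N : ℂ) ≠ 0 := by exact_mod_cast hN
  have hNr : (0 : ℝ) < N := by exact_mod_cast Nat.pos_of_ne_zero hN
  have hqr : (0 : ℝ) < q := by exact_mod_cast hq
  have hqc : (q : ℂ) ≠ 0 := by exact_mod_cast hq.ne'
  obtain ⟨A', hA'⟩ := hbr
  obtain ⟨γ, h00, h01, h10, h11⟩ := exists_sl (a := -A') (b := b) (c := -(N * r)) (d := q)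
    (by linear_combination hA')
  have hγ : γ ∈ Gamma0 N := by
    rw [Gamma0_mem, h10]
    push_cast
    simp
  obtain ⟨c, hc⟩ := G_pair f g hW
  -- the two points
  have hpt : ∀ t : ℝ, 0 < t → γ • (ofComplex (-1 / ((N : ℂ) *
      (vert (-(r : ℝ) / q) (1 / (N * q ^ 2 * t)) : ℍ)))) = vert ((b : ℝ) / q) t := by
    intro t ht
    have hpos : 0 < 1 / ((N : ℝ) * q ^ 2 * t) := by positivity
    have htc : (t : ℂ) ≠ 0 := by exact_mod_cast ht.ne'
    set z' : ℍ := vert (-(r : ℝ) / q) (1 / (N * q ^ 2 * t)) with hz'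
    have hz'c : (z' : ℂ) = -(r : ℂ) / q + 1 / (N * q ^ 2 * t) * Complex.I := by
      rw [hz', coe_vert hpos]
      push_cast
      ring
    have hz'0 : (z' : ℂ) ≠ 0 := z'.ne_zero
    apply UpperHalfPlane.ext
    rw [coe_specialLinearGroup_apply, coe_vert ht, ofComplex_apply_of_im_pos (im_W hN z'.im_pos)]
    simp only [algebraMap_int_eq, eq_intCast, ofReal_intCast]
    rw [h00, h01, h10, h11]
    have hA : (A' : ℂ) * q = N * r * b - 1 := by
      have := congrArg (fun t : ℤ => (t : ℂ)) hA'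
      push_cast at this
      linear_combination -this
    have hden : ((-(N * r) : ℤ) : ℂ) * (-1 / ((N : ℂ) * (z' : ℂ))) + ((q : ℤ) : ℂ) ≠ 0 := by
      have h3 : ((-(N * r) : ℤ) : ℂ) * (-1 / ((N : ℂ) * (z' : ℂ))) + ((q : ℤ) : ℂ) =
          (r + q * z') / z' := by
        push_cast
        field_simp
      rw [h3]
      refine div_ne_zero ?_ hz'0
      rw [hz'c]
      have h4 : (r : ℂ) + q * (-(r : ℂ) / q + 1 / (N * q ^ 2 * t) * Complex.I) =
          1 / (N * q * t) * Complex.I := by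
        field_simp
        ring
      rw [h4]
      exact mul_ne_zero (one_div_ne_zero (mul_ne_zero (mul_ne_zero hNc hqc) htc)) Complex.I_ne_zero
    rw [div_eq_iff hden]
    push_cast
    have hI2 : Complex.I * Complex.I = -1 := Complex.I_mul_I
    have h5 : (z' : ℂ) * (N * q ^ 2 * t) = -(r : ℂ) * q * N * t + Complex.I := by
      rw [hz'c]
      field_simp
    have h6 : (-(A' : ℂ) * (-1 / ((N : ℂ) * (z' : ℂ))) + b) * (N * z') = A' + b * N * z' := by
      field_simp
    have h7 : (((b : ℂ) / q + t * Complex.I) * (-((N : ℂ) * r) * (-1 / ((N : ℂ) * (z' : ℂ))) + q)) * (N * z') =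
        ((b : ℂ) / q + t * Complex.I) * (N * r + q * N * z') := by
      field_simp
    have hNz : (N : ℂ) * z' ≠ 0 := mul_ne_zero hNc hz'0
    apply mul_right_cancel₀ hNz
    rw [h6, h7]
    have h8 : (q : ℂ) * t ≠ 0 := mul_ne_zero hqc htc
    apply mul_right_cancel₀ h8
    have h9 : ((b : ℂ) / q + t * Complex.I) * (N * r + q * N * z') * (q * t) =
        ((b : ℂ) + q * t * Complex.I) * (N * r * t + q * N * z' * t) := by
      field_simp
    rw [h9]
    linear_combination (t : ℂ) * hA - (t : ℂ) * Complex.I * h5 - (t : ℂ) * hI2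
  set c' : ℂ := c + (G f (γ • UpperHalfPlane.I) - G f UpperHalfPlane.I) with hc'
  have hconst : ∀ t : ℝ, 0 < t → G f (vert ((b : ℝ) / q) t) -
      G g (vert (-(r : ℝ) / q) (1 / (N * q ^ 2 * t))) = c' := by
    intro t ht
    rw [← hpt t ht, G_smul f hγ, hc, hc']
    ring
  have h1 : Tendsto (fun t : ℝ => G f (vert ((b : ℝ) / q) t)) (𝓝[>] 0)
      (𝓝 (bd (G f) (((b : ℚ) / (q : ℚ) : ℚ) : OnePoint ℚ))) := by
    have h2 := tendsto_vert (lim_G f) ((b : ℚ) / (q : ℚ))
    have h3 : (((b : ℚ) / (q : ℚ) : ℚ) : ℝ) = (b : ℝ) / q := by push_cast; rfl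
    rw [h3] at h2
    exact h2
  have h2 : Tendsto (fun t : ℝ => G g (vert (-(r : ℝ) / q) (1 / (N * q ^ 2 * t)))) (𝓝[>] 0)
      (𝓝 0) := by
    refine (prim_G g).lim.comp ((vert_tendsto _).comp ?_)
    have h4 : Tendsto (fun t : ℝ => ((N : ℝ) * q ^ 2)⁻¹ * t⁻¹) (𝓝[>] 0) atTop :=
      tendsto_inv_nhdsGT_zero.const_mul_atTop (by positivity)
    refine h4.congr fun t => ?_
    rw [_root_.one_div, mul_inv ((N : ℝ) * q ^ 2)]
  have h3 := h1.sub h2
  rw [sub_zero] at h3
  have h4 : Tendsto (fun t : ℝ => G f (vert ((b : ℝ) / q) t) -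
      G g (vert (-(r : ℝ) / q) (1 / (N * q ^ 2 * t)))) (𝓝[>] 0) (𝓝 c') := by
    refine tendsto_const_nhds.congr' ?_
    filter_upwards [self_mem_nhdsWithin] with t ht
    exact (hconst t ht).symm
  rw [tendsto_nhds_unique h3 h4, hconst y hy]

end Pool.Agent.MU0
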