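import Mathlib

/-!
# Clusters and separating primes, abstract part

`G` is a finite commutative group and `Rep a u v` is a relation between elements of `G` and pairs of
integers which behaves like `a = v / u`.
-/

set_option autoImplicit false

open Finset

namespace Pool.Agent.MU0

/-- `Rep a u v` behaves like `a = v / u`; a relation for `a = 1` with entries of size at most `B`
is trivial. -/
structure IsRepr {G : Type*} [CommGroup G] (Rep : G → ℤ → ℤ → Prop) (B : ℤ) : Prop where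
  one : Rep 1 1 1
  mul : ∀ {a b : G} {u v u' v' : ℤ}, Rep a u v → Rep b u' v' → Rep (a * b) (u * u') (v * v')
  inv : ∀ {a : G} {u v : ℤ}, Rep a u v → Rep a⁻¹ v u
  uniq : ∀ {u v : ℤ}, |u| ≤ B → |v| ≤ B → Rep 1 u v → u = v

/-- `a` has a representation with entries of size at most `Y` -/
def Small {G : Type*} (Rep : G → ℤ → ℤ → Prop) (Y : ℤ) (a : G) : Prop :=
  ∃ u v : ℤ, u ≠ 0 ∧ v ≠ 0 ∧ |u| ≤ Y ∧ |v| ≤ Y ∧ Rep a u v

/-- the data of the greedy choice -/
structure Chain {G : Type*} (Rep : G → ℤ → ℤ → Prop) (Y : ℤ) (k : ℕ)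
    (l : Fin k → ℕ) (g : Fin k → G) (u v : Fin k → ℤ) : Prop where
  prime : ∀ i, (l i).Prime
  une : ∀ i, u i ≠ 0
  vne : ∀ i, v i ≠ 0
  ule : ∀ i, |u i| ≤ Y
  vle : ∀ i, |v i| ≤ Y
  rep : ∀ i, Rep (g i) (u i) (v i)
  ne : ∀ i, padicValInt (l i) (u i) ≠ padicValInt (l i) (v i)
  eq : ∀ i j, j < i → padicValInt (l j) (u i) = padicValInt (l j) (v i)

variable {G : Type*} [CommGroup G] {Rep : G → ℤ → ℤ → Prop} {B : ℤ}

theorem IsRepr.pow (h : IsRepr Rep B) {a : G} {u v : ℤ} (ha : Rep a u v) (e : ℕ) :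
    Rep (a ^ e) (u ^ e) (v ^ e) := by
  induction e with
  | zero => simpa using h.one
  | succ e ih =>
    rw [pow_succ, pow_succ, pow_succ]
    exact h.mul ih ha

theorem IsRepr.prod (h : IsRepr Rep B) {ι : Type*} (s : Finset ι) {a : ι → G} {u v : ι → ℤ}
    (ha : ∀ i ∈ s, Rep (a i) (u i) (v i)) : Rep (∏ i ∈ s, a i) (∏ i ∈ s, u i) (∏ i ∈ s, v i) := by
  classical
  induction s using Finset.induction_on with
  | empty => simpa using h.one
  | insert i s hi ih =>
    rw [prod_insert hi, prod_insert hi, prod_insert hi]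
    exact h.mul (ha i (mem_insert_self _ _)) (ih fun j hj => ha j (mem_insert_of_mem hj))

theorem Small.mul (h : IsRepr Rep B) {Y Y' : ℤ} {a b : G} (ha : Small Rep Y a)
    (hb : Small Rep Y' b) : Small Rep (Y * Y') (a * b) := by
  obtain ⟨u, v, hu, hv, hu1, hv1, hr⟩ := ha
  obtain ⟨u', v', hu', hv', hu1', hv1', hr'⟩ := hb
  have hY : 0 ≤ Y := (abs_nonneg u).trans hu1
  refine ⟨u * u', v * v', mul_ne_zero hu hu', mul_ne_zero hv hv', ?_, ?_, h.mul hr hr'⟩
  · rw [abs_mul]
    exact mul_le_mul hu1 hu1' (abs_nonneg _) hY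
  · rw [abs_mul]
    exact mul_le_mul hv1 hv1' (abs_nonneg _) hY

theorem Small.inv (h : IsRepr Rep B) {Y : ℤ} {a : G} (ha : Small Rep Y a) : Small Rep Y a⁻¹ := by
  obtain ⟨u, v, hu, hv, hu1, hv1, hr⟩ := ha
  exact ⟨v, u, hv, hu, hv1, hu1, h.inv hr⟩

omit [CommGroup G] in
theorem Small.mono {Y Y' : ℤ} {a : G} (hY : Y ≤ Y') (ha : Small Rep Y a) : Small Rep Y' a := by
  obtain ⟨u, v, hu, hv, hu1, hv1, hr⟩ := ha
  exact ⟨u, v, hu, hv, hu1.trans hY, hv1.trans hY, hr⟩

theorem Small.one (h : IsRepr Rep B) {Y : ℤ} (hY : 1 ≤ Y) : Small Rep Y (1 : G) :=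
  ⟨1, 1, one_ne_zero, one_ne_zero, by simpa using hY, by simpa using hY, h.one⟩

/-- two representations of the same element are proportional -/
theorem IsRepr.cross (h : IsRepr Rep B) {Y Y' : ℤ} (hY : Y * Y' ≤ B) {a : G} {u v u' v' : ℤ}
    (hu : |u| ≤ Y) (hv : |v| ≤ Y) (hu' : |u'| ≤ Y') (hv' : |v'| ≤ Y') (hr : Rep a u v)
    (hr' : Rep a u' v') : u * v' = v * u' := by
  have h1 := h.mul hr (h.inv hr')
  rw [mul_inv_cancel] at h1
  have hY0 : 0 ≤ Y := (abs_nonneg u).trans hu
  refine h.uniq ?_ ?_ h1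
  · rw [abs_mul]
    exact (mul_le_mul hu hv' (abs_nonneg _) hY0).trans hY
  · rw [abs_mul]
    exact (mul_le_mul hv hu' (abs_nonneg _) hY0).trans hY

theorem abs_prod_le {k : ℕ} {Y : ℤ} (hY : 1 ≤ Y) {E : ℕ} {w : Fin k → ℤ} (hw : ∀ i, |w i| ≤ Y)
    (e : Fin k → ℕ) (he : ∀ i, e i ≤ E) : |∏ i, w i ^ e i| ≤ Y ^ (k * E) := by
  rw [abs_prod]
  calc ∏ i, |w i ^ e i| ≤ ∏ _i : Fin k, Y ^ E := by
        refine prod_le_prod (fun i _ => abs_nonneg _) fun i _ => ?_
        rw [abs_pow]
        exact (pow_le_pow_left₀ (abs_nonneg _) (hw i) _).trans (pow_le_pow_right₀ hY (he i))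
    _ = Y ^ (k * E) := by
        rw [prod_const, card_univ, Fintype.card_fin, ← pow_mul, mul_comm]

theorem padicValInt_prod {l : ℕ} (hl : l.Prime) {ι : Type*} (s : Finset ι) {w : ι → ℤ}
    (hw : ∀ i ∈ s, w i ≠ 0) : padicValInt l (∏ i ∈ s, w i) = ∑ i ∈ s, padicValInt l (w i) := by
  classical
  have : Fact l.Prime := ⟨hl⟩
  induction s using Finset.induction_on with
  | empty => simp
  | insert i s hi ih =>
    rw [prod_insert hi, sum_insert hi, padicValInt.mul (hw i (mem_insert_self _ _))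
      (prod_ne_zero_iff.mpr fun j hj => hw j (mem_insert_of_mem hj)),
      ih fun j hj => hw j (mem_insert_of_mem hj)]

theorem padicValInt_pow' {l : ℕ} (hl : l.Prime) {w : ℤ} (hw : w ≠ 0) (e : ℕ) :
    padicValInt l (w ^ e) = e * padicValInt l w := by
  have h := padicValInt_prod hl (range e) (w := fun _ => w) fun _ _ => hw
  rw [prod_const, card_range, sum_const, card_range, smul_eq_mul] at h
  exact h

/-- the products of powers of the elements of a chain are different -/
theorem Chain.inj (h : IsRepr Rep B) {Y : ℤ} (hY : 1 ≤ Y) {k E : ℕ} {l : Fin k → ℕ}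
    {g : Fin k → G} {u v : Fin k → ℤ} (c : Chain Rep Y k l g u v) (hB : Y ^ (2 * (k * E)) ≤ B) :
    Function.Injective fun e : Fin k → Fin (E + 1) => ∏ i, g i ^ (e i : ℕ) := by
  intro e e' he
  by_contra hne
  have hex : ∃ i, e i ≠ e' i := by
    by_contra hcon
    push Not at hcon
    exact hne (funext hcon)
  obtain ⟨j, hj, hmin⟩ := WellFounded.has_min (wellFounded_lt (α := Fin k))
    {i | e i ≠ e' i} hex
  have hbelow : ∀ i, i < j → e i = e' i := by
    intro i hi
    by_contra hcon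
    exact hmin i hcon hi
  -- the relation
  have hr1 : Rep (∏ i, g i ^ (e i : ℕ)) (∏ i, u i ^ (e i : ℕ)) (∏ i, v i ^ (e i : ℕ)) :=
    h.prod _ fun i _ => h.pow (c.rep i) _
  have hr2 : Rep (∏ i, g i ^ (e' i : ℕ)) (∏ i, u i ^ (e' i : ℕ)) (∏ i, v i ^ (e' i : ℕ)) :=
    h.prod _ fun i _ => h.pow (c.rep i) _
  have he2 : ∏ i, g i ^ (e i : ℕ) = ∏ i, g i ^ (e' i : ℕ) := he
  rw [← he2] at hr2
  have hle : ∀ (f : Fin k → Fin (E + 1)) (w : Fin k → ℤ), (∀ i, |w i| ≤ Y) →
      |∏ i, w i ^ (f i : ℕ)| ≤ Y ^ (k * E) :=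
    fun f w hw => abs_prod_le hY hw _ fun i => Nat.lt_succ_iff.mp (f i).2
  have hcross := h.cross (Y := Y ^ (k * E)) (Y' := Y ^ (k * E))
    (by rw [← pow_add, ← two_mul]; exact hB) (hle e u c.ule) (hle e v c.vle)
    (hle e' u c.ule) (hle e' v c.vle) hr1 hr2
  -- valuations
  have hlj := c.prime j
  have : Fact (l j).Prime := ⟨hlj⟩
  have hpu : ∀ (f : Fin k → Fin (E + 1)), ∏ i, u i ^ (f i : ℕ) ≠ 0 := fun f =>
    prod_ne_zero_iff.mpr fun i _ => pow_ne_zero _ (c.une i)
  have hpv : ∀ (f : Fin k → Fin (E + 1)), ∏ i, v i ^ (f i : ℕ) ≠ 0 := fun f =>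
    prod_ne_zero_iff.mpr fun i _ => pow_ne_zero _ (c.vne i)
  have hval := congrArg (padicValInt (l j)) hcross
  rw [padicValInt.mul (hpu e) (hpv e'), padicValInt.mul (hpv e) (hpu e'),
    padicValInt_prod hlj _ fun i _ => pow_ne_zero _ (c.une i),
    padicValInt_prod hlj _ fun i _ => pow_ne_zero _ (c.vne i),
    padicValInt_prod hlj _ fun i _ => pow_ne_zero _ (c.vne i),
    padicValInt_prod hlj _ fun i _ => pow_ne_zero _ (c.une i)] at hval
  simp only [padicValInt_pow' hlj (c.une _), padicValInt_pow' hlj (c.vne _)] at hval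
  have hval' : ∑ i, (((e i : ℕ) : ℤ) - (e' i : ℕ)) *
      ((padicValInt (l j) (u i) : ℤ) - padicValInt (l j) (v i)) = 0 := by
    have h2 : (∑ i, ((e i : ℕ) : ℤ) * padicValInt (l j) (u i)) +
        ∑ i, ((e' i : ℕ) : ℤ) * padicValInt (l j) (v i) =
        (∑ i, ((e i : ℕ) : ℤ) * padicValInt (l j) (v i)) +
        ∑ i, ((e' i : ℕ) : ℤ) * padicValInt (l j) (u i) := by
      exact_mod_cast hval
    rw [← sub_eq_zero] at h2
    rw [← h2, ← sum_add_distrib, ← sum_add_distrib, ← sum_sub_distrib]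
    refine sum_congr rfl fun i _ => ?_
    ring
  rw [sum_eq_single j] at hval'
  · rcases mul_eq_zero.mp hval' with h3 | h3
    · have h4 : (e j : ℕ) = (e' j : ℕ) := by omega
      exact hj (Fin.ext h4)
    · have h4 : padicValInt (l j) (u j) = padicValInt (l j) (v j) := by omega
      exact c.ne j h4
  · intro i _ hij
    rcases lt_or_gt_of_ne hij with h3 | h3
    · rw [hbelow i h3, sub_self, zero_mul]
    · rw [c.eq i j h3, sub_self, mul_zero]
  · intro h3
    exact absurd (mem_univ _) h3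

theorem Chain.card_le (h : IsRepr Rep B) [Fintype G] {Y : ℤ} (hY : 1 ≤ Y) {k E : ℕ}
    {l : Fin k → ℕ} {g : Fin k → G} {u v : Fin k → ℤ} (c : Chain Rep Y k l g u v)
    (hB : Y ^ (2 * (k * E)) ≤ B) : (E + 1) ^ k ≤ Fintype.card G := by
  have h1 := Fintype.card_le_of_injective _ (c.inj h hY hB)
  simpa using h1

/-- a prime at which two nonzero integers, not equal up to sign, have different valuations -/
theorem exists_prime_val_ne {u v : ℤ} (hu : u ≠ 0) (hv : v ≠ 0) (h1 : u ≠ v) (h2 : u ≠ -v) :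
    ∃ l : ℕ, l.Prime ∧ padicValInt l u ≠ padicValInt l v := by
  by_contra hcon
  push Not at hcon
  have h3 : u.natAbs = v.natAbs := by
    refine Nat.eq_of_factorization_eq (Int.natAbs_ne_zero.mpr hu) (Int.natAbs_ne_zero.mpr hv) ?_
    intro l
    by_cases hl : l.Prime
    · have := hcon l hl
      rw [padicValInt, padicValInt] at this
      rwa [Nat.factorization_def _ hl, Nat.factorization_def _ hl]
    · rw [Nat.factorization_eq_zero_of_not_prime _ hl, Nat.factorization_eq_zero_of_not_prime _ hl]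
  rcases Int.natAbs_eq_natAbs_iff.mp h3 with h4 | h4
  · exact h1 h4
  · exact h2 h4

/-- **Separating primes.** -/
theorem exists_sep (h : IsRepr Rep B) [Fintype G] {Y : ℤ} (hY : 1 ≤ Y) (D E : ℕ)
    (hD : Fintype.card G < (E + 1) ^ (D + 1)) (hB : Y ^ (2 * ((D + 1) * E)) ≤ B) :
    ∃ P : Finset ℕ, P.card ≤ D ∧ (∀ l ∈ P, l.Prime) ∧
      (∀ l ∈ P, ∃ (a : G) (u v : ℤ), u ≠ 0 ∧ v ≠ 0 ∧ |u| ≤ Y ∧ |v| ≤ Y ∧ Rep a u v ∧
        padicValInt l u ≠ padicValInt l v) ∧
      ∀ (a : G) (u v : ℤ), u ≠ 0 → v ≠ 0 → |u| ≤ Y → |v| ≤ Y → Rep a u v →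
        (∀ l ∈ P, padicValInt l u = padicValInt l v) → u = v ∨ u = -v := by
  classical
  -- the set of possible lengths
  have key : ∀ k : ℕ, (∃ (l : Fin k → ℕ) (g : Fin k → G) (u v : Fin k → ℤ),
      Chain Rep Y k l g u v) → k ≤ D := by
    rintro k ⟨l, g, u, v, c⟩
    by_contra hk
    rw [not_le] at hk
    -- restrict to the first D+1 elements
    have hle : D + 1 ≤ k := hk
    have c' : Chain Rep Y (D + 1) (fun i => l (Fin.castLE hle i)) (fun i => g (Fin.castLE hle i))
        (fun i => u (Fin.castLE hle i)) (fun i => v (Fin.castLE hle i)) :=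
      ⟨fun i => c.prime _, fun i => c.une _, fun i => c.vne _, fun i => c.ule _,
        fun i => c.vle _, fun i => c.rep _, fun i => c.ne _,
        fun i j hij => c.eq _ _ (by simpa using hij)⟩
    have h1 := c'.card_le h hY (E := E) hB
    omega
  have h0 : ∃ (l : Fin 0 → ℕ) (g : Fin 0 → G) (u v : Fin 0 → ℤ), Chain Rep Y 0 l g u v :=
    ⟨Fin.elim0, Fin.elim0, Fin.elim0, Fin.elim0, ⟨fun i => i.elim0, fun i => i.elim0,
      fun i => i.elim0, fun i => i.elim0, fun i => i.elim0, fun i => i.elim0, fun i => i.elim0,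
      fun i => i.elim0⟩⟩
  obtain ⟨k, ⟨l, g, u, v, c⟩, hmax⟩ : ∃ k : ℕ, (∃ (l : Fin k → ℕ) (g : Fin k → G)
      (u v : Fin k → ℤ), Chain Rep Y k l g u v) ∧
      ¬ ∃ (l : Fin (k + 1) → ℕ) (g : Fin (k + 1) → G) (u v : Fin (k + 1) → ℤ),
        Chain Rep Y (k + 1) l g u v := by
    by_contra hcon
    push Not at hcon
    have hall : ∀ k : ℕ, ∃ (l : Fin k → ℕ) (g : Fin k → G) (u v : Fin k → ℤ),
        Chain Rep Y k l g u v := by
      intro k
      induction k with
      | zero => exact h0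
      | succ k ih => exact hcon k ih
    have := key (D + 1) (hall (D + 1))
    omega
  have hkD := key k ⟨l, g, u, v, c⟩
  refine ⟨univ.image l, ?_, ?_, ?_, ?_⟩
  · exact (card_image_le).trans (by simpa using hkD)
  · intro x hx
    obtain ⟨i, -, rfl⟩ := mem_image.mp hx
    exact c.prime i
  · intro x hx
    obtain ⟨i, -, rfl⟩ := mem_image.mp hx
    exact ⟨g i, u i, v i, c.une i, c.vne i, c.ule i, c.vle i, c.rep i, c.ne i⟩
  · intro a w z hw hz hw1 hz1 hr hP
    by_contra hcon
    push Not at hcon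
    obtain ⟨q, hq, hqne⟩ := exists_prime_val_ne hw hz hcon.1 hcon.2
    refine hmax ⟨Fin.snoc (α := fun _ => ℕ) l q, Fin.snoc (α := fun _ => G) g a,
      Fin.snoc (α := fun _ => ℤ) u w, Fin.snoc (α := fun _ => ℤ) v z, ?_⟩
    constructor
    · intro i
      refine Fin.lastCases ?_ (fun i => ?_) i
      · simpa using hq
      · simpa using c.prime i
    · intro i
      refine Fin.lastCases ?_ (fun i => ?_) i
      · simpa using hw
      · simpa using c.une i
    · intro i
      refine Fin.lastCases ?_ (fun i => ?_) i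
      · simpa using hz
      · simpa using c.vne i
    · intro i
      refine Fin.lastCases ?_ (fun i => ?_) i
      · simpa using hw1
      · simpa using c.ule i
    · intro i
      refine Fin.lastCases ?_ (fun i => ?_) i
      · simpa using hz1
      · simpa using c.vle i
    · intro i
      refine Fin.lastCases ?_ (fun i => ?_) i
      · simpa using hr
      · simpa using c.rep i
    · intro i
      refine Fin.lastCases ?_ (fun i => ?_) i
      · simpa using hqne
      · simpa using c.ne i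
    · intro i
      refine Fin.lastCases ?_ (fun i => ?_) i
      · intro j
        refine Fin.lastCases ?_ (fun j => ?_) j
        · intro hj
          exact absurd hj (lt_irrefl _)
        · intro _
          simpa using hP (l j) (mem_image_of_mem _ (mem_univ _))
      · intro j
        refine Fin.lastCases ?_ (fun j => ?_) j
        · intro hj
          exact absurd hj (not_lt.mpr (Fin.le_last _))
        · intro hj
          simpa using c.eq i j (by simpa using hj)

/-- pigeonhole over the scales -/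
theorem exists_scale (a : ℕ → ℕ) (J M : ℕ) (hJ : 0 < J) (ha : ∀ j, 0 < a j) (hM : a J ≤ M) :
    ∃ j < J, a (j + 1) ^ J ≤ M * a j ^ J := by
  by_contra hcon
  push Not at hcon
  have h1 : ∀ k ≤ J, (∏ j ∈ range k, a (j + 1)) * a 0 = (∏ j ∈ range k, a j) * a k := by
    intro k hk
    induction k with
    | zero => simp
    | succ k ih =>
      rw [prod_range_succ, prod_range_succ]
      have := ih (by omega)
      calc (∏ j ∈ range k, a (j + 1)) * a (k + 1) * a 0
          = ((∏ j ∈ range k, a (j + 1)) * a 0) * a (k + 1) := by ring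
        _ = _ := by rw [this]
  have h2 := h1 J le_rfl
  have h3 : ∏ j ∈ range J, (M * a j ^ J) < ∏ j ∈ range J, a (j + 1) ^ J := by
    refine prod_lt_prod_of_nonempty (fun j hj => ?_) (fun j hj => hcon j (mem_range.mp hj)) ?_
    · have hMpos : 0 < M := lt_of_lt_of_le (ha J) hM
      have := ha j
      positivity
    · exact nonempty_range_iff.mpr hJ.ne'
  rw [prod_mul_distrib, prod_const, card_range, prod_pow, prod_pow] at h3
  have h4 : M ^ J * (∏ j ∈ range J, a j) ^ J < (∏ j ∈ range J, a (j + 1)) ^ J := h3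
  have h5 : (∏ j ∈ range J, a (j + 1)) ≤ (∏ j ∈ range J, a (j + 1)) * a 0 :=
    Nat.le_mul_of_pos_right _ (ha 0)
  rw [h2] at h5
  have h6 : (∏ j ∈ range J, a (j + 1)) ^ J ≤ ((∏ j ∈ range J, a j) * M) ^ J :=
    Nat.pow_le_pow_left (h5.trans (Nat.mul_le_mul_left _ hM)) _
  rw [mul_pow, mul_comm ((∏ j ∈ range J, a j) ^ J)] at h6
  omega

/-- packing -/
theorem exists_packing [Fintype G] (D : Finset G) (h1 : (1 : G) ∈ D)
    (hinv : ∀ a ∈ D, a⁻¹ ∈ D) :
    ∃ Z : Finset G, (∀ z ∈ Z, ∀ z' ∈ Z, z ≠ z' → z * z'⁻¹ ∉ D) ∧ Fintype.card G ≤ Z.card * D.card := by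
  classical
  obtain ⟨Z, hZ, hmax⟩ := Finset.exists_max_image
    ((univ : Finset (Finset G)).filter fun Z => ∀ z ∈ Z, ∀ z' ∈ Z, z ≠ z' → z * z'⁻¹ ∉ D)
    Finset.card ⟨∅, by simp⟩
  rw [mem_filter] at hZ
  refine ⟨Z, hZ.2, ?_⟩
  have hcov : (univ : Finset G) ⊆ (Z ×ˢ D).image fun x => x.2 * x.1 := by
    intro g _
    by_contra hg
    have hg' : ∀ z ∈ Z, g * z⁻¹ ∉ D := by
      intro z hz hd
      exact hg (mem_image.mpr ⟨(z, g * z⁻¹), mem_product.mpr ⟨hz, hd⟩, by simp⟩)
    have hgZ : g ∉ Z := by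
      intro hgZ
      refine hg' g hgZ ?_
      rw [mul_inv_cancel]
      exact h1
    have h3 := hmax (insert g Z) (by
      rw [mem_filter]
      refine ⟨mem_univ _, ?_⟩
      intro z hz z' hz' hne
      rcases mem_insert.mp hz with h4 | h4
      · rcases mem_insert.mp hz' with h5 | h5
        · exact absurd (h4.trans h5.symm) hne
        · rw [h4]
          exact hg' _ h5
      · rcases mem_insert.mp hz' with h5 | h5
        · intro hd
          refine hg' z h4 ?_
          have := hinv _ hd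
          rwa [mul_inv_rev, inv_inv, h5] at this
        · exact hZ.2 z h4 z' h5 hne)
    rw [card_insert_of_notMem hgZ] at h3
    omega
  calc Fintype.card G = (univ : Finset G).card := rfl
    _ ≤ ((Z ×ˢ D).image fun x => x.2 * x.1).card := card_le_card hcov
    _ ≤ (Z ×ˢ D).card := card_image_le
    _ = Z.card * D.card := card_product _ _

end Pool.Agent.MU0
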