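import Pool.Agent.E456.MertensAP

/-!
# The mean of `|a l| / √l` over the primes `l`, for coefficients which vanish on half of the primes
(CM curves)
-/

namespace Pool.Agent.MU0.ST

open Finset Pool.Agent.E456
open scoped ArithmeticFunction.vonMangoldt

/-! ### Primes in a residue class -/

private lemma class_part (q r n : ℕ) :
    (if n ≡ r [MOD q] then Λ n / (n : ℝ) else 0) =
      (if n.Prime ∧ n ≡ r [MOD q] then Real.log n / n else 0) +
        (if n ≡ r [MOD q] then (if n.Prime then 0 else Λ n) / (n : ℝ) else 0) := by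
  by_cases h : n ≡ r [MOD q]
  · by_cases hp : n.Prime
    · simp [h, hp, ArithmeticFunction.vonMangoldt_apply_prime hp]
    · simp [h, hp]
  · simp [h]

/-- partial sums of `log l / l` over primes `l ≡ r (q)` -/
private lemma class_log (q r : ℕ) (hq : 0 < q) (hr : Nat.Coprime r q) : ∃ C : ℝ, 0 < C ∧ ∀ N : ℕ,
    1 ≤ N → |∑ n ∈ Ioc 0 N, (if n.Prime ∧ n ≡ r [MOD q] then Real.log n / n else 0) -
      Real.log N / q.totient| ≤ C := by
  obtain ⟨C, hC, h⟩ := mertens_AP q r hq hr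
  have hcpp := cpp_nonneg
  refine ⟨C + cpp, by linarith, fun N hN => ?_⟩
  have h1 := h N hN
  rw [sum_filter] at h1
  simp only [class_part] at h1
  rw [sum_add_distrib] at h1
  have h2 : 0 ≤ ∑ n ∈ Ioc 0 N,
      (if n ≡ r [MOD q] then (if n.Prime then 0 else Λ n) / (n : ℝ) else 0) := by
    refine sum_nonneg fun n _ => ?_
    split_ifs
    · simp
    · exact div_nonneg ArithmeticFunction.vonMangoldt_nonneg (Nat.cast_nonneg n)
    · exact le_rfl
  have h3 : ∑ n ∈ Ioc 0 N,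
      (if n ≡ r [MOD q] then (if n.Prime then 0 else Λ n) / (n : ℝ) else 0) ≤ cpp := by
    refine le_trans (sum_le_sum fun n _ => ?_) (nonprime_sum_le (Ioc 0 N))
    by_cases hh : n ≡ r [MOD q]
    · rw [if_pos hh]
    · rw [if_neg hh]
      exact nonprime_nonneg n
  rw [abs_le] at h1 ⊢
  constructor <;> linarith [h1.1, h1.2]

/-- Mertens' second theorem in a residue class (upper and lower bound). -/
theorem class_inv (q r : ℕ) (hq : 0 < q) (hr : Nat.Coprime r q) : ∃ C : ℝ, 0 < C ∧ ∀ N : ℕ,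
    2 ≤ N → |∑ n ∈ (Ioc 0 N).filter (fun n => n.Prime ∧ n ≡ r [MOD q]), (1 : ℝ) / n -
      Real.log (Real.log N) / q.totient| ≤ C := by
  obtain ⟨C, hC, h⟩ := class_log q r hq hr
  have hφ : (0 : ℝ) < q.totient := by exact_mod_cast Nat.totient_pos.mpr hq
  have hl2 : 0 < Real.log 2 := Real.log_pos (by norm_num)
  -- the constant
  set C2 : ℝ := 2 * C * (1 / Real.log ((2 + 1 : ℕ) : ℝ)) with hC2
  set K : ℝ := |∑ n ∈ (Ioc 0 2).filter (fun n => n.Prime ∧ n ≡ r [MOD q]), (1 : ℝ) / n| +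
    |Real.log (Real.log 2) / q.totient| with hK
  have hl3 : 0 < Real.log ((2 + 1 : ℕ) : ℝ) := Real.log_pos (by norm_num)
  have hC2' : 0 ≤ C2 := by positivity
  refine ⟨C2 + K + 1 / Real.log 2 / q.totient + 1, by positivity, fun N hN => ?_⟩
  have h1 := abel_bound (E := ℝ)
    (fun n => (if n.Prime ∧ n ≡ r [MOD q] then Real.log n / n else 0) -
      (Real.log n - Real.log ((n : ℝ) - 1)) / q.totient)
    (fun n => 1 / Real.log n) 2 N (2 * C) hN
    (fun n hn => by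
      have : (2 : ℝ) ≤ n := by exact_mod_cast (by omega : 2 ≤ n)
      have := Real.log_nonneg (by linarith : (1 : ℝ) ≤ n)
      positivity)
    (fun n hn => by
      have h2 : (2 : ℝ) ≤ n := by exact_mod_cast (by omega : 2 ≤ n)
      have h3 := Real.log_pos (by linarith : (1 : ℝ) < n)
      apply one_div_le_one_div_of_le h3
      apply Real.log_le_log (by linarith)
      push_cast; linarith)
    (by
      intro t hMt _
      have h3 : ∑ n ∈ Ioc 2 t, (Real.log n - Real.log ((n : ℝ) - 1)) =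
          Real.log t - Real.log (2 : ℕ) := by
        induction t, hMt using Nat.le_induction with
        | base => simp
        | succ s hs ih =>
          have hins : Ioc 2 (s + 1) = insert (s + 1) (Ioc 2 s) := by
            ext x; simp only [mem_Ioc, mem_insert]; omega
          rw [hins, sum_insert (by simp), ih (by omega)]
          push_cast
          rw [add_sub_cancel_right]
          ring
      have h4 : Ioc 0 t = Ioc 0 2 ∪ Ioc 2 t := by
        rw [Ioc_union_Ioc_eq_Ioc (by omega) hMt]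
      have h5 : Disjoint (Ioc 0 2) (Ioc 2 t) := by
        rw [Finset.disjoint_left]; intro x hx hx'; simp only [mem_Ioc] at hx hx'; omega
      have h6 := h t (by omega)
      rw [h4, sum_union h5] at h6
      have h7 := h 2 (by omega)
      rw [sum_sub_distrib, ← sum_div, h3, Real.norm_eq_abs]
      rw [abs_le] at h6 h7 ⊢
      have e : (Real.log t - Real.log (2 : ℕ)) / (q.totient : ℝ) =
        Real.log t / q.totient - Real.log (2 : ℕ) / q.totient := by ring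
      rw [e]
      constructor <;> linarith [h6.1, h6.2, h7.1, h7.2])
  have h2 := loglog_compare 2 N le_rfl hN
  have e : ∑ n ∈ Ioc 2 N, (1 / Real.log n) • ((if n.Prime ∧ n ≡ r [MOD q] then Real.log n / n else 0)
      - (Real.log n - Real.log ((n : ℝ) - 1)) / q.totient)
      = ∑ p ∈ (Ioc 2 N).filter (fun n => n.Prime ∧ n ≡ r [MOD q]), (1 : ℝ) / p
        - (∑ n ∈ Ioc 2 N, (1 / Real.log n) * (Real.log n - Real.log ((n : ℝ) - 1))) / q.totient := by
    rw [sum_filter, sum_div, ← sum_sub_distrib]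
    refine sum_congr rfl fun n hn => ?_
    have h2 : (2 : ℝ) ≤ n := by
      have := (mem_Ioc.mp hn).1; exact_mod_cast (by omega : 2 ≤ n)
    have h3 := Real.log_pos (by linarith : (1 : ℝ) < n)
    simp only [smul_eq_mul]
    split_ifs
    · field_simp
    · ring
  rw [e, Real.norm_eq_abs] at h1
  have h4 : (Ioc 0 N).filter (fun n => n.Prime ∧ n ≡ r [MOD q]) =
      (Ioc 0 2).filter (fun n => n.Prime ∧ n ≡ r [MOD q]) ∪
        (Ioc 2 N).filter (fun n => n.Prime ∧ n ≡ r [MOD q]) := by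
    rw [← filter_union, Ioc_union_Ioc_eq_Ioc (by omega) hN]
  have h5 : Disjoint ((Ioc 0 2).filter (fun n => n.Prime ∧ n ≡ r [MOD q]))
      ((Ioc 2 N).filter (fun n => n.Prime ∧ n ≡ r [MOD q])) := by
    rw [Finset.disjoint_left]; intro x hx hx'; simp only [mem_filter, mem_Ioc] at hx hx'; omega
  rw [h4, sum_union h5]
  have h6 : |(∑ n ∈ Ioc 2 N, (1 / Real.log n) * (Real.log n - Real.log ((n : ℝ) - 1))) / q.totient -
      (Real.log (Real.log N) - Real.log (Real.log (2 : ℕ))) / q.totient| ≤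
        1 / Real.log 2 / q.totient := by
    rw [← sub_div, abs_div, abs_of_pos hφ]
    have hN2 : 0 ≤ 1 / Real.log N := by
      have : 0 ≤ Real.log N := Real.log_nonneg (by exact_mod_cast (by omega : 1 ≤ N))
      positivity
    refine div_le_div_of_nonneg_right (le_trans h2 ?_) hφ.le
    push_cast
    linarith
  have h7 := abs_le.1 (le_refl |∑ n ∈ (Ioc 0 2).filter (fun n => n.Prime ∧ n ≡ r [MOD q]),
    (1 : ℝ) / n|)
  have h8 := abs_le.1 (le_refl |Real.log (Real.log 2) / (q.totient : ℝ)|)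
  have e2 : (Real.log (Real.log N) - Real.log (Real.log (2 : ℕ))) / (q.totient : ℝ) =
      Real.log (Real.log N) / q.totient - Real.log (Real.log 2) / q.totient := by
    push_cast; ring
  rw [e2] at h6
  rw [abs_le] at h1 h6 ⊢
  constructor <;> linarith [h1.1, h1.2, h6.1, h6.2, h7.1, h7.2, h8.1, h8.2]

/-! ### The Rankin upper bound -/

/-- `(1+x)^(-s) ≥ 1 - s x` -/
private lemma bern_up {x s : ℝ} (hx : 0 ≤ x) (hs : 0 ≤ s) : 1 - s * x ≤ (1 + x) ^ (-s) := by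
  have h1 : (1 + x) ^ (-s) = Real.exp (-(s * Real.log (1 + x))) := by
    rw [Real.rpow_def_of_pos (by linarith)]
    congr 1; ring
  rw [h1]
  have h2 := Real.add_one_le_exp (-(s * Real.log (1 + x)))
  have h3 : Real.log (1 + x) ≤ x := by
    have := Real.log_le_sub_one_of_pos (x := 1 + x) (by linarith)
    linarith
  have h4 : s * Real.log (1 + x) ≤ s * x := mul_le_mul_of_nonneg_left h3 hs
  linarith

/-- partial summation -/
private lemma abel_up (b : ℕ → ℝ) (s : ℝ) (hs : 0 ≤ s) (hb : ∀ m, 0 ≤ b m) (M : ℕ) (hM : 1 ≤ M) :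
    ∑ m ∈ Ioc 0 M, b m * (m : ℝ) ^ (-s) ≤ (M : ℝ) ^ (-s) * ∑ m ∈ Ioc 0 M, b m +
      s * ∑ k ∈ Ioc 0 (M - 1), (k : ℝ) ^ (-s - 1) * ∑ m ∈ Ioc 0 k, b m := by
  induction M, hM using Nat.le_induction with
  | base => simp
  | succ M hM ih =>
    have hins : Ioc 0 (M + 1) = insert (M + 1) (Ioc 0 M) := by
      ext x; simp only [mem_Ioc, mem_insert]; omega
    have hins' : Ioc 0 (M + 1 - 1) = insert M (Ioc 0 (M - 1)) := by
      ext x; simp only [mem_Ioc, mem_insert]; omega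
    rw [hins, hins', sum_insert (by simp), sum_insert (by simp), sum_insert (by simp)]
    have hMp : (0 : ℝ) < M := by exact_mod_cast hM
    have hA : 0 ≤ ∑ m ∈ Ioc 0 M, b m := sum_nonneg fun m _ => hb m
    have h1 : (M : ℝ) ^ (-s) - s * (M : ℝ) ^ (-s - 1) ≤ ((M + 1 : ℕ) : ℝ) ^ (-s) := by
      have h2 := bern_up (x := 1 / (M : ℝ)) (s := s) (by positivity) hs
      have h3 : ((M + 1 : ℕ) : ℝ) = M * (1 + 1 / (M : ℝ)) := by
        push_cast; field_simp
      rw [h3, Real.mul_rpow hMp.le (by positivity)]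
      have h4 : (M : ℝ) ^ (-s - 1) = (M : ℝ) ^ (-s) * (1 / M) := by
        rw [Real.rpow_sub_one hMp.ne']
        ring
      rw [h4]
      have h5 : 0 ≤ (M : ℝ) ^ (-s) := Real.rpow_nonneg hMp.le _
      nlinarith [mul_le_mul_of_nonneg_left h2 h5]
    nlinarith [mul_le_mul_of_nonneg_right h1 hA]

private lemma zeta_up (t : ℝ) (ht : 0 < t) (K : ℕ) :
    ∑ k ∈ Ioc 0 K, (k : ℝ) ^ (-(1 + t)) ≤ 1 + 1 / t := by
  have key : ∀ K : ℕ, 1 ≤ K → ∑ k ∈ Ioc 0 K, (k : ℝ) ^ (-(1 + t)) ≤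
      1 + 1 / t - (K : ℝ) ^ (-t) / t := by
    intro K hK
    induction K, hK using Nat.le_induction with
    | base => simp
    | succ K hK ih =>
      have hins : Ioc 0 (K + 1) = insert (K + 1) (Ioc 0 K) := by
        ext x; simp only [mem_Ioc, mem_insert]; omega
      rw [hins, sum_insert (by simp)]
      have hKp : (0 : ℝ) < K := by exact_mod_cast hK
      have h3 : (0 : ℝ) < ((K + 1 : ℕ) : ℝ) := by positivity
      -- `(K+1)^(-t) * (1 + t/(K+1)) ≤ K^(-t)`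
      have h1 : ((K + 1 : ℕ) : ℝ) ^ (-t) + t * ((K + 1 : ℕ) : ℝ) ^ (-(1 + t)) ≤ (K : ℝ) ^ (-t) := by
        have e1 : ((K + 1 : ℕ) : ℝ) ^ (-(1 + t)) = ((K + 1 : ℕ) : ℝ) ^ (-t) / ((K + 1 : ℕ) : ℝ) := by
          rw [← Real.rpow_sub_one h3.ne']
          congr 1; ring
        have e2 : (K : ℝ) = ((K + 1 : ℕ) : ℝ) * (1 - 1 / ((K + 1 : ℕ) : ℝ)) := by
          push_cast
          field_simp
          ring
        have h4 : (0 : ℝ) < 1 - 1 / ((K + 1 : ℕ) : ℝ) := by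
          rw [sub_pos, div_lt_one h3]
          push_cast; linarith
        have h5 : 1 + t / ((K + 1 : ℕ) : ℝ) ≤ (1 - 1 / ((K + 1 : ℕ) : ℝ)) ^ (-t) := by
          rw [Real.rpow_def_of_pos h4]
          have h6 := Real.add_one_le_exp (Real.log (1 - 1 / ((K + 1 : ℕ) : ℝ)) * -t)
          have h7 := Real.log_le_sub_one_of_pos h4
          have h8 : t * (1 / ((K + 1 : ℕ) : ℝ)) ≤ Real.log (1 - 1 / ((K + 1 : ℕ) : ℝ)) * -t := by
            nlinarith
          have h9 : t / ((K + 1 : ℕ) : ℝ) = t * (1 / ((K + 1 : ℕ) : ℝ)) := by ring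
          linarith
        have h6 : (K : ℝ) ^ (-t) = ((K + 1 : ℕ) : ℝ) ^ (-t) * (1 - 1 / ((K + 1 : ℕ) : ℝ)) ^ (-t) := by
          rw [← Real.mul_rpow h3.le h4.le, ← e2]
        rw [h6, e1]
        have h7 : 0 ≤ ((K + 1 : ℕ) : ℝ) ^ (-t) := Real.rpow_nonneg h3.le _
        have h8 := mul_le_mul_of_nonneg_left h5 h7
        have h9 : ((K + 1 : ℕ) : ℝ) ^ (-t) * (1 + t / ((K + 1 : ℕ) : ℝ)) =
          ((K + 1 : ℕ) : ℝ) ^ (-t) + t * (((K + 1 : ℕ) : ℝ) ^ (-t) / ((K + 1 : ℕ) : ℝ)) := by ring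
        linarith
      have h2 : ((K + 1 : ℕ) : ℝ) ^ (-(1 + t)) ≤
          (K : ℝ) ^ (-t) / t - ((K + 1 : ℕ) : ℝ) ^ (-t) / t := by
        rw [← sub_div, le_div_iff₀ ht]
        linarith
      linarith
  rcases Nat.eq_zero_or_pos K with rfl | hK
  · simp
    positivity
  · have h1 := key K hK
    have h2 : 0 ≤ (K : ℝ) ^ (-t) / t := by positivity
    linarith

variable (a : ℕ → ℝ)

/-- `∑ a m ^ 2 m^(-2-t) ≤ C (1 + 1/t)` -/
private lemma series_up (C0 : ℝ) (hC0 : 0 ≤ C0)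
    (hpar : ∀ X : ℕ, ∑ m ∈ Ioc 0 X, a m ^ 2 ≤ C0 * (X : ℝ) ^ 2) (t : ℝ) (ht : 0 < t) (ht1 : t ≤ 1)
    (M : ℕ) (hM : 1 ≤ M) :
    ∑ m ∈ Ioc 0 M, a m ^ 2 * (m : ℝ) ^ (-(2 + t)) ≤ 4 * C0 * (1 + 1 / t) := by
  have h1 := abel_up (fun m => a m ^ 2) (2 + t) (by linarith) (fun m => sq_nonneg _) M hM
  refine le_trans h1 ?_
  have hMp : (0 : ℝ) < M := by exact_mod_cast hM
  have h2 : (M : ℝ) ^ (-(2 + t)) * ∑ m ∈ Ioc 0 M, a m ^ 2 ≤ C0 := by
    calc (M : ℝ) ^ (-(2 + t)) * ∑ m ∈ Ioc 0 M, a m ^ 2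
        ≤ (M : ℝ) ^ (-(2 + t)) * (C0 * (M : ℝ) ^ 2) :=
          mul_le_mul_of_nonneg_left (hpar M) (by positivity)
      _ = C0 * ((M : ℝ) ^ (-(2 + t)) * (M : ℝ) ^ (2 : ℝ)) := by
          rw [Real.rpow_two]; ring
      _ = C0 * (M : ℝ) ^ (-t) := by
          rw [← Real.rpow_add hMp]; congr 2; ring
      _ ≤ C0 * 1 := by
          refine mul_le_mul_of_nonneg_left ?_ hC0
          exact Real.rpow_le_one_of_one_le_of_nonpos (by exact_mod_cast hM) (by linarith)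
      _ = C0 := mul_one _
  have h3 : ∑ k ∈ Ioc 0 (M - 1), (k : ℝ) ^ (-(2 + t) - 1) * ∑ m ∈ Ioc 0 k, a m ^ 2 ≤
      C0 * (1 + 1 / t) := by
    calc ∑ k ∈ Ioc 0 (M - 1), (k : ℝ) ^ (-(2 + t) - 1) * ∑ m ∈ Ioc 0 k, a m ^ 2
        ≤ ∑ k ∈ Ioc 0 (M - 1), C0 * (k : ℝ) ^ (-(1 + t)) := by
          refine sum_le_sum fun k hk => ?_
          have hk0 : (0 : ℝ) < k := by exact_mod_cast (mem_Ioc.1 hk).1
          calc (k : ℝ) ^ (-(2 + t) - 1) * ∑ m ∈ Ioc 0 k, a m ^ 2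
              ≤ (k : ℝ) ^ (-(2 + t) - 1) * (C0 * (k : ℝ) ^ 2) :=
                mul_le_mul_of_nonneg_left (hpar k) (by positivity)
            _ = C0 * ((k : ℝ) ^ (-(2 + t) - 1) * (k : ℝ) ^ (2 : ℝ)) := by
                rw [Real.rpow_two]; ring
            _ = C0 * (k : ℝ) ^ (-(1 + t)) := by
                rw [← Real.rpow_add hk0]; congr 2; ring
      _ = C0 * ∑ k ∈ Ioc 0 (M - 1), (k : ℝ) ^ (-(1 + t)) := by rw [mul_sum]
      _ ≤ C0 * (1 + 1 / t) := mul_le_mul_of_nonneg_left (zeta_up t ht _) hC0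
  have h4 : 0 ≤ C0 * (1 + 1 / t) := by positivity
  have h5 : (2 + t) * ∑ k ∈ Ioc 0 (M - 1), (k : ℝ) ^ (-(2 + t) - 1) * ∑ m ∈ Ioc 0 k, a m ^ 2 ≤
      3 * (C0 * (1 + 1 / t)) := by
    calc _ ≤ (2 + t) * (C0 * (1 + 1 / t)) := mul_le_mul_of_nonneg_left h3 (by linarith)
      _ ≤ 3 * (C0 * (1 + 1 / t)) := mul_le_mul_of_nonneg_right (by linarith) h4
  have h6 : C0 ≤ C0 * (1 + 1 / t) := by
    have : 0 ≤ C0 * (1 / t) := by positivity
    linarith
  linarith

private lemma prod_coeff (hmul : ∀ l m, l.Prime → ¬ l ∣ m → a (l * m) = a l * a m) (h1 : a 1 = 1)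
    (s : Finset ℕ) (hs : ∀ l ∈ s, l.Prime) : a (∏ l ∈ s, l) = ∏ l ∈ s, a l := by
  induction s using Finset.induction_on with
  | empty => simp [h1]
  | insert l s hl ih =>
    rw [prod_insert hl, prod_insert hl, hmul l _ (hs l (mem_insert_self _ _)) ?_,
      ih fun q hq => hs q (mem_insert_of_mem hq)]
    intro hdvd
    obtain ⟨q, hq, hlq⟩ := ((hs l (mem_insert_self _ _)).prime.dvd_finsetProd_iff _).1 hdvd
    have := (Nat.prime_dvd_prime_iff_eq (hs l (mem_insert_self _ _))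
      (hs q (mem_insert_of_mem hq))).1 hlq
    exact hl (this ▸ hq)

/-- Euler product inequality. -/
private lemma euler_up (hmul : ∀ l m, l.Prime → ¬ l ∣ m → a (l * m) = a l * a m) (h1 : a 1 = 1)
    (s : ℝ) (P : Finset ℕ) (hP : ∀ l ∈ P, l.Prime) :
    ∏ l ∈ P, (1 + a l ^ 2 * (l : ℝ) ^ (-s)) ≤
      ∑ m ∈ Ioc 0 (∏ l ∈ P, l), a m ^ 2 * (m : ℝ) ^ (-s) := by
  rw [prod_one_add]
  have h2 : ∀ t ∈ P.powerset, ∏ l ∈ t, (a l ^ 2 * (l : ℝ) ^ (-s)) =
      a (∏ l ∈ t, l) ^ 2 * ((∏ l ∈ t, l : ℕ) : ℝ) ^ (-s) := by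
    intro t ht
    rw [prod_mul_distrib, prod_coeff a hmul h1 t fun l hl => hP l (mem_powerset.1 ht hl), prod_pow]
    congr 1
    push_cast
    rw [Real.finsetProd_rpow]
    intro l _
    positivity
  rw [sum_congr rfl h2]
  have hinj : Set.InjOn (fun t : Finset ℕ => ∏ l ∈ t, l) (P.powerset : Set (Finset ℕ)) := by
    intro t ht u hu htu
    have ht' : ∀ l ∈ t, l.Prime := fun l hl => hP l (mem_powerset.1 ht hl)
    have hu' : ∀ l ∈ u, l.Prime := fun l hl => hP l (mem_powerset.1 hu hl)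
    have e := congrArg Nat.primeFactors htu
    simp only at e
    rwa [Nat.primeFactors_prod ht', Nat.primeFactors_prod hu'] at e
  rw [← sum_image (f := fun m : ℕ => a m ^ 2 * (m : ℝ) ^ (-s)) hinj]
  refine sum_le_sum_of_subset_of_nonneg ?_ ?_
  · intro m hm
    obtain ⟨t, ht, rfl⟩ := mem_image.1 hm
    have ht' := mem_powerset.1 ht
    rw [mem_Ioc]
    constructor
    · exact Finset.prod_pos fun l hl => (hP l (ht' hl)).pos
    · refine Nat.le_of_dvd (Finset.prod_pos fun l hl => (hP l hl).pos) ?_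
      exact prod_dvd_prod_of_subset _ _ _ ht'
  · intro m _ _
    positivity

/-- The Rankin upper bound over primes. -/
theorem rankin_up (C0 : ℝ) (hpar : ∀ X : ℕ, ∑ m ∈ Ioc 0 X, a m ^ 2 ≤ C0 * (X : ℝ) ^ 2)
    (hmul : ∀ l m, l.Prime → ¬ l ∣ m → a (l * m) = a l * a m) (h1 : a 1 = 1)
    (hh : ∀ l, l.Prime → a l ^ 2 ≤ 4 * l) :
    ∃ C : ℝ, 0 < C ∧ ∀ N : ℕ, 3 ≤ N →
      ∑ l ∈ (Ioc 0 N).filter Nat.Prime, a l ^ 2 / l / l ≤ Real.log (Real.log N) + C := by
  have hC0 : 1 ≤ C0 := by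
    have := hpar 1
    simpa [h1] using this
  refine ⟨|Real.log (8 * C0)| + 16 + 28 + 1, by positivity, fun N hN => ?_⟩
  have hNr : (3 : ℝ) ≤ N := by exact_mod_cast hN
  have hlogN : 1 ≤ Real.log N := by
    have h3 : Real.exp 1 < 3 := by
      have := Real.exp_one_lt_d9
      linarith
    rw [Real.le_log_iff_exp_le (by linarith)]
    linarith
  set t : ℝ := 1 / Real.log N with ht
  have ht0 : 0 < t := by positivity
  have ht1 : t ≤ 1 := by
    rw [ht, div_le_one (by linarith)]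
    exact hlogN
  set P := (Ioc 0 N).filter Nat.Prime with hP
  have hPp : ∀ l ∈ P, l.Prime := fun l hl => (mem_filter.1 hl).2
  set g : ℕ → ℝ := fun l => a l ^ 2 * (l : ℝ) ^ (-(2 + t)) with hg
  have hg0 : ∀ l, 0 ≤ g l := fun l => by positivity
  have hprod : 1 ≤ ∏ l ∈ P, l := Finset.prod_pos fun l hl => (hPp l hl).pos
  have h2 := (euler_up a hmul h1 (2 + t) P hPp).trans
    (series_up a C0 (by linarith) hpar t ht0 ht1 _ hprod)
  have h3 : ∑ l ∈ P, Real.log (1 + g l) ≤ Real.log (8 * C0) + Real.log (Real.log N) := by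
    rw [← Real.log_prod fun l _ => by have := hg0 l; positivity]
    rw [← Real.log_mul (by positivity) (by positivity)]
    refine Real.log_le_log (Finset.prod_pos fun l _ => by have := hg0 l; positivity) ?_
    refine le_trans h2 ?_
    have h4 : 1 / t = Real.log N := by rw [ht, one_div_one_div]
    rw [h4]
    have h5 : 4 * C0 * (1 + Real.log N) ≤ 4 * C0 * (2 * Real.log N) :=
      mul_le_mul_of_nonneg_left (by linarith) (by linarith)
    linarith
  have h4 : ∀ l ∈ P, g l ≤ 4 * (1 / (l : ℝ)) := by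
    intro l hl
    have hl1 : (1 : ℝ) ≤ l := by exact_mod_cast (hPp l hl).one_lt.le
    have hl0 : (0 : ℝ) < l := by linarith
    calc g l ≤ 4 * l * (l : ℝ) ^ (-(2 + t)) :=
          mul_le_mul_of_nonneg_right (hh l (hPp l hl)) (by positivity)
      _ = 4 * ((l : ℝ) ^ (1 : ℝ) * (l : ℝ) ^ (-(2 + t))) := by rw [Real.rpow_one]; ring
      _ = 4 * (l : ℝ) ^ (-1 - t) := by rw [← Real.rpow_add hl0]; congr 2; ring
      _ ≤ 4 * (l : ℝ) ^ (-1 : ℝ) :=
          mul_le_mul_of_nonneg_left (Real.rpow_le_rpow_of_exponent_le hl1 (by linarith))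
            (by norm_num)
      _ = 4 * (1 / (l : ℝ)) := by rw [Real.rpow_neg_one, one_div]
  have hsq : ∑ l ∈ P, (1 / (l : ℝ)) ^ 2 ≤ 2 := by
    have h5 := zeta_up 1 one_pos N
    have h6 : ∑ l ∈ P, (1 / (l : ℝ)) ^ 2 ≤ ∑ k ∈ Ioc 0 N, (k : ℝ) ^ (-(1 + 1) : ℝ) := by
      have h7 : ∀ k : ℕ, (k : ℝ) ^ (-(1 + 1) : ℝ) = (1 / (k : ℝ)) ^ 2 := by
        intro k
        have : (-(1 + 1) : ℝ) = ((-2 : ℤ) : ℝ) := by norm_num
        rw [this, Real.rpow_intCast, zpow_neg, one_div, inv_pow]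
        norm_cast
      simp only [h7]
      exact sum_le_sum_of_subset_of_nonneg (filter_subset _ _) fun k _ _ => by positivity
    linarith
  have h5 : ∑ l ∈ P, g l ≤ ∑ l ∈ P, Real.log (1 + g l) + 16 := by
    have h6 : ∀ l ∈ P, g l ≤ Real.log (1 + g l) + 8 * (1 / (l : ℝ)) ^ 2 := by
      intro l hl
      have h7 := Real.le_log_one_add_of_nonneg (hg0 l)
      have h8 : g l - g l ^ 2 / 2 ≤ 2 * g l / (g l + 2) := by
        rw [le_div_iff₀ (by have := hg0 l; linarith)]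
        have := hg0 l
        nlinarith [pow_nonneg this 3]
      have h9 : g l ^ 2 ≤ (4 * (1 / (l : ℝ))) ^ 2 := pow_le_pow_left₀ (hg0 l) (h4 l hl) 2
      nlinarith
    calc ∑ l ∈ P, g l ≤ ∑ l ∈ P, (Real.log (1 + g l) + 8 * (1 / (l : ℝ)) ^ 2) := sum_le_sum h6
      _ = ∑ l ∈ P, Real.log (1 + g l) + 8 * ∑ l ∈ P, (1 / (l : ℝ)) ^ 2 := by
          rw [sum_add_distrib, mul_sum]
      _ ≤ ∑ l ∈ P, Real.log (1 + g l) + 16 := by linarith
  have h6 : ∑ l ∈ P, a l ^ 2 / l / l ≤ ∑ l ∈ P, g l + 28 := by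
    have h7 : ∀ l ∈ P, a l ^ 2 / l / l ≤ g l + 4 * t * (Real.log l / l) := by
      intro l hl
      have hl1 : (1 : ℝ) ≤ l := by exact_mod_cast (hPp l hl).one_lt.le
      have hl0 : (0 : ℝ) < l := by linarith
      have e1 : g l = a l ^ 2 / l / l * (l : ℝ) ^ (-t) := by
        have : (-(2 + t)) = -t - 1 - 1 := by ring
        simp only [hg]
        rw [this, Real.rpow_sub_one hl0.ne', Real.rpow_sub_one hl0.ne']
        ring
      have h8 : 1 - t * Real.log l ≤ (l : ℝ) ^ (-t) := by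
        rw [Real.rpow_def_of_pos hl0]
        have := Real.add_one_le_exp (Real.log l * -t)
        linarith
      have h9 : a l ^ 2 / l / l ≤ 4 / l := by
        rw [div_le_div_iff_of_pos_right hl0, div_le_iff₀ hl0]
        exact hh l (hPp l hl)
      have h10 : 0 ≤ a l ^ 2 / l / l := by positivity
      have h11 : 0 ≤ t * Real.log l := mul_nonneg ht0.le (Real.log_nonneg hl1)
      rw [e1]
      have h12 := mul_le_mul_of_nonneg_left h8 h10
      have h13 := mul_le_mul_of_nonneg_right h9 h11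
      have e2 : 4 / (l : ℝ) * (t * Real.log l) = 4 * t * (Real.log l / l) := by ring
      nlinarith
    have h8 : ∑ l ∈ P, Real.log l / l ≤ Real.log N + 6 := by
      refine le_trans ?_ (mertens1_upper N (by omega))
      have h9 : ∑ l ∈ P, Real.log l / l = ∑ l ∈ P, Λ l / (l : ℝ) :=
        sum_congr rfl fun l hl => by rw [ArithmeticFunction.vonMangoldt_apply_prime (hPp l hl)]
      rw [h9]
      exact sum_le_sum_of_subset_of_nonneg (filter_subset _ _) fun k _ _ =>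
        div_nonneg ArithmeticFunction.vonMangoldt_nonneg (Nat.cast_nonneg k)
    have h9 : 4 * t * (Real.log N + 6) ≤ 28 := by
      have e3 : t * Real.log N = 1 := by
        rw [ht]; field_simp
      nlinarith
    calc ∑ l ∈ P, a l ^ 2 / l / l ≤ ∑ l ∈ P, (g l + 4 * t * (Real.log l / l)) := sum_le_sum h7
      _ = ∑ l ∈ P, g l + 4 * t * ∑ l ∈ P, Real.log l / l := by rw [sum_add_distrib, mul_sum]
      _ ≤ ∑ l ∈ P, g l + 4 * t * (Real.log N + 6) := by
          have := mul_le_mul_of_nonneg_left h8 (by positivity : 0 ≤ 4 * t)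
          linarith
      _ ≤ ∑ l ∈ P, g l + 28 := by linarith
  have h7 := le_abs_self (Real.log (8 * C0))
  linarith

/-- Young's inequality `x^(3/2) ≤ (5/8) x^2 + 54/125`. -/
private lemma young (x : ℝ) (hx : 0 ≤ x) : x ^ (3 / 2 : ℝ) ≤ 5 / 8 * x ^ 2 + 54 / 125 := by
  set y := x ^ (1 / 2 : ℝ) with hy
  have hy0 : 0 ≤ y := Real.rpow_nonneg hx _
  have e1 : x = y ^ 2 := by
    rw [hy, ← Real.rpow_natCast, ← Real.rpow_mul hx]
    norm_num
  have e2 : x ^ (3 / 2 : ℝ) = y ^ 3 := by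
    rw [hy, ← Real.rpow_natCast, ← Real.rpow_mul hx]
    norm_num
  rw [e2, e1]
  have e3 : 5 / 8 * (y ^ 2) ^ 2 + 54 / 125 - y ^ 3 =
      (y - 6 / 5) ^ 2 * (5 / 8 * y ^ 2 + 1 / 2 * y + 3 / 10) := by ring
  have e4 : 0 ≤ (y - 6 / 5) ^ 2 * (5 / 8 * y ^ 2 + 1 / 2 * y + 3 / 10) := by positivity
  linarith

/-- If the coefficients vanish on half of the primes, the mean of `(|a l| / √l)^(3/2)` is less
than `1`. -/
theorem hst_of_half (C0 : ℝ) (hpar : ∀ X : ℕ, ∑ m ∈ Ioc 0 X, a m ^ 2 ≤ C0 * (X : ℝ) ^ 2)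
    (hmul : ∀ l m, l.Prime → ¬ l ∣ m → a (l * m) = a l * a m) (h1 : a 1 = 1)
    (hh : ∀ l, l.Prime → a l ^ 2 ≤ 4 * l)
    (hz : ∃ C : ℝ, ∀ N : ℕ, 3 ≤ N → 1 / 2 * Real.log (Real.log N) - C ≤
      ∑ l ∈ (Ioc 0 N).filter (fun l => l.Prime ∧ a l = 0), (1 : ℝ) / l) :
    ∃ C : ℝ, ∀ N : ℕ, 3 ≤ N → 3 / 20 * Real.log (Real.log N) - C ≤
      ∑ l ∈ (Ioc 0 N).filter Nat.Prime, (1 - (|a l| / Real.sqrt l) ^ (3 / 2 : ℝ)) / l := by
  obtain ⟨C1, hC1, hr⟩ := rankin_up a C0 hpar hmul h1 hh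
  obtain ⟨C2, hz⟩ := hz
  obtain ⟨C3, hC3, hm⟩ := mertens2
  refine ⟨C1 + |C2| + 2 * C3, fun N hN => ?_⟩
  have hNr : (3 : ℝ) ≤ N := by exact_mod_cast hN
  have hL : 0 ≤ Real.log (Real.log N) := by
    refine Real.log_nonneg ?_
    have h3 : Real.exp 1 < 3 := by
      have := Real.exp_one_lt_d9
      linarith
    rw [Real.le_log_iff_exp_le (by linarith)]
    linarith
  have h2 := hr N hN
  have h3 := hz N hN
  have h4 := abs_le.1 (hm N (by omega))
  have hsplit : ∑ l ∈ (Ioc 0 N).filter Nat.Prime, (1 : ℝ) / l =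
      ∑ l ∈ (Ioc 0 N).filter (fun l => l.Prime ∧ a l = 0), (1 : ℝ) / l +
        ∑ l ∈ (Ioc 0 N).filter (fun l => l.Prime ∧ a l ≠ 0), (1 : ℝ) / l := by
    rw [← sum_filter_add_sum_filter_not ((Ioc 0 N).filter Nat.Prime) (fun l => a l = 0),
      filter_filter, filter_filter]
  have h5 : ∑ l ∈ (Ioc 0 N).filter Nat.Prime, (|a l| / Real.sqrt l) ^ (3 / 2 : ℝ) / l ≤
      5 / 8 * ∑ l ∈ (Ioc 0 N).filter Nat.Prime, a l ^ 2 / l / l +
        54 / 125 * ∑ l ∈ (Ioc 0 N).filter (fun l => l.Prime ∧ a l ≠ 0), (1 : ℝ) / l := by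
    have h6 : ∑ l ∈ (Ioc 0 N).filter (fun l => l.Prime ∧ a l ≠ 0), (1 : ℝ) / l =
        ∑ l ∈ (Ioc 0 N).filter Nat.Prime, (if a l ≠ 0 then (1 : ℝ) / l else 0) := by
      rw [← sum_filter, filter_filter]
    rw [h6, mul_sum, mul_sum, ← sum_add_distrib]
    refine sum_le_sum fun l hl => ?_
    have hl0 : (0 : ℝ) < l := by exact_mod_cast (mem_filter.1 hl).2.pos
    by_cases hz : a l = 0
    · rw [hz, if_neg (by simp), abs_zero, zero_div, Real.zero_rpow (by norm_num)]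
      simp
    · rw [if_pos hz]
      have h7 := young (|a l| / Real.sqrt l) (by positivity)
      have e1 : (|a l| / Real.sqrt l) ^ 2 = a l ^ 2 / l := by
        rw [div_pow, sq_abs, Real.sq_sqrt hl0.le]
      rw [e1] at h7
      calc (|a l| / Real.sqrt l) ^ (3 / 2 : ℝ) / l ≤ (5 / 8 * (a l ^ 2 / l) + 54 / 125) / l :=
            div_le_div_of_nonneg_right h7 hl0.le
        _ = 5 / 8 * (a l ^ 2 / l / l) + 54 / 125 * (1 / l) := by ring
  have e2 : ∑ l ∈ (Ioc 0 N).filter Nat.Prime, (1 - (|a l| / Real.sqrt l) ^ (3 / 2 : ℝ)) / l =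
      ∑ l ∈ (Ioc 0 N).filter Nat.Prime, (1 : ℝ) / l -
        ∑ l ∈ (Ioc 0 N).filter Nat.Prime, (|a l| / Real.sqrt l) ^ (3 / 2 : ℝ) / l := by
    rw [← sum_sub_distrib]
    exact sum_congr rfl fun l _ => by ring
  rw [e2]
  have h8 := le_abs_self C2
  have h9 : S1 N = ∑ l ∈ (Ioc 0 N).filter Nat.Prime, (1 : ℝ) / l := rfl
  rw [h9] at h4
  have h10 := abs_nonneg C2
  nlinarith [h4.1, h4.2]

/-- The same with the vanishing at the primes `l ≡ r (q)`, `φ(q) = 2`, with finitely many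
exceptions. -/
theorem hst_class (C0 : ℝ) (hpar : ∀ X : ℕ, ∑ m ∈ Ioc 0 X, a m ^ 2 ≤ C0 * (X : ℝ) ^ 2)
    (hmul : ∀ l m, l.Prime → ¬ l ∣ m → a (l * m) = a l * a m) (h1 : a 1 = 1)
    (hh : ∀ l, l.Prime → a l ^ 2 ≤ 4 * l) (q r M : ℕ) (hq : q.totient = 2)
    (hr : Nat.Coprime r q) (hM : M ≠ 0)
    (h0 : ∀ l, l.Prime → l ≡ r [MOD q] → ¬ l ∣ M → a l = 0) :
    ∃ C : ℝ, ∀ N : ℕ, 3 ≤ N → 3 / 20 * Real.log (Real.log N) - C ≤
      ∑ l ∈ (Ioc 0 N).filter Nat.Prime, (1 - (|a l| / Real.sqrt l) ^ (3 / 2 : ℝ)) / l := by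
  have hq0 : 0 < q := by
    rcases Nat.eq_zero_or_pos q with rfl | h
    · simp at hq
    · exact h
  obtain ⟨C, hC, h⟩ := class_inv q r hq0 hr
  refine hst_of_half a C0 hpar hmul h1 hh ⟨C + ∑ l ∈ M.primeFactors, (1 : ℝ) / l, fun N hN => ?_⟩
  have h2 := (abs_le.1 (h N (by omega))).1
  rw [hq] at h2
  have h3 : ∑ l ∈ (Ioc 0 N).filter (fun l => l.Prime ∧ l ≡ r [MOD q]), (1 : ℝ) / l ≤
      ∑ l ∈ (Ioc 0 N).filter (fun l => l.Prime ∧ a l = 0), (1 : ℝ) / l +
        ∑ l ∈ M.primeFactors, (1 : ℝ) / l := by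
    have h4 : (Ioc 0 N).filter (fun l => l.Prime ∧ l ≡ r [MOD q]) ⊆
        (Ioc 0 N).filter (fun l => l.Prime ∧ a l = 0) ∪ M.primeFactors := by
      intro l hl
      rw [mem_filter] at hl
      rw [mem_union, mem_filter]
      by_cases hd : l ∣ M
      · exact Or.inr (Nat.mem_primeFactors.2 ⟨hl.2.1, hd, hM⟩)
      · exact Or.inl ⟨hl.1, hl.2.1, h0 l hl.2.1 hl.2.2 hd⟩
    refine le_trans (sum_le_sum_of_subset_of_nonneg h4 fun l _ _ => by positivity) ?_
    have h5 := Finset.sum_union_inter (s₁ := (Ioc 0 N).filter (fun l => l.Prime ∧ a l = 0))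
      (s₂ := M.primeFactors) (f := fun l : ℕ => (1 : ℝ) / l)
    have h6 : 0 ≤ ∑ l ∈ (Ioc 0 N).filter (fun l => l.Prime ∧ a l = 0) ∩ M.primeFactors,
      (1 : ℝ) / l := sum_nonneg fun l _ => by positivity
    linarith
  push_cast at h2
  linarith

end Pool.Agent.MU0.ST
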