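import Mathlib

/-!
# Chebyshev: the number of primes in `(Q, 4Q]`
-/

set_option autoImplicit false

open Finset Filter
open scoped Real

namespace Pool.Agent.MU0

private lemma cheb_theta_diff (Q : ℕ) :
    Chebyshev.theta ((4 * Q : ℕ) : ℝ) - Chebyshev.theta (Q : ℝ) ≤
      (((Ioc Q (4 * Q)).filter Nat.Prime).card : ℝ) * Real.log ((4 * Q : ℕ) : ℝ) := by
  have h1 : Chebyshev.theta ((4 * Q : ℕ) : ℝ) - Chebyshev.theta (Q : ℝ) =
      ∑ p ∈ (Ioc Q (4 * Q)).filter Nat.Prime, Real.log (p : ℝ) := by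
    rw [Chebyshev.theta, Chebyshev.theta, Nat.floor_natCast, Nat.floor_natCast]
    rw [sub_eq_iff_eq_add]
    rw [← Finset.sum_union]
    · apply Finset.sum_congr _ (fun _ _ => rfl)
      ext p
      simp only [mem_filter, mem_Ioc, mem_union]
      constructor
      · rintro ⟨⟨h0, h1⟩, hp⟩
        by_cases h : p ≤ Q
        · right; exact ⟨⟨h0, h⟩, hp⟩
        · left; exact ⟨⟨by omega, h1⟩, hp⟩
      · rintro (⟨⟨h0, h1⟩, hp⟩ | ⟨⟨h0, h1⟩, hp⟩)
        · exact ⟨⟨by omega, h1⟩, hp⟩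
        · exact ⟨⟨h0, by omega⟩, hp⟩
    · rw [Finset.disjoint_left]
      intro p hp hq
      simp only [mem_filter, mem_Ioc] at hp hq
      omega
  rw [h1]
  rw [← nsmul_eq_mul]
  apply Finset.sum_le_card_nsmul
  intro p hp
  simp only [mem_filter, mem_Ioc] at hp
  apply Real.log_le_log
  · exact_mod_cast hp.2.pos
  · exact_mod_cast hp.1.2

/-- The number of primes in `(Q, 4Q]` is at least `Q / (2 log Q)`. -/
theorem cheb_count : ∃ Q₀ : ℕ, 2 ≤ Q₀ ∧ ∀ Q : ℕ, Q₀ ≤ Q →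
    (Q : ℝ) / Real.log Q / 2 ≤ (((Ioc Q (4 * Q)).filter Nat.Prime).card : ℝ) := by
  have hl : ∀ᶠ x : ℝ in atTop, 64 * Real.log x ≤ √x := by
    have := isLittleO_log_rpow_atTop (r := 1 / 2) (by norm_num)
    have h2 := this.bound (show (0 : ℝ) < 1 / 64 by norm_num)
    filter_upwards [h2, eventually_ge_atTop 1] with x hx h1
    rw [Real.norm_eq_abs, Real.norm_eq_abs, abs_of_nonneg (Real.log_nonneg h1),
      abs_of_nonneg (by positivity), ← Real.sqrt_eq_rpow] at hx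
    linarith
  obtain ⟨x₀, hx₀⟩ := eventually_atTop.1 hl
  refine ⟨⌈x₀⌉₊ + 5, by omega, fun Q hQ => ?_⟩
  have hQ5 : (5 : ℝ) ≤ Q := by exact_mod_cast (show 5 ≤ Q by omega)
  have hQx : x₀ ≤ (Q : ℝ) := (Nat.le_ceil x₀).trans (by exact_mod_cast (show ⌈x₀⌉₊ ≤ Q by omega))
  have h64 := hx₀ (Q : ℝ) hQx
  have hlog : 1 < Real.log Q := by
    rw [Real.lt_log_iff_exp_lt (by linarith)]
    linarith [Real.exp_one_lt_d9]
  have hs : √(Q : ℝ) * √(Q : ℝ) = Q := Real.mul_self_sqrt (by linarith)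
  have hs1 : (1 : ℝ) ≤ √(Q : ℝ) := by
    rw [Real.one_le_sqrt]; linarith
  have hlow := Chebyshev.theta_ge (4 * Q)
  have hup := Chebyshev.theta_le_log4_mul_x (x := (Q : ℝ)) (by linarith)
  have hd := cheb_theta_diff Q
  have h4 : Real.log 4 = 2 * Real.log 2 := by
    rw [show (4 : ℝ) = 2 ^ 2 by norm_num, Real.log_pow]; norm_num
  have hT : Real.log ((4 * Q : ℕ) : ℝ) ≤ 2 * Real.log Q := by
    rw [← Real.log_rpow (by linarith)]
    apply Real.log_le_log (by push_cast; linarith)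
    push_cast
    rw [Real.rpow_two]
    nlinarith
  have hT1 : Real.log (((4 * Q : ℕ) : ℝ) + 1) ≤ 2 * Real.log Q := by
    rw [← Real.log_rpow (by linarith)]
    apply Real.log_le_log (by positivity)
    push_cast
    rw [Real.rpow_two]
    nlinarith
  have hsq : √((4 * Q : ℕ) : ℝ) = 2 * √(Q : ℝ) := by
    push_cast
    rw [Real.sqrt_mul (by norm_num), show (4 : ℝ) = 2 ^ 2 by norm_num,
      Real.sqrt_sq (by norm_num)]
  rw [hsq] at hlow
  have h2l := Real.log_two_gt_d9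
  set c : ℝ := (((Ioc Q (4 * Q)).filter Nat.Prime).card : ℝ) with hc
  have hc0 : 0 ≤ c := by positivity
  have hcT : c * Real.log ((4 * Q : ℕ) : ℝ) ≤ c * (2 * Real.log Q) :=
    mul_le_mul_of_nonneg_left hT hc0
  have hcast : ((4 * Q : ℕ) : ℝ) = 4 * (Q : ℝ) := by push_cast; ring
  have hsT : 2 * (2 * √(Q : ℝ)) * Real.log ((4 * Q : ℕ) : ℝ) ≤ Q / 8 := by
    have : 2 * (2 * √(Q : ℝ)) * Real.log ((4 * Q : ℕ) : ℝ) ≤
        2 * (2 * √(Q : ℝ)) * (2 * Real.log Q) :=
      mul_le_mul_of_nonneg_left hT (by positivity)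
    nlinarith
  have hl2 : 2 * Real.log Q ≤ Q / 8 := by nlinarith
  have hmain : (Q : ℝ) ≤ c * (2 * Real.log Q) := by
    have e1 : ((4 * Q : ℕ) : ℝ) * Real.log 2 = 4 * (Q * Real.log 2) := by rw [hcast]; ring
    rw [e1] at hlow
    rw [h4] at hup
    have e2 : (0.693 : ℝ) * Q ≤ Q * Real.log 2 := by nlinarith
    nlinarith
  rw [div_div, div_le_iff₀ (by positivity)]
  linarith

/-- The same, for the primes which do not divide `M`. -/
theorem cheb_count' : ∃ Q₀ : ℕ, 2 ≤ Q₀ ∧ ∀ Q : ℕ, Q₀ ≤ Q → ∀ M : ℕ, 1 ≤ M →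
    (Q : ℝ) / Real.log Q / 2 - Real.log M / Real.log Q ≤
      (((Ioc Q (4 * Q)).filter fun r => r.Prime ∧ ¬ r ∣ M).card : ℝ) := by
  obtain ⟨Q₀, h2, hQ₀⟩ := cheb_count
  refine ⟨Q₀, h2, fun Q hQ M hM => ?_⟩
  have h1 := hQ₀ Q hQ
  have hQ2 : 2 ≤ Q := h2.trans hQ
  have hlog : 0 < Real.log Q := Real.log_pos (by exact_mod_cast hQ2)
  set S := (Ioc Q (4 * Q)).filter Nat.Prime with hS
  have hsplit : S.card = (S.filter fun r => ¬ r ∣ M).card + (S.filter fun r => r ∣ M).card := by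
    rw [add_comm]
    exact (Finset.card_filter_add_card_filter_not (s := S) (fun r => r ∣ M)).symm
  have he : (S.filter fun r => ¬ r ∣ M) =
      (Ioc Q (4 * Q)).filter fun r => r.Prime ∧ ¬ r ∣ M := by
    rw [hS, Finset.filter_filter]
  have hdvd : ∏ r ∈ S.filter (fun r => r ∣ M), r ∣ M := by
    apply Finset.prod_primes_dvd
    · intro r hr
      simp only [hS, mem_filter] at hr
      exact hr.1.2.prime
    · intro r hr
      simp only [mem_filter] at hr
      exact hr.2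
  have hle : Q ^ (S.filter fun r => r ∣ M).card ≤ M := by
    refine le_trans ?_ (Nat.le_of_dvd (by omega) hdvd)
    apply Finset.pow_card_le_prod
    intro r hr
    simp only [hS, mem_filter, mem_Ioc] at hr
    omega
  have hb : ((S.filter fun r => r ∣ M).card : ℝ) * Real.log Q ≤ Real.log M := by
    rw [← Real.log_pow]
    apply Real.log_le_log
    · have : 0 < Q := by omega
      positivity
    · exact_mod_cast hle
  have hb' : ((S.filter fun r => r ∣ M).card : ℝ) ≤ Real.log M / Real.log Q := by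
    rw [le_div_iff₀ hlog]; exact hb
  rw [← he]
  have : (S.card : ℝ) = ((S.filter fun r => ¬ r ∣ M).card : ℝ) +
      ((S.filter fun r => r ∣ M).card : ℝ) := by exact_mod_cast hsplit
  linarith

end Pool.Agent.MU0
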