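import Mathlib

/-!
# Jutila's approximation of the integral over the circle by short arcs around fractions
-/

set_option autoImplicit false

open Finset MeasureTheory
open scoped Real

namespace Pool.Agent.MU0

private theorem jut_overlap {α β δ : ℝ} (hα : δ ≤ α ∧ α ≤ 1 - δ) :
    ∫ x in Set.Icc (0 : ℝ) 1, (Set.Icc (α - δ) (α + δ)).indicator (fun _ => (1 : ℝ)) x *
      (Set.Icc (β - δ) (β + δ)).indicator (fun _ => (1 : ℝ)) x = max (2 * δ - |α - β|) 0 := by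
  have h1 : ∀ x : ℝ, (Set.Icc (α - δ) (α + δ)).indicator (fun _ => (1 : ℝ)) x *
      (Set.Icc (β - δ) (β + δ)).indicator (fun _ => (1 : ℝ)) x =
      (Set.Icc (α - δ) (α + δ) ∩ Set.Icc (β - δ) (β + δ)).indicator (fun _ => (1 : ℝ)) x := by
    intro x
    by_cases h1 : x ∈ Set.Icc (α - δ) (α + δ) <;> by_cases h2 : x ∈ Set.Icc (β - δ) (β + δ) <;>
      simp [h1, h2]
  simp only [h1]
  rw [integral_indicator (measurableSet_Icc.inter measurableSet_Icc), integral_const]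
  rw [measureReal_restrict_apply_univ, smul_eq_mul, mul_one]
  rw [measureReal_restrict_apply (measurableSet_Icc.inter measurableSet_Icc)]
  have h2 : Set.Icc (α - δ) (α + δ) ∩ Set.Icc (β - δ) (β + δ) ∩ Set.Icc (0 : ℝ) 1 =
      Set.Icc (max (α - δ) (β - δ)) (min (α + δ) (β + δ)) := by
    ext x
    simp only [Set.mem_inter_iff, Set.mem_Icc, max_le_iff, le_min_iff]
    constructor
    · rintro ⟨⟨⟨h1, h2⟩, ⟨h3, h4⟩⟩, -⟩
      exact ⟨⟨h1, h3⟩, h2, h4⟩
    · rintro ⟨⟨h1, h3⟩, h2, h4⟩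
      exact ⟨⟨⟨h1, h2⟩, ⟨h3, h4⟩⟩, by linarith, by linarith⟩
  rw [h2, Real.volume_real_Icc]
  congr 1
  rw [max_def, min_def]
  rcases le_total α β with h | h
  · rw [abs_of_nonpos (by linarith)]
    split_ifs <;> linarith
  · rw [abs_of_nonneg (by linarith)]
    split_ifs <;> linarith

private theorem jut_single {α δ : ℝ} (hα : δ ≤ α ∧ α ≤ 1 - δ) (hδ : 0 < δ) :
    ∫ x in Set.Icc (0 : ℝ) 1, (Set.Icc (α - δ) (α + δ)).indicator (fun _ => (1 : ℝ)) x =
      2 * δ := by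
  have h1 := jut_overlap (α := α) (β := α) hα
  rw [sub_self, abs_zero, sub_zero, max_eq_left (by linarith)] at h1
  rw [← h1]
  congr 1
  ext x
  by_cases h : x ∈ Set.Icc (α - δ) (α + δ) <;> simp [h]

/-- **Arcs around points.** -/
theorem jut_abs {ι : Type*} (T : Finset ι) (hT : T.Nonempty) (α : ι → ℝ) {δ : ℝ} (hδ : 0 < δ)
    (hα : ∀ t ∈ T, δ ≤ α t ∧ α t ≤ 1 - δ) (H : ℝ → ℂ) (hH : Continuous H) {B : ℝ}
    (hB : ∀ x, ‖H x‖ ≤ B) {E : ℝ}
    (hE : ∑ t ∈ T, ∑ s ∈ T, max (2 * δ - |α t - α s|) 0 ≤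
      4 * δ ^ 2 * (T.card : ℝ) ^ 2 * (1 + E)) :
    ‖(∫ x in (0 : ℝ)..1, H x) -
      (1 / (T.card : ℂ)) * ∑ t ∈ T, (1 / (2 * (δ : ℂ))) * ∫ u in (-δ)..δ, H (α t + u)‖ ≤
      B * √E := by
  have hB0 : 0 ≤ B := (norm_nonneg _).trans (hB 0)
  have hΛ : (0 : ℝ) < T.card := by exact_mod_cast hT.card_pos
  set κ : ℝ := 1 / (2 * δ * T.card) with hκ
  have hκ0 : 0 < κ := by positivity
  set χ : ι → ℝ → ℝ := fun t => (Set.Icc (α t - δ) (α t + δ)).indicator (fun _ => (1 : ℝ)) with hχ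
  have hχi : ∀ t, IntegrableOn (χ t) (Set.Icc (0 : ℝ) 1) := by
    intro t
    exact (integrable_const (1 : ℝ)).indicator measurableSet_Icc
  have hχχi : ∀ t s, IntegrableOn (fun x => χ t x * χ s x) (Set.Icc (0 : ℝ) 1) := by
    intro t s
    have h1 : (fun x => χ t x * χ s x) =
        (Set.Icc (α t - δ) (α t + δ)).indicator (χ s) := by
      ext x
      simp only [hχ]
      by_cases h1 : x ∈ Set.Icc (α t - δ) (α t + δ) <;> simp [h1]
    rw [h1]
    exact (hχi s).indicator measurableSet_Icc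
  set J : ℝ → ℝ := fun x => κ * ∑ t ∈ T, χ t x with hJ
  have hJi : IntegrableOn J (Set.Icc (0 : ℝ) 1) := by
    exact (integrable_finsetSum T (fun t _ => hχi t)).const_mul κ
  have hJ2 : ∀ x, J x ^ 2 = κ ^ 2 * ∑ t ∈ T, ∑ s ∈ T, χ t x * χ s x := by
    intro x
    rw [hJ]
    simp only
    rw [mul_pow, sq (∑ t ∈ T, χ t x), Finset.sum_mul_sum]
  have hJ2i : IntegrableOn (fun x => J x ^ 2) (Set.Icc (0 : ℝ) 1) := by
    simp only [hJ2]
    exact (integrable_finsetSum T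
      (fun t _ => integrable_finsetSum T (fun s _ => hχχi t s))).const_mul _
  have h1 : ∫ x in Set.Icc (0 : ℝ) 1, J x = 1 := by
    rw [hJ]
    simp only
    rw [integral_const_mul, integral_finsetSum T (fun t _ => hχi t)]
    rw [Finset.sum_congr rfl (fun t ht => jut_single (hα t ht) hδ)]
    rw [Finset.sum_const, nsmul_eq_mul, hκ]
    field_simp
  have h2 : ∫ x in Set.Icc (0 : ℝ) 1, J x ^ 2 ≤ 1 + E := by
    simp only [hJ2]
    rw [integral_const_mul, integral_finsetSum T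
      (fun t _ => integrable_finsetSum T (fun s _ => hχχi t s))]
    have h3 : ∑ t ∈ T, ∫ x in Set.Icc (0 : ℝ) 1, ∑ s ∈ T, χ t x * χ s x =
        ∑ t ∈ T, ∑ s ∈ T, max (2 * δ - |α t - α s|) 0 := by
      refine Finset.sum_congr rfl fun t ht => ?_
      rw [integral_finsetSum T (fun s _ => hχχi t s)]
      exact Finset.sum_congr rfl fun s _ => jut_overlap (hα t ht)
    rw [h3]
    calc κ ^ 2 * ∑ t ∈ T, ∑ s ∈ T, max (2 * δ - |α t - α s|) 0
        ≤ κ ^ 2 * (4 * δ ^ 2 * (T.card : ℝ) ^ 2 * (1 + E)) :=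
          mul_le_mul_of_nonneg_left hE (sq_nonneg _)
      _ = 1 + E := by
          rw [hκ]
          field_simp
          ring
  have hone : ∫ x in Set.Icc (0 : ℝ) 1, (1 : ℝ) = 1 := by
    rw [integral_const, smul_eq_mul, mul_one, measureReal_restrict_apply_univ,
      Real.volume_real_Icc]
    norm_num
  have h1i : IntegrableOn (fun _ : ℝ => (1 : ℝ)) (Set.Icc (0 : ℝ) 1) := integrable_const _
  have h4 : ∫ x in Set.Icc (0 : ℝ) 1, (1 - J x) ^ 2 ≤ E := by
    have h5 : ∀ x, (1 - J x) ^ 2 = (1 - 2 * J x) + J x ^ 2 := fun x => by ring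
    have hi : IntegrableOn (fun x => 1 - 2 * J x) (Set.Icc (0 : ℝ) 1) := h1i.sub (hJi.const_mul 2)
    simp only [h5]
    rw [integral_add hi hJ2i, integral_sub h1i (hJi.const_mul 2),
      integral_const_mul, hone, h1]
    linarith
  -- Jensen
  have habs : IntegrableOn (fun x => |1 - J x|) (Set.Icc (0 : ℝ) 1) := (h1i.sub hJi).abs
  have hsq : IntegrableOn (fun x => (1 - J x) ^ 2) (Set.Icc (0 : ℝ) 1) := by
    have h5 : ∀ x, (1 - J x) ^ 2 = (1 - 2 * J x) + J x ^ 2 := fun x => by ring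
    simp only [h5]
    exact (h1i.sub (hJi.const_mul 2)).add hJ2i
  have h6 : ∫ x in Set.Icc (0 : ℝ) 1, |1 - J x| ≤ √E := by
    set c : ℝ := ∫ x in Set.Icc (0 : ℝ) 1, |1 - J x| with hc
    apply Real.le_sqrt_of_sq_le
    have h7 : 0 ≤ ∫ x in Set.Icc (0 : ℝ) 1, (|1 - J x| - c) ^ 2 :=
      integral_nonneg fun x => sq_nonneg _
    have h8 : ∀ x, (|1 - J x| - c) ^ 2 = ((1 - J x) ^ 2 - 2 * c * |1 - J x|) + c ^ 2 * 1 := by
      intro x
      rw [sub_sq, sq_abs]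
      ring
    have hi : IntegrableOn (fun x => (1 - J x) ^ 2 - 2 * c * |1 - J x|) (Set.Icc (0 : ℝ) 1) :=
      hsq.sub (habs.const_mul _)
    simp only [h8] at h7
    rw [integral_add hi (h1i.const_mul _),
      integral_sub hsq (habs.const_mul _), integral_const_mul, integral_const_mul, hone,
      ← hc] at h7
    nlinarith
  -- the integral against `J`
  have hHi : IntegrableOn H (Set.Icc (0 : ℝ) 1) := hH.continuousOn.integrableOn_Icc
  have hHχ : ∀ t, IntegrableOn (fun x => (χ t x : ℂ) * H x) (Set.Icc (0 : ℝ) 1) := by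
    intro t
    have h1 : (fun x => (χ t x : ℂ) * H x) =
        (Set.Icc (α t - δ) (α t + δ)).indicator H := by
      ext x
      simp only [hχ]
      by_cases h1 : x ∈ Set.Icc (α t - δ) (α t + δ) <;> simp [h1]
    rw [h1]
    exact hHi.indicator measurableSet_Icc
  have h9 : (1 / (T.card : ℂ)) * ∑ t ∈ T, (1 / (2 * (δ : ℂ))) * ∫ u in (-δ)..δ, H (α t + u) =
      ∫ x in Set.Icc (0 : ℝ) 1, (J x : ℂ) * H x := by
    have h10 : ∀ x, (J x : ℂ) * H x = (κ : ℂ) * ∑ t ∈ T, (χ t x : ℂ) * H x := by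
      intro x
      rw [hJ]
      push_cast
      rw [mul_assoc, Finset.sum_mul]
    simp only [h10]
    rw [integral_const_mul, integral_finsetSum T (fun t _ => hHχ t), Finset.mul_sum,
      Finset.mul_sum]
    refine Finset.sum_congr rfl fun t ht => ?_
    have h11 : ∫ x in Set.Icc (0 : ℝ) 1, (χ t x : ℂ) * H x = ∫ u in (-δ)..δ, H (α t + u) := by
      have h12 : ∀ x, (χ t x : ℂ) * H x = (Set.Icc (α t - δ) (α t + δ)).indicator H x := by
        intro x
        simp only [hχ]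
        by_cases h1 : x ∈ Set.Icc (α t - δ) (α t + δ) <;> simp [h1]
      simp only [h12]
      rw [setIntegral_indicator measurableSet_Icc]
      have h13 : Set.Icc (0 : ℝ) 1 ∩ Set.Icc (α t - δ) (α t + δ) =
          Set.Icc (α t - δ) (α t + δ) := by
        apply Set.inter_eq_right.2
        intro x hx
        have := hα t ht
        exact ⟨by linarith [hx.1], by linarith [hx.2]⟩
      rw [h13, integral_Icc_eq_integral_Ioc, ← intervalIntegral.integral_of_le (by linarith)]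
      rw [intervalIntegral.integral_comp_add_left (fun x => H x)]
      congr 1
    rw [h11, hκ]
    push_cast
    have hδc : (δ : ℂ) ≠ 0 := by exact_mod_cast hδ.ne'
    have hΛc : (T.card : ℂ) ≠ 0 := by exact_mod_cast hΛ.ne'
    field_simp
  have hJH : IntegrableOn (fun x => (J x : ℂ) * H x) (Set.Icc (0 : ℝ) 1) := by
    have h10 : (fun x => (J x : ℂ) * H x) = fun x => (κ : ℂ) * ∑ t ∈ T, (χ t x : ℂ) * H x := by
      ext x
      rw [hJ]
      push_cast
      rw [mul_assoc, Finset.sum_mul]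
    rw [h10]
    exact (integrable_finsetSum T (fun t _ => hHχ t)).const_mul _
  rw [h9, intervalIntegral.integral_of_le zero_le_one, ← integral_Icc_eq_integral_Ioc,
    ← integral_sub hHi hJH]
  calc ‖∫ x in Set.Icc (0 : ℝ) 1, (H x - (J x : ℂ) * H x)‖
      ≤ ∫ x in Set.Icc (0 : ℝ) 1, ‖H x - (J x : ℂ) * H x‖ := norm_integral_le_integral_norm _
    _ ≤ ∫ x in Set.Icc (0 : ℝ) 1, B * |1 - J x| := by
        have hi : IntegrableOn (fun x => ‖H x - (J x : ℂ) * H x‖) (Set.Icc (0 : ℝ) 1) :=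
          (hHi.sub hJH).norm
        apply integral_mono hi (habs.const_mul _)
        intro x
        have : H x - (J x : ℂ) * H x = H x * ((1 - J x : ℝ) : ℂ) := by
          push_cast
          ring
        simp only
        rw [this, norm_mul, Complex.norm_real, Real.norm_eq_abs]
        exact mul_le_mul_of_nonneg_right (hB x) (abs_nonneg _)
    _ = B * ∫ x in Set.Icc (0 : ℝ) 1, |1 - J x| := integral_const_mul _ _
    _ ≤ B * √E := mul_le_mul_of_nonneg_left h6 hB0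

/-- sum of a tent over a progression -/
private theorem jut_tent {M : ℝ} (hM : 0 < M) {d : ℝ} (hd : 0 < d) (S : Finset ℤ) :
    ∑ h ∈ S, max (d - |(h : ℝ)| / M) 0 ≤ d + d ^ 2 * M := by
  -- the nonnegative half
  have hhalf : ∀ n : ℕ, ∑ h ∈ range n, max (d - ((h : ℝ) + 1) / M) 0 ≤ d ^ 2 * M / 2 := by
    intro n
    have h1 : ∀ h : ℕ, max (d - ((h : ℝ) + 1) / M) 0 ≤
        (M / 2) * (max (d - (h : ℝ) / M) 0 ^ 2 - max (d - ((h : ℝ) + 1) / M) 0 ^ 2) := by
      intro h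
      have hx : (((h : ℝ) + 1) / M) = (h : ℝ) / M + 1 / M := by ring
      set x : ℝ := (h : ℝ) / M
      have hM1 : 0 < 1 / M := by positivity
      rw [hx]
      rcases le_total (d - (x + 1 / M)) 0 with h2 | h2
      · rw [max_eq_right h2]
        have : 0 ≤ max (d - x) 0 ^ 2 := sq_nonneg _
        nlinarith
      · rw [max_eq_left h2, max_eq_left (by linarith)]
        have h3 : (d - x) ^ 2 - (d - (x + 1 / M)) ^ 2 = (2 * (d - (x + 1 / M)) + 1 / M) * (1 / M) := by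
          ring
        rw [h3]
        have h4 : M / 2 * ((2 * (d - (x + 1 / M)) + 1 / M) * (1 / M)) =
            (d - (x + 1 / M)) + 1 / (2 * M) := by
          field_simp
        rw [h4]
        have : 0 < 1 / (2 * M) := by positivity
        linarith
    have h2 : ∑ h ∈ range n, max (d - ((h : ℝ) + 1) / M) 0 ≤
        (M / 2) * (max (d - (0 : ℝ) / M) 0 ^ 2 - max (d - (n : ℝ) / M) 0 ^ 2) := by
      refine (Finset.sum_le_sum fun h _ => h1 h).trans ?_
      rw [← Finset.mul_sum]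
      have h3 := Finset.sum_range_sub' (fun h : ℕ => max (d - (h : ℝ) / M) 0 ^ 2) n
      push_cast at h3
      rw [h3]
    refine h2.trans ?_
    rw [zero_div, sub_zero, max_eq_left hd.le]
    have : 0 ≤ max (d - (n : ℝ) / M) 0 ^ 2 := sq_nonneg _
    nlinarith
  -- cover `S`
  obtain ⟨n, hn⟩ : ∃ n : ℕ, S ⊆ Finset.Icc (-(n : ℤ)) n := by
    refine ⟨∑ h ∈ S, h.natAbs, fun h hh => ?_⟩
    have h1 : h.natAbs ≤ ∑ h ∈ S, h.natAbs := Finset.single_le_sum (f := fun h : ℤ => h.natAbs)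
      (fun _ _ => Nat.zero_le _) hh
    rw [Finset.mem_Icc]
    omega
  have h5 : ∑ h ∈ S, max (d - |(h : ℝ)| / M) 0 ≤
      ∑ h ∈ Finset.Icc (-(n : ℤ)) n, max (d - |(h : ℝ)| / M) 0 :=
    Finset.sum_le_sum_of_subset_of_nonneg hn fun _ _ _ => le_max_right _ _
  refine h5.trans ?_
  have h6 : ∀ n : ℕ, ∑ h ∈ Finset.Icc (-(n : ℤ)) n, max (d - |(h : ℝ)| / M) 0 =
      d + 2 * ∑ h ∈ range n, max (d - ((h : ℝ) + 1) / M) 0 := by
    intro n
    induction n with
    | zero => simp [hd.le]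
    | succ n ih =>
      have h7 : Finset.Icc (-((n + 1 : ℕ) : ℤ)) ((n + 1 : ℕ) : ℤ) =
          insert (-((n : ℤ) + 1)) (insert ((n : ℤ) + 1) (Finset.Icc (-(n : ℤ)) n)) := by
        ext h
        simp only [Finset.mem_insert, Finset.mem_Icc]
        push_cast
        omega
      rw [h7, Finset.sum_insert, Finset.sum_insert, ih, Finset.sum_range_succ]
      · push_cast
        have e1 : |-1 + -(n : ℝ)| = (n : ℝ) + 1 := by
          rw [show -1 + -(n : ℝ) = -((n : ℝ) + 1) by ring, abs_neg, abs_of_nonneg (by positivity)]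
        have e2 : |(n : ℝ) + 1| = (n : ℝ) + 1 := abs_of_nonneg (by positivity)
        have e3 : |-((n : ℝ) + 1)| = (n : ℝ) + 1 := by rw [abs_neg, e2]
        rw [e2]
        try rw [e3]
        try rw [e1]
        ring
      · simp only [Finset.mem_Icc]
        omega
      · simp only [Finset.mem_insert, Finset.mem_Icc]
        omega
  rw [h6]
  have := hhalf n
  linarith

/-- the fractions `a/r`, `r ∈ R` prime, `1 ≤ a < r` -/
theorem jut_frac (R : Finset ℕ) (Q : ℕ) {M : ℝ} (hQ : 1 ≤ Q)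
    (hR : ∀ r ∈ R, r.Prime ∧ Q < r ∧ (r : ℝ) ≤ M) (hne : R.Nonempty) {δ : ℝ} (hδ : 0 < δ)
    (hδM : 2 * M * δ ≤ 1) :
    ∑ t ∈ R.sigma (fun r => Finset.Ico 1 r), ∑ s ∈ R.sigma (fun r => Finset.Ico 1 r),
      max (2 * δ - |(t.2 : ℝ) / t.1 - (s.2 : ℝ) / s.1|) 0 ≤
    4 * δ ^ 2 * ((R.sigma (fun r => Finset.Ico 1 r)).card : ℝ) ^ 2 *
      (1 + (1 / (2 * δ * R.card * Q) + 1 / (2 * δ * Q ^ 2) + 3 / Q)) := by
  classical
  have hP : (0 : ℝ) < R.card := by exact_mod_cast hne.card_pos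
  have hQ0 : (0 : ℝ) < Q := by exact_mod_cast hQ
  set Λ : ℝ := ((R.sigma (fun r => Finset.Ico 1 r)).card : ℝ) with hΛ
  have hΛ1 : Λ = ∑ r ∈ R, ((r : ℝ) - 1) := by
    rw [hΛ, Finset.card_sigma]
    push_cast
    refine Finset.sum_congr rfl fun r hr => ?_
    rw [Nat.card_Ico, Nat.cast_sub (by have := (hR r hr).1.one_lt; omega)]
    simp
  have hΛ2 : R.card * (Q : ℝ) ≤ Λ := by
    rw [hΛ1, ← nsmul_eq_mul]
    apply Finset.card_nsmul_le_sum
    intro r hr
    have := (hR r hr).2.1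
    have h1 : (Q : ℝ) + 1 ≤ r := by exact_mod_cast this
    linarith
  have hΛ0 : 0 < Λ := lt_of_lt_of_le (by positivity) hΛ2
  have hsumr : ∑ r ∈ R, (r : ℝ) = Λ + R.card := by
    rw [hΛ1, Finset.sum_sub_distrib, Finset.sum_const, nsmul_eq_mul, mul_one]
    ring
  -- the inner double sums
  have hin : ∀ r ∈ R, ∀ r' ∈ R, ∑ a ∈ Finset.Ico 1 r, ∑ a' ∈ Finset.Ico 1 r',
      max (2 * δ - |(a : ℝ) / r - (a' : ℝ) / r'|) 0 ≤
      (if r = r' then 2 * δ * ((r : ℝ) - 1) else 0) + (2 * δ + (2 * δ) ^ 2 * (r * r')) := by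
    intro r hr r' hr'
    obtain ⟨hrp, hrQ, hrM⟩ := hR r hr
    obtain ⟨hrp', hrQ', hrM'⟩ := hR r' hr'
    have hr0 : (0 : ℝ) < r := by exact_mod_cast hrp.pos
    have hr0' : (0 : ℝ) < r' := by exact_mod_cast hrp'.pos
    by_cases h : r = r'
    · subst h
      rw [if_pos rfl]
      have h1 : ∑ a ∈ Finset.Ico 1 r, ∑ a' ∈ Finset.Ico 1 r,
          max (2 * δ - |(a : ℝ) / r - (a' : ℝ) / r|) 0 =
          ∑ a ∈ Finset.Ico 1 r, 2 * δ := by
        refine Finset.sum_congr rfl fun a ha => ?_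
        rw [Finset.sum_eq_single a]
        · rw [sub_self, abs_zero, sub_zero, max_eq_left (by linarith)]
        · intro a' _ hne'
          apply max_eq_right
          have h2 : 1 / (r : ℝ) ≤ |(a : ℝ) / r - (a' : ℝ) / r| := by
            rw [← sub_div, abs_div, abs_of_pos hr0]
            gcongr
            have h3 : (1 : ℤ) ≤ |(a : ℤ) - a'| := by
              apply Int.one_le_abs
              intro h4
              apply hne'
              omega
            have h4 : ((1 : ℤ) : ℝ) ≤ ((|(a : ℤ) - a'| : ℤ) : ℝ) := by exact_mod_cast h3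
            push_cast at h4
            exact h4
          have h3 : 2 * δ ≤ 1 / (r : ℝ) := by
            rw [le_div_iff₀ hr0]
            calc 2 * δ * r ≤ 2 * δ * M := by gcongr
              _ ≤ 1 := by linarith
          linarith
        · intro h
          exact absurd ha h
      rw [h1, Finset.sum_const, nsmul_eq_mul, Nat.card_Ico,
        Nat.cast_sub (by have := hrp.one_lt; omega)]
      have : (0 : ℝ) ≤ 2 * δ + (2 * δ) ^ 2 * (r * r) := by positivity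
      push_cast
      linarith
    · rw [if_neg h, zero_add]
      have hcop : IsCoprime (r : ℤ) (r' : ℤ) :=
        Nat.isCoprime_iff_coprime.2 ((Nat.coprime_primes hrp hrp').2 h)
      -- injectivity
      set φ : ℕ × ℕ → ℤ := fun x => (x.1 : ℤ) * r' - (x.2 : ℤ) * r with hφ
      have hinj : Set.InjOn φ (Finset.Ico 1 r ×ˢ Finset.Ico 1 r' : Finset (ℕ × ℕ)) := by
        rintro ⟨a, a'⟩ ha ⟨b, b'⟩ hb hab
        simp only [Finset.coe_product, Set.mem_prod, Finset.coe_Ico, Set.mem_Ico] at ha hb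
        simp only [hφ] at hab
        have h1 : (r : ℤ) ∣ ((a : ℤ) - b) * r' := ⟨(a' : ℤ) - b', by linear_combination hab⟩
        have h2 : (r : ℤ) ∣ (a : ℤ) - b := hcop.dvd_of_dvd_mul_right h1
        have h3 : (a : ℤ) - b = 0 := by
          apply Int.eq_zero_of_abs_lt_dvd h2
          rw [abs_lt]
          omega
        have h4 : (a : ℤ) = b := by linarith
        have h5 : ((a' : ℤ) - b') * r = 0 := by
          rw [h4] at hab
          linear_combination -hab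
        have h6 : (r : ℤ) ≠ 0 := by exact_mod_cast hrp.ne_zero
        have h7 : (a' : ℤ) - b' = 0 := (mul_eq_zero.1 h5).resolve_right h6
        have h8 : a = b := by exact_mod_cast h4
        have h9 : a' = b' := by omega
        rw [h8, h9]
      have h1 : ∑ a ∈ Finset.Ico 1 r, ∑ a' ∈ Finset.Ico 1 r',
          max (2 * δ - |(a : ℝ) / r - (a' : ℝ) / r'|) 0 =
          ∑ h ∈ (Finset.Ico 1 r ×ˢ Finset.Ico 1 r').image φ,
            max (2 * δ - |(h : ℝ)| / (r * r')) 0 := by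
        rw [Finset.sum_image hinj, Finset.sum_product]
        refine Finset.sum_congr rfl fun a _ => Finset.sum_congr rfl fun a' _ => ?_
        have h2 : (a : ℝ) / r - (a' : ℝ) / r' = ((φ (a, a') : ℤ) : ℝ) / (r * r') := by
          rw [hφ]
          push_cast
          field_simp
        rw [h2, abs_div, abs_of_pos (mul_pos hr0 hr0')]
      rw [h1]
      exact jut_tent (mul_pos hr0 hr0') (by linarith) _
  have h1 : ∑ t ∈ R.sigma (fun r => Finset.Ico 1 r), ∑ s ∈ R.sigma (fun r => Finset.Ico 1 r),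
      max (2 * δ - |(t.2 : ℝ) / t.1 - (s.2 : ℝ) / s.1|) 0 =
      ∑ r ∈ R, ∑ r' ∈ R, ∑ a ∈ Finset.Ico 1 r, ∑ a' ∈ Finset.Ico 1 r',
        max (2 * δ - |(a : ℝ) / r - (a' : ℝ) / r'|) 0 := by
    rw [Finset.sum_sigma]
    refine Finset.sum_congr rfl fun r _ => ?_
    rw [Finset.sum_comm]
    rw [Finset.sum_comm (s := R) (t := Finset.Ico 1 r)]
    rw [Finset.sum_comm]
    refine Finset.sum_congr rfl fun a _ => ?_
    rw [Finset.sum_sigma]
  rw [h1]
  have h2 : ∑ r ∈ R, ∑ r' ∈ R, ∑ a ∈ Finset.Ico 1 r, ∑ a' ∈ Finset.Ico 1 r',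
        max (2 * δ - |(a : ℝ) / r - (a' : ℝ) / r'|) 0 ≤
      2 * δ * Λ + (2 * δ * (R.card : ℝ) ^ 2 + 4 * δ ^ 2 * (Λ + R.card) ^ 2) := by
    calc _ ≤ ∑ r ∈ R, ∑ r' ∈ R, ((if r = r' then 2 * δ * ((r : ℝ) - 1) else 0) +
          (2 * δ + (2 * δ) ^ 2 * (r * r'))) :=
          Finset.sum_le_sum fun r hr => Finset.sum_le_sum fun r' hr' => hin r hr r' hr'
      _ = 2 * δ * Λ + (2 * δ * (R.card : ℝ) ^ 2 + 4 * δ ^ 2 * (Λ + R.card) ^ 2) := by
          simp only [Finset.sum_add_distrib]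
          congr 1
          · rw [hΛ1, Finset.mul_sum]
            refine Finset.sum_congr rfl fun r hr => ?_
            rw [Finset.sum_ite_eq R r, if_pos hr]
          · congr 1
            · simp only [Finset.sum_const, nsmul_eq_mul]
              ring
            · rw [← hsumr, sq (∑ r ∈ R, (r : ℝ)), Finset.sum_mul_sum, Finset.mul_sum]
              refine Finset.sum_congr rfl fun r _ => ?_
              rw [Finset.mul_sum]
              refine Finset.sum_congr rfl fun r' _ => ?_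
              ring
  refine h2.trans ?_
  -- the elementary inequality
  set P : ℝ := (R.card : ℝ) with hPdef
  have e1 : 2 * δ * Λ ≤ 4 * δ ^ 2 * Λ ^ 2 * (1 / (2 * δ * P * Q)) := by
    have : 4 * δ ^ 2 * Λ ^ 2 * (1 / (2 * δ * P * Q)) = 2 * δ * Λ * (Λ / (P * Q)) := by
      field_simp
      ring
    rw [this]
    have h3 : 1 ≤ Λ / (P * Q) := by
      rw [le_div_iff₀ (by positivity)]
      linarith
    have h4 : 0 ≤ 2 * δ * Λ := by positivity
    nlinarith
  have e2 : 2 * δ * P ^ 2 ≤ 4 * δ ^ 2 * Λ ^ 2 * (1 / (2 * δ * Q ^ 2)) := by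
    have : 4 * δ ^ 2 * Λ ^ 2 * (1 / (2 * δ * Q ^ 2)) = 2 * δ * (Λ / Q) ^ 2 := by
      field_simp
      ring
    rw [this]
    have h3 : P ≤ Λ / Q := by
      rw [le_div_iff₀ (by positivity)]
      linarith
    gcongr
  have e3 : (Λ + P) ^ 2 ≤ Λ ^ 2 * (1 + 3 / Q) := by
    have h3 : P ≤ Λ / Q := by
      rw [le_div_iff₀ (by positivity)]
      linarith
    have hQ1 : (1 : ℝ) ≤ Q := by exact_mod_cast hQ
    calc (Λ + P) ^ 2 ≤ (Λ + Λ / Q) ^ 2 := by gcongr
      _ = Λ ^ 2 * (1 + 2 / Q + 1 / Q ^ 2) := by field_simp; ring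
      _ ≤ Λ ^ 2 * (1 + 3 / Q) := by
          have : (1 : ℝ) / Q ^ 2 ≤ 1 / Q := by
            apply one_div_le_one_div_of_le hQ0
            nlinarith
          have h5 : (3 : ℝ) / Q = 2 / Q + 1 / Q := by ring
          rw [h5]
          have : 0 ≤ Λ ^ 2 := sq_nonneg _
          nlinarith
  have e4 : 4 * δ ^ 2 * (Λ + P) ^ 2 ≤ 4 * δ ^ 2 * (Λ ^ 2 * (1 + 3 / Q)) := by gcongr
  calc 2 * δ * Λ + (2 * δ * P ^ 2 + 4 * δ ^ 2 * (Λ + P) ^ 2)
      ≤ 4 * δ ^ 2 * Λ ^ 2 * (1 / (2 * δ * P * Q)) +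
        (4 * δ ^ 2 * Λ ^ 2 * (1 / (2 * δ * Q ^ 2)) + 4 * δ ^ 2 * (Λ ^ 2 * (1 + 3 / Q))) := by
        linarith
    _ = _ := by ring

/-- **Arcs around the fractions with prime denominators.** -/
theorem jut (R : Finset ℕ) (Q : ℕ) {M : ℝ} (hQ : 1 ≤ Q)
    (hR : ∀ r ∈ R, r.Prime ∧ Q < r ∧ (r : ℝ) ≤ M) (hne : R.Nonempty) {δ : ℝ} (hδ : 0 < δ)
    (hδM : 2 * M * δ ≤ 1) (H : ℝ → ℂ) (hH : Continuous H) {B : ℝ} (hB : ∀ x, ‖H x‖ ≤ B) :
    ‖(∫ x in (0 : ℝ)..1, H x) - (1 / ((∑ r ∈ R, (r - 1) : ℕ) : ℂ)) * ∑ r ∈ R,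
        ∑ a ∈ Finset.Ico 1 r, (1 / (2 * (δ : ℂ))) * ∫ u in (-δ)..δ, H ((a : ℝ) / r + u)‖ ≤
      B * √(1 / (2 * δ * R.card * Q) + 1 / (2 * δ * Q ^ 2) + 3 / Q) := by
  have hne' : (R.sigma (fun r => Finset.Ico 1 r)).Nonempty := by
    obtain ⟨r, hr⟩ := hne
    refine ⟨⟨r, 1⟩, ?_⟩
    rw [Finset.mem_sigma]
    exact ⟨hr, Finset.mem_Ico.2 ⟨le_rfl, (hR r hr).1.one_lt⟩⟩
  have h1 := jut_abs (R.sigma (fun r => Finset.Ico 1 r)) hne'
    (fun t => (t.2 : ℝ) / t.1) hδ (by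
      rintro ⟨r, a⟩ ht
      rw [Finset.mem_sigma, Finset.mem_Ico] at ht
      obtain ⟨hr, ha1, ha2⟩ := ht
      simp only at hr ha1 ha2 ⊢
      obtain ⟨hrp, hrQ, hrM⟩ := hR r hr
      have hr0 : (0 : ℝ) < r := by exact_mod_cast hrp.pos
      have hr1 : δ * r ≤ 1 := by
        have : δ * r ≤ δ * M := by gcongr
        have h0 : 0 < δ * r := by positivity
        nlinarith
      have ha1' : (1 : ℝ) ≤ a := by exact_mod_cast ha1
      have ha2' : (a : ℝ) + 1 ≤ r := by exact_mod_cast ha2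
      constructor
      · rw [le_div_iff₀ hr0]
        linarith
      · rw [div_le_iff₀ hr0]
        nlinarith) H hH hB (jut_frac R Q hQ hR hne hδ hδM)
  rw [Finset.sum_sigma, Finset.card_sigma] at h1
  simpa only [Nat.card_Ico] using h1

/-- reduction of a sum over the units of `ℤ/(M₀ r)` -/
private theorem jut_units {M₀ r : ℕ} [NeZero M₀] (hr : r.Prime) (hcop : Nat.Coprime M₀ r)
    [NeZero (M₀ * r)] (G : ℝ → ℂ) (hG : ∀ x, G (x + 1) = G x) :
    ∑ x : (ZMod (M₀ * r))ˣ, G (((x : ZMod (M₀ * r)).val : ℝ) / ((M₀ * r : ℕ) : ℝ)) =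
      ∑ s : (ZMod M₀)ˣ, ∑ a ∈ Finset.Ico 1 r, G ((a : ℝ) / r + ((s : ZMod M₀).val : ℝ) / M₀) := by
  classical
  have hGn : ∀ (n : ℕ) (x : ℝ), G (x + n) = G x := by
    intro n
    induction n with
    | zero => intro x; simp
    | succ n ih =>
      intro x
      push_cast
      rw [← add_assoc, hG, ih]
  have hM0 : (0 : ℝ) < M₀ := by exact_mod_cast Nat.pos_of_ne_zero (NeZero.ne M₀)
  have hr0 : (0 : ℝ) < r := by exact_mod_cast hr.pos
  have hcp : ∀ (s : (ZMod M₀)ˣ) (a : {a // a ∈ Finset.Ico 1 r}),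
      Nat.Coprime ((s : ZMod M₀).val * r + a.1 * M₀) (M₀ * r) := by
    intro s a
    have ha := Finset.mem_Ico.1 a.2
    apply Nat.Coprime.mul_right
    · rw [Nat.coprime_add_mul_right_left]
      exact Nat.Coprime.mul_left (ZMod.val_coe_unit_coprime s) hcop.symm
    · rw [Nat.add_comm, Nat.coprime_add_mul_right_left]
      apply Nat.Coprime.mul_left _ hcop
      exact Nat.Coprime.symm ((Nat.Prime.coprime_iff_not_dvd hr).2
        (Nat.not_dvd_of_pos_of_lt (by omega) ha.2))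
  set Φ : (ZMod M₀)ˣ × {a // a ∈ Finset.Ico 1 r} → (ZMod (M₀ * r))ˣ :=
    fun x => ZMod.unitOfCoprime _ (hcp x.1 x.2) with hΦ
  have hinj : Function.Injective Φ := by
    rintro ⟨s, a⟩ ⟨s', a'⟩ h
    have ha := Finset.mem_Ico.1 a.2
    have ha' := Finset.mem_Ico.1 a'.2
    have h1 := congrArg (fun z : (ZMod (M₀ * r))ˣ => (z : ZMod (M₀ * r))) h
    simp only [hΦ, ZMod.coe_unitOfCoprime] at h1
    rw [ZMod.natCast_eq_natCast_iff] at h1
    have h2 : (s : ZMod M₀).val * r ≡ (s' : ZMod M₀).val * r [MOD M₀] := by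
      have h3 := h1.of_mul_right r
      have h4 : (s : ZMod M₀).val * r + a.1 * M₀ ≡ (s : ZMod M₀).val * r [MOD M₀] := by
        simp [Nat.ModEq]
      have h5 : (s' : ZMod M₀).val * r + a'.1 * M₀ ≡ (s' : ZMod M₀).val * r [MOD M₀] := by
        simp [Nat.ModEq]
      exact h4.symm.trans (h3.trans h5)
    have h3 : (s : ZMod M₀).val ≡ (s' : ZMod M₀).val [MOD M₀] :=
      Nat.ModEq.cancel_right_of_coprime (by rw [Nat.Coprime] at hcop; exact hcop) h2
    have h4 : s = s' := by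
      apply Units.ext
      apply ZMod.val_injective M₀
      exact Nat.ModEq.eq_of_lt_of_lt h3 (ZMod.val_lt _) (ZMod.val_lt _)
    have h5 : a.1 * M₀ ≡ a'.1 * M₀ [MOD r] := by
      have h6 := h1.of_mul_left M₀
      have h7 : (s : ZMod M₀).val * r + a.1 * M₀ ≡ a.1 * M₀ [MOD r] := by
        simp [Nat.ModEq]
      have h8 : (s' : ZMod M₀).val * r + a'.1 * M₀ ≡ a'.1 * M₀ [MOD r] := by
        simp [Nat.ModEq]
      exact h7.symm.trans (h6.trans h8)
    have h6 : a.1 ≡ a'.1 [MOD r] :=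
      Nat.ModEq.cancel_right_of_coprime (by
        have := hcop.symm
        rw [Nat.Coprime] at this
        exact this) h5
    have h7 : a = a' := Subtype.ext (Nat.ModEq.eq_of_lt_of_lt h6 ha.2 ha'.2)
    rw [h4, h7]
  have hbij : Function.Bijective Φ := by
    rw [Fintype.bijective_iff_injective_and_card]
    refine ⟨hinj, ?_⟩
    rw [Fintype.card_prod, ZMod.card_units_eq_totient, ZMod.card_units_eq_totient,
      Fintype.card_coe, Nat.card_Ico, Nat.totient_mul hcop, Nat.totient_prime hr]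
  rw [← Function.Bijective.sum_comp hbij, Fintype.sum_prod_type]
  refine Finset.sum_congr rfl fun s _ => ?_
  rw [← Finset.sum_coe_sort (Finset.Ico 1 r)]
  refine Finset.sum_congr rfl fun a _ => ?_
  simp only [hΦ, ZMod.coe_unitOfCoprime]
  set A : ℕ := (s : ZMod M₀).val * r + a.1 * M₀ with hA
  rw [ZMod.val_natCast]
  have h1 : (a.1 : ℝ) / r + ((s : ZMod M₀).val : ℝ) / M₀ =
      ((A % (M₀ * r) : ℕ) : ℝ) / ((M₀ * r : ℕ) : ℝ) + ((A / (M₀ * r) : ℕ) : ℝ) := by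
    have h2 : (A : ℝ) = ((A % (M₀ * r) : ℕ) : ℝ) +
        ((M₀ * r : ℕ) : ℝ) * ((A / (M₀ * r) : ℕ) : ℝ) := by
      exact_mod_cast (Nat.mod_add_div A (M₀ * r)).symm
    have h3 : ((M₀ * r : ℕ) : ℝ) ≠ 0 := by
      push_cast
      positivity
    have h4 : ((A % (M₀ * r) : ℕ) : ℝ) / ((M₀ * r : ℕ) : ℝ) + ((A / (M₀ * r) : ℕ) : ℝ) =
        (A : ℝ) / ((M₀ * r : ℕ) : ℝ) := by
      rw [h2]
      field_simp
    rw [h4, hA]
    push_cast
    field_simp
    ring
  rw [h1, hGn]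

/-- **Arcs around the fractions with denominators `M₀ r`.** -/
theorem jut_mod (M₀ : ℕ) [NeZero M₀] (R : Finset ℕ) (Q : ℕ) {M : ℝ} (hQ : 1 ≤ Q)
    (hR : ∀ r ∈ R, r.Prime ∧ Q < r ∧ (r : ℝ) ≤ M) (hcop : ∀ r ∈ R, Nat.Coprime M₀ r)
    (hne : R.Nonempty) {δ : ℝ} (hδ : 0 < δ)
    (hδM : 2 * M * δ ≤ 1) (H : ℝ → ℂ) (hH : Continuous H) (hper : ∀ x, H (x + 1) = H x)
    {B : ℝ} (hB : ∀ x, ‖H x‖ ≤ B) {W : ℝ}
    (hW : ∀ r ∈ R, ∀ [NeZero (M₀ * r)], ∀ u : ℝ, |u| ≤ δ →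
      ‖∑ x : (ZMod (M₀ * r))ˣ, H (((x : ZMod (M₀ * r)).val : ℝ) / ((M₀ * r : ℕ) : ℝ) + u)‖ ≤ W) :
    ‖∫ x in (0 : ℝ)..1, H x‖ ≤ W * R.card / (M₀.totient * (∑ r ∈ R, (r - 1) : ℕ)) +
      B * √(1 / (2 * δ * R.card * Q) + 1 / (2 * δ * Q ^ 2) + 3 / Q) := by
  classical
  set Λ : ℕ := ∑ r ∈ R, (r - 1) with hΛ
  set E : ℝ := 1 / (2 * δ * R.card * Q) + 1 / (2 * δ * Q ^ 2) + 3 / Q with hE
  have hΛ0 : 0 < Λ := by
    obtain ⟨r, hr⟩ := hne
    have h1 := (hR r hr).1.one_lt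
    have h2 : r - 1 ≤ Λ := Finset.single_le_sum (f := fun r => r - 1) (fun _ _ => Nat.zero_le _) hr
    omega
  have hΛR : (0 : ℝ) < Λ := by exact_mod_cast hΛ0
  have hφ0 : 0 < M₀.totient := Nat.totient_pos.2 (Nat.pos_of_ne_zero (NeZero.ne M₀))
  have hφR : (0 : ℝ) < M₀.totient := by exact_mod_cast hφ0
  -- translates
  have hHs : ∀ s : (ZMod M₀)ˣ, ∫ x in (0 : ℝ)..1, H (x + ((s : ZMod M₀).val : ℝ) / M₀) =
      ∫ x in (0 : ℝ)..1, H x := by
    intro s
    rw [intervalIntegral.integral_comp_add_right]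
    have h1 := Function.Periodic.intervalIntegral_add_eq (f := H) (T := 1) hper
      (((s : ZMod M₀).val : ℝ) / M₀) 0
    rw [zero_add] at h1
    rw [zero_add, add_comm 1, h1]
  have hj : ∀ s : (ZMod M₀)ˣ, ‖(∫ x in (0 : ℝ)..1, H x) - (1 / (Λ : ℂ)) * ∑ r ∈ R,
        ∑ a ∈ Finset.Ico 1 r, (1 / (2 * (δ : ℂ))) * ∫ u in (-δ)..δ,
          H ((a : ℝ) / r + u + ((s : ZMod M₀).val : ℝ) / M₀)‖ ≤ B * √E := by
    intro s
    have h1 := jut R Q hQ hR hne hδ hδM (fun x => H (x + ((s : ZMod M₀).val : ℝ) / M₀))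
      (hH.comp (continuous_id.add continuous_const)) (fun x => hB _)
    rw [hHs s] at h1
    exact h1
  have hsum : ‖∑ s : (ZMod M₀)ˣ, ((∫ x in (0 : ℝ)..1, H x) - (1 / (Λ : ℂ)) * ∑ r ∈ R,
        ∑ a ∈ Finset.Ico 1 r, (1 / (2 * (δ : ℂ))) * ∫ u in (-δ)..δ,
          H ((a : ℝ) / r + u + ((s : ZMod M₀).val : ℝ) / M₀))‖ ≤ M₀.totient * (B * √E) := by
    refine (norm_sum_le _ _).trans ?_
    refine (Finset.sum_le_sum fun s _ => hj s).trans ?_
    rw [Finset.sum_const, Finset.card_univ, ZMod.card_units_eq_totient, nsmul_eq_mul]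
  rw [Finset.sum_sub_distrib, Finset.sum_const, Finset.card_univ, ZMod.card_units_eq_totient,
    nsmul_eq_mul] at hsum
  -- the arcs
  have harc : ∑ s : (ZMod M₀)ˣ, (1 / (Λ : ℂ)) * ∑ r ∈ R,
        ∑ a ∈ Finset.Ico 1 r, (1 / (2 * (δ : ℂ))) * ∫ u in (-δ)..δ,
          H ((a : ℝ) / r + u + ((s : ZMod M₀).val : ℝ) / M₀) =
      (1 / (Λ : ℂ)) * ∑ r ∈ R, (1 / (2 * (δ : ℂ))) * ∑ s : (ZMod M₀)ˣ,
        ∑ a ∈ Finset.Ico 1 r, ∫ u in (-δ)..δ,
          H ((a : ℝ) / r + u + ((s : ZMod M₀).val : ℝ) / M₀) := by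
    rw [← Finset.mul_sum, Finset.sum_comm]
    congr 1
    refine Finset.sum_congr rfl fun r _ => ?_
    rw [Finset.mul_sum]
    refine Finset.sum_congr rfl fun s _ => ?_
    rw [Finset.mul_sum]
  have hr : ∀ r ∈ R, ‖(1 / (2 * (δ : ℂ))) * ∑ s : (ZMod M₀)ˣ,
        ∑ a ∈ Finset.Ico 1 r, ∫ u in (-δ)..δ,
          H ((a : ℝ) / r + u + ((s : ZMod M₀).val : ℝ) / M₀)‖ ≤ W := by
    intro r hr
    obtain ⟨hrp, -, -⟩ := hR r hr
    have hNZ : NeZero (M₀ * r) := ⟨Nat.mul_ne_zero (NeZero.ne M₀) hrp.ne_zero⟩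
    have hint : ∀ (s : (ZMod M₀)ˣ) (a : ℕ), IntervalIntegrable
        (fun u => H ((a : ℝ) / r + u + ((s : ZMod M₀).val : ℝ) / M₀)) volume (-δ) δ := by
      intro s a
      apply Continuous.intervalIntegrable
      exact hH.comp ((continuous_const.add continuous_id).add continuous_const)
    have h1 : ∑ s : (ZMod M₀)ˣ, ∑ a ∈ Finset.Ico 1 r, ∫ u in (-δ)..δ,
          H ((a : ℝ) / r + u + ((s : ZMod M₀).val : ℝ) / M₀) =
        ∫ u in (-δ)..δ, ∑ x : (ZMod (M₀ * r))ˣ,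
          H (((x : ZMod (M₀ * r)).val : ℝ) / ((M₀ * r : ℕ) : ℝ) + u) := by
      have h2 : ∀ u : ℝ, ∑ x : (ZMod (M₀ * r))ˣ,
          H (((x : ZMod (M₀ * r)).val : ℝ) / ((M₀ * r : ℕ) : ℝ) + u) =
          ∑ s : (ZMod M₀)ˣ, ∑ a ∈ Finset.Ico 1 r,
            H ((a : ℝ) / r + u + ((s : ZMod M₀).val : ℝ) / M₀) := by
        intro u
        have h3 := jut_units hrp (hcop r hr) (fun x => H (x + u)) (fun x => by
          rw [add_right_comm, hper])
        rw [h3]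
        refine Finset.sum_congr rfl fun s _ => Finset.sum_congr rfl fun a _ => ?_
        rw [add_right_comm]
      simp only [h2]
      rw [intervalIntegral.integral_finsetSum]
      · refine Finset.sum_congr rfl fun s _ => ?_
        rw [intervalIntegral.integral_finsetSum]
        intro a _
        exact hint s a
      · intro s _
        apply Continuous.intervalIntegrable
        exact continuous_finsetSum _ fun a _ =>
          hH.comp ((continuous_const.add continuous_id).add continuous_const)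
    rw [h1, norm_mul]
    have h2 : ‖∫ u in (-δ)..δ, ∑ x : (ZMod (M₀ * r))ˣ,
          H (((x : ZMod (M₀ * r)).val : ℝ) / ((M₀ * r : ℕ) : ℝ) + u)‖ ≤ W * |δ - (-δ)| := by
      apply intervalIntegral.norm_integral_le_of_norm_le_const
      intro u hu
      apply hW r hr
      rw [Set.uIoc_of_le (by linarith)] at hu
      rw [abs_le]
      exact ⟨hu.1.le, hu.2⟩
    have h3 : |δ - (-δ)| = 2 * δ := by
      rw [abs_of_pos (by linarith)]
      ring
    rw [h3] at h2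
    have h4 : ‖(1 / (2 * (δ : ℂ)))‖ = 1 / (2 * δ) := by
      rw [norm_div, norm_one, norm_mul, Complex.norm_real, Real.norm_of_nonneg hδ.le]
      simp
    rw [h4]
    calc 1 / (2 * δ) * _ ≤ 1 / (2 * δ) * (W * (2 * δ)) := by gcongr
      _ = W := by field_simp
  have hW' : ‖(1 / (Λ : ℂ)) * ∑ r ∈ R, (1 / (2 * (δ : ℂ))) * ∑ s : (ZMod M₀)ˣ,
        ∑ a ∈ Finset.Ico 1 r, ∫ u in (-δ)..δ,
          H ((a : ℝ) / r + u + ((s : ZMod M₀).val : ℝ) / M₀)‖ ≤ W * R.card / Λ := by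
    rw [norm_mul, norm_div, norm_one, Complex.norm_natCast]
    have h1 : ‖∑ r ∈ R, (1 / (2 * (δ : ℂ))) * ∑ s : (ZMod M₀)ˣ,
        ∑ a ∈ Finset.Ico 1 r, ∫ u in (-δ)..δ,
          H ((a : ℝ) / r + u + ((s : ZMod M₀).val : ℝ) / M₀)‖ ≤ R.card * W := by
      refine (norm_sum_le _ _).trans ?_
      refine (Finset.sum_le_sum hr).trans ?_
      rw [Finset.sum_const, nsmul_eq_mul]
    calc 1 / (Λ : ℝ) * _ ≤ 1 / (Λ : ℝ) * (R.card * W) := by gcongr
      _ = W * R.card / Λ := by ring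
  rw [harc] at hsum
  have hfin : ‖(M₀.totient : ℂ) * ∫ x in (0 : ℝ)..1, H x‖ ≤
      M₀.totient * (B * √E) + W * R.card / Λ := by
    have h1 := norm_sub_norm_le ((M₀.totient : ℂ) * ∫ x in (0 : ℝ)..1, H x)
      ((1 / (Λ : ℂ)) * ∑ r ∈ R, (1 / (2 * (δ : ℂ))) * ∑ s : (ZMod M₀)ˣ,
        ∑ a ∈ Finset.Ico 1 r, ∫ u in (-δ)..δ,
          H ((a : ℝ) / r + u + ((s : ZMod M₀).val : ℝ) / M₀))
    linarith
  rw [norm_mul, Complex.norm_natCast] at hfin
  have h5 : ‖∫ x in (0 : ℝ)..1, H x‖ ≤ (M₀.totient * (B * √E) + W * R.card / Λ) / M₀.totient := by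
    rw [le_div_iff₀ hφR, mul_comm]
    exact hfin
  refine h5.trans (le_of_eq ?_)
  field_simp
  ring

end Pool.Agent.MU0
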