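import Pool.Agent.MU0.Arc
import Pool.Agent.MU0.Jut
import Pool.Agent.MU0.Cheb

/-!
# The bound of Kloosterman for the coefficients of a cusp form of weight two
-/

set_option autoImplicit false

open UpperHalfPlane hiding I
open Filter Topology Complex Function CongruenceSubgroup
open scoped MatrixGroups Real ModularForm ComplexConjugate

namespace Pool.Agent.MU0

open Pool.Agent.MZ Pool.Agent.MZ.Per Pool.Agent.MU1

variable {N : ℕ} [NeZero N]

namespace Cb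

/-- the average over the fractions of denominator `c = N r` -/
theorem arc_one {f : CuspForm (Gamma0 N) 2} {C : ℝ} (hC0 : 0 ≤ C)
    (hC : ∀ n : ℕ, ‖(qExpansion 1 f).coeff n‖ ≤ C * n) {r c : ℕ} [NeZero c]
    (hr : r.Prime) (hrN : ¬ r ∣ N) (hc : c = N * r) {k : ℤ} (hk : ¬ (r : ℤ) ∣ k) {y β : ℝ}
    (hy : 0 < y) :
    ‖∑ x : (ZMod c)ˣ, (y : ℂ) * f (vert ((((x : ZMod c).val : ℝ) / c) + β) y) *
      cexp (2 * π * Complex.I * ((-k : ℤ) : ℂ) * (((((x : ZMod c).val : ℝ) / c) + β : ℝ) : ℂ))‖ ≤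
      C * (N.totient * (2 * (r : ℝ) ^ (3 / 4 : ℝ))) * ((c : ℝ) ^ 2 * (β ^ 2 + y ^ 2)) / y := by
  obtain ⟨a, ha⟩ : ∃ a : ℕ → ℂ, a = fun n => (qExpansion 1 f).coeff n := ⟨_, rfl⟩
  have ha' : ∀ n, (qExpansion 1 f).coeff n = a n := fun n => by rw [ha]
  have hCa : ∀ n : ℕ, ‖a n‖ ≤ C * n := fun n => by rw [← ha' n]; exact hC n
  have hc0 : 0 < c := Nat.pos_of_ne_zero (NeZero.ne c)
  have hcR : (0 : ℝ) < c := by exact_mod_cast hc0
  have hcC : (c : ℂ) ≠ 0 := by exact_mod_cast hc0.ne'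
  obtain ⟨w, hw⟩ : ∃ w : ℂ, w = β + (y / (1 : ℕ) : ℝ) * Complex.I := ⟨_, rfl⟩
  have him : 0 < w.im := by
    rw [hw]
    simpa using hy
  have hw0 : w ≠ 0 := by
    rintro h
    rw [h] at him
    simp at him
  obtain ⟨hs, hb⟩ := arc_abs hC0 hCa one_pos hc0 hy hw
  obtain ⟨E, hE⟩ : ∃ E : ℕ → ℂ, E = fun m : ℕ => a m * cexp (2 * π * Complex.I * m *
    (-((1 : ℕ) : ℂ) / ((c : ℂ) ^ 2 * w))) := ⟨_, rfl⟩
  have hs' : Summable (fun m => ‖E m‖) := by rw [hE]; exact hs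
  have hb' : ∑' m, ‖E m‖ ≤ C * ((c : ℝ) ^ 2 * normSq w / y) ^ 2 := by rw [hE]; exact hb
  have hd : N * 1 ∣ c := ⟨r, by rw [hc]; ring⟩
  have hde : ∀ x : (ZMod c)ˣ, (c : ℤ) ∣ (((x⁻¹ : (ZMod c)ˣ) : ZMod c).val : ℤ) *
      ((x : ZMod c).val : ℤ) - 1 := by
    intro x
    rw [← ZMod.intCast_zmod_eq_zero_iff_dvd]
    push_cast
    rw [ZMod.natCast_zmod_val, ZMod.natCast_zmod_val, Units.inv_mul, sub_self]
  have hpt : ∀ (x : (ZMod c)ˣ), vert ((((x : ZMod c).val : ℝ) / c) + β) y =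
      ofComplex (((1 : ℕ) : ℂ) * ((((x : ZMod c).val : ℤ) : ℂ) / c + w)) := by
    intro x
    rw [vert, hw]
    congr 1
    push_cast
    ring
  -- one term
  have hterm : ∀ x : (ZMod c)ˣ, (y : ℂ) * f (vert ((((x : ZMod c).val : ℝ) / c) + β) y) *
      cexp (2 * π * Complex.I * ((-k : ℤ) : ℂ) * (((((x : ZMod c).val : ℝ) / c) + β : ℝ) : ℂ)) =
      ((y : ℂ) * ((c : ℂ) * w)⁻¹ ^ 2 * cexp (2 * π * Complex.I * ((-k : ℤ) : ℂ) * β)) *
      ∑' m : ℕ, E m * cexp (2 * π * Complex.I *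
        (((-k) * ((x : ZMod c).val : ℤ) + (-(m : ℤ)) *
        (((x⁻¹ : (ZMod c)ˣ) : ZMod c).val : ℤ) : ℤ) : ℂ) / c) := by
    intro x
    have h1 := (arc_series f ha' one_pos hc0 hd (hde x) him).tsum_eq
    rw [tsum_mul_left] at h1
    rw [hpt x, ← h1]
    have h4 : cexp (2 * π * Complex.I * ((-k : ℤ) : ℂ) * (((((x : ZMod c).val : ℝ) / c) + β : ℝ) : ℂ)) =
        cexp (2 * π * Complex.I * ((-k : ℤ) : ℂ) * β) *
        cexp (2 * π * Complex.I * ((-k : ℤ) : ℂ) * ((x : ZMod c).val : ℂ) / c) := by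
      rw [← Complex.exp_add]
      congr 1
      push_cast
      ring
    rw [h4]
    have h5 : ∀ A B D G : ℂ, A * (B ^ 2 * D) * (G * cexp (2 * π * Complex.I *
        ((-k : ℤ) : ℂ) * ((x : ZMod c).val : ℂ) / c)) = (A * B ^ 2 * G) *
        (D * cexp (2 * π * Complex.I * ((-k : ℤ) : ℂ) * ((x : ZMod c).val : ℂ) / c)) := by
      intros
      ring
    rw [h5, ← tsum_mul_right]
    congr 1
    apply tsum_congr
    intro m
    rw [hE, mul_assoc (a m * _), ← Complex.exp_add]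
    congr 2
    push_cast
    ring
  rw [Finset.sum_congr rfl (fun x _ => hterm x), ← Finset.mul_sum]
  have hexp : ∀ j : ℤ, ‖cexp (2 * π * Complex.I * (j : ℂ) / c)‖ = 1 := by
    intro j
    have h1 : (2 * π * Complex.I * (j : ℂ) / c) = ((2 * π * (j : ℝ) / c : ℝ) : ℂ) * Complex.I := by
      push_cast
      ring
    rw [h1, Complex.norm_exp_ofReal_mul_I]
  have hsumx : ∀ x ∈ (Finset.univ : Finset (ZMod c)ˣ), Summable (fun m : ℕ =>
      E m * cexp (2 * π * Complex.I *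
        (((-k) * ((x : ZMod c).val : ℤ) + (-(m : ℤ)) *
        (((x⁻¹ : (ZMod c)ˣ) : ZMod c).val : ℤ) : ℤ) : ℂ) / c)) := by
    intro x _
    apply Summable.of_norm
    simp only [norm_mul, hexp, mul_one]
    exact hs'
  rw [← Summable.tsum_finsetSum hsumx]
  have hrf : Fact r.Prime := ⟨hr⟩
  obtain ⟨Kl, hKl⟩ : ∃ Kl : ℝ, Kl = (N.totient : ℝ) * (2 * (r : ℝ) ^ (3 / 4 : ℝ)) := ⟨_, rfl⟩
  have hKl0 : 0 ≤ Kl := by rw [hKl]; positivity
  have hKM : ∀ j : ℤ, ‖KL3.KM c ((-k : ℤ) : ZMod c) (j : ZMod c)‖ ≤ Kl := by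
    intro j
    subst hc
    rw [hKl]
    apply KL3.KM_int_le N r ((Nat.coprime_comm.1 ((Nat.Prime.coprime_iff_not_dvd hr).2 hrN)))
    rintro ⟨h1, -⟩
    exact hk ((dvd_neg).1 h1)
  have hin : ∀ m : ℕ, ‖∑ x : (ZMod c)ˣ, E m * cexp (2 * π * Complex.I *
        (((-k) * ((x : ZMod c).val : ℤ) + (-(m : ℤ)) *
        (((x⁻¹ : (ZMod c)ˣ) : ZMod c).val : ℤ) : ℤ) : ℂ) / c)‖ ≤ Kl * ‖E m‖ := by
    intro m
    rw [← Finset.mul_sum, ← KL3.KM_eq_exp c (-k) (-(m : ℤ)), norm_mul, mul_comm Kl]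
    exact mul_le_mul_of_nonneg_left (hKM _) (norm_nonneg _)
  have hts := tsum_of_norm_bounded ((hs'.mul_left Kl).hasSum) hin
  rw [tsum_mul_left] at hts
  have hexpβ : ‖cexp (2 * π * Complex.I * ((-k : ℤ) : ℂ) * β)‖ = 1 := by
    have h1 : (2 * π * Complex.I * ((-k : ℤ) : ℂ) * β) =
        ((2 * π * ((-k : ℤ) : ℝ) * β : ℝ) : ℂ) * Complex.I := by
      push_cast
      ring
    rw [h1, Complex.norm_exp_ofReal_mul_I]
  have hnw : normSq w = β ^ 2 + y ^ 2 := by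
    rw [normSq_apply, hw]
    simp
    ring
  have hns : 0 < normSq w := normSq_pos.2 hw0
  have hnorm : ‖((c : ℂ) * w)⁻¹ ^ 2‖ = 1 / ((c : ℝ) ^ 2 * normSq w) := by
    rw [norm_pow, norm_inv, norm_mul, Complex.norm_natCast, inv_pow, _root_.mul_pow,
      Complex.sq_norm, _root_.one_div]
  rw [norm_mul, norm_mul, norm_mul, hnorm, hexpβ, Complex.norm_real, Real.norm_of_nonneg hy.le,
    mul_one]
  have hK0 : 0 ≤ y * (1 / ((c : ℝ) ^ 2 * normSq w)) := by positivity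
  refine (mul_le_mul_of_nonneg_left (hts.trans (mul_le_mul_of_nonneg_left hb' hKl0)) hK0).trans
    (le_of_eq ?_)
  rw [hKl, ← hnw]
  field_simp

/-- the function `y f(x + iy) e(-mx)` -/
noncomputable def HH1 (f : CuspForm (Gamma0 N) 2) (m : ℕ) (y x : ℝ) : ℂ :=
  (y : ℂ) * f (vert x y) * cexp (2 * π * Complex.I * ((-(m : ℤ) : ℤ) : ℂ) * (x : ℂ))

omit [NeZero N] in
theorem cont_vert (f : CuspForm (Gamma0 N) 2) {y : ℝ} (hy : 0 < y) :
    Continuous fun x : ℝ => f (vert x y) := by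
  have h1 : DifferentiableOn ℂ (⇑f ∘ ofComplex) {z | 0 < z.im} :=
    UpperHalfPlane.mdifferentiable_iff.1 (CuspFormClass.holo f)
  have h2 : Continuous fun x : ℝ => (x : ℂ) + (y : ℂ) * Complex.I := by fun_prop
  exact h1.continuousOn.comp_continuous h2 (fun x => by simpa using hy)

omit [NeZero N] in
theorem cont_H (f : CuspForm (Gamma0 N) 2) (m : ℕ) {y : ℝ} (hy : 0 < y) :
    Continuous (HH1 f m y) := by
  exact (continuous_const.mul (cont_vert f hy)).mul (by fun_prop)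

theorem per_H (f : CuspForm (Gamma0 N) 2) (m : ℕ) {y : ℝ} (hy : 0 < y) (x : ℝ) :
    HH1 f m y (x + 1) = HH1 f m y x := by
  unfold HH1
  have h1 : f (vert (x + 1) y) = f (vert x y) := by
    have e1 := hasSum_q f (fun n => rfl) ((x : ℂ) + (y : ℂ) * Complex.I) (by simpa using hy)
    have e2 := hasSum_q f (fun n => rfl) (((x + 1 : ℝ) : ℂ) + (y : ℂ) * Complex.I)
      (by simpa using hy)
    refine e2.unique ?_
    convert! e1 using 2 with n
    congr 1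
    rw [Complex.exp_eq_exp_iff_exists_int]
    refine ⟨n, ?_⟩
    push_cast
    ring
  rw [h1]
  congr 1
  rw [Complex.exp_eq_exp_iff_exists_int]
  refine ⟨-(m : ℤ), ?_⟩
  push_cast
  ring

omit [NeZero N] in
theorem norm_H {f : CuspForm (Gamma0 N) 2} {C : ℝ}
    (hC : ∀ z : ℍ, ‖f z‖ ≤ C / z.im) (m : ℕ) {y : ℝ} (hy : 0 < y) (x : ℝ) :
    ‖HH1 f m y x‖ ≤ C := by
  unfold HH1
  have h1 : (2 * π * Complex.I * ((-(m : ℤ) : ℤ) : ℂ) * (x : ℂ)) =
      ((2 * π * ((-(m : ℤ) : ℤ) : ℝ) * x : ℝ) : ℂ) * Complex.I := by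
    push_cast
    ring
  rw [norm_mul, norm_mul, h1, Complex.norm_exp_ofReal_mul_I, mul_one, Complex.norm_real,
    Real.norm_of_nonneg hy.le]
  have h2 := hC (vert x y)
  rw [im_vert hy] at h2
  calc y * ‖f (vert x y)‖ ≤ y * (C / y) := mul_le_mul_of_nonneg_left h2 hy.le
    _ = C := by field_simp

omit [NeZero N] in
theorem int_H (f : CuspForm (Gamma0 N) 2) (m : ℕ) {y : ℝ} (hy : 0 < y) :
    ∫ x in (0 : ℝ)..1, HH1 f m y x =
      (y : ℂ) * (qExpansion 1 f).coeff m * (Real.exp (-(2 * π * m * y)) : ℂ) := by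
  have h1 : (1 : ℝ) ∈ ((Gamma0 N : Subgroup SL(2, ℤ)) : Subgroup (GL (Fin 2) ℝ)).strictPeriods := by
    rw [strictPeriods_Gamma0]
    exact AddSubgroup.mem_zmultiples 1
  have h2 := ModularFormClass.qExpansion_coeff_eq_intervalIntegral f one_pos h1 m hy
  rw [h2]
  simp only [ofReal_one, div_one, one_mul]
  rw [← intervalIntegral.integral_const_mul, ← intervalIntegral.integral_mul_const]
  refine intervalIntegral.integral_congr fun x _ => ?_
  unfold HH1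
  have him : 0 < ((x : ℂ) + (y : ℂ) * Complex.I).im := by simpa using hy
  have h3 : vert x y = ⟨(x : ℂ) + (y : ℂ) * Complex.I, him⟩ := by
    rw [vert, ofComplex_apply_of_im_pos him]
  rw [h3]
  have h4 : cexp (2 * π * Complex.I * ((-(m : ℤ) : ℤ) : ℂ) * (x : ℂ)) =
      1 / Periodic.qParam 1 ((x : ℂ) + (y : ℂ) * Complex.I) ^ m *
        (Real.exp (-(2 * π * m * y)) : ℂ) := by
    rw [Periodic.qParam, ← Complex.exp_nat_mul, _root_.one_div, ← Complex.exp_neg,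
      Complex.ofReal_exp, ← Complex.exp_add]
    congr 1
    push_cast
    simp only [div_one]
    linear_combination ((2 * π * m * y) : ℂ) * Complex.I_mul_I
  rw [h4]
  ring

/-- the inequality for one `m` -/
theorem one_m (f : CuspForm (Gamma0 N) 2) : ∃ C B : ℝ, 0 ≤ C ∧ 0 ≤ B ∧ ∀ (m Q : ℕ) (R : Finset ℕ),
    1 ≤ m → 1 ≤ Q → 8 * Q ≤ m → R.Nonempty →
    (∀ r ∈ R, r.Prime ∧ Q < r ∧ r ≤ 4 * Q ∧ ¬ r ∣ N * m) →
    ‖(qExpansion 1 f).coeff m‖ ≤ m * (C * (Q : ℝ) ^ (7 / 4 : ℝ) / m +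
      B * √(m / (2 * R.card * Q) + m / (2 * Q ^ 2) + 3 / Q)) := by
  obtain ⟨C, hC0, hC⟩ := coeff_le f (fun n => rfl)
  obtain ⟨B, hB⟩ := CuspFormClass.exists_bound f
  have hB' : ∀ z : ℍ, ‖f z‖ ≤ B / z.im := by
    intro z
    have := hB z
    norm_num at this
    exact this
  have hB0 : 0 ≤ B := (norm_nonneg _).trans (norm_H hB' 0 one_pos 0)
  refine ⟨Real.exp (2 * π) * (256 * C * (N : ℝ) ^ 2), Real.exp (2 * π) * B, by positivity,
    by positivity, ?_⟩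
  intro m Q R hm hQ hQm hne hR
  have hmR : (1 : ℝ) ≤ m := by exact_mod_cast hm
  have hm0 : (0 : ℝ) < m := by linarith
  have hQR : (1 : ℝ) ≤ Q := by exact_mod_cast hQ
  have hQ0 : (0 : ℝ) < Q := by linarith
  have hy : (0 : ℝ) < 1 / m := by positivity
  have hN0 : (0 : ℝ) < N := by exact_mod_cast Nat.pos_of_ne_zero (NeZero.ne N)
  have hφ0 : (0 : ℝ) < N.totient := by
    exact_mod_cast Nat.totient_pos.2 (Nat.pos_of_ne_zero (NeZero.ne N))
  have hRc : (0 : ℝ) < R.card := by exact_mod_cast hne.card_pos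
  set W : ℝ := C * (N.totient * (2 * ((4 * Q : ℕ) : ℝ) ^ (3 / 4 : ℝ))) *
    (((N * (4 * Q) : ℕ) : ℝ) ^ 2 * (2 / m ^ 2)) * m with hW
  have key := jut_mod N R Q (M := ((4 * Q : ℕ) : ℝ)) hQ
    (fun r hr => ⟨(hR r hr).1, (hR r hr).2.1, by exact_mod_cast (hR r hr).2.2.1⟩)
    (fun r hr => by
      have h1 := (hR r hr).2.2.2
      have h2 : ¬ r ∣ N := fun h => h1 (h.mul_right m)
      exact Nat.coprime_comm.1 ((Nat.Prime.coprime_iff_not_dvd (hR r hr).1).2 h2))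
    hne hy (by
      have : (8 * Q : ℝ) ≤ m := by exact_mod_cast hQm
      push_cast
      rw [mul_one_div, div_le_one hm0]
      linarith)
    (HH1 f m (1 / m)) (cont_H f m hy) (per_H f m hy) (norm_H hB' m hy) (W := W) (by
      intro r hr _ u hu
      obtain ⟨hr1, hr2, hr3, hr4⟩ := hR r hr
      have h2 : ¬ r ∣ N := fun h => hr4 (h.mul_right m)
      have h3 : ¬ (r : ℤ) ∣ (m : ℤ) := fun h => hr4 ((Int.natCast_dvd_natCast.1 h).mul_left N)
      have h1 := arc_one hC0 hC hr1 h2 rfl h3 (y := 1 / m) (β := u) hy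
      refine h1.trans ?_
      rw [hW]
      have hr3' : (r : ℝ) ≤ ((4 * Q : ℕ) : ℝ) := by exact_mod_cast hr3
      have e1 : (r : ℝ) ^ (3 / 4 : ℝ) ≤ ((4 * Q : ℕ) : ℝ) ^ (3 / 4 : ℝ) :=
        Real.rpow_le_rpow (Nat.cast_nonneg _) hr3' (by norm_num)
      have e2 : (((N * r : ℕ) : ℝ)) ^ 2 ≤ ((N * (4 * Q) : ℕ) : ℝ) ^ 2 := by
        apply pow_le_pow_left₀ (Nat.cast_nonneg _)
        exact_mod_cast Nat.mul_le_mul_left N hr3
      have e3 : u ^ 2 + (1 / (m : ℝ)) ^ 2 ≤ 2 / m ^ 2 := by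
        have := sq_le_sq' (by linarith [(abs_le.1 hu).1]) (abs_le.1 hu).2
        have e4 : (2 : ℝ) / m ^ 2 = 2 * (1 / m) ^ 2 := by
          field_simp
        rw [e4]
        linarith
      rw [div_eq_mul_one_div _ (1 / (m : ℝ)), one_div_one_div]
      apply mul_le_mul_of_nonneg_right _ hm0.le
      apply mul_le_mul _ _ (by positivity) (by positivity)
      · apply mul_le_mul_of_nonneg_left _ hC0
        apply mul_le_mul_of_nonneg_left _ hφ0.le
        linarith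
      · exact mul_le_mul e2 e3 (by positivity) (by positivity))
  rw [int_H f m hy] at key
  have hΛ : (R.card : ℝ) * Q ≤ ((∑ r ∈ R, (r - 1) : ℕ) : ℝ) := by
    have : R.card * Q ≤ ∑ r ∈ R, (r - 1) := by
      rw [← smul_eq_mul]
      apply Finset.card_nsmul_le_sum
      intro r hr
      have := (hR r hr).2.1
      omega
    exact_mod_cast this
  have hW1 : W * R.card / (N.totient * ((∑ r ∈ R, (r - 1) : ℕ) : ℝ)) ≤
      256 * C * (N : ℝ) ^ 2 * (Q : ℝ) ^ (7 / 4 : ℝ) / m := by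
    have h1 : W * R.card / (N.totient * ((∑ r ∈ R, (r - 1) : ℕ) : ℝ)) ≤
        W * R.card / (N.totient * (R.card * Q)) := by
      apply div_le_div_of_nonneg_left (by positivity) (by positivity)
      exact mul_le_mul_of_nonneg_left hΛ hφ0.le
    refine h1.trans ?_
    have h2 : W * R.card / (N.totient * (R.card * Q)) =
        64 * C * (N : ℝ) ^ 2 * (((4 * Q : ℕ) : ℝ) ^ (3 / 4 : ℝ) * Q) / m := by
      rw [hW]
      push_cast
      field_simp
      ring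
    rw [h2]
    have h3 : ((4 * Q : ℕ) : ℝ) ^ (3 / 4 : ℝ) * Q ≤ 4 * (Q : ℝ) ^ (7 / 4 : ℝ) := by
      push_cast
      rw [Real.mul_rpow (by norm_num) hQ0.le]
      have e1 : (4 : ℝ) ^ (3 / 4 : ℝ) ≤ 4 := by
        calc (4 : ℝ) ^ (3 / 4 : ℝ) ≤ 4 ^ (1 : ℝ) :=
              Real.rpow_le_rpow_of_exponent_le (by norm_num) (by norm_num)
          _ = 4 := Real.rpow_one 4
      have e2 : (Q : ℝ) ^ (7 / 4 : ℝ) = (Q : ℝ) ^ (3 / 4 : ℝ) * Q := by
        rw [← Real.rpow_add_one hQ0.ne']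
        norm_num
      rw [e2, mul_assoc]
      exact mul_le_mul_of_nonneg_right e1 (by positivity)
    apply div_le_div_of_nonneg_right _ hm0.le
    calc 64 * C * (N : ℝ) ^ 2 * (((4 * Q : ℕ) : ℝ) ^ (3 / 4 : ℝ) * Q) ≤
          64 * C * (N : ℝ) ^ 2 * (4 * (Q : ℝ) ^ (7 / 4 : ℝ)) :=
          mul_le_mul_of_nonneg_left h3 (by positivity)
      _ = 256 * C * (N : ℝ) ^ 2 * (Q : ℝ) ^ (7 / 4 : ℝ) := by ring
  have hE : 1 / (2 * (1 / (m : ℝ)) * R.card * Q) + 1 / (2 * (1 / (m : ℝ)) * Q ^ 2) + 3 / Q =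
      m / (2 * R.card * Q) + m / (2 * Q ^ 2) + 3 / Q := by
    field_simp
  rw [hE] at key
  have hn : ‖(((1 / (m : ℝ) : ℝ)) : ℂ) * (qExpansion 1 f).coeff m *
      (Real.exp (-(2 * π * m * (1 / (m : ℝ)))) : ℂ)‖ =
      ‖(qExpansion 1 f).coeff m‖ / m * Real.exp (-(2 * π)) := by
    rw [norm_mul, norm_mul, Complex.norm_real, Complex.norm_real,
      Real.norm_of_nonneg (by positivity), Real.norm_of_nonneg (Real.exp_pos _).le]
    have : 2 * π * m * (1 / (m : ℝ)) = 2 * π := by field_simp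
    rw [this]
    ring
  rw [hn] at key
  have h5 := key.trans (add_le_add_left hW1 _)
  have h6 : Real.exp (-(2 * π)) * Real.exp (2 * π) = 1 := by
    rw [← Real.exp_add]
    simp
  have h7 := mul_le_mul_of_nonneg_right h5 (show 0 ≤ Real.exp (2 * π) * m by positivity)
  have h8 : ‖(qExpansion 1 f).coeff m‖ / m * Real.exp (-(2 * π)) * (Real.exp (2 * π) * m) =
      ‖(qExpansion 1 f).coeff m‖ := by
    calc ‖(qExpansion 1 f).coeff m‖ / m * Real.exp (-(2 * π)) * (Real.exp (2 * π) * m) =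
        (Real.exp (-(2 * π)) * Real.exp (2 * π)) * (‖(qExpansion 1 f).coeff m‖ / m * m) := by ring
      _ = ‖(qExpansion 1 f).coeff m‖ := by
        rw [h6, one_mul, div_mul_cancel₀ _ hm0.ne']
  rw [h8] at h7
  refine h7.trans (le_of_eq ?_)
  ring

end Cb

/-- **Kloosterman's bound**: the coefficients of a cusp form of weight two are `O(m^(1-δ))`. -/
theorem coef_bound' (g : CuspForm (Gamma0 N) 2) {b : ℕ → ℂ}
    (hb : ∀ n, (qExpansion 1 g).coeff n = b n) :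
    ∃ C δ : ℝ, 0 < δ ∧ ∀ m : ℕ, 1 ≤ m → ‖b m‖ ≤ C * (m : ℝ) ^ (1 - δ) := by
  obtain ⟨C, B, hC0, hB0, hmain⟩ := Cb.one_m g
  obtain ⟨D, hD0, hD⟩ := coeff_le g (fun n => rfl)
  obtain ⟨Q₀, hQ₀2, hcheb⟩ := cheb_count'
  have hN0 : (0 : ℝ) < N := by exact_mod_cast Nat.pos_of_ne_zero (NeZero.ne N)
  -- the conditions for large `m`
  have hev : ∀ᶠ m : ℕ in atTop, 1 ≤ m ∧ (Q₀ : ℝ) ≤ (m : ℝ) ^ (17 / 32 : ℝ) ∧
      8 * (2 * (m : ℝ) ^ (17 / 32 : ℝ)) ≤ m ∧
      4 * Real.log ((N * m : ℕ) : ℝ) ≤ (m : ℝ) ^ (17 / 32 : ℝ) := by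
    have h0 : Tendsto (fun m : ℕ => (m : ℝ)) atTop atTop := tendsto_natCast_atTop_atTop
    have h1 : ∀ᶠ x : ℝ in atTop, (Q₀ : ℝ) ≤ x ^ (17 / 32 : ℝ) :=
      (tendsto_rpow_atTop (by norm_num)).eventually_ge_atTop _
    have h2 : ∀ᶠ x : ℝ in atTop, 16 ≤ x ^ (15 / 32 : ℝ) :=
      (tendsto_rpow_atTop (by norm_num)).eventually_ge_atTop _
    have h3 : ∀ᶠ x : ℝ in atTop, ‖Real.log x‖ ≤ (1 / 8) * ‖x ^ (17 / 32 : ℝ)‖ :=
      (isLittleO_log_rpow_atTop (by norm_num)).bound (by norm_num)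
    have h4 : ∀ᶠ x : ℝ in atTop, 8 * Real.log N ≤ x ^ (17 / 32 : ℝ) :=
      (tendsto_rpow_atTop (by norm_num)).eventually_ge_atTop _
    filter_upwards [eventually_ge_atTop 1, h0.eventually h1, h0.eventually h2, h0.eventually h3,
      h0.eventually h4] with m m1 m2 m3 m4 m5
    have hmR : (1 : ℝ) ≤ m := by exact_mod_cast m1
    have hm0 : (0 : ℝ) < m := by linarith
    refine ⟨m1, m2, ?_, ?_⟩
    · have e1 : (m : ℝ) = (m : ℝ) ^ (15 / 32 : ℝ) * (m : ℝ) ^ (17 / 32 : ℝ) := by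
        rw [← Real.rpow_add hm0]
        norm_num
      calc 8 * (2 * (m : ℝ) ^ (17 / 32 : ℝ)) = 16 * (m : ℝ) ^ (17 / 32 : ℝ) := by ring
        _ ≤ (m : ℝ) ^ (15 / 32 : ℝ) * (m : ℝ) ^ (17 / 32 : ℝ) :=
          mul_le_mul_of_nonneg_right m3 (by positivity)
        _ = m := e1.symm
    · rw [Real.norm_of_nonneg (Real.log_nonneg hmR), Real.norm_of_nonneg (by positivity)] at m4
      push_cast
      rw [Real.log_mul hN0.ne' hm0.ne']
      linarith
  obtain ⟨m₀, hm₀⟩ := eventually_atTop.1 hev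
  refine ⟨4 * C + 12 * B + D * (m₀ : ℝ) ^ (1 / 64 : ℝ), 1 / 64, by norm_num, ?_⟩
  intro m hm
  have hmR : (1 : ℝ) ≤ m := by exact_mod_cast hm
  have hm0 : (0 : ℝ) < m := by linarith
  rw [← hb m]
  by_cases hmm : m₀ ≤ m
  · obtain ⟨-, k2, k3, k4⟩ := hm₀ m hmm
    set X : ℝ := (m : ℝ) ^ (17 / 32 : ℝ) with hX
    have hX1 : 1 ≤ X := Real.one_le_rpow hmR (by norm_num)
    set Q : ℕ := ⌈X⌉₊ with hQdef
    have hQX : X ≤ Q := Nat.le_ceil X
    have hQX2 : (Q : ℝ) ≤ 2 * X := by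
      have := Nat.ceil_lt_add_one (show 0 ≤ X by linarith)
      linarith
    have hQ1 : (1 : ℝ) ≤ Q := hX1.trans hQX
    have hQ1' : 1 ≤ Q := by exact_mod_cast hQ1
    have hQ0 : (0 : ℝ) < Q := by linarith
    have hQQ : Q₀ ≤ Q := by exact_mod_cast k2.trans hQX
    have hQ2 : 2 ≤ Q := hQ₀2.trans hQQ
    have hQ2R : (2 : ℝ) ≤ Q := by exact_mod_cast hQ2
    have hlogQ : 0 < Real.log Q := Real.log_pos (by linarith)
    set R : Finset ℕ := (Finset.Ioc Q (4 * Q)).filter fun r => r.Prime ∧ ¬ r ∣ N * m with hR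
    have hNm : 1 ≤ N * m := Nat.mul_pos (Nat.pos_of_ne_zero (NeZero.ne N)) (by omega)
    have hcard := hcheb Q hQQ (N * m) hNm
    have hcard2 : (Q : ℝ) / Real.log Q / 4 ≤ (R.card : ℝ) := by
      refine le_trans ?_ hcard
      have e1 : Real.log ((N * m : ℕ) : ℝ) / Real.log Q ≤ (Q : ℝ) / Real.log Q / 4 := by
        rw [div_div, mul_comm (Real.log (Q : ℝ)) 4, ← div_div]
        apply div_le_div_of_nonneg_right _ hlogQ.le
        linarith
      have e2 : (Q : ℝ) / Real.log Q / 2 = (Q : ℝ) / Real.log Q / 4 + (Q : ℝ) / Real.log Q / 4 := by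
        ring
      linarith
    have hRpos : (0 : ℝ) < R.card := lt_of_lt_of_le (by positivity) hcard2
    have hne : R.Nonempty := by
      rw [← Finset.card_pos]
      exact_mod_cast hRpos
    have h1 := hmain m Q R hm hQ1' (by
      have : (8 * Q : ℝ) ≤ m := by linarith
      exact_mod_cast this) hne (by
      intro r hr
      rw [hR, Finset.mem_filter, Finset.mem_Ioc] at hr
      exact ⟨hr.2.1, hr.1.1, hr.1.2, hr.2.2⟩)
    -- the powers
    set Z : ℝ := (m : ℝ) ^ (1 / 64 : ℝ) with hZ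
    have hZ1 : 1 ≤ Z := Real.one_le_rpow hmR (by norm_num)
    have hZ0 : 0 < Z := by linarith
    have hXZ : X = Z ^ 34 := by
      rw [hX, hZ, ← Real.rpow_natCast, ← Real.rpow_mul hm0.le]
      norm_num
    have hmZ : (m : ℝ) = Z ^ 64 := by
      rw [hZ, ← Real.rpow_natCast, ← Real.rpow_mul hm0.le]
      norm_num
    have hA : (Q : ℝ) ^ (7 / 4 : ℝ) / m ≤ 4 / Z := by
      have e1 : (Q : ℝ) ^ (7 / 4 : ℝ) ≤ (2 * X) ^ (7 / 4 : ℝ) :=
        Real.rpow_le_rpow hQ0.le hQX2 (by norm_num)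
      have e2 : (2 * X) ^ (7 / 4 : ℝ) ≤ 4 * (m : ℝ) ^ (119 / 128 : ℝ) := by
        rw [Real.mul_rpow (by norm_num) (by linarith)]
        have e3 : (2 : ℝ) ^ (7 / 4 : ℝ) ≤ 4 := by
          calc (2 : ℝ) ^ (7 / 4 : ℝ) ≤ 2 ^ (2 : ℝ) :=
                Real.rpow_le_rpow_of_exponent_le (by norm_num) (by norm_num)
            _ = 4 := by norm_num
        have e4 : X ^ (7 / 4 : ℝ) = (m : ℝ) ^ (119 / 128 : ℝ) := by
          rw [hX, ← Real.rpow_mul hm0.le]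
          norm_num
        rw [e4]
        exact mul_le_mul_of_nonneg_right e3 (by positivity)
      have e5 : (m : ℝ) ^ (119 / 128 : ℝ) ≤ m / Z := by
        rw [le_div_iff₀ hZ0, hZ, ← Real.rpow_add hm0]
        calc (m : ℝ) ^ (119 / 128 + 1 / 64 : ℝ) ≤ (m : ℝ) ^ (1 : ℝ) :=
              Real.rpow_le_rpow_of_exponent_le hmR (by norm_num)
          _ = m := Real.rpow_one _
      rw [div_le_div_iff₀ hm0 hZ0]
      have e6 : (m : ℝ) ^ (119 / 128 : ℝ) * Z ≤ m := by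
        rwa [le_div_iff₀ hZ0] at e5
      nlinarith [e1.trans e2]
    have hlog : Real.log Q ≤ 64 * Z ^ 2 := by
      have e1 := Real.log_le_rpow_div hQ0.le (show (0 : ℝ) < 1 / 32 by norm_num)
      have e2 : (Q : ℝ) ^ (1 / 32 : ℝ) ≤ 2 * Z ^ 2 := by
        have e3 : (Q : ℝ) ≤ 2 * m := by
          have : X ≤ m := by
            rw [hX]
            calc (m : ℝ) ^ (17 / 32 : ℝ) ≤ (m : ℝ) ^ (1 : ℝ) :=
                  Real.rpow_le_rpow_of_exponent_le hmR (by norm_num)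
              _ = m := Real.rpow_one _
          linarith
        calc (Q : ℝ) ^ (1 / 32 : ℝ) ≤ (2 * m) ^ (1 / 32 : ℝ) :=
              Real.rpow_le_rpow hQ0.le e3 (by norm_num)
          _ = 2 ^ (1 / 32 : ℝ) * (m : ℝ) ^ (1 / 32 : ℝ) := Real.mul_rpow (by norm_num) hm0.le
          _ ≤ 2 * Z ^ 2 := by
            have e4 : (2 : ℝ) ^ (1 / 32 : ℝ) ≤ 2 := by
              calc (2 : ℝ) ^ (1 / 32 : ℝ) ≤ 2 ^ (1 : ℝ) :=
                    Real.rpow_le_rpow_of_exponent_le (by norm_num) (by norm_num)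
                _ = 2 := Real.rpow_one 2
            have e5 : (m : ℝ) ^ (1 / 32 : ℝ) = Z ^ 2 := by
              rw [hZ, ← Real.rpow_natCast, ← Real.rpow_mul hm0.le]
              norm_num
            rw [e5]
            exact mul_le_mul_of_nonneg_right e4 (by positivity)
      have e6 : (Q : ℝ) ^ (1 / 32 : ℝ) / (1 / 32) = 32 * (Q : ℝ) ^ (1 / 32 : ℝ) := by ring
      rw [e6] at e1
      linarith
    have hS : √(m / (2 * R.card * Q) + m / (2 * Q ^ 2) + 3 / Q) ≤ 12 / Z := by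
      rw [show (12 : ℝ) / Z = √((12 / Z) ^ 2) from (Real.sqrt_sq (by positivity)).symm]
      apply Real.sqrt_le_sqrt
      have s0 : Z ^ 34 ≤ Q := by rw [← hXZ]; exact hQX
      have s1 : (m : ℝ) / (2 * R.card * Q) ≤ 128 / Z ^ 2 := by
        have t1 : (Q : ℝ) / Real.log Q / 4 * Q ≤ R.card * Q :=
          mul_le_mul_of_nonneg_right hcard2 hQ0.le
        have t2 : (m : ℝ) / (2 * R.card * Q) ≤ m / (2 * ((Q : ℝ) / Real.log Q / 4 * Q)) := by
          apply div_le_div_of_nonneg_left hm0.le (by positivity)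
          linarith
        refine t2.trans ?_
        have t3 : (m : ℝ) / (2 * ((Q : ℝ) / Real.log Q / 4 * Q)) = 2 * m * Real.log Q / Q ^ 2 := by
          field_simp
          ring
        rw [t3, div_le_div_iff₀ (by positivity) (by positivity)]
        have t4 : (Z ^ 34) ^ 2 ≤ (Q : ℝ) ^ 2 := pow_le_pow_left₀ (by positivity) s0 2
        have t5 : 2 * (m : ℝ) * Real.log Q * Z ^ 2 ≤ 2 * m * (64 * Z ^ 2) * Z ^ 2 := by
          apply mul_le_mul_of_nonneg_right _ (by positivity)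
          exact mul_le_mul_of_nonneg_left hlog (by positivity)
        refine t5.trans ?_
        have t6 : 2 * (m : ℝ) * (64 * Z ^ 2) * Z ^ 2 = 128 * (Z ^ 34) ^ 2 := by
          rw [hmZ]
          ring
        rw [t6]
        linarith
      have s2 : (m : ℝ) / (2 * Q ^ 2) ≤ 1 / Z ^ 2 := by
        rw [div_le_div_iff₀ (by positivity) (by positivity), hmZ]
        have t4 : (Z ^ 34) ^ 2 ≤ (Q : ℝ) ^ 2 := pow_le_pow_left₀ (by positivity) s0 2
        have t7 : Z ^ 64 * Z ^ 2 ≤ (Z ^ 34) ^ 2 := by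
          have : Z ^ 64 * Z ^ 2 = Z ^ 66 := by ring
          rw [this]
          have : (Z ^ 34) ^ 2 = Z ^ 68 := by ring
          rw [this]
          exact pow_le_pow_right₀ hZ1 (by norm_num)
        nlinarith [sq_nonneg (Q : ℝ)]
      have s3 : (3 : ℝ) / Q ≤ 3 / Z ^ 2 := by
        apply div_le_div_of_nonneg_left (by norm_num) (by positivity)
        exact (pow_le_pow_right₀ hZ1 (by norm_num)).trans s0
      have s4 : (12 / Z) ^ 2 = 144 / Z ^ 2 := by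
        rw [div_pow]
        norm_num
      rw [s4]
      have s5 : 128 / Z ^ 2 + 1 / Z ^ 2 + 3 / Z ^ 2 ≤ 144 / Z ^ 2 := by
        rw [← add_div, ← add_div]
        apply div_le_div_of_nonneg_right _ (by positivity)
        norm_num
      linarith
    have hmZ' : (m : ℝ) ^ (1 - 1 / 64 : ℝ) = m / Z := by
      rw [Real.rpow_sub hm0, Real.rpow_one]
    rw [hmZ']
    calc ‖(qExpansion 1 g).coeff m‖ ≤ m * (C * (Q : ℝ) ^ (7 / 4 : ℝ) / m +
          B * √(m / (2 * R.card * Q) + m / (2 * Q ^ 2) + 3 / Q)) := h1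
      _ ≤ m * (C * (4 / Z) + B * (12 / Z)) := by
        apply mul_le_mul_of_nonneg_left _ hm0.le
        apply add_le_add
        · rw [mul_div_assoc]
          exact mul_le_mul_of_nonneg_left hA hC0
        · exact mul_le_mul_of_nonneg_left hS hB0
      _ = (4 * C + 12 * B) * (m / Z) := by ring
      _ ≤ (4 * C + 12 * B + D * (m₀ : ℝ) ^ (1 / 64 : ℝ)) * (m / Z) := by
        apply mul_le_mul_of_nonneg_right _ (by positivity)
        have : 0 ≤ D * (m₀ : ℝ) ^ (1 / 64 : ℝ) := by positivity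
        linarith
  · push Not at hmm
    have hmm' : (m : ℝ) ≤ m₀ := by exact_mod_cast hmm.le
    calc ‖(qExpansion 1 g).coeff m‖ ≤ D * m := hD m
      _ = D * ((m : ℝ) ^ (1 / 64 : ℝ) * (m : ℝ) ^ (1 - 1 / 64 : ℝ)) := by
        rw [← Real.rpow_add hm0]
        norm_num
      _ ≤ D * ((m₀ : ℝ) ^ (1 / 64 : ℝ) * (m : ℝ) ^ (1 - 1 / 64 : ℝ)) := by
        apply mul_le_mul_of_nonneg_left _ hD0
        apply mul_le_mul_of_nonneg_right _ (by positivity)
        exact Real.rpow_le_rpow hm0.le hmm' (by norm_num)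
      _ = (D * (m₀ : ℝ) ^ (1 / 64 : ℝ)) * (m : ℝ) ^ (1 - 1 / 64 : ℝ) := by ring
      _ ≤ (4 * C + 12 * B + D * (m₀ : ℝ) ^ (1 / 64 : ℝ)) * (m : ℝ) ^ (1 - 1 / 64 : ℝ) := by
        apply mul_le_mul_of_nonneg_right _ (by positivity)
        linarith

theorem coef_bound (g : CuspForm (Gamma0 N) 2) {b : ℕ → ℝ}
    (hb : ∀ n, (UpperHalfPlane.qExpansion 1 g).coeff n = b n) :
    ∃ C δ : ℝ, 0 < δ ∧ ∀ m : ℕ, 1 ≤ m → |b m| ≤ C * (m : ℝ) ^ (1 - δ) := by
  obtain ⟨C, δ, hδ, h⟩ := coef_bound' g (b := fun n => ((b n : ℝ) : ℂ)) hb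
  refine ⟨C, δ, hδ, fun m hm => ?_⟩
  have := h m hm
  rwa [Complex.norm_real, Real.norm_eq_abs] at this

end Pool.Agent.MU0
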