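import Pool.Agent.MU0.Defs
import Pool.Agent.MU74.Coef
import Pool.Agent.MU74.Parseval

/-!
# The coefficients of the test function and the upper bound of Rankin
-/

set_option autoImplicit false

open Finset CongruenceSubgroup
open Pool.Agent.MZ Pool.Agent.MZ.Per Pool.Agent.MU1
open scoped Real

namespace Pool.Agent.MU0

theorem cf_exp_le (x y : ℝ) (hx : 0 ≤ x) (hy : 0 ≤ y) : |Real.exp (-x) - Real.exp (-y)| ≤ 1 := by
  have h1 : Real.exp (-x) ≤ 1 := Real.exp_le_one_iff.2 (by linarith)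
  have h2 : Real.exp (-y) ≤ 1 := Real.exp_le_one_iff.2 (by linarith)
  rw [abs_le]
  constructor <;> linarith [Real.exp_pos (-x), Real.exp_pos (-y)]

theorem cf_abs_le (a : ℕ → ℤ) (P : Finset ℕ) (M₀ M₁ : ℝ) (h₀ : 0 < M₀) (h₁ : 0 < M₁) (k : ℕ) :
    |cf a P M₀ M₁ k| ≤ |(a k : ℝ)| / k := by
  unfold cf
  split_ifs with h
  · rw [abs_mul, abs_div, Nat.abs_cast]
    exact mul_le_of_le_one_right (by positivity) (cf_exp_le _ _ (by positivity) (by positivity))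
  · rw [abs_zero]
    positivity

theorem cf_le {N : ℕ} [NeZero N] (f : CuspForm (Gamma0 N) 2) {a : ℕ → ℤ}
    (hf : Frm f a) (P : Finset ℕ) (M₀ M₁ : ℝ) (h₀ : 0 < M₀) (h₁ : 0 < M₁) (k : ℕ) :
    |cf a P M₀ M₁ k| ≤ k.divisors.card / √k := by
  refine (cf_abs_le a P M₀ M₁ h₀ h₁ k).trans ?_
  rcases Nat.eq_zero_or_pos k with rfl | hk
  · simp
  · have hk0 : (0 : ℝ) < k := by exact_mod_cast hk
    have hs : 0 < √(k : ℝ) := Real.sqrt_pos.2 hk0
    rw [div_le_div_iff₀ hk0 hs]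
    have h1 := hf.hasse k
    have h2 : √(k : ℝ) * √(k : ℝ) = k := Real.mul_self_sqrt hk0.le
    calc |(a k : ℝ)| * √(k : ℝ) ≤ (k.divisors.card * √(k : ℝ)) * √(k : ℝ) :=
          mul_le_mul_of_nonneg_right h1 hs.le
      _ = k.divisors.card * k := by rw [mul_assoc, h2]

theorem cf_max {N : ℕ} [NeZero N] (f : CuspForm (Gamma0 N) 2) {a : ℕ → ℤ}
    (hf : Frm f a) : ∃ C : ℝ, ∀ (P : Finset ℕ) (M₀ M₁ : ℝ), 1 ≤ M₁ → M₁ ≤ M₀ → ∀ k : ℕ,
    |cf a P M₀ M₁ k| ≤ C * M₁ ^ (-(1 / 3 : ℝ)) := by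
  obtain ⟨A, hA1, hA⟩ := MU74.divisor_bound (ε := 1 / 6) (by norm_num) (by norm_num)
  have hpi := Real.pi_pos
  refine ⟨A * (2 * π), fun P M₀ M₁ h₁ h₀ k => ?_⟩
  have hM1 : 0 < M₁ := by linarith
  have hM0 : 0 < M₀ := by linarith
  rcases Nat.eq_zero_or_pos k with rfl | hk
  · have : cf a P M₀ M₁ 0 = 0 := by simp [cf]
    rw [this, abs_zero]
    positivity
  have hk1 : (1 : ℝ) ≤ k := by exact_mod_cast hk
  have hk0 : (0 : ℝ) < k := by linarith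
  have hak : |(a k : ℝ)| / k ≤ A * (k : ℝ) ^ (-(1 / 3 : ℝ)) := by
    have h1 := hf.hasse k
    have h2 := hA k hk
    rw [div_le_iff₀ hk0]
    calc |(a k : ℝ)| ≤ (A * (k : ℝ) ^ (1 / 6 : ℝ)) * √(k : ℝ) :=
          h1.trans (mul_le_mul_of_nonneg_right h2 (Real.sqrt_nonneg _))
      _ = A * (k : ℝ) ^ (-(1 / 3 : ℝ)) * k := by
          rw [Real.sqrt_eq_rpow, mul_assoc, ← Real.rpow_add hk0, mul_assoc]
          nth_rewrite 3 [← Real.rpow_one (k : ℝ)]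
          rw [← Real.rpow_add hk0]
          norm_num
  rcases le_or_gt M₁ (k : ℝ) with hc | hc
  · refine (cf_abs_le a P M₀ M₁ hM0 hM1 k).trans (hak.trans ?_)
    have h3 : (k : ℝ) ^ (-(1 / 3 : ℝ)) ≤ M₁ ^ (-(1 / 3 : ℝ)) :=
      Real.rpow_le_rpow_of_nonpos hM1 hc (by norm_num)
    have h4 : (1 : ℝ) ≤ 2 * π := by linarith [Real.pi_gt_three]
    calc A * (k : ℝ) ^ (-(1 / 3 : ℝ)) ≤ A * M₁ ^ (-(1 / 3 : ℝ)) := by gcongr
      _ = A * 1 * M₁ ^ (-(1 / 3 : ℝ)) := by ring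
      _ ≤ A * (2 * π) * M₁ ^ (-(1 / 3 : ℝ)) := by gcongr
  · have h5 : |cf a P M₀ M₁ k| ≤ (A * (k : ℝ) ^ (-(1 / 3 : ℝ))) * (2 * π * k / M₁) := by
      unfold cf
      split_ifs with h
      · rw [abs_mul, abs_div, Nat.abs_cast]
        refine mul_le_mul hak ?_ (abs_nonneg _) (by positivity)
        have h6 : Real.exp (-(2 * π * k / M₁)) ≤ Real.exp (-(2 * π * k / M₀)) := by
          apply Real.exp_le_exp.2
          have : 2 * π * k / M₀ ≤ 2 * π * k / M₁ := by gcongr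
          linarith
        rw [abs_of_nonneg (by linarith)]
        have h7 : Real.exp (-(2 * π * k / M₀)) ≤ 1 :=
          Real.exp_le_one_iff.2 (by have : 0 ≤ 2 * π * k / M₀ := by positivity
                                    linarith)
        have h8 := Real.add_one_le_exp (-(2 * π * k / M₁))
        linarith
      · rw [abs_zero]
        positivity
    refine h5.trans ?_
    have h9 : (k : ℝ) ^ (-(1 / 3 : ℝ)) * k = (k : ℝ) ^ (2 / 3 : ℝ) := by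
      nth_rewrite 2 [← Real.rpow_one (k : ℝ)]
      rw [← Real.rpow_add hk0]
      norm_num
    have h10 : (k : ℝ) ^ (2 / 3 : ℝ) ≤ M₁ ^ (2 / 3 : ℝ) :=
      Real.rpow_le_rpow hk0.le hc.le (by norm_num)
    have h11 : M₁ ^ (2 / 3 : ℝ) / M₁ = M₁ ^ (-(1 / 3 : ℝ)) := by
      nth_rewrite 2 [← Real.rpow_one M₁]
      rw [← Real.rpow_sub hM1]
      norm_num
    calc A * (k : ℝ) ^ (-(1 / 3 : ℝ)) * (2 * π * k / M₁) =
          A * (2 * π) * (((k : ℝ) ^ (-(1 / 3 : ℝ)) * k) / M₁) := by ring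
      _ ≤ A * (2 * π) * (M₁ ^ (2 / 3 : ℝ) / M₁) := by rw [h9]; gcongr
      _ = A * (2 * π) * M₁ ^ (-(1 / 3 : ℝ)) := by rw [h11]

open UpperHalfPlane hiding I in
/-- Rankin's upper bound (Parseval and `|f| ≤ C / y`) -/
theorem rankin_upper {N : ℕ} [NeZero N] (f : CuspForm (Gamma0 N) 2) {a : ℕ → ℤ}
    (ha : ∀ n, (UpperHalfPlane.qExpansion 1 f).coeff n = a n) :
    ∃ C : ℝ, ∀ X : ℕ, 1 ≤ X → ∑ k ∈ Icc 1 X, (a k : ℝ) ^ 2 ≤ C * X ^ 2 := by
  obtain ⟨C, hC⟩ := CuspFormClass.exists_bound f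
  have hpi := Real.pi_pos
  have hC0 : 0 ≤ C := by
    have h := hC UpperHalfPlane.I
    have h1 : (0 : ℝ) < UpperHalfPlane.I.im ^ ((2 : ℤ) / 2 : ℝ) := by
      have := UpperHalfPlane.I.im_pos
      positivity
    rw [le_div_iff₀ (by positivity)] at h
    exact (by positivity : (0 : ℝ) ≤ ‖f UpperHalfPlane.I‖ * _).trans h
  refine ⟨C ^ 2 * Real.exp (4 * π), fun X hX => ?_⟩
  have hX0 : (0 : ℝ) < X := by exact_mod_cast hX
  obtain ⟨y, hy⟩ : ∃ y : ℝ, y = 1 / X := ⟨_, rfl⟩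
  have hy0 : 0 < y := by rw [hy]; positivity
  set d : ℕ → ℂ := fun n => (a n : ℂ) * (Real.exp (-(2 * π * n * y)) : ℂ) with hd
  have hterm : ∀ x : ℝ, HasSum (fun n : ℕ => d n * Complex.exp (2 * π * Complex.I * n * x / (1 : ℝ)))
      (f (ofComplex ((x : ℂ) + y * Complex.I))) := by
    intro x
    have him : 0 < ((x : ℂ) + y * Complex.I).im := by simpa using hy0
    have h := hasSum_q f (a := fun n => ((a n : ℤ) : ℂ)) ha ((x : ℂ) + y * Complex.I) him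
    convert h using 2 with n
    rw [hd]
    simp only
    rw [Complex.ofReal_exp, mul_assoc, ← Complex.exp_add]
    congr 2
    push_cast
    linear_combination (-(2 * π * (n : ℂ) * y)) * Complex.I_mul_I
  have hsd : Summable fun n => ‖d n‖ := by
    have h := (hterm 0).summable.norm
    refine h.congr fun n => ?_
    rw [norm_mul]
    simp
  have hB : ∀ x : ℝ, ‖∑' n : ℕ, d n * Complex.exp (2 * π * Complex.I * n * x / (1 : ℝ))‖ ≤ C / y := by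
    intro x
    rw [(hterm x).tsum_eq]
    have him : 0 < ((x : ℂ) + y * Complex.I).im := by simpa using hy0
    have h := hC (ofComplex ((x : ℂ) + y * Complex.I))
    rw [ofComplex_apply_of_im_pos him] at h ⊢
    have h1 : (⟨(x : ℂ) + y * Complex.I, him⟩ : UpperHalfPlane).im = y := by
      change ((x : ℂ) + y * Complex.I).im = y
      simp
    rw [h1] at h
    have h2 : y ^ ((2 : ℤ) / 2 : ℝ) = y := by norm_num
    rwa [h2] at h
  have h := MU74.bessel one_pos hsd (by positivity : 0 ≤ C / y) hB (Icc 1 X)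
  have h1 : ∀ k ∈ Icc 1 X, (a k : ℝ) ^ 2 * Real.exp (-(4 * π)) ≤ ‖d k‖ ^ 2 := by
    intro k hk
    have hkX : (k : ℝ) ≤ X := by exact_mod_cast (mem_Icc.1 hk).2
    have h2 : ‖d k‖ ^ 2 = (a k : ℝ) ^ 2 * Real.exp (-(4 * π * k * y)) := by
      rw [hd]
      simp only
      rw [norm_mul, Complex.norm_real, Real.norm_of_nonneg (Real.exp_pos _).le, _root_.mul_pow,
        Complex.norm_intCast, sq_abs, ← Real.exp_nat_mul]
      congr 2
      push_cast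
      ring
    rw [h2]
    refine mul_le_mul_of_nonneg_left (Real.exp_le_exp.2 ?_) (sq_nonneg _)
    have h3 : (k : ℝ) * y ≤ 1 := by
      rw [hy, mul_one_div, div_le_one hX0]
      exact hkX
    nlinarith
  have h4 : (∑ k ∈ Icc 1 X, (a k : ℝ) ^ 2) * Real.exp (-(4 * π)) ≤ (C / y) ^ 2 := by
    rw [Finset.sum_mul]
    exact (Finset.sum_le_sum h1).trans h
  have h5 : Real.exp (-(4 * π)) * Real.exp (4 * π) = 1 := by rw [← Real.exp_add]; simp
  calc ∑ k ∈ Icc 1 X, (a k : ℝ) ^ 2 =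
        ((∑ k ∈ Icc 1 X, (a k : ℝ) ^ 2) * Real.exp (-(4 * π))) * Real.exp (4 * π) := by
        rw [mul_assoc, h5, mul_one]
    _ ≤ (C / y) ^ 2 * Real.exp (4 * π) := by gcongr
    _ = C ^ 2 * Real.exp (4 * π) * X ^ 2 := by
        rw [hy]
        field_simp

theorem cf_l2 {N : ℕ} [NeZero N] (f : CuspForm (Gamma0 N) 2) {a : ℕ → ℤ}
    (hf : Frm f a) : ∃ C : ℝ, ∀ (P : Finset ℕ) (M₀ M₁ : ℝ), 0 < M₀ → 0 < M₁ → ∀ X : ℕ,
    1 ≤ X → ∑ k ∈ Ico X (2 * X), cf a P M₀ M₁ k ^ 2 ≤ C := by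
  obtain ⟨C, hC⟩ := rankin_upper f hf.coeff
  refine ⟨4 * C, fun P M₀ M₁ h₀ h₁ X hX => ?_⟩
  have hX0 : (0 : ℝ) < X := by exact_mod_cast hX
  have h1 : ∀ k ∈ Ico X (2 * X), cf a P M₀ M₁ k ^ 2 ≤ (a k : ℝ) ^ 2 / X ^ 2 := by
    intro k hk
    have hk1 : (X : ℝ) ≤ k := by exact_mod_cast (mem_Ico.1 hk).1
    have h2 := cf_abs_le a P M₀ M₁ h₀ h₁ k
    calc cf a P M₀ M₁ k ^ 2 = |cf a P M₀ M₁ k| ^ 2 := (sq_abs _).symm
      _ ≤ (|(a k : ℝ)| / k) ^ 2 := pow_le_pow_left₀ (abs_nonneg _) h2 2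
      _ ≤ (|(a k : ℝ)| / X) ^ 2 := by gcongr
      _ = (a k : ℝ) ^ 2 / X ^ 2 := by rw [div_pow, sq_abs]
  have h3 : ∑ k ∈ Ico X (2 * X), (a k : ℝ) ^ 2 ≤ ∑ k ∈ Icc 1 (2 * X), (a k : ℝ) ^ 2 := by
    refine Finset.sum_le_sum_of_subset_of_nonneg ?_ fun _ _ _ => sq_nonneg _
    intro k hk
    rw [mem_Ico] at hk
    rw [mem_Icc]
    omega
  calc ∑ k ∈ Ico X (2 * X), cf a P M₀ M₁ k ^ 2 ≤ ∑ k ∈ Ico X (2 * X), (a k : ℝ) ^ 2 / X ^ 2 :=
        Finset.sum_le_sum h1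
    _ = (∑ k ∈ Ico X (2 * X), (a k : ℝ) ^ 2) / X ^ 2 := by rw [Finset.sum_div]
    _ ≤ (C * ((2 * X : ℕ) : ℝ) ^ 2) / X ^ 2 := by
        gcongr
        exact h3.trans (hC (2 * X) (by omega))
    _ = 4 * C := by
        push_cast
        field_simp
        ring

end Pool.Agent.MU0
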