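import Pool.Agent.MU0.CfMass0

/-!
# The mass of the test function (helper83)

`∑_{k ≤ K} cf(k) a(k)/k ≥ c log M₀ - C (1 + log M₁)`, from Rankin's upper and lower bounds.
-/

set_option autoImplicit false

open Finset CongruenceSubgroup
open Pool.Agent.MZ Pool.Agent.MZ.Per Pool.Agent.MU1
open scoped Real

namespace Pool.Agent.MU0

/-- the abstract form of `cf_mass`; `U`: Rankin's upper bound, `L`: Rankin's lower bound -/
theorem cfm_mass {N : ℕ} {a : ℕ → ℤ} (h1 : a 1 = 1) (hH : HeckeAll N a)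
    (hasse : ∀ n : ℕ, |(a n : ℝ)| ≤ n.divisors.card * √n)
    (U : ∃ C : ℝ, ∀ X : ℕ, 1 ≤ X → ∑ k ∈ Icc 1 X, (a k : ℝ) ^ 2 ≤ C * X ^ 2)
    (L : ∃ c > (0 : ℝ), ∃ C : ℝ, ∀ X : ℕ, 2 ≤ X →
      c * Real.log X - C ≤ ∑ k ∈ Icc 1 X, (a k : ℝ) ^ 2 / (k : ℝ) ^ 2) (r : ℕ) :
    ∃ c > (0 : ℝ), ∃ C : ℝ, ∀ (P : Finset ℕ), P.card ≤ r →
    (∀ l ∈ P, l.Prime) → ∀ (M₀ M₁ : ℝ), 2 ≤ M₁ → M₁ ≤ M₀ → ∀ K : ℕ, M₀ ≤ K →
    c * Real.log M₀ - C * (1 + Real.log M₁) ≤
      ∑ k ∈ Icc 1 K, cf a P M₀ M₁ k * ((a k : ℝ) / k) := by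
  classical
  obtain ⟨C₁, hC₁⟩ := U
  obtain ⟨c, hc, C₂, hL⟩ := L
  have hC₁0 : 0 ≤ C₁ := by
    have := hC₁ 1 le_rfl
    simp only [Icc_self, sum_singleton, Nat.cast_one, one_pow, mul_one] at this
    exact (sq_nonneg _).trans this
  set d : ℝ := Real.exp (-(2 * π)) * (12 ^ r)⁻¹ with hd
  have hd0 : 0 < d := by positivity
  refine ⟨d * c, by positivity, d * (c * Real.log 2 + |C₂|) + 4 * C₁, ?_⟩
  intro P hPr hP M₀ M₁ hM₁ hM K hK
  have hM₁0 : 0 < M₁ := by linarith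
  have hM₀0 : 0 < M₀ := by linarith
  have hlog1 : 0 ≤ Real.log M₁ := Real.log_nonneg (by linarith)
  set X := ⌊M₀⌋₊ with hX
  have hX2 : 2 ≤ X := Nat.le_floor (by push_cast; linarith)
  have hXM : (X : ℝ) ≤ M₀ := Nat.floor_le hM₀0.le
  have hMX : M₀ < X + 1 := Nat.lt_floor_add_one M₀
  have hXK : X ≤ K := by
    have : (X : ℝ) ≤ K := hXM.trans hK
    exact_mod_cast this
  set F : ℕ → ℝ := fun k => (a k : ℝ) ^ 2 / (k : ℝ) ^ 2 with hF
  have hF0 : ∀ k, 0 ≤ F k := fun k => by simp only [hF]; positivity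
  -- the second part: the sum with the exponentials of `M₁`
  set φ : ℕ → ℝ := fun k => Real.exp (-(2 * π * k / M₁)) / (k : ℝ) ^ 2 with hφ
  have hφ0 : ∀ k, 0 ≤ φ k := fun k => by simp only [hφ]; positivity
  have hφm : ∀ k, 1 ≤ k → φ (k + 1) ≤ φ k := by
    intro k hk
    have hk0 : (0 : ℝ) < k := by exact_mod_cast hk
    simp only [hφ]
    push_cast
    refine div_le_div₀ (by positivity) ?_ (by positivity) ?_
    · refine Real.exp_le_exp.2 (neg_le_neg ?_)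
      gcongr
      linarith
    · gcongr
      linarith
  have hCn : ∀ n : ℕ, ∑ k ∈ Icc 1 n, (a k : ℝ) ^ 2 ≤ C₁ * (n : ℝ) ^ 2 := by
    intro n
    rcases Nat.eq_zero_or_pos n with rfl | hn
    · simp
    · exact hC₁ n hn
  have hsec : ∑ k ∈ Icc 1 X, F k * Real.exp (-(2 * π * k / M₁)) ≤ 4 * C₁ * (1 + Real.log M₁) := by
    have habel := cfm_abel hCn hφm X
    have e1 : ∑ k ∈ Icc 1 X, F k * Real.exp (-(2 * π * k / M₁)) =
        ∑ k ∈ Icc 1 X, (a k : ℝ) ^ 2 * φ k := by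
      refine sum_congr rfl fun k _ => ?_
      simp only [hF, hφ]
      ring
    have e2 : ∑ k ∈ Icc 1 X, (2 * (k : ℝ) - 1) * φ k ≤
        2 * ∑ k ∈ Icc 1 X, Real.exp (-(2 * π * k / M₁)) / k := by
      rw [mul_sum]
      refine sum_le_sum fun k hk => ?_
      rw [mem_Icc] at hk
      have hk0 : (0 : ℝ) < k := by exact_mod_cast hk.1
      calc (2 * (k : ℝ) - 1) * φ k ≤ (2 * (k : ℝ)) * φ k :=
            mul_le_mul_of_nonneg_right (by linarith) (hφ0 k)
        _ = 2 * (Real.exp (-(2 * π * k / M₁)) / k) := by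
          simp only [hφ]
          field_simp
    have e3 := cfm_exp_sum (M := M₁) (by linarith) X
    have e4 : 0 ≤ (C₁ * (X : ℝ) ^ 2 - ∑ k ∈ Icc 1 X, (a k : ℝ) ^ 2) * φ X :=
      mul_nonneg (by linarith [hCn X]) (hφ0 X)
    rw [e1]
    have e5 : C₁ * ∑ k ∈ Icc 1 X, (2 * (k : ℝ) - 1) * φ k ≤ C₁ * (4 * (1 + Real.log M₁)) :=
      mul_le_mul_of_nonneg_left (by linarith) hC₁0
    linarith
  -- the first part
  have hfirst : d * (c * Real.log M₀ - c * Real.log 2 - |C₂|) ≤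
      Real.exp (-(2 * π)) * cfmS a P X := by
    have hX0 : (0 : ℝ) < X := by exact_mod_cast (by omega : 0 < X)
    have hlogX : Real.log M₀ - Real.log 2 ≤ Real.log X := by
      rw [← Real.log_div hM₀0.ne' (by norm_num)]
      refine Real.log_le_log (by positivity) ?_
      have : (2 : ℝ) ≤ X := by exact_mod_cast hX2
      linarith
    have hS := cfmS_le h1 hH hasse P hP X
    have hS0 := cfmS_nonneg a P X
    have h12 : (12 : ℝ) ^ P.card ≤ 12 ^ r := pow_le_pow_right₀ (by norm_num) hPr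
    have hS' : ∑ k ∈ Icc 1 X, (a k : ℝ) ^ 2 / (k : ℝ) ^ 2 ≤ 12 ^ r * cfmS a P X :=
      hS.trans (mul_le_mul_of_nonneg_right h12 hS0)
    have hLX := hL X hX2
    have hC₂ := le_abs_self C₂
    have hcl : c * (Real.log M₀ - Real.log 2) ≤ c * Real.log X :=
      mul_le_mul_of_nonneg_left hlogX hc.le
    have hmain : c * Real.log M₀ - c * Real.log 2 - |C₂| ≤ 12 ^ r * cfmS a P X := by linarith
    calc d * (c * Real.log M₀ - c * Real.log 2 - |C₂|) ≤ d * (12 ^ r * cfmS a P X) :=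
          mul_le_mul_of_nonneg_left hmain hd0.le
      _ = Real.exp (-(2 * π)) * cfmS a P X := by
        rw [hd]
        field_simp
  -- the comparison
  have hnn : ∀ k ∈ Icc 1 K, 0 ≤ cf a P M₀ M₁ k * ((a k : ℝ) / k) := by
    intro k hk
    unfold cf
    split_ifs with hg
    · have hle : Real.exp (-(2 * π * k / M₁)) ≤ Real.exp (-(2 * π * k / M₀)) := by
        refine Real.exp_le_exp.2 (neg_le_neg ?_)
        gcongr
      have : (a k : ℝ) / k * (Real.exp (-(2 * π * k / M₀)) - Real.exp (-(2 * π * k / M₁))) *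
          ((a k : ℝ) / k) = ((a k : ℝ) / k) ^ 2 *
            (Real.exp (-(2 * π * k / M₀)) - Real.exp (-(2 * π * k / M₁))) := by ring
      rw [this]
      exact mul_nonneg (sq_nonneg _) (by linarith)
    · simp
  have hsubset : ∑ k ∈ Icc 1 X, cf a P M₀ M₁ k * ((a k : ℝ) / k) ≤
      ∑ k ∈ Icc 1 K, cf a P M₀ M₁ k * ((a k : ℝ) / k) :=
    sum_le_sum_of_subset_of_nonneg (Icc_subset_Icc_right hXK) fun k hk _ => hnn k hk
  have hsplit : Real.exp (-(2 * π)) * cfmS a P X -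
      ∑ k ∈ Icc 1 X, F k * Real.exp (-(2 * π * k / M₁)) ≤
      ∑ k ∈ Icc 1 X, cf a P M₀ M₁ k * ((a k : ℝ) / k) := by
    unfold cfmS
    rw [mul_sum, sum_filter, ← sum_sub_distrib]
    refine sum_le_sum fun k hk => ?_
    rw [mem_Icc] at hk
    have hkX : (k : ℝ) ≤ X := by exact_mod_cast hk.2
    unfold cf
    split_ifs with hg
    · have hle : Real.exp (-(2 * π)) ≤ Real.exp (-(2 * π * k / M₀)) := by
        refine Real.exp_le_exp.2 (neg_le_neg ?_)
        rw [div_le_iff₀ hM₀0]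
        have := Real.pi_pos
        have hkM : (k : ℝ) ≤ M₀ := hkX.trans hXM
        nlinarith
      have : (a k : ℝ) / k * (Real.exp (-(2 * π * k / M₀)) - Real.exp (-(2 * π * k / M₁))) *
          ((a k : ℝ) / k) = F k * Real.exp (-(2 * π * k / M₀)) -
            F k * Real.exp (-(2 * π * k / M₁)) := by
        simp only [hF]
        ring
      rw [this]
      have h3 : F k * Real.exp (-(2 * π)) ≤ F k * Real.exp (-(2 * π * k / M₀)) :=
        mul_le_mul_of_nonneg_left hle (hF0 k)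
      have h4 : (a k : ℝ) ^ 2 / (k : ℝ) ^ 2 = F k := rfl
      rw [h4]
      linarith
    · have : 0 ≤ F k * Real.exp (-(2 * π * k / M₁)) := mul_nonneg (hF0 k) (by positivity)
      simp only [zero_mul]
      linarith
  have hCC : d * (c * Real.log 2 + |C₂|) ≤ d * (c * Real.log 2 + |C₂|) * (1 + Real.log M₁) := by
    have : 0 ≤ d * (c * Real.log 2 + |C₂|) := by
      have := Real.log_nonneg (show (1 : ℝ) ≤ 2 by norm_num)
      positivity
    nlinarith
  nlinarith [hfirst, hsec, hsubset, hsplit, hCC]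

end Pool.Agent.MU0
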