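import Pool.Agent.MU0.Defs

/-!
# The mass of the test function, preparations (helper83)

Multiplicativity of the coefficients, the depletion of a set of primes, and a partial summation.
-/

set_option autoImplicit false

open Finset CongruenceSubgroup
open Pool.Agent.MZ Pool.Agent.MZ.Per Pool.Agent.MU1
open scoped Real

namespace Pool.Agent.MU0

/-- multiplicativity at one prime -/
theorem cfm_mul {N : ℕ} {a : ℕ → ℤ} (h1 : a 1 = 1) (hH : HeckeAll N a) {l : ℕ} (hl : l.Prime)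
    {m : ℕ} (hm : ¬ l ∣ m) (e : ℕ) : a (l ^ e * m) = a (l ^ e) * a m := by
  induction e using Nat.twoStepInduction with
  | zero => simp [h1]
  | one =>
    have h := hH l hl m
    simp only [hm, false_and, if_false, add_zero] at h
    simpa using h
  | more e ih ih' =>
    have h := hH l hl (l ^ (e + 1) * m)
    have h' := hH l hl (l ^ (e + 1))
    have d1 : l ∣ l ^ (e + 1) * m := Dvd.dvd.mul_right (dvd_pow_self l (Nat.succ_ne_zero e)) m
    have d2 : l ∣ l ^ (e + 1) := dvd_pow_self l (Nat.succ_ne_zero e)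
    have q1 : l ^ (e + 1) * m / l = l ^ e * m := by
      rw [pow_succ, mul_assoc, mul_comm l m, ← mul_assoc]
      exact Nat.mul_div_cancel _ hl.pos
    have q2 : l ^ (e + 1) / l = l ^ e := by
      rw [pow_succ]
      exact Nat.mul_div_cancel _ hl.pos
    have r1 : l * (l ^ (e + 1) * m) = l ^ (e + 2) * m := by ring
    have r2 : l * l ^ (e + 1) = l ^ (e + 2) := by ring
    rw [q1, r1] at h
    rw [q2, r2] at h'
    by_cases hN : l ∣ N
    · simp only [hN, not_true_eq_false, and_false, if_false, add_zero] at h h'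
      rw [h, h', ih']
      ring
    · simp only [hN, not_false_eq_true, and_true, d1, d2, if_true] at h h'
      have e1 : a (l ^ (e + 2) * m) = a l * a (l ^ (e + 1) * m) - l * a (l ^ e * m) := by
        linarith
      have e2 : a (l ^ (e + 2)) = a l * a (l ^ (e + 1)) - l * a (l ^ e) := by linarith
      rw [e1, e2, ih, ih']
      ring

/-- the weights -/
theorem cfm_w (n : ℕ) : ∑ e ∈ range n, ((e : ℝ) + 1) ^ 2 / 2 ^ e =
    12 - (2 * (n : ℝ) ^ 2 + 8 * (n : ℝ) + 12) / 2 ^ n := by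
  induction n with
  | zero => simp
  | succ n ih =>
    rw [sum_range_succ, ih]
    have : (2 : ℝ) ^ n ≠ 0 := by positivity
    push_cast
    rw [pow_succ]
    field_simp
    ring

theorem cfm_w_le (n : ℕ) : ∑ e ∈ range n, ((e : ℝ) + 1) ^ 2 / 2 ^ e ≤ 12 := by
  rw [cfm_w]
  have : (0 : ℝ) ≤ (2 * (n : ℝ) ^ 2 + 8 * (n : ℝ) + 12) / 2 ^ n := by positivity
  linarith

/-- the value of `a(k)²/k²` in terms of the part prime to `l` -/
theorem cfm_F {N : ℕ} {a : ℕ → ℤ} (h1 : a 1 = 1) (hH : HeckeAll N a)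
    (hasse : ∀ n : ℕ, |(a n : ℝ)| ≤ n.divisors.card * √n) {l : ℕ} (hl : l.Prime)
    {m : ℕ} (hm : ¬ l ∣ m) (e : ℕ) :
    (a (l ^ e * m) : ℝ) ^ 2 / ((l ^ e * m : ℕ) : ℝ) ^ 2 ≤
      ((e : ℝ) + 1) ^ 2 / 2 ^ e * ((a m : ℝ) ^ 2 / (m : ℝ) ^ 2) := by
  rw [cfm_mul h1 hH hl hm]
  have hl0 : (0 : ℝ) < (l : ℝ) := by exact_mod_cast hl.pos
  have hl2 : (2 : ℝ) ≤ (l : ℝ) := by exact_mod_cast hl.two_le
  have hle : (0 : ℝ) < (l : ℝ) ^ e := by positivity
  have h2e : (2 : ℝ) ^ e ≤ (l : ℝ) ^ e := pow_le_pow_left₀ (by norm_num) hl2 e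
  have hb := hasse (l ^ e)
  rw [Nat.divisors_prime_pow hl, card_map, card_range] at hb
  have hb2 : (a (l ^ e) : ℝ) ^ 2 ≤ ((e : ℝ) + 1) ^ 2 * (l : ℝ) ^ e := by
    have h0 : (0 : ℝ) ≤ |(a (l ^ e) : ℝ)| := abs_nonneg _
    calc (a (l ^ e) : ℝ) ^ 2 = |(a (l ^ e) : ℝ)| ^ 2 := (sq_abs _).symm
      _ ≤ (((e + 1 : ℕ) : ℝ) * √((l ^ e : ℕ) : ℝ)) ^ 2 := pow_le_pow_left₀ h0 hb 2
      _ = ((e : ℝ) + 1) ^ 2 * (l : ℝ) ^ e := by
        rw [_root_.mul_pow, Real.sq_sqrt (by positivity)]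
        push_cast
        ring
  have hq : (a (l ^ e) : ℝ) ^ 2 / ((l : ℝ) ^ e) ^ 2 ≤ ((e : ℝ) + 1) ^ 2 / 2 ^ e := by
    rw [div_le_div_iff₀ (by positivity) (by positivity)]
    calc (a (l ^ e) : ℝ) ^ 2 * 2 ^ e ≤ (((e : ℝ) + 1) ^ 2 * (l : ℝ) ^ e) * (l : ℝ) ^ e :=
          mul_le_mul hb2 h2e (by positivity) (by positivity)
      _ = ((e : ℝ) + 1) ^ 2 * ((l : ℝ) ^ e) ^ 2 := by ring
  have hm0 : (0 : ℝ) ≤ (a m : ℝ) ^ 2 / (m : ℝ) ^ 2 := by positivity
  calc ((a (l ^ e) * a m : ℤ) : ℝ) ^ 2 / ((l ^ e * m : ℕ) : ℝ) ^ 2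
      = (a (l ^ e) : ℝ) ^ 2 / ((l : ℝ) ^ e) ^ 2 * ((a m : ℝ) ^ 2 / (m : ℝ) ^ 2) := by
        push_cast
        rw [_root_.mul_pow, _root_.mul_pow, mul_div_mul_comm]
    _ ≤ _ := mul_le_mul_of_nonneg_right hq hm0

/-- the part of the sum over the `k` prime to `P` -/
noncomputable def cfmS (a : ℕ → ℤ) (P : Finset ℕ) (X : ℕ) : ℝ :=
  ∑ k ∈ (Icc 1 X).filter (fun k => ∀ l ∈ P, ¬ l ∣ k), (a k : ℝ) ^ 2 / (k : ℝ) ^ 2

theorem cfmS_step {N : ℕ} {a : ℕ → ℤ} (h1 : a 1 = 1) (hH : HeckeAll N a)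
    (hasse : ∀ n : ℕ, |(a n : ℝ)| ≤ n.divisors.card * √n) {l : ℕ} (hl : l.Prime)
    (P : Finset ℕ) (X : ℕ) : cfmS a P X ≤ 12 * cfmS a (insert l P) X := by
  classical
  set A := (Icc 1 X).filter (fun k => ∀ l ∈ P, ¬ l ∣ k) with hA
  set B := (Icc 1 X).filter (fun k => ∀ l' ∈ insert l P, ¬ l' ∣ k) with hB
  set F : ℕ → ℝ := fun k => (a k : ℝ) ^ 2 / (k : ℝ) ^ 2 with hF
  set w : ℕ → ℝ := fun e => ((e : ℝ) + 1) ^ 2 / 2 ^ e with hw
  have hF0 : ∀ k, 0 ≤ F k := fun k => by simp only [hF]; positivity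
  have hw0 : ∀ k, 0 ≤ w k := fun k => by simp only [hw]; positivity
  have hsplit : ∀ k ∈ A, l ^ (k.factorization l) * (k / l ^ (k.factorization l)) = k :=
    fun k _ => Nat.ordProj_mul_ordCompl_eq_self k l
  have hmapB : ∀ k ∈ A, k / l ^ (k.factorization l) ∈ B := by
    intro k hk
    rw [hA, mem_filter, mem_Icc] at hk
    obtain ⟨⟨hk1, hk2⟩, hk3⟩ := hk
    rw [hB, mem_filter, mem_Icc]
    refine ⟨⟨Nat.pos_of_ne_zero ?_, le_trans (Nat.div_le_self _ _) hk2⟩, ?_⟩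
    · exact (Nat.ordCompl_pos l (by omega)).ne'
    · intro l' hl' hdvd
      rcases mem_insert.1 hl' with rfl | hl'
      · exact Nat.not_dvd_ordCompl hl (by omega) hdvd
      · exact hk3 l' hl' (hdvd.trans (Nat.ordCompl_dvd k l))
  have hmapR : ∀ k ∈ A, k.factorization l ∈ range (X + 1) := by
    intro k hk
    rw [hA, mem_filter, mem_Icc] at hk
    obtain ⟨⟨hk1, hk2⟩, -⟩ := hk
    rw [mem_range]
    have := Nat.factorization_lt l (show k ≠ 0 by omega)
    omega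
  have hterm : ∀ k ∈ A, F k ≤ w (k.factorization l) * F (k / l ^ (k.factorization l)) := by
    intro k hk
    have hs := hsplit k hk
    rw [hA, mem_filter, mem_Icc] at hk
    obtain ⟨⟨hk1, hk2⟩, -⟩ := hk
    have := cfm_F h1 hH hasse hl (Nat.not_dvd_ordCompl hl (show k ≠ 0 by omega))
      (k.factorization l)
    rw [hs] at this
    exact this
  have hinj : Set.InjOn (fun k : ℕ => (k.factorization l, k / l ^ (k.factorization l))) A := by
    intro k hk k' hk' h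
    simp only [Prod.mk.injEq] at h
    calc k = l ^ (k.factorization l) * (k / l ^ (k.factorization l)) := (hsplit k hk).symm
      _ = l ^ (k'.factorization l) * (k' / l ^ (k'.factorization l)) := by rw [h.2, h.1]
      _ = k' := hsplit k' hk'
  calc cfmS a P X = ∑ k ∈ A, F k := rfl
    _ ≤ ∑ k ∈ A, w (k.factorization l) * F (k / l ^ (k.factorization l)) := sum_le_sum hterm
    _ = ∑ x ∈ A.image (fun k : ℕ => (k.factorization l, k / l ^ (k.factorization l))),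
          w x.1 * F x.2 := by
        rw [sum_image hinj]
    _ ≤ ∑ x ∈ range (X + 1) ×ˢ B, w x.1 * F x.2 := by
        refine sum_le_sum_of_subset_of_nonneg ?_ fun x _ _ => mul_nonneg (hw0 _) (hF0 _)
        intro x hx
        obtain ⟨k, hk, rfl⟩ := mem_image.1 hx
        exact mem_product.2 ⟨hmapR k hk, hmapB k hk⟩
    _ = (∑ e ∈ range (X + 1), w e) * ∑ m ∈ B, F m := by
        rw [sum_product, sum_mul_sum]
    _ ≤ 12 * ∑ m ∈ B, F m :=
        mul_le_mul_of_nonneg_right (cfm_w_le _) (sum_nonneg fun m _ => hF0 m)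
    _ = 12 * cfmS a (insert l P) X := rfl

theorem cfmS_nonneg (a : ℕ → ℤ) (P : Finset ℕ) (X : ℕ) : 0 ≤ cfmS a P X :=
  sum_nonneg fun k _ => by positivity

theorem cfmS_le {N : ℕ} {a : ℕ → ℤ} (h1 : a 1 = 1) (hH : HeckeAll N a)
    (hasse : ∀ n : ℕ, |(a n : ℝ)| ≤ n.divisors.card * √n) (P : Finset ℕ)
    (hP : ∀ l ∈ P, l.Prime) (X : ℕ) :
    ∑ k ∈ Icc 1 X, (a k : ℝ) ^ 2 / (k : ℝ) ^ 2 ≤ 12 ^ P.card * cfmS a P X := by
  classical
  induction P using Finset.induction_on with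
  | empty => simp [cfmS]
  | insert l P hl ih =>
    have := ih fun l' hl' => hP l' (mem_insert_of_mem hl')
    refine this.trans ?_
    rw [card_insert_of_notMem hl, pow_succ, mul_assoc]
    exact mul_le_mul_of_nonneg_left (cfmS_step h1 hH hasse (hP l (mem_insert_self l P)) P X)
      (by positivity)

/-- partial summation -/
theorem cfm_abel {b φ : ℕ → ℝ} {C : ℝ}
    (hC : ∀ n : ℕ, ∑ k ∈ Icc 1 n, b k ≤ C * n ^ 2) (hφ : ∀ k, 1 ≤ k → φ (k + 1) ≤ φ k)
    (n : ℕ) : ∑ k ∈ Icc 1 n, b k * φ k ≤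
      C * ∑ k ∈ Icc 1 n, (2 * (k : ℝ) - 1) * φ k - (C * n ^ 2 - ∑ k ∈ Icc 1 n, b k) * φ n := by
  induction n with
  | zero => simp
  | succ n ih =>
    rw [sum_Icc_succ_top (by omega), sum_Icc_succ_top (by omega), sum_Icc_succ_top (by omega)]
    have h := hC n
    rcases Nat.eq_zero_or_pos n with hn | hn
    · subst hn
      simp
      linarith
    · have h2 := hφ n hn
      have h3 : (C * n ^ 2 - ∑ k ∈ Icc 1 n, b k) * φ (n + 1) ≤
          (C * n ^ 2 - ∑ k ∈ Icc 1 n, b k) * φ n :=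
        mul_le_mul_of_nonneg_left h2 (by linarith)
      push_cast
      nlinarith [ih, h3]

theorem cfm_exp_sum {M : ℝ} (hM : 1 ≤ M) (n : ℕ) :
    ∑ k ∈ Icc 1 n, Real.exp (-(2 * π * k / M)) / k ≤ 2 * (1 + Real.log M) := by
  have hM0 : 0 < M := by linarith
  set m := ⌊M⌋₊ with hm
  have hm1 : 1 ≤ m := Nat.le_floor (by simpa using hM)
  have hmM : (m : ℝ) ≤ M := Nat.floor_le hM0.le
  have hm2 : M < m + 1 := Nat.lt_floor_add_one M
  have hm1' : (1 : ℝ) ≤ m := by exact_mod_cast hm1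
  have hlog : 0 ≤ Real.log M := Real.log_nonneg hM
  have hsub : ∑ k ∈ Icc 1 n, Real.exp (-(2 * π * k / M)) / k ≤
      ∑ k ∈ Icc 1 m, Real.exp (-(2 * π * k / M)) / k +
        ∑ k ∈ Ioc m (max m n), Real.exp (-(2 * π * k / M)) / k := by
    rw [← sum_union]
    · refine sum_le_sum_of_subset_of_nonneg ?_ fun k _ _ => by positivity
      intro k hk
      rw [mem_Icc] at hk
      rw [mem_union, mem_Icc, mem_Ioc]
      omega
    · rw [disjoint_left]
      intro k hk hk'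
      rw [mem_Icc] at hk
      rw [mem_Ioc] at hk'
      omega
  have h1 : ∑ k ∈ Icc 1 m, Real.exp (-(2 * π * k / M)) / k ≤ 1 + Real.log M := by
    have h := harmonic_le_one_add_log m
    rw [harmonic_eq_sum_Icc] at h
    push_cast at h
    refine le_trans (sum_le_sum fun k hk => ?_) (h.trans ?_)
    · rw [mem_Icc] at hk
      have hk0 : (0 : ℝ) < k := by exact_mod_cast hk.1
      rw [div_eq_mul_inv]
      refine mul_le_of_le_one_left (by positivity) ?_
      rw [Real.exp_le_one_iff, neg_nonpos]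
      positivity
    · have := Real.log_le_log (by linarith) hmM
      linarith
  have h2 : ∑ k ∈ Ioc m (max m n), Real.exp (-(2 * π * k / M)) / k ≤ 1 := by
    have h := sum_Ioc_inv_sq_le_sub (α := ℝ) (k := m) (n := max m n) (by omega) (le_max_left _ _)
    have hterm : ∀ k ∈ Ioc m (max m n), Real.exp (-(2 * π * k / M)) / k ≤
        M / (2 * π) * ((k : ℝ) ^ 2)⁻¹ := by
      intro k hk
      rw [mem_Ioc] at hk
      have hk0 : (0 : ℝ) < k := by exact_mod_cast (by omega : 0 < k)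
      have hx : 0 < 2 * π * k / M := by positivity
      have he : Real.exp (-(2 * π * k / M)) ≤ (2 * π * k / M)⁻¹ := by
        rw [Real.exp_neg]
        exact inv_anti₀ hx (by linarith [Real.add_one_le_exp (2 * π * k / M)])
      calc Real.exp (-(2 * π * k / M)) / k ≤ (2 * π * k / M)⁻¹ / k := by gcongr
        _ = M / (2 * π) * ((k : ℝ) ^ 2)⁻¹ := by
          field_simp
    refine (sum_le_sum hterm).trans ?_
    rw [← mul_sum]
    have hm0 : (0 : ℝ) < m := by linarith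
    have hinv : (0 : ℝ) ≤ ((max m n : ℕ) : ℝ)⁻¹ := by positivity
    have hle : ∑ i ∈ Ioc m (max m n), ((i : ℝ) ^ 2)⁻¹ ≤ (m : ℝ)⁻¹ := by linarith
    calc M / (2 * π) * ∑ i ∈ Ioc m (max m n), ((i : ℝ) ^ 2)⁻¹ ≤ M / (2 * π) * (m : ℝ)⁻¹ := by
          gcongr
      _ ≤ 1 := by
        have hpi := Real.pi_gt_three
        rw [div_mul_eq_mul_div, div_le_one (by positivity), ← div_eq_mul_inv,
          div_le_iff₀ hm0]
        nlinarith
  linarith

end Pool.Agent.MU0
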