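import Pool.Agent.MU0.Rk3

/-!
# Rankin's lower bound: conclusion
-/

set_option autoImplicit false

namespace Pool.Agent.MU0.Rk

open Finset CongruenceSubgroup
open scoped Real

/-- from the weighted sum to the partial sums -/
theorem partial_lower {w : ℕ → ℝ} (hw : ∀ n, 0 ≤ w n) (h0 : w 0 = 0) {D c y₀ : ℝ} (hD : 0 ≤ D)
    (hc : 0 < c) (hy₀ : 0 < y₀)
    (hS : ∀ y : ℝ, 0 < y → Summable fun n : ℕ => w n * Real.exp (-(4 * π * n * y)))
    (hU : ∀ y : ℝ, 0 < y → ∑' n : ℕ, w n * Real.exp (-(4 * π * n * y)) ≤ D / y ^ 2)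
    (hL : ∀ y : ℝ, 0 < y → y ≤ y₀ → c / y ^ 2 ≤ ∑' n : ℕ, w n * Real.exp (-(4 * π * n * y))) :
    ∃ c' > (0 : ℝ), ∃ C : ℝ, 0 ≤ C ∧ ∀ X : ℕ, c' * (X : ℝ) ^ 2 - C ≤ ∑ n ∈ Icc 1 X, w n := by
  have hpi := Real.pi_pos
  -- the choice of `A`
  obtain ⟨A, hA1, hA⟩ : ∃ A : ℝ, 1 ≤ A ∧ 4 * D * Real.exp (-(2 * π * A)) ≤ c / 2 := by
    refine ⟨1 + 8 * D / c, by have : 0 ≤ 8 * D / c := by positivity
                              linarith, ?_⟩
    set A := 1 + 8 * D / c with hA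
    have hA1 : 1 ≤ A := by have : 0 ≤ 8 * D / c := by positivity
                           linarith
    have h1 : A ≤ Real.exp (2 * π * A) := by
      have h2 := Real.add_one_le_exp (2 * π * A)
      have h3 : A ≤ 2 * π * A := by nlinarith [Real.pi_gt_three]
      linarith
    rw [Real.exp_neg]
    have h2 : 8 * D ≤ c * A := by
      rw [hA, mul_add, mul_div_cancel₀ _ hc.ne']
      linarith
    have h3 : 0 < Real.exp (2 * π * A) := Real.exp_pos _
    rw [← div_eq_mul_inv, div_le_iff₀ h3]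
    nlinarith
  have hA0 : 0 < A := by linarith
  refine ⟨c / (2 * A ^ 2), by positivity, c / (2 * y₀ ^ 2), by positivity, fun X => ?_⟩
  rcases le_total (A / y₀) X with hX | hX
  · have hX0 : (0 : ℝ) < X := lt_of_lt_of_le (by positivity) hX
    set y : ℝ := A / X with hy
    have hy0 : 0 < y := by positivity
    have hyy : y ≤ y₀ := by
      rw [hy, div_le_iff₀ hX0]
      rw [div_le_iff₀ hy₀] at hX
      linarith
    have h1 := hL y hy0 hyy
    have h2 := hU (y / 2) (by positivity)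
    have hs1 := hS y hy0
    have hs2 := hS (y / 2) (by positivity)
    have h3 : ∑' n : ℕ, w n * Real.exp (-(4 * π * n * y)) ≤
        ∑ n ∈ Icc 1 X, w n + Real.exp (-(2 * π * A)) *
          ∑' n : ℕ, w n * Real.exp (-(4 * π * n * (y / 2))) := by
      rw [← tsum_mul_left]
      have h4 : ∀ n : ℕ, w n * Real.exp (-(4 * π * n * y)) ≤
          (if n ∈ Icc 1 X then w n else 0) +
            Real.exp (-(2 * π * A)) * (w n * Real.exp (-(4 * π * n * (y / 2)))) := by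
        intro n
        have hwn := hw n
        by_cases hn : n ∈ Icc 1 X
        · rw [if_pos hn]
          have h5 : Real.exp (-(4 * π * n * y)) ≤ 1 := by
            rw [Real.exp_le_one_iff]
            have : 0 ≤ 4 * π * n * y := by positivity
            linarith
          have h6 : 0 ≤ Real.exp (-(2 * π * A)) * (w n * Real.exp (-(4 * π * n * (y / 2)))) := by
            positivity
          nlinarith
        · rw [if_neg hn, zero_add]
          rcases Nat.eq_zero_or_pos n with rfl | hn0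
          · simp [h0]
          have hnX : X < n := by
            rw [mem_Icc] at hn
            omega
          have hnX' : (X : ℝ) ≤ n := by exact_mod_cast hnX.le
          have h5 : Real.exp (-(4 * π * n * y)) ≤
              Real.exp (-(2 * π * A)) * Real.exp (-(4 * π * n * (y / 2))) := by
            rw [← Real.exp_add]
            refine Real.exp_le_exp.2 ?_
            have h6 : A ≤ n * y := by
              rw [hy]
              rw [← mul_div_assoc, le_div_iff₀ hX0]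
              nlinarith
            nlinarith
          calc w n * Real.exp (-(4 * π * n * y)) ≤ w n *
                (Real.exp (-(2 * π * A)) * Real.exp (-(4 * π * n * (y / 2)))) := by gcongr
            _ = _ := by ring
      have hs3 : Summable fun n : ℕ => (if n ∈ Icc 1 X then w n else 0) :=
        summable_of_ne_finset_zero (s := Icc 1 X) fun n hn => by rw [if_neg hn]
      have hs4 := hs2.mul_left (Real.exp (-(2 * π * A)))
      refine (hs1.tsum_le_tsum h4 (hs3.add hs4)).trans (le_of_eq ?_)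
      rw [hs3.tsum_add hs4]
      congr 1
      rw [tsum_eq_sum (s := Icc 1 X) fun n hn => by rw [if_neg hn]]
      exact sum_congr rfl fun n hn => by rw [if_pos hn]
    have h4 : Real.exp (-(2 * π * A)) * ∑' n : ℕ, w n * Real.exp (-(4 * π * n * (y / 2))) ≤
        c / 2 / y ^ 2 := by
      calc Real.exp (-(2 * π * A)) * ∑' n : ℕ, w n * Real.exp (-(4 * π * n * (y / 2)))
          ≤ Real.exp (-(2 * π * A)) * (D / (y / 2) ^ 2) := by gcongr
        _ = (4 * D * Real.exp (-(2 * π * A))) / y ^ 2 := by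
            field_simp
            ring
        _ ≤ c / 2 / y ^ 2 := by gcongr
    have h5 : c / 2 / y ^ 2 ≤ ∑ n ∈ Icc 1 X, w n := by
      have : c / 2 / y ^ 2 + c / 2 / y ^ 2 = c / y ^ 2 := by ring
      linarith
    have h6 : c / (2 * A ^ 2) * (X : ℝ) ^ 2 = c / 2 / y ^ 2 := by
      rw [hy]
      field_simp
    rw [h6]
    have : 0 ≤ c / (2 * y₀ ^ 2) := by positivity
    linarith
  · have h1 : 0 ≤ ∑ n ∈ Icc 1 X, w n := sum_nonneg fun n _ => hw n
    have h2 : c / (2 * A ^ 2) * (X : ℝ) ^ 2 ≤ c / (2 * y₀ ^ 2) := by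
      have h3 : (X : ℝ) ^ 2 ≤ (A / y₀) ^ 2 := pow_le_pow_left₀ (Nat.cast_nonneg X) hX 2
      calc c / (2 * A ^ 2) * (X : ℝ) ^ 2 ≤ c / (2 * A ^ 2) * (A / y₀) ^ 2 := by gcongr
        _ = c / (2 * y₀ ^ 2) := by field_simp
    linarith

/-- Abel summation -/
theorem abel_eq (w : ℕ → ℝ) (X : ℕ) : ∑ k ∈ Icc 1 X, w k / (k : ℝ) ^ 2 =
    ∑ k ∈ Icc 1 X, (∑ n ∈ Icc 1 k, w n) * (1 / (k : ℝ) ^ 2 - 1 / ((k : ℝ) + 1) ^ 2) +
      (∑ n ∈ Icc 1 X, w n) / ((X : ℝ) + 1) ^ 2 := by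
  induction X with
  | zero => simp
  | succ X ih =>
    rw [sum_Icc_succ_top (by omega), sum_Icc_succ_top (by omega), ih]
    have h1 : ∑ n ∈ Icc 1 (X + 1), w n = ∑ n ∈ Icc 1 X, w n + w (X + 1) :=
      sum_Icc_succ_top (by omega) _
    rw [h1]
    push_cast
    have h2 : ((X : ℝ) + 1) ≠ 0 := by positivity
    have h3 : ((X : ℝ) + 1 + 1) ≠ 0 := by positivity
    field_simp
    ring

theorem log_lower {w : ℕ → ℝ} (hw : ∀ n, 0 ≤ w n) {c C : ℝ} (hc : 0 < c) (hC : 0 ≤ C)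
    (h : ∀ X : ℕ, c * (X : ℝ) ^ 2 - C ≤ ∑ n ∈ Icc 1 X, w n) {X : ℕ} (hX : 1 ≤ X) :
    c * Real.log X - (c + C) ≤ ∑ k ∈ Icc 1 X, w k / (k : ℝ) ^ 2 := by
  have h1 : ∀ k ∈ Icc 1 X, c * (Real.log (k + 2) - Real.log (k + 1)) -
      C * (1 / (k : ℝ) ^ 2 - 1 / ((k : ℝ) + 1) ^ 2) ≤
      (∑ n ∈ Icc 1 k, w n) * (1 / (k : ℝ) ^ 2 - 1 / ((k : ℝ) + 1) ^ 2) := by
    intro k hk
    have hk1 : (1 : ℝ) ≤ k := by exact_mod_cast (mem_Icc.1 hk).1
    have ht : 0 ≤ 1 / (k : ℝ) ^ 2 - 1 / ((k : ℝ) + 1) ^ 2 := by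
      rw [sub_nonneg]
      exact one_div_le_one_div_of_le (by positivity) (by gcongr; linarith)
    have h2 : (c * (k : ℝ) ^ 2 - C) * (1 / (k : ℝ) ^ 2 - 1 / ((k : ℝ) + 1) ^ 2) ≤
        (∑ n ∈ Icc 1 k, w n) * (1 / (k : ℝ) ^ 2 - 1 / ((k : ℝ) + 1) ^ 2) :=
      mul_le_mul_of_nonneg_right (h k) ht
    refine le_trans ?_ h2
    have h3 : Real.log (k + 2) - Real.log (k + 1) ≤ 1 / ((k : ℝ) + 1) := by
      rw [← Real.log_div (by positivity) (by positivity)]
      have h4 : 0 < ((k : ℝ) + 2) / (k + 1) := by positivity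
      have h5 := Real.log_le_sub_one_of_pos h4
      have h6 : ((k : ℝ) + 2) / (k + 1) - 1 = 1 / ((k : ℝ) + 1) := by
        field_simp
        ring
      linarith
    have h4 : 1 / ((k : ℝ) + 1) ≤ (k : ℝ) ^ 2 * (1 / (k : ℝ) ^ 2 - 1 / ((k : ℝ) + 1) ^ 2) := by
      have h5 : (k : ℝ) ^ 2 * (1 / (k : ℝ) ^ 2 - 1 / ((k : ℝ) + 1) ^ 2) =
          (2 * k + 1) / ((k : ℝ) + 1) ^ 2 := by
        field_simp
        ring
      rw [h5, div_le_div_iff₀ (by positivity) (by positivity)]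
      nlinarith
    have h5 : c * (Real.log (k + 2) - Real.log (k + 1)) ≤
        c * ((k : ℝ) ^ 2 * (1 / (k : ℝ) ^ 2 - 1 / ((k : ℝ) + 1) ^ 2)) :=
      mul_le_mul_of_nonneg_left (h3.trans h4) hc.le
    linarith
  rw [abel_eq]
  have h2 : 0 ≤ (∑ n ∈ Icc 1 X, w n) / ((X : ℝ) + 1) ^ 2 :=
    div_nonneg (sum_nonneg fun n _ => hw n) (by positivity)
  have h3 := sum_le_sum h1
  rw [sum_sub_distrib, ← mul_sum, ← mul_sum] at h3
  have h4 : ∀ Y : ℕ, ∑ k ∈ Icc 1 Y, (Real.log ((k : ℝ) + 2) - Real.log (k + 1)) =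
      Real.log (Y + 2) - Real.log 2 := by
    intro Y
    induction Y with
    | zero => simp
    | succ Y ih =>
      rw [sum_Icc_succ_top (by omega), ih]
      push_cast
      have e : ((Y : ℝ) + 1 + 1) = Y + 2 := by ring
      have e' : ((Y : ℝ) + 1 + 2) = Y + 1 + 2 := by ring
      rw [e]
      ring
  have h5 : ∀ Y : ℕ, ∑ k ∈ Icc 1 Y, (1 / (k : ℝ) ^ 2 - 1 / ((k : ℝ) + 1) ^ 2) =
      1 - 1 / ((Y : ℝ) + 1) ^ 2 := by
    intro Y
    induction Y with
    | zero => simp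
    | succ Y ih =>
      rw [sum_Icc_succ_top (by omega), ih]
      push_cast
      ring
  rw [h4 X, h5 X] at h3
  have hXr : (1 : ℝ) ≤ X := by exact_mod_cast hX
  have h6 : Real.log X ≤ Real.log (X + 2) := Real.log_le_log (by linarith) (by linarith)
  have h7 : Real.log 2 ≤ 1 := by
    have := Real.log_two_lt_d9
    linarith
  have h8 : 0 ≤ 1 / ((X : ℝ) + 1) ^ 2 := by positivity
  have h9 : c * Real.log X ≤ c * Real.log (X + 2) := mul_le_mul_of_nonneg_left h6 hc.le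
  have h10 : c * Real.log 2 ≤ c * 1 := mul_le_mul_of_nonneg_left h7 hc.le
  have h11 : C * (1 - 1 / ((X : ℝ) + 1) ^ 2) ≤ C * 1 :=
    mul_le_mul_of_nonneg_left (by linarith) hC
  linarith

/-- a cusp form with a nonzero coefficient does not vanish -/
theorem exists_ne {N : ℕ} [NeZero N] (f : CuspForm (Gamma0 N) 2) {a : ℕ → ℂ}
    (ha : ∀ n, (UpperHalfPlane.qExpansion 1 f).coeff n = a n) (h : ∃ n, a n ≠ 0) :
    ∃ z, f z ≠ 0 := by
  by_contra hcon
  push Not at hcon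
  obtain ⟨n, hn⟩ := h
  obtain ⟨C₀, hB⟩ := rk_bdd f ha
  have hsum := hB.summA one_pos
  have h1 := (E4.parseval hsum)
  have h2 : ‖E4.FL (E4.A1 a 1)‖ ^ 2 = 0 := by
    rw [norm_FL_sq]
    have h3 : ∀ x : ℝ, ‖E4.FC (E4.A1 a 1) (x : AddCircle (1 : ℝ))‖ ^ 2 = 0 := by
      intro x
      rw [E4.FC_apply hsum]
      have hz : 0 < ((x : ℂ) + ((1 : ℝ) : ℂ) * Complex.I).im := by simp
      have h1 := Pool.Agent.MZ.Per.hasSum_q f ha ((x : ℂ) + ((1 : ℝ) : ℂ) * Complex.I) hz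
      have h2 : ∀ n : ℕ, E4.A1 a 1 n * Complex.exp (2 * π * Complex.I * n * x) =
          a n * Complex.exp (2 * π * Complex.I * n * ((x : ℂ) + ((1 : ℝ) : ℂ) * Complex.I)) := by
        intro n
        rw [E4.A1, mul_assoc]
        congr 1
        rw [Complex.ofReal_exp, ← Complex.exp_add]
        congr 1
        push_cast
        linear_combination (-(2 * π * n) : ℂ) * Complex.I_mul_I
      simp_rw [h2]
      rw [h1.tsum_eq, hcon]
      simp
    simp_rw [h3]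
    simp
  rw [h2] at h1
  have h3 := (hasSum_zero_iff_of_nonneg fun n => by positivity).1 h1
  have h4 := congrFun h3 n
  simp only [Pi.zero_apply] at h4
  rw [E4.normA_sq] at h4
  have h5 : 0 < ‖a n‖ ^ 2 * Real.exp (-(4 * π * n * 1)) := by
    have : 0 < ‖a n‖ := norm_pos_iff.2 hn
    positivity
  linarith

/-- Rankin's lower bound for the partial sums of `|a(n)|²`. -/
theorem rankin_partial {N : ℕ} [NeZero N] (f : CuspForm (Gamma0 N) 2) {a : ℕ → ℂ}
    (ha : ∀ n, (UpperHalfPlane.qExpansion 1 f).coeff n = a n) (h : ∃ n, a n ≠ 0) :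
    ∃ c > (0 : ℝ), ∃ C : ℝ, 0 ≤ C ∧ ∀ X : ℕ,
      c * (X : ℝ) ^ 2 - C ≤ ∑ n ∈ Icc 1 X, ‖a n‖ ^ 2 := by
  obtain ⟨c, hc, y₀, hy₀, hL⟩ := lower_mass f (exists_ne f ha h) ha
  obtain ⟨C₀, hB⟩ := rk_bdd f ha
  refine partial_lower (w := fun n => ‖a n‖ ^ 2) (fun n => by positivity) ?_ (sq_nonneg C₀) hc hy₀
    (fun y hy => (hB.l2A hy).1) (fun y hy => ?_) hL
  · simp [hB.zero]
  · refine (hB.l2A hy).2.trans (le_of_eq ?_)
    rw [div_pow]

/-- Rankin's lower bound with logarithmic weights. -/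
theorem rankin_log {N : ℕ} [NeZero N] (f : CuspForm (Gamma0 N) 2) {a : ℕ → ℂ}
    (ha : ∀ n, (UpperHalfPlane.qExpansion 1 f).coeff n = a n) (h : ∃ n, a n ≠ 0) :
    ∃ c > (0 : ℝ), ∃ C : ℝ, 0 ≤ C ∧ ∀ X : ℕ, 1 ≤ X →
      c * Real.log X - C ≤ ∑ k ∈ Icc 1 X, ‖a k‖ ^ 2 / (k : ℝ) ^ 2 := by
  obtain ⟨c, hc, C, hC, hX⟩ := rankin_partial f ha h
  exact ⟨c, hc, c + C, by positivity, fun X hX1 =>
    log_lower (w := fun n => ‖a n‖ ^ 2) (fun n => by positivity) hc hC hX hX1⟩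

end Pool.Agent.MU0.Rk

namespace Pool.Agent.MU0

open Finset CongruenceSubgroup

/-- Rankin's lower bound (arcs around rational numbers of denominator about `√x`) -/
theorem rankin_lower {N : ℕ} [NeZero N] (f : CuspForm (Gamma0 N) 2) {a : ℕ → ℤ}
    (ha : ∀ n, (UpperHalfPlane.qExpansion 1 f).coeff n = a n) (ha1 : a 1 = 1) :
    ∃ c > (0 : ℝ), ∃ C : ℝ, ∀ X : ℕ, 2 ≤ X →
      c * Real.log X - C ≤ ∑ k ∈ Icc 1 X, (a k : ℝ) ^ 2 / (k : ℝ) ^ 2 := by
  obtain ⟨c, hc, C, -, h⟩ := Rk.rankin_log f (a := fun n => ((a n : ℤ) : ℂ)) ha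
    ⟨1, by simp [ha1]⟩
  refine ⟨c, hc, C, fun X hX => ?_⟩
  have h1 := h X (by omega)
  have h2 : ∀ k : ℕ, ‖((a k : ℤ) : ℂ)‖ ^ 2 = (a k : ℝ) ^ 2 := by
    intro k
    rw [Complex.norm_intCast, sq_abs]
  simp_rw [h2] at h1
  exact h1

end Pool.Agent.MU0
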