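import Pool.Agent.MU0.CfMass
import Pool.Agent.MU0.Cf1
import Pool.Agent.MU0.Rk4

/-!
# The mass of the test function: the final statement (helper83)
-/

set_option autoImplicit false

open Finset CongruenceSubgroup
open Pool.Agent.MZ Pool.Agent.MZ.Per Pool.Agent.MU1
open scoped Real

namespace Pool.Agent.MU0

theorem cf_mass {N : ℕ} [NeZero N] (f : CuspForm (Gamma0 N) 2) {a : ℕ → ℤ}
    (hf : Frm f a) (r : ℕ) : ∃ c > (0 : ℝ), ∃ C : ℝ, ∀ (P : Finset ℕ), P.card ≤ r →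
    (∀ l ∈ P, l.Prime) → ∀ (M₀ M₁ : ℝ), 2 ≤ M₁ → M₁ ≤ M₀ → ∀ K : ℕ, M₀ ≤ K →
    c * Real.log M₀ - C * (1 + Real.log M₁) ≤
      ∑ k ∈ Icc 1 K, cf a P M₀ M₁ k * ((a k : ℝ) / k) :=
  cfm_mass hf.one hf.hecke hf.hasse (rankin_upper f hf.coeff) (rankin_lower f hf.coeff hf.one) r

end Pool.Agent.MU0
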