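import Pool.Agent.MU0.Defs
import Pool.Agent.MU0.CLAbs

/-!
# Existence of the clusters
-/

set_option autoImplicit false

open Finset

namespace Pool.Agent.MU0

section CL

/-- roots of unity of order prime to `p` congruent to 1 are 1 -/
theorem cl_teich_one {p n : ℕ} (hp : p.Prime) (hn : 1 ≤ n) {z : (ZMod (p ^ n))ˣ}
    (hz : z ^ (p - 1) = 1) {c : ℤ} (hc : (c : ZMod (p ^ n)) = z) (h : (p : ℤ) ∣ c - 1) : z = 1 := by
  obtain ⟨n, rfl⟩ : ∃ n', n = n' + 1 := ⟨n - 1, by omega⟩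
  have h1 := dvd_sub_pow_of_dvd_sub h n
  rw [one_pow] at h1
  have h2 : z ^ (p ^ n) = 1 := by
    ext
    rw [Units.val_pow_eq_pow_val, ← hc, Units.val_one]
    have h3 : ((c ^ p ^ n - 1 : ℤ) : ZMod (p ^ (n + 1))) = 0 := by
      rw [ZMod.intCast_zmod_eq_zero_iff_dvd]
      exact_mod_cast h1
    push_cast at h3
    exact sub_eq_zero.1 h3
  have h3 : orderOf z ∣ 1 := by
    have hcop : Nat.Coprime (p ^ n) (p - 1) := by
      apply Nat.Coprime.pow_left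
      exact (Nat.coprime_self_sub_right hp.one_le).2 (Nat.coprime_one_right p)
    have h4 := Nat.dvd_gcd (orderOf_dvd_of_pow_eq_one h2) (orderOf_dvd_of_pow_eq_one hz)
    have h5 : Nat.gcd (p ^ n) (p - 1) = 1 := hcop
    rwa [h5] at h4
  exact orderOf_eq_one_iff.1 (Nat.dvd_one.1 h3)

/-- the group of the roots of unity of order dividing `p - 1` -/
abbrev clG (p q : ℕ) : Type := ↥((powMonoidHom (p - 1) : (ZMod q)ˣ →* (ZMod q)ˣ).ker)

/-- `a` is congruent to `v / u` modulo `Q` -/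
def clRep (p q Q : ℕ) (a : clG p q) (u v : ℤ) : Prop :=
  (Q : ℤ) ∣ u * (((a : (ZMod q)ˣ) : ZMod q).val : ℤ) - v

theorem clG_pow {p q : ℕ} (a : clG p q) : (a : (ZMod q)ˣ) ^ (p - 1) = 1 := a.2

theorem clRep_iff {p q Q : ℕ} [NeZero q] (hd : Q ∣ q) (a : clG p q) (u v : ℤ) :
    clRep p q Q a u v ↔
      (u : ZMod Q) * (ZMod.castHom hd (ZMod Q) ((a : (ZMod q)ˣ) : ZMod q)) = v := by
  have h1 : ((((a : (ZMod q)ˣ) : ZMod q).val : ℕ) : ZMod Q) =
      ZMod.castHom hd (ZMod Q) ((a : (ZMod q)ˣ) : ZMod q) := by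
    conv_rhs => rw [← ZMod.natCast_zmod_val ((a : (ZMod q)ˣ) : ZMod q)]
    rw [map_natCast]
  rw [clRep, ← ZMod.intCast_zmod_eq_zero_iff_dvd, Int.cast_sub, Int.cast_mul, Int.cast_natCast,
    sub_eq_zero, h1]

theorem clRep_isRepr {p q Q : ℕ} [NeZero q] (hd : Q ∣ q) {B : ℤ} (hB : 2 * B < Q) :
    IsRepr (clRep p q Q) B := by
  constructor
  · rw [clRep_iff hd, Subgroup.coe_one, Units.val_one, map_one, mul_one]
  · intro a b u v u' v' h1 h2
    rw [clRep_iff hd] at h1 h2 ⊢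
    have h3 : ZMod.castHom hd (ZMod Q) (((a * b : clG p q) : (ZMod q)ˣ) : ZMod q) =
        ZMod.castHom hd (ZMod Q) ((a : (ZMod q)ˣ) : ZMod q) *
          ZMod.castHom hd (ZMod Q) ((b : (ZMod q)ˣ) : ZMod q) := by
      rw [Subgroup.coe_mul, Units.val_mul, map_mul]
    rw [h3]
    push_cast
    calc (u : ZMod Q) * u' * (ZMod.castHom hd (ZMod Q) ((a : (ZMod q)ˣ) : ZMod q) *
          ZMod.castHom hd (ZMod Q) ((b : (ZMod q)ˣ) : ZMod q))
        = ((u : ZMod Q) * ZMod.castHom hd (ZMod Q) ((a : (ZMod q)ˣ) : ZMod q)) *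
          ((u' : ZMod Q) * ZMod.castHom hd (ZMod Q) ((b : (ZMod q)ˣ) : ZMod q)) := by ring
      _ = v * v' := by rw [h1, h2]
  · intro a u v h1
    rw [clRep_iff hd] at h1 ⊢
    have h3 : ZMod.castHom hd (ZMod Q) ((a : (ZMod q)ˣ) : ZMod q) *
        ZMod.castHom hd (ZMod Q) (((a⁻¹ : clG p q) : (ZMod q)ˣ) : ZMod q) = 1 := by
      rw [← map_mul, ← Units.val_mul, ← Subgroup.coe_mul, mul_inv_cancel, Subgroup.coe_one,
        Units.val_one, map_one]
    calc (v : ZMod Q) * ZMod.castHom hd (ZMod Q) (((a⁻¹ : clG p q) : (ZMod q)ˣ) : ZMod q)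
        = (u : ZMod Q) * (ZMod.castHom hd (ZMod Q) ((a : (ZMod q)ˣ) : ZMod q) *
          ZMod.castHom hd (ZMod Q) (((a⁻¹ : clG p q) : (ZMod q)ˣ) : ZMod q)) := by
          rw [← h1]
          ring
      _ = u := by rw [h3, mul_one]
  · intro u v hu hv h1
    rw [clRep_iff hd, Subgroup.coe_one, Units.val_one, map_one, mul_one] at h1
    have h2 : (Q : ℤ) ∣ u - v := by
      rw [← ZMod.intCast_zmod_eq_zero_iff_dvd, Int.cast_sub, h1, sub_self]
    have h3 : |u - v| < Q := by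
      have := abs_sub u v
      linarith
    exact sub_eq_zero.mp (Int.eq_zero_of_abs_lt_dvd h2 h3)

theorem cl_card {p n q : ℕ} [NeZero q] (hp : p.Prime) (hp2 : p ≠ 2) (hn : 1 ≤ n)
    (hq : q = p ^ n) : Nat.card (clG p q) = p - 1 := by
  subst hq
  have := ZMod.isCyclic_units_of_prime_pow p hp hp2 n
  rw [IsCyclic.card_powMonoidHom_ker, Nat.card_eq_fintype_card, ZMod.card_units_eq_totient,
    Nat.totient_prime_pow hp (by omega)]
  exact Nat.gcd_mul_left_left _ _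

theorem cl_eq_one {p n q : ℕ} [NeZero q] (hp : p.Prime) (hn : 2 ≤ n) (hq : q = p ^ n)
    {a : clG p q} {u : ℤ} (hu : u ≠ 0) (hu1 : |u| < (p ^ (n - 1) : ℕ))
    (h : clRep p q (p ^ (n - 1)) a u u) : a = 1 := by
  subst hq
  have h1 : ((p : ℤ)) ∣ (((a : (ZMod (p ^ n))ˣ) : ZMod (p ^ n)).val : ℤ) - 1 := by
    by_contra hcon
    have hpp : Prime (p : ℤ) := Nat.prime_iff_prime_int.mp hp
    have h2 : IsCoprime ((p : ℤ) ^ (n - 1))
        ((((a : (ZMod (p ^ n))ˣ) : ZMod (p ^ n)).val : ℤ) - 1) :=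
      IsCoprime.pow_left ((Prime.coprime_iff_not_dvd hpp).mpr hcon)
    have h3 : ((p : ℤ) ^ (n - 1)) ∣
        ((((a : (ZMod (p ^ n))ˣ) : ZMod (p ^ n)).val : ℤ) - 1) * u := by
      have h4 : u * (((a : (ZMod (p ^ n))ˣ) : ZMod (p ^ n)).val : ℤ) - u =
        ((((a : (ZMod (p ^ n))ˣ) : ZMod (p ^ n)).val : ℤ) - 1) * u := by ring
      rw [← h4]
      have h5 := h
      rw [clRep] at h5
      exact_mod_cast h5
    have h4 := h2.dvd_of_dvd_mul_left h3
    refine hu (Int.eq_zero_of_abs_lt_dvd h4 ?_)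
    exact_mod_cast hu1
  have h2 : (a : (ZMod (p ^ n))ˣ) = 1 := by
    refine cl_teich_one hp (by omega) (clG_pow a)
      (c := (((a : (ZMod (p ^ n))ˣ) : ZMod (p ^ n)).val : ℤ)) ?_ h1
    rw [Int.cast_natCast, ZMod.natCast_zmod_val]
  exact Subtype.ext h2

theorem cl_val_le {p n : ℕ} (hp : p.Prime) {c u v : ℤ} (hu : u ≠ 0) (hv : v ≠ 0)
    (hu1 : |u| < (p ^ (n - 1) : ℕ)) (h : ((p ^ (n - 1) : ℕ) : ℤ) ∣ u * c - v) :
    padicValInt p u ≤ padicValInt p v := by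
  have hF : Fact p.Prime := ⟨hp⟩
  have h1 : (p : ℤ) ^ padicValInt p u ∣ u := padicValInt_dvd u
  have h2 : padicValInt p u ≤ n - 1 := by
    have h3 : (p : ℤ) ^ padicValInt p u ≤ |u| := Int.le_of_dvd (abs_pos.mpr hu)
      ((dvd_abs _ _).mpr h1)
    have h4 : (p : ℤ) ^ padicValInt p u < (p : ℤ) ^ (n - 1) := by
      refine lt_of_le_of_lt h3 ?_
      exact_mod_cast hu1
    have h5 : p ^ padicValInt p u < p ^ (n - 1) := by exact_mod_cast h4
    exact ((Nat.pow_lt_pow_iff_right hp.one_lt).mp h5).le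
  have h3 : (p : ℤ) ^ padicValInt p u ∣ v := by
    have h4 : (p : ℤ) ^ padicValInt p u ∣ u * c - v := by
      refine dvd_trans (pow_dvd_pow _ h2) ?_
      exact_mod_cast h
    have h5 := dvd_sub (Dvd.dvd.mul_right h1 c) h4
    simpa using h5
  rcases (padicValInt_dvd_iff _ _).mp h3 with h4 | h4
  · exact absurd h4 hv
  · exact h4

theorem cl_val_eq {p n q : ℕ} [NeZero q] (hp : p.Prime) (hq : q = p ^ n)
    {a : clG p q} {u v : ℤ} (hu : u ≠ 0) (hv : v ≠ 0) (hu1 : |u| < (p ^ (n - 1) : ℕ))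
    (hv1 : |v| < (p ^ (n - 1) : ℕ)) (h : clRep p q (p ^ (n - 1)) a u v) :
    padicValInt p u = padicValInt p v := by
  have hd : p ^ (n - 1) ∣ q := hq ▸ pow_dvd_pow _ (Nat.sub_le _ _)
  have hpos : 0 < p ^ (n - 1) := pow_pos hp.pos _
  have hR : IsRepr (clRep p q (p ^ (n - 1))) 0 := clRep_isRepr hd (by
    rw [mul_zero]
    exact_mod_cast hpos)
  exact le_antisymm (cl_val_le hp hu hv hu1 h) (cl_val_le hp hv hu hv1 (hR.inv h))

/-- the scales -/
theorem cl_scale_le {K : ℕ} (hK : 2 ≤ K) {y : ℕ → ℕ} (hy0 : y 0 = K ^ 3)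
    (hys : ∀ j, y (j + 1) = (16 * K * y j) ^ 8) : (∀ j, 1 ≤ y j) ∧ Monotone y := by
  have h1 : ∀ j, 1 ≤ y j := by
    intro j
    induction j with
    | zero =>
      rw [hy0]
      exact Nat.one_le_pow _ _ (by omega)
    | succ j ih =>
      rw [hys]
      exact Nat.one_le_pow _ _ (by positivity)
  refine ⟨h1, monotone_nat_of_le_succ fun j => ?_⟩
  rw [hys]
  calc y j ≤ 16 * K * y j := Nat.le_mul_of_pos_left _ (by positivity)
    _ ≤ (16 * K * y j) ^ 8 := Nat.le_self_pow (by norm_num) _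

/-- the exponents of the scales -/
def clExp : ℕ → ℕ
  | 0 => 3
  | j + 1 => 8 * (5 + clExp j)

theorem cl_scale_exp {K : ℕ} (hK : 2 ≤ K) {y : ℕ → ℕ} (hy0 : y 0 = K ^ 3)
    (hys : ∀ j, y (j + 1) = (16 * K * y j) ^ 8) (j : ℕ) : y j ≤ K ^ clExp j := by
  induction j with
  | zero => exact hy0.le
  | succ j ih =>
    rw [hys, clExp, mul_comm 8, pow_mul]
    refine Nat.pow_le_pow_left ?_ _
    have h16 : 16 ≤ K ^ 4 := by
      calc 16 = 2 ^ 4 := by norm_num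
        _ ≤ K ^ 4 := Nat.pow_le_pow_left hK _
    calc 16 * K * y j ≤ K ^ 4 * K * K ^ clExp j := by gcongr
      _ = K ^ (5 + clExp j) := by ring

/-- the combinatorial core -/
theorem cl_core {p n q K : ℕ} [NeZero q] (hp : p.Prime) (hp2 : p ≠ 2) (hn : 2 ≤ n)
    (hq : q = p ^ n) (hK : 2 ≤ K) (J D E : ℕ) (hJ : 0 < J) (hE : p - 1 < (E + 1) ^ (D + 1))
    (y : ℕ → ℕ) (hy0 : y 0 = K ^ 3) (hys : ∀ j, y (j + 1) = (16 * K * y j) ^ 8)
    (hB : 2 * (y J ^ 2) ^ (2 * ((D + 1) * E)) < p ^ (n - 1)) (hsm : y J ^ 2 < p ^ (n - 1)) :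
    ∃ (P : Finset ℕ) (B E' : Finset (ZMod q)ˣ) (α β : (ZMod q)ˣ → ℤ) (W : ℕ),
      Clu p n q K D P B E' α β W ∧ (∀ l ∈ P, l ≤ y J ^ 2) ∧
      (p - 1) ^ J ≤ (p - 1) * (2 * (E'.card * B.card)) ^ J ∧
      (∀ ξ : (ZMod q)ˣ, ξ ^ (p - 1) = 1 → ∀ m k : ℕ, 0 < m → 0 < k → m ≤ K ^ 3 → k ≤ K →
        ((p ^ (n - 1) : ℕ) : ℤ) ∣ m * ((ξ : ZMod q).val : ℤ) - k →
        (∀ l ∈ P, padicValNat l m = padicValNat l k) → ξ = 1 ∧ m = k) := by
  classical
  have hF : Fact p.Prime := ⟨hp⟩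
  obtain ⟨hy1, hymono⟩ := cl_scale_le hK hy0 hys
  set Q : ℕ := p ^ (n - 1) with hQ
  have hd : Q ∣ q := hq ▸ pow_dvd_pow _ (Nat.sub_le _ _)
  have hcard : Fintype.card (clG p q) = p - 1 := by
    rw [← Nat.card_eq_fintype_card]
    exact cl_card hp hp2 (by omega) hq
  set Rep := clRep p q Q with hRep
  have hR : IsRepr Rep (((y J : ℤ) ^ 2) ^ (2 * ((D + 1) * E))) := clRep_isRepr hd (by
    exact_mod_cast hB)
  have hY1 : (1 : ℤ) ≤ (y J : ℤ) ^ 2 := by
    exact_mod_cast Nat.one_le_pow _ _ (hy1 J)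
  obtain ⟨P, hPcard, hPprime, hPex, hPsep⟩ := exists_sep hR hY1 D E (by rw [hcard]; exact hE) le_rfl
  -- an element with equal representatives
  have hone : ∀ (a : clG p q) (u : ℤ), u ≠ 0 → |u| ≤ (y J : ℤ) ^ 2 → Rep a u u → a = 1 := by
    intro a u hu hu1 h
    refine cl_eq_one hp hn hq hu (lt_of_le_of_lt hu1 ?_) h
    exact_mod_cast hsm
  -- scales
  set bl : ℕ → Finset (clG p q) := fun j => univ.filter fun a => Small Rep (y j : ℤ) a with hbl
  have hbl1 : ∀ j, (1 : clG p q) ∈ bl j := by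
    intro j
    rw [hbl, mem_filter]
    exact ⟨mem_univ _, Small.one hR (by exact_mod_cast hy1 j)⟩
  obtain ⟨j, hjJ, hj⟩ := exists_scale (fun j => (bl j).card) J (p - 1) hJ
    (fun j => card_pos.mpr ⟨1, hbl1 j⟩) (by
      rw [← hcard]
      exact card_le_univ _)
  obtain ⟨Z, hZ, hZcard⟩ := exists_packing (bl (j + 1)) (hbl1 _) (by
    intro a ha
    rw [hbl, mem_filter] at ha ⊢
    exact ⟨mem_univ _, ha.2.inv hR⟩)
  rw [hcard] at hZcard
  -- the positive part of the ball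
  set Bp : Finset (clG p q) := univ.filter fun a => ∃ u v : ℤ, 0 < u ∧ 0 < v ∧ u ≤ y j ∧
    v ≤ y j ∧ Rep a u v with hBp
  have hjle : y j ≤ y J := hymono hjJ.le
  have hj1le : y (j + 1) ≤ y J := hymono hjJ
  have hK3 : K ^ 3 ≤ y j := hy0 ▸ hymono (Nat.zero_le j)
  -- negation
  have hneg : ((-1 : (ZMod q)ˣ)) ∈ (powMonoidHom (p - 1) : (ZMod q)ˣ →* (ZMod q)ˣ).ker := by
    rw [MonoidHom.mem_ker, powMonoidHom_apply]
    exact (hp.even_sub_one hp2).neg_one_pow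
  set ε : clG p q := ⟨-1, hneg⟩ with hε
  have hεrep : Rep ε 1 (-1) := by
    have h5 : (((ε : clG p q) : (ZMod q)ˣ) : ZMod q) = -1 := by
      simp [hε]
    rw [hRep, clRep_iff hd, h5, map_neg, map_one]
    push_cast
    ring
  have hhalf : (bl j).card ≤ 2 * Bp.card := by
    have hsub : bl j ⊆ Bp ∪ Bp.image fun a => ε * a := by
      intro a ha
      rw [hbl, mem_filter] at ha
      obtain ⟨-, u, v, hu, hv, hu1, hv1, hr⟩ := ha
      -- make `u` positive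
      have hpos : ∀ (w z : ℤ), 0 < w → z ≠ 0 → |w| ≤ (y j : ℤ) → |z| ≤ (y j : ℤ) → Rep a w z →
          a ∈ Bp ∪ Bp.image fun a => ε * a := by
        intro w z hw hz hw1 hz1 hwz
        rcases lt_or_gt_of_ne hz with hz0 | hz0
        · refine mem_union_right _ (mem_image.mpr ⟨ε * a, ?_, ?_⟩)
          · rw [hBp, mem_filter]
            refine ⟨mem_univ _, w, -z, hw, by omega, (le_abs_self w).trans hw1, ?_, ?_⟩
            · rw [← abs_of_neg hz0]
              exact hz1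
            · have := hR.mul hεrep hwz
              rwa [one_mul, neg_one_mul] at this
          · rw [← mul_assoc]
            have : ε * ε = 1 := by
              apply Subtype.ext
              simp [hε]
            rw [this, one_mul]
        · refine mem_union_left _ ?_
          rw [hBp, mem_filter]
          exact ⟨mem_univ _, w, z, hw, hz0, (le_abs_self w).trans hw1,
            (le_abs_self z).trans hz1, hwz⟩
      rcases lt_or_gt_of_ne hu with hu0 | hu0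
      · refine hpos (-u) (-v) (by omega) (neg_ne_zero.mpr hv) (by rwa [abs_neg])
          (by rwa [abs_neg]) ?_
        have h5 : Rep 1 (-1) (-1) := by
          rw [hRep, clRep_iff hd, Subgroup.coe_one, Units.val_one, map_one, mul_one]
        have h6 := hR.mul h5 hr
        rwa [one_mul, neg_one_mul, neg_one_mul] at h6
      · exact hpos u v hu0 hv hu1 hv1 hr
    calc (bl j).card ≤ (Bp ∪ Bp.image fun a => ε * a).card := card_le_card hsub
      _ ≤ Bp.card + (Bp.image fun a => ε * a).card := card_union_le _ _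
      _ ≤ Bp.card + Bp.card := Nat.add_le_add_left card_image_le _
      _ = 2 * Bp.card := (two_mul _).symm
  -- the chosen representatives
  have hch : ∀ x : (ZMod q)ˣ, ∃ w : ℤ × ℤ, (∀ hx : x ∈ (powMonoidHom (p - 1) :
      (ZMod q)ˣ →* (ZMod q)ˣ).ker, (⟨x, hx⟩ : clG p q) ∈ Bp →
        0 < w.1 ∧ 0 < w.2 ∧ w.1 ≤ y j ∧ w.2 ≤ y j ∧ Rep ⟨x, hx⟩ w.1 w.2) := by
    intro x
    by_cases hx : ∃ hx : x ∈ (powMonoidHom (p - 1) : (ZMod q)ˣ →* (ZMod q)ˣ).ker,
        (⟨x, hx⟩ : clG p q) ∈ Bp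
    · obtain ⟨hx1, hx2⟩ := hx
      rw [hBp, mem_filter] at hx2
      obtain ⟨-, u, v, h1, h2, h3, h4, h5⟩ := hx2
      exact ⟨(u, v), fun _ _ => ⟨h1, h2, h3, h4, h5⟩⟩
    · exact ⟨(0, 0), fun h1 h2 => absurd ⟨h1, h2⟩ hx⟩
  choose w hw using hch
  have hwB : ∀ x ∈ Bp.map ⟨Subtype.val, Subtype.val_injective⟩, ∃ hx : x ∈ (powMonoidHom (p - 1) :
      (ZMod q)ˣ →* (ZMod q)ˣ).ker, 0 < (w x).1 ∧ 0 < (w x).2 ∧ (w x).1 ≤ y j ∧ (w x).2 ≤ y j ∧
        Rep ⟨x, hx⟩ (w x).1 (w x).2 := by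
    intro x hx
    rw [mem_map] at hx
    obtain ⟨a, ha, rfl⟩ := hx
    exact ⟨a.2, hw a.1 a.2 ha⟩
  refine ⟨P, Bp.map ⟨Subtype.val, Subtype.val_injective⟩,
    Z.map ⟨Subtype.val, Subtype.val_injective⟩, fun x => (w x).1, fun x => (w x).2, y j,
    ?_, ?_, ?_, ?_⟩
  · refine ⟨hy1 j, ?_, hPcard, ?_, ?_, ?_, ?_, ?_, ?_, ?_⟩
    · -- small
      calc (16 * K * y j) ^ 16 = ((16 * K * y j) ^ 8) ^ 2 := by ring
        _ = y (j + 1) ^ 2 := by rw [hys]
        _ ≤ y J ^ 2 := Nat.pow_le_pow_left hj1le _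
        _ < p ^ (n - 1) := hsm
    · -- primes
      intro l hl
      refine ⟨hPprime l hl, ?_⟩
      rintro rfl
      obtain ⟨a, u, v, hu, hv, hu1, hv1, hr, hne⟩ := hPex l hl
      refine hne (cl_val_eq hp hq hu hv (lt_of_le_of_lt hu1 ?_) (lt_of_le_of_lt hv1 ?_) hr)
      · exact_mod_cast hsm
      · exact_mod_cast hsm
    · intro x hx
      obtain ⟨hx1, -⟩ := hwB x hx
      exact hx1
    · intro x hx
      obtain ⟨-, h1, h2, h3, h4, -⟩ := hwB x hx
      exact ⟨h1, h2, h3, h4⟩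
    · intro x hx
      obtain ⟨h0, h1, h2, h3, h4, h5⟩ := hwB x hx
      exact h5
    · -- separation
      intro x hx z hz hval
      obtain ⟨hx0, h1, h2, h3, h4, h5⟩ := hwB x hx
      obtain ⟨hz0, g1, g2, g3, g4, g5⟩ := hwB z hz
      have h6 := hR.mul h5 (hR.inv g5)
      have hbd : ∀ s t : ℤ, 0 < s → 0 < t → s ≤ y j → t ≤ y j → |s * t| ≤ (y J : ℤ) ^ 2 := by
        intro s t hs ht hs1 ht1
        rw [abs_of_pos (mul_pos hs ht), sq]
        have hyy : (y j : ℤ) ≤ y J := by exact_mod_cast hjle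
        exact mul_le_mul (hs1.trans hyy) (ht1.trans hyy) ht.le (by positivity)
      have h7 := hPsep _ _ _ (mul_ne_zero h1.ne' g2.ne') (mul_ne_zero h2.ne' g1.ne')
        (hbd _ _ h1 g2 h3 g4) (hbd _ _ h2 g1 h4 g3) h6 fun l hl => (hval l hl).symm
      have h8 : (w x).1 * (w z).2 = (w x).2 * (w z).1 := by
        rcases h7 with h7 | h7
        · exact h7
        · have e1 := mul_pos h1 g2
          have e2 := mul_pos h2 g1
          omega
      rw [← h8] at h6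
      have h9 := hone _ _ (mul_ne_zero h1.ne' g2.ne') (hbd _ _ h1 g2 h3 g4) h6
      have h10 := mul_inv_eq_one.mp h9
      exact congrArg Subtype.val h10
    · intro x hx
      rw [mem_map] at hx
      obtain ⟨a, -, rfl⟩ := hx
      exact a.2
    · -- far
      intro x hx z hz hne
      rw [mem_map] at hx hz
      obtain ⟨a, ha, rfl⟩ := hx
      obtain ⟨b, hb, rfl⟩ := hz
      intro hsmall
      refine hZ a ha b hb (fun h => hne (congrArg Subtype.val h)) ?_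
      rw [hbl, mem_filter]
      refine ⟨mem_univ _, ?_⟩
      obtain ⟨u, v, hu, hv, hu1, hv1, hr⟩ := hsmall
      refine ⟨u, v, hu, hv, ?_, ?_, ?_⟩
      · rw [hys]
        exact_mod_cast hu1
      · rw [hys]
        exact_mod_cast hv1
      · have h3 : ((a * b⁻¹ : clG p q) : (ZMod q)ˣ) = (a : (ZMod q)ˣ) / (b : (ZMod q)ˣ) := by
          rw [Subgroup.coe_mul, Subgroup.coe_inv, div_eq_mul_inv]
        change ((Q : ℕ) : ℤ) ∣ u * ((((a * b⁻¹ : clG p q) : (ZMod q)ˣ) : ZMod q).val : ℤ) - v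
        rw [h3]
        exact hr
  · -- the size of the primes
    intro l hl
    obtain ⟨a, u, v, hu, hv, hu1, hv1, hr, hne⟩ := hPex l hl
    have hdiv : ∀ z : ℤ, z ≠ 0 → |z| ≤ (y J : ℤ) ^ 2 → padicValInt l z ≠ 0 → l ≤ y J ^ 2 := by
      intro z hz hz1 hval
      have h1 : (l : ℤ) ∣ z := by
        have h2 := padicValInt_dvd (p := l) z
        exact dvd_trans (dvd_pow_self _ hval) h2
      have h2 : (l : ℤ) ≤ |z| := Int.le_of_dvd (abs_pos.mpr hz) ((dvd_abs _ _).mpr h1)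
      exact_mod_cast h2.trans hz1
    by_cases h0 : padicValInt l u = 0
    · exact hdiv v hv hv1 fun h => hne (h0.trans h.symm)
    · exact hdiv u hu hu1 h0
  · -- the number
    rw [card_map, card_map]
    calc (p - 1) ^ J ≤ (Z.card * (bl (j + 1)).card) ^ J := Nat.pow_le_pow_left hZcard _
      _ = Z.card ^ J * (bl (j + 1)).card ^ J := mul_pow _ _ _
      _ ≤ Z.card ^ J * ((p - 1) * (bl j).card ^ J) := Nat.mul_le_mul_left _ hj
      _ ≤ Z.card ^ J * ((p - 1) * (2 * Bp.card) ^ J) := by gcongr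
      _ = (p - 1) * (2 * (Z.card * Bp.card)) ^ J := by
        rw [mul_pow 2 Bp.card, mul_pow 2 (Z.card * Bp.card), mul_pow Z.card]
        ring
  · -- separation of the small elements
    intro ξ hξ m k hm hk hm1 hk1 hr hval
    have hξ' : ξ ∈ (powMonoidHom (p - 1) : (ZMod q)ˣ →* (ZMod q)ˣ).ker := hξ
    have hm2 : |(m : ℤ)| ≤ (y J : ℤ) ^ 2 := by
      rw [Nat.abs_cast]
      have : m ≤ y J ^ 2 := (hm1.trans (hK3.trans hjle)).trans (Nat.le_self_pow (by norm_num) _)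
      exact_mod_cast this
    have hk2 : |(k : ℤ)| ≤ (y J : ℤ) ^ 2 := by
      rw [Nat.abs_cast]
      have : k ≤ y J ^ 2 := ((hk1.trans (Nat.le_self_pow (by norm_num : 3 ≠ 0) K)).trans
        (hK3.trans hjle)).trans (Nat.le_self_pow (by norm_num) _)
      exact_mod_cast this
    have hm0 : (m : ℤ) ≠ 0 := by exact_mod_cast hm.ne'
    have hk0 : (k : ℤ) ≠ 0 := by exact_mod_cast hk.ne'
    have h1 := hPsep ⟨ξ, hξ'⟩ m k hm0 hk0 hm2 hk2 hr (fun l hl => by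
      rw [padicValInt, padicValInt, Int.natAbs_natCast, Int.natAbs_natCast]
      exact hval l hl)
    have h2 : (m : ℤ) = k := by
      rcases h1 with h1 | h1
      · exact h1
      · omega
    have h3 : m = k := by exact_mod_cast h2
    refine ⟨?_, h3⟩
    rw [← h3] at hr
    have h4 := hone ⟨ξ, hξ'⟩ m hm0 hm2 hr
    exact congrArg Subtype.val h4

/-- the size of the clusters -/
theorem cl_size {X κ N : ℝ} {J : ℕ} (hJ : 0 < J) (hκJ : 2 ≤ κ * J) (hX2 : 2 ≤ X)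
    (hX : (4 : ℝ) ^ J ≤ X) (hN : 0 ≤ N) (h : (X - 1) ^ J ≤ (X - 1) * (2 * N) ^ J) :
    X ^ (1 - κ) ≤ N := by
  by_contra hcon
  rw [not_le] at hcon
  obtain ⟨J', rfl⟩ : ∃ J', J = J' + 1 := ⟨J - 1, by omega⟩
  have hX0 : 0 < X := by linarith
  have h1 : (2 * N) ^ (J' + 1) < (2 * X ^ (1 - κ)) ^ (J' + 1) :=
    pow_lt_pow_left₀ (by linarith) (by linarith) (by omega)
  have h2 : (X - 1) ^ (J' + 1) < (X - 1) * (2 * X ^ (1 - κ)) ^ (J' + 1) :=
    lt_of_le_of_lt h (mul_lt_mul_of_pos_left h1 (by linarith))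
  have h3 : (X - 1) ^ J' < (2 * X ^ (1 - κ)) ^ (J' + 1) := by
    rw [pow_succ, mul_comm] at h2
    exact lt_of_mul_lt_mul_left h2 (by linarith)
  have h4 : (X / 2) ^ J' ≤ (X - 1) ^ J' := pow_le_pow_left₀ (by linarith) (by linarith) _
  have h5 : (X ^ (1 - κ)) ^ (J' + 1) ≤ X ^ ((J' : ℝ) - 1) := by
    rw [← Real.rpow_natCast (X ^ (1 - κ)), ← Real.rpow_mul hX0.le]
    refine Real.rpow_le_rpow_of_exponent_le (by linarith) ?_
    push_cast at hκJ ⊢
    nlinarith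
  have h6 : (X / 2) ^ J' < 2 ^ (J' + 1) * X ^ ((J' : ℝ) - 1) := by
    refine lt_of_le_of_lt h4 (lt_of_lt_of_le h3 ?_)
    rw [mul_pow]
    exact mul_le_mul_of_nonneg_left h5 (by positivity)
  have h7 : X ^ J' = X * X ^ ((J' : ℝ) - 1) := by
    rw [Real.rpow_sub hX0, Real.rpow_one, Real.rpow_natCast]
    field_simp
  have h8 : (X / 2) ^ J' * 2 ^ J' = X * X ^ ((J' : ℝ) - 1) := by
    rw [← mul_pow, div_mul_cancel₀ _ (by norm_num), h7]
  have h9 : X * X ^ ((J' : ℝ) - 1) < (2 ^ (J' + 1) * 2 ^ J') * X ^ ((J' : ℝ) - 1) := by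
    rw [← h8]
    calc (X / 2) ^ J' * 2 ^ J' < 2 ^ (J' + 1) * X ^ ((J' : ℝ) - 1) * 2 ^ J' :=
          mul_lt_mul_of_pos_right h6 (by positivity)
      _ = _ := by ring
  have h10 : X < 2 ^ (J' + 1) * 2 ^ J' := lt_of_mul_lt_mul_right h9 (by positivity)
  have h11 : (2 : ℝ) ^ (J' + 1) * 2 ^ J' ≤ 4 ^ (J' + 1) := by
    calc (2 : ℝ) ^ (J' + 1) * 2 ^ J' ≤ 2 ^ (J' + 1) * 2 ^ (J' + 1) :=
          mul_le_mul_of_nonneg_left (pow_le_pow_right₀ (by norm_num) (by omega)) (by positivity)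
      _ = 4 ^ (J' + 1) := by rw [← mul_pow]; norm_num
  linarith

theorem exists_clu (δ κ : ℝ) (hδ : 0 < δ) (hκ : 0 < κ) : ∃ r A p₀ : ℕ, ∀ p : ℕ, p₀ ≤ p → p.Prime →
    ∀ (n q K : ℕ) [NeZero q], 2 ≤ n → q = p ^ n → 2 ≤ K →
    Real.log K * (p : ℝ) ^ δ ≤ n * Real.log p →
    ∃ (P : Finset ℕ) (B E : Finset (ZMod q)ˣ) (α β : (ZMod q)ˣ → ℤ) (W : ℕ),
      Clu p n q K r P B E α β W ∧ (∀ l ∈ P, l ≤ K ^ A) ∧
      (p : ℝ) ^ (1 - κ) ≤ E.card * B.card ∧
      (∀ ξ : (ZMod q)ˣ, ξ ^ (p - 1) = 1 → ∀ m k : ℕ, 0 < m → 0 < k → m ≤ K ^ 3 → k ≤ K →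
        ((p ^ (n - 1) : ℕ) : ℤ) ∣ m * ((ξ : ZMod q).val : ℤ) - k →
        (∀ l ∈ P, padicValNat l m = padicValNat l k) → ξ = 1 ∧ m = k) := by
  set D : ℕ := ⌈2 / δ⌉₊ with hD
  set J : ℕ := ⌈2 / κ⌉₊ with hJ
  set A : ℕ := 2 * clExp J with hA
  have hJ0 : 0 < J := Nat.ceil_pos.mpr (by positivity)
  have hDδ : 1 ≤ δ / 2 * ((D + 1 : ℕ) : ℝ) := by
    have h1 : 2 / δ ≤ (D : ℝ) := Nat.le_ceil _
    have h2 : 1 ≤ δ / 2 * D := by
      calc (1 : ℝ) = δ / 2 * (2 / δ) := by field_simp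
        _ ≤ δ / 2 * D := mul_le_mul_of_nonneg_left h1 (by positivity)
    push_cast
    nlinarith
  have hJκ : 2 ≤ κ * (J : ℝ) := by
    have h1 : 2 / κ ≤ (J : ℝ) := Nat.le_ceil _
    calc (2 : ℝ) = κ * (2 / κ) := by field_simp
      _ ≤ κ * J := mul_le_mul_of_nonneg_left h1 hκ.le
  obtain ⟨p₁, hp₁⟩ : ∃ p₁ : ℕ, ∀ p : ℕ, p₁ ≤ p → 4 * A * (D + 1) + 2 ≤ (p : ℝ) ^ (δ / 2) := by
    have h1 := (tendsto_rpow_atTop (show 0 < δ / 2 by positivity)).comp
      (tendsto_natCast_atTop_atTop (R := ℝ))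
    have h2 := h1.eventually_ge_atTop (4 * A * (D + 1) + 2)
    rw [Filter.eventually_atTop] at h2
    exact h2
  refine ⟨D, A, max p₁ (max 3 (4 ^ J)), ?_⟩
  intro p hpp hp n q K _ hn hq hK hlog
  have hp1 : p₁ ≤ p := (le_max_left _ _).trans hpp
  have hp3 : 3 ≤ p := ((le_max_left _ _).trans (le_max_right _ _)).trans hpp
  have hp4 : 4 ^ J ≤ p := ((le_max_right _ _).trans (le_max_right _ _)).trans hpp
  have hpR : (3 : ℝ) ≤ p := by exact_mod_cast hp3
  set x : ℝ := (p : ℝ) ^ (δ / 2) with hx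
  have hxge : 4 * A * (D + 1) + 2 ≤ x := hp₁ p hp1
  have hAD : (0 : ℝ) ≤ 4 * A * (D + 1) := by positivity
  have hx2 : 2 ≤ x := by linarith
  have hxx : x * x = (p : ℝ) ^ δ := by
    rw [hx, ← Real.rpow_add (by linarith)]
    congr 1
    ring
  set E : ℕ := ⌊x⌋₊ with hE
  have hEle : (E : ℝ) ≤ x := Nat.floor_le (by linarith)
  have hElt : x < E + 1 := Nat.lt_floor_add_one x
  have hE1 : 1 ≤ E := by
    have : (1 : ℝ) < E + 1 := by linarith
    have h2 : (0 : ℝ) < E := by linarith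
    exact_mod_cast h2
  -- the scales
  set y : ℕ → ℕ := fun j => Nat.rec (K ^ 3) (fun _ z => (16 * K * z) ^ 8) j with hy
  have hy0 : y 0 = K ^ 3 := rfl
  have hys : ∀ j, y (j + 1) = (16 * K * y j) ^ 8 := fun _ => rfl
  have hyJ : y J ^ 2 ≤ K ^ A := by
    calc y J ^ 2 ≤ (K ^ clExp J) ^ 2 := Nat.pow_le_pow_left (cl_scale_exp hK hy0 hys J) _
      _ = K ^ A := by rw [hA, ← pow_mul, mul_comm]
  -- the main inequality
  set M : ℕ := A * (2 * ((D + 1) * E)) + 1 with hM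
  have hlogK : 0 < Real.log K := Real.log_pos (by exact_mod_cast (show 1 < K by omega))
  have hlogp : 0 < Real.log p := Real.log_pos (by linarith)
  have hMlt : (M : ℝ) < x * x / 2 := by
    rw [hM]
    push_cast
    have h1 : (A : ℝ) * (2 * ((D + 1) * E)) ≤ 2 * A * (D + 1) * x := by
      calc (A : ℝ) * (2 * ((D + 1) * E)) = 2 * A * (D + 1) * E := by ring
        _ ≤ 2 * A * (D + 1) * x := mul_le_mul_of_nonneg_left hEle (by positivity)
    nlinarith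
  have hKM : K ^ M < p ^ (n - 1) := by
    have h1 : (M : ℝ) * Real.log K < ((n - 1 : ℕ) : ℝ) * Real.log p := by
      have h2 : (n : ℝ) / 2 ≤ ((n - 1 : ℕ) : ℝ) := by
        rw [Nat.cast_sub (by omega)]
        push_cast
        have : (2 : ℝ) ≤ n := by exact_mod_cast hn
        linarith
      calc (M : ℝ) * Real.log K < x * x / 2 * Real.log K :=
            mul_lt_mul_of_pos_right hMlt hlogK
        _ = (Real.log K * (p : ℝ) ^ δ) / 2 := by rw [hxx]; ring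
        _ ≤ (n * Real.log p) / 2 := by linarith
        _ = (n : ℝ) / 2 * Real.log p := by ring
        _ ≤ ((n - 1 : ℕ) : ℝ) * Real.log p := mul_le_mul_of_nonneg_right h2 hlogp.le
    have h3 : Real.log ((K : ℝ) ^ M) < Real.log ((p : ℝ) ^ (n - 1)) := by
      rw [Real.log_pow, Real.log_pow]
      exact h1
    have hK0 : (0 : ℝ) < K := by exact_mod_cast (show 0 < K by omega)
    have h4 := (Real.log_lt_log_iff (pow_pos hK0 _) (pow_pos (by linarith) _)).mp h3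
    exact_mod_cast h4
  have hB : 2 * (y J ^ 2) ^ (2 * ((D + 1) * E)) < p ^ (n - 1) := by
    refine lt_of_le_of_lt ?_ hKM
    calc 2 * (y J ^ 2) ^ (2 * ((D + 1) * E)) ≤ K * (K ^ A) ^ (2 * ((D + 1) * E)) := by gcongr
      _ = K ^ M := by rw [← pow_mul, hM, pow_succ, mul_comm]
  have hsm : y J ^ 2 < p ^ (n - 1) := by
    refine lt_of_le_of_lt (hyJ.trans ?_) hKM
    refine Nat.pow_le_pow_right (by omega) ?_
    rw [hM]
    have h1 : 1 ≤ 2 * ((D + 1) * E) := by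
      have : 1 ≤ (D + 1) * E := Nat.one_le_iff_ne_zero.mpr (by positivity)
      omega
    calc A = A * 1 := (mul_one A).symm
      _ ≤ A * (2 * ((D + 1) * E)) := Nat.mul_le_mul_left _ h1
      _ ≤ _ := Nat.le_succ _
  have hEp : p - 1 < (E + 1) ^ (D + 1) := by
    have h1 : (p : ℝ) < ((E : ℝ) + 1) ^ (D + 1) := by
      calc (p : ℝ) = (p : ℝ) ^ (1 : ℝ) := (Real.rpow_one _).symm
        _ ≤ (p : ℝ) ^ (δ / 2 * ((D + 1 : ℕ) : ℝ)) :=
          Real.rpow_le_rpow_of_exponent_le (by linarith) hDδ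
        _ = x ^ (D + 1) := by
          rw [Real.rpow_mul (by linarith), Real.rpow_natCast]
        _ < ((E : ℝ) + 1) ^ (D + 1) := pow_lt_pow_left₀ hElt (by linarith) (by omega)
    have h2 : p < (E + 1) ^ (D + 1) := by exact_mod_cast h1
    omega
  obtain ⟨P, B, E', α, β, W, hC, hP, hcard, hsep⟩ := cl_core hp (by omega) hn hq hK J D E hJ0 hEp y
    hy0 hys hB hsm
  refine ⟨P, B, E', α, β, W, hC, fun l hl => (hP l hl).trans hyJ, ?_, hsep⟩
  refine cl_size hJ0 hJκ (by linarith) (by exact_mod_cast hp4) (by positivity) ?_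
  have h1 : (((p - 1) ^ J : ℕ) : ℝ) ≤ (((p - 1) * (2 * (E'.card * B.card)) ^ J : ℕ) : ℝ) := by
    exact_mod_cast hcard
  rw [Nat.cast_pow, Nat.cast_mul, Nat.cast_pow, Nat.cast_sub (by omega : 1 ≤ p)] at h1
  push_cast at h1
  exact h1

end CL

end Pool.Agent.MU0
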