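import Mathlib
import Pool.Agent.MU0.Four
import Pool.Agent.MU0.L4

/-!
Fourth moments of sums of a trigonometric polynomial over dilates: one cluster, and three dilates in one
cluster with one in another.
-/

open Finset

namespace Pool.Agent.MU0

variable {p n n1 : ℕ}

lemma int_eq_zero (hn : n1 ≤ n) {N : ℤ} (c : (ZMod (p ^ n))ˣ)
    (h : (p : ZMod (p ^ n)) ^ n1 ∣ (N : ZMod (p ^ n)) * c) (hN : |N| < (p : ℤ) ^ n1) : N = 0 := by
  rw [Units.dvd_mul_right] at h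
  obtain ⟨t, ht⟩ := h
  obtain ⟨t', rfl⟩ := ZMod.intCast_surjective t
  have h1 : ((N - (p : ℤ) ^ n1 * t' : ℤ) : ZMod (p ^ n)) = 0 := by
    push_cast
    rw [ht, sub_self]
  rw [ZMod.intCast_zmod_eq_zero_iff_dvd] at h1
  have h2 : (p : ℤ) ^ n1 ∣ N - (p : ℤ) ^ n1 * t' := by
    refine dvd_trans ?_ h1
    push_cast
    exact pow_dvd_pow _ hn
  have h3 : (p : ℤ) ^ n1 ∣ N := by
    have := dvd_add h2 (dvd_mul_right ((p : ℤ) ^ n1) t')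
    simpa using this
  exact Int.eq_zero_of_abs_lt_dvd h3 hN

/-- `u z = v c` modulo `p^n1` with small nonzero `u`, `v` -/
structure Near (n1 : ℕ) (Y : ℤ) (c z : (ZMod (p ^ n))ˣ) (u v : ℤ) : Prop where
  u0 : u ≠ 0
  v0 : v ≠ 0
  uY : |u| ≤ Y
  vY : |v| ≤ Y
  dvd : (p : ZMod (p ^ n)) ^ n1 ∣ (u : ZMod (p ^ n)) * z - v * c

/-- no short relation modulo `p^n1` -/
def FarP (n1 : ℕ) (z w : (ZMod (p ^ n))ˣ) (Y : ℤ) : Prop :=
  ∀ u v : ℤ, |u| ≤ Y → |v| ≤ Y → (p : ZMod (p ^ n)) ^ n1 ∣ (u : ZMod (p ^ n)) * z + v * w → u = 0 ∧ v = 0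

lemma FarP.far {z w : (ZMod (p ^ n))ˣ} {Y : ℤ} (h : FarP n1 z w Y) : Far (z : ZMod (p ^ n)) (w : ZMod (p ^ n)) Y :=
  fun u v hu hv he => h u v hu hv (by rw [he]; exact dvd_zero _)

/-- a relation between four elements of a cluster is a relation between rationals -/
lemma rel_rat (hn : n1 ≤ n) {Y : ℤ} {J : ℕ} (hsize : 4 * 2 ^ J * Y ^ 4 < (p : ℤ) ^ n1) {c : (ZMod (p ^ n))ˣ}
    {ζ : Fin 4 → (ZMod (p ^ n))ˣ} {u v m : Fin 4 → ℤ} (h : ∀ i, Near n1 Y c (ζ i) (u i) (v i))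
    (hm : ∀ i, |m i| < 2 ^ J) (hrel : ∑ i, (m i : ZMod (p ^ n)) * ζ i = 0) :
    ∑ i, (m i : ℚ) * ((v i : ℚ) / u i) = 0 := by
  have hY : 0 ≤ Y := (abs_nonneg _).trans (h 0).uY
  obtain ⟨N, hN⟩ : ∃ N : ℤ, N = m 0 * v 0 * (u 1 * u 2 * u 3) + m 1 * v 1 * (u 0 * u 2 * u 3) +
      m 2 * v 2 * (u 0 * u 1 * u 3) + m 3 * v 3 * (u 0 * u 1 * u 2) := ⟨_, rfl⟩
  have hterm : ∀ a b c d e : ℤ, |a| < 2 ^ J → |b| ≤ Y → |c| ≤ Y → |d| ≤ Y → |e| ≤ Y →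
      |a * b * (c * d * e)| ≤ 2 ^ J * Y ^ 4 := by
    intro a b c d e ha hb hc hd he
    rw [abs_mul, abs_mul, abs_mul, abs_mul]
    calc |a| * |b| * (|c| * |d| * |e|) ≤ 2 ^ J * Y * (Y * Y * Y) := by gcongr
      _ = 2 ^ J * Y ^ 4 := by ring
  have hN0 : N = 0 := by
    refine int_eq_zero hn c ?_ (lt_of_le_of_lt ?_ hsize)
    · rw [Fin.sum_univ_four] at hrel
      have e : (N : ZMod (p ^ n)) * c =
          -((m 0 * (u 1 * u 2 * u 3)) * ((u 0 : ZMod (p ^ n)) * ζ 0 - v 0 * c) +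
            (m 1 * (u 0 * u 2 * u 3)) * ((u 1 : ZMod (p ^ n)) * ζ 1 - v 1 * c) +
            (m 2 * (u 0 * u 1 * u 3)) * ((u 2 : ZMod (p ^ n)) * ζ 2 - v 2 * c) +
            (m 3 * (u 0 * u 1 * u 2)) * ((u 3 : ZMod (p ^ n)) * ζ 3 - v 3 * c)) +
          (u 0 * u 1 * u 2 * u 3) * ((m 0 : ZMod (p ^ n)) * ζ 0 + m 1 * ζ 1 + m 2 * ζ 2 + m 3 * ζ 3) := by
        rw [hN]
        push_cast
        ring
      rw [e, hrel, mul_zero, add_zero, dvd_neg]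
      exact dvd_add (dvd_add (dvd_add ((h 0).dvd.mul_left _) ((h 1).dvd.mul_left _)) ((h 2).dvd.mul_left _))
        ((h 3).dvd.mul_left _)
    · rw [hN]
      have e0 := hterm _ _ _ _ _ (hm 0) (h 0).vY (h 1).uY (h 2).uY (h 3).uY
      have e1 := hterm _ _ _ _ _ (hm 1) (h 1).vY (h 0).uY (h 2).uY (h 3).uY
      have e2 := hterm _ _ _ _ _ (hm 2) (h 2).vY (h 0).uY (h 1).uY (h 3).uY
      have e3 := hterm _ _ _ _ _ (hm 3) (h 3).vY (h 0).uY (h 1).uY (h 2).uY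
      have t1 := abs_add_le (m 0 * v 0 * (u 1 * u 2 * u 3) + m 1 * v 1 * (u 0 * u 2 * u 3) + m 2 * v 2 * (u 0 * u 1 * u 3))
        (m 3 * v 3 * (u 0 * u 1 * u 2))
      have t2 := abs_add_le (m 0 * v 0 * (u 1 * u 2 * u 3) + m 1 * v 1 * (u 0 * u 2 * u 3)) (m 2 * v 2 * (u 0 * u 1 * u 3))
      have t3 := abs_add_le (m 0 * v 0 * (u 1 * u 2 * u 3)) (m 1 * v 1 * (u 0 * u 2 * u 3))
      linarith
  have hu : ∀ i, (u i : ℚ) ≠ 0 := fun i => by exact_mod_cast (h i).u0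
  have h0 := hu 0
  have h1 := hu 1
  have h2 := hu 2
  have h3 := hu 3
  have hNq : (m 0 * v 0 * (u 1 * u 2 * u 3) + m 1 * v 1 * (u 0 * u 2 * u 3) +
      m 2 * v 2 * (u 0 * u 1 * u 3) + m 3 * v 3 * (u 0 * u 1 * u 2) : ℚ) = 0 := by
    rw [hN] at hN0
    exact_mod_cast hN0
  rw [Fin.sum_univ_four]
  have e : (m 0 : ℚ) * ((v 0 : ℚ) / u 0) + m 1 * ((v 1 : ℚ) / u 1) + m 2 * ((v 2 : ℚ) / u 2) + m 3 * ((v 3 : ℚ) / u 3) =
      (m 0 * v 0 * (u 1 * u 2 * u 3) + m 1 * v 1 * (u 0 * u 2 * u 3) +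
      m 2 * v 2 * (u 0 * u 1 * u 3) + m 3 * v 3 * (u 0 * u 1 * u 2)) / (u 0 * u 1 * u 2 * u 3) := by
    field_simp
  rw [e, hNq, zero_div]

/-- no vanishing sum of four rationals one of which has strictly smaller valuation -/
lemma val_min {l : ℕ} [Fact l.Prime] {r : Fin 4 → ℚ} {w : Fin 4 → ℤ}
    (hr : ∀ i, padicNorm l (r i) = (l : ℚ) ^ (-w i)) (hsum : ∑ i, r i = 0) {i : Fin 4}
    (h : ∀ j, j ≠ i → w i < w j) : False := by
  have hl : (1 : ℚ) < l := by exact_mod_cast (Fact.out : l.Prime).one_lt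
  have h1 : r i = -∑ j ∈ univ.erase i, r j := by
    rw [← Finset.add_sum_erase univ r (mem_univ i)] at hsum
    linarith
  have hne : (univ.erase i : Finset (Fin 4)).Nonempty := by
    rw [← card_pos, card_erase_of_mem (mem_univ i)]
    simp
  have h2 : padicNorm l (∑ j ∈ univ.erase i, r j) < (l : ℚ) ^ (-w i) := by
    refine padicNorm.sum_lt hne fun j hj => ?_
    rw [hr j]
    exact zpow_lt_zpow_right₀ hl (by have := h j (Finset.ne_of_mem_erase hj); omega)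
  rw [← padicNorm.neg, ← h1, hr i] at h2
  exact lt_irrefl _ h2

/-- the norm of a term -/
lemma norm_term {l : ℕ} [Fact l.Prime] {m u v : ℤ} (hm : ¬ (l : ℤ) ∣ m) (hu : u ≠ 0) (hv : v ≠ 0) :
    padicNorm l ((m : ℚ) * ((v : ℚ) / u)) = (l : ℚ) ^ (-padicValRat l ((v : ℚ) / u)) := by
  rw [padicNorm.mul, (padicNorm.int_eq_one_iff m).mpr hm, one_mul, padicNorm.eq_zpow_of_nonzero]
  exact div_ne_zero (by exact_mod_cast hv) (by exact_mod_cast hu)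

variable [NeZero (p ^ n)]

lemma N4_dilate (g : ZMod (p ^ n) → ℝ) (z : (ZMod (p ^ n))ˣ) : N4 (fun b => g ((z : ZMod (p ^ n)) * b)) = N4 g := by
  unfold N4
  congr 1
  exact Fintype.sum_equiv (Units.mulLeft z) _ _ fun b => rfl

/-- the fourth moment of a sum over a cluster -/
theorem cluster_N4 (hn : n1 ≤ n) {Y : ℤ} {J : ℕ} (hsize : 4 * 2 ^ J * Y ^ 4 < (p : ℤ) ^ n1)
    {g : ZMod (p ^ n) → ℝ} {x : ℤ → ℝ} (hg : IsTrig g x J) {D : ℕ} (P : Fin D → ℕ) (hP : ∀ l, (P l).Prime)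
    (hxP : ∀ (m : ℤ) (l : Fin D), (P l : ℤ) ∣ m → x m = 0) (c : (ZMod (p ^ n))ˣ) (A : Finset (ZMod (p ^ n))ˣ)
    (u v : (ZMod (p ^ n))ˣ → ℤ) (hA : ∀ z ∈ A, Near n1 Y c z (u z) (v z))
    (hinj : Set.InjOn (fun z => fun l : Fin D => padicValRat (P l) ((v z : ℚ) / u z)) A) :
    N4 (fun b => ∑ z ∈ A, g ((z : ZMod (p ^ n)) * b)) ≤ 4 ^ D * (A.card * N4 g) := by
  classical
  have h1 := N4_vectors (fun (z : (ZMod (p ^ n))ˣ) b => g ((z : ZMod (p ^ n)) * b))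
    (fun z => fun l : Fin D => padicValRat (P l) ((v z : ℚ) / u z)) A hinj ?_
  · refine h1.trans (le_of_eq ?_)
    rw [Finset.sum_congr rfl fun z _ => N4_dilate g z, Finset.sum_const, nsmul_eq_mul]
  · intro a ha b hb c' hc d hd hex
    obtain ⟨l, hl⟩ := hex
    have hF : Fact (P l).Prime := ⟨hP l⟩
    obtain ⟨ζ, hζ⟩ : ∃ ζ : Fin 4 → (ZMod (p ^ n))ˣ, ζ = ![a, b, c', d] := ⟨_, rfl⟩
    have hζA : ∀ i, ζ i ∈ A := by
      intro i
      rw [hζ]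
      fin_cases i <;> assumption
    have e1 : ∑ w : ZMod (p ^ n), g ((a : ZMod (p ^ n)) * w) * (g ((b : ZMod (p ^ n)) * w) *
        g ((c' : ZMod (p ^ n)) * w) * g ((d : ZMod (p ^ n)) * w)) =
        ∑ w : ZMod (p ^ n), ∏ i, g (((ζ i : (ZMod (p ^ n))ˣ) : ZMod (p ^ n)) * w) := by
      refine Finset.sum_congr rfl fun w _ => ?_
      rw [Fin.prod_univ_four, hζ]
      simp only [Matrix.cons_val_zero, Matrix.cons_val_one, Matrix.cons_val]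
      ring
    rw [e1, mean_four hg]
    rw [Finset.sum_eq_zero, mul_zero]
    intro m hm
    rw [mem_filter, Fintype.mem_piFinset] at hm
    obtain ⟨hm1, hm2⟩ := hm
    by_contra hne
    have hx : ∀ i, x (m i) ≠ 0 := fun i h0 => hne (Finset.prod_eq_zero (mem_univ i) h0)
    have hml : ∀ i, ¬ ((P l : ℕ) : ℤ) ∣ m i := fun i hd => hx i (hxP _ l hd)
    have hmJ : ∀ i, |m i| < 2 ^ J := fun i => abs_lt.mpr (mem_Ioo.mp (hm1 i))
    have hrat := rel_rat hn hsize (u := fun i => u (ζ i)) (v := fun i => v (ζ i)) (fun i => hA _ (hζA i)) hmJ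
      (mem_Rel.mp hm2)
    obtain ⟨i, hi⟩ : ∃ i : Fin 4, ∀ j, j ≠ i → padicValRat (P l) ((v (ζ i) : ℚ) / u (ζ i)) <
        padicValRat (P l) ((v (ζ j) : ℚ) / u (ζ j)) := by
      rw [hζ]
      rcases hl with h | h | h | h
      · refine ⟨0, fun j hj => ?_⟩
        fin_cases j
        · exact absurd rfl hj
        · exact h.1
        · exact h.2.1
        · exact h.2.2
      · refine ⟨1, fun j hj => ?_⟩
        fin_cases j
        · exact h.1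
        · exact absurd rfl hj
        · exact h.2.1
        · exact h.2.2
      · refine ⟨2, fun j hj => ?_⟩
        fin_cases j
        · exact h.1
        · exact h.2.1
        · exact absurd rfl hj
        · exact h.2.2
      · refine ⟨3, fun j hj => ?_⟩
        fin_cases j
        · exact h.1
        · exact h.2.1
        · exact h.2.2
        · exact absurd rfl hj
    exact val_min (fun i => norm_term (hml i) (hA _ (hζA i)).u0 (hA _ (hζA i)).v0) hrat hi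

/-- three dilates in a cluster and one far from it -/
theorem clu_three_one {Y : ℤ} {J : ℕ} {g : ZMod (p ^ n) → ℝ} {x : ℤ → ℝ} (hg : IsTrig g x J)
    (hx0 : x 0 = 0) (c : (ZMod (p ^ n))ˣ) (A A' : Finset (ZMod (p ^ n))ˣ)
    (u v : (ZMod (p ^ n))ˣ → ℤ) (hA : ∀ z ∈ A, Near n1 Y c z (u z) (v z))
    (hfar : ∀ z ∈ A, ∀ w ∈ A', FarP n1 z w (3 * 2 ^ J * Y ^ 4)) :
    ∑ b : ZMod (p ^ n), (∑ z ∈ A, g ((z : ZMod (p ^ n)) * b)) ^ 3 * (∑ z ∈ A', g ((z : ZMod (p ^ n)) * b)) = 0 := by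
  classical
  obtain ⟨t, ht⟩ : ∃ t : Fin 4 → Finset (ZMod (p ^ n))ˣ, t = ![A, A, A, A'] := ⟨_, rfl⟩
  have e1 : ∀ b : ZMod (p ^ n), (∑ z ∈ A, g ((z : ZMod (p ^ n)) * b)) ^ 3 * (∑ z ∈ A', g ((z : ZMod (p ^ n)) * b)) =
      ∑ ζ ∈ Fintype.piFinset t, ∏ i, g (((ζ i : (ZMod (p ^ n))ˣ) : ZMod (p ^ n)) * b) := by
    intro b
    have := Finset.prod_univ_sum t (fun (_ : Fin 4) (z : (ZMod (p ^ n))ˣ) => g ((z : ZMod (p ^ n)) * b))
    rw [← this, Fin.prod_univ_four, ht]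
    simp only [Matrix.cons_val_zero, Matrix.cons_val_one, Matrix.cons_val]
    ring
  rw [Finset.sum_congr rfl fun b _ => e1 b, Finset.sum_comm]
  refine Finset.sum_eq_zero fun ζ hζ => ?_
  rw [Fintype.mem_piFinset] at hζ
  have h0 : ζ 0 ∈ A := by have := hζ 0; rw [ht] at this; exact this
  have h1 : ζ 1 ∈ A := by have := hζ 1; rw [ht] at this; exact this
  have h2 : ζ 2 ∈ A := by have := hζ 2; rw [ht] at this; exact this
  have h3 : ζ 3 ∈ A' := by have := hζ 3; rw [ht] at this; exact this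
  rw [mean_four hg, Finset.sum_eq_zero, mul_zero]
  intro m hm
  rw [mem_filter, Fintype.mem_piFinset] at hm
  obtain ⟨hm1, hm2⟩ := hm
  have hmJ : ∀ i, |m i| ≤ 2 ^ J := fun i => (abs_lt.mpr (mem_Ioo.mp (hm1 i))).le
  have n0 := hA _ h0
  have n1' := hA _ h1
  have n2 := hA _ h2
  have hY : 0 ≤ Y := (abs_nonneg _).trans n0.uY
  set u0 := u (ζ 0)
  set u1 := u (ζ 1)
  set u2 := u (ζ 2)
  set v0 := v (ζ 0)
  set v1 := v (ζ 1)
  set v2 := v (ζ 2)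
  have hrel := mem_Rel.mp hm2
  rw [Fin.sum_univ_four] at hrel
  obtain ⟨N, hN⟩ : ∃ N : ℤ, N = (m 0 * v0 * (u1 * u2 * u0) + m 1 * v1 * (u0 * u2 * u0) + m 2 * v2 * (u0 * u1 * u0)) := ⟨_, rfl⟩
  obtain ⟨K, hK⟩ : ∃ K : ℤ, K = m 3 * v0 * (u0 * u1 * u2) := ⟨_, rfl⟩
  have hterm : ∀ a b c d e : ℤ, |a| ≤ 2 ^ J → |b| ≤ Y → |c| ≤ Y → |d| ≤ Y → |e| ≤ Y →
      |a * b * (c * d * e)| ≤ 2 ^ J * Y ^ 4 := by
    intro a b c d e ha hb hc hd he
    rw [abs_mul, abs_mul, abs_mul, abs_mul]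
    calc |a| * |b| * (|c| * |d| * |e|) ≤ 2 ^ J * Y * (Y * Y * Y) := by gcongr
      _ = 2 ^ J * Y ^ 4 := by ring
  have hpos : 0 ≤ 2 ^ J * Y ^ 4 := by positivity
  have hNs : |N| ≤ 3 * 2 ^ J * Y ^ 4 := by
    rw [hN]
    have e0 := hterm _ _ _ _ _ (hmJ 0) n0.vY n1'.uY n2.uY n0.uY
    have e1 := hterm _ _ _ _ _ (hmJ 1) n1'.vY n0.uY n2.uY n0.uY
    have e2 := hterm _ _ _ _ _ (hmJ 2) n2.vY n0.uY n1'.uY n0.uY
    have t1 := abs_add_le (m 0 * v0 * (u1 * u2 * u0) + m 1 * v1 * (u0 * u2 * u0)) (m 2 * v2 * (u0 * u1 * u0))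
    have t2 := abs_add_le (m 0 * v0 * (u1 * u2 * u0)) (m 1 * v1 * (u0 * u2 * u0))
    linarith
  have hKs : |K| ≤ 3 * 2 ^ J * Y ^ 4 := by
    rw [hK]
    have e0 := hterm _ _ _ _ _ (hmJ 3) n0.vY n0.uY n1'.uY n2.uY
    linarith
  have hdvd : (p : ZMod (p ^ n)) ^ n1 ∣ (N : ZMod (p ^ n)) * ζ 0 + K * ζ 3 := by
    -- all multiplied by u0 u1 u2 v0
    have e : (N : ZMod (p ^ n)) * ζ 0 + K * ζ 3 =
        (m 0 * v0 * u0 * u1 * u2 + m 1 * v1 * u0 * u0 * u2 + m 2 * v2 * u0 * u0 * u1 - m 0 * u0 * u1 * u2 * v0) * ζ 0 -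
          (m 1 * u0 * u2 * v0) * ((u1 : ZMod (p ^ n)) * ζ 1 - v1 * c) - (m 2 * u0 * u1 * v0) * ((u2 : ZMod (p ^ n)) * ζ 2 - v2 * c) -
          (m 1 * v1 * u0 * u2 * v0 + m 2 * v2 * u0 * u1 * v0) * c +
          (u0 * u1 * u2 * v0) * ((m 0 : ZMod (p ^ n)) * ζ 0 + m 1 * ζ 1 + m 2 * ζ 2 + m 3 * ζ 3) := by
      rw [hN, hK]
      push_cast
      ring
    have e' : (N : ZMod (p ^ n)) * ζ 0 + K * ζ 3 =
        (m 1 * v1 * u0 * u2 + m 2 * v2 * u0 * u1) * ((u0 : ZMod (p ^ n)) * ζ 0 - v0 * c) -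
          (m 1 * u0 * u2 * v0) * ((u1 : ZMod (p ^ n)) * ζ 1 - v1 * c) - (m 2 * u0 * u1 * v0) * ((u2 : ZMod (p ^ n)) * ζ 2 - v2 * c) := by
      rw [e, hrel]
      ring
    rw [e']
    exact dvd_sub (dvd_sub (n0.dvd.mul_left _) (n1'.dvd.mul_left _)) (n2.dvd.mul_left _)
  obtain ⟨-, hK0⟩ := hfar _ h0 _ h3 N K hNs hKs hdvd
  rw [hK] at hK0
  have hm3 : m 3 = 0 := by
    have a1 := n0.u0
    have a2 := n1'.u0
    have a3 := n2.u0
    have a4 := n0.v0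
    simpa [a1, a2, a3, a4] using hK0
  exact Finset.prod_eq_zero (mem_univ 3) (by rw [hm3]; exact hx0)

end Pool.Agent.MU0
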