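import Pool.Agent.MU0.BDefs

/-!
# Counting points of the lattice `n' = ζ n` modulo `M`
-/

set_option autoImplicit false

open Finset

namespace Pool.Agent.MU0

theorem cnt_thue (M : ℕ) [NeZero M] (ζ : ZMod M) : ∃ x y : ℤ, (y : ZMod M) = ζ * x ∧
    (x ≠ 0 ∨ y ≠ 0) ∧ |x| ≤ (Nat.sqrt M : ℤ) ∧ |y| ≤ (Nat.sqrt M : ℤ) := by
  set s := Nat.sqrt M with hs
  set S := (range (s + 1)) ×ˢ (range (s + 1)) with hS
  have hcard : (Finset.univ : Finset (ZMod M)).card < S.card := by
    rw [hS, card_product, card_range, Finset.card_univ, ZMod.card]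
    exact Nat.lt_succ_sqrt M
  obtain ⟨x, hx, y, hy, hne, h⟩ := Finset.exists_ne_map_eq_of_card_lt_of_maps_to hcard
    (f := fun t : ℕ × ℕ => (t.2 : ZMod M) - ζ * (t.1 : ZMod M)) (fun _ _ => Finset.mem_univ _)
  simp only [hS, mem_product, mem_range] at hx hy
  refine ⟨(x.1 : ℤ) - y.1, (x.2 : ℤ) - y.2, ?_, ?_, ?_, ?_⟩
  · push_cast
    have h' : (x.2 : ZMod M) - ζ * (x.1 : ZMod M) = (y.2 : ZMod M) - ζ * (y.1 : ZMod M) := h
    linear_combination h'
  · by_contra hc
    push Not at hc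
    exact hne (Prod.ext (by omega) (by omega))
  · rw [abs_le]; constructor <;> omega
  · rw [abs_le]; constructor <;> omega

/-- a vector of minimal length -/
theorem cnt_min (M : ℕ) [NeZero M] (ζ : ZMod M) : ∃ x y : ℤ, (y : ZMod M) = ζ * x ∧
    (x ≠ 0 ∨ y ≠ 0) ∧ (max |x| |y| ≤ (Nat.sqrt M : ℤ)) ∧
    ∀ u w : ℤ, (w : ZMod M) = ζ * u → max |u| |w| < max |x| |y| → u = 0 ∧ w = 0 := by
  classical
  have hex : ∃ n : ℕ, ∃ x y : ℤ, (y : ZMod M) = ζ * x ∧ (x ≠ 0 ∨ y ≠ 0) ∧ max |x| |y| = (n : ℤ) := by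
    obtain ⟨x, y, h, hne, -, -⟩ := cnt_thue M ζ
    exact ⟨(max |x| |y|).toNat, x, y, h, hne, (Int.toNat_of_nonneg (by positivity)).symm⟩
  obtain ⟨x, y, h, hne, hn⟩ := Nat.find_spec hex
  refine ⟨x, y, h, hne, ?_, ?_⟩
  · obtain ⟨x', y', h', hne', hx', hy'⟩ := cnt_thue M ζ
    rw [hn]
    have h1 : Nat.find hex ≤ (max |x'| |y'|).toNat :=
      Nat.find_min' hex ⟨x', y', h', hne', (Int.toNat_of_nonneg (by positivity)).symm⟩
    have h2 : max |x'| |y'| ≤ (Nat.sqrt M : ℤ) := max_le hx' hy'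
    have h3 : ((max |x'| |y'|).toNat : ℤ) = max |x'| |y'| := Int.toNat_of_nonneg (by positivity)
    omega
  · intro u w huw hlt
    by_contra hc
    have hne' : u ≠ 0 ∨ w ≠ 0 := by
      by_contra hcc
      push Not at hcc
      exact hc hcc
    have h1 : Nat.find hex ≤ (max |u| |w|).toNat :=
      Nat.find_min' hex ⟨u, w, huw, hne', (Int.toNat_of_nonneg (by positivity)).symm⟩
    have h3 : ((max |u| |w|).toNat : ℤ) = max |u| |w| := Int.toNat_of_nonneg (by positivity)
    rw [hn] at hlt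
    omega

/-- vectors of the lattice which are parallel to the minimal one are multiples of it -/
theorem cnt_par {M : ℕ} {ζ : ZMod M} {x y : ℤ} (h : (y : ZMod M) = ζ * x) (hne : x ≠ 0 ∨ y ≠ 0)
    (hmin : ∀ u w : ℤ, (w : ZMod M) = ζ * u → max |u| |w| < max |x| |y| → u = 0 ∧ w = 0)
    {u w : ℤ} (huw : (w : ZMod M) = ζ * u) (hdet : u * y = w * x) :
    ∃ j : ℤ, u = j * x ∧ w = j * y := by
  rcases le_total |y| |x| with hxy | hxy
  · have hx : x ≠ 0 := by
      rcases hne with h1 | h1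
      · exact h1
      · intro h0
        rw [h0, abs_zero, abs_nonpos_iff] at hxy
        exact h1 hxy
    set r := u % x with hr
    set j := u / x with hj
    have h1 : u = j * x + r := by
      have := Int.emod_add_mul_ediv u x
      rw [hj, hr]; linarith
    have hr0 : 0 ≤ r := Int.emod_nonneg _ hx
    have hr1 : r < |x| := Int.emod_lt_abs _ hx
    have h2 : (w - j * y) * x = r * y := by
      have : r = u - j * x := by linarith
      rw [this]
      linear_combination -hdet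
    have h3 : |w - j * y| ≤ r := by
      by_contra hc
      push Not at hc
      have h4 : |w - j * y| * |x| = r * |y| := by
        rw [← abs_mul, h2, abs_mul, abs_of_nonneg hr0]
      have hx' : 0 < |x| := abs_pos.2 hx
      nlinarith [abs_nonneg y]
    have h5 := hmin (u - j * x) (w - j * y) (by push_cast; linear_combination huw - (j : ZMod M) * h) (by
      rw [max_eq_left hxy]
      refine max_lt ?_ (h3.trans_lt hr1)
      rw [show u - j * x = r by linarith, abs_of_nonneg hr0]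
      exact hr1)
    exact ⟨j, by linarith [h5.1], by linarith [h5.2]⟩
  · have hy : y ≠ 0 := by
      rcases hne with h1 | h1
      · intro h0
        rw [h0, abs_zero, abs_nonpos_iff] at hxy
        exact h1 hxy
      · exact h1
    set r := w % y with hr
    set j := w / y with hj
    have h1 : w = j * y + r := by
      have := Int.emod_add_mul_ediv w y
      rw [hj, hr]; linarith
    have hr0 : 0 ≤ r := Int.emod_nonneg _ hy
    have hr1 : r < |y| := Int.emod_lt_abs _ hy
    have h2 : (u - j * x) * y = r * x := by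
      have : r = w - j * y := by linarith
      rw [this]
      linear_combination hdet
    have h3 : |u - j * x| ≤ r := by
      by_contra hc
      push Not at hc
      have h4 : |u - j * x| * |y| = r * |x| := by
        rw [← abs_mul, h2, abs_mul, abs_of_nonneg hr0]
      have hy' : 0 < |y| := abs_pos.2 hy
      nlinarith [abs_nonneg x]
    have h5 := hmin (u - j * x) (w - j * y) (by push_cast; linear_combination huw - (j : ZMod M) * h) (by
      rw [max_eq_right hxy]
      refine max_lt (h3.trans_lt hr1) ?_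
      rw [show w - j * y = r by linarith, abs_of_nonneg hr0]
      exact hr1)
    exact ⟨j, by linarith [h5.1], by linarith [h5.2]⟩

theorem cnt_det {M : ℕ} {ζ : ZMod M} {x y u w : ℤ} (h : (y : ZMod M) = ζ * x)
    (huw : (w : ZMod M) = ζ * u) : (M : ℤ) ∣ u * y - w * x := by
  rw [← ZMod.intCast_zmod_eq_zero_iff_dvd]
  push_cast
  rw [h, huw]
  ring

theorem cnt_inj {α : Type*} (A : Finset α) (f : α → ℤ) (hinj : Set.InjOn f A) {R : ℝ} (hR0 : 0 ≤ R)
    (hR : ∀ x ∈ A, |(f x : ℝ)| ≤ R) : (A.card : ℝ) ≤ 2 * R + 1 := by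
  have h1 : A.image f ⊆ Icc (-⌊R⌋) ⌊R⌋ := by
    intro t ht
    obtain ⟨x, hx, rfl⟩ := mem_image.1 ht
    have := abs_le.1 (hR x hx)
    rw [mem_Icc]
    refine ⟨?_, Int.le_floor.2 this.2⟩
    have h2 : -(f x) ≤ ⌊R⌋ := Int.le_floor.2 (by push_cast; linarith [this.1])
    linarith
  have h2 := card_le_card h1
  rw [card_image_of_injOn hinj, Int.card_Icc] at h2
  have h3 : (0 : ℤ) ≤ ⌊R⌋ := Int.floor_nonneg.2 hR0
  have h4 : ((⌊R⌋ + 1 - -⌊R⌋).toNat : ℤ) = 2 * ⌊R⌋ + 1 := by
    rw [Int.toNat_of_nonneg (by linarith)]; ring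
  have h5 : (A.card : ℤ) ≤ 2 * ⌊R⌋ + 1 := by rw [← h4]; exact_mod_cast h2
  have h6 : (A.card : ℝ) ≤ 2 * (⌊R⌋ : ℝ) + 1 := by exact_mod_cast h5
  linarith [Int.floor_le R]

theorem count_square (M : ℕ) [NeZero M] (ζ : ZMod M) {V : ℝ} (hV : 1 ≤ V) (h : NoShort M ζ V)
    (L : ℕ) (hL : 1 ≤ L) (a b : ℕ) :
    ((((Ico a (a + L)) ×ˢ (Ico b (b + L))).filter
      (fun n : ℕ × ℕ => (n.2 : ZMod M) = ζ * (n.1 : ℕ))).card : ℝ) ≤
      40 * (1 + L / V + (L : ℝ) ^ 2 / M) := by
  classical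
  set A := ((Ico a (a + L)) ×ˢ (Ico b (b + L))).filter
      (fun n : ℕ × ℕ => (n.2 : ZMod M) = ζ * (n.1 : ℕ)) with hA
  have hM : (0 : ℝ) < M := by exact_mod_cast Nat.pos_of_ne_zero (NeZero.ne M)
  have hMz : (0 : ℤ) < M := by exact_mod_cast Nat.pos_of_ne_zero (NeZero.ne M)
  have hLr : (1 : ℝ) ≤ L := by exact_mod_cast hL
  rcases A.eq_empty_or_nonempty with he | ⟨n₀, hn₀⟩
  · rw [he]; simp only [card_empty, Nat.cast_zero]; positivity
  obtain ⟨x, y, hxy, hne, hs, hmin⟩ := cnt_min M ζ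
  set S : ℤ := max |x| |y| with hS
  have hSV : V < S := by
    by_contra hc
    push Not at hc
    have h1 : |(x : ℝ)| ≤ V := by
      have : |x| ≤ S := le_max_left _ _
      have : (|x| : ℝ) ≤ S := by exact_mod_cast this
      exact this.trans hc
    have h2 : |(y : ℝ)| ≤ V := by
      have : |y| ≤ S := le_max_right _ _
      have : (|y| : ℝ) ≤ S := by exact_mod_cast this
      exact this.trans hc
    have := h x y hxy h1 h2
    rcases hne with h3 | h3
    · exact h3 this.1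
    · exact h3 this.2
  have hS0 : (0 : ℝ) < S := by linarith
  have hS0z : (0 : ℤ) < S := by exact_mod_cast hS0
  have hSs : (S : ℝ) ≤ √M := by
    have h1 : (S : ℝ) ≤ (Nat.sqrt M : ℝ) := by exact_mod_cast hs
    exact h1.trans Real.nat_sqrt_le_real_sqrt
  have hmem : ∀ n ∈ A, ((n.2 : ℤ) : ZMod M) = ζ * ((n.1 : ℤ) : ZMod M) := by
    intro n hn
    have := (mem_filter.1 hn).2
    push_cast
    exact this
  have hd1 : ∀ n ∈ A, |((n.1 : ℤ) - n₀.1 : ℤ)| ≤ L := by
    intro n hn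
    have h1 := mem_product.1 (mem_filter.1 hn).1
    have h2 := mem_product.1 (mem_filter.1 hn₀).1
    simp only [mem_Ico] at h1 h2
    rw [abs_le]; constructor <;> omega
  -- the number of the line
  have hk : ∀ n ∈ A, ∃ k : ℤ, ((n.1 : ℤ) - n₀.1) * y - ((n.2 : ℤ) - n₀.2) * x = M * k := by
    intro n hn
    have h1 := cnt_det hxy (u := (n.1 : ℤ) - n₀.1) (w := (n.2 : ℤ) - n₀.2) (by
      push_cast
      have h2 := hmem n hn
      have h3 := hmem n₀ hn₀
      push_cast at h2 h3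
      linear_combination h2 - h3)
    exact h1
  set κ : ℕ × ℕ → ℤ := fun n => (((n.1 : ℤ) - n₀.1) * y - ((n.2 : ℤ) - n₀.2) * x) / M with hκ
  have hκ' : ∀ n ∈ A, ((n.1 : ℤ) - n₀.1) * y - ((n.2 : ℤ) - n₀.2) * x = M * κ n := by
    intro n hn
    obtain ⟨k, hk⟩ := hk n hn
    simp only [hκ, hk]
    rw [Int.mul_ediv_cancel_left _ hMz.ne']
  have hxS : |x| ≤ S := le_max_left _ _
  have hyS : |y| ≤ S := le_max_right _ _
  have hbd : ∀ n ∈ A, |(κ n : ℝ)| ≤ 2 * L * S / M := by
    intro n hn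
    have h1 := hκ' n hn
    have hn' := mem_product.1 (mem_filter.1 hn).1
    have h2' := mem_product.1 (mem_filter.1 hn₀).1
    simp only [mem_Ico] at hn' h2'
    have h2 : |((n.1 : ℤ) - n₀.1)| ≤ L := by rw [abs_le]; constructor <;> omega
    have h3 : |((n.2 : ℤ) - n₀.2)| ≤ L := by rw [abs_le]; constructor <;> omega
    have h4 : |(M : ℤ) * κ n| ≤ 2 * L * S := by
      rw [← h1]
      refine (abs_sub _ _).trans ?_
      rw [abs_mul, abs_mul]
      have h5 : |((n.1 : ℤ) - n₀.1)| * |y| ≤ L * S := mul_le_mul h2 hyS (abs_nonneg _) (by positivity)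
      have h6 : |((n.2 : ℤ) - n₀.2)| * |x| ≤ L * S := mul_le_mul h3 hxS (abs_nonneg _) (by positivity)
      linarith
    rw [le_div_iff₀ hM]
    have h5 : |(M : ℝ) * κ n| ≤ 2 * L * S := by exact_mod_cast h4
    rw [abs_mul, abs_of_pos hM] at h5
    linarith
  -- the image
  have himg : ((A.image κ).card : ℝ) ≤ 2 * (2 * L * S / M) + 1 := by
    refine cnt_inj _ id (fun _ _ _ _ h => h) (by positivity) ?_
    intro t ht
    obtain ⟨n, hn, rfl⟩ := mem_image.1 ht
    exact hbd n hn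
  -- the fibres
  have hfib : ∀ t ∈ A.image κ, ((A.filter (fun n => κ n = t)).card : ℝ) ≤ 2 * (L / S) + 1 := by
    intro t ht
    obtain ⟨n₁, hn₁, ht₁⟩ := mem_image.1 ht
    have hj : ∀ n ∈ A.filter (fun n => κ n = t), ∃ j : ℤ, (n.1 : ℤ) - n₁.1 = j * x ∧
        (n.2 : ℤ) - n₁.2 = j * y := by
      intro n hn
      obtain ⟨hnA, hnt⟩ := mem_filter.1 hn
      refine cnt_par hxy hne hmin ?_ ?_
      · push_cast
        have h2 := hmem n hnA
        have h3 := hmem n₁ hn₁
        push_cast at h2 h3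
        linear_combination h2 - h3
      · have h4 := hκ' n hnA
        have h5 := hκ' n₁ hn₁
        rw [hnt] at h4
        rw [ht₁] at h5
        linear_combination h4 - h5
    choose! j hj1 hj2 using hj
    refine cnt_inj _ j ?_ (by positivity) ?_
    · intro n hn n' hn' hjj
      have h1 := hj1 n hn
      have h2 := hj1 n' hn'
      have h3 := hj2 n hn
      have h4 := hj2 n' hn'
      rw [hjj] at h1 h3
      refine Prod.ext ?_ ?_ <;> omega
    · intro n hn
      obtain ⟨hnA, -⟩ := mem_filter.1 hn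
      have hn' := mem_product.1 (mem_filter.1 hnA).1
      have h2' := mem_product.1 (mem_filter.1 hn₁).1
      simp only [mem_Ico] at hn' h2'
      have h2 : |((n.1 : ℤ) - n₁.1)| ≤ L := by rw [abs_le]; constructor <;> omega
      have h3 : |((n.2 : ℤ) - n₁.2)| ≤ L := by rw [abs_le]; constructor <;> omega
      rw [hj1 n hn, abs_mul] at h2
      rw [hj2 n hn, abs_mul] at h3
      have h4 : |j n| * S ≤ L := by
        rcases max_choice |x| |y| with h5 | h5
        · rw [hS, h5]; exact h2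
        · rw [hS, h5]; exact h3
      rw [le_div_iff₀ hS0]
      exact_mod_cast h4
  have htot : (A.card : ℝ) ≤ (2 * (2 * L * S / M) + 1) * (2 * (L / S) + 1) := by
    rw [card_eq_sum_card_image κ A, Nat.cast_sum]
    calc ∑ t ∈ A.image κ, ((A.filter (fun n => κ n = t)).card : ℝ)
        ≤ ∑ _t ∈ A.image κ, (2 * ((L : ℝ) / S) + 1) := sum_le_sum hfib
      _ = ((A.image κ).card : ℝ) * (2 * (L / S) + 1) := by rw [sum_const, nsmul_eq_mul]
      _ ≤ _ := mul_le_mul_of_nonneg_right himg (by positivity)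
  refine htot.trans ?_
  have h1 : (L : ℝ) / S ≤ L / V := div_le_div_of_nonneg_left (by positivity) (by linarith) hSV.le
  have h2 : (L : ℝ) * S / M ≤ (1 + (L : ℝ) ^ 2 / M) := by
    have h3 : (L : ℝ) * S ≤ L * √M := mul_le_mul_of_nonneg_left hSs (by positivity)
    have h4 : (L : ℝ) * √M ≤ M + L ^ 2 := by
      have := sq_nonneg ((L : ℝ) - √M)
      have h5 := Real.sq_sqrt hM.le
      nlinarith [Real.sqrt_nonneg (M : ℝ)]
    rw [div_le_iff₀ hM, add_mul, div_mul_cancel₀ _ hM.ne', one_mul]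
    linarith
  have h3 : (2 * (2 * L * S / M) + 1) * (2 * ((L : ℝ) / S) + 1) =
      8 * ((L : ℝ) ^ 2 / M) + 4 * (L * S / M) + 2 * (L / S) + 1 := by
    field_simp
    ring
  rw [h3]
  have h4 : (0 : ℝ) ≤ (L : ℝ) ^ 2 / M := by positivity
  have h5 : (0 : ℝ) ≤ (L : ℝ) / V := by positivity
  linarith

end Pool.Agent.MU0
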