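import Pool.Agent.MU0.Defs

/-!
# Correlations of trigonometric polynomials modulo `q`
-/

set_option autoImplicit false

open Finset
open scoped Real

namespace Pool.Agent.MU0

variable {q : ℕ} [NeZero q]

theorem conj_std (x : ZMod q) : (starRingEnd ℂ) (ZMod.stdAddChar x : ℂ) = ZMod.stdAddChar (-x) := by
  rw [AddChar.map_neg_eq_inv, Complex.inv_def, Complex.normSq_eq_norm_sq]
  have : ‖(ZMod.stdAddChar x : ℂ)‖ = 1 := AddChar.norm_apply _ _
  rw [this]
  simp

theorem cs_eq (x : ZMod q) : ((cs x : ℝ) : ℂ) =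
    (1 / 2 : ℂ) * ∑ s ∈ ({1, -1} : Finset ℤ), (ZMod.stdAddChar ((s : ZMod q) * x) : ℂ) := by
  rw [Finset.sum_pair (by norm_num)]
  push_cast
  rw [one_mul, neg_one_mul, ← conj_std, cs]
  rw [Complex.add_conj]
  push_cast
  ring

theorem std_sum {ι : Type*} (s : Finset ι) (f : ι → ZMod q) :
    (ZMod.stdAddChar (∑ i ∈ s, f i) : ℂ) = ∏ i ∈ s, (ZMod.stdAddChar (f i) : ℂ) := by
  classical
  induction s using Finset.induction_on with
  | empty => simp
  | insert i s hi ih =>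
    rw [Finset.sum_insert hi, Finset.prod_insert hi, AddChar.map_add_eq_mul, ih]

/-- the four signs -/
def sgn4 : Finset (Fin 4 → ℤ) := Fintype.piFinset fun _ => ({1, -1} : Finset ℤ)

theorem mem_sgn4 {s : Fin 4 → ℤ} : s ∈ sgn4 ↔ ∀ i, s i = 1 ∨ s i = -1 := by
  simp [sgn4, Fintype.mem_piFinset]

theorem sum_cs4 (y : Fin 4 → ZMod q) :
    ∑ b : ZMod q, ∏ i, cs (y i * b) =
      (q : ℝ) / 16 * ((sgn4.filter fun s => ∑ i, (s i : ZMod q) * y i = 0).card : ℝ) := by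
  have key : ((∑ b : ZMod q, ∏ i, cs (y i * b) : ℝ) : ℂ) =
      (((q : ℝ) / 16 * ((sgn4.filter fun s => ∑ i, (s i : ZMod q) * y i = 0).card : ℝ) : ℝ) : ℂ) := by
    push_cast
    have e1 : ∀ b : ZMod q, ∏ i : Fin 4, ((cs (y i * b) : ℝ) : ℂ) =
        (1 / 16 : ℂ) * ∑ s ∈ sgn4, (ZMod.stdAddChar (b * ∑ i, (s i : ZMod q) * y i) : ℂ) := by
      intro b
      have e2 : ∏ i : Fin 4, ((cs (y i * b) : ℝ) : ℂ) = ∏ i : Fin 4, ((1 / 2 : ℂ) *
          ∑ s ∈ ({1, -1} : Finset ℤ), (ZMod.stdAddChar ((s : ZMod q) * (y i * b)) : ℂ)) :=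
        Finset.prod_congr rfl fun i _ => cs_eq _
      rw [e2, Finset.prod_mul_distrib, Finset.prod_univ_sum]
      have e3 : ∏ _i : Fin 4, (1 / 2 : ℂ) = 1 / 16 := by
        rw [Finset.prod_const, Finset.card_univ, Fintype.card_fin]
        norm_num
      rw [e3]
      congr 1
      refine Finset.sum_congr rfl fun s _ => ?_
      rw [Finset.mul_sum, std_sum]
      refine Finset.prod_congr rfl fun i _ => ?_
      congr 1
      ring
    simp_rw [e1]
    rw [← Finset.mul_sum, Finset.sum_comm]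
    have e4 : ∀ s ∈ sgn4, ∑ b : ZMod q, (ZMod.stdAddChar (b * ∑ i, (s i : ZMod q) * y i) : ℂ) =
        if ∑ i, (s i : ZMod q) * y i = 0 then (q : ℂ) else 0 := by
      intro s _
      rw [AddChar.sum_mulShift _ (ZMod.isPrimitive_stdAddChar q)]
      simp [ZMod.card]
    rw [Finset.sum_congr rfl e4, ← Finset.sum_filter, Finset.sum_const, nsmul_eq_mul]
    ring
  exact_mod_cast key

theorem card_sgn4 : sgn4.card = 16 := by
  rw [sgn4, Fintype.card_piFinset]
  rfl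

theorem EE_cs4 (y : Fin 4 → ZMod q) : EE q (fun b => ∏ i, cs (y i * b)) =
    ((sgn4.filter fun s => ∑ i, (s i : ZMod q) * y i = 0).card : ℝ) / 16 := by
  have hq : (q : ℝ) ≠ 0 := Nat.cast_ne_zero.2 (NeZero.ne q)
  rw [EE, sum_cs4]
  field_simp

/-- expansion of the mean of a product of four polynomials -/
theorem EE_gq4 (c : ℕ → ℝ) (K : ℕ) (u : Fin 4 → ZMod q) :
    EE q (fun b => ∏ i, gq c K (u i * b)) =
      ∑ k ∈ Fintype.piFinset fun _ : Fin 4 => Icc 1 K, (∏ i, c (k i)) *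
        (((sgn4.filter fun s => ∑ i, (s i : ZMod q) * ((k i : ZMod q) * u i) = 0).card : ℝ) / 16) := by
  have e1 : ∀ b : ZMod q, ∏ i, gq c K (u i * b) =
      ∑ k ∈ Fintype.piFinset fun _ : Fin 4 => Icc 1 K, (∏ i, c (k i)) *
        ∏ i, cs (((k i : ZMod q) * u i) * b) := by
    intro b
    unfold gq
    rw [Finset.prod_univ_sum]
    refine Finset.sum_congr rfl fun k _ => ?_
    rw [← Finset.prod_mul_distrib]
    refine Finset.prod_congr rfl fun i _ => ?_
    rw [mul_assoc]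
  unfold EE
  rw [Finset.sum_congr rfl fun b _ => e1 b, Finset.sum_comm, Finset.sum_div]
  refine Finset.sum_congr rfl fun k _ => ?_
  rw [← Finset.mul_sum, mul_div_assoc]
  congr 1
  exact EE_cs4 _

/-- the mean vanishes if there is no relation -/
theorem corr_zero (c : ℕ → ℝ) (K : ℕ) (u : Fin 4 → ZMod q)
    (h : ∀ k : Fin 4 → ℕ, (∀ i, 1 ≤ k i ∧ k i ≤ K ∧ c (k i) ≠ 0) → ∀ s : Fin 4 → ℤ,
      (∀ i, s i = 1 ∨ s i = -1) → ∑ i, (s i : ZMod q) * ((k i : ZMod q) * u i) ≠ 0) :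
    EE q (fun b => ∏ i, gq c K (u i * b)) = 0 := by
  rw [EE_gq4]
  refine Finset.sum_eq_zero fun k hk => ?_
  rw [Fintype.mem_piFinset] at hk
  by_cases hc : ∀ i, c (k i) ≠ 0
  · have h1 : (sgn4.filter fun s => ∑ i, (s i : ZMod q) * ((k i : ZMod q) * u i) = 0) = ∅ := by
      rw [Finset.filter_eq_empty_iff]
      intro s hs
      exact h k (fun i => ⟨(Finset.mem_Icc.1 (hk i)).1, (Finset.mem_Icc.1 (hk i)).2, hc i⟩) s
        (mem_sgn4.1 hs)
    rw [h1]
    simp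
  · push Not at hc
    obtain ⟨i, hi⟩ := hc
    rw [Finset.prod_eq_zero (Finset.mem_univ i) hi, zero_mul]

open Classical in
/-- absolute values -/
theorem corr_le (c : ℕ → ℝ) (K : ℕ) (u : Fin 4 → ZMod q) :
    |EE q (fun b => ∏ i, gq c K (u i * b))| ≤
      ∑ k ∈ Fintype.piFinset fun _ : Fin 4 => Icc 1 K, (∏ i, |c (k i)|) *
        if ∃ s : Fin 4 → ℤ, (∀ i, s i = 1 ∨ s i = -1) ∧
          ∑ i, (s i : ZMod q) * ((k i : ZMod q) * u i) = 0 then 1 else 0 := by
  rw [EE_gq4]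
  refine (Finset.abs_sum_le_sum_abs _ _).trans (Finset.sum_le_sum fun k _ => ?_)
  rw [abs_mul, Finset.abs_prod]
  refine mul_le_mul_of_nonneg_left ?_ (Finset.prod_nonneg fun i _ => abs_nonneg _)
  rw [abs_of_nonneg (by positivity)]
  split_ifs with hs
  · rw [div_le_one (by norm_num)]
    have h1 : (sgn4.filter fun s => ∑ i, (s i : ZMod q) * ((k i : ZMod q) * u i) = 0).card ≤ 16 := by
      rw [← card_sgn4]
      exact Finset.card_filter_le _ _
    exact_mod_cast h1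
  · have h1 : (sgn4.filter fun s => ∑ i, (s i : ZMod q) * ((k i : ZMod q) * u i) = 0) = ∅ := by
      rw [Finset.filter_eq_empty_iff]
      intro s hs' he
      exact hs ⟨s, mem_sgn4.1 hs', he⟩
    rw [h1]
    simp

end Pool.Agent.MU0
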