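import Mathlib

/-!
# Abstract lemmas for the first-block decomposition

* `weight_tsum`: from partial sums `O(X²)` to exponentially weighted sums;
* `mult_one`, `mult_two`: mean squares of `b(l k)`, `b(l l' k)` from the Hecke relations.
-/

set_option autoImplicit false

open Finset
open scoped Real

namespace Pool.Agent.MU0.Dec

/-- The weight. -/
noncomputable def psi (j : ℕ) : ℝ := (1 + ((j : ℝ) + 1) ^ 2) * Real.exp (-(j : ℝ))

theorem psi_nonneg (j : ℕ) : 0 ≤ psi j := by unfold psi; positivity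

theorem summable_psi : Summable fun j : ℕ => psi j * ((j : ℝ) + 1) ^ 2 := by
  have h4 : ∀ k : ℕ, Summable fun j : ℕ => (j : ℝ) ^ k * Real.exp (-(j : ℝ)) := by
    intro k
    have := Real.summable_pow_mul_exp_neg_nat_mul k (r := 1) one_pos
    simpa using this
  have h : (fun j : ℕ => psi j * ((j : ℝ) + 1) ^ 2) = fun j : ℕ =>
      (j : ℝ) ^ 4 * Real.exp (-(j : ℝ)) + 4 * ((j : ℝ) ^ 3 * Real.exp (-(j : ℝ))) +
        7 * ((j : ℝ) ^ 2 * Real.exp (-(j : ℝ))) + 6 * ((j : ℝ) ^ 1 * Real.exp (-(j : ℝ))) +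
        2 * ((j : ℝ) ^ 0 * Real.exp (-(j : ℝ))) := by
    funext j
    unfold psi
    ring
  rw [h]
  exact ((((h4 4).add ((h4 3).mul_left 4)).add ((h4 2).mul_left 7)).add
    ((h4 1).mul_left 6)).add ((h4 0).mul_left 2)

/-- The constant of `weight_tsum`. -/
noncomputable def cw : ℝ := ∑' j : ℕ, psi j * ((j : ℝ) + 1) ^ 2

theorem cw_nonneg : 0 ≤ cw := tsum_nonneg fun j => mul_nonneg (psi_nonneg j) (by positivity)

theorem weight_le {Y : ℕ} (hY : 1 ≤ Y) (J i : ℕ) (hi : i < Y) :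
    (1 + (((J * Y + i : ℕ) : ℝ) / Y) ^ 2) * Real.exp (-(((J * Y + i : ℕ) : ℝ) / Y)) ≤ psi J := by
  have hY0 : (0 : ℝ) < Y := by exact_mod_cast hY
  have h1 : ((J * Y + i : ℕ) : ℝ) / Y = J + (i : ℝ) / Y := by
    push_cast
    field_simp
  have h2 : (i : ℝ) / Y ≤ 1 := by
    rw [div_le_one hY0]
    exact_mod_cast hi.le
  have h3 : 0 ≤ (i : ℝ) / Y := by positivity
  rw [h1]
  unfold psi
  have hJ : (0 : ℝ) ≤ J := Nat.cast_nonneg J
  gcongr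
  · linarith

theorem weight_partial (w : ℕ → ℝ) (hw : ∀ m, 0 ≤ w m) (A : ℝ) {Y : ℕ} (hY : 1 ≤ Y)
    (h : ∀ j : ℕ, 1 ≤ j → ∑ m ∈ range (j * Y), w m ≤ A * ((j * Y : ℕ) : ℝ) ^ 2) (J : ℕ) :
    ∑ m ∈ range (J * Y), w m * ((1 + ((m : ℝ) / Y) ^ 2) * Real.exp (-((m : ℝ) / Y))) ≤
      A * (Y : ℝ) ^ 2 * ∑ j ∈ range J, psi j * ((j : ℝ) + 1) ^ 2 := by
  induction J with
  | zero => simp
  | succ J ih =>
    rw [Nat.succ_mul, Finset.sum_range_add, Finset.sum_range_succ, mul_add]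
    refine add_le_add ih ?_
    have h1 : ∑ i ∈ range Y, w (J * Y + i) * ((1 + (((J * Y + i : ℕ) : ℝ) / Y) ^ 2) *
        Real.exp (-(((J * Y + i : ℕ) : ℝ) / Y))) ≤ ∑ i ∈ range Y, w (J * Y + i) * psi J :=
      Finset.sum_le_sum fun i hi => mul_le_mul_of_nonneg_left
        (weight_le hY J i (Finset.mem_range.1 hi)) (hw _)
    refine h1.trans ?_
    rw [← Finset.sum_mul]
    have h2 : ∑ i ∈ range Y, w (J * Y + i) ≤ ∑ m ∈ range ((J + 1) * Y), w m := by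
      rw [Nat.succ_mul, Finset.sum_range_add]
      have : 0 ≤ ∑ m ∈ range (J * Y), w m := Finset.sum_nonneg fun m _ => hw m
      linarith
    have h3 := h2.trans (h (J + 1) (by omega))
    calc (∑ i ∈ range Y, w (J * Y + i)) * psi J
        ≤ (A * (((J + 1) * Y : ℕ) : ℝ) ^ 2) * psi J :=
          mul_le_mul_of_nonneg_right h3 (psi_nonneg J)
      _ = A * (Y : ℝ) ^ 2 * (psi J * ((J : ℝ) + 1) ^ 2) := by push_cast; ring

theorem weight_tsum (w : ℕ → ℝ) (hw : ∀ m, 0 ≤ w m) (A : ℝ) (hA : 0 ≤ A) {Y : ℕ} (hY : 1 ≤ Y)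
    (h : ∀ j : ℕ, 1 ≤ j → ∑ m ∈ range (j * Y), w m ≤ A * ((j * Y : ℕ) : ℝ) ^ 2) :
    (Summable fun m : ℕ => w m * ((1 + ((m : ℝ) / Y) ^ 2) * Real.exp (-((m : ℝ) / Y)))) ∧
    ∑' m : ℕ, w m * ((1 + ((m : ℝ) / Y) ^ 2) * Real.exp (-((m : ℝ) / Y))) ≤
      cw * A * (Y : ℝ) ^ 2 := by
  have hpos : ∀ m : ℕ, 0 ≤ w m * ((1 + ((m : ℝ) / Y) ^ 2) * Real.exp (-((m : ℝ) / Y))) :=
    fun m => mul_nonneg (hw m) (by positivity)
  have hb : ∀ n : ℕ, ∑ m ∈ range n, w m * ((1 + ((m : ℝ) / Y) ^ 2) * Real.exp (-((m : ℝ) / Y))) ≤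
      cw * A * (Y : ℝ) ^ 2 := by
    intro n
    have h1 : ∑ m ∈ range n, w m * ((1 + ((m : ℝ) / Y) ^ 2) * Real.exp (-((m : ℝ) / Y))) ≤
        ∑ m ∈ range (n * Y), w m * ((1 + ((m : ℝ) / Y) ^ 2) * Real.exp (-((m : ℝ) / Y))) :=
      Finset.sum_le_sum_of_subset_of_nonneg (Finset.range_subset_range.2 (by nlinarith))
        fun m _ _ => hpos m
    refine (h1.trans (weight_partial w hw A hY h n)).trans ?_
    have h2 : ∑ j ∈ range n, psi j * ((j : ℝ) + 1) ^ 2 ≤ cw :=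
      summable_psi.sum_le_tsum _ fun j _ => mul_nonneg (psi_nonneg j) (by positivity)
    calc A * (Y : ℝ) ^ 2 * ∑ j ∈ range n, psi j * ((j : ℝ) + 1) ^ 2
        ≤ A * (Y : ℝ) ^ 2 * cw := mul_le_mul_of_nonneg_left h2 (by positivity)
      _ = cw * A * (Y : ℝ) ^ 2 := by ring
  exact ⟨summable_of_sum_range_le hpos hb, Real.tsum_le_of_sum_range_le hpos hb⟩

/-! ### Hecke relations -/

/-- The Hecke relation at `l`. -/
def Hk (c : ℕ → ℝ) (l : ℕ) (A : ℝ) : Prop :=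
  ∀ n : ℕ, c (l * n) + (if l ∣ n then (l : ℝ) * c (n / l) else 0) = A * c n

theorem mult_one {c : ℕ → ℝ} {l : ℕ} {A C : ℝ} (hl : 1 ≤ l) (hH : Hk c l A)
    (hA : A ^ 2 ≤ 4 * l) (hC : 0 ≤ C) (h2 : ∀ X : ℕ, ∑ k ∈ Icc 1 X, c k ^ 2 ≤ C * (X : ℝ) ^ 2)
    (X : ℕ) : ∑ k ∈ Icc 1 X, c (l * k) ^ 2 ≤ 10 * l * C * (X : ℝ) ^ 2 := by
  have hl0 : (1 : ℝ) ≤ l := by exact_mod_cast hl
  have h1 : ∀ k : ℕ, c (l * k) ^ 2 ≤ 8 * l * c k ^ 2 +
      2 * (if l ∣ k then (l : ℝ) * c (k / l) else 0) ^ 2 := by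
    intro k
    have h := hH k
    set D := (if l ∣ k then (l : ℝ) * c (k / l) else 0)
    have h3 : c (l * k) = A * c k - D := by linarith
    rw [h3]
    have h4 : (A * c k) ^ 2 ≤ 4 * l * c k ^ 2 := by
      rw [mul_pow]
      exact mul_le_mul_of_nonneg_right hA (sq_nonneg _)
    nlinarith [sq_nonneg (A * c k + D)]
  have h2' : ∑ k ∈ Icc 1 X, (if l ∣ k then (l : ℝ) * c (k / l) else 0) ^ 2 ≤
      (l : ℝ) ^ 2 * (C * ((X / l : ℕ) : ℝ) ^ 2) := by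
    have e1 : ∑ k ∈ Icc 1 X, (if l ∣ k then (l : ℝ) * c (k / l) else 0) ^ 2 =
        ∑ k ∈ (Icc 1 X).filter (fun k => l ∣ k), ((l : ℝ) * c (k / l)) ^ 2 := by
      rw [Finset.sum_filter]
      refine Finset.sum_congr rfl fun k _ => ?_
      split_ifs <;> simp
    have e2 : ∑ k ∈ (Icc 1 X).filter (fun k => l ∣ k), ((l : ℝ) * c (k / l)) ^ 2 =
        ∑ j ∈ Icc 1 (X / l), ((l : ℝ) * c j) ^ 2 := by
      refine Finset.sum_nbij' (fun k => k / l) (fun j => l * j) ?_ ?_ ?_ ?_ ?_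
      · intro k hk
        simp only [Finset.mem_filter, Finset.mem_Icc] at hk ⊢
        obtain ⟨⟨hk1, hk2⟩, hk3⟩ := hk
        refine ⟨?_, Nat.div_le_div_right hk2⟩
        exact Nat.div_pos (Nat.le_of_dvd hk1 hk3) hl
      · intro j hj
        simp only [Finset.mem_filter, Finset.mem_Icc] at hj ⊢
        refine ⟨⟨Nat.mul_pos hl hj.1, ?_⟩, dvd_mul_right _ _⟩
        calc l * j ≤ l * (X / l) := Nat.mul_le_mul_left _ hj.2
          _ ≤ X := Nat.mul_div_le X l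
      · intro k hk
        simp only [Finset.mem_filter, Finset.mem_Icc] at hk
        exact Nat.mul_div_cancel' hk.2
      · intro j _
        exact Nat.mul_div_cancel_left j hl
      · intro k _
        rfl
    rw [e1, e2]
    simp only [mul_pow]
    rw [← Finset.mul_sum]
    exact mul_le_mul_of_nonneg_left (h2 _) (by positivity)
  have h3 : (l : ℝ) ^ 2 * (C * ((X / l : ℕ) : ℝ) ^ 2) ≤ C * (X : ℝ) ^ 2 := by
    have h4 : (l : ℝ) * ((X / l : ℕ) : ℝ) ≤ X := by exact_mod_cast Nat.mul_div_le X l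
    have h5 : ((l : ℝ) * ((X / l : ℕ) : ℝ)) ^ 2 ≤ (X : ℝ) ^ 2 :=
      pow_le_pow_left₀ (by positivity) h4 2
    calc (l : ℝ) ^ 2 * (C * ((X / l : ℕ) : ℝ) ^ 2)
        = C * ((l : ℝ) * ((X / l : ℕ) : ℝ)) ^ 2 := by ring
      _ ≤ C * (X : ℝ) ^ 2 := mul_le_mul_of_nonneg_left h5 hC
  calc ∑ k ∈ Icc 1 X, c (l * k) ^ 2
      ≤ ∑ k ∈ Icc 1 X, (8 * l * c k ^ 2 +
        2 * (if l ∣ k then (l : ℝ) * c (k / l) else 0) ^ 2) := Finset.sum_le_sum fun k _ => h1 k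
    _ = 8 * l * ∑ k ∈ Icc 1 X, c k ^ 2 +
        2 * ∑ k ∈ Icc 1 X, (if l ∣ k then (l : ℝ) * c (k / l) else 0) ^ 2 := by
      rw [Finset.sum_add_distrib, Finset.mul_sum, Finset.mul_sum]
    _ ≤ 8 * l * (C * (X : ℝ) ^ 2) + 2 * (C * (X : ℝ) ^ 2) := by
      have := h2 X
      gcongr
      exact h2'.trans h3
    _ ≤ 10 * l * C * (X : ℝ) ^ 2 := by
      have h6 : 0 ≤ C * (X : ℝ) ^ 2 := by positivity
      nlinarith

theorem mult_two {c : ℕ → ℝ} {l l' : ℕ} {A A' C : ℝ} (hl : l.Prime) (hl' : l'.Prime)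
    (hH : Hk c l A) (hA : A ^ 2 ≤ 4 * l) (hH' : Hk c l' A') (hA' : A' ^ 2 ≤ 4 * l') (hC : 0 ≤ C)
    (h2 : ∀ X : ℕ, ∑ k ∈ Icc 1 X, c k ^ 2 ≤ C * (X : ℝ) ^ 2)
    (X : ℕ) : ∑ k ∈ Icc 1 X, c (l * l' * k) ^ 2 ≤ 100 * (l * l') * C * (X : ℝ) ^ 2 := by
  by_cases hne : l = l'
  · subst hne
    have h0 : (1 : ℝ) ≤ l := by exact_mod_cast hl.one_lt.le
    have h1 : ∀ k : ℕ, c (l * l * k) ^ 2 ≤ 8 * l * c (l * k) ^ 2 + 2 * (l : ℝ) ^ 2 * c k ^ 2 := by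
      intro k
      have h := hH (l * k)
      rw [if_pos (dvd_mul_right l k), Nat.mul_div_cancel_left k hl.pos, ← mul_assoc] at h
      have h3 : c (l * l * k) = A * c (l * k) - l * c k := by linarith
      rw [h3]
      have h4 : (A * c (l * k)) ^ 2 ≤ 4 * l * c (l * k) ^ 2 := by
        rw [mul_pow]
        exact mul_le_mul_of_nonneg_right hA (sq_nonneg _)
      nlinarith [sq_nonneg (A * c (l * k) + l * c k)]
    have h3 := mult_one hl.one_lt.le hH hA hC h2 X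
    calc ∑ k ∈ Icc 1 X, c (l * l * k) ^ 2
        ≤ ∑ k ∈ Icc 1 X, (8 * l * c (l * k) ^ 2 + 2 * (l : ℝ) ^ 2 * c k ^ 2) :=
          Finset.sum_le_sum fun k _ => h1 k
      _ = 8 * l * ∑ k ∈ Icc 1 X, c (l * k) ^ 2 + 2 * (l : ℝ) ^ 2 * ∑ k ∈ Icc 1 X, c k ^ 2 := by
        rw [Finset.sum_add_distrib, Finset.mul_sum, Finset.mul_sum]
      _ ≤ 8 * l * (10 * l * C * (X : ℝ) ^ 2) + 2 * (l : ℝ) ^ 2 * (C * (X : ℝ) ^ 2) := by
        have := h2 X
        gcongr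
      _ ≤ 100 * (l * l) * C * (X : ℝ) ^ 2 := by
        have h6 : 0 ≤ (l : ℝ) ^ 2 * (C * (X : ℝ) ^ 2) := by positivity
        nlinarith
  · have hdvd : ∀ k : ℕ, l ∣ l' * k ↔ l ∣ k := by
      intro k
      constructor
      · intro h
        rcases (Nat.Prime.dvd_mul hl).1 h with h | h
        · exact absurd ((Nat.prime_dvd_prime_iff_eq hl hl').1 h) hne
        · exact h
      · intro h
        exact h.mul_left l'
    have hH2 : Hk (fun k => c (l' * k)) l A := by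
      intro n
      have h := hH (l' * n)
      change c (l' * (l * n)) + (if l ∣ n then (l : ℝ) * c (l' * (n / l)) else 0) = A * c (l' * n)
      have e1 : l' * (l * n) = l * (l' * n) := by ring
      rw [e1, ← h]
      congr 1
      by_cases hn : l ∣ n
      · rw [if_pos hn, if_pos ((hdvd n).2 hn), Nat.mul_div_assoc l' hn]
      · rw [if_neg hn, if_neg (fun h => hn ((hdvd n).1 h))]
    have h3 : ∀ X : ℕ, ∑ k ∈ Icc 1 X, (fun k => c (l' * k)) k ^ 2 ≤ (10 * l' * C) * (X : ℝ) ^ 2 :=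
      fun X => mult_one hl'.one_lt.le hH' hA' hC h2 X
    have h4 := mult_one hl.one_lt.le hH2 hA (by positivity) h3 X
    calc ∑ k ∈ Icc 1 X, c (l * l' * k) ^ 2
        = ∑ k ∈ Icc 1 X, (fun k => c (l' * k)) (l * k) ^ 2 := by
          refine Finset.sum_congr rfl fun k _ => ?_
          change c (l * l' * k) ^ 2 = c (l' * (l * k)) ^ 2
          congr 2
          ring
      _ ≤ 10 * l * (10 * l' * C) * (X : ℝ) ^ 2 := h4
      _ = 100 * (l * l') * C * (X : ℝ) ^ 2 := by ring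

/-- The multiples of `l l'`. -/
theorem mult_sum {c : ℕ → ℝ} {l l' : ℕ} {A A' C : ℝ} (hl : l.Prime) (hl' : l'.Prime)
    (hH : Hk c l A) (hA : A ^ 2 ≤ 4 * l) (hH' : Hk c l' A') (hA' : A' ^ 2 ≤ 4 * l') (hC : 0 ≤ C)
    (h2 : ∀ X : ℕ, ∑ k ∈ Icc 1 X, c k ^ 2 ≤ C * (X : ℝ) ^ 2)
    (X : ℕ) : ∑ m ∈ (Icc 1 X).filter (fun m => l * l' ∣ m), c m ^ 2 ≤
      100 * C * (X : ℝ) ^ 2 * ((1 / l) * (1 / l')) := by
  have hd : 0 < l * l' := Nat.mul_pos hl.pos hl'.pos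
  have e2 : ∑ m ∈ (Icc 1 X).filter (fun m => l * l' ∣ m), c m ^ 2 =
      ∑ j ∈ Icc 1 (X / (l * l')), c (l * l' * j) ^ 2 := by
    refine Finset.sum_nbij' (fun k => k / (l * l')) (fun j => l * l' * j) ?_ ?_ ?_ ?_ ?_
    · intro k hk
      simp only [Finset.mem_filter, Finset.mem_Icc] at hk ⊢
      obtain ⟨⟨hk1, hk2⟩, hk3⟩ := hk
      refine ⟨?_, Nat.div_le_div_right hk2⟩
      exact Nat.div_pos (Nat.le_of_dvd hk1 hk3) hd
    · intro j hj
      simp only [Finset.mem_filter, Finset.mem_Icc] at hj ⊢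
      refine ⟨⟨Nat.mul_pos hd hj.1, ?_⟩, dvd_mul_right _ _⟩
      calc l * l' * j ≤ l * l' * (X / (l * l')) := Nat.mul_le_mul_left _ hj.2
        _ ≤ X := Nat.mul_div_le X (l * l')
    · intro k hk
      simp only [Finset.mem_filter, Finset.mem_Icc] at hk
      exact Nat.mul_div_cancel' hk.2
    · intro j _
      exact Nat.mul_div_cancel_left j hd
    · intro k hk
      simp only [Finset.mem_filter, Finset.mem_Icc] at hk
      change c k ^ 2 = c (l * l' * (k / (l * l'))) ^ 2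
      rw [Nat.mul_div_cancel' hk.2]
  rw [e2]
  refine (mult_two hl hl' hH hA hH' hA' hC h2 _).trans ?_
  have hl0 : (0 : ℝ) < l := by exact_mod_cast hl.pos
  have hl0' : (0 : ℝ) < l' := by exact_mod_cast hl'.pos
  have h4 : ((l : ℝ) * l') * ((X / (l * l') : ℕ) : ℝ) ≤ X := by
    exact_mod_cast Nat.mul_div_le X (l * l')
  have h5 : (((l : ℝ) * l') * ((X / (l * l') : ℕ) : ℝ)) ^ 2 ≤ (X : ℝ) ^ 2 :=
    pow_le_pow_left₀ (by positivity) h4 2
  have h6 : 100 * (l * l') * C * (((X / (l * l') : ℕ) : ℝ)) ^ 2 =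
      100 * C * (((l : ℝ) * l') * ((X / (l * l') : ℕ) : ℝ)) ^ 2 * ((1 / l) * (1 / l')) := by
    field_simp
  rw [h6]
  gcongr

end Pool.Agent.MU0.Dec
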