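import Pool.Agent.MU0.TDefs
import Pool.Agent.MU0.Dec1

/-!
# The blocks and the error sequence of the first-block decomposition
-/

set_option autoImplicit false

open Finset
open scoped Real

namespace Pool.Agent.MU0.Dec

/-! ### The blocks -/

theorem LL_zero (P H : ℕ) : LL P H 0 = P := by simp [LL]

theorem LL_succ (P H v : ℕ) : LL P H (v + 1) = LL P H v * (1 + 1 / (H : ℝ)) := by
  unfold LL
  rw [pow_succ]
  ring

theorem one_le_fac (H : ℕ) : (1 : ℝ) ≤ 1 + 1 / (H : ℝ) := by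
  have : (0 : ℝ) ≤ 1 / (H : ℝ) := by positivity
  linarith

theorem LL_mono (P H : ℕ) {v v' : ℕ} (h : v ≤ v') : LL P H v ≤ LL P H v' := by
  unfold LL
  exact mul_le_mul_of_nonneg_left (pow_le_pow_right₀ (one_le_fac H) h) (Nat.cast_nonneg _)

theorem le_LL (P H v : ℕ) : (P : ℝ) ≤ LL P H v := by
  have := LL_mono P H (Nat.zero_le v)
  rwa [LL_zero] at this

theorem LL_nonneg (P H v : ℕ) : 0 ≤ LL P H v := (Nat.cast_nonneg P).trans (le_LL P H v)

theorem mem_blk {P H v l : ℕ} : l ∈ blk P H v ↔ l.Prime ∧ LL P H v < l ∧ (l : ℝ) ≤ LL P H (v + 1) := by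
  unfold blk
  rw [Finset.mem_filter, Finset.mem_Icc]
  constructor
  · rintro ⟨⟨_, h2⟩, h3, h4⟩
    exact ⟨h3, h4, (Nat.le_floor_iff (LL_nonneg P H _)).1 h2⟩
  · rintro ⟨h1, h2, h3⟩
    exact ⟨⟨h1.one_lt.le, (Nat.le_floor_iff (LL_nonneg P H _)).2 h3⟩, h1, h2⟩

theorem blk_lt {P H v l : ℕ} (h : l ∈ blk P H v) : P < l := by
  have h1 := (mem_blk.1 h).2.1
  have h2 := le_LL P H v
  exact_mod_cast h2.trans_lt h1

theorem blk_disj {P H v v' l : ℕ} (h : l ∈ blk P H v) (h' : l ∈ blk P H v') : v = v' := by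
  by_contra hne
  rcases Nat.lt_or_gt_of_ne hne with hlt | hlt
  · have h1 := (mem_blk.1 h).2.2
    have h2 := (mem_blk.1 h').2.1
    have h3 := LL_mono P H (Nat.succ_le_of_lt hlt)
    exact absurd (h1.trans h3) (not_le.2 h2)
  · have h1 := (mem_blk.1 h').2.2
    have h2 := (mem_blk.1 h).2.1
    have h3 := LL_mono P H (Nat.succ_le_of_lt hlt)
    exact absurd (h1.trans h3) (not_le.2 h2)

/-- Every prime in `(P, L_V]` lies in one of the blocks. -/
theorem exists_blk {P H V l : ℕ} (hl : l.Prime) (h1 : P < l) (h2 : (l : ℝ) ≤ LL P H V) :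
    ∃ v < V, l ∈ blk P H v := by
  induction V with
  | zero =>
    rw [LL_zero] at h2
    exact absurd h1 (not_lt.2 (by exact_mod_cast h2))
  | succ V ih =>
    by_cases h : (l : ℝ) ≤ LL P H V
    · obtain ⟨v, hv, hlv⟩ := ih h
      exact ⟨v, by omega, hlv⟩
    · exact ⟨V, by omega, mem_blk.2 ⟨hl, not_le.1 h, h2⟩⟩

theorem blk_sum {P H v : ℕ} (hH : 1 ≤ H) (hHP : H ≤ P) :
    ∑ l ∈ blk P H v, (1 : ℝ) / l ≤ 2 / H := by
  have hP : 1 ≤ P := hH.trans hHP
  have hH0 : (0 : ℝ) < H := by exact_mod_cast hH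
  have hL : (0 : ℝ) < LL P H v := lt_of_lt_of_le (by exact_mod_cast hP) (le_LL P H v)
  have h1 : ∀ l ∈ blk P H v, (1 : ℝ) / l ≤ 1 / LL P H v := fun l hl =>
    one_div_le_one_div_of_le hL (mem_blk.1 hl).2.1.le
  refine (Finset.sum_le_card_nsmul _ _ _ h1).trans ?_
  rw [nsmul_eq_mul]
  have h2 : blk P H v ⊆ Ioc ⌊LL P H v⌋₊ ⌊LL P H (v + 1)⌋₊ := by
    intro l hl
    obtain ⟨_, h3, h4⟩ := mem_blk.1 hl
    rw [Finset.mem_Ioc]
    exact ⟨(Nat.floor_lt hL.le).2 h3, (Nat.le_floor_iff (LL_nonneg P H _)).2 h4⟩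
  have h3 : ((blk P H v).card : ℝ) ≤ LL P H v / H + 1 := by
    have h4 := Finset.card_le_card h2
    rw [Nat.card_Ioc] at h4
    have h5 : ((blk P H v).card : ℝ) + ⌊LL P H v⌋₊ ≤ ⌊LL P H (v + 1)⌋₊ ∨
        (blk P H v).card = 0 := by
      by_cases h6 : ⌊LL P H v⌋₊ ≤ ⌊LL P H (v + 1)⌋₊
      · left
        have : (blk P H v).card + ⌊LL P H v⌋₊ ≤ ⌊LL P H (v + 1)⌋₊ := by omega
        exact_mod_cast this
      · right
        omega
    rcases h5 with h5 | h5
    · have h6 := Nat.floor_le (LL_nonneg P H (v + 1))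
      have h7 := Nat.lt_floor_add_one (LL P H v)
      rw [LL_succ] at h6
      have h8 : LL P H v * (1 + 1 / (H : ℝ)) = LL P H v + LL P H v / H := by
        field_simp
      rw [LL_succ] at h5
      linarith
    · rw [h5]
      have : 0 ≤ LL P H v / H := by positivity
      push_cast
      linarith
  have h4 : (H : ℝ) ≤ LL P H v := le_trans (by exact_mod_cast hHP) (le_LL P H v)
  calc ((blk P H v).card : ℝ) * (1 / LL P H v)
      ≤ (LL P H v / H + 1) * (1 / LL P H v) := by gcongr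
    _ = 1 / H + 1 / LL P H v := by field_simp
    _ ≤ 1 / H + 1 / H := by gcongr
    _ = 2 / H := by ring

/-! ### The first prime factor in the blocks -/

/-- `l ∈ blk v` divides `m` and `m / l` has no prime factor in the blocks `≤ v`. -/
def Good (P H v l m : ℕ) : Prop :=
  l ∈ blk P H v ∧ l ∣ m ∧ ∀ v' ≤ v, ∀ l' ∈ blk P H v', ¬ l' ∣ m / l

theorem Good.eq_of_le {P H v l m v' l' : ℕ} (h : Good P H v l m) (h' : Good P H v' l' m)
    (hv : v ≤ v') : l = l' := by
  have h1 : ¬ l ∣ m / l' := h'.2.2 v hv l h.1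
  have h2 : l ∣ l' * (m / l') := by
    rw [Nat.mul_div_cancel' h'.2.1]
    exact h.2.1
  rcases (Nat.Prime.dvd_mul (mem_blk.1 h.1).1).1 h2 with h3 | h3
  · exact (Nat.prime_dvd_prime_iff_eq (mem_blk.1 h.1).1 (mem_blk.1 h'.1).1).1 h3
  · exact absurd h3 h1

theorem Good.uniq {P H v l m v' l' : ℕ} (h : Good P H v l m) (h' : Good P H v' l' m) :
    v = v' ∧ l = l' := by
  have hl : l = l' := by
    rcases le_total v v' with hv | hv
    · exact h.eq_of_le h' hv
    · exact (h'.eq_of_le h hv).symm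
  subst hl
  exact ⟨blk_disj h.1 h'.1, rfl⟩

open Classical in
/-- The coefficient of `∑_v B_v d_v` at `m`. -/
noncomputable def yy (b A : ℕ → ℝ) (η : ℝ) (P H V K m : ℕ) : ℝ :=
  ∑ v ∈ range V, ∑ l ∈ blk P H v, if l ∣ m ∧ m / l ∈ Icc 1 K then A l * xx b η P H v (m / l) else 0

theorem yy_term_zero {b A : ℕ → ℝ} {η : ℝ} {P H v K m l : ℕ} (hl : l ∈ blk P H v)
    (h : ¬ (Good P H v l m ∧ m / l ∈ Icc 1 K)) :
    (if l ∣ m ∧ m / l ∈ Icc 1 K then A l * xx b η P H v (m / l) else 0) = 0 := by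
  by_cases h1 : l ∣ m ∧ m / l ∈ Icc 1 K
  · rw [if_pos h1]
    have h2 : ¬ ∀ v' ≤ v, ∀ l' ∈ blk P H v', ¬ l' ∣ m / l := fun h3 => h ⟨⟨hl, h1.1, h3⟩, h1.2⟩
    unfold xx
    rw [if_neg h2, mul_zero]
  · rw [if_neg h1]

theorem yy_zero {b A : ℕ → ℝ} {η : ℝ} {P H V K m : ℕ}
    (h : ∀ v < V, ∀ l, Good P H v l m → m / l ∉ Icc 1 K) : yy b A η P H V K m = 0 := by
  unfold yy
  refine Finset.sum_eq_zero fun v hv => Finset.sum_eq_zero fun l hl => yy_term_zero hl ?_
  rintro ⟨h1, h2⟩
  exact h v (Finset.mem_range.1 hv) l h1 h2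

theorem yy_eq {b A : ℕ → ℝ} {η : ℝ} {P H V K m v l : ℕ} (hv : v < V) (h : Good P H v l m)
    (hk : m / l ∈ Icc 1 K) : yy b A η P H V K m =
      A l * (η * b (m / l) * Real.exp (-(2 * π * LL P H v * ((m / l : ℕ) : ℝ) * η))) := by
  unfold yy
  rw [Finset.sum_eq_single v, Finset.sum_eq_single l]
  · rw [if_pos ⟨h.2.1, hk⟩]
    unfold xx
    rw [if_pos h.2.2]
  · intro l' hl' hne
    refine yy_term_zero hl' ?_
    rintro ⟨h1, _⟩
    exact hne (h1.uniq h).2
  · intro h1
    exact absurd h.1 h1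
  · intro v' _ hne
    refine Finset.sum_eq_zero fun l' hl' => yy_term_zero hl' ?_
    rintro ⟨h1, _⟩
    exact hne (h1.uniq h).1
  · intro h1
    exact absurd (Finset.mem_range.2 hv) h1

/-! ### The pointwise bound -/

open Classical in
/-- The weight of `m`: the four kinds of errors. -/
noncomputable def ww (b : ℕ → ℝ) (η : ℝ) (P H V K m : ℕ) : ℝ :=
  b m ^ 2 * ((if ∀ v < V, ∀ l ∈ blk P H v, ¬ l ∣ m then 1 else 0) +
    (∑ v ∈ range V, ∑ l ∈ blk P H v, ∑ l' ∈ blk P H v, if l * l' ∣ m then (1 : ℝ) else 0) +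
    1 / (H : ℝ) ^ 2 + Real.exp (-(π * P * K * η)))

theorem cnt_nonneg (P H V m : ℕ) : 0 ≤ ∑ v ∈ range V, ∑ l ∈ blk P H v, ∑ l' ∈ blk P H v,
    (if l * l' ∣ m then (1 : ℝ) else 0) :=
  Finset.sum_nonneg fun _ _ => Finset.sum_nonneg fun _ _ => Finset.sum_nonneg fun _ _ => by
    split_ifs <;> norm_num

theorem one_le_cnt {P H V m v l l' : ℕ} (hv : v < V) (hl : l ∈ blk P H v) (hl' : l' ∈ blk P H v)
    (h : l * l' ∣ m) : (1 : ℝ) ≤ ∑ v ∈ range V, ∑ l ∈ blk P H v, ∑ l' ∈ blk P H v,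
      (if l * l' ∣ m then (1 : ℝ) else 0) := by
  have h1 : (1 : ℝ) ≤ ∑ l' ∈ blk P H v, (if l * l' ∣ m then (1 : ℝ) else 0) := by
    refine le_trans ?_ (Finset.single_le_sum (f := fun l' => if l * l' ∣ m then (1 : ℝ) else 0)
      (fun _ _ => by split_ifs <;> norm_num) hl')
    rw [if_pos h]
  refine h1.trans (le_trans (Finset.single_le_sum (f := fun l => ∑ l' ∈ blk P H v,
    (if l * l' ∣ m then (1 : ℝ) else 0)) (fun _ _ => Finset.sum_nonneg fun _ _ => by
      split_ifs <;> norm_num) hl) ?_)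
  exact Finset.single_le_sum (f := fun v => ∑ l ∈ blk P H v, ∑ l' ∈ blk P H v,
    (if l * l' ∣ m then (1 : ℝ) else 0)) (fun _ _ => Finset.sum_nonneg fun _ _ =>
      Finset.sum_nonneg fun _ _ => by split_ifs <;> norm_num) (Finset.mem_range.2 hv)

theorem ww_nonneg (b : ℕ → ℝ) (η : ℝ) (P H V K m : ℕ) : 0 ≤ ww b η P H V K m := by
  unfold ww
  have h1 := cnt_nonneg P H V m
  have h2 : (0 : ℝ) ≤ (if ∀ v < V, ∀ l ∈ blk P H v, ¬ l ∣ m then 1 else 0) := by
    split_ifs <;> norm_num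
  have h3 : 0 ≤ 1 / (H : ℝ) ^ 2 := by positivity
  have h4 := (Real.exp_pos (-(π * P * K * η))).le
  exact mul_nonneg (sq_nonneg _) (add_nonneg (add_nonneg (add_nonneg h2 h1) h3) h4)

theorem exp_sq_mul (η : ℝ) (m : ℕ) : Real.exp (-(2 * π * m * η)) ^ 2 * Real.exp (π * m * η) =
    Real.exp (-(2 * π * m * η)) * Real.exp (-(π * m * η)) := by
  rw [← Real.exp_nat_mul, ← Real.exp_add, ← Real.exp_add]
  congr 1
  push_cast
  ring

theorem pi_sq_le : 4 * π ^ 2 ≤ 40 := by
  have h1 := Real.pi_lt_d2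
  have h2 := Real.pi_pos
  nlinarith

/-- The pointwise bound of the error sequence. -/
theorem err_le {b A : ℕ → ℝ} {η : ℝ} {P H V K : ℕ} (hη : 0 < η) (hH : 1 ≤ H)
    (hA : ∀ l : ℕ, l.Prime → P < l → Hk b l (A l)) (m : ℕ) (hm : 1 ≤ m) :
    (xb b η m - yy b A η P H V K m) ^ 2 * Real.exp (π * m * η) ≤
      40 * η ^ 2 * (ww b η P H V K m * ((1 + (m * η) ^ 2) * Real.exp (-(π * m * η)))) := by
  classical
  have hH0 : (0 : ℝ) < H := by exact_mod_cast hH
  have hm0 : (1 : ℝ) ≤ m := by exact_mod_cast hm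
  by_cases hc : ∃ v < V, ∃ l, Good P H v l m ∧ m / l ∈ Icc 1 K
  · obtain ⟨v, hv, l, hg, hk⟩ := hc
    obtain ⟨hlp, hl1, hl2⟩ := mem_blk.1 hg.1
    rw [LL_succ] at hl2
    rw [yy_eq hv hg hk]
    set k := m / l with hkdef
    have hmk : l * k = m := Nat.mul_div_cancel' hg.2.1
    have hmk' : (l : ℝ) * k = m := by exact_mod_cast hmk
    have hb : A l * b k = b m := by
      have h1 := hA l hlp (blk_lt hg.1) k
      have h2 : ¬ l ∣ k := hg.2.2 v le_rfl l hg.1
      rw [if_neg h2, add_zero, hmk] at h1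
      exact h1.symm
    have hL0 : 0 ≤ LL P H v := LL_nonneg P H v
    have hk1 : (1 : ℝ) ≤ k := by exact_mod_cast (Finset.mem_Icc.1 hk).1
    set L := LL P H v
    have h1 : (l : ℝ) - L ≤ l / H := by
      have h2 : L * (1 + 1 / (H : ℝ)) = L + L / H := by field_simp
      rw [h2] at hl2
      have h3 : L / H ≤ l / H := by gcongr
      linarith
    have h2 : (l : ℝ) ≤ 2 * L := by
      have h3 : (1 : ℝ) / H ≤ 1 := by
        rw [div_le_one hH0]
        exact_mod_cast hH
      nlinarith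
    have e1 : xb b η m - A l * (η * b k * Real.exp (-(2 * π * L * k * η))) =
        -(η * b m * (Real.exp (-(2 * π * L * k * η)) - Real.exp (-(2 * π * m * η)))) := by
      unfold xb
      rw [← hb]
      ring
    have h3 : Real.exp (-(2 * π * m * η)) =
        Real.exp (-(2 * π * L * k * η)) * Real.exp (-(2 * π * (l - L) * k * η)) := by
      rw [← Real.exp_add, ← hmk']
      congr 1
      ring
    have h4 : 1 - 2 * π * (l - L) * k * η ≤ Real.exp (-(2 * π * (l - L) * k * η)) := by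
      have := Real.add_one_le_exp (-(2 * π * (l - L) * k * η))
      linarith
    have h5 : 0 ≤ Real.exp (-(2 * π * L * k * η)) - Real.exp (-(2 * π * m * η)) := by
      rw [h3]
      have h6 : Real.exp (-(2 * π * (l - L) * k * η)) ≤ 1 := by
        rw [Real.exp_le_one_iff]
        have : 0 ≤ (l : ℝ) - L := by linarith
        have : 0 ≤ 2 * π * (l - L) * k * η := by positivity
        linarith
      nlinarith [Real.exp_pos (-(2 * π * L * k * η))]
    have h6 : Real.exp (-(2 * π * L * k * η)) - Real.exp (-(2 * π * m * η)) ≤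
        Real.exp (-(π * m * η)) * (2 * π * (m * η) / H) := by
      rw [h3]
      have h7 : Real.exp (-(2 * π * L * k * η)) ≤ Real.exp (-(π * m * η)) := by
        rw [Real.exp_le_exp, ← hmk']
        have : (l : ℝ) * (π * k * η) ≤ 2 * L * (π * k * η) :=
          mul_le_mul_of_nonneg_right h2 (by positivity)
        linarith
      have h8 : 2 * π * (l - L) * k * η ≤ 2 * π * (m * η) / H := by
        have h9 : ((l : ℝ) - L) * (2 * π * k * η) ≤ l / H * (2 * π * k * η) :=
          mul_le_mul_of_nonneg_right h1 (by positivity)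
        have h10 : (l : ℝ) / H * (2 * π * k * η) = 2 * π * (m * η) / H := by
          rw [← hmk']
          field_simp
        rw [h10] at h9
        linarith
      have h11 : 0 ≤ 2 * π * (m * η) / H := by positivity
      calc Real.exp (-(2 * π * L * k * η)) -
          Real.exp (-(2 * π * L * k * η)) * Real.exp (-(2 * π * (l - L) * k * η))
          = Real.exp (-(2 * π * L * k * η)) * (1 - Real.exp (-(2 * π * (l - L) * k * η))) := by ring
        _ ≤ Real.exp (-(2 * π * L * k * η)) * (2 * π * (m * η) / H) :=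
            mul_le_mul_of_nonneg_left (by linarith) (Real.exp_pos _).le
        _ ≤ Real.exp (-(π * m * η)) * (2 * π * (m * η) / H) :=
            mul_le_mul_of_nonneg_right h7 h11
    rw [e1]
    have h7 : (-(η * b m * (Real.exp (-(2 * π * L * k * η)) - Real.exp (-(2 * π * m * η))))) ^ 2 ≤
        η ^ 2 * b m ^ 2 * (Real.exp (-(π * m * η)) * (2 * π * (m * η) / H)) ^ 2 := by
      have h8 := pow_le_pow_left₀ h5 h6 2
      calc (-(η * b m * (Real.exp (-(2 * π * L * k * η)) - Real.exp (-(2 * π * m * η))))) ^ 2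
          = η ^ 2 * b m ^ 2 * (Real.exp (-(2 * π * L * k * η)) -
              Real.exp (-(2 * π * m * η))) ^ 2 := by ring
        _ ≤ _ := mul_le_mul_of_nonneg_left h8 (by positivity)
    have h8 : (Real.exp (-(π * m * η)) * (2 * π * (m * η) / H)) ^ 2 * Real.exp (π * m * η) =
        4 * π ^ 2 * (1 / (H : ℝ) ^ 2) * ((m * η) ^ 2 * Real.exp (-(π * m * η))) := by
      have h9 : Real.exp (-(π * m * η)) ^ 2 * Real.exp (π * m * η) = Real.exp (-(π * m * η)) := by
        rw [← Real.exp_nat_mul, ← Real.exp_add]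
        congr 1
        push_cast
        ring
      calc (Real.exp (-(π * m * η)) * (2 * π * (m * η) / H)) ^ 2 * Real.exp (π * m * η)
          = (Real.exp (-(π * m * η)) ^ 2 * Real.exp (π * m * η)) * (2 * π * (m * η) / H) ^ 2 := by
            ring
        _ = _ := by
            rw [h9]
            field_simp
            ring
    have h10 : b m ^ 2 * (1 / (H : ℝ) ^ 2) ≤ ww b η P H V K m := by
      unfold ww
      have h1 := cnt_nonneg P H V m
      have h2 : (0 : ℝ) ≤ (if ∀ v < V, ∀ l ∈ blk P H v, ¬ l ∣ m then 1 else 0) := by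
        split_ifs <;> norm_num
      have h3 := (Real.exp_pos (-(π * P * K * η))).le
      exact mul_le_mul_of_nonneg_left (by linarith) (sq_nonneg _)
    calc (-(η * b m * (Real.exp (-(2 * π * L * k * η)) - Real.exp (-(2 * π * m * η))))) ^ 2 *
          Real.exp (π * m * η)
        ≤ η ^ 2 * b m ^ 2 * (Real.exp (-(π * m * η)) * (2 * π * (m * η) / H)) ^ 2 *
          Real.exp (π * m * η) := mul_le_mul_of_nonneg_right h7 (Real.exp_pos _).le
      _ = η ^ 2 * b m ^ 2 * (4 * π ^ 2 * (1 / (H : ℝ) ^ 2) *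
          ((m * η) ^ 2 * Real.exp (-(π * m * η)))) := by rw [← h8]; ring
      _ ≤ η ^ 2 * b m ^ 2 * (40 * (1 / (H : ℝ) ^ 2) *
          ((1 + (m * η) ^ 2) * Real.exp (-(π * m * η)))) := by
          have := pi_sq_le
          have h11 : (m * η) ^ 2 ≤ 1 + (m * η) ^ 2 := by linarith
          gcongr
      _ = 40 * η ^ 2 * (b m ^ 2 * (1 / (H : ℝ) ^ 2) *
          ((1 + (m * η) ^ 2) * Real.exp (-(π * m * η)))) := by ring
      _ ≤ _ := by
          gcongr
  · push Not at hc
    rw [yy_zero fun v hv l hg => hc v hv l hg, sub_zero]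
    -- the three kinds of `m`
    have key : b m ^ 2 * Real.exp (-(2 * π * m * η)) ≤ ww b η P H V K m := by
      have hb2 : 0 ≤ b m ^ 2 := sq_nonneg _
      have hcnt := cnt_nonneg P H V m
      have hE := (Real.exp_pos (-(π * P * K * η))).le
      have hH2 : 0 ≤ 1 / (H : ℝ) ^ 2 := by positivity
      have hexp1 : Real.exp (-(2 * π * m * η)) ≤ 1 := by
        rw [Real.exp_le_one_iff]
        have : 0 ≤ 2 * π * m * η := by positivity
        linarith
      unfold ww
      by_cases h0 : ∀ v < V, ∀ l ∈ blk P H v, ¬ l ∣ m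
      · rw [if_pos h0]
        refine mul_le_mul_of_nonneg_left ?_ hb2
        linarith
      · rw [if_neg h0]
        push Not at h0
        obtain ⟨v₁, hv₁, l₁, hl₁, hd₁⟩ := h0
        have hex : ∃ v, v < V ∧ ∃ l ∈ blk P H v, l ∣ m := ⟨v₁, hv₁, l₁, hl₁, hd₁⟩
        obtain ⟨hv, l, hl, hd⟩ := Nat.find_spec hex
        set v := Nat.find hex with hvdef
        by_cases h2 : ∃ l' ∈ blk P H v, l * l' ∣ m
        · obtain ⟨l', hl', hd'⟩ := h2
          have h3 := one_le_cnt hv hl hl' hd'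
          refine mul_le_mul_of_nonneg_left ?_ hb2
          linarith
        · push Not at h2
          have hg : Good P H v l m := by
            refine ⟨hl, hd, ?_⟩
            intro v' hv' l' hl' hdl'
            have h3 : l * l' ∣ m := by
              obtain ⟨c, hc'⟩ := hdl'
              exact ⟨c, by rw [mul_assoc, ← hc', Nat.mul_div_cancel' hd]⟩
            rcases hv'.lt_or_eq with hlt | heq
            · exact Nat.find_min hex hlt ⟨hlt.trans hv, l', hl', (dvd_mul_left l' l).trans h3⟩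
            · rw [heq] at hl'
              exact h2 l' hl' h3
          have h3 := hc v hv l hg
          have hlpos := (mem_blk.1 hl).1.pos
          have hk1 : 1 ≤ m / l := Nat.div_pos (Nat.le_of_dvd hm hd) hlpos
          have hk2 : K < m / l := by
            by_contra h4
            exact h3 (Finset.mem_Icc.2 ⟨hk1, not_lt.1 h4⟩)
          have hmk : l * (m / l) = m := Nat.mul_div_cancel' hd
          have h5 : P * K ≤ m := by
            rw [← hmk]
            exact Nat.mul_le_mul (blk_lt hl).le hk2.le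
          have h6 : (P : ℝ) * K ≤ m := by exact_mod_cast h5
          have h7 : Real.exp (-(2 * π * m * η)) ≤ Real.exp (-(π * P * K * η)) := by
            rw [Real.exp_le_exp]
            have h8 : (P : ℝ) * K * (π * η) ≤ m * (π * η) :=
              mul_le_mul_of_nonneg_right h6 (by positivity)
            have h9 : 0 ≤ m * (π * η) := by positivity
            linarith
          refine mul_le_mul_of_nonneg_left ?_ hb2
          linarith
    have h1 : xb b η m ^ 2 * Real.exp (π * m * η) =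
        η ^ 2 * (b m ^ 2 * Real.exp (-(2 * π * m * η))) * Real.exp (-(π * m * η)) := by
      unfold xb
      rw [mul_pow, mul_assoc, exp_sq_mul]
      ring
    rw [h1]
    have h2 : (1 : ℝ) ≤ 1 + (m * η) ^ 2 := by nlinarith [sq_nonneg ((m : ℝ) * η)]
    have h3 := ww_nonneg b η P H V K m
    have h4 := (Real.exp_pos (-(π * m * η))).le
    calc η ^ 2 * (b m ^ 2 * Real.exp (-(2 * π * m * η))) * Real.exp (-(π * m * η))
        ≤ η ^ 2 * ww b η P H V K m * Real.exp (-(π * m * η)) := by gcongr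
      _ = 1 * η ^ 2 * (ww b η P H V K m * (1 * Real.exp (-(π * m * η)))) := by ring
      _ ≤ 40 * η ^ 2 * (ww b η P H V K m * ((1 + (m * η) ^ 2) * Real.exp (-(π * m * η)))) := by
        gcongr
        norm_num

end Pool.Agent.MU0.Dec
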