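import Pool.Agent.MU0.Dec2

/-!
# The mean square of the error sequence
-/

set_option autoImplicit false

open Finset
open scoped Real

namespace Pool.Agent.MU0.Dec

open Classical in
theorem ind_sum {b : ℕ → ℝ} {P H V : ℕ} {C₀ : ℝ} (hC₀ : 0 ≤ C₀)
    (hrough : ∀ P Q X : ℕ, 2 ≤ P → P < Q → Q ≤ X →
      ∑ k ∈ (Icc 1 X).filter (fun k => ∀ l : ℕ, l.Prime → P < l → l ≤ Q → ¬ l ∣ k), b k ^ 2 ≤
        C₀ * X ^ 2 * (Real.log P / Real.log Q))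
    (hP : 2 ≤ P) (hLL : 2 * (P : ℝ) ≤ LL P H V) (X : ℕ) (hX : LL P H V ≤ X) :
    ∑ m ∈ Icc 1 X, b m ^ 2 * (if ∀ v < V, ∀ l ∈ blk P H v, ¬ l ∣ m then (1 : ℝ) else 0) ≤
      2 * C₀ * (X : ℝ) ^ 2 * (Real.log P / Real.log (LL P H V)) := by
  have hP2 : (2 : ℝ) ≤ P := by exact_mod_cast hP
  set Q := ⌊LL P H V⌋₊ with hQ
  have h1 : P < Q := by
    have h2 : 2 * P ≤ Q := by
      rw [hQ, Nat.le_floor_iff (LL_nonneg P H V)]
      push_cast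
      exact hLL
    omega
  have h2 : Q ≤ X := by
    have h3 : (Q : ℝ) ≤ X := (Nat.floor_le (LL_nonneg P H V)).trans hX
    exact_mod_cast h3
  have h3 : ∑ m ∈ Icc 1 X, b m ^ 2 * (if ∀ v < V, ∀ l ∈ blk P H v, ¬ l ∣ m then (1 : ℝ) else 0) ≤
      ∑ k ∈ (Icc 1 X).filter (fun k => ∀ l : ℕ, l.Prime → P < l → l ≤ Q → ¬ l ∣ k), b k ^ 2 := by
    rw [Finset.sum_filter]
    refine Finset.sum_le_sum fun m _ => ?_
    by_cases h4 : ∀ v < V, ∀ l ∈ blk P H v, ¬ l ∣ m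
    · have h5 : ∀ l : ℕ, l.Prime → P < l → l ≤ Q → ¬ l ∣ m := by
        intro l hl h6 h7
        have h8 : (l : ℝ) ≤ LL P H V :=
          (by exact_mod_cast h7 : (l : ℝ) ≤ Q).trans (Nat.floor_le (LL_nonneg P H V))
        obtain ⟨v, hv, hlv⟩ := exists_blk hl h6 h8
        exact h4 v hv l hlv
      rw [if_pos h4, if_pos h5, mul_one]
    · rw [if_neg h4, mul_zero]
      split_ifs
      · exact sq_nonneg _
      · exact le_rfl
  refine h3.trans ((hrough P Q X hP h1 h2).trans ?_)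
  have h4 : Real.log (LL P H V) ≤ 2 * Real.log Q := by
    have h5 : LL P H V ≤ (Q : ℝ) + 1 := (Nat.lt_floor_add_one _).le
    have h6 : (4 : ℝ) ≤ Q := by
      have : 4 ≤ Q := by
        have h2 : 2 * P ≤ Q := by
          rw [hQ, Nat.le_floor_iff (LL_nonneg P H V)]
          push_cast
          exact hLL
        omega
      exact_mod_cast this
    have h7 : LL P H V ≤ (Q : ℝ) ^ 2 := by nlinarith
    have h8 : 0 < LL P H V := by linarith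
    calc Real.log (LL P H V) ≤ Real.log ((Q : ℝ) ^ 2) := Real.log_le_log h8 h7
      _ = 2 * Real.log Q := by rw [Real.log_pow]; norm_num
  have h5 : 0 < Real.log (LL P H V) := Real.log_pos (by linarith)
  have h6 : 0 < Real.log Q := by linarith
  have h7 : 0 ≤ Real.log P := Real.log_nonneg (by linarith)
  have h8 : Real.log P / Real.log Q ≤ 2 * (Real.log P / Real.log (LL P H V)) := by
    rw [div_le_iff₀ h6]
    have h9 : 2 * (Real.log P / Real.log (LL P H V)) * Real.log Q =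
        Real.log P * ((2 * Real.log Q) / Real.log (LL P H V)) := by ring
    rw [h9]
    have h10 : 1 ≤ (2 * Real.log Q) / Real.log (LL P H V) := by
      rw [one_le_div h5]
      exact h4
    nlinarith
  calc C₀ * (X : ℝ) ^ 2 * (Real.log P / Real.log Q)
      ≤ C₀ * (X : ℝ) ^ 2 * (2 * (Real.log P / Real.log (LL P H V))) :=
        mul_le_mul_of_nonneg_left h8 (by positivity)
    _ = 2 * C₀ * (X : ℝ) ^ 2 * (Real.log P / Real.log (LL P H V)) := by ring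

theorem cnt_sum {b A : ℕ → ℝ} {P H V : ℕ} {C₀ : ℝ} (hC₀ : 0 ≤ C₀)
    (h2 : ∀ X : ℕ, ∑ k ∈ Icc 1 X, b k ^ 2 ≤ C₀ * (X : ℝ) ^ 2)
    (hA : ∀ l : ℕ, l.Prime → P < l → Hk b l (A l) ∧ A l ^ 2 ≤ 4 * l)
    (hH : 1 ≤ H) (hHP : H ≤ P) (X : ℕ) :
    ∑ m ∈ Icc 1 X, b m ^ 2 * (∑ v ∈ range V, ∑ l ∈ blk P H v, ∑ l' ∈ blk P H v,
      if l * l' ∣ m then (1 : ℝ) else 0) ≤ 400 * C₀ * (X : ℝ) ^ 2 * (V / (H : ℝ) ^ 2) := by
  have hH0 : (0 : ℝ) < H := by exact_mod_cast hH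
  have e1 : ∑ m ∈ Icc 1 X, b m ^ 2 * (∑ v ∈ range V, ∑ l ∈ blk P H v, ∑ l' ∈ blk P H v,
      if l * l' ∣ m then (1 : ℝ) else 0) = ∑ v ∈ range V, ∑ l ∈ blk P H v, ∑ l' ∈ blk P H v,
      ∑ m ∈ (Icc 1 X).filter (fun m => l * l' ∣ m), b m ^ 2 := by
    have h1 : ∀ v l l' : ℕ, ∑ m ∈ (Icc 1 X).filter (fun m => l * l' ∣ m), b m ^ 2 =
        ∑ m ∈ Icc 1 X, b m ^ 2 * (if l * l' ∣ m then (1 : ℝ) else 0) := by
      intro v l l'
      rw [Finset.sum_filter]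
      refine Finset.sum_congr rfl fun m _ => ?_
      split_ifs <;> simp
    calc ∑ m ∈ Icc 1 X, b m ^ 2 * (∑ v ∈ range V, ∑ l ∈ blk P H v, ∑ l' ∈ blk P H v,
        if l * l' ∣ m then (1 : ℝ) else 0)
        = ∑ m ∈ Icc 1 X, ∑ v ∈ range V, ∑ l ∈ blk P H v, ∑ l' ∈ blk P H v,
          b m ^ 2 * (if l * l' ∣ m then (1 : ℝ) else 0) := by
          simp only [Finset.mul_sum]
      _ = ∑ v ∈ range V, ∑ m ∈ Icc 1 X, ∑ l ∈ blk P H v, ∑ l' ∈ blk P H v,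
          b m ^ 2 * (if l * l' ∣ m then (1 : ℝ) else 0) := Finset.sum_comm
      _ = _ := by
          refine Finset.sum_congr rfl fun v _ => ?_
          rw [Finset.sum_comm]
          refine Finset.sum_congr rfl fun l _ => ?_
          rw [Finset.sum_comm]
          refine Finset.sum_congr rfl fun l' _ => ?_
          rw [h1 v l l']
  rw [e1]
  have h3 : ∀ v ∈ range V, ∑ l ∈ blk P H v, ∑ l' ∈ blk P H v,
      ∑ m ∈ (Icc 1 X).filter (fun m => l * l' ∣ m), b m ^ 2 ≤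
      100 * C₀ * (X : ℝ) ^ 2 * (2 / (H : ℝ)) ^ 2 := by
    intro v _
    have h4 : ∑ l ∈ blk P H v, ∑ l' ∈ blk P H v,
        ∑ m ∈ (Icc 1 X).filter (fun m => l * l' ∣ m), b m ^ 2 ≤
        ∑ l ∈ blk P H v, ∑ l' ∈ blk P H v, 100 * C₀ * (X : ℝ) ^ 2 * ((1 / l) * (1 / l')) := by
      refine Finset.sum_le_sum fun l hl => Finset.sum_le_sum fun l' hl' => ?_
      have hl1 := (mem_blk.1 hl).1
      have hl2 := (mem_blk.1 hl').1
      obtain ⟨h5, h6⟩ := hA l hl1 (blk_lt hl)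
      obtain ⟨h7, h8⟩ := hA l' hl2 (blk_lt hl')
      exact mult_sum hl1 hl2 h5 h6 h7 h8 hC₀ h2 X
    refine h4.trans ?_
    have h5 : ∑ l ∈ blk P H v, ∑ l' ∈ blk P H v, 100 * C₀ * (X : ℝ) ^ 2 *
        (((1 : ℝ) / l) * (1 / l')) = 100 * C₀ * (X : ℝ) ^ 2 *
        ((∑ l ∈ blk P H v, (1 : ℝ) / l) * (∑ l' ∈ blk P H v, (1 : ℝ) / l')) := by
      rw [Finset.sum_mul_sum, Finset.mul_sum]
      refine Finset.sum_congr rfl fun l _ => ?_
      rw [Finset.mul_sum]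
    rw [h5]
    have h6 := blk_sum (v := v) hH hHP
    have h7 : 0 ≤ ∑ l ∈ blk P H v, (1 : ℝ) / l := Finset.sum_nonneg fun _ _ => by positivity
    have h8 : (∑ l ∈ blk P H v, (1 : ℝ) / l) * (∑ l' ∈ blk P H v, (1 : ℝ) / l') ≤
        (2 / (H : ℝ)) ^ 2 := by
      rw [sq]
      exact mul_le_mul h6 h6 h7 (h7.trans h6)
    exact mul_le_mul_of_nonneg_left h8 (by positivity)
  refine (Finset.sum_le_sum h3).trans ?_
  rw [Finset.sum_const, Finset.card_range, nsmul_eq_mul]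
  apply le_of_eq
  field_simp
  ring

open Classical in
theorem ww_sum {b A : ℕ → ℝ} {η : ℝ} {P H V K : ℕ} {C₀ : ℝ} (hC₀ : 0 ≤ C₀) (hb0 : b 0 = 0)
    (h2 : ∀ X : ℕ, ∑ k ∈ Icc 1 X, b k ^ 2 ≤ C₀ * (X : ℝ) ^ 2)
    (hrough : ∀ P Q X : ℕ, 2 ≤ P → P < Q → Q ≤ X →
      ∑ k ∈ (Icc 1 X).filter (fun k => ∀ l : ℕ, l.Prime → P < l → l ≤ Q → ¬ l ∣ k), b k ^ 2 ≤
        C₀ * X ^ 2 * (Real.log P / Real.log Q))
    (hA : ∀ l : ℕ, l.Prime → P < l → Hk b l (A l) ∧ A l ^ 2 ≤ 4 * l)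
    (hP : 2 ≤ P) (hH : 1 ≤ H) (hHP : H ≤ P) (hLL : 2 * (P : ℝ) ≤ LL P H V) (X : ℕ)
    (hX : LL P H V ≤ X) :
    ∑ m ∈ range X, ww b η P H V K m ≤ (400 * C₀ * (Real.log P / Real.log (LL P H V) +
      V / (H : ℝ) ^ 2 + 1 / (H : ℝ) ^ 2 + Real.exp (-(π * P * K * η)))) * (X : ℝ) ^ 2 := by
  have hP2 : (2 : ℝ) ≤ P := by exact_mod_cast hP
  have h0 : ww b η P H V K 0 = 0 := by
    unfold ww
    rw [hb0]
    ring
  have h1 : ∑ m ∈ range X, ww b η P H V K m ≤ ∑ m ∈ Icc 1 X, ww b η P H V K m := by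
    have h3 : range X ⊆ insert 0 (Icc 1 X) := by
      intro m hm
      rw [Finset.mem_range] at hm
      rw [Finset.mem_insert, Finset.mem_Icc]
      omega
    refine (Finset.sum_le_sum_of_subset_of_nonneg h3 fun m _ _ => ww_nonneg b η P H V K m).trans ?_
    rw [Finset.sum_insert (by simp), h0, zero_add]
  refine h1.trans ?_
  have e1 : ∑ m ∈ Icc 1 X, ww b η P H V K m =
      ∑ m ∈ Icc 1 X, b m ^ 2 * (if ∀ v < V, ∀ l ∈ blk P H v, ¬ l ∣ m then (1 : ℝ) else 0) +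
      ∑ m ∈ Icc 1 X, b m ^ 2 * (∑ v ∈ range V, ∑ l ∈ blk P H v, ∑ l' ∈ blk P H v,
        if l * l' ∣ m then (1 : ℝ) else 0) +
      (∑ m ∈ Icc 1 X, b m ^ 2) * (1 / (H : ℝ) ^ 2 + Real.exp (-(π * P * K * η))) := by
    rw [Finset.sum_mul, ← Finset.sum_add_distrib, ← Finset.sum_add_distrib]
    refine Finset.sum_congr rfl fun m _ => ?_
    unfold ww
    ring
  rw [e1]
  have i1 := ind_sum (b := b) hC₀ hrough hP hLL X hX
  have i2 := cnt_sum (V := V) hC₀ h2 hA hH hHP X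
  have i3 := h2 X
  have hx : 0 < Real.log (LL P H V) := Real.log_pos (by linarith)
  have hp : 0 ≤ Real.log P := Real.log_nonneg (by linarith)
  have i4 : (∑ m ∈ Icc 1 X, b m ^ 2) * (1 / (H : ℝ) ^ 2 + Real.exp (-(π * P * K * η))) ≤
      C₀ * (X : ℝ) ^ 2 * (1 / (H : ℝ) ^ 2 + Real.exp (-(π * P * K * η))) :=
    mul_le_mul_of_nonneg_right i3 (by positivity)
  have j1 : 0 ≤ C₀ * (X : ℝ) ^ 2 * (Real.log P / Real.log (LL P H V)) := by positivity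
  have j2 : 0 ≤ C₀ * (X : ℝ) ^ 2 * (1 / (H : ℝ) ^ 2 + Real.exp (-(π * P * K * η))) := by
    positivity
  calc _ ≤ 2 * C₀ * (X : ℝ) ^ 2 * (Real.log P / Real.log (LL P H V)) +
        400 * C₀ * (X : ℝ) ^ 2 * (V / (H : ℝ) ^ 2) +
        C₀ * (X : ℝ) ^ 2 * (1 / (H : ℝ) ^ 2 + Real.exp (-(π * P * K * η))) := by
        linarith
    _ ≤ _ := by
        nlinarith [j1, j2]

end Pool.Agent.MU0.Dec
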