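import Pool.Agent.MU0.Dec3

/-!
# The weighted `ℓ²` norm of the error sequence
-/

set_option autoImplicit false

open Finset
open scoped Real

namespace Pool.Agent.MU0.Dec

open Classical in
theorem err_tsum {b A : ℕ → ℝ} {η : ℝ} {P H V K : ℕ} {C₀ : ℝ} (hC₀ : 0 ≤ C₀) (hb0 : b 0 = 0)
    (h2 : ∀ X : ℕ, ∑ k ∈ Icc 1 X, b k ^ 2 ≤ C₀ * (X : ℝ) ^ 2)
    (hrough : ∀ P Q X : ℕ, 2 ≤ P → P < Q → Q ≤ X →
      ∑ k ∈ (Icc 1 X).filter (fun k => ∀ l : ℕ, l.Prime → P < l → l ≤ Q → ¬ l ∣ k), b k ^ 2 ≤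
        C₀ * X ^ 2 * (Real.log P / Real.log Q))
    (hA : ∀ l : ℕ, l.Prime → P < l → Hk b l (A l) ∧ A l ^ 2 ≤ 4 * l)
    (hP : 2 ≤ P) (hH : 1 ≤ H) (hHP : H ≤ P) (hLL : 2 * (P : ℝ) ≤ LL P H V)
    (hη : 0 < η) (hη1 : η ≤ 1 / 2) (hηL : η * LL P H V ≤ 1) :
    (Summable fun m : ℕ => (xb b η m - yy b A η P H V K m) ^ 2 * Real.exp (π * m * η)) ∧
    ∑' m : ℕ, (xb b η m - yy b A η P H V K m) ^ 2 * Real.exp (π * m * η) ≤
      256000 * cw * C₀ * (Real.log P / Real.log (LL P H V) +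
        V / (H : ℝ) ^ 2 + 1 / (H : ℝ) ^ 2 + Real.exp (-(π * P * K * η))) := by
  have hP2 : (2 : ℝ) ≤ P := by exact_mod_cast hP
  set E : ℝ := Real.log P / Real.log (LL P H V) + V / (H : ℝ) ^ 2 + 1 / (H : ℝ) ^ 2 +
    Real.exp (-(π * P * K * η)) with hE
  have hx : 0 < Real.log (LL P H V) := Real.log_pos (by linarith)
  have hp : 0 ≤ Real.log P := Real.log_nonneg (by linarith)
  have hE0 : 0 ≤ E := by
    rw [hE]
    have := (Real.exp_pos (-(π * P * K * η))).le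
    positivity
  set Y : ℕ := ⌈1 / η⌉₊ with hYdef
  have hY1 : 1 / η ≤ Y := Nat.le_ceil _
  have hY2 : (Y : ℝ) ≤ 1 / η + 1 := (Nat.ceil_lt_add_one (by positivity)).le
  have hYpos : 1 ≤ Y := Nat.one_le_ceil_iff.2 (by positivity)
  have hY0 : (0 : ℝ) < Y := by exact_mod_cast hYpos
  have hηY : 1 / (Y : ℝ) ≤ η := by
    rw [div_le_iff₀ hY0]
    rw [div_le_iff₀ hη] at hY1
    linarith
  have hηY2 : η * Y ≤ 2 := by
    have h3 : η * Y ≤ η * (1 / η + 1) := mul_le_mul_of_nonneg_left hY2 hη.le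
    have h4 : η * (1 / η + 1) = 1 + η := by field_simp
    linarith
  have hLY : LL P H V ≤ Y := by
    refine le_trans ?_ hY1
    rw [le_div_iff₀ hη]
    linarith
  have hsum : ∀ j : ℕ, 1 ≤ j → ∑ m ∈ range (j * Y), ww b η P H V K m ≤
      (400 * C₀ * E) * ((j * Y : ℕ) : ℝ) ^ 2 := by
    intro j hj
    refine ww_sum hC₀ hb0 h2 hrough hA hP hH hHP hLL (j * Y) ?_
    refine hLY.trans ?_
    have : Y ≤ j * Y := Nat.le_mul_of_pos_left Y hj
    exact_mod_cast this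
  obtain ⟨hs, ht⟩ := weight_tsum (fun m => ww b η P H V K m) (fun m => ww_nonneg b η P H V K m)
    (400 * C₀ * E) (by positivity) hYpos hsum
  have hpt : ∀ m : ℕ, (xb b η m - yy b A η P H V K m) ^ 2 * Real.exp (π * m * η) ≤
      160 * η ^ 2 * (ww b η P H V K m * ((1 + ((m : ℝ) / Y) ^ 2) *
        Real.exp (-((m : ℝ) / Y)))) := by
    intro m
    have hw := ww_nonneg b η P H V K m
    rcases Nat.eq_zero_or_pos m with hm | hm
    · subst hm
      have h3 : yy b A η P H V K 0 = 0 := by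
        refine yy_zero fun v _ l _ => ?_
        simp
      have h4 : xb b η 0 = 0 := by unfold xb; rw [hb0]; ring
      rw [h3, h4]
      have : 0 ≤ 160 * η ^ 2 * (ww b η P H V K 0 * ((1 + (((0 : ℕ) : ℝ) / Y) ^ 2) *
        Real.exp (-(((0 : ℕ) : ℝ) / Y)))) := by positivity
      simpa using this
    · refine (err_le hη hH (fun l hl hPl => (hA l hl hPl).1) m hm).trans ?_
      have hm0 : (0 : ℝ) ≤ m := Nat.cast_nonneg m
      have h3 : (m : ℝ) * η ≤ 2 * (m / Y) := by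
        have h4 : η ≤ 2 / Y := by
          rw [le_div_iff₀ hY0]
          exact hηY2
        calc (m : ℝ) * η ≤ m * (2 / Y) := mul_le_mul_of_nonneg_left h4 hm0
          _ = 2 * (m / Y) := by ring
      have h5 : 1 + ((m : ℝ) * η) ^ 2 ≤ 4 * (1 + ((m : ℝ) / Y) ^ 2) := by
        have h6 := pow_le_pow_left₀ (by positivity) h3 2
        nlinarith
      have h7 : Real.exp (-(π * m * η)) ≤ Real.exp (-((m : ℝ) / Y)) := by
        rw [Real.exp_le_exp]
        have h8 : (m : ℝ) / Y ≤ m * η := by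
          calc (m : ℝ) / Y = m * (1 / Y) := by ring
            _ ≤ m * η := mul_le_mul_of_nonneg_left hηY hm0
        have h9 : (m : ℝ) * η ≤ π * m * η := by
          have := Real.pi_gt_three
          have h10 : 0 ≤ (m : ℝ) * η := by positivity
          nlinarith
        linarith
      calc 40 * η ^ 2 * (ww b η P H V K m * ((1 + (m * η) ^ 2) * Real.exp (-(π * m * η))))
          ≤ 40 * η ^ 2 * (ww b η P H V K m * ((4 * (1 + ((m : ℝ) / Y) ^ 2)) *
            Real.exp (-((m : ℝ) / Y)))) := by gcongr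
        _ = _ := by ring
  have hs2 : Summable fun m : ℕ => 160 * η ^ 2 * (ww b η P H V K m *
      ((1 + ((m : ℝ) / Y) ^ 2) * Real.exp (-((m : ℝ) / Y)))) := hs.mul_left _
  have hs3 : Summable fun m : ℕ => (xb b η m - yy b A η P H V K m) ^ 2 * Real.exp (π * m * η) :=
    Summable.of_nonneg_of_le (fun m => by positivity) hpt hs2
  refine ⟨hs3, ?_⟩
  calc ∑' m : ℕ, (xb b η m - yy b A η P H V K m) ^ 2 * Real.exp (π * m * η)
      ≤ ∑' m : ℕ, 160 * η ^ 2 * (ww b η P H V K m *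
        ((1 + ((m : ℝ) / Y) ^ 2) * Real.exp (-((m : ℝ) / Y)))) := hs3.tsum_le_tsum hpt hs2
    _ = 160 * η ^ 2 * ∑' m : ℕ, ww b η P H V K m *
        ((1 + ((m : ℝ) / Y) ^ 2) * Real.exp (-((m : ℝ) / Y))) := tsum_mul_left
    _ ≤ 160 * η ^ 2 * (cw * (400 * C₀ * E) * (Y : ℝ) ^ 2) :=
        mul_le_mul_of_nonneg_left ht (by positivity)
    _ = 64000 * cw * C₀ * E * (η * Y) ^ 2 := by ring
    _ ≤ 64000 * cw * C₀ * E * 2 ^ 2 := by
        have h3 : (η * Y) ^ 2 ≤ 2 ^ 2 := pow_le_pow_left₀ (by positivity) hηY2 2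
        have := cw_nonneg
        exact mul_le_mul_of_nonneg_left h3 (by positivity)
    _ = 256000 * cw * C₀ * E := by ring

end Pool.Agent.MU0.Dec
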