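import Pool.Agent.MU0.Dec2

/-!
# The identity of the first-block decomposition
-/

set_option autoImplicit false

open Finset
open scoped Real

namespace Pool.Agent.MU0.Dec

theorem norm_char {q : ℕ} [NeZero q] (x : ℝ) (u : ZMod q) :
    ‖(x : ℂ) * ZMod.stdAddChar u‖ = |x| := by
  rw [norm_mul, Complex.norm_real, Real.norm_eq_abs, AddChar.norm_apply, mul_one]

/-- One term of `∑_v B_v d_v`. -/
theorem dec_term {q : ℕ} [NeZero q] {l : ℕ} (hl : 0 < l) (c : ℝ) (g : ℕ → ℝ) (K : ℕ) (u : ZMod q) :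
    HasSum (fun m : ℕ => ((if l ∣ m ∧ m / l ∈ Icc 1 K then c * g (m / l) else 0 : ℝ) : ℂ) *
      ZMod.stdAddChar ((m : ZMod q) * u))
      ((c : ℂ) * sr (fun k => if k ∈ Icc 1 K then g k else 0) ((l : ZMod q) * u)) := by
  classical
  have h1 : sr (fun k => if k ∈ Icc 1 K then g k else 0) ((l : ZMod q) * u) =
      ∑ k ∈ Icc 1 K, (g k : ℂ) * ZMod.stdAddChar ((k : ZMod q) * ((l : ZMod q) * u)) := by
    unfold sr
    rw [tsum_eq_sum (s := Icc 1 K)]
    · refine Finset.sum_congr rfl fun k hk => ?_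
      simp only [if_pos hk]
    · intro k hk
      simp [hk]
  rw [h1, Finset.mul_sum]
  have h2 : ∑ k ∈ Icc 1 K, (c : ℂ) * ((g k : ℂ) *
      ZMod.stdAddChar ((k : ZMod q) * ((l : ZMod q) * u))) =
      ∑ m ∈ (Icc 1 K).image (fun k => l * k),
        ((if l ∣ m ∧ m / l ∈ Icc 1 K then c * g (m / l) else 0 : ℝ) : ℂ) *
          ZMod.stdAddChar ((m : ZMod q) * u) := by
    rw [Finset.sum_image]
    · refine Finset.sum_congr rfl fun k hk => ?_
      rw [Nat.mul_div_cancel_left k hl, if_pos ⟨dvd_mul_right l k, hk⟩]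
      have h3 : ((l * k : ℕ) : ZMod q) * u = (k : ZMod q) * ((l : ZMod q) * u) := by
        push_cast
        ring
      rw [h3]
      push_cast
      ring
    · intro a _ b _ hab
      exact Nat.eq_of_mul_eq_mul_left hl hab
  rw [h2]
  refine hasSum_sum_of_ne_finset_zero fun m hm => ?_
  rw [if_neg]
  · simp
  · rintro ⟨h3, h4⟩
    exact hm (Finset.mem_image.2 ⟨m / l, h4, Nat.mul_div_cancel' h3⟩)

/-- The series of `yy`. -/
theorem yy_hasSum {q : ℕ} [NeZero q] (b A : ℕ → ℝ) (η : ℝ) (P H V K : ℕ) (u : ZMod q) :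
    HasSum (fun m : ℕ => (yy b A η P H V K m : ℂ) * ZMod.stdAddChar ((m : ZMod q) * u))
      (∑ v ∈ range V, ∑ l ∈ blk P H v, (A l : ℂ) *
        sr (fun k => if k ∈ Icc 1 K then xx b η P H v k else 0) ((l : ZMod q) * u)) := by
  have h : ∀ v ∈ range V, HasSum (fun m : ℕ => ∑ l ∈ blk P H v,
      ((if l ∣ m ∧ m / l ∈ Icc 1 K then A l * xx b η P H v (m / l) else 0 : ℝ) : ℂ) *
        ZMod.stdAddChar ((m : ZMod q) * u))
      (∑ l ∈ blk P H v, (A l : ℂ) *
        sr (fun k => if k ∈ Icc 1 K then xx b η P H v k else 0) ((l : ZMod q) * u)) := by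
    intro v _
    exact hasSum_sum fun l hl => dec_term (mem_blk.1 hl).1.pos (A l) (xx b η P H v) K u
  have h2 := hasSum_sum h
  refine h2.congr_fun fun m => ?_
  unfold yy
  push_cast
  rw [Finset.sum_mul]
  refine Finset.sum_congr rfl fun v _ => ?_
  rw [Finset.sum_mul]

/-- `TS x` is the sum of an absolutely convergent series. -/
theorem ts_hasSum {q : ℕ} [NeZero q] {x : ℕ → ℝ} (hs : Summable fun m => |x m|) (u : ZMod q) :
    HasSum (fun m : ℕ => (x m : ℂ) * ZMod.stdAddChar ((m : ZMod q) * u)) (TS x u) := by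
  have h : Summable (fun m : ℕ => (x m : ℂ) * ZMod.stdAddChar ((m : ZMod q) * u)) := by
    refine Summable.of_norm (hs.congr fun m => ?_)
    rw [norm_char]
  exact h.hasSum

/-- **the identity of the first-block decomposition** -/
theorem dec_id {q : ℕ} [NeZero q] (b A : ℕ → ℝ) (η : ℝ) (P H V K : ℕ)
    (hs : Summable fun m => |xb b η m|) (u : ZMod q) :
    TS (xb b η) u = ∑ v ∈ range V, ∑ l ∈ blk P H v, (A l : ℂ) *
        sr (fun k => if k ∈ Icc 1 K then xx b η P H v k else 0) ((l : ZMod q) * u) +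
      sr (fun m => xb b η m - yy b A η P H V K m) u := by
  have h1 := ts_hasSum hs u
  have h2 := yy_hasSum (q := q) b A η P H V K u
  have h3 := h1.sub h2
  have h4 : sr (fun m => xb b η m - yy b A η P H V K m) u = TS (xb b η) u -
      ∑ v ∈ range V, ∑ l ∈ blk P H v, (A l : ℂ) *
        sr (fun k => if k ∈ Icc 1 K then xx b η P H v k else 0) ((l : ZMod q) * u) := by
    rw [← h3.tsum_eq]
    change ∑' m : ℕ, ((xb b η m - yy b A η P H V K m : ℝ) : ℂ) *
      ZMod.stdAddChar ((m : ZMod q) * u) = _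
    refine tsum_congr fun m => ?_
    push_cast
    ring
  rw [h4]
  ring

/-- `yy` has finite support. -/
theorem yy_finite (b A : ℕ → ℝ) (η : ℝ) (P H V K : ℕ) :
    ∃ M : ℕ, ∀ m, M < m → yy b A η P H V K m = 0 := by
  refine ⟨∑ v ∈ range V, ∑ l ∈ blk P H v, l * K, fun m hm => ?_⟩
  unfold yy
  refine Finset.sum_eq_zero fun v hv => Finset.sum_eq_zero fun l hl => if_neg ?_
  rintro ⟨h1, h2⟩
  have h3 : m ≤ l * K := by
    rw [← Nat.mul_div_cancel' h1]
    exact Nat.mul_le_mul_left _ (Finset.mem_Icc.1 h2).2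
  have h4 : l * K ≤ ∑ l ∈ blk P H v, l * K :=
    Finset.single_le_sum (f := fun l => l * K) (fun _ _ => Nat.zero_le _) hl
  have h5 : ∑ l ∈ blk P H v, l * K ≤ ∑ v ∈ range V, ∑ l ∈ blk P H v, l * K :=
    Finset.single_le_sum (f := fun v => ∑ l ∈ blk P H v, l * K) (fun _ _ => Nat.zero_le _) hv
  omega

/-- The error sequence is summable. -/
theorem err_summable (b A : ℕ → ℝ) (η : ℝ) (P H V K : ℕ) (hs : Summable fun m => |xb b η m|) :
    Summable fun m => |xb b η m - yy b A η P H V K m| := by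
  obtain ⟨M, hM⟩ := yy_finite b A η P H V K
  have h1 : Summable fun m => |yy b A η P H V K m| := by
    refine summable_of_ne_finset_zero (s := Finset.range (M + 1)) fun m hm => ?_
    rw [Finset.mem_range, not_lt] at hm
    rw [hM m (by omega), abs_zero]
  refine Summable.of_nonneg_of_le (fun m => abs_nonneg _) (fun m => ?_) (hs.add h1)
  exact abs_sub _ _

end Pool.Agent.MU0.Dec
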