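import Pool.Agent.MU0.Defs

/-!
# Definitions for the heights of size `1/q`
-/

set_option autoImplicit false

open Finset
open scoped Real

namespace Pool.Agent.MU0

/-- The series `∑ x(m) e(mb/q)`. -/
noncomputable def sr (x : ℕ → ℝ) {q : ℕ} [NeZero q] (b : ZMod q) : ℂ :=
  ∑' m : ℕ, (x m : ℂ) * ZMod.stdAddChar ((m : ZMod q) * b)

/-- The coefficients of `η f(b/q + iη)`. -/
noncomputable def xF (a : ℕ → ℤ) (η : ℝ) (m : ℕ) : ℝ := η * a m * Real.exp (-(2 * π * m * η))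

/-- `η f(b/q + iη)`. -/
noncomputable def FF (a : ℕ → ℤ) (η : ℝ) {q : ℕ} [NeZero q] (b : ZMod q) : ℂ := sr (xF a η) b

/-- The series `∑ x(m) e(mu/q)`. -/
noncomputable def TS {q : ℕ} [NeZero q] (x : ℕ → ℝ) (u : ZMod q) : ℂ :=
  ∑' m : ℕ, ((x m : ℝ) : ℂ) * ZMod.stdAddChar ((m : ZMod q) * u)

theorem sr_eq_TS (x : ℕ → ℝ) {q : ℕ} [NeZero q] (b : ZMod q) : sr x b = TS x b := rfl

/-- The coefficients of `η g(x + iη)`. -/
noncomputable def xb (b : ℕ → ℝ) (η : ℝ) (m : ℕ) : ℝ := η * b m * Real.exp (-(2 * π * m * η))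

theorem xF_eq_xb (a : ℕ → ℤ) (η : ℝ) : xF a η = xb (fun n => (a n : ℝ)) η := rfl

/-- `L_v` -/
noncomputable def LL (P H : ℕ) (v : ℕ) : ℝ := P * (1 + 1 / (H : ℝ)) ^ v

/-- The primes in `(L_v, L_(v+1)]`. -/
noncomputable def blk (P H v : ℕ) : Finset ℕ :=
  (Icc 1 ⌊LL P H (v+1)⌋₊).filter fun l => l.Prime ∧ LL P H v < l

open Classical in
/-- The coefficients of `d_v`. -/
noncomputable def xx (b : ℕ → ℝ) (η : ℝ) (P H v k : ℕ) : ℝ :=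
  if ∀ v' ≤ v, ∀ l ∈ blk P H v', ¬ l ∣ k then η * b k * Real.exp (-(2 * π * LL P H v * k * η)) else 0

/-- `d_v` -/
noncomputable def dd (b : ℕ → ℝ) (η : ℝ) (P H K v : ℕ) {q : ℕ} [NeZero q] (u : ZMod q) : ℂ :=
  ∑ k ∈ Icc 1 K, ((xx b η P H v k : ℝ) : ℂ) * ZMod.stdAddChar ((k : ZMod q) * u)

end Pool.Agent.MU0
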