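import Pool.Agent.MU0.Rough
import Pool.Agent.MU0.Rk4
import Pool.Agent.MU0.CMST
import Pool.Agent.MU0.Cf1
import Pool.Agent.MU0.TDefs

/-!
# The coefficients at the integers without prime factors in an interval
-/

set_option autoImplicit false

open Finset CongruenceSubgroup

namespace Pool.Agent.MU0

open Pool.Agent.MU1

namespace Rough

variable {N : ℕ} [NeZero N] {f : CuspForm (Gamma0 N) 2} {a : ℕ → ℤ}

theorem a_zero (hf : Frm f a) : a 0 = 0 := by
  have h := hf.hasse 0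
  simp only [Nat.divisors_zero, card_empty, Nat.cast_zero, zero_mul] at h
  have h1 := abs_nonpos_iff.1 h
  exact_mod_cast h1

theorem a_mul (hf : Frm f a) {m n : ℕ} (h : Nat.Coprime m n) : a (m * n) = a m * a n :=
  (af_mult (N := N) (a_zero hf) hf.one hf.hecke).map_mul_of_coprime h

/-- `a(n)^2 / n` -/
theorem mg (hf : Frm f a) : MG fun n => (a n : ℝ) ^ 2 / n where
  nonneg n := by positivity
  one := by simp [hf.one]
  mul m n h := by
    rw [a_mul hf h]
    push_cast
    rw [div_mul_div_comm]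
    ring
  pp l k hl := by
    have h := hf.hasse (l ^ k)
    rw [Nat.divisors_prime_pow hl, card_map, card_range] at h
    have hl0 : (0 : ℝ) < (l : ℝ) ^ k := by
      have : (0 : ℝ) < l := by exact_mod_cast hl.pos
      positivity
    push_cast at h ⊢
    rw [div_le_iff₀ hl0, ← sq_abs]
    calc |(a (l ^ k) : ℝ)| ^ 2 ≤ (((k : ℝ) + 1) * √((l : ℝ) ^ k)) ^ 2 := by gcongr
      _ = _ := by rw [_root_.mul_pow, Real.sq_sqrt hl0.le]

theorem hasse_l (hf : Frm f a) {l : ℕ} (hl : l.Prime) : (a l : ℝ) ^ 2 ≤ 4 * l := by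
  have h := (mg hf).pp l 1 hl
  have hl0 : (0 : ℝ) < l := by exact_mod_cast hl.pos
  simp only [pow_one, Nat.cast_one] at h
  rw [div_le_iff₀ hl0] at h
  linarith

end Rough

open Rough

open Classical in
theorem rough {N : ℕ} [NeZero N] (f : CuspForm (Gamma0 N) 2) {a : ℕ → ℤ} (hf : Frm f a) :
    ∃ C : ℝ, ∀ P Q X : ℕ, 2 ≤ P → P < Q → Q ≤ X →
      ∑ k ∈ (Icc 1 X).filter (fun k => ∀ l : ℕ, l.Prime → P < l → l ≤ Q → ¬ l ∣ k), (a k : ℝ) ^ 2 ≤
        C * X ^ 2 * (Real.log P / Real.log Q) := by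
  have hg := mg hf
  obtain ⟨C0, hC0⟩ := rankin_upper f hf.coeff
  -- upper bound over the primes
  obtain ⟨C₂, hC₂, hup⟩ := ST.rankin_up (fun n => (a n : ℝ)) |C0| (by
      intro X
      rcases Nat.eq_zero_or_pos X with rfl | hX
      · simp
      · have h := hC0 X hX
        have e : Ioc 0 X = Icc 1 X := by ext; simp [Nat.succ_le_iff]
        rw [e]
        refine h.trans ?_
        gcongr
        exact le_abs_self C0)
    (by
      intro l m hl hlm
      have := a_mul hf ((Nat.Prime.coprime_iff_not_dvd hl).2 hlm)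
      rw [this]
      push_cast
      ring) (by simp [hf.one]) (fun l hl => hasse_l hf hl)
  obtain ⟨c, hc, C, hlow⟩ := rankin_lower f hf.coeff hf.one
  obtain ⟨C₁, hC₁⟩ := prime_lower hg hc (C := C) (by
    intro X hX
    refine (hlow X hX).trans (le_of_eq (sum_congr rfl fun n _ => ?_))
    rw [div_div, sq (n : ℝ)])
  obtain ⟨C₃, hC₃, hmain⟩ := rough_main hg hC₁ (C₂ := C₂) (by
    intro X hX
    have h := hup X hX
    have e : Ioc 0 X = Icc 1 X := by ext; simp [Nat.succ_le_iff]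
    rw [e] at h
    exact h)
  refine ⟨2 * C₃ + 2 * |C0|, ?_⟩
  intro P Q X hP hPQ hQX
  have hP0 : (2 : ℝ) ≤ P := by exact_mod_cast hP
  have hX0 : (0 : ℝ) < X := by
    have : 0 < X := by omega
    exact_mod_cast this
  have hlP : 0 < Real.log P := Real.log_pos (by linarith)
  have hPQ' : (P : ℝ) < Q := by exact_mod_cast hPQ
  have hlQ : 0 < Real.log Q := Real.log_pos (by linarith)
  have hlP1 : Real.log ((P + 1 : ℕ) : ℝ) ≤ 2 * Real.log P := by
    have : 2 * Real.log P = Real.log ((P : ℝ) ^ 2) := by rw [Real.log_pow]; norm_num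
    rw [this]
    refine Real.log_le_log (by positivity) ?_
    push_cast
    nlinarith
  have hfin1 : 0 ≤ C₃ * X ^ 2 * (Real.log P / Real.log Q) := by positivity
  have hfin2 : 0 ≤ |C0| * X ^ 2 * (Real.log P / Real.log Q) := by positivity
  rcases Nat.lt_or_ge (P + 1) Q with h | h
  · have h1 := hmain (P + 1) Q X (by omega) h hQX
    calc ∑ k ∈ (Icc 1 X).filter (fun k => ∀ l : ℕ, l.Prime → P < l → l ≤ Q → ¬ l ∣ k), (a k : ℝ) ^ 2
        ≤ ∑ k ∈ (Icc 1 X).filter (Rgh (P + 1) Q), (a k : ℝ) ^ 2 := by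
          refine sum_le_sum_of_subset_of_nonneg ?_ fun _ _ _ => by positivity
          intro k hk
          rw [mem_filter] at hk ⊢
          exact ⟨hk.1, fun l hl h3 h4 => hk.2 l hl (by omega) h4⟩
      _ ≤ ∑ k ∈ (Icc 1 X).filter (Rgh (P + 1) Q), (X : ℝ) * ((a k : ℝ) ^ 2 / k) := by
          refine sum_le_sum fun k hk => ?_
          have hk1 := mem_Icc.1 (mem_filter.1 hk).1
          have hk0 : (0 : ℝ) < k := by exact_mod_cast hk1.1
          have hkX : (k : ℝ) ≤ X := by exact_mod_cast hk1.2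
          calc (a k : ℝ) ^ 2 = (k : ℝ) * ((a k : ℝ) ^ 2 / k) := by field_simp
            _ ≤ _ := by gcongr
      _ = X * ∑ k ∈ (Icc 1 X).filter (Rgh (P + 1) Q), ((a k : ℝ) ^ 2 / k) := by rw [mul_sum]
      _ ≤ X * (C₃ * X * (Real.log ((P + 1 : ℕ) : ℝ) / Real.log Q)) := by gcongr
      _ ≤ X * (C₃ * X * (2 * Real.log P / Real.log Q)) := by gcongr
      _ = 2 * (C₃ * X ^ 2 * (Real.log P / Real.log Q)) := by ring
      _ ≤ 2 * (C₃ * X ^ 2 * (Real.log P / Real.log Q)) +
            2 * (|C0| * X ^ 2 * (Real.log P / Real.log Q)) := by linarith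
      _ = _ := by ring
  · have hQ : Q = P + 1 := by omega
    have h2 : 1 ≤ 2 * (Real.log P / Real.log Q) := by
      rw [hQ, ← mul_div_assoc, le_div_iff₀ (by rw [← hQ]; exact hlQ)]
      linarith
    calc ∑ k ∈ (Icc 1 X).filter (fun k => ∀ l : ℕ, l.Prime → P < l → l ≤ Q → ¬ l ∣ k), (a k : ℝ) ^ 2
        ≤ ∑ k ∈ Icc 1 X, (a k : ℝ) ^ 2 :=
          sum_le_sum_of_subset_of_nonneg (filter_subset _ _) fun _ _ _ => by positivity
      _ ≤ C0 * X ^ 2 := hC0 X (by omega)
      _ ≤ |C0| * X ^ 2 * 1 := by rw [mul_one]; gcongr; exact le_abs_self C0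
      _ ≤ |C0| * X ^ 2 * (2 * (Real.log P / Real.log Q)) := by gcongr
      _ = 2 * (|C0| * X ^ 2 * (Real.log P / Real.log Q)) := by ring
      _ ≤ 2 * (C₃ * X ^ 2 * (Real.log P / Real.log Q)) +
            2 * (|C0| * X ^ 2 * (Real.log P / Real.log Q)) := by linarith
      _ = _ := by ring

end Pool.Agent.MU0
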