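import Pool.Agent.MU0.E4

/-!
# The fourth moment of the test function

Depletion (removing the multiples of some primes) and truncation in the fourth moment bound of `E4`.
-/

set_option autoImplicit false

open Filter Topology Complex Function MeasureTheory
open scoped Real

namespace Pool.Agent.MU0.E4

variable {a : ℕ → ℂ} {C₀ : ℝ}

theorem geom_dvd (l : ℕ) (hl : 0 < l) (n : ℕ) :
    ∑ j ∈ Finset.range l, cexp (2 * π * Complex.I * n * ((j : ℝ) / l : ℝ)) =
      if l ∣ n then (l : ℂ) else 0 := by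
  have hlC : (l : ℂ) ≠ 0 := by exact_mod_cast hl.ne'
  have hζ : IsPrimitiveRoot (cexp (2 * π * Complex.I / l)) l :=
    Complex.isPrimitiveRoot_exp l hl.ne'
  have he : ∀ j : ℕ, cexp (2 * π * Complex.I * n * ((j : ℝ) / l : ℝ)) =
      (cexp (2 * π * Complex.I / l) ^ n) ^ j := by
    intro j
    rw [← Complex.exp_nat_mul, ← Complex.exp_nat_mul]
    congr 1
    push_cast
    ring
  simp_rw [he]
  split_ifs with h
  · rw [(hζ.pow_eq_one_iff_dvd n).2 h]
    simp
  · have hne : cexp (2 * π * Complex.I / l) ^ n ≠ 1 := fun h' => h ((hζ.pow_eq_one_iff_dvd n).1 h')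
    rw [geom_sum_eq hne, ← pow_mul, mul_comm n l, pow_mul, hζ.pow_eq_one, one_pow, sub_self,
      zero_div]

theorem norm_e_real (n : ℕ) (t : ℝ) : ‖cexp (2 * π * Complex.I * n * t)‖ = 1 := by
  rw [show (2 * π * Complex.I * n * t : ℂ) = ((2 * π * n * t : ℝ) : ℂ) * Complex.I by
    push_cast; ring]
  exact Complex.norm_exp_ofReal_mul_I _

theorem Bdd.deplete (h : Bdd a C₀) {l : ℕ} (hl : 0 < l) :
    Bdd (fun n => if l ∣ n then 0 else a n) (2 * C₀) := by
  have hle : ∀ n, ‖(if l ∣ n then 0 else a n : ℂ)‖ ≤ ‖a n‖ := by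
    intro n
    split_ifs
    · rw [norm_zero]
      exact norm_nonneg _
    · exact le_rfl
  refine ⟨by simp, fun y hy => ?_, fun x y hy => ?_⟩
  · refine Summable.of_nonneg_of_le (fun n => by positivity) (fun n => ?_) (h.summ y hy)
    exact mul_le_mul_of_nonneg_right (hle n) (Real.exp_pos _).le
  · have hlR : (0 : ℝ) < l := by exact_mod_cast hl
    have hlC : (l : ℂ) ≠ 0 := by exact_mod_cast hl.ne'
    set F : ℝ → ℂ := fun t => ∑' n : ℕ, a n * (Real.exp (-(2 * π * n * y)) : ℂ) *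
      cexp (2 * π * Complex.I * n * t) with hF
    have hFb : ∀ t : ℝ, ‖F t‖ ≤ C₀ / y := fun t => h.bound t y hy
    have hs : ∀ t : ℝ, Summable fun n : ℕ => a n * (Real.exp (-(2 * π * n * y)) : ℂ) *
        cexp (2 * π * Complex.I * n * t) := by
      intro t
      refine Summable.of_norm ((h.summ y hy).congr fun n => ?_)
      rw [norm_mul, norm_mul, norm_e_real, norm_exp_real, mul_one]
    have hsum : HasSum (fun n : ℕ => ∑ j ∈ Finset.range l, a n *
        (Real.exp (-(2 * π * n * y)) : ℂ) * cexp (2 * π * Complex.I * n * (x + (j : ℝ) / l : ℝ)))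
        (∑ j ∈ Finset.range l, F (x + (j : ℝ) / l)) :=
      hasSum_sum fun j _ => (hs (x + (j : ℝ) / l)).hasSum
    have e1 : ∀ n : ℕ, ∑ j ∈ Finset.range l, a n *
        (Real.exp (-(2 * π * n * y)) : ℂ) * cexp (2 * π * Complex.I * n * (x + (j : ℝ) / l : ℝ)) =
        l * (if l ∣ n then a n * (Real.exp (-(2 * π * n * y)) : ℂ) *
          cexp (2 * π * Complex.I * n * x) else 0) := by
      intro n
      have e2 : ∀ j ∈ Finset.range l, a n *
          (Real.exp (-(2 * π * n * y)) : ℂ) * cexp (2 * π * Complex.I * n * (x + (j : ℝ) / l : ℝ)) =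
          a n * (Real.exp (-(2 * π * n * y)) : ℂ) * cexp (2 * π * Complex.I * n * x) *
            cexp (2 * π * Complex.I * n * ((j : ℝ) / l : ℝ)) := by
        intro j _
        rw [Complex.ofReal_add, mul_add, Complex.exp_add]
        ring
      rw [Finset.sum_congr rfl e2, ← Finset.mul_sum, geom_dvd l hl n]
      split_ifs
      · ring
      · ring
    simp_rw [e1] at hsum
    have h1 : HasSum (fun n : ℕ => if l ∣ n then a n * (Real.exp (-(2 * π * n * y)) : ℂ) *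
          cexp (2 * π * Complex.I * n * x) else 0)
        ((l : ℂ)⁻¹ * ∑ j ∈ Finset.range l, F (x + (j : ℝ) / l)) := by
      have := hsum.mul_left (l : ℂ)⁻¹
      refine this.congr_fun ?_ |> fun h => h
      intro n
      rw [← mul_assoc, inv_mul_cancel₀ hlC, one_mul]
    have h2 := (hs x).hasSum.sub h1
    have e3 : (fun n : ℕ => (if l ∣ n then 0 else a n : ℂ) * (Real.exp (-(2 * π * n * y)) : ℂ) *
        cexp (2 * π * Complex.I * n * x)) = fun n : ℕ => a n * (Real.exp (-(2 * π * n * y)) : ℂ) *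
        cexp (2 * π * Complex.I * n * x) - (if l ∣ n then a n * (Real.exp (-(2 * π * n * y)) : ℂ) *
          cexp (2 * π * Complex.I * n * x) else 0) := by
      funext n
      split_ifs
      · simp
      · simp
    rw [e3, h2.tsum_eq]
    have h3 : ‖(l : ℂ)⁻¹ * ∑ j ∈ Finset.range l, F (x + (j : ℝ) / l)‖ ≤ C₀ / y := by
      rw [norm_mul, norm_inv, Complex.norm_natCast]
      have h4 : ‖∑ j ∈ Finset.range l, F (x + (j : ℝ) / l)‖ ≤ l * (C₀ / y) := by
        refine (norm_sum_le _ _).trans ?_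
        refine (Finset.sum_le_sum fun (j : ℕ) _ => hFb (x + (j : ℝ) / l)).trans ?_
        rw [Finset.sum_const, Finset.card_range, nsmul_eq_mul]
      calc (l : ℝ)⁻¹ * ‖∑ j ∈ Finset.range l, F (x + (j : ℝ) / l)‖ ≤ (l : ℝ)⁻¹ * (l * (C₀ / y)) :=
            mul_le_mul_of_nonneg_left h4 (by positivity)
        _ = C₀ / y := by rw [← mul_assoc, inv_mul_cancel₀ hlR.ne', one_mul]
    have h5 := h.bound x y hy
    calc _ ≤ ‖∑' n : ℕ, a n * (Real.exp (-(2 * π * n * y)) : ℂ) *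
          cexp (2 * π * Complex.I * n * x)‖ +
          ‖(l : ℂ)⁻¹ * ∑ j ∈ Finset.range l, F (x + (j : ℝ) / l)‖ := norm_sub_le _ _
      _ ≤ C₀ / y + C₀ / y := add_le_add h5 h3
      _ = 2 * C₀ / y := by ring

open Classical in
/-- depletion at a finite set -/
theorem Bdd.depleteSet (h : Bdd a C₀) (P : Finset ℕ) (hP : ∀ l ∈ P, 0 < l) :
    Bdd (fun n => if ∃ l ∈ P, l ∣ n then 0 else a n) (2 ^ P.card * C₀) := by
  induction P using Finset.induction_on with
  | empty => simpa using h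
  | insert l s hl ih =>
    have h1 := (ih fun l' hl' => hP l' (Finset.mem_insert_of_mem hl')).deplete
      (hP l (Finset.mem_insert_self l s))
    rw [Finset.card_insert_of_notMem hl, pow_succ]
    have e : (fun n => if ∃ l' ∈ insert l s, l' ∣ n then 0 else a n) =
        fun n => if l ∣ n then 0 else (if ∃ l' ∈ s, l' ∣ n then 0 else a n) := by
      funext n
      by_cases c1 : l ∣ n
      · rw [if_pos c1, if_pos ⟨l, Finset.mem_insert_self l s, c1⟩]
      · rw [if_neg c1]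
        by_cases c2 : ∃ l' ∈ s, l' ∣ n
        · obtain ⟨l', hl', hn⟩ := c2
          rw [if_pos ⟨l', Finset.mem_insert_of_mem hl', hn⟩, if_pos ⟨l', hl', hn⟩]
        · rw [if_neg c2, if_neg]
          rintro ⟨l', hl', hn⟩
          rcases Finset.mem_insert.1 hl' with rfl | h'
          · exact c1 hn
          · exact c2 ⟨l', h', hn⟩
    rw [e]
    convert h1 using 1
    ring

theorem Bdd.coprime (h : Bdd a C₀) {m : ℕ} (hm : m ≠ 0) :
    Bdd (fun n => if Nat.Coprime n m then a n else 0) (2 ^ m.primeFactors.card * C₀) := by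
  classical
  have h1 := h.depleteSet m.primeFactors fun l hl => (Nat.prime_of_mem_primeFactors hl).pos
  convert h1 using 2 with n
  by_cases c : Nat.Coprime n m
  · rw [if_pos c, if_neg]
    rintro ⟨l, hl, hn⟩
    exact Nat.not_coprime_of_dvd_of_dvd (Nat.prime_of_mem_primeFactors hl).one_lt hn
      (Nat.dvd_of_mem_primeFactors hl) c
  · rw [if_neg c, if_pos]
    obtain ⟨l, hl, hn, hlm⟩ := Nat.Prime.not_coprime_iff_dvd.1 c
    exact ⟨l, Nat.mem_primeFactors.2 ⟨hl, hlm, hm⟩, hn⟩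

/-- the Hecke bound -/
theorem Bdd.hecke (h : Bdd a C₀) (n : ℕ) (hn : 0 < n) : ‖a n‖ ≤ Real.exp (2 * π) * C₀ * n := by
  have hn' : (0 : ℝ) < n := by exact_mod_cast hn
  have hy : (0 : ℝ) < 1 / n := by positivity
  have h1 := h.l2A hy
  have h2 : ‖a n‖ ^ 2 * Real.exp (-(4 * π * n * (1 / n))) ≤ (C₀ / (1 / n)) ^ 2 :=
    (h1.1.le_tsum n fun m _ => by positivity).trans h1.2
  have e1 : Real.exp (-(4 * π * n * (1 / n))) = (Real.exp (-(2 * π))) ^ 2 := by
    rw [← Real.exp_nat_mul]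
    congr 1
    push_cast
    field_simp
    ring
  rw [e1, ← mul_pow] at h2
  have h3 := (sq_le_sq₀ (by positivity) (by have := h.nonneg; positivity)).1 h2
  have e2 : C₀ / (1 / n) = C₀ * n := by field_simp
  rw [e2] at h3
  calc ‖a n‖ = Real.exp (2 * π) * (‖a n‖ * Real.exp (-(2 * π))) := by
        rw [mul_comm, mul_assoc, ← Real.exp_add]
        simp
    _ ≤ Real.exp (2 * π) * (C₀ * n) := mul_le_mul_of_nonneg_left h3 (Real.exp_pos _).le
    _ = _ := by ring

theorem four_add (u v : ℝ) : (u + v) ^ 4 ≤ 8 * (u ^ 4 + v ^ 4) := by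
  nlinarith [sq_nonneg (u - v), sq_nonneg (u + v), sq_nonneg (u ^ 2 - v ^ 2), sq_nonneg (u * v),
    mul_nonneg (sq_nonneg (u - v)) (sq_nonneg (u + v)), mul_nonneg (sq_nonneg (u - v)) (sq_nonneg (u - v)),
    mul_nonneg (sq_nonneg u) (sq_nonneg (u - v)), mul_nonneg (sq_nonneg v) (sq_nonneg (u - v))]

/-- the tail of the series of `G` at height `1 / M` -/
theorem Bdd.tail (h : Bdd a C₀) {M : ℝ} (hM : 1 ≤ M) {K : ℕ} (hK : M * Real.log M ≤ K) (x : ℝ) :
    ‖GG a x (1 / M) - ∑ k ∈ Finset.range (K + 1), a k / k *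
      (Real.exp (-(2 * π * k * (1 / M))) : ℂ) * cexp (2 * π * Complex.I * k * x)‖ ≤
      Real.exp (2 * π) * C₀ := by
  have hM0 : 0 < M := by linarith
  have hy : 0 < 1 / M := by positivity
  have hC := h.nonneg
  have hs : Summable fun n : ℕ => a n / n * (Real.exp (-(2 * π * n * (1 / M))) : ℂ) *
      cexp (2 * π * Complex.I * n * x) := by
    refine Summable.of_norm ((h.summB hy).congr fun n => ?_)
    rw [norm_mul, norm_e_real, mul_one, B1]
  have e1 : GG a x (1 / M) - ∑ k ∈ Finset.range (K + 1), a k / k *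
      (Real.exp (-(2 * π * k * (1 / M))) : ℂ) * cexp (2 * π * Complex.I * k * x) =
      ∑' n : ℕ, a (n + (K + 1)) / ((n + (K + 1) : ℕ) : ℂ) *
        (Real.exp (-(2 * π * ((n + (K + 1) : ℕ) : ℝ) * (1 / M))) : ℂ) *
        cexp (2 * π * Complex.I * ((n + (K + 1) : ℕ) : ℂ) * x) := by
    rw [GG, ← hs.sum_add_tsum_nat_add (K + 1), add_sub_cancel_left]
  rw [e1]
  set ρ : ℝ := Real.exp (-(2 * π / M)) with hρ
  have hρ0 : 0 < ρ := Real.exp_pos _
  have hρ1 : ρ < 1 := by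
    rw [hρ, Real.exp_lt_one_iff]
    have : 0 < 2 * π / M := by positivity
    linarith
  have hb : ∀ n : ℕ, ‖a (n + (K + 1)) / ((n + (K + 1) : ℕ) : ℂ) *
      (Real.exp (-(2 * π * ((n + (K + 1) : ℕ) : ℝ) * (1 / M))) : ℂ) *
      cexp (2 * π * Complex.I * ((n + (K + 1) : ℕ) : ℂ) * x)‖ ≤
      Real.exp (2 * π) * C₀ * ρ ^ (K + 1) * ρ ^ n := by
    intro n
    have hn : (0 : ℝ) < ((n + (K + 1) : ℕ) : ℝ) := by positivity
    have h1 := h.hecke (n + (K + 1)) (by omega)
    rw [norm_mul, norm_mul, norm_e_real, mul_one, norm_exp_real, norm_div, Complex.norm_natCast]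
    have h2 : ‖a (n + (K + 1))‖ / ((n + (K + 1) : ℕ) : ℝ) ≤ Real.exp (2 * π) * C₀ := by
      rw [div_le_iff₀ hn]
      exact h1
    have h3 : Real.exp (-(2 * π * ((n + (K + 1) : ℕ) : ℝ) * (1 / M))) = ρ ^ (K + 1) * ρ ^ n := by
      rw [← pow_add, hρ, ← Real.exp_nat_mul]
      congr 1
      push_cast
      ring
    rw [h3, mul_assoc]
    exact mul_le_mul_of_nonneg_right h2 (by positivity)
  have hg : HasSum (fun n : ℕ => Real.exp (2 * π) * C₀ * ρ ^ (K + 1) * ρ ^ n)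
      (Real.exp (2 * π) * C₀ * ρ ^ (K + 1) * (1 - ρ)⁻¹) :=
    (hasSum_geometric_of_lt_one hρ0.le hρ1).mul_left _
  refine (tsum_of_norm_bounded hg hb).trans ?_
  have h4 : ρ ^ (K + 1) * (1 - ρ)⁻¹ ≤ 1 := by
    have h5 : ρ * (1 - ρ)⁻¹ ≤ M := by
      have h6 : ρ * (1 + 2 * π / M) ≤ 1 := by
        have := Real.add_one_le_exp (2 * π / M)
        have h7 : ρ * Real.exp (2 * π / M) = 1 := by
          rw [hρ, ← Real.exp_add]
          simp
        nlinarith
      have h8 : ρ * (M + 2 * π) ≤ M := by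
        have := mul_le_mul_of_nonneg_right h6 hM0.le
        calc ρ * (M + 2 * π) = ρ * (1 + 2 * π / M) * M := by field_simp
          _ ≤ 1 * M := this
          _ = M := one_mul M
      rw [← div_eq_mul_inv, div_le_iff₀ (by linarith)]
      nlinarith [Real.pi_gt_three]
    have h9 : ρ ^ K ≤ 1 / M := by
      rw [hρ, ← Real.exp_nat_mul, one_div, ← Real.exp_log hM0, ← Real.exp_neg, Real.exp_le_exp,
        Real.exp_log hM0]
      have hl : 0 ≤ Real.log M := Real.log_nonneg hM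
      have : Real.log M ≤ (K : ℝ) * (2 * π / M) := by
        rw [← mul_div_assoc, le_div_iff₀ hM0]
        nlinarith [Real.pi_gt_three, mul_nonneg hl hM0.le]
      linarith
    calc ρ ^ (K + 1) * (1 - ρ)⁻¹ = ρ ^ K * (ρ * (1 - ρ)⁻¹) := by rw [pow_succ]; ring
      _ ≤ 1 / M * M := by
          have : 0 < 1 - ρ := by linarith
          exact mul_le_mul h9 h5 (by positivity) (by positivity)
      _ = 1 := by field_simp
  calc Real.exp (2 * π) * C₀ * ρ ^ (K + 1) * (1 - ρ)⁻¹ =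
        Real.exp (2 * π) * C₀ * (ρ ^ (K + 1) * (1 - ρ)⁻¹) := by ring
    _ ≤ Real.exp (2 * π) * C₀ * 1 := mul_le_mul_of_nonneg_left h4 (by positivity)
    _ = _ := mul_one _

/-- truncated sums at one height -/
theorem Bdd.trunc4 (h : Bdd a C₀) {M : ℝ} (hM : 1 ≤ M) {K q : ℕ} (hK : M * Real.log M ≤ K)
    (hq : M ≤ q) (x : ℝ) :
    ∑ b ∈ Finset.range q, ‖∑ k ∈ Finset.range (K + 1), a k / k *
      (Real.exp (-(2 * π * k * (1 / M))) : ℂ) * cexp (2 * π * Complex.I * k * (x + b / q : ℝ))‖ ^ 4 ≤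
      q * (600 * Real.exp (16 * π) * C₀ ^ 4 * (1 + Real.log M) ^ 2) := by
  have hM0 : 0 < M := by linarith
  have hC := h.nonneg
  have hl : 0 ≤ Real.log M := Real.log_nonneg hM
  have h1 := h.disc4 (y := 1 / M) (by positivity) (by rw [div_le_one hM0]; exact hM) (q := q)
    (by rw [mul_one_div, le_div_iff₀ hM0]; linarith) x
  rw [one_div_one_div] at h1
  have h2 : ∀ b ∈ Finset.range q, ‖∑ k ∈ Finset.range (K + 1), a k / k *
      (Real.exp (-(2 * π * k * (1 / M))) : ℂ) * cexp (2 * π * Complex.I * k * (x + b / q : ℝ))‖ ^ 4 ≤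
      8 * (‖GG a (x + b / q) (1 / M)‖ ^ 4 + (Real.exp (2 * π) * C₀) ^ 4) := by
    intro b _
    have h3 := h.tail hM hK (x + b / q)
    set S := ∑ k ∈ Finset.range (K + 1), a k / k *
      (Real.exp (-(2 * π * k * (1 / M))) : ℂ) * cexp (2 * π * Complex.I * k * (x + b / q : ℝ))
    have h4 : ‖S‖ ≤ ‖GG a (x + b / q) (1 / M)‖ + Real.exp (2 * π) * C₀ := by
      calc ‖S‖ = ‖GG a (x + b / q) (1 / M) - (GG a (x + b / q) (1 / M) - S)‖ := by
            rw [sub_sub_cancel]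
        _ ≤ ‖GG a (x + b / q) (1 / M)‖ + ‖GG a (x + b / q) (1 / M) - S‖ := norm_sub_le _ _
        _ ≤ _ := by gcongr
    exact (pow_le_pow_left₀ (norm_nonneg _) h4 4).trans (four_add _ _)
  refine (Finset.sum_le_sum h2).trans ?_
  rw [← Finset.mul_sum, Finset.sum_add_distrib, Finset.sum_const, Finset.card_range, nsmul_eq_mul]
  have h5 : (Real.exp (2 * π) * C₀) ^ 4 ≤ Real.exp (16 * π) * C₀ ^ 4 * (1 + Real.log M) ^ 2 := by
    rw [mul_pow, ← Real.exp_nat_mul]
    have h6 : Real.exp ((4 : ℕ) * (2 * π)) ≤ Real.exp (16 * π) := by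
      rw [Real.exp_le_exp]
      push_cast
      linarith [Real.pi_pos]
    have h7 : (1 : ℝ) ≤ (1 + Real.log M) ^ 2 := by nlinarith
    calc Real.exp ((4 : ℕ) * (2 * π)) * C₀ ^ 4 ≤ Real.exp (16 * π) * C₀ ^ 4 := by gcongr
      _ ≤ Real.exp (16 * π) * C₀ ^ 4 * (1 + Real.log M) ^ 2 :=
          le_mul_of_one_le_right (by positivity) h7
  calc 8 * (∑ b ∈ Finset.range q, ‖GG a (x + b / q) (1 / M)‖ ^ 4 +
        q * (Real.exp (2 * π) * C₀) ^ 4)
      ≤ 8 * (q * (72 * Real.exp (16 * π) * C₀ ^ 4 * (1 + Real.log M) ^ 2) +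
        q * (Real.exp (16 * π) * C₀ ^ 4 * (1 + Real.log M) ^ 2)) := by gcongr
    _ ≤ q * (600 * Real.exp (16 * π) * C₀ ^ 4 * (1 + Real.log M) ^ 2) := by
        have : 0 ≤ (q : ℝ) * (Real.exp (16 * π) * C₀ ^ 4 * (1 + Real.log M) ^ 2) := by positivity
        nlinarith

/-- truncated sums, the difference of two heights -/
theorem Bdd.diff4 (h : Bdd a C₀) {M M₁ : ℝ} (hM₁ : 1 ≤ M₁) (hM : M₁ ≤ M) {K q : ℕ}
    (hK : M * Real.log M ≤ K) (hq : M ≤ q) (x : ℝ) :
    ∑ b ∈ Finset.range q, ‖∑ k ∈ Finset.range (K + 1), a k / k *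
      ((Real.exp (-(2 * π * k / M)) - Real.exp (-(2 * π * k / M₁)) : ℝ) : ℂ) *
      cexp (2 * π * Complex.I * k * (x + b / q : ℝ))‖ ^ 4 ≤
      q * (9600 * Real.exp (16 * π) * C₀ ^ 4 * (1 + Real.log M) ^ 2) := by
  have hM0 : 0 < M := by linarith
  have hM10 : 0 < M₁ := by linarith
  have hC := h.nonneg
  have hl1 : 0 ≤ Real.log M₁ := Real.log_nonneg hM₁
  have hl : Real.log M₁ ≤ Real.log M := Real.log_le_log hM10 hM
  have h1 := h.trunc4 (hM₁.trans hM) hK hq x
  have hK1 : M₁ * Real.log M₁ ≤ K := (mul_le_mul hM hl hl1 hM0.le).trans hK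
  have h2 := h.trunc4 hM₁ hK1 (hM.trans hq) x
  have e : ∀ b : ℕ, ∑ k ∈ Finset.range (K + 1), a k / k *
      ((Real.exp (-(2 * π * k / M)) - Real.exp (-(2 * π * k / M₁)) : ℝ) : ℂ) *
      cexp (2 * π * Complex.I * k * (x + b / q : ℝ)) =
      (∑ k ∈ Finset.range (K + 1), a k / k *
      (Real.exp (-(2 * π * k * (1 / M))) : ℂ) * cexp (2 * π * Complex.I * k * (x + b / q : ℝ))) -
      ∑ k ∈ Finset.range (K + 1), a k / k *
      (Real.exp (-(2 * π * k * (1 / M₁))) : ℂ) * cexp (2 * π * Complex.I * k * (x + b / q : ℝ)) := by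
    intro b
    rw [← Finset.sum_sub_distrib]
    refine Finset.sum_congr rfl fun k _ => ?_
    rw [mul_one_div, mul_one_div]
    push_cast
    ring
  simp_rw [e]
  have h3 : ∀ u v : ℂ, ‖u - v‖ ^ 4 ≤ 8 * (‖u‖ ^ 4 + ‖v‖ ^ 4) := fun u v =>
    (pow_le_pow_left₀ (norm_nonneg _) (norm_sub_le u v) 4).trans (four_add _ _)
  refine (Finset.sum_le_sum fun b _ => h3 _ _).trans ?_
  rw [← Finset.mul_sum, Finset.sum_add_distrib]
  have h4 : (1 + Real.log M₁) ^ 2 ≤ (1 + Real.log M) ^ 2 := by gcongr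
  have h5 : (q : ℝ) * (600 * Real.exp (16 * π) * C₀ ^ 4 * (1 + Real.log M₁) ^ 2) ≤
      q * (600 * Real.exp (16 * π) * C₀ ^ 4 * (1 + Real.log M) ^ 2) := by gcongr
  linarith

theorem sum_zmod_val (q : ℕ) [NeZero q] (F : ℕ → ℝ) :
    ∑ b : ZMod q, F b.val = ∑ b ∈ Finset.range q, F b := by
  obtain ⟨q', rfl⟩ := Nat.exists_eq_succ_of_ne_zero (NeZero.ne q)
  exact Fin.sum_univ_eq_sum_range F (q' + 1)

/-- The fourth moment of the test function
`g(b) = ∑ a(k)/k (exp(-2πk/M) - exp(-2πk/M₁)) cos(2πkb/q)`, `k ≤ K`, `(k, m) = 1`. -/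
theorem test4 {a : ℕ → ℤ} (h : Bdd (fun n => (a n : ℂ)) C₀) {m : ℕ} (hm : m ≠ 0) {M M₁ : ℝ}
    (hM₁ : 1 ≤ M₁) (hM : M₁ ≤ M) {K q : ℕ} [NeZero q] (hK : M * Real.log M ≤ K) (hq : M ≤ q) :
    ∑ b : ZMod q, (∑ k ∈ (Finset.range (K + 1)).filter (fun k => Nat.Coprime k m),
      (a k : ℝ) / k * (Real.exp (-(2 * π * k / M)) - Real.exp (-(2 * π * k / M₁))) *
      Real.cos (2 * π * k * b.val / q)) ^ 4 ≤
      q * (9600 * Real.exp (16 * π) * (2 ^ m.primeFactors.card * C₀) ^ 4 * (1 + Real.log M) ^ 2) := by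
  have h1 := (h.coprime hm).diff4 hM₁ hM hK hq 0
  have e1 := sum_zmod_val q fun b => (∑ k ∈ (Finset.range (K + 1)).filter
      (fun k => Nat.Coprime k m),
      (a k : ℝ) / k * (Real.exp (-(2 * π * k / M)) - Real.exp (-(2 * π * k / M₁))) *
      Real.cos (2 * π * k * b / q)) ^ 4
  rw [e1]
  refine le_trans (Finset.sum_le_sum fun b _ => ?_) h1
  set S : ℂ := ∑ k ∈ Finset.range (K + 1), (if Nat.Coprime k m then (a k : ℂ) else 0) / k *
      ((Real.exp (-(2 * π * k / M)) - Real.exp (-(2 * π * k / M₁)) : ℝ) : ℂ) *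
      cexp (2 * π * Complex.I * k * (0 + b / q : ℝ)) with hS
  have e2 : S.re = ∑ k ∈ (Finset.range (K + 1)).filter (fun k => Nat.Coprime k m),
      (a k : ℝ) / k * (Real.exp (-(2 * π * k / M)) - Real.exp (-(2 * π * k / M₁))) *
      Real.cos (2 * π * k * b / q) := by
    rw [hS, Complex.re_sum, Finset.sum_filter]
    refine Finset.sum_congr rfl fun k _ => ?_
    split_ifs with hk
    · have e3 : (a k : ℂ) / k * ((Real.exp (-(2 * π * k / M)) - Real.exp (-(2 * π * k / M₁)) : ℝ) : ℂ) *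
          cexp (2 * π * Complex.I * k * (0 + b / q : ℝ)) =
          (((a k : ℝ) / k * (Real.exp (-(2 * π * k / M)) - Real.exp (-(2 * π * k / M₁))) : ℝ) : ℂ) *
          cexp (((2 * π * k * b / q : ℝ) : ℂ) * Complex.I) := by
        push_cast
        congr 2
        ring
      rw [e3, Complex.re_ofReal_mul, Complex.exp_ofReal_mul_I_re]
    · simp
  rw [← e2]
  have h2 : S.re ^ 4 = |S.re| ^ 4 := by
    rw [← abs_pow, abs_of_nonneg (by positivity)]
  rw [h2]
  exact pow_le_pow_left₀ (abs_nonneg _) (Complex.abs_re_le_norm S) 4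

end Pool.Agent.MU0.E4
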