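import Pool.Agent.MU0.Defs
import Pool.Agent.MU0.E4b

/-!
# The fourth moment of the test function for a cusp form
-/

set_option autoImplicit false

open Finset CongruenceSubgroup
open Pool.Agent.MZ Pool.Agent.MZ.Per Pool.Agent.MU1
open scoped Real

namespace Pool.Agent.MU0

/-- the `q`-expansion of a cusp form of weight two satisfies `|f(x + iy)| ≤ C₀ / y` -/
theorem lf_bdd {N : ℕ} [NeZero N] (f : CuspForm (Gamma0 N) 2) {a : ℕ → ℂ}
    (ha : ∀ n, (UpperHalfPlane.qExpansion 1 f).coeff n = a n) : ∃ C₀ : ℝ, E4.Bdd a C₀ := by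
  obtain ⟨C, hC⟩ := CuspFormClass.exists_bound f
  refine ⟨C, coeff_zero f ha, fun y hy => ?_, fun x y hy => ?_⟩
  · refine (summable_coeff f ha hy).congr fun n => ?_
    congr 2
    ring
  · have hz : 0 < ((x : ℂ) + (y : ℂ) * Complex.I).im := by simpa using hy
    have h1 := hasSum_q f ha ((x : ℂ) + (y : ℂ) * Complex.I) hz
    have h2 : ∀ n : ℕ, a n * (Real.exp (-(2 * π * n * y)) : ℂ) *
        Complex.exp (2 * π * Complex.I * n * x) =
        a n * Complex.exp (2 * π * Complex.I * n * ((x : ℂ) + (y : ℂ) * Complex.I)) := by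
      intro n
      rw [mul_assoc]
      congr 1
      rw [Complex.ofReal_exp, ← Complex.exp_add]
      congr 1
      push_cast
      linear_combination (-(2 * π * n * y) : ℂ) * Complex.I_mul_I
    simp_rw [h2]
    rw [h1.tsum_eq]
    have h3 := hC (vert x y)
    norm_num at h3
    rw [im_vert hy] at h3
    exact h3

theorem lf_cs {q : ℕ} [NeZero q] (k : ℕ) (b : ZMod q) :
    cs ((k : ZMod q) * b) = Real.cos (2 * π * k * b.val / q) := by
  have h1 : (k : ZMod q) * b = ((k * b.val : ℤ) : ZMod q) := by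
    push_cast
    rw [ZMod.natCast_zmod_val]
  unfold cs
  rw [h1, ZMod.stdAddChar_coe]
  have h2 : (2 * π * Complex.I * ((k * b.val : ℤ) : ℂ) / q : ℂ) =
      ((2 * π * k * b.val / q : ℝ) : ℂ) * Complex.I := by
    push_cast
    ring
  rw [h2, Complex.exp_ofReal_mul_I_re]

theorem lf_gq {q : ℕ} [NeZero q] (a : ℕ → ℤ) (P : Finset ℕ) (hP : ∀ l ∈ P, l.Prime) (M₀ M₁ : ℝ)
    (K : ℕ) (b : ZMod q) : gq (cf a P M₀ M₁) K b =
    ∑ k ∈ (Finset.range (K + 1)).filter (fun k => Nat.Coprime k (∏ l ∈ P, l)),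
      (a k : ℝ) / k * (Real.exp (-(2 * π * k / M₀)) - Real.exp (-(2 * π * k / M₁))) *
      Real.cos (2 * π * k * b.val / q) := by
  unfold gq
  rw [Finset.sum_filter]
  have h1 : ∀ k : ℕ, Nat.Coprime k (∏ l ∈ P, l) ↔ ∀ l ∈ P, ¬ l ∣ k := by
    intro k
    rw [Nat.coprime_prod_right_iff]
    constructor
    · intro h l hl hlk
      have := h l hl
      rw [Nat.coprime_comm, (hP l hl).coprime_iff_not_dvd] at this
      exact this hlk
    · intro h l hl
      rw [Nat.coprime_comm, (hP l hl).coprime_iff_not_dvd]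
      exact h l hl
  have h2 : Finset.range (K + 1) = insert 0 (Icc 1 K) := by
    ext k
    simp only [Finset.mem_range, Finset.mem_insert, Finset.mem_Icc]
    omega
  rw [h2, Finset.sum_insert (by simp)]
  have h3 : (if Nat.Coprime 0 (∏ l ∈ P, l) then (a 0 : ℝ) / (0 : ℕ) * (Real.exp (-(2 * π * (0 : ℕ) / M₀)) -
      Real.exp (-(2 * π * (0 : ℕ) / M₁))) * Real.cos (2 * π * (0 : ℕ) * b.val / q) else 0) = 0 := by
    simp
  rw [h3, zero_add]
  refine Finset.sum_congr rfl fun k _ => ?_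
  rw [lf_cs]
  unfold cf
  by_cases h : ∀ l ∈ P, ¬ l ∣ k
  · rw [if_pos h, if_pos ((h1 k).2 h)]
  · rw [if_neg h, if_neg (fun h' => h ((h1 k).1 h')), zero_mul]

theorem gq_four {N : ℕ} [NeZero N] (f : CuspForm (Gamma0 N) 2) {a : ℕ → ℤ}
    (hf : Frm f a) (r : ℕ) : ∃ C : ℝ, ∀ (P : Finset ℕ), P.card ≤ r →
    (∀ l ∈ P, l.Prime) → ∀ (M₀ M₁ : ℝ), 2 ≤ M₁ → M₁ ≤ M₀ → ∀ (q K : ℕ) [NeZero q],
    M₀ * (1 + Real.log M₀) ^ 2 ≤ K → 4 * K < q →
    EE q (fun b => gq (cf a P M₀ M₁) K b ^ 4) ≤ C * (Real.log M₀) ^ 2 := by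
  obtain ⟨C₀, hC₀⟩ := lf_bdd f (a := fun n => (a n : ℂ)) (fun n => by rw [hf.coeff n])
  have hC0 := hC₀.nonneg
  refine ⟨9600 * Real.exp (16 * π) * (2 ^ r * C₀) ^ 4 * 9, ?_⟩
  intro P hPr hP M₀ M₁ hM₁ hM q K _ hK hq
  have hM₀ : 2 ≤ M₀ := hM₁.trans hM
  have hlog2 : (0.69 : ℝ) ≤ Real.log M₀ :=
    (by linarith [Real.log_two_gt_d9] : (0.69 : ℝ) ≤ Real.log 2).trans
      (Real.log_le_log (by norm_num) hM₀)
  have hK1 : M₀ * Real.log M₀ ≤ K := by
    refine le_trans ?_ hK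
    have : Real.log M₀ ≤ (1 + Real.log M₀) ^ 2 := by nlinarith
    have : 0 ≤ M₀ := by linarith
    gcongr
  have hKq : (4 : ℝ) * K < q := by exact_mod_cast hq
  have hMq : M₀ ≤ q := by
    have h1 : M₀ ≤ K := by
      refine le_trans ?_ hK
      have : 1 ≤ (1 + Real.log M₀) ^ 2 := by nlinarith
      nlinarith
    have h2 : (0 : ℝ) ≤ K := Nat.cast_nonneg K
    linarith
  have hm : (∏ l ∈ P, l) ≠ 0 := Finset.prod_ne_zero_iff.2 fun l hl => (hP l hl).ne_zero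
  have h4 := E4.test4 hC₀ hm (by linarith : (1 : ℝ) ≤ M₁) hM hK1 hMq
  have hq0 : (0 : ℝ) < q := by
    have := NeZero.pos q
    exact_mod_cast this
  have hcard : (∏ l ∈ P, l).primeFactors.card ≤ r := by
    refine le_trans (Finset.card_le_card ?_) hPr
    intro l hl
    rw [Nat.mem_primeFactors] at hl
    obtain ⟨m, hm, hlm⟩ := (Prime.dvd_finsetProd_iff hl.1.prime _).1 hl.2.1
    rwa [(Nat.prime_dvd_prime_iff_eq hl.1 (hP m hm)).1 hlm]
  unfold EE
  rw [div_le_iff₀ hq0]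
  have h5 : ∑ b : ZMod q, gq (cf a P M₀ M₁) K b ^ 4 ≤
      q * (9600 * Real.exp (16 * π) * (2 ^ (∏ l ∈ P, l).primeFactors.card * C₀) ^ 4 *
        (1 + Real.log M₀) ^ 2) := by
    refine le_trans (le_of_eq ?_) h4
    refine Finset.sum_congr rfl fun b _ => ?_
    rw [lf_gq a P hP]
  refine h5.trans ?_
  have h6 : (2 : ℝ) ^ (∏ l ∈ P, l).primeFactors.card ≤ 2 ^ r :=
    pow_le_pow_right₀ (by norm_num) hcard
  have h7 : (1 + Real.log M₀) ^ 2 ≤ 9 * Real.log M₀ ^ 2 := by nlinarith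
  calc (q : ℝ) * (9600 * Real.exp (16 * π) * (2 ^ (∏ l ∈ P, l).primeFactors.card * C₀) ^ 4 *
        (1 + Real.log M₀) ^ 2)
      ≤ q * (9600 * Real.exp (16 * π) * (2 ^ r * C₀) ^ 4 * (9 * Real.log M₀ ^ 2)) := by gcongr
    _ = _ := by ring

end Pool.Agent.MU0
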