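import Pool.Agent.MU0.TDefs
import Pool.Agent.MU0.Lf
import Pool.Agent.MU74.Parseval

/-!
# The series `sr x b = ∑ x(m) e(mb/q)`
-/

set_option autoImplicit false

open Finset CongruenceSubgroup
open Pool.Agent.MZ Pool.Agent.MZ.Per Pool.Agent.MU1
open scoped Real

namespace Pool.Agent.MU0

theorem sr_norm_char {q : ℕ} [NeZero q] (b : ZMod q) : ‖(ZMod.stdAddChar b : ℂ)‖ = 1 := by
  rw [ZMod.stdAddChar_apply]
  exact Circle.norm_coe _

/-- Parseval on `ℤ/q` -/
theorem sr_parseval {q : ℕ} [NeZero q] (c : ZMod q → ℂ) :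
    ∑ b : ZMod q, ‖∑ j : ZMod q, c j * ZMod.stdAddChar (j * b)‖ ^ 2 = q * ∑ j, ‖c j‖ ^ 2 := by
  have main : ((∑ b : ZMod q, ‖∑ j : ZMod q, c j * ZMod.stdAddChar (j * b)‖ ^ 2 : ℝ) : ℂ) =
      ((q * ∑ j, ‖c j‖ ^ 2 : ℝ) : ℂ) := by
    push_cast
    have e1 : ∀ b ∈ (Finset.univ : Finset (ZMod q)),
        ((‖∑ j : ZMod q, c j * ZMod.stdAddChar (j * b)‖ : ℂ)) ^ 2 =
        ∑ j : ZMod q, ∑ k : ZMod q, c j * (starRingEnd ℂ) (c k) *
          ZMod.stdAddChar (b * (j - k)) := by
      intro b _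
      rw [← Complex.mul_conj', map_sum, Finset.sum_mul_sum]
      refine Finset.sum_congr rfl fun j _ => Finset.sum_congr rfl fun k _ => ?_
      have h1 : b * (j - k) = j * b + -(k * b) := by ring
      have h2 : (starRingEnd ℂ) (ZMod.stdAddChar (k * b) : ℂ) = ZMod.stdAddChar (-(k * b)) := by
        rw [AddChar.map_neg_eq_conj]
      rw [h1, AddChar.map_add_eq_mul, map_mul (starRingEnd ℂ), h2]
      ring
    rw [Finset.sum_congr rfl e1, Finset.sum_comm, Finset.mul_sum]
    refine Finset.sum_congr rfl fun j _ => ?_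
    rw [Finset.sum_comm]
    simp_rw [← Finset.mul_sum]
    have h3 : ∀ k : ZMod q, ∑ b : ZMod q, (ZMod.stdAddChar (b * (j - k)) : ℂ) =
        if j = k then (q : ℂ) else 0 := by
      intro k
      rw [AddChar.sum_mulShift (j - k) (ZMod.isPrimitive_stdAddChar q), ZMod.card]
      by_cases h : j = k
      · rw [if_pos h, if_pos (sub_eq_zero.2 h)]
      · rw [if_neg h, if_neg (fun h' => h (sub_eq_zero.1 h'))]
        simp
    simp_rw [h3]
    simp only [mul_ite, mul_zero, Finset.sum_ite_eq, Finset.mem_univ, if_true]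
    rw [Complex.mul_conj']
    ring
  exact_mod_cast main

theorem sr_summable {η : ℝ} (hη : 0 < η) (x : ℕ → ℝ)
    (hs : Summable fun m : ℕ => x m ^ 2 * Real.exp (π * m * η)) : Summable fun m : ℕ => |x m| := by
  have hpi := Real.pi_pos
  have h1 : Summable fun m : ℕ => Real.exp (-(π * m * η)) := by
    have h := Real.summable_exp_nat_mul_of_ge (c := -(π * η)) (by nlinarith [mul_pos hpi hη])
      (f := fun m => (m : ℝ)) (fun m => le_refl _)
    refine h.congr fun m => ?_
    congr 1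
    ring
  refine Summable.of_nonneg_of_le (fun m => abs_nonneg _) (fun m => ?_) (hs.add h1)
  have h2 : |x m| = (|x m| * Real.exp (π * m * η / 2)) * Real.exp (-(π * m * η / 2)) := by
    rw [mul_assoc, ← Real.exp_add]
    simp
  have h3 : (|x m| * Real.exp (π * m * η / 2)) ^ 2 = x m ^ 2 * Real.exp (π * m * η) := by
    rw [_root_.mul_pow, sq_abs, ← Real.exp_nat_mul]
    congr 2
    push_cast
    ring
  have h4 : Real.exp (-(π * m * η / 2)) ^ 2 = Real.exp (-(π * m * η)) := by
    rw [← Real.exp_nat_mul]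
    congr 1
    push_cast
    ring
  rw [h2]
  simp only [← h3, ← h4]
  nlinarith [sq_nonneg (|x m| * Real.exp (π * m * η / 2)),
    sq_nonneg (Real.exp (-(π * m * η / 2))),
    sq_nonneg (|x m| * Real.exp (π * m * η / 2) - Real.exp (-(π * m * η / 2)))]

theorem sr_l2 {q : ℕ} [NeZero q] {η : ℝ} (hη : 0 < η) (x : ℕ → ℝ)
    (hs : Summable fun m : ℕ => x m ^ 2 * Real.exp (π * m * η)) :
    EE q (fun b => ‖sr x b‖ ^ 2) ≤
      1 / (1 - Real.exp (-(π * q * η))) * ∑' m : ℕ, x m ^ 2 * Real.exp (π * m * η) := by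
  have hpi := Real.pi_pos
  have hq0 : q ≠ 0 := NeZero.ne q
  have hqR : (0 : ℝ) < q := by exact_mod_cast NeZero.pos q
  have hab : Summable fun m : ℕ => |x m| := sr_summable hη x hs
  have hinj : ∀ j : ZMod q, Function.Injective fun m : ℕ => j.val + q * m := by
    intro j m m' h
    have : q * m = q * m' := by simpa using h
    exact Nat.eq_of_mul_eq_mul_left (Nat.pos_of_ne_zero hq0) this
  set c : ZMod q → ℂ := fun j => ∑' m : ℕ, ((x (j.val + q * m) : ℝ) : ℂ) with hc
  have e1 : ∀ b : ZMod q, sr x b = ∑ j : ZMod q, c j * ZMod.stdAddChar (j * b) := by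
    intro b
    unfold sr
    have hsum : Summable fun m : ℕ => (x m : ℂ) * ZMod.stdAddChar ((m : ZMod q) * b) := by
      refine Summable.of_norm ?_
      refine hab.congr fun m => ?_
      rw [norm_mul, sr_norm_char, mul_one, Complex.norm_real, Real.norm_eq_abs]
    rw [Nat.sumByResidueClasses hsum q]
    refine Finset.sum_congr rfl fun j _ => ?_
    rw [hc]
    simp only
    rw [← tsum_mul_right]
    refine tsum_congr fun m => ?_
    push_cast
    rw [ZMod.natCast_zmod_val, ZMod.natCast_self, zero_mul, add_zero]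
  -- the geometric sum
  have hr0 : 0 ≤ Real.exp (-(π * q * η)) := (Real.exp_pos _).le
  have hr1 : Real.exp (-(π * q * η)) < 1 := by
    rw [Real.exp_lt_one_iff]
    have : 0 < π * q * η := by positivity
    linarith
  have hG : 0 < 1 - Real.exp (-(π * q * η)) := by linarith
  have hgeo : ∀ j : ZMod q, Summable (fun m : ℕ => Real.exp (-(π * (j.val + q * m : ℕ) * η))) ∧
      ∑' m : ℕ, Real.exp (-(π * (j.val + q * m : ℕ) * η)) ≤ 1 / (1 - Real.exp (-(π * q * η))) := by
    intro j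
    have h1 : ∀ m : ℕ, Real.exp (-(π * (j.val + q * m : ℕ) * η)) =
        Real.exp (-(π * j.val * η)) * Real.exp (-(π * q * η)) ^ m := by
      intro m
      rw [← Real.exp_nat_mul, ← Real.exp_add]
      congr 1
      push_cast
      ring
    simp_rw [h1]
    have hg := summable_geometric_of_lt_one hr0 hr1
    refine ⟨hg.mul_left _, ?_⟩
    rw [tsum_mul_left, tsum_geometric_of_lt_one hr0 hr1, _root_.one_div]
    have h2 : Real.exp (-(π * j.val * η)) ≤ 1 := by
      rw [Real.exp_le_one_iff]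
      have : 0 ≤ π * j.val * η := by positivity
      linarith
    exact mul_le_of_le_one_left (inv_nonneg.2 hG.le) h2
  have hcj : ∀ j : ZMod q, ‖c j‖ ^ 2 ≤ 1 / (1 - Real.exp (-(π * q * η))) *
      ∑' m : ℕ, x (j.val + q * m) ^ 2 * Real.exp (π * (j.val + q * m : ℕ) * η) := by
    intro j
    have hX : Summable fun m : ℕ => x (j.val + q * m) ^ 2 * Real.exp (π * (j.val + q * m : ℕ) * η) :=
      hs.comp_injective (hinj j)
    have h3 : ∀ m : ℕ, (|x (j.val + q * m)| * Real.exp (π * (j.val + q * m : ℕ) * η / 2)) ^ 2 =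
        x (j.val + q * m) ^ 2 * Real.exp (π * (j.val + q * m : ℕ) * η) := by
      intro m
      rw [_root_.mul_pow, sq_abs, ← Real.exp_nat_mul]
      congr 2
      push_cast
      ring
    have h4 : ∀ m : ℕ, Real.exp (-(π * (j.val + q * m : ℕ) * η / 2)) ^ 2 =
        Real.exp (-(π * (j.val + q * m : ℕ) * η)) := by
      intro m
      rw [← Real.exp_nat_mul]
      congr 1
      push_cast
      ring
    have hcs := E4.cs_tsum
      (u := fun m : ℕ => |x (j.val + q * m)| * Real.exp (π * (j.val + q * m : ℕ) * η / 2))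
      (v := fun m : ℕ => Real.exp (-(π * (j.val + q * m : ℕ) * η / 2)))
      (fun m => by positivity) (fun m => by positivity)
      (by simp_rw [h3]; exact hX) (by simp_rw [h4]; exact (hgeo j).1)
    simp_rw [h3, h4] at hcs
    have h5 : ∀ m : ℕ, |x (j.val + q * m)| * Real.exp (π * (j.val + q * m : ℕ) * η / 2) *
        Real.exp (-(π * (j.val + q * m : ℕ) * η / 2)) = |x (j.val + q * m)| := by
      intro m
      rw [mul_assoc, ← Real.exp_add]
      simp
    simp_rw [h5] at hcs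
    have h6 : ‖c j‖ ≤ ∑' m : ℕ, |x (j.val + q * m)| := by
      rw [hc]
      simp only
      have := norm_tsum_le_tsum_norm (f := fun m : ℕ => ((x (j.val + q * m) : ℝ) : ℂ))
        (by
          simp only [Complex.norm_real, Real.norm_eq_abs]
          exact hab.comp_injective (hinj j))
      simpa using this
    calc ‖c j‖ ^ 2 ≤ (∑' m : ℕ, |x (j.val + q * m)|) ^ 2 :=
          pow_le_pow_left₀ (norm_nonneg _) h6 2
      _ ≤ _ := hcs.2
      _ ≤ (∑' m : ℕ, x (j.val + q * m) ^ 2 * Real.exp (π * (j.val + q * m : ℕ) * η)) *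
          (1 / (1 - Real.exp (-(π * q * η)))) :=
          mul_le_mul_of_nonneg_left (hgeo j).2 (tsum_nonneg fun m => by positivity)
      _ = _ := mul_comm _ _
  have hfin : ∑ j : ZMod q, ∑' m : ℕ, x (j.val + q * m) ^ 2 *
      Real.exp (π * (j.val + q * m : ℕ) * η) = ∑' m : ℕ, x m ^ 2 * Real.exp (π * m * η) :=
    (Nat.sumByResidueClasses hs q).symm
  unfold EE
  simp_rw [e1]
  rw [sr_parseval, mul_div_assoc, mul_comm, div_mul_cancel₀ _ hqR.ne', ← hfin, Finset.mul_sum]
  exact Finset.sum_le_sum fun j _ => hcj j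

/-- `|η f| ≤ C` -/
theorem FF_bound {N : ℕ} [NeZero N] (f : CuspForm (Gamma0 N) 2) {a : ℕ → ℤ}
    (ha : ∀ n, (UpperHalfPlane.qExpansion 1 f).coeff n = a n) : ∃ C : ℝ, ∀ η : ℝ, 0 < η →
      ∀ (q : ℕ) [NeZero q] (b : ZMod q), ‖FF a η b‖ ≤ C := by
  obtain ⟨C₀, hC₀⟩ := lf_bdd f (a := fun n => (a n : ℂ)) ha
  refine ⟨C₀, fun η hη q _ b => ?_⟩
  have h := hC₀.bound ((b.val : ℝ) / q) η hη
  have h1 : FF a η b = η * ∑' n : ℕ, (a n : ℂ) * (Real.exp (-(2 * π * n * η)) : ℂ) *
      Complex.exp (2 * π * Complex.I * n * ((b.val : ℝ) / q : ℝ)) := by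
    unfold FF sr
    rw [← tsum_mul_left]
    refine tsum_congr fun n => ?_
    have h2 : (n : ZMod q) * b = ((n * b.val : ℤ) : ZMod q) := by
      push_cast
      rw [ZMod.natCast_zmod_val]
    rw [h2, ZMod.stdAddChar_coe]
    unfold xF
    push_cast
    rw [show (2 * π * Complex.I * n * ((b.val : ℂ) / q) : ℂ) =
      2 * π * Complex.I * (n * b.val) / q by ring]
    ring
  rw [h1, norm_mul, Complex.norm_real, Real.norm_of_nonneg hη.le]
  calc η * _ ≤ η * (C₀ / η) := mul_le_mul_of_nonneg_left h hη.le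
    _ = C₀ := by field_simp

/-- the second moment with exponential weights -/
theorem sq_exp {N : ℕ} [NeZero N] (f : CuspForm (Gamma0 N) 2) {a : ℕ → ℤ}
    (ha : ∀ n, (UpperHalfPlane.qExpansion 1 f).coeff n = a n) : ∃ C : ℝ, ∀ y : ℝ, 0 < y →
      Summable (fun m : ℕ => (a m : ℝ) ^ 2 * Real.exp (-(m * y))) ∧
      ∑' m : ℕ, (a m : ℝ) ^ 2 * Real.exp (-(m * y)) ≤ C / y ^ 2 := by
  obtain ⟨C₀, hC₀⟩ := lf_bdd f (a := fun n => (a n : ℂ)) ha
  have hpi := Real.pi_pos
  refine ⟨C₀ ^ 2 * (4 * π) ^ 2, fun y hy => ?_⟩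
  have hC0 := hC₀.nonneg
  set t : ℝ := y / (4 * π) with ht
  have ht0 : 0 < t := by positivity
  set d : ℕ → ℂ := fun n => (a n : ℂ) * (Real.exp (-(2 * π * n * t)) : ℂ) with hd
  have hsd : Summable fun n => ‖d n‖ := by
    refine (hC₀.summ t ht0).congr fun n => ?_
    rw [hd]
    simp only
    rw [norm_mul, Complex.norm_real, Real.norm_of_nonneg (Real.exp_pos _).le]
  have hB : ∀ x : ℝ, ‖∑' n : ℕ, d n * Complex.exp (2 * π * Complex.I * n * x / (1 : ℝ))‖ ≤
      C₀ / t := by
    intro x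
    have h := hC₀.bound x t ht0
    simpa [hd] using h
  have hbes := MU74.bessel one_pos hsd (by positivity : 0 ≤ C₀ / t) hB
  have h2 : ∀ k : ℕ, ‖d k‖ ^ 2 = (a k : ℝ) ^ 2 * Real.exp (-(k * y)) := by
    intro k
    rw [hd]
    simp only
    rw [norm_mul, Complex.norm_real, Real.norm_of_nonneg (Real.exp_pos _).le, _root_.mul_pow,
      Complex.norm_intCast, sq_abs, ← Real.exp_nat_mul]
    congr 2
    rw [ht]
    push_cast
    field_simp
    ring
  simp_rw [h2] at hbes
  have hb' : (C₀ / t) ^ 2 = C₀ ^ 2 * (4 * π) ^ 2 / y ^ 2 := by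
    rw [ht]
    field_simp
  rw [hb'] at hbes
  have hsum : Summable (fun m : ℕ => (a m : ℝ) ^ 2 * Real.exp (-(m * y))) :=
    summable_of_sum_le (fun m => by positivity) hbes
  exact ⟨hsum, hsum.tsum_le_of_sum_le hbes⟩

end Pool.Agent.MU0
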