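import Pool.Agent.MU0.Dec4
import Pool.Agent.MU0.DecI
import Pool.Agent.MU0.Sr
import Pool.Agent.MU0.RoughF

/-!
# The first-block decomposition (module DEC)
-/

set_option autoImplicit false

open Finset CongruenceSubgroup
open Pool.Agent.MU1
open scoped Real

namespace Pool.Agent.MU0

/-- The numerical facts (DecN). -/
def Dec.NumSt : Prop := ∀ N : ℕ, 1 ≤ N → ∀ w : ℝ, 0 < w → w < 1 / 3 → ∃ p₀ : ℕ, ∀ p : ℕ, p₀ ≤ p →
  p.Prime → ∀ q : ℕ, q = p ^ nn w p → ∀ η : ℝ, 1 / (√N * q) ≤ η → η ≤ (p : ℝ) ^ 200 / q →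
  ∀ P H V K : ℕ, P = p ^ 160 → H = ⌈(p : ℝ) ^ (1 / 4 : ℝ)⌉₊ → V = ⌊(p : ℝ) ^ (3 / 8 : ℝ) / 2⌋₊ →
  K = q / p ^ 150 → N < P ∧ 2 ≤ P ∧ 1 ≤ H ∧ H ≤ P ∧ 1 ≤ V ∧ (V : ℝ) ≤ (p : ℝ) ^ (2 / 5 : ℝ) ∧
    2 * (P : ℝ) ≤ LL P H V ∧ LL P H V ≤ Real.exp ((p : ℝ) ^ (1 / 8 : ℝ)) ∧ η * LL P H V ≤ 1 ∧
    η ≤ 1 / 2 ∧ Real.log P / Real.log (LL P H V) + V / (H : ℝ) ^ 2 + 1 / (H : ℝ) ^ 2 +
      Real.exp (-(π * P * K * η)) ≤ 2000 * Real.log p * (p : ℝ) ^ (-(1 / 8 : ℝ))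

theorem Dec.dec_of_num (hnum : Dec.NumSt) {N : ℕ} [NeZero N] (f : CuspForm (Gamma0 N) 2) {a : ℕ → ℤ}
    (hf : Frm f a) :
    ∃ C : ℝ, ∀ w : ℝ, 0 < w → w < 1 / 3 → ∃ p₀ : ℕ, ∀ p : ℕ, p₀ ≤ p → p.Prime →
    ∀ (q : ℕ) [NeZero q], q = p ^ nn w p → ∀ η : ℝ, 1 / (√N * q) ≤ η → η ≤ (p : ℝ) ^ 200 / q →
    ∃ (V : ℕ) (L : ℕ → ℝ) (S : ℕ → Finset ℕ) (x : ℕ → ℕ → ℝ) (e : ℕ → ℝ),
      (V : ℝ) ≤ (p : ℝ) ^ (2 / 5 : ℝ) ∧
      (∀ v < V, (p : ℝ) ^ 160 ≤ L v ∧ L v ≤ Real.exp ((p : ℝ) ^ (1 / 8 : ℝ)) ∧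
        (∀ l ∈ S v, l.Prime ∧ L v < l ∧ l ≤ 2 * L v) ∧
        (∀ k, |x v k| ≤ η * |(a k : ℝ)| * Real.exp (-(2 * π * L v * k * η))) ∧
        (∀ k : ℕ, (q : ℝ) < k * (p : ℝ) ^ 150 → x v k = 0)) ∧
      (∀ b : ZMod q, FF a η b =
        ∑ v ∈ range V, ∑ l ∈ S v, (a l : ℂ) * sr (x v) ((l : ZMod q) * b) + sr e b) ∧
      EE q (fun b => ‖sr e b‖ ^ 2) ≤ C * Real.log p * (p : ℝ) ^ (-(1 / 8 : ℝ)) := by
  classical
  obtain ⟨C₁, hC₁⟩ := rankin_upper f hf.coeff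
  obtain ⟨C₂, hC₂⟩ := rough f hf
  obtain ⟨C₀, hC₀⟩ : ∃ C₀ : ℝ, C₀ = max (max C₁ C₂) 0 := ⟨_, rfl⟩
  have hC0 : 0 ≤ C₀ := by rw [hC₀]; exact le_max_right _ _
  have hC01 : C₁ ≤ C₀ := by rw [hC₀]; exact (le_max_left _ _).trans (le_max_left _ _)
  have hC02 : C₂ ≤ C₀ := by rw [hC₀]; exact (le_max_right _ _).trans (le_max_left _ _)
  have hNpos : (0 : ℝ) < N := by exact_mod_cast Nat.pos_of_ne_zero (NeZero.ne N)
  have hsN : 0 < √(N : ℝ) := Real.sqrt_pos.2 hNpos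
  set D : ℝ := 1 - Real.exp (-(π / √(N : ℝ))) with hD
  have hDpos : 0 < D := by
    have : Real.exp (-(π / √(N : ℝ))) < 1 := by
      rw [Real.exp_lt_one_iff]
      have : 0 < π / √(N : ℝ) := by positivity
      linarith
    rw [hD]
    linarith
  have hcw := Dec.cw_nonneg
  refine ⟨1 / D * (256000 * Dec.cw * C₀ * 2000), fun w hw hw' => ?_⟩
  obtain ⟨p₀, hp₀⟩ := hnum N (Nat.pos_of_ne_zero (NeZero.ne N)) w hw hw'
  refine ⟨max p₀ 2, fun p hp hpp q _ hq η hη1 hη2 => ?_⟩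
  obtain ⟨P, hP⟩ : ∃ P : ℕ, P = p ^ 160 := ⟨_, rfl⟩
  obtain ⟨H, hH⟩ : ∃ H : ℕ, H = ⌈(p : ℝ) ^ (1 / 4 : ℝ)⌉₊ := ⟨_, rfl⟩
  obtain ⟨V, hV⟩ : ∃ V : ℕ, V = ⌊(p : ℝ) ^ (3 / 8 : ℝ) / 2⌋₊ := ⟨_, rfl⟩
  obtain ⟨K, hK⟩ : ∃ K : ℕ, K = q / p ^ 150 := ⟨_, rfl⟩
  obtain ⟨n1, n2, n3, n4, n5, n6, n7, n8, n9, n10, n11⟩ :=
    hp₀ p (le_of_max_le_left hp) hpp q hq η hη1 hη2 P H V K hP hH hV hK
  have hq0 : (0 : ℝ) < q := by exact_mod_cast Nat.pos_of_ne_zero (NeZero.ne q)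
  have hη : 0 < η := lt_of_lt_of_le (by positivity) hη1
  have hp1 : (1 : ℝ) < p := by exact_mod_cast hpp.one_lt
  have hp0 : (0 : ℝ) < p := by linarith
  -- the hypotheses on the coefficients
  set b : ℕ → ℝ := fun n => (a n : ℝ) with hb
  have hb0 : b 0 = 0 := by
    rw [hb]
    simp only [Rough.a_zero hf, Int.cast_zero]
  have h2 : ∀ X : ℕ, ∑ k ∈ Icc 1 X, b k ^ 2 ≤ C₀ * (X : ℝ) ^ 2 := by
    intro X
    rcases Nat.eq_zero_or_pos X with hX | hX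
    · subst hX
      simp
    · exact (hC₁ X hX).trans (mul_le_mul_of_nonneg_right hC01 (by positivity))
  have hrough : ∀ P Q X : ℕ, 2 ≤ P → P < Q → Q ≤ X →
      ∑ k ∈ (Icc 1 X).filter (fun k => ∀ l : ℕ, l.Prime → P < l → l ≤ Q → ¬ l ∣ k), b k ^ 2 ≤
        C₀ * X ^ 2 * (Real.log P / Real.log Q) := by
    intro P Q X h1 h3 h4
    refine (hC₂ P Q X h1 h3 h4).trans ?_
    have h5 : 0 ≤ Real.log P / Real.log Q :=
      div_nonneg (Real.log_natCast_nonneg _) (Real.log_natCast_nonneg _)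
    gcongr
  have hA : ∀ l : ℕ, l.Prime → P < l → Dec.Hk b l (b l) ∧ b l ^ 2 ≤ 4 * l := by
    intro l hl hPl
    refine ⟨fun n => ?_, Rough.hasse_l hf hl⟩
    have hlN : ¬ l ∣ N := fun h => by
      have := Nat.le_of_dvd (Nat.pos_of_ne_zero (NeZero.ne N)) h
      omega
    have h := hf.hecke l hl n
    have h' : ((a (l * n) + (if l ∣ n ∧ ¬ l ∣ N then (l : ℤ) * a (n / l) else 0) : ℤ) : ℝ) =
        ((a l * a n : ℤ) : ℝ) := by rw [h]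
    push_cast at h'
    rw [hb]
    by_cases hn : l ∣ n
    · rw [if_pos ⟨hn, hlN⟩] at h'
      rw [if_pos hn]
      exact h'
    · rw [if_neg (fun h => hn h.1)] at h'
      rw [if_neg hn]
      exact h'
  obtain ⟨hs, ht⟩ := Dec.err_tsum (K := K) hC0 hb0 h2 hrough hA n2 n3 n4 n7 hη n10 n9
  have hsum : Summable fun m => |xb b η m| := by
    refine sr_summable hη _ ?_
    obtain ⟨C₃, hC₃⟩ := sq_exp f hf.coeff
    have h3 := ((hC₃ (3 * π * η) (by positivity)).1).mul_left (η ^ 2)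
    refine h3.congr fun m => ?_
    unfold xb
    rw [mul_pow, mul_pow, ← Real.exp_nat_mul, mul_assoc, mul_assoc, mul_assoc, ← Real.exp_add]
    congr 3
    push_cast
    ring
  refine ⟨V, LL P H, blk P H, fun v k => if k ∈ Icc 1 K then xx b η P H v k else 0,
    fun m => xb b η m - Dec.yy b b η P H V K m, n6, ?_, ?_, ?_⟩
  · intro v hv
    refine ⟨?_, (Dec.LL_mono P H hv.le).trans n8, ?_, ?_, ?_⟩
    · have := Dec.le_LL P H v
      rw [hP] at this ⊢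
      push_cast at this ⊢
      exact this
    · intro l hl
      obtain ⟨h3, h4, h5⟩ := Dec.mem_blk.1 hl
      refine ⟨h3, h4, h5.trans ?_⟩
      rw [Dec.LL_succ]
      have h6 : (1 : ℝ) / H ≤ 1 := by
        have : (1 : ℝ) ≤ H := by exact_mod_cast n3
        rw [div_le_one (by linarith)]
        exact this
      have h7 := Dec.LL_nonneg P H v
      nlinarith
    · intro k
      have h3 : 0 ≤ η * |(a k : ℝ)| * Real.exp (-(2 * π * LL P H v * k * η)) := by positivity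
      dsimp only
      split_ifs with h4
      · unfold xx
        split_ifs with h5
        · rw [abs_mul, abs_mul, abs_of_pos hη, abs_of_pos (Real.exp_pos _)]
        · rw [abs_zero]
          exact h3
      · rw [abs_zero]
        exact h3
    · intro k hk
      refine if_neg fun h4 => ?_
      have h5 := (Finset.mem_Icc.1 h4).2
      rw [hK] at h5
      have h6 : k * p ^ 150 ≤ q := (Nat.le_div_iff_mul_le (pow_pos hpp.pos _)).1 h5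
      have h7 : (k : ℝ) * (p : ℝ) ^ 150 ≤ q := by exact_mod_cast h6
      linarith
  · intro u
    have h3 := Dec.dec_id (q := q) b b η P H V K hsum u
    change sr (xF a η) u = _
    rw [sr_eq_TS, xF_eq_xb]
    rw [h3]
    rw [hb]
    push_cast
    rfl
  · refine (sr_l2 hη _ hs).trans ?_
    have h3 : 1 / (1 - Real.exp (-(π * q * η))) ≤ 1 / D := by
      refine one_div_le_one_div_of_le hDpos ?_
      rw [hD]
      have h4 : Real.exp (-(π * q * η)) ≤ Real.exp (-(π / √(N : ℝ))) := by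
        rw [Real.exp_le_exp]
        have h5 : 1 / √(N : ℝ) ≤ q * η := by
          rw [div_le_iff₀ (by positivity)] at hη1
          rw [div_le_iff₀ hsN]
          linarith
        have h6 : π * (1 / √(N : ℝ)) ≤ π * (q * η) := mul_le_mul_of_nonneg_left h5 Real.pi_pos.le
        have h7 : π * (1 / √(N : ℝ)) = π / √(N : ℝ) := by ring
        linarith
      linarith
    have h4 : ∑' m : ℕ, (xb b η m - Dec.yy b b η P H V K m) ^ 2 * Real.exp (π * m * η) ≤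
        256000 * Dec.cw * C₀ * (2000 * Real.log p * (p : ℝ) ^ (-(1 / 8 : ℝ))) :=
      ht.trans (mul_le_mul_of_nonneg_left n11 (by positivity))
    have h5 : 0 ≤ ∑' m : ℕ, (xb b η m - Dec.yy b b η P H V K m) ^ 2 * Real.exp (π * m * η) :=
      tsum_nonneg fun m => by positivity
    calc 1 / (1 - Real.exp (-(π * q * η))) *
          ∑' m : ℕ, (xb b η m - Dec.yy b b η P H V K m) ^ 2 * Real.exp (π * m * η)
        ≤ 1 / D * (256000 * Dec.cw * C₀ * (2000 * Real.log p * (p : ℝ) ^ (-(1 / 8 : ℝ)))) :=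
          mul_le_mul h3 h4 h5 (by positivity)
      _ = _ := by ring

end Pool.Agent.MU0
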