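import Pool.Agent.MU0.DecN90

/-!
# The first-block decomposition: final statement
-/

set_option autoImplicit false

open Finset CongruenceSubgroup
open Pool.Agent.MU1
open scoped Real

namespace Pool.Agent.MU0

theorem dec {N : ℕ} [NeZero N] (f : CuspForm (Gamma0 N) 2) {a : ℕ → ℤ} (hf : Frm f a) :
    ∃ C : ℝ, ∀ w : ℝ, 0 < w → w < 1 / 3 → ∃ p₀ : ℕ, ∀ p : ℕ, p₀ ≤ p → p.Prime →
    ∀ (q : ℕ) [NeZero q], q = p ^ nn w p → ∀ η : ℝ, 1 / (√N * q) ≤ η → η ≤ (p : ℝ) ^ 200 / q →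
    ∃ (V : ℕ) (L : ℕ → ℝ) (S : ℕ → Finset ℕ) (x : ℕ → ℕ → ℝ) (e : ℕ → ℝ),
      (V : ℝ) ≤ (p : ℝ) ^ (2 / 5 : ℝ) ∧
      (∀ v < V, (p : ℝ) ^ 160 ≤ L v ∧ L v ≤ Real.exp ((p : ℝ) ^ (1 / 8 : ℝ)) ∧
        (∀ l ∈ S v, l.Prime ∧ L v < l ∧ l ≤ 2 * L v) ∧
        (∀ k, |x v k| ≤ η * |(a k : ℝ)| * Real.exp (-(2 * π * L v * k * η))) ∧
        (∀ k : ℕ, (q : ℝ) < k * (p : ℝ) ^ 150 → x v k = 0)) ∧
      (∀ b : ZMod q, FF a η b =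
        ∑ v ∈ range V, ∑ l ∈ S v, (a l : ℂ) * sr (x v) ((l : ZMod q) * b) + sr e b) ∧
      EE q (fun b => ‖sr e b‖ ^ 2) ≤ C * Real.log p * (p : ℝ) ^ (-(1 / 8 : ℝ)) :=
  Dec.dec_of_num Dec.dec_num_all f hf

end Pool.Agent.MU0
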