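import Pool.Agent.MU0.Defs

/-!
# Definitions for the first-block decomposition (module DEC)
-/

set_option autoImplicit false

open Finset
open scoped Real

namespace Pool.Agent.MU0.Dec

/-- The trigonometric series `∑ x(m) e(m u / q)`. -/
noncomputable def TS {q : ℕ} [NeZero q] (x : ℕ → ℝ) (u : ZMod q) : ℂ :=
  ∑' m : ℕ, ((x m : ℝ) : ℂ) * ZMod.stdAddChar ((m : ZMod q) * u)

/-- The left end of the block `v`. -/
noncomputable def LL (P H : ℕ) (v : ℕ) : ℝ := P * (1 + 1 / (H : ℝ)) ^ v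

/-- The primes in the block `v`. -/
noncomputable def blk (P H v : ℕ) : Finset ℕ :=
  (Icc 1 ⌊LL P H (v + 1)⌋₊).filter fun l => l.Prime ∧ LL P H v < l

open Classical in
/-- The coefficients of `d_v`. -/
noncomputable def xx (b : ℕ → ℝ) (η : ℝ) (P H v k : ℕ) : ℝ :=
  if ∀ v' ≤ v, ∀ l ∈ blk P H v', ¬ l ∣ k then η * b k * Real.exp (-(2 * π * LL P H v * k * η))
  else 0

/-- The function `d_v`. -/
noncomputable def dd (b : ℕ → ℝ) (η : ℝ) (P H K v : ℕ) {q : ℕ} [NeZero q] (u : ZMod q) : ℂ :=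
  ∑ k ∈ Icc 1 K, ((xx b η P H v k : ℝ) : ℂ) * ZMod.stdAddChar ((k : ZMod q) * u)

end Pool.Agent.MU0.Dec
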