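import Pool.Agent.MU0.Dec5

/-!
# The numerical facts of the first-block decomposition
-/

set_option autoImplicit false

open Finset
open scoped Real

namespace Pool.Agent.MU0.Dec

theorem num_ev : ∃ x₀ : ℝ, ∀ x : ℝ, x₀ ≤ x → 320 * Real.log x ≤ x ^ (1 / 8 : ℝ) := by
  have h := (isLittleO_log_rpow_atTop (r := 1 / 8) (by norm_num)).bound (show (0 : ℝ) < 1 / 320 by norm_num)
  obtain ⟨x₀, hx₀⟩ := Filter.eventually_atTop.1 h
  refine ⟨max x₀ 1, fun x hx => ?_⟩
  have h1 := hx₀ x ((le_max_left _ _).trans hx)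
  have hx1 : 1 ≤ x := (le_max_right _ _).trans hx
  rw [Real.norm_eq_abs, Real.norm_eq_abs, abs_of_nonneg (Real.log_nonneg hx1),
    abs_of_nonneg (Real.rpow_nonneg (by linarith) _)] at h1
  linarith

theorem dec_num_all : NumSt := by
  intro N hN w hw hw'
  obtain ⟨x₀, hx₀⟩ := num_ev
  refine ⟨⌈x₀⌉₊ + 2 * N + 100 ^ 8, fun p hp hpp q hq η hη1 hη2 P H V K hP hH hV hK => ?_⟩
  obtain ⟨x, hx⟩ : ∃ x : ℝ, x = (p : ℝ) := ⟨_, rfl⟩
  rw [← hx] at hη2 hH hV ⊢
  have hpx₀ : x₀ ≤ x := by
    rw [hx]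
    refine (Nat.le_ceil x₀).trans ?_
    exact_mod_cast (by omega : ⌈x₀⌉₊ ≤ p)
  have hpN : 2 * (N : ℝ) ≤ x := by
    rw [hx]
    exact_mod_cast (by omega : 2 * N ≤ p)
  have hx100 : (100 : ℝ) ^ 8 ≤ x := by
    rw [hx]
    exact_mod_cast (by omega : 100 ^ 8 ≤ p)
  have hlog := hx₀ x hpx₀
  have hx0 : 0 < x := lt_of_lt_of_le (by norm_num) hx100
  have hx1 : 1 ≤ x := le_trans (by norm_num) hx100
  -- the variable `t = x^(1/8)`
  obtain ⟨t, ht⟩ : ∃ t : ℝ, t = x ^ (1 / 8 : ℝ) := ⟨_, rfl⟩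
  have ht0 : 0 < t := by rw [ht]; exact Real.rpow_pos_of_pos hx0 _
  have ht8 : t ^ 8 = x := by
    rw [ht, ← Real.rpow_natCast, ← Real.rpow_mul hx0.le]
    norm_num
  have ht100 : 100 ≤ t := by
    by_contra h
    push Not at h
    have : t ^ 8 < 100 ^ 8 := pow_lt_pow_left₀ h ht0.le (by norm_num)
    linarith
  have e14 : x ^ (1 / 4 : ℝ) = t ^ 2 := by
    rw [ht, ← Real.rpow_natCast, ← Real.rpow_mul hx0.le]
    norm_num
  have e38 : x ^ (3 / 8 : ℝ) = t ^ 3 := by
    rw [ht, ← Real.rpow_natCast, ← Real.rpow_mul hx0.le]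
    norm_num
  have em : x ^ (-(1 / 8 : ℝ)) = 1 / t := by
    rw [Real.rpow_neg hx0.le, ← ht, one_div]
  have hlog1 : 1 ≤ Real.log x := by
    rw [Real.le_log_iff_exp_le hx0]
    have := Real.exp_one_lt_d9
    linarith
  rw [← ht] at hlog
  rw [e14] at hH
  rw [e38] at hV
  have hH1 : t ^ 2 ≤ H := by rw [hH]; exact Nat.le_ceil _
  have hH2 : (H : ℝ) ≤ t ^ 2 + 1 := by rw [hH]; exact (Nat.ceil_lt_add_one (by positivity)).le
  have hV1 : (V : ℝ) ≤ t ^ 3 / 2 := by rw [hV]; exact Nat.floor_le (by positivity)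
  have hV2 : t ^ 3 / 2 ≤ V + 1 := by rw [hV]; exact (Nat.lt_floor_add_one _).le
  have ht2 : 10000 ≤ t ^ 2 := by
    clear * - ht100
    nlinarith
  have ht3 : 100 * t ^ 2 ≤ t ^ 3 := by
    have h1 := mul_le_mul_of_nonneg_right ht100 (sq_nonneg t)
    have h2 : t * t ^ 2 = t ^ 3 := by ring
    rwa [h2] at h1
  have ht1 : 100 * t ≤ t ^ 2 := by
    have h1 := mul_le_mul_of_nonneg_right ht100 ht0.le
    rw [sq]
    exact h1
  have hV3 : t ^ 3 / 3 ≤ V := by linarith
  have hH0 : (0 : ℝ) < H := by linarith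
  have hP1 : (P : ℝ) = x ^ 160 := by rw [hP, hx]; push_cast; rfl
  have hPx : x ≤ P := by
    rw [hP1]
    exact le_self_pow₀ hx1 (by norm_num)
  have n1 : N < P := by
    have : (N : ℝ) < P := by
      have : (1 : ℝ) ≤ N := by exact_mod_cast hN
      linarith
    exact_mod_cast this
  have n2 : 2 ≤ P := by
    have : (2 : ℝ) ≤ P := by linarith
    exact_mod_cast this
  have n3 : 1 ≤ H := by
    have : (1 : ℝ) ≤ H := by linarith
    exact_mod_cast this
  have n4 : H ≤ P := by
    have h1 : t ^ 2 + 1 ≤ t ^ 8 := by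
      have h2 : (2 : ℝ) ≤ t ^ 6 := le_trans (by norm_num) (pow_le_pow_left₀ (by norm_num) ht100 6)
      have h3 := mul_le_mul_of_nonneg_left h2 (sq_nonneg t)
      have h4 : t ^ 2 * t ^ 6 = t ^ 8 := by rw [← pow_add]
      rw [h4] at h3
      linarith
    have : (H : ℝ) ≤ P := by
      rw [ht8] at h1
      linarith
    exact_mod_cast this
  have n5 : 1 ≤ V := by
    have : (1 : ℝ) ≤ V := by linarith
    exact_mod_cast this
  have n6 : (V : ℝ) ≤ x ^ (2 / 5 : ℝ) := by
    have h1 : x ^ (3 / 8 : ℝ) ≤ x ^ (2 / 5 : ℝ) := Real.rpow_le_rpow_of_exponent_le hx1 (by norm_num)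
    rw [e38] at h1
    have : 0 < t ^ 3 := by positivity
    linarith
  have hfac : (1 + 1 / (H : ℝ)) ^ V ≥ 1 + V * (1 / (H : ℝ)) := by
    have h0 : (-2 : ℝ) ≤ 1 / (H : ℝ) := by
      have : 0 ≤ 1 / (H : ℝ) := by positivity
      linarith
    have := one_add_mul_le_pow h0 V
    linarith
  have n7 : 2 * (P : ℝ) ≤ LL P H V := by
    unfold LL
    have h1 : 1 ≤ V * (1 / (H : ℝ)) := by
      rw [mul_one_div, one_le_div hH0]
      linarith
    have : (0 : ℝ) ≤ P := Nat.cast_nonneg _
    have h2 := mul_le_mul_of_nonneg_left (le_trans (by linarith) hfac :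
      (2 : ℝ) ≤ (1 + 1 / (H : ℝ)) ^ V) this
    linarith
  have hlogP : Real.log P = 160 * Real.log x := by
    rw [hP1, Real.log_pow]
    norm_num
  have hPpos : (0 : ℝ) < P := by linarith
  have n8 : LL P H V ≤ Real.exp t := by
    unfold LL
    have h1 : (1 + 1 / (H : ℝ)) ^ V ≤ Real.exp (V * (1 / (H : ℝ))) := by
      rw [Real.exp_nat_mul]
      refine pow_le_pow_left₀ (by positivity) ?_ V
      have := Real.add_one_le_exp (1 / (H : ℝ))
      linarith
    have h2 : (P : ℝ) = Real.exp (160 * Real.log x) := by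
      rw [← hlogP, Real.exp_log hPpos]
    have h3 : V * (1 / (H : ℝ)) ≤ t / 2 := by
      rw [mul_one_div, div_le_iff₀ hH0]
      have m1 := mul_le_mul_of_nonneg_left hH1 (by linarith : 0 ≤ t / 2)
      have m2 : t / 2 * t ^ 2 = t ^ 3 / 2 := by ring
      linarith
    calc (P : ℝ) * (1 + 1 / (H : ℝ)) ^ V ≤ P * Real.exp (V * (1 / (H : ℝ))) :=
          mul_le_mul_of_nonneg_left h1 hPpos.le
      _ = Real.exp (160 * Real.log x + V * (1 / (H : ℝ))) := by rw [Real.exp_add, ← h2]
      _ ≤ Real.exp t := by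
          rw [Real.exp_le_exp]
          linarith
  have hn : x ^ (2 / 3 : ℝ) * 2 ≤ (nn w p : ℝ) := by
    unfold nn
    push_cast
    have h1 : x ^ (1 - w) ≤ (⌈(p : ℝ) ^ (1 - w)⌉₊ : ℝ) := by rw [hx]; exact Nat.le_ceil _
    have h2 : x ^ (2 / 3 : ℝ) ≤ x ^ (1 - w) := Real.rpow_le_rpow_of_exponent_le hx1 (by linarith)
    linarith
  have hq' : (q : ℝ) = Real.exp ((nn w p : ℝ) * Real.log x) := by
    rw [hq, Real.exp_nat_mul, Real.exp_log hx0, hx]
    push_cast
    rfl
  have h23 : 200 ≤ x ^ (2 / 3 : ℝ) := by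
    have h1 : x ^ (3 / 8 : ℝ) ≤ x ^ (2 / 3 : ℝ) := Real.rpow_le_rpow_of_exponent_le hx1 (by norm_num)
    rw [e38] at h1
    linarith
  have h23' : t ≤ x ^ (2 / 3 : ℝ) := by
    rw [ht]
    exact Real.rpow_le_rpow_of_exponent_le hx1 (by norm_num)
  have hbig : x ^ 200 * Real.exp t ≤ q := by
    have h1 : x ^ 200 = Real.exp (200 * Real.log x) := by
      have := Real.exp_nat_mul (Real.log x) 200
      rw [Real.exp_log hx0] at this
      rw [← this]
      norm_num
    rw [hq', h1, ← Real.exp_add, Real.exp_le_exp]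
    have hl0 : 0 ≤ Real.log x := by linarith
    have m1 := mul_le_mul_of_nonneg_right hn hl0
    have m2 := mul_le_mul_of_nonneg_right h23 hl0
    have m3 := mul_le_mul_of_nonneg_left hlog1 (by linarith : 0 ≤ x ^ (2 / 3 : ℝ))
    linarith
  have hq0 : (0 : ℝ) < q := by rw [hq']; exact Real.exp_pos _
  have n9 : η * LL P H V ≤ 1 := by
    have h1 := LL_nonneg P H V
    calc η * LL P H V ≤ x ^ 200 / q * LL P H V := mul_le_mul_of_nonneg_right hη2 h1
      _ ≤ x ^ 200 / q * Real.exp t := mul_le_mul_of_nonneg_left n8 (by positivity)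
      _ = (x ^ 200 * Real.exp t) / q := by ring
      _ ≤ 1 := by rw [div_le_one hq0]; exact hbig
  have hsN : 0 < √(N : ℝ) := Real.sqrt_pos.2 (by exact_mod_cast hN)
  have hη : 0 < η := lt_of_lt_of_le (by positivity) hη1
  have n10 : η ≤ 1 / 2 := by
    have h1 : 4 ≤ LL P H V := by linarith
    have h2 := mul_le_mul_of_nonneg_left h1 hη.le
    linarith
  refine ⟨n1, n2, n3, n4, n5, n6, n7, ?_, n9, n10, ?_⟩
  · rw [← ht]
    exact n8
  · rw [em]
    have hLL0 : 0 < LL P H V := by linarith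
    have hlogLL : t / 6 ≤ Real.log (LL P H V) := by
      unfold LL
      rw [Real.log_mul hPpos.ne' (by positivity), Real.log_pow, hlogP]
      have h1 : 1 / ((H : ℝ) + 1) ≤ Real.log (1 + 1 / (H : ℝ)) := by
        have h2 := Real.one_sub_inv_le_log_of_pos (x := 1 + 1 / (H : ℝ)) (by positivity)
        have h3 : 1 - (1 + 1 / (H : ℝ))⁻¹ = 1 / ((H : ℝ) + 1) := by
          field_simp
          ring
        rwa [h3] at h2
      have h4 : t / 6 ≤ V * (1 / ((H : ℝ) + 1)) := by
        rw [mul_one_div, le_div_iff₀ (by positivity)]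
        have m1 := mul_le_mul_of_nonneg_left hH2 (by linarith : 0 ≤ t / 6)
        have m2 : t / 6 * (t ^ 2 + 1) = t ^ 3 / 6 + t / 6 := by ring
        have m3 : t / 6 * ((H : ℝ) + 1) = t / 6 * (H : ℝ) + t / 6 := by ring
        rw [m3]
        linarith
      have h5 : V * (1 / ((H : ℝ) + 1)) ≤ V * Real.log (1 + 1 / (H : ℝ)) :=
        mul_le_mul_of_nonneg_left h1 (Nat.cast_nonneg _)
      linarith
    have i1 : Real.log P / Real.log (LL P H V) ≤ 960 * Real.log x * (1 / t) := by
      rw [hlogP, div_le_iff₀ (by linarith)]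
      have h1 : 960 * Real.log x * (1 / t) * (t / 6) ≤
          960 * Real.log x * (1 / t) * Real.log (LL P H V) :=
        mul_le_mul_of_nonneg_left hlogLL (by positivity)
      have h2 : 960 * Real.log x * (1 / t) * (t / 6) = 160 * Real.log x := by
        field_simp
        ring
      linarith
    have hH4 : t ^ 4 ≤ (H : ℝ) ^ 2 := by
      have := pow_le_pow_left₀ (by positivity) hH1 2
      calc t ^ 4 = (t ^ 2) ^ 2 := by ring
        _ ≤ _ := this
    have i2 : V / (H : ℝ) ^ 2 ≤ 1 / t := by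
      rw [div_le_div_iff₀ (by positivity) ht0]
      have m1 := mul_le_mul_of_nonneg_right hV1 ht0.le
      have m2 : t ^ 3 / 2 * t = t ^ 4 / 2 := by ring
      have m3 : 0 ≤ t ^ 4 := by positivity
      linarith
    have i3 : 1 / (H : ℝ) ^ 2 ≤ 1 / t := by
      refine one_div_le_one_div_of_le ht0 (le_trans ?_ hH4)
      exact le_self_pow₀ (by linarith) (by norm_num)
    have i4 : Real.exp (-(π * P * K * η)) ≤ 1 / t := by
      have h1 : x ≤ P * K * η := by
        have h2 : (q : ℝ) / x ^ 150 - 1 ≤ K := by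
          rw [hK]
          have h3 : (q : ℝ) < (q / p ^ 150 : ℕ) * (p : ℝ) ^ 150 + (p : ℝ) ^ 150 := by
            have h4 := Nat.lt_div_mul_add (a := q) (b := p ^ 150) (pow_pos hpp.pos _)
            exact_mod_cast h4
          rw [← hx] at h3
          have h5 : (q : ℝ) / x ^ 150 ≤ (q / p ^ 150 : ℕ) + 1 := by
            rw [div_le_iff₀ (by positivity)]
            linarith
          linarith
        have h3 : 2 ≤ (q : ℝ) / x ^ 150 := by
          rw [le_div_iff₀ (by positivity)]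
          refine le_trans ?_ hbig
          have h4 : x ^ 150 ≤ x ^ 200 := pow_le_pow_right₀ hx1 (by norm_num)
          have h5 : 2 ≤ Real.exp t := by
            have := Real.add_one_le_exp t
            linarith
          have h6 : 0 < x ^ 150 := by positivity
          calc 2 * x ^ 150 = x ^ 150 * 2 := mul_comm _ _
            _ ≤ x ^ 200 * Real.exp t := mul_le_mul h4 h5 (by norm_num) (h6.le.trans h4)
        have h4 : (q : ℝ) / x ^ 150 / 2 ≤ K := by linarith
        have h5 : √(N : ℝ) ≤ N := by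
          rw [Real.sqrt_le_left (by positivity)]
          have : (1 : ℝ) ≤ N := by exact_mod_cast hN
          exact le_self_pow₀ this two_ne_zero
        have e160 : x ^ 160 = x ^ 10 * x ^ 150 := by rw [← pow_add]
        obtain ⟨u, hu⟩ : ∃ u : ℝ, u = x ^ 150 := ⟨_, rfl⟩
        obtain ⟨v, hv⟩ : ∃ v : ℝ, v = x ^ 10 := ⟨_, rfl⟩
        have hu0 : 0 < u := by rw [hu]; exact pow_pos hx0 _
        have hv0 : 0 < v := by rw [hv]; exact pow_pos hx0 _
        have hxv : x * x ≤ v := by
          have := pow_le_pow_right₀ hx1 (show 2 ≤ 10 by norm_num)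
          rw [hv]
          calc x * x = x ^ 2 := by ring
            _ ≤ x ^ 10 := this
        rw [← hu] at h4
        have hN0 : (0 : ℝ) < N := by exact_mod_cast hN
        have a1 : x ≤ v / (2 * N) := by
          rw [le_div_iff₀ (by linarith)]
          calc x * (2 * (N : ℝ)) ≤ x * x := mul_le_mul_of_nonneg_left hpN hx0.le
            _ ≤ v := hxv
        have a2 : v / (2 * N) ≤ v / (2 * √(N : ℝ)) :=
          div_le_div_of_nonneg_left hv0.le (by linarith) (by linarith)
        have a3 : v / (2 * √(N : ℝ)) = (v * u) * ((q : ℝ) / u / 2) * (1 / (√(N : ℝ) * q)) := by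
          field_simp
        have a4 : (v * u) * ((q : ℝ) / u / 2) * (1 / (√(N : ℝ) * q)) ≤ P * K * η := by
          rw [hP1, e160, ← hu, ← hv]
          have b1 : 0 ≤ v * u := (mul_pos hv0 hu0).le
          have b2 : 0 ≤ (q : ℝ) / u / 2 := by positivity
          have b3 : 0 ≤ 1 / (√(N : ℝ) * q) := by positivity
          exact mul_le_mul (mul_le_mul_of_nonneg_left h4 b1) hη1 b3
            (mul_nonneg b1 (b2.trans h4))
        linarith
      have h2 : x ≤ π * P * K * η := by
        have h3 := Real.pi_gt_three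
        have h4 : 1 * (P * K * η) ≤ π * (P * K * η) :=
          mul_le_mul_of_nonneg_right (by linarith) (by linarith)
        linarith
      have h3 : Real.exp (-(π * P * K * η)) ≤ Real.exp (-x) := by
        rw [Real.exp_le_exp]
        linarith
      have h4 : Real.exp (-x) ≤ 1 / x := by
        rw [Real.exp_neg, ← one_div]
        refine one_div_le_one_div_of_le hx0 ?_
        have := Real.add_one_le_exp x
        linarith
      have h5 : 1 / x ≤ 1 / t := by
        refine one_div_le_one_div_of_le ht0 ?_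
        rw [← ht8]
        exact le_self_pow₀ (by linarith) (by norm_num)
      linarith
    have ht' : 0 < 1 / t := by positivity
    have m1 := mul_le_mul_of_nonneg_right hlog1 ht'.le
    linarith

end Pool.Agent.MU0.Dec
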