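import Pool.Agent.MU1.Fin3

/-!
# Definitions for `μ(L_p) = 0` for all large `p`

`q = p ^ n` with `n` about `2 p^(1-w)`; `H` is the group of the `ζ` with `ζ^(p-1) = 1` in `ℤ/q`
and `T(b) = ∑_{ζ ∈ H} S(ζ b / q)` is `MU1.TT f p q b`.
-/

set_option autoImplicit false

open Finset CongruenceSubgroup
open scoped Real

namespace Pool.Agent.MU0

open Pool.Agent.MU1

/-- The average over `ℤ/q`. -/
noncomputable def EE (q : ℕ) [NeZero q] (F : ZMod q → ℝ) : ℝ := (∑ b : ZMod q, F b) / (q : ℝ)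

/-- The average over the units of `ℤ/q`. -/
noncomputable def EU (q : ℕ) [NeZero q] (F : (ZMod q)ˣ → ℝ) : ℝ :=
  (∑ b : (ZMod q)ˣ, F b) / (q.totient : ℝ)

/-- `cos (2πx/q)`. -/
noncomputable def cs {q : ℕ} [NeZero q] (x : ZMod q) : ℝ := (ZMod.stdAddChar x : ℂ).re

/-- The trigonometric polynomial `∑_{k ≤ K} c(k) cos (2πkb/q)`. -/
noncomputable def gq {q : ℕ} [NeZero q] (c : ℕ → ℝ) (K : ℕ) (b : ZMod q) : ℝ :=
  ∑ k ∈ Icc 1 K, c k * cs ((k : ZMod q) * b)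

/-- `u` is congruent modulo `Q` to a quotient of nonzero integers of size at most `Y`. -/
def Sm (Q : ℕ) {q : ℕ} (u : (ZMod q)ˣ) (Y : ℕ) : Prop :=
  ∃ α β : ℤ, α ≠ 0 ∧ β ≠ 0 ∧ |α| ≤ Y ∧ |β| ≤ Y ∧ (Q : ℤ) ∣ α * ((u : ZMod q).val : ℤ) - β

/-- There is no linear relation with coefficients of size at most `T`. -/
def Sep {q : ℕ} (z z' : (ZMod q)ˣ) (T : ℕ) : Prop :=
  ∀ α β : ℤ, |α| ≤ T → |β| ≤ T → (α : ZMod q) * z + (β : ZMod q) * z' = 0 → α = 0 ∧ β = 0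

/-- There is a linear relation with nonzero coefficients of size at most `W`. -/
def Tri {q : ℕ} (z₁ z₂ z₃ : (ZMod q)ˣ) (W : ℕ) : Prop :=
  ∃ a₁ a₂ a₃ : ℤ, a₁ ≠ 0 ∧ a₂ ≠ 0 ∧ a₃ ≠ 0 ∧ |a₁| ≤ W ∧ |a₂| ≤ W ∧ |a₃| ≤ W ∧
    (a₁ : ZMod q) * z₁ + (a₂ : ZMod q) * z₂ + (a₃ : ZMod q) * z₃ = 0

/-- The clusters `η B`, `η ∈ E`. The elements `x` of `B` are the quotients `β x / α x` of positive
integers of size at most `W` modulo `p^(n-1)`, they are separated by their `l`-adic valuations,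
`l ∈ P`; quotients of distinct centres `η ∈ E` have large height. -/
structure Clu (p n q K r : ℕ) (P : Finset ℕ) (B E : Finset (ZMod q)ˣ) (α β : (ZMod q)ˣ → ℤ)
    (W : ℕ) : Prop where
  one_le : 1 ≤ W
  small : (16 * K * W) ^ 16 < p ^ (n - 1)
  card_le : P.card ≤ r
  prime : ∀ l ∈ P, l.Prime ∧ l ≠ p
  root : ∀ x ∈ B, x ^ (p - 1) = 1
  pos : ∀ x ∈ B, 0 < α x ∧ 0 < β x ∧ α x ≤ W ∧ β x ≤ W
  rel : ∀ x ∈ B, ((p ^ (n - 1) : ℕ) : ℤ) ∣ α x * ((x : ZMod q).val : ℤ) - β x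
  sep : ∀ x ∈ B, ∀ y ∈ B,
    (∀ l ∈ P, padicValInt l (β x * α y) = padicValInt l (α x * β y)) → x = y
  root' : ∀ η ∈ E, η ^ (p - 1) = 1
  far : ∀ η ∈ E, ∀ η' ∈ E, η ≠ η' → ¬ Sm (p ^ (n - 1)) (η / η') ((16 * K * W) ^ 8)

/-- The function `R(b) = ∑_{η ∈ E} ∑_{x ∈ B} g(η x b)`. -/
noncomputable def RR {q : ℕ} [NeZero q] (c : ℕ → ℝ) (K : ℕ) (B E : Finset (ZMod q)ˣ)
    (b : ZMod q) : ℝ :=
  ∑ η ∈ E, ∑ x ∈ B, gq c K ((η : ZMod q) * (x : ZMod q) * b)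

/-- The coefficients of the test function: `(a(k)/k) (e^{-2πk/M₀} - e^{-2πk/M₁})` for the `k` prime
to `P`. -/
noncomputable def cf (a : ℕ → ℤ) (P : Finset ℕ) (M₀ M₁ : ℝ) (k : ℕ) : ℝ :=
  if ∀ l ∈ P, ¬ l ∣ k then
    (a k : ℝ) / k * (Real.exp (-(2 * π * k / M₀)) - Real.exp (-(2 * π * k / M₁)))
  else 0

/-- The normalised Hecke eigenform `f` (all primes) with integral coefficients and the bound of
Hasse. -/
structure Frm {N : ℕ} [NeZero N] (f : CuspForm (Gamma0 N) 2) (a : ℕ → ℤ) : Prop where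
  coeff : ∀ n, (UpperHalfPlane.qExpansion 1 f).coeff n = a n
  one : a 1 = 1
  hecke : HeckeAll N a
  hasse : ∀ n : ℕ, |(a n : ℝ)| ≤ n.divisors.card * √n

/-- `g` is the image of `f` under the Fricke involution. -/
def IsW {N : ℕ} [NeZero N] (f g : CuspForm (Gamma0 N) 2) : Prop :=
  ∀ z : UpperHalfPlane,
    f (UpperHalfPlane.ofComplex (-1 / (N * (z : ℂ)))) = N * (z : ℂ) ^ 2 * g z

/-- A cusp form with real coefficients `b(n)` and the Hecke eigenvalues `a(l)` at the primes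
`l ∤ N`, with the bound of Hasse. -/
structure Eig {N : ℕ} [NeZero N] (g : CuspForm (Gamma0 N) 2) (b : ℕ → ℝ) (a : ℕ → ℤ) : Prop where
  coeff : ∀ n, (UpperHalfPlane.qExpansion 1 g).coeff n = b n
  ne : ∃ n, b n ≠ 0
  hecke : ∀ l : ℕ, l.Prime → ¬ l ∣ N → ∀ n : ℕ,
    b (l * n) + (if l ∣ n then (l : ℝ) * b (n / l) else 0) = a l * b n
  hasse : ∀ l : ℕ, l.Prime → ¬ l ∣ N → (a l : ℝ) ^ 2 ≤ 4 * l

/-- The exponent `n`. -/
noncomputable def nn (w : ℝ) (p : ℕ) : ℕ := 2 * ⌈(p : ℝ) ^ (1 - w)⌉₊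

end Pool.Agent.MU0
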