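import Pool.Agent.MU0.TDefs

/-!
# The duality inequality
-/

set_option autoImplicit false

open Finset
open Pool.Agent.MU1
open scoped Real ComplexConjugate

namespace Pool.Agent.MU0

section

variable {q : ℕ} [NeZero q]

/-- the vector of a function -/
noncomputable def dv (u : ZMod q → ℂ) : EuclideanSpace ℂ (ZMod q) := WithLp.toLp 2 u

omit [NeZero q] in
theorem dv_apply (u : ZMod q → ℂ) (b : ZMod q) : dv u b = u b := rfl

theorem dv_norm (u : ZMod q → ℂ) : ‖dv u‖ = √(∑ b, ‖u b‖ ^ 2) := by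
  rw [EuclideanSpace.norm_eq]
  rfl

theorem dv_norm_sq (u : ZMod q → ℂ) : ‖dv u‖ ^ 2 = ∑ b, ‖u b‖ ^ 2 := by
  rw [dv_norm, Real.sq_sqrt (Finset.sum_nonneg fun _ _ => sq_nonneg _)]

theorem dv_inner (u v : ZMod q → ℂ) : inner ℂ (dv v) (dv u) = ∑ b, u b * conj (v b) := by
  rw [PiLp.inner_apply]
  refine Finset.sum_congr rfl fun b _ => ?_
  rw [dv_apply, dv_apply]
  rfl

theorem dv_cs (u v : ZMod q → ℂ) : ‖∑ b, u b * conj (v b)‖ ≤ ‖dv u‖ * ‖dv v‖ := by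
  rw [← dv_inner, mul_comm]
  exact norm_inner_le_norm _ _

omit [NeZero q] in
theorem dv_sum {ι : Type*} (s : Finset ι) (u : ι → ZMod q → ℂ) :
    dv (fun b => ∑ i ∈ s, u i b) = ∑ i ∈ s, dv (u i) := by
  ext b
  rw [dv_apply, WithLp.ofLp_sum, Finset.sum_apply]
  rfl

theorem dv_unit (u : ZMod q → ℂ) (ζ : (ZMod q)ˣ) : ‖dv (fun b => u ((ζ : ZMod q) * b))‖ = ‖dv u‖ := by
  rw [dv_norm, dv_norm]
  congr 1
  exact Fintype.sum_equiv (Units.mulLeft ζ) _ _ fun _ => rfl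

theorem sum_unit {M : Type*} [AddCommMonoid M] (u : ZMod q → M) (ζ : (ZMod q)ˣ) :
    ∑ b, u ((ζ : ZMod q) * b) = ∑ b, u b :=
  Fintype.sum_equiv (Units.mulLeft ζ) _ _ fun _ => rfl

theorem HH_mul {p : ℕ} {ζ ξ : (ZMod q)ˣ} (hζ : ζ ∈ HH p q) (hξ : ξ ∈ HH p q) : ζ * ξ ∈ HH p q := by
  simp only [HH, mem_filter, mem_univ, true_and] at *
  rw [mul_pow, hζ, hξ, one_mul]

theorem HH_inv {p : ℕ} {ζ : (ZMod q)ˣ} (hζ : ζ ∈ HH p q) : ζ⁻¹ ∈ HH p q := by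
  simp only [HH, mem_filter, mem_univ, true_and] at *
  rw [inv_pow, hζ, inv_one]

theorem HH_sum {p : ℕ} {M : Type*} [AddCommMonoid M] (u : (ZMod q)ˣ → M) {ξ : (ZMod q)ˣ}
    (hξ : ξ ∈ HH p q) : ∑ ζ ∈ HH p q, u (ζ * ξ) = ∑ ζ ∈ HH p q, u ζ := by
  refine Finset.sum_nbij' (fun ζ => ζ * ξ) (fun ζ => ζ * ξ⁻¹) ?_ ?_ ?_ ?_ ?_
  · intro ζ hζ
    exact HH_mul hζ hξ
  · intro ζ hζ
    exact HH_mul hζ (HH_inv hξ)
  · intro ζ _
    simp
  · intro ζ _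
    simp
  · intro ζ _
    rfl

/-- the sum over `H` is invariant -/
theorem HH_inva {p : ℕ} (h : ZMod q → ℂ) {ξ : (ZMod q)ˣ} (hξ : ξ ∈ HH p q) (b : ZMod q) :
    ∑ ζ ∈ HH p q, h ((ζ : ZMod q) * ((ξ : ZMod q) * b)) = ∑ ζ ∈ HH p q, h ((ζ : ZMod q) * b) := by
  have h1 := HH_sum (fun ζ => h ((ζ : ZMod q) * b)) hξ
  rw [← h1]
  refine Finset.sum_congr rfl fun ζ _ => ?_
  rw [Units.val_mul, mul_assoc]

theorem dual_units {p : ℕ} (h e : ZMod q → ℂ) (V : ℕ)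
    (S : ℕ → Finset ℕ) (lu : ℕ → (ZMod q)ˣ) (c : ℕ → ℕ → ℝ) (d : ℕ → ZMod q → ℂ)
    (hh : ∀ b, h b = ∑ v ∈ range V, ∑ l ∈ S v, (c v l : ℂ) * d v ((lu l : ZMod q) * b) + e b) :
    ‖dv (fun b => ∑ ζ ∈ HH p q, h ((ζ : ZMod q) * b))‖ ^ 2 ≤
      ((HH p q).card : ℝ) * ‖dv e‖ * ‖dv (fun b => ∑ ζ ∈ HH p q, h ((ζ : ZMod q) * b))‖ +
      ((HH p q).card : ℝ) * ∑ v ∈ range V,
        ‖dv (fun b => ∑ ζ ∈ HH p q, d v ((ζ : ZMod q) * b))‖ *
        ‖dv (fun b => ∑ l ∈ S v, (c v l : ℂ) * h ((((lu l)⁻¹ : (ZMod q)ˣ) : ZMod q) * b))‖ := by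
  set Sf : ZMod q → ℂ := fun b => ∑ ζ ∈ HH p q, h ((ζ : ZMod q) * b) with hSf
  have hSinv : ∀ ξ ∈ HH p q, ∀ b, Sf ((ξ : ZMod q) * b) = Sf b := fun ξ hξ b => HH_inva h hξ b
  -- the square
  have h1 : ((‖dv Sf‖ ^ 2 : ℝ) : ℂ) = (HH p q).card * ∑ b, h b * conj (Sf b) := by
    have h2 : ((‖dv Sf‖ ^ 2 : ℝ) : ℂ) = ∑ b, Sf b * conj (Sf b) := by
      rw [dv_norm_sq]
      push_cast
      refine Finset.sum_congr rfl fun b _ => ?_
      rw [Complex.mul_conj, Complex.normSq_eq_norm_sq]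
      push_cast
      rfl
    rw [h2]
    have h3 : ∀ b, Sf b * conj (Sf b) = ∑ ζ ∈ HH p q, h ((ζ : ZMod q) * b) * conj (Sf b) := by
      intro b
      rw [← Finset.sum_mul]
    simp_rw [h3]
    rw [Finset.sum_comm]
    have h4 : ∀ ζ ∈ HH p q, ∑ b, h ((ζ : ZMod q) * b) * conj (Sf b) = ∑ b, h b * conj (Sf b) := by
      intro ζ hζ
      rw [← sum_unit (fun b => h b * conj (Sf b)) ζ]
      refine Finset.sum_congr rfl fun b _ => ?_
      rw [hSinv ζ hζ b]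
    rw [Finset.sum_congr rfl h4, Finset.sum_const, nsmul_eq_mul]
  -- the functions `W`
  set W : ℕ → ZMod q → ℂ := fun v b => ∑ l ∈ S v, (c v l : ℂ) * Sf ((((lu l)⁻¹ : (ZMod q)ˣ) : ZMod q) * b)
    with hW
  set U : ℕ → ZMod q → ℂ := fun v b => ∑ l ∈ S v, (c v l : ℂ) * h ((((lu l)⁻¹ : (ZMod q)ˣ) : ZMod q) * b)
    with hU
  have hWinv : ∀ v, ∀ ξ ∈ HH p q, ∀ b, W v ((ξ : ZMod q) * b) = W v b := by
    intro v ξ hξ b
    simp only [hW]
    refine Finset.sum_congr rfl fun l _ => ?_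
    rw [← hSinv ξ hξ ((((lu l)⁻¹ : (ZMod q)ˣ) : ZMod q) * b)]
    congr 2
    ring
  have hWU : ∀ v b, W v b = ∑ ζ ∈ HH p q, U v ((ζ : ZMod q) * b) := by
    intro v b
    simp only [hW, hU, hSf]
    rw [Finset.sum_comm]
    refine Finset.sum_congr rfl fun l _ => ?_
    rw [Finset.mul_sum]
    refine Finset.sum_congr rfl fun ζ _ => ?_
    congr 2
    ring
  have hWn : ∀ v, ‖dv (W v)‖ ≤ (HH p q).card * ‖dv (U v)‖ := by
    intro v
    have h5 : dv (W v) = ∑ ζ ∈ HH p q, dv (fun b => U v ((ζ : ZMod q) * b)) := by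
      rw [← dv_sum]
      congr 1
      funext b
      exact hWU v b
    rw [h5]
    refine (norm_sum_le _ _).trans ?_
    rw [Finset.sum_congr rfl fun ζ _ => dv_unit (U v) ζ, Finset.sum_const, nsmul_eq_mul]
  -- the expansion
  have h6 : ∑ b, h b * conj (Sf b) = ∑ v ∈ range V, ∑ b, d v b * conj (W v b) +
      ∑ b, e b * conj (Sf b) := by
    have h7 : ∀ b, h b * conj (Sf b) = ∑ v ∈ range V, ∑ l ∈ S v,
        (c v l : ℂ) * d v ((lu l : ZMod q) * b) * conj (Sf b) + e b * conj (Sf b) := by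
      intro b
      rw [hh b, add_mul, Finset.sum_mul]
      congr 1
      refine Finset.sum_congr rfl fun v _ => ?_
      rw [Finset.sum_mul]
    simp_rw [h7]
    rw [Finset.sum_add_distrib, Finset.sum_comm]
    congr 1
    refine Finset.sum_congr rfl fun v _ => ?_
    rw [Finset.sum_comm]
    have h8 : ∀ b, d v b * conj (W v b) = ∑ l ∈ S v,
        (c v l : ℂ) * d v b * conj (Sf ((((lu l)⁻¹ : (ZMod q)ˣ) : ZMod q) * b)) := by
      intro b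
      simp only [hW]
      rw [map_sum, Finset.mul_sum]
      refine Finset.sum_congr rfl fun l _ => ?_
      rw [map_mul, Complex.conj_ofReal]
      ring
    simp_rw [h8]
    conv_rhs => rw [Finset.sum_comm]
    refine Finset.sum_congr rfl fun l _ => ?_
    rw [← sum_unit (fun b => (c v l : ℂ) * d v b * conj (Sf ((((lu l)⁻¹ : (ZMod q)ˣ) : ZMod q) * b))) (lu l)]
    refine Finset.sum_congr rfl fun b _ => ?_
    rw [← mul_assoc (((lu l)⁻¹ : (ZMod q)ˣ) : ZMod q), Units.inv_mul, one_mul]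
  have h9 : ∀ v, (HH p q).card * ‖∑ b, d v b * conj (W v b)‖ ≤
      ‖dv (fun b => ∑ ζ ∈ HH p q, d v ((ζ : ZMod q) * b))‖ * ‖dv (W v)‖ := by
    intro v
    have h10 : ((HH p q).card : ℂ) * ∑ b, d v b * conj (W v b) =
        ∑ b, (∑ ζ ∈ HH p q, d v ((ζ : ZMod q) * b)) * conj (W v b) := by
      have h11 : ∀ b, (∑ ζ ∈ HH p q, d v ((ζ : ZMod q) * b)) * conj (W v b) =
          ∑ ζ ∈ HH p q, d v ((ζ : ZMod q) * b) * conj (W v b) := fun b => by rw [Finset.sum_mul]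
      simp_rw [h11]
      rw [Finset.sum_comm]
      have h12 : ∀ ζ ∈ HH p q, ∑ b, d v ((ζ : ZMod q) * b) * conj (W v b) =
          ∑ b, d v b * conj (W v b) := by
        intro ζ hζ
        rw [← sum_unit (fun b => d v b * conj (W v b)) ζ]
        refine Finset.sum_congr rfl fun b _ => ?_
        rw [hWinv v ζ hζ b]
      rw [Finset.sum_congr rfl h12, Finset.sum_const, nsmul_eq_mul]
    have h13 := dv_cs (fun b => ∑ ζ ∈ HH p q, d v ((ζ : ZMod q) * b)) (W v)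
    rw [← h10, norm_mul, Complex.norm_natCast] at h13
    exact h13
  have h14 : ‖dv Sf‖ ^ 2 = ‖((HH p q).card : ℂ) * ∑ b, h b * conj (Sf b)‖ := by
    rw [← h1, Complex.norm_real, Real.norm_of_nonneg (sq_nonneg _)]
  rw [h14, norm_mul, Complex.norm_natCast, h6]
  have hc : (0 : ℝ) ≤ (HH p q).card := Nat.cast_nonneg _
  calc ((HH p q).card : ℝ) * ‖∑ v ∈ range V, ∑ b, d v b * conj (W v b) + ∑ b, e b * conj (Sf b)‖
      ≤ (HH p q).card * (∑ v ∈ range V, ‖∑ b, d v b * conj (W v b)‖ + ‖dv e‖ * ‖dv Sf‖) := by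
        refine mul_le_mul_of_nonneg_left ?_ hc
        refine (norm_add_le _ _).trans (add_le_add (norm_sum_le _ _) (dv_cs e Sf))
    _ = (HH p q).card * ‖dv e‖ * ‖dv Sf‖ +
        ∑ v ∈ range V, (HH p q).card * ‖∑ b, d v b * conj (W v b)‖ := by
        rw [mul_add, Finset.mul_sum]
        ring
    _ ≤ (HH p q).card * ‖dv e‖ * ‖dv Sf‖ + ∑ v ∈ range V,
        ‖dv (fun b => ∑ ζ ∈ HH p q, d v ((ζ : ZMod q) * b))‖ * ((HH p q).card * ‖dv (U v)‖) := by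
        refine add_le_add le_rfl (Finset.sum_le_sum fun v _ => ?_)
        exact (h9 v).trans (mul_le_mul_of_nonneg_left (hWn v) (norm_nonneg _))
    _ = _ := by
        congr 1
        rw [Finset.mul_sum]
        refine Finset.sum_congr rfl fun v _ => ?_
        ring

theorem dv_EE (u : ZMod q → ℂ) : √(EE q fun b => ‖u b‖ ^ 2) = ‖dv u‖ / √(q : ℝ) := by
  rw [EE, Real.sqrt_div' _ (Nat.cast_nonneg q), dv_norm]

end

theorem dual_ineq {p q : ℕ} [NeZero q] (h e : ZMod q → ℂ) (V : ℕ)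
    (S : ℕ → Finset ℕ) (c : ℕ → ℕ → ℝ) (d : ℕ → ZMod q → ℂ)
    (hS : ∀ v < V, ∀ l ∈ S v, Nat.Coprime l q)
    (hh : ∀ b, h b = ∑ v ∈ range V, ∑ l ∈ S v, (c v l : ℂ) * d v ((l : ZMod q) * b) + e b) :
    EE q (fun b => ‖∑ ζ ∈ HH p q, h ((ζ : ZMod q) * b)‖ ^ 2) ≤
      ((HH p q).card : ℝ) * √(EE q fun b => ‖e b‖ ^ 2) *
        √(EE q (fun b => ‖∑ ζ ∈ HH p q, h ((ζ : ZMod q) * b)‖ ^ 2)) +
      ((HH p q).card : ℝ) * ∑ v ∈ range V,
        √(EE q fun b => ‖∑ ζ ∈ HH p q, d v ((ζ : ZMod q) * b)‖ ^ 2) *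
        √(EE q fun b => ‖∑ l ∈ S v, (c v l : ℂ) * h ((l : ZMod q)⁻¹ * b)‖ ^ 2) := by
  classical
  set lu : ℕ → (ZMod q)ˣ := fun l => if hl : Nat.Coprime l q then ZMod.unitOfCoprime l hl else 1
    with hlu
  have hl1 : ∀ v < V, ∀ l ∈ S v, ((lu l : (ZMod q)ˣ) : ZMod q) = (l : ZMod q) := by
    intro v hv l hl
    simp only [hlu, dif_pos (hS v hv l hl)]
    rfl
  have hl2 : ∀ v < V, ∀ l ∈ S v, (((lu l)⁻¹ : (ZMod q)ˣ) : ZMod q) = (l : ZMod q)⁻¹ := by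
    intro v hv l hl
    rw [← hl1 v hv l hl, ZMod.inv_coe_unit]
  have h1 := dual_units (p := p) h e V S lu c d (by
    intro b
    rw [hh b]
    congr 1
    refine Finset.sum_congr rfl fun v hv => ?_
    refine Finset.sum_congr rfl fun l hl => ?_
    rw [hl1 v (mem_range.1 hv) l hl])
  have hq : (0 : ℝ) < q := by exact_mod_cast Nat.pos_of_ne_zero (NeZero.ne q)
  have hsq : √(q : ℝ) * √(q : ℝ) = q := Real.mul_self_sqrt hq.le
  have hs : 0 < √(q : ℝ) := Real.sqrt_pos.2 hq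
  have h2 : EE q (fun b => ‖∑ ζ ∈ HH p q, h ((ζ : ZMod q) * b)‖ ^ 2) =
      ‖dv (fun b => ∑ ζ ∈ HH p q, h ((ζ : ZMod q) * b))‖ ^ 2 / q := by
    rw [EE, dv_norm_sq]
  have h3 : ∀ v ∈ range V, ‖dv (fun b => ∑ l ∈ S v, (c v l : ℂ) * h ((((lu l)⁻¹ : (ZMod q)ˣ) : ZMod q) * b))‖ =
      ‖dv (fun b => ∑ l ∈ S v, (c v l : ℂ) * h ((l : ZMod q)⁻¹ * b))‖ := by
    intro v hv
    congr 2
    funext b
    refine Finset.sum_congr rfl fun l hl => ?_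
    rw [hl2 v (mem_range.1 hv) l hl]
  simp_rw [dv_EE]
  rw [h2, div_le_iff₀ hq]
  refine h1.trans (le_of_eq ?_)
  rw [add_mul]
  congr 1
  · field_simp
    rw [sq, hsq]
  · rw [mul_assoc, Finset.sum_mul]
    congr 1
    refine Finset.sum_congr rfl fun v hv => ?_
    rw [h3 v hv]
    field_simp
    rw [sq, hsq]

end Pool.Agent.MU0
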