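import Pool.Agent.MU0.Defs

/-!
# The Fricke involution commutes with the Hecke operators
-/

set_option autoImplicit false

open UpperHalfPlane hiding I
open Filter Topology Complex Function CongruenceSubgroup
open Matrix.SpecialLinearGroup (mapGL)
open scoped MatrixGroups Manifold Real ModularForm OnePoint ComplexConjugate

namespace Pool.Agent.MU0

open Pool.Agent.MZ Pool.Agent.MZ.Per Pool.Agent.MU1

variable {N : ℕ} [NeZero N]

namespace Du

/-- The matrix of the Fricke involution. -/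
noncomputable def W (N : ℕ) [NeZero N] : GL (Fin 2) ℝ :=
  Matrix.GeneralLinearGroup.mkOfDetNeZero !![0, -1; (N : ℝ), 0] (by
    have : (N : ℝ) ≠ 0 := by exact_mod_cast NeZero.ne N
    simpa using this)

theorem det_W : (W N).det.val = (N : ℝ) := by
  simp [W]

theorem det_W_pos : 0 < (W N).det.val := by
  rw [det_W]
  exact_mod_cast Nat.pos_of_ne_zero (NeZero.ne N)

theorem denom_W (z : ℂ) : denom (W N) z = (N : ℂ) * z := by
  simp [W, denom]

theorem num_W (z : ℂ) : num (W N) z = -1 := by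
  simp [W, num]

theorem W_smul (z : ℍ) : W N • z = ofComplex (-1 / ((N : ℂ) * z)) := by
  apply UpperHalfPlane.ext
  rw [coe_smul_of_det_pos det_W_pos, ofComplex_apply_of_im_pos (im_W (NeZero.ne N) z.im_pos),
    num_W, denom_W]

theorem slash_W (f : ℍ → ℂ) (z : ℍ) :
    (f ∣[(2 : ℤ)] W N) z = f (ofComplex (-1 / ((N : ℂ) * z))) / (N * (z : ℂ) ^ 2) := by
  have hN : (N : ℂ) ≠ 0 := by exact_mod_cast NeZero.ne N
  have hz : (z : ℂ) ≠ 0 := z.ne_zero
  rw [ModularForm.slash_apply, W_smul, denom_W, abs_of_pos det_W_pos, det_W]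
  have h1 : σ (W N) = ContinuousAlgEquiv.refl ℝ ℂ := by
    rw [σ, if_pos det_W_pos]
  rw [h1]
  simp only [ContinuousAlgEquiv.refl_apply]
  norm_num
  field_simp

/-- `W γ = γ' W` with `γ' ∈ Γ₀(N)`. -/
theorem conj_mem {x : GL (Fin 2) ℝ}
    (hx : x ∈ ((Gamma0 N : Subgroup SL(2, ℤ)) : Subgroup (GL (Fin 2) ℝ))) :
    W N * x * (W N)⁻¹ ∈ ((Gamma0 N : Subgroup SL(2, ℤ)) : Subgroup (GL (Fin 2) ℝ)) := by
  obtain ⟨γ, hγ, rfl⟩ := hx
  have hγ' := Gamma0_mem.1 hγ
  rw [ZMod.intCast_zmod_eq_zero_iff_dvd] at hγ'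
  obtain ⟨c, hc⟩ := hγ'
  have hdet : γ 0 0 * γ 1 1 - γ 0 1 * γ 1 0 = 1 := by
    have := γ.det_coe
    rwa [Matrix.det_fin_two] at this
  obtain ⟨γ', h00, h01, h10, h11⟩ := exists_sl (a := γ 1 1) (b := -c) (c := -(N * γ 0 1)) (d := γ 0 0)
    (by rw [hc] at hdet; linear_combination hdet)
  have hmem : γ' ∈ Gamma0 N := by
    rw [Gamma0_mem, h10]
    push_cast
    simp
  refine ⟨γ', hmem, ?_⟩
  rw [eq_mul_inv_iff_mul_eq]
  apply Matrix.GeneralLinearGroup.ext
  have hcr : ((γ 1 0 : ℤ) : ℝ) = N * c := by rw [hc]; push_cast; ring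
  intro i j
  fin_cases i <;> fin_cases j <;>
    simp [W, Matrix.mul_apply, Fin.sum_univ_two, h00, h01, h10, h11, hcr] <;> ring

theorem W_sq : W N * W N = Matrix.GeneralLinearGroup.scalar (Fin 2)
    (Units.mk0 (-(N : ℝ)) (neg_ne_zero.2 (by exact_mod_cast NeZero.ne N))) := by
  apply Matrix.GeneralLinearGroup.ext
  intro i j
  fin_cases i <;> fin_cases j <;> simp [W, Matrix.mul_apply, Fin.sum_univ_two]

open ConjAct Pointwise in
theorem conj_W : (toConjAct (W N)⁻¹) • ((Gamma0 N : Subgroup SL(2, ℤ)) : Subgroup (GL (Fin 2) ℝ)) =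
    ((Gamma0 N : Subgroup SL(2, ℤ)) : Subgroup (GL (Fin 2) ℝ)) := by
  ext x
  rw [map_inv, Subgroup.mem_inv_pointwise_smul_iff, toConjAct_smul]
  constructor
  · intro h
    have h1 := conj_mem h
    have h2 : W N * (W N * x * (W N)⁻¹) * (W N)⁻¹ = x := by
      have h3 : W N * (W N * x * (W N)⁻¹) * (W N)⁻¹ = (W N * W N) * x * (W N * W N)⁻¹ := by
        group
      rw [h3, mul_inv_eq_iff_eq_mul, W_sq]
      apply Matrix.GeneralLinearGroup.ext
      intro i j
      simp [Matrix.mul_apply, Fin.sum_univ_two]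
      fin_cases i <;> fin_cases j <;> simp <;> ring
    rwa [h2] at h1
  · exact conj_mem

/-- The image of `f` under the Fricke involution. -/
noncomputable def frW (f : CuspForm (Gamma0 N) 2) : CuspForm (Gamma0 N) 2 where
  toFun := ⇑f ∣[(2 : ℤ)] W N
  slash_action_eq' γ hγ :=
    (CuspForm.translate f (W N)).slash_action_eq' γ (by rw [conj_W]; exact hγ)
  holo' := (CuspForm.translate f (W N)).holo'
  zero_at_cusps' hc :=
    (CuspForm.translate f (W N)).zero_at_cusps' (by rw [conj_W]; exact hc)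

theorem frW_apply (f : CuspForm (Gamma0 N) 2) (z : ℍ) :
    frW f z = f (ofComplex (-1 / ((N : ℂ) * z))) / (N * (z : ℂ) ^ 2) := slash_W f z

theorem isW_frW (f : CuspForm (Gamma0 N) 2) : IsW f (frW f) := by
  intro z
  have hN : (N : ℂ) ≠ 0 := by exact_mod_cast NeZero.ne N
  have hz : (z : ℂ) ≠ 0 := z.ne_zero
  rw [frW_apply]
  field_simp

theorem symm_W {f g : CuspForm (Gamma0 N) 2} (h : IsW f g) : IsW g f := by
  intro z
  have hN : (N : ℂ) ≠ 0 := by exact_mod_cast NeZero.ne N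
  have hz : (z : ℂ) ≠ 0 := z.ne_zero
  have him := im_W (N := N) (NeZero.ne N) z.im_pos
  have h1 := h (ofComplex (-1 / ((N : ℂ) * z)))
  rw [ofComplex_apply_of_im_pos him] at h1 ⊢
  have h2 : (-1 / ((N : ℂ) * (((⟨-1 / ((N : ℂ) * z), him⟩ : ℍ)) : ℂ))) = (z : ℂ) := by
    show -1 / ((N : ℂ) * (-1 / ((N : ℂ) * z))) = z
    field_simp
  rw [h2, ofComplex_apply] at h1
  rw [h1]
  show g _ = N * (z : ℂ) ^ 2 * (N * (-1 / ((N : ℂ) * z)) ^ 2 * g _)
  field_simp

omit [NeZero N] in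
/-- `f (γ w)` for `γ ∈ Γ₀(N)`. -/
theorem smul_eq (f : CuspForm (Gamma0 N) 2) {γ : SL(2, ℤ)} (hγ : γ ∈ Gamma0 N) (w : ℍ) :
    f (γ • w) = ((γ 1 0 : ℂ) * w + (γ 1 1 : ℂ)) ^ 2 * f w := by
  have hf : ⇑f ∣[(2 : ℤ)] γ = ⇑f :=
    SlashInvariantForm.slash_action_eqn f (mapGL ℝ γ) (Subgroup.mem_map_of_mem _ hγ)
  have h := (ModularForm.slash_action_eq'_iff 2 f γ w).1 (congrFun hf w)
  rw [h]
  norm_cast

omit [NeZero N] in
theorem unique_coeff (g : CuspForm (Gamma0 N) 2) {c : ℕ → ℂ}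
    (h : ∀ z : ℂ, 0 < z.im → HasSum (fun n : ℕ => c n * cexp (2 * π * Complex.I * n * z))
      (g (ofComplex z))) (n : ℕ) : (qExpansion 1 g).coeff n = c n := by
  have h1 : (1 : ℝ) ∈ ((Gamma0 N : Subgroup SL(2, ℤ)) : Subgroup (GL (Fin 2) ℝ)).strictPeriods := by
    rw [strictPeriods_Gamma0]
    exact AddSubgroup.mem_zmultiples 1
  refine (ModularFormClass.qExpansion_coeff_unique one_pos h1 (f := g) (c := c) ?_ n).symm
  intro τ
  have h2 := h τ τ.im_pos
  rw [ofComplex_apply] at h2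
  convert! h2 using 2 with m
  rw [smul_eq_mul]
  congr 1
  rw [Periodic.qParam, ← Complex.exp_nat_mul]
  congr 1
  simp only [ofReal_one, div_one]
  ring

/-- From the functional identity to the relations of the coefficients. -/
theorem coeff_of_hecke (g : CuspForm (Gamma0 N) 2) {a : ℕ → ℂ}
    (ha : ∀ n, (qExpansion 1 g).coeff n = a n) {l : ℕ} (hl : 0 < l) {al : ℂ}
    (h : ∀ z : ℂ, 0 < z.im → (∑ k ∈ Finset.range l, g (ofComplex ((z + k) / l))) * (l : ℂ)⁻¹ +
      (l : ℂ) * g (ofComplex (l * z)) = al * g (ofComplex z)) (n : ℕ) :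
    a (l * n) + (if l ∣ n then (l : ℂ) * a (n / l) else 0) = al * a n := by
  have hlr : (0 : ℝ) < l := by exact_mod_cast hl
  have hlc : (l : ℂ) ≠ 0 := by exact_mod_cast hl.ne'
  have hq := hasSum_q g ha
  have hinj : Injective (fun m : ℕ => l * m) := fun m n h => Nat.eq_of_mul_eq_mul_left hl h
  have key : ∀ z : ℂ, 0 < z.im → HasSum (fun n : ℕ =>
      (a (l * n) + (if l ∣ n then (l : ℂ) * a (n / l) else 0)) * cexp (2 * π * Complex.I * n * z))
      ((al • g : CuspForm (Gamma0 N) 2) (ofComplex z)) := by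
    intro z hz
    have him : ∀ k : ℕ, 0 < ((z + k) / l).im := by
      intro k
      have : ((z + k) / l).im = z.im / l := by
        rw [Complex.div_natCast_im]
        simp
      rw [this]
      positivity
    have him2 : 0 < ((l : ℂ) * z).im := by
      simp only [mul_im, natCast_re, natCast_im, zero_mul, add_zero]
      positivity
    have h1 : HasSum (fun n : ℕ => ∑ k ∈ Finset.range l,
        a n * cexp (2 * π * Complex.I * n * ((z + k) / l)))
        (∑ k ∈ Finset.range l, g (ofComplex ((z + k) / l))) :=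
      hasSum_sum fun k _ => hq _ (him k)
    have h2 : HasSum (fun m : ℕ => (l : ℂ) * a (l * m) * cexp (2 * π * Complex.I * m * z))
        (∑ k ∈ Finset.range l, g (ofComplex ((z + k) / l))) := by
      rw [← hinj.hasSum_iff] at h1
      · convert! h1 using 2 with m
        simp only [comp_apply]
        rw [← Finset.mul_sum, sum_exp hl, if_pos (dvd_mul_right _ _), Nat.mul_div_cancel_left _ hl]
        ring
      · intro n hn
        rw [← Finset.mul_sum, sum_exp hl, if_neg, mul_zero]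
        rintro ⟨m, hm⟩
        exact hn ⟨m, hm.symm⟩
    have h3 : HasSum (fun n : ℕ => (if l ∣ n then a (n / l) else 0) *
        cexp (2 * π * Complex.I * n * z)) (g (ofComplex (l * z))) := by
      rw [← hinj.hasSum_iff]
      · convert! hq _ him2 using 2 with m
        simp only [comp_apply]
        rw [if_pos (dvd_mul_right _ _), Nat.mul_div_cancel_left _ hl]
        congr 2
        push_cast
        ring
      · intro n hn
        rw [if_neg, zero_mul]
        rintro ⟨m, hm⟩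
        exact hn ⟨m, hm.symm⟩
    have h4 := (h2.mul_right (l : ℂ)⁻¹).add (h3.mul_left (l : ℂ))
    rw [h z hz] at h4
    have h5 : (al • g : CuspForm (Gamma0 N) 2) (ofComplex z) = al * g (ofComplex z) := by
      simp
    rw [h5]
    convert! h4 using 2 with n
    split_ifs with h
    · field_simp
    · field_simp
      ring
  have key2 : ∀ z : ℂ, 0 < z.im → HasSum (fun n : ℕ =>
      (al * a n) * cexp (2 * π * Complex.I * n * z))
      ((al • g : CuspForm (Gamma0 N) 2) (ofComplex z)) := by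
    intro z hz
    have h5 : (al • g : CuspForm (Gamma0 N) 2) (ofComplex z) = al * g (ofComplex z) := by
      simp
    rw [h5]
    simpa only [mul_assoc] using (hq z hz).mul_left al
  rw [← unique_coeff _ key n, ← unique_coeff _ key2 n]

/-- The matrices of `T_l` and the Fricke involution. -/
theorem move {f g : CuspForm (Gamma0 N) 2} (h : IsW f g) {l k k' d : ℕ} (hl : 0 < l)
    (hd : 1 + N * k * k' = l * d) (z : ℍ) :
    g (ofComplex (((z : ℂ) + k) / l)) * (N * (z : ℂ) ^ 2) =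
      f (ofComplex ((-1 / ((N : ℂ) * z) + k') / l)) := by
  have hN : (N : ℂ) ≠ 0 := by exact_mod_cast NeZero.ne N
  have hlr : (0 : ℝ) < l := by exact_mod_cast hl
  have hlc : (l : ℂ) ≠ 0 := by exact_mod_cast hl.ne'
  have hz : (z : ℂ) ≠ 0 := z.ne_zero
  have hw := im_W (N := N) (NeZero.ne N) z.im_pos
  have him : ∀ (x : ℂ) (k : ℕ), 0 < x.im → 0 < ((x + k) / l).im := by
    intro x k hx
    have : ((x + k) / l).im = x.im / l := by
      rw [Complex.div_natCast_im]
      simp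
    rw [this]
    positivity
  have hV := him z k z.im_pos
  have hU := him _ k' hw
  have hzk : (z : ℂ) + k ≠ 0 := by
    intro h0
    have := z.im_pos
    have h1 : ((z : ℂ) + k).im = z.im := by simp
    rw [h0] at h1
    simp at h1
    exact absurd h1.symm z.im_pos.ne'
  obtain ⟨γ, h00, h01, h10, h11⟩ := exists_sl (a := l) (b := -k') (c := -(N * k)) (d := d)
    (by have : (1 : ℤ) + N * k * k' = l * d := by exact_mod_cast hd
        linear_combination -this)
  have hγ : γ ∈ Gamma0 N := by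
    rw [Gamma0_mem, h10]
    push_cast
    simp
  have hdc : (1 : ℂ) + N * k * k' = l * d := by exact_mod_cast hd
  set U : ℍ := ⟨_, hU⟩ with hUdef
  set V : ℍ := ⟨_, hV⟩ with hVdef
  have hUc : (U : ℂ) = (-1 / ((N : ℂ) * z) + k') / l := rfl
  have hVc : (V : ℂ) = ((z : ℂ) + k) / l := rfl
  have hden : ((γ 1 0 : ℤ) : ℂ) * U + ((γ 1 1 : ℤ) : ℂ) = ((z : ℂ) + k) / (l * z) := by
    rw [h10, h11, hUc]
    push_cast
    field_simp
    linear_combination (-(z : ℂ)) * hdc
  have hpt : γ • U = ofComplex (-1 / ((N : ℂ) * V)) := by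
    apply UpperHalfPlane.ext
    rw [coe_specialLinearGroup_apply, ofComplex_apply_of_im_pos (im_W (NeZero.ne N) V.im_pos)]
    simp only [algebraMap_int_eq, eq_intCast, ofReal_intCast]
    rw [hden, h00, h01, hUc, hVc]
    push_cast
    field_simp
    ring
  have h1 := smul_eq f hγ U
  have h2 := h V
  rw [hpt, hden, h2, hVc] at h1
  rw [ofComplex_apply_of_im_pos hV, ofComplex_apply_of_im_pos hU]
  have h3 : (z + k : ℂ) ^ 2 ≠ 0 := pow_ne_zero _ hzk
  have h4 : (N : ℂ) * (((z : ℂ) + k) / l) ^ 2 * g V * (l ^ 2 * (z : ℂ) ^ 2 / ((z : ℂ) + k) ^ 2) =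
      (((z : ℂ) + k) / (l * z)) ^ 2 * f U * (l ^ 2 * (z : ℂ) ^ 2 / ((z : ℂ) + k) ^ 2) := by
    rw [h1]
  have h5 : (N : ℂ) * (((z : ℂ) + k) / l) ^ 2 * g V * (l ^ 2 * (z : ℂ) ^ 2 / ((z : ℂ) + k) ^ 2) =
      g V * (N * (z : ℂ) ^ 2) := by
    field_simp
  have h6 : (((z : ℂ) + k) / (l * z)) ^ 2 * f U * (l ^ 2 * (z : ℂ) ^ 2 / ((z : ℂ) + k) ^ 2) =
      f U := by
    field_simp
  rw [h5, h6] at h4
  exact h4

/-- `T_l` commutes with the Fricke involution. -/
theorem hecke_W {f g : CuspForm (Gamma0 N) 2} (h : IsW f g) {l : ℕ} (hl : l.Prime)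
    (hlN : ¬ l ∣ N) {al : ℂ}
    (hf : ∀ z : ℂ, 0 < z.im → (∑ k ∈ Finset.range l, f (ofComplex ((z + k) / l))) * (l : ℂ)⁻¹ +
      (l : ℂ) * f (ofComplex (l * z)) = al * f (ofComplex z)) {z : ℂ} (hz : 0 < z.im) :
    (∑ k ∈ Finset.range l, g (ofComplex ((z + k) / l))) * (l : ℂ)⁻¹ +
      (l : ℂ) * g (ofComplex (l * z)) = al * g (ofComplex z) := by
  have : Fact l.Prime := ⟨hl⟩
  have hN : (N : ℂ) ≠ 0 := by exact_mod_cast NeZero.ne N
  have hl0 := hl.pos
  have hlr : (0 : ℝ) < l := by exact_mod_cast hl0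
  have hlc : (l : ℂ) ≠ 0 := by exact_mod_cast hl0.ne'
  set Z : ℍ := ⟨z, hz⟩ with hZ
  have hZc : (Z : ℂ) = z := rfl
  have hz0 : z ≠ 0 := Z.ne_zero
  set w : ℂ := -1 / ((N : ℂ) * z) with hw
  have hwim : 0 < w.im := im_W (N := N) (NeZero.ne N) hz
  have hfw := hf w hwim
  -- the three parts
  have h1 : ∀ j : ZMod l, j ≠ 0 → g (ofComplex ((z + j.val) / l)) * (N * z ^ 2) =
      f (ofComplex ((w + (-((N : ZMod l) * j)⁻¹).val) / l)) := by
    intro j hj
    have hNl : (N : ZMod l) ≠ 0 := by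
      rw [Ne, ZMod.natCast_eq_zero_iff]
      exact hlN
    have h2 : ((1 + N * j.val * (-((N : ZMod l) * j)⁻¹).val : ℕ) : ZMod l) = 0 := by
      push_cast
      rw [ZMod.natCast_zmod_val, ZMod.natCast_zmod_val]
      field_simp
      ring
    rw [ZMod.natCast_eq_zero_iff] at h2
    obtain ⟨d, hd⟩ := h2
    exact move h hl0 hd Z
  have h0 : g (ofComplex (z / l)) * (N * z ^ 2) = l ^ 2 * f (ofComplex (l * w)) := by
    have him : 0 < (z / l).im := by
      rw [Complex.div_natCast_im]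
      positivity
    have h2 := h ⟨z / l, him⟩
    have h3 : (-1 / ((N : ℂ) * ((⟨z / l, him⟩ : ℍ) : ℂ))) = l * w := by
      show -1 / ((N : ℂ) * (z / l)) = l * w
      rw [hw]
      field_simp
    rw [h3] at h2
    rw [h2, ofComplex_apply_of_im_pos him]
    show _ = (l : ℂ) ^ 2 * (N * (z / l) ^ 2 * _)
    field_simp
  have h3 : g (ofComplex (l * z)) * (l ^ 2 * (N * z ^ 2)) = f (ofComplex (w / l)) := by
    have him : 0 < ((l : ℂ) * z).im := by
      simp only [mul_im, natCast_re, natCast_im, zero_mul, add_zero]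
      positivity
    have h2 := h ⟨l * z, him⟩
    have h3 : (-1 / ((N : ℂ) * ((⟨l * z, him⟩ : ℍ) : ℂ))) = w / l := by
      show -1 / ((N : ℂ) * (l * z)) = w / l
      rw [hw]
      field_simp
    rw [h3] at h2
    rw [h2, ofComplex_apply_of_im_pos him]
    show _ = ((N : ℂ) * (l * z) ^ 2 * _)
    ring
  -- the sums over `ℤ/l`
  have hsum : ∀ F : ℕ → ℂ, ∑ k ∈ Finset.range l, F k = ∑ j : ZMod l, F j.val := by
    intro F
    refine Finset.sum_bij' (fun k _ => (k : ZMod l)) (fun j _ => j.val) ?_ ?_ ?_ ?_ ?_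
    · intro k _
      exact Finset.mem_univ _
    · intro j _
      exact Finset.mem_range.2 (ZMod.val_lt j)
    · intro k hk
      exact ZMod.val_cast_of_lt (Finset.mem_range.1 hk)
    · intro j _
      exact ZMod.natCast_zmod_val j
    · intro k hk
      rw [ZMod.val_cast_of_lt (Finset.mem_range.1 hk)]
  rw [hsum] at hfw
  rw [hsum]
  have hinv : Involutive (fun j : ZMod l => -((N : ZMod l) * j)⁻¹) := by
    intro j
    have hNl : (N : ZMod l) ≠ 0 := by
      rw [Ne, ZMod.natCast_eq_zero_iff]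
      exact hlN
    by_cases hj : j = 0
    · simp [hj]
    · simp only
      field_simp
  have h4 : ∑ j : ZMod l, f (ofComplex ((w + j.val) / l)) =
      ∑ j : ZMod l, f (ofComplex ((w + (-((N : ZMod l) * j)⁻¹).val) / l)) :=
    (Equiv.sum_comp hinv.toPerm (fun j : ZMod l => f (ofComplex ((w + j.val) / l)))).symm
  have h5 : (∑ j : ZMod l, g (ofComplex ((z + j.val) / l))) * (N * z ^ 2) =
      l ^ 2 * f (ofComplex (l * w)) + (∑ j : ZMod l, f (ofComplex ((w + j.val) / l)) -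
        f (ofComplex (w / l))) := by
    rw [h4, ← Finset.add_sum_erase _ _ (Finset.mem_univ (0 : ZMod l)),
      ← Finset.add_sum_erase (Finset.univ) (fun j : ZMod l =>
        f (ofComplex ((w + (-((N : ZMod l) * j)⁻¹).val) / l))) (Finset.mem_univ (0 : ZMod l)),
      add_mul, Finset.sum_mul]
    rw [Finset.sum_congr rfl (fun j hj => h1 j (Finset.ne_of_mem_erase hj))]
    simp only [ZMod.val_zero, Nat.cast_zero, add_zero, mul_zero, inv_zero, neg_zero]
    rw [h0]
    ring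
  have h6 : f (ofComplex w) = N * z ^ 2 * g (ofComplex z) := by
    have := h Z
    rw [hZc] at this
    rw [this, ofComplex_apply_of_im_pos hz]
  have hNz : (N : ℂ) * z ^ 2 ≠ 0 := mul_ne_zero hN (pow_ne_zero _ hz0)
  apply mul_right_cancel₀ hNz
  rw [h6] at hfw
  set A := ∑ j : ZMod l, g (ofComplex ((z + j.val) / l))
  set B := ∑ j : ZMod l, f (ofComplex ((w + j.val) / l))
  have h7 : (A * (l : ℂ)⁻¹ + l * g (ofComplex (l * z))) * (N * z ^ 2) =
      (A * (N * z ^ 2)) * (l : ℂ)⁻¹ + (g (ofComplex (l * z)) * (l ^ 2 * (N * z ^ 2))) * (l : ℂ)⁻¹ := by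
    field_simp
  rw [h7, h5, h3]
  have h8 : al * g (ofComplex z) * (N * z ^ 2) = al * (N * z ^ 2 * g (ofComplex z)) := by ring
  rw [h8, ← hfw]
  field_simp
  ring

theorem conj_e (n : ℕ) (z : ℂ) : conj (cexp (2 * π * Complex.I * n * z)) =
    cexp (2 * π * Complex.I * n * (-conj z)) := by
  rw [← Complex.exp_conj]
  congr 1
  simp only [map_mul, conj_I, map_natCast, map_ofNat, conj_ofReal]
  ring

theorem conj_f (f : CuspForm (Gamma0 N) 2) {a : ℕ → ℝ}
    (ha : ∀ n, (qExpansion 1 f).coeff n = a n) {z : ℂ} (hz : 0 < z.im) :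
    f (ofComplex (-conj z)) = conj (f (ofComplex z)) := by
  have hz' : 0 < (-conj z).im := by simpa using hz
  have h1 := hasSum_q f (a := fun n => ((a n : ℝ) : ℂ)) ha _ hz'
  have h2 := (Complex.hasSum_conj'.2 (hasSum_q f (a := fun n => ((a n : ℝ) : ℂ)) ha z hz))
  refine h1.unique ?_
  convert! h2 using 2 with n
  rw [map_mul, conj_e, conj_ofReal]

/-- The coefficients of the image of a form with real coefficients are real. -/
theorem real_coeff (f g : CuspForm (Gamma0 N) 2) {a : ℕ → ℝ}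
    (ha : ∀ n, (qExpansion 1 f).coeff n = a n) (hW : IsW f g) :
    ∃ b : ℕ → ℝ, ∀ n, (qExpansion 1 g).coeff n = b n := by
  have hN : (N : ℂ) ≠ 0 := by exact_mod_cast NeZero.ne N
  have hg : ∀ z : ℂ, 0 < z.im → g (ofComplex (-conj z)) = conj (g (ofComplex z)) := by
    intro z hz
    have hz' : 0 < (-conj z).im := by simpa using hz
    have hz0 : z ≠ 0 := by
      rintro rfl
      simp at hz
    have h1 := hW ⟨z, hz⟩
    have h2 := hW ⟨-conj z, hz'⟩
    have h3 : (-1 / ((N : ℂ) * ((⟨-conj z, hz'⟩ : ℍ) : ℂ))) =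
        -conj (-1 / ((N : ℂ) * ((⟨z, hz⟩ : ℍ) : ℂ))) := by
      show -1 / ((N : ℂ) * (-conj z)) = -conj (-1 / ((N : ℂ) * z))
      simp only [map_div₀, map_mul, map_neg, map_one, map_natCast]
      rw [mul_neg, div_neg]
    rw [h3, conj_f f ha (im_W (NeZero.ne N) hz), h1] at h2
    rw [ofComplex_apply_of_im_pos hz, ofComplex_apply_of_im_pos hz']
    have h4 : conj ((N : ℂ) * z ^ 2 * g ⟨z, hz⟩) = N * (-conj z) ^ 2 * g ⟨-conj z, hz'⟩ := h2
    rw [map_mul, map_mul, map_pow, map_natCast, neg_sq] at h4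
    have hc : conj z ≠ 0 := by simpa using hz0
    exact (mul_left_cancel₀ (mul_ne_zero hN (pow_ne_zero _ hc)) h4).symm
  refine ⟨fun n => ((qExpansion 1 g).coeff n).re, fun n => ?_⟩
  rw [eq_comm, ← Complex.conj_eq_iff_re]
  refine (unique_coeff g (c := fun n => conj ((qExpansion 1 g).coeff n)) ?_ n).symm
  intro z hz
  have hz' : 0 < (-conj z).im := by simpa using hz
  have h2 := (Complex.hasSum_conj'.2 (hasSum_q g (fun n => rfl) _ hz'))
  rw [← hg _ hz', map_neg, conj_conj, neg_neg] at h2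
  convert! h2 using 2 with m
  rw [map_mul, conj_e, map_neg, conj_conj, neg_neg]

end Du

open Du in
theorem exists_w (f : CuspForm (Gamma0 N) 2) {a : ℕ → ℤ}
    (hf : Frm f a) : ∃ (g : CuspForm (Gamma0 N) 2) (b : ℕ → ℝ), IsW f g ∧ Eig g b a ∧
      Eig f (fun n => (a n : ℝ)) a := by
  have hN : (N : ℂ) ≠ 0 := by exact_mod_cast NeZero.ne N
  have hW := isW_frW f
  have haR : ∀ n, (qExpansion 1 f).coeff n = ((a n : ℝ) : ℂ) := by
    intro n
    rw [hf.coeff n]
    push_cast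
    rfl
  have hhasse : ∀ l : ℕ, l.Prime → ¬ l ∣ N → (a l : ℝ) ^ 2 ≤ 4 * l := by
    intro l hl _
    have h1 := hf.hasse l
    rw [hl.divisors, Finset.card_pair hl.one_lt.ne] at h1
    have h2 : (0 : ℝ) ≤ l := Nat.cast_nonneg l
    have h3 : |(a l : ℝ)| ^ 2 ≤ (2 * √(l : ℝ)) ^ 2 := by
      refine pow_le_pow_left₀ (abs_nonneg _) ?_ 2
      exact_mod_cast h1
    rw [sq_abs, _root_.mul_pow, Real.sq_sqrt h2] at h3
    linarith
  obtain ⟨b, hb⟩ := real_coeff f (frW f) haR hW
  refine ⟨frW f, b, hW, ⟨hb, ?_, ?_, hhasse⟩, ⟨haR, ⟨1, ?_⟩, ?_, hhasse⟩⟩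
  · by_contra hcon
    push Not at hcon
    have hg0 : ∀ z : ℂ, 0 < z.im → frW f (ofComplex z) = 0 := by
      intro z hz
      have h1 := hasSum_q (frW f) (a := fun n => ((b n : ℝ) : ℂ)) hb z hz
      simp only [hcon, ofReal_zero, zero_mul] at h1
      exact h1.unique hasSum_zero
    have hf0 : ∀ z : ℂ, 0 < z.im → f (ofComplex z) = 0 := by
      intro z hz
      have h1 := symm_W hW ⟨z, hz⟩
      rw [hg0 _ (im_W (NeZero.ne N) hz)] at h1
      have hz0 : z ≠ 0 := by
        rintro rfl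
        simp at hz
      rw [ofComplex_apply_of_im_pos hz]
      have h2 : (N : ℂ) * z ^ 2 * f ⟨z, hz⟩ = 0 := h1.symm
      exact (mul_eq_zero.1 h2).resolve_left (mul_ne_zero hN (pow_ne_zero _ hz0))
    have h1 := unique_coeff f (c := fun _ => 0) (fun z hz => by
      rw [hf0 z hz]
      simp [hasSum_zero]) 1
    rw [hf.coeff 1, hf.one] at h1
    norm_num at h1
  · intro l hl hlN n
    have h1 : ∀ z : ℂ, 0 < z.im → (∑ k ∈ Finset.range l, f (ofComplex ((z + k) / l))) * (l : ℂ)⁻¹ +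
        (l : ℂ) * f (ofComplex (l * z)) = ((a l : ℤ) : ℂ) * f (ofComplex z) := by
      intro z hz
      refine hecke_f (a := fun n => ((a n : ℤ) : ℂ)) (hasSum_q f (a := fun n => ((a n : ℤ) : ℂ))
        hf.coeff) hl.pos ?_ hz
      intro n
      have := hf.hecke.rel l hl hlN n
      rw [← Int.cast_mul, ← this]
      push_cast
      rfl
    have h2 := coeff_of_hecke (frW f) (a := fun n => ((b n : ℝ) : ℂ)) hb hl.pos
      (fun z hz => hecke_W hW hl hlN h1 hz) n
    have h3 : ((b (l * n) + (if l ∣ n then (l : ℝ) * b (n / l) else 0) : ℝ) : ℂ) =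
        (((a l : ℝ) * b n : ℝ) : ℂ) := by
      rw [← ofReal_intCast, ← ofReal_mul] at h2
      rw [← h2]
      split_ifs <;> push_cast <;> ring
    exact_mod_cast h3
  · simp [hf.one]
  · intro l hl hlN n
    have := hf.hecke.rel l hl hlN n
    have h3 : ((a (l * n) + (if l ∣ n then (l : ℤ) * a (n / l) else 0) : ℤ) : ℝ) =
        ((a l * a n : ℤ) : ℝ) := by
      rw [this]
    push_cast at h3
    exact h3

end Pool.Agent.MU0
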