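import Mathlib

/-!
# The second and the fourth moment of the primitive of a form of weight two

`a` is a sequence such that `f(z) = ∑ a(n) e(nz)` satisfies `|f(x + iy)| ≤ C₀ / y`, and
`G(z) = ∑ a(n)/n e(nz)`. Then the mean of `|G|⁴` over the points `x + b/q + iy`, `b < q`, is at most
`K C₀⁴ (1 + log (1/y))²` if `1 ≤ q y`, `y ≤ 1`.
-/

set_option autoImplicit false

open Filter Topology Complex Function MeasureTheory
open scoped Real

namespace Pool.Agent.MU0.E4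

/-! ### Absolutely convergent Fourier series -/

/-- The continuous function with Fourier coefficients `c`. -/
noncomputable def FC (c : ℕ → ℂ) : C(AddCircle (1 : ℝ), ℂ) :=
  ∑' n : ℕ, c n • (fourier (n : ℤ) : C(AddCircle (1 : ℝ), ℂ))

theorem hasSum_FC {c : ℕ → ℂ} (hc : Summable fun n => ‖c n‖) :
    HasSum (fun n : ℕ => c n • (fourier (n : ℤ) : C(AddCircle (1 : ℝ), ℂ))) (FC c) := by
  refine Summable.hasSum ?_
  refine Summable.of_norm ?_
  have : ∀ n : ℕ, ‖c n • (fourier (n : ℤ) : C(AddCircle (1 : ℝ), ℂ))‖ = ‖c n‖ := by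
    intro n
    rw [norm_smul, fourier_norm, mul_one]
  simp_rw [this]
  exact hc

theorem FC_apply {c : ℕ → ℂ} (hc : Summable fun n => ‖c n‖) (x : ℝ) :
    FC c (x : AddCircle (1 : ℝ)) = ∑' n : ℕ, c n * cexp (2 * π * Complex.I * n * x) := by
  have h1 : HasSum (fun n : ℕ => (c n • (fourier (n : ℤ) : C(AddCircle (1 : ℝ), ℂ)))
      (x : AddCircle (1 : ℝ))) (FC c (x : AddCircle (1 : ℝ))) :=
    ContinuousMap.hasSum_apply (hasSum_FC hc) (x : AddCircle (1 : ℝ))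
  have h2 : ∀ n : ℕ, (c n • (fourier (n : ℤ) : C(AddCircle (1 : ℝ), ℂ))) (x : AddCircle (1 : ℝ)) =
      c n * cexp (2 * π * Complex.I * n * x) := by
    intro n
    rw [ContinuousMap.smul_apply, fourier_coe_apply, smul_eq_mul]
    push_cast
    rw [div_one]
  simp_rw [h2] at h1
  exact h1.tsum_eq.symm

/-- The class in `L²`. -/
noncomputable def FL (c : ℕ → ℂ) : Lp ℂ 2 (@AddCircle.haarAddCircle (1 : ℝ) _) :=
  ContinuousMap.toLp (E := ℂ) 2 (@AddCircle.haarAddCircle (1 : ℝ) _) ℂ (FC c)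

theorem parseval {c : ℕ → ℂ} (hc : Summable fun n => ‖c n‖) :
    HasSum (fun n => ‖c n‖ ^ 2) (‖FL c‖ ^ 2) := by
  have hXs : HasSum (fun n : ℕ => c n • @fourierLp (1 : ℝ) _ 2 _ (n : ℤ)) (FL c) := by
    have := (ContinuousMap.toLp (E := ℂ) 2 (@AddCircle.haarAddCircle (1 : ℝ) _) ℂ).hasSum
      (hasSum_FC hc)
    simp only [map_smul] at this
    exact this
  have horth : Orthonormal ℂ (fun n : ℕ => @fourierLp (1 : ℝ) _ 2 _ (n : ℤ)) :=
    (orthonormal_fourier (T := (1 : ℝ))).comp _ Nat.cast_injective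
  have hinner : ∀ m : ℕ, inner ℂ (@fourierLp (1 : ℝ) _ 2 _ (m : ℤ)) (FL c) = c m := by
    intro m
    have h1 : HasSum (fun n : ℕ => inner ℂ (@fourierLp (1 : ℝ) _ 2 _ (m : ℤ))
        (c n • @fourierLp (1 : ℝ) _ 2 _ (n : ℤ))) (inner ℂ (@fourierLp (1 : ℝ) _ 2 _ (m : ℤ)) (FL c)) :=
      (innerSL ℂ (@fourierLp (1 : ℝ) _ 2 _ (m : ℤ))).hasSum hXs
    have h2 : ∀ n : ℕ, inner ℂ (@fourierLp (1 : ℝ) _ 2 _ (m : ℤ))
        (c n • @fourierLp (1 : ℝ) _ 2 _ (n : ℤ)) = if n = m then c m else 0 := by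
      intro n
      rw [inner_smul_right]
      have h3 := (orthonormal_iff_ite.1 horth) m n
      rw [h3]
      by_cases h : n = m
      · subst h
        simp
      · rw [if_neg (fun h' => h h'.symm), if_neg h, mul_zero]
    simp_rw [h2] at h1
    exact h1.unique (hasSum_ite_eq m (c m))
  have h1 : HasSum (fun n : ℕ => inner ℂ (FL c) (c n • @fourierLp (1 : ℝ) _ 2 _ (n : ℤ)))
      (inner ℂ (FL c) (FL c)) := (innerSL ℂ (FL c)).hasSum hXs
  have h2 : ∀ n : ℕ, inner ℂ (FL c) (c n • @fourierLp (1 : ℝ) _ 2 _ (n : ℤ)) =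
      ((‖c n‖ ^ 2 : ℝ) : ℂ) := by
    intro n
    rw [inner_smul_right, ← inner_conj_symm, hinner, Complex.mul_conj, Complex.normSq_eq_norm_sq]
  simp_rw [h2] at h1
  rw [inner_self_eq_norm_sq_to_K] at h1
  have h3 : ((‖FL c‖ : ℂ)) ^ 2 = ((‖FL c‖ ^ 2 : ℝ) : ℂ) := by push_cast; rfl
  have h4 : HasSum (fun n : ℕ => ((‖c n‖ ^ 2 : ℝ) : ℂ)) ((‖FL c‖ ^ 2 : ℝ) : ℂ) := by
    rw [← h3]
    exact h1
  exact_mod_cast h4

theorem norm_FL_le {B c : ℕ → ℂ} {M : ℝ}
    (h : ∀ t : AddCircle (1 : ℝ), ‖FC c t‖ ≤ M * ‖FC B t‖) : ‖FL c‖ ≤ M * ‖FL B‖ := by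
  refine Lp.norm_le_mul_norm_of_ae_le_mul ?_
  have h1 := ContinuousMap.coeFn_toLp (E := ℂ) (p := 2) (𝕜 := ℂ) (@AddCircle.haarAddCircle (1 : ℝ) _) (FC c)
  have h2 := ContinuousMap.coeFn_toLp (E := ℂ) (p := 2) (𝕜 := ℂ) (@AddCircle.haarAddCircle (1 : ℝ) _) (FC B)
  filter_upwards [h1, h2] with t e1 e2
  unfold FL
  rw [e1, e2]
  exact h t

/-- multiplication by a bounded function -/
theorem mult {A B : ℕ → ℂ} (hA : Summable fun n => ‖A n‖) (hB : Summable fun n => ‖B n‖) {M : ℝ}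
    (hM : ∀ x : ℝ, ‖∑' n : ℕ, A n * cexp (2 * π * Complex.I * n * x)‖ ≤ M) :
    Summable (fun n => ‖∑ kl ∈ Finset.HasAntidiagonal.antidiagonal n, A kl.1 * B kl.2‖ ^ 2) ∧
    ∑' n, ‖∑ kl ∈ Finset.HasAntidiagonal.antidiagonal n, A kl.1 * B kl.2‖ ^ 2 ≤ M ^ 2 * ∑' n, ‖B n‖ ^ 2 := by
  set c : ℕ → ℂ := fun n => ∑ kl ∈ Finset.HasAntidiagonal.antidiagonal n, A kl.1 * B kl.2 with hcd
  have hc : Summable fun n => ‖c n‖ := summable_norm_sum_mul_antidiagonal_of_summable_norm hA hB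
  have hM0 : 0 ≤ M := (norm_nonneg _).trans (hM 0)
  have key : ∀ x : ℝ, FC c (x : AddCircle (1 : ℝ)) =
      FC A (x : AddCircle (1 : ℝ)) * FC B (x : AddCircle (1 : ℝ)) := by
    intro x
    rw [FC_apply hc, FC_apply hA, FC_apply hB]
    have hn : ∀ n : ℕ, ‖cexp (2 * π * Complex.I * n * x)‖ = 1 := by
      intro n
      rw [show (2 * π * Complex.I * n * x : ℂ) = ((2 * π * n * x : ℝ) : ℂ) * Complex.I by
        push_cast; ring]
      exact Complex.norm_exp_ofReal_mul_I _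
    have hA' : Summable fun n : ℕ => ‖A n * cexp (2 * π * Complex.I * n * x)‖ := by
      simpa [hn, norm_mul] using hA
    have hB' : Summable fun n : ℕ => ‖B n * cexp (2 * π * Complex.I * n * x)‖ := by
      simpa [hn, norm_mul] using hB
    rw [tsum_mul_tsum_eq_tsum_sum_antidiagonal_of_summable_norm hA' hB']
    refine tsum_congr fun n => ?_
    rw [hcd, Finset.sum_mul]
    refine Finset.sum_congr rfl fun kl hkl => ?_
    have : n = kl.1 + kl.2 := (Finset.HasAntidiagonal.mem_antidiagonal.1 hkl).symm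
    rw [this]
    push_cast
    rw [show (2 * π * Complex.I * ((kl.1 : ℂ) + kl.2) * x : ℂ) =
      2 * π * Complex.I * kl.1 * x + 2 * π * Complex.I * kl.2 * x by ring, Complex.exp_add]
    ring
  have h1 : ‖FL c‖ ≤ M * ‖FL B‖ := by
    refine norm_FL_le fun t => ?_
    obtain ⟨x, rfl⟩ := QuotientAddGroup.mk_surjective t
    rw [key, norm_mul]
    refine mul_le_mul_of_nonneg_right ?_ (norm_nonneg _)
    rw [FC_apply hA]
    exact hM x
  have h2 := parseval hc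
  have h3 := parseval hB
  refine ⟨h2.summable, ?_⟩
  rw [h2.tsum_eq, h3.tsum_eq, ← mul_pow]
  exact pow_le_pow_left₀ (norm_nonneg _) h1 2

theorem bessel {A : ℕ → ℂ} (hA : Summable fun n => ‖A n‖) {M : ℝ}
    (hM : ∀ x : ℝ, ‖∑' n : ℕ, A n * cexp (2 * π * Complex.I * n * x)‖ ≤ M) :
    Summable (fun n => ‖A n‖ ^ 2) ∧ ∑' n, ‖A n‖ ^ 2 ≤ M ^ 2 := by
  have hB : Summable fun n : ℕ => ‖(if n = 0 then 1 else 0 : ℂ)‖ := by
    refine summable_of_ne_finset_zero (s := {0}) fun n hn => ?_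
    have : n ≠ 0 := by simpa using hn
    simp [this]
  have h := mult hA hB hM
  have e1 : ∀ n : ℕ, ∑ kl ∈ Finset.HasAntidiagonal.antidiagonal n,
      A kl.1 * (if kl.2 = 0 then 1 else 0 : ℂ) = A n := by
    intro n
    rw [Finset.sum_eq_single (n, 0)]
    · simp
    · intro kl hkl hne
      have h1 := Finset.HasAntidiagonal.mem_antidiagonal.1 hkl
      have h2 : kl.2 ≠ 0 := by
        intro h2
        apply hne
        ext
        · simp only
          omega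
        · exact h2
      rw [if_neg h2, mul_zero]
    · intro hn
      exact absurd (Finset.HasAntidiagonal.mem_antidiagonal.2 (by simp)) hn
  simp_rw [e1] at h
  have e2 : ∑' n : ℕ, ‖(if n = 0 then 1 else 0 : ℂ)‖ ^ 2 = 1 := by
    rw [tsum_eq_single 0]
    · simp
    · intro n hn
      simp [hn]
  rw [e2, mul_one] at h
  exact h

/-! ### Dyadic decomposition -/

theorem dyadic_point {n : ℕ} (hn : 1 ≤ n) {v : ℝ} {J : ℕ} (hJ : (1 / 2 : ℝ) ^ J ≤ v) :
    Real.exp (-(4 * π * n * v)) / (n : ℝ) ^ 2 ≤ Real.exp (8 * π) *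
      ∑ j ∈ Finset.range (J + 1), (1 / 4 : ℝ) ^ j * Real.exp (-(4 * π * n * (1 / 2 : ℝ) ^ j)) := by
  have hn' : (1 : ℝ) ≤ n := by exact_mod_cast hn
  have hπ := Real.pi_pos
  have hv : 0 ≤ v := (pow_nonneg (by norm_num) J).trans hJ
  have hterm : ∀ j, 0 ≤ (1 / 4 : ℝ) ^ j * Real.exp (-(4 * π * n * (1 / 2 : ℝ) ^ j)) := fun j => by
    positivity
  have hpow : ∀ i : ℕ, 2 ^ i ≤ n → 1 / (n : ℝ) ^ 2 ≤ (1 / 4 : ℝ) ^ i := by
    intro i hi
    have h1 : (2 : ℝ) ^ i ≤ n := by exact_mod_cast hi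
    have h2 : (4 : ℝ) ^ i ≤ (n : ℝ) ^ 2 := by
      have : (4 : ℝ) ^ i = ((2 : ℝ) ^ i) ^ 2 := by
        rw [← pow_mul, mul_comm, pow_mul]
        norm_num
      rw [this]
      exact pow_le_pow_left₀ (by positivity) h1 2
    rw [div_pow, one_pow]
    exact one_div_le_one_div_of_le (by positivity) h2
  rcases le_or_gt (Nat.log 2 n) J with h | h
  · have h1 : 2 ^ Nat.log 2 n ≤ n := Nat.pow_log_le_self 2 (by omega)
    have h2 : n < 2 ^ (Nat.log 2 n + 1) := Nat.lt_pow_succ_log_self (by norm_num) n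
    have h3 := Finset.single_le_sum (f := fun j => (1 / 4 : ℝ) ^ j *
      Real.exp (-(4 * π * n * (1 / 2 : ℝ) ^ j))) (fun j _ => hterm j)
      (Finset.mem_range.2 (Nat.lt_succ_of_le h))
    refine le_trans ?_ (mul_le_mul_of_nonneg_left h3 (Real.exp_pos _).le)
    have h4 := hpow _ h1
    have h5 : Real.exp (-(8 * π)) ≤ Real.exp (-(4 * π * n * (1 / 2 : ℝ) ^ Nat.log 2 n)) := by
      rw [Real.exp_le_exp]
      have h6 : (n : ℝ) * (1 / 2 : ℝ) ^ Nat.log 2 n ≤ 2 := by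
        have h7 : (n : ℝ) ≤ 2 ^ (Nat.log 2 n + 1) := by exact_mod_cast h2.le
        rw [div_pow, one_pow, mul_one_div, div_le_iff₀ (by positivity)]
        rw [pow_succ] at h7
        linarith
      nlinarith
    have h8 : Real.exp (-(4 * π * n * v)) ≤ 1 := by
      rw [Real.exp_le_one_iff]
      have : 0 ≤ 4 * π * n * v := by positivity
      linarith
    calc Real.exp (-(4 * π * n * v)) / (n : ℝ) ^ 2 ≤ 1 / (n : ℝ) ^ 2 := by
          exact div_le_div_of_nonneg_right h8 (by positivity)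
      _ ≤ (1 / 4 : ℝ) ^ Nat.log 2 n := h4
      _ = Real.exp (8 * π) * ((1 / 4 : ℝ) ^ Nat.log 2 n * Real.exp (-(8 * π))) := by
          rw [mul_comm ((1 / 4 : ℝ) ^ Nat.log 2 n), ← mul_assoc, ← Real.exp_add]
          simp
      _ ≤ _ := by gcongr
  · have h1 : 2 ^ J ≤ n := (Nat.pow_le_pow_right (by norm_num) h.le).trans
      (Nat.pow_log_le_self 2 (by omega))
    have h3 := Finset.single_le_sum (f := fun j => (1 / 4 : ℝ) ^ j *
      Real.exp (-(4 * π * n * (1 / 2 : ℝ) ^ j))) (fun j _ => hterm j)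
      (Finset.mem_range.2 (Nat.lt_succ_self J))
    refine le_trans ?_ (mul_le_mul_of_nonneg_left h3 (Real.exp_pos _).le)
    have h4 := hpow _ h1
    have h5 : Real.exp (-(4 * π * n * v)) ≤ Real.exp (-(4 * π * n * (1 / 2 : ℝ) ^ J)) := by
      rw [Real.exp_le_exp]
      have : 4 * π * n * (1 / 2 : ℝ) ^ J ≤ 4 * π * n * v :=
        mul_le_mul_of_nonneg_left hJ (by positivity)
      linarith
    have h6 : 1 ≤ Real.exp (8 * π) := Real.one_le_exp (by positivity)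
    calc Real.exp (-(4 * π * n * v)) / (n : ℝ) ^ 2 = 1 / (n : ℝ) ^ 2 *
          Real.exp (-(4 * π * n * v)) := by ring
      _ ≤ (1 / 4 : ℝ) ^ J * Real.exp (-(4 * π * n * (1 / 2 : ℝ) ^ J)) := by gcongr
      _ ≤ _ := le_mul_of_one_le_left (hterm J) h6

theorem dyadic_sum {w : ℕ → ℝ} (hw : ∀ n, 0 ≤ w n) {v D : ℝ} {J : ℕ} (hJ : (1 / 2 : ℝ) ^ J ≤ v)
    (hS : ∀ j : ℕ, Summable fun n : ℕ => w n * Real.exp (-(4 * π * n * (1 / 2 : ℝ) ^ j)))
    (hD : ∀ j ≤ J, ∑' n : ℕ, w n * Real.exp (-(4 * π * n * (1 / 2 : ℝ) ^ j)) ≤ D * 4 ^ j) :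
    Summable (fun n : ℕ => w n / (n : ℝ) ^ 2 * Real.exp (-(4 * π * n * v))) ∧
    ∑' n : ℕ, w n / (n : ℝ) ^ 2 * Real.exp (-(4 * π * n * v)) ≤ Real.exp (8 * π) * ((J + 1) * D) := by
  have hp : ∀ n : ℕ, w n / (n : ℝ) ^ 2 * Real.exp (-(4 * π * n * v)) ≤ Real.exp (8 * π) *
      ∑ j ∈ Finset.range (J + 1), (1 / 4 : ℝ) ^ j * (w n * Real.exp (-(4 * π * n * (1 / 2 : ℝ) ^ j))) := by
    intro n
    rcases Nat.eq_zero_or_pos n with rfl | hn
    · simp only [Nat.cast_zero]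
      rw [zero_pow (by norm_num), div_zero, zero_mul]
      have := hw 0
      positivity
    · have h1 := mul_le_mul_of_nonneg_left (dyadic_point hn hJ) (hw n)
      calc w n / (n : ℝ) ^ 2 * Real.exp (-(4 * π * n * v)) =
            w n * (Real.exp (-(4 * π * n * v)) / (n : ℝ) ^ 2) := by ring
        _ ≤ _ := h1
        _ = _ := by
            rw [mul_left_comm, Finset.mul_sum]
            congr 1
            refine Finset.sum_congr rfl fun j _ => ?_
            ring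
  have hR : HasSum (fun n : ℕ => Real.exp (8 * π) *
      ∑ j ∈ Finset.range (J + 1), (1 / 4 : ℝ) ^ j * (w n * Real.exp (-(4 * π * n * (1 / 2 : ℝ) ^ j))))
      (Real.exp (8 * π) * ∑ j ∈ Finset.range (J + 1), (1 / 4 : ℝ) ^ j *
        ∑' n : ℕ, w n * Real.exp (-(4 * π * n * (1 / 2 : ℝ) ^ j))) :=
    (hasSum_sum fun j _ => (hS j).hasSum.mul_left _).mul_left _
  have h0 : ∀ n : ℕ, 0 ≤ w n / (n : ℝ) ^ 2 * Real.exp (-(4 * π * n * v)) := fun n => by
    have := hw n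
    positivity
  have hs : Summable (fun n : ℕ => w n / (n : ℝ) ^ 2 * Real.exp (-(4 * π * n * v))) :=
    Summable.of_nonneg_of_le h0 hp hR.summable
  refine ⟨hs, ?_⟩
  refine (hs.tsum_le_tsum hp hR.summable).trans ?_
  rw [hR.tsum_eq]
  refine mul_le_mul_of_nonneg_left ?_ (Real.exp_pos _).le
  calc ∑ j ∈ Finset.range (J + 1), (1 / 4 : ℝ) ^ j *
        ∑' n : ℕ, w n * Real.exp (-(4 * π * n * (1 / 2 : ℝ) ^ j))
      ≤ ∑ _j ∈ Finset.range (J + 1), D := by
        refine Finset.sum_le_sum fun j hj => ?_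
        have h1 := hD j (Nat.lt_succ_iff.1 (Finset.mem_range.1 hj))
        calc (1 / 4 : ℝ) ^ j * ∑' n : ℕ, w n * Real.exp (-(4 * π * n * (1 / 2 : ℝ) ^ j))
            ≤ (1 / 4 : ℝ) ^ j * (D * 4 ^ j) := by gcongr
          _ = D * ((1 / 4) * 4) ^ j := by rw [mul_pow]; ring
          _ = D := by norm_num
    _ = (J + 1) * D := by
        rw [Finset.sum_const, Finset.card_range, nsmul_eq_mul]
        push_cast
        ring

/-! ### The hypotheses and the moments over a horizontal line -/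

/-- `f = ∑ a(n) e(nz)` converges in the half plane and `|f(x + iy)| ≤ C₀ / y`. -/
structure Bdd (a : ℕ → ℂ) (C₀ : ℝ) : Prop where
  zero : a 0 = 0
  summ : ∀ y : ℝ, 0 < y → Summable fun n : ℕ => ‖a n‖ * Real.exp (-(2 * π * n * y))
  bound : ∀ x y : ℝ, 0 < y →
    ‖∑' n : ℕ, a n * (Real.exp (-(2 * π * n * y)) : ℂ) * cexp (2 * π * Complex.I * n * x)‖ ≤ C₀ / y

variable {a : ℕ → ℂ} {C₀ : ℝ}

theorem Bdd.nonneg (h : Bdd a C₀) : 0 ≤ C₀ := by
  have := (norm_nonneg _).trans (h.bound 0 1 one_pos)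
  simpa using this

/-- the coefficients at height `y` -/
noncomputable def A1 (a : ℕ → ℂ) (y : ℝ) (n : ℕ) : ℂ := a n * (Real.exp (-(2 * π * n * y)) : ℂ)

noncomputable def B1 (a : ℕ → ℂ) (y : ℝ) (n : ℕ) : ℂ := a n / n * (Real.exp (-(2 * π * n * y)) : ℂ)

theorem norm_exp_real (t : ℝ) : ‖(Real.exp t : ℂ)‖ = Real.exp t := by
  rw [Complex.norm_real, Real.norm_eq_abs, abs_of_pos (Real.exp_pos _)]

theorem Bdd.summA (h : Bdd a C₀) {y : ℝ} (hy : 0 < y) : Summable fun n => ‖A1 a y n‖ := by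
  refine (h.summ y hy).congr fun n => ?_
  rw [A1, norm_mul, norm_exp_real]

theorem norm_B1_le (a : ℕ → ℂ) (y : ℝ) (n : ℕ) : ‖B1 a y n‖ ≤ ‖A1 a y n‖ := by
  rw [B1, A1, norm_mul, norm_mul, norm_div]
  refine mul_le_mul_of_nonneg_right ?_ (norm_nonneg _)
  rcases Nat.eq_zero_or_pos n with rfl | hn
  · simp
  · have : (1 : ℝ) ≤ ‖(n : ℂ)‖ := by
      rw [Complex.norm_natCast]
      exact_mod_cast hn
    exact div_le_self (norm_nonneg _) this

theorem Bdd.summB (h : Bdd a C₀) {y : ℝ} (hy : 0 < y) : Summable fun n => ‖B1 a y n‖ :=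
  Summable.of_nonneg_of_le (fun _ => norm_nonneg _) (norm_B1_le a y) (h.summA hy)

theorem exp_sq (n : ℕ) (y : ℝ) : Real.exp (-(2 * π * n * y)) ^ 2 = Real.exp (-(4 * π * n * y)) := by
  rw [← Real.exp_nat_mul]
  congr 1
  push_cast
  ring

theorem normA_sq (a : ℕ → ℂ) (y : ℝ) (n : ℕ) :
    ‖A1 a y n‖ ^ 2 = ‖a n‖ ^ 2 * Real.exp (-(4 * π * n * y)) := by
  rw [A1, norm_mul, norm_exp_real, mul_pow, exp_sq]

theorem normB_sq (a : ℕ → ℂ) (y : ℝ) (n : ℕ) :
    ‖B1 a y n‖ ^ 2 = ‖a n‖ ^ 2 / (n : ℝ) ^ 2 * Real.exp (-(4 * π * n * y)) := by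
  rw [B1, norm_mul, norm_exp_real, mul_pow, exp_sq, norm_div, div_pow, Complex.norm_natCast]

/-- the second moment of `f` -/
theorem Bdd.l2A (h : Bdd a C₀) {y : ℝ} (hy : 0 < y) :
    Summable (fun n : ℕ => ‖a n‖ ^ 2 * Real.exp (-(4 * π * n * y))) ∧
    ∑' n : ℕ, ‖a n‖ ^ 2 * Real.exp (-(4 * π * n * y)) ≤ (C₀ / y) ^ 2 := by
  have := bessel (h.summA hy) (M := C₀ / y) (fun x => h.bound x y hy)
  simp_rw [normA_sq] at this
  exact this

/-- the second moment of `G` -/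
theorem Bdd.l2B (h : Bdd a C₀) {v : ℝ} {J : ℕ} (hJ : (1 / 2 : ℝ) ^ J ≤ v) :
    Summable (fun n : ℕ => ‖a n‖ ^ 2 / (n : ℝ) ^ 2 * Real.exp (-(4 * π * n * v))) ∧
    ∑' n : ℕ, ‖a n‖ ^ 2 / (n : ℝ) ^ 2 * Real.exp (-(4 * π * n * v)) ≤
      Real.exp (8 * π) * ((J + 1) * C₀ ^ 2) := by
  refine dyadic_sum (fun n => by positivity) hJ (fun j => (h.l2A (by positivity)).1) ?_
  intro j _
  refine (h.l2A (y := (1 / 2 : ℝ) ^ j) (by positivity)).2.trans (le_of_eq ?_)
  rw [div_pow, div_pow, one_pow, div_pow, one_pow]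
  have : ((2 : ℝ) ^ j) ^ 2 = 4 ^ j := by
    rw [← pow_mul, mul_comm, pow_mul]
    norm_num
  rw [this]
  field_simp

/-- the coefficients of `G²` -/
noncomputable def cc (a : ℕ → ℂ) (n : ℕ) : ℂ :=
  ∑ kl ∈ Finset.HasAntidiagonal.antidiagonal n, a kl.1 / kl.1 * (a kl.2 / kl.2)

theorem exp_add_anti {n : ℕ} {kl : ℕ × ℕ} (hkl : kl ∈ Finset.HasAntidiagonal.antidiagonal n)
    (y : ℝ) : Real.exp (-(2 * π * kl.1 * y)) * Real.exp (-(2 * π * kl.2 * y)) =
      Real.exp (-(2 * π * n * y)) := by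
  rw [← Real.exp_add]
  congr 1
  have : n = kl.1 + kl.2 := (Finset.HasAntidiagonal.mem_antidiagonal.1 hkl).symm
  rw [this]
  push_cast
  ring

/-- `n c(n) = 2 ∑ a(k) a(l)/l` -/
theorem n_cc (h0 : a 0 = 0) (n : ℕ) : (n : ℂ) * cc a n =
    2 * ∑ kl ∈ Finset.HasAntidiagonal.antidiagonal n, a kl.1 * (a kl.2 / kl.2) := by
  have e1 : (n : ℂ) * cc a n = ∑ kl ∈ Finset.HasAntidiagonal.antidiagonal n,
      (a kl.1 * (a kl.2 / kl.2) + a kl.2 * (a kl.1 / kl.1)) := by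
    unfold cc
    rw [Finset.mul_sum]
    refine Finset.sum_congr rfl fun kl hkl => ?_
    have hn : n = kl.1 + kl.2 := (Finset.HasAntidiagonal.mem_antidiagonal.1 hkl).symm
    rw [hn]
    push_cast
    have ek : ∀ k : ℕ, (k : ℂ) * (a k / k) = a k := by
      intro k
      rcases Nat.eq_zero_or_pos k with rfl | hk
      · simp [h0]
      · have : (k : ℂ) ≠ 0 := by exact_mod_cast hk.ne'
        field_simp
    have h1 := ek kl.1
    have h2 := ek kl.2
    calc ((kl.1 : ℂ) + kl.2) * (a kl.1 / kl.1 * (a kl.2 / kl.2)) =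
          ((kl.1 : ℂ) * (a kl.1 / kl.1)) * (a kl.2 / kl.2) +
            ((kl.2 : ℂ) * (a kl.2 / kl.2)) * (a kl.1 / kl.1) := by ring
      _ = _ := by rw [h1, h2]
  have e2 : ∑ kl ∈ Finset.HasAntidiagonal.antidiagonal n, a kl.2 * (a kl.1 / kl.1) =
      ∑ kl ∈ Finset.HasAntidiagonal.antidiagonal n, a kl.1 * (a kl.2 / kl.2) := by
    refine Finset.sum_nbij' Prod.swap Prod.swap ?_ ?_ ?_ ?_ ?_
    · intro kl hkl
      have := Finset.HasAntidiagonal.mem_antidiagonal.1 hkl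
      exact Finset.HasAntidiagonal.mem_antidiagonal.2 (by simpa [add_comm] using this)
    · intro kl hkl
      have := Finset.HasAntidiagonal.mem_antidiagonal.1 hkl
      exact Finset.HasAntidiagonal.mem_antidiagonal.2 (by simpa [add_comm] using this)
    · intro kl _
      exact Prod.swap_swap kl
    · intro kl _
      exact Prod.swap_swap kl
    · intro kl _
      rfl
  rw [e1, Finset.sum_add_distrib, e2]
  ring

theorem Bdd.l2n (h : Bdd a C₀) {y : ℝ} (hy : 0 < y) {J : ℕ} (hJ : (1 / 2 : ℝ) ^ J ≤ y) :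
    Summable (fun n : ℕ => ‖(n : ℂ) * cc a n‖ ^ 2 * Real.exp (-(4 * π * n * y))) ∧
    ∑' n : ℕ, ‖(n : ℂ) * cc a n‖ ^ 2 * Real.exp (-(4 * π * n * y)) ≤
      4 * ((C₀ / y) ^ 2 * (Real.exp (8 * π) * ((J + 1) * C₀ ^ 2))) := by
  have h1 := mult (h.summA hy) (h.summB hy) (M := C₀ / y) (fun x => h.bound x y hy)
  have e : ∀ n : ℕ, ‖(n : ℂ) * cc a n‖ ^ 2 * Real.exp (-(4 * π * n * y)) =
      4 * ‖∑ kl ∈ Finset.HasAntidiagonal.antidiagonal n, A1 a y kl.1 * B1 a y kl.2‖ ^ 2 := by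
    intro n
    have e1 : ∑ kl ∈ Finset.HasAntidiagonal.antidiagonal n, A1 a y kl.1 * B1 a y kl.2 =
        (∑ kl ∈ Finset.HasAntidiagonal.antidiagonal n, a kl.1 * (a kl.2 / kl.2)) *
          (Real.exp (-(2 * π * n * y)) : ℂ) := by
      rw [Finset.sum_mul]
      refine Finset.sum_congr rfl fun kl hkl => ?_
      rw [← exp_add_anti hkl y, A1, B1]
      push_cast
      ring
    rw [e1, n_cc h.zero, norm_mul, norm_mul, norm_exp_real, mul_pow, mul_pow, exp_sq]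
    simp only [Complex.norm_ofNat]
    ring
  simp_rw [e]
  refine ⟨h1.1.mul_left 4, ?_⟩
  rw [tsum_mul_left]
  refine mul_le_mul_of_nonneg_left (h1.2.trans ?_) (by norm_num)
  refine mul_le_mul_of_nonneg_left ?_ (by positivity)
  have h2 := (h.l2B hJ).2
  simp_rw [normB_sq]
  exact h2

/-- the fourth moment of `G` on a horizontal line -/
theorem Bdd.l4 (h : Bdd a C₀) {v : ℝ} {J : ℕ} (hJ : (1 / 2 : ℝ) ^ J ≤ v) :
    Summable (fun n : ℕ => ‖cc a n‖ ^ 2 * Real.exp (-(4 * π * n * v))) ∧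
    ∑' n : ℕ, ‖cc a n‖ ^ 2 * Real.exp (-(4 * π * n * v)) ≤
      4 * Real.exp (16 * π) * ((J + 1) ^ 2 * C₀ ^ 4) := by
  have hc0 : cc a 0 = 0 := by
    simp [cc, h.zero]
  have key := dyadic_sum (w := fun n : ℕ => ‖(n : ℂ) * cc a n‖ ^ 2) (fun n => by positivity) hJ
    (fun j => (h.l2n (y := (1 / 2 : ℝ) ^ j) (by positivity) le_rfl).1)
    (D := 4 * (C₀ ^ 2 * (Real.exp (8 * π) * ((J + 1) * C₀ ^ 2)))) (by
      intro j hj
      refine (h.l2n (y := (1 / 2 : ℝ) ^ j) (by positivity) le_rfl).2.trans ?_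
      have e1 : (C₀ / (1 / 2 : ℝ) ^ j) ^ 2 = C₀ ^ 2 * 4 ^ j := by
        rw [div_pow, div_pow, one_pow, div_pow, one_pow]
        have : ((2 : ℝ) ^ j) ^ 2 = 4 ^ j := by
          rw [← pow_mul, mul_comm, pow_mul]
          norm_num
        rw [this]
        field_simp
      rw [e1]
      have hj' : (j : ℝ) ≤ J := by exact_mod_cast hj
      have : C₀ ^ 2 * 4 ^ j * (Real.exp (8 * π) * (((j : ℝ) + 1) * C₀ ^ 2)) ≤
          C₀ ^ 2 * 4 ^ j * (Real.exp (8 * π) * (((J : ℝ) + 1) * C₀ ^ 2)) := by gcongr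
      nlinarith)
  have e : ∀ n : ℕ, ‖(n : ℂ) * cc a n‖ ^ 2 / (n : ℝ) ^ 2 * Real.exp (-(4 * π * n * v)) =
      ‖cc a n‖ ^ 2 * Real.exp (-(4 * π * n * v)) := by
    intro n
    rcases Nat.eq_zero_or_pos n with rfl | hn
    · simp [hc0]
    · have : (n : ℝ) ≠ 0 := by exact_mod_cast hn.ne'
      rw [norm_mul, Complex.norm_natCast, mul_pow]
      field_simp
  simp_rw [e] at key
  refine ⟨key.1, key.2.trans (le_of_eq ?_)⟩
  have : Real.exp (16 * π) = Real.exp (8 * π) * Real.exp (8 * π) := by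
    rw [← Real.exp_add]
    ring_nf
  rw [this]
  ring

/-! ### Discrete means -/

theorem cs_tsum {u v : ℕ → ℝ} (hu0 : ∀ n, 0 ≤ u n) (hv0 : ∀ n, 0 ≤ v n)
    (hu : Summable fun n => u n ^ 2) (hv : Summable fun n => v n ^ 2) :
    Summable (fun n => u n * v n) ∧ (∑' n, u n * v n) ^ 2 ≤ (∑' n, u n ^ 2) * ∑' n, v n ^ 2 := by
  have hs : Summable (fun n => u n * v n) := by
    refine Summable.of_nonneg_of_le (fun n => mul_nonneg (hu0 n) (hv0 n)) (fun n => ?_) (hu.add hv)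
    nlinarith [sq_nonneg (u n - v n), sq_nonneg (u n), sq_nonneg (v n)]
  refine ⟨hs, ?_⟩
  have hU : 0 ≤ ∑' n, u n ^ 2 := tsum_nonneg fun n => sq_nonneg _
  have hV : 0 ≤ ∑' n, v n ^ 2 := tsum_nonneg fun n => sq_nonneg _
  have h1 : ∑' n, u n * v n ≤ Real.sqrt ((∑' n, u n ^ 2) * ∑' n, v n ^ 2) := by
    refine hs.tsum_le_of_sum_le fun s => ?_
    refine Real.le_sqrt_of_sq_le ?_
    refine (Finset.sum_mul_sq_le_sq_mul_sq s u v).trans ?_
    exact mul_le_mul (hu.sum_le_tsum s fun n _ => sq_nonneg _)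
      (hv.sum_le_tsum s fun n _ => sq_nonneg _) (Finset.sum_nonneg fun n _ => sq_nonneg _) hU
  have h0 : 0 ≤ ∑' n, u n * v n := tsum_nonneg fun n => mul_nonneg (hu0 n) (hv0 n)
  calc (∑' n, u n * v n) ^ 2 ≤ Real.sqrt ((∑' n, u n ^ 2) * ∑' n, v n ^ 2) ^ 2 :=
        pow_le_pow_left₀ h0 h1 2
    _ = _ := Real.sq_sqrt (mul_nonneg hU hV)

theorem orth_sum (q : ℕ) [NeZero q] (c : ZMod q → ℂ) :
    ∑ b ∈ Finset.range q, ‖∑ j : ZMod q, c j * cexp (2 * π * Complex.I * j.val * b / q)‖ ^ 2 =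
      q * ∑ j, ‖c j‖ ^ 2 := by
  have hq : (q : ℂ) ≠ 0 := Nat.cast_ne_zero.2 (NeZero.ne q)
  set ζ : ℂ := cexp (2 * π * Complex.I / q) with hζd
  have hζ : IsPrimitiveRoot ζ q := Complex.isPrimitiveRoot_exp q (NeZero.ne q)
  have hζ1 : ‖ζ‖ = 1 := by
    rw [hζd, show (2 * π * Complex.I / q : ℂ) = ((2 * π / q : ℝ) : ℂ) * Complex.I by
      push_cast; ring]
    exact Complex.norm_exp_ofReal_mul_I _
  have hζ0 : ζ ≠ 0 := by
    intro h
    rw [h, norm_zero] at hζ1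
    exact zero_ne_one hζ1
  have hconj : (starRingEnd ℂ) ζ = ζ⁻¹ := by
    rw [Complex.inv_def, Complex.normSq_eq_norm_sq, hζ1]
    simp
  have he : ∀ (j : ZMod q) (b : ℕ), cexp (2 * π * Complex.I * j.val * b / q) = (ζ ^ j.val) ^ b := by
    intro j b
    rw [hζd, ← Complex.exp_nat_mul, ← Complex.exp_nat_mul]
    congr 1
    ring
  have horth : ∀ j k : ZMod q, ∑ b ∈ Finset.range q, (ζ ^ j.val * (ζ⁻¹) ^ k.val) ^ b =
      if j = k then (q : ℂ) else 0 := by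
    intro j k
    split_ifs with hjk
    · subst hjk
      rw [← mul_pow, mul_inv_cancel₀ hζ0, one_pow]
      simp
    · have hne : ζ ^ j.val * (ζ⁻¹) ^ k.val ≠ 1 := by
        intro h
        apply hjk
        have h1 : ζ ^ j.val = ζ ^ k.val := by
          rw [inv_pow] at h
          have := mul_inv_eq_one₀ (pow_ne_zero k.val hζ0) |>.1 h
          exact this
        exact ZMod.val_injective q (hζ.pow_inj (ZMod.val_lt j) (ZMod.val_lt k) h1)
      rw [geom_sum_eq hne]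
      have h1 : (ζ ^ j.val * (ζ⁻¹) ^ k.val) ^ q = 1 := by
        rw [mul_pow, ← pow_mul, ← pow_mul, mul_comm j.val, mul_comm k.val, pow_mul, pow_mul,
          inv_pow, hζ.pow_eq_one]
        simp
      rw [h1, sub_self, zero_div]
  have main : ((∑ b ∈ Finset.range q,
      ‖∑ j : ZMod q, c j * cexp (2 * π * Complex.I * j.val * b / q)‖ ^ 2 : ℝ) : ℂ) =
      ((q * ∑ j, ‖c j‖ ^ 2 : ℝ) : ℂ) := by
    push_cast
    have e1 : ∀ b ∈ Finset.range q,
        ((‖∑ j : ZMod q, c j * cexp (2 * π * Complex.I * j.val * b / q)‖ : ℂ)) ^ 2 =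
        ∑ j : ZMod q, ∑ k : ZMod q, c j * (starRingEnd ℂ) (c k) *
          (ζ ^ j.val * (ζ⁻¹) ^ k.val) ^ b := by
      intro b _
      rw [← Complex.mul_conj', map_sum, Finset.sum_mul_sum]
      refine Finset.sum_congr rfl fun j _ => Finset.sum_congr rfl fun k _ => ?_
      rw [he, he, map_mul, map_pow, map_pow, hconj, mul_pow]
      ring
    rw [Finset.sum_congr rfl e1, Finset.sum_comm]
    rw [Finset.mul_sum]
    refine Finset.sum_congr rfl fun j _ => ?_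
    rw [Finset.sum_comm]
    simp_rw [← Finset.mul_sum, horth]
    simp only [mul_ite, mul_zero, Finset.sum_ite_eq, Finset.mem_univ, if_true]
    rw [Complex.mul_conj']
    ring
  exact_mod_cast main

theorem exp_le_half {t : ℝ} (ht : 1 ≤ t) : Real.exp (-(2 * π * t)) ≤ 1 / 2 := by
  have h1 : Real.exp (-(2 * π * t)) ≤ Real.exp (-1) := by
    rw [Real.exp_le_exp]
    nlinarith [Real.pi_gt_three]
  have h2 : Real.exp (-1) ≤ 1 / 2 := by
    rw [Real.exp_neg, inv_le_comm₀ (Real.exp_pos _) (by norm_num)]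
    have := Real.add_one_le_exp (1 : ℝ)
    linarith
  exact h1.trans h2

theorem disc_le {d : ℕ → ℂ} {y : ℝ} (hy : 0 < y) {q : ℕ} (hq : 1 ≤ (q : ℝ) * y)
    (hs : Summable fun n : ℕ => ‖d n‖ * Real.exp (-(2 * π * n * y)))
    (h2 : Summable fun n : ℕ => ‖d n‖ ^ 2 * Real.exp (-(2 * π * n * y))) (x : ℝ) :
    ∑ b ∈ Finset.range q, ‖∑' n : ℕ, d n * (Real.exp (-(2 * π * n * y)) : ℂ) *
      cexp (2 * π * Complex.I * n * (x + b / q : ℝ))‖ ^ 2 ≤
      q * (2 * ∑' n : ℕ, ‖d n‖ ^ 2 * Real.exp (-(2 * π * n * y))) := by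
  have hq0 : q ≠ 0 := by
    rintro rfl
    simp at hq
    linarith
  have : NeZero q := ⟨hq0⟩
  have hqC : (q : ℂ) ≠ 0 := Nat.cast_ne_zero.2 hq0
  set D : ℕ → ℂ := fun n => d n * (Real.exp (-(2 * π * n * y)) : ℂ) *
    cexp (2 * π * Complex.I * n * x) with hD
  have hu : ∀ n : ℕ, ∀ t : ℝ, ‖cexp (2 * π * Complex.I * n * t)‖ = 1 := by
    intro n t
    rw [show (2 * π * Complex.I * n * t : ℂ) = ((2 * π * n * t : ℝ) : ℂ) * Complex.I by
      push_cast; ring]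
    exact Complex.norm_exp_ofReal_mul_I _
  have hDn : ∀ n, ‖D n‖ = ‖d n‖ * Real.exp (-(2 * π * n * y)) := by
    intro n
    rw [hD]
    simp only
    rw [norm_mul, norm_mul, norm_exp_real, hu, mul_one]
  have hinj : ∀ j : ZMod q, Function.Injective fun m : ℕ => j.val + q * m := by
    intro j m m' h
    have : q * m = q * m' := by simpa using h
    exact Nat.eq_of_mul_eq_mul_left (Nat.pos_of_ne_zero hq0) this
  have hDs : Summable fun n => ‖D n‖ := by
    simp_rw [hDn]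
    exact hs
  -- values at the points
  have e1 : ∀ b : ℕ, ∑' n : ℕ, d n * (Real.exp (-(2 * π * n * y)) : ℂ) *
      cexp (2 * π * Complex.I * n * (x + b / q : ℝ)) =
      ∑ j : ZMod q, (∑' m : ℕ, D (j.val + q * m)) * cexp (2 * π * Complex.I * j.val * b / q) := by
    intro b
    have e2 : ∀ n : ℕ, d n * (Real.exp (-(2 * π * n * y)) : ℂ) *
        cexp (2 * π * Complex.I * n * (x + b / q : ℝ)) =
        D n * cexp (2 * π * Complex.I * n * b / q) := by
      intro n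
      rw [hD]
      simp only
      push_cast
      rw [show (2 * π * Complex.I * n * (x + b / q) : ℂ) =
        2 * π * Complex.I * n * x + 2 * π * Complex.I * n * b / q by ring, Complex.exp_add]
      ring
    simp_rw [e2]
    have hsum : Summable fun n : ℕ => D n * cexp (2 * π * Complex.I * n * b / q) := by
      refine Summable.of_norm ?_
      refine hDs.congr fun n => ?_
      have e := hu n ((b : ℝ) / q)
      rw [norm_mul (D n), show (2 * π * Complex.I * n * b / q : ℂ) =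
        2 * π * Complex.I * n * ((b : ℝ) / q : ℝ) by push_cast; ring, e, mul_one]
    rw [Nat.sumByResidueClasses hsum q]
    refine Finset.sum_congr rfl fun j _ => ?_
    rw [← tsum_mul_right]
    refine tsum_congr fun m => ?_
    congr 1
    push_cast
    rw [show (2 * π * Complex.I * ((j.val : ℂ) + q * m) * b / q : ℂ) =
      2 * π * Complex.I * j.val * b / q + ((m * b : ℕ) : ℤ) * (2 * π * Complex.I) by
        push_cast; field_simp, Complex.exp_add, Complex.exp_int_mul_two_pi_mul_I, mul_one]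
  simp_rw [e1]
  rw [orth_sum]
  refine mul_le_mul_of_nonneg_left ?_ (Nat.cast_nonneg q)
  have e3 : ∀ j : ZMod q, ‖∑' m : ℕ, D (j.val + q * m)‖ ^ 2 ≤
      2 * ∑' m : ℕ, ‖d (j.val + q * m)‖ ^ 2 *
        Real.exp (-(2 * π * ((j.val + q * m : ℕ) : ℝ) * y)) := by
    intro j
    have hDj : Summable fun m => ‖D (j.val + q * m)‖ := hDs.comp_injective (hinj j)
    set u : ℕ → ℝ := fun m => ‖d (j.val + q * m)‖ *
      Real.exp (-(π * ((j.val + q * m : ℕ) : ℝ) * y)) with hu'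
    set v : ℕ → ℝ := fun m => Real.exp (-(π * ((j.val + q * m : ℕ) : ℝ) * y)) with hv'
    have esq : ∀ m : ℕ, Real.exp (-(π * ((j.val + q * m : ℕ) : ℝ) * y)) ^ 2 =
        Real.exp (-(2 * π * ((j.val + q * m : ℕ) : ℝ) * y)) := by
      intro m
      rw [← Real.exp_nat_mul]
      congr 1
      push_cast
      ring
    have eu : ∀ m, u m ^ 2 = ‖d (j.val + q * m)‖ ^ 2 *
        Real.exp (-(2 * π * ((j.val + q * m : ℕ) : ℝ) * y)) := by
      intro m
      rw [hu']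
      simp only
      rw [mul_pow, esq]
    have ev : ∀ m, v m ^ 2 ≤ (1 / 2 : ℝ) ^ m := by
      intro m
      rw [hv']
      simp only
      rw [esq]
      calc Real.exp (-(2 * π * ((j.val + q * m : ℕ) : ℝ) * y))
          ≤ Real.exp (-(2 * π * (q * y))) ^ m := by
            rw [← Real.exp_nat_mul, Real.exp_le_exp]
            push_cast
            have : 0 ≤ π * (j.val : ℝ) * y := by positivity
            nlinarith
        _ ≤ (1 / 2 : ℝ) ^ m := pow_le_pow_left₀ (Real.exp_pos _).le (exp_le_half hq) m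
    have hus : Summable fun m => u m ^ 2 := by
      simp_rw [eu]
      exact h2.comp_injective (hinj j)
    have hvs : Summable fun m => v m ^ 2 :=
      Summable.of_nonneg_of_le (fun m => sq_nonneg _) ev summable_geometric_two
    have hcs := cs_tsum (fun m => by positivity) (fun m => by positivity) hus hvs
    have e4 : ∀ m, ‖D (j.val + q * m)‖ = u m * v m := by
      intro m
      rw [hDn, hu', hv']
      simp only
      rw [mul_assoc ‖d (j.val + q * m)‖, ← Real.exp_add]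
      congr 2
      ring
    have e5 : ‖∑' m : ℕ, D (j.val + q * m)‖ ≤ ∑' m, u m * v m := by
      refine (norm_tsum_le_tsum_norm hDj).trans (le_of_eq ?_)
      exact tsum_congr e4
    have e6 : ∑' m, v m ^ 2 ≤ 2 := by
      refine (hvs.tsum_le_tsum ev summable_geometric_two).trans (le_of_eq ?_)
      exact tsum_geometric_two
    calc ‖∑' m : ℕ, D (j.val + q * m)‖ ^ 2 ≤ (∑' m, u m * v m) ^ 2 :=
          pow_le_pow_left₀ (norm_nonneg _) e5 2
      _ ≤ (∑' m, u m ^ 2) * ∑' m, v m ^ 2 := hcs.2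
      _ ≤ (∑' m, u m ^ 2) * 2 :=
          mul_le_mul_of_nonneg_left e6 (tsum_nonneg fun m => sq_nonneg _)
      _ = _ := by
          simp_rw [eu]
          ring
  calc ∑ j : ZMod q, ‖∑' m : ℕ, D (j.val + q * m)‖ ^ 2
      ≤ ∑ j : ZMod q, 2 * ∑' m : ℕ, ‖d (j.val + q * m)‖ ^ 2 *
        Real.exp (-(2 * π * ((j.val + q * m : ℕ) : ℝ) * y)) := Finset.sum_le_sum fun j _ => e3 j
    _ = 2 * ∑' n : ℕ, ‖d n‖ ^ 2 * Real.exp (-(2 * π * n * y)) := by
        rw [← Finset.mul_sum, Nat.sumByResidueClasses h2 q]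

/-! ### The theorems -/

/-- the primitive `G(x + iy)` -/
noncomputable def GG (a : ℕ → ℂ) (x y : ℝ) : ℂ :=
  ∑' n : ℕ, a n / n * (Real.exp (-(2 * π * n * y)) : ℂ) * cexp (2 * π * Complex.I * n * x)

theorem Bdd.disc2_J (h : Bdd a C₀) {y : ℝ} (hy : 0 < y) {q : ℕ} (hq : 1 ≤ (q : ℝ) * y) {J : ℕ}
    (hJ : (1 / 2 : ℝ) ^ J ≤ y / 2) (x : ℝ) :
    ∑ b ∈ Finset.range q, ‖GG a (x + b / q) y‖ ^ 2 ≤
      q * (2 * (Real.exp (8 * π) * ((J + 1) * C₀ ^ 2))) := by
  have h1 := h.l2B hJ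
  have e : ∀ n : ℕ, ‖a n‖ ^ 2 / (n : ℝ) ^ 2 * Real.exp (-(4 * π * n * (y / 2))) =
      ‖a n / n‖ ^ 2 * Real.exp (-(2 * π * n * y)) := by
    intro n
    rw [norm_div, div_pow, Complex.norm_natCast]
    congr 2
    ring
  simp_rw [e] at h1
  have hs : Summable fun n : ℕ => ‖a n / n‖ * Real.exp (-(2 * π * n * y)) := by
    refine (h.summB hy).congr fun n => ?_
    rw [B1, norm_mul, norm_exp_real]
  refine (disc_le hy hq hs h1.1 x).trans ?_
  exact mul_le_mul_of_nonneg_left (mul_le_mul_of_nonneg_left h1.2 (by norm_num)) (Nat.cast_nonneg q)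

theorem Bdd.GG_sq (h : Bdd a C₀) {y : ℝ} (hy : 0 < y) (x : ℝ) :
    GG a x y ^ 2 = ∑' n : ℕ, cc a n * (Real.exp (-(2 * π * n * y)) : ℂ) *
      cexp (2 * π * Complex.I * n * x) := by
  have hn : ∀ n : ℕ, ‖cexp (2 * π * Complex.I * n * x)‖ = 1 := by
    intro n
    rw [show (2 * π * Complex.I * n * x : ℂ) = ((2 * π * n * x : ℝ) : ℂ) * Complex.I by
      push_cast; ring]
    exact Complex.norm_exp_ofReal_mul_I _
  have hs : Summable fun n : ℕ => ‖a n / n * (Real.exp (-(2 * π * n * y)) : ℂ) *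
      cexp (2 * π * Complex.I * n * x)‖ := by
    refine (h.summB hy).congr fun n => ?_
    rw [norm_mul, hn, mul_one, B1]
  rw [sq, GG, tsum_mul_tsum_eq_tsum_sum_antidiagonal_of_summable_norm hs hs]
  refine tsum_congr fun n => ?_
  rw [cc, Finset.sum_mul, Finset.sum_mul]
  refine Finset.sum_congr rfl fun kl hkl => ?_
  rw [← exp_add_anti hkl y]
  have : n = kl.1 + kl.2 := (Finset.HasAntidiagonal.mem_antidiagonal.1 hkl).symm
  rw [this]
  push_cast
  rw [show (2 * π * Complex.I * ((kl.1 : ℂ) + kl.2) * x : ℂ) =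
    2 * π * Complex.I * kl.1 * x + 2 * π * Complex.I * kl.2 * x by ring, Complex.exp_add]
  ring

theorem Bdd.disc4_J (h : Bdd a C₀) {y : ℝ} (hy : 0 < y) {q : ℕ} (hq : 1 ≤ (q : ℝ) * y) {J : ℕ}
    (hJ : (1 / 2 : ℝ) ^ J ≤ y / 2) (x : ℝ) :
    ∑ b ∈ Finset.range q, ‖GG a (x + b / q) y‖ ^ 4 ≤
      q * (2 * (4 * Real.exp (16 * π) * ((J + 1) ^ 2 * C₀ ^ 4))) := by
  have h1 := h.l4 hJ
  have e : ∀ n : ℕ, ‖cc a n‖ ^ 2 * Real.exp (-(4 * π * n * (y / 2))) =
      ‖cc a n‖ ^ 2 * Real.exp (-(2 * π * n * y)) := by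
    intro n
    congr 2
    ring
  simp_rw [e] at h1
  have hs : Summable fun n : ℕ => ‖cc a n‖ * Real.exp (-(2 * π * n * y)) := by
    refine (summable_norm_sum_mul_antidiagonal_of_summable_norm (h.summB hy)
      (h.summB hy)).congr fun n => ?_
    have e1 : ∑ kl ∈ Finset.HasAntidiagonal.antidiagonal n, B1 a y kl.1 * B1 a y kl.2 =
        cc a n * (Real.exp (-(2 * π * n * y)) : ℂ) := by
      rw [cc, Finset.sum_mul]
      refine Finset.sum_congr rfl fun kl hkl => ?_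
      rw [← exp_add_anti hkl y, B1, B1]
      push_cast
      ring
    rw [e1, norm_mul, norm_exp_real]
  have h2 := disc_le hy hq hs h1.1 x
  have e2 : ∀ b ∈ Finset.range q, ‖GG a (x + b / q) y‖ ^ 4 =
      ‖∑' n : ℕ, cc a n * (Real.exp (-(2 * π * n * y)) : ℂ) *
        cexp (2 * π * Complex.I * n * (x + b / q : ℝ))‖ ^ 2 := by
    intro b _
    rw [← h.GG_sq hy, norm_pow, ← pow_mul]
  rw [Finset.sum_congr rfl e2]
  refine h2.trans ?_
  exact mul_le_mul_of_nonneg_left (mul_le_mul_of_nonneg_left h1.2 (by norm_num)) (Nat.cast_nonneg q)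

theorem exists_J {y : ℝ} (hy : 0 < y) (hy1 : y ≤ 1) :
    ∃ J : ℕ, (1 / 2 : ℝ) ^ J ≤ y / 2 ∧ (J : ℝ) + 1 ≤ 3 * (1 + Real.log (1 / y)) := by
  have hl2 : 1 / 2 < Real.log 2 := by
    have := Real.log_two_gt_d9
    linarith
  have hl0 : 0 < Real.log 2 := by linarith
  have hly : 0 ≤ Real.log (1 / y) := Real.log_nonneg (by rw [le_div_iff₀ hy]; linarith)
  refine ⟨⌈Real.log (2 / y) / Real.log 2⌉₊, ?_, ?_⟩
  · set J := ⌈Real.log (2 / y) / Real.log 2⌉₊
    have h1 : Real.log (2 / y) / Real.log 2 ≤ J := Nat.le_ceil _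
    rw [div_le_iff₀ hl0, ← Real.log_pow, Real.log_le_log_iff (by positivity) (by positivity)] at h1
    rw [div_pow, one_pow, div_le_iff₀ (by positivity)]
    rw [div_le_iff₀ hy] at h1
    linarith
  · have h1 : (⌈Real.log (2 / y) / Real.log 2⌉₊ : ℝ) < Real.log (2 / y) / Real.log 2 + 1 :=
      Nat.ceil_lt_add_one (div_nonneg (Real.log_nonneg (by rw [le_div_iff₀ hy]; linarith)) hl0.le)
    have h2 : Real.log (2 / y) = Real.log 2 + Real.log (1 / y) := by
      rw [← Real.log_mul (by norm_num) (by positivity)]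
      congr 1
      ring
    have h4 : Real.log (2 / y) / Real.log 2 = 1 + Real.log (1 / y) / Real.log 2 := by
      rw [h2, add_div, div_self hl0.ne']
    have h3 : Real.log (1 / y) / Real.log 2 ≤ 2 * Real.log (1 / y) := by
      rw [div_le_iff₀ hl0]
      nlinarith
    linarith

/-- The discrete second moment of `G`. -/
theorem Bdd.disc2 (h : Bdd a C₀) {y : ℝ} (hy : 0 < y) (hy1 : y ≤ 1) {q : ℕ}
    (hq : 1 ≤ (q : ℝ) * y) (x : ℝ) :
    ∑ b ∈ Finset.range q, ‖GG a (x + b / q) y‖ ^ 2 ≤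
      q * (6 * Real.exp (8 * π) * C₀ ^ 2 * (1 + Real.log (1 / y))) := by
  obtain ⟨J, hJ, hJ'⟩ := exists_J hy hy1
  refine (h.disc2_J hy hq hJ x).trans ?_
  refine mul_le_mul_of_nonneg_left ?_ (Nat.cast_nonneg q)
  calc 2 * (Real.exp (8 * π) * (((J : ℝ) + 1) * C₀ ^ 2))
      ≤ 2 * (Real.exp (8 * π) * ((3 * (1 + Real.log (1 / y))) * C₀ ^ 2)) := by gcongr
    _ = _ := by ring

/-- The discrete fourth moment of `G`. -/
theorem Bdd.disc4 (h : Bdd a C₀) {y : ℝ} (hy : 0 < y) (hy1 : y ≤ 1) {q : ℕ}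
    (hq : 1 ≤ (q : ℝ) * y) (x : ℝ) :
    ∑ b ∈ Finset.range q, ‖GG a (x + b / q) y‖ ^ 4 ≤
      q * (72 * Real.exp (16 * π) * C₀ ^ 4 * (1 + Real.log (1 / y)) ^ 2) := by
  obtain ⟨J, hJ, hJ'⟩ := exists_J hy hy1
  refine (h.disc4_J hy hq hJ x).trans ?_
  refine mul_le_mul_of_nonneg_left ?_ (Nat.cast_nonneg q)
  have h0 : (0 : ℝ) ≤ (J : ℝ) + 1 := by positivity
  calc 2 * (4 * Real.exp (16 * π) * (((J : ℝ) + 1) ^ 2 * C₀ ^ 4))
      ≤ 2 * (4 * Real.exp (16 * π) * ((3 * (1 + Real.log (1 / y))) ^ 2 * C₀ ^ 4)) := by gcongr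
    _ = _ := by ring

end Pool.Agent.MU0.E4
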