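import Mathlib

/-!
# A cusp form whose first coefficients vanish is zero
-/

set_option autoImplicit false

namespace Pool.Agent.MU0

open UpperHalfPlane CongruenceSubgroup Filter Topology Asymptotics
open scoped MatrixGroups Modular ModularForm

/-- A cusp form with `a n = 0` for `n < M` is `O(exp (-2πM Im τ))`. -/
private lemma fd_decay {Γ : Subgroup (GL (Fin 2) ℝ)} [Γ.IsArithmetic] {k : ℤ}
    (hΓ : (1 : ℝ) ∈ Γ.strictPeriods) (f : CuspForm Γ k) (M : ℕ)
    (h0 : ∀ n < M, (qExpansion 1 f).coeff n = 0) :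
    (f : ℍ → ℂ) =O[atImInfty] fun τ => Real.exp (-(2 * Real.pi * M * τ.im)) := by
  have hs : Summable fun m : ℕ => ‖(qExpansion 1 f).coeff m *
      Function.Periodic.qParam 1 (I : ℍ) ^ m‖ :=
    (ModularForm.hasSum_qExpansion f one_pos hΓ I).summable.norm
  refine IsBigO.of_bound (Real.exp (2 * Real.pi * M) * ∑' m : ℕ, ‖(qExpansion 1 f).coeff m *
      Function.Periodic.qParam 1 (I : ℍ) ^ m‖) ?_
  rw [atImInfty, eventually_comap]
  filter_upwards [eventually_ge_atTop (1 : ℝ)] with y hy τ hτ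
  have h1 := ModularForm.hasSum_qExpansion f one_pos hΓ τ
  have hq : ∀ σ : ℍ, ‖Function.Periodic.qParam 1 (σ : ℂ)‖ = Real.exp (-(2 * Real.pi * σ.im)) := by
    intro σ
    rw [Function.Periodic.norm_qParam]
    congr 1
    simp
  have hb : ∀ m : ℕ, ‖(qExpansion 1 f).coeff m * Function.Periodic.qParam 1 (τ : ℂ) ^ m‖ ≤
      (Real.exp (2 * Real.pi * M) * Real.exp (-(2 * Real.pi * M * τ.im))) *
      ‖(qExpansion 1 f).coeff m * Function.Periodic.qParam 1 (I : ℍ) ^ m‖ := by
    intro m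
    by_cases hm : m < M
    · simp [h0 m hm]
    · have hm' : (M : ℝ) ≤ m := by exact_mod_cast not_lt.1 hm
      have h3 : 0 ≤ Real.pi * (((m : ℝ) - M) * (y - 1)) :=
        mul_nonneg Real.pi_pos.le (mul_nonneg (by linarith) (by linarith))
      rw [norm_mul, norm_mul, norm_pow, norm_pow, hq, hq, ← Real.exp_nat_mul, ← Real.exp_nat_mul]
      have hIim : (I : ℍ).im = 1 := I_im
      rw [hIim, hτ]
      calc _ ≤ ‖(qExpansion 1 f).coeff m‖ * Real.exp (2 * Real.pi * M +
            -(2 * Real.pi * M * y) + m * -(2 * Real.pi * 1)) :=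
            mul_le_mul_of_nonneg_left (Real.exp_le_exp.2 (by nlinarith)) (norm_nonneg _)
        _ = _ := by rw [Real.exp_add, Real.exp_add]; ring
  have h2 : ‖f τ‖ ≤ ∑' m : ℕ, (Real.exp (2 * Real.pi * M) *
      Real.exp (-(2 * Real.pi * M * τ.im))) *
      ‖(qExpansion 1 f).coeff m * Function.Periodic.qParam 1 (I : ℍ) ^ m‖ := by
    rw [← h1.tsum_eq]
    exact tsum_of_norm_bounded (hs.mul_left _).hasSum hb
  rw [tsum_mul_left] at h2
  rw [Real.norm_of_nonneg (Real.exp_pos _).le]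
  calc ‖f τ‖ ≤ _ := h2
    _ = _ := by ring

/-- A modular form of level one which is `O(exp (-2πM Im τ))` has `a n = 0` for `n < M`. -/
private lemma fd_coeff {k : ℤ} (F : ModularForm 𝒮ℒ k) (M : ℕ)
    (hF : (F : ℍ → ℂ) =O[atImInfty] fun τ => Real.exp (-(2 * Real.pi * M * τ.im))) (n : ℕ)
    (hn : n < M) : (qExpansion 1 F).coeff n = 0 := by
  obtain ⟨C, hC0, hC⟩ := hF.exists_pos
  rw [IsBigOWith, atImInfty, eventually_comap, eventually_atTop] at hC
  obtain ⟨y, hy⟩ := hC
  have hb : ∀ t : ℝ, max y 1 ≤ t → ‖(qExpansion 1 F).coeff n‖ ≤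
      C * Real.exp (-(2 * Real.pi * t)) := by
    intro t ht
    have ht1 : 1 ≤ t := (le_max_right _ _).trans ht
    have hty : y ≤ t := (le_max_left _ _).trans ht
    have ht0 : 0 < t := by linarith
    rw [ModularFormClass.qExpansion_coeff_eq_intervalIntegral F one_pos
      (by simp : (1 : ℝ) ∈ (𝒮ℒ).strictPeriods) n ht0]
    simp only [Complex.ofReal_one, div_one, one_mul]
    refine (intervalIntegral.norm_integral_le_of_norm_le_const (C :=
      C * Real.exp (-(2 * Real.pi * t))) ?_).trans ?_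
    · intro u _
      have h1 := hy t hty ⟨(u : ℂ) + t * Complex.I, by simpa using ht0⟩ (by
        change ((u : ℂ) + t * Complex.I).im = t
        simp)
      rw [norm_mul, norm_div, norm_one, norm_pow, Function.Periodic.norm_qParam]
      have him : ((u : ℂ) + t * Complex.I).im = t := by simp
      have him' : (⟨(u : ℂ) + t * Complex.I, by simpa using ht0⟩ : ℍ).im = t := by
        change ((u : ℂ) + t * Complex.I).im = t
        simp
      rw [him'] at h1
      rw [him, ← Real.exp_nat_mul, one_div, ← Real.exp_neg]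
      rw [Real.norm_of_nonneg (Real.exp_pos _).le] at h1
      calc _ ≤ Real.exp (-(n * (-2 * Real.pi * t / 1))) *
          (C * Real.exp (-(2 * Real.pi * M * t))) :=
            mul_le_mul_of_nonneg_left h1 (Real.exp_pos _).le
        _ = C * Real.exp (-(n * (-2 * Real.pi * t / 1)) + -(2 * Real.pi * M * t)) := by
            rw [Real.exp_add]; ring
        _ ≤ C * Real.exp (-(2 * Real.pi * t)) := by
            refine mul_le_mul_of_nonneg_left (Real.exp_le_exp.2 ?_) hC0.le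
            have hn' : (n : ℝ) + 1 ≤ M := by exact_mod_cast hn
            have : 0 ≤ (M - 1 - n : ℝ) * (Real.pi * t) :=
              mul_nonneg (by linarith) (mul_nonneg Real.pi_pos.le ht0.le)
            nlinarith
    · simp
  have hlim : Tendsto (fun t : ℝ => C * Real.exp (-(2 * Real.pi * t))) atTop (𝓝 (C * 0)) := by
    refine Tendsto.const_mul C (Real.tendsto_exp_neg_atTop_nhds_zero.comp ?_)
    exact tendsto_id.const_mul_atTop (by positivity)
  have h1 : ‖(qExpansion 1 F).coeff n‖ ≤ C * 0 :=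
    ge_of_tendsto hlim (eventually_atTop.2 ⟨max y 1, fun t ht => hb t ht⟩)
  rw [mul_zero] at h1
  exact norm_le_zero_iff.1 h1

/-- A cusp form whose first `M` coefficients vanish is zero. -/
theorem fd_gen (Γ : Subgroup (GL (Fin 2) ℝ)) [Γ.IsArithmetic] (hΓ : (1 : ℝ) ∈ Γ.strictPeriods)
    (k : ℤ) : ∃ M : ℕ, ∀ h : CuspForm Γ k, (∀ n < M, (qExpansion 1 h).coeff n = 0) → h = 0 := by
  classical
  refine ⟨(k * (Nat.card (𝒮ℒ ⧸ Γ.subgroupOf 𝒮ℒ) : ℤ)).toNat / 12 + 1, fun h h0 => ?_⟩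
  set M : ℕ := (k * (Nat.card (𝒮ℒ ⧸ Γ.subgroupOf 𝒮ℒ) : ℤ)).toNat / 12 + 1 with hM
  have hdec := fd_decay hΓ h M h0
  let := Fintype.ofFinite (𝒮ℒ ⧸ Γ.subgroupOf 𝒮ℒ)
  have hnorm : (ModularForm.norm 𝒮ℒ h : ℍ → ℂ) =O[atImInfty]
      fun τ => Real.exp (-(2 * Real.pi * M * τ.im)) := by
    rw [ModularForm.coe_norm]
    have e : (fun τ : ℍ => Real.exp (-(2 * Real.pi * M * τ.im))) =
        fun τ : ℍ => ∏ q : 𝒮ℒ ⧸ Γ.subgroupOf 𝒮ℒ,
          (if q = QuotientGroup.mk 1 then Real.exp (-(2 * Real.pi * M * τ.im)) else 1) := by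
      ext τ
      rw [Finset.prod_ite_eq']
      simp
    rw [e, Finset.prod_fn]
    refine IsBigO.finsetProd (𝕜 := ℝ) (R := ℂ) (s := Finset.univ)
      (f := fun q : 𝒮ℒ ⧸ Γ.subgroupOf 𝒮ℒ => SlashInvariantForm.quotientFunc h q)
      (g := fun (q : 𝒮ℒ ⧸ Γ.subgroupOf 𝒮ℒ) (τ : ℍ) =>
        if q = QuotientGroup.mk 1 then Real.exp (-(2 * Real.pi * M * τ.im)) else 1) fun q _ => ?_
    by_cases hq : q = QuotientGroup.mk 1
    · simp only [hq, if_true]
      have : SlashInvariantForm.quotientFunc h (QuotientGroup.mk (1 : 𝒮ℒ) :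
          𝒮ℒ ⧸ Γ.subgroupOf 𝒮ℒ) = (h : ℍ → ℂ) := by
        refine (SlashInvariantForm.quotientFunc_mk h 1).trans ?_
        simp
      rw [this]
      exact hdec
    · simp only [hq, if_false]
      induction q using QuotientGroup.induction_on with
      | H g =>
        obtain ⟨g, γ, rfl⟩ := g
        have h1 := ModularFormClass.bdd_at_infty_slash (f := h) γ⁻¹
        have h2 : SlashInvariantForm.quotientFunc h (QuotientGroup.mk
            (⟨Matrix.SpecialLinearGroup.mapGL ℝ γ, ⟨γ, rfl⟩⟩ : 𝒮ℒ) :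
          𝒮ℒ ⧸ Γ.subgroupOf 𝒮ℒ) = (h : ℍ → ℂ) ∣[k] γ⁻¹ := by
          refine (SlashInvariantForm.quotientFunc_mk h _).trans ?_
          rw [ModularForm.SL_slash, map_inv, map_inv]
          rfl
        have h3 : (fun τ => SlashInvariantForm.quotientFunc h (QuotientGroup.mk
            (⟨Matrix.SpecialLinearGroup.mapGL ℝ γ, ⟨γ, rfl⟩⟩ : 𝒮ℒ) :
          𝒮ℒ ⧸ Γ.subgroupOf 𝒮ℒ) τ) = (h : ℍ → ℂ) ∣[k] γ⁻¹ := h2
        refine IsBigO.trans (IsBigO.of_bound 1 (Eventually.of_forall fun τ => ?_)) h1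
        rw [← h2, one_mul]
  have hz : ModularForm.norm 𝒮ℒ h = 0 := by
    refine ModularForm.sturm_bound_levelOne ?_
    have : (M : ℕ∞) ≤ (qExpansion 1 (ModularForm.norm 𝒮ℒ h)).order :=
      PowerSeries.nat_le_order _ _ fun i hi => fd_coeff _ M hnorm i hi
    refine lt_of_lt_of_le ?_ this
    rw [hM]
    exact_mod_cast Nat.lt_succ_self _
  rw [ModularForm.norm_eq_zero_iff] at hz
  exact DFunLike.coe_injective hz

theorem fd {N : ℕ} [NeZero N] : ∃ M : ℕ, ∀ h : CuspForm (Gamma0 N) 2,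
    (∀ n < M, (qExpansion 1 h).coeff n = 0) → h = 0 :=
  fd_gen _ (by simp) 2

/-- The space of cusp forms of weight two is finite dimensional. -/
theorem fd_finite (N : ℕ) [NeZero N] : Module.Finite ℂ (CuspForm (Gamma0 N) 2) := by
  obtain ⟨M, hM⟩ := fd (N := N)
  have hΓ : (1 : ℝ) ∈ ((Gamma0 N : Subgroup SL(2, ℤ)) : Subgroup (GL (Fin 2) ℝ)).strictPeriods := by
    simp
  let φ : CuspForm (Gamma0 N) 2 →ₗ[ℂ] (Fin M → ℂ) :=
    { toFun := fun h n => (qExpansion 1 h).coeff n
      map_add' := fun h g => by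
        ext n
        have := ModularForm.qExpansion_add one_pos hΓ h g
        rw [FunLike.coe_add, this, map_add]
        rfl
      map_smul' := fun c h => by
        ext n
        have := ModularForm.qExpansion_smul one_pos hΓ c h
        rw [FunLike.coe_smul, this]
        simp }
  refine Module.Finite.of_injective φ ?_
  rw [← LinearMap.ker_eq_bot, LinearMap.ker_eq_bot']
  intro h hh
  refine hM h fun n hn => ?_
  exact congrFun hh ⟨n, hn⟩

end Pool.Agent.MU0
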