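import Pool.Agent.MU0.Defs

/-!
# The contradiction
-/

set_option autoImplicit false

open Finset Filter
open scoped Real

namespace Pool.Agent.MU0

/-- Hölder's inequality for an integral valued function, for sums -/
theorem fin_holder {ι : Type*} [Fintype ι] (Y : ι → ℤ) (R : ι → ℝ) :
    (∑ i, (Y i : ℝ) * R i) ^ 4 ≤ (∑ i, (Y i : ℝ) ^ 2) ^ 3 * ∑ i, R i ^ 4 := by
  have h1 : (∑ i, (Y i : ℝ) * R i) ^ 2 ≤ (∑ i, |(Y i : ℝ)|) * ∑ i, |(Y i : ℝ)| * R i ^ 2 := by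
    have h := Finset.sum_mul_sq_le_sq_mul_sq univ (fun i => √|(Y i : ℝ)|)
      (fun i => √|(Y i : ℝ)| * |R i|)
    have e1 : ∀ i, √|(Y i : ℝ)| * (√|(Y i : ℝ)| * |R i|) = |(Y i : ℝ) * R i| := by
      intro i
      rw [← mul_assoc, Real.mul_self_sqrt (abs_nonneg _), abs_mul]
    have e2 : ∀ i, √|(Y i : ℝ)| ^ 2 = |(Y i : ℝ)| := fun i => Real.sq_sqrt (abs_nonneg _)
    have e3 : ∀ i, (√|(Y i : ℝ)| * |R i|) ^ 2 = |(Y i : ℝ)| * R i ^ 2 := by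
      intro i
      rw [mul_pow, e2, sq_abs]
    simp only [e1, e2, e3] at h
    refine le_trans ?_ h
    have h3 : |∑ i, (Y i : ℝ) * R i| ≤ ∑ i, |(Y i : ℝ) * R i| := Finset.abs_sum_le_sum_abs _ _
    rw [← sq_abs (∑ i, (Y i : ℝ) * R i)]
    exact pow_le_pow_left₀ (abs_nonneg _) h3 2
  have h2 : (∑ i, |(Y i : ℝ)| * R i ^ 2) ^ 2 ≤ (∑ i, (Y i : ℝ) ^ 2) * ∑ i, R i ^ 4 := by
    have h := Finset.sum_mul_sq_le_sq_mul_sq univ (fun i => |(Y i : ℝ)|) (fun i => R i ^ 2)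
    have e1 : ∀ i, |(Y i : ℝ)| ^ 2 = (Y i : ℝ) ^ 2 := fun i => sq_abs _
    have e2 : ∀ i, (R i ^ 2) ^ 2 = R i ^ 4 := fun i => by ring
    simp only [e1, e2] at h
    exact h
  have h3 : (∑ i, |(Y i : ℝ)|) ≤ ∑ i, (Y i : ℝ) ^ 2 := by
    refine Finset.sum_le_sum fun i _ => ?_
    rw [← sq_abs]
    rcases eq_or_ne (Y i) 0 with h | h
    · simp [h]
    · have : (1 : ℝ) ≤ |(Y i : ℝ)| := by
        have := Int.one_le_abs h
        exact_mod_cast this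
      nlinarith
  have h0 : 0 ≤ ∑ i, |(Y i : ℝ)| := Finset.sum_nonneg fun i _ => abs_nonneg _
  have h0' : 0 ≤ ∑ i, |(Y i : ℝ)| * R i ^ 2 := Finset.sum_nonneg fun i _ => by positivity
  have h00 : 0 ≤ ∑ i, (Y i : ℝ) ^ 2 := Finset.sum_nonneg fun i _ => by positivity
  have h000 : 0 ≤ ∑ i, R i ^ 4 := Finset.sum_nonneg fun i _ => by positivity
  calc (∑ i, (Y i : ℝ) * R i) ^ 4 = ((∑ i, (Y i : ℝ) * R i) ^ 2) ^ 2 := by ring
    _ ≤ ((∑ i, |(Y i : ℝ)|) * ∑ i, |(Y i : ℝ)| * R i ^ 2) ^ 2 :=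
        pow_le_pow_left₀ (sq_nonneg _) h1 2
    _ = (∑ i, |(Y i : ℝ)|) ^ 2 * (∑ i, |(Y i : ℝ)| * R i ^ 2) ^ 2 := by ring
    _ ≤ (∑ i, (Y i : ℝ) ^ 2) ^ 2 * ((∑ i, (Y i : ℝ) ^ 2) * ∑ i, R i ^ 4) := by
        apply mul_le_mul (pow_le_pow_left₀ h0 h3 2) h2 (sq_nonneg _) (sq_nonneg _)
    _ = _ := by ring

/-- the abstract contradiction: `T = κ + p Ω Y` -/
theorem fin_abstract {q : ℕ} [NeZero q] (T R : (ZMod q)ˣ → ℝ) (P Ω κ : ℝ) (hP : 0 < P) (hΩ : Ω ≠ 0)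
    (Y : (ZMod q)ˣ → ℤ) (hT : ∀ b, T b = κ + P * Ω * Y b) (hR : EU q R = 0) :
    EU q (fun b => T b * R b) ^ 4 ≤
      64 * P ^ (-(2 : ℝ)) / Ω ^ 2 * EU q (fun b => T b ^ 2) ^ 3 * EU q (fun b => R b ^ 4) := by
  have hPΩ : P * Ω ≠ 0 := mul_ne_zero hP.ne' hΩ
  have hPΩ' : 0 < |P * Ω| := abs_pos.2 hPΩ
  set m : ℤ := round (κ / (P * Ω)) with hm
  set κ' : ℝ := κ - P * Ω * m with hκ'
  set Z : (ZMod q)ˣ → ℤ := fun b => Y b + m with hZ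
  have hT' : ∀ b, T b = κ' + P * Ω * Z b := by
    intro b
    rw [hT b, hκ', hZ]
    push_cast
    ring
  have hκ : |κ'| ≤ |P * Ω| / 2 := by
    have h1 := abs_sub_round (κ / (P * Ω))
    have h2 : κ' = (κ / (P * Ω) - round (κ / (P * Ω))) * (P * Ω) := by
      rw [hκ', hm, sub_mul, div_mul_cancel₀ _ hPΩ]
      ring
    rw [h2, abs_mul]
    calc |κ / (P * Ω) - round (κ / (P * Ω))| * |P * Ω| ≤ 1 / 2 * |P * Ω| :=
          mul_le_mul_of_nonneg_right h1 hPΩ'.le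
      _ = |P * Ω| / 2 := by ring
  have hZT : ∀ b, (Z b : ℝ) ^ 2 ≤ 4 / (P * Ω) ^ 2 * T b ^ 2 := by
    intro b
    have h1 : |P * Ω| * |(Z b : ℝ)| ≤ 2 * |T b| := by
      rcases eq_or_ne (Z b) 0 with h | h
      · rw [h]
        simp
      · have h2 : (1 : ℝ) ≤ |(Z b : ℝ)| := by exact_mod_cast Int.one_le_abs h
        have h3 : |P * Ω * Z b| ≤ |T b| + |κ'| := by
          have : P * Ω * Z b = T b - κ' := by rw [hT' b]; ring
          rw [this]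
          exact abs_sub _ _
        rw [abs_mul] at h3
        nlinarith
    have h2 : (|P * Ω| * |(Z b : ℝ)|) ^ 2 ≤ (2 * |T b|) ^ 2 :=
      pow_le_pow_left₀ (by positivity) h1 2
    rw [mul_pow, mul_pow, sq_abs, sq_abs, sq_abs] at h2
    have h3 : 0 < (P * Ω) ^ 2 := by positivity
    rw [div_mul_eq_mul_div, le_div_iff₀ h3]
    nlinarith
  set φ : ℝ := (q.totient : ℝ) with hφ
  have hφ0 : 0 < φ := by
    rw [hφ]
    exact_mod_cast Nat.totient_pos.2 (Nat.pos_of_ne_zero (NeZero.ne q))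
  have hR' : ∑ b, R b = 0 := by
    have h1 : (∑ b, R b) / φ = 0 := hR
    rcases div_eq_zero_iff.1 h1 with h | h
    · exact h
    · exact absurd h hφ0.ne'
  have hTR : ∑ b, T b * R b = P * Ω * ∑ b, (Z b : ℝ) * R b := by
    calc ∑ b, T b * R b = ∑ b, (κ' * R b + P * Ω * ((Z b : ℝ) * R b)) := by
          refine Finset.sum_congr rfl fun b _ => ?_
          rw [hT' b]
          ring
      _ = κ' * ∑ b, R b + P * Ω * ∑ b, (Z b : ℝ) * R b := by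
          rw [Finset.sum_add_distrib, ← Finset.mul_sum, ← Finset.mul_sum]
      _ = _ := by rw [hR', mul_zero, zero_add]
  have hZ2 : ∑ b, (Z b : ℝ) ^ 2 ≤ 4 / (P * Ω) ^ 2 * ∑ b, T b ^ 2 := by
    rw [Finset.mul_sum]
    exact Finset.sum_le_sum fun b _ => hZT b
  have hH := fin_holder Z R
  have hZ0 : 0 ≤ ∑ b, (Z b : ℝ) ^ 2 := Finset.sum_nonneg fun i _ => by positivity
  have hR4 : 0 ≤ ∑ b, R b ^ 4 := Finset.sum_nonneg fun i _ => by positivity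
  have key : (∑ b, T b * R b) ^ 4 ≤
      64 / (P ^ 2 * Ω ^ 2) * (∑ b, T b ^ 2) ^ 3 * ∑ b, R b ^ 4 := by
    rw [hTR, mul_pow]
    calc (P * Ω) ^ 4 * (∑ b, (Z b : ℝ) * R b) ^ 4
        ≤ (P * Ω) ^ 4 * ((∑ b, (Z b : ℝ) ^ 2) ^ 3 * ∑ b, R b ^ 4) :=
          mul_le_mul_of_nonneg_left hH (by positivity)
      _ ≤ (P * Ω) ^ 4 * ((4 / (P * Ω) ^ 2 * ∑ b, T b ^ 2) ^ 3 * ∑ b, R b ^ 4) := by
          gcongr
      _ = 64 / (P ^ 2 * Ω ^ 2) * (∑ b, T b ^ 2) ^ 3 * ∑ b, R b ^ 4 := by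
          field_simp
          ring
  unfold EU
  rw [← hφ]
  have hP2 : P ^ (-(2 : ℝ)) = 1 / P ^ 2 := by
    rw [Real.rpow_neg hP.le, one_div]
    norm_num
  rw [hP2]
  have e : 64 * (1 / P ^ 2) / Ω ^ 2 * ((∑ b, T b ^ 2) / φ) ^ 3 * ((∑ b, R b ^ 4) / φ) =
      (64 / (P ^ 2 * Ω ^ 2) * (∑ b, T b ^ 2) ^ 3 * ∑ b, R b ^ 4) / φ ^ 4 := by
    field_simp
  rw [e, div_pow]
  exact div_le_div_of_nonneg_right key (by positivity)

end Pool.Agent.MU0
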