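import Mathlib

/-!
# Numerical facts for the final contradiction
-/

set_option autoImplicit false

open Finset Filter
open scoped Real

namespace Pool.Agent.MU0

/-- powers of the logarithm are small -/
theorem fin_ev (D : ℝ) (k : ℕ) (s t : ℝ) (h : s < t) :
    ∀ᶠ p : ℕ in atTop, D * Real.log p ^ k * (p : ℝ) ^ s ≤ (p : ℝ) ^ t := by
  have h1 : (fun x : ℝ => D * Real.log x ^ k) =o[atTop] fun x : ℝ => x ^ (t - s) := by
    apply Asymptotics.IsLittleO.const_mul_left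
    have := isLittleO_log_rpow_rpow_atTop (k : ℝ) (sub_pos.2 h)
    simpa only [Real.rpow_natCast] using this
  have h2 : ∀ᶠ x : ℝ in atTop, ‖D * Real.log x ^ k‖ ≤ 1 * ‖x ^ (t - s)‖ :=
    h1.bound (by norm_num)
  have h3 := tendsto_natCast_atTop_atTop (R := ℝ) |>.eventually h2
  filter_upwards [h3, eventually_ge_atTop 1] with p hp hp1
  have hp0 : (0 : ℝ) < p := by exact_mod_cast hp1
  rw [one_mul, Real.norm_of_nonneg (Real.rpow_nonneg hp0.le _)] at hp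
  have h4 : D * Real.log p ^ k ≤ (p : ℝ) ^ (t - s) := (le_abs_self _).trans hp
  calc D * Real.log p ^ k * (p : ℝ) ^ s ≤ (p : ℝ) ^ (t - s) * (p : ℝ) ^ s :=
        mul_le_mul_of_nonneg_right h4 (Real.rpow_nonneg hp0.le _)
    _ = (p : ℝ) ^ t := by rw [← Real.rpow_add hp0]; congr 1; ring

theorem fin_ev0 (D t : ℝ) (h : 0 < t) : ∀ᶠ p : ℕ in atTop, D ≤ (p : ℝ) ^ t := by
  filter_upwards [fin_ev D 0 0 t h] with p hp
  simpa using hp

theorem fin_exp {l : ℝ} (h : 20 ≤ l) : 2 * (1 + l) ^ 2 ≤ Real.exp l := by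
  have h1 : 1 + l / 4 ≤ Real.exp (l / 4) := by
    have := Real.add_one_le_exp (l / 4)
    linarith
  have h2 : (1 + l / 4) ^ 4 ≤ Real.exp (l / 4) ^ 4 := pow_le_pow_left₀ (by linarith) h1 4
  have h3 : Real.exp (l / 4) ^ 4 = Real.exp l := by
    rw [← Real.exp_nat_mul]
    congr 1
    push_cast
    ring
  rw [h3] at h2
  refine le_trans ?_ h2
  have h4 : 3 / 2 * (1 + l) ≤ (1 + l / 4) ^ 2 := by nlinarith
  have h5 : (3 / 2 * (1 + l)) ^ 2 ≤ ((1 + l / 4) ^ 2) ^ 2 := pow_le_pow_left₀ (by linarith) h4 2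
  nlinarith

/-- The parameters. -/
theorem fin_K (w δ : ℝ) (hw : 0 < w) (hw' : w < 1 / 2) (hδ : 0 < δ) (hδ' : δ < 1 / 10) (D : ℕ) :
    ∀ᶠ p : ℕ in atTop, ∀ (l : ℝ) (K n : ℕ), l = (p : ℝ) ^ (1 - w - 2 * δ) →
      K = ⌈Real.exp l * (1 + l) ^ 2⌉₊ → n = 2 * ⌈(p : ℝ) ^ (1 - w)⌉₊ →
      20 ≤ l ∧ 1000 * Real.log p ≤ l ∧ (p : ℝ) ^ 1000 ≤ Real.exp l ∧ 2 ≤ (p : ℝ) ^ 1000 ∧
      Real.exp l * (1 + l) ^ 2 ≤ K ∧ Real.exp l ≤ K ∧ 2 ≤ K ∧ Real.log K ≤ 2 * l ∧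
      Real.log K ≤ p ∧ Real.log K * (p : ℝ) ^ δ ≤ n * Real.log p ∧ p ^ 100 ≤ K ∧
      K ^ D ≤ p ^ n ∧ 4 * K < p ^ n ∧ 2 ≤ n ∧ Even n := by
  filter_upwards [fin_ev0 20 (1 - w - 2 * δ) (by linarith),
    fin_ev 1000 1 0 (1 - w - 2 * δ) (by linarith), eventually_ge_atTop 3,
    fin_ev0 2 (w + 2 * δ) (by linarith), fin_ev0 2 δ hδ,
    fin_ev0 ((2 * D : ℕ) : ℝ) (2 * δ) (by linarith)] with p h20 h1000 hp3 hp2 hpδ hD
  intro l K n hl hK hn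
  have hp0 : (0 : ℝ) < p := by
    have : 0 < p := by omega
    exact_mod_cast this
  have hp1 : (1 : ℝ) ≤ p := by
    have : 1 ≤ p := by omega
    exact_mod_cast this
  have hp3' : (3 : ℝ) ≤ p := by exact_mod_cast hp3
  rw [← hl] at h20 h1000
  rw [pow_one, Real.rpow_zero, mul_one] at h1000
  have hlog1 : 1 ≤ Real.log p := by
    rw [Real.le_log_iff_exp_le hp0]
    have := Real.exp_one_lt_three
    linarith
  have e1 : (p : ℝ) ^ 1000 = Real.exp (1000 * Real.log p) := by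
    have h := Real.exp_nat_mul (Real.log p) 1000
    rw [Real.exp_log hp0] at h
    rw [← h]
    norm_num
  have h3 : (p : ℝ) ^ 1000 ≤ Real.exp l := by
    rw [e1]
    exact Real.exp_le_exp.2 h1000
  have h4 : (2 : ℝ) ≤ (p : ℝ) ^ 1000 := by
    calc (2 : ℝ) ≤ p := by linarith
      _ ≤ (p : ℝ) ^ 1000 := le_self_pow₀ hp1 (by norm_num)
  have h5 : Real.exp l * (1 + l) ^ 2 ≤ K := by rw [hK]; exact Nat.le_ceil _
  have hl1 : 1 ≤ (1 + l) ^ 2 := by nlinarith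
  have hexp0 : 0 < Real.exp l := Real.exp_pos l
  have h6 : Real.exp l ≤ K := by
    refine le_trans ?_ h5
    nlinarith
  have hexp20 : 2 * (1 + l) ^ 2 ≤ Real.exp l := fin_exp h20
  have h7' : (2 : ℝ) ≤ K := by nlinarith
  have h7 : 2 ≤ K := by exact_mod_cast h7'
  have hK0 : (0 : ℝ) < K := by linarith
  have h8 : Real.log K ≤ 2 * l := by
    rw [Real.log_le_iff_le_exp hK0]
    have h81 : (K : ℝ) ≤ Real.exp l * (1 + l) ^ 2 + 1 := by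
      rw [hK]
      exact (Nat.ceil_lt_add_one (by positivity)).le
    have h82 : (1 : ℝ) ≤ Real.exp l * (1 + l) ^ 2 := by nlinarith
    have h83 : Real.exp (2 * l) = Real.exp l * Real.exp l := by
      rw [← Real.exp_add]
      congr 1
      ring
    rw [h83]
    calc (K : ℝ) ≤ Real.exp l * (1 + l) ^ 2 + 1 := h81
      _ ≤ Real.exp l * (2 * (1 + l) ^ 2) := by nlinarith
      _ ≤ Real.exp l * Real.exp l := mul_le_mul_of_nonneg_left hexp20 hexp0.le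
  -- l * p ^ (w + 2 δ) = p
  have h9 : l * (p : ℝ) ^ (w + 2 * δ) = p := by
    rw [hl, ← Real.rpow_add hp0]
    have : 1 - w - 2 * δ + (w + 2 * δ) = 1 := by ring
    rw [this, Real.rpow_one]
  have h9' : Real.log K ≤ p := by
    have : 2 * l ≤ l * (p : ℝ) ^ (w + 2 * δ) := by nlinarith
    linarith
  have hn' : 2 * (p : ℝ) ^ (1 - w) ≤ n := by
    rw [hn]
    push_cast
    linarith [Nat.le_ceil ((p : ℝ) ^ (1 - w))]
  have h10 : l * (p : ℝ) ^ (2 * δ) = (p : ℝ) ^ (1 - w) := by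
    rw [hl, ← Real.rpow_add hp0]
    congr 1
    ring
  have hlogK0 : 0 ≤ Real.log K := Real.log_nonneg (by linarith)
  have hpd1 : (p : ℝ) ^ δ ≤ (p : ℝ) ^ (2 * δ) :=
    Real.rpow_le_rpow_of_exponent_le hp1 (by linarith)
  have hpd0 : 0 < (p : ℝ) ^ δ := Real.rpow_pos_of_pos hp0 _
  have hn0 : (0 : ℝ) ≤ n := Nat.cast_nonneg _
  have h11 : Real.log K * (p : ℝ) ^ δ ≤ n * Real.log p := by
    calc Real.log K * (p : ℝ) ^ δ ≤ 2 * l * (p : ℝ) ^ (2 * δ) := by gcongr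
      _ = 2 * (p : ℝ) ^ (1 - w) := by rw [mul_assoc, h10]
      _ ≤ n := hn'
      _ ≤ n * Real.log p := by nlinarith
  have h12 : p ^ 100 ≤ K := by
    have : (p : ℝ) ^ 100 ≤ K := by
      calc (p : ℝ) ^ 100 ≤ (p : ℝ) ^ 1000 := pow_le_pow_right₀ hp1 (by norm_num)
        _ ≤ _ := h3.trans h6
    exact_mod_cast this
  have h13 : D * Real.log K ≤ n * Real.log p := by
    calc D * Real.log K ≤ D * (2 * l) := by gcongr
      _ = ((2 * D : ℕ) : ℝ) * l := by push_cast; ring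
      _ ≤ (p : ℝ) ^ (2 * δ) * l := by gcongr
      _ = (p : ℝ) ^ (1 - w) := by rw [mul_comm, h10]
      _ ≤ 2 * (p : ℝ) ^ (1 - w) := by
          have : 0 ≤ (p : ℝ) ^ (1 - w) := Real.rpow_nonneg hp0.le _
          linarith
      _ ≤ n := hn'
      _ ≤ n * Real.log p := by nlinarith
  have h14 : K ^ D ≤ p ^ n := by
    have h141 : Real.log ((K : ℝ) ^ D) ≤ Real.log ((p : ℝ) ^ n) := by
      rw [Real.log_pow, Real.log_pow]
      exact h13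
    have h142 := (Real.log_le_log_iff (by positivity) (by positivity)).1 h141
    exact_mod_cast h142
  have h15 : 4 * K < p ^ n := by
    have h151 : Real.log (8 * K) ≤ Real.log ((p : ℝ) ^ n) := by
      rw [Real.log_mul (by norm_num) hK0.ne', Real.log_pow]
      have h152 : Real.log 8 ≤ Real.log K := by
        apply Real.log_le_log (by norm_num)
        nlinarith
      calc Real.log 8 + Real.log K ≤ Real.log K * 2 := by linarith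
        _ ≤ Real.log K * (p : ℝ) ^ δ := by gcongr
        _ ≤ _ := h11
    have h153 := (Real.log_le_log_iff (by positivity) (by positivity)).1 h151
    have h154 : 8 * K ≤ p ^ n := by exact_mod_cast h153
    omega
  have h16 : 2 ≤ n := by
    have : 1 ≤ ⌈(p : ℝ) ^ (1 - w)⌉₊ := Nat.one_le_ceil_iff.2 (Real.rpow_pos_of_pos hp0 _)
    omega
  have h17 : Even n := ⟨⌈(p : ℝ) ^ (1 - w)⌉₊, by omega⟩
  exact ⟨h20, h1000, h3, h4, h5, h6, h7, h8, h9', h11, h12, h14, h15, h16, h17⟩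

theorem fin_F {C₄ C₈ C₂ m l P Z L lK G X : ℝ} (hl : 0 ≤ l) (hP : 0 ≤ P) (hL : 0 ≤ L)
    (hG : G ≤ C₈ * l ^ 2) (hG0 : 0 ≤ G) (hK : 1 + lK ≤ 3 * l) (hK0 : 0 ≤ lK)
    (hX : X ≤ C₄ * (m ^ 2 * G + P ^ 2 * Z ^ 2 * (C₂ ^ 2 * L ^ 4 * (1 + lK)) + 1)) :
    X ≤ |C₄| * (|C₈| + 3 * C₂ ^ 2 + 1) * (m ^ 2 * l ^ 2 + P ^ 2 * Z ^ 2 * L ^ 4 * l + 1) := by
  refine hX.trans ?_
  have e1 : G ≤ |C₈| * l ^ 2 :=
    hG.trans (mul_le_mul_of_nonneg_right (le_abs_self _) (sq_nonneg _))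
  have e3 : 0 ≤ m ^ 2 * G + P ^ 2 * Z ^ 2 * (C₂ ^ 2 * L ^ 4 * (1 + lK)) + 1 := by positivity
  calc C₄ * (m ^ 2 * G + P ^ 2 * Z ^ 2 * (C₂ ^ 2 * L ^ 4 * (1 + lK)) + 1)
      ≤ |C₄| * (m ^ 2 * G + P ^ 2 * Z ^ 2 * (C₂ ^ 2 * L ^ 4 * (1 + lK)) + 1) :=
        mul_le_mul_of_nonneg_right (le_abs_self _) e3
    _ ≤ |C₄| * (m ^ 2 * (|C₈| * l ^ 2) + P ^ 2 * Z ^ 2 * (C₂ ^ 2 * L ^ 4 * (3 * l)) + 1) := by
        gcongr
    _ = |C₄| * (|C₈| * (m ^ 2 * l ^ 2) + 3 * C₂ ^ 2 * (P ^ 2 * Z ^ 2 * L ^ 4 * l) + 1 * 1) := by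
        ring
    _ ≤ |C₄| * ((|C₈| + 3 * C₂ ^ 2 + 1) * (m ^ 2 * l ^ 2) +
        (|C₈| + 3 * C₂ ^ 2 + 1) * (P ^ 2 * Z ^ 2 * L ^ 4 * l) + (|C₈| + 3 * C₂ ^ 2 + 1) * 1) := by
        have e4 : |C₈| ≤ |C₈| + 3 * C₂ ^ 2 + 1 := by nlinarith [sq_nonneg C₂]
        have e5 : 3 * C₂ ^ 2 ≤ |C₈| + 3 * C₂ ^ 2 + 1 := by linarith [abs_nonneg C₈]
        have e6 : 1 ≤ |C₈| + 3 * C₂ ^ 2 + 1 := by nlinarith [sq_nonneg C₂, abs_nonneg C₈]
        gcongr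
    _ = _ := by ring

theorem fin_X {X Ω P A T R C₉ B : ℝ} (hP : 0 ≤ P) (hT0 : 0 ≤ T) (hT : T ≤ A) (hR0 : 0 ≤ R)
    (hR : R ≤ C₉ * B) (hB0 : 0 ≤ B) (B' : ℝ) (hB : B ≤ B')
    (h : X ≤ 64 * P / Ω ^ 2 * T ^ 3 * R) :
    X ≤ 64 / Ω ^ 2 * |C₉| * B' * P * A ^ 3 := by
  refine h.trans ?_
  have h1 : R ≤ |C₉| * B' := hR.trans ((mul_le_mul_of_nonneg_right (le_abs_self _) hB0).trans
    (mul_le_mul_of_nonneg_left hB (abs_nonneg _)))
  have h2 : T ^ 3 ≤ A ^ 3 := pow_le_pow_left₀ hT0 hT 3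
  calc 64 * P / Ω ^ 2 * T ^ 3 * R ≤ 64 * P / Ω ^ 2 * A ^ 3 * (|C₉| * B') := by
        have := hT0.trans hT
        gcongr
    _ = _ := by ring

/-- the final numerical contradiction -/
theorem fin_num (w : ℝ) (hw : 0 < w) (hw' : w < 1 / 10) (c₀ C₀ D₀ : ℝ) (hc₀ : 0 < c₀) :
    ∀ᶠ p : ℕ in atTop, ∀ (l m X S : ℝ), l = (p : ℝ) ^ (1 - w - 2 * (w / 100)) →
      (p : ℝ) ^ (1 - w / 100) ≤ m →
      c₀ * l - C₀ * (1 + 1000 * Real.log p) ≤ S →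
      m * (S / 2 - 1) ≤ X →
      X ^ 4 ≤ D₀ * (p : ℝ) ^ (-(2 : ℝ)) * ((p : ℝ) ^ (2 - w + w / 100)) ^ 3 *
        (m ^ 2 * l ^ 2 + (p : ℝ) ^ 2 * ((p : ℝ) ^ (2 / 5 : ℝ)) ^ 2 * Real.log p ^ 4 * l + 1) →
      False := by
  set κ := w / 100 with hκ
  have hκ0 : 0 < κ := by positivity
  have hκw : w = 100 * κ := by rw [hκ]; ring
  have hκ1 : κ < 1 / 1000 := by rw [hκ]; linarith
  set B : ℝ := 16 * 256 / c₀ ^ 4 * max D₀ 1 with hB
  have hD1 : D₀ ≤ max D₀ 1 := le_max_left _ _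
  have hD2 : 1 ≤ max D₀ 1 := le_max_right _ _
  have hB0 : 0 < B := by positivity
  filter_upwards [fin_ev B 0 (4 - 3 * w + 3 * κ) (2 * (2 - w - 3 * κ)) (by rw [hκw]; linarith),
    fin_ev B 4 (4 - 3 * w + 3 * κ + 14 / 5) (4 * (1 - κ) + 3 * (1 - w - 2 * κ))
      (by rw [hκw]; linarith),
    fin_ev0 (8 / c₀) (1 - w - 2 * κ) (by linarith),
    fin_ev (8 * |C₀| * 1001 / c₀) 1 0 (1 - w - 2 * κ) (by linarith),
    eventually_ge_atTop 3] with p hA hBB h1 h2 hp3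
  intro l m X S hl hm hS hX hF
  have hp0 : (0 : ℝ) < p := by
    have : 0 < p := by omega
    exact_mod_cast this
  have hp1 : (1 : ℝ) ≤ p := by
    have : 1 ≤ p := by omega
    exact_mod_cast this
  have hp3' : (3 : ℝ) ≤ p := by exact_mod_cast hp3
  have hlog1 : 1 ≤ Real.log p := by
    rw [Real.le_log_iff_exp_le hp0]
    have := Real.exp_one_lt_three
    linarith
  rw [← hl] at h1 h2
  rw [pow_one, Real.rpow_zero, mul_one] at h2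
  have hl0 : 0 < l := by rw [hl]; exact Real.rpow_pos_of_pos hp0 _
  have hl1 : 1 ≤ l := by
    rw [hl]
    exact Real.one_le_rpow hp1 (by linarith)
  have hm1 : 1 ≤ m := le_trans (Real.one_le_rpow hp1 (by linarith)) hm
  have hm0 : 0 < m := by linarith
  -- lower bound for X
  have hS' : c₀ * l / 4 ≤ S / 2 - 1 := by
    have e1 : 8 ≤ c₀ * l := by
      rw [div_le_iff₀ hc₀] at h1
      linarith
    have e2 : 8 * |C₀| * 1001 * Real.log p ≤ c₀ * l := by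
      have : 8 * |C₀| * 1001 * Real.log p = 8 * |C₀| * 1001 / c₀ * Real.log p * c₀ := by
        field_simp
      rw [this, mul_comm c₀ l]
      exact mul_le_mul_of_nonneg_right h2 hc₀.le
    have e3 : C₀ * (1 + 1000 * Real.log p) ≤ |C₀| * (1001 * Real.log p) := by
      calc C₀ * (1 + 1000 * Real.log p) ≤ |C₀| * (1 + 1000 * Real.log p) :=
            mul_le_mul_of_nonneg_right (le_abs_self _) (by positivity)
        _ ≤ |C₀| * (1001 * Real.log p) :=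
            mul_le_mul_of_nonneg_left (by linarith) (abs_nonneg _)
    linarith
  have hXl : c₀ / 4 * (m * l) ≤ X := by
    calc c₀ / 4 * (m * l) = m * (c₀ * l / 4) := by ring
      _ ≤ m * (S / 2 - 1) := mul_le_mul_of_nonneg_left hS' hm0.le
      _ ≤ X := hX
  have hXl4 : (c₀ / 4 * (m * l)) ^ 4 ≤ X ^ 4 := pow_le_pow_left₀ (by positivity) hXl 4
  -- powers
  set Q : ℝ := (p : ℝ) ^ (4 - 3 * w + 3 * κ) with hQ
  have hQ0 : 0 < Q := Real.rpow_pos_of_pos hp0 _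
  have hQe : (p : ℝ) ^ (-(2 : ℝ)) * ((p : ℝ) ^ (2 - w + κ)) ^ 3 = Q := by
    rw [← Real.rpow_natCast ((p : ℝ) ^ (2 - w + κ)) 3, ← Real.rpow_mul hp0.le, ← Real.rpow_add hp0]
    congr 1
    push_cast
    ring
  have hR : (p : ℝ) ^ 2 * ((p : ℝ) ^ (2 / 5 : ℝ)) ^ 2 = (p : ℝ) ^ (14 / 5 : ℝ) := by
    rw [← Real.rpow_natCast ((p : ℝ) ^ (2 / 5 : ℝ)) 2, ← Real.rpow_mul hp0.le,
      ← Real.rpow_natCast (p : ℝ) 2, ← Real.rpow_add hp0]
    congr 1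
    push_cast
    norm_num
  have hQR : Q * (p : ℝ) ^ (14 / 5 : ℝ) = (p : ℝ) ^ (4 - 3 * w + 3 * κ + 14 / 5) := by
    rw [hQ, ← Real.rpow_add hp0]
  rw [hR] at hF
  rw [pow_zero, mul_one] at hA
  have hml : (p : ℝ) ^ (2 * (2 - w - 3 * κ)) ≤ (m * l) ^ 2 := by
    have e1 : (p : ℝ) ^ (2 - w - 3 * κ) ≤ m * l := by
      have : (p : ℝ) ^ (2 - w - 3 * κ) = (p : ℝ) ^ (1 - κ) * l := by
        rw [hl, ← Real.rpow_add hp0]
        congr 1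
        ring
      rw [this]
      exact mul_le_mul_of_nonneg_right hm hl0.le
    have e2 : (p : ℝ) ^ (2 * (2 - w - 3 * κ)) = ((p : ℝ) ^ (2 - w - 3 * κ)) ^ 2 := by
      rw [← Real.rpow_natCast ((p : ℝ) ^ (2 - w - 3 * κ)) 2, ← Real.rpow_mul hp0.le]
      congr 1
      push_cast
      ring
    rw [e2]
    exact pow_le_pow_left₀ (Real.rpow_nonneg hp0.le _) e1 2
  have hml4 : (p : ℝ) ^ (4 * (1 - κ) + 3 * (1 - w - 2 * κ)) * l ≤ (m * l) ^ 4 := by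
    have e1 : (p : ℝ) ^ (4 * (1 - κ)) ≤ m ^ 4 := by
      have e2 : (p : ℝ) ^ (4 * (1 - κ)) = ((p : ℝ) ^ (1 - κ)) ^ 4 := by
        rw [← Real.rpow_natCast ((p : ℝ) ^ (1 - κ)) 4, ← Real.rpow_mul hp0.le]
        congr 1
        push_cast
        ring
      rw [e2]
      exact pow_le_pow_left₀ (Real.rpow_nonneg hp0.le _) hm 4
    have e3 : (p : ℝ) ^ (3 * (1 - w - 2 * κ)) = l ^ 3 := by
      rw [hl, ← Real.rpow_natCast ((p : ℝ) ^ (1 - w - 2 * κ)) 3, ← Real.rpow_mul hp0.le]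
      congr 1
      push_cast
      ring
    rw [Real.rpow_add hp0, e3]
    calc (p : ℝ) ^ (4 * (1 - κ)) * l ^ 3 * l ≤ m ^ 4 * l ^ 3 * l := by gcongr
      _ = (m * l) ^ 4 := by ring
  set y : ℝ := m * l with hy
  have hy1 : 1 ≤ y := by rw [hy]; nlinarith
  have hy0 : 0 < y := by linarith
  have t1 : B * Q * y ^ 2 ≤ y ^ 4 := by
    have := mul_le_mul_of_nonneg_right (hA.trans hml) (sq_nonneg y)
    calc B * Q * y ^ 2 ≤ y ^ 2 * y ^ 2 := this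
      _ = y ^ 4 := by ring
  have t2 : B * Q * ((p : ℝ) ^ (14 / 5 : ℝ) * Real.log p ^ 4 * l) ≤ y ^ 4 := by
    calc B * Q * ((p : ℝ) ^ (14 / 5 : ℝ) * Real.log p ^ 4 * l)
        = B * Real.log p ^ 4 * (Q * (p : ℝ) ^ (14 / 5 : ℝ)) * l := by ring
      _ = B * Real.log p ^ 4 * (p : ℝ) ^ (4 - 3 * w + 3 * κ + 14 / 5) * l := by rw [hQR]
      _ ≤ (p : ℝ) ^ (4 * (1 - κ) + 3 * (1 - w - 2 * κ)) * l :=
          mul_le_mul_of_nonneg_right hBB hl0.le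
      _ ≤ _ := hml4
  have t3 : B * Q * 1 ≤ y ^ 4 := by
    have : (1 : ℝ) ≤ y ^ 2 := one_le_pow₀ hy1
    calc B * Q * 1 ≤ B * Q * y ^ 2 := by gcongr
      _ ≤ _ := t1
  have hF' : X ^ 4 ≤ max D₀ 1 * Q * (y ^ 2 + (p : ℝ) ^ (14 / 5 : ℝ) * Real.log p ^ 4 * l + 1) := by
    refine hF.trans ?_
    rw [mul_assoc D₀, hQe]
    have : m ^ 2 * l ^ 2 = y ^ 2 := by rw [hy]; ring
    rw [this]
    gcongr
  have hBQ : B * Q * (y ^ 2 + (p : ℝ) ^ (14 / 5 : ℝ) * Real.log p ^ 4 * l + 1) ≤ 3 * y ^ 4 := by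
    calc B * Q * (y ^ 2 + (p : ℝ) ^ (14 / 5 : ℝ) * Real.log p ^ 4 * l + 1)
        = B * Q * y ^ 2 + B * Q * ((p : ℝ) ^ (14 / 5 : ℝ) * Real.log p ^ 4 * l) + B * Q * 1 := by
          ring
      _ ≤ _ := by linarith
  have hfin : (c₀ / 4 * y) ^ 4 * (16 * 256 / c₀ ^ 4) ≤ 3 * y ^ 4 := by
    calc (c₀ / 4 * y) ^ 4 * (16 * 256 / c₀ ^ 4)
        ≤ (max D₀ 1 * Q * (y ^ 2 + (p : ℝ) ^ (14 / 5 : ℝ) * Real.log p ^ 4 * l + 1)) *
          (16 * 256 / c₀ ^ 4) :=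
          mul_le_mul_of_nonneg_right (hXl4.trans hF') (by positivity)
      _ = B * Q * (y ^ 2 + (p : ℝ) ^ (14 / 5 : ℝ) * Real.log p ^ 4 * l + 1) := by rw [hB]; ring
      _ ≤ _ := hBQ
  have hfin' : (c₀ / 4 * y) ^ 4 * (16 * 256 / c₀ ^ 4) = 16 * y ^ 4 := by
    field_simp
    ring
  rw [hfin'] at hfin
  have : 0 < y ^ 4 := by positivity
  linarith

end Pool.Agent.MU0
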