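import Pool.Agent.MU0.Defs

/-!
# The tail of the main term: a sum over residue classes
-/

set_option autoImplicit false

open Finset CongruenceSubgroup
open scoped Real

namespace Pool.Agent.MU0

open Pool.Agent.MU1

/-- The terms `m > D` in the residue classes `R` modulo `M`. -/
theorem mt_tail : ∃ C₁ : ℝ, 0 ≤ C₁ ∧ ∀ (a : ℕ → ℝ) (B : ℝ), 0 ≤ B →
    (∀ m : ℕ, |a m| ≤ B * (m : ℝ) ^ (9 / 16 : ℝ)) → ∀ (M : ℕ) [NeZero M] (D : ℕ), 1 ≤ D →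
    ∀ y : ℝ, 0 < y → ∀ R : Finset (ZMod M),
    Summable (fun m : ℕ =>
      if D < m ∧ (m : ZMod M) ∈ R then |a m / m * Real.exp (-2 * π * m * y)| else 0) ∧
    ∑' m : ℕ, (if D < m ∧ (m : ZMod M) ∈ R then |a m / m * Real.exp (-2 * π * m * y)| else 0) ≤
      R.card * (B * ((D : ℝ) ^ (-(7 / 16) : ℝ) +
        C₁ * (M : ℝ) ^ (-(7 / 16) : ℝ) * ((M : ℝ) * y) ^ (-(5 / 8) : ℝ))) := by
  obtain ⟨C₁, hC₁, hg⟩ := exists_C1
  refine ⟨C₁, hC₁, fun a B hB ha M _ D hD y hy R => ?_⟩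
  have he : (9 / 16 - 1 : ℝ) = -(7 / 16) := by norm_num
  have hD' : (0 : ℝ) < D := by exact_mod_cast hD
  have hM0 : 0 < M := Nat.pos_of_ne_zero (NeZero.ne M)
  have hM' : (0 : ℝ) < M := by exact_mod_cast hM0
  set u : ℕ → ℝ := fun m =>
    if D < m ∧ (m : ZMod M) ∈ R then |a m / m * Real.exp (-2 * π * m * y)| else 0 with hu
  have hu0 : ∀ m, 0 ≤ u m := by
    intro m
    rw [hu]
    simp only
    split_ifs
    · exact abs_nonneg _
    · exact le_rfl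
  have hug : ∀ m, u m ≤ B * gg y m := by
    intro m
    rw [hu]
    simp only
    split_ifs
    · exact coeff_le ha y m
    · exact mul_nonneg hB (gg_nonneg _ _)
  have hus : Summable u := Summable.of_nonneg_of_le hu0 hug ((summable_gg hy).mul_left B)
  refine ⟨hus, ?_⟩
  set X : ℝ := B * ((D : ℝ) ^ (-(7 / 16) : ℝ) +
        C₁ * (M : ℝ) ^ (-(7 / 16) : ℝ) * ((M : ℝ) * y) ^ (-(5 / 8) : ℝ)) with hX
  have hfirst : ∀ m : ℕ, u m ≤ B * (D : ℝ) ^ (-(7 / 16) : ℝ) := by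
    intro m
    by_cases h : D < m ∧ (m : ZMod M) ∈ R
    · refine (hug m).trans (mul_le_mul_of_nonneg_left ?_ hB)
      unfold gg
      rw [he]
      have h5 : (m : ℝ) ^ (-(7 / 16) : ℝ) ≤ (D : ℝ) ^ (-(7 / 16) : ℝ) :=
        Real.rpow_le_rpow_of_nonpos hD' (by exact_mod_cast h.1.le) (by norm_num)
      have h6 : Real.exp (-2 * π * m * y) ≤ 1 := Real.exp_le_one_iff.2 (by
        have : 0 ≤ 2 * π * m * y := by positivity
        linarith)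
      calc (m : ℝ) ^ (-(7 / 16) : ℝ) * Real.exp (-2 * π * m * y) ≤
          (m : ℝ) ^ (-(7 / 16) : ℝ) * 1 := mul_le_mul_of_nonneg_left h6 (by positivity)
        _ ≤ _ := by rw [mul_one]; exact h5
    · rw [hu]
      simp only
      rw [if_neg h]
      positivity
  have hrest : ∀ (j t : ℕ), u (j + M * (t + 1)) ≤
      B * (M : ℝ) ^ (-(7 / 16) : ℝ) * gg ((M : ℝ) * y) (t + 1) := by
    intro j t
    have hm : (0 : ℝ) < ((t + 1 : ℕ) : ℝ) := by positivity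
    refine (hug _).trans ?_
    rw [mul_assoc]
    refine mul_le_mul_of_nonneg_left ?_ hB
    unfold gg
    rw [he]
    have h1 : (M : ℝ) * ((t + 1 : ℕ) : ℝ) ≤ ((j + M * (t + 1) : ℕ) : ℝ) := by
      push_cast
      have : (0 : ℝ) ≤ j := Nat.cast_nonneg j
      linarith
    have h2 : ((j + M * (t + 1) : ℕ) : ℝ) ^ (-(7 / 16) : ℝ) ≤
        (M : ℝ) ^ (-(7 / 16) : ℝ) * ((t + 1 : ℕ) : ℝ) ^ (-(7 / 16) : ℝ) := by
      rw [← Real.mul_rpow hM'.le hm.le]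
      exact Real.rpow_le_rpow_of_nonpos (by positivity) h1 (by norm_num)
    have h3 : Real.exp (-2 * π * ((j + M * (t + 1) : ℕ) : ℝ) * y) ≤
        Real.exp (-2 * π * ((t + 1 : ℕ) : ℝ) * ((M : ℝ) * y)) := by
      refine Real.exp_le_exp.2 ?_
      have h4 : ((t + 1 : ℕ) : ℝ) * ((M : ℝ) * y) ≤ ((j + M * (t + 1) : ℕ) : ℝ) * y := by
        calc ((t + 1 : ℕ) : ℝ) * ((M : ℝ) * y) = (M : ℝ) * ((t + 1 : ℕ) : ℝ) * y := by ring
          _ ≤ _ := mul_le_mul_of_nonneg_right h1 hy.le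
      have h5 := mul_le_mul_of_nonneg_left h4 (by positivity : 0 ≤ 2 * π)
      have e1 : -2 * π * ((j + M * (t + 1) : ℕ) : ℝ) * y =
        -(2 * π * (((j + M * (t + 1) : ℕ) : ℝ) * y)) := by ring
      have e2 : -2 * π * ((t + 1 : ℕ) : ℝ) * ((M : ℝ) * y) =
        -(2 * π * (((t + 1 : ℕ) : ℝ) * ((M : ℝ) * y))) := by ring
      rw [e1, e2]
      exact neg_le_neg h5
    calc ((j + M * (t + 1) : ℕ) : ℝ) ^ (-(7 / 16) : ℝ) *
          Real.exp (-2 * π * ((j + M * (t + 1) : ℕ) : ℝ) * y)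
        ≤ ((M : ℝ) ^ (-(7 / 16) : ℝ) * ((t + 1 : ℕ) : ℝ) ^ (-(7 / 16) : ℝ)) *
          Real.exp (-2 * π * ((t + 1 : ℕ) : ℝ) * ((M : ℝ) * y)) :=
          mul_le_mul h2 h3 (Real.exp_pos _).le (by positivity)
      _ = _ := by ring
  have hclass : ∀ j : ZMod M, ∑' t : ℕ, u (j.val + M * t) ≤ if j ∈ R then X else 0 := by
    intro j
    have hcast : ∀ t : ℕ, ((j.val + M * t : ℕ) : ZMod M) = j := by
      intro t
      push_cast
      rw [ZMod.natCast_self, zero_mul, add_zero, ZMod.natCast_val, ZMod.cast_id', id]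
    split_ifs with h
    · have hs : Summable fun t : ℕ => u (j.val + M * t) := by
        refine hus.comp_injective ?_
        intro x z hxz
        simp only at hxz
        exact Nat.eq_of_mul_eq_mul_left hM0 (by omega)
      rw [hs.tsum_eq_zero_add]
      have h1 : ∑' t : ℕ, u (j.val + M * (t + 1)) ≤
          B * (M : ℝ) ^ (-(7 / 16) : ℝ) * (C₁ * ((M : ℝ) * y) ^ (-(5 / 8) : ℝ)) := by
        have ht : 0 < (M : ℝ) * y := by positivity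
        have hgs := summable_gg ht
        have h2 : ∑' t : ℕ, gg ((M : ℝ) * y) (t + 1) ≤ C₁ * ((M : ℝ) * y) ^ (-(5 / 8) : ℝ) := by
          refine le_trans (le_of_eq ?_) (hg _ ht)
          rw [hgs.tsum_eq_zero_add, gg_zero, zero_add]
        calc ∑' t : ℕ, u (j.val + M * (t + 1)) ≤
            ∑' t : ℕ, B * (M : ℝ) ^ (-(7 / 16) : ℝ) * gg ((M : ℝ) * y) (t + 1) := by
              refine Summable.tsum_le_tsum (fun t => hrest _ t) ?_ ?_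
              · exact (summable_nat_add_iff (f := fun t : ℕ => u (j.val + M * t)) 1).2 hs
              · exact ((summable_nat_add_iff (f := gg ((M : ℝ) * y)) 1).2 hgs).mul_left _
          _ = B * (M : ℝ) ^ (-(7 / 16) : ℝ) * ∑' t : ℕ, gg ((M : ℝ) * y) (t + 1) :=
              tsum_mul_left
          _ ≤ _ := mul_le_mul_of_nonneg_left h2 (by positivity)
      have h2 := hfirst (j.val + M * 0)
      rw [hX]
      calc u (j.val + M * 0) + ∑' t : ℕ, u (j.val + M * (t + 1)) ≤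
          B * (D : ℝ) ^ (-(7 / 16) : ℝ) +
          B * (M : ℝ) ^ (-(7 / 16) : ℝ) * (C₁ * ((M : ℝ) * y) ^ (-(5 / 8) : ℝ)) := add_le_add h2 h1
        _ = _ := by ring
    · refine le_of_eq ?_
      rw [← tsum_zero (α := ℝ) (β := ℕ)]
      refine tsum_congr fun t => ?_
      rw [hu]
      simp only
      rw [if_neg]
      rintro ⟨-, h3⟩
      rw [hcast] at h3
      exact h h3
  rw [Nat.sumByResidueClasses hus M]
  refine (sum_le_sum fun j _ => hclass j).trans ?_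
  rw [← sum_filter, sum_const, nsmul_eq_mul]
  rw [Finset.filter_mem_eq_inter, Finset.univ_inter]

private lemma mt_tail_one {p K : ℕ} {B : ℝ} (hB : 0 ≤ B) (hp : 1 ≤ p) (hpB : 32 * B ≤ p)
    (hK : p ^ 100 ≤ K) :
    4 * (p * (B * ((K ^ 3 : ℕ) : ℝ) ^ (-(7 / 16) : ℝ))) ≤ 1 / (8 * K) := by
  have hp' : (1 : ℝ) ≤ p := by exact_mod_cast hp
  have hp0 : (0 : ℝ) < p := by linarith
  have hK1 : (p : ℝ) ^ 100 ≤ K := by exact_mod_cast hK
  have hK0 : (0 : ℝ) < K := lt_of_lt_of_le (by positivity) hK1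
  have h1 : ((K ^ 3 : ℕ) : ℝ) ^ (-(7 / 16) : ℝ) = (K : ℝ) ^ (-(1 : ℝ)) * (K : ℝ) ^ (-(5 / 16) : ℝ) := by
    push_cast
    rw [← Real.rpow_natCast (K : ℝ) 3, ← Real.rpow_mul hK0.le, ← Real.rpow_add hK0]
    norm_num
  have h2 : (K : ℝ) ^ (-(5 / 16) : ℝ) ≤ ((p : ℝ) ^ 2)⁻¹ := by
    have h3 : (K : ℝ) ^ (-(5 / 16) : ℝ) ≤ ((p : ℝ) ^ 100) ^ (-(5 / 16) : ℝ) :=
      Real.rpow_le_rpow_of_nonpos (by positivity) hK1 (by norm_num)
    refine h3.trans ?_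
    rw [← Real.rpow_natCast, ← Real.rpow_mul hp0.le, ← Real.rpow_natCast (p : ℝ) 2,
      ← Real.rpow_neg hp0.le]
    exact Real.rpow_le_rpow_of_exponent_le hp' (by norm_num)
  rw [h1, Real.rpow_neg_one]
  have h4 : 4 * (p * (B * ((K : ℝ)⁻¹ * (K : ℝ) ^ (-(5 / 16) : ℝ)))) ≤
      4 * (p * (B * ((K : ℝ)⁻¹ * ((p : ℝ) ^ 2)⁻¹))) := by gcongr
  refine h4.trans ?_
  have h5 : 4 * (p * (B * ((K : ℝ)⁻¹ * ((p : ℝ) ^ 2)⁻¹))) = (32 * B) / p * (1 / (8 * K)) := by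
    field_simp
    ring
  rw [h5]
  have h6 : 32 * B / p ≤ 1 := by rw [div_le_one hp0]; exact hpB
  calc 32 * B / p * (1 / (8 * K)) ≤ 1 * (1 / (8 * K)) :=
        mul_le_mul_of_nonneg_right h6 (by positivity)
    _ = _ := one_mul _

private lemma mt_tail_two {p K q Q : ℕ} {B C₁ : ℝ} (hB : 0 ≤ B) (hC₁ : 0 ≤ C₁) (hp : 1 ≤ p)
    (hpB : 32 * (B * C₁) ≤ p) (hK : p ^ 100 ≤ K) (hKq : K ^ 64 ≤ q) (hQ : q = p * Q) :
    4 * (p * (B * (C₁ * (Q : ℝ) ^ (-(7 / 16) : ℝ) *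
      ((Q : ℝ) * (q : ℝ) ^ (-(31 / 20) : ℝ)) ^ (-(5 / 8) : ℝ)))) ≤ 1 / (8 * K) := by
  have hp' : (1 : ℝ) ≤ p := by exact_mod_cast hp
  have hp0 : (0 : ℝ) < p := by linarith
  have hK1 : (p : ℝ) ^ 100 ≤ K := by exact_mod_cast hK
  have hK0 : (0 : ℝ) < K := lt_of_lt_of_le (by positivity) hK1
  have hKone : (1 : ℝ) ≤ K := le_trans (one_le_pow₀ hp') hK1
  have hq1 : (K : ℝ) ^ 64 ≤ q := by exact_mod_cast hKq
  have hq0 : (0 : ℝ) < q := lt_of_lt_of_le (by positivity) hq1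
  have hqQ : (q : ℝ) = p * Q := by exact_mod_cast hQ
  have hQ0 : (0 : ℝ) < Q := by
    rcases Nat.eq_zero_or_pos Q with h | h
    · rw [h, Nat.cast_zero, mul_zero] at hqQ; linarith
    · exact_mod_cast h
  have h1 : (Q : ℝ) ^ (-(7 / 16) : ℝ) * ((Q : ℝ) * (q : ℝ) ^ (-(31 / 20) : ℝ)) ^ (-(5 / 8) : ℝ) =
      (p : ℝ) ^ (17 / 16 : ℝ) * (q : ℝ) ^ (-(3 / 32) : ℝ) := by
    have hQq : (Q : ℝ) = q * (p : ℝ)⁻¹ := by rw [hqQ]; field_simp
    rw [Real.mul_rpow hQ0.le (by positivity), ← Real.rpow_mul hq0.le, ← mul_assoc,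
      ← Real.rpow_add hQ0, hQq, Real.mul_rpow hq0.le (by positivity),
      Real.inv_rpow hp0.le, ← Real.rpow_neg hp0.le, mul_comm ((q : ℝ) ^ _) ((p : ℝ) ^ _),
      mul_assoc, ← Real.rpow_add hq0]
    norm_num
  have h2 : (q : ℝ) ^ (-(3 / 32) : ℝ) ≤ ((K : ℝ) ^ 6)⁻¹ := by
    have h3 : (q : ℝ) ^ (-(3 / 32) : ℝ) ≤ ((K : ℝ) ^ 64) ^ (-(3 / 32) : ℝ) :=
      Real.rpow_le_rpow_of_nonpos (by positivity) hq1 (by norm_num)
    refine h3.trans (le_of_eq ?_)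
    rw [← Real.rpow_natCast, ← Real.rpow_mul hK0.le, ← Real.rpow_natCast (K : ℝ) 6,
      ← Real.rpow_neg hK0.le]
    norm_num
  have h3 : (p : ℝ) ^ (17 / 16 : ℝ) ≤ (p : ℝ) ^ 2 := by
    rw [← Real.rpow_natCast (p : ℝ) 2]
    exact Real.rpow_le_rpow_of_exponent_le hp' (by norm_num)
  have h4 : (p : ℝ) ^ 4 ≤ (K : ℝ) ^ 5 :=
    calc (p : ℝ) ^ 4 ≤ (p : ℝ) ^ 100 := pow_le_pow_right₀ hp' (by norm_num)
      _ ≤ K := hK1
      _ = (K : ℝ) ^ 1 := (pow_one _).symm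
      _ ≤ (K : ℝ) ^ 5 := pow_le_pow_right₀ hKone (by norm_num)
  rw [mul_assoc C₁, h1]
  calc 4 * (p * (B * (C₁ * ((p : ℝ) ^ (17 / 16 : ℝ) * (q : ℝ) ^ (-(3 / 32) : ℝ))))) ≤
      4 * (p * (B * (C₁ * ((p : ℝ) ^ 2 * ((K : ℝ) ^ 6)⁻¹)))) := by gcongr
    _ = (32 * (B * C₁)) / p * ((p : ℝ) ^ 4 / (K : ℝ) ^ 5) * (1 / (8 * K)) := by
      field_simp
      ring
    _ ≤ 1 * 1 * (1 / (8 * K)) := by
      have h6 : 32 * (B * C₁) / p ≤ 1 := by rw [div_le_one hp0]; exact hpB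
      have h7 : (p : ℝ) ^ 4 / (K : ℝ) ^ 5 ≤ 1 := by rw [div_le_one (by positivity)]; exact h4
      gcongr
    _ = _ := by ring

/-- The tail of the main term. -/
theorem mt_tail_W {N : ℕ} [NeZero N] (f : CuspForm (Gamma0 N) 2) {a : ℕ → ℤ} (hf : Frm f a) :
    ∃ D p₀ : ℕ, ∀ p : ℕ, p₀ ≤ p → p.Prime → ∀ (n q K : ℕ) [NeZero q], 2 ≤ n → q = p ^ n →
    p ^ 100 ≤ K → K ^ D ≤ q → ∀ (k : ℕ) (W : ℕ → ℝ), (∀ M, |W M| ≤ 4) →
    (∀ M : ℕ, W M ≠ 0 → ∃ ζ ∈ HH p q,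
      ((p ^ (n - 1) : ℕ) : ℤ) ∣ (M : ℤ) * ((ζ : ZMod q).val : ℤ) - k) →
    Summable (fun M : ℕ => |(a M : ℝ)| / M *
      Real.exp (-2 * π * M * (q : ℝ) ^ (-(31 / 20) : ℝ)) * |W M|) ∧
    ∑' M : ℕ, (if K ^ 3 < M then |(a M : ℝ)| / M *
      Real.exp (-2 * π * M * (q : ℝ) ^ (-(31 / 20) : ℝ)) * |W M| else 0) ≤ 1 / (4 * K) := by
  obtain ⟨C₁, hC₁, htail⟩ := mt_tail
  obtain ⟨B, hB, haB, -, -⟩ := exists_B (a := fun n => (a n : ℝ)) (c := fun n => (a n : ℝ))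
    hf.hasse hf.hasse
  refine ⟨64, ⌈32 * B⌉₊ + ⌈32 * (B * C₁)⌉₊ + 3, ?_⟩
  intro p hpp hp n q K _ hn hq hK hKq k W hW4 hW
  have hp1 : 1 ≤ p := hp.one_lt.le
  have hp2 : p ≠ 2 := by omega
  have hpB : 32 * B ≤ p := (Nat.le_ceil _).trans (by exact_mod_cast (by omega : ⌈32 * B⌉₊ ≤ p))
  have hpC : 32 * (B * C₁) ≤ p :=
    (Nat.le_ceil _).trans (by exact_mod_cast (by omega : ⌈32 * (B * C₁)⌉₊ ≤ p))
  set Q : ℕ := p ^ (n - 1) with hQ
  have hQ0 : 0 < Q := pow_pos hp.pos _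
  have : NeZero Q := ⟨hQ0.ne'⟩
  have hqQ : q = p * Q := by
    rw [hq, hQ, ← pow_succ']
    congr 1
    omega
  have hq0 : 0 < q := Nat.pos_of_ne_zero (NeZero.ne q)
  have hq0' : (0 : ℝ) < q := by exact_mod_cast hq0
  have hK0 : 0 < K := lt_of_lt_of_le (pow_pos hp.pos _) hK
  have hK0' : (0 : ℝ) < K := by exact_mod_cast hK0
  set y : ℝ := (q : ℝ) ^ (-(31 / 20) : ℝ) with hy
  have hy0 : 0 < y := Real.rpow_pos_of_pos hq0' _
  have habs : ∀ M : ℕ, |(a M : ℝ)| / M * Real.exp (-2 * π * M * y) =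
      |(a M : ℝ) / M * Real.exp (-2 * π * M * y)| := by
    intro M
    rw [abs_mul, abs_of_pos (Real.exp_pos _), abs_div, Nat.abs_cast]
  have hsum : Summable (fun M : ℕ => |(a M : ℝ)| / M * Real.exp (-2 * π * M * y) * |W M|) := by
    refine Summable.of_nonneg_of_le (fun M => by positivity) (fun M => ?_)
      (((summable_gg hy0).mul_left B).mul_right 4)
    rw [habs]
    exact mul_le_mul (coeff_le haB y M) (hW4 M) (abs_nonneg _)
      (mul_nonneg hB (gg_nonneg _ _))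
  refine ⟨hsum, ?_⟩
  set R : Finset (ZMod Q) := (HH p q).image
    (fun ζ => (k : ZMod Q) * ((((ζ⁻¹ : (ZMod q)ˣ) : ZMod q).val : ℕ) : ZMod Q)) with hR
  have hRcard : (R.card : ℝ) ≤ p := by
    have h1 : R.card ≤ (HH p q).card := Finset.card_image_le
    have h2 := card_HH hp hp2 hq
    exact_mod_cast (h1.trans h2).trans (Nat.sub_le _ _)
  have hmem : ∀ M : ℕ, W M ≠ 0 → (M : ZMod Q) ∈ R := by
    intro M hM
    obtain ⟨ζ, hζ, hd⟩ := hW M hM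
    rw [hR, Finset.mem_image]
    refine ⟨ζ, hζ, ?_⟩
    have h1 : (M : ZMod Q) * (((ζ : ZMod q).val : ℕ) : ZMod Q) = (k : ZMod Q) := by
      have h2 := (ZMod.intCast_zmod_eq_zero_iff_dvd ((M : ℤ) * ((ζ : ZMod q).val : ℤ) - k) Q).2
        (by exact_mod_cast hd)
      push_cast at h2
      exact sub_eq_zero.1 h2
    have h3 : (((ζ : ZMod q).val : ℕ) : ZMod Q) *
        ((((ζ⁻¹ : (ZMod q)ˣ) : ZMod q).val : ℕ) : ZMod Q) = 1 := by
      have h4 : ((((ζ : ZMod q).val * ((ζ⁻¹ : (ZMod q)ˣ) : ZMod q).val : ℕ)) : ZMod q) =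
          ((1 : ℕ) : ZMod q) := by
        push_cast
        rw [ZMod.natCast_zmod_val, ZMod.natCast_zmod_val]
        exact ζ.mul_inv
      rw [ZMod.natCast_eq_natCast_iff] at h4
      have h5 : (ζ : ZMod q).val * ((ζ⁻¹ : (ZMod q)ˣ) : ZMod q).val ≡ 1 [MOD Q] :=
        h4.of_dvd (by rw [hqQ]; exact Dvd.intro_left p rfl)
      rw [← ZMod.natCast_eq_natCast_iff] at h5
      push_cast at h5
      exact h5
    rw [← h1, mul_assoc, h3, mul_one]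
  obtain ⟨hs, hle⟩ := htail (fun n => (a n : ℝ)) B hB haB Q (K ^ 3) (Nat.one_le_pow _ _ hK0) y hy0 R
  have hcomp : ∀ M : ℕ, (if K ^ 3 < M then |(a M : ℝ)| / M * Real.exp (-2 * π * M * y) * |W M| else 0) ≤
      4 * (if K ^ 3 < M ∧ (M : ZMod Q) ∈ R then
        |(a M : ℝ) / M * Real.exp (-2 * π * M * y)| else 0) := by
    intro M
    by_cases h : K ^ 3 < M
    · rw [if_pos h]
      by_cases h0 : W M = 0
      · rw [h0, abs_zero, mul_zero]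
        refine mul_nonneg (by norm_num) ?_
        split_ifs
        · exact abs_nonneg _
        · exact le_rfl
      · rw [if_pos ⟨h, hmem M h0⟩, habs, mul_comm]
        exact mul_le_mul_of_nonneg_right (hW4 M) (abs_nonneg _)
    · rw [if_neg h]
      refine mul_nonneg (by norm_num) ?_
      split_ifs
      · exact abs_nonneg _
      · exact le_rfl
  have hsum' : Summable (fun M : ℕ => if K ^ 3 < M then
      |(a M : ℝ)| / M * Real.exp (-2 * π * M * y) * |W M| else 0) := by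
    refine Summable.of_nonneg_of_le (fun M => ?_) (fun M => ?_) hsum
    · split_ifs
      · positivity
      · exact le_rfl
    · split_ifs
      · exact le_rfl
      · positivity
  refine (hsum'.tsum_le_tsum hcomp (hs.mul_left 4)).trans ?_
  rw [tsum_mul_left]
  have hX0 : 0 ≤ B * (((K ^ 3 : ℕ) : ℝ) ^ (-(7 / 16) : ℝ) +
        C₁ * (Q : ℝ) ^ (-(7 / 16) : ℝ) * ((Q : ℝ) * y) ^ (-(5 / 8) : ℝ)) := by positivity
  have h8 := mt_tail_one hB hp1 hpB hK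
  have h9 := mt_tail_two hB hC₁ hp1 hpC hK hKq hqQ
  calc 4 * _ ≤ 4 * (p * (B * (((K ^ 3 : ℕ) : ℝ) ^ (-(7 / 16) : ℝ) +
        C₁ * (Q : ℝ) ^ (-(7 / 16) : ℝ) * ((Q : ℝ) * y) ^ (-(5 / 8) : ℝ)))) :=
        mul_le_mul_of_nonneg_left (hle.trans (mul_le_mul_of_nonneg_right hRcard hX0)) (by norm_num)
    _ = 4 * (p * (B * ((K ^ 3 : ℕ) : ℝ) ^ (-(7 / 16) : ℝ))) +
        4 * (p * (B * (C₁ * (Q : ℝ) ^ (-(7 / 16) : ℝ) *
        ((Q : ℝ) * (q : ℝ) ^ (-(31 / 20) : ℝ)) ^ (-(5 / 8) : ℝ)))) := by rw [hy]; ring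
    _ ≤ 1 / (8 * K) + 1 / (8 * K) := add_le_add h8 h9
    _ = 1 / (4 * K) := by field_simp; ring

end Pool.Agent.MU0
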