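import Pool.Agent.MU0.MtHead
import Pool.Agent.MU0.MtTail

/-!
# Module MT: the direct part
-/

set_option autoImplicit false

open Finset CongruenceSubgroup
open scoped Real

namespace Pool.Agent.MU0

open Pool.Agent.MU1

theorem mt_A {N : ℕ} [NeZero N] (f : CuspForm (Gamma0 N) 2) {a : ℕ → ℤ} (hf : Frm f a) :
    ∃ D p₀ : ℕ, ∀ p : ℕ, p₀ ≤ p → p.Prime → ∀ (n q K : ℕ) [NeZero q], 2 ≤ n → q = p ^ n →
    p ^ 100 ≤ K → K ^ D ≤ q → ∀ P : Finset ℕ,
    (∀ ξ : (ZMod q)ˣ, ξ ^ (p - 1) = 1 → ∀ m k : ℕ, 0 < m → 0 < k → m ≤ K ^ 3 → k ≤ K →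
      ((p ^ (n - 1) : ℕ) : ℤ) ∣ m * ((ξ : ZMod q).val : ℤ) - k →
      (∀ l ∈ P, padicValNat l m = padicValNat l k) → ξ = 1 ∧ m = k) →
    ∀ k ∈ Icc 1 K, (∀ l ∈ insert p P, ¬ l ∣ k) →
    |∑' M : ℕ, (if ∀ l ∈ P, ¬ l ∣ M then (a M : ℝ) else 0) / M *
        Real.exp (-2 * π * M * (q : ℝ) ^ (-(31 / 20) : ℝ)) *
        ∑ ζ ∈ HH p q, EU q (fun b => cs ((M : ZMod q) * (ζ : ZMod q) * (b : ZMod q)) *
          cs ((k : ZMod q) * (b : ZMod q))) - (a k : ℝ) / k| ≤ 1 / (2 * K) := by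
  obtain ⟨D, p₀, htail⟩ := mt_tail_W f hf
  refine ⟨max D 4, max p₀ 3, fun p hp0 hp n q K _ hn hq hK hKD P hsep k hk hkP => ?_⟩
  have hp3 : 3 ≤ p := (le_max_right _ _).trans hp0
  have hp2 : p ≠ 2 := by omega
  have hpk : ¬ p ∣ k := hkP p (mem_insert_self _ _)
  rw [mem_Icc] at hk
  have hK26 : 26 ≤ K := by
    refine le_trans ?_ hK
    calc 26 ≤ 3 ^ 100 := by norm_num
      _ ≤ p ^ 100 := Nat.pow_le_pow_left hp3 100
  have hK1 : 1 ≤ K := by omega
  have hKD' : K ^ D ≤ q := (Nat.pow_le_pow_right hK1 (le_max_left _ _)).trans hKD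
  have hKD4 : K ^ 4 ≤ q := (Nat.pow_le_pow_right hK1 (le_max_right _ _)).trans hKD
  obtain ⟨hs, ht⟩ := htail p ((le_max_left _ _).trans hp0) hp n q K hn hq hK hKD' k (mtW p q k)
    (fun M => (mtW_abs hp hp2 hn hq hpk M).trans (by norm_num))
    (fun M hM => mtW_ne_zero hp hp2 (by omega) hq hM)
  set y : ℝ := (q : ℝ) ^ (-(31 / 20) : ℝ) with hy
  have hq0 : (0 : ℝ) < q := by exact_mod_cast Nat.pos_of_ne_zero (NeZero.ne q)
  have hq1 : (1 : ℝ) ≤ q := by exact_mod_cast Nat.pos_of_ne_zero (NeZero.ne q)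
  have hy0 : 0 < y := Real.rpow_pos_of_pos hq0 _
  have hKr : (26 : ℝ) ≤ K := by exact_mod_cast hK26
  have hK0 : (0 : ℝ) < K := by linarith
  have hk1 : (1 : ℝ) ≤ k := by exact_mod_cast hk.1
  have hk0 : (0 : ℝ) < k := by linarith
  have hkK : (k : ℝ) ≤ K := by exact_mod_cast hk.2
  set F : ℕ → ℝ := fun M => (if ∀ l ∈ P, ¬ l ∣ M then (a M : ℝ) else 0) / M *
    Real.exp (-2 * π * M * y) * mtW p q k M with hF
  have hgoal : ∑' M : ℕ, (if ∀ l ∈ P, ¬ l ∣ M then (a M : ℝ) else 0) / M *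
        Real.exp (-2 * π * M * y) *
        ∑ ζ ∈ HH p q, EU q (fun b => cs ((M : ZMod q) * (ζ : ZMod q) * (b : ZMod q)) *
          cs ((k : ZMod q) * (b : ZMod q))) = ∑' M : ℕ, F M := rfl
  rw [hgoal]
  set Gt : ℕ → ℝ := fun M => |(a M : ℝ)| / M * Real.exp (-2 * π * M * y) * |mtW p q k M| with hG
  have hFG : ∀ M, |F M| ≤ Gt M := by
    intro M
    simp only [hF, hG]
    rw [abs_mul, abs_mul, abs_div, Nat.abs_cast, Real.abs_exp]
    refine mul_le_mul_of_nonneg_right (mul_le_mul_of_nonneg_right ?_ (Real.exp_pos _).le)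
      (abs_nonneg _)
    refine div_le_div_of_nonneg_right ?_ (Nat.cast_nonneg _)
    split_ifs
    · exact le_rfl
    · rw [abs_zero]
      exact abs_nonneg _
  have hG0 : ∀ M, 0 ≤ Gt M := fun M => (abs_nonneg _).trans (hFG M)
  have hFs : Summable F := Summable.of_norm_bounded hs hFG
  set F1 : ℕ → ℝ := fun M => if M = k then (a k : ℝ) / k * Real.exp (-2 * π * k * y) else 0 with hF1
  set F2 : ℕ → ℝ := fun M => if K ^ 3 < M then F M else 0 with hF2
  have hF12 : ∀ M, F M = F1 M + F2 M := by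
    intro M
    simp only [hF1, hF2]
    have hkK3 : k ≤ K ^ 3 := hk.2.trans (Nat.le_self_pow (by norm_num) K)
    by_cases h : K ^ 3 < M
    · rw [if_pos h, if_neg (by omega : ¬ M = k), zero_add]
    · rw [if_neg h, add_zero]
      simp only [hF]
      rcases Nat.eq_zero_or_pos M with rfl | hM
      · rw [if_neg (by omega : ¬ 0 = k), Nat.cast_zero, div_zero, zero_mul, zero_mul]
      by_cases hP : ∀ l ∈ P, ¬ l ∣ M
      · rw [if_pos hP, mtW_head hp hp2 hn hq hsep (by omega) hk.2 hkP hM (by omega) hP]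
        split_ifs with hMk
        · rw [hMk, mul_one]
        · rw [mul_zero]
      · rw [if_neg hP, zero_div, zero_mul, zero_mul, if_neg]
        intro hMk
        apply hP
        intro l hl
        rw [hMk]
        exact hkP l (mem_insert_of_mem hl)
  have hF1s : Summable F1 := summable_of_ne_finset_zero (s := {k}) (fun M hM => by
    simp only [hF1]
    rw [if_neg (by simpa using hM)])
  have hF2s : Summable F2 := by
    have : F2 = fun M => F M - F1 M := by
      funext M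
      rw [hF12 M]
      ring
    rw [this]
    exact hFs.sub hF1s
  have hF1t : ∑' M, F1 M = (a k : ℝ) / k * Real.exp (-2 * π * k * y) := by
    simp only [hF1]
    rw [tsum_ite_eq]
  have hGs2 : Summable fun M => if K ^ 3 < M then Gt M else 0 := by
    refine Summable.of_nonneg_of_le (fun M => ?_) (fun M => ?_) hs
    · split_ifs
      · exact hG0 M
      · exact le_rfl
    · split_ifs
      · exact le_rfl
      · exact hG0 M
  have hF2t : |∑' M, F2 M| ≤ 1 / (4 * K) := by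
    refine le_trans ?_ ht
    have h1 : ‖∑' M, F2 M‖ ≤ ∑' M, (if K ^ 3 < M then Gt M else 0) := by
      refine tsum_of_norm_bounded hGs2.hasSum (fun M => ?_)
      simp only [hF2]
      split_ifs
      · exact hFG M
      · rw [norm_zero]
    exact h1
  have htot : ∑' M, F M = (a k : ℝ) / k * Real.exp (-2 * π * k * y) + ∑' M, F2 M := by
    rw [← hF1t, ← hF1s.tsum_add hF2s]
    exact tsum_congr hF12
  -- the main term
  have hak : |(a k : ℝ)| ≤ K ^ 2 := by
    refine (hf.hasse k).trans ?_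
    have h1 : (k.divisors.card : ℝ) ≤ k := by exact_mod_cast Nat.card_divisors_le_self k
    have h2 : √(k : ℝ) ≤ k := by
      rw [Real.sqrt_le_left hk0.le]
      nlinarith
    calc (k.divisors.card : ℝ) * √(k : ℝ) ≤ k * k := mul_le_mul h1 h2 (Real.sqrt_nonneg _) hk0.le
      _ ≤ K ^ 2 := by nlinarith
  have hyK : y * K ^ 4 ≤ 1 := by
    have h1 : y ≤ (q : ℝ) ^ (-(1 : ℝ)) := Real.rpow_le_rpow_of_exponent_le hq1 (by norm_num)
    rw [Real.rpow_neg_one] at h1
    have h2 : (K : ℝ) ^ 4 ≤ q := by exact_mod_cast hKD4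
    calc y * K ^ 4 ≤ (q : ℝ)⁻¹ * q := mul_le_mul h1 h2 (by positivity) (by positivity)
      _ = 1 := inv_mul_cancel₀ hq0.ne'
  have hexp : |Real.exp (-2 * π * k * y) - 1| ≤ 2 * π * k * y := by
    have h1 : -2 * π * k * y ≤ 0 := by
      have : 0 ≤ 2 * π * k * y := by positivity
      linarith
    rw [abs_of_nonpos (by linarith [Real.exp_le_one_iff.2 h1])]
    have h2 := Real.add_one_le_exp (-2 * π * k * y)
    linarith
  have hmain : |(a k : ℝ) / k * Real.exp (-2 * π * k * y) - (a k : ℝ) / k| ≤ 1 / (4 * K) := by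
    have h1 : (a k : ℝ) / k * Real.exp (-2 * π * k * y) - (a k : ℝ) / k =
        (a k : ℝ) / k * (Real.exp (-2 * π * k * y) - 1) := by ring
    rw [h1, abs_mul, abs_div, Nat.abs_cast]
    have h2 : |(a k : ℝ)| / k * |Real.exp (-2 * π * k * y) - 1| ≤ K ^ 2 / k * (2 * π * k * y) :=
      mul_le_mul (div_le_div_of_nonneg_right hak hk0.le) hexp (abs_nonneg _) (by positivity)
    refine h2.trans ?_
    rw [le_div_iff₀ (by positivity)]
    have h3 : (K : ℝ) ^ 2 / k * (2 * π * k * y) * (4 * K) = (8 * π) * (y * K ^ 3) := by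
      field_simp
      ring
    rw [h3]
    have h4 : 8 * π ≤ K := by
      have := Real.pi_lt_d2
      linarith
    calc 8 * π * (y * K ^ 3) ≤ K * (y * K ^ 3) := mul_le_mul_of_nonneg_right h4 (by positivity)
      _ = y * K ^ 4 := by ring
      _ ≤ 1 := hyK
  rw [htot]
  have h5 : (a k : ℝ) / k * Real.exp (-2 * π * k * y) + ∑' M, F2 M - (a k : ℝ) / k =
      ((a k : ℝ) / k * Real.exp (-2 * π * k * y) - (a k : ℝ) / k) + ∑' M, F2 M := by ring
  rw [h5]
  refine (abs_add_le _ _).trans ((add_le_add hmain hF2t).trans ?_)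
  rw [← two_mul]
  apply le_of_eq
  field_simp
  ring

end Pool.Agent.MU0
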