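import Pool.Agent.MU0.MtC3
import Pool.Agent.MU0.MtA

/-!
# Module MT: the test function
-/

set_option autoImplicit false

open Finset CongruenceSubgroup
open Pool.Agent.MZ Pool.Agent.MZ.Per Pool.Agent.MU1
open scoped Real

namespace Pool.Agent.MU0

theorem exists_test {N : ℕ} [NeZero N] (f g : CuspForm (Gamma0 N) 2) {a : ℕ → ℤ}
    (hf : Frm f a) (hW : IsW f g) (r A : ℕ) : ∃ (C : ℝ) (D p₀ : ℕ), ∀ p : ℕ, p₀ ≤ p → p.Prime →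
    ∀ (n q K : ℕ) [NeZero q], Even n → 2 ≤ n → q = p ^ n → p ^ 100 ≤ K → K ^ D ≤ q →
    ∀ (P : Finset ℕ) (B E : Finset (ZMod q)ˣ), P.card ≤ r →
    (∀ l ∈ P, l.Prime ∧ l ≠ p ∧ l ≤ K ^ A) → (∀ x ∈ B, x ^ (p - 1) = 1) →
    (∀ x ∈ E, x ^ (p - 1) = 1) →
    (∀ ξ : (ZMod q)ˣ, ξ ^ (p - 1) = 1 → ∀ m k : ℕ, 0 < m → 0 < k → m ≤ K ^ 3 → k ≤ K →
      ((p ^ (n - 1) : ℕ) : ℤ) ∣ m * ((ξ : ZMod q).val : ℤ) - k →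
      (∀ l ∈ P, padicValNat l m = padicValNat l k) → ξ = 1 ∧ m = k) →
    ∀ c : ℕ → ℝ, (∀ k, c k ≠ 0 → ∀ l ∈ insert p P, ¬ l ∣ k) → (∀ k, 0 ≤ c k * a k) →
    (∀ k, |c k| ≤ 1) →
    ∃ R' : (ZMod q)ˣ → ℝ, EU q R' = 0 ∧
      EU q (fun b => R' b ^ 4) ≤ C * EE q (fun b => RR c K B E b ^ 4) ∧
      (E.card * B.card : ℝ) * ((∑ k ∈ Icc 1 K, c k * ((a k : ℝ) / k)) / 2 - 1) ≤
        EU q (fun b => TT f p q b * R' b) := by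
  obtain ⟨D, p₀, h⟩ := mtC_final f g hf hW r A (mt_A f hf)
  refine ⟨2 * 81 ^ r, D, p₀, ?_⟩
  intro p hp₀ hp n q K _ hne hn hq hK hKD P B E hPr hP hB hE hsep c hc hca hc1
  obtain ⟨J, d, hd, hJ⟩ := h p hp₀ hp n q K hne hn hq hK hKD P hPr hP hsep
  have hK1 : 1 ≤ K := le_trans (Nat.one_le_pow _ _ hp.pos) hK
  exact mt0_assemble f hp hn hq hK1 hB hE hc hca hc1 J d hd hJ

end Pool.Agent.MU0
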