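import Pool.Agent.MU0.Arc
import Pool.Agent.MU0.Jut
import Pool.Agent.MU0.Cheb

/-!
# The frequencies of the product of two dilates of a cusp form (Jutila's circle method)
-/

set_option autoImplicit false

open UpperHalfPlane hiding I
open Filter Topology Complex Function CongruenceSubgroup
open scoped MatrixGroups Real ModularForm ComplexConjugate

namespace Pool.Agent.MU0

open Pool.Agent.MZ Pool.Agent.MZ.Per

variable {N : ℕ} [NeZero N]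

/-- the product of two dilates, twisted by a frequency -/
noncomputable def Hfr (f : CuspForm (Gamma0 N) 2) (l₁ l₂ : ℕ) (k : ℤ) (y x : ℝ) : ℂ :=
  (y : ℂ) ^ 2 * f (vert (l₁ * x) y) * conj (f (vert (l₂ * x) y)) *
    cexp (2 * π * Complex.I * ((-k : ℤ) : ℂ) * (x : ℂ))

omit [NeZero N] in
theorem continuous_vertx (f : CuspForm (Gamma0 N) 2) (l : ℕ) {y : ℝ} (hy : 0 < y) :
    Continuous (fun x : ℝ => f (vert (l * x) y)) := by
  rw [continuous_iff_continuousAt]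
  intro x
  have him : 0 < (((l * x : ℝ) : ℂ) + (y : ℂ) * Complex.I).im := by simpa using hy
  have h1 : ContinuousAt (fun x : ℝ => ((l * x : ℝ) : ℂ) + (y : ℂ) * Complex.I) x := by fun_prop
  have h2 : ContinuousAt (fun z : ℂ => f (ofComplex z)) (((l * x : ℝ) : ℂ) + (y : ℂ) * Complex.I) := by
    have := (UpperHalfPlane.mdifferentiableAt_iff.mp (CuspFormClass.holo f ⟨_, him⟩))
    exact this.continuousAt
  exact ContinuousAt.comp (f := fun x : ℝ => ((l * x : ℝ) : ℂ) + (y : ℂ) * Complex.I) h2 h1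

omit [NeZero N] in
theorem vertx_add (f : CuspForm (Gamma0 N) 2) (l : ℕ) {y : ℝ} (x : ℝ) :
    f (vert (l * (x + 1)) y) = f (vert (l * x) y) := by
  have h1 : (1 : ℝ) ∈ ((Gamma0 N : Subgroup SL(2, ℤ)) : Subgroup (GL (Fin 2) ℝ)).strictPeriods := by
    rw [strictPeriods_Gamma0]
    exact AddSubgroup.mem_zmultiples 1
  have h2 := (SlashInvariantFormClass.periodic_comp_ofComplex f h1).nat_mul l
  have h3 := h2 (((l * x : ℝ) : ℂ) + (y : ℂ) * Complex.I)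
  simp only [comp_apply, ofReal_one, mul_one] at h3
  rw [vert, vert, ← h3]
  congr 2
  push_cast
  ring

omit [NeZero N] in
theorem Hfr_cont (f : CuspForm (Gamma0 N) 2) (l₁ l₂ : ℕ) (k : ℤ) {y : ℝ} (hy : 0 < y) :
    Continuous (Hfr f l₁ l₂ k y) := by
  unfold Hfr
  have h1 := continuous_vertx f l₁ hy
  have h2 := continuous_vertx f l₂ hy
  have h3 : Continuous (fun x : ℝ => conj (f (vert (l₂ * x) y))) := continuous_conj.comp h2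
  exact ((continuous_const.mul h1).mul h3).mul (by fun_prop)

omit [NeZero N] in
theorem Hfr_add (f : CuspForm (Gamma0 N) 2) (l₁ l₂ : ℕ) (k : ℤ) {y : ℝ} (x : ℝ) :
    Hfr f l₁ l₂ k y (x + 1) = Hfr f l₁ l₂ k y x := by
  unfold Hfr
  rw [vertx_add, vertx_add]
  congr 1
  have h1 : 2 * π * Complex.I * ((-k : ℤ) : ℂ) * ((x + 1 : ℝ) : ℂ) =
      2 * π * Complex.I * ((-k : ℤ) : ℂ) * (x : ℂ) + ((-k : ℤ) : ℂ) * (2 * π * Complex.I) := by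
    push_cast
    ring
  rw [h1, Complex.exp_add, Complex.exp_int_mul_two_pi_mul_I, mul_one]

omit [NeZero N] in
theorem norm_e_real (k : ℤ) (x : ℝ) : ‖cexp (2 * π * Complex.I * ((-k : ℤ) : ℂ) * (x : ℂ))‖ = 1 := by
  have h1 : (2 * π * Complex.I * ((-k : ℤ) : ℂ) * (x : ℂ)) =
      ((2 * π * ((-k : ℤ) : ℝ) * x : ℝ) : ℂ) * Complex.I := by
    push_cast
    ring
  rw [h1, Complex.norm_exp_ofReal_mul_I]

/-- the trivial bound -/
theorem Hfr_bound (f : CuspForm (Gamma0 N) 2) : ∃ B : ℝ, 0 ≤ B ∧ ∀ (l₁ l₂ : ℕ) (k : ℤ) (y x : ℝ), 0 < y →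
    ‖Hfr f l₁ l₂ k y x‖ ≤ B := by
  obtain ⟨C, hC⟩ := CuspFormClass.exists_bound f
  refine ⟨C ^ 2, sq_nonneg _, fun l₁ l₂ k y x hy => ?_⟩
  have h1 : ∀ t : ℝ, y * ‖f (vert t y)‖ ≤ C := by
    intro t
    have h := hC (vert t y)
    norm_num at h
    rw [im_vert hy, le_div_iff₀ hy, mul_comm] at h
    exact h
  unfold Hfr
  rw [norm_mul, norm_mul, norm_mul, norm_e_real, mul_one, RCLike.norm_conj, norm_pow, Complex.norm_real,
    Real.norm_of_nonneg hy.le]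
  have h2 := h1 (l₁ * x)
  have h3 := h1 (l₂ * x)
  calc y ^ 2 * ‖f (vert (l₁ * x) y)‖ * ‖f (vert (l₂ * x) y)‖ =
      (y * ‖f (vert (l₁ * x) y)‖) * (y * ‖f (vert (l₂ * x) y)‖) := by ring
    _ ≤ C * C := mul_le_mul h2 h3 (by positivity) (le_trans (by positivity) h2)
    _ = C ^ 2 := by ring


/-- one application of the circle method -/
theorem frq_step (f : CuspForm (Gamma0 N) 2) : ∃ C : ℝ, 0 ≤ C ∧ ∀ (l₁ l₂ : ℕ), 0 < l₁ → 0 < l₂ →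
    ∀ k : ℤ, ∀ y : ℝ, 0 < y → ∀ δ : ℝ, y ≤ δ → ∀ Q : ℕ, 1 ≤ Q → 8 * Q * δ ≤ 1 →
    ∀ R : Finset ℕ, (∀ r ∈ R, r.Prime ∧ Q < r ∧ r ≤ 4 * Q ∧ ¬ r ∣ N * l₁ * l₂ ∧ ¬ (r : ℤ) ∣ k) →
    R.Nonempty →
    ‖∫ x in (0 : ℝ)..1, Hfr f l₁ l₂ k y x‖ ≤
      C * (N * l₁ * l₂ : ℝ) ^ 4 * ((Q : ℝ) ^ (3 / 4 : ℝ) * Q ^ 3 * δ ^ 4 / y ^ 2) +
      C * √(1 / (2 * δ * R.card * Q) + 1 / (2 * δ * Q ^ 2) + 3 / Q) := by
  obtain ⟨B, hB0, hB⟩ := Hfr_bound f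
  obtain ⟨C, hC0, hC⟩ := arc_bound f
  refine ⟨B + C * 4096, by positivity, ?_⟩
  intro l₁ l₂ hl₁ hl₂ k y hy δ hyδ Q hQ hQδ R hR hne
  have hδ : 0 < δ := lt_of_lt_of_le hy hyδ
  have hQR : (0 : ℝ) < Q := by exact_mod_cast hQ
  have hN0 : 0 < N := Nat.pos_of_ne_zero (NeZero.ne N)
  have hM0 : 0 < N * l₁ * l₂ := by positivity
  have : NeZero (N * l₁ * l₂) := ⟨hM0.ne'⟩
  have hMR : (0 : ℝ) < (N * l₁ * l₂ : ℝ) := by exact_mod_cast hM0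
  set φ : ℝ := ((N * l₁ * l₂).totient : ℝ) with hφ
  have hφ0 : 0 < φ := by
    rw [hφ]
    exact_mod_cast Nat.totient_pos.2 hM0
  set W : ℝ := C * φ * (4 * Q : ℝ) ^ (3 / 4 : ℝ) * (N * l₁ * l₂ * (4 * Q) : ℝ) ^ 4 *
    (2 * δ ^ 2) ^ 2 / y ^ 2 with hW
  have key := jut_mod (N * l₁ * l₂) R Q (M := 4 * Q) hQ
    (fun r hr => ⟨(hR r hr).1, (hR r hr).2.1, by exact_mod_cast (hR r hr).2.2.1⟩)
    (fun r hr => Nat.coprime_comm.1 ((Nat.Prime.coprime_iff_not_dvd (hR r hr).1).2 (hR r hr).2.2.2.1))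
    hne hδ (by linarith) (Hfr f l₁ l₂ k y) (Hfr_cont f l₁ l₂ k hy) (Hfr_add f l₁ l₂ k)
    (B := B) (fun x => hB l₁ l₂ k y x hy) (W := W) (by
      intro r hr _ u hu
      obtain ⟨h1, h2, h3, h4, h5⟩ := hR r hr
      have h6 := hC l₁ l₂ r (N * l₁ * l₂ * r) hl₁ hl₂ h1 h4 rfl k h5 y u hy
      unfold Hfr
      refine h6.trans ?_
      have hrR : (r : ℝ) ≤ 4 * Q := by exact_mod_cast h3
      have hr0 : (0 : ℝ) ≤ r := Nat.cast_nonneg _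
      have h7 : (r : ℝ) ^ (3 / 4 : ℝ) ≤ (4 * Q : ℝ) ^ (3 / 4 : ℝ) :=
        Real.rpow_le_rpow hr0 hrR (by norm_num)
      have h8 : ((N * l₁ * l₂ * r : ℕ) : ℝ) ^ 4 ≤ (N * l₁ * l₂ * (4 * Q) : ℝ) ^ 4 := by
        apply pow_le_pow_left₀ (by positivity)
        push_cast
        exact mul_le_mul_of_nonneg_left hrR hMR.le
      have h9 : (u ^ 2 + y ^ 2) ^ 2 ≤ (2 * δ ^ 2) ^ 2 := by
        apply pow_le_pow_left₀ (by positivity)
        have h10 : u ^ 2 ≤ δ ^ 2 := sq_le_sq' (neg_le_of_abs_le hu) (le_of_abs_le hu)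
        have h11 : y ^ 2 ≤ δ ^ 2 := pow_le_pow_left₀ hy.le hyδ 2
        linarith
      rw [hW]
      gcongr)
  refine key.trans ?_
  have hcard : (0 : ℝ) < R.card := by exact_mod_cast Finset.card_pos.2 hne
  have hΛ : (R.card : ℝ) * Q ≤ ((∑ r ∈ R, (r - 1) : ℕ) : ℝ) := by
    have h1 : ∑ r ∈ R, Q ≤ ∑ r ∈ R, (r - 1) := Finset.sum_le_sum fun r hr => by
      have := (hR r hr).2.1
      omega
    rw [Finset.sum_const, smul_eq_mul] at h1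
    exact_mod_cast h1
  have hΛ0 : 0 < (R.card : ℝ) * Q := by positivity
  have hW0 : 0 ≤ W := by rw [hW]; positivity
  apply add_le_add
  · have h1 : W * R.card / (φ * ((∑ r ∈ R, (r - 1) : ℕ) : ℝ)) ≤ W * R.card / (φ * (R.card * Q)) := by
      apply div_le_div_of_nonneg_left (by positivity) (by positivity)
      exact mul_le_mul_of_nonneg_left hΛ hφ0.le
    refine h1.trans ?_
    have h2 : W * R.card / (φ * (R.card * Q)) = C * ((4 : ℝ) ^ (3 / 4 : ℝ) * 1024) * (N * l₁ * l₂ : ℝ) ^ 4 *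
        ((Q : ℝ) ^ (3 / 4 : ℝ) * Q ^ 3 * δ ^ 4 / y ^ 2) := by
      rw [hW, Real.mul_rpow (by norm_num) hQR.le]
      field_simp
      ring
    rw [h2]
    have h3 : (4 : ℝ) ^ (3 / 4 : ℝ) ≤ 4 := by
      calc (4 : ℝ) ^ (3 / 4 : ℝ) ≤ (4 : ℝ) ^ (1 : ℝ) :=
            Real.rpow_le_rpow_of_exponent_le (by norm_num) (by norm_num)
        _ = 4 := Real.rpow_one _
    have h4 : C * ((4 : ℝ) ^ (3 / 4 : ℝ) * 1024) ≤ B + C * 4096 := by
      have h5 : C * ((4 : ℝ) ^ (3 / 4 : ℝ) * 1024) ≤ C * 4096 := by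
        apply mul_le_mul_of_nonneg_left _ hC0
        linarith
      linarith
    gcongr
  · apply mul_le_mul_of_nonneg_right _ (Real.sqrt_nonneg _)
    have : 0 ≤ C * 4096 := by positivity
    linarith


/-- **frequencies of the product of two dilates** -/
theorem frq (f : CuspForm (Gamma0 N) 2) : ∃ C : ℝ, 0 ≤ C ∧ ∀ (l₁ l₂ : ℕ), 0 < l₁ → 0 < l₂ →
    ∀ k : ℤ, k ≠ 0 → ∀ y : ℝ, 0 < y → y ≤ 1 →
    Real.log ((N * l₁ * l₂ * k.natAbs : ℕ) : ℝ) ≤ y ^ (-(1 / 4) : ℝ) →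
    ‖∫ x in (0 : ℝ)..1, (y : ℂ) ^ 2 * f (vert (l₁ * x) y) * conj (f (vert (l₂ * x) y)) *
      cexp (2 * π * Complex.I * ((-k : ℤ) : ℂ) * (x : ℂ))‖ ≤
      C * ((l₁ : ℝ) * l₂) ^ 4 * y ^ (1 / 100 : ℝ) := by
  obtain ⟨B, hB0, hB⟩ := Hfr_bound f
  obtain ⟨C, hC0, hC⟩ := frq_step f
  obtain ⟨Q₀, hQ₀2, hQ₀⟩ := cheb_count'
  have hN0 : 0 < N := Nat.pos_of_ne_zero (NeZero.ne N)
  have hN1 : (1 : ℝ) ≤ N := by exact_mod_cast hN0
  -- the small values of `y`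
  obtain ⟨y₀, hy₀, hy₀1, hsm⟩ : ∃ y₀ : ℝ, 0 < y₀ ∧ y₀ ≤ 1 ∧ ∀ y : ℝ, 0 < y → y ≤ y₀ →
      16 * y ^ (19 / 40 : ℝ) ≤ 1 ∧ (Q₀ : ℝ) ≤ y ^ (-(1 / 2) : ℝ) ∧ y ^ (1 / 4 : ℝ) ≤ 1 / 4 := by
    have t1 : Tendsto (fun y : ℝ => 16 * y ^ (19 / 40 : ℝ)) (𝓝[>] 0) (𝓝 0) := by
      have : Tendsto (fun y : ℝ => 16 * y ^ (19 / 40 : ℝ)) (𝓝 0) (𝓝 (16 * 0 ^ (19 / 40 : ℝ))) := by
        apply Tendsto.const_mul
        exact (Real.continuousAt_rpow_const 0 _ (Or.inr (by norm_num))).tendsto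
      rw [Real.zero_rpow (by norm_num), mul_zero] at this
      exact this.mono_left nhdsWithin_le_nhds
    have t2 : Tendsto (fun y : ℝ => y ^ (-(1 / 2) : ℝ)) (𝓝[>] 0) atTop :=
      tendsto_rpow_neg_nhdsGT_zero (by norm_num)
    have t3 : Tendsto (fun y : ℝ => y ^ (1 / 4 : ℝ)) (𝓝[>] 0) (𝓝 0) := by
      have : Tendsto (fun y : ℝ => y ^ (1 / 4 : ℝ)) (𝓝 0) (𝓝 (0 ^ (1 / 4 : ℝ))) := by
        exact (Real.continuousAt_rpow_const 0 _ (Or.inr (by norm_num))).tendsto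
      rw [Real.zero_rpow (by norm_num)] at this
      exact this.mono_left nhdsWithin_le_nhds
    have h1 := (t1.eventually (ge_mem_nhds (by norm_num : (0 : ℝ) < 1))).and
      ((t2.eventually (eventually_ge_atTop (Q₀ : ℝ))).and
        (t3.eventually (ge_mem_nhds (by norm_num : (0 : ℝ) < 1 / 4))))
    obtain ⟨y₁, hy₁, h2⟩ := mem_nhdsGT_iff_exists_Ioc_subset.1 h1
    refine ⟨min y₁ 1, lt_min hy₁ one_pos, min_le_right _ _, fun y h3 h4 => ?_⟩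
    exact h2 ⟨h3, h4.trans (min_le_left _ _)⟩
  refine ⟨31 * C * (N : ℝ) ^ 4 + B * y₀ ^ (-(1 / 100) : ℝ), by positivity, ?_⟩
  intro l₁ l₂ hl₁ hl₂ k hk y hy hy1 hlog
  have hl₁R : (1 : ℝ) ≤ l₁ := by exact_mod_cast hl₁
  have hl₂R : (1 : ℝ) ≤ l₂ := by exact_mod_cast hl₂
  have hll : (1 : ℝ) ≤ ((l₁ : ℝ) * l₂) ^ 4 := by
    have h1 : (1 : ℝ) ≤ (l₁ : ℝ) * l₂ := one_le_mul_of_one_le_of_one_le hl₁R hl₂R
    exact one_le_pow₀ h1
  change ‖∫ x in (0 : ℝ)..1, Hfr f l₁ l₂ k y x‖ ≤ _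
  rcases le_or_gt y y₀ with hyy | hyy
  swap
  · -- the trivial range
    have h1 : ‖∫ x in (0 : ℝ)..1, Hfr f l₁ l₂ k y x‖ ≤ B * |1 - 0| :=
      intervalIntegral.norm_integral_le_of_norm_le_const fun x _ => hB l₁ l₂ k y x hy
    have h2 : 1 ≤ y₀ ^ (-(1 / 100) : ℝ) * y ^ (1 / 100 : ℝ) := by
      have h3 : y₀ ^ (1 / 100 : ℝ) ≤ y ^ (1 / 100 : ℝ) :=
        Real.rpow_le_rpow hy₀.le hyy.le (by norm_num)
      have h4 : y₀ ^ (-(1 / 100) : ℝ) * y₀ ^ (1 / 100 : ℝ) = 1 := by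
        rw [← Real.rpow_add hy₀]
        norm_num
      exact h4.symm.le.trans (mul_le_mul_of_nonneg_left h3 (Real.rpow_nonneg hy₀.le _))
    have h5 : B ≤ B * y₀ ^ (-(1 / 100) : ℝ) * ((l₁ : ℝ) * l₂) ^ 4 * y ^ (1 / 100 : ℝ) := by
      have h6 : B * 1 * 1 ≤ B * (y₀ ^ (-(1 / 100) : ℝ) * y ^ (1 / 100 : ℝ)) * ((l₁ : ℝ) * l₂) ^ 4 := by
        gcongr
      linarith
    have h7 : 0 ≤ 31 * C * (N : ℝ) ^ 4 * ((l₁ : ℝ) * l₂) ^ 4 * y ^ (1 / 100 : ℝ) := by positivity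
    rw [sub_zero, abs_one, mul_one] at h1
    linarith
  -- the parameters
  obtain ⟨hs1, hs2, hs3⟩ := hsm y hy hyy
  set Y : ℝ := y ^ (-(1 / 2) : ℝ) with hY
  have hY0 : 0 < Y := Real.rpow_pos_of_pos hy _
  have hY1 : 1 ≤ Y := Real.one_le_rpow_of_pos_of_le_one_of_nonpos hy hy1 (by norm_num)
  set Q : ℕ := ⌈Y⌉₊ with hQ
  have hQY : Y ≤ Q := Nat.le_ceil _
  have hQY2 : (Q : ℝ) ≤ 2 * Y := by
    have := Nat.ceil_lt_add_one hY0.le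
    linarith
  have hQR : (0 : ℝ) < Q := lt_of_lt_of_le hY0 hQY
  have hQ1 : 1 ≤ Q := by exact_mod_cast hQR
  have hQQ : Q₀ ≤ Q := by exact_mod_cast hs2.trans hQY
  have hQ2 : (2 : ℝ) ≤ Q := by exact_mod_cast hQ₀2.trans hQQ
  set δ : ℝ := y ^ (39 / 40 : ℝ) with hδ
  have hδ0 : 0 < δ := Real.rpow_pos_of_pos hy _
  have hyδ : y ≤ δ := by
    have := Real.rpow_le_rpow_of_exponent_ge hy hy1 (by norm_num : (39 / 40 : ℝ) ≤ 1)
    rwa [Real.rpow_one] at this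
  have h8 : 8 * Q * δ ≤ 1 := by
    have h1 : Y * δ = y ^ (19 / 40 : ℝ) := by
      rw [hY, hδ, ← Real.rpow_add hy]
      norm_num
    have h2 : 8 * (Q : ℝ) * δ ≤ 8 * (2 * Y) * δ := by gcongr
    calc 8 * (Q : ℝ) * δ ≤ 8 * (2 * Y) * δ := h2
      _ = 16 * (Y * δ) := by ring
      _ ≤ 1 := by rw [h1]; exact hs1
  set M : ℕ := N * l₁ * l₂ * k.natAbs with hM
  have hM1 : 1 ≤ M := by
    have := Int.natAbs_pos.2 hk
    rw [hM]
    exact Nat.succ_le_of_lt (by positivity)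
  set R : Finset ℕ := (Finset.Ioc Q (4 * Q)).filter fun r => r.Prime ∧ ¬ r ∣ M with hR
  have hlQ : 0 < Real.log Q := Real.log_pos (by linarith)
  have hcard : (Q : ℝ) / (4 * Real.log Q) ≤ R.card := by
    have h1 := hQ₀ Q hQQ M hM1
    have h2 : Real.log M ≤ Q / 4 := by
      have h3 : y ^ (-(1 / 4) : ℝ) ≤ Y / 4 := by
        have h4 : y ^ (-(1 / 4) : ℝ) = Y * y ^ (1 / 4 : ℝ) := by
          rw [hY, ← Real.rpow_add hy]
          norm_num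
        rw [h4]
        have := mul_le_mul_of_nonneg_left hs3 hY0.le
        linarith
      have h5 : Y / 4 ≤ Q / 4 := by linarith
      exact (hlog.trans h3).trans h5
    have h6 : Real.log M / Real.log Q ≤ (Q : ℝ) / (4 * Real.log Q) := by
      rw [mul_comm 4, ← div_div, div_right_comm]
      exact div_le_div_of_nonneg_right h2 hlQ.le
    have h7 : (Q : ℝ) / Real.log Q / 2 = (Q : ℝ) / (4 * Real.log Q) + (Q : ℝ) / (4 * Real.log Q) := by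
      field_simp
      ring
    rw [h7] at h1
    linarith
  have hcard0 : 0 < (R.card : ℝ) := lt_of_lt_of_le (by positivity) hcard
  have hne : R.Nonempty := by
    rw [← Finset.card_pos]
    exact_mod_cast hcard0
  have key := hC l₁ l₂ hl₁ hl₂ k y hy δ hyδ Q hQ1 h8 R (by
    intro r hr
    rw [hR, Finset.mem_filter, Finset.mem_Ioc] at hr
    obtain ⟨⟨h1, h2⟩, h3, h4⟩ := hr
    refine ⟨h3, h1, h2, fun h => h4 (h.mul_right _), fun h => h4 ?_⟩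
    exact (Int.natCast_dvd.1 h).mul_left _) hne
  refine key.trans ?_
  -- the first term
  have e1 : (Q : ℝ) ^ (3 / 4 : ℝ) * Q ^ 3 * δ ^ 4 / y ^ 2 ≤ 16 * y ^ (1 / 100 : ℝ) := by
    have h1 : (Q : ℝ) ^ (3 / 4 : ℝ) * Q ^ 3 ≤ 16 * y ^ (-(15 / 8) : ℝ) := by
      have h2 : (Q : ℝ) ^ (3 / 4 : ℝ) * Q ^ 3 = (Q : ℝ) ^ (15 / 4 : ℝ) := by
        rw [← Real.rpow_natCast (Q : ℝ) 3, ← Real.rpow_add hQR]
        norm_num
      rw [h2]
      calc (Q : ℝ) ^ (15 / 4 : ℝ) ≤ (2 * Y) ^ (15 / 4 : ℝ) :=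
            Real.rpow_le_rpow hQR.le hQY2 (by norm_num)
        _ = (2 : ℝ) ^ (15 / 4 : ℝ) * Y ^ (15 / 4 : ℝ) := Real.mul_rpow (by norm_num) hY0.le
        _ ≤ 16 * Y ^ (15 / 4 : ℝ) := by
          apply mul_le_mul_of_nonneg_right _ (by positivity)
          calc (2 : ℝ) ^ (15 / 4 : ℝ) ≤ (2 : ℝ) ^ (4 : ℝ) :=
                Real.rpow_le_rpow_of_exponent_le (by norm_num) (by norm_num)
            _ = 16 := by norm_num
        _ = 16 * y ^ (-(15 / 8) : ℝ) := by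
          rw [hY, ← Real.rpow_mul hy.le]
          norm_num
    have h3 : δ ^ 4 / y ^ 2 = y ^ (19 / 10 : ℝ) := by
      rw [hδ, ← Real.rpow_natCast, ← Real.rpow_natCast, ← Real.rpow_mul hy.le, ← Real.rpow_sub hy]
      norm_num
    calc (Q : ℝ) ^ (3 / 4 : ℝ) * Q ^ 3 * δ ^ 4 / y ^ 2 =
          (Q : ℝ) ^ (3 / 4 : ℝ) * Q ^ 3 * (δ ^ 4 / y ^ 2) := by ring
      _ ≤ 16 * y ^ (-(15 / 8) : ℝ) * y ^ (19 / 10 : ℝ) := by
        rw [h3]
        gcongr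
      _ = 16 * y ^ (1 / 40 : ℝ) := by
        rw [mul_assoc, ← Real.rpow_add hy]
        norm_num
      _ ≤ 16 * y ^ (1 / 100 : ℝ) := by
        apply mul_le_mul_of_nonneg_left _ (by norm_num)
        exact Real.rpow_le_rpow_of_exponent_ge hy hy1 (by norm_num)
  -- the second term
  have e2 : √(1 / (2 * δ * R.card * Q) + 1 / (2 * δ * Q ^ 2) + 3 / Q) ≤ 15 * y ^ (1 / 100 : ℝ) := by
    have g1 : 1 / (2 * δ * R.card * Q) ≤ 200 * y ^ (1 / 50 : ℝ) := by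
      have h1 : Real.log Q ≤ 100 * (Q : ℝ) ^ (1 / 100 : ℝ) := by
        have := Real.log_le_rpow_div hQR.le (by norm_num : (0 : ℝ) < 1 / 100)
        rw [_root_.div_div_eq_mul_div, div_one] at this
        linarith
      have h2 : 1 / (2 * δ * R.card * Q) ≤ 1 / (2 * δ * (Q / (4 * Real.log Q)) * Q) := by
        gcongr
      refine h2.trans ?_
      have h3 : 1 / (2 * δ * (Q / (4 * Real.log Q)) * Q) = 2 * Real.log Q / (δ * Q ^ 2) := by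
        field_simp
        ring
      rw [h3]
      calc 2 * Real.log Q / (δ * Q ^ 2) ≤ 2 * (100 * (Q : ℝ) ^ (1 / 100 : ℝ)) / (δ * Q ^ 2) := by
            gcongr
        _ = 200 * δ⁻¹ * (Q : ℝ) ^ (-(199 / 100) : ℝ) := by
          have h4 : (Q : ℝ) ^ (1 / 100 : ℝ) / (Q : ℝ) ^ 2 = (Q : ℝ) ^ (-(199 / 100) : ℝ) := by
            rw [← Real.rpow_natCast (Q : ℝ) 2, ← Real.rpow_sub hQR]
            norm_num
          rw [← h4]
          field_simp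
          ring
        _ ≤ 200 * δ⁻¹ * Y ^ (-(199 / 100) : ℝ) := by
          apply mul_le_mul_of_nonneg_left _ (by positivity)
          exact Real.rpow_le_rpow_of_nonpos hY0 hQY (by norm_num)
        _ = 200 * y ^ (1 / 50 : ℝ) := by
          rw [mul_assoc, hY, hδ, ← Real.rpow_neg hy.le, ← Real.rpow_mul hy.le, ← Real.rpow_add hy]
          norm_num
    have g2 : 1 / (2 * δ * Q ^ 2) ≤ y ^ (1 / 50 : ℝ) := by
      calc 1 / (2 * δ * (Q : ℝ) ^ 2) ≤ 1 / (1 * δ * Y ^ 2) := by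
            gcongr
            norm_num
        _ = y ^ (1 / 40 : ℝ) := by
          rw [one_mul, _root_.one_div, hY, hδ, ← Real.rpow_natCast, ← Real.rpow_mul hy.le,
            ← Real.rpow_add hy, ← Real.rpow_neg hy.le]
          norm_num
        _ ≤ y ^ (1 / 50 : ℝ) := Real.rpow_le_rpow_of_exponent_ge hy hy1 (by norm_num)
    have g3 : 3 / (Q : ℝ) ≤ 3 * y ^ (1 / 50 : ℝ) := by
      calc 3 / (Q : ℝ) ≤ 3 / Y := by gcongr
        _ = 3 * y ^ (1 / 2 : ℝ) := by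
          rw [hY, div_eq_mul_inv, ← Real.rpow_neg hy.le]
          norm_num
        _ ≤ 3 * y ^ (1 / 50 : ℝ) := by
          apply mul_le_mul_of_nonneg_left _ (by norm_num)
          exact Real.rpow_le_rpow_of_exponent_ge hy hy1 (by norm_num)
    have hy50 : 0 < y ^ (1 / 50 : ℝ) := Real.rpow_pos_of_pos hy _
    have g4 : 1 / (2 * δ * R.card * Q) + 1 / (2 * δ * Q ^ 2) + 3 / Q ≤ (15 * y ^ (1 / 100 : ℝ)) ^ 2 := by
      have h5 : (15 * y ^ (1 / 100 : ℝ)) ^ 2 = 225 * y ^ (1 / 50 : ℝ) := by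
        rw [_root_.mul_pow, ← Real.rpow_natCast (y ^ (1 / 100 : ℝ)) 2, ← Real.rpow_mul hy.le]
        norm_num
      rw [h5]
      linarith
    exact Real.sqrt_le_iff.2 ⟨by positivity, g4⟩
  have hy100 : 0 < y ^ (1 / 100 : ℝ) := Real.rpow_pos_of_pos hy _
  have hBy : 0 ≤ B * y₀ ^ (-(1 / 100) : ℝ) * ((l₁ : ℝ) * l₂) ^ 4 * y ^ (1 / 100 : ℝ) := by positivity
  have f1 : C * (N * l₁ * l₂ : ℝ) ^ 4 * ((Q : ℝ) ^ (3 / 4 : ℝ) * Q ^ 3 * δ ^ 4 / y ^ 2) ≤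
      16 * C * (N : ℝ) ^ 4 * ((l₁ : ℝ) * l₂) ^ 4 * y ^ (1 / 100 : ℝ) := by
    calc C * (N * l₁ * l₂ : ℝ) ^ 4 * ((Q : ℝ) ^ (3 / 4 : ℝ) * Q ^ 3 * δ ^ 4 / y ^ 2) ≤
          C * (N * l₁ * l₂ : ℝ) ^ 4 * (16 * y ^ (1 / 100 : ℝ)) :=
            mul_le_mul_of_nonneg_left e1 (by positivity)
      _ = 16 * C * (N : ℝ) ^ 4 * ((l₁ : ℝ) * l₂) ^ 4 * y ^ (1 / 100 : ℝ) := by ring
  have f2 : C * √(1 / (2 * δ * R.card * Q) + 1 / (2 * δ * Q ^ 2) + 3 / Q) ≤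
      15 * C * (N : ℝ) ^ 4 * ((l₁ : ℝ) * l₂) ^ 4 * y ^ (1 / 100 : ℝ) := by
    have hN4 : (1 : ℝ) ≤ (N : ℝ) ^ 4 := one_le_pow₀ hN1
    calc C * √(1 / (2 * δ * R.card * Q) + 1 / (2 * δ * Q ^ 2) + 3 / Q) ≤
          C * (15 * y ^ (1 / 100 : ℝ)) := mul_le_mul_of_nonneg_left e2 hC0
      _ = C * 15 * y ^ (1 / 100 : ℝ) * (1 * 1) := by ring
      _ ≤ C * 15 * y ^ (1 / 100 : ℝ) * ((N : ℝ) ^ 4 * ((l₁ : ℝ) * l₂) ^ 4) := by gcongr
      _ = 15 * C * (N : ℝ) ^ 4 * ((l₁ : ℝ) * l₂) ^ 4 * y ^ (1 / 100 : ℝ) := by ring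
  linarith

end Pool.Agent.MU0
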