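import Pool.Agent.MU0.Defs

/-!
# The twisted second moment from the correlations
-/

set_option autoImplicit false

open Finset
open scoped Real ComplexConjugate

namespace Pool.Agent.MU0

variable {q : ℕ} [NeZero q]

theorem tsm_shift (h : ZMod q → ℂ) {l l' : ℕ} (hl : l.Coprime q) (hl' : l'.Coprime q) :
    ∑ x : ZMod q, h ((l : ZMod q)⁻¹ * x) * conj (h ((l' : ZMod q)⁻¹ * x)) =
      ∑ x : ZMod q, h ((l' : ZMod q) * x) * conj (h ((l : ZMod q) * x)) := by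
  set u : (ZMod q)ˣ := ZMod.unitOfCoprime l hl with hu
  set u' : (ZMod q)ˣ := ZMod.unitOfCoprime l' hl' with hu'
  have h1 : (l : ZMod q) = u := (ZMod.coe_unitOfCoprime l hl).symm
  have h2 : (l' : ZMod q) = u' := (ZMod.coe_unitOfCoprime l' hl').symm
  rw [h1, h2, ZMod.inv_coe_unit, ZMod.inv_coe_unit]
  refine (Fintype.sum_equiv (Units.mulLeft (u * u')) _ _ fun x => ?_).symm
  have h3 : ((u⁻¹ : (ZMod q)ˣ) : ZMod q) * ((u * u' : (ZMod q)ˣ) * x) = u' * x := by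
    rw [← mul_assoc, ← Units.val_mul]
    congr 2
    group
  have h4 : ((u'⁻¹ : (ZMod q)ˣ) : ZMod q) * ((u * u' : (ZMod q)ˣ) * x) = u * x := by
    rw [← mul_assoc, ← Units.val_mul]
    congr 2
    rw [mul_comm u u']
    group
  simp only [Units.mulLeft_apply]
  rw [h3, h4]

theorem tsm_expand (h : ZMod q → ℂ) (S : Finset ℕ) (a : ℕ → ℤ) (hS : ∀ l ∈ S, l.Coprime q) :
    ((EE q (fun x => ‖∑ l ∈ S, (a l : ℂ) * h ((l : ZMod q)⁻¹ * x)‖ ^ 2) : ℝ) : ℂ) =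
      ∑ l ∈ S, ∑ l' ∈ S, (a l : ℂ) * (a l' : ℂ) *
        ((1 / (q : ℂ)) * ∑ x : ZMod q, h ((l' : ZMod q) * x) * conj (h ((l : ZMod q) * x))) := by
  unfold EE
  push_cast
  have h1 : ∀ x : ZMod q, ((‖∑ l ∈ S, (a l : ℂ) * h ((l : ZMod q)⁻¹ * x)‖ : ℂ)) ^ 2 =
      ∑ l ∈ S, ∑ l' ∈ S, (a l : ℂ) * (a l' : ℂ) *
        (h ((l : ZMod q)⁻¹ * x) * conj (h ((l' : ZMod q)⁻¹ * x))) := by
    intro x
    rw [← Complex.mul_conj', map_sum, Finset.sum_mul_sum]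
    refine Finset.sum_congr rfl fun l _ => Finset.sum_congr rfl fun l' _ => ?_
    rw [map_mul, map_intCast]
    ring
  rw [Finset.sum_congr rfl fun x _ => h1 x, Finset.sum_comm, Finset.sum_div]
  refine Finset.sum_congr rfl fun l hl => ?_
  rw [Finset.sum_comm, Finset.sum_div]
  refine Finset.sum_congr rfl fun l' hl' => ?_
  rw [← Finset.mul_sum, tsm_shift h (hS l hl) (hS l' hl')]
  ring

/-- the twisted second moment for a bounded function with small correlations -/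
theorem tsm_abs (h : ZMod q → ℂ) (S : Finset ℕ) (a : ℕ → ℤ) {L C₀ C₁ : ℝ} (hL : 1 ≤ L)
    (hC₁ : 0 ≤ C₁) (hS : ∀ l ∈ S, l.Coprime q ∧ L ≤ l ∧ (l : ℝ) ≤ 2 * L)
    (ha : ∀ l ∈ S, (a l : ℝ) ^ 2 ≤ 4 * l) (hb : ∀ x, ‖h x‖ ≤ C₀)
    (hc : ∀ l₁ ∈ S, ∀ l₂ ∈ S, l₁ ≠ l₂ →
      ‖(1 / (q : ℂ)) * ∑ u : ZMod q, h ((l₁ : ZMod q) * u) * conj (h ((l₂ : ZMod q) * u))‖ ≤
        C₁ * (1 / l₁ + 1 / l₂)) :
    EE q (fun u => ‖∑ l ∈ S, (a l : ℂ) * h ((l : ZMod q)⁻¹ * u)‖ ^ 2) ≤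
      (16 * C₀ ^ 2 + 64 * C₁) * L ^ 2 := by
  have hq0 : (0 : ℝ) < q := by
    have := NeZero.pos q
    exact_mod_cast this
  have hL0 : 0 < L := by linarith
  have hcard : (S.card : ℝ) ≤ 2 * L := by
    have h1 : S ⊆ Icc ⌈L⌉₊ ⌊2 * L⌋₊ := by
      intro l hl
      rw [Finset.mem_Icc]
      exact ⟨Nat.ceil_le.2 (hS l hl).2.1, Nat.le_floor (hS l hl).2.2⟩
    have h2 := Finset.card_le_card h1
    rw [Nat.card_Icc] at h2
    have h3 : (⌊2 * L⌋₊ : ℝ) ≤ 2 * L := Nat.floor_le (by linarith)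
    have h4 : L ≤ ⌈L⌉₊ := Nat.le_ceil L
    have h5 : (S.card : ℝ) ≤ ⌊2 * L⌋₊ + 1 - ⌈L⌉₊ := by
      have h6 : S.card + ⌈L⌉₊ ≤ ⌊2 * L⌋₊ + 1 ∨ S.card = 0 := by omega
      rcases h6 with h6 | h6
      · have : (S.card : ℝ) + ⌈L⌉₊ ≤ ⌊2 * L⌋₊ + 1 := by exact_mod_cast h6
        linarith
      · rw [h6]
        have h7 : ⌈L⌉₊ ≤ ⌊2 * L⌋₊ + 1 := by
          have h8 : (⌈L⌉₊ : ℝ) < L + 1 := Nat.ceil_lt_add_one hL0.le
          have h9 : 2 * L < ⌊2 * L⌋₊ + 1 := Nat.lt_floor_add_one _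
          have : (⌈L⌉₊ : ℝ) < (⌊2 * L⌋₊ + 1 : ℕ) + 1 := by push_cast; linarith
          have : ⌈L⌉₊ < (⌊2 * L⌋₊ + 1) + 1 := by exact_mod_cast this
          omega
        have : (⌈L⌉₊ : ℝ) ≤ ⌊2 * L⌋₊ + 1 := by exact_mod_cast h7
        push_cast
        linarith
    linarith
  have habs : ∀ l ∈ S, ∀ l' ∈ S, |(a l : ℝ) * a l'| ≤ 8 * L := by
    intro l hl l' hl'
    have h1 := ha l hl
    have h2 := ha l' hl'
    have h3 := (hS l hl).2.2
    have h4 := (hS l' hl').2.2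
    rw [abs_le]
    constructor <;> nlinarith [sq_nonneg ((a l : ℝ) - a l'), sq_nonneg ((a l : ℝ) + a l')]
  have hdiag : ∀ l : ℕ, ‖(1 / (q : ℂ)) * ∑ u : ZMod q, h ((l : ZMod q) * u) *
      conj (h ((l : ZMod q) * u))‖ ≤ C₀ ^ 2 := by
    intro l
    rw [norm_mul, norm_div, norm_one, Complex.norm_natCast]
    have h1 : ‖∑ u : ZMod q, h ((l : ZMod q) * u) * conj (h ((l : ZMod q) * u))‖ ≤ q * C₀ ^ 2 := by
      refine (norm_sum_le _ _).trans ?_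
      calc ∑ u : ZMod q, ‖h ((l : ZMod q) * u) * conj (h ((l : ZMod q) * u))‖
          ≤ ∑ _u : ZMod q, C₀ ^ 2 := by
            refine Finset.sum_le_sum fun u _ => ?_
            rw [norm_mul, RCLike.norm_conj, ← sq]
            exact pow_le_pow_left₀ (norm_nonneg _) (hb _) 2
        _ = q * C₀ ^ 2 := by
            rw [Finset.sum_const, Finset.card_univ, ZMod.card, nsmul_eq_mul]
    rw [one_div, inv_mul_le_iff₀ hq0]
    exact h1
  have hE0 : 0 ≤ EE q (fun u => ‖∑ l ∈ S, (a l : ℂ) * h ((l : ZMod q)⁻¹ * u)‖ ^ 2) :=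
    div_nonneg (Finset.sum_nonneg fun u _ => by positivity) hq0.le
  have hexp := congrArg norm (tsm_expand h S a fun l hl => (hS l hl).1)
  rw [Complex.norm_real, Real.norm_of_nonneg hE0] at hexp
  rw [hexp]
  have hterm : ∀ l ∈ S, ∀ l' ∈ S, ‖(a l : ℂ) * (a l' : ℂ) *
      ((1 / (q : ℂ)) * ∑ x : ZMod q, h ((l' : ZMod q) * x) * conj (h ((l : ZMod q) * x)))‖ ≤
      (if l = l' then 8 * L * C₀ ^ 2 else 0) + 16 * C₁ := by
    intro l hl l' hl'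
    rw [norm_mul]
    have h1 : ‖(a l : ℂ) * (a l' : ℂ)‖ ≤ 8 * L := by
      have := habs l hl l' hl'
      rw [← Complex.ofReal_intCast, ← Complex.ofReal_intCast, ← Complex.ofReal_mul,
        Complex.norm_real]
      exact this
    split_ifs with he
    · subst he
      have h2 := hdiag l
      have : 8 * L * C₀ ^ 2 ≤ 8 * L * C₀ ^ 2 + 16 * C₁ := by linarith
      refine le_trans ?_ this
      gcongr
    · have h2 := hc l' hl' l hl (fun h => he h.symm)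
      have h3 : (1 : ℝ) / l' + 1 / l ≤ 2 / L := by
        have h4 : (1 : ℝ) / l ≤ 1 / L := one_div_le_one_div_of_le hL0 (hS l hl).2.1
        have h5 : (1 : ℝ) / l' ≤ 1 / L := one_div_le_one_div_of_le hL0 (hS l' hl').2.1
        have : (2 : ℝ) / L = 1 / L + 1 / L := by ring
        linarith
      calc ‖(a l : ℂ) * (a l' : ℂ)‖ * ‖(1 / (q : ℂ)) * ∑ x : ZMod q, h ((l' : ZMod q) * x) *
            conj (h ((l : ZMod q) * x))‖
          ≤ (8 * L) * (C₁ * (2 / L)) := by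
            refine mul_le_mul h1 (h2.trans ?_) (norm_nonneg _) (by positivity)
            gcongr
        _ = 0 + 16 * C₁ := by field_simp; ring
  refine (norm_sum_le _ _).trans ?_
  refine (Finset.sum_le_sum fun l _ => norm_sum_le _ _).trans ?_
  refine (Finset.sum_le_sum fun l hl => Finset.sum_le_sum fun l' hl' => hterm l hl l' hl').trans ?_
  have h5 : ∀ l ∈ S, ∑ l' ∈ S, ((if l = l' then 8 * L * C₀ ^ 2 else 0) + 16 * C₁) ≤
      8 * L * C₀ ^ 2 + (2 * L) * (16 * C₁) := by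
    intro l hl
    rw [Finset.sum_add_distrib, Finset.sum_ite_eq, if_pos hl, Finset.sum_const, nsmul_eq_mul]
    gcongr
  refine (Finset.sum_le_sum h5).trans ?_
  rw [Finset.sum_const, nsmul_eq_mul]
  calc (S.card : ℝ) * (8 * L * C₀ ^ 2 + 2 * L * (16 * C₁))
      ≤ (2 * L) * (8 * L * C₀ ^ 2 + 2 * L * (16 * C₁)) := by gcongr
    _ = (16 * C₀ ^ 2 + 64 * C₁) * L ^ 2 := by ring

end Pool.Agent.MU0
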