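import Pool.Agent.MU0.TDefs
import Pool.Agent.MU0.Tsm0
import Pool.Agent.MU0.Lf

/-!
# The twisted second moment from the correlations
-/

set_option autoImplicit false

open Finset CongruenceSubgroup
open Pool.Agent.MZ Pool.Agent.MZ.Per Pool.Agent.MU1
open scoped Real ComplexConjugate

namespace Pool.Agent.MU0

variable {N : ℕ} [NeZero N]

theorem sm_std {q : ℕ} [NeZero q] (k : ℕ) (x : ZMod q) :
    (ZMod.stdAddChar ((k : ZMod q) * x) : ℂ) = Complex.exp (2 * π * Complex.I * k * x.val / q) := by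
  have h1 : (k : ZMod q) * x = ((k * x.val : ℤ) : ZMod q) := by
    push_cast
    rw [ZMod.natCast_zmod_val]
  rw [h1, ZMod.stdAddChar_coe]
  congr 1
  push_cast
  ring

theorem sm_period (g : CuspForm (Gamma0 N) 2) {η : ℝ} (hη : 0 < η) (x : ℝ) (k : ℤ) :
    g (vert (x + k) η) = g (vert x η) := by
  have hz : 0 < (((x : ℝ) : ℂ) + (η : ℂ) * Complex.I).im := by simpa using hη
  have hz' : 0 < (((x + k : ℝ) : ℂ) + (η : ℂ) * Complex.I).im := by simpa using hη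
  have h1 := hasSum_q g (a := fun n => (UpperHalfPlane.qExpansion 1 g).coeff n) (fun _ => rfl) _ hz
  have h2 := hasSum_q g (a := fun n => (UpperHalfPlane.qExpansion 1 g).coeff n) (fun _ => rfl) _ hz'
  refine h2.unique (h1.congr_fun ?_)
  intro n
  congr 1
  have : (2 * π * Complex.I * n * (((x + k : ℝ) : ℂ) + (η : ℂ) * Complex.I) : ℂ) =
      2 * π * Complex.I * n * (((x : ℝ) : ℂ) + (η : ℂ) * Complex.I) +
        ((n * k : ℤ) : ℂ) * (2 * π * Complex.I) := by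
    push_cast
    ring
  rw [this, Complex.exp_add, Complex.exp_int_mul_two_pi_mul_I, mul_one]

/-- `FF` is the value of `η f` at the point `x / q` -/
theorem sm_FF (f : CuspForm (Gamma0 N) 2) {a : ℕ → ℤ}
    (ha : ∀ n, (UpperHalfPlane.qExpansion 1 f).coeff n = a n) {η : ℝ} (hη : 0 < η)
    {q : ℕ} [NeZero q] (x : ZMod q) : FF a η x = (η : ℂ) * f (vert ((x.val : ℝ) / q) η) := by
  have hz : 0 < (((((x.val : ℝ) / q : ℝ)) : ℂ) + (η : ℂ) * Complex.I).im := by simpa using hη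
  have h1 := (hasSum_q f (a := fun n => (a n : ℂ)) (fun n => by rw [ha n]) _ hz).mul_left (η : ℂ)
  unfold FF sr vert
  rw [← h1.tsum_eq]
  refine tsum_congr fun m => ?_
  rw [sm_std]
  unfold xF
  push_cast
  rw [mul_assoc (η : ℂ), mul_assoc (η : ℂ), mul_assoc (a m : ℂ), ← Complex.exp_add]
  congr 3
  linear_combination (-(2 * π * m * η) : ℂ) * Complex.I_mul_I

theorem sm_FF_mul (f : CuspForm (Gamma0 N) 2) {a : ℕ → ℤ}
    (ha : ∀ n, (UpperHalfPlane.qExpansion 1 f).coeff n = a n) {η : ℝ} (hη : 0 < η)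
    {q : ℕ} [NeZero q] (l : ℕ) (x : ZMod q) :
    FF a η ((l : ZMod q) * x) = (η : ℂ) * f (vert (l * ((x.val : ℝ) / q)) η) := by
  rw [sm_FF f ha hη]
  congr 1
  have hq0 : (q : ℝ) ≠ 0 := by exact_mod_cast NeZero.ne q
  have h1 : ((l : ZMod q) * x).val = l * x.val % q := by
    have : (l : ZMod q) * x = ((l * x.val : ℕ) : ZMod q) := by
      push_cast
      rw [ZMod.natCast_zmod_val]
    rw [this, ZMod.val_natCast]
  have h2 : ((l : ℝ) * ((x.val : ℝ) / q)) = ((((l : ZMod q) * x).val : ℝ) / q) +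
      (((l * x.val / q : ℕ) : ℤ) : ℝ) := by
    rw [h1, Int.cast_natCast]
    have h3 : ((l * x.val % q : ℕ) : ℝ) + q * ((l * x.val / q : ℕ) : ℝ) = l * x.val := by
      exact_mod_cast Nat.mod_add_div (l * x.val) q
    rw [div_add' _ _ _ hq0, ← mul_div_assoc, ← h3]
    ring
  rw [h2, sm_period f hη]

theorem sm_bound (f : CuspForm (Gamma0 N) 2) {a : ℕ → ℤ}
    (ha : ∀ n, (UpperHalfPlane.qExpansion 1 f).coeff n = a n) : ∃ C : ℝ, 0 ≤ C ∧ ∀ η : ℝ, 0 < η →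
      ∀ (q : ℕ) [NeZero q] (b : ZMod q), ‖FF a η b‖ ≤ C := by
  obtain ⟨C, hC⟩ := CuspFormClass.exists_bound f
  have hC' : ∀ τ : UpperHalfPlane, ‖f τ‖ ≤ C / τ.im := by
    intro τ
    have := hC τ
    norm_num at this
    exact this
  have hC0 : 0 ≤ C := by
    have := (norm_nonneg _).trans (hC' UpperHalfPlane.I)
    simpa using this
  refine ⟨C, hC0, fun η hη q _ b => ?_⟩
  rw [sm_FF f ha hη, norm_mul, Complex.norm_real, Real.norm_of_nonneg hη.le]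
  have h1 := hC' (vert ((b.val : ℝ) / q) η)
  rw [im_vert hη] at h1
  calc η * ‖f (vert ((b.val : ℝ) / q) η)‖ ≤ η * (C / η) := by gcongr
    _ = C := by field_simp

theorem sm_hasse (f : CuspForm (Gamma0 N) 2) {a : ℕ → ℤ} (hf : Frm f a) {l : ℕ} (hl : l.Prime) :
    (a l : ℝ) ^ 2 ≤ 4 * l := by
  have h1 := hf.hasse l
  rw [Nat.Prime.divisors hl, Finset.card_pair hl.one_lt.ne] at h1
  have h2 : |(a l : ℝ)| ^ 2 ≤ (2 * √(l : ℝ)) ^ 2 := by
    refine pow_le_pow_left₀ (abs_nonneg _) ?_ 2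
    exact_mod_cast h1
  rw [sq_abs, _root_.mul_pow, Real.sq_sqrt (Nat.cast_nonneg l)] at h2
  linarith

/-- the correlations, the output of the circle method -/
def SmCorr (f : CuspForm (Gamma0 N) 2) : Prop :=
  ∃ (C : ℝ) (A q₀ : ℕ), 0 ≤ C ∧ ∀ (q Q l₁ l₂ : ℕ) [NeZero q], q₀ ≤ q → Q ^ A ≤ q →
    l₁.Prime → l₂.Prime → l₁ ≠ l₂ → ¬ l₁ ∣ N → ¬ l₂ ∣ N → l₁ ≤ Q → l₂ ≤ Q →
    ∀ η : ℝ, 1 / (√N * q) ≤ η → η ≤ Q / q →
    η ^ 2 * ‖(1 / (q : ℂ)) * ∑ u : ZMod q, f (vert (l₁ * ((u.val : ℝ) / q)) η) *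
      conj (f (vert (l₂ * ((u.val : ℝ) / q)) η))‖ ≤ C * (1 / l₁ + 1 / l₂)

theorem sm_of_corr (f : CuspForm (Gamma0 N) 2) {a : ℕ → ℤ} (hf : Frm f a) (hc : SmCorr f) :
    ∃ C : ℝ, ∀ w : ℝ, 0 < w → w < 1 / 2 → ∃ p₀ : ℕ, ∀ p : ℕ, p₀ ≤ p → p.Prime →
    ∀ (q : ℕ) [NeZero q], q = p ^ nn w p → ∀ η : ℝ, 1 / (√N * q) ≤ η → η ≤ (p : ℝ) ^ 200 / q →
    ∀ L : ℝ, (p : ℝ) ^ 160 ≤ L → L ≤ Real.exp ((p : ℝ) ^ (1 / 8 : ℝ)) →
    ∀ S : Finset ℕ, (∀ l ∈ S, l.Prime ∧ L < l ∧ l ≤ 2 * L) →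
      EE q (fun b => ‖∑ l ∈ S, (a l : ℂ) * FF a η ((l : ZMod q)⁻¹ * b)‖ ^ 2) ≤ C * L ^ 2 := by
  obtain ⟨C₀, hC₀, hb⟩ := sm_bound f hf.coeff
  obtain ⟨C₁, A, q₀, hC₁, hcorr⟩ := hc
  refine ⟨16 * C₀ ^ 2 + 64 * C₁, fun w hw hw2 => ?_⟩
  refine ⟨q₀ + N + (A + 2) ^ 8 + (100 * A) ^ 2 + 3, ?_⟩
  intro p hp₀ hp q _ hq η hη1 hη2 L hL1 hL2 S hS
  have hpq0 : q₀ ≤ p := by omega
  have hpN : N < p := by
    have : 0 < (A + 2) ^ 8 := by positivity
    omega
  have hp8 : (A + 2) ^ 8 ≤ p := by omega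
  have hp100 : (100 * A) ^ 2 ≤ p := by omega
  have hp3 : 3 ≤ p := by omega
  have hp1 : (1 : ℝ) ≤ p := by exact_mod_cast hp.one_lt.le
  have hp0 : (0 : ℝ) < p := by linarith
  have hsq : √(p : ℝ) ≤ (p : ℝ) ^ (1 - w) := by
    rw [Real.sqrt_eq_rpow]
    exact Real.rpow_le_rpow_of_exponent_le hp1 (by linarith)
  have hnn : 2 * √(p : ℝ) ≤ (nn w p : ℝ) := by
    unfold nn
    push_cast
    have := Nat.le_ceil ((p : ℝ) ^ (1 - w))
    linarith
  have hsq1 : 1 ≤ √(p : ℝ) := Real.one_le_sqrt.2 hp1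
  have hnn1 : 1 ≤ nn w p := by
    have : (1 : ℝ) ≤ nn w p := by linarith
    exact_mod_cast this
  have hqp : p ≤ q := by
    rw [hq]
    exact Nat.le_self_pow (by omega) p
  have hpL : (p : ℝ) ≤ L := by
    refine le_trans ?_ hL1
    exact le_self_pow₀ hp1 (by norm_num)
  have hL : 1 ≤ L := hp1.trans hpL
  have hlp : ∀ l ∈ S, p < l := by
    intro l hl
    have : (p : ℝ) < l := hpL.trans_lt (hS l hl).2.1
    exact_mod_cast this
  have hη : 0 < η := by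
    refine lt_of_lt_of_le ?_ hη1
    have h1 : (0 : ℝ) < √N := Real.sqrt_pos.2 (by exact_mod_cast Nat.pos_of_ne_zero (NeZero.ne N))
    have h2 : (0 : ℝ) < q := by exact_mod_cast NeZero.pos q
    positivity
  set Q : ℕ := max ⌈2 * L⌉₊ (p ^ 200) with hQ
  have hQA : Q ^ A ≤ q := by
    have h1 : ⌈2 * L⌉₊ ^ A ≤ q := by
      set t : ℝ := (p : ℝ) ^ (1 / 8 : ℝ) with ht
      have ht4 : t ^ 4 = √(p : ℝ) := by
        rw [ht, ← Real.rpow_natCast, ← Real.rpow_mul hp0.le, Real.sqrt_eq_rpow]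
        norm_num
      have htA : (A : ℝ) + 2 ≤ t := by
        have h5 : ((A : ℝ) + 2) ^ 8 ≤ p := by exact_mod_cast hp8
        have h6 : (((A : ℝ) + 2) ^ 8) ^ (1 / 8 : ℝ) ≤ t :=
          Real.rpow_le_rpow (by positivity) h5 (by norm_num)
        rw [← Real.rpow_natCast, ← Real.rpow_mul (by positivity)] at h6
        norm_num at h6
        exact h6
      have hA0 : (0 : ℝ) ≤ A := Nat.cast_nonneg A
      have h7 : (A : ℝ) * (t + 2) ≤ 2 * t ^ 4 := by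
        have h8 : (A : ℝ) * (t + 2) ≤ t * (2 * t) := by
          apply mul_le_mul <;> linarith
        have h9 : t ^ 2 ≤ t ^ 4 := pow_le_pow_right₀ (by linarith) (by norm_num)
        nlinarith
      have h10 : ((⌈2 * L⌉₊ : ℕ) : ℝ) ≤ Real.exp (t + 2) := by
        have h11 : ((⌈2 * L⌉₊ : ℕ) : ℝ) ≤ 2 * L + 1 :=
          (Nat.ceil_lt_add_one (by linarith)).le
        have h12 : (3 : ℝ) ≤ Real.exp 2 := by
          have := Real.add_one_le_exp (2 : ℝ)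
          linarith
        rw [Real.exp_add]
        have h13 := Real.exp_pos t
        nlinarith
      have h14 : ((⌈2 * L⌉₊ : ℕ) : ℝ) ^ A ≤ Real.exp (nn w p) := by
        calc ((⌈2 * L⌉₊ : ℕ) : ℝ) ^ A ≤ Real.exp (t + 2) ^ A :=
              pow_le_pow_left₀ (Nat.cast_nonneg _) h10 A
          _ = Real.exp (A * (t + 2)) := by rw [← Real.exp_nat_mul]
          _ ≤ Real.exp (nn w p) := by
              rw [Real.exp_le_exp]
              linarith
      have h15 : Real.exp (nn w p) ≤ ((q : ℕ) : ℝ) := by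
        have h16 : Real.exp 1 ≤ p := by
          have h17 : (3 : ℝ) ≤ p := by exact_mod_cast hp3
          have := Real.exp_one_lt_d9
          linarith
        rw [hq, ← mul_one ((nn w p : ℕ) : ℝ), Real.exp_nat_mul]
        push_cast
        exact pow_le_pow_left₀ (Real.exp_pos 1).le h16 _
      exact_mod_cast h14.trans h15
    have h2 : (p ^ 200) ^ A ≤ q := by
      rw [hq, ← pow_mul]
      refine Nat.pow_le_pow_right hp.pos ?_
      have h3 : (100 * A : ℝ) ≤ √p := by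
        rw [← Real.sqrt_sq (show (0 : ℝ) ≤ 100 * A by positivity)]
        exact Real.sqrt_le_sqrt (by exact_mod_cast hp100)
      have h4 : ((200 * A : ℕ) : ℝ) ≤ nn w p := by push_cast; linarith
      exact_mod_cast h4
    rcases le_total ⌈2 * L⌉₊ (p ^ 200) with h | h
    · rw [hQ, max_eq_right h]
      exact h2
    · rw [hQ, max_eq_left h]
      exact h1
  have hlQ : ∀ l ∈ S, l ≤ Q := by
    intro l hl
    refine le_trans ?_ (le_max_left _ _)
    have : (l : ℝ) ≤ ⌈2 * L⌉₊ := (hS l hl).2.2.trans (Nat.le_ceil _)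
    exact_mod_cast this
  have hηQ : η ≤ Q / q := by
    refine hη2.trans ?_
    have h1 : ((p ^ 200 : ℕ) : ℝ) ≤ Q := by exact_mod_cast le_max_right _ _
    push_cast at h1
    gcongr
  have hlN : ∀ l ∈ S, ¬ l ∣ N := by
    intro l hl h
    have h1 := Nat.le_of_dvd (Nat.pos_of_ne_zero (NeZero.ne N)) h
    have h2 := hlp l hl
    omega
  refine tsm_abs (FF a η) S a hL hC₁ (fun l hl => ⟨?_, (hS l hl).2.1.le, (hS l hl).2.2⟩)
    (fun l hl => sm_hasse f hf (hS l hl).1) (fun x => hb η hη q x) ?_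
  · rw [hq]
    refine Nat.Coprime.pow_right _ ?_
    rw [Nat.coprime_primes (hS l hl).1 hp]
    exact (hlp l hl).ne'
  · intro l₁ h₁ l₂ h₂ hne
    have h3 := hcorr q Q l₁ l₂ (hpq0.trans hqp) hQA (hS l₁ h₁).1 (hS l₂ h₂).1 hne (hlN l₁ h₁)
      (hlN l₂ h₂) (hlQ l₁ h₁) (hlQ l₂ h₂) η hη1 hηQ
    refine le_trans (le_of_eq ?_) h3
    have h4 : ∀ u : ZMod q, FF a η ((l₁ : ZMod q) * u) * conj (FF a η ((l₂ : ZMod q) * u)) =
        (η : ℂ) ^ 2 * (f (vert (l₁ * ((u.val : ℝ) / q)) η) *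
          conj (f (vert (l₂ * ((u.val : ℝ) / q)) η))) := by
      intro u
      rw [sm_FF_mul f hf.coeff hη, sm_FF_mul f hf.coeff hη, map_mul, Complex.conj_ofReal]
      ring
    rw [Finset.sum_congr rfl fun u _ => h4 u, ← Finset.mul_sum]
    have h5 : (1 / (q : ℂ)) * ((η : ℂ) ^ 2 * ∑ u : ZMod q, f (vert (l₁ * ((u.val : ℝ) / q)) η) *
        conj (f (vert (l₂ * ((u.val : ℝ) / q)) η))) = ((η ^ 2 : ℝ) : ℂ) * ((1 / (q : ℂ)) *
        ∑ u : ZMod q, f (vert (l₁ * ((u.val : ℝ) / q)) η) *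
        conj (f (vert (l₂ * ((u.val : ℝ) / q)) η))) := by
      push_cast
      ring
    rw [h5, norm_mul, Complex.norm_real, Real.norm_of_nonneg (by positivity)]

end Pool.Agent.MU0
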