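import Pool.Agent.MU0.XX2
import Pool.Agent.MU0.Frq
import Pool.Agent.MU0.Sm

/-!
# The correlations and the twisted second moment
-/

set_option autoImplicit false

open Finset CongruenceSubgroup
open Pool.Agent.MZ.Per Pool.Agent.MU1
open scoped Real ComplexConjugate

namespace Pool.Agent.MU0

/-- the correlations, for every cusp form with the Hecke relations outside `N` -/
theorem corr {N : ℕ} [NeZero N] (g : CuspForm (Gamma0 N) 2) {b : ℕ → ℝ} {a : ℕ → ℤ}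
    (hg : Eig g b a) : SmCorr g := by
  obtain ⟨C, hC0, hC⟩ := frq g
  refine XX.corr_of g hg hC0 (by norm_num : (0 : ℝ) < 1 / 100) (Af := 4) ?_
  intro l₁ l₂ h₁ h₂ k hk y hy hy1 hlog
  have hlog' : Real.log ((N * l₁ * l₂ * k.natAbs : ℕ) : ℝ) ≤ y ^ (-(1 / 4) : ℝ) := by
    refine le_trans (le_of_eq ?_) hlog
    congr 1
    push_cast
    rw [Nat.cast_natAbs, Int.cast_abs]
  refine le_trans (le_of_eq ?_) (hC l₁ l₂ h₁ h₂ k hk y hy hy1 hlog')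
  congr 1
  refine intervalIntegral.integral_congr fun x _ => ?_
  have h1 : (-(2 * π * Complex.I * k * x) : ℂ) = 2 * π * Complex.I * ((-k : ℤ) : ℂ) * (x : ℂ) := by
    push_cast
    ring
  rw [h1]

theorem sm {N : ℕ} [NeZero N] (f : CuspForm (Gamma0 N) 2) {a : ℕ → ℤ} (hf : Frm f a) :
    ∃ C : ℝ, ∀ w : ℝ, 0 < w → w < 1 / 2 → ∃ p₀ : ℕ, ∀ p : ℕ, p₀ ≤ p → p.Prime →
    ∀ (q : ℕ) [NeZero q], q = p ^ nn w p → ∀ η : ℝ, 1 / (√N * q) ≤ η → η ≤ (p : ℝ) ^ 200 / q →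
    ∀ L : ℝ, (p : ℝ) ^ 160 ≤ L → L ≤ Real.exp ((p : ℝ) ^ (1 / 8 : ℝ)) →
    ∀ S : Finset ℕ, (∀ l ∈ S, l.Prime ∧ L < l ∧ l ≤ 2 * L) →
      EE q (fun b => ‖∑ l ∈ S, (a l : ℂ) * FF a η ((l : ZMod q)⁻¹ * b)‖ ^ 2) ≤ C * L ^ 2 := by
  refine sm_of_corr f hf (corr f (b := fun n => (a n : ℝ)) (a := a) ⟨?_, ⟨1, ?_⟩, ?_, ?_⟩)
  · intro n
    rw [hf.coeff n]
    push_cast
    rfl
  · simp [hf.one]
  · intro l hl hlN n
    have := hf.hecke.rel l hl hlN n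
    have h2 : ((a (l * n) + (if l ∣ n then (l : ℤ) * a (n / l) else 0) : ℤ) : ℝ) =
        ((a l * a n : ℤ) : ℝ) := by rw [this]
    push_cast at h2
    exact h2
  · intro l hl _
    exact sm_hasse f hf hl

end Pool.Agent.MU0
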