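import Pool.Agent.MU0.UpD
import Pool.Agent.MU0.Top1
import Pool.Agent.MU0.Dec6

/-!
# The second moment of `T`
-/

set_option autoImplicit false

open Finset CongruenceSubgroup
open Pool.Agent.MU1
open scoped Real

namespace Pool.Agent.MU0

/-- `E |T|² ≤ p^(2 - w + η)` -/
theorem upper {N : ℕ} [NeZero N] (f g : CuspForm (Gamma0 N) 2) {a : ℕ → ℤ} {b : ℕ → ℝ}
    (hf : Frm f a) (hW : IsW f g) (hg : Eig g b a) :
    ∃ w₀ > (0 : ℝ), ∀ w : ℝ, 0 < w → w < w₀ → ∀ η > (0 : ℝ),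
    ∃ p₀ : ℕ, ∀ p : ℕ, p₀ ≤ p → p.Prime → ∀ (q : ℕ) [NeZero q], q = p ^ nn w p →
      EU q (fun u => TT f p q u ^ 2) ≤ (p : ℝ) ^ (2 - w + η) :=
  upper_of_top f g hf hW hg (top_of_dec f hf (dec f hf))

end Pool.Agent.MU0
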