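import Pool.Agent.MU0.Defs
import Pool.Agent.MU0.ZY3

/-!
# The number of third vertices of small triangles
-/

set_option autoImplicit false

open Filter
open scoped Real

namespace Pool.Agent.MU0

theorem zy_even (K e : ℝ) (he : 0 < e) : ∀ᶠ p : ℕ in atTop, K ≤ (p : ℝ) ^ e :=
  tendsto_natCast_atTop_atTop.eventually ((tendsto_rpow_atTop he).eventually_ge_atTop K)

theorem zy_log (A : ℝ) (e : ℝ) (he : 0 < e) :
    ∀ᶠ p : ℕ in atTop, A * Real.log p + A ≤ (p : ℝ) ^ e := by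
  have h1 := (isLittleO_log_rpow_atTop he).bound (c := 1 / (2 * (|A| + 1))) (by positivity)
  have h2 := tendsto_natCast_atTop_atTop.eventually h1
  filter_upwards [h2, zy_even (2 * |A|) e he, eventually_ge_atTop 1] with p hp1 hp2 hp3
  have hp : (1 : ℝ) ≤ p := by exact_mod_cast hp3
  have hlog : 0 ≤ Real.log p := Real.log_nonneg hp
  have hpos : (0 : ℝ) < (p : ℝ) ^ e := Real.rpow_pos_of_pos (by linarith) _
  rw [Real.norm_of_nonneg hlog, Real.norm_of_nonneg hpos.le] at hp1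
  have h3 : (|A| + 1) * Real.log p ≤ (p : ℝ) ^ e / 2 := by
    calc (|A| + 1) * Real.log p ≤ (|A| + 1) * (1 / (2 * (|A| + 1)) * (p : ℝ) ^ e) :=
          mul_le_mul_of_nonneg_left hp1 (by positivity)
      _ = (p : ℝ) ^ e / 2 := by
        field_simp
  have h4 : A * Real.log p ≤ (|A| + 1) * Real.log p :=
    mul_le_mul_of_nonneg_right (by linarith [le_abs_self A]) hlog
  linarith [le_abs_self A]

/-- **the number of third vertices** -/
theorem zy (C : ℕ) (w : ℝ) (hw : 0 < w) (hw' : w < 1 / 10) : ∃ p₀ : ℕ, ∀ p : ℕ, p₀ ≤ p →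
    p.Prime → ∀ (q : ℕ) [NeZero q], q = p ^ nn w p → ∀ z₁ z₂ : (ZMod q)ˣ, z₁ ^ (p - 1) = 1 →
    z₂ ^ (p - 1) = 1 → ∀ S : Finset (ZMod q)ˣ, (∀ z ∈ S, z ^ (p - 1) = 1) →
    (∀ z ∈ S, Tri z₁ z₂ z (p ^ C)) → (S.card : ℝ) ≤ (p : ℝ) ^ (2 / 5 : ℝ) := by
  have hev : ∀ᶠ p : ℕ in atTop, 6 ≤ (p : ℝ) ^ (17 / 100 : ℝ) ∧ 19 ≤ (p : ℝ) ^ (39 / 100 : ℝ) ∧
      (200 + 1000 * ((C : ℝ) + 1)) ≤ (p : ℝ) ^ (29 / 100 : ℝ) ∧
      (2 + 12 * (C : ℝ)) ≤ (p : ℝ) ^ (2 / 5 : ℝ) ∧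
      (64 * C + 8 : ℝ) * Real.log p + (64 * C + 8) ≤ (p : ℝ) ^ (1 / 100 : ℝ) ∧ 1 ≤ p := by
    filter_upwards [zy_even 6 (17 / 100) (by norm_num), zy_even 19 (39 / 100) (by norm_num),
      zy_even (200 + 1000 * ((C : ℝ) + 1)) (29 / 100) (by norm_num),
      zy_even (2 + 12 * (C : ℝ)) (2 / 5) (by norm_num),
      zy_log (64 * C + 8) (1 / 100) (by norm_num), eventually_ge_atTop 1]
      with p h1 h2 h3 h4 h5 h6
    exact ⟨h1, h2, h3, h4, h5, h6⟩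
  obtain ⟨p₀, hp₀⟩ := eventually_atTop.1 hev
  refine ⟨p₀, fun p hp hpp q _ hq z₁ z₂ hz₁ hz₂ S hS hT => ?_⟩
  obtain ⟨e1, e2, e3, e4, e5, e6⟩ := hp₀ p hp
  obtain ⟨n, hn⟩ : ∃ n, n = nn w p := ⟨_, rfl⟩
  rw [← hn] at hq
  subst hq
  have hpR : (1 : ℝ) ≤ p := by exact_mod_cast e6
  have hp0 : (0 : ℝ) < p := by linarith
  have hnR : 2 * (p : ℝ) ^ (9 / 10 : ℝ) ≤ n := by
    have h1 : (p : ℝ) ^ (9 / 10 : ℝ) ≤ (p : ℝ) ^ (1 - w) :=
      Real.rpow_le_rpow_of_exponent_le hpR (by linarith)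
    have h2 : (p : ℝ) ^ (1 - w) ≤ ⌈(p : ℝ) ^ (1 - w)⌉₊ := Nat.le_ceil _
    rw [hn, nn]
    push_cast
    linarith
  -- the choices
  set s := ⌈(p : ℝ) ^ (39 / 100 : ℝ)⌉₊ with hs
  have hs1 : (p : ℝ) ^ (39 / 100 : ℝ) ≤ s := Nat.le_ceil _
  have hs2 : (s : ℝ) ≤ 2 * (p : ℝ) ^ (39 / 100 : ℝ) := by
    have := (Nat.ceil_lt_add_one (show (0 : ℝ) ≤ (p : ℝ) ^ (39 / 100 : ℝ) by positivity)).le
    rw [← hs] at this
    linarith
  have hs0 : (0 : ℝ) < s := by linarith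
  have hpig : Nat.factorial 3 * p ≤ s ^ 3 := by
    have h1 : (6 : ℝ) * p ≤ (s : ℝ) ^ 3 := by
      calc (6 : ℝ) * p ≤ (p : ℝ) ^ (17 / 100 : ℝ) * p := mul_le_mul_of_nonneg_right e1 hp0.le
        _ = (p : ℝ) ^ (17 / 100 + 1 : ℝ) := by rw [Real.rpow_add hp0, Real.rpow_one]
        _ = ((p : ℝ) ^ (39 / 100 : ℝ)) ^ 3 := by
          rw [← Real.rpow_natCast, ← Real.rpow_mul hp0.le]
          norm_num
        _ ≤ (s : ℝ) ^ 3 := pow_le_pow_left₀ (by positivity) hs1 3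
    have h2 : Nat.factorial 3 = 6 := rfl
    rw [h2]
    exact_mod_cast h1
  have hbig : 2 * 3 ^ 2 < s := by
    have h1 : (19 : ℝ) ≤ s := e2.trans hs1
    have h2 : 19 ≤ s := by exact_mod_cast h1
    omega
  set L := 3 * (p / s) + 2 with hL
  have hLR : (L : ℝ) ≤ 3 * (p : ℝ) ^ (61 / 100 : ℝ) + 2 := by
    have h1 : ((p / s : ℕ) : ℝ) ≤ (p : ℝ) / s := Nat.cast_div_le
    have h2 : (p : ℝ) / s ≤ (p : ℝ) ^ (61 / 100 : ℝ) := by
      rw [div_le_iff₀ hs0]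
      calc (p : ℝ) = (p : ℝ) ^ (61 / 100 : ℝ) * (p : ℝ) ^ (39 / 100 : ℝ) := by
            rw [← Real.rpow_add hp0]
            norm_num
        _ ≤ _ := mul_le_mul_of_nonneg_left hs1 (by positivity)
    rw [hL]
    push_cast
    linarith
  set m := n / 4 with hm
  have h61 : (1 : ℝ) ≤ (p : ℝ) ^ (61 / 100 : ℝ) := Real.one_le_rpow hpR (by norm_num)
  have hexp : 3 + 27 * L * (C + 1) < m := by
    have h1 : (4 * (4 + 27 * L * (C + 1)) : ℝ) ≤ n := by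
      calc (4 * (4 + 27 * L * (C + 1)) : ℝ) ≤
            4 * (4 + 27 * (3 * (p : ℝ) ^ (61 / 100 : ℝ) + 2) * (C + 1)) := by
            have hC : (0 : ℝ) ≤ C + 1 := by positivity
            have := mul_le_mul_of_nonneg_right hLR hC
            nlinarith
        _ ≤ 2 * ((200 + 1000 * ((C : ℝ) + 1)) * (p : ℝ) ^ (61 / 100 : ℝ)) := by
            have hC : (0 : ℝ) ≤ (C : ℝ) + 1 := by positivity
            nlinarith [mul_nonneg hC (by linarith : (0 : ℝ) ≤ (p : ℝ) ^ (61 / 100 : ℝ) - 1)]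
        _ ≤ 2 * ((p : ℝ) ^ (29 / 100 : ℝ) * (p : ℝ) ^ (61 / 100 : ℝ)) := by
            have := mul_le_mul_of_nonneg_right e3 (by linarith : (0:ℝ) ≤ (p : ℝ) ^ (61 / 100 : ℝ))
            linarith
        _ = 2 * (p : ℝ) ^ (9 / 10 : ℝ) := by
            rw [← Real.rpow_add hp0]
            norm_num
        _ ≤ n := hnR
    have h2 : 4 * (4 + 27 * L * (C + 1)) ≤ n := by exact_mod_cast h1
    omega
  have hp1 : 1 ≤ p := e6
  have hp2 : 2 ≤ p := hpp.two_le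
  have hB1 : 1 ≤ p ^ C := Nat.one_le_pow _ _ hp1
  have hsize : (2 * (2 * ((p ^ C : ℕ) : ℝ)) ^ (3 * L)) ^ 3 *
      ((4 * (((p ^ C : ℕ)) : ℝ) ^ 2) ^ 3) ^ (3 * L) < (p : ℝ) ^ m := by
    have hN : (2 * (2 * (p ^ C)) ^ (3 * L)) ^ 3 * ((4 * (p ^ C) ^ 2) ^ 3) ^ (3 * L) < p ^ m := by
      have h1 : 2 * p ^ C ≤ p ^ (C + 1) := by
        rw [pow_succ, mul_comm]
        exact Nat.mul_le_mul_left _ hp2
      have h2 : 4 * (p ^ C) ^ 2 ≤ p ^ (2 * (C + 1)) := by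
        calc 4 * (p ^ C) ^ 2 = (2 * p ^ C) ^ 2 := by ring
          _ ≤ (p ^ (C + 1)) ^ 2 := Nat.pow_le_pow_left h1 2
          _ = p ^ (2 * (C + 1)) := by rw [← pow_mul]; ring_nf
      calc (2 * (2 * (p ^ C)) ^ (3 * L)) ^ 3 * ((4 * (p ^ C) ^ 2) ^ 3) ^ (3 * L) ≤
            (p * (p ^ (C + 1)) ^ (3 * L)) ^ 3 * ((p ^ (2 * (C + 1))) ^ 3) ^ (3 * L) := by
            apply Nat.mul_le_mul
            · apply Nat.pow_le_pow_left
              exact Nat.mul_le_mul hp2 (Nat.pow_le_pow_left h1 _)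
            · apply Nat.pow_le_pow_left
              exact Nat.pow_le_pow_left h2 _
        _ = p ^ (3 + 27 * L * (C + 1)) := by ring
        _ < p ^ m := Nat.pow_lt_pow_right hpp.one_lt hexp
    exact_mod_cast hN
  set I := Nat.sqrt p with hI
  have hI1 : p ≤ (I + 1) ^ 2 := by
    have := Nat.lt_succ_sqrt p
    rw [sq]
    exact this.le
  have hsize2 : 2 * (p ^ C) ^ (12 * I) < p ^ n := by
    have h1 : 1 + 12 * C * I < n := by
      have h2 : (I : ℝ) ≤ (p : ℝ) ^ (1 / 2 : ℝ) := by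
        rw [← Real.sqrt_eq_rpow]
        exact Real.nat_sqrt_le_real_sqrt
      have h12 : (1 : ℝ) ≤ (p : ℝ) ^ (1 / 2 : ℝ) := Real.one_le_rpow hpR (by norm_num)
      have h3 : (2 + 12 * C * I : ℝ) ≤ n := by
        calc (2 + 12 * C * I : ℝ) ≤ (2 + 12 * C) * (p : ℝ) ^ (1 / 2 : ℝ) := by
              have hC : (0 : ℝ) ≤ 12 * C := by positivity
              nlinarith [mul_le_mul_of_nonneg_left h2 hC]
          _ ≤ (p : ℝ) ^ (2 / 5 : ℝ) * (p : ℝ) ^ (1 / 2 : ℝ) :=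
              mul_le_mul_of_nonneg_right e4 (by positivity)
          _ = (p : ℝ) ^ (9 / 10 : ℝ) := by
              rw [← Real.rpow_add hp0]
              norm_num
          _ ≤ 2 * (p : ℝ) ^ (9 / 10 : ℝ) := by
              have : (0 : ℝ) < (p : ℝ) ^ (9 / 10 : ℝ) := by positivity
              linarith
          _ ≤ n := hnR
      have h4 : 2 + 12 * C * I ≤ n := by exact_mod_cast h3
      omega
    calc 2 * (p ^ C) ^ (12 * I) ≤ p * (p ^ C) ^ (12 * I) := Nat.mul_le_mul_right _ hp2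
      _ = p ^ (1 + 12 * C * I) := by ring
      _ < p ^ n := Nat.pow_lt_pow_right hpp.one_lt h1
  -- the application
  classical
  obtain ⟨y, hy⟩ := ZMod.intCast_surjective ((z₂ * z₁⁻¹ : (ZMod (p ^ n))ˣ) : ZMod (p ^ n))
  have hcardS : (S.image (fun z => z * z₁⁻¹)).card = S.card :=
    Finset.card_image_of_injective _ (mul_left_injective z₁⁻¹)
  have hmain := zy_card (p := p) (n := n) (k := 3) (m := m) (B := p ^ C) (L := L) (I := I) (s := s)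
    hpp (by norm_num) hB1 (by omega) y (S.image (fun z => z * z₁⁻¹)) ?_ ?_ hpig hbig le_rfl
    (by exact_mod_cast hsize) hI1 hsize2
  · rw [hcardS] at hmain
    have h1 : (S.card : ℝ) ≤ s * (4 * (Nat.log 2 ((p ^ C) ^ 2) : ℝ) + 2) := by exact_mod_cast hmain
    have h2 : ((Nat.log 2 ((p ^ C) ^ 2) : ℕ) : ℝ) ≤ 4 * C * Real.log p := by
      have h3 : (2 : ℝ) ^ (Nat.log 2 ((p ^ C) ^ 2)) ≤ (p : ℝ) ^ (2 * C) := by
        have h4 : 2 ^ (Nat.log 2 ((p ^ C) ^ 2)) ≤ (p ^ C) ^ 2 :=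
          Nat.pow_log_le_self 2 (by positivity)
        have h5 : (p ^ C) ^ 2 = p ^ (2 * C) := by rw [← pow_mul, mul_comm]
        rw [h5] at h4
        rw [h5]
        exact_mod_cast h4
      have h4 := Real.log_le_log (by positivity) h3
      rw [Real.log_pow, Real.log_pow] at h4
      have h5 : (1 / 2 : ℝ) ≤ Real.log 2 := by
        have := Real.log_two_gt_d9
        linarith
      have h6 : (0 : ℝ) ≤ (Nat.log 2 ((p ^ C) ^ 2) : ℕ) := Nat.cast_nonneg _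
      push_cast at h4 h6 ⊢
      nlinarith
    have hlog : 0 ≤ Real.log p := Real.log_nonneg hpR
    calc (S.card : ℝ) ≤ s * (4 * (Nat.log 2 ((p ^ C) ^ 2) : ℝ) + 2) := h1
      _ ≤ (2 * (p : ℝ) ^ (39 / 100 : ℝ)) * (4 * (4 * C * Real.log p) + 2) := by
        apply mul_le_mul hs2 _ (by positivity) (by positivity)
        linarith
      _ = (p : ℝ) ^ (39 / 100 : ℝ) * (32 * C * Real.log p + 4) := by ring
      _ ≤ (p : ℝ) ^ (39 / 100 : ℝ) * (p : ℝ) ^ (1 / 100 : ℝ) := by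
        apply mul_le_mul_of_nonneg_left _ (by positivity)
        have hC : (0 : ℝ) ≤ C := Nat.cast_nonneg _
        nlinarith [mul_nonneg hC hlog]
      _ = (p : ℝ) ^ (2 / 5 : ℝ) := by
        rw [← Real.rpow_add hp0]
        norm_num
  · intro u hu
    obtain ⟨z, hz, rfl⟩ := Finset.mem_image.1 hu
    rw [mul_pow, inv_pow, hS z hz, hz₁]
    simp
  · intro u hu
    obtain ⟨z, hz, rfl⟩ := Finset.mem_image.1 hu
    obtain ⟨a₁, a₂, a₃, h1, h2, h3, h4, h5, h6, h7⟩ := hT z hz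
    refine ⟨a₁, a₂, a₃, h2, h3, by exact_mod_cast h4, by exact_mod_cast h5,
      by exact_mod_cast h6, ?_⟩
    rw [hy, Units.val_mul, Units.val_mul]
    calc (a₁ : ZMod (p ^ n)) + a₂ * (z₂ * ((z₁⁻¹ : (ZMod (p ^ n))ˣ) : ZMod (p ^ n))) +
          a₃ * (z * ((z₁⁻¹ : (ZMod (p ^ n))ˣ) : ZMod (p ^ n))) =
        a₁ * (z₁ * ((z₁⁻¹ : (ZMod (p ^ n))ˣ) : ZMod (p ^ n))) +
        a₂ * (z₂ * ((z₁⁻¹ : (ZMod (p ^ n))ˣ) : ZMod (p ^ n))) +
          a₃ * (z * ((z₁⁻¹ : (ZMod (p ^ n))ˣ) : ZMod (p ^ n))) := by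
          rw [Units.mul_inv, mul_one]
      _ = (a₁ * z₁ + a₂ * z₂ + a₃ * z) * ((z₁⁻¹ : (ZMod (p ^ n))ˣ) : ZMod (p ^ n)) := by ring
      _ = 0 := by rw [h7, zero_mul]

end Pool.Agent.MU0
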