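import Pool.Agent.MU0.Fin0
import Pool.Agent.MU0.Fin1
import Pool.Agent.MU0.Dual
import Pool.Agent.MU0.Up
import Pool.Agent.MU0.ZY4
import Pool.Agent.MU0.Cl
import Pool.Agent.MU0.Asm
import Pool.Agent.MU0.Cf1
import Pool.Agent.MU0.CfMassF
import Pool.Agent.MU0.Lf
import Pool.Agent.MU0.Mt

/-!
# The values `T(b)` are not congruent modulo `p`
-/

set_option autoImplicit false

open Finset CongruenceSubgroup Filter
open Pool.Agent.MZ Pool.Agent.MZ.Per Pool.Agent.MU1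
open scoped Real

namespace Pool.Agent.MU0

theorem mu0_core {N : ℕ} [NeZero N] (f : CuspForm (Gamma0 N) 2) {a : ℕ → ℤ}
    (hf : Frm f a) {Ω : ℝ} (hΩ : Ω ≠ 0) : ∃ w : ℝ, 0 < w ∧ w < 1 ∧ ∃ p₀ : ℕ, ∀ p : ℕ, p₀ ≤ p →
    p.Prime → ∀ (q : ℕ) [NeZero q], q = p ^ nn w p →
      ¬ ∃ (κ : ℝ) (Y : (ZMod q)ˣ → ℤ), ∀ b, TT f p q b = κ + p * Ω * Y b := by
  obtain ⟨g, b', hW, hg, -⟩ := exists_w f hf
  obtain ⟨w₀, hw₀, hup⟩ := upper f g hf hW hg
  set w : ℝ := min (w₀ / 2) (1 / 20) with hw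
  have hw0 : 0 < w := lt_min (by positivity) (by norm_num)
  have hww₀ : w < w₀ := (min_le_left _ _).trans_lt (by linarith)
  have hw1 : w ≤ 1 / 20 := min_le_right _ _
  have hκ0 : 0 < w / 100 := by positivity
  obtain ⟨p₁, h₁⟩ := hup w hw0 hww₀ (w / 100) hκ0
  obtain ⟨p₂, h₂⟩ := zy 600 w hw0 (by linarith)
  obtain ⟨r, A, p₃, h₃⟩ := exists_clu (w / 100) (w / 100) hκ0 hκ0
  obtain ⟨C₄, p₄, h₄⟩ := fourth_moment r
  obtain ⟨C₅, h₅⟩ := cf_max f hf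
  obtain ⟨C₆, h₆⟩ := cf_l2 f hf
  obtain ⟨c₇, hc₇, C₇, h₇⟩ := cf_mass f hf (r + 1)
  obtain ⟨C₈, h₈⟩ := gq_four f hf (r + 1)
  obtain ⟨C₉, D, p₉, h₉⟩ := exists_test f g hf hW r A
  set C₂ : ℝ := max C₆ 1 with hC₂
  have hC₂1 : 1 ≤ C₂ := le_max_right _ _
  set D₀ : ℝ := 64 / Ω ^ 2 * (|C₉| * (|C₄| * (|C₈| + 3 * C₂ ^ 2 + 1))) with hD₀
  have hD₀0 : 0 ≤ D₀ := by positivity
  obtain ⟨p₀, hp₀⟩ := eventually_atTop.1 ((fin_K w (w / 100) hw0 (by linarith) hκ0 (by linarith) D).and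
    ((fin_num w hw0 (by linarith) c₇ (|C₇|) D₀ hc₇).and
      (fin_ev |C₅| 0 (-(1000 / 3)) (-200) (by norm_num))))
  refine ⟨w, hw0, by linarith, max p₀ (max p₁ (max p₂ (max p₃ (max p₄ (max p₉ 3))))),
    fun p hp hpp => ?_⟩
  have hpp₀ : p₀ ≤ p := (le_max_left _ _).trans hp
  have hp := (le_max_right _ _).trans hp
  have hpp₁ : p₁ ≤ p := (le_max_left _ _).trans hp
  have hp := (le_max_right _ _).trans hp
  have hpp₂ : p₂ ≤ p := (le_max_left _ _).trans hp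
  have hp := (le_max_right _ _).trans hp
  have hpp₃ : p₃ ≤ p := (le_max_left _ _).trans hp
  have hp := (le_max_right _ _).trans hp
  have hpp₄ : p₄ ≤ p := (le_max_left _ _).trans hp
  have hp := (le_max_right _ _).trans hp
  have hpp₉ : p₉ ≤ p := (le_max_left _ _).trans hp
  have hp3 : 3 ≤ p := (le_max_right _ _).trans hp
  obtain ⟨hK, hnum, hmaxp⟩ := hp₀ p hpp₀
  have hP0 : (0 : ℝ) < p := by exact_mod_cast hpp.pos
  have hP1 : (1 : ℝ) ≤ p := by exact_mod_cast hpp.one_lt.le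
  set l : ℝ := (p : ℝ) ^ (1 - w - 2 * (w / 100)) with hl
  set K : ℕ := ⌈Real.exp l * (1 + l) ^ 2⌉₊ with hKdef
  set M₀ : ℝ := Real.exp l with hM₀
  set M₁ : ℝ := (p : ℝ) ^ 1000 with hM₁
  obtain ⟨hl20, hl1000, hM10, hM12, hK1, hK2, hK3, hlogK, hlogKp, hlogKn, hpK, hKD, hK4, hn2,
    hneven⟩ := hK l K (nn w p) hl hKdef rfl
  intro q hq0 hq
  rintro ⟨κ, Y, hY⟩
  have hlogM₀ : Real.log M₀ = l := Real.log_exp l
  have hlogM₁ : Real.log M₁ = 1000 * Real.log p := by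
    rw [hM₁, Real.log_pow]
    norm_num
  have hK0 : (0 : ℝ) < K := by
    have : 0 < K := by omega
    exact_mod_cast this
  have hlogK0 : 0 ≤ Real.log K := Real.log_nonneg (by exact_mod_cast (by omega : 1 ≤ K))
  -- clusters
  obtain ⟨P, B, E, α, β, W, hClu, hPA, hcard, hMT⟩ :=
    h₃ p hpp₃ hpp (nn w p) q K hn2 hq hK3 hlogKn
  set P' : Finset ℕ := insert p P with hP'
  have hP'card : P'.card ≤ r + 1 :=
    (Finset.card_insert_le _ _).trans (Nat.succ_le_succ hClu.card_le)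
  have hP'prime : ∀ l ∈ P', l.Prime := by
    intro l hl
    rcases Finset.mem_insert.1 hl with h | h
    · rw [h]; exact hpp
    · exact (hClu.prime l h).1
  set c : ℕ → ℝ := cf a P' M₀ M₁ with hc
  have hM₀0 : 0 < M₀ := Real.exp_pos _
  have hM₁0 : 0 < M₁ := by positivity
  have hc1 : ∀ k, c k ≠ 0 → ∀ l ∈ P', ¬ l ∣ k := by
    intro k hk
    by_contra h
    exact hk (by rw [hc]; exact if_neg h)
  have hc2 : ∀ k, 0 ≤ c k * a k := by
    intro k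
    rw [hc]
    unfold cf
    split_ifs with h
    · have h1 : Real.exp (-(2 * π * k / M₁)) ≤ Real.exp (-(2 * π * k / M₀)) := by
        apply Real.exp_le_exp.2
        apply neg_le_neg
        have hk0 : (0 : ℝ) ≤ 2 * π * k := by positivity
        exact div_le_div_of_nonneg_left hk0 hM₁0 hM10
      have h2 : (a k : ℝ) / k * (Real.exp (-(2 * π * k / M₀)) - Real.exp (-(2 * π * k / M₁))) *
          (a k : ℝ) = (a k : ℝ) ^ 2 / k *
          (Real.exp (-(2 * π * k / M₀)) - Real.exp (-(2 * π * k / M₁))) := by ring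
      rw [h2]
      have h3 : 0 ≤ Real.exp (-(2 * π * k / M₀)) - Real.exp (-(2 * π * k / M₁)) := by linarith
      positivity
    · simp
  have hc3 : ∀ k, |c k| ≤ (p : ℝ) ^ (-(200 : ℝ)) := by
    intro k
    refine (h₅ P' M₀ M₁ (by linarith) hM10 k).trans ?_
    have e1 : M₁ ^ (-(1 / 3 : ℝ)) = (p : ℝ) ^ (-(1000 / 3) : ℝ) := by
      rw [hM₁, ← Real.rpow_natCast (p : ℝ) 1000, ← Real.rpow_mul hP0.le]
      congr 1
      norm_num
    rw [e1]
    calc C₅ * (p : ℝ) ^ (-(1000 / 3) : ℝ) ≤ |C₅| * (p : ℝ) ^ (-(1000 / 3) : ℝ) :=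
          mul_le_mul_of_nonneg_right (le_abs_self _) (Real.rpow_nonneg hP0.le _)
      _ ≤ _ := by simpa using hmaxp
  have hc4 : ∀ k, |c k| ≤ k.divisors.card / √k := fun k => cf_le f hf P' M₀ M₁ hM₀0 hM₁0 k
  have hc5 : ∀ X : ℕ, 1 ≤ X → ∑ k ∈ Ico X (2 * X), c k ^ 2 ≤ C₂ := fun X hX =>
    (h₆ P' M₀ M₁ hM₀0 hM₁0 X hX).trans (le_max_left _ _)
  have hc6 : ∀ k, |c k| ≤ 1 := fun k => (hc3 k).trans
    (Real.rpow_le_one_of_one_le_of_nonpos hP1 (by norm_num))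
  -- the test function
  obtain ⟨R', hR0, hR4, hTR⟩ := h₉ p hpp₉ hpp (nn w p) q K hneven hn2 hq hpK (by rw [hq]; exact hKD)
    P B E hClu.card_le (fun l hl => ⟨(hClu.prime l hl).1, (hClu.prime l hl).2, hPA l hl⟩)
    hClu.root hClu.root' hMT c hc1 hc2 hc6
  -- the fourth moment
  have hF := h₄ p hpp₄ hpp (nn w p) q K W hn2 hq (by omega) hlogKp P B E α β hClu c C₂
    ((p : ℝ) ^ (2 / 5 : ℝ)) hC₂1 (fun k hk l hl => hc1 k hk l (Finset.mem_insert_of_mem hl)) hc4 hc3 hc5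
    (h₂ p hpp₂ hpp q hq)
  have hG := h₈ P' hP'card hP'prime M₀ M₁ hM12 hM10 q K (by rw [hlogM₀]; exact hK1)
    (by rw [hq]; exact hK4)
  rw [hlogM₀] at hG
  have hS := h₇ P' hP'card hP'prime M₀ M₁ hM12 hM10 K hK2
  rw [hlogM₀, hlogM₁] at hS
  -- the abstract inequality
  have habs := fin_abstract (TT f p q) R' (p : ℝ) Ω κ hP0 hΩ Y hY hR0
  set X : ℝ := EU q (fun b => TT f p q b * R' b) with hX
  set m : ℝ := (E.card * B.card : ℝ) with hm
  have hup' := h₁ p hpp₁ hpp q hq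
  have hTT0 : 0 ≤ EU q (fun u => TT f p q u ^ 2) := by
    unfold EU
    positivity
  have hRR0 : 0 ≤ EE q (fun b => RR c K B E b ^ 4) := by
    unfold EE
    positivity
  have hgq0 : 0 ≤ EE q (fun b => gq c K b ^ 4) := by
    unfold EE
    positivity
  have hlog0 : 0 ≤ Real.log p := Real.log_nonneg hP1
  have hl0 : 0 ≤ l := le_trans (by norm_num) hl20
  have hlK3 : 1 + Real.log K ≤ 3 * l := by
    have h1 : 1 ≤ l := le_trans (by norm_num) hl20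
    calc 1 + Real.log K ≤ l + 2 * l := add_le_add h1 hlogK
      _ = 3 * l := by ring
  have hFle := fin_F (P := (p : ℝ)) (Z := (p : ℝ) ^ (2 / 5 : ℝ)) (L := Real.log p) hl0 hP0.le hlog0
    hG hgq0 hlK3 hlogK0 hF
  have hR4' : 0 ≤ EU q (fun b => R' b ^ 4) := by
    unfold EU
    positivity
  refine hnum l m X (∑ k ∈ Icc 1 K, c k * ((a k : ℝ) / k)) hl hcard ?_ hTR ?_
  · refine le_trans ?_ hS
    have e1 : C₇ * (1 + 1000 * Real.log p) ≤ |C₇| * (1 + 1000 * Real.log p) :=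
      mul_le_mul_of_nonneg_right (le_abs_self _) (by positivity)
    exact sub_le_sub_left e1 _
  · have hfx := fin_X (P := (p : ℝ) ^ (-(2 : ℝ))) (Real.rpow_nonneg hP0.le _) hTT0 hup' hR4' hR4
      hRR0 _ hFle habs
    refine hfx.trans (le_of_eq ?_)
    rw [hD₀]
    ring

end Pool.Agent.MU0
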