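import Mathlib

/-!
# The theorem of Hasse on the number of points of an elliptic curve over a finite field

The proof is that of Manin: the degrees `d n` of the numerators of the `x`-coordinates of the points
`(x^q, y^q) + n (x, y)` satisfy `d (n + 1) + d (n - 1) = 2 d n + 2`.
-/

open Polynomial WeierstrassCurve WeierstrassCurve.Affine

namespace Pool.Agent.MU0.Hasse

section group

variable {K : Type*} [Field K] [DecidableEq K] {W : WeierstrassCurve.Affine K}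

/-- sum and difference of the `x`-coordinates, in projective form -/
theorem sum_diff (h1 : W.a₁ = 0) (h3 : W.a₃ = 0) {x y : K} (hQ : W.Nonsingular x y) (hy : 2 * y ≠ 0)
    (P : W.Point) {r s u v u' v' : K} (hr : P.xRep 0 = r) (hs : P.xRep 1 = s)
    (hu : (P + .some x y hQ).xRep 0 = u) (hv : (P + .some x y hQ).xRep 1 = v)
    (hu' : (P - .some x y hQ).xRep 0 = u') (hv' : (P - .some x y hQ).xRep 1 = v') :
    ∃ κ : K, κ ≠ 0 ∧
      u * u' = κ * ((r * x) ^ 2 - 2 * W.a₄ * (r * x) * s - 4 * W.a₆ * (r + x * s) * s -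
        (4 * W.a₂ * W.a₆ - W.a₄ ^ 2) * s ^ 2) ∧
      u * v' + v * u' = κ * (2 * (r * x) * (r + x * s) + 4 * W.a₂ * (r * x) * s +
        2 * W.a₄ * (r + x * s) * s + 4 * W.a₆ * s ^ 2) ∧
      v * v' = κ * (r - x * s) ^ 2 := by
  have hneg : ∀ a b : K, W.negY a b = -b := by
    intro a b
    rw [negY, h1, h3]
    ring
  have hQe := hQ.1
  rw [equation_iff, h1, h3] at hQe
  have hyn : y ≠ W.negY x y := by
    rw [hneg]
    intro h
    exact hy (by linear_combination h)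
  have h20 : (2 : K) ≠ 0 := left_ne_zero_of_mul hy
  have hy0 : y ≠ 0 := right_ne_zero_of_mul hy
  cases P with
  | zero =>
    rw [← Point.zero_def] at *
    rw [zero_add] at hu hv
    rw [zero_sub, Point.xRep_neg] at hu' hv'
    simp only [Point.xRep_zero, Point.xRep_some, Matrix.cons_val_zero, Matrix.cons_val_one] at hr hs hu hv hu' hv'
    subst hr hs hu hv hu' hv'
    refine ⟨1, one_ne_zero, ?_, ?_, ?_⟩ <;> ring
  | some x1 y1 hP =>
    have hPe := hP.1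
    rw [equation_iff, h1, h3] at hPe
    simp only [Point.xRep_some, Matrix.cons_val_zero, Matrix.cons_val_one] at hr hs
    subst hr hs
    by_cases hx : x1 = x
    · subst hx
      -- `P = Q` or `P = - Q`
      have hdbl : ∀ z : K, z = W.addX x1 x1 (W.slope x1 x1 y y) →
          z * (4 * (x1 ^ 3 + W.a₂ * x1 ^ 2 + W.a₄ * x1 + W.a₆)) =
          (x1 ^ 4 - 2 * W.a₄ * x1 ^ 2 - 8 * W.a₆ * x1 - (4 * W.a₂ * W.a₆ - W.a₄ ^ 2)) := by
        intro z hz
        rw [slope_of_Y_ne rfl hyn, addX, hneg, h1] at hz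
        have h4 : 4 * (x1 ^ 3 + W.a₂ * x1 ^ 2 + W.a₄ * x1 + W.a₆) = (2 * y) ^ 2 := by
          linear_combination (-4) * hQe
        rw [h4, hz]
        have e : y - -y = 2 * y := by ring
        rw [e]
        have e2 : (((3 * x1 ^ 2 + 2 * W.a₂ * x1 + W.a₄ - 0 * y) / (2 * y)) ^ 2 +
            0 * ((3 * x1 ^ 2 + 2 * W.a₂ * x1 + W.a₄ - 0 * y) / (2 * y)) - W.a₂ - x1 - x1) * (2 * y) ^ 2 =
            (3 * x1 ^ 2 + 2 * W.a₂ * x1 + W.a₄) ^ 2 - (W.a₂ + 2 * x1) * (2 * y) ^ 2 := by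
          field_simp
          ring
        rw [e2]
        linear_combination (-8 * x1 - 4 * W.a₂) * hQe
      have hf0 : 4 * (x1 ^ 3 + W.a₂ * x1 ^ 2 + W.a₄ * x1 + W.a₆) ≠ 0 := by
        have h4 : 4 * (x1 ^ 3 + W.a₂ * x1 ^ 2 + W.a₄ * x1 + W.a₆) = (2 * y) ^ 2 := by
          linear_combination (-4) * hQe
        rw [h4]
        exact pow_ne_zero 2 hy
      rcases Point.X_eq_iff (h₁ := hP) (h₂ := hQ) |>.mp rfl with h | h
      · rw [h] at hu hv hu' hv'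
        rw [Point.add_self_of_Y_ne hyn] at hu hv
        rw [sub_self] at hu' hv'
        simp only [Point.xRep_zero, Point.xRep_some, Matrix.cons_val_zero, Matrix.cons_val_one] at hu hv hu' hv'
        have hz := hdbl u hu.symm
        subst hv hu' hv'
        refine ⟨(4 * (x1 ^ 3 + W.a₂ * x1 ^ 2 + W.a₄ * x1 + W.a₆))⁻¹, inv_ne_zero hf0, ?_, ?_, ?_⟩
        · rw [eq_inv_mul_iff_mul_eq₀ hf0]
          linear_combination hz
        · rw [eq_inv_mul_iff_mul_eq₀ hf0]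
          ring
        · ring
      · rw [h] at hu hv hu' hv'
        rw [neg_add_cancel] at hu hv
        rw [← neg_add', Point.xRep_neg, Point.add_self_of_Y_ne hyn] at hu' hv'
        simp only [Point.xRep_zero, Point.xRep_some, Matrix.cons_val_zero, Matrix.cons_val_one] at hu hv hu' hv'
        have hz := hdbl u' hu'.symm
        subst hv hu hv'
        refine ⟨(4 * (x1 ^ 3 + W.a₂ * x1 ^ 2 + W.a₄ * x1 + W.a₆))⁻¹, inv_ne_zero hf0, ?_, ?_, ?_⟩
        · rw [eq_inv_mul_iff_mul_eq₀ hf0]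
          linear_combination hz
        · rw [eq_inv_mul_iff_mul_eq₀ hf0]
          ring
        · ring
    · have hd : x1 - x ≠ 0 := sub_ne_zero.mpr hx
      rw [Point.add_of_X_ne hx] at hu hv
      rw [sub_eq_add_neg, Point.neg_some, Point.add_of_X_ne hx] at hu' hv'
      simp only [Point.xRep_some, Matrix.cons_val_zero, Matrix.cons_val_one] at hu hv hu' hv'
      rw [slope_of_X_ne hx, addX, h1] at hu hu'
      rw [hneg] at hu'
      subst hv hv'
      refine ⟨1 / (x1 - x) ^ 2, one_div_ne_zero (pow_ne_zero 2 hd), ?_, ?_, ?_⟩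
      · rw [← hu, ← hu']
        field_simp
        linear_combination ((y1 ^ 2 - y ^ 2 + (x1 ^ 3 + W.a₂ * x1 ^ 2 + W.a₄ * x1 + W.a₆) -
          (x ^ 3 + W.a₂ * x ^ 2 + W.a₄ * x + W.a₆)) - 2 * (W.a₂ + x1 + x) * (x1 - x) ^ 2) * hPe +
          (-(y1 ^ 2 - y ^ 2 + (x1 ^ 3 + W.a₂ * x1 ^ 2 + W.a₄ * x1 + W.a₆) -
          (x ^ 3 + W.a₂ * x ^ 2 + W.a₄ * x + W.a₆)) - 2 * (W.a₂ + x1 + x) * (x1 - x) ^ 2) * hQe
      · rw [← hu, ← hu']
        field_simp
        linear_combination 2 * hPe + 2 * hQe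
      · field_simp

end group

section poly

variable {F : Type*} [Field F]

lemma isUnit_of_no_prime {u : F[X]} (h0 : u ≠ 0) (h : ∀ π : F[X], Prime π → π ∣ u → False) : IsUnit u := by
  by_contra hu
  obtain ⟨π, hπ, hd⟩ := WfDvdMonoid.exists_irreducible_factor hu h0
  exact h π hπ.prime hd

lemma not_dvd_both {A B π : F[X]} (h : IsCoprime A B) (hπ : Prime π) (hA : π ∣ A) (hB : π ∣ B) : False := by
  obtain ⟨a, b, hab⟩ := h
  exact hπ.not_isUnit (isUnit_of_dvd_one (hab ▸ dvd_add (hA.mul_left a) (hB.mul_left b)))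

/-- the first triple is primitive -/
lemma prim_one {A B A' B' u : F[X]} (h : IsCoprime A B) (h' : IsCoprime A' B') (h0 : u ≠ 0)
    (h1 : u ∣ A * A') (h2 : u ∣ A * B' + B * A') (h3 : u ∣ B * B') : IsUnit u := by
  refine isUnit_of_no_prime h0 fun π hπ hd => ?_
  have h1 := hd.trans h1
  have h2 := hd.trans h2
  have h3 := hd.trans h3
  rcases hπ.dvd_or_dvd h1 with hA | hA
  · have hB : ¬ π ∣ B := fun hB => not_dvd_both h hπ hA hB
    have hB' : π ∣ B' := (hπ.dvd_or_dvd h3).resolve_left hB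
    have h4 : π ∣ B * A' := (dvd_add_right (hA.mul_right B')).mp h2
    rcases hπ.dvd_or_dvd h4 with h5 | h5
    · exact hB h5
    · exact not_dvd_both h' hπ h5 hB'
  · have hB' : ¬ π ∣ B' := fun hB => not_dvd_both h' hπ hA hB
    have hB : π ∣ B := (hπ.dvd_or_dvd h3).resolve_right hB'
    have h4 : π ∣ A * B' := (dvd_add_left (hA.mul_left B)).mp h2
    rcases hπ.dvd_or_dvd h4 with h5 | h5
    · exact not_dvd_both h hπ h5 hB
    · exact hB' h5

variable (a₂ a₄ a₆ : F)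

/-- the cubic -/
noncomputable def cub : F[X] := X ^ 3 + C a₂ * X ^ 2 + C a₄ * X + C a₆

lemma derivative_cub : derivative (cub a₂ a₄ a₆) = 3 * X ^ 2 + 2 * C a₂ * X + C a₄ := by
  unfold cub
  simp only [derivative_add, derivative_X_pow, derivative_C_mul, derivative_C, derivative_X]
  simp only [Nat.cast_ofNat, map_ofNat, Nat.add_one_sub_one, pow_one, mul_one, add_zero]
  ring

lemma cub_separable (h : a₂ ^ 2 * a₄ ^ 2 - 4 * a₄ ^ 3 - 4 * a₂ ^ 3 * a₆ - 27 * a₆ ^ 2 + 18 * a₂ * a₄ * a₆ ≠ 0) :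
    (cub a₂ a₄ a₆).Separable := by
  rw [Separable, derivative_cub]
  set D := a₂ ^ 2 * a₄ ^ 2 - 4 * a₄ ^ 3 - 4 * a₂ ^ 3 * a₆ - 27 * a₆ ^ 2 + 18 * a₂ * a₄ * a₆ with hD
  have h1 : (C D⁻¹ : F[X]) * C D = 1 := by rw [← C_mul, inv_mul_cancel₀ h, C_1]
  refine ⟨C D⁻¹ * ((18 * C a₄ - 6 * C a₂ ^ 2) * X + (15 * C a₂ * C a₄ - 4 * C a₂ ^ 3 - 27 * C a₆)),
    C D⁻¹ * (-((6 * C a₄ - 2 * C a₂ ^ 2) * X ^ 2) - (7 * C a₂ * C a₄ - 2 * C a₂ ^ 3 - 9 * C a₆) * X -
      (4 * C a₄ ^ 2 - C a₂ ^ 2 * C a₄ - 3 * C a₂ * C a₆)), ?_⟩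
  rw [← h1]
  have h2 : (C D : F[X]) = C a₂ ^ 2 * C a₄ ^ 2 - 4 * C a₄ ^ 3 - 4 * C a₂ ^ 3 * C a₆ - 27 * C a₆ ^ 2 +
      18 * C a₂ * C a₄ * C a₆ := by
    rw [hD]
    simp only [map_add, map_sub, map_mul, map_pow, map_ofNat]
  rw [h2, cub]
  ring

/-- the product form -/
noncomputable def nN (A B : F[X]) : F[X] := (A * X) ^ 2 - 2 * C a₄ * (A * X) * B - 4 * C a₆ * (A + X * B) * B -
  (4 * C a₂ * C a₆ - C a₄ ^ 2) * B ^ 2

/-- the sum form -/
noncomputable def nS (A B : F[X]) : F[X] := 2 * (A * X) * (A + X * B) + 4 * C a₂ * (A * X) * B +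
  2 * C a₄ * (A + X * B) * B + 4 * C a₆ * B ^ 2

/-- the second triple is primitive -/
lemma prim_two (h2 : (2 : F) ≠ 0) (hsep : (cub a₂ a₄ a₆).Separable) {A B v : F[X]} (h : IsCoprime A B) (h0 : v ≠ 0)
    (hN : v ∣ nN a₂ a₄ a₆ A B) (hS : v ∣ nS a₂ a₄ a₆ A B) (hT : v ∣ (A - X * B) ^ 2) : IsUnit v := by
  refine isUnit_of_no_prime h0 fun π hπ hd => ?_
  have hN := hd.trans hN
  have hS := hd.trans hS
  have hT := hπ.dvd_of_dvd_pow (hd.trans hT)
  have hB : ¬ π ∣ B := fun hB => by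
    refine not_dvd_both h hπ ?_ hB
    have := dvd_add hT (hB.mul_left X)
    simpa using this
  have h4 : ¬ π ∣ (4 : F[X]) := by
    intro h4
    have h5 : IsUnit (4 : F[X]) := by
      have : (4 : F[X]) = C 4 := (map_ofNat C 4).symm
      rw [this, isUnit_C]
      have : (4 : F) ≠ 0 := by
        have : (4 : F) = 2 * 2 := by norm_num
        rw [this]
        exact mul_ne_zero h2 h2
      exact this.isUnit
    exact hπ.not_isUnit (isUnit_of_dvd_unit h4 h5)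
  have hf : π ∣ cub a₂ a₄ a₆ := by
    have e : nS a₂ a₄ a₆ A B = 4 * B ^ 2 * cub a₂ a₄ a₆ + (A - X * B) * (2 * X * (A + X * B) + 2 * X ^ 2 * B +
        4 * C a₂ * X * B + 2 * C a₄ * B) := by
      unfold nS cub
      ring
    rw [e] at hS
    have h5 := (dvd_add_left (hT.mul_right _)).mp hS
    rcases hπ.dvd_or_dvd h5 with h6 | h6
    · rcases hπ.dvd_or_dvd h6 with h7 | h7
      · exact absurd h7 h4
      · exact absurd (hπ.dvd_of_dvd_pow h7) hB
    · exact h6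
  have hf' : π ∣ derivative (cub a₂ a₄ a₆) := by
    have e : nN a₂ a₄ a₆ A B = B ^ 2 * ((derivative (cub a₂ a₄ a₆)) ^ 2 - 4 * (2 * X + C a₂) * cub a₂ a₄ a₆) +
        (A - X * B) * ((A + X * B) * X ^ 2 - 2 * C a₄ * X * B - 4 * C a₆ * B) := by
      rw [derivative_cub]
      unfold nN cub
      ring
    rw [e] at hN
    have h5 := (dvd_add_left (hT.mul_right _)).mp hN
    rcases hπ.dvd_or_dvd h5 with h6 | h6
    · exact absurd (hπ.dvd_of_dvd_pow h6) hB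
    · have h7 := dvd_add h6 (hf.mul_left (4 * (2 * X + C a₂)))
      rw [sub_add_cancel] at h7
      exact hπ.dvd_of_dvd_pow h7
  exact not_dvd_both hsep hπ hf hf'

/-- `deg B < deg A` -/
def Good (A B : F[X]) : Prop := A ≠ 0 ∧ (X * B).natDegree ≤ A.natDegree

lemma natDegree_nN {A B : F[X]} (h : Good A B) : (nN a₂ a₄ a₆ A B).natDegree = 2 * A.natDegree + 2 ∧
    nN a₂ a₄ a₆ A B ≠ 0 := by
  obtain ⟨hA, hB⟩ := h
  obtain ⟨d, hd⟩ : ∃ d, d = A.natDegree := ⟨_, rfl⟩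
  obtain ⟨Z, hZ⟩ : ∃ Z, Z = X * B := ⟨_, rfl⟩
  rw [← hZ, ← hd] at hB
  rw [← hd]
  have e : X ^ 2 * nN a₂ a₄ a₆ A B = A ^ 2 * X ^ 4 + (-(2 * C a₄ * X ^ 2 * A * Z) - 4 * C a₆ * X * (A + Z) * Z -
      (4 * C a₂ * C a₆ - C a₄ ^ 2) * Z ^ 2) := by
    rw [hZ]
    unfold nN
    ring
  have h1 : (A ^ 2 * X ^ 4).natDegree = 2 * d + 4 := by
    rw [natDegree_mul (pow_ne_zero 2 hA) (pow_ne_zero 4 X_ne_zero), natDegree_pow, natDegree_X_pow, hd]
  have h2 : (-(2 * C a₄ * X ^ 2 * A * Z) - 4 * C a₆ * X * (A + Z) * Z -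
      (4 * C a₂ * C a₆ - C a₄ ^ 2) * Z ^ 2).natDegree ≤ 2 * d + 2 := by
    compute_degree
    all_goals simp only [max_le_iff]
    all_goals omega
  have h3 : (X ^ 2 * nN a₂ a₄ a₆ A B).natDegree = 2 * d + 4 := by
    rw [e, natDegree_add_eq_left_of_natDegree_lt (by omega), h1]
  have h0 : nN a₂ a₄ a₆ A B ≠ 0 := by
    intro h0
    rw [h0, mul_zero, natDegree_zero] at h3
    omega
  rw [natDegree_mul (pow_ne_zero 2 X_ne_zero) h0, natDegree_X_pow] at h3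
  exact ⟨by omega, h0⟩

lemma natDegree_nS {A B : F[X]} (h : Good A B) : (nS a₂ a₄ a₆ A B).natDegree ≤ 2 * A.natDegree + 1 := by
  obtain ⟨hA, hB⟩ := h
  obtain ⟨d, hd⟩ : ∃ d, d = A.natDegree := ⟨_, rfl⟩
  obtain ⟨Z, hZ⟩ : ∃ Z, Z = X * B := ⟨_, rfl⟩
  rw [← hZ, ← hd] at hB
  rw [← hd]
  have e : X ^ 2 * nS a₂ a₄ a₆ A B = 2 * X ^ 3 * A * (A + Z) + 4 * C a₂ * X ^ 2 * A * Z +
      2 * C a₄ * X * (A + Z) * Z + 4 * C a₆ * Z ^ 2 := by
    rw [hZ]
    unfold nS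
    ring
  have h2 : (2 * X ^ 3 * A * (A + Z) + 4 * C a₂ * X ^ 2 * A * Z +
      2 * C a₄ * X * (A + Z) * Z + 4 * C a₆ * Z ^ 2).natDegree ≤ 2 * d + 3 := by
    compute_degree
    all_goals simp only [max_le_iff]
    all_goals omega
  by_cases h0 : nS a₂ a₄ a₆ A B = 0
  · rw [h0, natDegree_zero]
    omega
  rw [← e, natDegree_mul (pow_ne_zero 2 X_ne_zero) h0, natDegree_X_pow] at h2
  omega

lemma natDegree_nT {A B : F[X]} (h : Good A B) : ((A - X * B) ^ 2).natDegree ≤ 2 * A.natDegree := by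
  obtain ⟨hA, hB⟩ := h
  obtain ⟨Z, hZ⟩ : ∃ Z, Z = X * B := ⟨_, rfl⟩
  rw [← hZ] at hB ⊢
  compute_degree
  all_goals omega

/-- one step for the degrees -/
lemma good_step {A B A1 B1 A2 B2 : F[X]} {c : F} (hc : c ≠ 0) (h : Good A B)
    (hN : A1 * A2 = C c * nN a₂ a₄ a₆ A B) (hS : A1 * B2 + B1 * A2 = C c * nS a₂ a₄ a₆ A B)
    (hT : B1 * B2 = C c * (A - X * B) ^ 2) :
    Good A1 B1 ∧ Good A2 B2 ∧ A1.natDegree + A2.natDegree = 2 * A.natDegree + 2 := by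
  obtain ⟨h1, h10⟩ := natDegree_nN a₂ a₄ a₆ h
  have h2 := natDegree_nS a₂ a₄ a₆ h
  have h3 := natDegree_nT h
  rw [← natDegree_C_mul hc, ← hN] at h1
  rw [← natDegree_C_mul hc, ← hS] at h2
  rw [← natDegree_C_mul hc, ← hT] at h3
  have h0 : A1 * A2 ≠ 0 := by
    rw [hN]
    exact mul_ne_zero (C_ne_zero.mpr hc) h10
  have hA1 : A1 ≠ 0 := left_ne_zero_of_mul h0
  have hA2 : A2 ≠ 0 := right_ne_zero_of_mul h0
  rw [natDegree_mul hA1 hA2] at h1
  -- the symmetric claim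
  have key : ∀ A1 B1 A2 B2 : F[X], A1 ≠ 0 → A2 ≠ 0 → A1.natDegree + A2.natDegree = 2 * A.natDegree + 2 →
      (A1 * B2 + B1 * A2).natDegree ≤ 2 * A.natDegree + 1 → (B1 * B2).natDegree ≤ 2 * A.natDegree → Good A1 B1 := by
    intro A1 B1 A2 B2 hA1 hA2 h1 h2 h3
    refine ⟨hA1, ?_⟩
    by_contra hcon
    push Not at hcon
    have hB1 : B1 ≠ 0 := by
      rintro rfl
      rw [mul_zero, natDegree_zero] at hcon
      omega
    rw [natDegree_mul X_ne_zero hB1, natDegree_X] at hcon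
    by_cases hB2 : B2 = 0
    · rw [hB2, mul_zero, zero_add, natDegree_mul hB1 hA2] at h2
      omega
    · rw [natDegree_mul hB1 hB2] at h3
      rw [natDegree_add_eq_right_of_natDegree_lt, natDegree_mul hB1 hA2] at h2
      · omega
      · rw [natDegree_mul hB1 hA2, natDegree_mul hA1 hB2]
        omega
  refine ⟨key A1 B1 A2 B2 hA1 hA2 h1 h2 h3, key A2 B2 A1 B1 hA2 hA1 (by omega) ?_ ?_, h1⟩
  · rwa [add_comm, mul_comm B2, mul_comm A2]
  · rwa [mul_comm]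

end poly

section field

variable {F : Type*} [Field F] (a₂ a₄ a₆ : F)

/-- the twist -/
noncomputable def lam : FractionRing F[X] := algebraMap F[X] (FractionRing F[X]) (cub a₂ a₄ a₆)

/-- the twisted curve -/
noncomputable def WW : WeierstrassCurve.Affine (FractionRing F[X]) :=
  ⟨0, lam a₂ a₄ a₆ * algebraMap F[X] (FractionRing F[X]) (C a₂), 0,
    lam a₂ a₄ a₆ ^ 2 * algebraMap F[X] (FractionRing F[X]) (C a₄),
    lam a₂ a₄ a₆ ^ 3 * algebraMap F[X] (FractionRing F[X]) (C a₆)⟩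

/-- `A / B` represents the `x`-coordinate of `P` -/
def Rep (P : (WW a₂ a₄ a₆).Point) (A B : F[X]) : Prop :=
  IsCoprime A B ∧ ∃ μ : FractionRing F[X], μ ≠ 0 ∧
    lam a₂ a₄ a₆ * algebraMap F[X] (FractionRing F[X]) A = μ * P.xRep 0 ∧
    algebraMap F[X] (FractionRing F[X]) B = μ * P.xRep 1

variable {a₂ a₄ a₆}

lemma cub_ne_zero (hsep : (cub a₂ a₄ a₆).Separable) : cub a₂ a₄ a₆ ≠ 0 := hsep.ne_zero

lemma lam_ne_zero (hsep : (cub a₂ a₄ a₆).Separable) : lam a₂ a₄ a₆ ≠ 0 := by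
  unfold lam
  rw [Ne, FaithfulSMul.algebraMap_eq_zero_iff]
  exact cub_ne_zero hsep

lemma exists_rep (hsep : (cub a₂ a₄ a₆).Separable) (P : (WW a₂ a₄ a₆).Point) : ∃ A B, Rep a₂ a₄ a₆ P A B := by
  cases P with
  | zero =>
    refine ⟨1, 0, isCoprime_one_left, lam a₂ a₄ a₆, lam_ne_zero hsep, ?_, ?_⟩
    · rw [← Point.zero_def, Point.xRep_zero]
      simp
    · rw [← Point.zero_def, Point.xRep_zero]
      simp
  | some x y h =>
    obtain ⟨A, B, hAB, he⟩ := IsFractionRing.exists_reduced_fraction (A := F[X]) (x / lam a₂ a₄ a₆)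
    have hB : algebraMap F[X] (FractionRing F[X]) B ≠ 0 := by
      rw [Ne, FaithfulSMul.algebraMap_eq_zero_iff]
      exact nonZeroDivisors.ne_zero B.2
    refine ⟨A, B, hAB.isCoprime, algebraMap F[X] (FractionRing F[X]) B, hB, ?_, ?_⟩
    · rw [IsFractionRing.mk'_eq_div, div_eq_div_iff hB (lam_ne_zero hsep)] at he
      rw [Point.xRep_some, Matrix.cons_val_zero, mul_comm, he, mul_comm]
    · rw [Point.xRep_some]
      simp

lemma rep_unique {P : (WW a₂ a₄ a₆).Point} (hsep : (cub a₂ a₄ a₆).Separable) {A B A' B' : F[X]}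
    (h : Rep a₂ a₄ a₆ P A B) (h' : Rep a₂ a₄ a₆ P A' B') :
    A.natDegree = A'.natDegree ∧ (Good A B → Good A' B') := by
  obtain ⟨hc, μ, hμ, h1, h2⟩ := h
  obtain ⟨hc', μ', hμ', h1', h2'⟩ := h'
  have e : A * B' = A' * B := by
    apply FaithfulSMul.algebraMap_injective F[X] (FractionRing F[X])
    rw [map_mul, map_mul]
    apply mul_left_cancel₀ (lam_ne_zero hsep)
    rw [← mul_assoc, ← mul_assoc, h1, h1', h2, h2']
    ring
  have d1 : A ∣ A' := hc.dvd_of_dvd_mul_right (e ▸ dvd_mul_right A B')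
  have d2 : A' ∣ A := hc'.dvd_of_dvd_mul_right (e ▸ dvd_mul_right A' B)
  have hd := natDegree_eq_of_degree_eq (degree_eq_degree_of_associated (associated_of_dvd_dvd d1 d2))
  refine ⟨hd, fun ⟨g1, g2⟩ => ?_⟩
  have hA' : A' ≠ 0 := by
    rintro rfl
    exact g1 (zero_dvd_iff.mp d2)
  refine ⟨hA', ?_⟩
  by_cases hB' : B' = 0
  · rw [hB', mul_zero, natDegree_zero]
    exact Nat.zero_le _
  · have hB : B ≠ 0 := by
      rintro rfl
      rw [mul_zero] at e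
      exact mul_ne_zero g1 hB' e
    have e' := congrArg natDegree e
    rw [natDegree_mul g1 hB', natDegree_mul hA' hB] at e'
    rw [natDegree_mul X_ne_zero hB] at g2
    rw [natDegree_mul X_ne_zero hB']
    omega

/-- the representations of the sum and of the difference with the generic point -/
lemma rep_step [DecidableEq (FractionRing F[X])] (h2 : (2 : F) ≠ 0) (hsep : (cub a₂ a₄ a₆).Separable) {P Q : (WW a₂ a₄ a₆).Point}
    {x y : FractionRing F[X]} (hx : x = lam a₂ a₄ a₆ * algebraMap F[X] (FractionRing F[X]) X)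
    (hQn : (WW a₂ a₄ a₆).Nonsingular x y)
    (hQ : Q = .some _ _ hQn) (hy : 2 * y ≠ 0) {A B A1 B1 A2 B2 : F[X]} (h : Rep a₂ a₄ a₆ P A B)
    (h1 : Rep a₂ a₄ a₆ (P + Q) A1 B1) (h2' : Rep a₂ a₄ a₆ (P - Q) A2 B2) :
    ∃ c : F, c ≠ 0 ∧ A1 * A2 = C c * nN a₂ a₄ a₆ A B ∧ A1 * B2 + B1 * A2 = C c * nS a₂ a₄ a₆ A B ∧
      B1 * B2 = C c * (A - X * B) ^ 2 := by
  obtain ⟨hc, μ, hμ, e1, e2⟩ := h
  obtain ⟨hc1, μ1, hμ1, f1, f2⟩ := h1
  obtain ⟨hc2, μ2, hμ2, g1, g2⟩ := h2'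
  obtain ⟨κ, hκ, k1, k2, k3⟩ := sum_diff (W := WW a₂ a₄ a₆) rfl rfl hQn hy P rfl rfl rfl rfl rfl rfl
  rw [← hQ] at k1 k2 k3
  clear hQ
  have hlam := lam_ne_zero hsep
  have hinj := FaithfulSMul.algebraMap_injective F[X] (FractionRing F[X])
  obtain ⟨κ', hκ'⟩ : ∃ κ', κ' = μ1 * μ2 * κ * lam a₂ a₄ a₆ ^ 2 / μ ^ 2 := ⟨_, rfl⟩
  have hκ'0 : κ' ≠ 0 := by
    rw [hκ']
    exact div_ne_zero (mul_ne_zero (mul_ne_zero (mul_ne_zero hμ1 hμ2) hκ) (pow_ne_zero 2 hlam)) (pow_ne_zero 2 hμ)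
  have hκμ : κ' * μ ^ 2 = μ1 * μ2 * κ * lam a₂ a₄ a₆ ^ 2 := by
    rw [hκ', div_mul_cancel₀ _ (pow_ne_zero 2 hμ)]
  obtain ⟨φ, hφ⟩ : ∃ φ : F[X] →+* FractionRing F[X], φ = algebraMap F[X] (FractionRing F[X]) := ⟨_, rfl⟩
  have w2 : (WW a₂ a₄ a₆).a₂ = lam a₂ a₄ a₆ * φ (C a₂) := by rw [hφ]; rfl
  have w4 : (WW a₂ a₄ a₆).a₄ = lam a₂ a₄ a₆ ^ 2 * φ (C a₄) := by rw [hφ]; rfl
  have w6 : (WW a₂ a₄ a₆).a₆ = lam a₂ a₄ a₆ ^ 3 * φ (C a₆) := by rw [hφ]; rfl
  rw [w2, w4, w6] at k1 k2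
  rw [← hφ] at e1 e2 f1 f2 g1 g2 hinj hx
  rw [hx] at k1 k2 k3
  have map4 : φ (4 : F[X]) = 4 := map_ofNat φ 4
  have map2 : φ (2 : F[X]) = 2 := map_ofNat φ 2
  have mN : φ (nN a₂ a₄ a₆ A B) = (φ A * φ X) ^ 2 - 2 * φ (C a₄) * (φ A * φ X) * φ B -
      4 * φ (C a₆) * (φ A + φ X * φ B) * φ B - (4 * φ (C a₂) * φ (C a₆) - φ (C a₄) ^ 2) * φ B ^ 2 := by
    unfold nN
    simp only [map_sub, map_add, map_mul, map_pow, map4, map2]
  have mS : φ (nS a₂ a₄ a₆ A B) = 2 * (φ A * φ X) * (φ A + φ X * φ B) + 4 * φ (C a₂) * (φ A * φ X) * φ B +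
      2 * φ (C a₄) * (φ A + φ X * φ B) * φ B + 4 * φ (C a₆) * φ B ^ 2 := by
    unfold nS
    simp only [map_add, map_mul, map_pow, map4, map2]
  have mT : φ ((A - X * B) ^ 2) = (φ A - φ X * φ B) ^ 2 := by
    simp only [map_sub, map_mul, map_pow]
  obtain ⟨L, hL⟩ : ∃ L, L = lam a₂ a₄ a₆ := ⟨_, rfl⟩
  rw [← hL] at e1 f1 g1 k1 k2 k3 hκμ hlam
  have E1 : φ (A1 * A2) = κ' * φ (nN a₂ a₄ a₆ A B) := by
    apply mul_left_cancel₀ (pow_ne_zero 2 hlam)
    apply mul_left_cancel₀ (pow_ne_zero 2 hμ)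
    have n1 : L ^ 4 * φ (nN a₂ a₄ a₆ A B) = ((L * φ A) * (L * φ X)) ^ 2 -
        2 * (L ^ 2 * φ (C a₄)) * ((L * φ A) * (L * φ X)) * φ B -
        4 * (L ^ 3 * φ (C a₆)) * ((L * φ A) + (L * φ X) * φ B) * φ B -
        (4 * (L * φ (C a₂)) * (L ^ 3 * φ (C a₆)) - (L ^ 2 * φ (C a₄)) ^ 2) * φ B ^ 2 := by
      rw [mN]
      ring
    rw [e1, e2] at n1
    calc μ ^ 2 * (L ^ 2 * φ (A1 * A2)) = μ ^ 2 * ((L * φ A1) * (L * φ A2)) := by rw [map_mul]; ring
      _ = μ ^ 2 * (μ1 * μ2) * _ := by rw [f1, g1, mul_mul_mul_comm, mul_assoc (μ ^ 2)]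
      _ = μ ^ 2 * (μ1 * μ2) * _ := by rw [k1]
      _ = μ1 * μ2 * κ * (L ^ 4 * φ (nN a₂ a₄ a₆ A B)) := by rw [n1]; ring
      _ = (κ' * μ ^ 2) * L ^ 2 * φ (nN a₂ a₄ a₆ A B) := by rw [hκμ]; ring
      _ = _ := by ring
  have E2 : φ (A1 * B2 + B1 * A2) = κ' * φ (nS a₂ a₄ a₆ A B) := by
    apply mul_left_cancel₀ hlam
    apply mul_left_cancel₀ (pow_ne_zero 2 hμ)
    have n1 : L ^ 3 * φ (nS a₂ a₄ a₆ A B) = 2 * ((L * φ A) * (L * φ X)) * ((L * φ A) + (L * φ X) * φ B) +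
        4 * (L * φ (C a₂)) * ((L * φ A) * (L * φ X)) * φ B +
        2 * (L ^ 2 * φ (C a₄)) * ((L * φ A) + (L * φ X) * φ B) * φ B +
        4 * (L ^ 3 * φ (C a₆)) * φ B ^ 2 := by
      rw [mS]
      ring
    rw [e1, e2] at n1
    calc μ ^ 2 * (L * φ (A1 * B2 + B1 * A2)) = μ ^ 2 * ((L * φ A1) * φ B2 + φ B1 * (L * φ A2)) := by
          rw [map_add, map_mul, map_mul]; ring
      _ = μ ^ 2 * (μ1 * μ2) * ((P + Q).xRep 0 * (P - Q).xRep 1 + (P + Q).xRep 1 * (P - Q).xRep 0) := by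
          rw [f1, g1, f2, g2]; ring
      _ = μ ^ 2 * (μ1 * μ2) * _ := by rw [k2]
      _ = μ1 * μ2 * κ * (L ^ 3 * φ (nS a₂ a₄ a₆ A B)) := by rw [n1]; ring
      _ = (κ' * μ ^ 2) * L * φ (nS a₂ a₄ a₆ A B) := by rw [hκμ]; ring
      _ = _ := by ring
  have E3 : φ (B1 * B2) = κ' * φ ((A - X * B) ^ 2) := by
    apply mul_left_cancel₀ (pow_ne_zero 2 hμ)
    have n1 : L ^ 2 * φ ((A - X * B) ^ 2) = ((L * φ A) - (L * φ X) * φ B) ^ 2 := by
      rw [mT]
      ring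
    rw [e1, e2] at n1
    calc μ ^ 2 * φ (B1 * B2) = μ ^ 2 * (μ1 * μ2) * _ := by
          rw [map_mul, f2, g2, mul_mul_mul_comm, mul_assoc (μ ^ 2)]
      _ = μ ^ 2 * (μ1 * μ2) * _ := by rw [k3]
      _ = μ1 * μ2 * κ * (L ^ 2 * φ ((A - X * B) ^ 2)) := by rw [n1]; ring
      _ = (κ' * μ ^ 2) * φ ((A - X * B) ^ 2) := by rw [hκμ]; ring
      _ = _ := by ring
  obtain ⟨u, v, huv, he⟩ := IsFractionRing.exists_reduced_fraction (A := F[X]) κ'
  have hv0 : (v : F[X]) ≠ 0 := nonZeroDivisors.ne_zero v.2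
  have hv : φ v ≠ 0 := by
    rw [hφ, Ne, FaithfulSMul.algebraMap_eq_zero_iff]
    exact hv0
  have he2 : φ u = κ' * φ v := by
    rw [← he, IsFractionRing.mk'_eq_div, ← hφ, div_mul_cancel₀ _ hv]
  have hu0 : u ≠ 0 := by
    rintro rfl
    rw [map_zero] at he2
    exact mul_ne_zero hκ'0 hv he2.symm
  have huv := huv.isCoprime
  have G : ∀ M N : F[X], φ M = κ' * φ N → (v : F[X]) * M = u * N := by
    intro M N hMN
    apply hinj
    rw [map_mul, map_mul, hMN, he2]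
    ring
  have G1 := G _ _ E1
  have G2 := G _ _ E2
  have G3 := G _ _ E3
  have hu : IsUnit u := prim_one hc1 hc2 hu0 (huv.dvd_of_dvd_mul_left (Dvd.intro _ G1.symm))
    (huv.dvd_of_dvd_mul_left (Dvd.intro _ G2.symm)) (huv.dvd_of_dvd_mul_left (Dvd.intro _ G3.symm))
  have hvu : IsUnit (v : F[X]) := prim_two a₂ a₄ a₆ h2 hsep hc hv0 (huv.symm.dvd_of_dvd_mul_left (Dvd.intro _ G1))
    (huv.symm.dvd_of_dvd_mul_left (Dvd.intro _ G2)) (huv.symm.dvd_of_dvd_mul_left (Dvd.intro _ G3))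
  obtain ⟨c1, hc1', hc1e⟩ := Polynomial.isUnit_iff.mp hu
  obtain ⟨c2, hc2', hc2e⟩ := Polynomial.isUnit_iff.mp hvu
  have c20 : c2 ≠ 0 := hc2'.ne_zero
  have H : ∀ M N : F[X], (v : F[X]) * M = u * N → M = C (c1 / c2) * N := by
    intro M N hMN
    rw [← hc1e, ← hc2e] at hMN
    have h5 : (C c2⁻¹ : F[X]) * C c2 = 1 := by rw [← C_mul, inv_mul_cancel₀ c20, C_1]
    calc M = C c2⁻¹ * C c2 * M := by rw [h5, one_mul]
      _ = C c2⁻¹ * (C c1 * N) := by rw [mul_assoc, hMN]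
      _ = C (c1 / c2) * N := by rw [div_eq_mul_inv, C_mul]; ring
  exact ⟨c1 / c2, div_ne_zero hc1'.ne_zero c20, H _ _ G1, H _ _ G2, H _ _ G3⟩

lemma int_quad {d : ℤ → ℤ} (h : ∀ n, d (n + 1) + d (n - 1) = 2 * d n + 2) (n : ℤ) :
    d n = n ^ 2 + (d 1 - d 0 - 1) * n + d 0 := by
  have h1 : ∀ n : ℤ, d (n + 1) - d n = 2 * n + (d 1 - d 0) := by
    intro n
    induction n using Int.induction_on with
    | zero => simp
    | succ n ih =>
      have := h (n + 1)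
      rw [add_sub_cancel_right] at this
      linarith
    | pred n ih =>
      have := h (-n)
      have e : (-(n : ℤ) - 1 + 1) = -n := by ring
      rw [e]
      linarith
  induction n using Int.induction_on with
  | zero => simp
  | succ n ih =>
    have := h1 n
    linear_combination ih + this
  | pred n ih =>
    have := h1 (-n - 1)
    have e : (-(n : ℤ) - 1 + 1) = -n := by ring
    rw [e] at this
    linear_combination ih - this

/-- the degrees form a quadratic sequence -/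
theorem degrees [DecidableEq (FractionRing F[X])] (h2 : (2 : F) ≠ 0) (hsep : (cub a₂ a₄ a₆).Separable) {P0 Q : (WW a₂ a₄ a₆).Point}
    {x y : FractionRing F[X]} (hx : x = lam a₂ a₄ a₆ * algebraMap F[X] (FractionRing F[X]) X)
    (hQn : (WW a₂ a₄ a₆).Nonsingular x y)
    (hQ : Q = .some _ _ hQn) (hy : 2 * y ≠ 0) {A0 B0 A1 B1 : F[X]} (h0 : Rep a₂ a₄ a₆ P0 A0 B0) (hg : Good A0 B0)
    (h1 : Rep a₂ a₄ a₆ (P0 + Q) A1 B1) (n : ℤ) :
    0 ≤ n ^ 2 + ((A1.natDegree : ℤ) - A0.natDegree - 1) * n + A0.natDegree := by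
  choose A B hAB using fun n : ℤ => exists_rep hsep (P0 + n • Q)
  have hp : ∀ n : ℤ, P0 + (n + 1) • Q = (P0 + n • Q) + Q := by
    intro n
    rw [add_zsmul, one_zsmul, add_assoc]
  have hm : ∀ n : ℤ, P0 + (n - 1) • Q = (P0 + n • Q) - Q := by
    intro n
    rw [sub_zsmul, one_zsmul, ← sub_eq_add_neg, add_sub_assoc]
  have hstep : ∀ n : ℤ, Good (A n) (B n) → Good (A (n + 1)) (B (n + 1)) ∧ Good (A (n - 1)) (B (n - 1)) ∧
      (A (n + 1)).natDegree + (A (n - 1)).natDegree = 2 * (A n).natDegree + 2 := by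
    intro n hn
    have r1 := hAB (n + 1)
    have r2 := hAB (n - 1)
    rw [hp] at r1
    rw [hm] at r2
    obtain ⟨c, hc, e1, e2, e3⟩ := rep_step h2 hsep hx hQn hQ hy (hAB n) r1 r2
    exact good_step a₂ a₄ a₆ hc hn e1 e2 e3
  have r0 := hAB 0
  rw [zero_zsmul, add_zero] at r0
  have r1 := hAB 1
  rw [one_zsmul] at r1
  have hgood : ∀ n : ℤ, Good (A n) (B n) := by
    intro n
    induction n using Int.induction_on with
    | zero => exact (rep_unique hsep h0 r0).2 hg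
    | succ n ih => exact (hstep _ ih).1
    | pred n ih => exact (hstep _ ih).2.1
  have hq := int_quad (d := fun n => ((A n).natDegree : ℤ)) (fun n => by exact_mod_cast (hstep n (hgood n)).2.2) n
  rw [(rep_unique hsep h0 r0).1, (rep_unique hsep h1 r1).1, ← hq]
  exact Nat.cast_nonneg _

lemma disc_le {q : ℕ} (hq : q % 2 = 1) {b : ℤ} (h : ∀ n : ℤ, 0 ≤ n ^ 2 + b * n + q) : b ^ 2 ≤ 4 * q := by
  rcases Int.even_or_odd' b with ⟨s, hs | hs⟩
  · have := h (-s)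
    rw [hs] at this ⊢
    nlinarith
  · have := h (-s)
    rw [hs] at this ⊢
    have h1 : s ^ 2 + s ≤ q := by nlinarith
    have h2 : s ^ 2 + s ≠ q := by
      intro h2
      have h3 : Even (s ^ 2 + s) := by
        rw [pow_two, ← mul_add_one]
        exact Int.even_mul_succ_self s
      rw [h2] at h3
      rw [Int.even_iff] at h3
      omega
    have h3 : s ^ 2 + s + 1 ≤ q := by omega
    nlinarith

end field

section finite

variable {F : Type*} [Field F] [Fintype F] [DecidableEq F] (a₂ a₄ a₆ : F)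

/-- half of the number of elements -/
def hm (F : Type*) [Fintype F] : ℕ := Fintype.card F / 2

/-- the numerator of the `x`-coordinate of the sum of the two points -/
noncomputable def num : F[X] := cub a₂ a₄ a₆ * (cub a₂ a₄ a₆ ^ hm F - 1) ^ 2 -
  (C a₂ + X ^ Fintype.card F + X) * (X ^ Fintype.card F - X) ^ 2

variable {a₂ a₄ a₆}

lemma card_eq (hF : ringChar F ≠ 2) : Fintype.card F = 2 * hm F + 1 ∧ 1 ≤ hm F := by
  have h1 := FiniteField.odd_card_of_char_ne_two hF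
  have h2 : 1 < Fintype.card F := Fintype.one_lt_card
  unfold hm
  omega

lemma natDegree_cub : (cub a₂ a₄ a₆).natDegree = 3 := by
  unfold cub
  compute_degree!

lemma cub_pow (hF : ringChar F ≠ 2) : cub a₂ a₄ a₆ * (cub a₂ a₄ a₆ ^ hm F) ^ 2 =
    (X ^ Fintype.card F) ^ 3 + C a₂ * (X ^ Fintype.card F) ^ 2 + C a₄ * X ^ Fintype.card F + C a₆ := by
  have h1 : cub a₂ a₄ a₆ * (cub a₂ a₄ a₆ ^ hm F) ^ 2 = cub a₂ a₄ a₆ ^ Fintype.card F := by
    rw [← pow_mul, ← pow_succ', (card_eq hF).1, mul_comm 2]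
  rw [h1, ← FiniteField.expand_card]
  unfold cub
  simp only [map_add, map_mul, map_pow, expand_X, expand_C]

lemma natDegree_num (hF : ringChar F ≠ 2) : (num a₂ a₄ a₆).natDegree = 2 * Fintype.card F + 1 := by
  obtain ⟨hc, hm1⟩ := card_eq hF
  obtain ⟨q, hq⟩ : ∃ q, q = Fintype.card F := ⟨_, rfl⟩
  have h1 := cub_pow (a₂ := a₂) (a₄ := a₄) (a₆ := a₆) hF
  rw [← hq] at h1 hc ⊢
  have e : num a₂ a₄ a₆ = X ^ (2 * q + 1) + (X ^ (q + 2) + 2 * C a₂ * X ^ (q + 1) + C a₄ * X ^ q + C a₆ -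
      2 * (cub a₂ a₄ a₆ ^ (hm F + 1)) + cub a₂ a₄ a₆ - C a₂ * X ^ 2 - X ^ 3) := by
    unfold num
    rw [← hq]
    linear_combination h1
  have h3 := natDegree_cub (a₂ := a₂) (a₄ := a₄) (a₆ := a₆)
  rw [e, natDegree_add_eq_left_of_natDegree_lt, natDegree_X_pow]
  rw [natDegree_X_pow]
  refine Nat.lt_succ_of_le ?_
  compute_degree
  all_goals rw [h3]
  all_goals omega

/-- the number of square roots of the value at `c` -/
noncomputable def ec (a₂ a₄ a₆ : F) (c : F) : ℕ :=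
  if (cub a₂ a₄ a₆).eval c = 0 then 1 else if (cub a₂ a₄ a₆).eval c ^ hm F = 1 then 2 else 0

lemma ec_le (c : F) : ec a₂ a₄ a₆ c ≤ 2 := by
  unfold ec
  split_ifs <;> omega

lemma ec_eq (hF : ringChar F ≠ 2) (c : F) :
    (Finset.univ.filter fun y : F => y ^ 2 = (cub a₂ a₄ a₆).eval c).card = ec a₂ a₄ a₆ c := by
  have h2 : (2 : F) ≠ 0 := Ring.two_ne_zero hF
  unfold ec
  split_ifs with h h'
  · rw [h]
    have : (Finset.univ.filter fun y : F => y ^ 2 = 0) = {0} := by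
      ext y
      simp
    rw [this, Finset.card_singleton]
  · obtain ⟨z, hz⟩ := (FiniteField.isSquare_iff hF h).mpr h'
    have hz0 : z ≠ 0 := by
      rintro rfl
      exact h (by rw [hz, mul_zero])
    have : (Finset.univ.filter fun y : F => y ^ 2 = (cub a₂ a₄ a₆).eval c) = {z, -z} := by
      ext y
      rw [Finset.mem_filter, Finset.mem_insert, Finset.mem_singleton, hz, ← pow_two, sq_eq_sq_iff_eq_or_eq_neg]
      simp
    rw [this, Finset.card_pair]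
    intro he
    apply hz0
    have : 2 * z = 0 := by linear_combination he
    exact (mul_eq_zero.mp this).resolve_left h2
  · rw [Finset.card_eq_zero, Finset.filter_eq_empty_iff]
    intro y _ hy
    exact h' ((FiniteField.isSquare_iff hF h).mp ⟨y, by rw [← hy, pow_two]⟩)

/-- the common factor -/
noncomputable def gG (a₂ a₄ a₆ : F) : F[X] := ∏ c : F, (X - C c) ^ ec a₂ a₄ a₆ c

/-- the reduced denominator -/
noncomputable def gB (a₂ a₄ a₆ : F) : F[X] := ∏ c : F, (X - C c) ^ (2 - ec a₂ a₄ a₆ c)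

lemma prod_X_sub_C : (∏ c : F, (X - C c) : F[X]) = X ^ Fintype.card F - X := by
  have h1 : (X ^ Fintype.card F - X : F[X]).Monic := by
    apply monic_X_pow_sub
    rw [degree_X]
    exact_mod_cast Fintype.one_lt_card
  have h2 := prod_multiset_X_sub_C_of_monic_of_roots_card_eq h1 (by
    rw [FiniteField.roots_X_pow_card_sub_X, FiniteField.X_pow_card_sub_X_natDegree_eq F Fintype.one_lt_card]
    exact Finset.card_univ)
  rw [FiniteField.roots_X_pow_card_sub_X] at h2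
  exact h2

lemma gG_mul_gB : gG a₂ a₄ a₆ * gB a₂ a₄ a₆ = (X ^ Fintype.card F - X) ^ 2 := by
  rw [← prod_X_sub_C, gG, gB, ← Finset.prod_mul_distrib, ← Finset.prod_pow]
  refine Finset.prod_congr rfl fun c _ => ?_
  rw [← pow_add]
  have := ec_le (a₂ := a₂) (a₄ := a₄) (a₆ := a₆) c
  congr 1
  omega

lemma gG_dvd : gG a₂ a₄ a₆ ∣ num a₂ a₄ a₆ := by
  refine Finset.prod_dvd_of_coprime (fun c _ c' _ hcc => ?_) fun c _ => ?_
  · exact (pairwise_coprime_X_sub_C (s := fun c : F => c) (fun _ _ h => h) hcc).pow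
  · have h1 : (X - C c) ^ ec a₂ a₄ a₆ c ∣ (X ^ Fintype.card F - X : F[X]) ^ 2 := by
      refine (pow_dvd_pow _ (ec_le c)).trans (pow_dvd_pow_of_dvd ?_ 2)
      rw [← prod_X_sub_C]
      exact Finset.dvd_prod_of_mem _ (Finset.mem_univ c)
    refine dvd_sub ?_ (h1.mul_left _)
    unfold ec
    split_ifs with h h'
    · rw [pow_one]
      exact (dvd_iff_isRoot.mpr h).mul_right _
    · refine (pow_dvd_pow_of_dvd ?_ 2).mul_left _
      rw [dvd_iff_isRoot, IsRoot.def, eval_sub, eval_pow, h', eval_one, sub_self]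
    · rw [pow_zero]
      exact one_dvd _

lemma gG_ne_zero : gG a₂ a₄ a₆ ≠ 0 := by
  unfold gG
  rw [Finset.prod_ne_zero_iff]
  exact fun c _ => pow_ne_zero _ (X_sub_C_ne_zero c)

lemma natDegree_gG : (gG a₂ a₄ a₆).natDegree = ∑ c : F, ec a₂ a₄ a₆ c := by
  unfold gG
  rw [natDegree_prod _ _ fun c _ => pow_ne_zero _ (X_sub_C_ne_zero c)]
  refine Finset.sum_congr rfl fun c _ => ?_
  rw [natDegree_pow, natDegree_X_sub_C, mul_one]

lemma eval_X_pow_card (c : F) : (X ^ Fintype.card F - X : F[X]).eval c = 0 := by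
  rw [eval_sub, eval_pow, eval_X, FiniteField.pow_card, sub_self]

/-- coprimality of the reduced numerator and the reduced denominator -/
lemma coprime_gB (hF : ringChar F ≠ 2) (hsep : (cub a₂ a₄ a₆).Separable) {A : F[X]}
    (hA : num a₂ a₄ a₆ = gG a₂ a₄ a₆ * A) : IsCoprime A (gB a₂ a₄ a₆) := by
  have h2 : (2 : F) ≠ 0 := Ring.two_ne_zero hF
  refine IsCoprime.prod_right fun c _ => ?_
  by_cases h1 : ec a₂ a₄ a₆ c = 2
  · rw [h1, Nat.sub_self, pow_zero]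
    exact isCoprime_one_right
  refine IsCoprime.pow_right ?_
  rw [isCoprime_comm, (prime_X_sub_C c).irreducible.coprime_iff_not_dvd]
  intro hd
  by_cases h3 : (cub a₂ a₄ a₆).eval c = 0
  · have h4 : (X - C c) ^ 2 ∣ num a₂ a₄ a₆ := by
      rw [hA, pow_two]
      refine mul_dvd_mul ?_ hd
      unfold gG
      refine dvd_trans ?_ (Finset.dvd_prod_of_mem _ (Finset.mem_univ c))
      unfold ec
      rw [if_pos h3, pow_one]
    have h5 : (X - C c) ^ 2 ∣ cub a₂ a₄ a₆ * (cub a₂ a₄ a₆ ^ hm F - 1) ^ 2 := by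
      have h6 : (X - C c) ^ 2 ∣ (X ^ Fintype.card F - X : F[X]) ^ 2 :=
        pow_dvd_pow_of_dvd (dvd_iff_isRoot.mpr (eval_X_pow_card c)) 2
      have h7 := dvd_add h4 (h6.mul_left (C a₂ + X ^ Fintype.card F + X))
      unfold num at h7
      rwa [sub_add_cancel] at h7
    have h8 : IsCoprime ((X - C c) ^ 2) ((cub a₂ a₄ a₆ ^ hm F - 1) ^ 2) := by
      refine IsCoprime.pow ?_
      rw [(prime_X_sub_C c).irreducible.coprime_iff_not_dvd, dvd_iff_isRoot, IsRoot.def, eval_sub, eval_pow, h3,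
        eval_one, zero_pow (by have := (card_eq hF).2; omega), zero_sub]
      exact neg_ne_zero.mpr one_ne_zero
    have h9 := h8.dvd_of_dvd_mul_right h5
    have h10 := hsep.squarefree
    rw [pow_two] at h9
    exact (prime_X_sub_C c).not_isUnit (h10 _ h9)
  · have h4 : (cub a₂ a₄ a₆).eval c ^ hm F = -1 := by
      rcases FiniteField.pow_dichotomy hF h3 with h | h
      · exfalso
        apply h1
        unfold ec hm
        rw [if_neg h3, if_pos h]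
      · exact h
    have h5 : (num a₂ a₄ a₆).eval c = 0 := by
      rw [hA, eval_mul, (dvd_iff_isRoot.mp hd).eq_zero, mul_zero]
    unfold num at h5
    rw [eval_sub, eval_mul, eval_pow, eval_sub, eval_pow, h4, eval_mul, eval_pow, eval_X_pow_card, eval_one] at h5
    have h6 : (cub a₂ a₄ a₆).eval c * (2 * 2) = 0 := by linear_combination h5
    exact mul_ne_zero h3 (mul_ne_zero h2 h2) h6

/-- a point of the twisted curve -/
lemma nonsing (hF : ringChar F ≠ 2) (hsep : (cub a₂ a₄ a₆).Separable) {U V : F[X]} (hV : V ≠ 0)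
    (h : cub a₂ a₄ a₆ * V ^ 2 = U ^ 3 + C a₂ * U ^ 2 + C a₄ * U + C a₆) :
    (WW a₂ a₄ a₆).Nonsingular (lam a₂ a₄ a₆ * algebraMap F[X] (FractionRing F[X]) U)
      (lam a₂ a₄ a₆ ^ 2 * algebraMap F[X] (FractionRing F[X]) V) ∧
    2 * (lam a₂ a₄ a₆ ^ 2 * algebraMap F[X] (FractionRing F[X]) V) ≠ 0 := by
  have h2 : (2 : F) ≠ 0 := Ring.two_ne_zero hF
  have hlam := lam_ne_zero hsep
  obtain ⟨φ, hφ⟩ : ∃ φ : F[X] →+* FractionRing F[X], φ = algebraMap F[X] (FractionRing F[X]) := ⟨_, rfl⟩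
  have hinj : Function.Injective φ := hφ ▸ FaithfulSMul.algebraMap_injective F[X] (FractionRing F[X])
  have w2 : (WW a₂ a₄ a₆).a₂ = lam a₂ a₄ a₆ * φ (C a₂) := by rw [hφ]; rfl
  have w4 : (WW a₂ a₄ a₆).a₄ = lam a₂ a₄ a₆ ^ 2 * φ (C a₄) := by rw [hφ]; rfl
  have w6 : (WW a₂ a₄ a₆).a₆ = lam a₂ a₄ a₆ ^ 3 * φ (C a₆) := by rw [hφ]; rfl
  have w1 : (WW a₂ a₄ a₆).a₁ = 0 := rfl
  have w3 : (WW a₂ a₄ a₆).a₃ = 0 := rfl
  have hL : lam a₂ a₄ a₆ = φ (cub a₂ a₄ a₆) := by rw [hφ]; rfl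
  rw [← hφ]
  have h2' : (2 : FractionRing F[X]) ≠ 0 := by
    have e : (2 : FractionRing F[X]) = φ (C 2) := by
      rw [map_ofNat C 2, map_ofNat φ 2]
    rw [e, Ne, map_eq_zero_iff φ hinj, C_eq_zero]
    exact h2
  have hy : 2 * (lam a₂ a₄ a₆ ^ 2 * φ V) ≠ 0 := by
    refine mul_ne_zero h2' (mul_ne_zero (pow_ne_zero 2 hlam) ?_)
    rwa [Ne, map_eq_zero_iff φ hinj]
  refine ⟨?_, hy⟩
  rw [nonsingular_iff]
  constructor
  · rw [equation_iff, w1, w2, w3, w4, w6]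
    have h3 := congrArg φ h
    simp only [map_mul, map_add, map_pow, ← hL] at h3
    linear_combination (lam a₂ a₄ a₆) ^ 3 * h3
  · right
    rw [w1, w3]
    intro h
    apply hy
    linear_combination h

/-- the representation of the sum of the two points -/
lemma rep_sum [DecidableEq (FractionRing F[X])] (hF : ringChar F ≠ 2) (hsep : (cub a₂ a₄ a₆).Separable) {A : F[X]}
    (hA : num a₂ a₄ a₆ = gG a₂ a₄ a₆ * A) {x₀ y₀ x y : FractionRing F[X]}
    (hx₀ : x₀ = lam a₂ a₄ a₆ * algebraMap F[X] (FractionRing F[X]) (X ^ Fintype.card F))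
    (hy₀ : y₀ = lam a₂ a₄ a₆ ^ 2 * algebraMap F[X] (FractionRing F[X]) (cub a₂ a₄ a₆ ^ hm F))
    (hx : x = lam a₂ a₄ a₆ * algebraMap F[X] (FractionRing F[X]) X)
    (hy : y = lam a₂ a₄ a₆ ^ 2 * algebraMap F[X] (FractionRing F[X]) 1)
    (hP : (WW a₂ a₄ a₆).Nonsingular x₀ y₀) (hQ : (WW a₂ a₄ a₆).Nonsingular x y) :
    Rep a₂ a₄ a₆ (Point.some x₀ y₀ hP + Point.some x y hQ) A (gB a₂ a₄ a₆) := by
  refine ⟨coprime_gB hF hsep hA, ?_⟩
  have hlam := lam_ne_zero hsep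
  obtain ⟨φ, hφ⟩ : ∃ φ : F[X] →+* FractionRing F[X], φ = algebraMap F[X] (FractionRing F[X]) := ⟨_, rfl⟩
  have hinj : Function.Injective φ := hφ ▸ FaithfulSMul.algebraMap_injective F[X] (FractionRing F[X])
  have hL : lam a₂ a₄ a₆ = φ (cub a₂ a₄ a₆) := by rw [hφ]; rfl
  rw [← hφ] at hx₀ hy₀ hx hy
  have hden : φ (X ^ Fintype.card F - X) ≠ 0 := by
    rw [Ne, map_eq_zero_iff φ hinj]
    exact FiniteField.X_pow_card_sub_X_ne_zero F Fintype.one_lt_card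
  have hd : x₀ - x = lam a₂ a₄ a₆ * φ (X ^ Fintype.card F - X) := by
    rw [hx₀, hx, map_sub]
    ring
  have hne : x₀ ≠ x := by
    intro h
    rw [← sub_eq_zero, hd] at h
    exact mul_ne_zero hlam hden h
  rw [Point.add_of_X_ne hne, Point.xRep_some, slope_of_X_ne hne, addX]
  have w1 : (WW a₂ a₄ a₆).a₁ = 0 := rfl
  have w2 : (WW a₂ a₄ a₆).a₂ = lam a₂ a₄ a₆ * φ (C a₂) := by rw [hφ]; rfl
  rw [w1, w2, ← hφ]
  have hB0 : gB a₂ a₄ a₆ ≠ 0 := by
    unfold gB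
    rw [Finset.prod_ne_zero_iff]
    exact fun c _ => pow_ne_zero _ (X_sub_C_ne_zero c)
  refine ⟨φ (gB a₂ a₄ a₆), ?_, ?_, ?_⟩
  · rwa [Ne, map_eq_zero_iff φ hinj]
  · rw [Matrix.cons_val_zero]
    have hG0 : φ (gG a₂ a₄ a₆) ≠ 0 := by
      rw [Ne, map_eq_zero_iff φ hinj]
      exact gG_ne_zero
    apply mul_left_cancel₀ hG0
    have e1 : φ (gG a₂ a₄ a₆) * (lam a₂ a₄ a₆ * φ A) = lam a₂ a₄ a₆ * φ (num a₂ a₄ a₆) := by
      rw [hA, map_mul]
      ring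
    have e2 : φ (gG a₂ a₄ a₆) * φ (gB a₂ a₄ a₆) = φ (X ^ Fintype.card F - X) ^ 2 := by
      rw [← map_mul, gG_mul_gB, map_pow]
    rw [e1, ← mul_assoc, e2, hd]
    have e3 : φ (num a₂ a₄ a₆) = φ (cub a₂ a₄ a₆) * (φ (cub a₂ a₄ a₆ ^ hm F) - 1) ^ 2 -
        (φ (C a₂) + φ (X ^ Fintype.card F) + φ X) * φ (X ^ Fintype.card F - X) ^ 2 := by
      unfold num
      simp only [map_sub, map_mul, map_add, map_pow, map_one]
    rw [e3, ← hL, hx₀, hy₀, hx, hy, map_one]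
    generalize φ (X ^ Fintype.card F - X) = D at *
    generalize φ (cub a₂ a₄ a₆ ^ hm F) = g at *
    generalize φ (X ^ Fintype.card F) = U at *
    field_simp
    ring
  · rw [Matrix.cons_val_one, Matrix.cons_val_zero, mul_one]

/-- Hasse's inequality for a cubic without a multiple root -/
theorem hasse_cubic (hF : ringChar F ≠ 2) (hsep : (cub a₂ a₄ a₆).Separable) :
    ((Fintype.card F : ℤ) - ∑ c : F, (ec a₂ a₄ a₆ c : ℤ)) ^ 2 ≤ 4 * Fintype.card F := by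
  have : DecidableEq (FractionRing F[X]) := Classical.decEq _
  have h2 : (2 : F) ≠ 0 := Ring.two_ne_zero hF
  have hlam := lam_ne_zero hsep
  obtain ⟨hq, hm1⟩ := card_eq hF
  obtain ⟨hQ, hQy⟩ := nonsing hF hsep (U := X) (V := 1) one_ne_zero (by unfold cub; ring)
  obtain ⟨hP, -⟩ := nonsing hF hsep (U := X ^ Fintype.card F) (V := cub a₂ a₄ a₆ ^ hm F)
    (pow_ne_zero _ hsep.ne_zero) (cub_pow hF)
  obtain ⟨A, hA⟩ := gG_dvd (a₂ := a₂) (a₄ := a₄) (a₆ := a₆)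
  have hnum := natDegree_num (a₂ := a₂) (a₄ := a₄) (a₆ := a₆) hF
  have hA0 : A ≠ 0 := by
    rintro rfl
    rw [hA, mul_zero, natDegree_zero] at hnum
    omega
  have hAd : (A.natDegree : ℤ) = 2 * Fintype.card F + 1 - ∑ c : F, (ec a₂ a₄ a₆ c : ℤ) := by
    rw [hA, natDegree_mul gG_ne_zero hA0, natDegree_gG] at hnum
    have : (∑ c : F, (ec a₂ a₄ a₆ c : ℤ)) = ((∑ c : F, ec a₂ a₄ a₆ c : ℕ) : ℤ) := by push_cast; rfl
    rw [this]
    omega
  have hrep0 : Rep a₂ a₄ a₆ (Point.some _ _ hP) (X ^ Fintype.card F) 1 := by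
    refine ⟨isCoprime_one_right, 1, one_ne_zero, ?_, ?_⟩
    · rw [Point.xRep_some, Matrix.cons_val_zero, one_mul]
    · rw [Point.xRep_some]
      simp
  have hgood : Good (X ^ Fintype.card F : F[X]) 1 := by
    refine ⟨pow_ne_zero _ X_ne_zero, ?_⟩
    rw [mul_one, natDegree_X, natDegree_X_pow]
    omega
  have hrep1 := rep_sum hF hsep hA rfl rfl rfl rfl hP hQ
  have key := degrees h2 hsep rfl hQ rfl hQy hrep0 hgood hrep1
  have := disc_le (q := Fintype.card F) (by omega) (b := (A.natDegree : ℤ) - Fintype.card F - 1) (fun n => by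
    have := key n
    rwa [natDegree_X_pow] at this)
  rw [hAd] at this
  have e : (2 * (Fintype.card F : ℤ) + 1 - ∑ c : F, (ec a₂ a₄ a₆ c : ℤ) - Fintype.card F - 1) =
    ((Fintype.card F : ℤ) - ∑ c : F, (ec a₂ a₄ a₆ c : ℤ)) := by ring
  rwa [e] at this

end finite

section curve

variable {F : Type*} [Field F] [Fintype F]

/-- Hasse's inequality in odd characteristic -/
theorem hasse_odd (hF : ringChar F ≠ 2) (W : WeierstrassCurve F) (hΔ : W.Δ ≠ 0) :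
    ((Fintype.card F : ℤ) - Nat.card {P : F × F // W.toAffine.Equation P.1 P.2}) ^ 2 ≤ 4 * Fintype.card F := by
  classical
  have h2 : (2 : F) ≠ 0 := Ring.two_ne_zero hF
  have h4 : (4 : F) ≠ 0 := by
    have : (4 : F) = 2 * 2 := by norm_num
    rw [this]
    exact mul_ne_zero h2 h2
  have hsep : (cub (W.b₂ / 4) (W.b₄ / 2) (W.b₆ / 4)).Separable := by
    apply cub_separable
    intro h0
    apply hΔ
    have e : W.Δ = 16 * ((W.b₂ / 4) ^ 2 * (W.b₄ / 2) ^ 2 - 4 * (W.b₄ / 2) ^ 3 - 4 * (W.b₂ / 4) ^ 3 * (W.b₆ / 4) -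
        27 * (W.b₆ / 4) ^ 2 + 18 * (W.b₂ / 4) * (W.b₄ / 2) * (W.b₆ / 4)) := by
      have h8 : W.b₈ = (W.b₂ * W.b₆ - W.b₄ ^ 2) / 4 := by
        rw [← W.b_relation]
        field_simp
      rw [WeierstrassCurve.Δ, h8]
      field_simp
      ring
    rw [e, h0, mul_zero]
  have h1 := hasse_cubic hF hsep
  have h3 : (Nat.card {P : F × F // W.toAffine.Equation P.1 P.2} : ℤ) =
      ∑ c : F, (ec (W.b₂ / 4) (W.b₄ / 2) (W.b₆ / 4) c : ℤ) := by
    rw [Nat.card_eq_fintype_card, Fintype.card_subtype, Finset.card_filter]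
    push_cast
    rw [Fintype.sum_prod_type]
    refine Finset.sum_congr rfl fun x _ => ?_
    rw [← ec_eq hF, Finset.card_filter]
    push_cast
    refine Fintype.sum_equiv (Equiv.addRight ((W.a₁ * x + W.a₃) / 2)) _ _ fun y => ?_
    congr 1
    rw [eq_iff_iff, equation_iff, Equiv.coe_addRight, cub]
    simp only [eval_add, eval_mul, eval_pow, eval_X, eval_C]
    have e : (y + (W.a₁ * x + W.a₃) / 2) ^ 2 - (x ^ 3 + W.b₂ / 4 * x ^ 2 + W.b₄ / 2 * x + W.b₆ / 4) =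
        (y ^ 2 + W.a₁ * x * y + W.a₃ * y) - (x ^ 3 + W.a₂ * x ^ 2 + W.a₄ * x + W.a₆) := by
      rw [WeierstrassCurve.b₂, WeierstrassCurve.b₄, WeierstrassCurve.b₆]
      field_simp
      ring
    rw [← sub_eq_zero, ← e, sub_eq_zero]
  rw [h3]
  exact h1

end curve

/-- **Hasse's inequality** over a prime field -/
theorem hasse (l : ℕ) [Fact l.Prime] (W : WeierstrassCurve (ZMod l)) (hΔ : W.Δ ≠ 0) :
    ((l : ℤ) - Nat.card {P : ZMod l × ZMod l // W.toAffine.Equation P.1 P.2}) ^ 2 ≤ 4 * l := by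
  have hc : Fintype.card (ZMod l) = l := ZMod.card l
  by_cases hl : l = 2
  · subst hl
    have h1 : Nat.card {P : ZMod 2 × ZMod 2 // W.toAffine.Equation P.1 P.2} ≤ 4 := by
      refine (Nat.card_le_card_of_injective _ Subtype.val_injective).trans (le_of_eq ?_)
      rw [Nat.card_prod, Nat.card_zmod]
    push_cast
    have h2 : (0 : ℤ) ≤ (Nat.card {P : ZMod 2 × ZMod 2 // W.toAffine.Equation P.1 P.2} : ℤ) := Nat.cast_nonneg _
    have h3 : (Nat.card {P : ZMod 2 × ZMod 2 // W.toAffine.Equation P.1 P.2} : ℤ) ≤ 4 := by exact_mod_cast h1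
    nlinarith
  · have hF : ringChar (ZMod l) ≠ 2 := by
      rw [ZMod.ringChar_zmod_n]
      exact hl
    have := hasse_odd hF W hΔ
    rwa [hc] at this

end Pool.Agent.MU0.Hasse
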