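import Pool.Agent.MU1.Final

/-!
# Divisibility of a branch of the `p`-adic `L`-function and sums of boundary values over `H`
-/

set_option autoImplicit false

open Finset CongruenceSubgroup
open Pool.Agent.MZ Pool.Agent.MZ.Per
open scoped OnePoint MatrixGroups

namespace Pool.Agent.MU0

open Pool.Agent.MU1 Pool.Agent.MU71

/-- If the branch `L_ψ`, for a character `ψ` with the integral values `s`, lies in
`(p^e, (1 + T)^(p^m) - 1)`, then the differences of the twisted sums over `H` at the level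
`p^(m+1)` are divisible by `p^e`. -/
theorem link_sgn {N : ℕ} [NeZero N] {p : ℕ} [hp : Fact p.Prime] (hp2 : p ≠ 2) (hpN : ¬ p ∣ N)
    (f : CuspForm (Gamma0 N) 2) {a : ℕ → ℤ}
    (ha : ∀ n, (UpperHalfPlane.qExpansion 1 f).coeff n = a n) (ha1 : a 1 = 1)
    (hH : HeckeRel N a) {Ω : ℝ} (hΩ : Ω ≠ 0)
    (hper : {r : ℝ | ∃ γ ∈ Gamma1 N, r = (period f γ).re} = {r : ℝ | ∃ k : ℤ, r = k * Ω})
    {α : ℤ_[p]ˣ} (hα : (α : ℤ_[p]) ^ 2 - (a p : ℤ_[p]) * α + p = 0)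
    (ψ : DirichletCharacter ℤ_[p] p) (hψ : ψ (-1) = 1) (s : (ZMod p)ˣ → ℤ)
    (hs : ∀ x : (ZMod p)ˣ, ψ (x : ZMod p) = (s x : ℤ_[p]))
    {L : PowerSeries ℤ_[p]}
    (hL : IsMSDBr p a Ω α ψ (L.map (algebraMap ℤ_[p] ℚ_[p]))) (e m : ℕ)
    (he : L ∈ Ideal.span {(p : PowerSeries ℤ_[p]) ^ e, (1 + PowerSeries.X) ^ (p ^ m) - 1})
    (q : ℕ) [NeZero q] (hq : q = p ^ (m + 1)) (hpq : p ∣ q) :
    ∃ (κ : ℝ) (Y : (ZMod q)ˣ → ℤ), ∀ b : (ZMod q)ˣ,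
      ∑ ζ ∈ HH p q, (s (ZMod.unitsMap hpq ζ) : ℝ) *
        S f (((((ζ * b : (ZMod q)ˣ) : ZMod q).val : ℚ) / (q : ℚ) : ℚ) : OnePoint ℚ) =
        κ + (p : ℝ) ^ e * Ω * Y b := by
  subst hq
  have hq0 : NeZero (p ^ (m + 1)) := ⟨pow_ne_zero _ hp.out.ne_zero⟩
  obtain ⟨τ, hτ1, hτ2, hτ3⟩ := exists_teich (p := p) m
  -- the integers `t x`
  set t : (ZMod p)ˣ → ℤ := fun x => (((τ x : ZMod (p ^ (m + 1))).val : ℕ) : ℤ) with ht
  have htx : ∀ x : (ZMod p)ˣ, ((t x : ℤ) : ZMod p) = x := by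
    intro x
    have h1 := congrArg (fun z : (ZMod p)ˣ => (z : ZMod p)) (hτ2 x)
    simp only [ZMod.unitsMap_val] at h1
    rw [ht]
    push_cast
    rw [ZMod.natCast_val, h1]
  have ht1 : ∀ x, (p : ℤ) ^ (m + 1) ∣ t x ^ (p - 1) - 1 := by
    intro x
    have h1 : ((t x ^ (p - 1) - 1 : ℤ) : ZMod (p ^ (m + 1))) = 0 := by
      rw [ht]
      push_cast
      rw [ZMod.natCast_zmod_val, ← Units.val_pow_eq_pow_val, hτ1 x, Units.val_one, sub_self]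
    rw [ZMod.intCast_zmod_eq_zero_iff_dvd] at h1
    push_cast at h1
    exact h1
  have htp : ∀ x, ¬ (p : ℤ) ∣ t x := by
    intro x h
    have h1 := (ZMod.intCast_zmod_eq_zero_iff_dvd (t x) p).2 h
    rw [htx x] at h1
    exact x.ne_zero h1
  have hpp : Prime ((p : ℕ) : ℤ) := Nat.prime_iff_prime_int.1 hp.out
  have hbp : ∀ b : (ZMod (p ^ (m + 1)))ˣ, ¬ (p : ℤ) ∣ (((b : ZMod (p ^ (m + 1))).val : ℕ) : ℤ) := by
    intro b h
    have h0 : p ∣ (b : ZMod (p ^ (m + 1))).val := by exact_mod_cast h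
    have h5 := Nat.dvd_gcd h0 (dvd_pow_self p (Nat.succ_ne_zero m))
    rw [(ZMod.val_coe_unit_coprime b)] at h5
    exact hp.out.one_lt.ne' (Nat.dvd_one.1 h5)
  have hV : ∀ (b : (ZMod (p ^ (m + 1)))ˣ) (x : (ZMod p)ˣ), ∃ V : ℤ,
      S f (((((t x * (((b : ZMod (p ^ (m + 1))).val : ℕ) : ℤ) : ℤ) : ℚ) /
        (p : ℚ) ^ (m + 1) : ℚ)) : OnePoint ℚ) -
      S f ((((t x : ℤ) : ℚ) / (p : ℚ) ^ (m + 1) : ℚ) : OnePoint ℚ) = V * Ω := by
    intro b x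
    refine exists_V hpN hper m ?_ (htp x)
    intro h
    rcases hpp.dvd_or_dvd h with h | h
    · exact htp x h
    · exact hbp b h
  choose V hV using hV
  -- the divisibility
  have hdvd : ∀ b : (ZMod (p ^ (m + 1)))ˣ, ∃ y : ℤ, ∑ x : (ZMod p)ˣ, s x * V b x = (p : ℤ) ^ e * y := by
    intro b
    have h1 := wrap hp2 hpN f ha ha1 hH hΩ hper hα hψ hL e m he t htx ht1 _ (hbp b) (V b) (hV b)
    have h2 : ∑ x : (ZMod p)ˣ, ψ (x : ZMod p) * (V b x : ℤ_[p]) =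
        ((∑ x : (ZMod p)ˣ, s x * V b x : ℤ) : ℤ_[p]) := by
      push_cast
      exact Finset.sum_congr rfl fun x _ => by rw [hs x]
    rw [h2] at h1
    exact (PadicInt.pow_p_dvd_int_iff e _).1 h1
  choose Y hY using hdvd
  refine ⟨∑ x : (ZMod p)ˣ, s x *
    S f ((((t x : ℤ) : ℚ) / (p : ℚ) ^ (m + 1) : ℚ) : OnePoint ℚ), Y, fun b => ?_⟩
  have h2 : ∑ ζ ∈ HH p (p ^ (m + 1)), (s (ZMod.unitsMap hpq ζ) : ℝ) *
        S f (((((ζ * b : (ZMod (p ^ (m + 1)))ˣ) : ZMod (p ^ (m + 1))).val : ℚ) /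
        ((p ^ (m + 1) : ℕ) : ℚ) : ℚ) : OnePoint ℚ) =
      ∑ x : (ZMod p)ˣ, (s x : ℝ) *
        S f (((((τ x * b : (ZMod (p ^ (m + 1)))ˣ) : ZMod (p ^ (m + 1))).val : ℚ) /
        ((p ^ (m + 1) : ℕ) : ℚ) : ℚ) : OnePoint ℚ) := by
    refine Finset.sum_bij'
      (fun ζ _ => ZMod.unitsMap hpq ζ)
      (fun x _ => τ x) ?_ ?_ ?_ ?_ ?_
    · intro ζ _
      exact mem_univ _
    · intro x _
      rw [HH, mem_filter]
      exact ⟨mem_univ _, hτ1 x⟩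
    · intro ζ hζ
      rw [HH, mem_filter] at hζ
      exact hτ3 ζ hζ.2
    · intro x _
      exact hτ2 x
    · intro ζ hζ
      rw [HH, mem_filter] at hζ
      rw [hτ3 ζ hζ.2]
  rw [h2]
  have h3 : ∀ x : (ZMod p)ˣ,
      S f (((((τ x * b : (ZMod (p ^ (m + 1)))ˣ) : ZMod (p ^ (m + 1))).val : ℚ) /
        ((p ^ (m + 1) : ℕ) : ℚ) : ℚ) : OnePoint ℚ) =
      S f (((((t x * (((b : ZMod (p ^ (m + 1))).val : ℕ) : ℤ) : ℤ) : ℚ) /
        (p : ℚ) ^ (m + 1) : ℚ)) : OnePoint ℚ) := by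
    intro x
    rw [Units.val_mul, ZMod.val_mul]
    set A : ℕ := (τ x : ZMod (p ^ (m + 1))).val * (b : ZMod (p ^ (m + 1))).val with hA
    have h4 : (t x * (((b : ZMod (p ^ (m + 1))).val : ℕ) : ℤ) : ℤ) = (A : ℤ) := by
      rw [ht, hA]
      push_cast
      rfl
    rw [h4]
    have h5 : ((A : ℤ) : ℚ) / (p : ℚ) ^ (m + 1) =
        ((A % p ^ (m + 1) : ℕ) : ℚ) / ((p ^ (m + 1) : ℕ) : ℚ) +
          (((A / p ^ (m + 1) : ℕ) : ℤ) : ℚ) := by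
      have h6 : (A : ℚ) = ((A % p ^ (m + 1) : ℕ) : ℚ) +
          ((p ^ (m + 1) : ℕ) : ℚ) * ((A / p ^ (m + 1) : ℕ) : ℚ) := by
        exact_mod_cast (Nat.mod_add_div A (p ^ (m + 1))).symm
      have h7 : ((p ^ (m + 1) : ℕ) : ℚ) ≠ 0 := by
        exact_mod_cast hq0.out
      have h8 : (p : ℚ) ^ (m + 1) = ((p ^ (m + 1) : ℕ) : ℚ) := by
        push_cast
        rfl
      rw [h8, Int.cast_natCast, Int.cast_natCast, h6]
      rw [add_div, mul_div_cancel_left₀ _ h7]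
    rw [h5, S, S, bd_add_int]
  simp only [h3]
  have h5 : ∑ x : (ZMod p)ˣ, (s x : ℝ) *
      S f (((((t x * (((b : ZMod (p ^ (m + 1))).val : ℕ) : ℤ) : ℤ) : ℚ) /
        (p : ℚ) ^ (m + 1) : ℚ)) : OnePoint ℚ) -
      ∑ x : (ZMod p)ˣ, (s x : ℝ) *
        S f ((((t x : ℤ) : ℚ) / (p : ℚ) ^ (m + 1) : ℚ) : OnePoint ℚ) =
      Ω * ((∑ x : (ZMod p)ˣ, s x * V b x : ℤ) : ℝ) := by
    rw [← Finset.sum_sub_distrib, Int.cast_sum, Finset.mul_sum]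
    refine Finset.sum_congr rfl fun x _ => ?_
    have h6 := hV b x
    have h7 : ((s x * V b x : ℤ) : ℝ) = (s x : ℝ) * (V b x : ℝ) := Int.cast_mul _ _
    rw [h7]
    linear_combination (s x : ℝ) * h6
  have h8 : (((p : ℤ) ^ e * Y b : ℤ) : ℝ) = (p : ℝ) ^ e * (Y b : ℝ) := by
    rw [Int.cast_mul, Int.cast_pow, Int.cast_natCast]
  rw [hY b, h8] at h5
  linear_combination h5

/-- If the trivial branch `L` lies in `(p^e, (1 + T)^(p^m) - 1)`, then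
`T(b) = κ + p^e Ω Y(b)` with integers `Y(b)`, for all units `b` modulo `q = p^(m+1)`. -/
theorem link_br {N : ℕ} [NeZero N] {p : ℕ} [hp : Fact p.Prime] (hp2 : p ≠ 2) (hpN : ¬ p ∣ N)
    (f : CuspForm (Gamma0 N) 2) {a : ℕ → ℤ}
    (ha : ∀ n, (UpperHalfPlane.qExpansion 1 f).coeff n = a n) (ha1 : a 1 = 1)
    (hH : HeckeRel N a) {Ω : ℝ} (hΩ : Ω ≠ 0)
    (hper : {r : ℝ | ∃ γ ∈ Gamma1 N, r = (period f γ).re} = {r : ℝ | ∃ k : ℤ, r = k * Ω})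
    {α : ℤ_[p]ˣ} (hα : (α : ℤ_[p]) ^ 2 - (a p : ℤ_[p]) * α + p = 0)
    {L : PowerSeries ℤ_[p]}
    (hL : IsMSDBr p a Ω α 1 (L.map (algebraMap ℤ_[p] ℚ_[p]))) (e m : ℕ)
    (he : L ∈ Ideal.span {(p : PowerSeries ℤ_[p]) ^ e, (1 + PowerSeries.X) ^ (p ^ m) - 1})
    (q : ℕ) [NeZero q] (hq : q = p ^ (m + 1)) :
    ∃ (κ : ℝ) (Y : (ZMod q)ˣ → ℤ), ∀ b : (ZMod q)ˣ, TT f p q b = κ + (p : ℝ) ^ e * Ω * Y b := by
  have hpq : p ∣ q := by
    rw [hq]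
    exact dvd_pow_self p (Nat.succ_ne_zero m)
  obtain ⟨κ, Y, hY⟩ := link_sgn hp2 hpN f ha ha1 hH hΩ hper hα 1
    (by
      have : IsUnit (-1 : ZMod p) := isUnit_one.neg
      exact MulChar.one_apply this) (fun _ => 1)
    (fun x => by
      rw [MulChar.one_apply x.isUnit]
      simp) hL e m he q hq hpq
  refine ⟨κ, Y, fun b => ?_⟩
  rw [← hY b, TT]
  refine Finset.sum_congr rfl fun ζ _ => ?_
  simp

/-- the trivial branch is the `p`-adic `L`-function -/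
theorem isMSDBr_of_isMSD {N : ℕ} [NeZero N] {p : ℕ} [hp : Fact p.Prime] (hp2 : p ≠ 2)
    (hpN : ¬ p ∣ N) (f : CuspForm (Gamma0 N) 2) {a : ℕ → ℤ}
    (ha : ∀ n, (UpperHalfPlane.qExpansion 1 f).coeff n = a n) (ha1 : a 1 = 1)
    (hH : HeckeRel N a) {Ω : ℝ} (hΩ : Ω ≠ 0)
    (hper : {r : ℝ | ∃ γ ∈ Gamma1 N, r = (period f γ).re} = {r : ℝ | ∃ k : ℤ, r = k * Ω})
    {α : ℤ_[p]ˣ} (hα : (α : ℤ_[p]) ^ 2 - (a p : ℤ_[p]) * α + p = 0) {L : PowerSeries ℚ_[p]}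
    (hL : IsMSD p a Ω α L) : IsMSDBr p a Ω α 1 L := by
  have hf0 : ∃ τ : UpperHalfPlane, f τ ≠ 0 := by
    by_contra hcon
    push Not at hcon
    have h1 : (f : UpperHalfPlane → ℂ) = 0 := by
      ext τ
      exact hcon τ
    have h2 := ha 1
    rw [h1, UpperHalfPlane.qExpansion_zero, map_zero, ha1] at h2
    norm_num at h2
  obtain ⟨l, hl, -, hl1, hlN, hal⟩ := exists_prime_ne f hf0 (a := fun n => ((a n : ℤ) : ℂ)) ha
    (by
      intro l hl hlN n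
      have := hH l hl hlN n
      rw [← Int.cast_mul, ← this]
      push_cast
      rfl) 0
  set u : ℤ := (l : ℤ) + 1 - a l with hu
  have hu0 : u ≠ 0 := by
    intro h0
    apply hal
    have h1 : a l = (l : ℤ) + 1 := by linarith
    rw [h1]
    push_cast
    rfl
  have hl1' : (N : ℤ) ∣ (l : ℤ) - 1 := by
    have := (Nat.modEq_iff_dvd.1 hl1.symm)
    exact_mod_cast this
  have hper' : ∀ γ ∈ Gamma1 N, (period f γ).re ∈ AddSubgroup.zmultiples Ω := by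
    intro γ hγ
    have h1 : (period f γ).re ∈ {r : ℝ | ∃ k : ℤ, r = k * Ω} := by
      rw [← hper]
      exact ⟨γ, hγ, rfl⟩
    obtain ⟨k, hk⟩ := h1
    rw [AddSubgroup.mem_zmultiples_iff]
    exact ⟨k, by rw [hk, zsmul_eq_mul]⟩
  obtain ⟨φ, hφ, hsign, hhecke⟩ := exists_int_sym f ha hH hΩ hper' hl hl1'
  have hHp : ∀ q : ℕ, q.Prime → ¬ q ∣ N →
      (φ.map (Int.castRingHom ℤ_[p])).HeckeEigen q ((a q : ℤ) : ℤ_[p]) :=
    fun q hq hqN => (hhecke q hq hqN).map _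
  obtain ⟨L₀, hL₀, -⟩ := existsUnique_padicL hp2 (φ.map (Int.castRingHom ℤ_[p])) α _
    (hHp p hp.out hpN) hα
  have hLL := isMSD_unique hp2 hΩ hL
    (isMSD_exists hp2 f ha hα hu0 hφ (hhecke p hp.out hpN) hL₀)
  have hθ : ∀ n, thetaBr (φ.map (Int.castRingHom ℤ_[p])) p α 1 n =
      theta (φ.map (Int.castRingHom ℤ_[p])) p α n := by
    intro n
    rw [thetaBr, theta]
    refine Finset.sum_congr rfl fun x hx => Finset.sum_congr rfl fun j _ => ?_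
    rw [Finset.mem_filter] at hx
    have hxu : IsUnit (x : ZMod p) := by
      rw [ZMod.isUnit_iff_coprime]
      exact ((Nat.Prime.coprime_iff_not_dvd hp.out).2 hx.2).symm
    rw [MulChar.one_apply hxu, one_mul]
  have hBr : IsPadicLBr (φ.map (Int.castRingHom ℤ_[p])) p α 1 L₀ := by
    intro n
    rw [hθ n]
    exact hL₀ n
  have h1 : (1 : DirichletCharacter ℤ_[p] p) (-1) = 1 := MulChar.one_apply isUnit_one.neg
  rw [hLL]
  exact isMSDBr_exists hp2 f ha hα hu0 hφ (hhecke p hp.out hpN) h1 hBr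

/-- **LINK0.** If all coefficients of the `p`-adic `L`-function are divisible by `p`, then
`T(b) = κ + p Ω Y(b)` with integers `Y(b)`. -/
theorem link0 {N : ℕ} [NeZero N] (f : CuspForm (Gamma0 N) 2) {a : ℕ → ℤ}
    (ha : ∀ n, (UpperHalfPlane.qExpansion 1 f).coeff n = a n) (ha1 : a 1 = 1)
    (hH : HeckeRel N a) {Ω : ℝ} (hΩ : Ω ≠ 0)
    (hper : {r : ℝ | ∃ γ ∈ Gamma1 N, r = (period f γ).re} = {r : ℝ | ∃ k : ℤ, r = k * Ω}) :
    ∃ p₀ : ℕ, ∀ (p : ℕ) [Fact p.Prime], p₀ ≤ p → ∀ α : ℤ_[p]ˣ,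
      (α : ℤ_[p]) ^ 2 - (a p : ℤ_[p]) * α + p = 0 → ∀ L : PowerSeries ℚ_[p], IsMSD p a Ω α L →
      (∀ i, ‖PowerSeries.coeff i L‖ < 1) → ∀ (n q : ℕ) [NeZero q], 1 ≤ n → q = p ^ n →
      ∃ (κ : ℝ) (Y : (ZMod q)ˣ → ℤ), ∀ b, TT f p q b = κ + p * Ω * Y b := by
  refine ⟨N + 3, ?_⟩
  intro p hp hp0 α hα L hL hlt n q _ hn hq
  have hp2 : p ≠ 2 := by omega
  have hpN : ¬ p ∣ N := by
    intro h
    have := Nat.le_of_dvd (Nat.pos_of_ne_zero (NeZero.ne N)) h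
    omega
  obtain ⟨m, rfl⟩ : ∃ m, n = m + 1 := ⟨n - 1, by omega⟩
  -- the integral series
  have hc : ∀ i : ℕ, ∃ z : ℤ_[p], ((p * z : ℤ_[p]) : ℚ_[p]) = PowerSeries.coeff i L := by
    intro i
    set x : ℤ_[p] := ⟨PowerSeries.coeff i L, (hlt i).le⟩ with hx
    have h1 : ‖x‖ < 1 := hlt i
    rw [PadicInt.norm_lt_one_iff_dvd] at h1
    obtain ⟨z, hz⟩ := h1
    exact ⟨z, by rw [← hz]⟩
  choose c hc using hc
  set L' : PowerSeries ℤ_[p] := PowerSeries.mk (fun i => (p : ℤ_[p]) * c i) with hL'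
  have hmap : L'.map (algebraMap ℤ_[p] ℚ_[p]) = L := by
    ext i
    rw [PowerSeries.coeff_map, hL', PowerSeries.coeff_mk]
    exact hc i
  have hmem : L' ∈ Ideal.span {(p : PowerSeries ℤ_[p]) ^ 1, (1 + PowerSeries.X) ^ (p ^ m) - 1} := by
    have h1 : L' = (p : PowerSeries ℤ_[p]) ^ 1 * PowerSeries.mk c := by
      ext i
      have h2 : (p : PowerSeries ℤ_[p]) = PowerSeries.C (p : ℤ_[p]) := by rw [map_natCast]
      rw [hL', PowerSeries.coeff_mk, pow_one, h2, PowerSeries.coeff_C_mul, PowerSeries.coeff_mk]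
    rw [h1]
    exact Ideal.mul_mem_right _ _ (Ideal.subset_span (by simp))
  obtain ⟨κ, Y, hY⟩ := link_br hp2 hpN f ha ha1 hH hΩ hper hα (L := L')
    (by rw [hmap]; exact isMSDBr_of_isMSD hp2 hpN f ha ha1 hH hΩ hper hα hL) 1 m hmem q hq
  exact ⟨κ, Y, fun b => by rw [hY b, pow_one]⟩

open Classical in
/-- The algebraic side of the vanishing of the `μ`-invariants: for all large ordinary primes the
even branches `L_ψ` exist, are unique and integral, and if `L_ψ ∈ (p^e, (1 + T)^(p^m) - 1)` for a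
character `ψ` with integral values `s`, then the twisted sums over `H` at the level `p^(m+1)` are
congruent modulo `p^e q Ω`, the period lattice being `q Ω ℤ`. -/
theorem alg_side {N : ℕ} [NeZero N] (f : CuspForm (Gamma0 N) 2) {a : ℕ → ℤ}
    (ha : ∀ n, (UpperHalfPlane.qExpansion 1 f).coeff n = a n) (ha1 : a 1 = 1)
    (hH : HeckeRel N a) {Ω : ℝ} (hΩ : Ω ≠ 0) (q : ℚ) (hq : q ≠ 0)
    (hper : {r : ℝ | ∃ γ ∈ Gamma1 N, r = (period f γ).re} =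
      {r : ℝ | ∃ k : ℤ, r = k * (q * Ω)}) :
    ∃ p₁ : ℕ, ∀ (p : ℕ) [Fact p.Prime], p₁ ≤ p → ¬ (p : ℤ) ∣ a p →
      ∃ α : ℤ_[p]ˣ, (α : ℤ_[p]) ^ 2 - (a p : ℤ_[p]) * α + p = 0 ∧
        ∃ L : DirichletCharacter ℤ_[p] p → PowerSeries ℤ_[p],
          (∀ ψ : DirichletCharacter ℤ_[p] p, ψ (-1) = 1 → ∀ L', IsMSDBr p a Ω α ψ L' ↔
            L' = (L ψ).map (algebraMap ℤ_[p] ℚ_[p])) ∧
          ∀ ψ : DirichletCharacter ℤ_[p] p, ψ (-1) = 1 → ∀ s : (ZMod p)ˣ → ℤ,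
            (∀ x : (ZMod p)ˣ, ψ (x : ZMod p) = (s x : ℤ_[p])) → ∀ e m : ℕ,
            L ψ ∈ Ideal.span {(p : PowerSeries ℤ_[p]) ^ e, (1 + PowerSeries.X) ^ (p ^ m) - 1} →
            ∀ (Q : ℕ) [NeZero Q], Q = p ^ (m + 1) → ∀ hpQ : p ∣ Q,
            ∃ (κ : ℝ) (Y : (ZMod Q)ˣ → ℤ), ∀ b : (ZMod Q)ˣ,
              ∑ ζ ∈ HH p Q, (s (ZMod.unitsMap hpQ ζ) : ℝ) *
                S f (((((ζ * b : (ZMod Q)ˣ) : ZMod Q).val : ℚ) / (Q : ℚ) : ℚ) : OnePoint ℚ) =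
                κ + (p : ℝ) ^ e * (q * Ω) * Y b := by
  have hqR : (q : ℝ) ≠ 0 := by exact_mod_cast hq
  have hqΩ : (q : ℝ) * Ω ≠ 0 := mul_ne_zero hqR hΩ
  refine ⟨N + 4 + q.num.natAbs + q.den, ?_⟩
  intro p hp hpp₁ hord
  have hp2 : p ≠ 2 := by omega
  have hN0 : N ≠ 0 := NeZero.ne N
  have hpN : ¬ p ∣ N := by
    intro h
    have := Nat.le_of_dvd (Nat.pos_of_ne_zero hN0) h
    omega
  obtain ⟨α, hα, L₁, hL₁, -⟩ := mainBr hN0 hp2 hpN f ha ha1 hH hord hqΩ hper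
  refine ⟨α, hα, ?_⟩
  -- `q` is a `p`-adic unit
  have hqn : ‖(q : ℚ_[p])‖ = 1 := by
    have h1 : ‖(q.num : ℚ_[p])‖ = 1 := by
      rw [Padic.norm_intCast_eq_one_iff, Int.isCoprime_iff_gcd_eq_one, Int.gcd_comm]
      rw [← Int.isCoprime_iff_gcd_eq_one, Prime.coprime_iff_not_dvd (Nat.prime_iff_prime_int.1 hp.out)]
      intro h
      have h2 := Int.natAbs_dvd_natAbs.2 h
      have h3 := Nat.le_of_dvd (Int.natAbs_pos.2 (Rat.num_ne_zero.2 hq)) h2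
      rw [Int.natAbs_natCast] at h3
      omega
    have h2 : ‖(q.den : ℚ_[p])‖ = 1 := by
      rw [Padic.norm_natCast_eq_one_iff, Nat.Prime.coprime_iff_not_dvd hp.out]
      intro h
      have h3 := Nat.le_of_dvd q.den_pos h
      omega
    have h3 : (q : ℚ_[p]) = (q.num : ℚ_[p]) / (q.den : ℚ_[p]) := by
      exact_mod_cast (congrArg (fun z : ℚ => (z : ℚ_[p])) (Rat.num_div_den q)).symm
    rw [h3, norm_div, h1, h2, div_one]
  set qz : ℤ_[p] := ⟨(q : ℚ_[p]), hqn.le⟩ with hqz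
  have hqu : IsUnit qz := PadicInt.isUnit_iff.2 hqn
  -- integral series
  have hLn : ∀ ψ : DirichletCharacter ℤ_[p] p, ∃ M : PowerSeries ℤ_[p],
      ψ (-1) = 1 → M.map (algebraMap ℤ_[p] ℚ_[p]) = L₁ ψ := by
    intro ψ
    by_cases hψ : ψ (-1) = 1
    · have hc : ∀ i : ℕ, ∃ z : ℤ_[p], (z : ℚ_[p]) = PowerSeries.coeff i (L₁ ψ) :=
        fun i => ⟨⟨PowerSeries.coeff i (L₁ ψ), (hL₁ ψ hψ).2.2 i⟩, rfl⟩
      choose c hc using hc
      refine ⟨PowerSeries.mk c, fun _ => ?_⟩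
      ext i
      rw [PowerSeries.coeff_map, PowerSeries.coeff_mk]
      exact hc i
    · exact ⟨0, fun h => absurd h hψ⟩
  choose M hM using hLn
  have hmap : ∀ ψ : DirichletCharacter ℤ_[p] p, ψ (-1) = 1 →
      (PowerSeries.C qz * M ψ).map (algebraMap ℤ_[p] ℚ_[p]) =
        PowerSeries.C (q : ℚ_[p]) * L₁ ψ := by
    intro ψ hψ
    rw [map_mul, PowerSeries.map_C, hM ψ hψ]
    rfl
  refine ⟨fun ψ => PowerSeries.C qz * M ψ, ?_, ?_⟩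
  · intro ψ hψ L'
    have h1 : IsMSDBr p a Ω α ψ ((PowerSeries.C qz * M ψ).map (algebraMap ℤ_[p] ℚ_[p])) := by
      rw [hmap ψ hψ]
      exact (hL₁ ψ hψ).1.scale
    exact ⟨fun hL' => isMSDBr_unique hp2 hΩ hψ hL' h1, fun h => h ▸ h1⟩
  · intro ψ hψ s hs e m he Q _ hQ hpQ
    have hmem : M ψ ∈ Ideal.span {(p : PowerSeries ℤ_[p]) ^ e,
        (1 + PowerSeries.X) ^ (p ^ m) - 1} := by
      obtain ⟨v, hv⟩ := hqu
      have h1 := Ideal.mul_mem_left _ (PowerSeries.C ((v⁻¹ : ℤ_[p]ˣ) : ℤ_[p])) he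
      rw [← hv, ← mul_assoc, ← map_mul, Units.inv_mul, map_one, one_mul] at h1
      exact h1
    exact link_sgn hp2 hpN f ha ha1 hH hqΩ hper hα ψ hψ s hs
      (by rw [hM ψ hψ]; exact (hL₁ ψ hψ).1) e m hmem Q hQ hpQ

end Pool.Agent.MU0
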