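import Pool.Agent.MU0.Fin2
import Pool.Agent.MU0.Link0
import Pool.Agent.MU0.Hasse
import Pool.Agent.MU71.Cor

/-!
# The `μ`-invariant of the `p`-adic `L`-function vanishes for all large `p`
-/

set_option autoImplicit false

open Finset CongruenceSubgroup Filter
open Pool.Agent.MZ Pool.Agent.MZ.Per Pool.Agent.MU1
open scoped Real

namespace Pool.Agent.MU0

/-- the trivial branch is characterised by the characters of `p`-power order -/
theorem isMSD_iff_br {p : ℕ} [hp : Fact p.Prime] (a : ℕ → ℤ) (Ω : ℝ) (α : ℤ_[p]ˣ)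
    (L : PowerSeries ℚ_[p]) : IsMSD p a Ω α L ↔ IsMSDBr p a Ω α 1 L := by
  have hunit : ∀ {n b : ℕ}, b ^ (p - 1) ≡ 1 [MOD p ^ (n + 1)] →
      IsUnit (b : ZMod (p ^ (n + 1))) ∧ IsUnit (b : ZMod p) := by
    intro n b hb
    have h1 : (b : ZMod (p ^ (n + 1))) ^ (p - 1) = 1 := by
      have := (ZMod.natCast_eq_natCast_iff _ _ _).2 hb
      push_cast at this
      exact this
    have hp1 : p - 1 ≠ 0 := by
      have := hp.out.two_le
      omega
    have h2 : IsUnit (b : ZMod (p ^ (n + 1))) := by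
      rw [← isUnit_pow_iff hp1, h1]
      exact isUnit_one
    refine ⟨h2, ?_⟩
    rw [ZMod.isUnit_iff_coprime] at h2 ⊢
    exact Nat.Coprime.coprime_dvd_right (dvd_pow_self p (Nat.succ_ne_zero n)) h2
  constructor
  · intro h
    refine ⟨h.bdd, fun _ => h.one, ?_⟩
    intro n χ hχ j hj
    refine h.chi n χ hχ ⟨n, ?_⟩ j
    have hm : NeZero (p ^ (n + 1)) := ⟨pow_ne_zero _ hp.out.ne_zero⟩
    refine MulChar.ext fun u => ?_
    rw [MulChar.pow_apply_coe, MulChar.one_apply_coe, ← map_pow]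
    have h1 : ((u : ZMod (p ^ (n + 1))) ^ (p ^ n)) =
        ((((u : ZMod (p ^ (n + 1))) ^ (p ^ n)).val : ℕ) : ZMod (p ^ (n + 1))) := by
      rw [ZMod.natCast_zmod_val]
    have h2 : ((((u : ZMod (p ^ (n + 1))) ^ (p ^ n)).val : ℕ)) ^ (p - 1) ≡ 1 [MOD p ^ (n + 1)] := by
      rw [← ZMod.natCast_eq_natCast_iff]
      push_cast
      rw [ZMod.natCast_zmod_val, ← pow_mul, ← Units.val_pow_eq_pow_val]
      have h3 : p ^ n * (p - 1) = Nat.totient (p ^ (n + 1)) :=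
        (Nat.totient_prime_pow_succ hp.out n).symm
      rw [h3, ZMod.pow_totient, Units.val_one]
    have h4 := hj _ h2
    rw [MulChar.one_apply (hunit h2).2] at h4
    rw [h1]
    apply j.injective
    rw [h4]
    simp
  · intro h
    refine ⟨h.bdd, h.one rfl, ?_⟩
    rintro n χ hχ ⟨k, hk⟩ j
    refine h.chi n χ hχ j ?_
    intro b hb
    obtain ⟨h1, h2⟩ := hunit hb
    rw [MulChar.one_apply h2]
    have h3 : χ (b : ZMod (p ^ (n + 1))) = 1 := by
      have e1 : χ (b : ZMod (p ^ (n + 1))) ^ (p - 1) = 1 := by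
        rw [← map_pow]
        have := (ZMod.natCast_eq_natCast_iff _ _ _).2 hb
        push_cast at this
        rw [this, map_one]
      have e2 : χ (b : ZMod (p ^ (n + 1))) ^ (p ^ k) = 1 := by
        have h4 : (χ ^ (p ^ k)) (b : ZMod (p ^ (n + 1))) = 1 := by
          rw [hk]
          exact MulChar.one_apply h1
        rwa [MulChar.pow_apply' _ (pow_ne_zero _ hp.out.ne_zero)] at h4
      have e3 : Nat.Coprime (p - 1) (p ^ k) := by
        apply Nat.Coprime.pow_right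
        rw [Nat.coprime_comm, Nat.Prime.coprime_iff_not_dvd hp.out]
        intro h5
        have := hp.out.two_le
        have := Nat.le_of_dvd (by omega) h5
        omega
      have e4 := orderOf_dvd_of_pow_eq_one e1
      have e5 := orderOf_dvd_of_pow_eq_one e2
      have e6 := Nat.dvd_gcd e4 e5
      rw [Nat.Coprime.gcd_eq_one e3, Nat.dvd_one, orderOf_eq_one_iff] at e6
      exact e6
    rw [h3]
    simp

/-- **The `μ`-invariant vanishes for all large `p`.** -/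
theorem mu_zero {N : ℕ} [NeZero N] (f : CuspForm (Gamma0 N) 2) {a : ℕ → ℤ} (hf : Frm f a)
    {Ω : ℝ} (hΩ : Ω ≠ 0) (q : ℚ) (hq : q ≠ 0)
    (hper : {r : ℝ | ∃ γ ∈ Gamma1 N, r = (period f γ).re} =
      {r : ℝ | ∃ k : ℤ, r = k * (q * Ω)}) :
    ∃ (c : ℝ) (p₀ : ℕ), 0 < c ∧ ∀ (p : ℕ) [Fact p.Prime], p₀ ≤ p → ¬ (p : ℤ) ∣ a p →
      ∃ α : ℤ_[p]ˣ, (α : ℤ_[p]) ^ 2 - (a p : ℤ_[p]) * α + p = 0 ∧
        ∃ L : PowerSeries ℤ_[p],
          (∀ L', IsMSD p a Ω α L' ↔ L' = L.map (algebraMap ℤ_[p] ℚ_[p])) ∧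
          ∃ i : ℕ, (i : ℝ) < (p : ℝ) ^ ((p : ℝ) ^ (1 - c)) ∧ IsUnit (PowerSeries.coeff i L) := by
  have hqΩ : (q : ℝ) * Ω ≠ 0 := mul_ne_zero (by exact_mod_cast hq) hΩ
  obtain ⟨w, hw0, hw1, p₀, h₀⟩ := mu0_core f hf hqΩ
  obtain ⟨p₁, h₁⟩ := alg_side f hf.coeff hf.one hf.hecke.rel hΩ q hq hper
  obtain ⟨p₂, h₂⟩ := eventually_atTop.1 (fin_ev0 4 (w / 2) (by positivity))
  refine ⟨w / 2, max p₀ (max p₁ (max p₂ 3)), by positivity, ?_⟩
  intro p hpF hp hord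
  have hp₀ : p₀ ≤ p := (le_max_left _ _).trans hp
  have hp := (le_max_right _ _).trans hp
  have hp₁ : p₁ ≤ p := (le_max_left _ _).trans hp
  have hp := (le_max_right _ _).trans hp
  have hp₂ : p₂ ≤ p := (le_max_left _ _).trans hp
  have hp3 : 3 ≤ p := (le_max_right _ _).trans hp
  have hpp : p.Prime := hpF.out
  have hP0 : (0 : ℝ) < p := by exact_mod_cast hpp.pos
  have hP1 : (1 : ℝ) < p := by exact_mod_cast hpp.one_lt
  obtain ⟨α, hα, L, hL, hmain⟩ := h₁ p hp₁ hord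
  have hψ : (1 : DirichletCharacter ℤ_[p] p) (-1) = 1 := MulChar.one_apply isUnit_one.neg
  refine ⟨α, hα, L 1, fun L' => by rw [isMSD_iff_br]; exact hL 1 hψ L', ?_⟩
  set m : ℕ := nn w p - 1 with hm
  have hceil : 1 ≤ ⌈(p : ℝ) ^ (1 - w)⌉₊ := Nat.one_le_ceil_iff.2 (Real.rpow_pos_of_pos hP0 _)
  have hnn : nn w p = m + 1 := by
    rw [hm, nn]
    omega
  have hex : ∃ i < p ^ m, IsUnit (PowerSeries.coeff i (L 1)) := by
    by_contra hcon
    push Not at hcon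
    have hmem := Pool.Agent.MU71.mem_of_coeff m (L 1) hcon
    have hNZ : NeZero (p ^ (m + 1)) := ⟨pow_ne_zero _ hpp.ne_zero⟩
    obtain ⟨κ, Y, hY⟩ := hmain 1 hψ (fun _ => 1) (by
      intro x
      rw [MulChar.one_apply x.isUnit]
      simp) 1 m hmem (p ^ (m + 1)) rfl (dvd_pow_self p (Nat.succ_ne_zero m))
    refine h₀ p hp₀ hpp (p ^ (m + 1)) (by rw [hnn]) ⟨κ, Y, fun b => ?_⟩
    have h1 := hY b
    rw [pow_one] at h1
    rw [← h1, TT]
    refine Finset.sum_congr rfl fun ζ _ => ?_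
    simp
  obtain ⟨i, hi, hu⟩ := hex
  refine ⟨i, ?_, hu⟩
  have h1 : (i : ℝ) < (p : ℝ) ^ m := by exact_mod_cast hi
  refine h1.trans_le ?_
  rw [← Real.rpow_natCast (p : ℝ) m]
  apply Real.rpow_le_rpow_of_exponent_le hP1.le
  -- `m ≤ p ^ (1 - w / 2)`
  have h2 : (m : ℝ) ≤ 2 * (p : ℝ) ^ (1 - w) + 1 := by
    have e1 : ((m + 1 : ℕ) : ℝ) = 2 * (⌈(p : ℝ) ^ (1 - w)⌉₊ : ℝ) := by
      rw [← hnn, nn]
      push_cast
      ring
    have e2 := (Nat.ceil_lt_add_one (Real.rpow_nonneg hP0.le (1 - w))).le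
    push_cast at e1
    linarith
  have h3 : (1 : ℝ) ≤ (p : ℝ) ^ (1 - w) := Real.one_le_rpow hP1.le (by linarith)
  have h4 : (4 : ℝ) ≤ (p : ℝ) ^ (w / 2) := h₂ p hp₂
  have h5 : (p : ℝ) ^ (1 - w / 2) = (p : ℝ) ^ (1 - w) * (p : ℝ) ^ (w / 2) := by
    rw [← Real.rpow_add hP0]
    congr 1
    ring
  rw [h5]
  nlinarith

end Pool.Agent.MU0
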