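import Pool.Agent.MU1.Wrap
import Mathlib.GroupTheory.Archimedean
import Mathlib.GroupTheory.Schreier

/-!
# Periods whose real parts are rational multiples of `Ω`
-/

set_option autoImplicit false

open UpperHalfPlane hiding I
open CongruenceSubgroup Finset
open Pool.Agent.MZ Pool.Agent.MZ.Per Pool.Agent.MU1
open scoped MatrixGroups Real OnePoint

namespace Pool.Agent.MU0

variable {N : ℕ} [NeZero N]

theorem per_mul (f : CuspForm (Gamma0 N) 2) {γ : SL(2, ℤ)} (δ : SL(2, ℤ)) (hγ : γ ∈ Gamma0 N) :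
    period f (γ * δ) = period f γ + period f δ := by
  rw [period_eq, period_eq, period_eq, mul_smul, G_smul f hγ (δ • UpperHalfPlane.I)]
  ring

/-- The homomorphism `γ ↦ Re (period f γ)`. -/
noncomputable def perHom (f : CuspForm (Gamma0 N) 2) : Gamma1 N →* Multiplicative ℝ :=
  MonoidHom.mk' (fun γ => Multiplicative.ofAdd (period f (γ : SL(2, ℤ))).re) (by
    intro γ δ
    rw [← ofAdd_add, ← Complex.add_re, Subgroup.coe_mul,
      per_mul f _ (Gamma1_in_Gamma0 N γ.2)])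

theorem fg_Gamma1 : Group.FG (Gamma1 N) := by
  have h : Group.FG SL(2, ℤ) := by
    classical
    rw [Group.fg_def]
    refine ⟨{ModularGroup.S, ModularGroup.T}, ?_⟩
    simpa using SpecialLinearGroup.SL2Z_generators
  exact Subgroup.fg_of_index_ne_zero (Gamma1 N)

/-- If the real parts of the periods over `Γ₁(N)` are rational multiples of `Ω`, then they are the
numbers `k q Ω`, `k ∈ ℤ`, for a rational number `q`. -/
theorem per_of_rat (f : CuspForm (Gamma0 N) 2) {Ω : ℝ}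
    (hrat : ∀ γ ∈ Gamma1 N, ∃ r : ℚ, (period f γ).re = r * Ω) :
    ∃ q : ℚ, {r : ℝ | ∃ γ ∈ Gamma1 N, r = (period f γ).re} =
      {r : ℝ | ∃ k : ℤ, r = k * (q * Ω)} := by
  classical
  obtain ⟨s, hs⟩ := Group.fg_def.1 (fg_Gamma1 (N := N))
  have hr : ∀ γ : Gamma1 N, ∃ r : ℚ, (period f (γ : SL(2, ℤ))).re = r * Ω :=
    fun γ => hrat γ γ.2
  choose r hr using hr
  set D : ℕ := ∏ γ ∈ s, (r γ).den with hD
  have hD0 : D ≠ 0 := Finset.prod_ne_zero_iff.2 fun γ _ => (r γ).den_nz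
  have hD0' : (D : ℝ) ≠ 0 := by exact_mod_cast hD0
  set A : AddSubgroup ℝ := AddSubgroup.zmultiples (Ω / D) with hA
  have hmem : ∀ γ : Gamma1 N, (period f (γ : SL(2, ℤ))).re ∈ A := by
    have h1 : Subgroup.closure (s : Set (Gamma1 N)) ≤
        (AddSubgroup.toSubgroup A).comap (perHom f) := by
      rw [Subgroup.closure_le]
      intro γ hγ
      change (period f (γ : SL(2, ℤ))).re ∈ A
      obtain ⟨D', hD'⟩ : (r γ).den ∣ D := Finset.dvd_prod_of_mem _ hγ
      rw [hA, AddSubgroup.mem_zmultiples_iff]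
      refine ⟨(r γ).num * D', ?_⟩
      rw [hr γ, zsmul_eq_mul]
      have hden : ((r γ).den : ℝ) ≠ 0 := by exact_mod_cast (r γ).den_nz
      have h2 : ((r γ : ℚ) : ℝ) = (r γ).num / (r γ).den := by
        exact_mod_cast congrArg (fun x : ℚ => (x : ℝ)) (Rat.num_div_den (r γ)).symm
      have h3 : (D : ℝ) = (r γ).den * D' := by exact_mod_cast hD'
      have hD'0 : (D' : ℝ) ≠ 0 := by
        intro h
        rw [h, mul_zero] at h3
        exact hD0' h3
      rw [h2, h3]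
      push_cast
      field_simp
    intro γ
    have h2 : γ ∈ Subgroup.closure (s : Set (Gamma1 N)) := by rw [hs]; exact Subgroup.mem_top γ
    exact h1 h2
  -- the subgroup of `ℤ`
  let K : AddSubgroup ℤ :=
    { carrier := {k | ∃ γ : Gamma1 N, (period f (γ : SL(2, ℤ))).re = k * (Ω / D)}
      zero_mem' := ⟨1, by
        have h := (perHom f).map_one
        have h' : (period f ((1 : Gamma1 N) : SL(2, ℤ))).re = 0 := h
        rw [h']
        simp⟩
      add_mem' := by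
        rintro a b ⟨γ, hγ⟩ ⟨δ, hδ⟩
        refine ⟨γ * δ, ?_⟩
        rw [Subgroup.coe_mul, per_mul f _ (Gamma1_in_Gamma0 N γ.2), Complex.add_re, hγ, hδ]
        push_cast
        ring
      neg_mem' := by
        rintro a ⟨γ, hγ⟩
        refine ⟨γ⁻¹, ?_⟩
        have h := (perHom f).map_inv γ
        have h' : (period f ((γ⁻¹ : Gamma1 N) : SL(2, ℤ))).re =
          -(period f (γ : SL(2, ℤ))).re := h
        rw [h', hγ]
        push_cast
        ring }
  obtain ⟨g, hg⟩ := Int.subgroup_cyclic K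
  refine ⟨(g : ℚ) / D, ?_⟩
  ext x
  simp only [Set.mem_ofPred_eq]
  constructor
  · rintro ⟨γ, hγ, rfl⟩
    obtain ⟨k, hk⟩ := AddSubgroup.mem_zmultiples_iff.1 (hmem ⟨γ, hγ⟩)
    have hk' : (period f γ).re = k * (Ω / D) := by
      rw [← hk, zsmul_eq_mul]
    have hkK : k ∈ K := ⟨⟨γ, hγ⟩, hk'⟩
    rw [hg, AddSubgroup.mem_closure_singleton] at hkK
    obtain ⟨m, hm⟩ := hkK
    refine ⟨m, ?_⟩
    rw [hk', ← hm, smul_eq_mul]
    push_cast
    ring
  · rintro ⟨m, rfl⟩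
    have hmK : m * g ∈ K := by
      rw [hg, AddSubgroup.mem_closure_singleton]
      exact ⟨m, by simp⟩
    obtain ⟨γ, hγ⟩ := hmK
    refine ⟨γ, γ.2, ?_⟩
    rw [hγ]
    push_cast
    ring

/-- If the real parts of the periods over `Γ₁(N)` are zero, then `T` is constant. -/
theorem TT_const (f : CuspForm (Gamma0 N) 2) {p : ℕ} [hp : Fact p.Prime] (hpN : ¬ p ∣ N)
    (h0 : {r : ℝ | ∃ γ ∈ Gamma1 N, r = (period f γ).re} = {r : ℝ | ∃ k : ℤ, r = k * 0})
    {m : ℕ} (q : ℕ) [NeZero q] (hq : q = p ^ (m + 1)) :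
    ∃ κ : ℝ, ∀ b : (ZMod q)ˣ, TT f p q b = κ := by
  subst hq
  refine ⟨∑ ζ ∈ HH p (p ^ (m + 1)), S f (((((1 : ℤ) : ℚ) / (p : ℚ) ^ (m + 1) : ℚ)) : OnePoint ℚ),
    fun b => ?_⟩
  rw [TT]
  refine Finset.sum_congr rfl fun ζ _ => ?_
  have hx : ¬ (p : ℤ) ∣ ((((ζ * b : (ZMod (p ^ (m + 1)))ˣ) : ZMod (p ^ (m + 1))).val : ℕ) : ℤ) := by
    intro h
    have h1 : p ∣ ((ζ * b : (ZMod (p ^ (m + 1)))ˣ) : ZMod (p ^ (m + 1))).val := by exact_mod_cast h
    have h5 := Nat.dvd_gcd h1 (dvd_pow_self p (Nat.succ_ne_zero m))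
    rw [ZMod.val_coe_unit_coprime (ζ * b)] at h5
    exact hp.out.one_lt.ne' (Nat.dvd_one.1 h5)
  have hy : ¬ (p : ℤ) ∣ 1 := by
    intro h
    have h1 := Int.le_of_dvd one_pos h
    have := hp.out.two_le
    omega
  obtain ⟨V, hV⟩ := Pool.Agent.MU71.exists_V hpN h0 m hx hy
  rw [mul_zero, sub_eq_zero] at hV
  rw [← hV]
  congr 2
  push_cast
  rfl

end Pool.Agent.MU0
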