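import Pool.Agent.MU0.Fin3
import Pool.Agent.MU0.Per5

/-!
# The vanishing of the `μ`-invariant for a period `Ω` commensurable with the real periods
-/

set_option autoImplicit false

open Finset CongruenceSubgroup Filter
open Pool.Agent.MZ Pool.Agent.MZ.Per Pool.Agent.MU1
open scoped Real

namespace Pool.Agent.MU0

/-- The rational number `q` of `per_of_rat` is not zero for an eigenform. -/
theorem per_rat {N : ℕ} [NeZero N] (f : CuspForm (Gamma0 N) 2) {a : ℕ → ℤ} (hf : Frm f a)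
    {Ω : ℝ} (hrat : ∀ γ ∈ Gamma1 N, ∃ r : ℚ, (period f γ).re = r * Ω) :
    ∃ q : ℚ, q ≠ 0 ∧ {r : ℝ | ∃ γ ∈ Gamma1 N, r = (period f γ).re} =
      {r : ℝ | ∃ k : ℤ, r = k * (q * Ω)} := by
  obtain ⟨q, hq⟩ := per_of_rat f hrat
  refine ⟨q, ?_, hq⟩
  rintro rfl
  obtain ⟨w, -, -, p₀, h₀⟩ := mu0_core f hf one_ne_zero
  obtain ⟨p, hp, hpp⟩ := Nat.exists_infinite_primes (max p₀ (N + 1))
  have hF : Fact p.Prime := ⟨hpp⟩
  have hpN : ¬ p ∣ N := by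
    intro h
    have h1 := Nat.le_of_dvd (Nat.pos_of_ne_zero (NeZero.ne N)) h
    have h2 := (le_max_right _ _).trans hp
    omega
  obtain ⟨m, hm⟩ : ∃ m, nn w p = m + 1 := by
    refine ⟨nn w p - 1, ?_⟩
    have h1 : 0 < nn w p := by
      rw [nn]
      have h2 : 0 < ⌈(p : ℝ) ^ (1 - w)⌉₊ :=
        Nat.ceil_pos.2 (Real.rpow_pos_of_pos (by exact_mod_cast hpp.pos) _)
      omega
    omega
  have hq0 : NeZero (p ^ nn w p) := ⟨pow_ne_zero _ hpp.ne_zero⟩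
  obtain ⟨κ, hκ⟩ := TT_const f hpN (by simpa using hq) (p ^ nn w p) (by rw [hm])
  exact h₀ p ((le_max_left _ _).trans hp) hpp (p ^ nn w p) rfl
    ⟨κ, fun _ => 0, fun b => by rw [hκ b]; simp⟩

/-- **The `μ`-invariant vanishes for all large `p`**, for every `Ω` such that the real parts of the
periods over `Γ₁(N)` are rational multiples of `Ω`. -/
theorem mu_zero_rat {N : ℕ} [NeZero N] (f : CuspForm (Gamma0 N) 2) {a : ℕ → ℤ} (hf : Frm f a)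
    {Ω : ℝ} (hΩ : Ω ≠ 0) (hrat : ∀ γ ∈ Gamma1 N, ∃ r : ℚ, (period f γ).re = r * Ω) :
    ∃ (c : ℝ) (p₀ : ℕ), 0 < c ∧ ∀ (p : ℕ) [Fact p.Prime], p₀ ≤ p → ¬ (p : ℤ) ∣ a p →
      ∃ α : ℤ_[p]ˣ, (α : ℤ_[p]) ^ 2 - (a p : ℤ_[p]) * α + p = 0 ∧
        ∃ L : PowerSeries ℤ_[p],
          (∀ L', IsMSD p a Ω α L' ↔ L' = L.map (algebraMap ℤ_[p] ℚ_[p])) ∧
          ∃ i : ℕ, (i : ℝ) < (p : ℝ) ^ ((p : ℝ) ^ (1 - c)) ∧ IsUnit (PowerSeries.coeff i L) := by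
  obtain ⟨q, hq, hper⟩ := per_rat f hf hrat
  exact mu_zero f hf hΩ q hq hper

end Pool.Agent.MU0
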