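import Pool.Agent.MU0.XX1

/-!
# Correlations of `f(l₁ x)` and `f(l₂ x)` at the points `b/q`, from the bound for one frequency
-/

set_option autoImplicit false

open Finset CongruenceSubgroup
open Pool.Agent.MZ.Per Pool.Agent.MU1
open scoped Real ComplexConjugate

namespace Pool.Agent.MU0.XX

/-- a cusp form of weight two -/
theorem xx_bdd {N : ℕ} [NeZero N] (f : CuspForm (Gamma0 N) 2) {b : ℕ → ℝ}
    (ha : ∀ n, (UpperHalfPlane.qExpansion 1 f).coeff n = b n) :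
    ∃ C₀ : ℝ, E4.Bdd (fun n => (b n : ℂ)) C₀ := by
  obtain ⟨C, hC⟩ := CuspFormClass.exists_bound f
  refine ⟨C, coeff_zero f ha, fun y hy => ?_, fun x y hy => ?_⟩
  · refine (summable_coeff f ha hy).congr fun n => ?_
    congr 2
    ring
  · have hz : 0 < ((x : ℂ) + (y : ℂ) * Complex.I).im := by simpa using hy
    have h1 := hasSum_q f ha ((x : ℂ) + (y : ℂ) * Complex.I) hz
    have h2 : ∀ n : ℕ, (b n : ℂ) * (Real.exp (-(2 * π * n * y)) : ℂ) *
        Complex.exp (2 * π * Complex.I * n * x) =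
        (b n : ℂ) * Complex.exp (2 * π * Complex.I * n * ((x : ℂ) + (y : ℂ) * Complex.I)) := by
      intro n
      rw [mul_assoc]
      congr 1
      rw [Complex.ofReal_exp, ← Complex.exp_add]
      congr 1
      push_cast
      linear_combination (-(2 * π * n * y) : ℂ) * Complex.I_mul_I
    simp_rw [h2]
    rw [h1.tsum_eq]
    have h3 := hC (vert x y)
    norm_num at h3
    rw [im_vert hy] at h3
    exact h3

/-- `∑ η b(m) e^(-2πmη) e(mt) = η f(t + iη)` -/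
theorem FS_co {N : ℕ} [NeZero N] (f : CuspForm (Gamma0 N) 2) {b : ℕ → ℝ}
    (ha : ∀ n, (UpperHalfPlane.qExpansion 1 f).coeff n = b n) {η : ℝ} (hη : 0 < η) (t : ℝ) :
    FS (co b η) t = η * f (vert t η) := by
  have hz : 0 < ((t : ℂ) + (η : ℂ) * Complex.I).im := by simpa using hη
  have h1 := (hasSum_q f ha ((t : ℂ) + (η : ℂ) * Complex.I) hz).mul_left (η : ℂ)
  unfold FS vert
  rw [← h1.tsum_eq]
  refine tsum_congr fun m => ?_
  unfold co e
  push_cast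
  rw [mul_assoc, ← Complex.exp_add, mul_assoc]
  congr 3
  linear_combination (-(2 * π * m * η) : ℂ) * Complex.I_mul_I

/-- the bound for one frequency (`frq`) -/
def Frq {N : ℕ} (f : CuspForm (Gamma0 N) 2) (C d : ℝ) (A : ℕ) : Prop :=
  ∀ l₁ l₂ : ℕ, 0 < l₁ → 0 < l₂ → ∀ k : ℤ, k ≠ 0 → ∀ y : ℝ, 0 < y → y ≤ 1 →
    Real.log (N * l₁ * l₂ * |(k : ℝ)|) ≤ y ^ (-(1 / 4 : ℝ)) →
    ‖∫ x in (0 : ℝ)..1, (y : ℂ) ^ 2 * f (vert (l₁ * x) y) * conj (f (vert (l₂ * x) y)) *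
      Complex.exp (-(2 * π * Complex.I * k * x))‖ ≤ C * (l₁ * l₂ : ℝ) ^ A * y ^ d

/-- the sum over the frequencies `jq`, `0 < |j| ≤ J` -/
theorem sum_freq {N : ℕ} [NeZero N] (f : CuspForm (Gamma0 N) 2) {b : ℕ → ℝ}
    (ha : ∀ n, (UpperHalfPlane.qExpansion 1 f).coeff n = b n) {C d : ℝ} {A : ℕ}
    (hF : Frq f C d A) {l₁ l₂ q J : ℕ} (h₁ : 0 < l₁) (h₂ : 0 < l₂) (hq : 0 < q) {η : ℝ} (hη : 0 < η)
    (hη1 : η ≤ 1) (hlog : Real.log (N * l₁ * l₂ * (J * q)) ≤ η ^ (-(1 / 4 : ℝ))) (D : ℝ)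
    (hD : ‖∫ t in (0 : ℝ)..1, FS (co b η) (l₁ * t) * conj (FS (co b η) (l₂ * t)) *
      e (-(((0 : ℤ) : ℝ) * t))‖ ≤ D) :
    ∑ j ∈ Icc (-(J : ℤ)) J, ‖∫ t in (0 : ℝ)..1, FS (co b η) (l₁ * t) *
      conj (FS (co b η) (l₂ * t)) * e (-(((j * q : ℤ) : ℝ) * t))‖ ≤
    D + 2 * J * (C * (l₁ * l₂ : ℝ) ^ A * η ^ d) := by
  have hj : ∀ j ∈ (Icc (-(J : ℤ)) J).erase 0, ‖∫ t in (0 : ℝ)..1, FS (co b η) (l₁ * t) *
      conj (FS (co b η) (l₂ * t)) * e (-(((j * q : ℤ) : ℝ) * t))‖ ≤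
      C * (l₁ * l₂ : ℝ) ^ A * η ^ d := by
    intro j hj
    rw [Finset.mem_erase, Finset.mem_Icc] at hj
    obtain ⟨hj0, hj1, hj2⟩ := hj
    have hk : j * (q : ℤ) ≠ 0 := mul_ne_zero hj0 (by exact_mod_cast hq.ne')
    have hN : (0 : ℝ) < N := by
      have := NeZero.pos N
      exact_mod_cast this
    have h1' : (0 : ℝ) < l₁ := by exact_mod_cast h₁
    have h2' : (0 : ℝ) < l₂ := by exact_mod_cast h₂
    have hkpos : 0 < |((j * (q : ℤ) : ℤ) : ℝ)| := abs_pos.2 (by exact_mod_cast hk)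
    have hlog' : Real.log (N * l₁ * l₂ * |((j * (q : ℤ) : ℤ) : ℝ)|) ≤ η ^ (-(1 / 4 : ℝ)) := by
      refine (Real.log_le_log (by positivity) ?_).trans hlog
      refine mul_le_mul_of_nonneg_left ?_ (by positivity)
      have hjR : |(j : ℝ)| ≤ J := by
        rw [abs_le]
        constructor
        · exact_mod_cast hj1
        · exact_mod_cast hj2
      push_cast
      rw [abs_mul, abs_of_nonneg (Nat.cast_nonneg q : (0 : ℝ) ≤ q)]
      exact mul_le_mul_of_nonneg_right hjR (Nat.cast_nonneg q)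
    have h3 := hF l₁ l₂ h₁ h₂ (j * q) hk η hη hη1 hlog'
    refine le_trans (le_of_eq ?_) h3
    congr 1
    refine intervalIntegral.integral_congr fun t _ => ?_
    rw [FS_co f ha hη, FS_co f ha hη, map_mul, Complex.conj_ofReal]
    have h4 : e (-(((j * q : ℤ) : ℝ) * t)) =
        Complex.exp (-(2 * π * Complex.I * ((j * q : ℤ) : ℂ) * t)) := by
      unfold e
      congr 1
      push_cast
      ring
    rw [h4]
    ring
  have h0 : (0 : ℤ) ∈ Icc (-(J : ℤ)) J := by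
    rw [Finset.mem_Icc]
    constructor <;> omega
  rw [← Finset.add_sum_erase _ _ h0, zero_mul]
  refine add_le_add hD ?_
  refine (Finset.sum_le_sum hj).trans (le_of_eq ?_)
  rw [Finset.sum_const, Finset.card_erase_of_mem h0, Int.card_Icc, nsmul_eq_mul]
  congr 1
  have : ((J : ℤ) + 1 - -(J : ℤ)).toNat - 1 = 2 * J := by omega
  rw [this]
  push_cast
  ring

/-- the correlation bound from the bound for one frequency -/
theorem corr_of {N : ℕ} [NeZero N] (g : CuspForm (Gamma0 N) 2) {b : ℕ → ℝ} {a : ℕ → ℤ}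
    (hg : Eig g b a) {Cf d : ℝ} {Af : ℕ} (hCf : 0 ≤ Cf) (hd : 0 < d) (hF : Frq g Cf d Af) :
    ∃ (C : ℝ) (A q₀ : ℕ), 0 ≤ C ∧ ∀ (q Q l₁ l₂ : ℕ) [NeZero q], q₀ ≤ q →
    Q ^ A ≤ q → l₁.Prime → l₂.Prime → l₁ ≠ l₂ → ¬ l₁ ∣ N → ¬ l₂ ∣ N → l₁ ≤ Q → l₂ ≤ Q →
    ∀ η : ℝ, 1 / (√N * q) ≤ η → η ≤ Q / q →
    η ^ 2 * ‖(1 / (q : ℂ)) * ∑ u : ZMod q, g (vert (l₁ * ((u.val : ℝ) / q)) η) *
      conj (g (vert (l₂ * ((u.val : ℝ) / q)) η))‖ ≤ C * (1 / l₁ + 1 / l₂) := by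
  obtain ⟨C₀, hC₀⟩ := xx_bdd g hg.coeff
  have hC0 := hC₀.nonneg
  have hN : (1 : ℝ) ≤ N := by
    have := NeZero.pos N
    exact_mod_cast this
  -- the numbers `A` and `q₀`
  obtain ⟨A, hA⟩ := exists_nat_gt (2 * (2 * Af + 2 + d) / d + 3)
  have hA3 : (3 : ℝ) < A := by
    have : 0 < 2 * (2 * Af + 2 + d) / d := by positivity
    linarith
  have hAd : 2 * (2 * Af + 2 + d) ≤ A * d := by
    have : 2 * (2 * Af + 2 + d) / d ≤ A := by linarith
    rwa [div_le_iff₀ hd] at this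
  have hlim : ∀ᶠ q : ℕ in Filter.atTop, 6 * Real.log q ≤ (q : ℝ) ^ (1 / 8 : ℝ) := by
    have h1 := (isLittleO_log_rpow_atTop (show (0 : ℝ) < 1 / 8 by norm_num)).bound
      (show (0 : ℝ) < 1 / 6 by norm_num)
    have h2 := tendsto_natCast_atTop_atTop (R := ℝ) |>.eventually h1
    filter_upwards [h2, Filter.eventually_ge_atTop 1] with q hq hq1
    have hq1' : (1 : ℝ) ≤ q := by exact_mod_cast hq1
    rw [Real.norm_eq_abs, Real.norm_eq_abs, abs_of_nonneg (Real.log_nonneg hq1'),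
      abs_of_nonneg (Real.rpow_nonneg (by linarith) _)] at hq
    linarith
  obtain ⟨q₁, hq₁⟩ := Filter.eventually_atTop.1 hlim
  refine ⟨20 * C₀ ^ 2 + 12 * N * Cf / d + 4 * Real.exp (2 * π) ^ 2 * C₀ ^ 2 * N, A,
    max q₁ (max (3 * N ^ 2) 3), by positivity, ?_⟩
  intro q Q l₁ l₂ _ hq hQq h₁ h₂ hne h₁N h₂N h₁Q h₂Q η hη1 hη2
  have hqq₁ : q₁ ≤ q := (le_max_left _ _).trans hq
  have hq3N : 3 * N ^ 2 ≤ q := ((le_max_left _ _).trans (le_max_right _ _)).trans hq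
  have hq3 : 3 ≤ q := ((le_max_right _ _).trans (le_max_right _ _)).trans hq
  have hqR : (3 : ℝ) ≤ q := by exact_mod_cast hq3
  have hq0 : (0 : ℝ) < q := by linarith
  have hQ2 : 2 ≤ Q := h₁.two_le.trans h₁Q
  have hQR : (2 : ℝ) ≤ Q := by exact_mod_cast hQ2
  have hQ0 : (0 : ℝ) < Q := by linarith
  have hQA : (Q : ℝ) ^ A ≤ q := by exact_mod_cast hQq
  have hA3' : 3 < A := by exact_mod_cast hA3
  have hQ3 : (Q : ℝ) ^ 3 ≤ q := (pow_le_pow_right₀ (by linarith) hA3'.le).trans hQA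
  have hsN : 1 ≤ √(N : ℝ) := Real.one_le_sqrt.2 hN
  have hsN0 : 0 < √(N : ℝ) := by linarith
  have hη : 0 < η := lt_of_lt_of_le (by positivity) hη1
  have hηle : η ≤ 1 := by
    refine hη2.trans ?_
    rw [div_le_one hq0]
    calc (Q : ℝ) = Q ^ 1 := (pow_one _).symm
      _ ≤ Q ^ 3 := pow_le_pow_right₀ (by linarith) (by norm_num)
      _ ≤ q := hQ3
  have hlogq : 1 ≤ Real.log q := by
    rw [Real.le_log_iff_exp_le hq0]
    exact (Real.exp_one_lt_d9.le.trans (by norm_num)).trans hqR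
  have h1R : (0 : ℝ) < l₁ := by exact_mod_cast h₁.pos
  have h2R : (0 : ℝ) < l₂ := by exact_mod_cast h₂.pos
  have h1Q : (l₁ : ℝ) ≤ Q := by exact_mod_cast h₁Q
  have h2Q : (l₂ : ℝ) ≤ Q := by exact_mod_cast h₂Q
  have hinvQ : 1 / (Q : ℝ) ≤ 1 / l₁ + 1 / l₂ := by
    have h3 : 1 / (Q : ℝ) ≤ 1 / l₁ := one_div_le_one_div_of_le h1R h1Q
    have h4 : 0 ≤ 1 / (l₂ : ℝ) := by positivity
    linarith
  set J : ℕ := ⌊3 * N * Q * Real.log q⌋₊ with hJ
  have hJ1 : (J : ℝ) ≤ 3 * N * Q * Real.log q := Nat.floor_le (by positivity)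
  have hJ2 : 3 * N * Q * Real.log q ≤ J + 1 := (Nat.lt_floor_add_one _).le
  have hJ3 : (1 : ℝ) ≤ J := by
    have : 1 ≤ J := by
      rw [hJ]
      refine Nat.le_floor ?_
      have : (1 : ℝ) * 1 * 1 * 1 ≤ 3 * N * Q * Real.log q := by
        refine mul_le_mul (mul_le_mul (mul_le_mul (by norm_num) hN (by norm_num) (by norm_num))
          (by linarith) (by norm_num) (by positivity)) hlogq (by norm_num) (by positivity)
      push_cast
      linarith
    exact_mod_cast this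
  -- the logarithm
  have hlog : Real.log (N * l₁ * l₂ * (J * q)) ≤ η ^ (-(1 / 4 : ℝ)) := by
    have hlogq' : Real.log q ≤ q := by
      have := Real.log_le_sub_one_of_pos hq0
      linarith
    have h5 : (N : ℝ) * l₁ * l₂ * (J * q) ≤ q ^ 6 := by
      calc (N : ℝ) * l₁ * l₂ * (J * q) ≤ N * Q * Q * ((3 * N * Q * q) * q) := by
            have : (J : ℝ) ≤ 3 * N * Q * q := hJ1.trans (by gcongr)
            gcongr
        _ = (3 * (N : ℝ) ^ 2) * Q ^ 3 * q ^ 2 := by ring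
        _ ≤ q * q * q ^ 2 := by
            have : (3 * (N : ℝ) ^ 2) ≤ q := by exact_mod_cast hq3N
            gcongr
        _ = q ^ 4 * 1 := by ring
        _ ≤ q ^ 4 * q ^ 2 := by
            gcongr
            exact one_le_pow₀ (by linarith)
        _ = _ := by ring
    have h6 : Real.log (N * l₁ * l₂ * (J * q)) ≤ 6 * Real.log q := by
      have h7 := Real.log_le_log (by positivity) h5
      rwa [Real.log_pow] at h7
    refine h6.trans ((hq₁ q hqq₁).trans ?_)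
    have h8 : η ≤ (q : ℝ) ^ (-(1 / 2 : ℝ)) := by
      refine hη2.trans ?_
      rw [div_le_iff₀ hq0]
      have h9 : (q : ℝ) ^ (-(1 / 2 : ℝ)) * q = (q : ℝ) ^ (1 / 2 : ℝ) := by
        nth_rw 2 [← Real.rpow_one (q : ℝ)]
        rw [← Real.rpow_add hq0]
        norm_num
      rw [h9]
      have h10 : (Q : ℝ) ^ 2 ≤ q := (pow_le_pow_right₀ (by linarith) (by norm_num)).trans hQ3
      have h11 : (Q : ℝ) = ((Q : ℝ) ^ 2) ^ (1 / 2 : ℝ) := by
        rw [← Real.rpow_natCast, ← Real.rpow_mul hQ0.le]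
        norm_num
      rw [h11]
      exact Real.rpow_le_rpow (by positivity) h10 (by norm_num)
    have h12 : ((q : ℝ) ^ (-(1 / 2 : ℝ))) ^ (-(1 / 4 : ℝ)) = (q : ℝ) ^ (1 / 8 : ℝ) := by
      rw [← Real.rpow_mul hq0.le]
      norm_num
    rw [← h12]
    exact Real.rpow_le_rpow_of_nonpos hη h8 (by norm_num)
  have hdiag := diag hC₀ hg.hecke hg.hasse h₁ h₂ hne h₁N h₂N hη
  have hsum := sum_freq g hg.coeff hF h₁.pos h₂.pos (NeZero.pos q) hη hηle hlog _ hdiag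
  have hfr := freq (summable_co hC₀ hη) l₁ l₂ q J
  have htail := tail_le hC₀ hη hηle l₁ l₂ q J (by have := h₁.pos; omega)
  -- the frequencies
  have hfin : 2 * J * (Cf * (l₁ * l₂ : ℝ) ^ Af * η ^ d) ≤ 12 * N * Cf / d * (1 / l₁ + 1 / l₂) := by
    have h13 : (l₁ * l₂ : ℝ) ^ Af ≤ (Q : ℝ) ^ (2 * Af) := by
      rw [pow_mul]
      refine pow_le_pow_left₀ (by positivity) ?_ Af
      rw [sq]
      exact mul_le_mul h1Q h2Q h2R.le hQ0.le
    have h14 : η ^ d ≤ (Q / q : ℝ) ^ d := Real.rpow_le_rpow hη.le hη2 hd.le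
    have h15 : Real.log q ≤ (q : ℝ) ^ (d / 2) / (d / 2) := Real.log_le_rpow_div hq0.le (by positivity)
    have h16 : (Q : ℝ) ^ (2 * Af + 2 + d : ℝ) ≤ (q : ℝ) ^ (d / 2) := by
      have h17 : (Q : ℝ) ^ (2 * Af + 2 + d : ℝ) ≤ (Q : ℝ) ^ ((A : ℝ) * (d / 2)) :=
        Real.rpow_le_rpow_of_exponent_le (by linarith) (by linarith)
      rw [Real.rpow_mul hQ0.le, Real.rpow_natCast] at h17
      exact h17.trans (Real.rpow_le_rpow (by positivity) hQA (by positivity))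
    have h18 : (Q : ℝ) ^ (2 * Af + 2 + d : ℝ) = Q ^ (2 * Af) * Q ^ 2 * Q ^ d := by
      rw [Real.rpow_add hQ0, Real.rpow_add hQ0]
      congr 2
      · have : (2 * (Af : ℝ)) = ((2 * Af : ℕ) : ℝ) := by push_cast; ring
        rw [this, Real.rpow_natCast]
      · exact_mod_cast Real.rpow_natCast (Q : ℝ) 2
    have h19 : (q : ℝ) ^ (d / 2) * (q : ℝ) ^ (d / 2) = (q : ℝ) ^ d := by
      rw [← Real.rpow_add hq0]
      congr 1
      ring
    have h20 : 0 < (q : ℝ) ^ d := Real.rpow_pos_of_pos hq0 _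
    have h21 : 0 < (q : ℝ) ^ (d / 2) := Real.rpow_pos_of_pos hq0 _
    have h22 : 0 < (Q : ℝ) ^ d := Real.rpow_pos_of_pos hQ0 _
    calc 2 * J * (Cf * (l₁ * l₂ : ℝ) ^ Af * η ^ d)
        ≤ 2 * (3 * N * Q * ((q : ℝ) ^ (d / 2) / (d / 2))) *
          (Cf * (Q : ℝ) ^ (2 * Af) * ((Q / q : ℝ) ^ d)) := by
          have : (J : ℝ) ≤ 3 * N * Q * ((q : ℝ) ^ (d / 2) / (d / 2)) := hJ1.trans (by gcongr)
          gcongr
      _ = 12 * N * Cf / d * ((Q ^ (2 * Af) * Q ^ 2 * Q ^ d) * (q : ℝ) ^ (d / 2) / (q : ℝ) ^ d) *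
          (1 / Q) := by
          rw [Real.div_rpow hQ0.le hq0.le]
          field_simp
          ring
      _ ≤ 12 * N * Cf / d * ((q : ℝ) ^ (d / 2) * (q : ℝ) ^ (d / 2) / (q : ℝ) ^ d) * (1 / Q) := by
          rw [← h18]
          gcongr
      _ = 12 * N * Cf / d * (1 / Q) := by
          rw [h19, div_self h20.ne', mul_one]
      _ ≤ _ := by gcongr
  -- the tail
  have htl : (2 * Real.exp (2 * π) * C₀ / η) ^ 2 * Real.exp (-(π * η * ((J + 1) * q) / (l₁ + l₂))) ≤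
      4 * Real.exp (2 * π) ^ 2 * C₀ ^ 2 * N * (1 / l₁ + 1 / l₂) := by
    have h23 : 1 / η ≤ √N * q := by
      rw [div_le_iff₀ hη]
      rw [div_le_iff₀ (by positivity)] at hη1
      linarith
    have h24 : 4 * Real.log q ≤ π * η * ((J + 1) * q) / (l₁ + l₂) := by
      rw [le_div_iff₀ (by positivity)]
      have h25 : 1 ≤ √N * (η * q) := by
        rw [div_le_iff₀ (by positivity)] at hη1
        linarith
      have h26 : √(N : ℝ) * √N = N := Real.mul_self_sqrt (by linarith)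
      calc 4 * Real.log q * (l₁ + l₂) ≤ 4 * Real.log q * (Q + Q) := by gcongr
        _ = 8 * (1 * Q * Real.log q) := by ring
        _ ≤ 8 * (√N * (√N * (η * q)) * Q * Real.log q) := by
            have h27 : 1 ≤ √N * (√N * (η * q)) := by
              calc (1 : ℝ) = 1 * 1 := by ring
                _ ≤ _ := mul_le_mul hsN h25 (by norm_num) hsN0.le
            gcongr
        _ = 8 * (N * Q * Real.log q) * (η * q) := by
            calc _ = 8 * ((√N * √N) * Q * Real.log q) * (η * q) := by ring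
              _ = _ := by rw [h26]
        _ ≤ (π * 3) * (N * Q * Real.log q) * (η * q) := by
            have : 8 ≤ π * 3 := by linarith [Real.pi_gt_three]
            gcongr
        _ = π * η * ((3 * N * Q * Real.log q) * q) := by ring
        _ ≤ _ := by gcongr
    have h28 : Real.exp (-(π * η * ((J + 1) * q) / (l₁ + l₂))) ≤ 1 / (q : ℝ) ^ 4 := by
      calc _ ≤ Real.exp (-(4 * Real.log q)) := by
            rw [Real.exp_le_exp]
            linarith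
        _ = _ := by
            rw [Real.exp_neg, _root_.one_div]
            congr 1
            rw [show (4 : ℝ) * Real.log q = ((4 : ℕ) : ℝ) * Real.log q by norm_num,
              Real.exp_nat_mul, Real.exp_log hq0]
    have h29 : (1 / η) ^ 2 ≤ N * (q : ℝ) ^ 2 := by
      calc (1 / η) ^ 2 ≤ (√N * q) ^ 2 := pow_le_pow_left₀ (by positivity) h23 2
        _ = _ := by rw [_root_.mul_pow, Real.sq_sqrt (by linarith)]
    calc _ = (4 * Real.exp (2 * π) ^ 2 * C₀ ^ 2) * (1 / η) ^ 2 *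
          Real.exp (-(π * η * ((J + 1) * q) / (l₁ + l₂))) := by ring
      _ ≤ (4 * Real.exp (2 * π) ^ 2 * C₀ ^ 2) * (N * (q : ℝ) ^ 2) * (1 / (q : ℝ) ^ 4) := by gcongr
      _ = (4 * Real.exp (2 * π) ^ 2 * C₀ ^ 2 * N) * (1 / (q : ℝ) ^ 2) := by
          field_simp
      _ ≤ (4 * Real.exp (2 * π) ^ 2 * C₀ ^ 2 * N) * (1 / Q) := by
          have h30 : 1 / (q : ℝ) ^ 2 ≤ 1 / Q := by
            refine one_div_le_one_div_of_le hQ0 ?_
            calc (Q : ℝ) ≤ Q ^ 3 := by nlinarith [sq_nonneg ((Q : ℝ) - 1)]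
              _ ≤ q := hQ3
              _ ≤ (q : ℝ) ^ 2 := by nlinarith
          gcongr
      _ ≤ _ := by gcongr
  have hconv : ‖(1 / (q : ℂ)) * ∑ u : ZMod q, FS (co b η) (l₁ * ((u.val : ℝ) / q)) *
        conj (FS (co b η) (l₂ * ((u.val : ℝ) / q)))‖ =
      η ^ 2 * ‖(1 / (q : ℂ)) * ∑ u : ZMod q, g (vert (l₁ * ((u.val : ℝ) / q)) η) *
      conj (g (vert (l₂ * ((u.val : ℝ) / q)) η))‖ := by
    have h31 : ∀ u : ZMod q, FS (co b η) (l₁ * ((u.val : ℝ) / q)) *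
        conj (FS (co b η) (l₂ * ((u.val : ℝ) / q))) = (η : ℂ) ^ 2 *
        (g (vert (l₁ * ((u.val : ℝ) / q)) η) * conj (g (vert (l₂ * ((u.val : ℝ) / q)) η))) := by
      intro u
      rw [FS_co g hg.coeff hη, FS_co g hg.coeff hη, map_mul, Complex.conj_ofReal]
      ring
    simp_rw [h31]
    rw [← Finset.mul_sum, mul_left_comm, norm_mul, norm_pow, Complex.norm_real, Real.norm_eq_abs,
      abs_of_pos hη]
  rw [← hconv]
  have h32 : 0 ≤ 1 / (l₁ : ℝ) + 1 / l₂ := by positivity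
  linarith

end Pool.Agent.MU0.XX
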