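import Pool.Agent.MU0.Frq
import Pool.Agent.MU0.XX2

/-!
# The frequencies in the form of XX2
-/

set_option autoImplicit false

open CongruenceSubgroup
open scoped ComplexConjugate Real

namespace Pool.Agent.MU0

theorem frq_Frq {N : ℕ} [NeZero N] (f : CuspForm (Gamma0 N) 2) :
    ∃ C : ℝ, 0 ≤ C ∧ XX.Frq f C (1 / 100) 4 := by
  obtain ⟨C, hC0, hC⟩ := frq f
  refine ⟨C, hC0, fun l₁ l₂ hl₁ hl₂ k hk y hy hy1 hlog => ?_⟩
  have h1 : ((N * l₁ * l₂ * k.natAbs : ℕ) : ℝ) = N * l₁ * l₂ * |(k : ℝ)| := by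
    push_cast
    rw [Nat.cast_natAbs]
    push_cast
    rfl
  have h2 := hC l₁ l₂ hl₁ hl₂ k hk y hy hy1 (by
    rw [h1]
    exact hlog)
  convert! h2 using 4 with x
  congr 1
  push_cast
  ring_nf

end Pool.Agent.MU0
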