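import Pool.Agent.MU0.Hasse

/-!
# The theorem of Hasse for the reduction of a curve over the integers
-/

set_option autoImplicit false

namespace Pool.Agent.MU0

theorem hasse (E : WeierstrassCurve ℤ) {l : ℕ} [Fact l.Prime] (h : ¬ (l : ℤ) ∣ E.Δ) :
    ((l : ℤ) - Nat.card {P : ZMod l × ZMod l //
      (E.map (Int.castRingHom (ZMod l))).toAffine.Equation P.1 P.2}) ^ 2 ≤ 4 * l := by
  refine Hasse.hasse l _ ?_
  rw [WeierstrassCurve.map_Δ, Int.coe_castRingHom, Ne, ZMod.intCast_zmod_eq_zero_iff_dvd]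
  exact h

end Pool.Agent.MU0
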