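import Pool.Agent.MU0.Defs

/-!
# From the bound of Hasse at the primes to all `n`
-/

set_option autoImplicit false

open Finset
open Pool.Agent.MZ Pool.Agent.MZ.Per Pool.Agent.MU1
open scoped Real

namespace Pool.Agent.MU0

private theorem hop_mul {N : ℕ} {a : ℕ → ℤ} (ha1 : a 1 = 1) (hH : HeckeAll N a) {l : ℕ}
    (hl : l.Prime) {m : ℕ} (hm : ¬ l ∣ m) (j : ℕ) :
    a (l ^ j * m) = a (l ^ j) * a m ∧ a (l ^ (j + 1) * m) = a (l ^ (j + 1)) * a m := by
  have key : ∀ (m : ℕ), ¬ l ∣ m → a (l * m) = a l * a m := by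
    intro m hm
    have := hH l hl m
    rw [if_neg (fun h => hm h.1), add_zero] at this
    exact this
  induction j with
  | zero => 
    refine ⟨by simp [ha1], ?_⟩
    rw [zero_add, pow_one, key m hm]
  | succ j ih =>
    refine ⟨ih.2, ?_⟩
    have h1 := hH l hl (l ^ (j + 1) * m)
    have h2 := hH l hl (l ^ (j + 1))
    have e1 : l * (l ^ (j + 1) * m) = l ^ (j + 1 + 1) * m := by ring
    have e2 : l * l ^ (j + 1) = l ^ (j + 1 + 1) := by ring
    have e3 : l ^ (j + 1) * m / l = l ^ j * m := by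
      rw [pow_succ, show l ^ j * l * m = l ^ j * m * l by ring, Nat.mul_div_cancel _ hl.pos]
    have e4 : l ^ (j + 1) / l = l ^ j := by
      rw [pow_succ, Nat.mul_div_cancel _ hl.pos]
    have d1 : l ∣ l ^ (j + 1) := dvd_pow_self l (by omega)
    have d2 : l ∣ l ^ (j + 1) * m := d1.mul_right m
    rw [e1, e3] at h1
    rw [e2, e4] at h2
    by_cases hN : l ∣ N
    · rw [if_neg (fun h => h.2 hN), add_zero] at h1
      rw [if_neg (fun h => h.2 hN), add_zero] at h2
      rw [h1, h2, ih.2]; ring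
    · rw [if_pos ⟨d2, hN⟩] at h1
      rw [if_pos ⟨d1, hN⟩] at h2
      have h3 : a (l ^ (j + 1 + 1) * m) = a l * a (l ^ (j + 1) * m) - (l : ℤ) * a (l ^ j * m) := by
        linarith
      have h4 : a (l ^ (j + 1 + 1)) = a l * a (l ^ (j + 1)) - (l : ℤ) * a (l ^ j) := by
        linarith
      rw [h3, h4, ih.1, ih.2]; ring

private theorem hop_pow {N : ℕ} {a : ℕ → ℤ} (ha1 : a 1 = 1) (hH : HeckeAll N a)
    (h : ∀ l : ℕ, l.Prime → ¬ l ∣ N → (a l) ^ 2 ≤ 4 * l)
    (h' : ∀ l : ℕ, l.Prime → l ∣ N → |a l| ≤ 1) {l : ℕ} (hl : l.Prime) (j : ℕ) :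
    |(a (l ^ j) : ℝ)| ≤ (j + 1) * √l ^ j := by
  have hl1 : (1 : ℝ) ≤ l := by exact_mod_cast hl.one_lt.le
  have hs1 : 1 ≤ √(l : ℝ) := by
    rw [show (1 : ℝ) = √1 by simp]
    exact Real.sqrt_le_sqrt hl1
  by_cases hN : l ∣ N
  · have h1 : ∀ j : ℕ, |(a (l ^ j) : ℝ)| ≤ 1 := by
      intro j
      induction j with
      | zero => simp [ha1]
      | succ j ih =>
        have h2 := hH l hl (l ^ j)
        rw [if_neg (fun h => h.2 hN), add_zero] at h2
        rw [show l ^ (j + 1) = l * l ^ j by ring, h2]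
        push_cast
        rw [abs_mul]
        have h3 : |(a l : ℝ)| ≤ 1 := by
          have := h' l hl hN
          exact_mod_cast this
        calc |(a l : ℝ)| * |(a (l ^ j) : ℝ)| ≤ 1 * 1 :=
              mul_le_mul h3 ih (abs_nonneg _) zero_le_one
          _ = 1 := one_mul 1
    refine (h1 j).trans ?_
    have h4 : (1 : ℝ) ≤ √l ^ j := one_le_pow₀ hs1
    have h5 : (0 : ℝ) ≤ j := Nat.cast_nonneg j
    nlinarith
  · -- complex roots
    set A : ℝ := (a l : ℝ) with hA
    have hA2 : A ^ 2 ≤ 4 * l := by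
      have := h l hl hN
      rw [hA]
      exact_mod_cast this
    set B : ℝ := √(l - A ^ 2 / 4) with hB
    have hB2 : B ^ 2 = l - A ^ 2 / 4 := Real.sq_sqrt (by linarith)
    set α : ℂ := ⟨A / 2, B⟩ with hα
    set β : ℂ := ⟨A / 2, -B⟩ with hβ
    have hsum : α + β = (A : ℂ) := by
      apply Complex.ext
      · simp [hα, hβ]
      · simp [hα, hβ]
    have hprod : α * β = (l : ℂ) := by
      apply Complex.ext
      · simp [hα, hβ]; nlinarith
      · simp [hα, hβ]; ring
    have hnα : ‖α‖ = √l := by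
      rw [Complex.norm_def, Complex.normSq_apply]
      congr 1
      simp only [hα]
      nlinarith
    have hnβ : ‖β‖ = √l := by
      rw [Complex.norm_def, Complex.normSq_apply]
      congr 1
      simp only [hβ]
      nlinarith
    have key : ∀ j : ℕ, (a (l ^ (j + 1)) : ℂ) = α * (a (l ^ j) : ℂ) + β ^ (j + 1) := by
      intro j
      induction j with
      | zero =>
        simp only [zero_add, pow_one, pow_zero, ha1, Int.cast_one, mul_one]
        rw [hsum, hA]
        push_cast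
        rfl
      | succ j ih =>
        have h2 := hH l hl (l ^ (j + 1))
        have e2 : l * l ^ (j + 1) = l ^ (j + 1 + 1) := by ring
        have e4 : l ^ (j + 1) / l = l ^ j := by
          rw [pow_succ, Nat.mul_div_cancel _ hl.pos]
        have d1 : l ∣ l ^ (j + 1) := dvd_pow_self l (by omega)
        rw [e2, e4, if_pos ⟨d1, hN⟩] at h2
        have h3 : (a (l ^ (j + 1 + 1)) : ℂ) =
            (A : ℂ) * (a (l ^ (j + 1)) : ℂ) - (l : ℂ) * (a (l ^ j) : ℂ) := by
          have h4 : ((a (l ^ (j + 1 + 1)) + (l : ℤ) * a (l ^ j) : ℤ) : ℂ) =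
            ((a l * a (l ^ (j + 1)) : ℤ) : ℂ) := by rw [h2]
          push_cast at h4
          rw [hA]
          push_cast
          linear_combination h4
        rw [h3, ← hsum, ← hprod, ih]
        ring
    induction j with
    | zero => simp [ha1]
    | succ j ih =>
      have h5 : |(a (l ^ (j + 1)) : ℝ)| = ‖(a (l ^ (j + 1)) : ℂ)‖ := by
        rw [Complex.norm_intCast]
      have h6 : |(a (l ^ j) : ℝ)| = ‖(a (l ^ j) : ℂ)‖ := by
        rw [Complex.norm_intCast]
      rw [h5, key j]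
      calc ‖α * (a (l ^ j) : ℂ) + β ^ (j + 1)‖ ≤ ‖α * (a (l ^ j) : ℂ)‖ + ‖β ^ (j + 1)‖ :=
            norm_add_le _ _
        _ = √l * |(a (l ^ j) : ℝ)| + √l ^ (j + 1) := by
            rw [norm_mul, norm_pow, hnα, hnβ, h6]
        _ ≤ √l * ((j + 1) * √l ^ j) + √l ^ (j + 1) := by
            have := mul_le_mul_of_nonneg_left ih (Real.sqrt_nonneg (l : ℝ))
            linarith
        _ = ((j + 1 : ℕ) + 1) * √l ^ (j + 1) := by push_cast; ring

/-- From the primes to all `n`. -/
theorem hasse_of_prime {N : ℕ} {a : ℕ → ℤ} (ha1 : a 1 = 1) (ha0 : a 0 = 0) (hH : HeckeAll N a)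
    (h : ∀ l : ℕ, l.Prime → ¬ l ∣ N → (a l) ^ 2 ≤ 4 * l)
    (h' : ∀ l : ℕ, l.Prime → l ∣ N → |a l| ≤ 1) (n : ℕ) :
    |(a n : ℝ)| ≤ n.divisors.card * √n := by
  induction n using Nat.strong_induction_on with
  | _ n ih =>
    rcases Nat.eq_zero_or_pos n with hn | hn
    · subst hn
      simp [ha0]
    rcases Nat.eq_or_lt_of_le hn with hn1 | hn1
    · have : n = 1 := hn1.symm
      subst this
      simp [ha1]
    have hl : n.minFac.Prime := Nat.minFac_prime (by omega)
    set l := n.minFac with hldef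
    obtain ⟨j, m, hm, hnm⟩ := Nat.exists_eq_pow_mul_and_not_dvd (by omega : n ≠ 0) l hl.ne_one
    have hj : j ≠ 0 := by
      rintro rfl
      rw [pow_zero, one_mul] at hnm
      exact hm (hnm ▸ Nat.minFac_dvd n)
    have hm0 : m ≠ 0 := by
      rintro rfl
      exact hm (dvd_zero l)
    have hlj : 1 < l ^ j := Nat.one_lt_pow hj hl.one_lt
    have hmn : m < n := by
      rw [hnm]
      exact lt_mul_of_one_lt_left (Nat.pos_of_ne_zero hm0) hlj
    have hcop : Nat.Coprime (l ^ j) m := Nat.Coprime.pow_left j ((Nat.Prime.coprime_iff_not_dvd hl).2 hm)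
    have hcard : n.divisors.card = (j + 1) * m.divisors.card := by
      rw [hnm, hcop.card_divisors_mul, Nat.divisors_prime_pow hl]
      simp
    have hsq : √(n : ℝ) = √l ^ j * √m := by
      have h7 : √((l : ℝ) ^ j) = √l ^ j := by
        have h8 : (l : ℝ) ^ j = (√l ^ j) ^ 2 := by
          rw [← pow_mul, mul_comm, pow_mul, Real.sq_sqrt (Nat.cast_nonneg l)]
        rw [h8, Real.sqrt_sq (by positivity)]
      rw [hnm]
      push_cast
      rw [Real.sqrt_mul (by positivity), h7]
    have hmul : a n = a (l ^ j) * a m := by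
      conv_lhs => rw [hnm]
      exact (hop_mul ha1 hH hl hm j).1
    rw [hmul, hcard, hsq]
    push_cast
    rw [abs_mul]
    calc |(a (l ^ j) : ℝ)| * |(a m : ℝ)| ≤ ((j + 1) * √l ^ j) * (m.divisors.card * √m) :=
          mul_le_mul (hop_pow ha1 hH h h' hl j) (ih m hmn) (abs_nonneg _) (by positivity)
      _ = (j + 1) * m.divisors.card * (√l ^ j * √m) := by ring

end Pool.Agent.MU0
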