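import Mathlib

/-!
Kloosterman's elementary bound for prime moduli: for a prime p, a primitive additive
character psi of Z/p and a, b in Z/p, a not 0, the sum over the units x of psi(a x + b x^(-1))
has absolute value at most 2 p^(3/4) (fourth power at most 3 p^3).
Self contained, only Mathlib.
-/

open Finset

namespace Pool.Agent.MU0.KL3

variable {p : ℕ} [Fact p.Prime]

/-- the Kloosterman sum -/
noncomputable def K (ψ : AddChar (ZMod p) ℂ) (a b : ZMod p) : ℂ :=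
  ∑ x : (ZMod p)ˣ, ψ (a * (x : ZMod p) + b * ((x⁻¹ : (ZMod p)ˣ) : ZMod p))

/-- scaling -/
theorem K_scale (ψ : AddChar (ZMod p) ℂ) (a b : ZMod p) (t : (ZMod p)ˣ) :
    K ψ (a * t) (b * ((t⁻¹ : (ZMod p)ˣ) : ZMod p)) = K ψ a b := by
  unfold K
  refine Fintype.sum_equiv (Equiv.mulLeft t) _ _ (fun x => ?_)
  congr 1
  simp only [Equiv.coe_mulLeft, Units.val_mul, mul_inv_rev]
  ring

/-- quadruples -/
def Q : Finset (((ZMod p)ˣ × (ZMod p)ˣ) × ((ZMod p)ˣ × (ZMod p)ˣ)) :=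
  univ.filter (fun z =>
    (z.1.1 : ZMod p) + z.1.2 - z.2.1 - z.2.2 = 0 ∧
    ((z.1.1⁻¹ : (ZMod p)ˣ) : ZMod p) + ((z.1.2⁻¹ : (ZMod p)ˣ) : ZMod p) -
      ((z.2.1⁻¹ : (ZMod p)ˣ) : ZMod p) - ((z.2.2⁻¹ : (ZMod p)ˣ) : ZMod p) = 0)

theorem normSq_pow (ψ : AddChar (ZMod p) ℂ) (a b : ZMod p) :
    ((‖K ψ a b‖ ^ 4 : ℝ) : ℂ) =
      ∑ z : ((ZMod p)ˣ × (ZMod p)ˣ) × ((ZMod p)ˣ × (ZMod p)ˣ),
        ψ (a * ((z.1.1 : ZMod p) + z.1.2 - z.2.1 - z.2.2)) *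
        ψ (b * (((z.1.1⁻¹ : (ZMod p)ˣ) : ZMod p) + ((z.1.2⁻¹ : (ZMod p)ˣ) : ZMod p) -
          ((z.2.1⁻¹ : (ZMod p)ˣ) : ZMod p) - ((z.2.2⁻¹ : (ZMod p)ˣ) : ZMod p))) := by
  have h1 : ((‖K ψ a b‖ ^ 4 : ℝ) : ℂ) =
      (starRingEnd ℂ (K ψ a b) * starRingEnd ℂ (K ψ a b)) * (K ψ a b * K ψ a b) := by
    have h2 : K ψ a b * starRingEnd ℂ (K ψ a b) = ((‖K ψ a b‖ ^ 2 : ℝ) : ℂ) := by
      rw [Complex.mul_conj, Complex.normSq_eq_norm_sq]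
    calc ((‖K ψ a b‖ ^ 4 : ℝ) : ℂ) = ((‖K ψ a b‖ ^ 2 : ℝ) : ℂ) * ((‖K ψ a b‖ ^ 2 : ℝ) : ℂ) := by
          push_cast; ring
      _ = (starRingEnd ℂ (K ψ a b) * starRingEnd ℂ (K ψ a b)) * (K ψ a b * K ψ a b) := by
          rw [← h2]; ring
  rw [h1]
  have hconj : starRingEnd ℂ (K ψ a b) =
      ∑ x : (ZMod p)ˣ, ψ (-(a * (x : ZMod p) + b * ((x⁻¹ : (ZMod p)ˣ) : ZMod p))) := by
    unfold K
    rw [map_sum]
    refine sum_congr rfl (fun x _ => ?_)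
    rw [AddChar.map_neg_eq_conj]
  rw [hconj]
  unfold K
  simp only [Fintype.sum_prod_type]
  rw [sum_mul_sum, sum_mul_sum]
  simp only [sum_mul, mul_sum]
  refine sum_congr rfl (fun x1 _ => sum_congr rfl (fun x2 _ => sum_congr rfl (fun x3 _ =>
    sum_congr rfl (fun x4 _ => ?_))))
  simp only [← AddChar.map_add_eq_mul]
  congr 1
  ring

theorem Q_card : ((Q : Finset (((ZMod p)ˣ × (ZMod p)ˣ) × ((ZMod p)ˣ × (ZMod p)ˣ))).card : ℝ) ≤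
    3 * ((p : ℝ) - 1) ^ 2 := by
  classical
  have hsub : (Q : Finset (((ZMod p)ˣ × (ZMod p)ˣ) × ((ZMod p)ˣ × (ZMod p)ˣ))) ⊆
      (univ.image (fun w : (ZMod p)ˣ × (ZMod p)ˣ => (w, w))) ∪
      ((univ.image (fun w : (ZMod p)ˣ × (ZMod p)ˣ => (w, (w.2, w.1)))) ∪
      (univ.image (fun w : (ZMod p)ˣ × (ZMod p)ˣ => ((w.1, -w.1), (w.2, -w.2))))) := by
    rintro ⟨⟨x1, x2⟩, ⟨x3, x4⟩⟩ hz
    simp only [Q, mem_filter, mem_univ, true_and] at hz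
    obtain ⟨h1, h2⟩ := hz
    simp only [mem_union, mem_image, mem_univ, true_and, Prod.mk.injEq, Prod.exists]
    have n1 : (x1 : ZMod p) ≠ 0 := x1.ne_zero
    have n2 : (x2 : ZMod p) ≠ 0 := x2.ne_zero
    have n3 : (x3 : ZMod p) ≠ 0 := x3.ne_zero
    have n4 : (x4 : ZMod p) ≠ 0 := x4.ne_zero
    simp only [Units.val_inv_eq_inv_val] at h2
    by_cases hs : (x1 : ZMod p) + x2 = 0
    · right; right
      refine ⟨x1, x3, ⟨rfl, ?_⟩, rfl, ?_⟩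
      · apply Units.ext
        rw [Units.val_neg]
        linear_combination -hs
      · apply Units.ext
        rw [Units.val_neg]
        linear_combination -hs + h1
    · have h3 : ((x1 : ZMod p) + x2) * ((x3 : ZMod p) * x4 - x1 * x2) = 0 := by
        have h4 : ((x1 : ZMod p) * x2 * x3 * x4) *
            ((x1 : ZMod p)⁻¹ + (x2 : ZMod p)⁻¹ - (x3 : ZMod p)⁻¹ - (x4 : ZMod p)⁻¹) = 0 := by
          rw [h2, mul_zero]
        have h5 : ((x1 : ZMod p) * x2 * x3 * x4) *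
            ((x1 : ZMod p)⁻¹ + (x2 : ZMod p)⁻¹ - (x3 : ZMod p)⁻¹ - (x4 : ZMod p)⁻¹) =
            (x1 + x2) * (x3 * x4) - (x3 + x4) * (x1 * x2) := by
          field_simp
          ring
        rw [h5] at h4
        linear_combination h4 + ((x1 : ZMod p) * x2) * (-h1)
      have h6 : (x3 : ZMod p) * x4 - x1 * x2 = 0 := by
        rcases mul_eq_zero.1 h3 with h | h
        · exact absurd h hs
        · exact h
      have h7 : ((x3 : ZMod p) - x1) * ((x3 : ZMod p) - x2) = 0 := by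
        linear_combination (-(x3 : ZMod p)) * h1 - h6
      rcases mul_eq_zero.1 h7 with h | h
      · left
        refine ⟨x1, x2, ⟨rfl, rfl⟩, ?_, ?_⟩
        · apply Units.ext
          linear_combination -h
        · apply Units.ext
          linear_combination h1 + h
      · right; left
        refine ⟨x1, x2, ⟨rfl, rfl⟩, ?_, ?_⟩
        · apply Units.ext
          linear_combination -h
        · apply Units.ext
          linear_combination h1 + h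
  have hcard : (univ : Finset ((ZMod p)ˣ × (ZMod p)ˣ)).card = (p - 1) ^ 2 := by
    rw [card_univ, Fintype.card_prod, ZMod.card_units, sq]
  have h8 := (card_le_card hsub).trans (card_union_le _ _)
  have h9 : (Q : Finset (((ZMod p)ˣ × (ZMod p)ˣ) × ((ZMod p)ˣ × (ZMod p)ˣ))).card ≤
      3 * (p - 1) ^ 2 := by
    refine h8.trans ?_
    have i1 := (card_image_le (s := (univ : Finset ((ZMod p)ˣ × (ZMod p)ˣ)))
      (f := (fun w : (ZMod p)ˣ × (ZMod p)ˣ => (w, w))))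
    have i2 := (card_image_le (s := (univ : Finset ((ZMod p)ˣ × (ZMod p)ˣ)))
      (f := (fun w : (ZMod p)ˣ × (ZMod p)ˣ => (w, (w.2, w.1)))))
    have i3 := (card_image_le (s := (univ : Finset ((ZMod p)ˣ × (ZMod p)ˣ)))
      (f := (fun w : (ZMod p)ˣ × (ZMod p)ˣ => ((w.1, -w.1), (w.2, -w.2)))))
    have i4 := card_union_le
      (univ.image (fun w : (ZMod p)ˣ × (ZMod p)ˣ => (w, (w.2, w.1))))
      (univ.image (fun w : (ZMod p)ˣ × (ZMod p)ˣ => ((w.1, -w.1), (w.2, -w.2))))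
    rw [hcard] at i1 i2 i3
    omega
  have h10 : ((p - 1 : ℕ) : ℝ) = (p : ℝ) - 1 := by
    rw [Nat.cast_sub (Fact.out : p.Prime).one_le, Nat.cast_one]
  calc ((Q : Finset (((ZMod p)ˣ × (ZMod p)ˣ) × ((ZMod p)ˣ × (ZMod p)ˣ))).card : ℝ)
      ≤ ((3 * (p - 1) ^ 2 : ℕ) : ℝ) := by exact_mod_cast h9
    _ = 3 * ((p : ℝ) - 1) ^ 2 := by
        rw [Nat.cast_mul, Nat.cast_pow, h10]; norm_num

/-- the fourth moment over all pairs -/
theorem moment (ψ : AddChar (ZMod p) ℂ) (hψ : ψ.IsPrimitive) :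
    ∑ a : ZMod p, ∑ b : ZMod p, ‖K ψ a b‖ ^ 4 =
      (p : ℝ) ^ 2 *
        ((Q : Finset (((ZMod p)ˣ × (ZMod p)ˣ) × ((ZMod p)ˣ × (ZMod p)ˣ))).card : ℝ) := by
  classical
  have hC : ((∑ a : ZMod p, ∑ b : ZMod p, ‖K ψ a b‖ ^ 4 : ℝ) : ℂ) =
      (((p : ℝ) ^ 2 *
        ((Q : Finset (((ZMod p)ˣ × (ZMod p)ˣ) × ((ZMod p)ˣ × (ZMod p)ˣ))).card : ℝ) : ℝ) : ℂ) := by
    rw [Complex.ofReal_sum]
    simp only [Complex.ofReal_sum, normSq_pow]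
    have hs : ∀ a : ZMod p, ∑ b : ZMod p,
        ∑ z : ((ZMod p)ˣ × (ZMod p)ˣ) × ((ZMod p)ˣ × (ZMod p)ˣ),
        ψ (a * ((z.1.1 : ZMod p) + z.1.2 - z.2.1 - z.2.2)) *
        ψ (b * (((z.1.1⁻¹ : (ZMod p)ˣ) : ZMod p) + ((z.1.2⁻¹ : (ZMod p)ˣ) : ZMod p) -
          ((z.2.1⁻¹ : (ZMod p)ˣ) : ZMod p) - ((z.2.2⁻¹ : (ZMod p)ˣ) : ZMod p))) =
        ∑ z : ((ZMod p)ˣ × (ZMod p)ˣ) × ((ZMod p)ˣ × (ZMod p)ˣ),
        ψ (a * ((z.1.1 : ZMod p) + z.1.2 - z.2.1 - z.2.2)) *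
        (if (((z.1.1⁻¹ : (ZMod p)ˣ) : ZMod p) + ((z.1.2⁻¹ : (ZMod p)ˣ) : ZMod p) -
          ((z.2.1⁻¹ : (ZMod p)ˣ) : ZMod p) - ((z.2.2⁻¹ : (ZMod p)ˣ) : ZMod p)) = 0
          then (p : ℂ) else 0) := by
      intro a
      rw [sum_comm]
      refine sum_congr rfl (fun z _ => ?_)
      rw [← mul_sum, AddChar.sum_mulShift _ hψ, ZMod.card]
      norm_cast
    simp only [hs]
    rw [sum_comm]
    have ht : ∀ z : ((ZMod p)ˣ × (ZMod p)ˣ) × ((ZMod p)ˣ × (ZMod p)ˣ),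
        ∑ a : ZMod p, ψ (a * ((z.1.1 : ZMod p) + z.1.2 - z.2.1 - z.2.2)) *
        (if (((z.1.1⁻¹ : (ZMod p)ˣ) : ZMod p) + ((z.1.2⁻¹ : (ZMod p)ˣ) : ZMod p) -
          ((z.2.1⁻¹ : (ZMod p)ˣ) : ZMod p) - ((z.2.2⁻¹ : (ZMod p)ˣ) : ZMod p)) = 0
          then (p : ℂ) else 0) = if z ∈ (Q : Finset _) then (p : ℂ) ^ 2 else 0 := by
      intro z
      rw [← sum_mul, AddChar.sum_mulShift _ hψ, ZMod.card]
      by_cases h1 : ((z.1.1 : ZMod p) + z.1.2 - z.2.1 - z.2.2) = 0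
      · by_cases h2 : (((z.1.1⁻¹ : (ZMod p)ˣ) : ZMod p) + ((z.1.2⁻¹ : (ZMod p)ˣ) : ZMod p) -
          ((z.2.1⁻¹ : (ZMod p)ˣ) : ZMod p) - ((z.2.2⁻¹ : (ZMod p)ˣ) : ZMod p)) = 0
        · have hz : z ∈ (Q : Finset _) := by
            simp only [Q, mem_filter, mem_univ, true_and]; exact ⟨h1, h2⟩
          rw [if_pos h1, if_pos h2, if_pos hz, sq]
        · have hz : z ∉ (Q : Finset _) := by
            simp only [Q, mem_filter, mem_univ, true_and]; exact fun h => h2 h.2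
          rw [if_neg h2, if_neg hz, mul_zero]
      · have hz : z ∉ (Q : Finset _) := by
          simp only [Q, mem_filter, mem_univ, true_and]; exact fun h => h1 h.1
        rw [if_neg h1, if_neg hz, Nat.cast_zero, zero_mul]
    simp only [ht]
    rw [sum_ite_mem, univ_inter, sum_const, nsmul_eq_mul]
    push_cast
    ring
  exact_mod_cast hC

/-- Kloosterman's bound, fourth power form -/
theorem K_pow_le (ψ : AddChar (ZMod p) ℂ) (hψ : ψ.IsPrimitive) (a b : ZMod p) (ha : a ≠ 0) :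
    ‖K ψ a b‖ ^ 4 ≤ 3 * (p : ℝ) ^ 3 := by
  classical
  have hp1 : (1 : ℝ) < p := by exact_mod_cast (Fact.out : p.Prime).one_lt
  -- the orbit
  have h1 : ((p : ℝ) - 1) * ‖K ψ a b‖ ^ 4 ≤ ∑ a' : ZMod p, ∑ b' : ZMod p, ‖K ψ a' b'‖ ^ 4 := by
    have h2 : ((p : ℝ) - 1) * ‖K ψ a b‖ ^ 4 =
        ∑ t : (ZMod p)ˣ, ‖K ψ (a * t) (b * ((t⁻¹ : (ZMod p)ˣ) : ZMod p))‖ ^ 4 := by
      simp only [K_scale]
      rw [sum_const, card_univ, ZMod.card_units, nsmul_eq_mul,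
        Nat.cast_sub (Fact.out : p.Prime).one_le, Nat.cast_one]
    rw [h2, ← Fintype.sum_prod_type' (f := fun a' b' : ZMod p => ‖K ψ a' b'‖ ^ 4)]
    have hinj : Function.Injective (fun t : (ZMod p)ˣ =>
        ((a * t, b * ((t⁻¹ : (ZMod p)ˣ) : ZMod p)) : ZMod p × ZMod p)) := by
      intro t t' h
      simp only [Prod.mk.injEq] at h
      exact Units.ext (mul_left_cancel₀ ha h.1)
    calc ∑ t : (ZMod p)ˣ, ‖K ψ (a * t) (b * ((t⁻¹ : (ZMod p)ˣ) : ZMod p))‖ ^ 4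
        = ∑ w ∈ univ.image (fun t : (ZMod p)ˣ =>
          ((a * t, b * ((t⁻¹ : (ZMod p)ˣ) : ZMod p)) : ZMod p × ZMod p)), ‖K ψ w.1 w.2‖ ^ 4 := by
          rw [sum_image (fun _ _ _ _ h => hinj h)]
      _ ≤ ∑ w : ZMod p × ZMod p, ‖K ψ w.1 w.2‖ ^ 4 :=
          sum_le_univ_sum_of_nonneg (fun w => by positivity)
  rw [moment ψ hψ] at h1
  have h3 := mul_le_mul_of_nonneg_left (Q_card (p := p)) (sq_nonneg (p : ℝ))
  have h4 : ((p : ℝ) - 1) * ‖K ψ a b‖ ^ 4 ≤ ((p : ℝ) - 1) * (3 * (p : ℝ) ^ 3) := by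
    refine h1.trans (h3.trans ?_)
    have : (p : ℝ) ^ 2 * (3 * ((p : ℝ) - 1) ^ 2) ≤ ((p : ℝ) - 1) * (3 * (p : ℝ) ^ 3) := by
      have h5 : 0 ≤ ((p : ℝ) - 1) * (p : ℝ) ^ 2 := mul_nonneg (by linarith) (sq_nonneg _)
      nlinarith
    exact this
  exact le_of_mul_le_mul_left h4 (by linarith)

/-- symmetry -/
theorem K_swap (ψ : AddChar (ZMod p) ℂ) (a b : ZMod p) : K ψ a b = K ψ b a := by
  unfold K
  refine Fintype.sum_equiv (Equiv.inv _) _ _ (fun x => ?_)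
  simp only [Equiv.inv_apply, inv_inv]
  rw [add_comm]

/-- Kloosterman's bound -/
theorem K_le (ψ : AddChar (ZMod p) ℂ) (hψ : ψ.IsPrimitive) (a b : ZMod p) (h : a ≠ 0 ∨ b ≠ 0) :
    ‖K ψ a b‖ ≤ 2 * (p : ℝ) ^ (3 / 4 : ℝ) := by
  have hp0 : (0 : ℝ) ≤ p := Nat.cast_nonneg p
  have h4 : ‖K ψ a b‖ ^ 4 ≤ 3 * (p : ℝ) ^ 3 := by
    rcases h with h | h
    · exact K_pow_le ψ hψ a b h
    · rw [K_swap]; exact K_pow_le ψ hψ b a h
  have h5 : (2 * (p : ℝ) ^ (3 / 4 : ℝ)) ^ 4 = 16 * (p : ℝ) ^ 3 := by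
    rw [mul_pow, ← Real.rpow_natCast ((p : ℝ) ^ (3 / 4 : ℝ)) 4, ← Real.rpow_mul hp0]
    norm_num
  have h6 : (0 : ℝ) ≤ (p : ℝ) ^ 3 := by positivity
  refine le_of_pow_le_pow_left₀ (n := 4) (by norm_num) (by positivity) ?_
  rw [h5]
  linarith

/-- trivial bound -/
theorem K_trivial (ψ : AddChar (ZMod p) ℂ) (a b : ZMod p) : ‖K ψ a b‖ ≤ (p : ℝ) - 1 := by
  unfold K
  refine (norm_sum_le _ _).trans ?_
  have h1 : ∀ x : ZMod p, ‖ψ x‖ = 1 := fun x => AddChar.norm_apply ψ x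
  simp only [h1, sum_const, card_univ, ZMod.card_units, nsmul_eq_mul, mul_one]
  rw [Nat.cast_sub (Fact.out : p.Prime).one_le, Nat.cast_one]

/-- with the standard character and integers -/
theorem K_std_le (m n : ℤ) (h : ¬ ((p : ℤ) ∣ m ∧ (p : ℤ) ∣ n)) :
    ‖∑ x : (ZMod p)ˣ, Complex.exp (2 * Real.pi * Complex.I *
      (((m * ((x : ZMod p).val : ℤ) + n * (((x⁻¹ : (ZMod p)ˣ) : ZMod p).val : ℤ) : ℤ)) : ℂ) / p)‖ ≤
      2 * (p : ℝ) ^ (3 / 4 : ℝ) := by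
  have h1 := K_le (ZMod.stdAddChar (N := p)) (ZMod.isPrimitive_stdAddChar p) (m : ZMod p) (n : ZMod p)
    (by
      by_contra hcon
      push Not at hcon
      exact h ⟨(ZMod.intCast_zmod_eq_zero_iff_dvd _ _).1 hcon.1,
        (ZMod.intCast_zmod_eq_zero_iff_dvd _ _).1 hcon.2⟩)
  refine le_trans (le_of_eq ?_) h1
  congr 1
  unfold K
  refine sum_congr rfl (fun x _ => ?_)
  rw [← ZMod.stdAddChar_coe]
  congr 1
  push_cast
  rw [ZMod.natCast_zmod_val, ZMod.natCast_zmod_val]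

end Pool.Agent.MU0.KL3
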