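import Pool.Agent.MU0.Mv2

/-!
# The mean value theorem on the orbits of `H`: norms
-/

set_option autoImplicit false

open Finset
open scoped ComplexConjugate

namespace Pool.Agent.MU0

open Pool.Agent.MU1

/-- Parseval, as an inequality -/
theorem mv_parseval {q : ℕ} [NeZero q] {ι : Type*} (S : Finset ι) (c : ι → ℂ) (k : ι → ZMod q) :
    ∑ b : ZMod q, ‖∑ i ∈ S, c i * ZMod.stdAddChar (k i * b)‖ ^ 2 ≤
      q * ∑ i ∈ S, ∑ j ∈ S, if k i = k j then ‖c i‖ * ‖c j‖ else 0 := by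
  classical
  have h1 : ∀ b : ZMod q, ((‖∑ i ∈ S, c i * ZMod.stdAddChar (k i * b)‖ ^ 2 : ℝ) : ℂ) =
      ∑ i ∈ S, ∑ j ∈ S, c i * conj (c j) * ZMod.stdAddChar ((k i - k j) * b) := by
    intro b
    rw [Complex.ofReal_pow, ← Complex.mul_conj', map_sum, sum_mul_sum]
    refine sum_congr rfl fun i _ => sum_congr rfl fun j _ => ?_
    have h3 : conj (c j * (ZMod.stdAddChar (k j * b) : ℂ)) =
        conj (c j) * (ZMod.stdAddChar (-(k j * b)) : ℂ) := by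
      rw [AddChar.map_neg_eq_conj, ← map_mul (starRingEnd ℂ)]
    rw [h3]
    have h2 : (ZMod.stdAddChar ((k i - k j) * b) : ℂ) =
        ZMod.stdAddChar (k i * b) * ZMod.stdAddChar (-(k j * b)) := by
      rw [← AddChar.map_add_eq_mul]
      congr 1
      ring
    rw [h2]
    ring
  have h2 : ((∑ b : ZMod q, ‖∑ i ∈ S, c i * ZMod.stdAddChar (k i * b)‖ ^ 2 : ℝ) : ℂ) =
      ∑ i ∈ S, ∑ j ∈ S, c i * conj (c j) * (if k i = k j then (q : ℂ) else 0) := by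
    push_cast
    have h3 : ∀ b : ZMod q, ((‖∑ i ∈ S, c i * ZMod.stdAddChar (k i * b)‖ : ℝ) : ℂ) ^ 2 =
        ∑ i ∈ S, ∑ j ∈ S, c i * conj (c j) * ZMod.stdAddChar ((k i - k j) * b) := by
      intro b
      rw [← h1 b]
      push_cast
      rfl
    rw [sum_congr rfl fun b _ => h3 b, sum_comm]
    refine sum_congr rfl fun i _ => ?_
    rw [sum_comm]
    refine sum_congr rfl fun j _ => ?_
    rw [← mul_sum]
    congr 1
    have h4 := AddChar.sum_mulShift (k i - k j) (ZMod.isPrimitive_stdAddChar q)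
    have h5 : ∑ b : ZMod q, (ZMod.stdAddChar ((k i - k j) * b) : ℂ) =
        ∑ b : ZMod q, (ZMod.stdAddChar (b * (k i - k j)) : ℂ) :=
      sum_congr rfl fun b _ => by rw [mul_comm]
    rw [h5, h4, ZMod.card]
    by_cases h6 : k i = k j
    · rw [if_pos (sub_eq_zero.2 h6), if_pos h6]
    · rw [if_neg (sub_ne_zero.2 h6), if_neg h6]
      simp
  have h3 : (∑ b : ZMod q, ‖∑ i ∈ S, c i * ZMod.stdAddChar (k i * b)‖ ^ 2 : ℝ) =
      ‖((∑ b : ZMod q, ‖∑ i ∈ S, c i * ZMod.stdAddChar (k i * b)‖ ^ 2 : ℝ) : ℂ)‖ := by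
    rw [Complex.norm_real, Real.norm_of_nonneg (sum_nonneg fun b _ => sq_nonneg _)]
  rw [h3, h2, mul_sum]
  refine (norm_sum_le _ _).trans (sum_le_sum fun i _ => ?_)
  rw [mul_sum]
  refine (norm_sum_le _ _).trans (sum_le_sum fun j _ => ?_)
  rw [norm_mul, norm_mul, Complex.norm_conj]
  by_cases h6 : k i = k j
  · rw [if_pos h6, if_pos h6, Complex.norm_natCast]
    exact le_of_eq (by ring)
  · rw [if_neg h6, if_neg h6, norm_zero, mul_zero, mul_zero]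

theorem mv_shift {p q : ℕ} [NeZero q] (Φ : (ZMod q)ˣ → ℝ) (z' : (ZMod q)ˣ) (hz' : z' ∈ HH p q) :
    ∑ z ∈ HH p q, Φ (z * z'⁻¹) = ∑ y ∈ HH p q, Φ y := by
  have hz : z' ^ (p - 1) = 1 := by
    simpa only [HH, mem_filter, mem_univ, true_and] using hz'
  refine sum_bij' (fun z _ => z * z'⁻¹) (fun y _ => y * z') ?_ ?_ ?_ ?_ ?_
  · intro z hz2
    simp only [HH, mem_filter, mem_univ, true_and] at hz2 ⊢
    rw [mul_pow, inv_pow, hz2, hz, inv_one, mul_one]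
  · intro z hz2
    simp only [HH, mem_filter, mem_univ, true_and] at hz2 ⊢
    rw [mul_pow, hz2, hz, mul_one]
  · intro z _
    rw [inv_mul_cancel_right]
  · intro z _
    rw [mul_inv_cancel_right]
  · intro z _
    rfl

theorem mv_quad {p q : ℕ} [NeZero q] (K : ℕ) (x : ℕ → ℂ) :
    ∑ b : ZMod q, ‖∑ z ∈ HH p q, ∑ m ∈ Icc 1 K, x m *
        ZMod.stdAddChar ((m : ZMod q) * ((z : ZMod q) * b))‖ ^ 2 ≤
      q * ((HH p q).card * ∑ z ∈ HH p q, ∑ t ∈ mvP (z : ZMod q) K, ‖x t.1‖ * ‖x t.2‖) := by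
  classical
  have h1 := mv_parseval ((HH p q) ×ˢ (Icc 1 K)) (fun i : (ZMod q)ˣ × ℕ => x i.2)
    (fun i => (i.2 : ZMod q) * (i.1 : ZMod q))
  have h2 : ∀ b : ZMod q, ∑ z ∈ HH p q, ∑ m ∈ Icc 1 K, x m *
        ZMod.stdAddChar ((m : ZMod q) * ((z : ZMod q) * b)) =
      ∑ i ∈ (HH p q) ×ˢ (Icc 1 K), x i.2 *
        ZMod.stdAddChar ((i.2 : ZMod q) * (i.1 : ZMod q) * b) := by
    intro b
    rw [sum_product]
    refine sum_congr rfl fun z _ => sum_congr rfl fun m _ => ?_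
    rw [mul_assoc]
  simp only [h2]
  refine h1.trans ?_
  refine mul_le_mul_of_nonneg_left ?_ (by positivity)
  rw [sum_product]
  have h3 : ∀ z ∈ HH p q, ∑ m ∈ Icc 1 K, ∑ j ∈ (HH p q) ×ˢ (Icc 1 K),
      (if (m : ZMod q) * (z : ZMod q) = (j.2 : ZMod q) * (j.1 : ZMod q) then ‖x m‖ * ‖x j.2‖ else 0) =
      ∑ z' ∈ HH p q, ∑ t ∈ mvP ((z * z'⁻¹ : (ZMod q)ˣ) : ZMod q) K, ‖x t.1‖ * ‖x t.2‖ := by
    intro z _
    have h4 : ∀ m ∈ Icc 1 K, ∑ j ∈ (HH p q) ×ˢ (Icc 1 K),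
        (if (m : ZMod q) * (z : ZMod q) = (j.2 : ZMod q) * (j.1 : ZMod q) then ‖x m‖ * ‖x j.2‖ else 0) =
        ∑ z' ∈ HH p q, ∑ m' ∈ Icc 1 K,
        (if (m' : ZMod q) = ((z * z'⁻¹ : (ZMod q)ˣ) : ZMod q) * (m : ZMod q)
          then ‖x m‖ * ‖x m'‖ else 0) := by
      intro m _
      rw [sum_product]
      refine sum_congr rfl fun z' _ => sum_congr rfl fun m' _ => ?_
      congr 1
      rw [eq_iff_iff]
      constructor
      · intro h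
        rw [Units.val_mul]
        have h5 : (z' : ZMod q) * ((z'⁻¹ : (ZMod q)ˣ) : ZMod q) = 1 := z'.mul_inv
        simp only at h
        calc (m' : ZMod q) = (m' : ZMod q) * (z' * ((z'⁻¹ : (ZMod q)ˣ) : ZMod q)) := by rw [h5, mul_one]
          _ = ((m' : ZMod q) * z') * ((z'⁻¹ : (ZMod q)ˣ) : ZMod q) := by ring
          _ = _ := by rw [← h]; ring
      · intro h
        have h5 : ((z'⁻¹ : (ZMod q)ˣ) : ZMod q) * (z' : ZMod q) = 1 := z'.inv_mul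
        simp only
        rw [h, Units.val_mul]
        linear_combination (-(m : ZMod q) * z) * h5
    rw [sum_congr rfl h4, sum_comm]
    refine sum_congr rfl fun z' _ => ?_
    rw [mvP, sum_filter, sum_product]
  rw [sum_congr rfl h3, sum_comm]
  have h4 : ∀ z' ∈ HH p q, ∑ z ∈ HH p q, ∑ t ∈ mvP ((z * z'⁻¹ : (ZMod q)ˣ) : ZMod q) K,
      ‖x t.1‖ * ‖x t.2‖ = ∑ y ∈ HH p q, ∑ t ∈ mvP (y : ZMod q) K, ‖x t.1‖ * ‖x t.2‖ := fun z' hz' =>
    mv_shift (p := p) (q := q)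
      (fun y : (ZMod q)ˣ => ∑ t ∈ mvP (y : ZMod q) K, ‖x t.1‖ * ‖x t.2‖) z' hz'
  rw [sum_congr rfl h4, sum_const, nsmul_eq_mul]

theorem mv_cardHH {p n q : ℕ} [NeZero q] (hp : p.Prime) (hn : 1 ≤ n) (hq : q = p ^ n) :
    (HH p q).card ≤ p := by
  have h2 : (HH p q).card ≤ p - 1 := by
    subst hq
    refine teich_card hp hn _ ?_
    intro z hz
    simp only [HH, mem_filter, mem_univ, true_and] at hz
    exact hz
  omega

/-- **the mean value theorem on the orbits of `H`** -/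
theorem mv_norm : ∃ (C : ℝ) (p₀ : ℕ), ∀ p : ℕ, p₀ ≤ p → p.Prime → ∀ (n q : ℕ) [NeZero q], q = p ^ n →
    (p : ℝ) ^ (3 / 5 : ℝ) ≤ Real.log q → Real.log q ≤ p → ∀ K : ℕ, (K : ℝ) * (p : ℝ) ^ 150 ≤ q →
    ∀ (x : ℕ → ℂ) (β : ℝ), (∀ m ∈ Icc 1 K, ‖x m‖ ≤ β * (m.divisors.card / √(m : ℝ))) →
    EE q (fun b => ‖∑ z ∈ HH p q, ∑ m ∈ Icc 1 K, x m *
        ZMod.stdAddChar ((m : ZMod q) * ((z : ZMod q) * b))‖ ^ 2) ≤
      p * (C * Real.log p * ∑ m ∈ Icc 1 K, ‖x m‖ ^ 2 + β ^ 2 * (p : ℝ) ^ (-(5 : ℝ))) := by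
  obtain ⟨C, p₀, h⟩ := mv_core
  refine ⟨C, max p₀ 2, fun p hp hpp n q _ hq hlow hup K hK x β hx => ?_⟩
  have hqr : (0 : ℝ) < q := by exact_mod_cast Nat.pos_of_ne_zero (NeZero.ne q)
  have hn : 1 ≤ n := by
    rcases Nat.eq_zero_or_pos n with h0 | h0
    · rw [h0, pow_zero] at hq
      rw [hq] at hlow
      have h2 : (0 : ℝ) < (p : ℝ) ^ (3 / 5 : ℝ) := by
        have : (0 : ℝ) < p := by exact_mod_cast hpp.pos
        positivity
      simp at hlow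
      linarith
    · exact h0
  have h1 := h p (le_of_max_le_left hp) hpp n q hq hlow hup K hK (fun m => ‖x m‖) β
    fun m hm => ⟨norm_nonneg _, hx m hm⟩
  have h2 := mv_quad (p := p) (q := q) K x
  have h3 : ((HH p q).card : ℝ) ≤ p := by exact_mod_cast mv_cardHH hpp hn hq
  have h4 : 0 ≤ ∑ z ∈ HH p q, ∑ t ∈ mvP (z : ZMod q) K, ‖x t.1‖ * ‖x t.2‖ :=
    sum_nonneg fun z _ => sum_nonneg fun t _ => by positivity
  unfold EE
  rw [div_le_iff₀ hqr]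
  refine h2.trans ?_
  rw [mul_comm]
  refine mul_le_mul_of_nonneg_right ?_ hqr.le
  calc ((HH p q).card : ℝ) * ∑ z ∈ HH p q, ∑ t ∈ mvP (z : ZMod q) K, ‖x t.1‖ * ‖x t.2‖
      ≤ p * ∑ z ∈ HH p q, ∑ t ∈ mvP (z : ZMod q) K, ‖x t.1‖ * ‖x t.2‖ :=
        mul_le_mul_of_nonneg_right h3 h4
    _ ≤ _ := mul_le_mul_of_nonneg_left h1 (by positivity)

end Pool.Agent.MU0
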