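import Pool.Agent.MU0.TDefs
import Pool.Agent.MU0.Mv3
import Pool.Agent.MU74.Parseval

/-!
# The mean value of a block
-/

set_option autoImplicit false

open Finset CongruenceSubgroup
open Pool.Agent.MZ Pool.Agent.MZ.Per Pool.Agent.MU1
open scoped Real

namespace Pool.Agent.MU0

open UpperHalfPlane hiding I in
/-- Bessel on the height `y`. -/
theorem mvb_bessel {N : ℕ} [NeZero N] (f : CuspForm (Gamma0 N) 2) {a : ℕ → ℤ}
    (ha : ∀ n, (UpperHalfPlane.qExpansion 1 f).coeff n = a n) :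
    ∃ C : ℝ, 0 ≤ C ∧ ∀ y : ℝ, 0 < y → ∀ s : Finset ℕ,
      ∑ k ∈ s, (a k : ℝ) ^ 2 * Real.exp (-(4 * π * k * y)) ≤ (C / y) ^ 2 := by
  obtain ⟨C, hC⟩ := CuspFormClass.exists_bound f
  have hpi := Real.pi_pos
  have hC0 : 0 ≤ C := by
    have h := hC UpperHalfPlane.I
    have h1 : (0 : ℝ) < UpperHalfPlane.I.im ^ ((2 : ℤ) / 2 : ℝ) := by
      have := UpperHalfPlane.I.im_pos
      positivity
    rw [le_div_iff₀ (by positivity)] at h
    exact (by positivity : (0 : ℝ) ≤ ‖f UpperHalfPlane.I‖ * _).trans h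
  refine ⟨C, hC0, fun y hy0 s => ?_⟩
  set d : ℕ → ℂ := fun n => (a n : ℂ) * (Real.exp (-(2 * π * n * y)) : ℂ) with hd
  have hterm : ∀ x : ℝ, HasSum (fun n : ℕ => d n * Complex.exp (2 * π * Complex.I * n * x / (1 : ℝ)))
      (f (ofComplex ((x : ℂ) + y * Complex.I))) := by
    intro x
    have him : 0 < ((x : ℂ) + y * Complex.I).im := by simpa using hy0
    have h := hasSum_q f (a := fun n => ((a n : ℤ) : ℂ)) ha ((x : ℂ) + y * Complex.I) him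
    convert h using 2 with n
    rw [hd]
    simp only
    rw [Complex.ofReal_exp, mul_assoc, ← Complex.exp_add]
    congr 2
    push_cast
    linear_combination (-(2 * π * (n : ℂ) * y)) * Complex.I_mul_I
  have hsd : Summable fun n => ‖d n‖ := by
    have h := (hterm 0).summable.norm
    refine h.congr fun n => ?_
    rw [norm_mul]
    simp
  have hB : ∀ x : ℝ, ‖∑' n : ℕ, d n * Complex.exp (2 * π * Complex.I * n * x / (1 : ℝ))‖ ≤ C / y := by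
    intro x
    rw [(hterm x).tsum_eq]
    have him : 0 < ((x : ℂ) + y * Complex.I).im := by simpa using hy0
    have h := hC (ofComplex ((x : ℂ) + y * Complex.I))
    rw [ofComplex_apply_of_im_pos him] at h ⊢
    have h1 : (⟨(x : ℂ) + y * Complex.I, him⟩ : UpperHalfPlane).im = y := by
      change ((x : ℂ) + y * Complex.I).im = y
      simp
    rw [h1] at h
    have h2 : y ^ ((2 : ℤ) / 2 : ℝ) = y := by norm_num
    rwa [h2] at h
  have h := MU74.bessel one_pos hsd (by positivity : 0 ≤ C / y) hB s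
  refine le_trans (Finset.sum_le_sum fun k _ => le_of_eq ?_) h
  rw [hd]
  simp only
  rw [norm_mul, Complex.norm_real, Real.norm_of_nonneg (Real.exp_pos _).le, _root_.mul_pow,
    Complex.norm_intCast, sq_abs, ← Real.exp_nat_mul]
  congr 2
  push_cast
  ring

/-- `t e^(-t) ≤ 1`. -/
theorem mvb_texp (t : ℝ) : t * Real.exp (-t) ≤ 1 := by
  have h1 := Real.add_one_le_exp t
  have h2 := Real.exp_pos (-t)
  have h3 : Real.exp t * Real.exp (-t) = 1 := by rw [← Real.exp_add]; simp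
  nlinarith

/-- the pointwise bound -/
theorem mvb_beta {N : ℕ} [NeZero N] (f : CuspForm (Gamma0 N) 2) {a : ℕ → ℤ} (hf : Frm f a)
    {η L : ℝ} (hη : 0 < η) (hL : 0 < L) {m : ℕ} (hm : 1 ≤ m) :
    η * |(a m : ℝ)| * Real.exp (-(2 * π * L * m * η)) ≤ 1 / L * (m.divisors.card / √(m : ℝ)) := by
  have hpi := Real.pi_gt_three
  have hm0 : (0 : ℝ) < m := by exact_mod_cast hm
  have hs : 0 < √(m : ℝ) := Real.sqrt_pos.2 hm0
  have hss : √(m : ℝ) * √(m : ℝ) = m := Real.mul_self_sqrt hm0.le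
  have h1 := hf.hasse m
  have h2 := mvb_texp (2 * π * L * m * η)
  have h3 : L * η * m * Real.exp (-(2 * π * L * m * η)) ≤ 1 := by
    have h4 : 0 ≤ L * η * m * Real.exp (-(2 * π * L * m * η)) := by positivity
    have h5 : 2 * π * L * m * η * Real.exp (-(2 * π * L * m * η)) =
      2 * π * (L * η * m * Real.exp (-(2 * π * L * m * η))) := by ring
    rw [h5] at h2
    nlinarith
  have h6 : (0 : ℝ) ≤ m.divisors.card := Nat.cast_nonneg _
  have h7 : 0 < Real.exp (-(2 * π * L * m * η)) := Real.exp_pos _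
  rw [_root_.one_div, inv_mul_eq_div, le_div_iff₀ hL, le_div_iff₀ hs]
  calc η * |(a m : ℝ)| * Real.exp (-(2 * π * L * m * η)) * L * √(m : ℝ)
      ≤ η * (m.divisors.card * √(m : ℝ)) * Real.exp (-(2 * π * L * m * η)) * L * √(m : ℝ) := by
        gcongr
    _ = m.divisors.card * (L * η * (√(m : ℝ) * √(m : ℝ)) * Real.exp (-(2 * π * L * m * η))) := by ring
    _ = m.divisors.card * (L * η * m * Real.exp (-(2 * π * L * m * η))) := by rw [hss]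
    _ ≤ m.divisors.card * 1 := by gcongr
    _ = m.divisors.card := mul_one _

theorem mvb_zero {N : ℕ} [NeZero N] (f : CuspForm (Gamma0 N) 2) {a : ℕ → ℤ} (hf : Frm f a) :
    a 0 = 0 := by
  have h := hf.hasse 0
  have h1 : |(a 0 : ℝ)| ≤ 0 := by simpa using h
  have h2 : (a 0 : ℝ) = 0 := abs_nonpos_iff.1 h1
  exact_mod_cast h2

/-- a finite series -/
theorem mvb_sr {x : ℕ → ℝ} {q : ℕ} [NeZero q] {K : ℕ} (h0 : x 0 = 0) (hK : ∀ k, K < k → x k = 0)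
    (b : ZMod q) : sr x b = ∑ m ∈ Icc 1 K, (x m : ℂ) * ZMod.stdAddChar ((m : ZMod q) * b) := by
  unfold sr
  rw [tsum_eq_sum (s := Icc 1 K)]
  intro m hm
  rw [mem_Icc, not_and_or] at hm
  rcases hm with hm | hm
  · have : m = 0 := by omega
    rw [this, h0]
    simp
  · rw [hK m (by omega)]
    simp

/-- the size of `log q` -/
theorem mvb_log (w : ℝ) (hw : 0 < w) (hw' : w < 1 / 3) : ∃ p₀ : ℕ, ∀ p : ℕ, p₀ ≤ p →
    (p : ℝ) ^ (3 / 5 : ℝ) ≤ Real.log ((p : ℝ) ^ nn w p) ∧ Real.log ((p : ℝ) ^ nn w p) ≤ p := by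
  have h1 : Filter.Tendsto (fun x : ℝ => Real.log x / x ^ w) Filter.atTop (nhds 0) :=
    (isLittleO_log_rpow_atTop hw).tendsto_div_nhds_zero
  have h2 : ∀ᶠ x : ℝ in Filter.atTop, Real.log x / x ^ w < 1 / 4 :=
    h1.eventually (gt_mem_nhds (by norm_num))
  obtain ⟨X, hX⟩ := Filter.eventually_atTop.1 h2
  refine ⟨max 3 (⌈X⌉₊), fun p hp => ?_⟩
  have hp3 : 3 ≤ p := le_trans (le_max_left _ _) hp
  have hpX : X ≤ p := by
    have h3 : (⌈X⌉₊ : ℝ) ≤ p := by exact_mod_cast le_trans (le_max_right _ _) hp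
    exact (Nat.le_ceil X).trans h3
  have hp0 : (0 : ℝ) < p := by
    have : 0 < p := by omega
    exact_mod_cast this
  have hp1 : (1 : ℝ) ≤ p := by
    have : 1 ≤ p := by omega
    exact_mod_cast this
  have hlog1 : 1 ≤ Real.log p := by
    rw [Real.le_log_iff_exp_le hp0]
    have h4 := Real.exp_one_lt_d9
    have h5 : (3 : ℝ) ≤ p := by exact_mod_cast hp3
    linarith
  have hr1 : 1 ≤ (p : ℝ) ^ (1 - w) := Real.one_le_rpow hp1 (by linarith)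
  have hn : Real.log ((p : ℝ) ^ nn w p) = (2 * (⌈(p : ℝ) ^ (1 - w)⌉₊ : ℝ)) * Real.log p := by
    rw [Real.log_pow]
    unfold nn
    push_cast
    ring
  rw [hn]
  constructor
  · have h6 : (p : ℝ) ^ (3 / 5 : ℝ) ≤ (p : ℝ) ^ (1 - w) :=
      Real.rpow_le_rpow_of_exponent_le hp1 (by linarith)
    have h7 := Nat.le_ceil ((p : ℝ) ^ (1 - w))
    nlinarith
  · have h8 := hX p hpX
    have hpw : 0 < (p : ℝ) ^ w := Real.rpow_pos_of_pos hp0 w
    rw [div_lt_iff₀ hpw] at h8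
    have h9 := Nat.ceil_lt_add_one (zero_le_one.trans hr1)
    have h10 : (p : ℝ) ^ (1 - w) * (p : ℝ) ^ w = p := by
      rw [← Real.rpow_add hp0]
      norm_num
    have h11 : (2 * (⌈(p : ℝ) ^ (1 - w)⌉₊ : ℝ)) ≤ 4 * (p : ℝ) ^ (1 - w) := by linarith
    calc (2 * (⌈(p : ℝ) ^ (1 - w)⌉₊ : ℝ)) * Real.log p
        ≤ (4 * (p : ℝ) ^ (1 - w)) * (1 / 4 * (p : ℝ) ^ w) := by gcongr
      _ = (p : ℝ) ^ (1 - w) * (p : ℝ) ^ w := by ring
      _ = p := h10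

/-- the mean value of a block, from the mean value theorem `hmv` (`mv_norm`) -/
theorem mv_block_of (hmv : ∃ C : ℝ, ∃ p₀ : ℕ, ∀ p : ℕ, p₀ ≤ p → p.Prime → ∀ (k : ℕ) [NeZero (p ^ k)],
      (p : ℝ) ^ (3 / 5 : ℝ) ≤ Real.log ((p : ℝ) ^ k) → Real.log ((p : ℝ) ^ k) ≤ p →
      ∀ K : ℕ, K * p ^ 150 ≤ p ^ k → ∀ (x : ℕ → ℝ) (β : ℝ),
      (∀ m ∈ Icc 1 K, |x m| ≤ β * (m.divisors.card / √(m : ℝ))) →
      EE (p ^ k) (fun b => ‖∑ ζ ∈ HH p (p ^ k), ∑ m ∈ Icc 1 K, (x m : ℂ) *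
        ZMod.stdAddChar ((m : ZMod (p ^ k)) * ((ζ : ZMod (p ^ k)) * b))‖ ^ 2) ≤
      p * (C * Real.log p * ∑ m ∈ Icc 1 K, x m ^ 2 + β ^ 2 * (p : ℝ) ^ (-(5 : ℝ))))
    {N : ℕ} [NeZero N] (f : CuspForm (Gamma0 N) 2) {a : ℕ → ℤ} (hf : Frm f a) :
    ∃ C : ℝ, ∀ w : ℝ, 0 < w → w < 1 / 3 → ∃ p₀ : ℕ, ∀ p : ℕ, p₀ ≤ p → p.Prime →
    ∀ (q : ℕ) [NeZero q], q = p ^ nn w p → ∀ η : ℝ, 1 / (√N * q) ≤ η → η ≤ (p : ℝ) ^ 200 / q →
    ∀ L : ℝ, (p : ℝ) ^ 160 ≤ L → ∀ x : ℕ → ℝ,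
    (∀ k, |x k| ≤ η * |(a k : ℝ)| * Real.exp (-(2 * π * L * k * η))) →
    (∀ k : ℕ, (q : ℝ) < k * (p : ℝ) ^ 150 → x k = 0) →
      EE q (fun b => ‖∑ ζ ∈ HH p q, sr x ((ζ : ZMod q) * b)‖ ^ 2) ≤
        C * p * Real.log p / L ^ 2 := by
  obtain ⟨C, p₁, hmv⟩ := hmv
  obtain ⟨C₂, hC₂, hb⟩ := mvb_bessel f hf.coeff
  have hpi := Real.pi_pos
  refine ⟨|C| * C₂ ^ 2 + 1, fun w hw hw' => ?_⟩
  obtain ⟨p₂, hp₂⟩ := mvb_log w hw hw'
  refine ⟨max 3 (max p₁ p₂), fun p hp hpp q _ hq η hη₁ hη₂ L hL x hx hx0 => ?_⟩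
  subst hq
  have hp3 : 3 ≤ p := le_trans (le_max_left _ _) hp
  have hpp₁ : p₁ ≤ p := le_trans (le_trans (le_max_left _ _) (le_max_right _ _)) hp
  have hpp₂ : p₂ ≤ p := le_trans (le_trans (le_max_right _ _) (le_max_right _ _)) hp
  have hp0 : (0 : ℝ) < p := by
    have : 0 < p := by omega
    exact_mod_cast this
  have hp1 : (1 : ℝ) ≤ p := by
    have : 1 ≤ p := by omega
    exact_mod_cast this
  have hlog1 : 1 ≤ Real.log p := by
    rw [Real.le_log_iff_exp_le hp0]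
    have h4 := Real.exp_one_lt_d9
    have h5 : (3 : ℝ) ≤ p := by exact_mod_cast hp3
    linarith
  have hL0 : 0 < L := lt_of_lt_of_le (by positivity) hL
  have hN : (0 : ℝ) < N := by exact_mod_cast Nat.pos_of_ne_zero (NeZero.ne N)
  have hq0 : (0 : ℝ) < ((p ^ nn w p : ℕ) : ℝ) := by
    push_cast
    positivity
  have hη : 0 < η := lt_of_lt_of_le (by positivity) hη₁
  set q : ℕ := p ^ nn w p with hq
  set K : ℕ := q / p ^ 150 with hK
  have hp150 : 0 < p ^ 150 := by positivity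
  have hKq : K * p ^ 150 ≤ q := Nat.div_mul_le_self _ _
  have hKx : ∀ k, K < k → x k = 0 := by
    intro k hk
    apply hx0
    have h1 : q < k * p ^ 150 := by
      rw [hK, Nat.div_lt_iff_lt_mul hp150] at hk
      exact hk
    exact_mod_cast h1
  have hx00 : x 0 = 0 := by
    have h1 := hx 0
    rw [mvb_zero f hf] at h1
    have h2 : |x 0| ≤ 0 := by simpa using h1
    exact abs_nonpos_iff.1 h2
  obtain ⟨hl1, hl2⟩ := hp₂ p hpp₂
  have hmain := hmv p hpp₁ hpp (nn w p) hl1 hl2 K hKq x (1 / L) (by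
    intro m hm
    exact (hx m).trans (mvb_beta f hf hη hL0 (mem_Icc.1 hm).1))
  have hsum : ∑ m ∈ Icc 1 K, x m ^ 2 ≤ C₂ ^ 2 / L ^ 2 := by
    have h1 := hb (L * η) (by positivity) (Icc 1 K)
    have h2 : ∑ m ∈ Icc 1 K, x m ^ 2 ≤
        ∑ m ∈ Icc 1 K, η ^ 2 * ((a m : ℝ) ^ 2 * Real.exp (-(4 * π * m * (L * η)))) := by
      refine Finset.sum_le_sum fun m _ => ?_
      have h3 := hx m
      have h4 : x m ^ 2 ≤ (η * |(a m : ℝ)| * Real.exp (-(2 * π * L * m * η))) ^ 2 := by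
        rw [← sq_abs (x m)]
        exact pow_le_pow_left₀ (abs_nonneg _) h3 2
      refine h4.trans (le_of_eq ?_)
      rw [_root_.mul_pow, _root_.mul_pow, sq_abs, ← Real.exp_nat_mul]
      have h5 : ((2 : ℕ) : ℝ) * -(2 * π * L * m * η) = -(4 * π * m * (L * η)) := by
        push_cast
        ring
      rw [h5]
      ring
    rw [← Finset.mul_sum] at h2
    calc ∑ m ∈ Icc 1 K, x m ^ 2 ≤ η ^ 2 * (C₂ / (L * η)) ^ 2 := h2.trans (by gcongr)
      _ = C₂ ^ 2 / L ^ 2 := by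
        field_simp
  have hsr : ∀ b : ZMod q, ∑ ζ ∈ HH p q, sr x ((ζ : ZMod q) * b) =
      ∑ ζ ∈ HH p q, ∑ m ∈ Icc 1 K, (x m : ℂ) *
        ZMod.stdAddChar ((m : ZMod q) * ((ζ : ZMod q) * b)) := by
    intro b
    exact Finset.sum_congr rfl fun ζ _ => mvb_sr hx00 hKx _
  have hEE : EE q (fun b => ‖∑ ζ ∈ HH p q, sr x ((ζ : ZMod q) * b)‖ ^ 2) =
      EE q (fun b => ‖∑ ζ ∈ HH p q, ∑ m ∈ Icc 1 K, (x m : ℂ) *
        ZMod.stdAddChar ((m : ZMod q) * ((ζ : ZMod q) * b))‖ ^ 2) := by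
    congr 1
    funext b
    rw [hsr b]
  rw [hEE]
  refine hmain.trans ?_
  have h5 : (p : ℝ) ^ (-(5 : ℝ)) ≤ 1 := Real.rpow_le_one_of_one_le_of_nonpos hp1 (by norm_num)
  have h6 : C * Real.log p * ∑ m ∈ Icc 1 K, x m ^ 2 ≤ |C| * Real.log p * (C₂ ^ 2 / L ^ 2) := by
    have h7 : 0 ≤ ∑ m ∈ Icc 1 K, x m ^ 2 := Finset.sum_nonneg fun _ _ => sq_nonneg _
    calc C * Real.log p * ∑ m ∈ Icc 1 K, x m ^ 2 ≤ |C| * Real.log p * ∑ m ∈ Icc 1 K, x m ^ 2 := by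
          gcongr
          exact le_abs_self C
      _ ≤ |C| * Real.log p * (C₂ ^ 2 / L ^ 2) := by gcongr
  have h8 : (1 / L) ^ 2 * (p : ℝ) ^ (-(5 : ℝ)) ≤ Real.log p * (1 / L ^ 2) := by
    have h9 : (1 / L) ^ 2 = 1 / L ^ 2 := by rw [div_pow, one_pow]
    rw [h9]
    have h10 : 0 ≤ 1 / L ^ 2 := by positivity
    nlinarith
  calc (p : ℝ) * (C * Real.log p * ∑ m ∈ Icc 1 K, x m ^ 2 + (1 / L) ^ 2 * (p : ℝ) ^ (-(5 : ℝ)))
      ≤ p * (|C| * Real.log p * (C₂ ^ 2 / L ^ 2) + Real.log p * (1 / L ^ 2)) := by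
        gcongr
    _ = (|C| * C₂ ^ 2 + 1) * p * Real.log p / L ^ 2 := by ring

/-- **the mean value of a block** -/
theorem mv_block {N : ℕ} [NeZero N] (f : CuspForm (Gamma0 N) 2) {a : ℕ → ℤ} (hf : Frm f a) :
    ∃ C : ℝ, ∀ w : ℝ, 0 < w → w < 1 / 3 → ∃ p₀ : ℕ, ∀ p : ℕ, p₀ ≤ p → p.Prime →
    ∀ (q : ℕ) [NeZero q], q = p ^ nn w p → ∀ η : ℝ, 1 / (√N * q) ≤ η → η ≤ (p : ℝ) ^ 200 / q →
    ∀ L : ℝ, (p : ℝ) ^ 160 ≤ L → ∀ x : ℕ → ℝ,
    (∀ k, |x k| ≤ η * |(a k : ℝ)| * Real.exp (-(2 * π * L * k * η))) →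
    (∀ k : ℕ, (q : ℝ) < k * (p : ℝ) ^ 150 → x k = 0) →
      EE q (fun b => ‖∑ ζ ∈ HH p q, sr x ((ζ : ZMod q) * b)‖ ^ 2) ≤
        C * p * Real.log p / L ^ 2 := by
  refine mv_block_of ?_ f hf
  obtain ⟨C, p₀, h⟩ := mv_norm
  refine ⟨C, p₀, fun p hp hpp k _ hl1 hl2 K hK x β hx => ?_⟩
  have h1 := h p hp hpp k (p ^ k) rfl (by push_cast; exact hl1) (by push_cast; exact hl2) K
    (by exact_mod_cast hK) (fun m => (x m : ℂ)) β (by
      intro m hm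
      rw [Complex.norm_real]
      exact hx m hm)
  simpa only [Complex.norm_real, Real.norm_eq_abs, sq_abs] using h1

end Pool.Agent.MU0
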