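import Pool.Agent.MU0.Mv3
import Pool.Agent.MU0.TDefs
import Pool.Agent.MU0.Cf1
import Pool.Agent.MU0.Mvb
import Pool.Agent.MU0.Rk4
import Pool.Agent.MU0.Arc

/-!
# The low frequencies
-/

set_option autoImplicit false

open Finset CongruenceSubgroup Filter Topology
open Pool.Agent.MU1
open scoped Real

namespace Pool.Agent.MU0

/-- The coefficients of `G f (x + it)`. -/
noncomputable def xl (a : ℕ → ℤ) (t : ℝ) (m : ℕ) : ℝ := a m / m * Real.exp (-(2 * π * m * t))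

variable {N : ℕ} [NeZero N]

theorem low_sq (f : CuspForm (Gamma0 N) 2) {a : ℕ → ℤ}
    (ha : ∀ n, (UpperHalfPlane.qExpansion 1 f).coeff n = a n) :
    ∃ C : ℝ, 0 ≤ C ∧ ∀ X : ℕ, ∑ k ∈ Icc 1 X, (a k : ℝ) ^ 2 / (k : ℝ) ^ 2 ≤ C * (1 + Real.log X) := by
  obtain ⟨C₀, hC₀⟩ := rankin_upper f ha
  have hC0 : 0 ≤ C₀ := by
    have h1 := hC₀ 1 le_rfl
    have h2 : (0 : ℝ) ≤ ∑ k ∈ Icc 1 1, (a k : ℝ) ^ 2 := sum_nonneg fun k _ => sq_nonneg _
    have h3 : C₀ * ((1 : ℕ) : ℝ) ^ 2 = C₀ := by norm_num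
    rw [h3] at h1
    linarith
  refine ⟨3 * C₀, by positivity, fun X => ?_⟩
  rw [Rk.abel_eq (fun k => (a k : ℝ) ^ 2) X]
  have hlog : 0 ≤ Real.log X := Real.log_natCast_nonneg X
  have h1 : ∀ k ∈ Icc 1 X, (∑ n ∈ Icc 1 k, (a n : ℝ) ^ 2) * (1 / (k : ℝ) ^ 2 - 1 / ((k : ℝ) + 1) ^ 2) ≤
      2 * C₀ * (1 / (k : ℝ)) := by
    intro k hk
    rw [mem_Icc] at hk
    have hk0 : (0 : ℝ) < k := by
      have : 0 < k := by omega
      exact_mod_cast this
    have h2 : 1 / (k : ℝ) ^ 2 - 1 / ((k : ℝ) + 1) ^ 2 = (2 * k + 1) / ((k : ℝ) ^ 2 * ((k : ℝ) + 1) ^ 2) := by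
      field_simp
      ring
    rw [h2]
    calc (∑ n ∈ Icc 1 k, (a n : ℝ) ^ 2) * ((2 * k + 1) / ((k : ℝ) ^ 2 * ((k : ℝ) + 1) ^ 2))
        ≤ (C₀ * (k : ℝ) ^ 2) * ((2 * k + 1) / ((k : ℝ) ^ 2 * ((k : ℝ) + 1) ^ 2)) :=
          mul_le_mul_of_nonneg_right (hC₀ k hk.1) (by positivity)
      _ = C₀ * ((2 * k + 1) / ((k : ℝ) + 1) ^ 2) := by field_simp
      _ ≤ C₀ * (2 * (1 / (k : ℝ))) := by
          refine mul_le_mul_of_nonneg_left ?_ hC0
          rw [mul_one_div, div_le_div_iff₀ (by positivity) hk0]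
          nlinarith
      _ = 2 * C₀ * (1 / (k : ℝ)) := by ring
  have h2 : (∑ n ∈ Icc 1 X, (a n : ℝ) ^ 2) / ((X : ℝ) + 1) ^ 2 ≤ C₀ := by
    rw [div_le_iff₀ (by positivity)]
    rcases Nat.eq_zero_or_pos X with h | h
    · subst h
      simp
      exact hC0
    · refine (hC₀ X h).trans (mul_le_mul_of_nonneg_left ?_ hC0)
      nlinarith [(Nat.cast_nonneg X : (0 : ℝ) ≤ X)]
  have h3 : ∑ k ∈ Icc 1 X, 2 * C₀ * (1 / (k : ℝ)) ≤ 2 * C₀ * (1 + Real.log X) := by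
    rw [← mul_sum]
    exact mul_le_mul_of_nonneg_left (mv_harm X) (by positivity)
  have h4 := sum_le_sum h1
  nlinarith

theorem low_abs {f : CuspForm (Gamma0 N) 2} {a : ℕ → ℤ} (hf : Frm f a) (t : ℝ) (m : ℕ) :
    |xl a t m| ≤ m * Real.exp (-(2 * π * m * t)) := by
  unfold xl
  rcases Nat.eq_zero_or_pos m with h | h
  · subst h; simp
  have hm : (0 : ℝ) < m := by exact_mod_cast h
  have hm1 : (1 : ℝ) ≤ m := by exact_mod_cast h
  rw [abs_mul, Real.abs_exp, abs_div, Nat.abs_cast]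
  refine mul_le_mul_of_nonneg_right ?_ (Real.exp_pos _).le
  rw [div_le_iff₀ hm]
  refine (hf.hasse m).trans ?_
  have h1 : (m.divisors.card : ℝ) ≤ m := by exact_mod_cast Nat.card_divisors_le_self m
  have h2 : √(m : ℝ) ≤ m := by
    rw [Real.sqrt_le_left hm.le]
    nlinarith
  exact mul_le_mul h1 h2 (Real.sqrt_nonneg _) hm.le

theorem low_summable {f : CuspForm (Gamma0 N) 2} {a : ℕ → ℤ} (hf : Frm f a) {t : ℝ} (ht : 0 < t) :
    Summable fun m : ℕ => |xl a t m| := by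
  have h1 := (tsum_mul_exp_le (s := 2 * π * t) (by positivity)).1
  refine Summable.of_nonneg_of_le (fun m => abs_nonneg _) (fun m => ?_) h1
  refine (low_abs hf t m).trans (le_of_eq ?_)
  congr 2
  ring

/-- truncation -/
theorem low_trunc {f : CuspForm (Gamma0 N) 2} {a : ℕ → ℤ} (hf : Frm f a) {t : ℝ} (ht : 0 < t)
    (K : ℕ) {q : ℕ} [NeZero q] (u : ZMod q) :
    ‖TS (xl a t) u - ∑ m ∈ Icc 1 K, ((xl a t m : ℝ) : ℂ) * ZMod.stdAddChar ((m : ZMod q) * u)‖ ≤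
      Real.exp (-(π * K * t)) / (π * t) ^ 2 := by
  classical
  have hs := low_summable hf ht
  have hn : ∀ m : ℕ, ‖((xl a t m : ℝ) : ℂ) * ZMod.stdAddChar ((m : ZMod q) * u)‖ = |xl a t m| := by
    intro m
    rw [norm_mul, Complex.norm_real, Real.norm_eq_abs, AddChar.norm_apply, mul_one]
  have hsc : Summable fun m : ℕ => ((xl a t m : ℝ) : ℂ) * ZMod.stdAddChar ((m : ZMod q) * u) :=
    Summable.of_norm (by simp only [hn]; exact hs)
  have h0 : xl a t 0 = 0 := by unfold xl; simp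
  have h1 : ∑ m ∈ Icc 1 K, ((xl a t m : ℝ) : ℂ) * ZMod.stdAddChar ((m : ZMod q) * u) =
      ∑ m ∈ range (K + 1), ((xl a t m : ℝ) : ℂ) * ZMod.stdAddChar ((m : ZMod q) * u) := by
    rw [sum_range_succ', h0]
    simp only [Complex.ofReal_zero, zero_mul, add_zero]
    rw [range_eq_Ico, sum_Ico_add' (fun m => ((xl a t m : ℝ) : ℂ) * ZMod.stdAddChar ((m : ZMod q) * u)) 0 K 1]
    refine sum_congr ?_ fun _ _ => rfl
    ext m
    simp only [mem_Icc, mem_Ico]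
    omega
  rw [h1]
  unfold TS
  rw [← hsc.sum_add_tsum_nat_add (K + 1), add_sub_cancel_left]
  have h2 : ∀ m : ℕ, ‖((xl a t (m + (K + 1)) : ℝ) : ℂ) * ZMod.stdAddChar (((m + (K + 1) : ℕ) : ZMod q) * u)‖ ≤
      Real.exp (-(π * K * t)) * (((m + (K + 1) : ℕ) : ℝ) * Real.exp (-(π * t * ((m + (K + 1) : ℕ) : ℝ)))) := by
    intro m
    rw [hn]
    refine (low_abs hf t _).trans ?_
    have h3 : Real.exp (-(2 * π * ((m + (K + 1) : ℕ) : ℝ) * t)) ≤
        Real.exp (-(π * K * t)) * Real.exp (-(π * t * ((m + (K + 1) : ℕ) : ℝ))) := by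
      rw [← Real.exp_add]
      refine Real.exp_le_exp.2 ?_
      push_cast
      have h4 : 0 ≤ π * t := by positivity
      have h5 : (0 : ℝ) ≤ m := Nat.cast_nonneg m
      nlinarith
    calc ((m + (K + 1) : ℕ) : ℝ) * Real.exp (-(2 * π * ((m + (K + 1) : ℕ) : ℝ) * t))
        ≤ ((m + (K + 1) : ℕ) : ℝ) * (Real.exp (-(π * K * t)) * Real.exp (-(π * t * ((m + (K + 1) : ℕ) : ℝ)))) :=
          mul_le_mul_of_nonneg_left h3 (Nat.cast_nonneg _)
      _ = _ := by ring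
  obtain ⟨h3, h4⟩ := tsum_mul_exp_le (s := π * t) (by positivity)
  have h5 : Summable fun m : ℕ => Real.exp (-(π * K * t)) *
      (((m + (K + 1) : ℕ) : ℝ) * Real.exp (-(π * t * ((m + (K + 1) : ℕ) : ℝ)))) :=
    ((summable_nat_add_iff (K + 1)).2 h3).mul_left _
  refine (tsum_of_norm_bounded h5.hasSum h2).trans ?_
  rw [tsum_mul_left, div_eq_mul_one_div]
  refine mul_le_mul_of_nonneg_left ?_ (Real.exp_pos _).le
  refine le_trans ?_ h4
  rw [← h3.sum_add_tsum_nat_add (K + 1)]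
  have : 0 ≤ ∑ i ∈ range (K + 1), (i : ℝ) * Real.exp (-(π * t * i)) := sum_nonneg fun i _ => by positivity
  linarith

/-- large numbers -/
theorem low_large (C w η : ℝ) (hC : 0 ≤ C) (hw : 0 < w) (hw' : w < 1 / 3) (hη : 0 < η) :
    ∃ p₀ : ℕ, ∀ p : ℕ, p₀ ≤ p →
      2 * ((p : ℝ) * (C * Real.log p * (C * (1 + Real.log ((p : ℝ) ^ nn w p))) + (p : ℝ) ^ (-(5 : ℝ)))) + 2 ≤
        (p : ℝ) ^ (2 - w + η) := by
  have h1 : Tendsto (fun x : ℝ => Real.log x / x ^ (η / 4)) atTop (𝓝 0) :=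
    (isLittleO_log_rpow_atTop (by positivity : 0 < η / 4)).tendsto_div_nhds_zero
  have h2 : ∀ᶠ x : ℝ in atTop, Real.log x / x ^ (η / 4) < 1 := h1.eventually (gt_mem_nhds (by norm_num))
  have h3 : Tendsto (fun x : ℝ => x ^ (η / 2)) atTop atTop := tendsto_rpow_atTop (by positivity)
  have h4 := h3.eventually_ge_atTop (10 * C ^ 2 + 4)
  obtain ⟨X, hX⟩ := eventually_atTop.1 (h2.and (h4.and (eventually_ge_atTop 3)))
  refine ⟨⌈X⌉₊, fun p hp => ?_⟩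
  obtain ⟨h5, h6, h7⟩ := hX p ((Nat.le_ceil X).trans (by exact_mod_cast hp))
  have hp0 : (0 : ℝ) < p := by linarith
  have hp1 : (1 : ℝ) ≤ p := by linarith
  have hlog1 : 1 ≤ Real.log p := by
    rw [Real.le_log_iff_exp_le hp0]
    have := Real.exp_one_lt_d9
    linarith
  set A := (p : ℝ) ^ (η / 4) with hA
  have hA0 : 0 < A := by positivity
  have hA1 : 1 ≤ A := Real.one_le_rpow hp1 (by positivity)
  rw [div_lt_one hA0] at h5
  have hA2 : (p : ℝ) ^ (η / 2) = A * A := by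
    rw [hA, ← Real.rpow_add hp0]; congr 1; ring
  rw [hA2] at h6
  set B := (p : ℝ) ^ (1 - w) with hB
  have hB1 : 1 ≤ B := Real.one_le_rpow hp1 (by linarith)
  have hn : Real.log ((p : ℝ) ^ nn w p) ≤ 4 * B * A := by
    rw [Real.log_pow]
    unfold nn
    push_cast
    have h9 := Nat.ceil_lt_add_one (zero_le_one.trans hB1)
    have h11 : (2 * (⌈B⌉₊ : ℝ)) ≤ 4 * B := by linarith
    exact mul_le_mul h11 h5.le (by linarith) (by positivity)
  have hfin : (p : ℝ) ^ (2 - w + η) = p * B * (A * A) * (A * A) := by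
    rw [← hA2, hB]
    have h10 : (p : ℝ) * p ^ (1 - w) = (p : ℝ) ^ (1 + (1 - w)) := by
      rw [Real.rpow_add hp0, Real.rpow_one]
    rw [h10, ← Real.rpow_add hp0, ← Real.rpow_add hp0]
    congr 1
    ring
  rw [hfin]
  have h8 : (p : ℝ) ^ (-(5 : ℝ)) ≤ 1 := Real.rpow_le_one_of_one_le_of_nonpos hp1 (by norm_num)
  have hBA : 1 ≤ B * A := by nlinarith
  have h9 : C * Real.log p * (C * (1 + Real.log ((p : ℝ) ^ nn w p))) ≤ C ^ 2 * (5 * B * (A * A)) := by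
    have h10 : 1 + Real.log ((p : ℝ) ^ nn w p) ≤ 5 * B * A := by nlinarith
    have h11 : 0 ≤ 1 + Real.log ((p : ℝ) ^ nn w p) := by
      have : 0 ≤ Real.log ((p : ℝ) ^ nn w p) := Real.log_nonneg (one_le_pow₀ hp1)
      linarith
    calc C * Real.log p * (C * (1 + Real.log ((p : ℝ) ^ nn w p)))
        = C ^ 2 * (Real.log p * (1 + Real.log ((p : ℝ) ^ nn w p))) := by ring
      _ ≤ C ^ 2 * (A * (5 * B * A)) := by
          refine mul_le_mul_of_nonneg_left ?_ (sq_nonneg C)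
          exact mul_le_mul h5.le h10 h11 hA0.le
      _ = _ := by ring
  have hAA : 1 ≤ A * A := by nlinarith
  have hBAA : 1 ≤ B * (A * A) := by nlinarith
  calc 2 * ((p : ℝ) * (C * Real.log p * (C * (1 + Real.log ((p : ℝ) ^ nn w p))) + (p : ℝ) ^ (-(5 : ℝ)))) + 2
      ≤ 2 * ((p : ℝ) * (C ^ 2 * (5 * B * (A * A)) + 1)) + 2 := by
        have := mul_le_mul_of_nonneg_left (add_le_add h9 h8) hp0.le
        linarith
    _ ≤ 2 * ((p : ℝ) * (C ^ 2 * (5 * B * (A * A)) + B * (A * A))) + 2 * (p * (B * (A * A))) := by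
        have h10 : (p : ℝ) * 1 ≤ p * (B * (A * A)) := mul_le_mul_of_nonneg_left hBAA hp0.le
        nlinarith
    _ = p * B * (A * A) * (10 * C ^ 2 + 4) := by ring
    _ ≤ p * B * (A * A) * (A * A) := mul_le_mul_of_nonneg_left h6 (by positivity)

theorem low_num : ∃ p₀ : ℕ, ∀ p : ℕ, p₀ ≤ p → ∀ Q t : ℝ, (p : ℝ) ^ (3 / 5 : ℝ) ≤ Real.log Q → 0 < Q →
    Real.log Q ≤ p → (p : ℝ) ^ 200 / Q ≤ t →
    (p : ℝ) * (Real.exp (-(π * (⌊Q / (p : ℝ) ^ 150⌋₊ : ℝ) * t)) / (π * t) ^ 2) ≤ 1 := by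
  obtain ⟨p₁, hp₁⟩ : ∃ p₁ : ℕ, ∀ p : ℕ, p₁ ≤ p → 151 * Real.log p ≤ (p : ℝ) ^ (3 / 5 : ℝ) := by
    have h1 : Tendsto (fun x : ℝ => Real.log x / x ^ (3 / 5 : ℝ)) atTop (𝓝 0) :=
      (isLittleO_log_rpow_atTop (by norm_num : (0 : ℝ) < 3 / 5)).tendsto_div_nhds_zero
    have h2 : ∀ᶠ x : ℝ in atTop, Real.log x / x ^ (3 / 5 : ℝ) < 1 / 151 :=
      h1.eventually (gt_mem_nhds (by norm_num))
    obtain ⟨X, hX⟩ := eventually_atTop.1 (h2.and (eventually_ge_atTop 1))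
    refine ⟨⌈X⌉₊, fun p hp => ?_⟩
    obtain ⟨h3, h4⟩ := hX p ((Nat.le_ceil X).trans (by exact_mod_cast hp))
    rw [div_lt_iff₀ (by positivity)] at h3
    linarith
  refine ⟨max p₁ 10, fun p hp Q t hlow hQ hup ht => ?_⟩
  have hpp := hp₁ p (le_of_max_le_left hp)
  have hp10 : (10 : ℝ) ≤ p := by exact_mod_cast le_of_max_le_right hp
  have hp0 : (0 : ℝ) < p := by linarith
  have ht0 : 0 < t := lt_of_lt_of_le (by positivity) ht
  -- `Q ≥ p^151`
  have hQ151 : (p : ℝ) ^ 151 ≤ Q := by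
    rw [← Real.exp_log hQ, ← Real.exp_log (pow_pos hp0 151), Real.log_pow]
    refine Real.exp_le_exp.2 ?_
    push_cast
    linarith
  have hQe : Q ≤ Real.exp p := by
    rw [← Real.exp_log hQ]
    exact Real.exp_le_exp.2 hup
  -- `K t ≥ p^49`
  have hK : (p : ℝ) ^ 49 ≤ (⌊Q / (p : ℝ) ^ 150⌋₊ : ℝ) * t := by
    have h1 : Q / (p : ℝ) ^ 150 - 1 < ⌊Q / (p : ℝ) ^ 150⌋₊ := by
      have := Nat.lt_floor_add_one (Q / (p : ℝ) ^ 150)
      linarith
    have h2 : Q / (p : ℝ) ^ 151 ≤ Q / (p : ℝ) ^ 150 - 1 := by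
      have h3 : 1 ≤ Q / (p : ℝ) ^ 151 := by rw [one_le_div (by positivity)]; exact hQ151
      have h4 : Q / (p : ℝ) ^ 150 = p * (Q / (p : ℝ) ^ 151) := by field_simp
      rw [h4]
      nlinarith
    have h5 : (p : ℝ) ^ 49 = Q / (p : ℝ) ^ 151 * ((p : ℝ) ^ 200 / Q) := by
      field_simp
    rw [h5]
    exact mul_le_mul (h2.trans h1.le) ht (by positivity) (by positivity)
  have h1 : Real.exp (-(π * (⌊Q / (p : ℝ) ^ 150⌋₊ : ℝ) * t)) ≤ Real.exp (-(3 * (p : ℝ) ^ 49)) := by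
    refine Real.exp_le_exp.2 ?_
    have := Real.pi_gt_three
    have h2 : 0 ≤ (⌊Q / (p : ℝ) ^ 150⌋₊ : ℝ) * t := by positivity
    nlinarith
  have h2 : 1 / (π * t) ^ 2 ≤ Real.exp (2 * p) := by
    have h3 : 1 / Q ≤ π * t := by
      have h4 : 1 / Q ≤ (p : ℝ) ^ 200 / Q := by
        refine div_le_div_of_nonneg_right ?_ hQ.le
        exact one_le_pow₀ (by linarith)
      have h5 : t ≤ π * t := by
        have := Real.pi_gt_three
        nlinarith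
      linarith
    have h6 : 1 / (π * t) ^ 2 ≤ 1 / (1 / Q) ^ 2 :=
      one_div_le_one_div_of_le (by positivity) (pow_le_pow_left₀ (by positivity) h3 2)
    refine h6.trans ?_
    have h7 : 1 / (1 / Q) ^ 2 = Q ^ 2 := by field_simp
    rw [h7]
    calc Q ^ 2 ≤ (Real.exp p) ^ 2 := pow_le_pow_left₀ hQ.le hQe 2
      _ = Real.exp (2 * p) := by rw [← Real.exp_nat_mul]; norm_num
  have h3 : (p : ℝ) ≤ Real.exp p := by
    have := Real.add_one_le_exp (p : ℝ)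
    linarith
  have h4 : (p : ℝ) ≤ (p : ℝ) ^ 49 := le_self_pow₀ (by linarith) (by norm_num)
  calc (p : ℝ) * (Real.exp (-(π * (⌊Q / (p : ℝ) ^ 150⌋₊ : ℝ) * t)) / (π * t) ^ 2)
      = p * (Real.exp (-(π * (⌊Q / (p : ℝ) ^ 150⌋₊ : ℝ) * t)) * (1 / (π * t) ^ 2)) := by ring
    _ ≤ Real.exp p * (Real.exp (-(3 * (p : ℝ) ^ 49)) * Real.exp (2 * p)) := by
        refine mul_le_mul h3 (mul_le_mul h1 h2 (by positivity) (by positivity)) (by positivity) (by positivity)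
    _ = Real.exp (3 * p - 3 * (p : ℝ) ^ 49) := by
        rw [← Real.exp_add, ← Real.exp_add]
        congr 1
        ring
    _ ≤ 1 := by
        rw [Real.exp_le_one_iff]
        linarith

/-- **the low frequencies** -/
theorem low_f (f : CuspForm (Gamma0 N) 2) {a : ℕ → ℤ} (hf : Frm f a) (w : ℝ) (hw : 0 < w)
    (hw' : w < 1 / 3) (η : ℝ) (hη : 0 < η) : ∃ p₀ : ℕ, ∀ p : ℕ, p₀ ≤ p → p.Prime →
    ∀ (q : ℕ) [NeZero q], q = p ^ nn w p → ∀ t : ℝ, (p : ℝ) ^ 200 / q ≤ t →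
      EE q (fun b => ‖∑ z ∈ HH p q, TS (xl a t) ((z : ZMod q) * b)‖ ^ 2) ≤ (p : ℝ) ^ (2 - w + η) := by
  obtain ⟨C₁, hC₁0, hC₁⟩ := low_sq f hf.coeff
  obtain ⟨C₂, p₁, h₁⟩ := mv_norm
  set C := max C₁ (max C₂ 0) with hC
  have hCC₁ : C₁ ≤ C := le_max_left _ _
  have hCC₂ : C₂ ≤ C := (le_max_left _ _).trans (le_max_right _ _)
  have hC0 : 0 ≤ C := (le_max_right _ _).trans (le_max_right _ _)
  obtain ⟨p₂, h₂⟩ := mvb_log w hw hw'
  obtain ⟨p₃, h₃⟩ := low_large C w η hC0 hw hw' hη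
  obtain ⟨p₄, h₄⟩ := low_num
  refine ⟨max p₁ (max p₂ (max p₃ (max p₄ 2))), fun p hp hpp q _ hq t ht => ?_⟩
  have hp1 : p₁ ≤ p := by omega
  have hp2 : p₂ ≤ p := by omega
  have hp3 : p₃ ≤ p := by omega
  have hp4 : p₄ ≤ p := by omega
  have hp5 : 2 ≤ p := by omega
  have hp0 : (0 : ℝ) < p := by positivity
  have hp1' : (1 : ℝ) ≤ p := by exact_mod_cast (by omega : 1 ≤ p)
  have hqr : (0 : ℝ) < q := by exact_mod_cast Nat.pos_of_ne_zero (NeZero.ne q)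
  have hqq : (q : ℝ) = (p : ℝ) ^ nn w p := by rw [hq]; push_cast; rfl
  obtain ⟨hlow, hup⟩ := h₂ p hp2
  rw [← hqq] at hlow hup
  have ht0 : 0 < t := lt_of_lt_of_le (by positivity) ht
  set K := ⌊(q : ℝ) / (p : ℝ) ^ 150⌋₊ with hK
  have hKq : (K : ℝ) * (p : ℝ) ^ 150 ≤ q := by
    have := Nat.floor_le (show 0 ≤ (q : ℝ) / (p : ℝ) ^ 150 by positivity)
    rwa [le_div_iff₀ (by positivity)] at this
  have hnum := h₄ p hp4 q t hlow hqr hup ht
  have hexp : ∀ m : ℕ, Real.exp (-(2 * π * m * t)) ≤ 1 := fun m => by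
    rw [Real.exp_le_one_iff]
    have : 0 ≤ 2 * π * m * t := by positivity
    linarith
  -- the truncated sum
  have hmv := h₁ p hp1 hpp (nn w p) q hq hlow hup K hKq (fun m => ((xl a t m : ℝ) : ℂ)) 1 (by
    intro m hm
    rw [mem_Icc] at hm
    have hm0 : (0 : ℝ) < m := by
      have : 0 < m := by omega
      exact_mod_cast this
    rw [Complex.norm_real, Real.norm_eq_abs, xl, abs_mul, Real.abs_exp, abs_div, Nat.abs_cast, one_mul]
    calc |(a m : ℝ)| / m * Real.exp (-(2 * π * m * t)) ≤ |(a m : ℝ)| / m * 1 :=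
          mul_le_mul_of_nonneg_left (hexp m) (by positivity)
      _ ≤ (m.divisors.card * √(m : ℝ)) / m := by
          rw [mul_one]
          exact div_le_div_of_nonneg_right (hf.hasse m) hm0.le
      _ = m.divisors.card / √(m : ℝ) := by
          rw [div_eq_div_iff hm0.ne' (Real.sqrt_pos.2 hm0).ne', mul_assoc, Real.mul_self_sqrt hm0.le])
  have hsq : ∑ m ∈ Icc 1 K, ‖((xl a t m : ℝ) : ℂ)‖ ^ 2 ≤ C * (1 + Real.log ((p : ℝ) ^ nn w p)) := by
    have h5 : ∑ m ∈ Icc 1 K, ‖((xl a t m : ℝ) : ℂ)‖ ^ 2 ≤ ∑ m ∈ Icc 1 K, (a m : ℝ) ^ 2 / (m : ℝ) ^ 2 := by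
      refine sum_le_sum fun m _ => ?_
      rw [Complex.norm_real, Real.norm_eq_abs, sq_abs, xl, mul_pow, div_pow]
      calc (a m : ℝ) ^ 2 / (m : ℝ) ^ 2 * Real.exp (-(2 * π * m * t)) ^ 2 ≤ (a m : ℝ) ^ 2 / (m : ℝ) ^ 2 * 1 := by
            refine mul_le_mul_of_nonneg_left ?_ (by positivity)
            exact pow_le_one₀ (Real.exp_pos _).le (hexp m)
        _ = _ := mul_one _
    refine h5.trans ((hC₁ K).trans ?_)
    have h6 : Real.log K ≤ Real.log ((p : ℝ) ^ nn w p) := by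
      rw [← hqq]
      rcases Nat.eq_zero_or_pos K with h | h
      · rw [h, Nat.cast_zero, Real.log_zero]
        exact le_trans (by positivity) hlow
      · refine Real.log_le_log (by exact_mod_cast h) ?_
        have h7 : (1 : ℝ) ≤ (p : ℝ) ^ 150 := one_le_pow₀ hp1'
        have h8 : (0 : ℝ) ≤ K := Nat.cast_nonneg K
        nlinarith
    have h7 : 0 ≤ 1 + Real.log K := by
      have := Real.log_natCast_nonneg K
      linarith
    calc C₁ * (1 + Real.log K) ≤ C * (1 + Real.log K) := mul_le_mul_of_nonneg_right hCC₁ h7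
      _ ≤ _ := mul_le_mul_of_nonneg_left (by linarith) hC0
  -- the approximation
  set S : ZMod q → ℂ := fun b => ∑ z ∈ HH p q, ∑ m ∈ Icc 1 K, ((xl a t m : ℝ) : ℂ) *
    ZMod.stdAddChar ((m : ZMod q) * ((z : ZMod q) * b)) with hS
  have happ : ∀ b : ZMod q, ‖∑ z ∈ HH p q, TS (xl a t) ((z : ZMod q) * b)‖ ^ 2 ≤ 2 * ‖S b‖ ^ 2 + 2 := by
    intro b
    have h5 : ‖∑ z ∈ HH p q, TS (xl a t) ((z : ZMod q) * b) - S b‖ ≤ 1 := by
      rw [hS, ← sum_sub_distrib]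
      refine (norm_sum_le _ _).trans ?_
      calc ∑ z ∈ HH p q, ‖TS (xl a t) ((z : ZMod q) * b) - ∑ m ∈ Icc 1 K, ((xl a t m : ℝ) : ℂ) *
            ZMod.stdAddChar ((m : ZMod q) * ((z : ZMod q) * b))‖
          ≤ ∑ _z ∈ HH p q, Real.exp (-(π * K * t)) / (π * t) ^ 2 :=
            sum_le_sum fun z _ => low_trunc hf ht0 K _
        _ = ((HH p q).card : ℝ) * (Real.exp (-(π * K * t)) / (π * t) ^ 2) := by
            rw [sum_const, nsmul_eq_mul]
        _ ≤ (p : ℝ) * (Real.exp (-(π * K * t)) / (π * t) ^ 2) := by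
            refine mul_le_mul_of_nonneg_right ?_ (by positivity)
            have hn1 : 1 ≤ nn w p := by
              unfold nn
              have : 0 < ⌈(p : ℝ) ^ (1 - w)⌉₊ := Nat.ceil_pos.2 (by positivity)
              omega
            exact_mod_cast mv_cardHH hpp hn1 hq
        _ ≤ 1 := hnum
    have h6 : ‖∑ z ∈ HH p q, TS (xl a t) ((z : ZMod q) * b)‖ ≤ ‖S b‖ + 1 := by
      have := norm_add_le (∑ z ∈ HH p q, TS (xl a t) ((z : ZMod q) * b) - S b) (S b)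
      rw [sub_add_cancel] at this
      linarith
    calc ‖∑ z ∈ HH p q, TS (xl a t) ((z : ZMod q) * b)‖ ^ 2 ≤ (‖S b‖ + 1) ^ 2 :=
          pow_le_pow_left₀ (norm_nonneg _) h6 2
      _ ≤ 2 * ‖S b‖ ^ 2 + 2 := by nlinarith [sq_nonneg (‖S b‖ - 1)]
  have hEE : EE q (fun b => ‖∑ z ∈ HH p q, TS (xl a t) ((z : ZMod q) * b)‖ ^ 2) ≤
      2 * EE q (fun b => ‖S b‖ ^ 2) + 2 := by
    unfold EE
    rw [div_le_iff₀ hqr, add_mul, mul_assoc, div_mul_cancel₀ _ hqr.ne']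
    refine (sum_le_sum fun b _ => happ b).trans (le_of_eq ?_)
    rw [sum_add_distrib, ← mul_sum, sum_const, nsmul_eq_mul, card_univ, ZMod.card]
    ring
  refine hEE.trans (le_trans ?_ (h₃ p hp3))
  have h5 : EE q (fun b => ‖S b‖ ^ 2) ≤ (p : ℝ) * (C * Real.log p *
      (C * (1 + Real.log ((p : ℝ) ^ nn w p))) + (p : ℝ) ^ (-(5 : ℝ))) := by
    refine hmv.trans (mul_le_mul_of_nonneg_left ?_ hp0.le)
    rw [one_pow, one_mul]
    have hlogp : 0 ≤ Real.log p := Real.log_nonneg hp1'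
    have h6 : C₂ * Real.log p * ∑ m ∈ Icc 1 K, ‖((xl a t m : ℝ) : ℂ)‖ ^ 2 ≤
        C * Real.log p * (C * (1 + Real.log ((p : ℝ) ^ nn w p))) :=
      mul_le_mul (mul_le_mul_of_nonneg_right hCC₂ hlogp) hsq (sum_nonneg fun _ _ => by positivity)
        (by positivity)
    linarith
  linarith

end Pool.Agent.MU0
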