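import Pool.Agent.MU0.Defs

/-!
# Module MT: averages over the units, and the adjoint of the depletion
-/

set_option autoImplicit false

open Finset CongruenceSubgroup
open scoped Real

namespace Pool.Agent.MU0

open Pool.Agent.MU1

section Averages

variable {q : ℕ} [NeZero q]

theorem mt0_EU_smul (c : ℝ) (F : (ZMod q)ˣ → ℝ) : EU q (fun b => c * F b) = c * EU q F := by
  unfold EU
  rw [← mul_sum, mul_div_assoc]

theorem mt0_EU_sum {ι : Type*} (s : Finset ι) (F : ι → (ZMod q)ˣ → ℝ) :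
    EU q (fun b => ∑ i ∈ s, F i b) = ∑ i ∈ s, EU q (F i) := by
  unfold EU
  rw [sum_comm, sum_div]

theorem mt0_EU_shift (u : (ZMod q)ˣ) (F : (ZMod q)ˣ → ℝ) :
    EU q (fun b => F (u * b)) = EU q F := by
  unfold EU
  congr 1
  exact Fintype.sum_equiv (Equiv.mulLeft u) _ _ (fun _ => rfl)

theorem mt0_EU_mono {F G : (ZMod q)ˣ → ℝ} (h : ∀ b, F b ≤ G b) : EU q F ≤ EU q G := by
  unfold EU
  gcongr
  exact h _

/-- the Ramanujan sum of a unit is zero for `n ≥ 2` -/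
theorem mt0_EU_cs {p n : ℕ} (hp : p.Prime) (hn : 2 ≤ n) (hq : q = p ^ n) {k : ℕ} (hk : ¬ p ∣ k) :
    EU q (fun b => cs ((k : ZMod q) * (b : ZMod q))) = 0 := by
  obtain ⟨m, rfl⟩ : ∃ m, n = m + 1 := ⟨n - 1, by omega⟩
  have h0 : (p : ZMod q) * (k : ZMod q) ≠ 0 := by
    intro h
    have h1 : ((p * k : ℕ) : ZMod q) = 0 := by
      push_cast
      exact h
    rw [ZMod.natCast_eq_zero_iff, hq] at h1
    have h2 : p ^ 2 ∣ p * k := (pow_dvd_pow p hn).trans h1
    rw [pow_two] at h2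
    exact hk ((Nat.mul_dvd_mul_iff_left hp.pos).1 h2)
  have h1 := RR_eq_zero hp hq (k : ZMod q) h0
  have h2 := congrArg Complex.re h1
  rw [Pool.Agent.MU1.RR, Complex.re_sum, Complex.zero_re] at h2
  unfold EU cs
  rw [h2, zero_div]

theorem mt0_EU_le_EE {p n : ℕ} (hp : p.Prime) (hn : 1 ≤ n) (hq : q = p ^ n) (F : ZMod q → ℝ)
    (hF : ∀ b, 0 ≤ F b) : EU q (fun b => F b) ≤ 2 * EE q F := by
  have hq0 : (0 : ℝ) < q := by exact_mod_cast Nat.pos_of_ne_zero (NeZero.ne q)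
  have hφ0 : (0 : ℝ) < q.totient := by
    exact_mod_cast Nat.totient_pos.2 (Nat.pos_of_ne_zero (NeZero.ne q))
  have hφ : (q : ℝ) ≤ 2 * q.totient := by
    have h1 : q ≤ 2 * q.totient := by
      obtain ⟨m, rfl⟩ : ∃ m, n = m + 1 := ⟨n - 1, by omega⟩
      rw [hq, Nat.totient_prime_pow_succ hp, pow_succ]
      have h2 : p ≤ 2 * (p - 1) := by
        have := hp.two_le
        omega
      calc p ^ m * p ≤ p ^ m * (2 * (p - 1)) := Nat.mul_le_mul_left _ h2
        _ = 2 * (p ^ m * (p - 1)) := by ring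
    exact_mod_cast h1
  have h1 : ∑ b : (ZMod q)ˣ, F b ≤ ∑ b : ZMod q, F b := by
    have h2 : ∑ b : (ZMod q)ˣ, F b = ∑ b ∈ (univ : Finset (ZMod q)ˣ).map ⟨Units.val, Units.val_injective⟩, F b := by
      rw [sum_map]
      rfl
    rw [h2]
    exact sum_le_sum_of_subset_of_nonneg (subset_univ _) fun b _ _ => hF b
  have h3 : 0 ≤ ∑ b : ZMod q, F b := sum_nonneg fun b _ => hF b
  unfold EU EE
  rw [mul_div_assoc', div_le_div_iff₀ hφ0 hq0]
  calc (∑ b : (ZMod q)ˣ, F b) * q ≤ (∑ b : ZMod q, F b) * (2 * q.totient) := by gcongr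
    _ = 2 * (∑ b : ZMod q, F b) * q.totient := by ring

end Averages

/-- the power mean inequality -/
theorem mt0_power_mean {ι : Type*} (s : Finset ι) (d x : ι → ℝ) :
    (∑ i ∈ s, d i * x i) ^ 4 ≤ (∑ i ∈ s, |d i|) ^ 3 * ∑ i ∈ s, |d i| * x i ^ 4 := by
  have h0 : 0 ≤ ∑ i ∈ s, |d i| := sum_nonneg fun i _ => abs_nonneg _
  have h1 : (∑ i ∈ s, d i * x i) ^ 2 ≤ (∑ i ∈ s, |d i|) * ∑ i ∈ s, |d i| * x i ^ 2 := by
    refine sum_sq_le_sum_mul_sum_of_sq_le_mul s (fun i _ => abs_nonneg _)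
      (fun i _ => by positivity) fun i _ => le_of_eq ?_
    rw [_root_.mul_pow, ← sq_abs (d i)]
    ring
  have h2 : (∑ i ∈ s, |d i| * x i ^ 2) ^ 2 ≤ (∑ i ∈ s, |d i|) * ∑ i ∈ s, |d i| * x i ^ 4 := by
    refine sum_sq_le_sum_mul_sum_of_sq_le_mul s (fun i _ => abs_nonneg _)
      (fun i _ => by positivity) fun i _ => le_of_eq ?_
    ring
  calc (∑ i ∈ s, d i * x i) ^ 4 = ((∑ i ∈ s, d i * x i) ^ 2) ^ 2 := by ring
    _ ≤ ((∑ i ∈ s, |d i|) * ∑ i ∈ s, |d i| * x i ^ 2) ^ 2 := by gcongr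
    _ = (∑ i ∈ s, |d i|) ^ 2 * (∑ i ∈ s, |d i| * x i ^ 2) ^ 2 := by ring
    _ ≤ (∑ i ∈ s, |d i|) ^ 2 * ((∑ i ∈ s, |d i|) * ∑ i ∈ s, |d i| * x i ^ 4) := by gcongr
    _ = (∑ i ∈ s, |d i|) ^ 3 * ∑ i ∈ s, |d i| * x i ^ 4 := by ring

theorem mt0_TT_mul {N : ℕ} [NeZero N] (f : CuspForm (Gamma0 N) 2) {p q : ℕ} [NeZero q]
    {ζ : (ZMod q)ˣ} (hζ : ζ ^ (p - 1) = 1) (b : (ZMod q)ˣ) : TT f p q (ζ * b) = TT f p q b := by
  unfold TT
  refine sum_bij' (fun ξ _ => ξ * ζ) (fun ξ _ => ξ * ζ⁻¹) ?_ ?_ ?_ ?_ ?_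
  · intro ξ hξ
    simp only [HH, mem_filter, mem_univ, true_and] at hξ ⊢
    rw [_root_.mul_pow, hξ, hζ, mul_one]
  · intro ξ hξ
    simp only [HH, mem_filter, mem_univ, true_and] at hξ ⊢
    rw [_root_.mul_pow, hξ, inv_pow, hζ, inv_one, mul_one]
  · intro ξ _
    exact mul_inv_cancel_right ξ ζ
  · intro ξ _
    exact inv_mul_cancel_right ξ ζ
  · intro ξ _
    rw [mul_assoc]

/-- the test function is the adjoint of the depletion, applied to `R` -/
theorem mt0_assemble {N : ℕ} [NeZero N] (f : CuspForm (Gamma0 N) 2) {a : ℕ → ℤ}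
    {p n q K r : ℕ} [NeZero q] (hp : p.Prime) (hn : 2 ≤ n) (hq : q = p ^ n) (hK : 1 ≤ K)
    {P : Finset ℕ} {B E : Finset (ZMod q)ˣ} (hB : ∀ x ∈ B, x ^ (p - 1) = 1)
    (hE : ∀ x ∈ E, x ^ (p - 1) = 1) {c : ℕ → ℝ}
    (hc : ∀ k, c k ≠ 0 → ∀ l ∈ insert p P, ¬ l ∣ k) (hca : ∀ k, 0 ≤ c k * a k)
    (hc1 : ∀ k, |c k| ≤ 1) (J : Finset (ZMod q)ˣ) (d : (ZMod q)ˣ → ℝ)
    (hd : ∑ j ∈ J, |d j| ≤ 3 ^ r)
    (hJ : ∀ k ∈ Icc 1 K, (∀ l ∈ insert p P, ¬ l ∣ k) →
      |EU q (fun b => (∑ j ∈ J, d j * TT f p q (j * b)) * cs ((k : ZMod q) * (b : ZMod q))) -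
        (a k : ℝ) / k| ≤ 1 / K) :
    ∃ R' : (ZMod q)ˣ → ℝ, EU q R' = 0 ∧
      EU q (fun b => R' b ^ 4) ≤ 2 * 81 ^ r * EE q (fun b => RR c K B E b ^ 4) ∧
      (E.card * B.card : ℝ) * ((∑ k ∈ Icc 1 K, c k * ((a k : ℝ) / k)) / 2 - 1) ≤
        EU q (fun b => TT f p q b * R' b) := by
  classical
  set R : (ZMod q)ˣ → ℝ := fun b => RR c K B E (b : ZMod q) with hR
  set D : (ZMod q)ˣ → ℝ := fun b => ∑ j ∈ J, d j * TT f p q (j * b) with hD
  have hKr : (0 : ℝ) < K := by exact_mod_cast hK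
  -- `R` as a double sum of shifts
  have hRsum : ∀ b : (ZMod q)ˣ, R b = ∑ η ∈ E, ∑ x ∈ B, gq c K (((η * x * b : (ZMod q)ˣ)) : ZMod q) := by
    intro b
    rw [hR]
    simp only [RR]
    refine sum_congr rfl fun η _ => sum_congr rfl fun x _ => ?_
    rw [Units.val_mul, Units.val_mul]
  have hg0 : EU q (fun b => gq c K (b : ZMod q)) = 0 := by
    have h1 : (fun b : (ZMod q)ˣ => gq c K (b : ZMod q)) =
        fun b : (ZMod q)ˣ => ∑ k ∈ Icc 1 K, c k * cs ((k : ZMod q) * (b : ZMod q)) := rfl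
    rw [h1, mt0_EU_sum]
    refine sum_eq_zero fun k _ => ?_
    rw [mt0_EU_smul]
    by_cases hk : c k = 0
    · rw [hk, zero_mul]
    · rw [mt0_EU_cs hp hn hq (hc k hk p (mem_insert_self p P)), mul_zero]
  have hR0 : EU q R = 0 := by
    have h1 : R = fun b => ∑ η ∈ E, ∑ x ∈ B, gq c K (((η * x * b : (ZMod q)ˣ)) : ZMod q) :=
      funext hRsum
    rw [h1, mt0_EU_sum]
    refine sum_eq_zero fun η _ => ?_
    rw [mt0_EU_sum]
    refine sum_eq_zero fun x _ => ?_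
    rw [mt0_EU_shift (η * x) (fun b => gq c K (b : ZMod q)), hg0]
  refine ⟨fun b => ∑ j ∈ J, d j * R (j⁻¹ * b), ?_, ?_, ?_⟩
  · rw [mt0_EU_sum]
    refine sum_eq_zero fun j _ => ?_
    rw [mt0_EU_smul, mt0_EU_shift j⁻¹ R, hR0, mul_zero]
  · have h0 : 0 ≤ ∑ j ∈ J, |d j| := sum_nonneg fun i _ => abs_nonneg _
    have h1 : EU q (fun b => (∑ j ∈ J, d j * R (j⁻¹ * b)) ^ 4) ≤
        EU q (fun b => (∑ j ∈ J, |d j|) ^ 3 * ∑ j ∈ J, |d j| * R (j⁻¹ * b) ^ 4) :=
      mt0_EU_mono fun b => mt0_power_mean J d fun j => R (j⁻¹ * b)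
    have h2 : EU q (fun b => (∑ j ∈ J, |d j|) ^ 3 * ∑ j ∈ J, |d j| * R (j⁻¹ * b) ^ 4) =
        (∑ j ∈ J, |d j|) ^ 4 * EU q (fun b => R b ^ 4) := by
      rw [mt0_EU_smul, mt0_EU_sum]
      have h3 : ∀ j ∈ J, EU q (fun b => |d j| * R (j⁻¹ * b) ^ 4) = |d j| * EU q (fun b => R b ^ 4) := by
        intro j _
        rw [mt0_EU_smul, mt0_EU_shift j⁻¹ (fun b => R b ^ 4)]
      rw [sum_congr rfl h3, ← sum_mul]
      ring
    have h3 : EU q (fun b => R b ^ 4) ≤ 2 * EE q (fun b => RR c K B E b ^ 4) :=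
      mt0_EU_le_EE hp (by omega) hq (fun b => RR c K B E b ^ 4) fun b => by positivity
    have h4 : 0 ≤ EE q (fun b => RR c K B E b ^ 4) := by
      unfold EE
      refine div_nonneg (sum_nonneg fun b _ => by positivity) (by positivity)
    have h5 : (∑ j ∈ J, |d j|) ^ 4 ≤ 81 ^ r := by
      calc (∑ j ∈ J, |d j|) ^ 4 ≤ ((3 : ℝ) ^ r) ^ 4 := by gcongr
        _ = 81 ^ r := by
          rw [← pow_mul, mul_comm, pow_mul]
          norm_num
    have h6 : 0 ≤ EU q (fun b => R b ^ 4) := by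
      unfold EU
      refine div_nonneg (sum_nonneg fun b _ => by positivity) (by positivity)
    calc EU q (fun b => (∑ j ∈ J, d j * R (j⁻¹ * b)) ^ 4)
        ≤ (∑ j ∈ J, |d j|) ^ 4 * EU q (fun b => R b ^ 4) := h1.trans_eq h2
      _ ≤ 81 ^ r * (2 * EE q (fun b => RR c K B E b ^ 4)) := by gcongr
      _ = 2 * 81 ^ r * EE q (fun b => RR c K B E b ^ 4) := by ring
  · -- the adjoint
    have hDmul : ∀ ζ : (ZMod q)ˣ, ζ ^ (p - 1) = 1 → ∀ b, D (ζ * b) = D b := by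
      intro ζ hζ b
      rw [hD]
      refine sum_congr rfl fun j _ => ?_
      rw [← mul_assoc, mul_comm j ζ, mul_assoc, mt0_TT_mul f hζ]
    have h1 : EU q (fun b => TT f p q b * ∑ j ∈ J, d j * R (j⁻¹ * b)) =
        EU q (fun b => D b * R b) := by
      have h2 : (fun b => TT f p q b * ∑ j ∈ J, d j * R (j⁻¹ * b)) =
          fun b => ∑ j ∈ J, d j * (TT f p q b * R (j⁻¹ * b)) := by
        funext b
        rw [mul_sum]
        exact sum_congr rfl fun j _ => by ring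
      have h3 : (fun b => D b * R b) = fun b => ∑ j ∈ J, d j * (TT f p q (j * b) * R b) := by
        funext b
        rw [hD]
        simp only
        rw [sum_mul]
        exact sum_congr rfl fun j _ => by ring
      rw [h2, h3, mt0_EU_sum, mt0_EU_sum]
      refine sum_congr rfl fun j _ => ?_
      rw [mt0_EU_smul, mt0_EU_smul, ← mt0_EU_shift j (fun b => TT f p q b * R (j⁻¹ * b))]
      congr 2
      funext b
      rw [inv_mul_cancel_left]
    have h2 : EU q (fun b => D b * R b) =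
        (E.card * B.card : ℝ) * EU q (fun b => D b * gq c K (b : ZMod q)) := by
      have h3 : (fun b => D b * R b) =
          fun b => ∑ η ∈ E, ∑ x ∈ B, D b * gq c K (((η * x * b : (ZMod q)ˣ)) : ZMod q) := by
        funext b
        rw [hRsum, mul_sum]
        exact sum_congr rfl fun η _ => mul_sum _ _ _
      have h4 : ∀ η ∈ E, ∀ x ∈ B,
          EU q (fun b => D b * gq c K (((η * x * b : (ZMod q)ˣ)) : ZMod q)) =
            EU q (fun b => D b * gq c K (b : ZMod q)) := by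
        intro η hη x hx
        rw [← mt0_EU_shift (η * x) (fun b => D b * gq c K (b : ZMod q))]
        congr 1
        funext b
        rw [hDmul (η * x) (by rw [_root_.mul_pow, hE η hη, hB x hx, one_mul])]
      rw [h3, mt0_EU_sum]
      have h5 : ∀ η ∈ E, EU q (fun b => ∑ x ∈ B, D b * gq c K (((η * x * b : (ZMod q)ˣ)) : ZMod q)) =
          B.card * EU q (fun b => D b * gq c K (b : ZMod q)) := by
        intro η hη
        rw [mt0_EU_sum, sum_congr rfl (h4 η hη), sum_const, nsmul_eq_mul]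
      rw [sum_congr rfl h5, sum_const, nsmul_eq_mul]
      ring
    have h3 : EU q (fun b => D b * gq c K (b : ZMod q)) =
        ∑ k ∈ Icc 1 K, c k * EU q (fun b => D b * cs ((k : ZMod q) * (b : ZMod q))) := by
      have h4 : (fun b => D b * gq c K (b : ZMod q)) =
          fun b => ∑ k ∈ Icc 1 K, c k * (D b * cs ((k : ZMod q) * (b : ZMod q))) := by
        funext b
        unfold gq
        rw [mul_sum]
        exact sum_congr rfl fun k _ => by ring
      rw [h4, mt0_EU_sum]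
      exact sum_congr rfl fun k _ => mt0_EU_smul _ _
    have h4 : ∀ k ∈ Icc 1 K, c k * ((a k : ℝ) / k) - 1 / K ≤
        c k * EU q (fun b => D b * cs ((k : ZMod q) * (b : ZMod q))) := by
      intro k hk
      by_cases hck : c k = 0
      · rw [hck]
        have : 0 < 1 / (K : ℝ) := by positivity
        linarith
      · have h5 := hJ k hk (hc k hck)
        have h6 : |c k * (EU q (fun b => D b * cs ((k : ZMod q) * (b : ZMod q))) - (a k : ℝ) / k)| ≤
            1 * (1 / K) := by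
          rw [abs_mul]
          exact mul_le_mul (hc1 k) h5 (abs_nonneg _) zero_le_one
        have h7 := (abs_le.1 h6).1
        linarith
    have h5 : ∑ k ∈ Icc 1 K, c k * ((a k : ℝ) / k) - 1 ≤ EU q (fun b => D b * gq c K (b : ZMod q)) := by
      rw [h3]
      have h6 := sum_le_sum h4
      rw [sum_sub_distrib, sum_const, Nat.card_Icc, nsmul_eq_mul, Nat.add_sub_cancel,
        mul_one_div_cancel hKr.ne'] at h6
      exact h6
    have h6 : 0 ≤ ∑ k ∈ Icc 1 K, c k * ((a k : ℝ) / k) := by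
      refine sum_nonneg fun k _ => ?_
      rw [← mul_div_assoc]
      exact div_nonneg (hca k) (Nat.cast_nonneg k)
    rw [h1, h2]
    have h7 : (0 : ℝ) ≤ E.card * B.card := by positivity
    refine mul_le_mul_of_nonneg_left ?_ h7
    linarith

end Pool.Agent.MU0
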