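import Pool.Agent.MU0.Defs

/-!
# Module MT: the depletion at a finite set of primes
-/

set_option autoImplicit false

open Finset CongruenceSubgroup
open scoped Real

namespace Pool.Agent.MU0

open Pool.Agent.MU1

/-- the three coefficients of the depletion at `l` -/
noncomputable def mtC (N : ℕ) (a : ℕ → ℤ) (l : ℕ) : Fin 3 → ℝ :=
  ![1, -((a l : ℝ) / l), if l ∣ N then 0 else 1 / (l : ℝ)]

theorem mtC_sum_le {N : ℕ} {a : ℕ → ℤ} (hb : ∀ n : ℕ, |(a n : ℝ)| ≤ n.divisors.card * √n) {l : ℕ}
    (hl : l.Prime) : ∑ e : Fin 3, |mtC N a l e| ≤ 3 := by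
  have h2 : (2 : ℝ) ≤ l := by exact_mod_cast hl.two_le
  have h0 : (0 : ℝ) < l := by linarith
  have h1 : |(a l : ℝ)| ≤ 2 * √l := by
    have h := hb l
    have h3 : l.divisors.card = 2 := by
      rw [hl.divisors, card_insert_of_notMem, card_singleton]
      rw [mem_singleton]
      exact hl.one_lt.ne
    rw [h3] at h
    exact_mod_cast h
  have h3 : |(a l : ℝ) / l| ≤ 3 / 2 := by
    rw [abs_div, abs_of_pos h0, div_le_iff₀ h0]
    refine h1.trans ?_
    have h4 : 0 ≤ 3 / 2 * (l : ℝ) := by positivity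
    have h5 : (2 * √(l : ℝ)) ^ 2 ≤ (3 / 2 * (l : ℝ)) ^ 2 := by
      rw [_root_.mul_pow, Real.sq_sqrt h0.le]
      nlinarith
    exact (abs_le_of_sq_le_sq' h5 h4).2
  have h4 : |if l ∣ N then (0 : ℝ) else 1 / (l : ℝ)| ≤ 1 / 2 := by
    split_ifs
    · rw [abs_zero]; norm_num
    · rw [abs_of_pos (by positivity)]
      exact one_div_le_one_div_of_le (by norm_num) h2
  rw [Fin.sum_univ_three]
  have e0 : |mtC N a l 0| = 1 := by
    change |(1 : ℝ)| = 1
    exact abs_one
  have e1 : |mtC N a l 1| = |(a l : ℝ) / l| := by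
    change |-((a l : ℝ) / l)| = _
    exact abs_neg _
  have e2 : |mtC N a l 2| = |if l ∣ N then (0 : ℝ) else 1 / (l : ℝ)| := rfl
  rw [e0, e1, e2]
  linarith

/-- one prime -/
theorem mt_hecke {N : ℕ} {a : ℕ → ℤ} (hH : HeckeAll N a) {l : ℕ} (hl : l.Prime) (M : ℕ) :
    ∑ e : Fin 3, (if l ^ (e : ℕ) ∣ M then mtC N a l e * (l : ℝ) ^ (e : ℕ) * a (M / l ^ (e : ℕ)) else 0) =
      if l ∣ M then 0 else (a M : ℝ) := by
  have h0 : (l : ℝ) ≠ 0 := by exact_mod_cast hl.ne_zero
  rw [Fin.sum_univ_three]
  have e0 : mtC N a l 0 = 1 := rfl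
  have e1 : mtC N a l 1 = -((a l : ℝ) / l) := rfl
  have e2 : mtC N a l 2 = if l ∣ N then (0 : ℝ) else 1 / (l : ℝ) := rfl
  rw [e0, e1, e2]
  simp only [Fin.val_zero, Fin.val_one, Fin.val_two, pow_zero, pow_one, one_dvd, if_true, one_mul,
    Nat.div_one]
  by_cases hlM : l ∣ M
  · obtain ⟨n, rfl⟩ := hlM
    have h1 := hH l hl n
    have h2 : l * n / l = n := Nat.mul_div_cancel_left n hl.pos
    have h3 : l * n / l ^ 2 = n / l := by
      rw [pow_two]
      exact Nat.mul_div_mul_left n l hl.pos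
    have h4 : l ^ 2 ∣ l * n ↔ l ∣ n := by
      rw [pow_two]
      exact Nat.mul_dvd_mul_iff_left hl.pos
    rw [if_pos (dvd_mul_right l n), if_pos (dvd_mul_right l n), h2, h3]
    simp only [h4]
    have h5 : (a (l * n) : ℝ) + (if l ∣ n ∧ ¬ l ∣ N then (l : ℝ) * a (n / l) else 0) = a l * a n := by
      have h6 := congrArg (fun z : ℤ => (z : ℝ)) h1
      push_cast at h6
      exact h6
    by_cases hln : l ∣ n
    · by_cases hN : l ∣ N
      · simp only [hln, hN, not_true_eq_false, and_false, if_false, if_true, add_zero, zero_mul] at h5 ⊢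
        rw [h5]
        field_simp
        ring
      · simp only [hln, hN, not_false_eq_true, and_self, if_true, if_false] at h5 ⊢
        have h7 : 1 / (l : ℝ) * l ^ 2 * a (n / l) = (l : ℝ) * a (n / l) := by
          field_simp
        rw [h7]
        have h8 : -((a l : ℝ) / l) * l * a n = -(a l * a n) := by
          field_simp
        rw [h8]
        linarith
    · simp only [hln, false_and, if_false, add_zero] at h5 ⊢
      rw [h5]
      field_simp
      ring
  · have h2 : ¬ l ^ 2 ∣ M := fun h => hlM ((dvd_pow_self l two_ne_zero).trans h)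
    simp only [hlM, h2, if_false, add_zero]

/-- The depletion at the primes of `P`. -/
theorem mt_depl {N : ℕ} {a : ℕ → ℤ} (hH : HeckeAll N a)
    (hb : ∀ n : ℕ, |(a n : ℝ)| ≤ n.divisors.card * √n) (P : Finset ℕ) (hP : ∀ l ∈ P, l.Prime) :
    ∃ (ι : Type) (_ : Fintype ι) (j : ι → ℕ) (δ : ι → ℝ), ∑ i, |δ i| ≤ 3 ^ P.card ∧
      (∀ i, j i ∣ (∏ l ∈ P, l) ^ 2) ∧
      ∀ M : ℕ, ∑ i, (if j i ∣ M then δ i * (j i : ℝ) * a (M / j i) else 0) =
        if ∀ l ∈ P, ¬ l ∣ M then (a M : ℝ) else 0 := by
  classical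
  induction P using Finset.induction_on with
  | empty =>
    refine ⟨Unit, inferInstance, fun _ => 1, fun _ => 1, ?_, ?_, ?_⟩
    · simp
    · intro i
      exact one_dvd _
    · intro M
      simp
  | insert l P hlP ih =>
    obtain ⟨ι, hι, j, δ, h1, h2, h3⟩ := ih fun l hl => hP l (mem_insert_of_mem hl)
    have hl : l.Prime := hP l (mem_insert_self l P)
    refine ⟨ι × Fin 3, inferInstance, fun x => j x.1 * l ^ (x.2 : ℕ), fun x => δ x.1 * mtC N a l x.2,
      ?_, ?_, ?_⟩
    · rw [Fintype.sum_prod_type, card_insert_of_notMem hlP, pow_succ]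
      have h4 : ∑ i, ∑ e, |δ i * mtC N a l e| = (∑ i, |δ i|) * ∑ e, |mtC N a l e| := by
        rw [sum_mul_sum]
        exact sum_congr rfl fun i _ => sum_congr rfl fun e _ => abs_mul _ _
      rw [h4]
      have h5 : 0 ≤ ∑ e, |mtC N a l e| := sum_nonneg fun e _ => abs_nonneg _
      exact mul_le_mul h1 (mtC_sum_le hb hl) h5 (by positivity)
    · rintro ⟨i, e⟩
      rw [prod_insert hlP, _root_.mul_pow, mul_comm (l ^ 2)]
      exact mul_dvd_mul (h2 i) (pow_dvd_pow l (by have := e.2; omega))
    · intro M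
      rw [Fintype.sum_prod_type_right]
      simp only
      have hjl : ∀ i (e : ℕ), Nat.Coprime (j i) (l ^ e) := by
        intro i e
        refine Nat.Coprime.pow_right e ?_
        refine Nat.Coprime.coprime_dvd_left (h2 i) ?_
        refine Nat.Coprime.pow_left 2 ?_
        refine Nat.Coprime.prod_left fun l' hl' => ?_
        rw [Nat.coprime_primes (hP l' (mem_insert_of_mem hl')) hl]
        rintro rfl
        exact hlP hl'
      have h4 : ∀ e : Fin 3, ∑ i, (if j i * l ^ (e : ℕ) ∣ M then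
          δ i * mtC N a l e * ((j i * l ^ (e : ℕ) : ℕ) : ℝ) * a (M / (j i * l ^ (e : ℕ))) else 0) =
          (if ∀ l ∈ P, ¬ l ∣ M then
            (if l ^ (e : ℕ) ∣ M then mtC N a l e * (l : ℝ) ^ (e : ℕ) * a (M / l ^ (e : ℕ)) else 0)
            else 0) := by
        intro e
        by_cases he : l ^ (e : ℕ) ∣ M
        · obtain ⟨n, rfl⟩ := he
          have hpos : 0 < l ^ (e : ℕ) := pow_pos hl.pos _
          have h5 := h3 n
          have h6 : (∀ l' ∈ P, ¬ l' ∣ l ^ (e : ℕ) * n) ↔ ∀ l' ∈ P, ¬ l' ∣ n := by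
            refine forall₂_congr fun l' hl' => not_congr ?_
            have hl'p := hP l' (mem_insert_of_mem hl')
            have hcop : Nat.Coprime l' (l ^ (e : ℕ)) := by
              refine Nat.Coprime.pow_right _ ?_
              rw [Nat.coprime_primes hl'p hl]
              rintro rfl
              exact hlP hl'
            exact hcop.dvd_mul_left
          rw [if_pos (dvd_mul_right (l ^ (e : ℕ)) n), Nat.mul_div_cancel_left n hpos]
          simp only [h6]
          have h7 : (if ∀ l' ∈ P, ¬ l' ∣ n then mtC N a l e * (l : ℝ) ^ (e : ℕ) * (a n : ℝ) else 0) =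
              mtC N a l e * (l : ℝ) ^ (e : ℕ) * (if ∀ l' ∈ P, ¬ l' ∣ n then (a n : ℝ) else 0) := by
            rw [mul_ite, mul_zero]
          rw [h7, ← h5, mul_sum]
          refine sum_congr rfl fun i _ => ?_
          have h8 : j i * l ^ (e : ℕ) ∣ l ^ (e : ℕ) * n ↔ j i ∣ n := by
            rw [mul_comm]
            exact Nat.mul_dvd_mul_iff_left hpos
          have h9 : l ^ (e : ℕ) * n / (j i * l ^ (e : ℕ)) = n / j i := by
            rw [mul_comm (j i)]
            exact Nat.mul_div_mul_left n (j i) hpos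
          rw [h9]
          simp only [h8]
          split_ifs
          · push_cast
            ring
          · rw [mul_zero]
        · have h5 : ∀ i, ¬ j i * l ^ (e : ℕ) ∣ M := fun i h => he ((dvd_mul_left _ _).trans h)
          simp only [h5, he, if_false, sum_const_zero, ite_self]
      rw [sum_congr rfl fun e _ => h4 e]
      by_cases hM : ∀ l ∈ P, ¬ l ∣ M
      · rw [sum_congr rfl fun e _ => if_pos hM, mt_hecke hH hl]
        by_cases hlM : l ∣ M
        · rw [if_pos hlM, if_neg]
          intro h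
          exact h l (mem_insert_self l P) hlM
        · rw [if_neg hlM, if_pos]
          intro l' hl'
          rcases mem_insert.1 hl' with rfl | h
          · exact hlM
          · exact hM l' h
      · rw [sum_congr rfl fun e _ => if_neg hM, sum_const_zero, if_neg]
        intro h
        exact hM fun l' hl' => h l' (mem_insert_of_mem hl')

end Pool.Agent.MU0
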