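import Pool.Agent.MU0.Mt0

/-!
# Module MT: the Kloosterman part
-/

set_option autoImplicit false

open UpperHalfPlane hiding I
open Filter Topology Complex Function CongruenceSubgroup
open scoped MatrixGroups Real ModularForm OnePoint ComplexConjugate

namespace Pool.Agent.MU0

open Pool.Agent.MZ Pool.Agent.MZ.Per Pool.Agent.MU1

variable {N : ℕ} [NeZero N]

/-- Hecke's bound -/
theorem mtB_coeff_le (g : CuspForm (Gamma0 N) 2) :
    ∃ C : ℝ, 0 ≤ C ∧ ∀ m : ℕ, ‖(qExpansion 1 g).coeff m‖ ≤ C * m := by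
  have h := CuspFormClass.qExpansion_isBigO (k := 2) (Γ := (Gamma0 N : Subgroup (GL (Fin 2) ℝ))) g
  rw [CongruenceSubgroup.strictWidthInfty_Gamma0] at h
  obtain ⟨c, hc⟩ := h.bound
  rw [eventually_atTop] at hc
  obtain ⟨M, hM⟩ := hc
  have h0 : (qExpansion 1 g).coeff 0 = 0 := coeff_zero g (a := fun n => (qExpansion 1 g).coeff n) fun n => rfl
  refine ⟨|c| + ∑ m ∈ Finset.range M, ‖(qExpansion 1 g).coeff m‖, by positivity, fun m => ?_⟩
  rcases Nat.eq_zero_or_pos m with rfl | hm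
  · rw [h0]; simp
  have hm1 : (1 : ℝ) ≤ m := by exact_mod_cast hm
  have hs : 0 ≤ ∑ m ∈ Finset.range M, ‖(qExpansion 1 g).coeff m‖ :=
    Finset.sum_nonneg fun _ _ => norm_nonneg _
  rcases lt_or_ge m M with h1 | h1
  · have h2 : ‖(qExpansion 1 g).coeff m‖ ≤ ∑ m ∈ Finset.range M, ‖(qExpansion 1 g).coeff m‖ :=
      Finset.single_le_sum (f := fun m => ‖(qExpansion 1 g).coeff m‖) (fun _ _ => norm_nonneg _)
        (Finset.mem_range.2 h1)
    have h3 : 0 ≤ |c| := abs_nonneg c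
    nlinarith
  · have h2 := hM m h1
    have h3 : ‖(m : ℝ) ^ (((2 : ℤ) : ℝ) / 2)‖ = m := by
      norm_num
    rw [h3] at h2
    have h4 : c * m ≤ |c| * m := by
      have := le_abs_self c
      nlinarith
    nlinarith

/-- the series with Hecke's bound -/
theorem mtB_sum_le {c : ℕ → ℂ} {C : ℝ} (hC : 0 ≤ C) (hc : ∀ m : ℕ, ‖c m‖ ≤ C * m) {t : ℝ} (ht : 0 < t) :
    Summable (fun m : ℕ => ‖c m / m * (Real.exp (-2 * π * m * t) : ℂ)‖) ∧
      ∑' m : ℕ, ‖c m / m * (Real.exp (-2 * π * m * t) : ℂ)‖ ≤ C / t := by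
  set x : ℝ := Real.exp (-2 * π * t) with hx
  have hx0 : 0 < x := Real.exp_pos _
  have hx1 : x < 1 := by
    rw [hx, Real.exp_lt_one_iff]
    have := Real.pi_pos
    nlinarith [mul_pos this ht]
  have hxm : ∀ m : ℕ, Real.exp (-2 * π * m * t) = x ^ m := by
    intro m
    rw [hx, ← Real.exp_nat_mul]
    congr 1
    ring
  have hg := hasSum_geometric_of_lt_one hx0.le hx1
  have hle : ∀ m : ℕ, ‖c (m + 1) / ((m + 1 : ℕ) : ℂ) * (Real.exp (-2 * π * ((m + 1 : ℕ) : ℝ) * t) : ℂ)‖ ≤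
      C * x * x ^ m := by
    intro m
    have h1 := hc (m + 1)
    have hm : (0 : ℝ) < ((m + 1 : ℕ) : ℝ) := by positivity
    rw [norm_mul, norm_div, Complex.norm_real, Complex.norm_natCast,
      Real.norm_of_nonneg (Real.exp_pos _).le, hxm]
    have h2 : ‖c (m + 1)‖ / ((m + 1 : ℕ) : ℝ) ≤ C := by
      rw [div_le_iff₀ hm]
      exact h1
    calc ‖c (m + 1)‖ / ((m + 1 : ℕ) : ℝ) * x ^ (m + 1) ≤ C * x ^ (m + 1) := by gcongr
      _ = C * x * x ^ m := by ring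
  have hs1 : Summable fun m : ℕ =>
      ‖c (m + 1) / ((m + 1 : ℕ) : ℂ) * (Real.exp (-2 * π * ((m + 1 : ℕ) : ℝ) * t) : ℂ)‖ :=
    Summable.of_nonneg_of_le (fun m => norm_nonneg _) hle (hg.summable.mul_left _)
  have hs : Summable (fun m : ℕ => ‖c m / m * (Real.exp (-2 * π * m * t) : ℂ)‖) :=
    (summable_nat_add_iff 1).1 hs1
  refine ⟨hs, ?_⟩
  rw [hs.tsum_eq_zero_add]
  have h0 : ‖c 0 / ((0 : ℕ) : ℂ) * (Real.exp (-2 * π * ((0 : ℕ) : ℝ) * t) : ℂ)‖ = 0 := by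
    simp
  rw [h0, zero_add]
  have h1 : ∑' m : ℕ, ‖c (m + 1) / ((m + 1 : ℕ) : ℂ) * (Real.exp (-2 * π * ((m + 1 : ℕ) : ℝ) * t) : ℂ)‖ ≤
      C * x * (1 - x)⁻¹ := by
    rw [← (hg.mul_left (C * x)).tsum_eq]
    exact hs1.tsum_le_tsum hle (hg.summable.mul_left _)
  refine h1.trans ?_
  have h2 : x * (1 - x)⁻¹ ≤ 1 / t := by
    have h3 : 0 < 1 - x := by linarith
    rw [← div_eq_mul_inv, div_le_div_iff₀ h3 ht]
    -- x t ≤ 1 - x, i.e. x (1 + t) ≤ 1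
    have h4 : 1 + t ≤ Real.exp (2 * π * t) := by
      have h5 := Real.add_one_le_exp (2 * π * t)
      have h6 : t ≤ 2 * π * t := by
        have := Real.pi_gt_three
        nlinarith
      linarith
    have h5 : x * Real.exp (2 * π * t) = 1 := by
      rw [hx, ← Real.exp_add]
      have : -2 * π * t + 2 * π * t = 0 := by ring
      rw [this, Real.exp_zero]
    have h6 : x * (1 + t) ≤ x * Real.exp (2 * π * t) := mul_le_mul_of_nonneg_left h4 hx0.le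
    linarith
  calc C * x * (1 - x)⁻¹ = C * (x * (1 - x)⁻¹) := by ring
    _ ≤ C * (1 / t) := by gcongr
    _ = C / t := by ring

/-- the Kloosterman bound for a series -/
theorem mtB_kloo {p : ℕ} (hp : p.Prime) (hp2 : p ≠ 2) {k q : ℕ} [NeZero q] (hk : 1 ≤ k)
    (hq : q = p ^ (2 * k)) (β : ℕ → ℂ) (hβ : Summable fun m => ‖β m‖) (w : (ZMod q)ˣ) (u : (ZMod q)ˣ) :
    ‖∑ b : (ZMod q)ˣ, (∑' m : ℕ, β m * ZMod.stdAddChar (-(m : ZMod q) *
      (((w * b)⁻¹ : (ZMod q)ˣ) : ZMod q))) * ZMod.stdAddChar ((u : ZMod q) * (b : ZMod q))‖ ≤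
      (∑' m : ℕ, ‖β m‖) * (2 * (p : ℝ) ^ k) := by
  have hE : ∀ x : ZMod q, ‖(ZMod.stdAddChar x : ℂ)‖ = 1 := fun x => AddChar.norm_apply _ _
  have hsum : ∀ b : (ZMod q)ˣ, Summable fun m : ℕ => β m * ZMod.stdAddChar (-(m : ZMod q) *
      (((w * b)⁻¹ : (ZMod q)ˣ) : ZMod q)) := by
    intro b
    refine Summable.of_norm (hβ.congr fun m => ?_)
    rw [norm_mul, hE, mul_one]
  have h1 : ∑ b : (ZMod q)ˣ, (∑' m : ℕ, β m * ZMod.stdAddChar (-(m : ZMod q) *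
      (((w * b)⁻¹ : (ZMod q)ˣ) : ZMod q))) * ZMod.stdAddChar ((u : ZMod q) * (b : ZMod q)) =
      ∑' m : ℕ, β m * ∑ b : (ZMod q)ˣ, ZMod.stdAddChar ((u : ZMod q) * (b : ZMod q) +
        (-(m : ZMod q) * ((w⁻¹ : (ZMod q)ˣ) : ZMod q)) * ((b⁻¹ : (ZMod q)ˣ) : ZMod q)) := by
    simp_rw [← tsum_mul_right]
    rw [← Summable.tsum_finsetSum (fun b _ => (hsum b).mul_right _)]
    refine tsum_congr fun m => ?_
    rw [Finset.mul_sum]
    refine Finset.sum_congr rfl fun b _ => ?_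
    rw [mul_assoc, ← AddChar.map_add_eq_mul]
    congr 2
    rw [mul_inv, Units.val_mul]
    ring
  rw [h1, ← tsum_mul_right]
  refine tsum_of_norm_bounded (hβ.mul_right _).hasSum fun m => ?_
  rw [norm_mul]
  exact mul_le_mul_of_nonneg_left (kloosterman_le hp hp2 hk hq _ _ u.isUnit) (norm_nonneg _)

theorem mtB_cs {q : ℕ} [NeZero q] (x : ZMod q) :
    ((cs x : ℝ) : ℂ) = (ZMod.stdAddChar x + ZMod.stdAddChar (-x)) / 2 := by
  rw [AddChar.map_neg_eq_conj, Complex.add_conj, cs]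
  push_cast
  ring

/-- the Kloosterman part of the coefficient -/
theorem mtB_EU {p : ℕ} (hp : p.Prime) (hp2 : p ≠ 2) {k q : ℕ} [NeZero q] (hk : 1 ≤ k)
    (hq : q = p ^ (2 * k)) (β : ℕ → ℂ) (hβ : Summable fun m => ‖β m‖) (w v u : (ZMod q)ˣ) :
    |EU q (fun b => (∑' m : ℕ, β m * ZMod.stdAddChar (-(m : ZMod q) *
      (((w * (v * b))⁻¹ : (ZMod q)ˣ) : ZMod q))).re * cs ((u : ZMod q) * (b : ZMod q)))| ≤
      (∑' m : ℕ, ‖β m‖) * (4 / (p : ℝ) ^ k) := by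
  have hp0 : (0 : ℝ) < p := by exact_mod_cast hp.pos
  have hφ0 : (0 : ℝ) < q.totient := by
    exact_mod_cast Nat.totient_pos.2 (Nat.pos_of_ne_zero (NeZero.ne q))
  have hφ : (p : ℝ) ^ (2 * k) ≤ 2 * q.totient := by
    have h1 : q ≤ 2 * q.totient := by
      obtain ⟨m, hm⟩ : ∃ m, 2 * k = m + 1 := ⟨2 * k - 1, by omega⟩
      rw [hq, hm, Nat.totient_prime_pow_succ hp, pow_succ]
      have h2 : p ≤ 2 * (p - 1) := by
        have := hp.two_le
        omega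
      calc p ^ m * p ≤ p ^ m * (2 * (p - 1)) := Nat.mul_le_mul_left _ h2
        _ = 2 * (p ^ m * (p - 1)) := by ring
    have h2 : ((p ^ (2 * k) : ℕ) : ℝ) ≤ ((2 * q.totient : ℕ) : ℝ) := by
      rw [← hq]
      exact_mod_cast h1
    push_cast at h2
    exact h2
  set B : ℝ := ∑' m : ℕ, ‖β m‖ with hB
  have hB0 : 0 ≤ B := tsum_nonneg fun m => norm_nonneg _
  set V : (ZMod q)ˣ → ℂ := fun b => ∑' m : ℕ, β m * ZMod.stdAddChar (-(m : ZMod q) *
      (((w * (v * b))⁻¹ : (ZMod q)ˣ) : ZMod q)) with hV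
  have hV' : ∀ b, V b = ∑' m : ℕ, β m * ZMod.stdAddChar (-(m : ZMod q) *
      ((((w * v) * b)⁻¹ : (ZMod q)ˣ) : ZMod q)) := by
    intro b
    rw [hV]
    simp only
    rw [mul_assoc]
  have h1 : ∀ u' : (ZMod q)ˣ, ‖∑ b : (ZMod q)ˣ, V b * ZMod.stdAddChar ((u' : ZMod q) * (b : ZMod q))‖ ≤
      B * (2 * (p : ℝ) ^ k) := by
    intro u'
    have h2 := mtB_kloo hp hp2 hk hq β hβ (w * v) u'
    simp_rw [← hV'] at h2
    exact h2
  have h2 : ∑ b : (ZMod q)ˣ, (V b).re * cs ((u : ZMod q) * (b : ZMod q)) =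
      ((∑ b : (ZMod q)ˣ, V b * ZMod.stdAddChar ((u : ZMod q) * (b : ZMod q)) +
        ∑ b : (ZMod q)ˣ, V b * ZMod.stdAddChar (((-u : (ZMod q)ˣ) : ZMod q) * (b : ZMod q))) / 2).re := by
    rw [← Finset.sum_add_distrib, Finset.sum_div, Complex.re_sum]
    refine Finset.sum_congr rfl fun b _ => ?_
    rw [← mul_add, mul_div_assoc, Units.val_neg, neg_mul, ← mtB_cs, Complex.re_mul_ofReal]
  unfold EU
  rw [h2, abs_div, abs_of_pos hφ0]
  have h3 : ‖(∑ b : (ZMod q)ˣ, V b * ZMod.stdAddChar ((u : ZMod q) * (b : ZMod q)) +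
        ∑ b : (ZMod q)ˣ, V b * ZMod.stdAddChar (((-u : (ZMod q)ˣ) : ZMod q) * (b : ZMod q))) / 2‖ ≤
      B * (2 * (p : ℝ) ^ k) := by
    rw [norm_div]
    have h4 := norm_add_le (∑ b : (ZMod q)ˣ, V b * ZMod.stdAddChar ((u : ZMod q) * (b : ZMod q)))
      (∑ b : (ZMod q)ˣ, V b * ZMod.stdAddChar (((-u : (ZMod q)ˣ) : ZMod q) * (b : ZMod q)))
    have h5 := h1 u
    have h6 := h1 (-u)
    rw [Complex.norm_ofNat, div_le_iff₀ (by norm_num)]
    linarith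
  rw [div_le_iff₀ hφ0]
  refine (Complex.abs_re_le_norm _).trans (h3.trans ?_)
  have h7 : 2 * (p : ℝ) ^ k ≤ 4 / (p : ℝ) ^ k * q.totient := by
    rw [div_mul_eq_mul_div, le_div_iff₀ (by positivity)]
    calc 2 * (p : ℝ) ^ k * p ^ k = 2 * (p : ℝ) ^ (2 * k) := by rw [two_mul k, pow_add]; ring
      _ ≤ 2 * (2 * q.totient) := by gcongr
      _ = 4 * q.totient := by ring
  calc B * (2 * (p : ℝ) ^ k) ≤ B * (4 / (p : ℝ) ^ k * q.totient) := by gcongr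
    _ = B * (4 / (p : ℝ) ^ k) * q.totient := by ring

end Pool.Agent.MU0
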