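import Pool.Agent.MU0.MtB1
import Pool.Agent.MU0.MtB2

/-!
# Module MT: the two parts of the depleted sum
-/

set_option autoImplicit false

open UpperHalfPlane hiding I
open Filter Topology Complex Function CongruenceSubgroup
open scoped MatrixGroups Real ModularForm OnePoint ComplexConjugate

namespace Pool.Agent.MU0

open Pool.Agent.MZ Pool.Agent.MZ.Per Pool.Agent.MU1

variable {N : ℕ} [NeZero N]

theorem mtC_G_vert (f : CuspForm (Gamma0 N) 2) {a : ℕ → ℂ}
    (ha : ∀ n, (qExpansion 1 f).coeff n = a n) (q : ℕ) [NeZero q] (z : ℤ) {t : ℝ} (ht : 0 < t) :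
    G f (vert ((z : ℝ) / q) t) = ∑' m : ℕ, a m / m * (Real.exp (-2 * π * m * t) : ℂ) *
        ZMod.stdAddChar ((m : ZMod q) * (z : ZMod q)) := by
  rw [← (hasSum_G f ha _).tsum_eq]
  refine tsum_congr fun m => ?_
  rw [coe_vert ht]
  have h1 : ((m : ZMod q) * (z : ZMod q)) = (((m : ℤ) * z : ℤ) : ZMod q) := by push_cast; rfl
  rw [h1, ZMod.stdAddChar_coe]
  have h2 : cexp (2 * π * Complex.I * m * (((z : ℝ) / q : ℝ) + (t : ℂ) * Complex.I)) =
      cexp (2 * π * Complex.I * ((m : ℤ) * z : ℤ) / q) * (Real.exp (-2 * π * m * t) : ℂ) := by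
    rw [ofReal_exp, ← Complex.exp_add]
    congr 1
    push_cast
    linear_combination (2 * π * m * t) * Complex.I_mul_I
  rw [h2]
  ring

/-- the two parts of the boundary value -/
theorem mtC_JJ (f g : CuspForm (Gamma0 N) 2) {a : ℕ → ℤ}
    (ha : ∀ n, (qExpansion 1 f).coeff n = a n) {q : ℕ} [NeZero q] (hqN : Nat.Coprime N q)
    (hbd : ∀ (b r : ℤ), (q : ℤ) ∣ N * r * b - 1 → ∀ y : ℝ, 0 < y →
      bd (G f) (((b : ℚ) / (q : ℚ) : ℚ) : OnePoint ℚ) =
        G f (vert ((b : ℝ) / q) y) - G g (vert (-(r : ℝ) / q) (1 / (N * q ^ 2 * y))))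
    {y : ℝ} (hy : 0 < y) (b : (ZMod q)ˣ) :
    JJ f q b = ∑' m : ℕ, (((a m : ℝ) / m * Real.exp (-2 * π * m * y) : ℝ) : ℂ) *
        ZMod.stdAddChar ((m : ZMod q) * (b : ZMod q)) -
      ∑' m : ℕ, (qExpansion 1 g).coeff m / m * (Real.exp (-2 * π * m * (1 / (N * q ^ 2 * y))) : ℂ) *
        ZMod.stdAddChar (-(m : ZMod q) * (((ZMod.unitOfCoprime N hqN * b)⁻¹ : (ZMod q)ˣ) : ZMod q)) := by
  have hN : N ≠ 0 := NeZero.ne N
  have hNr : (0 : ℝ) < N := by exact_mod_cast Nat.pos_of_ne_zero hN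
  have hq : 0 < q := Nat.pos_of_ne_zero (NeZero.ne q)
  have hqr : (0 : ℝ) < q := by exact_mod_cast hq
  set w := ZMod.unitOfCoprime N hqN with hw
  set r : ℤ := ((((w * b)⁻¹ : (ZMod q)ˣ) : ZMod q).val : ℤ) with hr
  have hrc : ((r : ℤ) : ZMod q) = (((w * b)⁻¹ : (ZMod q)ˣ) : ZMod q) := by
    rw [hr]
    push_cast
    rw [ZMod.natCast_val, ZMod.cast_id', id]
  have hbc : ((((b : ZMod q).val : ℤ) : ℤ) : ZMod q) = (b : ZMod q) := by
    push_cast
    rw [ZMod.natCast_val, ZMod.cast_id', id]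
  have hdvd : (q : ℤ) ∣ N * r * ((b : ZMod q).val : ℤ) - 1 := by
    rw [← ZMod.intCast_zmod_eq_zero_iff_dvd]
    have h1 : (N : ZMod q) = (w : ZMod q) := (ZMod.coe_unitOfCoprime N hqN).symm
    rw [Int.cast_sub, Int.cast_mul, Int.cast_mul, hrc, hbc, Int.cast_natCast, h1, Int.cast_one]
    have h2 : ((w * b : (ZMod q)ˣ) : ZMod q) * (((w * b)⁻¹ : (ZMod q)ˣ) : ZMod q) = 1 := by
      rw [← Units.val_mul, mul_inv_cancel, Units.val_one]
    rw [Units.val_mul] at h2
    linear_combination h2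
  have h := hbd _ _ hdvd y hy
  have hpos : 0 < 1 / ((N : ℝ) * q ^ 2 * y) := by positivity
  rw [G_vert f ha q _ hy, hbc] at h
  have h2 : -(r : ℝ) / q = ((-r : ℤ) : ℝ) / q := by push_cast; rfl
  rw [h2, mtC_G_vert g (fun n => rfl) q _ hpos] at h
  have h3 : JJ f q b = bd (G f) (((((b : ZMod q).val : ℤ) : ℚ) / (q : ℚ) : ℚ) : OnePoint ℚ) := by
    rw [JJ, Int.cast_natCast]
  rw [h3, h]
  congr 1
  refine tsum_congr fun m => ?_
  congr 2
  push_cast
  rw [hrc]
  ring

theorem mtC_abs_cs {q : ℕ} [NeZero q] (x : ZMod q) : |cs x| ≤ 1 := by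
  unfold cs
  refine (Complex.abs_re_le_norm _).trans ?_
  rw [AddChar.norm_apply]

/-- the sums over the multiples of `j` -/
theorem mtC_tsum_dvd {j : ℕ} (hj : 0 < j) (F : ℕ → ℝ) :
    ∑' m : ℕ, F (j * m) = ∑' M : ℕ, if j ∣ M then F M else 0 := by
  have hinj : Function.Injective fun m : ℕ => j * m := fun x y h => Nat.eq_of_mul_eq_mul_left hj h
  have h1 := hinj.tsum_eq (f := fun M : ℕ => if j ∣ M then F M else 0) (by
    intro M hM
    rw [Function.mem_support] at hM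
    by_cases h : j ∣ M
    · obtain ⟨m, rfl⟩ := h
      exact ⟨m, rfl⟩
    · rw [if_neg h] at hM
      exact absurd rfl hM)
  rw [← h1]
  exact tsum_congr fun m => by rw [if_pos (dvd_mul_right j m)]

/-- The direct part. -/
theorem mtC_A {q p : ℕ} [NeZero q] {a : ℕ → ℤ} {y : ℝ} (hy : 0 < y)
    (hs : ∀ y : ℝ, 0 < y → Summable fun m : ℕ => |(a m : ℝ)| * Real.exp (-2 * π * m * y))
    {ι : Type} [Fintype ι] (j : ι → ℕ) (δ : ι → ℝ) (hj : ∀ i, 0 < j i) (u : ι → (ZMod q)ˣ)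
    (hu : ∀ i, ((u i : (ZMod q)ˣ) : ZMod q) = (j i : ZMod q)) (P : Finset ℕ)
    (hdep : ∀ M : ℕ, ∑ i, (if j i ∣ M then δ i * (j i : ℝ) * a (M / j i) else 0) =
        if ∀ l ∈ P, ¬ l ∣ M then (a M : ℝ) else 0) (k : ℕ) :
    ∑ i, δ i * ∑ ζ ∈ HH p q, EU q (fun b => (∑' m : ℕ, (a m : ℝ) / m *
      Real.exp (-2 * π * m * (j i * y)) * cs ((m : ZMod q) * ((ζ * (u i * b) : (ZMod q)ˣ) : ZMod q))) *
        cs ((k : ZMod q) * (b : ZMod q))) =
    ∑' M : ℕ, (if ∀ l ∈ P, ¬ l ∣ M then (a M : ℝ) else 0) / M *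
        Real.exp (-2 * π * M * y) *
        ∑ ζ ∈ HH p q, EU q (fun b => cs ((M : ZMod q) * (ζ : ZMod q) * (b : ZMod q)) *
          cs ((k : ZMod q) * (b : ZMod q))) := by
  set W : ℕ → ℝ := fun M => ∑ ζ ∈ HH p q, EU q (fun b => cs ((M : ZMod q) * (ζ : ZMod q) * (b : ZMod q)) *
          cs ((k : ZMod q) * (b : ZMod q))) with hW
  have hφ0 : (0 : ℝ) < q.totient := by
    exact_mod_cast Nat.totient_pos.2 (Nat.pos_of_ne_zero (NeZero.ne q))
  -- a bound for `W`
  have hEU : ∀ F : (ZMod q)ˣ → ℝ, (∀ b, |F b| ≤ 1) → |EU q F| ≤ 1 := by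
    intro F hF
    unfold EU
    rw [abs_div, abs_of_pos hφ0, div_le_one hφ0]
    refine (Finset.abs_sum_le_sum_abs _ _).trans ?_
    refine (Finset.sum_le_sum fun b _ => hF b).trans ?_
    rw [Finset.sum_const, Finset.card_univ, ZMod.card_units_eq_totient, nsmul_eq_mul, mul_one]
  have hWb : ∀ M, |W M| ≤ (HH p q).card := by
    intro M
    rw [hW]
    refine (Finset.abs_sum_le_sum_abs _ _).trans ?_
    have h1 : ∀ ζ ∈ HH p q, |EU q (fun b => cs ((M : ZMod q) * (ζ : ZMod q) * (b : ZMod q)) *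
          cs ((k : ZMod q) * (b : ZMod q)))| ≤ 1 := by
      intro ζ _
      refine hEU _ fun b => ?_
      rw [abs_mul]
      exact mul_le_one₀ (mtC_abs_cs _) (abs_nonneg _) (mtC_abs_cs _)
    refine (Finset.sum_le_sum h1).trans ?_
    rw [Finset.sum_const, nsmul_eq_mul, mul_one]
  have hterm : ∀ (t : ℝ) (m : ℕ), |(a m : ℝ) / m * Real.exp (-2 * π * m * t)| ≤
      |(a m : ℝ)| * Real.exp (-2 * π * m * t) := by
    intro t m
    rw [abs_mul, abs_div, abs_of_pos (Real.exp_pos _), Nat.abs_cast]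
    refine mul_le_mul_of_nonneg_right ?_ (Real.exp_pos _).le
    rcases Nat.eq_zero_or_pos m with rfl | hm
    · simp
    · exact div_le_self (abs_nonneg _) (by exact_mod_cast hm)
  -- one `i`
  have hi : ∀ i, ∑ ζ ∈ HH p q, EU q (fun b => (∑' m : ℕ, (a m : ℝ) / m *
      Real.exp (-2 * π * m * (j i * y)) * cs ((m : ZMod q) * ((ζ * (u i * b) : (ZMod q)ˣ) : ZMod q))) *
        cs ((k : ZMod q) * (b : ZMod q))) =
      ∑' M : ℕ, if j i ∣ M then (j i : ℝ) * a (M / j i) / M * Real.exp (-2 * π * M * y) * W M else 0 := by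
    intro i
    have hji := hj i
    have hjr : (0 : ℝ) < j i := by exact_mod_cast hji
    have hyi : 0 < (j i : ℝ) * y := mul_pos hjr hy
    rw [← mtC_tsum_dvd hji (fun M => (j i : ℝ) * a (M / j i) / M * Real.exp (-2 * π * M * y) * W M)]
    have h1 : ∀ (ζ b : (ZMod q)ˣ) (m : ℕ), (m : ZMod q) * ((ζ * (u i * b) : (ZMod q)ˣ) : ZMod q) =
        ((j i * m : ℕ) : ZMod q) * (ζ : ZMod q) * (b : ZMod q) := by
      intro ζ b m
      rw [Units.val_mul, Units.val_mul, hu i]
      push_cast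
      ring
    have hsm : ∀ (ζ b : (ZMod q)ˣ), Summable fun m : ℕ => (a m : ℝ) / m *
        Real.exp (-2 * π * m * (j i * y)) * cs (((j i * m : ℕ) : ZMod q) * (ζ : ZMod q) * (b : ZMod q)) := by
      intro ζ b
      refine Summable.of_norm_bounded (hs _ hyi) fun m => ?_
      rw [norm_mul, Real.norm_eq_abs, Real.norm_eq_abs]
      calc |(a m : ℝ) / m * Real.exp (-2 * π * m * (j i * y))| * |cs (((j i * m : ℕ) : ZMod q) * (ζ : ZMod q) * (b : ZMod q))|
          ≤ (|(a m : ℝ)| * Real.exp (-2 * π * m * (j i * y))) * 1 := by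
            refine mul_le_mul (hterm _ m) (mtC_abs_cs _) (abs_nonneg _) (by positivity)
        _ = _ := mul_one _
    have h2 : ∀ ζ : (ZMod q)ˣ, EU q (fun b => (∑' m : ℕ, (a m : ℝ) / m *
      Real.exp (-2 * π * m * (j i * y)) * cs ((m : ZMod q) * ((ζ * (u i * b) : (ZMod q)ˣ) : ZMod q))) *
        cs ((k : ZMod q) * (b : ZMod q))) =
        ∑' m : ℕ, (a m : ℝ) / m * Real.exp (-2 * π * m * (j i * y)) *
          EU q (fun b => cs (((j i * m : ℕ) : ZMod q) * (ζ : ZMod q) * (b : ZMod q)) *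
          cs ((k : ZMod q) * (b : ZMod q))) := by
      intro ζ
      unfold EU
      simp_rw [h1, ← tsum_mul_right]
      rw [← Summable.tsum_finsetSum (fun b _ => (hsm ζ b).mul_right _), ← tsum_div_const]
      refine tsum_congr fun m => ?_
      rw [mul_div_assoc', Finset.mul_sum]
      congr 1
      exact Finset.sum_congr rfl fun b _ => by ring
    have hsE : ∀ ζ ∈ HH p q, Summable fun m : ℕ => (a m : ℝ) / m * Real.exp (-2 * π * m * (j i * y)) *
          EU q (fun b => cs (((j i * m : ℕ) : ZMod q) * (ζ : ZMod q) * (b : ZMod q)) *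
          cs ((k : ZMod q) * (b : ZMod q))) := by
      intro ζ _
      refine Summable.of_norm_bounded (hs _ hyi) fun m => ?_
      rw [norm_mul, Real.norm_eq_abs, Real.norm_eq_abs]
      have h3 : |EU q (fun b => cs (((j i * m : ℕ) : ZMod q) * (ζ : ZMod q) * (b : ZMod q)) *
          cs ((k : ZMod q) * (b : ZMod q)))| ≤ 1 := by
        refine hEU _ fun b => ?_
        rw [abs_mul]
        exact mul_le_one₀ (mtC_abs_cs _) (abs_nonneg _) (mtC_abs_cs _)
      calc _ ≤ (|(a m : ℝ)| * Real.exp (-2 * π * m * (j i * y))) * 1 := by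
            refine mul_le_mul (hterm _ m) h3 (abs_nonneg _) (by positivity)
        _ = _ := mul_one _
    rw [Finset.sum_congr rfl fun ζ _ => h2 ζ, ← Summable.tsum_finsetSum hsE]
    refine tsum_congr fun m => ?_
    rw [← Finset.mul_sum, Nat.mul_div_cancel_left m hji, hW]
    simp only
    congr 1
    have h3 : -2 * π * m * (j i * y) = -2 * π * ((j i * m : ℕ) : ℝ) * y := by
      push_cast
      ring
    rw [h3]
    congr 1
    push_cast
    rw [mul_div_mul_left _ _ hjr.ne']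
  have hsi : ∀ i ∈ (Finset.univ : Finset ι), Summable fun M : ℕ => δ i *
      (if j i ∣ M then (j i : ℝ) * a (M / j i) / M * Real.exp (-2 * π * M * y) * W M else 0) := by
    intro i _
    refine Summable.mul_left _ ?_
    have hji := hj i
    have hjr : (0 : ℝ) < j i := by exact_mod_cast hji
    have hyi : 0 < (j i : ℝ) * y := mul_pos hjr hy
    have hinj : Function.Injective fun m : ℕ => j i * m := fun x y h => Nat.eq_of_mul_eq_mul_left hji h
    rw [← hinj.summable_iff]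
    · have h4 := (hs _ hyi).mul_right ((HH p q).card : ℝ)
      refine Summable.of_norm_bounded h4 fun m => ?_
      simp only [Function.comp_apply]
      rw [if_pos (dvd_mul_right _ _), Nat.mul_div_cancel_left m hji, norm_mul]
      have h3 : (j i : ℝ) * a m / ((j i * m : ℕ) : ℝ) * Real.exp (-2 * π * ((j i * m : ℕ) : ℝ) * y) =
          (a m : ℝ) / m * Real.exp (-2 * π * m * (j i * y)) := by
        push_cast
        rw [mul_div_mul_left _ _ hjr.ne']
        congr 2
        ring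
      rw [h3, Real.norm_eq_abs, Real.norm_eq_abs]
      exact mul_le_mul (hterm _ m) (hWb _) (abs_nonneg _) (by positivity)
    · intro M hM
      rw [if_neg]
      rintro ⟨m, rfl⟩
      exact hM ⟨m, rfl⟩
  rw [Finset.sum_congr rfl fun i _ => congrArg (δ i * ·) (hi i)]
  simp_rw [← tsum_mul_left]
  rw [← Summable.tsum_finsetSum hsi]
  refine tsum_congr fun M => ?_
  rw [← hdep M, Finset.sum_div, Finset.sum_mul, Finset.sum_mul]
  refine Finset.sum_congr rfl fun i _ => ?_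
  split_ifs
  · ring
  · ring

end Pool.Agent.MU0
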