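import Pool.Agent.MU0.MtC1
import Pool.Agent.MU0.Bd

/-!
# Module MT: the coefficient of the depleted sum, from the direct part
-/

set_option autoImplicit false

open UpperHalfPlane hiding I
open Filter Topology Complex Function CongruenceSubgroup
open scoped MatrixGroups Real ModularForm OnePoint ComplexConjugate

namespace Pool.Agent.MU0

open Pool.Agent.MZ Pool.Agent.MZ.Per Pool.Agent.MU1

variable {N : ℕ} [NeZero N]

/-- The real part of a boundary value. -/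
theorem mtC_re (f g : CuspForm (Gamma0 N) 2) {a : ℕ → ℤ}
    (ha : ∀ n, (qExpansion 1 f).coeff n = a n) (hW : IsW f g) {q : ℕ} [NeZero q]
    (hqN : Nat.Coprime N q) {y : ℝ} (hy : 0 < y) (b : (ZMod q)ˣ) :
    (JJ f q b).re = ∑' m : ℕ, (a m : ℝ) / m * Real.exp (-2 * π * m * y) *
        cs ((m : ZMod q) * (b : ZMod q)) -
      (∑' m : ℕ, (qExpansion 1 g).coeff m / m * (Real.exp (-2 * π * m * (1 / (N * q ^ 2 * y))) : ℂ) *
        ZMod.stdAddChar (-(m : ZMod q) *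
          (((ZMod.unitOfCoprime N hqN * b)⁻¹ : (ZMod q)ˣ) : ZMod q))).re := by
  rw [mtC_JJ f g ha hqN (fun b r hbr y hy => bd_pair f g hW (Nat.pos_of_ne_zero (NeZero.ne q)) hbr hy)
    hy b, Complex.sub_re]
  congr 1
  rw [Complex.re_tsum]
  · refine tsum_congr fun m => ?_
    rw [Complex.re_ofReal_mul]
    rfl
  · have h1 := summable_coeff f ha hy
    refine Summable.of_norm_bounded h1 fun m => ?_
    rw [norm_mul, AddChar.norm_apply, mul_one, Complex.norm_real, norm_mul,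
      Real.norm_of_nonneg (Real.exp_pos _).le]
    refine mul_le_mul_of_nonneg_right ?_ (Real.exp_pos _).le
    rw [norm_div]
    have h2 : ‖((a m : ℤ) : ℂ)‖ = ‖((a m : ℤ) : ℝ)‖ := by
      rw [Complex.norm_intCast, Real.norm_eq_abs]
    rw [h2]
    rcases Nat.eq_zero_or_pos m with rfl | hm
    · simp
    · refine div_le_self (norm_nonneg _) ?_
      rw [Real.norm_natCast]
      exact_mod_cast hm

/-- The coefficient of the depleted sum. -/
theorem mtC_coeff (f g : CuspForm (Gamma0 N) 2) {a : ℕ → ℤ}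
    (ha : ∀ n, (qExpansion 1 f).coeff n = a n) (hW : IsW f g) {C : ℝ} (hC0 : 0 ≤ C)
    (hC : ∀ m : ℕ, ‖(qExpansion 1 g).coeff m‖ ≤ C * m) {p : ℕ} (hp : p.Prime) (hp2 : p ≠ 2)
    {k' q : ℕ} [NeZero q] (hk' : 1 ≤ k') (hq : q = p ^ (2 * k')) (hqN : Nat.Coprime N q)
    {y : ℝ} (hy : 0 < y) {ι : Type} [Fintype ι] (j : ι → ℕ) (δ : ι → ℝ) (hj : ∀ i, 0 < j i)
    (u : ι → (ZMod q)ˣ) (hu : ∀ i, ((u i : (ZMod q)ˣ) : ZMod q) = (j i : ZMod q)) (P : Finset ℕ)
    (hdep : ∀ M : ℕ, ∑ i, (if j i ∣ M then δ i * (j i : ℝ) * a (M / j i) else 0) =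
        if ∀ l ∈ P, ¬ l ∣ M then (a M : ℝ) else 0) {k : ℕ} (hk : ¬ p ∣ k) :
    |EU q (fun b => (∑ i, δ i * TT f p q (u i * b)) * cs ((k : ZMod q) * (b : ZMod q))) -
      ∑' M : ℕ, (if ∀ l ∈ P, ¬ l ∣ M then (a M : ℝ) else 0) / M *
        Real.exp (-2 * π * M * y) *
        ∑ ζ ∈ HH p q, EU q (fun b => cs ((M : ZMod q) * (ζ : ZMod q) * (b : ZMod q)) *
          cs ((k : ZMod q) * (b : ZMod q)))| ≤
      ∑ i, |δ i| * (p * (C * (N * (q : ℝ) ^ 2 * (j i * y)) * (4 / (p : ℝ) ^ k'))) := by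
  have hNr : (0 : ℝ) < N := by exact_mod_cast Nat.pos_of_ne_zero (NeZero.ne N)
  have hqr : (0 : ℝ) < q := by exact_mod_cast Nat.pos_of_ne_zero (NeZero.ne q)
  have hpr : (0 : ℝ) < p := by exact_mod_cast hp.pos
  set w := ZMod.unitOfCoprime N hqN with hw
  set e := fun (b : (ZMod q)ˣ) => cs ((k : ZMod q) * (b : ZMod q)) with he
  set Ai : ι → (ZMod q)ˣ → ℝ := fun i b => ∑' m : ℕ, (a m : ℝ) / m *
    Real.exp (-2 * π * m * (j i * y)) * cs ((m : ZMod q) * (b : ZMod q)) with hAi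
  set Bi : ι → (ZMod q)ˣ → ℝ := fun i b =>
    (∑' m : ℕ, (qExpansion 1 g).coeff m / m *
      (Real.exp (-2 * π * m * (1 / (N * q ^ 2 * (j i * y)))) : ℂ) *
        ZMod.stdAddChar (-(m : ZMod q) * (((w * b)⁻¹ : (ZMod q)ˣ) : ZMod q))).re with hBi
  have hTT : ∀ i b, TT f p q (u i * b) = ∑ ζ ∈ HH p q, (Ai i (ζ * (u i * b)) - Bi i (ζ * (u i * b))) := by
    intro i b
    have hjy : 0 < (j i : ℝ) * y := mul_pos (by exact_mod_cast hj i) hy
    have h1 : TT f p q (u i * b) = ∑ ζ ∈ HH p q, (JJ f q (ζ * (u i * b))).re := rfl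
    rw [h1]
    refine Finset.sum_congr rfl fun ζ _ => ?_
    rw [mtC_re f g ha hW hqN hjy]
  have hA := mtC_A (p := p) (q := q) (a := a) hy (fun y hy => by
    have h1 := summable_coeff f ha hy
    refine h1.congr fun m => ?_
    rw [Complex.norm_intCast]) j δ hj u hu P hdep k
  have h1 : EU q (fun b => (∑ i, δ i * TT f p q (u i * b)) * e b) =
      ∑ i, δ i * ∑ ζ ∈ HH p q, EU q (fun b => Ai i (ζ * (u i * b)) * e b) -
      ∑ i, δ i * ∑ ζ ∈ HH p q, EU q (fun b => Bi i (ζ * (u i * b)) * e b) := by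
    have h2 : (fun b => (∑ i, δ i * TT f p q (u i * b)) * e b) =
        fun b => ∑ i, δ i * ∑ ζ ∈ HH p q,
          (Ai i (ζ * (u i * b)) * e b + (-1) * (Bi i (ζ * (u i * b)) * e b)) := by
      funext b
      rw [Finset.sum_mul]
      refine Finset.sum_congr rfl fun i _ => ?_
      rw [hTT, mul_assoc, Finset.sum_mul]
      congr 1
      exact Finset.sum_congr rfl fun ζ _ => by ring
    have hadd : ∀ F H : (ZMod q)ˣ → ℝ, EU q (fun b => F b + (-1) * H b) = EU q F - EU q H := by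
      intro F H
      unfold EU
      rw [Finset.sum_add_distrib, ← Finset.mul_sum]
      ring
    rw [h2, mt0_EU_sum, ← Finset.sum_sub_distrib]
    refine Finset.sum_congr rfl fun i _ => ?_
    rw [mt0_EU_smul, mt0_EU_sum, ← mul_sub, ← Finset.sum_sub_distrib]
    congr 1
    exact Finset.sum_congr rfl fun ζ _ => hadd _ _
  change |EU q (fun b => (∑ i, δ i * TT f p q (u i * b)) * e b) - _| ≤ _
  rw [h1]
  change ∑ i, δ i * ∑ ζ ∈ HH p q, EU q (fun b => Ai i (ζ * (u i * b)) * e b) = _ at hA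
  rw [hA, sub_sub_cancel_left, abs_neg]
  refine (Finset.abs_sum_le_sum_abs _ _).trans ?_
  refine Finset.sum_le_sum fun i _ => ?_
  rw [abs_mul]
  refine mul_le_mul_of_nonneg_left ?_ (abs_nonneg _)
  have hjy : 0 < (j i : ℝ) * y := mul_pos (by exact_mod_cast hj i) hy
  have ht : 0 < 1 / ((N : ℝ) * q ^ 2 * (j i * y)) := by positivity
  obtain ⟨hs, hle⟩ := mtB_sum_le hC0 hC ht
  have hku : IsUnit ((k : ℕ) : ZMod q) := by
    rw [ZMod.isUnit_iff_coprime, hq]
    exact Nat.Coprime.pow_right _ ((Nat.Prime.coprime_iff_not_dvd hp).2 hk).symm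
  obtain ⟨κ, hκ⟩ := hku
  have h3 : ∀ ζ ∈ HH p q, |EU q (fun b => Bi i (ζ * (u i * b)) * e b)| ≤
      C * (N * (q : ℝ) ^ 2 * (j i * y)) * (4 / (p : ℝ) ^ k') := by
    intro ζ _
    have h4 := mtB_EU hp hp2 hk' hq _ hs w (ζ * u i) κ
    have h5 : (fun b => Bi i (ζ * (u i * b)) * e b) = fun b => (∑' m : ℕ, (qExpansion 1 g).coeff m / m *
      (Real.exp (-2 * π * m * (1 / (N * q ^ 2 * (j i * y)))) : ℂ) *
        ZMod.stdAddChar (-(m : ZMod q) * (((w * ((ζ * u i) * b))⁻¹ : (ZMod q)ˣ) : ZMod q))).re *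
          cs ((κ : ZMod q) * (b : ZMod q)) := by
      funext b
      rw [hBi, he, hκ]
      simp only
      rw [mul_assoc ζ (u i) b]
    rw [h5]
    refine h4.trans ?_
    have h6 : 0 ≤ 4 / (p : ℝ) ^ k' := by positivity
    refine mul_le_mul_of_nonneg_right (hle.trans_eq ?_) h6
    rw [div_div_eq_mul_div, div_one]
  refine (Finset.abs_sum_le_sum_abs _ _).trans ((Finset.sum_le_sum h3).trans ?_)
  rw [Finset.sum_const, nsmul_eq_mul]
  have h7 : ((HH p q).card : ℝ) ≤ p := by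
    have := card_HH hp hp2 hq
    exact_mod_cast this.trans (Nat.sub_le p 1)
  refine mul_le_mul_of_nonneg_right h7 (by positivity)

end Pool.Agent.MU0
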