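import Pool.Agent.MU0.MtC2

/-!
# Module MT: the numerical part
-/

set_option autoImplicit false

open UpperHalfPlane hiding I
open Filter Topology Complex Function CongruenceSubgroup
open scoped MatrixGroups Real ModularForm OnePoint ComplexConjugate

namespace Pool.Agent.MU0

open Pool.Agent.MZ Pool.Agent.MZ.Per Pool.Agent.MU1

variable {N : ℕ} [NeZero N]

/-- push forward to the units -/
theorem mtC_push {q : ℕ} [NeZero q] {ι : Type} [Fintype ι] (δ : ι → ℝ) (u : ι → (ZMod q)ˣ) :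
    ∃ d : (ZMod q)ˣ → ℝ, ∑ v ∈ (Finset.univ : Finset (ZMod q)ˣ), |d v| ≤ ∑ i, |δ i| ∧
      ∀ F : (ZMod q)ˣ → ℝ, ∑ v ∈ (Finset.univ : Finset (ZMod q)ˣ), d v * F v = ∑ i, δ i * F (u i) := by
  classical
  refine ⟨fun v => ∑ i ∈ Finset.univ.filter (fun i => u i = v), δ i, ?_, fun F => ?_⟩
  · rw [← Finset.sum_fiberwise (Finset.univ : Finset ι) u fun i => |δ i|]
    exact Finset.sum_le_sum fun v _ => Finset.abs_sum_le_sum_abs _ _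
  · rw [← Finset.sum_fiberwise (Finset.univ : Finset ι) u fun i => δ i * F (u i)]
    refine Finset.sum_congr rfl fun v _ => ?_
    rw [Finset.sum_mul]
    refine Finset.sum_congr rfl fun i hi => ?_
    rw [(Finset.mem_filter.1 hi).2]

theorem mtC_num (C : ℝ) (Nn r A : ℕ) : ∃ p₀ : ℕ, ∀ p : ℕ, p₀ ≤ p → p.Prime →
    ∀ (k' q K : ℕ), 1 ≤ k' → q = p ^ (2 * k') → p ^ 100 ≤ K → K ^ (20 * (2 * A * r + 2)) ≤ q →
    (3 : ℝ) ^ r * (p * (C * (Nn * (q : ℝ) ^ 2 * ((K : ℝ) ^ (2 * A * r) * (q : ℝ) ^ (-(31 / 20) : ℝ))) *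
      (4 / (p : ℝ) ^ k'))) ≤ 1 / (2 * K) := by
  obtain ⟨p₀, hp₀⟩ := exists_nat_ge (8 * 3 ^ r * C * Nn)
  refine ⟨p₀, fun p hp hpp k' q K hk' hq hK hKq => ?_⟩
  have hp1 : (1 : ℝ) ≤ p := by exact_mod_cast hpp.one_lt.le
  have hp0 : (0 : ℝ) < p := by linarith
  have hKp : (p : ℝ) ^ 2 ≤ K := by
    have h1 : (p : ℝ) ^ 100 ≤ K := by exact_mod_cast hK
    exact (pow_le_pow_right₀ hp1 (by norm_num)).trans h1
  have hK0 : (0 : ℝ) < K := lt_of_lt_of_le (by positivity) hKp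
  have hqr : (0 : ℝ) < q := by
    rw [hq]
    exact_mod_cast pow_pos hpp.pos _
  have hsqrt : (p : ℝ) ^ k' = (q : ℝ) ^ (1 / 2 : ℝ) := by
    rw [hq]
    push_cast
    rw [← Real.rpow_natCast, ← Real.rpow_natCast, ← Real.rpow_mul hp0.le]
    congr 1
    push_cast
    ring
  have hq20 : (K : ℝ) ^ (2 * A * r + 2) ≤ (q : ℝ) ^ (1 / 20 : ℝ) := by
    have h1 : (K : ℝ) ^ (20 * (2 * A * r + 2)) ≤ q := by exact_mod_cast hKq
    calc (K : ℝ) ^ (2 * A * r + 2) = ((K : ℝ) ^ (20 * (2 * A * r + 2))) ^ (1 / 20 : ℝ) := by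
          rw [← Real.rpow_natCast, ← Real.rpow_natCast, ← Real.rpow_mul hK0.le]
          congr 1
          push_cast
          ring
      _ ≤ (q : ℝ) ^ (1 / 20 : ℝ) := Real.rpow_le_rpow (by positivity) h1 (by norm_num)
  have hqpow : (q : ℝ) ^ 2 * (q : ℝ) ^ (-(31 / 20) : ℝ) / (q : ℝ) ^ (1 / 2 : ℝ) =
      1 / (q : ℝ) ^ (1 / 20 : ℝ) := by
    have h0 : 1 / (q : ℝ) ^ (1 / 20 : ℝ) = (q : ℝ) ^ (-(1 / 20) : ℝ) := by
      rw [Real.rpow_neg hqr.le, _root_.one_div]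
    rw [h0, ← Real.rpow_natCast, ← Real.rpow_add hqr, ← Real.rpow_sub hqr]
    congr 1
    norm_num
  have h1 : (3 : ℝ) ^ r * (p * (C * (Nn * (q : ℝ) ^ 2 * ((K : ℝ) ^ (2 * A * r) *
      (q : ℝ) ^ (-(31 / 20) : ℝ))) * (4 / (p : ℝ) ^ k'))) =
      (4 * 3 ^ r * C * Nn) * p * (K : ℝ) ^ (2 * A * r) *
        ((q : ℝ) ^ 2 * (q : ℝ) ^ (-(31 / 20) : ℝ) / (q : ℝ) ^ (1 / 2 : ℝ)) := by
    rw [hsqrt]
    ring
  rw [h1, hqpow]
  have h2 : 4 * 3 ^ r * C * Nn ≤ p / 2 := by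
    have h3 : (p₀ : ℝ) ≤ p := by exact_mod_cast hp
    linarith
  have h3 : (0 : ℝ) < (K : ℝ) ^ (2 * A * r + 2) := by positivity
  have h4 : 1 / (q : ℝ) ^ (1 / 20 : ℝ) ≤ 1 / (K : ℝ) ^ (2 * A * r + 2) :=
    one_div_le_one_div_of_le h3 hq20
  calc (4 * 3 ^ r * C * Nn) * p * (K : ℝ) ^ (2 * A * r) * (1 / (q : ℝ) ^ (1 / 20 : ℝ))
      ≤ (p / 2) * p * (K : ℝ) ^ (2 * A * r) * (1 / (K : ℝ) ^ (2 * A * r + 2)) := by
        gcongr
    _ = (p : ℝ) ^ 2 / (2 * (K : ℝ) ^ 2) := by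
        rw [pow_add]
        field_simp
    _ ≤ K / (2 * (K : ℝ) ^ 2) := by gcongr
    _ = 1 / (2 * K) := by field_simp

/-- The coefficient of the depleted sum, from the direct part `mt_A`. -/
theorem mtC_final (f g : CuspForm (Gamma0 N) 2) {a : ℕ → ℤ} (hf : Frm f a) (hW : IsW f g) (r A : ℕ)
    (mt_A : ∃ D p₀ : ℕ, ∀ p : ℕ, p₀ ≤ p → p.Prime → ∀ (n q K : ℕ) [NeZero q], 2 ≤ n → q = p ^ n →
      p ^ 100 ≤ K → K ^ D ≤ q → ∀ P : Finset ℕ,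
      (∀ ξ : (ZMod q)ˣ, ξ ^ (p - 1) = 1 → ∀ m k : ℕ, 0 < m → 0 < k → m ≤ K ^ 3 → k ≤ K →
        ((p ^ (n - 1) : ℕ) : ℤ) ∣ m * ((ξ : ZMod q).val : ℤ) - k →
        (∀ l ∈ P, padicValNat l m = padicValNat l k) → ξ = 1 ∧ m = k) →
      ∀ k ∈ Finset.Icc 1 K, (∀ l ∈ insert p P, ¬ l ∣ k) →
      |∑' M : ℕ, (if ∀ l ∈ P, ¬ l ∣ M then (a M : ℝ) else 0) / M *
          Real.exp (-2 * π * M * (q : ℝ) ^ (-(31 / 20) : ℝ)) *
          ∑ ζ ∈ HH p q, EU q (fun b => cs ((M : ZMod q) * (ζ : ZMod q) * (b : ZMod q)) *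
            cs ((k : ZMod q) * (b : ZMod q))) -
        (a k : ℝ) / k| ≤ 1 / (2 * K)) :
    ∃ (D p₀ : ℕ), ∀ p : ℕ, p₀ ≤ p → p.Prime →
    ∀ (n q K : ℕ) [NeZero q], Even n → 2 ≤ n → q = p ^ n → p ^ 100 ≤ K → K ^ D ≤ q →
    ∀ (P : Finset ℕ), P.card ≤ r → (∀ l ∈ P, l.Prime ∧ l ≠ p ∧ l ≤ K ^ A) →
    (∀ ξ : (ZMod q)ˣ, ξ ^ (p - 1) = 1 → ∀ m k : ℕ, 0 < m → 0 < k → m ≤ K ^ 3 → k ≤ K →
      ((p ^ (n - 1) : ℕ) : ℤ) ∣ m * ((ξ : ZMod q).val : ℤ) - k →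
      (∀ l ∈ P, padicValNat l m = padicValNat l k) → ξ = 1 ∧ m = k) →
    ∃ (J : Finset (ZMod q)ˣ) (d : (ZMod q)ˣ → ℝ), ∑ j ∈ J, |d j| ≤ 3 ^ r ∧
      ∀ k ∈ Finset.Icc 1 K, (∀ l ∈ insert p P, ¬ l ∣ k) →
        |EU q (fun b => (∑ j ∈ J, d j * TT f p q (j * b)) * cs ((k : ZMod q) * (b : ZMod q))) -
          (a k : ℝ) / k| ≤ 1 / K := by
  obtain ⟨C, hC0, hC⟩ := mtB_coeff_le g
  obtain ⟨D₁, p₁, h₁⟩ := mt_A
  obtain ⟨p₂, h₂⟩ := mtC_num C N r A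
  refine ⟨max D₁ (20 * (2 * A * r + 2)), max (max p₁ p₂) (max 3 (N + 1)), ?_⟩
  intro p hp hpp n q K _ hne hn hq hK hKD P hPr hP hsep
  have hp1 : p₁ ≤ p := le_trans (le_max_left _ _) (le_trans (le_max_left _ _) hp)
  have hp2 : p₂ ≤ p := le_trans (le_max_right _ _) (le_trans (le_max_left _ _) hp)
  have hp3 : 3 ≤ p := le_trans (le_max_left _ _) (le_trans (le_max_right _ _) hp)
  have hpN : N < p := lt_of_lt_of_le (Nat.lt_succ_self N)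
    (le_trans (le_max_right _ _) (le_trans (le_max_right _ _) hp))
  have hp2' : p ≠ 2 := by omega
  have hK1 : 1 ≤ K := le_trans (Nat.one_le_pow _ _ hpp.pos) hK
  have hKr : (0 : ℝ) < K := by exact_mod_cast hK1
  have hKD₁ : K ^ D₁ ≤ q := le_trans (Nat.pow_le_pow_right hK1 (le_max_left _ _)) hKD
  have hKD₂ : K ^ (20 * (2 * A * r + 2)) ≤ q :=
    le_trans (Nat.pow_le_pow_right hK1 (le_max_right _ _)) hKD
  obtain ⟨k', hk'⟩ := hne.two_dvd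
  have hk'1 : 1 ≤ k' := by omega
  have hq' : q = p ^ (2 * k') := by rw [hq, hk']
  have hqr : (0 : ℝ) < q := by exact_mod_cast Nat.pos_of_ne_zero (NeZero.ne q)
  have hqN : Nat.Coprime N q := by
    rw [hq]
    refine Nat.Coprime.pow_right _ ?_
    rw [Nat.coprime_comm, Nat.Prime.coprime_iff_not_dvd hpp]
    exact Nat.not_dvd_of_pos_of_lt (Nat.pos_of_ne_zero (NeZero.ne N)) hpN
  obtain ⟨ι, hι, j, δ, hδ, hjd, hdep⟩ := mt_depl hf.hecke hf.hasse P fun l hl => (hP l hl).1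
  -- the product of the primes
  have hpi0 : 0 < ∏ l ∈ P, l := Finset.prod_pos fun l hl => (hP l hl).1.pos
  have hpi : (∏ l ∈ P, l) ^ 2 ≤ K ^ (2 * A * r) := by
    have h3 : ∏ l ∈ P, l ≤ (K ^ A) ^ P.card := Finset.prod_le_pow_card _ _ _ fun l hl => (hP l hl).2.2
    have h4 : (K ^ A) ^ P.card ≤ (K ^ A) ^ r := Nat.pow_le_pow_right (Nat.one_le_pow _ _ hK1) hPr
    calc (∏ l ∈ P, l) ^ 2 ≤ ((K ^ A) ^ r) ^ 2 := Nat.pow_le_pow_left (h3.trans h4) 2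
      _ = K ^ (2 * A * r) := by
        rw [← pow_mul, ← pow_mul]
        congr 1
        ring
  have hcop : Nat.Coprime ((∏ l ∈ P, l) ^ 2) q := by
    rw [hq]
    refine Nat.Coprime.pow _ _ (Nat.Coprime.prod_left fun l hl => ?_)
    rw [Nat.coprime_primes (hP l hl).1 hpp]
    exact (hP l hl).2.1
  have hj0 : ∀ i, 0 < j i := fun i => Nat.pos_of_dvd_of_pos (hjd i) (pow_pos hpi0 2)
  have hjK : ∀ i, (j i : ℝ) ≤ (K : ℝ) ^ (2 * A * r) := by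
    intro i
    exact_mod_cast (Nat.le_of_dvd (pow_pos hpi0 2) (hjd i)).trans hpi
  have hju : ∀ i, Nat.Coprime (j i) q := fun i => Nat.Coprime.coprime_dvd_left (hjd i) hcop
  set u : ι → (ZMod q)ˣ := fun i => ZMod.unitOfCoprime (j i) (hju i) with hu
  have hu' : ∀ i, ((u i : (ZMod q)ˣ) : ZMod q) = (j i : ZMod q) := fun i =>
    ZMod.coe_unitOfCoprime (j i) (hju i)
  obtain ⟨d, hd, hdF⟩ := mtC_push δ u
  refine ⟨Finset.univ, d, hd.trans (hδ.trans ?_), fun k hk hkP => ?_⟩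
  · exact pow_le_pow_right₀ (by norm_num) hPr
  have hpk : ¬ p ∣ k := hkP p (Finset.mem_insert_self p P)
  have hy : (0 : ℝ) < (q : ℝ) ^ (-(31 / 20) : ℝ) := Real.rpow_pos_of_pos hqr _
  have h3 := mtC_coeff f g hf.coeff hW hC0 hC hpp hp2' hk'1 hq' hqN hy j δ hj0 u hu' P hdep hpk
  have h4 := h₁ p hp1 hpp n q K hn hq hK hKD₁ P hsep k hk hkP
  have h5 : ∀ b : (ZMod q)ˣ, ∑ v, d v * TT f p q (v * b) = ∑ i, δ i * TT f p q (u i * b) := fun b =>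
    hdF fun v => TT f p q (v * b)
  simp_rw [h5]
  have h6 : ∑ i, |δ i| * ((p : ℝ) * (C * (N * (q : ℝ) ^ 2 * ((j i : ℝ) * (q : ℝ) ^ (-(31 / 20) : ℝ))) *
      (4 / (p : ℝ) ^ k'))) ≤ (1 : ℝ) / (2 * K) := by
    refine le_trans ?_ (h₂ p hp2 hpp k' q K hk'1 hq' hK hKD₂)
    have h7 : ∀ i ∈ Finset.univ, |δ i| * (p * (C * (N * (q : ℝ) ^ 2 * (j i * (q : ℝ) ^ (-(31 / 20) : ℝ))) *
      (4 / (p : ℝ) ^ k'))) ≤ |δ i| * (p * (C * (N * (q : ℝ) ^ 2 * ((K : ℝ) ^ (2 * A * r) *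
        (q : ℝ) ^ (-(31 / 20) : ℝ))) * (4 / (p : ℝ) ^ k'))) := by
      intro i _
      have := hjK i
      gcongr
    refine (Finset.sum_le_sum h7).trans ?_
    rw [← Finset.sum_mul]
    have h8 : ∑ i, |δ i| ≤ 3 ^ r := hδ.trans (pow_le_pow_right₀ (by norm_num) hPr)
    refine mul_le_mul_of_nonneg_right h8 ?_
    positivity
  have h7 : (1 : ℝ) / K = 1 / (2 * K) + 1 / (2 * K) := by
    field_simp
    norm_num
  rw [h7]
  have h8 := abs_le.1 (h3.trans h6)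
  have h9 := abs_le.1 h4
  rw [abs_le]
  constructor
  · linarith [h8.1, h9.1]
  · linarith [h8.2, h9.2]

end Pool.Agent.MU0
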