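import Pool.Agent.MU0.Mt0

/-!
# Module MT: the weights `W(M)` of the direct part
-/

set_option autoImplicit false

open Finset CongruenceSubgroup
open scoped Real

namespace Pool.Agent.MU0

open Pool.Agent.MU1

/-- The weight of `M`. -/
noncomputable def mtW (p q : ℕ) [NeZero q] (k M : ℕ) : ℝ :=
  ∑ ζ ∈ HH p q, EU q (fun b => cs ((M : ZMod q) * (ζ : ZMod q) * (b : ZMod q)) *
    cs ((k : ZMod q) * (b : ZMod q)))

section

variable {q : ℕ} [NeZero q]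

theorem mth_cs_neg (x : ZMod q) : cs (-x) = cs x := by
  unfold cs
  rw [AddChar.map_neg_eq_conj, Complex.conj_re]

theorem mth_cs_mul (x y : ZMod q) : cs x * cs y = (cs (x - y) + cs (x + y)) / 2 := by
  unfold cs
  rw [sub_eq_add_neg, AddChar.map_add_eq_mul, AddChar.map_add_eq_mul, AddChar.map_neg_eq_conj,
    Complex.mul_re, Complex.mul_re, Complex.conj_re, Complex.conj_im]
  ring

/-- the Ramanujan average -/
noncomputable def mtRho (q : ℕ) [NeZero q] (x : ZMod q) : ℝ := EU q (fun b => cs (x * (b : ZMod q)))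

theorem mtRho_eq (x : ZMod q) : mtRho q x = (Pool.Agent.MU1.RR q x).re / q.totient := by
  unfold mtRho EU cs
  rw [Pool.Agent.MU1.RR, Complex.re_sum]

theorem mtRho_zero : mtRho q 0 = 1 := by
  rw [mtRho_eq, RR_zero, Complex.natCast_re, div_self]
  exact_mod_cast (Nat.totient_pos.2 (Nat.pos_of_ne_zero (NeZero.ne q))).ne'

theorem mtRho_neg (x : ZMod q) : mtRho q (-x) = mtRho q x := by
  unfold mtRho
  congr 1
  funext b
  rw [neg_mul, mth_cs_neg]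

theorem mtRho_abs (x : ZMod q) : |mtRho q x| ≤ 1 := by
  have hφ0 : (0 : ℝ) < q.totient := by
    exact_mod_cast Nat.totient_pos.2 (Nat.pos_of_ne_zero (NeZero.ne q))
  unfold mtRho EU
  rw [abs_div, abs_of_pos hφ0, div_le_one hφ0]
  refine (abs_sum_le_sum_abs _ _).trans ?_
  have h1 : ∀ b ∈ (univ : Finset (ZMod q)ˣ), |cs (x * (b : ZMod q))| ≤ 1 := by
    intro b _
    unfold cs
    refine (Complex.abs_re_le_norm _).trans ?_
    rw [AddChar.norm_apply]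
  refine (sum_le_sum h1).trans ?_
  rw [sum_const, card_univ, ZMod.card_units_eq_totient, nsmul_eq_mul, mul_one]

theorem mtRho_eq_zero {p n : ℕ} (hp : p.Prime) (hn : 1 ≤ n) (hq : q = p ^ n) {x : ZMod q}
    (hx : (p : ZMod q) * x ≠ 0) : mtRho q x = 0 := by
  obtain ⟨m, rfl⟩ : ∃ m, n = m + 1 := ⟨n - 1, by omega⟩
  rw [mtRho_eq, RR_eq_zero hp hq x hx, Complex.zero_re, zero_div]

theorem mtW_eq {p : ℕ} (hp : p.Prime) (hp2 : p ≠ 2) (k M : ℕ) :
    mtW p q k M = ∑ ζ ∈ HH p q, mtRho q ((M : ZMod q) * (ζ : ZMod q) - (k : ZMod q)) := by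
  have h1 : ∀ ζ : (ZMod q)ˣ, EU q (fun b => cs ((M : ZMod q) * (ζ : ZMod q) * (b : ZMod q)) *
      cs ((k : ZMod q) * (b : ZMod q))) = (mtRho q ((M : ZMod q) * (ζ : ZMod q) - (k : ZMod q)) +
        mtRho q ((M : ZMod q) * (ζ : ZMod q) + (k : ZMod q))) / 2 := by
    intro ζ
    unfold mtRho EU
    rw [← add_div, ← sum_add_distrib, div_right_comm]
    congr 1
    rw [sum_div]
    refine sum_congr rfl fun b _ => ?_
    simp only
    rw [mth_cs_mul]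
    congr 2
    · congr 1
      ring
    · congr 1
      ring
  have h2 : ∑ ζ ∈ HH p q, mtRho q ((M : ZMod q) * (ζ : ZMod q) + (k : ZMod q)) =
      ∑ ζ ∈ HH p q, mtRho q ((M : ZMod q) * (ζ : ZMod q) - (k : ZMod q)) := by
    refine sum_bij' (fun ζ _ => -ζ) (fun ζ _ => -ζ) ?_ ?_ ?_ ?_ ?_
    · intro ζ hζ
      simp only [HH, mem_filter, mem_univ, true_and] at hζ ⊢
      rw [Even.neg_pow (hp.even_sub_one hp2), hζ]
    · intro ζ hζ
      simp only [HH, mem_filter, mem_univ, true_and] at hζ ⊢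
      rw [Even.neg_pow (hp.even_sub_one hp2), hζ]
    · intro ζ _; exact neg_neg ζ
    · intro ζ _; exact neg_neg ζ
    · intro ζ _
      rw [← mtRho_neg, Units.val_neg]
      congr 1
      ring
  unfold mtW
  rw [sum_congr rfl fun ζ _ => h1 ζ, ← sum_div, sum_add_distrib, h2]
  ring

/-- the congruence modulo `p ^ (n - 1)` -/
theorem mth_dvd {p n : ℕ} (hp : p.Prime) (hn : 1 ≤ n) (hq : q = p ^ n) {k M : ℕ} {ζ : (ZMod q)ˣ}
    (h : (p : ZMod q) * ((M : ZMod q) * (ζ : ZMod q) - (k : ZMod q)) = 0) :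
    ((p ^ (n - 1) : ℕ) : ℤ) ∣ M * ((ζ : ZMod q).val : ℤ) - k := by
  have h1 : ((q : ℕ) : ℤ) ∣ (p : ℤ) * (M * ((ζ : ZMod q).val : ℤ) - k) := by
    rw [← ZMod.intCast_zmod_eq_zero_iff_dvd]
    push_cast
    rw [ZMod.natCast_zmod_val]
    exact h
  have hqp : ((q : ℕ) : ℤ) = (p : ℤ) * ((p ^ (n - 1) : ℕ) : ℤ) := by
    rw [hq]
    push_cast
    rw [← pow_succ']
    congr 1
    omega
  have hp0 : (p : ℤ) ≠ 0 := by exact_mod_cast hp.ne_zero
  rwa [hqp, mul_dvd_mul_iff_left hp0] at h1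

/-- a nonzero weight -/
theorem mtW_ne_zero {p n : ℕ} (hp : p.Prime) (hp2 : p ≠ 2) (hn : 1 ≤ n) (hq : q = p ^ n) {k M : ℕ}
    (h : mtW p q k M ≠ 0) : ∃ ζ ∈ HH p q, ((p ^ (n - 1) : ℕ) : ℤ) ∣ M * ((ζ : ZMod q).val : ℤ) - k := by
  rw [mtW_eq hp hp2] at h
  obtain ⟨ζ, hζ, hζ0⟩ := exists_ne_zero_of_sum_ne_zero h
  refine ⟨ζ, hζ, mth_dvd hp hn hq ?_⟩
  by_contra hne
  exact hζ0 (mtRho_eq_zero hp hn hq hne)

theorem mth_unique {p n : ℕ} (hp : p.Prime) (hn : 2 ≤ n) (hq : q = p ^ n) {k M : ℕ} (hk : ¬ p ∣ k)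
    {ζ ζ' : (ZMod q)ˣ} (hζ : ζ ^ (p - 1) = 1) (hζ' : ζ' ^ (p - 1) = 1)
    (h : ((p ^ (n - 1) : ℕ) : ℤ) ∣ M * ((ζ : ZMod q).val : ℤ) - k)
    (h' : ((p ^ (n - 1) : ℕ) : ℤ) ∣ M * ((ζ' : ZMod q).val : ℤ) - k) : ζ = ζ' := by
  have hF : Fact p.Prime := ⟨hp⟩
  have hpQ : (p : ℤ) ∣ ((p ^ (n - 1) : ℕ) : ℤ) := by
    exact_mod_cast dvd_pow_self p (by omega : n - 1 ≠ 0)
  have h1 := hpQ.trans h
  have h2 := hpQ.trans h'
  have hpp : Prime (p : ℤ) := Nat.prime_iff_prime_int.1 hp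
  have hM : ¬ (p : ℤ) ∣ M := by
    intro h3
    have h4 : (p : ℤ) ∣ k := by
      have h5 := (h3.mul_right ((ζ : ZMod q).val : ℤ)).sub h1
      rwa [sub_sub_cancel] at h5
    exact hk (by exact_mod_cast h4)
  have h3 : (p : ℤ) ∣ M * (((ζ' : ZMod q).val : ℤ) - ((ζ : ZMod q).val : ℤ)) := by
    have h4 := h2.sub h1
    have h5 : (M * ((ζ' : ZMod q).val : ℤ) - k : ℤ) - (M * ((ζ : ZMod q).val : ℤ) - k) =
        M * (((ζ' : ZMod q).val : ℤ) - ((ζ : ZMod q).val : ℤ)) := by ring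
    rwa [h5] at h4
  have h4 := (hpp.dvd_or_dvd h3).resolve_left hM
  have h5 : ((((ζ : ZMod q).val : ℕ)) : ZMod p) = (((ζ' : ZMod q).val : ℕ) : ZMod p) := by
    have h6 := (ZMod.intCast_eq_intCast_iff_dvd_sub ((ζ : ZMod q).val : ℤ)
      ((ζ' : ZMod q).val : ℤ) p).2 h4
    push_cast at h6
    exact h6
  obtain ⟨m, rfl⟩ : ∃ m, n = m + 1 := ⟨n - 1, by omega⟩
  refine Units.ext (resid_inj hp hq ?_ ?_ h5)
  · rw [← Units.val_pow_eq_pow_val, hζ, Units.val_one]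
  · rw [← Units.val_pow_eq_pow_val, hζ', Units.val_one]

/-- the weights are bounded by `1` -/
theorem mtW_abs {p n : ℕ} (hp : p.Prime) (hp2 : p ≠ 2) (hn : 2 ≤ n) (hq : q = p ^ n) {k : ℕ}
    (hk : ¬ p ∣ k) (M : ℕ) : |mtW p q k M| ≤ 1 := by
  by_cases h : mtW p q k M = 0
  · rw [h, abs_zero]
    exact zero_le_one
  obtain ⟨ζ, hζ, hζd⟩ := mtW_ne_zero hp hp2 (by omega) hq h
  have hζ1 := (mem_filter.1 hζ).2
  rw [mtW_eq hp hp2, sum_eq_single ζ]
  · exact mtRho_abs _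
  · intro ζ' hζ' hne
    by_contra h0
    apply hne
    have h1 : (p : ZMod q) * ((M : ZMod q) * (ζ' : ZMod q) - (k : ZMod q)) = 0 := by
      by_contra h2
      exact h0 (mtRho_eq_zero hp (by omega) hq h2)
    exact mth_unique hp hn hq hk (mem_filter.1 hζ').2 hζ1 (mth_dvd hp (by omega) hq h1) hζd
  · intro h0
    exact absurd hζ h0

/-- the weights of the `M` up to `K ^ 3` prime to `P` -/
theorem mtW_head {p n K : ℕ} (hp : p.Prime) (hp2 : p ≠ 2) (hn : 2 ≤ n) (hq : q = p ^ n)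
    {P : Finset ℕ}
    (hsep : ∀ ξ : (ZMod q)ˣ, ξ ^ (p - 1) = 1 → ∀ m k : ℕ, 0 < m → 0 < k → m ≤ K ^ 3 → k ≤ K →
      ((p ^ (n - 1) : ℕ) : ℤ) ∣ m * ((ξ : ZMod q).val : ℤ) - k →
      (∀ l ∈ P, padicValNat l m = padicValNat l k) → ξ = 1 ∧ m = k)
    {k : ℕ} (hk0 : 0 < k) (hkK : k ≤ K) (hkP : ∀ l ∈ insert p P, ¬ l ∣ k) {M : ℕ} (hM0 : 0 < M)
    (hMK : M ≤ K ^ 3) (hMP : ∀ l ∈ P, ¬ l ∣ M) : mtW p q k M = if M = k then 1 else 0 := by
  have hval : ∀ l ∈ P, padicValNat l M = padicValNat l k := by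
    intro l hl
    rw [padicValNat.eq_zero_of_not_dvd (hMP l hl),
      padicValNat.eq_zero_of_not_dvd (hkP l (mem_insert_of_mem hl))]
  have hpk : ¬ p ∣ k := hkP p (mem_insert_self p P)
  split_ifs with h
  · subst h
    rw [mtW_eq hp hp2, sum_eq_single 1]
    · rw [Units.val_one, mul_one, sub_self, mtRho_zero]
    · intro ζ hζ hne
      by_contra h0
      apply hne
      have h1 : (p : ZMod q) * ((M : ZMod q) * (ζ : ZMod q) - (M : ZMod q)) = 0 := by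
        by_contra h2
        exact h0 (mtRho_eq_zero hp (by omega) hq h2)
      exact (hsep ζ (mem_filter.1 hζ).2 M M hM0 hk0 hMK hkK (mth_dvd hp (by omega) hq h1) hval).1
    · intro h0
      exfalso
      apply h0
      rw [HH, mem_filter]
      exact ⟨mem_univ _, one_pow _⟩
  · by_contra h0
    obtain ⟨ζ, hζ, hζd⟩ := mtW_ne_zero hp hp2 (by omega) hq h0
    exact h (hsep ζ (mem_filter.1 hζ).2 M k hM0 hk0 hMK hkK hζd hval).2

end

end Pool.Agent.MU0
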