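import Pool.Agent.MU0.Mv
import Pool.Agent.MU0.Defs

/-!
# The mean value theorem on the orbits of `H`: the sum over `H`
-/

set_option autoImplicit false

open Finset Filter Topology

namespace Pool.Agent.MU0

open Pool.Agent.MU1

theorem mv_large1 : ∃ p₀ : ℕ, ∀ p : ℕ, p₀ ≤ p → ∀ n : ℕ,
    (p : ℝ) ^ (3 / 5 : ℝ) ≤ n * Real.log p → 1800 * Nat.sqrt p + 1 < n := by
  -- `√p log p = o(p^(3/5))`
  have h1 : Tendsto (fun x : ℝ => Real.log x / x ^ (1 / 20 : ℝ)) atTop (𝓝 0) :=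
    (isLittleO_log_rpow_atTop (by norm_num : (0 : ℝ) < 1 / 20)).tendsto_div_nhds_zero
  have h2 := (h1.comp tendsto_natCast_atTop_atTop).eventually (gt_mem_nhds (show (0 : ℝ) < 1 by norm_num))
  have h3 : Tendsto (fun x : ℝ => x ^ (1 / 20 : ℝ)) atTop atTop := tendsto_rpow_atTop (by norm_num)
  have h4 := (h3.comp tendsto_natCast_atTop_atTop).eventually_ge_atTop 1802
  obtain ⟨p₁, hp₁⟩ := (h2.and h4).exists_forall_of_atTop
  refine ⟨max p₁ 2, fun p hp n hn => ?_⟩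
  obtain ⟨h5, h6⟩ := hp₁ p (le_of_max_le_left hp)
  have hp2 : 2 ≤ p := le_of_max_le_right hp
  have hpr : (0 : ℝ) < p := by positivity
  have hp1 : (1 : ℝ) < p := by exact_mod_cast hp2
  have hlog : 0 < Real.log p := Real.log_pos hp1
  simp only [Function.comp_apply] at h5 h6
  rw [div_lt_one (by positivity)] at h5
  -- `n ≥ p^(3/5) / log p ≥ p^(11/20)`
  have h7 : (p : ℝ) ^ (11 / 20 : ℝ) < n := by
    by_contra hc
    push Not at hc
    have h8 : (n : ℝ) * Real.log p < (p : ℝ) ^ (11 / 20 : ℝ) * (p : ℝ) ^ (1 / 20 : ℝ) := by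
      have h9 : (0 : ℝ) < (p : ℝ) ^ (11 / 20 : ℝ) := by positivity
      calc (n : ℝ) * Real.log p ≤ (p : ℝ) ^ (11 / 20 : ℝ) * Real.log p :=
            mul_le_mul_of_nonneg_right hc hlog.le
        _ < _ := mul_lt_mul_of_pos_left h5 h9
    rw [← Real.rpow_add hpr] at h8
    norm_num at h8
    norm_num at hn
    linarith
  have h8 : 1802 * √(p : ℝ) ≤ (p : ℝ) ^ (11 / 20 : ℝ) := by
    rw [Real.sqrt_eq_rpow, show (11 / 20 : ℝ) = 1 / 20 + 1 / 2 by norm_num, Real.rpow_add hpr]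
    exact mul_le_mul_of_nonneg_right h6 (by positivity)
  have h9 : (Nat.sqrt p : ℝ) ≤ √(p : ℝ) := Real.nat_sqrt_le_real_sqrt
  have h10 : (1 : ℝ) ≤ √(p : ℝ) := Real.one_le_sqrt.2 hp1.le
  have h11 : (1800 * Nat.sqrt p + 1 : ℝ) < n := by linarith
  exact_mod_cast h11

theorem mv_large2 : ∃ p₀ : ℕ, ∀ p : ℕ, p₀ ≤ p → 2 ≤ p ∧ ∀ L r : ℝ, 0 ≤ L → L ≤ p → r ≤ 1 / (p : ℝ) ^ 150 →
    (p : ℝ) * (√(2 / (p : ℝ) ^ 40 * (1 + L) + (p : ℝ) ^ 40 * (40 * (2 * (2 + L) / (p : ℝ) ^ 300 + 2 * r))) *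
      (1 + L) ^ 8) ≤ (p : ℝ) ^ (-(5 : ℝ)) := by
  refine ⟨1000, fun p hp => ⟨by omega, fun L r hL0 hL hr => ?_⟩⟩
  have hp' : (1000 : ℝ) ≤ p := by exact_mod_cast hp
  have hp0 : (0 : ℝ) < p := by linarith
  have h1 : (p : ℝ) ^ (-(5 : ℝ)) = 1 / (p : ℝ) ^ 5 := by
    rw [Real.rpow_neg hp0.le, one_div]
    norm_cast
  rw [h1]
  have h2 : 2 / (p : ℝ) ^ 40 * (1 + L) ≤ 3 / (p : ℝ) ^ 39 := by
    rw [div_mul_eq_mul_div, div_le_div_iff₀ (by positivity) (by positivity)]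
    have : (p : ℝ) ^ 40 = p ^ 39 * p := by ring
    rw [this]
    have h3 : 2 * (1 + L) ≤ 3 * (p : ℝ) := by linarith
    nlinarith [pow_pos hp0 39]
  have h3 : 2 * (2 + L) / (p : ℝ) ^ 300 ≤ 3 / (p : ℝ) ^ 150 := by
    rw [div_le_div_iff₀ (by positivity) (by positivity)]
    have h4 : (p : ℝ) ^ 300 = p ^ 150 * p * p ^ 149 := by ring
    have h5 : 2 * (2 + L) ≤ 3 * (p : ℝ) := by linarith
    have h6 : (1 : ℝ) ≤ (p : ℝ) ^ 149 := one_le_pow₀ (by linarith)
    have h7 : (0 : ℝ) < (p : ℝ) ^ 150 := by positivity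
    calc 2 * (2 + L) * (p : ℝ) ^ 150 ≤ 3 * p * p ^ 150 := mul_le_mul_of_nonneg_right h5 h7.le
      _ = 3 * (p ^ 150 * p * 1) := by ring
      _ ≤ 3 * (p ^ 150 * p * p ^ 149) := by
          refine mul_le_mul_of_nonneg_left (mul_le_mul_of_nonneg_left h6 (by positivity)) (by norm_num)
      _ = 3 * p ^ 300 := by rw [h4]
  have h4 : (p : ℝ) ^ 40 * (40 * (2 * (2 + L) / (p : ℝ) ^ 300 + 2 * r)) ≤ 1 / (p : ℝ) ^ 100 := by
    have h5 : 2 * (2 + L) / (p : ℝ) ^ 300 + 2 * r ≤ 5 / (p : ℝ) ^ 150 := by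
      have : (5 : ℝ) / (p : ℝ) ^ 150 = 3 / (p : ℝ) ^ 150 + 2 * (1 / (p : ℝ) ^ 150) := by ring
      rw [this]; linarith
    calc (p : ℝ) ^ 40 * (40 * (2 * (2 + L) / (p : ℝ) ^ 300 + 2 * r))
        ≤ (p : ℝ) ^ 40 * (40 * (5 / (p : ℝ) ^ 150)) := by
          refine mul_le_mul_of_nonneg_left (mul_le_mul_of_nonneg_left h5 (by norm_num)) (by positivity)
      _ = 200 / (p : ℝ) ^ 110 := by
          field_simp
          norm_num
      _ ≤ 1 / (p : ℝ) ^ 100 := by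
          rw [div_le_div_iff₀ (by positivity) (by positivity)]
          have h6 : (p : ℝ) ^ 110 = p ^ 100 * p ^ 10 := by ring
          have h7 : (200 : ℝ) ≤ (p : ℝ) ^ 10 := by
            calc (200 : ℝ) ≤ p := by linarith
              _ ≤ (p : ℝ) ^ 10 := le_self_pow₀ (by linarith) (by norm_num)
          rw [h6]
          nlinarith [pow_pos hp0 100]
  have h5 : 2 / (p : ℝ) ^ 40 * (1 + L) + (p : ℝ) ^ 40 * (40 * (2 * (2 + L) / (p : ℝ) ^ 300 + 2 * r)) ≤
      (1 / (p : ℝ) ^ 19) ^ 2 := by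
    have h6 : 1 / (p : ℝ) ^ 100 ≤ 1 / (p : ℝ) ^ 39 :=
      one_div_le_one_div_of_le (by positivity) (pow_le_pow_right₀ (by linarith) (by norm_num))
    have h7 : (1 / (p : ℝ) ^ 19) ^ 2 = p * (1 / (p : ℝ) ^ 39) := by
      field_simp
    rw [h7]
    have h8 : 3 / (p : ℝ) ^ 39 = 3 * (1 / (p : ℝ) ^ 39) := by ring
    have h9 : (0 : ℝ) < 1 / (p : ℝ) ^ 39 := by positivity
    nlinarith
  have h6 := Real.sqrt_le_sqrt h5
  rw [Real.sqrt_sq (by positivity)] at h6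
  have h7 : (1 + L) ^ 8 ≤ (2 * p) ^ 8 := pow_le_pow_left₀ (by linarith) (by linarith) _
  calc (p : ℝ) * (√(2 / (p : ℝ) ^ 40 * (1 + L) + (p : ℝ) ^ 40 *
        (40 * (2 * (2 + L) / (p : ℝ) ^ 300 + 2 * r))) * (1 + L) ^ 8)
      ≤ p * (1 / (p : ℝ) ^ 19 * (2 * p) ^ 8) := by
        refine mul_le_mul_of_nonneg_left (mul_le_mul h6 h7 (by positivity) (by positivity)) hp0.le
    _ = 256 / (p : ℝ) ^ 10 := by
        field_simp
        norm_num
    _ ≤ 1 / (p : ℝ) ^ 5 := by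
        rw [div_le_div_iff₀ (by positivity) (by positivity)]
        have h8 : (p : ℝ) ^ 10 = p ^ 5 * p ^ 5 := by ring
        have h9 : (256 : ℝ) ≤ (p : ℝ) ^ 5 := by
          calc (256 : ℝ) ≤ p := by linarith
            _ ≤ (p : ℝ) ^ 5 := le_self_pow₀ (by linarith) (by norm_num)
        rw [h8]
        nlinarith [pow_pos hp0 5]

theorem mv_core : ∃ (C : ℝ) (p₀ : ℕ), ∀ p : ℕ, p₀ ≤ p → p.Prime → ∀ (n q : ℕ) [NeZero q], q = p ^ n →
    (p : ℝ) ^ (3 / 5 : ℝ) ≤ Real.log q → Real.log q ≤ p → ∀ K : ℕ, (K : ℝ) * (p : ℝ) ^ 150 ≤ q →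
    ∀ (x : ℕ → ℝ) (β : ℝ), (∀ m ∈ Icc 1 K, 0 ≤ x m ∧ x m ≤ β * (m.divisors.card / √(m : ℝ))) →
    ∑ z ∈ HH p q, ∑ t ∈ mvP (z : ZMod q) K, x t.1 * x t.2 ≤
      C * Real.log p * ∑ m ∈ Icc 1 K, x m ^ 2 + β ^ 2 * (p : ℝ) ^ (-(5 : ℝ)) := by
  classical
  obtain ⟨p₁, hp₁⟩ := mv_large1
  obtain ⟨p₂, hp₂⟩ := mv_large2
  refine ⟨1800, max p₁ (max p₂ 10), fun p hp hpp n q _ hq hlow hup K hK x β hx => ?_⟩
  have hpp₁ : p₁ ≤ p := le_of_max_le_left hp
  have hpp₂ : p₂ ≤ p := (le_max_left _ _).trans (le_of_max_le_right hp)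
  have hp10 : 10 ≤ p := (le_max_right _ _).trans (le_of_max_le_right hp)
  have hp0 : (0 : ℝ) < p := by positivity
  have hp1 : (1 : ℝ) < p := by exact_mod_cast (by omega : 1 < p)
  have hqr : (0 : ℝ) < q := by exact_mod_cast Nat.pos_of_ne_zero (NeZero.ne q)
  have hlogq : Real.log q = n * Real.log p := by rw [hq]; push_cast; rw [Real.log_pow]
  have hlogp : 2 ≤ Real.log p := by
    rw [Real.le_log_iff_exp_le hp0]
    have h1 : Real.exp 2 = Real.exp 1 * Real.exp 1 := by rw [← Real.exp_add]; norm_num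
    have h2 := Real.exp_one_lt_d9
    have h3 : Real.exp 1 * Real.exp 1 ≤ 10 := by nlinarith [Real.exp_pos 1]
    have h4 : (10 : ℝ) ≤ p := by exact_mod_cast hp10
    linarith
  have hn : 1800 * Nat.sqrt p + 1 < n := hp₁ p hpp₁ n (by rw [← hlogq]; exact hlow)
  have hKq : K < q := by
    have h1 : (K : ℝ) < q := by
      rcases Nat.eq_zero_or_pos K with h | h
      · rw [h]; simpa using hqr
      · have hK0 : (0 : ℝ) < K := by exact_mod_cast h
        have h2 : (1 : ℝ) < (p : ℝ) ^ 150 := one_lt_pow₀ hp1 (by norm_num)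
        nlinarith
    exact_mod_cast h1
  set V : ℝ := (p : ℝ) ^ 300 with hV
  have hV1 : 1 ≤ V := one_le_pow₀ hp1.le
  have hVq : V < q := by
    rw [hV, hq]
    push_cast
    refine pow_lt_pow_right₀ hp1 ?_
    have h1 : 1 ≤ Nat.sqrt p := Nat.le_sqrt'.2 (by omega)
    omega
  rw [← sum_filter_add_sum_filter_not (HH p q) (fun z : (ZMod q)ˣ => ¬ NoShort q (z : ZMod q) V)]
  refine add_le_add ?_ ?_
  · -- the special ones
    set S := (HH p q).filter (fun z : (ZMod q)ˣ => ¬ NoShort q (z : ZMod q) V) with hS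
    have hcard : S.card ≤ 4 * Nat.log 2 (p ^ 300) + 2 := by
      subst hq
      refine few_rational (I := Nat.sqrt p) hpp (by omega) (Nat.one_le_pow _ _ (by omega)) ?_ ?_ S ?_ ?_
      · have := Nat.lt_succ_sqrt' p
        rw [Nat.succ_eq_add_one] at this
        exact this.le
      · rw [← pow_mul]
        calc 2 * p ^ (300 * (6 * Nat.sqrt p)) ≤ p * p ^ (300 * (6 * Nat.sqrt p)) :=
              Nat.mul_le_mul_right _ (by omega)
          _ = p ^ (1800 * Nat.sqrt p + 1) := by rw [pow_succ, mul_comm]; ring_nf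
          _ < p ^ n := Nat.pow_lt_pow_right (by omega) hn
      · intro z hz
        have := (mem_filter.1 hz).1
        simp only [HH, mem_filter, mem_univ, true_and] at this
        exact this
      · intro z hz
        have h1 := (mem_filter.1 hz).2
        unfold NoShort at h1
        push Not at h1
        obtain ⟨u₁, u₂, h2, h3, h4, h5⟩ := h1
        have hint : ∀ u : ℤ, |(u : ℝ)| ≤ V → |u| ≤ ((p ^ 300 : ℕ) : ℤ) := by
          intro u hu
          have h6 : ((|u| : ℤ) : ℝ) ≤ ((p ^ 300 : ℕ) : ℝ) := by push_cast; exact hu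
          exact_mod_cast h6
        have hzero : ∀ u : ℤ, |(u : ℝ)| ≤ V → (u : ZMod (p ^ n)) = 0 → u = 0 := by
          intro u hu hu0
          rw [ZMod.intCast_zmod_eq_zero_iff_dvd] at hu0
          by_contra hne
          have h6 := Int.le_of_dvd (abs_pos.2 hne) ((dvd_abs _ _).2 hu0)
          have h7 : ((p ^ n : ℕ) : ℝ) ≤ |(u : ℝ)| := by exact_mod_cast h6
          linarith
        have hu1 : u₁ ≠ 0 := by
          intro h0
          rw [h0, Int.cast_zero, mul_zero] at h2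
          exact h5 h0 (hzero u₂ h4 h2)
        have hu2 : u₂ ≠ 0 := by
          intro h0
          rw [h0, Int.cast_zero] at h2
          have h6 : (u₁ : ZMod (p ^ n)) = 0 := by
            have h7 := z.isUnit.mul_left_cancel (h2.symm.trans (mul_zero (z : ZMod (p ^ n))).symm)
            exact h7
          exact hu1 (hzero u₁ h3 h6)
        exact ⟨u₁, u₂, hu1, hu2, hint _ h3, hint _ h4, by rw [h2, mul_comm]⟩
    have hlog2 : (Nat.log 2 (p ^ 300) : ℝ) ≤ 300 * Real.log p / Real.log 2 := by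
      rw [le_div_iff₀ (Real.log_pos (by norm_num))]
      have h1 : (2 : ℕ) ^ Nat.log 2 (p ^ 300) ≤ p ^ 300 := Nat.pow_log_le_self 2 (by positivity)
      have h2 : ((2 : ℝ) ^ Nat.log 2 (p ^ 300)) ≤ (p : ℝ) ^ 300 := by exact_mod_cast h1
      have h3 := Real.log_le_log (by positivity) h2
      rw [Real.log_pow, Real.log_pow] at h3
      push_cast at h3
      exact h3
    have hcard' : (S.card : ℝ) ≤ 1800 * Real.log p := by
      have h1 : (S.card : ℝ) ≤ 4 * (Nat.log 2 (p ^ 300) : ℝ) + 2 := by exact_mod_cast hcard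
      have h2 : 300 * Real.log p / Real.log 2 ≤ 445 * Real.log p := by
        rw [div_le_iff₀ (Real.log_pos (by norm_num))]
        have h3 := Real.log_two_gt_d9
        nlinarith
      have h4 := hlog2.trans h2
      have h5 : (1780 : ℝ) * Real.log p + 2 ≤ 1800 * Real.log p := by linarith
      refine h1.trans (le_trans ?_ h5)
      generalize (Nat.log 2 (p ^ 300) : ℝ) = Z at h4
      linarith
    calc ∑ z ∈ S, ∑ t ∈ mvP (z : ZMod q) K, x t.1 * x t.2
        ≤ ∑ _z ∈ S, ∑ m ∈ Icc 1 K, x m ^ 2 :=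
          sum_le_sum fun z _ => mv_special z.isUnit hKq x
      _ = (S.card : ℝ) * ∑ m ∈ Icc 1 K, x m ^ 2 := by rw [sum_const, nsmul_eq_mul]
      _ ≤ 1800 * Real.log p * ∑ m ∈ Icc 1 K, x m ^ 2 :=
          mul_le_mul_of_nonneg_right hcard' (sum_nonneg fun m _ => sq_nonneg _)
  · -- the generic ones
    set S := (HH p q).filter (fun z : (ZMod q)ˣ => ¬ ¬ NoShort q (z : ZMod q) V) with hS
    have hScard : (S.card : ℝ) ≤ p := by
      have h1 : S.card ≤ (HH p q).card := card_le_card (filter_subset _ _)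
      have h2 : (HH p q).card ≤ p - 1 := by
        subst hq
        refine teich_card hpp (by omega) _ ?_
        intro z hz
        simp only [HH, mem_filter, mem_univ, true_and] at hz
        exact hz
      have h3 : S.card ≤ p := by omega
      exact_mod_cast h3
    set L := Real.log K with hL
    have hL0 : 0 ≤ L := Real.log_natCast_nonneg K
    have hLp : L ≤ p := by
      rcases Nat.eq_zero_or_pos K with h | h
      · rw [hL, h, Nat.cast_zero, Real.log_zero]; exact hp0.le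
      · refine le_trans (Real.log_le_log (by exact_mod_cast h) ?_) hup
        exact_mod_cast hKq.le
    have hr : (K : ℝ) / q ≤ 1 / (p : ℝ) ^ 150 := by
      rw [div_le_div_iff₀ hqr (by positivity), one_mul]
      exact hK
    have hfin := (hp₂ p hpp₂).2 L (K / q) hL0 hLp hr
    have hB1 : (1 : ℝ) ≤ (p : ℝ) ^ 40 := one_le_pow₀ hp1.le
    have hterm : ∀ z ∈ S, ∑ t ∈ mvP (z : ZMod q) K, x t.1 * x t.2 ≤ β ^ 2 *
        (√(2 / (p : ℝ) ^ 40 * (1 + L) + (p : ℝ) ^ 40 * (40 * (2 * (2 + L) / (p : ℝ) ^ 300 + 2 * (K / q)))) *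
          (1 + L) ^ 8) := by
      intro z hz
      have h1 := (mem_filter.1 hz).2
      push Not at h1
      have h2 := mv_generic z.isUnit hV1 hB1 h1 hKq x β hx
      rw [hV] at h2
      have h3 : 2 * ((K : ℝ) / q) = 2 * K / q := by ring
      rw [h3]
      exact h2
    calc ∑ z ∈ S, ∑ t ∈ mvP (z : ZMod q) K, x t.1 * x t.2
        ≤ ∑ _z ∈ S, β ^ 2 *
        (√(2 / (p : ℝ) ^ 40 * (1 + L) + (p : ℝ) ^ 40 * (40 * (2 * (2 + L) / (p : ℝ) ^ 300 + 2 * (K / q)))) *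
          (1 + L) ^ 8) := sum_le_sum hterm
      _ = (S.card : ℝ) * (β ^ 2 *
        (√(2 / (p : ℝ) ^ 40 * (1 + L) + (p : ℝ) ^ 40 * (40 * (2 * (2 + L) / (p : ℝ) ^ 300 + 2 * (K / q)))) *
          (1 + L) ^ 8)) := by rw [sum_const, nsmul_eq_mul]
      _ ≤ (p : ℝ) * (β ^ 2 *
        (√(2 / (p : ℝ) ^ 40 * (1 + L) + (p : ℝ) ^ 40 * (40 * (2 * (2 + L) / (p : ℝ) ^ 300 + 2 * (K / q)))) *
          (1 + L) ^ 8)) := mul_le_mul_of_nonneg_right hScard (by positivity)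
      _ = β ^ 2 * ((p : ℝ) *
        (√(2 / (p : ℝ) ^ 40 * (1 + L) + (p : ℝ) ^ 40 * (40 * (2 * (2 + L) / (p : ℝ) ^ 300 + 2 * (K / q)))) *
          (1 + L) ^ 8)) := by ring
      _ ≤ β ^ 2 * (p : ℝ) ^ (-(5 : ℝ)) := mul_le_mul_of_nonneg_left hfin (sq_nonneg β)

end Pool.Agent.MU0
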