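import Mathlib

/-!
# Decay of square summable functions on `m | N^∞` with finitely many translates (helper14)
-/

set_option autoImplicit false

open Filter Topology

namespace Pool.Agent.MU0

namespace NpA

variable {S : Finset ℕ}

/-- multiplication by `m` on the `S`-numbers -/
def mulS (m x : Nat.factoredNumbers S) : Nat.factoredNumbers S :=
  ⟨(m : ℕ) * x, Nat.mul_mem_factoredNumbers m.2 x.2⟩

lemma mulS_inj (m : Nat.factoredNumbers S) : Function.Injective (mulS m) := by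
  intro x y h
  have h1 : (m : ℕ) * x = m * y := congrArg Subtype.val h
  have hm : (m : ℕ) ≠ 0 := m.2.1
  exact Subtype.ext (Nat.eq_of_mul_eq_mul_left (Nat.pos_of_ne_zero hm) h1)

noncomputable abbrev Em (S : Finset ℕ) := lp (fun _ : Nat.factoredNumbers S => ℂ) 2

lemma memℓp_two_iff (G : Nat.factoredNumbers S → ℂ) : Memℓp G 2 ↔ Summable fun x => ‖G x‖ ^ 2 := by
  rw [memℓp_gen_iff (by norm_num)]
  norm_num

lemma shift_mem (m : Nat.factoredNumbers S) (G : Em S) : Memℓp (fun x => (G : ∀ _, ℂ) (mulS m x)) 2 := by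
  rw [memℓp_two_iff]
  have h := (memℓp_two_iff _).mp (lp.memℓp G)
  exact h.comp_injective (mulS_inj m)

lemma norm_sq (G : Em S) : ‖G‖ ^ 2 = ∑' x, ‖(G : ∀ _, ℂ) x‖ ^ 2 := by
  have := lp.norm_rpow_eq_tsum (p := 2) (by norm_num) G
  norm_num at this
  exact this

/-- the shift -/
noncomputable def sh (m : Nat.factoredNumbers S) (G : Em S) : Em S :=
  ⟨fun x => (G : ∀ _, ℂ) (mulS m x), shift_mem m G⟩

lemma sh_apply (m x : Nat.factoredNumbers S) (G : Em S) : (sh m G : ∀ _, ℂ) x = (G : ∀ _, ℂ) (mulS m x) := rfl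

lemma norm_sh_le (m : Nat.factoredNumbers S) (G : Em S) : ‖sh m G‖ ≤ ‖G‖ := by
  have h := (memℓp_two_iff _).mp (lp.memℓp G)
  have : ‖sh m G‖ ^ 2 ≤ ‖G‖ ^ 2 := by
    rw [norm_sq, norm_sq]
    exact tsum_comp_le_tsum_of_inj h (fun _ => by positivity) (mulS_inj m)
  exact le_of_sq_le_sq this (norm_nonneg _)

/-- the shift as a linear map -/
noncomputable def shL (m : Nat.factoredNumbers S) : Em S →ₗ[ℂ] Em S where
  toFun := sh m
  map_add' G H := by
    apply Subtype.ext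
    funext x
    rfl
  map_smul' c G := by
    apply Subtype.ext
    funext x
    rfl

lemma tendsto_sh {l : ℕ} (hl : 2 ≤ l) (G : Em S) :
    ∀ ε > (0 : ℝ), ∃ k₀ : ℕ, ∀ k ≥ k₀, ∀ h : l ^ k ∈ Nat.factoredNumbers S, ‖sh ⟨l ^ k, h⟩ G‖ ≤ ε := by
  intro ε hε
  have hs := (memℓp_two_iff _).mp (lp.memℓp G)
  have ht := tendsto_tsum_compl_atTop_zero (fun x : Nat.factoredNumbers S => ‖(G : ∀ _, ℂ) x‖ ^ 2)
  obtain ⟨t, ht⟩ := (ht.eventually (gt_mem_nhds (show (0 : ℝ) < ε ^ 2 by positivity))).exists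
  obtain ⟨M, hM⟩ : ∃ M : ℕ, ∀ x ∈ t, (x : ℕ) < M :=
    ⟨t.sup (fun x => (x : ℕ)) + 1, fun x hx => Nat.lt_succ_of_le (Finset.le_sup (f := fun x : Nat.factoredNumbers S => (x : ℕ)) hx)⟩
  refine ⟨M, fun k hk h => ?_⟩
  have hbig : ∀ x : Nat.factoredNumbers S, mulS ⟨l ^ k, h⟩ x ∉ t := by
    intro x hx
    have h1 := hM _ hx
    have h2 : M ≤ l ^ k * x := by
      have h3 : k < l ^ k := Nat.lt_pow_self (by omega)
      have h4 : 1 ≤ (x : ℕ) := Nat.one_le_iff_ne_zero.mpr x.2.1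
      calc M ≤ l ^ k := by omega
        _ = l ^ k * 1 := (mul_one _).symm
        _ ≤ l ^ k * x := Nat.mul_le_mul_left _ h4
    have h5 : ((mulS ⟨l ^ k, h⟩ x : Nat.factoredNumbers S) : ℕ) = l ^ k * x := rfl
    rw [h5] at h1
    omega
  have h6 : ‖sh ⟨l ^ k, h⟩ G‖ ^ 2 ≤ ε ^ 2 := by
    rw [norm_sq]
    refine le_trans ?_ ht.le
    have hs' : Summable fun x : {x // x ∉ t} => ‖(G : ∀ _, ℂ) x‖ ^ 2 := hs.subtype _
    let φ : Nat.factoredNumbers S → {x // x ∉ t} := fun x => ⟨mulS ⟨l ^ k, h⟩ x, hbig x⟩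
    have hφ : Function.Injective φ := fun x y hxy => mulS_inj _ (congrArg Subtype.val hxy)
    exact tsum_comp_le_tsum_of_inj hs' (fun _ => by positivity) hφ
  exact le_of_sq_le_sq h6 hε.le

lemma unif (W : Submodule ℂ (Em S)) [FiniteDimensional ℂ W] {l : ℕ} (hl : 2 ≤ l) :
    ∃ k₀ : ℕ, ∀ k ≥ k₀, ∀ h : l ^ k ∈ Nat.factoredNumbers S, ∀ G ∈ W,
      ‖sh ⟨l ^ k, h⟩ G‖ ≤ (1 / 2) * ‖G‖ := by
  classical
  set b := Module.finBasis ℂ W with hb
  set K : ℝ := ∑ i, ‖LinearMap.toContinuousLinearMap (b.coord i)‖ with hK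
  have hK0 : 0 ≤ K := Finset.sum_nonneg fun i _ => ContinuousLinearMap.opNorm_nonneg _
  choose k hk using fun i => tendsto_sh hl (b i : Em S) (1 / (2 * (K + 1))) (by positivity)
  refine ⟨Finset.univ.sup k, fun n hn h G hG => ?_⟩
  have hrep : (⟨G, hG⟩ : W) = ∑ i, b.repr ⟨G, hG⟩ i • b i := (b.sum_repr _).symm
  have hG' : G = ∑ i, b.repr ⟨G, hG⟩ i • (b i : Em S) := by
    have h0 := congrArg (Submodule.subtype W) hrep
    rw [map_sum] at h0
    simp only [map_smul, Submodule.subtype_apply] at h0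
    exact h0
  have h1 : sh ⟨l ^ n, h⟩ G = ∑ i, b.repr ⟨G, hG⟩ i • sh ⟨l ^ n, h⟩ (b i : Em S) := by
    conv_lhs => rw [hG']
    change shL ⟨l ^ n, h⟩ _ = ∑ i, b.repr ⟨G, hG⟩ i • shL ⟨l ^ n, h⟩ (b i : Em S)
    rw [map_sum]
    simp only [map_smul]
  rw [h1]
  have h2 : ∀ i, ‖b.repr ⟨G, hG⟩ i‖ ≤ ‖LinearMap.toContinuousLinearMap (b.coord i)‖ * ‖G‖ := by
    intro i
    exact (LinearMap.toContinuousLinearMap (b.coord i)).le_opNorm ⟨G, hG⟩
  calc ‖∑ i, b.repr ⟨G, hG⟩ i • sh ⟨l ^ n, h⟩ (b i : Em S)‖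
      ≤ ∑ i, ‖b.repr ⟨G, hG⟩ i • sh ⟨l ^ n, h⟩ (b i : Em S)‖ := norm_sum_le _ _
    _ ≤ ∑ i, (‖LinearMap.toContinuousLinearMap (b.coord i)‖ * ‖G‖) * (1 / (2 * (K + 1))) := by
        refine Finset.sum_le_sum fun i _ => ?_
        rw [norm_smul]
        refine mul_le_mul (h2 i) (hk i n (le_trans (Finset.le_sup (Finset.mem_univ i)) hn) h)
          (norm_nonneg _) (by positivity)
    _ = K * ‖G‖ * (1 / (2 * (K + 1))) := by rw [← Finset.sum_mul, ← Finset.sum_mul]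
    _ ≤ (1 / 2) * ‖G‖ := by
        have h3 : K * (1 / (2 * (K + 1))) ≤ 1 / 2 := by
          rw [mul_one_div, div_le_div_iff₀ (by positivity) (by norm_num)]
          linarith
        calc K * ‖G‖ * (1 / (2 * (K + 1))) = (K * (1 / (2 * (K + 1)))) * ‖G‖ := by ring
          _ ≤ (1 / 2) * ‖G‖ := mul_le_mul_of_nonneg_right h3 (norm_nonneg _)

lemma sh_mul (m n : Nat.factoredNumbers S) (G : Em S) :
    sh (mulS m n) G = sh n (sh m G) := by
  apply Subtype.ext
  funext x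
  have h : mulS (mulS m n) x = mulS m (mulS n x) :=
    Subtype.ext (mul_assoc (m : ℕ) (n : ℕ) (x : ℕ))
  change (G : ∀ _, ℂ) (mulS (mulS m n) x) = (G : ∀ _, ℂ) (mulS m (mulS n x))
  rw [h]

lemma decay (hS : ∀ l ∈ S, l.Prime) (W : Submodule ℂ (Em S)) [FiniteDimensional ℂ W]
    (hW : ∀ m : Nat.factoredNumbers S, ∀ G ∈ W, sh m G ∈ W) :
    ∃ C d : ℝ, 0 < C ∧ 0 < d ∧ ∀ m : Nat.factoredNumbers S, ∀ G ∈ W,
      ‖sh m G‖ ≤ C * ((m : ℕ) : ℝ) ^ (-d) * ‖G‖ := by
  classical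
  have hk : ∀ l : ℕ, ∃ k₀ : ℕ, l ∈ S → ∀ k ≥ k₀, ∀ h : l ^ k ∈ Nat.factoredNumbers S, ∀ G ∈ W,
      ‖sh ⟨l ^ k, h⟩ G‖ ≤ (1 / 2) * ‖G‖ := by
    intro l
    by_cases hl : l ∈ S
    · obtain ⟨k₀, hk₀⟩ := unif W (hS l hl).two_le
      exact ⟨k₀, fun _ => hk₀⟩
    · exact ⟨0, fun h => absurd h hl⟩
  choose k₀ hk₀ using hk
  set k : ℕ := S.sup k₀ + 1 with hkdef
  have hk1 : ∀ l ∈ S, ∀ h : l ^ k ∈ Nat.factoredNumbers S, ∀ G ∈ W,
      ‖sh ⟨l ^ k, h⟩ G‖ ≤ (1 / 2) * ‖G‖ := fun l hl =>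
    hk₀ l hl k (le_trans (Finset.le_sup hl) (Nat.le_succ _))
  set B : ℕ := 2 + S.sup (fun l => l ^ k) with hB
  have hB2 : (2 : ℝ) ≤ B := by exact_mod_cast Nat.le_add_right 2 _
  have hlogB : 0 < Real.log B := Real.log_pos (by linarith)
  set d : ℝ := Real.log 2 / Real.log B with hd
  have hd0 : 0 < d := div_pos (Real.log_pos (by norm_num)) hlogB
  have hBd : (B : ℝ) ^ d = 2 := by
    rw [Real.rpow_def_of_pos (by linarith), hd, mul_div_cancel₀ _ hlogB.ne',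
      Real.exp_log (by norm_num)]
  set P : ℕ := ∏ l ∈ S, l ^ k with hP
  have hP1 : 0 < P := Finset.prod_pos fun l hl => pow_pos (hS l hl).pos _
  refine ⟨(P : ℝ) ^ d, d, by positivity, hd0, ?_⟩
  suffices H : ∀ n : ℕ, ∀ h : n ∈ Nat.factoredNumbers S, ∀ G ∈ W,
      ‖sh ⟨n, h⟩ G‖ ≤ (P : ℝ) ^ d * (n : ℝ) ^ (-d) * ‖G‖ by
    intro m G hG
    exact H m m.2 G hG
  intro n
  induction n using Nat.strong_induction_on with
  | _ n ih =>
    intro h G hG
    have hn0 : n ≠ 0 := h.1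
    have hn : (0 : ℝ) < n := by exact_mod_cast Nat.pos_of_ne_zero hn0
    by_cases hdiv : ∃ l ∈ S, l ^ k ∣ n
    · obtain ⟨l, hl, n', hn'⟩ := hdiv
      have hl2 := (hS l hl).two_le
      have hmem : l ^ k ∈ Nat.factoredNumbers S := by
        apply Nat.mem_factoredNumbers_of_dvd h ⟨n', hn'⟩
      have hmem' : n' ∈ Nat.factoredNumbers S := by
        apply Nat.mem_factoredNumbers_of_dvd h ⟨l ^ k, by rw [hn']; ring⟩
      have hn'0 : n' ≠ 0 := hmem'.1
      have hlk : 2 ≤ l ^ k := le_trans hl2 (Nat.le_self_pow (by omega) l)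
      have hlt : n' < n := by
        rw [hn']
        nlinarith [Nat.pos_of_ne_zero hn'0]
      have heq : (⟨n, h⟩ : Nat.factoredNumbers S) = mulS ⟨l ^ k, hmem⟩ ⟨n', hmem'⟩ :=
        Subtype.ext hn'
      rw [heq, sh_mul]
      have h1 := ih n' hlt hmem' _ (hW ⟨l ^ k, hmem⟩ G hG)
      have h2 := hk1 l hl hmem G hG
      have hn'pos : (0 : ℝ) < n' := by exact_mod_cast Nat.pos_of_ne_zero hn'0
      have hlkB : ((l ^ k : ℕ) : ℝ) ≤ B := by
        have : l ^ k ≤ B := by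
          rw [hB]
          exact le_trans (Finset.le_sup (f := fun l => l ^ k) hl) (Nat.le_add_left _ _)
        exact_mod_cast this
      have hlkpos : (0 : ℝ) < ((l ^ k : ℕ) : ℝ) := by exact_mod_cast (by omega : 0 < l ^ k)
      have h3 : ((l ^ k : ℕ) : ℝ) ^ d ≤ 2 := by
        rw [← hBd]
        exact Real.rpow_le_rpow hlkpos.le hlkB hd0.le
      have h4 : (n' : ℝ) ^ (-d) * (1 / 2) ≤ (n : ℝ) ^ (-d) := by
        rw [hn']
        push_cast
        rw [Real.mul_rpow (by positivity) hn'pos.le, mul_comm]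
        refine mul_le_mul_of_nonneg_right ?_ (by positivity)
        rw [Real.rpow_neg (by positivity), one_div]
        refine inv_anti₀ (by positivity) ?_
        have : ((l : ℝ) ^ k) ^ d = ((l ^ k : ℕ) : ℝ) ^ d := by push_cast; rfl
        rw [this]
        exact h3
      calc ‖sh ⟨n', hmem'⟩ (sh ⟨l ^ k, hmem⟩ G)‖
          ≤ (P : ℝ) ^ d * (n' : ℝ) ^ (-d) * ‖sh ⟨l ^ k, hmem⟩ G‖ := h1
        _ ≤ (P : ℝ) ^ d * (n' : ℝ) ^ (-d) * ((1 / 2) * ‖G‖) :=
            mul_le_mul_of_nonneg_left h2 (by positivity)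
        _ = (P : ℝ) ^ d * ((n' : ℝ) ^ (-d) * (1 / 2)) * ‖G‖ := by ring
        _ ≤ (P : ℝ) ^ d * (n : ℝ) ^ (-d) * ‖G‖ := by
            refine mul_le_mul_of_nonneg_right (mul_le_mul_of_nonneg_left h4 (by positivity))
              (norm_nonneg _)
    · push Not at hdiv
      have hnP : n ≤ P := by
        have h1 : n ∣ P := by
          rw [← Nat.factorization_le_iff_dvd hn0 hP1.ne']
          intro l
          by_cases hl : l ∈ S
          · have h2 : n.factorization l < k := by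
              by_contra hcon
              push Not at hcon
              exact hdiv l hl ((pow_dvd_pow l hcon).trans (Nat.ordProj_dvd n l))
            have h3 : l ^ k ∣ P := Finset.dvd_prod_of_mem _ hl
            have h4 : k ≤ P.factorization l :=
              ((hS l hl).pow_dvd_iff_le_factorization hP1.ne').mp h3
            omega
          · have h2 : n.factorization l = 0 := by
              rw [Nat.factorization_eq_zero_iff]
              by_cases hp : l.Prime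
              · right; left
                intro hdvd
                have := h.2 l ((Nat.mem_primeFactorsList hn0).mpr ⟨hp, hdvd⟩)
                exact hl this
              · left; exact hp
            omega
        exact Nat.le_of_dvd hP1 h1
      have h5 : (1 : ℝ) ≤ (P : ℝ) ^ d * (n : ℝ) ^ (-d) := by
        rw [Real.rpow_neg hn.le, ← div_eq_mul_inv, one_le_div (by positivity)]
        exact Real.rpow_le_rpow hn.le (by exact_mod_cast hnP) hd0.le
      calc ‖sh ⟨n, h⟩ G‖ ≤ ‖G‖ := norm_sh_le _ _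
        _ = 1 * ‖G‖ := (one_mul _).symm
        _ ≤ (P : ℝ) ^ d * (n : ℝ) ^ (-d) * ‖G‖ := mul_le_mul_of_nonneg_right h5 (norm_nonneg _)

end NpA

open NpA in
/-- **Decay.** `F` is square summable over the numbers composed of the primes of `S` and its
translates come from a finite dimensional space. -/
theorem np_decay {V : Type*} [AddCommGroup V] [Module ℂ V] [Module.Finite ℂ V]
    (Φ : V →ₗ[ℂ] (ℕ → ℂ)) {S : Finset ℕ} (hS : ∀ l ∈ S, l.Prime) (F : ℕ → ℂ)
    (hF : Summable fun m : Nat.factoredNumbers S => ‖F m‖ ^ 2)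
    (hfin : ∀ m₀ ∈ Nat.factoredNumbers S, ∃ v, ∀ m ∈ Nat.factoredNumbers S, Φ v m = F (m₀ * m)) :
    ∃ C d : ℝ, 0 < C ∧ 0 < d ∧ ∀ m ∈ Nat.factoredNumbers S, ‖F m‖ ≤ C * (m : ℝ) ^ (-d) := by
  classical
  set F' : Em S := ⟨fun x => F x, (memℓp_two_iff _).mpr hF⟩ with hF'
  set W : Submodule ℂ (Em S) := Submodule.span ℂ (Set.range fun m => sh m F') with hW
  have hinv : ∀ m : Nat.factoredNumbers S, ∀ G ∈ W, sh m G ∈ W := by
    intro m G hG
    have h1 : W ≤ W.comap (shL m) := by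
      rw [hW, Submodule.span_le]
      rintro _ ⟨n, rfl⟩
      change sh m (sh n F') ∈ Submodule.span ℂ _
      rw [← sh_mul]
      exact Submodule.subset_span ⟨mulS n m, rfl⟩
    exact h1 hG
  have : FiniteDimensional ℂ W := by
    let Ψ : Em S →ₗ[ℂ] (Nat.factoredNumbers S → ℂ) :=
      { toFun := fun G => fun x => (G : ∀ _, ℂ) x
        map_add' := fun _ _ => rfl
        map_smul' := fun _ _ => rfl }
    have hΨ : Function.Injective Ψ := fun G H h => Subtype.ext h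
    let R : (ℕ → ℂ) →ₗ[ℂ] (Nat.factoredNumbers S → ℂ) :=
      { toFun := fun G => fun x => G x
        map_add' := fun _ _ => rfl
        map_smul' := fun _ _ => rfl }
    have h1 : W.map Ψ ≤ LinearMap.range (R ∘ₗ Φ) := by
      rw [hW, Submodule.map_span, Submodule.span_le]
      rintro _ ⟨_, ⟨m, rfl⟩, rfl⟩
      obtain ⟨v, hv⟩ := hfin m m.2
      exact ⟨v, funext fun x => hv x x.2⟩
    have : FiniteDimensional ℂ (W.map Ψ) := Submodule.finiteDimensional_of_le h1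
    exact LinearEquiv.finiteDimensional (Submodule.equivMapOfInjective Ψ hΨ W).symm
  obtain ⟨C, d, hC, hd, h⟩ := decay hS W hinv
  refine ⟨C * (‖F'‖ + 1), d, by positivity, hd, fun m hm => ?_⟩
  have hFW : F' ∈ W := by
    have h1 : (1 : ℕ) ∈ Nat.factoredNumbers S := ⟨one_ne_zero, by simp⟩
    have h2 : sh ⟨1, h1⟩ F' = F' := by
      apply Subtype.ext
      funext x
      change F (1 * x) = F x
      rw [one_mul]
    rw [← h2]
    exact Submodule.subset_span ⟨_, rfl⟩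
  have h1 := h ⟨m, hm⟩ F' hFW
  have h1m : (1 : ℕ) ∈ Nat.factoredNumbers S := ⟨one_ne_zero, by simp⟩
  have h2 : ‖F m‖ ≤ ‖sh ⟨m, hm⟩ F'‖ := by
    have h3 := lp.norm_apply_le_norm (p := 2) (by norm_num) (sh ⟨m, hm⟩ F') ⟨1, h1m⟩
    have h4 : (sh ⟨m, hm⟩ F' : ∀ _, ℂ) ⟨1, h1m⟩ = F m := by
      change F (m * 1) = F m
      rw [mul_one]
    rwa [h4] at h3
  calc ‖F m‖ ≤ C * (m : ℝ) ^ (-d) * ‖F'‖ := h2.trans h1
    _ ≤ C * (m : ℝ) ^ (-d) * (‖F'‖ + 1) := by
        refine mul_le_mul_of_nonneg_left (by linarith) (by positivity)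
    _ = C * (‖F'‖ + 1) * (m : ℝ) ^ (-d) := by ring

end Pool.Agent.MU0
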