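import Pool.Agent.MU0.L4

/-!
# The fourth moment of a sum over clusters

If the mixed sums `∑ R_a³ R_b` vanish, then the fourth moment of `∑ R_a` is bounded by the fourth
moments of the `R_a` and the sum over distinct indices.
-/

open Finset

namespace Pool.Agent.MU0

variable {Ω : Type*} [Fintype Ω] {ι : Type*} [DecidableEq ι]

/-- the sum over the quadruples of distinct elements of `A` -/
def dsum4 (A : Finset ι) (F : ι → ι → ι → ι → ℝ) : ℝ :=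
  ∑ a ∈ A, ∑ b ∈ A.erase a, ∑ c ∈ (A.erase a).erase b, ∑ d ∈ ((A.erase a).erase b).erase c, F a b c d

private theorem pt_erase (A : Finset ι) (f : ι → ℝ) {a : ι} (ha : a ∈ A) :
    ∑ x ∈ A.erase a, f x = ∑ x ∈ A, f x - f a := by
  rw [← Finset.add_sum_erase A f ha]
  ring

/-- Newton's identity -/
theorem dsum4_eq (A : Finset ι) (x : ι → ℝ) :
    dsum4 A (fun a b c d => x a * x b * x c * x d) =
      (∑ a ∈ A, x a) ^ 4 - 6 * (∑ a ∈ A, x a) ^ 2 * (∑ a ∈ A, x a ^ 2) +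
        3 * (∑ a ∈ A, x a ^ 2) ^ 2 + 8 * (∑ a ∈ A, x a) * (∑ a ∈ A, x a ^ 3) -
        6 * ∑ a ∈ A, x a ^ 4 := by
  unfold dsum4
  set p1 := ∑ a ∈ A, x a with hp1
  set p2 := ∑ a ∈ A, x a ^ 2 with hp2
  set p3 := ∑ a ∈ A, x a ^ 3 with hp3
  set p4 := ∑ a ∈ A, x a ^ 4 with hp4
  have h3 : ∀ a ∈ A, ∀ b ∈ A.erase a,
      ∑ c ∈ (A.erase a).erase b, ∑ d ∈ ((A.erase a).erase b).erase c, x a * x b * x c * x d =
      x a * x b * ((p1 - x a - x b) ^ 2 - (p2 - x a ^ 2 - x b ^ 2)) := by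
    intro a ha b hb
    have e1 : ∀ c ∈ (A.erase a).erase b, ∑ d ∈ ((A.erase a).erase b).erase c, x a * x b * x c * x d =
        x a * x b * ((p1 - x a - x b) * x c - x c ^ 2) := by
      intro c hc
      rw [← Finset.mul_sum, pt_erase _ _ hc, pt_erase _ _ hb, pt_erase _ _ ha, ← hp1]
      ring
    rw [Finset.sum_congr rfl e1, ← Finset.mul_sum, Finset.sum_sub_distrib, ← Finset.mul_sum,
      pt_erase _ _ hb, pt_erase _ _ ha, pt_erase _ _ hb, pt_erase _ _ ha, ← hp1, ← hp2]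
    ring
  have h2 : ∀ a ∈ A, ∑ b ∈ A.erase a,
      ∑ c ∈ (A.erase a).erase b, ∑ d ∈ ((A.erase a).erase b).erase c, x a * x b * x c * x d =
      x a * ((p1 - x a) ^ 3 - 3 * (p1 - x a) * (p2 - x a ^ 2) + 2 * (p3 - x a ^ 3)) := by
    intro a ha
    rw [Finset.sum_congr rfl (h3 a ha)]
    have e1 : ∀ b ∈ A.erase a, x a * x b * ((p1 - x a - x b) ^ 2 - (p2 - x a ^ 2 - x b ^ 2)) =
        x a * ((((p1 - x a) ^ 2 - (p2 - x a ^ 2)) * x b - 2 * (p1 - x a) * x b ^ 2) +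
          2 * x b ^ 3) := by
      intro b _
      ring
    rw [Finset.sum_congr rfl e1, ← Finset.mul_sum, Finset.sum_add_distrib, Finset.sum_sub_distrib,
      ← Finset.mul_sum, ← Finset.mul_sum, ← Finset.mul_sum, pt_erase _ _ ha, pt_erase _ _ ha,
      pt_erase _ _ ha, ← hp1, ← hp2, ← hp3]
    ring
  rw [Finset.sum_congr rfl h2]
  have e1 : ∀ a ∈ A, x a * ((p1 - x a) ^ 3 - 3 * (p1 - x a) * (p2 - x a ^ 2) + 2 * (p3 - x a ^ 3)) =
      (((p1 ^ 3 - 3 * p1 * p2 + 2 * p3) * x a - (3 * p1 ^ 2 - 3 * p2) * x a ^ 2) +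
        6 * p1 * x a ^ 3) - 6 * x a ^ 4 := by
    intro a _
    ring
  rw [Finset.sum_congr rfl e1, Finset.sum_sub_distrib, Finset.sum_add_distrib,
    Finset.sum_sub_distrib, ← Finset.mul_sum, ← Finset.mul_sum, ← Finset.mul_sum, ← Finset.mul_sum,
    ← hp1, ← hp2, ← hp3, ← hp4]
  ring

/-- the fourth moment of a sum over clusters -/
theorem pattern_bound (A : Finset ι) (R : ι → Ω → ℝ) (B : ℝ)
    (h31 : ∀ a ∈ A, ∀ b ∈ A, a ≠ b → ∑ w, R a w ^ 3 * R b w = 0)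
    (hB : ∑ w, dsum4 A (fun a b c d => R a w * R b w * R c w * R d w) ≤ B) :
    ∑ w, (∑ a ∈ A, R a w) ^ 4 ≤ 72 * (∑ a ∈ A, N4 (R a)) ^ 2 + 2 * B := by
  set p1 : Ω → ℝ := fun w => ∑ a ∈ A, R a w with hp1
  set p2 : Ω → ℝ := fun w => ∑ a ∈ A, R a w ^ 2 with hp2
  have hX : ∑ w, p2 w ^ 2 ≤ (∑ a ∈ A, N4 (R a)) ^ 2 := by
    have e1 : ∀ w, p2 w ^ 2 = ∑ a ∈ A, ∑ b ∈ A, R a w ^ 2 * R b w ^ 2 := by
      intro w
      rw [hp2, pow_two, Finset.sum_mul_sum]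
    rw [Finset.sum_congr rfl fun w _ => e1 w, Finset.sum_comm, pow_two, Finset.sum_mul_sum]
    refine Finset.sum_le_sum fun a _ => ?_
    rw [Finset.sum_comm]
    exact Finset.sum_le_sum fun b _ => sum_sq_sq_le _ _
  have h4 : ∑ w, (∑ a ∈ A, R a w) * (∑ a ∈ A, R a w ^ 3) = ∑ w, ∑ a ∈ A, R a w ^ 4 := by
    have e1 : ∀ w, (∑ a ∈ A, R a w) * (∑ a ∈ A, R a w ^ 3) =
        ∑ a ∈ A, ∑ b ∈ A, R a w ^ 3 * R b w := by
      intro w
      rw [mul_comm, Finset.sum_mul_sum]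
    calc ∑ w, (∑ a ∈ A, R a w) * (∑ a ∈ A, R a w ^ 3)
        = ∑ w, ∑ a ∈ A, ∑ b ∈ A, R a w ^ 3 * R b w := Finset.sum_congr rfl fun w _ => e1 w
      _ = ∑ a ∈ A, ∑ b ∈ A, ∑ w, R a w ^ 3 * R b w := by
          rw [Finset.sum_comm]
          exact Finset.sum_congr rfl fun a _ => Finset.sum_comm
      _ = ∑ a ∈ A, ∑ w, R a w ^ 4 := by
          refine Finset.sum_congr rfl fun a ha => ?_
          rw [Finset.sum_eq_single a]
          · exact Finset.sum_congr rfl fun w _ => by ring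
          · intro b hb hne
            exact h31 a ha b hb (Ne.symm hne)
          · intro h
            exact absurd ha h
      _ = ∑ w, ∑ a ∈ A, R a w ^ 4 := Finset.sum_comm
  have h5 : ∑ w, p1 w ^ 4 ≤ B + 6 * ∑ w, p1 w ^ 2 * p2 w := by
    have e1 : ∀ w, dsum4 A (fun a b c d => R a w * R b w * R c w * R d w) =
        p1 w ^ 4 - 6 * (p1 w ^ 2 * p2 w) + 3 * p2 w ^ 2 +
          8 * ((∑ a ∈ A, R a w) * (∑ a ∈ A, R a w ^ 3)) - 6 * ∑ a ∈ A, R a w ^ 4 := by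
      intro w
      rw [dsum4_eq]
      simp only [hp1, hp2]
      ring
    rw [Finset.sum_congr rfl fun w _ => e1 w, Finset.sum_sub_distrib, Finset.sum_add_distrib,
      Finset.sum_add_distrib, Finset.sum_sub_distrib, ← Finset.mul_sum, ← Finset.mul_sum,
      ← Finset.mul_sum, ← Finset.mul_sum, h4] at hB
    have h6 : 0 ≤ ∑ w, p2 w ^ 2 := Finset.sum_nonneg fun w _ => by positivity
    have h7 : 0 ≤ ∑ w, ∑ a ∈ A, R a w ^ 4 :=
      Finset.sum_nonneg fun w _ => Finset.sum_nonneg fun a _ => by positivity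
    linarith
  have h6 : (∑ w, p1 w ^ 2 * p2 w) ^ 2 ≤ (∑ w, p1 w ^ 4) * ∑ w, p2 w ^ 2 := by
    have h := Finset.sum_mul_sq_le_sq_mul_sq (univ : Finset Ω) (fun w => p1 w ^ 2) p2
    have e1 : ∑ w, (p1 w ^ 2) ^ 2 = ∑ w, p1 w ^ 4 := Finset.sum_congr rfl fun w _ => by ring
    rwa [e1] at h
  change ∑ w, p1 w ^ 4 ≤ _
  set Y := ∑ w, p1 w ^ 4 with hY
  set Z := ∑ w, p1 w ^ 2 * p2 w with hZ
  set X := ∑ w, p2 w ^ 2 with hXd
  have hY0 : 0 ≤ Y := Finset.sum_nonneg fun w _ => by positivity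
  have hX0 : 0 ≤ X := Finset.sum_nonneg fun w _ => by positivity
  -- `6 Z ≤ Y / 2 + 18 X`
  have h7 : 6 * Z ≤ Y / 2 + 18 * X := by
    by_contra hcon
    push Not at hcon
    have h8 : (Y / 2 + 18 * X) ^ 2 < (6 * Z) ^ 2 := by
      have : 0 ≤ Y / 2 + 18 * X := by positivity
      nlinarith
    nlinarith [sq_nonneg (Y / 2 - 18 * X)]
  nlinarith

end Pool.Agent.MU0
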