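import Mathlib

/-!
# Rankin's lower bound: the measure of the exceptional points of a horocycle
-/

set_option autoImplicit false

namespace Pool.Agent.MU0.Rk

open UpperHalfPlane CongruenceSubgroup MeasureTheory Finset
open scoped MatrixGroups Modular

/-- the point `x + i y` -/
def pt (x y : ℝ) (hy : 0 < y) : ℍ := ⟨⟨x, y⟩, hy⟩

theorem coe_pt (x y : ℝ) (hy : 0 < y) : ((pt x y hy : ℍ) : ℂ) = ⟨x, y⟩ := rfl

theorem vol_le {s : Set ℝ} {r : ℝ} (h : ∀ x ∈ s, ∀ y ∈ s, |x - y| ≤ r) :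
    volume s ≤ ENNReal.ofReal r := by
  refine (Real.volume_le_diam s).trans ?_
  refine Metric.ediam_le fun x hx y hy => ?_
  rw [edist_dist, Real.dist_eq]
  exact ENNReal.ofReal_le_ofReal (h x hx y hy)

theorem im_formula (g : SL(2, ℤ)) (x y : ℝ) (hy : 0 < y) :
    (g • pt x y hy).im = y / (((g 1 0 : ℤ) * x + (g 1 1 : ℤ)) ^ 2 + ((g 1 0 : ℤ) * y) ^ 2) := by
  rw [ModularGroup.im_smul_eq_div_normSq, ModularGroup.denom_apply, coe_pt]
  have h1 : (pt x y hy).im = y := rfl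
  rw [h1]
  congr 1
  rw [Complex.normSq_apply]
  simp
  ring

theorem den_pos (g : SL(2, ℤ)) (x y : ℝ) (hy : 0 < y) :
    0 < ((g 1 0 : ℤ) * x + (g 1 1 : ℤ)) ^ 2 + ((g 1 0 : ℤ) * y) ^ 2 := by
  have h1 := (g • pt x y hy).im_pos
  rw [im_formula] at h1
  by_contra h2
  push Not at h2
  have : y / (((g 1 0 : ℤ) * x + (g 1 1 : ℤ)) ^ 2 + ((g 1 0 : ℤ) * y) ^ 2) ≤ 0 :=
    div_nonpos_of_nonneg_of_nonpos hy.le h2
  linarith

theorem exists_pos (g : SL(2, ℤ)) (hc : g 1 0 ≠ 0) : ∃ g' : SL(2, ℤ), 0 < g' 1 0 ∧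
    (∀ z : ℍ, g' • z = g • z) := by
  rcases lt_or_gt_of_ne hc with h | h
  · refine ⟨-g, ?_, fun z => ModularGroup.SL_neg_smul g z⟩
    simp only [Matrix.SpecialLinearGroup.coe_neg, Matrix.neg_apply]
    omega
  · exact ⟨g, h, fun _ => rfl⟩

/-- Most points are equivalent to points of bounded height. -/
theorem bad1 {T y : ℝ} (hT : 1 ≤ T) (hy : 0 < y) (hy1 : y ≤ 1) :
    volume {x : ℝ | x ∈ Set.Icc (0 : ℝ) 1 ∧ ¬ ∃ g : SL(2, ℤ), g • pt x y hy ∈ ModularGroup.fd ∧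
      (g • pt x y hy).im ≤ T} ≤ ENNReal.ofReal (8 / T) := by
  have hT0 : 0 < T := by linarith
  set s : ℝ := √(y / T) with hs
  have hs0 : 0 < s := Real.sqrt_pos.2 (by positivity)
  have hss : s ^ 2 = y / T := Real.sq_sqrt (by positivity)
  have hs1 : s ≤ 1 := by
    rw [hs, Real.sqrt_le_one]
    rw [div_le_one hT0]
    linarith
  set M : ℕ := ⌊s / y⌋₊ with hM
  have hsub : {x : ℝ | x ∈ Set.Icc (0 : ℝ) 1 ∧ ¬ ∃ g : SL(2, ℤ), g • pt x y hy ∈ ModularGroup.fd ∧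
      (g • pt x y hy).im ≤ T} ⊆ ⋃ c ∈ Icc 1 M, ⋃ d ∈ Icc (-(c : ℤ) - 1) 1,
        {x : ℝ | |(c : ℝ) * x + (d : ℝ)| ≤ s} := by
    rintro x ⟨⟨hx0, hx1⟩, hx⟩
    obtain ⟨g, hg⟩ := ModularGroup.exists_smul_mem_fd (pt x y hy)
    have h1 : T < (g • pt x y hy).im := by
      by_contra h
      exact hx ⟨g, hg, not_lt.1 h⟩
    have hc : g 1 0 ≠ 0 := by
      intro h
      rw [im_formula, h] at h1
      have hdet := g.det_coe
      rw [Matrix.det_fin_two, h] at hdet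
      have h2 : (g 1 1 : ℤ) ^ 2 = 1 := by
        have h3 : (g 1 1 : ℤ) ∣ 1 := ⟨g 0 0, by linarith⟩
        rcases Int.isUnit_iff.1 (isUnit_of_dvd_one h3) with h4 | h4 <;> rw [h4] <;> norm_num
      have h3 : ((g 1 1 : ℤ) : ℝ) ^ 2 = 1 := by exact_mod_cast h2
      push_cast at h1
      rw [zero_mul, zero_add, zero_mul, h3] at h1
      norm_num at h1
      linarith
    obtain ⟨g', hg'0, hg'⟩ := exists_pos g hc
    rw [← hg', im_formula, lt_div_iff₀ (den_pos _ _ _ hy)] at h1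
    have h2 : (((g' 1 0 : ℤ) : ℝ) * x + (g' 1 1 : ℤ)) ^ 2 + ((g' 1 0 : ℤ) * y) ^ 2 < s ^ 2 := by
      rw [hss, lt_div_iff₀ hT0]
      linarith
    have h3 : |((g' 1 0 : ℤ) : ℝ) * x + (g' 1 1 : ℤ)| < s := by
      refine abs_lt_of_sq_lt_sq ?_ hs0.le
      nlinarith [sq_nonneg (((g' 1 0 : ℤ) : ℝ) * y)]
    have h4 : ((g' 1 0 : ℤ) : ℝ) * y < s := by
      refine lt_of_pow_lt_pow_left₀ 2 hs0.le ?_
      nlinarith [sq_nonneg (((g' 1 0 : ℤ) : ℝ) * x + (g' 1 1 : ℤ))]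
    obtain ⟨c, hc'⟩ := Int.eq_ofNat_of_zero_le hg'0.le
    rw [hc'] at hg'0 h3 h4
    have hc1 : 1 ≤ c := by exact_mod_cast hg'0
    have hcr : ((((c : ℕ) : ℤ) : ℝ)) = (c : ℝ) := by norm_cast
    rw [hcr] at h3 h4
    have hcM : c ≤ M := by
      rw [hM]
      refine Nat.le_floor ?_
      rw [le_div_iff₀ hy]
      exact h4.le
    simp only [Set.mem_iUnion, mem_Icc, Set.mem_ofPred_eq]
    refine ⟨c, ⟨hc1, hcM⟩, g' 1 1, ⟨?_, ?_⟩, h3.le⟩
    · have h5 := (abs_lt.1 h3).1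
      have hc0 : (0 : ℝ) ≤ c := Nat.cast_nonneg c
      have h6 : (-(c : ℝ) - 1) < ((g' 1 1 : ℤ) : ℝ) + 1e-9 := by
        nlinarith
      have h7 : (-(c : ℝ) - 1) ≤ ((g' 1 1 : ℤ) : ℝ) := by nlinarith
      exact_mod_cast h7
    · have h5 := (abs_lt.1 h3).2
      have hc0 : (0 : ℝ) ≤ c := Nat.cast_nonneg c
      have h6 : ((g' 1 1 : ℤ) : ℝ) ≤ 1 := by nlinarith
      exact_mod_cast h6
  refine (measure_mono hsub).trans ?_
  refine (measure_biUnion_finset_le _ _).trans ?_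
  have h1 : ∀ c ∈ Icc 1 M, volume (⋃ d ∈ Icc (-(c : ℤ) - 1) 1,
      {x : ℝ | |(c : ℝ) * x + (d : ℝ)| ≤ s}) ≤ ENNReal.ofReal (8 * s) := by
    intro c hc
    have hc1 : (1 : ℝ) ≤ c := by exact_mod_cast (mem_Icc.1 hc).1
    have hc0 : (0 : ℝ) < c := by linarith
    refine (measure_biUnion_finset_le _ _).trans ?_
    calc ∑ d ∈ Icc (-(c : ℤ) - 1) 1, volume {x : ℝ | |(c : ℝ) * x + (d : ℝ)| ≤ s}
        ≤ ∑ d ∈ Icc (-(c : ℤ) - 1) 1, ENNReal.ofReal (2 * s / c) := by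
          refine sum_le_sum fun d _ => vol_le fun x hx x' hx' => ?_
          simp only [Set.mem_ofPred_eq] at hx hx'
          rw [le_div_iff₀ hc0]
          have h2 : |x - x'| * c = |((c : ℝ) * x + d) - ((c : ℝ) * x' + d)| := by
            have h3 : ((c : ℝ) * x + d) - ((c : ℝ) * x' + d) = (x - x') * c := by ring
            rw [h3, abs_mul, abs_of_pos hc0]
          rw [h2]
          refine (abs_sub _ _).trans ?_
          linarith
      _ = ENNReal.ofReal ((c + 3) * (2 * s / c)) := by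
          rw [sum_const, Int.card_Icc, nsmul_eq_mul]
          have h3 : ((1 + 1 - (-(c : ℤ) - 1)).toNat) = c + 3 := by omega
          rw [h3]
          rw [ENNReal.ofReal_mul (by positivity)]
          congr 1
          rw [← ENNReal.ofReal_natCast]
          push_cast
          rfl
      _ ≤ ENNReal.ofReal (8 * s) := by
          refine ENNReal.ofReal_le_ofReal ?_
          rw [← mul_div_assoc, div_le_iff₀ hc0]
          nlinarith
  refine (sum_le_sum h1).trans ?_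
  rw [sum_const, Nat.card_Icc, nsmul_eq_mul, ← ENNReal.ofReal_natCast,
    ← ENNReal.ofReal_mul (Nat.cast_nonneg _)]
  refine ENNReal.ofReal_le_ofReal ?_
  have h2 : (M : ℝ) ≤ s / y := Nat.floor_le (by positivity)
  have h3 : ((M + 1 - 1 : ℕ) : ℝ) = M := by simp
  rw [h3]
  calc (M : ℝ) * (8 * s) ≤ (s / y) * (8 * s) := by gcongr
    _ = 8 * (s ^ 2 / y) := by ring
    _ = 8 / T := by
        rw [hss]
        field_simp

/-- the difference of two values of a Möbius transformation -/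
theorem moeb_sub (g g' : SL(2, ℤ)) (h : ∀ i j, g i j = g' i j) {x x' y : ℝ} (hy : 0 < y) :
    (x - x') ^ 2 = ‖((g • pt x y hy : ℍ) : ℂ) - ((g' • pt x' y hy : ℍ) : ℂ)‖ ^ 2 *
      ((((g 1 0 : ℤ) * x + (g 1 1 : ℤ)) ^ 2 + ((g 1 0 : ℤ) * y) ^ 2) *
      ((((g' 1 0 : ℤ) * x' + (g' 1 1 : ℤ)) ^ 2 + ((g' 1 0 : ℤ) * y) ^ 2))) := by
  have hgg : g = g' := by
    ext i j
    exact h i j
  subst hgg
  have hd : ∀ x : ℝ, ((g 1 0 : ℤ) : ℂ) * (⟨x, y⟩ : ℂ) + ((g 1 1 : ℤ) : ℂ) ≠ 0 := by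
    intro x h0
    have h1 := den_pos g x y hy
    have h2 := congrArg Complex.re h0
    have h3 := congrArg Complex.im h0
    simp at h2 h3
    rw [h2] at h1
    rcases h3 with h3 | h3
    · rw [h3] at h1
      norm_num at h1
    · linarith
  have hn : ∀ x : ℝ, ((g 1 0 : ℤ) * x + (g 1 1 : ℤ)) ^ 2 + ((g 1 0 : ℤ) * y) ^ 2 =
      ‖((g 1 0 : ℤ) : ℂ) * (⟨x, y⟩ : ℂ) + ((g 1 1 : ℤ) : ℂ)‖ ^ 2 := by
    intro x
    rw [← Complex.normSq_eq_norm_sq, Complex.normSq_apply]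
    simp
    ring
  rw [hn x, hn x', ← mul_pow, ← mul_pow, ← norm_mul, ← norm_mul]
  have hdet : ((g 0 0 : ℤ) : ℂ) * ((g 1 1 : ℤ) : ℂ) - ((g 0 1 : ℤ) : ℂ) * ((g 1 0 : ℤ) : ℂ) = 1 := by
    have := g.det_coe
    rw [Matrix.det_fin_two] at this
    exact_mod_cast this
  have key : (((g • pt x y hy : ℍ) : ℂ) - ((g • pt x' y hy : ℍ) : ℂ)) *
      ((((g 1 0 : ℤ) : ℂ) * (⟨x, y⟩ : ℂ) + ((g 1 1 : ℤ) : ℂ)) *
      (((g 1 0 : ℤ) : ℂ) * (⟨x', y⟩ : ℂ) + ((g 1 1 : ℤ) : ℂ))) = ((x - x' : ℝ) : ℂ) := by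
    have e : (⟨x, y⟩ : ℂ) - (⟨x', y⟩ : ℂ) = ((x - x' : ℝ) : ℂ) := by
      apply Complex.ext <;> simp
    rw [← e]
    rw [coe_specialLinearGroup_apply, coe_specialLinearGroup_apply, coe_pt, coe_pt]
    simp only [algebraMap_int_eq, eq_intCast, Complex.ofReal_intCast]
    have h1 := hd x
    have h2 := hd x'
    generalize (⟨x, y⟩ : ℂ) = z at h1 ⊢
    generalize (⟨x', y⟩ : ℂ) = z' at h2 ⊢
    generalize ((g 0 0 : ℤ) : ℂ) = a at hdet ⊢
    generalize ((g 0 1 : ℤ) : ℂ) = b at hdet ⊢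
    generalize ((g 1 0 : ℤ) : ℂ) = c at hdet h1 h2 ⊢
    generalize ((g 1 1 : ℤ) : ℂ) = d at hdet h1 h2 ⊢
    rw [div_sub_div _ _ h1 h2, div_mul_cancel₀ _ (mul_ne_zero h1 h2)]
    linear_combination (z - z') * hdet
  rw [key, Complex.norm_real, Real.norm_eq_abs, sq_abs]

end Pool.Agent.MU0.Rk
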