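import Pool.Agent.MU0.Rk1

/-!
# Rankin's lower bound: the points near a given orbit
-/

set_option autoImplicit false

namespace Pool.Agent.MU0.Rk

open UpperHalfPlane CongruenceSubgroup MeasureTheory Finset
open scoped MatrixGroups Modular

/-- The set of the `x` for which `x + iy` is equivalent to a point near `w` is small. -/
theorem bad2 {w : ℂ} (hw : 0 < w.im) : ∃ K : ℝ, 0 ≤ K ∧ ∀ ε : ℝ, 0 < ε → ε ≤ w.im / 2 →
    ∀ (y : ℝ) (hy : 0 < y), y ≤ 1 → y ≤ w.im / 2 →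
    volume {x : ℝ | x ∈ Set.Icc (0 : ℝ) 1 ∧ ∃ g : SL(2, ℤ),
      ‖((g • pt x y hy : ℍ) : ℂ) - w‖ < ε} ≤ ENNReal.ofReal (K * ε) := by
  set h : ℝ := w.im with hh
  set C : ℝ := √(2 / h) with hC
  have hC0 : 0 < C := Real.sqrt_pos.2 (by positivity)
  have hC2 : C ^ 2 = 2 / h := Real.sq_sqrt (by positivity)
  set D : ℝ := √(2 * h) with hD
  have hD0 : 0 < D := Real.sqrt_pos.2 (by positivity)
  have hD2 : D ^ 2 = 2 * h := Real.sq_sqrt (by positivity)
  set A : ℝ := C * (‖w‖ + h) + D with hA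
  have hA0 : 0 < A := by positivity
  refine ⟨16 * C * (2 * A + 1) / h, by positivity, ?_⟩
  intro ε hε hε2 y hy hy1 hyh
  set s : ℝ := √y with hs
  have hs0 : 0 < s := Real.sqrt_pos.2 hy
  have hss : s ^ 2 = y := Real.sq_sqrt hy.le
  have hs1 : s ≤ 1 := by
    rw [hs, Real.sqrt_le_one]
    exact hy1
  set M₁ : ℕ := ⌊C / s⌋₊ with hM₁
  set M₂ : ℕ := ⌊A / s⌋₊ with hM₂
  set E : ℕ → ℤ → ℕ → Set ℝ := fun c a j => {x : ℝ | x ∈ Set.Icc (0 : ℝ) 1 ∧ ∃ g : SL(2, ℤ),
    g 1 0 = (c : ℤ) ∧ g 0 0 = a ∧ (g 1 1 + c + 1) / (c : ℤ) = (j : ℤ) ∧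
      ‖((g • pt x y hy : ℍ) : ℂ) - w‖ < ε} with hE
  -- the bounds for one point
  have hpt : ∀ (g : SL(2, ℤ)) (x : ℝ), ‖((g • pt x y hy : ℍ) : ℂ) - w‖ < ε →
      ((g 1 0 : ℤ) * x + (g 1 1 : ℤ)) ^ 2 + ((g 1 0 : ℤ) * y) ^ 2 < 2 * y / h ∧
      y / (2 * h) < ((g 1 0 : ℤ) * x + (g 1 1 : ℤ)) ^ 2 + ((g 1 0 : ℤ) * y) ^ 2 := by
    intro g x hx
    have h1 : |(((g • pt x y hy : ℍ) : ℂ) - w).im| < ε := (Complex.abs_im_le_norm _).trans_lt hx
    have h2 : (((g • pt x y hy : ℍ) : ℂ) - w).im = (g • pt x y hy).im - h := by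
      rw [Complex.sub_im]
      rfl
    rw [h2, im_formula] at h1
    have hd := den_pos g x y hy
    set d := ((g 1 0 : ℤ) * x + (g 1 1 : ℤ)) ^ 2 + ((g 1 0 : ℤ) * y) ^ 2 with hd'
    obtain ⟨h3, h4⟩ := abs_lt.1 h1
    have h5 : h / 2 < y / d := by linarith
    have h6 : y / d < 2 * h := by linarith
    rw [lt_div_iff₀ hd] at h5
    rw [div_lt_iff₀ hd] at h6
    constructor
    · rw [lt_div_iff₀ hw]
      linarith
    · rw [div_lt_iff₀ (by positivity)]
      linarith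
  have hsub : {x : ℝ | x ∈ Set.Icc (0 : ℝ) 1 ∧ ∃ g : SL(2, ℤ),
      ‖((g • pt x y hy : ℍ) : ℂ) - w‖ < ε} ⊆ ⋃ c ∈ Icc 1 M₁, ⋃ a ∈ Icc (-(M₂ : ℤ)) M₂,
        ⋃ j ∈ range 4, E c a j := by
    rintro x ⟨⟨hx0, hx1⟩, g, hx⟩
    have hc : g 1 0 ≠ 0 := by
      intro h0
      have h1 := (hpt g x hx).1
      rw [h0] at h1
      have hdet := g.det_coe
      rw [Matrix.det_fin_two, h0] at hdet
      have h2 : (g 1 1 : ℤ) ^ 2 = 1 := by
        have h3 : (g 1 1 : ℤ) ∣ 1 := ⟨g 0 0, by linarith⟩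
        rcases Int.isUnit_iff.1 (isUnit_of_dvd_one h3) with h4 | h4 <;> rw [h4] <;> norm_num
      have h3 : ((g 1 1 : ℤ) : ℝ) ^ 2 = 1 := by exact_mod_cast h2
      push_cast at h1
      rw [zero_mul, zero_add, zero_mul, h3] at h1
      rw [lt_div_iff₀ hw] at h1
      norm_num at h1
      linarith
    obtain ⟨g', hg'0, hg'⟩ := exists_pos g hc
    rw [← hg'] at hx
    obtain ⟨h1, h2⟩ := hpt g' x hx
    obtain ⟨c, hc'⟩ := Int.eq_ofNat_of_zero_le hg'0.le
    have hc1 : 1 ≤ c := by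
      rw [hc'] at hg'0
      exact_mod_cast hg'0
    have hc1r : (1 : ℝ) ≤ c := by exact_mod_cast hc1
    have hcr : ((((c : ℕ) : ℤ) : ℝ)) = (c : ℝ) := by norm_cast
    have e10 : ((g' 1 0 : ℤ) : ℝ) = (c : ℝ) := by rw [hc', hcr]
    rw [e10] at h1 h2
    have h3 : (c : ℝ) * y < C * s := by
      refine lt_of_pow_lt_pow_left₀ 2 (by positivity) ?_
      rw [mul_pow, mul_pow, hC2, hss]
      have : 2 / h * y = 2 * y / h := by ring
      rw [this]
      nlinarith [sq_nonneg ((c : ℝ) * x + (g' 1 1 : ℤ))]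
    have hcM : c ≤ M₁ := by
      refine Nat.le_floor ?_
      rw [le_div_iff₀ hs0]
      have : (c : ℝ) * s * s < C * s := by nlinarith
      exact (lt_of_mul_lt_mul_right this hs0.le).le
    have h4 : |(c : ℝ) * x + (g' 1 1 : ℤ)| < 1 := by
      refine abs_lt_of_sq_lt_sq ?_ zero_le_one
      have h5 : 2 * y / h ≤ 1 := by
        rw [div_le_one hw]
        linarith
      nlinarith [sq_nonneg ((c : ℝ) * y)]
    obtain ⟨h5, h6⟩ := abs_lt.1 h4
    have h7 : -(c : ℤ) - 1 ≤ g' 1 1 := by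
      have : (-(c : ℝ) - 1) ≤ ((g' 1 1 : ℤ) : ℝ) := by nlinarith
      exact_mod_cast this
    have h8 : g' 1 1 ≤ 1 := by
      have : ((g' 1 1 : ℤ) : ℝ) ≤ 1 := by nlinarith
      exact_mod_cast this
    -- the bound for `a`
    have h9 : |((g' 0 0 : ℤ) : ℝ)| ≤ A / s := by
      have hdc : ((c : ℝ) : ℂ) * (⟨x, y⟩ : ℂ) + ((g' 1 1 : ℤ) : ℂ) ≠ 0 := by
        intro h0
        have h2 := congrArg Complex.im h0
        simp at h2
        rcases h2 with h2 | h2
        · omega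
        · linarith
      have hnorm : ‖((c : ℝ) : ℂ) * (⟨x, y⟩ : ℂ) + ((g' 1 1 : ℤ) : ℂ)‖ ^ 2 =
          ((c : ℝ) * x + (g' 1 1 : ℤ)) ^ 2 + ((c : ℝ) * y) ^ 2 := by
        rw [← Complex.normSq_eq_norm_sq, Complex.normSq_apply]
        simp
        ring
      have hlow : s / D ≤ ‖((c : ℝ) : ℂ) * (⟨x, y⟩ : ℂ) + ((g' 1 1 : ℤ) : ℂ)‖ := by
        refine le_of_lt (lt_of_pow_lt_pow_left₀ 2 (norm_nonneg _) ?_)
        rw [hnorm, div_pow, hss, hD2]
        exact h2
      have hdet : ((g' 0 0 : ℤ) : ℂ) * ((g' 1 1 : ℤ) : ℂ) -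
          ((g' 0 1 : ℤ) : ℂ) * ((c : ℝ) : ℂ) = 1 := by
        have := g'.det_coe
        rw [Matrix.det_fin_two, hc'] at this
        exact_mod_cast this
      have e1 : ((g' 0 0 : ℤ) : ℂ) = ((c : ℝ) : ℂ) * ((g' • pt x y hy : ℍ) : ℂ) +
          1 / (((c : ℝ) : ℂ) * (⟨x, y⟩ : ℂ) + ((g' 1 1 : ℤ) : ℂ)) := by
        rw [coe_specialLinearGroup_apply, coe_pt]
        simp only [algebraMap_int_eq, eq_intCast, Complex.ofReal_intCast]
        have e10' : ((g' 1 0 : ℤ) : ℂ) = ((c : ℝ) : ℂ) := by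
          rw [hc']
          push_cast
          rfl
        rw [e10']
        rw [← mul_div_assoc, ← add_div, eq_div_iff hdc]
        linear_combination hdet
      have e2 : ‖((g' • pt x y hy : ℍ) : ℂ)‖ ≤ ‖w‖ + h := by
        have := norm_add_le (((g' • pt x y hy : ℍ) : ℂ) - w) w
        rw [sub_add_cancel] at this
        linarith
      have e3 : |((g' 0 0 : ℤ) : ℝ)| = ‖((g' 0 0 : ℤ) : ℂ)‖ := by
        rw [Complex.norm_intCast]
      rw [e3, e1]
      calc ‖((c : ℝ) : ℂ) * ((g' • pt x y hy : ℍ) : ℂ) +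
          1 / (((c : ℝ) : ℂ) * (⟨x, y⟩ : ℂ) + ((g' 1 1 : ℤ) : ℂ))‖
          ≤ (c : ℝ) * (‖w‖ + h) + 1 / (s / D) := by
            refine (norm_add_le _ _).trans (add_le_add ?_ ?_)
            · rw [norm_mul, Complex.norm_real, Real.norm_of_nonneg (by positivity)]
              gcongr
            · rw [norm_div, norm_one]
              exact one_div_le_one_div_of_le (by positivity) hlow
        _ ≤ (C / s) * (‖w‖ + h) + 1 / (s / D) := by
            have : (c : ℝ) ≤ C / s := by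
              refine le_trans ?_ (Nat.floor_le (by positivity))
              exact_mod_cast hcM
            gcongr
        _ = A / s := by
            rw [hA]
            field_simp
    have h10 : (-(M₂ : ℤ)) ≤ g' 0 0 ∧ g' 0 0 ≤ M₂ := by
      have h11 : (g' 0 0).natAbs ≤ M₂ := by
        refine Nat.le_floor ?_
        have h12 : (((g' 0 0).natAbs : ℕ) : ℝ) = |((g' 0 0 : ℤ) : ℝ)| := by
          rw [Nat.cast_natAbs]
          push_cast
          rfl
        rw [h12]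
        exact h9
      omega
    simp only [Set.mem_iUnion, mem_Icc, mem_range]
    refine ⟨c, ⟨hc1, hcM⟩, g' 0 0, h10, ((g' 1 1 + c + 1) / (c : ℤ)).toNat, ?_, ⟨hx0, hx1⟩,
      g', hc', rfl, ?_, hx⟩
    · have h11 : (g' 1 1 + c + 1) / (c : ℤ) ≤ 3 := by
        have hcz : (0 : ℤ) < c := by exact_mod_cast hc1
        have : (g' 1 1 + c + 1) / (c : ℤ) < 4 := by
          rw [Int.ediv_lt_iff_lt_mul hcz]
          have : (1 : ℤ) ≤ c := by exact_mod_cast hc1
          linarith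
        omega
      omega
    · rw [Int.toNat_of_nonneg]
      exact Int.ediv_nonneg (by omega) (by omega)
  have hvol : ∀ c ∈ Icc 1 M₁, ∀ a : ℤ, ∀ j : ℕ, volume (E c a j) ≤
      ENNReal.ofReal (4 * ε * y / h) := by
    intro c hc a j
    have hcz : (0 : ℤ) < c := by exact_mod_cast (mem_Icc.1 hc).1
    refine vol_le ?_
    rintro x ⟨-, g, hg1, hg2, hg3, hx⟩ x' ⟨-, g', hg1', hg2', hg3', hx'⟩
    have hdet := g.det_coe
    have hdet' := g'.det_coe
    rw [Matrix.det_fin_two] at hdet hdet'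
    rw [hg1, hg2] at hdet
    rw [hg1', hg2'] at hdet'
    have hcop : IsCoprime (c : ℤ) a := ⟨-(g 0 1), g 1 1, by linarith⟩
    have hdvd : (c : ℤ) ∣ g 1 1 - g' 1 1 := by
      have h1 : (c : ℤ) ∣ a * (g 1 1 - g' 1 1) :=
        ⟨g 0 1 - g' 0 1, by linear_combination hdet - hdet'⟩
      exact hcop.dvd_of_dvd_mul_left h1
    have heq : g 1 1 = g' 1 1 := by
      obtain ⟨t, ht⟩ := hdvd
      have h1 := Int.emod_add_mul_ediv (g 1 1 + c + 1) c
      have h2 := Int.emod_add_mul_ediv (g' 1 1 + c + 1) c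
      rw [hg3] at h1
      rw [hg3'] at h2
      have h3 := Int.emod_nonneg (g 1 1 + c + 1) hcz.ne'
      have h4 := Int.emod_lt_of_pos (g 1 1 + c + 1) hcz
      have h5 := Int.emod_nonneg (g' 1 1 + c + 1) hcz.ne'
      have h6 := Int.emod_lt_of_pos (g' 1 1 + c + 1) hcz
      have h7 : (c : ℤ) * t < c * 1 := by linarith
      have h8 : (c : ℤ) * (-1) < c * t := by linarith
      have h9 := lt_of_mul_lt_mul_left h7 hcz.le
      have h10 := lt_of_mul_lt_mul_left h8 hcz.le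
      have h11 : t = 0 := by omega
      rw [h11, mul_zero] at ht
      linarith
    have heq2 : g 0 1 = g' 0 1 := by
      rw [heq] at hdet
      have : g 0 1 * (c : ℤ) = g' 0 1 * c := by linarith
      exact mul_right_cancel₀ hcz.ne' this
    have hall : ∀ i k, g i k = g' i k := by
      intro i k
      fin_cases i <;> fin_cases k
      · exact hg2.trans hg2'.symm
      · exact heq2
      · exact hg1.trans hg1'.symm
      · exact heq
    have h1 := moeb_sub g g' hall (x := x) (x' := x') hy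
    have h2 := (hpt g x hx).1
    have h3 := (hpt g' x' hx').1
    have h4 : ‖((g • pt x y hy : ℍ) : ℂ) - ((g' • pt x' y hy : ℍ) : ℂ)‖ ≤ 2 * ε := by
      have h5 : ((g • pt x y hy : ℍ) : ℂ) - ((g' • pt x' y hy : ℍ) : ℂ) =
          (((g • pt x y hy : ℍ) : ℂ) - w) - (((g' • pt x' y hy : ℍ) : ℂ) - w) := by ring
      rw [h5]
      refine (norm_sub_le _ _).trans ?_
      linarith
    refine abs_le_of_sq_le_sq ?_ (by positivity)
    rw [h1]
    have e : (4 * ε * y / h) ^ 2 = (2 * ε) ^ 2 * ((2 * y / h) * (2 * y / h)) := by ring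
    rw [e]
    have hd1 := den_pos g x y hy
    have hd2 := den_pos g' x' y hy
    gcongr
  refine (measure_mono hsub).trans ?_
  refine (measure_biUnion_finset_le _ _).trans ?_
  have h1 : ∀ c ∈ Icc 1 M₁, volume (⋃ a ∈ Icc (-(M₂ : ℤ)) M₂, ⋃ j ∈ range 4, E c a j) ≤
      ENNReal.ofReal ((2 * M₂ + 1) * (4 * (4 * ε * y / h))) := by
    intro c hc
    refine (measure_biUnion_finset_le _ _).trans ?_
    calc ∑ a ∈ Icc (-(M₂ : ℤ)) M₂, volume (⋃ j ∈ range 4, E c a j)
        ≤ ∑ a ∈ Icc (-(M₂ : ℤ)) M₂, ∑ j ∈ range 4, ENNReal.ofReal (4 * ε * y / h) := by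
          refine sum_le_sum fun a _ => ?_
          exact (measure_biUnion_finset_le _ _).trans (sum_le_sum fun j _ => hvol c hc a j)
      _ = ENNReal.ofReal ((2 * M₂ + 1) * (4 * (4 * ε * y / h))) := by
          rw [sum_const, sum_const, Int.card_Icc, card_range, nsmul_eq_mul, nsmul_eq_mul]
          have h3 : ((M₂ : ℤ) + 1 - (-(M₂ : ℤ))).toNat = 2 * M₂ + 1 := by omega
          rw [h3, ENNReal.ofReal_mul (by positivity), ENNReal.ofReal_mul (by positivity)]
          congr 1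
          · rw [← ENNReal.ofReal_natCast]
            push_cast
            rfl
          · congr 1
            rw [← ENNReal.ofReal_natCast]
            norm_num
  refine (sum_le_sum h1).trans ?_
  rw [sum_const, Nat.card_Icc, nsmul_eq_mul, ← ENNReal.ofReal_natCast,
    ← ENNReal.ofReal_mul (Nat.cast_nonneg _)]
  refine ENNReal.ofReal_le_ofReal ?_
  have h2 : (M₁ : ℝ) ≤ C / s := Nat.floor_le (by positivity)
  have h2' : (M₂ : ℝ) ≤ A / s := Nat.floor_le (by positivity)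
  have h3 : ((M₁ + 1 - 1 : ℕ) : ℝ) = M₁ := by simp
  rw [h3]
  calc (M₁ : ℝ) * ((2 * M₂ + 1) * (4 * (4 * ε * y / h)))
      ≤ (C / s) * ((2 * (A / s) + 1 / s) * (4 * (4 * ε * y / h))) := by
        have h4 : (1 : ℝ) ≤ 1 / s := by
          rw [le_div_iff₀ hs0]
          linarith
        gcongr
    _ = (y / s ^ 2) * (16 * C * (2 * A + 1) / h * ε) := by
        field_simp
        ring
    _ = 16 * C * (2 * A + 1) / h * ε := by
        rw [hss, div_self hy.ne', one_mul]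

end Pool.Agent.MU0.Rk
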