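import Mathlib

/-!
# The compact part of the modular curve and the zeros of a cusp form (Rankin's lower bound)
-/

set_option autoImplicit false

namespace Pool.Agent.MU0

open UpperHalfPlane CongruenceSubgroup Filter Topology
open scoped MatrixGroups Modular ModularForm

/-- `‖f z‖ Im z` is invariant under `Γ₀(N)`. -/
private lemma rkz_inv {N : ℕ} [NeZero N] (f : CuspForm (Gamma0 N) 2) {g : SL(2, ℤ)}
    (hg : g ∈ Gamma0 N) (z : ℍ) : ‖f (g • z)‖ * (g • z).im = ‖f z‖ * z.im := by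
  have hg' : (Matrix.SpecialLinearGroup.mapGL ℝ g) ∈ ((Gamma0 N : Subgroup SL(2, ℤ)) :
      Subgroup (GL (Fin 2) ℝ)) := ⟨g, hg, rfl⟩
  have h := SlashInvariantFormClass.norm_petersson_smul (k := 2) (f := f) (f' := f) (τ := z) hg'
  have e : ∀ w : ℍ, ‖petersson 2 f f w‖ = (‖f w‖ * w.im) ^ 2 := by
    intro w
    simp only [petersson, norm_mul, Complex.norm_conj, norm_zpow, Complex.norm_real,
      Real.norm_of_nonneg w.im_pos.le]
    norm_cast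
    ring
  rw [e, e] at h
  have h1 : (g • z).im = ((Matrix.SpecialLinearGroup.mapGL ℝ g) • z).im := rfl
  have := (sq_eq_sq₀ (mul_nonneg (norm_nonneg _) (im_pos _).le)
    (mul_nonneg (norm_nonneg _) (im_pos _).le)).1 h
  exact this

theorem rk_zeros {N : ℕ} [NeZero N] (f : CuspForm (Gamma0 N) 2) (hf : ∃ z, f z ≠ 0) (T : ℝ) :
    ∃ S : Finset ℂ, (∀ w ∈ S, 0 < w.im) ∧ ∀ e > (0 : ℝ), ∃ c > (0 : ℝ), ∀ z : UpperHalfPlane,
      (∃ g : SL(2, ℤ), g • z ∈ ModularGroup.fd ∧ (g • z).im ≤ T) →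
      c ≤ ‖f z‖ * z.im ∨
        ∃ g ∈ Gamma0 N, ∃ w ∈ S, ‖((g • z : UpperHalfPlane) : ℂ) - w‖ < e := by
  classical
  have : Fintype (SL(2, ℤ) ⧸ Gamma0 N) := Subgroup.fintypeQuotientOfFiniteIndex
  set K : Set ℍ := ⋃ j : SL(2, ℤ) ⧸ Gamma0 N,
    (fun τ : ℍ => (j.out : SL(2, ℤ))⁻¹ • τ) '' ModularGroup.truncatedFundamentalDomain T with hKdef
  have hK : IsCompact K := by
    refine isCompact_iUnion fun j => ?_
    refine (ModularGroup.isCompact_truncatedFundamentalDomain T).image ?_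
    exact continuous_const_smul (Matrix.SpecialLinearGroup.mapGL ℝ (j.out : SL(2, ℤ))⁻¹)
  have hfc : Continuous f := (CuspFormClass.holo f).continuous
  have hZ : (K ∩ {τ : ℍ | f τ = 0}).Finite := by
    by_contra hinf
    obtain ⟨x, -, hx⟩ := Set.Infinite.exists_accPt_of_subset_isCompact hinf hK
      Set.inter_subset_left
    have h1 : ∃ᶠ y in 𝓝[≠] x, y ∈ K ∩ {τ : ℍ | f τ = 0} :=
      accPt_iff_frequently_nhdsNE.1 hx
    have h2 : ∃ᶠ y in 𝓝[≠] x, f y = 0 := h1.mono fun y hy => hy.2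
    have h3 := eq_zero_of_frequently (CuspFormClass.holo f) h2
    obtain ⟨z, hz⟩ := hf
    exact hz (congrFun h3 z)
  refine ⟨(hZ.image ((↑) : ℍ → ℂ)).toFinset, ?_, ?_⟩
  · intro w hw
    rw [Set.Finite.mem_toFinset] at hw
    obtain ⟨τ, -, rfl⟩ := hw
    exact τ.im_pos
  intro e he
  set K' : Set ℍ := K ∩ ⋂ w ∈ (hZ.image ((↑) : ℍ → ℂ)).toFinset, {τ : ℍ | e ≤ ‖(τ : ℂ) - w‖}
    with hK'def
  have hK' : IsCompact K' := by
    refine hK.inter_right ?_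
    refine isClosed_biInter fun w _ => ?_
    exact isClosed_le continuous_const (by fun_prop)
  have hpos : ∀ τ ∈ K', 0 < ‖f τ‖ * τ.im := by
    intro τ hτ
    refine mul_pos (norm_pos_iff.2 fun h0 => ?_) τ.im_pos
    have h1 := Set.mem_iInter₂.1 hτ.2 (τ : ℂ) (by
      rw [Set.Finite.mem_toFinset]
      exact ⟨τ, ⟨hτ.1, h0⟩, rfl⟩)
    simp only [Set.mem_ofPred_eq, sub_self, norm_zero] at h1
    linarith
  obtain ⟨c, hc, hcK⟩ : ∃ c > (0 : ℝ), ∀ τ ∈ K', c ≤ ‖f τ‖ * τ.im := by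
    rcases K'.eq_empty_or_nonempty with h | h
    · exact ⟨1, one_pos, fun τ hτ => by simp [h] at hτ⟩
    · obtain ⟨τ₀, hτ₀, hmin⟩ := hK'.exists_isMinOn h
        (f := fun τ : ℍ => ‖f τ‖ * τ.im) (by fun_prop)
      exact ⟨_, hpos τ₀ hτ₀, fun τ hτ => hmin hτ⟩
  refine ⟨c, hc, fun z hz => ?_⟩
  obtain ⟨g, hg, hgT⟩ := hz
  -- `g = out j * δ`
  obtain ⟨δ, hδ⟩ : ∃ δ : Gamma0 N,
      ((QuotientGroup.mk g : SL(2, ℤ) ⧸ Gamma0 N).out : SL(2, ℤ)) = g * δ :=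
    QuotientGroup.mk_out_eq_mul _ _
  have hz1 : ((δ : SL(2, ℤ))⁻¹ • z : ℍ) ∈ K := by
    refine Set.mem_iUnion.2 ⟨QuotientGroup.mk g, g • z, ⟨hg, hgT⟩, ?_⟩
    simp only
    rw [hδ, ← mul_smul, mul_inv_rev, mul_assoc, inv_mul_cancel, mul_one]
  have hδi : (δ : SL(2, ℤ))⁻¹ ∈ Gamma0 N := (Gamma0 N).inv_mem δ.2
  by_cases hex : ∃ w ∈ (hZ.image ((↑) : ℍ → ℂ)).toFinset,
      ‖(((δ : SL(2, ℤ))⁻¹ • z : UpperHalfPlane) : ℂ) - w‖ < e
  · exact Or.inr ⟨_, hδi, hex⟩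
  · left
    push Not at hex
    rw [← rkz_inv f hδi z]
    exact hcK _ ⟨hz1, Set.mem_iInter₂.2 fun w hw => hex w hw⟩

end Pool.Agent.MU0
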