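import Pool.Agent.MU0.Rk2
import Pool.Agent.MU0.RkZ
import Pool.Agent.MU0.E4b
import Pool.Agent.MU0.Defs

/-!
# Rankin's lower bound: the second moment over a horocycle
-/

set_option autoImplicit false

namespace Pool.Agent.MU0.Rk

open UpperHalfPlane CongruenceSubgroup MeasureTheory Finset
open Pool.Agent.MZ Pool.Agent.MZ.Per Pool.Agent.MU1
open scoped MatrixGroups Modular Real

theorem rk_bdd {N : ℕ} [NeZero N] (f : CuspForm (Gamma0 N) 2) {a : ℕ → ℂ}
    (ha : ∀ n, (UpperHalfPlane.qExpansion 1 f).coeff n = a n) : ∃ C₀ : ℝ, E4.Bdd a C₀ := by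
  obtain ⟨C, hC⟩ := CuspFormClass.exists_bound f
  refine ⟨C, coeff_zero f ha, fun y hy => ?_, fun x y hy => ?_⟩
  · refine (summable_coeff f ha hy).congr fun n => ?_
    congr 2
    ring
  · have hz : 0 < ((x : ℂ) + (y : ℂ) * Complex.I).im := by simpa using hy
    have h1 := hasSum_q f ha ((x : ℂ) + (y : ℂ) * Complex.I) hz
    have h2 : ∀ n : ℕ, a n * (Real.exp (-(2 * π * n * y)) : ℂ) *
        Complex.exp (2 * π * Complex.I * n * x) =
        a n * Complex.exp (2 * π * Complex.I * n * ((x : ℂ) + (y : ℂ) * Complex.I)) := by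
      intro n
      rw [mul_assoc]
      congr 1
      rw [Complex.ofReal_exp, ← Complex.exp_add]
      congr 1
      push_cast
      linear_combination (-(2 * π * n * y) : ℂ) * Complex.I_mul_I
    simp_rw [h2]
    rw [h1.tsum_eq]
    have h3 := hC (vert x y)
    norm_num at h3
    rw [im_vert hy] at h3
    exact h3

theorem norm_FL_sq (c : ℕ → ℂ) : ‖E4.FL c‖ ^ 2 =
    ∫ x in Set.Icc (0 : ℝ) 1, ‖E4.FC c (x : AddCircle (1 : ℝ))‖ ^ 2 := by
  have h1 := inner_self_eq_norm_sq_to_K (𝕜 := ℂ) (E4.FL c)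
  unfold E4.FL at h1
  rw [ContinuousMap.inner_toLp] at h1
  have h2 : ∀ t : AddCircle (1 : ℝ), E4.FC c t * (starRingEnd ℂ) (E4.FC c t) =
      ((‖E4.FC c t‖ ^ 2 : ℝ) : ℂ) := by
    intro t
    rw [Complex.mul_conj, Complex.normSq_eq_norm_sq]
  simp_rw [h2] at h1
  have h3 : ∫ t : AddCircle (1 : ℝ), ‖E4.FC c t‖ ^ 2 ∂AddCircle.haarAddCircle = ‖E4.FL c‖ ^ 2 := by
    unfold E4.FL
    have h5 := integral_ofReal (𝕜 := ℂ) (μ := (AddCircle.haarAddCircle : Measure (AddCircle (1 : ℝ))))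
      (f := fun t => ‖E4.FC c t‖ ^ 2)
    have h6 := h5.symm.trans h1
    exact_mod_cast h6
  rw [← h3]
  have h4 := AddCircle.intervalIntegral_preimage (1 : ℝ) 0 (fun t => ‖E4.FC c t‖ ^ 2)
  rw [AddCircle.volume_eq_smul_haarAddCircle, ENNReal.ofReal_one, one_smul] at h4
  rw [← h4, zero_add, intervalIntegral.integral_of_le zero_le_one, integral_Icc_eq_integral_Ioc]

/-- The second moment of a cusp form over the horocycle of height `y`. -/
theorem lower_mass {N : ℕ} [NeZero N] (f : CuspForm (Gamma0 N) 2) (hf : ∃ z, f z ≠ 0)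
    {a : ℕ → ℂ} (ha : ∀ n, (UpperHalfPlane.qExpansion 1 f).coeff n = a n) :
    ∃ c > (0 : ℝ), ∃ y₀ > (0 : ℝ), ∀ y : ℝ, 0 < y → y ≤ y₀ →
      c / y ^ 2 ≤ ∑' n : ℕ, ‖a n‖ ^ 2 * Real.exp (-(4 * π * n * y)) := by
  classical
  obtain ⟨C₀, hB⟩ := rk_bdd f ha
  obtain ⟨S, hS, hSe⟩ := rk_zeros f hf 32
  have hK : ∀ w : ℂ, ∃ K : ℝ, 0 ≤ K ∧ (0 < w.im → ∀ ε : ℝ, 0 < ε → ε ≤ w.im / 2 →
      ∀ (y : ℝ) (hy : 0 < y), y ≤ 1 → y ≤ w.im / 2 →
      volume {x : ℝ | x ∈ Set.Icc (0 : ℝ) 1 ∧ ∃ g : SL(2, ℤ),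
        ‖((g • pt x y hy : ℍ) : ℂ) - w‖ < ε} ≤ ENNReal.ofReal (K * ε)) := by
    intro w
    by_cases hw : 0 < w.im
    · obtain ⟨K, hK0, hK⟩ := bad2 hw
      exact ⟨K, hK0, fun _ => hK⟩
    · exact ⟨0, le_rfl, fun h => absurd h hw⟩
  choose K hK0 hK using hK
  obtain ⟨ε₀, hε₀, hε₀S⟩ : ∃ ε₀ > (0 : ℝ), ∀ w ∈ S, ε₀ ≤ w.im / 2 := by
    clear hSe
    induction S using Finset.induction_on with
    | empty => exact ⟨1, one_pos, by simp⟩
    | insert w S hw ih =>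
      obtain ⟨e, he, h⟩ := ih fun w hw => hS w (mem_insert_of_mem hw)
      have hwi := hS w (mem_insert_self _ _)
      refine ⟨min e (w.im / 2), lt_min he (by linarith), ?_⟩
      intro v hv
      rcases mem_insert.1 hv with rfl | hv
      · exact min_le_right _ _
      · exact (min_le_left _ _).trans (h v hv)
  set KT : ℝ := ∑ w ∈ S, K w with hKT
  have hKT0 : 0 ≤ KT := sum_nonneg fun w _ => hK0 w
  set ε : ℝ := min ε₀ (1 / (4 * (KT + 1))) with hε
  have hε0 : 0 < ε := lt_min hε₀ (by positivity)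
  obtain ⟨c, hc, hcz⟩ := hSe ε hε0
  refine ⟨c ^ 2 / 2, by positivity, min 1 ε₀, lt_min one_pos hε₀, ?_⟩
  intro y hy hy0
  have hy1 : y ≤ 1 := hy0.trans (min_le_left _ _)
  have hyε : y ≤ ε₀ := hy0.trans (min_le_right _ _)
  set cc : ℕ → ℂ := E4.A1 a y with hcc
  have hsum : Summable fun n => ‖cc n‖ := hB.summA hy
  have hval : ∀ x : ℝ, E4.FC cc (x : AddCircle (1 : ℝ)) = f (pt x y hy) := by
    intro x
    rw [E4.FC_apply hsum]
    have hz : 0 < ((x : ℂ) + (y : ℂ) * Complex.I).im := by simpa using hy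
    have h1 := hasSum_q f ha ((x : ℂ) + (y : ℂ) * Complex.I) hz
    have h2 : ∀ n : ℕ, cc n * Complex.exp (2 * π * Complex.I * n * x) =
        a n * Complex.exp (2 * π * Complex.I * n * ((x : ℂ) + (y : ℂ) * Complex.I)) := by
      intro n
      rw [hcc, E4.A1, mul_assoc]
      congr 1
      rw [Complex.ofReal_exp, ← Complex.exp_add]
      congr 1
      push_cast
      linear_combination (-(2 * π * n * y) : ℂ) * Complex.I_mul_I
    simp_rw [h2]
    rw [h1.tsum_eq]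
    congr 1
    apply UpperHalfPlane.ext
    rw [coe_pt]
    rw [UpperHalfPlane.ofComplex_apply_of_im_pos hz]
    apply Complex.ext <;> simp
  have hpars : ∑' n : ℕ, ‖a n‖ ^ 2 * Real.exp (-(4 * π * n * y)) =
      ∫ x in Set.Icc (0 : ℝ) 1, ‖f (pt x y hy)‖ ^ 2 := by
    have h1 := (E4.parseval hsum).tsum_eq
    rw [norm_FL_sq] at h1
    simp_rw [hval] at h1
    rw [← h1]
    refine tsum_congr fun n => ?_
    rw [hcc, E4.normA_sq]
  rw [hpars]
  -- the good set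
  set G : Set ℝ := {x : ℝ | c ^ 2 / y ^ 2 ≤ ‖f (pt x y hy)‖ ^ 2} with hG
  have hcover : Set.Icc (0 : ℝ) 1 ⊆ (G ∩ Set.Icc (0 : ℝ) 1) ∪
      ({x : ℝ | x ∈ Set.Icc (0 : ℝ) 1 ∧ ¬ ∃ g : SL(2, ℤ), g • pt x y hy ∈ ModularGroup.fd ∧
        (g • pt x y hy).im ≤ 32} ∪ ⋃ w ∈ S, {x : ℝ | x ∈ Set.Icc (0 : ℝ) 1 ∧ ∃ g : SL(2, ℤ),
        ‖((g • pt x y hy : ℍ) : ℂ) - w‖ < ε}) := by
    intro x hx
    by_cases h1 : ∃ g : SL(2, ℤ), g • pt x y hy ∈ ModularGroup.fd ∧ (g • pt x y hy).im ≤ 32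
    · rcases hcz (pt x y hy) h1 with h2 | ⟨g, -, w, hw, h2⟩
      · left
        refine ⟨?_, hx⟩
        have h3 : (pt x y hy).im = y := rfl
        rw [h3] at h2
        show c ^ 2 / y ^ 2 ≤ ‖f (pt x y hy)‖ ^ 2
        rw [div_le_iff₀ (by positivity), ← _root_.mul_pow]
        exact pow_le_pow_left₀ hc.le h2 2
      · right; right
        simp only [Set.mem_iUnion]
        exact ⟨w, hw, hx, g, h2⟩
    · right; left
      exact ⟨hx, h1⟩
  have hmeas : ENNReal.ofReal (1 / 2) ≤ volume (G ∩ Set.Icc (0 : ℝ) 1) := by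
    have h1 : volume (Set.Icc (0 : ℝ) 1) ≤ volume (G ∩ Set.Icc (0 : ℝ) 1) +
        (ENNReal.ofReal (8 / 32) + ENNReal.ofReal (1 / 4)) := by
      refine (measure_mono hcover).trans ((measure_union_le _ _).trans ?_)
      refine add_le_add le_rfl ((measure_union_le _ _).trans (add_le_add ?_ ?_))
      · exact bad1 (by norm_num) hy hy1
      · refine (measure_biUnion_finset_le _ _).trans ?_
        calc ∑ w ∈ S, volume {x : ℝ | x ∈ Set.Icc (0 : ℝ) 1 ∧ ∃ g : SL(2, ℤ),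
              ‖((g • pt x y hy : ℍ) : ℂ) - w‖ < ε} ≤ ∑ w ∈ S, ENNReal.ofReal (K w * ε) :=
              sum_le_sum fun w hw => hK w (hS w hw) ε hε0
                ((min_le_left _ _).trans (hε₀S w hw)) y hy hy1 (hyε.trans (hε₀S w hw))
          _ = ENNReal.ofReal (∑ w ∈ S, K w * ε) :=
              (ENNReal.ofReal_sum_of_nonneg fun w _ => mul_nonneg (hK0 w) hε0.le).symm
          _ ≤ ENNReal.ofReal (1 / 4) := by
              refine ENNReal.ofReal_le_ofReal ?_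
              rw [← sum_mul, ← hKT]
              calc KT * ε ≤ (KT + 1) * (1 / (4 * (KT + 1))) :=
                    mul_le_mul (by linarith) (min_le_right _ _) hε0.le (by linarith)
                _ = 1 / 4 := by field_simp
    rw [Real.volume_Icc, ← ENNReal.ofReal_add (by norm_num) (by norm_num)] at h1
    by_contra h2
    push Not at h2
    have h3 : volume (G ∩ Set.Icc (0 : ℝ) 1) + ENNReal.ofReal (8 / 32 + 1 / 4) <
        ENNReal.ofReal (1 / 2) + ENNReal.ofReal (8 / 32 + 1 / 4) :=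
      ENNReal.add_lt_add_right ENNReal.ofReal_ne_top h2
    rw [← ENNReal.ofReal_add (by norm_num) (by norm_num)] at h3
    have h4 := h1.trans_lt h3
    norm_num at h4
  -- Markov's inequality
  have hcont : Continuous fun x : ℝ => ‖f (pt x y hy)‖ ^ 2 := by
    have : (fun x : ℝ => ‖f (pt x y hy)‖ ^ 2) =
        fun x : ℝ => ‖E4.FC cc (x : AddCircle (1 : ℝ))‖ ^ 2 := by
      funext x
      rw [hval]
    rw [this]
    exact (((E4.FC cc).continuous.comp (AddCircle.continuous_mk' 1)).norm).pow 2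
  have hint : Integrable (fun x : ℝ => ‖f (pt x y hy)‖ ^ 2)
      (volume.restrict (Set.Icc (0 : ℝ) 1)) := hcont.integrableOn_Icc
  have hmk := mul_meas_ge_le_integral_of_nonneg (μ := volume.restrict (Set.Icc (0 : ℝ) 1))
    (f := fun x : ℝ => ‖f (pt x y hy)‖ ^ 2) (Filter.Eventually.of_forall fun x => by positivity)
    hint (c ^ 2 / y ^ 2)
  refine le_trans ?_ hmk
  have h5 : (1 / 2 : ℝ) ≤ (volume.restrict (Set.Icc (0 : ℝ) 1)).real
      {x : ℝ | c ^ 2 / y ^ 2 ≤ ‖f (pt x y hy)‖ ^ 2} := by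
    rw [measureReal_def, Measure.restrict_apply' measurableSet_Icc]
    have h6 : volume (G ∩ Set.Icc (0 : ℝ) 1) ≠ ⊤ := by
      refine ne_top_of_le_ne_top ?_ (measure_mono Set.inter_subset_right)
      rw [Real.volume_Icc]
      exact ENNReal.ofReal_ne_top
    exact (ENNReal.ofReal_le_iff_le_toReal h6).1 hmeas
  calc c ^ 2 / 2 / y ^ 2 = c ^ 2 / y ^ 2 * (1 / 2) := by ring
    _ ≤ _ := mul_le_mul_of_nonneg_left h5 (by positivity)

end Pool.Agent.MU0.Rk
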