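import Mathlib

/-!
# Sums of multiplicative functions over integers without prime factors in an interval
-/

set_option autoImplicit false

open Finset

namespace Pool.Agent.MU0.Rough

/-- A nonnegative multiplicative function with `g (l^k) ≤ (k+1)^2`. -/
structure MG (g : ℕ → ℝ) : Prop where
  nonneg : ∀ n, 0 ≤ g n
  one : g 1 = 1
  mul : ∀ m n, Nat.Coprime m n → g (m * n) = g m * g n
  pp : ∀ l k : ℕ, l.Prime → g (l ^ k) ≤ ((k : ℝ) + 1) ^ 2

/-- `∑ (k+3)^3 2^(-k)` -/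
noncomputable def AA : ℝ := ∑' k : ℕ, ((k : ℝ) + 3) ^ 3 * (1 / 2) ^ k

theorem summable_AA : Summable fun k : ℕ => ((k : ℝ) + 3) ^ 3 * (1 / 2) ^ k := by
  have h1 : Summable fun k : ℕ => (k : ℝ) ^ 3 * (1 / 2 : ℝ) ^ k :=
    summable_pow_mul_geometric_of_norm_lt_one 3 (by norm_num)
  have h2 := (summable_nat_add_iff 3).2 h1
  have h3 := h2.mul_left 8
  refine h3.congr fun k => ?_
  push_cast
  rw [pow_add]
  ring

theorem AA_nonneg : 0 ≤ AA := tsum_nonneg fun k => by positivity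

/-- the tail of the local sum -/
theorem tail_le {l : ℕ} (hl : 2 ≤ l) (K : ℕ) :
    ∑ k ∈ range K, ((k : ℝ) + 3) ^ 3 * (1 / (l : ℝ)) ^ (k + 2) ≤ AA / l ^ 2 := by
  have hl0 : (0 : ℝ) < l := by positivity
  have hl2 : (2 : ℝ) ≤ l := by exact_mod_cast hl
  calc ∑ k ∈ range K, ((k : ℝ) + 3) ^ 3 * (1 / (l : ℝ)) ^ (k + 2)
      ≤ ∑ k ∈ range K, (1 / (l : ℝ)) ^ 2 * (((k : ℝ) + 3) ^ 3 * (1 / 2) ^ k) := by
        refine sum_le_sum fun k _ => ?_
        have h1 : (1 / (l : ℝ)) ^ k ≤ (1 / 2) ^ k :=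
          pow_le_pow_left₀ (by positivity) (one_div_le_one_div_of_le (by norm_num) hl2) k
        rw [pow_add]
        have h2 : 0 ≤ ((k : ℝ) + 3) ^ 3 * (1 / (l : ℝ)) ^ 2 := by positivity
        nlinarith [mul_le_mul_of_nonneg_left h1 h2]
    _ = (1 / (l : ℝ)) ^ 2 * ∑ k ∈ range K, ((k : ℝ) + 3) ^ 3 * (1 / 2) ^ k := by
        rw [mul_sum]
    _ ≤ (1 / (l : ℝ)) ^ 2 * AA := by
        refine mul_le_mul_of_nonneg_left ?_ (by positivity)
        exact summable_AA.sum_le_tsum _ fun k _ => by positivity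
    _ = AA / l ^ 2 := by
        field_simp

/-- `∑ log n / n^2` -/
noncomputable def BB : ℝ := ∑' n : ℕ, Real.log n / (n : ℝ) ^ 2

theorem summable_BB : Summable fun n : ℕ => Real.log n / (n : ℝ) ^ 2 := by
  have h1 : Summable fun n : ℕ => 2 * (1 / (n : ℝ) ^ (3 / 2 : ℝ)) :=
    (Real.summable_one_div_nat_rpow.2 (by norm_num)).mul_left 2
  refine Summable.of_nonneg_of_le (fun n => ?_) (fun n => ?_) h1
  · exact div_nonneg (Real.log_natCast_nonneg n) (by positivity)
  · rcases Nat.eq_zero_or_pos n with rfl | hn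
    · simp
    have hn0 : (0 : ℝ) < n := by exact_mod_cast hn
    have h2 : Real.log n ≤ 2 * (n : ℝ) ^ (1 / 2 : ℝ) := by
      have h3 := Real.log_le_rpow_div hn0.le (by norm_num : (0 : ℝ) < 1 / 2)
      linarith
    have h4 : (n : ℝ) ^ 2 = (n : ℝ) ^ (1 / 2 : ℝ) * (n : ℝ) ^ (3 / 2 : ℝ) := by
      rw [← Real.rpow_add hn0, ← Real.rpow_natCast]
      norm_num
    have h5 : (0 : ℝ) < (n : ℝ) ^ (1 / 2 : ℝ) := by positivity
    have h6 : (0 : ℝ) < (n : ℝ) ^ (3 / 2 : ℝ) := by positivity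
    rw [h4]
    calc Real.log n / ((n : ℝ) ^ (1 / 2 : ℝ) * (n : ℝ) ^ (3 / 2 : ℝ))
        ≤ (2 * (n : ℝ) ^ (1 / 2 : ℝ)) / ((n : ℝ) ^ (1 / 2 : ℝ) * (n : ℝ) ^ (3 / 2 : ℝ)) := by
          gcongr
      _ = 2 * (1 / (n : ℝ) ^ (3 / 2 : ℝ)) := by field_simp

theorem BB_nonneg : 0 ≤ BB :=
  tsum_nonneg fun n => div_nonneg (Real.log_natCast_nonneg n) (by positivity)

/-- weighted sum over prime powers -/
noncomputable def PS (y : ℕ) : ℝ :=
  ∑ l ∈ (Icc 1 y).filter Nat.Prime, ∑ k ∈ (Icc 1 y).filter (fun k : ℕ => l ^ k ≤ y),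
    ((k : ℝ) + 1) ^ 2 * (k * Real.log l)

theorem PS_le (y : ℕ) : PS y ≤ (4 * Real.log 4 + AA * BB) * y := by
  have h1 : ∀ l ∈ (Icc 1 y).filter Nat.Prime,
      ∑ k ∈ (Icc 1 y).filter (fun k : ℕ => l ^ k ≤ y), ((k : ℝ) + 1) ^ 2 * (k * Real.log l) ≤
        4 * Real.log l + y * (AA * (Real.log l / (l : ℝ) ^ 2)) := by
    intro l hl
    obtain ⟨hl1, hlp⟩ := mem_filter.1 hl
    have hl2 := hlp.two_le
    have hl0 : (0 : ℝ) < l := by exact_mod_cast hlp.pos
    have hlog : 0 ≤ Real.log l := Real.log_natCast_nonneg l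
    have h2 : (Icc 1 y).filter (fun k : ℕ => l ^ k ≤ y) ⊆
        insert 1 (((range y).image (fun k : ℕ => k + 2)).filter (fun k : ℕ => l ^ k ≤ y)) := by
      intro k hk
      obtain ⟨hk1, hk2⟩ := mem_filter.1 hk
      obtain ⟨hk3, hk4⟩ := mem_Icc.1 hk1
      rw [mem_insert]
      rcases Nat.eq_or_lt_of_le hk3 with h | h
      · left; exact h.symm
      · right
        rw [mem_filter, mem_image]
        exact ⟨⟨k - 2, mem_range.2 (by omega), by omega⟩, hk2⟩
    calc ∑ k ∈ (Icc 1 y).filter (fun k : ℕ => l ^ k ≤ y), ((k : ℝ) + 1) ^ 2 * (k * Real.log l)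
        ≤ ∑ k ∈ insert 1 (((range y).image (fun k : ℕ => k + 2)).filter (fun k : ℕ => l ^ k ≤ y)),
            ((k : ℝ) + 1) ^ 2 * (k * Real.log l) :=
          sum_le_sum_of_subset_of_nonneg h2 fun k _ _ => by positivity
      _ ≤ (((1 : ℕ) : ℝ) + 1) ^ 2 * (((1 : ℕ) : ℝ) * Real.log l) +
            ∑ k ∈ ((range y).image (fun k : ℕ => k + 2)).filter (fun k : ℕ => l ^ k ≤ y),
            ((k : ℝ) + 1) ^ 2 * (k * Real.log l) := by
          rw [sum_insert]
          simp only [mem_filter, mem_image, mem_range]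
          rintro ⟨⟨k, -, hk⟩, -⟩
          omega
      _ ≤ 4 * Real.log l + ∑ k ∈ (range y).image (fun k : ℕ => k + 2),
            ((k : ℝ) + 1) ^ 2 * (k * Real.log l) * (y / (l : ℝ) ^ k) := by
          have h3 : (((1 : ℕ) : ℝ) + 1) ^ 2 * (((1 : ℕ) : ℝ) * Real.log l) = 4 * Real.log l := by
            push_cast; ring
          rw [h3]
          refine add_le_add le_rfl ?_
          refine (sum_le_sum (fun k hk => ?_)).trans
            (sum_le_sum_of_subset_of_nonneg (filter_subset _ _) fun k _ _ => by positivity)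
          have hk2 := (mem_filter.1 hk).2
          have h4 : (1 : ℝ) ≤ y / (l : ℝ) ^ k := by
            rw [le_div_iff₀ (by positivity), one_mul]
            exact_mod_cast hk2
          have h5 : 0 ≤ ((k : ℝ) + 1) ^ 2 * (k * Real.log l) := by positivity
          nlinarith [mul_le_mul_of_nonneg_left h4 h5]
      _ = 4 * Real.log l + ∑ k ∈ range y,
            (((k + 2 : ℕ) : ℝ) + 1) ^ 2 * (((k + 2 : ℕ) : ℝ) * Real.log l) *
              (y / (l : ℝ) ^ (k + 2)) := by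
          rw [sum_image]
          intro a _ b _ h
          simpa using h
      _ ≤ 4 * Real.log l + ∑ k ∈ range y,
            (y * Real.log l) * (((k : ℝ) + 3) ^ 3 * (1 / (l : ℝ)) ^ (k + 2)) := by
          refine add_le_add le_rfl (sum_le_sum fun k _ => ?_)
          push_cast
          rw [one_div_pow]
          have h6 : ((k : ℝ) + 2 + 1) ^ 2 * (((k : ℝ) + 2) * Real.log l) * (y / (l : ℝ) ^ (k + 2)) =
              (y * Real.log l) * ((((k : ℝ) + 3) ^ 2 * (k + 2)) * (1 / (l : ℝ) ^ (k + 2))) := by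
            ring
          rw [h6]
          have h7 : ((k : ℝ) + 3) ^ 2 * (k + 2) ≤ ((k : ℝ) + 3) ^ 3 := by
            have : (0 : ℝ) ≤ k := by positivity
            nlinarith [sq_nonneg ((k : ℝ) + 3)]
          gcongr
      _ = 4 * Real.log l + (y * Real.log l) *
            ∑ k ∈ range y, (((k : ℝ) + 3) ^ 3 * (1 / (l : ℝ)) ^ (k + 2)) := by
          rw [mul_sum]
      _ ≤ 4 * Real.log l + (y * Real.log l) * (AA / (l : ℝ) ^ 2) := by
          have := tail_le hl2 y
          gcongr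
      _ = _ := by ring
  unfold PS
  calc ∑ l ∈ (Icc 1 y).filter Nat.Prime, ∑ k ∈ (Icc 1 y).filter (fun k : ℕ => l ^ k ≤ y),
        ((k : ℝ) + 1) ^ 2 * (k * Real.log l)
      ≤ ∑ l ∈ (Icc 1 y).filter Nat.Prime,
          (4 * Real.log l + y * (AA * (Real.log l / (l : ℝ) ^ 2))) := sum_le_sum h1
    _ = 4 * ∑ l ∈ (Icc 1 y).filter Nat.Prime, Real.log l +
          y * (AA * ∑ l ∈ (Icc 1 y).filter Nat.Prime, (Real.log l / (l : ℝ) ^ 2)) := by
        rw [sum_add_distrib, ← mul_sum, ← mul_sum, ← mul_sum]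
    _ ≤ 4 * (Real.log 4 * y) + y * (AA * BB) := by
        have h2 : ∑ l ∈ (Icc 1 y).filter Nat.Prime, Real.log l ≤ Real.log 4 * y := by
          have h3 := Chebyshev.theta_le_log4_mul_x (x := (y : ℝ)) (Nat.cast_nonneg y)
          refine le_trans (le_of_eq ?_) h3
          unfold Chebyshev.theta
          rw [Nat.floor_natCast]
          rfl
        have h4 : ∑ l ∈ (Icc 1 y).filter Nat.Prime, (Real.log l / (l : ℝ) ^ 2) ≤ BB :=
          summable_BB.sum_le_tsum _ fun n _ =>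
            div_nonneg (Real.log_natCast_nonneg n) (by positivity)
        have := AA_nonneg
        gcongr
    _ = _ := by ring

/-- the number of prime powers: the injection `(n, l) ↦ (n / l^v, l, v)` -/
theorem sum_log {g : ℕ → ℝ} (hg : MG g) (X : ℕ) :
    ∑ n ∈ Icc 1 X, g n * Real.log n ≤ ∑ m ∈ Icc 1 X, g m * PS (X / m) := by
  have h1 : ∀ n ∈ Icc 1 X, g n * Real.log n =
      ∑ l ∈ n.primeFactors, g n * ((n.factorization l : ℝ) * Real.log l) := by
    intro n hn
    rw [Real.log_nat_eq_sum_factorization, Finsupp.sum, Nat.support_factorization, mul_sum]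
  have h2 : ∀ m ∈ Icc 1 X, g m * PS (X / m) =
      ∑ x ∈ ((Icc 1 (X / m)).filter Nat.Prime).sigma
        (fun l => (Icc 1 (X / m)).filter (fun k => l ^ k ≤ X / m)),
        g m * (((x.2 : ℝ) + 1) ^ 2 * (x.2 * Real.log x.1)) := by
    intro m _
    rw [PS, sum_sigma, mul_sum]
    refine sum_congr rfl fun l _ => ?_
    rw [mul_sum]
  rw [sum_congr rfl h1, sum_congr rfl h2, sum_sigma', sum_sigma']
  set S : Finset ((_ : ℕ) × ℕ) := (Icc 1 X).sigma fun n => n.primeFactors with hS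
  set T : Finset ((_ : ℕ) × (_ : ℕ) × ℕ) := (Icc 1 X).sigma fun m =>
    ((Icc 1 (X / m)).filter Nat.Prime).sigma
        (fun l => (Icc 1 (X / m)).filter (fun k => l ^ k ≤ X / m)) with hT
  set φ : ((_ : ℕ) × ℕ) → ((_ : ℕ) × (_ : ℕ) × ℕ) := fun x =>
    ⟨x.1 / x.2 ^ (x.1.factorization x.2), x.2, x.1.factorization x.2⟩ with hφ
  have hmem : ∀ x ∈ S, x.1 ≠ 0 ∧ x.1 ≤ X ∧ x.2.Prime ∧ x.2 ∣ x.1 := by
    intro x hx
    obtain ⟨hx1, hx2⟩ := mem_sigma.1 hx
    obtain ⟨hx3, hx4⟩ := mem_Icc.1 hx1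
    exact ⟨by omega, hx4, Nat.prime_of_mem_primeFactors hx2, Nat.dvd_of_mem_primeFactors hx2⟩
  have hinj : Set.InjOn φ S := by
    intro x hx y hy hxy
    obtain ⟨hx1, hx2, hx3, hx4⟩ := hmem x hx
    obtain ⟨hy1, hy2, hy3, hy4⟩ := hmem y hy
    obtain ⟨n, l⟩ := x
    obtain ⟨n', l'⟩ := y
    simp only [hφ, Sigma.mk.injEq, heq_eq_eq] at hxy
    simp only at hx1 hx2 hx3 hx4 hy1 hy2 hy3 hy4
    obtain ⟨e1, e2, e3⟩ := hxy
    subst e2
    have h3 := Nat.ordProj_mul_ordCompl_eq_self n l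
    have h4 := Nat.ordProj_mul_ordCompl_eq_self n' l
    have h5 : n = n' := by
      rw [← h3, ← h4, e1, e3]
    subst h5
    rfl
  have hsub : S.image φ ⊆ T := by
    intro z hz
    obtain ⟨x, hx, rfl⟩ := mem_image.1 hz
    obtain ⟨hx1, hx2, hx3, hx4⟩ := hmem x hx
    have h3 := Nat.ordProj_mul_ordCompl_eq_self x.1 x.2
    have hpos : 0 < x.1 / x.2 ^ (x.1.factorization x.2) := Nat.ordCompl_pos x.2 hx1
    have hle : x.1 / x.2 ^ (x.1.factorization x.2) ≤ X := (Nat.div_le_self _ _).trans hx2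
    have hv : 1 ≤ x.1.factorization x.2 := (hx3.dvd_iff_one_le_factorization hx1).1 hx4
    have h4 : x.2 ^ (x.1.factorization x.2) ≤ X / (x.1 / x.2 ^ (x.1.factorization x.2)) := by
      rw [Nat.le_div_iff_mul_le hpos]
      rw [h3]
      exact hx2
    have h5 : x.2 ≤ x.2 ^ (x.1.factorization x.2) := Nat.le_self_pow (by omega) _
    have h6 : x.1.factorization x.2 ≤ x.2 ^ (x.1.factorization x.2) :=
      (Nat.lt_pow_self hx3.one_lt).le
    simp only [hT, hφ, mem_sigma, mem_filter, mem_Icc]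
    exact ⟨⟨hpos, hle⟩, ⟨⟨hx3.pos, h5.trans h4⟩, hx3⟩, ⟨hv, h6.trans h4⟩, h4⟩
  calc ∑ x ∈ S, g x.1 * ((x.1.factorization x.2 : ℝ) * Real.log x.2)
      ≤ ∑ x ∈ S, g (φ x).1 * ((((φ x).2.2 : ℝ) + 1) ^ 2 * ((φ x).2.2 * Real.log (φ x).2.1)) := by
        refine sum_le_sum fun x hx => ?_
        obtain ⟨hx1, hx2, hx3, hx4⟩ := hmem x hx
        simp only [hφ]
        have h3 := Nat.ordProj_mul_ordCompl_eq_self x.1 x.2
        have hcop : Nat.Coprime (x.2 ^ (x.1.factorization x.2))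
            (x.1 / x.2 ^ (x.1.factorization x.2)) :=
          Nat.Coprime.pow_left _ (Nat.coprime_ordCompl hx3 hx1)
        have h4 : g x.1 = g (x.2 ^ (x.1.factorization x.2)) *
            g (x.1 / x.2 ^ (x.1.factorization x.2)) := by
          rw [← hg.mul _ _ hcop, h3]
        rw [h4]
        have h5 := hg.pp x.2 (x.1.factorization x.2) hx3
        have h6 := hg.nonneg (x.1 / x.2 ^ (x.1.factorization x.2))
        have h7 : 0 ≤ (x.1.factorization x.2 : ℝ) * Real.log x.2 :=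
          mul_nonneg (by positivity) (Real.log_natCast_nonneg _)
        calc g (x.2 ^ (x.1.factorization x.2)) * g (x.1 / x.2 ^ (x.1.factorization x.2)) *
              ((x.1.factorization x.2 : ℝ) * Real.log x.2)
            ≤ ((x.1.factorization x.2 : ℝ) + 1) ^ 2 * g (x.1 / x.2 ^ (x.1.factorization x.2)) *
              ((x.1.factorization x.2 : ℝ) * Real.log x.2) := by gcongr
          _ = _ := by ring
    _ = ∑ z ∈ S.image φ, g z.1 * (((z.2.2 : ℝ) + 1) ^ 2 * (z.2.2 * Real.log z.2.1)) := by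
        rw [sum_image hinj]
    _ ≤ ∑ z ∈ T, g z.1 * (((z.2.2 : ℝ) + 1) ^ 2 * (z.2.2 * Real.log z.2.1)) := by
        refine sum_le_sum_of_subset_of_nonneg hsub fun z _ _ => ?_
        have := hg.nonneg z.1
        have h7 : 0 ≤ Real.log z.2.1 := Real.log_natCast_nonneg _
        positivity

/-- the constant of Halberstam and Richert -/
noncomputable def CHR : ℝ := 4 * Real.log 4 + AA * BB + 1

theorem CHR_pos : 0 < CHR := by
  have h1 := AA_nonneg
  have h2 := BB_nonneg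
  have h3 : 0 ≤ Real.log 4 := Real.log_nonneg (by norm_num)
  unfold CHR
  positivity

/-- The inequality of Halberstam and Richert. -/
theorem halberstam_richert {g : ℕ → ℝ} (hg : MG g) {X : ℕ} (hX : 2 ≤ X) :
    ∑ n ∈ Icc 1 X, g n ≤ CHR * (X / Real.log X) * ∑ n ∈ Icc 1 X, g n / n := by
  have hX2 : (2 : ℝ) ≤ X := by exact_mod_cast hX
  have hlog : 0 < Real.log X := Real.log_pos (by linarith)
  have h1 : (∑ n ∈ Icc 1 X, g n) * Real.log X ≤ CHR * X * ∑ n ∈ Icc 1 X, g n / n := by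
    calc (∑ n ∈ Icc 1 X, g n) * Real.log X
        = ∑ n ∈ Icc 1 X, g n * Real.log n + ∑ n ∈ Icc 1 X, g n * Real.log (X / n) := by
          rw [sum_mul, ← sum_add_distrib]
          refine sum_congr rfl fun n hn => ?_
          have hn0 : (0 : ℝ) < n := by exact_mod_cast (mem_Icc.1 hn).1
          rw [Real.log_div (by positivity) hn0.ne']
          ring
      _ ≤ ∑ n ∈ Icc 1 X, g n * ((4 * Real.log 4 + AA * BB) * (X / n)) +
            ∑ n ∈ Icc 1 X, g n * (X / n) := by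
          refine add_le_add ((sum_log hg X).trans (sum_le_sum fun n hn => ?_))
            (sum_le_sum fun n hn => ?_)
          · have hn0 : (0 : ℝ) < n := by exact_mod_cast (mem_Icc.1 hn).1
            have h2 := PS_le (X / n)
            have h3 : ((X / n : ℕ) : ℝ) ≤ (X : ℝ) / n := Nat.cast_div_le
            have h4 : 0 ≤ 4 * Real.log 4 + AA * BB := by
              have h1 := AA_nonneg
              have h2 := BB_nonneg
              have h3 : 0 ≤ Real.log 4 := Real.log_nonneg (by norm_num)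
              positivity
            exact mul_le_mul_of_nonneg_left (h2.trans (mul_le_mul_of_nonneg_left h3 h4))
              (hg.nonneg n)
          · have hn0 : (0 : ℝ) < n := by exact_mod_cast (mem_Icc.1 hn).1
            refine mul_le_mul_of_nonneg_left ?_ (hg.nonneg n)
            have h2 : (0 : ℝ) < X / n := by positivity
            have := Real.log_le_sub_one_of_pos h2
            linarith
      _ = CHR * X * ∑ n ∈ Icc 1 X, g n / n := by
          rw [mul_sum, ← sum_add_distrib]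
          refine sum_congr rfl fun n hn => ?_
          unfold CHR
          ring
  calc ∑ n ∈ Icc 1 X, g n = ((∑ n ∈ Icc 1 X, g n) * Real.log X) / Real.log X := by
        field_simp
    _ ≤ (CHR * X * ∑ n ∈ Icc 1 X, g n / n) / Real.log X := by gcongr
    _ = _ := by ring

/-! ### Euler products -/

theorem MG.local_le {g : ℕ → ℝ} (hg : MG g) {l : ℕ} (hl : l.Prime) (k : ℕ) :
    g (l ^ k) / ((l ^ k : ℕ) : ℝ) ≤ ((k : ℝ) + 1) ^ 2 * (1 / (l : ℝ)) ^ k := by
  have hl0 : (0 : ℝ) < l := by exact_mod_cast hl.pos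
  push_cast
  rw [one_div_pow, div_eq_mul_one_div]
  exact mul_le_mul_of_nonneg_right (hg.pp l k hl) (by positivity)

theorem MG.summable {g : ℕ → ℝ} (hg : MG g) {l : ℕ} (hl : l.Prime) :
    Summable fun k : ℕ => ‖g (l ^ k) / ((l ^ k : ℕ) : ℝ)‖ := by
  refine Summable.of_nonneg_of_le (fun k => norm_nonneg _) (fun k => ?_) summable_AA
  rw [Real.norm_of_nonneg (div_nonneg (hg.nonneg _) (Nat.cast_nonneg _))]
  refine (hg.local_le hl k).trans ?_
  have h2 : (2 : ℝ) ≤ l := by exact_mod_cast hl.two_le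
  have h3 : (1 / (l : ℝ)) ^ k ≤ (1 / 2) ^ k :=
    pow_le_pow_left₀ (by positivity) (one_div_le_one_div_of_le (by norm_num) h2) k
  have h4 : ((k : ℝ) + 1) ^ 2 ≤ ((k : ℝ) + 3) ^ 3 := by
    have : (0 : ℝ) ≤ k := Nat.cast_nonneg k
    nlinarith [sq_nonneg ((k : ℝ) + 1), sq_nonneg (k : ℝ)]
  gcongr

theorem MG.tsum_le {g : ℕ → ℝ} (hg : MG g) {l : ℕ} (hl : l.Prime) :
    ∑' k : ℕ, g (l ^ k) / ((l ^ k : ℕ) : ℝ) ≤ 1 + (g l / l + AA / l ^ 2) := by
  have hs : Summable fun k : ℕ => g (l ^ k) / ((l ^ k : ℕ) : ℝ) := (hg.summable hl).of_norm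
  rw [← hs.sum_add_tsum_nat_add 2]
  have h1 : ∑ k ∈ range 2, g (l ^ k) / ((l ^ k : ℕ) : ℝ) = 1 + g l / l := by
    simp [sum_range_succ, hg.one]
  rw [h1, add_assoc]
  refine add_le_add le_rfl (add_le_add le_rfl ?_)
  refine Real.tsum_le_of_sum_range_le (fun k => div_nonneg (hg.nonneg _) (Nat.cast_nonneg _)) ?_
  intro K
  refine le_trans (sum_le_sum fun k _ => ?_) (tail_le hl.two_le K)
  refine (hg.local_le hl (k + 2)).trans ?_
  push_cast
  have h4 : ((k : ℝ) + 2 + 1) ^ 2 ≤ ((k : ℝ) + 3) ^ 3 := by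
    have : (0 : ℝ) ≤ k := Nat.cast_nonneg k
    nlinarith [sq_nonneg ((k : ℝ) + 3), sq_nonneg (k : ℝ)]
  gcongr

/-- `∑ 1/n^2` -/
noncomputable def DD : ℝ := ∑' n : ℕ, 1 / (n : ℝ) ^ 2

theorem summable_DD : Summable fun n : ℕ => 1 / (n : ℝ) ^ 2 :=
  Real.summable_one_div_nat_pow.2 (by norm_num)

theorem euler_le {g : ℕ → ℝ} (hg : MG g) (X : ℕ) :
    ∑ n ∈ Icc 1 X, g n / n ≤
      Real.exp (AA * DD) * Real.exp (∑ l ∈ (Icc 1 X).filter Nat.Prime, g l / l) := by
  have hmul : ∀ {m n : ℕ}, Nat.Coprime m n →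
      g (m * n) / ((m * n : ℕ) : ℝ) = g m / m * (g n / n) := by
    intro m n h
    rw [hg.mul m n h]
    push_cast
    ring
  obtain ⟨-, h2⟩ := EulerProduct.summable_and_hasSum_smoothNumbers_prod_primesBelow_tsum
    (f := fun n : ℕ => g n / (n : ℝ)) (by simp [hg.one]) hmul (fun hp => hg.summable hp) (X + 1)
  have h3 : HasSum ((Nat.smoothNumbers (X + 1) : Set ℕ).indicator fun n : ℕ => g n / (n : ℝ))
      (∏ p ∈ (X + 1).primesBelow, ∑' n : ℕ, g (p ^ n) / ((p ^ n : ℕ) : ℝ)) :=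
    hasSum_subtype_iff_indicator.1 h2
  have h4 : ∑ n ∈ Icc 1 X, g n / n ≤
      ∏ p ∈ (X + 1).primesBelow, ∑' n : ℕ, g (p ^ n) / ((p ^ n : ℕ) : ℝ) := by
    refine le_trans (le_of_eq ?_) (sum_le_hasSum (Icc 1 X) (fun n _ => ?_) h3)
    · refine sum_congr rfl fun n hn => ?_
      rw [Set.indicator_of_mem]
      obtain ⟨hn1, hn2⟩ := mem_Icc.1 hn
      exact Nat.mem_smoothNumbers_of_lt hn1 (by omega)
    · exact Set.indicator_nonneg (fun n _ => div_nonneg (hg.nonneg n) (Nat.cast_nonneg n)) n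
  have hfil : (X + 1).primesBelow = (Icc 1 X).filter Nat.Prime := by
    ext p
    simp only [Nat.mem_primesBelow, mem_filter, mem_Icc]
    constructor
    · rintro ⟨h5, h6⟩
      exact ⟨⟨h6.one_lt.le, by omega⟩, h6⟩
    · rintro ⟨⟨h5, h6⟩, h7⟩
      exact ⟨by omega, h7⟩
  rw [hfil] at h4
  refine h4.trans ?_
  calc ∏ p ∈ (Icc 1 X).filter Nat.Prime, ∑' n : ℕ, g (p ^ n) / ((p ^ n : ℕ) : ℝ)
      ≤ ∏ p ∈ (Icc 1 X).filter Nat.Prime, Real.exp (g p / p + AA / p ^ 2) := by
        refine prod_le_prod (fun p _ => tsum_nonneg fun k =>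
          div_nonneg (hg.nonneg _) (Nat.cast_nonneg _)) fun p hp => ?_
        refine (hg.tsum_le (mem_filter.1 hp).2).trans ?_
        have := Real.add_one_le_exp (g p / p + AA / (p : ℝ) ^ 2)
        linarith
    _ = Real.exp (∑ p ∈ (Icc 1 X).filter Nat.Prime, (g p / p + AA / p ^ 2)) :=
        (Real.exp_sum _ _).symm
    _ ≤ Real.exp (AA * DD + ∑ l ∈ (Icc 1 X).filter Nat.Prime, g l / l) := by
        refine Real.exp_le_exp.2 ?_
        rw [sum_add_distrib, add_comm]
        refine add_le_add ?_ le_rfl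
        have h5 : ∑ p ∈ (Icc 1 X).filter Nat.Prime, AA / (p : ℝ) ^ 2 =
            AA * ∑ p ∈ (Icc 1 X).filter Nat.Prime, 1 / (p : ℝ) ^ 2 := by
          rw [mul_sum]
          exact sum_congr rfl fun p _ => by ring
        rw [h5]
        exact mul_le_mul_of_nonneg_left
          (summable_DD.sum_le_tsum _ fun n _ => by positivity) AA_nonneg
    _ = _ := Real.exp_add _ _

/-- the sum over the primes -/
noncomputable def SP (g : ℕ → ℝ) (X : ℕ) : ℝ := ∑ l ∈ (Icc 1 X).filter Nat.Prime, g l / l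

theorem log_ge_one {X : ℕ} (hX : 3 ≤ X) : 1 ≤ Real.log X := by
  have h1 : (3 : ℝ) ≤ X := by exact_mod_cast hX
  rw [Real.le_log_iff_exp_le (by linarith)]
  have := Real.exp_one_lt_d9
  linarith

theorem prime_lower {g : ℕ → ℝ} (hg : MG g) {c C : ℝ} (hc : 0 < c)
    (h : ∀ X : ℕ, 2 ≤ X → c * Real.log X - C ≤ ∑ n ∈ Icc 1 X, g n / n) :
    ∃ C' : ℝ, ∀ X : ℕ, 3 ≤ X → Real.log (Real.log X) - C' ≤ SP g X := by
  set E : ℝ := Real.exp (AA * DD) with hE
  have hE0 : 0 < E := Real.exp_pos _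
  refine ⟨|Real.log (c / (2 * E))| + |Real.log (2 * |C| / c + 1)|, fun X hX => ?_⟩
  have hlog := log_ge_one hX
  have hSP : 0 ≤ SP g X := sum_nonneg fun l _ => div_nonneg (hg.nonneg l) (Nat.cast_nonneg l)
  have h1 := h X (by omega)
  have h2 := euler_le hg X
  rcases le_total (2 * |C| / c) (Real.log X) with h3 | h3
  · have h4 : c / 2 * Real.log X ≤ E * Real.exp (SP g X) := by
      have h5 : C ≤ c / 2 * Real.log X := by
        rw [div_le_iff₀ hc] at h3
        have := le_abs_self C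
        linarith
      have : c / 2 * Real.log X ≤ c * Real.log X - C := by linarith
      exact this.trans (h1.trans h2)
    have h5 : c / (2 * E) * Real.log X ≤ Real.exp (SP g X) := by
      have : c / (2 * E) * Real.log X = (c / 2 * Real.log X) / E := by field_simp
      rw [this, div_le_iff₀ hE0]
      linarith
    have h6 := Real.log_le_log (by positivity) h5
    rw [Real.log_exp, Real.log_mul (by positivity) (by positivity)] at h6
    have h7 := neg_abs_le (Real.log (c / (2 * E)))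
    have h8 := abs_nonneg (Real.log (2 * |C| / c + 1))
    linarith
  · have h4 : Real.log (Real.log X) ≤ Real.log (2 * |C| / c + 1) :=
      Real.log_le_log (by linarith) (by linarith)
    have h5 := le_abs_self (Real.log (2 * |C| / c + 1))
    have h6 := abs_nonneg (Real.log (c / (2 * E)))
    linarith

/-- no prime factor in `(P, Q]` -/
def Rgh (P Q n : ℕ) : Prop := ∀ l : ℕ, l.Prime → P < l → l ≤ Q → ¬ l ∣ n

theorem Rgh_mul {P Q m n : ℕ} : Rgh P Q (m * n) ↔ Rgh P Q m ∧ Rgh P Q n := by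
  constructor
  · intro h
    exact ⟨fun l hl h1 h2 h3 => h l hl h1 h2 (h3.mul_right n),
      fun l hl h1 h2 h3 => h l hl h1 h2 (h3.mul_left m)⟩
  · rintro ⟨h1, h2⟩ l hl h3 h4 h5
    rcases hl.dvd_mul.1 h5 with h | h
    · exact h1 l hl h3 h4 h
    · exact h2 l hl h3 h4 h

open Classical in
theorem MG.rgh {g : ℕ → ℝ} (hg : MG g) (P Q : ℕ) : MG fun n => if Rgh P Q n then g n else 0 where
  nonneg n := by
    split_ifs
    · exact hg.nonneg n
    · exact le_rfl
  one := by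
    rw [if_pos, hg.one]
    intro l hl _ _ h
    exact hl.one_lt.ne' (Nat.dvd_one.1 h)
  mul m n h := by
    by_cases h1 : Rgh P Q m <;> by_cases h2 : Rgh P Q n <;>
      simp [Rgh_mul, h1, h2, hg.mul m n h]
  pp l k hl := by
    split_ifs
    · exact hg.pp l k hl
    · positivity

open Classical in
/-- The sum over the integers without prime factors in `(P, Q]`. -/
theorem rough_main {g : ℕ → ℝ} (hg : MG g) {C₁ C₂ : ℝ}
    (h₁ : ∀ X : ℕ, 3 ≤ X → Real.log (Real.log X) - C₁ ≤ SP g X)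
    (h₂ : ∀ X : ℕ, 3 ≤ X → SP g X ≤ Real.log (Real.log X) + C₂) :
    ∃ C : ℝ, 0 < C ∧ ∀ P Q X : ℕ, 3 ≤ P → P < Q → Q ≤ X →
      ∑ n ∈ (Icc 1 X).filter (Rgh P Q), g n ≤ C * X * (Real.log P / Real.log Q) := by
  refine ⟨CHR * (Real.exp (AA * DD) * Real.exp (C₂ + C₂ + C₁)), ?_, ?_⟩
  · have := CHR_pos
    positivity
  intro P Q X hP hPQ hQX
  have hlP := log_ge_one hP
  have hlQ := log_ge_one (hP.trans hPQ.le)
  have hlX := log_ge_one ((hP.trans hPQ.le).trans hQX)
  set g' : ℕ → ℝ := fun n => if Rgh P Q n then g n else 0 with hg'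
  have hMG : MG g' := hg.rgh P Q
  have hP1 : ∀ l ∈ (Icc 1 X).filter Nat.Prime, g' l = if P < l ∧ l ≤ Q then 0 else g l := by
    intro l hl
    have hlp := (mem_filter.1 hl).2
    have hiff : Rgh P Q l ↔ ¬ (P < l ∧ l ≤ Q) := by
      constructor
      · intro h h3
        exact h l hlp h3.1 h3.2 dvd_rfl
      · intro h r hr h3 h4 h5
        have := (Nat.prime_dvd_prime_iff_eq hr hlp).1 h5
        subst this
        exact h ⟨h3, h4⟩
    simp only [hg', hiff]
    split_ifs <;> simp_all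
  have hsum : SP g' X + SP g Q = SP g X + SP g P := by
    have e1 : SP g' X = ∑ l ∈ ((Icc 1 X).filter Nat.Prime).filter (fun l => ¬ (P < l ∧ l ≤ Q)),
        g l / l := by
      unfold SP
      rw [sum_filter (p := fun l => ¬ (P < l ∧ l ≤ Q))]
      refine sum_congr rfl fun l hl => ?_
      rw [hP1 l hl]
      split_ifs <;> simp_all
    have e2 : SP g X = ∑ l ∈ ((Icc 1 X).filter Nat.Prime).filter (fun l => P < l ∧ l ≤ Q),
        g l / l + ∑ l ∈ ((Icc 1 X).filter Nat.Prime).filter (fun l => ¬ (P < l ∧ l ≤ Q)),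
        g l / l := by
      unfold SP
      rw [sum_filter_add_sum_filter_not]
    have e3 : SP g Q = ∑ l ∈ ((Icc 1 X).filter Nat.Prime).filter (fun l => P < l ∧ l ≤ Q),
        g l / l + SP g P := by
      unfold SP
      rw [← sum_filter_add_sum_filter_not ((Icc 1 Q).filter Nat.Prime) (fun l => P < l)]
      congr 1
      · refine sum_congr ?_ fun _ _ => rfl
        ext l
        simp only [mem_filter, mem_Icc]
        constructor
        · rintro ⟨⟨⟨h3, h4⟩, h5⟩, h6⟩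
          exact ⟨⟨⟨h3, h4.trans hQX⟩, h5⟩, h6, h4⟩
        · rintro ⟨⟨⟨h3, h4⟩, h5⟩, h6, h7⟩
          exact ⟨⟨⟨h3, h7⟩, h5⟩, h6⟩
      · refine sum_congr ?_ fun _ _ => rfl
        ext l
        simp only [mem_filter, mem_Icc, not_lt]
        constructor
        · rintro ⟨⟨⟨h3, h4⟩, h5⟩, h6⟩
          exact ⟨⟨h3, h6⟩, h5⟩
        · rintro ⟨⟨h3, h4⟩, h5⟩
          exact ⟨⟨⟨h3, h4.trans hPQ.le⟩, h5⟩, h4⟩
    linarith
  have hexp : Real.exp (SP g' X) ≤ Real.exp (C₂ + C₂ + C₁) *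
      (Real.log X * (Real.log P / Real.log Q)) := by
    have h3 := h₂ X ((hP.trans hPQ.le).trans hQX)
    have h4 := h₂ P hP
    have h5 := h₁ Q (hP.trans hPQ.le)
    have h6 : SP g' X ≤ (C₂ + C₂ + C₁) + (Real.log (Real.log X) + (Real.log (Real.log P) -
        Real.log (Real.log Q))) := by linarith
    refine (Real.exp_le_exp.2 h6).trans (le_of_eq ?_)
    rw [Real.exp_add (C₂ + C₂ + C₁), Real.exp_add (Real.log (Real.log X)), Real.exp_sub,
      Real.exp_log (by linarith), Real.exp_log (by linarith), Real.exp_log (by linarith)]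
  have hX2 : 2 ≤ X := by omega
  have hX0 : (0 : ℝ) < X := by positivity
  have hC := CHR_pos
  calc ∑ n ∈ (Icc 1 X).filter (Rgh P Q), g n = ∑ n ∈ Icc 1 X, g' n := by
        rw [sum_filter]
    _ ≤ CHR * (X / Real.log X) * ∑ n ∈ Icc 1 X, g' n / n := halberstam_richert hMG hX2
    _ ≤ CHR * (X / Real.log X) * (Real.exp (AA * DD) * Real.exp (SP g' X)) := by
        have := euler_le hMG X
        have h7 : 0 ≤ CHR * (X / Real.log X) := by positivity
        exact mul_le_mul_of_nonneg_left this h7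
    _ ≤ CHR * (X / Real.log X) * (Real.exp (AA * DD) * (Real.exp (C₂ + C₂ + C₁) *
          (Real.log X * (Real.log P / Real.log Q)))) := by gcongr
    _ = _ := by field_simp

end Pool.Agent.MU0.Rough
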