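import Pool.Agent.MU0.Top1
import Pool.Agent.MU0.Dec6

/-!
# The heights of size at least `1/q`
-/

set_option autoImplicit false

open Finset CongruenceSubgroup
open Pool.Agent.MU1
open scoped Real

namespace Pool.Agent.MU0

/-- The mean square of the sum over `H` of the values of the form at the heights of size `1/q` is
at most `p^(2 - 1/12)`. -/
theorem top {N : ℕ} [NeZero N] (f : CuspForm (Gamma0 N) 2) {a : ℕ → ℤ} (hf : Frm f a) :
    ∀ w : ℝ, 0 < w → w < 1 / 3 → ∃ p₀ : ℕ, ∀ p : ℕ, p₀ ≤ p → p.Prime →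
    ∀ (q : ℕ) [NeZero q], q = p ^ nn w p → ∀ η : ℝ, 1 / (√N * q) ≤ η →
      EE q (fun b => ‖∑ ζ ∈ HH p q, FF a η ((ζ : ZMod q) * b)‖ ^ 2) ≤
        (p : ℝ) ^ (2 - 1 / 12 : ℝ) :=
  top_of_dec f hf (dec f hf)

end Pool.Agent.MU0
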