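import Pool.Agent.MU0.Dua
import Pool.Agent.MU0.Sr

/-!
# The heights of size `1/q`: assembly from the duality inequality
-/

set_option autoImplicit false

open Finset CongruenceSubgroup
open Pool.Agent.MU1
open scoped Real

namespace Pool.Agent.MU0

theorem top_quad {X A B : ℝ} (hX : 0 ≤ X) (h : X ≤ A * √X + B) : X ≤ A ^ 2 + 2 * B := by
  have h1 : √X ^ 2 = X := Real.sq_sqrt hX
  nlinarith [sq_nonneg (A - √X)]

/-- `C (log x)^k x^s ≤ x^t` for large `x` and `s < t` -/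
theorem top_ev (C s t : ℝ) (hst : s < t) : ∃ p₀ : ℕ, ∀ p : ℕ, p₀ ≤ p →
    C * Real.log p * (p : ℝ) ^ s ≤ (p : ℝ) ^ t := by
  have h1 : (fun x : ℝ => Real.log x) =o[Filter.atTop] (fun x : ℝ => x ^ (t - s)) :=
    isLittleO_log_rpow_atTop (by linarith)
  have h2 := (h1.const_mul_left C).bound (show (0 : ℝ) < 1 by norm_num)
  obtain ⟨x₀, hx₀⟩ := Filter.eventually_atTop.1 (h2.and (Filter.eventually_gt_atTop (0 : ℝ)))
  refine ⟨⌈x₀⌉₊, fun p hp => ?_⟩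
  obtain ⟨h3, h4⟩ := hx₀ p (Nat.ceil_le.1 hp)
  rw [one_mul, Real.norm_of_nonneg (Real.rpow_nonneg h4.le _)] at h3
  have h5 : C * Real.log p ≤ (p : ℝ) ^ (t - s) := (le_abs_self _).trans h3
  calc C * Real.log p * (p : ℝ) ^ s ≤ (p : ℝ) ^ (t - s) * (p : ℝ) ^ s :=
        mul_le_mul_of_nonneg_right h5 (Real.rpow_nonneg h4.le _)
    _ = (p : ℝ) ^ t := by
        rw [← Real.rpow_add h4]
        congr 1
        ring

theorem EE_nonneg {q : ℕ} [NeZero q] {F : ZMod q → ℝ} (h : ∀ b, 0 ≤ F b) : 0 ≤ EE q F :=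
  div_nonneg (Finset.sum_nonneg fun b _ => h b) (Nat.cast_nonneg q)

/-- `top` for the heights up to `p^200 / q`, from the black boxes `sm`, `mv_block`, `dec`. -/
theorem top_mid_of {N : ℕ} [NeZero N] {a : ℕ → ℤ}
    (hsm : ∃ C : ℝ, ∀ w : ℝ, 0 < w → w < 1 / 2 → ∃ p₀ : ℕ, ∀ p : ℕ, p₀ ≤ p → p.Prime →
      ∀ (q : ℕ) [NeZero q], q = p ^ nn w p → ∀ η : ℝ, 1 / (√N * q) ≤ η → η ≤ (p : ℝ) ^ 200 / q →
      ∀ L : ℝ, (p : ℝ) ^ 160 ≤ L → L ≤ Real.exp ((p : ℝ) ^ (1 / 8 : ℝ)) →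
      ∀ S : Finset ℕ, (∀ l ∈ S, l.Prime ∧ L < l ∧ l ≤ 2 * L) →
        EE q (fun b => ‖∑ l ∈ S, (a l : ℂ) * FF a η ((l : ZMod q)⁻¹ * b)‖ ^ 2) ≤ C * L ^ 2)
    (hmv : ∃ C : ℝ, ∀ w : ℝ, 0 < w → w < 1 / 3 → ∃ p₀ : ℕ, ∀ p : ℕ, p₀ ≤ p → p.Prime →
      ∀ (q : ℕ) [NeZero q], q = p ^ nn w p → ∀ η : ℝ, 1 / (√N * q) ≤ η → η ≤ (p : ℝ) ^ 200 / q →
      ∀ L : ℝ, (p : ℝ) ^ 160 ≤ L → ∀ x : ℕ → ℝ,
      (∀ k, |x k| ≤ η * |(a k : ℝ)| * Real.exp (-(2 * π * L * k * η))) →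
      (∀ k : ℕ, (q : ℝ) < k * (p : ℝ) ^ 150 → x k = 0) →
        EE q (fun b => ‖∑ ζ ∈ HH p q, sr x ((ζ : ZMod q) * b)‖ ^ 2) ≤ C * p * Real.log p / L ^ 2)
    (hdec : ∃ C : ℝ, ∀ w : ℝ, 0 < w → w < 1 / 3 → ∃ p₀ : ℕ, ∀ p : ℕ, p₀ ≤ p → p.Prime →
      ∀ (q : ℕ) [NeZero q], q = p ^ nn w p → ∀ η : ℝ, 1 / (√N * q) ≤ η → η ≤ (p : ℝ) ^ 200 / q →
      ∃ (V : ℕ) (L : ℕ → ℝ) (S : ℕ → Finset ℕ) (x : ℕ → ℕ → ℝ) (e : ℕ → ℝ),
        (V : ℝ) ≤ (p : ℝ) ^ (2 / 5 : ℝ) ∧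
        (∀ v < V, (p : ℝ) ^ 160 ≤ L v ∧ L v ≤ Real.exp ((p : ℝ) ^ (1 / 8 : ℝ)) ∧
          (∀ l ∈ S v, l.Prime ∧ L v < l ∧ l ≤ 2 * L v) ∧
          (∀ k, |x v k| ≤ η * |(a k : ℝ)| * Real.exp (-(2 * π * L v * k * η))) ∧
          (∀ k : ℕ, (q : ℝ) < k * (p : ℝ) ^ 150 → x v k = 0)) ∧
        (∀ b : ZMod q, FF a η b =
          ∑ v ∈ range V, ∑ l ∈ S v, (a l : ℂ) * sr (x v) ((l : ZMod q) * b) + sr e b) ∧
        EE q (fun b => ‖sr e b‖ ^ 2) ≤ C * Real.log p * (p : ℝ) ^ (-(1 / 8 : ℝ))) :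
    ∀ w : ℝ, 0 < w → w < 1 / 3 → ∃ p₀ : ℕ, ∀ p : ℕ, p₀ ≤ p → p.Prime →
    ∀ (q : ℕ) [NeZero q], q = p ^ nn w p → ∀ η : ℝ, 1 / (√N * q) ≤ η → η ≤ (p : ℝ) ^ 200 / q →
      EE q (fun b => ‖∑ ζ ∈ HH p q, FF a η ((ζ : ZMod q) * b)‖ ^ 2) ≤
        (p : ℝ) ^ (2 - 1 / 12 : ℝ) := by
  intro w hw hw3
  obtain ⟨C₁, H₁⟩ := hsm
  obtain ⟨C₂, H₂⟩ := hmv
  obtain ⟨C₃, H₃⟩ := hdec
  obtain ⟨p₁, P₁⟩ := H₁ w hw (by linarith)
  obtain ⟨p₂, P₂⟩ := H₂ w hw hw3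
  obtain ⟨p₃, P₃⟩ := H₃ w hw hw3
  obtain ⟨D, hD⟩ : ∃ D : ℝ, D = √(|C₁| * |C₂|) := ⟨_, rfl⟩
  obtain ⟨p₄, P₄⟩ := top_ev (2 * |C₃|) (2 - 1 / 8) (2 - 1 / 12) (by norm_num)
  obtain ⟨p₅, P₅⟩ := top_ev (4 * D) (19 / 10) (2 - 1 / 12) (by norm_num)
  refine ⟨max (max (max p₁ p₂) (max p₃ p₄)) (max p₅ 3), fun p hp hpp q _ hq η hη hη' => ?_⟩
  simp only [max_le_iff] at hp
  obtain ⟨⟨⟨hp1, hp2⟩, hp3, hp4⟩, hp5, hp6⟩ := hp
  have hpR : (3 : ℝ) ≤ p := by exact_mod_cast hp6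
  have hp0 : (0 : ℝ) < p := by linarith
  have hlog : 1 ≤ Real.log p := by
    rw [Real.le_log_iff_exp_le hp0]
    linarith [Real.exp_one_lt_d9]
  obtain ⟨V, L, S, x, e, hV, hv, hh, he⟩ := P₃ p hp3 hpp q hq η hη hη'
  obtain ⟨X, hX⟩ : ∃ X : ℝ, X = EE q (fun b => ‖∑ ζ ∈ HH p q, FF a η ((ζ : ZMod q) * b)‖ ^ 2) :=
    ⟨_, rfl⟩
  have hX0 : 0 ≤ X := by
    rw [hX]
    exact EE_nonneg fun b => sq_nonneg _
  have hcard : ((HH p q).card : ℝ) ≤ p := by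
    have := card_HH hpp (by omega) hq
    have h6 : (HH p q).card ≤ p := this.trans (Nat.sub_le _ _)
    exact_mod_cast h6
  have hS : ∀ v < V, ∀ l ∈ S v, Nat.Coprime l q := by
    intro v hvV l hl
    obtain ⟨h1, -, h2, -, -⟩ := hv v hvV
    obtain ⟨h3, h4, -⟩ := h2 l hl
    rw [hq]
    refine Nat.Coprime.pow_right _ ((Nat.coprime_primes h3 hpp).2 ?_)
    rintro rfl
    have h5 : (l : ℝ) ≤ (l : ℝ) ^ 160 := le_self_pow₀ (by linarith) (by norm_num)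
    linarith
  have hdual := dual_ineq (p := p) (FF a η) (fun b => sr e b) V S (fun _ l => (a l : ℝ))
    (fun v => sr (x v)) hS (by
      intro b
      rw [hh b]
      push_cast
      rfl)
  rw [← hX] at hdual
  have hterm : ∀ v ∈ range V,
      √(EE q fun b => ‖∑ ζ ∈ HH p q, sr (x v) ((ζ : ZMod q) * b)‖ ^ 2) *
        √(EE q fun b => ‖∑ l ∈ S v, (((a l : ℝ)) : ℂ) * FF a η ((l : ZMod q)⁻¹ * b)‖ ^ 2) ≤
      D * √(p * Real.log p) := by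
    intro v hvV
    obtain ⟨h1, h2, h3, h4, h5⟩ := hv v (mem_range.1 hvV)
    have hL0 : 0 < L v := lt_of_lt_of_le (by positivity) h1
    have h6 := P₂ p hp2 hpp q hq η hη hη' (L v) h1 (x v) h4 h5
    have h7 := P₁ p hp1 hpp q hq η hη hη' (L v) h1 h2 (S v) h3
    have h8 : EE q (fun b => ‖∑ l ∈ S v, (((a l : ℝ)) : ℂ) * FF a η ((l : ZMod q)⁻¹ * b)‖ ^ 2) ≤
        |C₁| * L v ^ 2 := by
      refine le_trans (le_of_eq ?_) (h7.trans ?_)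
      · simp only [Complex.ofReal_intCast]
      · exact mul_le_mul_of_nonneg_right (le_abs_self _) (sq_nonneg _)
    have h9 : EE q (fun b => ‖∑ ζ ∈ HH p q, sr (x v) ((ζ : ZMod q) * b)‖ ^ 2) ≤
        |C₂| * p * Real.log p / L v ^ 2 := by
      refine h6.trans ?_
      gcongr
      exact le_abs_self _
    calc _ ≤ √(|C₂| * p * Real.log p / L v ^ 2) * √(|C₁| * L v ^ 2) :=
          mul_le_mul (Real.sqrt_le_sqrt h9) (Real.sqrt_le_sqrt h8) (Real.sqrt_nonneg _)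
            (Real.sqrt_nonneg _)
      _ = √((|C₁| * |C₂|) * (p * Real.log p)) := by
          rw [← Real.sqrt_mul (by positivity)]
          congr 1
          field_simp
      _ = D * √(p * Real.log p) := by
          rw [Real.sqrt_mul (by positivity), hD]
  have hsum : ∑ v ∈ range V, √(EE q fun b => ‖∑ ζ ∈ HH p q, sr (x v) ((ζ : ZMod q) * b)‖ ^ 2) *
        √(EE q fun b => ‖∑ l ∈ S v, (((a l : ℝ)) : ℂ) * FF a η ((l : ZMod q)⁻¹ * b)‖ ^ 2) ≤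
      (p : ℝ) ^ (2 / 5 : ℝ) * (D * √(p * Real.log p)) := by
    refine (Finset.sum_le_card_nsmul _ _ _ hterm).trans ?_
    rw [Finset.card_range, nsmul_eq_mul]
    have hD0 : 0 ≤ D := by rw [hD]; positivity
    gcongr
  have hD0 : 0 ≤ D := by rw [hD]; positivity
  obtain ⟨A, hA⟩ : ∃ A : ℝ, A = (p : ℝ) * √(|C₃| * Real.log p * (p : ℝ) ^ (-(1 / 8 : ℝ))) := ⟨_, rfl⟩
  obtain ⟨B, hB⟩ : ∃ B : ℝ, B = (p : ℝ) * ((p : ℝ) ^ (2 / 5 : ℝ) * (D * √(p * Real.log p))) :=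
    ⟨_, rfl⟩
  have hXAB : X ≤ A * √X + B := by
    refine hdual.trans (add_le_add ?_ ?_)
    · refine mul_le_mul_of_nonneg_right ?_ (Real.sqrt_nonneg _)
      rw [hA]
      refine mul_le_mul hcard (Real.sqrt_le_sqrt (he.trans ?_)) (Real.sqrt_nonneg _) hp0.le
      gcongr
      exact le_abs_self _
    · rw [hB]
      refine mul_le_mul hcard hsum ?_ hp0.le
      exact Finset.sum_nonneg fun v _ => mul_nonneg (Real.sqrt_nonneg _) (Real.sqrt_nonneg _)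
  have hfin := top_quad hX0 hXAB
  have hA2 : A ^ 2 ≤ (p : ℝ) ^ (2 - 1 / 12 : ℝ) / 2 := by
    have h1 : A ^ 2 = |C₃| * Real.log p * (p : ℝ) ^ (2 - 1 / 8 : ℝ) := by
      rw [hA, mul_pow, Real.sq_sqrt (by positivity)]
      have : (p : ℝ) ^ (2 - 1 / 8 : ℝ) = (p : ℝ) ^ 2 * (p : ℝ) ^ (-(1 / 8 : ℝ)) := by
        rw [← Real.rpow_natCast, ← Real.rpow_add hp0]
        norm_num
      rw [this]
      ring
    have h2 := P₄ p hp4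
    rw [h1]
    linarith
  have hB2 : 2 * B ≤ (p : ℝ) ^ (2 - 1 / 12 : ℝ) / 2 := by
    have h1 : B ≤ D * Real.log p * (p : ℝ) ^ (19 / 10 : ℝ) := by
      have h3 : √((p : ℝ) * Real.log p) ≤ (p : ℝ) ^ (1 / 2 : ℝ) * Real.log p := by
        rw [Real.sqrt_mul hp0.le, Real.sqrt_eq_rpow]
        gcongr
        rw [Real.sqrt_le_left (by linarith)]
        nlinarith
      calc B ≤ (p : ℝ) * ((p : ℝ) ^ (2 / 5 : ℝ) * (D * ((p : ℝ) ^ (1 / 2 : ℝ) * Real.log p))) := by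
            rw [hB]
            gcongr
        _ = D * Real.log p * ((p : ℝ) ^ (1 : ℝ) * (p : ℝ) ^ (2 / 5 : ℝ) * (p : ℝ) ^ (1 / 2 : ℝ)) := by
            rw [Real.rpow_one]
            ring
        _ = D * Real.log p * (p : ℝ) ^ (19 / 10 : ℝ) := by
            rw [← Real.rpow_add hp0, ← Real.rpow_add hp0]
            norm_num
    have h2 := P₅ p hp5
    linarith
  rw [← hX]
  linarith

end Pool.Agent.MU0
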