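import Pool.Agent.MU0.Top0
import Pool.Agent.MU0.Mvb
import Pool.Agent.MU0.Mv3

/-!
# The heights above `p^200 / q`
-/

set_option autoImplicit false

open Finset CongruenceSubgroup
open Pool.Agent.MU1
open scoped Real

namespace Pool.Agent.MU0

/-- trivial bound for the sum over `H` -/
theorem EE_HH_le {p q : ℕ} [NeZero q] (t : ZMod q → ℂ) :
    EE q (fun b => ‖∑ ζ ∈ HH p q, t ((ζ : ZMod q) * b)‖ ^ 2) ≤
      ((HH p q).card : ℝ) ^ 2 * EE q (fun b => ‖t b‖ ^ 2) := by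
  have h1 : ∀ b : ZMod q, ‖∑ ζ ∈ HH p q, t ((ζ : ZMod q) * b)‖ ^ 2 ≤
      ((HH p q).card : ℝ) * ∑ ζ ∈ HH p q, ‖t ((ζ : ZMod q) * b)‖ ^ 2 := by
    intro b
    calc ‖∑ ζ ∈ HH p q, t ((ζ : ZMod q) * b)‖ ^ 2 ≤ (∑ ζ ∈ HH p q, ‖t ((ζ : ZMod q) * b)‖) ^ 2 :=
          pow_le_pow_left₀ (norm_nonneg _) (norm_sum_le _ _) 2
      _ ≤ _ := sq_sum_le_card_mul_sum_sq
  unfold EE
  rw [← mul_div_assoc]
  refine div_le_div_of_nonneg_right ?_ (Nat.cast_nonneg q)
  calc ∑ b : ZMod q, ‖∑ ζ ∈ HH p q, t ((ζ : ZMod q) * b)‖ ^ 2 ≤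
        ∑ b : ZMod q, ((HH p q).card : ℝ) * ∑ ζ ∈ HH p q, ‖t ((ζ : ZMod q) * b)‖ ^ 2 :=
        Finset.sum_le_sum fun b _ => h1 b
    _ = ((HH p q).card : ℝ) * ∑ ζ ∈ HH p q, ∑ b : ZMod q, ‖t ((ζ : ZMod q) * b)‖ ^ 2 := by
        rw [← Finset.mul_sum, Finset.sum_comm]
    _ = ((HH p q).card : ℝ) * ∑ ζ ∈ HH p q, ∑ b : ZMod q, ‖t b‖ ^ 2 := by
        congr 1
        refine Finset.sum_congr rfl fun ζ _ => ?_
        exact sum_unit (fun b => ‖t b‖ ^ 2) ζ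
    _ = ((HH p q).card : ℝ) ^ 2 * ∑ b : ZMod q, ‖t b‖ ^ 2 := by
        rw [Finset.sum_const, nsmul_eq_mul]
        ring

theorem EE_add_le {q : ℕ} [NeZero q] (A B : ZMod q → ℂ) :
    EE q (fun b => ‖A b + B b‖ ^ 2) ≤ 2 * EE q (fun b => ‖A b‖ ^ 2) + 2 * EE q (fun b => ‖B b‖ ^ 2) := by
  unfold EE
  rw [← mul_div_assoc, ← mul_div_assoc, ← add_div, Finset.mul_sum, Finset.mul_sum,
    ← Finset.sum_add_distrib]
  refine div_le_div_of_nonneg_right (Finset.sum_le_sum fun b _ => ?_) (Nat.cast_nonneg q)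
  have h1 : ‖A b + B b‖ ≤ ‖A b‖ + ‖B b‖ := norm_add_le _ _
  have h2 : ‖A b + B b‖ ^ 2 ≤ (‖A b‖ + ‖B b‖) ^ 2 := pow_le_pow_left₀ (norm_nonneg _) h1 2
  nlinarith [sq_nonneg (‖A b‖ - ‖B b‖)]

/-- `top` for the heights above `p^200 / q` -/
theorem top_big {N : ℕ} [NeZero N] (f : CuspForm (Gamma0 N) 2) {a : ℕ → ℤ} (hf : Frm f a) :
    ∀ w : ℝ, 0 < w → w < 1 / 3 → ∃ p₀ : ℕ, ∀ p : ℕ, p₀ ≤ p → p.Prime →
    ∀ (q : ℕ) [NeZero q], q = p ^ nn w p → ∀ η : ℝ, (p : ℝ) ^ 200 / q ≤ η →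
      EE q (fun b => ‖∑ ζ ∈ HH p q, FF a η ((ζ : ZMod q) * b)‖ ^ 2) ≤
        (p : ℝ) ^ (2 - 1 / 12 : ℝ) := by
  intro w hw hw3
  obtain ⟨C₁, p₁, H₁⟩ := mv_norm
  obtain ⟨C₂, hC₂, H₂⟩ := mvb_bessel f hf.coeff
  obtain ⟨C₃, H₃⟩ := sq_exp f hf.coeff
  obtain ⟨p₂, P₂⟩ := mvb_log w hw hw3
  have hpi := Real.pi_pos
  obtain ⟨D, hD⟩ : ∃ D : ℝ, D = 2 * (|C₁| * C₂ ^ 2 + 1) + 4 * (|C₃| / π ^ 2) := ⟨_, rfl⟩
  obtain ⟨p₃, P₃⟩ := top_ev D 1 (2 - 1 / 12) (by norm_num)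
  refine ⟨max (max p₁ p₂) (max p₃ 3), fun p hp hpp q _ hq η hη => ?_⟩
  simp only [max_le_iff] at hp
  obtain ⟨⟨hp1, hp2⟩, hp3, hp4⟩ := hp
  have hpR : (3 : ℝ) ≤ p := by exact_mod_cast hp4
  have hp0 : (0 : ℝ) < p := by linarith
  have hp1' : (1 : ℝ) ≤ p := by linarith
  have hlog : 1 ≤ Real.log p := by
    rw [Real.le_log_iff_exp_le hp0]
    linarith [Real.exp_one_lt_d9]
  have hqR : (0 : ℝ) < q := by exact_mod_cast NeZero.pos q
  have hη0 : 0 < η := lt_of_lt_of_le (by positivity) hη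
  have hqη : (p : ℝ) ^ 200 ≤ q * η := by
    rw [div_le_iff₀ hqR] at hη
    linarith
  have hcard : ((HH p q).card : ℝ) ≤ p := by
    have := card_HH hpp (by omega) hq
    have h6 : (HH p q).card ≤ p := this.trans (Nat.sub_le _ _)
    exact_mod_cast h6
  obtain ⟨K, hK⟩ : ∃ K : ℕ, K = q / p ^ 150 := ⟨_, rfl⟩
  have hp150 : 0 < p ^ 150 := pow_pos hpp.pos _
  have hKq : (K : ℝ) * (p : ℝ) ^ 150 ≤ q := by
    have : K * p ^ 150 ≤ q := by
      rw [hK]
      exact Nat.div_mul_le_self _ _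
    exact_mod_cast this
  have hKη : (p : ℝ) ^ 50 ≤ (K + 1 : ℕ) * η := by
    have h1 : q < (K + 1) * p ^ 150 := by
      rw [hK, mul_comm]
      exact Nat.lt_mul_div_succ _ hp150
    have h2 : (q : ℝ) ≤ ((K + 1 : ℕ) : ℝ) * (p : ℝ) ^ 150 := by exact_mod_cast h1.le
    have h3 : (p : ℝ) ^ 50 * (p : ℝ) ^ 150 ≤ ((K + 1 : ℕ) * η) * (p : ℝ) ^ 150 := by
      calc (p : ℝ) ^ 50 * (p : ℝ) ^ 150 = (p : ℝ) ^ 200 := by rw [← pow_add]
        _ ≤ q * η := hqη
        _ ≤ (((K + 1 : ℕ) : ℝ) * (p : ℝ) ^ 150) * η := by gcongr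
        _ = _ := by ring
    exact le_of_mul_le_mul_right h3 (by positivity)
  -- the head and the tail
  obtain ⟨x, hx⟩ : ∃ x : ℕ → ℝ, x = xF a η := ⟨_, rfl⟩
  obtain ⟨xt, hxt⟩ : ∃ xt : ℕ → ℝ, xt = fun m => if K < m then x m else 0 := ⟨_, rfl⟩
  have hx0 : x 0 = 0 := by
    rw [hx]
    unfold xF
    rw [mvb_zero f hf]
    simp
  have hsq : ∀ m : ℕ, x m ^ 2 = η ^ 2 * ((a m : ℝ) ^ 2 * Real.exp (-(4 * π * m * η))) := by
    intro m
    rw [hx]
    unfold xF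
    rw [mul_pow, mul_pow, ← Real.exp_nat_mul]
    have h5 : ((2 : ℕ) : ℝ) * -(2 * π * m * η) = -(4 * π * m * η) := by
      push_cast
      ring
    rw [h5]
    ring
  have hS3 := (H₃ (3 * π * η) (by positivity)).1
  have hS1 := H₃ (π * η) (by positivity)
  have hxw : ∀ m : ℕ, x m ^ 2 * Real.exp (π * m * η) =
      η ^ 2 * ((a m : ℝ) ^ 2 * Real.exp (-(m * (3 * π * η)))) := by
    intro m
    rw [hsq, mul_assoc, mul_assoc, ← Real.exp_add]
    congr 3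
    ring
  have hxs : Summable fun m : ℕ => x m ^ 2 * Real.exp (π * m * η) := by
    simp_rw [hxw]
    exact hS3.mul_left _
  have hxts : Summable fun m : ℕ => xt m ^ 2 * Real.exp (π * m * η) := by
    refine Summable.of_nonneg_of_le (fun m => by positivity) (fun m => ?_) hxs
    rw [hxt]
    simp only
    split_ifs with h
    · exact le_refl _
    · rw [zero_pow two_ne_zero, zero_mul]
      positivity
  have hxa := sr_summable hη0 x hxs
  have hsplit : ∀ b : ZMod q, FF a η b =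
      ∑ m ∈ Icc 1 K, (x m : ℂ) * ZMod.stdAddChar ((m : ZMod q) * b) + sr xt b := by
    intro b
    have hsx : Summable fun m : ℕ => (x m : ℂ) * ZMod.stdAddChar ((m : ZMod q) * b) := by
      refine Summable.of_norm ?_
      refine hxa.congr fun m => ?_
      rw [norm_mul, sr_norm_char, mul_one, Complex.norm_real, Real.norm_eq_abs]
    have hsh : Summable fun m : ℕ => (((x m - xt m : ℝ)) : ℂ) *
        ZMod.stdAddChar ((m : ZMod q) * b) := by
      refine summable_of_ne_finset_zero (s := Icc 1 K) fun m hm => ?_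
      rw [mem_Icc, not_and_or] at hm
      rw [hxt]
      simp only
      rcases hm with hm | hm
      · have h0 : m = 0 := by omega
        rw [h0, hx0]
        simp
      · rw [if_pos (by omega)]
        simp
    have hst : Summable fun m : ℕ => (xt m : ℂ) * ZMod.stdAddChar ((m : ZMod q) * b) := by
      have := hsx.sub hsh
      refine this.congr fun m => ?_
      push_cast
      ring
    have h1 : ∑' m : ℕ, (((x m - xt m : ℝ)) : ℂ) * ZMod.stdAddChar ((m : ZMod q) * b) =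
        ∑ m ∈ Icc 1 K, (x m : ℂ) * ZMod.stdAddChar ((m : ZMod q) * b) := by
      rw [tsum_eq_sum (s := Icc 1 K)]
      · refine Finset.sum_congr rfl fun m hm => ?_
        rw [hxt]
        simp only
        rw [mem_Icc] at hm
        rw [if_neg (by omega), sub_zero]
      · intro m hm
        rw [mem_Icc, not_and_or] at hm
        rw [hxt]
        simp only
        rcases hm with hm | hm
        · have h0 : m = 0 := by omega
          rw [h0, hx0]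
          simp
        · rw [if_pos (by omega)]
          simp
    rw [← h1]
    unfold FF sr
    rw [← hsh.tsum_add hst, hx]
    refine tsum_congr fun m => ?_
    rw [← hx]
    push_cast
    ring
  -- the head
  obtain ⟨hl1, hl2⟩ := P₂ p hp2
  have hqc : (q : ℝ) = (p : ℝ) ^ nn w p := by rw [hq]; push_cast; rfl
  rw [← hqc] at hl1 hl2
  have hhead := H₁ p hp1 hpp (nn w p) q hq hl1 hl2 K hKq (fun m => (x m : ℂ)) 1 (by
    intro m hm
    have h1 := mvb_beta f hf hη0 (one_pos) (mem_Icc.1 hm).1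
    rw [Complex.norm_real, Real.norm_eq_abs, hx]
    unfold xF
    rw [abs_mul, abs_mul, abs_of_pos hη0, Real.abs_exp]
    simpa using h1)
  have hsum : ∑ m ∈ Icc 1 K, ‖(x m : ℂ)‖ ^ 2 ≤ C₂ ^ 2 := by
    have h1 := H₂ η hη0 (Icc 1 K)
    calc ∑ m ∈ Icc 1 K, ‖(x m : ℂ)‖ ^ 2 = η ^ 2 * ∑ m ∈ Icc 1 K,
          (a m : ℝ) ^ 2 * Real.exp (-(4 * π * m * η)) := by
          rw [Finset.mul_sum]
          refine Finset.sum_congr rfl fun m _ => ?_
          rw [Complex.norm_real, Real.norm_eq_abs, sq_abs, hsq]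
      _ ≤ η ^ 2 * (C₂ / η) ^ 2 := by gcongr
      _ = C₂ ^ 2 := by field_simp
  have hp5 : (p : ℝ) ^ (-(5 : ℝ)) ≤ 1 := Real.rpow_le_one_of_one_le_of_nonpos hp1' (by norm_num)
  have hhead' : EE q (fun b => ‖∑ z ∈ HH p q, ∑ m ∈ Icc 1 K, (x m : ℂ) *
        ZMod.stdAddChar ((m : ZMod q) * ((z : ZMod q) * b))‖ ^ 2) ≤
      (|C₁| * C₂ ^ 2 + 1) * Real.log p * p := by
    refine hhead.trans ?_
    have h0 : 0 ≤ ∑ m ∈ Icc 1 K, ‖(x m : ℂ)‖ ^ 2 := Finset.sum_nonneg fun _ _ => sq_nonneg _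
    calc (p : ℝ) * (C₁ * Real.log p * ∑ m ∈ Icc 1 K, ‖(x m : ℂ)‖ ^ 2 +
          1 ^ 2 * (p : ℝ) ^ (-(5 : ℝ)))
        ≤ p * (|C₁| * Real.log p * C₂ ^ 2 + 1 * Real.log p) := by
          refine mul_le_mul_of_nonneg_left (add_le_add ?_ ?_) hp0.le
          · calc C₁ * Real.log p * ∑ m ∈ Icc 1 K, ‖(x m : ℂ)‖ ^ 2 ≤
                |C₁| * Real.log p * ∑ m ∈ Icc 1 K, ‖(x m : ℂ)‖ ^ 2 := by
                  gcongr
                  exact le_abs_self _
              _ ≤ |C₁| * Real.log p * C₂ ^ 2 := by gcongr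
          · rw [one_pow]
            linarith
      _ = (|C₁| * C₂ ^ 2 + 1) * Real.log p * p := by ring
  -- the tail
  have htail : EE q (fun b => ‖sr xt b‖ ^ 2) ≤ 2 * (|C₃| / π ^ 2 * Real.exp (-p)) := by
    refine (sr_l2 hη0 xt hxts).trans ?_
    have h1 : 1 / (1 - Real.exp (-(π * q * η))) ≤ 2 := by
      have h2 : (1 : ℝ) ≤ π * q * η := by
        have h3 : (1 : ℝ) ≤ (p : ℝ) ^ 200 := one_le_pow₀ hp1'
        have h4 := Real.pi_gt_three
        nlinarith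
      have h3 : Real.exp (-(π * q * η)) ≤ 1 / 2 := by
        have h4 : Real.exp (-(π * q * η)) ≤ Real.exp (-1) := Real.exp_le_exp.2 (by linarith)
        have h5 : Real.exp (-1) ≤ 1 / 2 := by
          rw [Real.exp_neg, inv_le_comm₀ (Real.exp_pos _) (by norm_num)]
          have := Real.add_one_le_exp (1 : ℝ)
          linarith
        exact h4.trans h5
      rw [div_le_iff₀ (by linarith)]
      linarith
    have h2 : ∑' m : ℕ, xt m ^ 2 * Real.exp (π * m * η) ≤ |C₃| / π ^ 2 * Real.exp (-p) := by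
      have h3 : ∀ m : ℕ, xt m ^ 2 * Real.exp (π * m * η) ≤
          η ^ 2 * Real.exp (-p) * ((a m : ℝ) ^ 2 * Real.exp (-(m * (π * η)))) := by
        intro m
        rw [hxt]
        simp only
        split_ifs with h
        · rw [hxw]
          have h4 : Real.exp (-(m * (3 * π * η))) =
              Real.exp (-(2 * π * m * η)) * Real.exp (-(m * (π * η))) := by
            rw [← Real.exp_add]
            congr 1
            ring
          have h5 : Real.exp (-(2 * π * m * η)) ≤ Real.exp (-p) := by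
            apply Real.exp_le_exp.2
            have h6 : ((K + 1 : ℕ) : ℝ) ≤ m := by exact_mod_cast h
            have h7 : (p : ℝ) ≤ (p : ℝ) ^ 50 := le_self_pow₀ hp1' (by norm_num)
            have h8 : ((K + 1 : ℕ) : ℝ) * η ≤ m * η := by gcongr
            have h9 : (p : ℝ) ≤ m * η := by linarith
            have h10 : 0 ≤ (m : ℝ) * η := by positivity
            have := Real.pi_gt_three
            nlinarith
          rw [h4]
          calc η ^ 2 * ((a m : ℝ) ^ 2 * (Real.exp (-(2 * π * m * η)) * Real.exp (-(m * (π * η)))))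
              ≤ η ^ 2 * ((a m : ℝ) ^ 2 * (Real.exp (-p) * Real.exp (-(m * (π * η))))) := by
                gcongr
            _ = _ := by ring
        · rw [zero_pow two_ne_zero, zero_mul]
          positivity
      calc ∑' m : ℕ, xt m ^ 2 * Real.exp (π * m * η) ≤
            ∑' m : ℕ, η ^ 2 * Real.exp (-p) * ((a m : ℝ) ^ 2 * Real.exp (-(m * (π * η)))) :=
            hxts.tsum_le_tsum h3 (hS1.1.mul_left _)
        _ = η ^ 2 * Real.exp (-p) * ∑' m : ℕ, (a m : ℝ) ^ 2 * Real.exp (-(m * (π * η))) :=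
            tsum_mul_left
        _ ≤ η ^ 2 * Real.exp (-p) * (|C₃| / (π * η) ^ 2) := by
            refine mul_le_mul_of_nonneg_left (hS1.2.trans ?_) (by positivity)
            gcongr
            exact le_abs_self _
        _ = |C₃| / π ^ 2 * Real.exp (-p) := by
            field_simp
    exact mul_le_mul h1 h2 (tsum_nonneg fun m => by positivity) (by norm_num)
  -- the sum
  have hexp : (p : ℝ) * Real.exp (-p) ≤ 1 := by
    have h1 := Real.add_one_le_exp (p : ℝ)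
    have h2 := Real.exp_pos (-(p : ℝ))
    have h3 : Real.exp (p : ℝ) * Real.exp (-(p : ℝ)) = 1 := by rw [← Real.exp_add]; simp
    nlinarith
  have htail' : EE q (fun b => ‖∑ ζ ∈ HH p q, sr xt ((ζ : ZMod q) * b)‖ ^ 2) ≤
      2 * (|C₃| / π ^ 2) * Real.log p * p := by
    refine (EE_HH_le _).trans ?_
    calc ((HH p q).card : ℝ) ^ 2 * EE q (fun b => ‖sr xt b‖ ^ 2) ≤
          (p : ℝ) ^ 2 * (2 * (|C₃| / π ^ 2 * Real.exp (-p))) := by
          refine mul_le_mul (pow_le_pow_left₀ (Nat.cast_nonneg _) hcard 2) htail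
            (EE_nonneg fun b => sq_nonneg _) (by positivity)
      _ = 2 * (|C₃| / π ^ 2) * (p * (p * Real.exp (-p))) := by ring
      _ ≤ 2 * (|C₃| / π ^ 2) * (p * 1) := by gcongr
      _ ≤ 2 * (|C₃| / π ^ 2) * (p * Real.log p) := by gcongr
      _ = _ := by ring
  have hfin : EE q (fun b => ‖∑ ζ ∈ HH p q, FF a η ((ζ : ZMod q) * b)‖ ^ 2) ≤
      2 * EE q (fun b => ‖∑ z ∈ HH p q, ∑ m ∈ Icc 1 K, (x m : ℂ) *
        ZMod.stdAddChar ((m : ZMod q) * ((z : ZMod q) * b))‖ ^ 2) +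
      2 * EE q (fun b => ‖∑ ζ ∈ HH p q, sr xt ((ζ : ZMod q) * b)‖ ^ 2) := by
    have h1 := EE_add_le (fun b : ZMod q => ∑ z ∈ HH p q, ∑ m ∈ Icc 1 K, (x m : ℂ) *
        ZMod.stdAddChar ((m : ZMod q) * ((z : ZMod q) * b)))
      (fun b => ∑ ζ ∈ HH p q, sr xt ((ζ : ZMod q) * b))
    refine le_trans (le_of_eq ?_) h1
    congr 1
    funext b
    rw [← Finset.sum_add_distrib]
    congr 2
    exact Finset.sum_congr rfl fun z _ => hsplit _
  have h3 := P₃ p hp3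
  rw [Real.rpow_one] at h3
  refine hfin.trans (le_trans ?_ h3)
  rw [hD]
  nlinarith

/-- `top`, from its two parts -/
theorem top_join {N : ℕ} [NeZero N] (f : CuspForm (Gamma0 N) 2) {a : ℕ → ℤ} (hf : Frm f a)
    (h : ∀ w : ℝ, 0 < w → w < 1 / 3 → ∃ p₀ : ℕ, ∀ p : ℕ, p₀ ≤ p → p.Prime →
      ∀ (q : ℕ) [NeZero q], q = p ^ nn w p → ∀ η : ℝ, 1 / (√N * q) ≤ η → η ≤ (p : ℝ) ^ 200 / q →
        EE q (fun b => ‖∑ ζ ∈ HH p q, FF a η ((ζ : ZMod q) * b)‖ ^ 2) ≤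
          (p : ℝ) ^ (2 - 1 / 12 : ℝ)) :
    ∀ w : ℝ, 0 < w → w < 1 / 3 → ∃ p₀ : ℕ, ∀ p : ℕ, p₀ ≤ p → p.Prime →
    ∀ (q : ℕ) [NeZero q], q = p ^ nn w p → ∀ η : ℝ, 1 / (√N * q) ≤ η →
      EE q (fun b => ‖∑ ζ ∈ HH p q, FF a η ((ζ : ZMod q) * b)‖ ^ 2) ≤
        (p : ℝ) ^ (2 - 1 / 12 : ℝ) := by
  intro w hw hw3
  obtain ⟨p₁, P₁⟩ := h w hw hw3
  obtain ⟨p₂, P₂⟩ := top_big f hf w hw hw3
  refine ⟨max p₁ p₂, fun p hp hpp q _ hq η hη => ?_⟩
  rcases le_total η ((p : ℝ) ^ 200 / q) with h1 | h1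
  · exact P₁ p (le_of_max_le_left hp) hpp q hq η hη h1
  · exact P₂ p (le_of_max_le_right hp) hpp q hq η h1

end Pool.Agent.MU0
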