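import Pool.Agent.MU0.TDefs
import Pool.Agent.MU1.An1

/-!
# The top frequencies of `g = f | W` from those of `f`, by dilations
-/

set_option autoImplicit false

open Finset CongruenceSubgroup
open Pool.Agent.MZ Pool.Agent.MZ.Per Pool.Agent.MU1
open scoped Real

namespace Pool.Agent.MU0

/-- The sequence `c(m) ω(t, m)` on the `m` without divisor in `T`. -/
noncomputable def tgx (ω : ℝ → ℕ → ℝ) (c : ℕ → ℝ) (T : Finset ℕ) (t : ℝ) (m : ℕ) : ℝ :=
  if ∀ l ∈ T, ¬ l ∣ m then c m * ω t m else 0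

/-- The weights for which the dilations act on the heights. -/
def TgW (ω : ℝ → ℕ → ℝ) : Prop :=
  ∀ (t : ℝ) (s m : ℕ), 0 < t → 0 < s → ω t (s * m) = ω (s * t) m / s

/-- The sum over `Z` of the dilated series. -/
noncomputable def tgA {q : ℕ} [NeZero q] (Z : Finset (ZMod q)) (x : ℕ → ℝ) (u : ZMod q) : ℂ :=
  ∑ ζ ∈ Z, sr x (ζ * u)

theorem tg_term_norm {q : ℕ} [NeZero q] (x : ℕ → ℝ) (m : ℕ) (b : ZMod q) :
    ‖(x m : ℂ) * ZMod.stdAddChar ((m : ZMod q) * b)‖ = |x m| := by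
  rw [norm_mul, AddChar.norm_apply, mul_one, Complex.norm_real, Real.norm_eq_abs]

theorem tg_summable {q : ℕ} [NeZero q] {x : ℕ → ℝ} (hx : Summable fun m => |x m|) (b : ZMod q) :
    Summable (fun m : ℕ => (x m : ℂ) * ZMod.stdAddChar ((m : ZMod q) * b)) := by
  refine Summable.of_norm ?_
  simpa only [tg_term_norm] using hx

theorem tg_hasSum {q : ℕ} [NeZero q] {x : ℕ → ℝ} (hx : Summable fun m => |x m|) (b : ZMod q) :
    HasSum (fun m : ℕ => (x m : ℂ) * ZMod.stdAddChar ((m : ZMod q) * b)) (sr x b) :=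
  (tg_summable hx b).hasSum

/-- The absolutely convergent majorant. -/
theorem tgx_summable {ω : ℝ → ℕ → ℝ} {c : ℕ → ℝ} (hc : ∀ t > (0 : ℝ), Summable fun m : ℕ =>
    |c m * ω t m|) (T : Finset ℕ) {t : ℝ} (ht : 0 < t) :
    Summable fun m => |tgx ω c T t m| := by
  refine Summable.of_nonneg_of_le (fun m => abs_nonneg _) (fun m => ?_) (hc t ht)
  unfold tgx
  split_ifs with h
  · exact le_rfl
  · rw [abs_zero]
    positivity

/-- The dilation of a series. -/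
theorem tg_dil {q : ℕ} [NeZero q] (x : ℕ → ℝ) {s : ℕ} (hs : 0 < s) (b : ZMod q) :
    sr (fun m => if s ∣ m then x (m / s) else 0) b = sr x ((s : ZMod q) * b) := by
  unfold sr
  have hinj : Function.Injective (fun m : ℕ => s * m) := fun m m' h => Nat.eq_of_mul_eq_mul_left hs h
  rw [← hinj.tsum_eq]
  · refine tsum_congr fun m => ?_
    simp only [dvd_mul_right, if_true, Nat.mul_div_cancel_left _ hs, Nat.cast_mul]
    congr 2
    ring
  · intro m hm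
    rw [Function.mem_support] at hm
    by_cases h : s ∣ m
    · obtain ⟨k, rfl⟩ := h
      exact ⟨k, rfl⟩
    · simp [h] at hm

theorem tg_dil_summable {x : ℕ → ℝ} (hx : Summable fun m => |x m|) {s : ℕ} (hs : 0 < s) :
    Summable fun m => |if s ∣ m then x (m / s) else 0| := by
  have hinj : Function.Injective (fun m : ℕ => s * m) := fun m m' h => Nat.eq_of_mul_eq_mul_left hs h
  rw [← hinj.summable_iff]
  · refine hx.congr fun m => ?_
    simp [Nat.mul_div_cancel_left _ hs]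
  · intro m hm
    by_cases h : s ∣ m
    · obtain ⟨k, rfl⟩ := h
      exact absurd ⟨k, rfl⟩ hm
    · simp [h]

/-- Linearity. -/
theorem tg_sub_mul {q : ℕ} [NeZero q] {x y : ℕ → ℝ} (hx : Summable fun m => |x m|)
    (hy : Summable fun m => |y m|) (c : ℝ) (b : ZMod q) :
    sr (fun m => x m - c * y m) b = sr x b - c * sr y b := by
  have h1 := ((tg_hasSum hx b).sub ((tg_hasSum hy b).mul_left (c : ℂ))).tsum_eq
  rw [← h1]
  unfold sr
  refine tsum_congr fun m => ?_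
  push_cast
  ring

/-- One prime `l ∣ N` is removed. -/
theorem tg_step {N : ℕ} {a : ℕ → ℤ} (hH : HeckeAll N a)
    {ω : ℝ → ℕ → ℝ} (hω : TgW ω)
    (hc : ∀ t > (0 : ℝ), Summable fun m : ℕ => |(a m : ℝ) * ω t m|)
    {q : ℕ} [NeZero q] {T : Finset ℕ} (hT : ∀ l ∈ T, l.Prime) {l : ℕ} (hl : l.Prime) (hlN : l ∣ N)
    (hlT : l ∉ T) {t : ℝ} (ht : 0 < t) (b : ZMod q) :
    sr (tgx ω (fun m => (a m : ℝ)) (insert l T) t) b = sr (tgx ω (fun m => (a m : ℝ)) T t) b -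
      ((a l : ℝ) / l : ℝ) * sr (tgx ω (fun m => (a m : ℝ)) T (l * t)) ((l : ZMod q) * b) := by
  have hl0 : (0 : ℝ) < l := by exact_mod_cast hl.pos
  have hlt : 0 < (l : ℝ) * t := by positivity
  rw [← tg_dil _ hl.pos, ← tg_sub_mul (tgx_summable hc T ht)
    (tg_dil_summable (tgx_summable hc T hlt) hl.pos)]
  congr 1
  funext m
  by_cases h : l ∣ m
  · obtain ⟨k, rfl⟩ := h
    have h1 : ¬ ∀ l' ∈ insert l T, ¬ l' ∣ l * k := fun h2 =>
      h2 l (Finset.mem_insert_self _ _) (dvd_mul_right _ _)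
    have h2 : (∀ l' ∈ T, ¬ l' ∣ l * k) ↔ (∀ l' ∈ T, ¬ l' ∣ k) := by
      refine forall₂_congr fun l' hl' => not_congr ⟨fun h3 => ?_, fun h3 => h3.mul_left _⟩
      rcases (hT l' hl').dvd_mul.1 h3 with h4 | h4
      · exact absurd ((Nat.prime_dvd_prime_iff_eq (hT l' hl') hl).1 h4 ▸ hl') hlT
      · exact h4
    have h3 : a (l * k) = a l * a k := by
      have := hH l hl k
      rw [if_neg (fun h => h.2 hlN)] at this
      linarith
    simp only [tgx, h1, if_false, dvd_mul_right, if_true, Nat.mul_div_cancel_left _ hl.pos, h2]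
    split_ifs
    · rw [h3, hω t l k ht hl.pos]
      push_cast
      field_simp
      ring
    · simp
  · have h1 : (∀ l' ∈ insert l T, ¬ l' ∣ m) ↔ (∀ l' ∈ T, ¬ l' ∣ m) := by
      simp [h]
    simp only [tgx, h1, h, if_false, mul_zero, sub_zero]

theorem tg_EE_le {q : ℕ} [NeZero q] {F F' : ZMod q → ℝ} (h : ∀ u, F u ≤ F' u) : EE q F ≤ EE q F' :=
  div_le_div_of_nonneg_right (Finset.sum_le_sum fun u _ => h u) (Nat.cast_nonneg _)

theorem tg_EE_add {q : ℕ} [NeZero q] (F F' : ZMod q → ℝ) :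
    EE q (fun u => F u + F' u) = EE q F + EE q F' := by
  unfold EE
  rw [Finset.sum_add_distrib, add_div]

theorem tg_EE_mul {q : ℕ} [NeZero q] (c : ℝ) (F : ZMod q → ℝ) :
    EE q (fun u => c * F u) = c * EE q F := by
  unfold EE
  rw [← Finset.mul_sum, mul_div_assoc]

/-- The average is invariant under the multiplication by a unit. -/
theorem tg_EE_dil {q s : ℕ} [NeZero q] (hs : s.Coprime q) (F : ZMod q → ℝ) :
    EE q (fun u => F ((s : ZMod q) * u)) = EE q F := by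
  unfold EE
  congr 1
  have h1 : ∀ u : ZMod q, (s : ZMod q) * u = (Units.mulLeft (ZMod.unitOfCoprime s hs)) u := by
    intro u
    rw [Units.mulLeft_apply, ZMod.coe_unitOfCoprime]
  simp only [h1]
  exact Equiv.sum_comp (Units.mulLeft (ZMod.unitOfCoprime s hs)) F

/-- The sum over `Z` after the removal of one prime. -/
theorem tgA_step {N : ℕ} {a : ℕ → ℤ} (hH : HeckeAll N a)
    {ω : ℝ → ℕ → ℝ} (hω : TgW ω)
    (hc : ∀ t > (0 : ℝ), Summable fun m : ℕ => |(a m : ℝ) * ω t m|)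
    {q : ℕ} [NeZero q] (Z : Finset (ZMod q)) {T : Finset ℕ} (hT : ∀ l ∈ T, l.Prime) {l : ℕ}
    (hl : l.Prime) (hlN : l ∣ N) (hlT : l ∉ T) {t : ℝ} (ht : 0 < t) (b : ZMod q) :
    tgA Z (tgx ω (fun m => (a m : ℝ)) (insert l T) t) b =
      tgA Z (tgx ω (fun m => (a m : ℝ)) T t) b -
      ((a l : ℝ) / l : ℝ) * tgA Z (tgx ω (fun m => (a m : ℝ)) T (l * t)) ((l : ZMod q) * b) := by
  unfold tgA
  rw [Finset.mul_sum, ← Finset.sum_sub_distrib]
  refine Finset.sum_congr rfl fun ζ _ => ?_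
  rw [tg_step hH hω hc hT hl hlN hlT ht]
  congr 3
  ring

/-- Removal of all the primes of `T`. -/
theorem tg_deplete {N : ℕ} {a : ℕ → ℤ} (hH : HeckeAll N a)
    {ω : ℝ → ℕ → ℝ} (hω : TgW ω)
    (hc : ∀ t > (0 : ℝ), Summable fun m : ℕ => |(a m : ℝ) * ω t m|)
    (hb : ∀ l : ℕ, l.Prime → ((a l : ℝ) / l) ^ 2 ≤ 2)
    {q : ℕ} [NeZero q] (hq : N.Coprime q) (Z : Finset (ZMod q)) {t₀ M : ℝ} (ht₀ : 0 < t₀)
    (hM : ∀ t, t₀ ≤ t → EE q (fun u => ‖tgA Z (tgx ω (fun m => (a m : ℝ)) ∅ t) u‖ ^ 2) ≤ M)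
    (T : Finset ℕ) : T ⊆ N.primeFactors → ∀ t, t₀ ≤ t →
      EE q (fun u => ‖tgA Z (tgx ω (fun m => (a m : ℝ)) T t) u‖ ^ 2) ≤ 6 ^ T.card * M := by
  induction T using Finset.induction_on with
  | empty => intro _ t ht; simpa using hM t ht
  | insert l T hlT ih =>
    intro hT t ht
    have hT' : T ⊆ N.primeFactors := fun x hx => hT (Finset.mem_insert_of_mem hx)
    have hl := hT (Finset.mem_insert_self l T)
    have hlp : l.Prime := Nat.prime_of_mem_primeFactors hl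
    have hlN : l ∣ N := Nat.dvd_of_mem_primeFactors hl
    have ht0 : 0 < t := ht₀.trans_le ht
    have hl1 : (1 : ℝ) ≤ l := by exact_mod_cast hlp.one_lt.le
    have ih1 := ih hT' t ht
    have ih2 := ih hT' (l * t) (by nlinarith)
    have hlq : l.Coprime q := hq.coprime_dvd_left hlN
    have h1 : ∀ u, ‖tgA Z (tgx ω (fun m => (a m : ℝ)) (insert l T) t) u‖ ^ 2 ≤
        2 * ‖tgA Z (tgx ω (fun m => (a m : ℝ)) T t) u‖ ^ 2 +
        4 * ‖tgA Z (tgx ω (fun m => (a m : ℝ)) T (l * t)) ((l : ZMod q) * u)‖ ^ 2 := by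
      intro u
      rw [tgA_step hH hω hc Z (fun l' hl' => Nat.prime_of_mem_primeFactors (hT' hl')) hlp hlN hlT ht0]
      set X := tgA Z (tgx ω (fun m => (a m : ℝ)) T t) u
      set Y := tgA Z (tgx ω (fun m => (a m : ℝ)) T (l * t)) ((l : ZMod q) * u)
      have h2 : ‖X - (((a l : ℝ) / l : ℝ) : ℂ) * Y‖ ≤ ‖X‖ + |(a l : ℝ) / l| * ‖Y‖ := by
        refine (norm_sub_le _ _).trans (le_of_eq ?_)
        rw [norm_mul, Complex.norm_real, Real.norm_eq_abs]
      have h3 := hb l hlp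
      rw [← sq_abs] at h3
      have h4 : 0 ≤ ‖X - (((a l : ℝ) / l : ℝ) : ℂ) * Y‖ := norm_nonneg _
      have h5 := pow_le_pow_left₀ h4 h2 2
      have h6 := sq_nonneg (‖X‖ - |(a l : ℝ) / l| * ‖Y‖)
      have h7 := mul_le_mul_of_nonneg_right h3 (sq_nonneg ‖Y‖)
      nlinarith
    refine (tg_EE_le h1).trans ?_
    rw [tg_EE_add, tg_EE_mul, tg_EE_mul,
      tg_EE_dil hlq (fun u => ‖tgA Z (tgx ω (fun m => (a m : ℝ)) T (l * t)) u‖ ^ 2),
      Finset.card_insert_of_notMem hlT, pow_succ]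
    linarith

/-- The coefficients are multiplicative away from `N`. -/
theorem tg_mul {N : ℕ} {a : ℕ → ℤ} (ha1 : a 1 = 1) (hH : HeckeAll N a) {b : ℕ → ℝ}
    (hb : ∀ l : ℕ, l.Prime → ¬ l ∣ N → ∀ n : ℕ,
      b (l * n) + (if l ∣ n then (l : ℝ) * b (n / l) else 0) = a l * b n)
    {s : ℕ} (hs : ∀ l : ℕ, l.Prime → l ∣ s → l ∣ N) (m : ℕ) :
    m ≠ 0 → (∀ l ∈ N.primeFactors, ¬ l ∣ m) → N ≠ 0 → b (s * m) = b s * a m := by
  induction m using Nat.strong_induction_on with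
  | _ m ih =>
    intro hm hmN hN
    rcases eq_or_ne m 1 with rfl | h1
    · simp [ha1]
    · obtain ⟨l, hl, k, rfl⟩ := Nat.exists_prime_and_dvd h1
      have hk : k ≠ 0 := fun h => hm (by rw [h, mul_zero])
      have hlN : ¬ l ∣ N := fun h => hmN l (Nat.mem_primeFactors.2 ⟨hl, h, hN⟩) (dvd_mul_right _ _)
      have hls : ¬ l ∣ s := fun h => hlN (hs l hl h)
      have hkN : ∀ l' ∈ N.primeFactors, ¬ l' ∣ k := fun l' hl' h => hmN l' hl' (h.mul_left _)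
      have h2 := hb l hl hlN (s * k)
      have h3 := hH l hl k
      have h4 := ih k (by nlinarith [hl.two_le, Nat.pos_of_ne_zero hk]) hk hkN hN
      have e1 : s * (l * k) = l * (s * k) := by ring
      rw [e1]
      by_cases hlk : l ∣ k
      · obtain ⟨j, rfl⟩ := hlk
        have hj : j ≠ 0 := fun h => hk (by rw [h, mul_zero])
        have hjN : ∀ l' ∈ N.primeFactors, ¬ l' ∣ j := fun l' hl' h => hkN l' hl' (h.mul_left _)
        have hj1 : j < l * (l * j) := by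
          have hj0 := Nat.pos_of_ne_zero hj
          have h7 : j < l * j := by nlinarith [hl.two_le]
          have h8 : l * j ≤ l * (l * j) := Nat.le_mul_of_pos_left _ hl.pos
          omega
        have h5 := ih j hj1 hj hjN hN
        rw [if_pos ((dvd_mul_right l j).mul_left s), show s * (l * j) / l = s * j by
          rw [show s * (l * j) = l * (s * j) by ring, Nat.mul_div_cancel_left _ hl.pos], h5, h4] at h2
        rw [if_pos ⟨dvd_mul_right l j, hlN⟩, Nat.mul_div_cancel_left _ hl.pos] at h3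
        have h6 : (a (l * (l * j)) : ℝ) = a l * a (l * j) - l * a j := by
          have h7 : a (l * (l * j)) = a l * a (l * j) - l * a j := by linarith
          rw [h7]
          push_cast
          ring
        rw [h6]
        linear_combination h2
      · have hlk' : ¬ l ∣ s * k := fun h => (hl.dvd_mul.1 h).elim hls hlk
        rw [if_neg hlk', h4] at h2
        rw [if_neg (fun h => hlk h.1)] at h3
        have h6 : (a (l * k) : ℝ) = a l * a k := by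
          have h7 : a (l * k) = a l * a k := by linarith
          rw [h7]
          push_cast
          ring
        rw [h6]
        linear_combination h2

/-- The numbers supported on the primes of `N` and the numbers prime to `N`. -/
theorem tg_hasSum_split {N : ℕ} {E : Type*} [NormedAddCommGroup E] [CompleteSpace E]
    {F : ℕ → E} (hF0 : F 0 = 0) {z : E} (hF : HasSum F z) :
    HasSum (fun x : (Nat.factoredNumbers N.primeFactors) ×
      {m : ℕ // m ≠ 0 ∧ ∀ l ∈ N.primeFactors, ¬ l ∣ m} => F ((x.1 : ℕ) * (x.2 : ℕ))) z := by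
  set g : (Nat.factoredNumbers N.primeFactors) ×
      {m : ℕ // m ≠ 0 ∧ ∀ l ∈ N.primeFactors, ¬ l ∣ m} → ℕ := fun x => (x.1 : ℕ) * (x.2 : ℕ) with hg
  have hcop : ∀ (s : Nat.factoredNumbers N.primeFactors)
      (m : {m : ℕ // m ≠ 0 ∧ ∀ l ∈ N.primeFactors, ¬ l ∣ m}), Nat.Coprime (s : ℕ) (m : ℕ) := by
    intro s m
    refine Nat.Coprime.symm (Nat.Coprime.symm (Nat.coprime_of_dvd fun l hl h1 h2 => ?_))
    exact m.2.2 l ((Nat.mem_factoredNumbers'.1 s.2) l hl h1) h2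
  have hinj : Function.Injective g := by
    rintro ⟨s, m⟩ ⟨s', m'⟩ h
    have h0 : (s : ℕ) * m = s' * m' := h
    have h1 : (s : ℕ) ∣ s' := (hcop s m').dvd_of_dvd_mul_right (h0 ▸ dvd_mul_right _ _)
    have h2 : (s' : ℕ) ∣ s := (hcop s' m).dvd_of_dvd_mul_right (h0 ▸ dvd_mul_right _ _)
    have h3 : (s : ℕ) = s' := Nat.dvd_antisymm h1 h2
    have hs : 0 < (s : ℕ) := Nat.pos_of_ne_zero (Nat.ne_zero_of_mem_factoredNumbers s.2)
    have h4 : (m : ℕ) = m' := by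
      rw [← h3] at h0
      exact Nat.eq_of_mul_eq_mul_left hs h0
    exact Prod.ext (Subtype.ext h3) (Subtype.ext h4)
  have hsurj : ∀ n : ℕ, n ≠ 0 → n ∈ Set.range g := by
    intro n
    induction n using Nat.strong_induction_on with
    | _ n ih =>
      intro hn
      by_cases h : ∀ l ∈ N.primeFactors, ¬ l ∣ n
      · refine ⟨⟨⟨1, ?_⟩, ⟨n, hn, h⟩⟩, by simp [hg]⟩
        exact Nat.mem_factoredNumbers'.2 fun l hl h1 => absurd (Nat.dvd_one.1 h1) hl.one_lt.ne'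
      · push Not at h
        obtain ⟨l, hl, k, rfl⟩ := h
        have hlp : l.Prime := Nat.prime_of_mem_primeFactors hl
        have hk : k ≠ 0 := fun h => hn (by rw [h, mul_zero])
        obtain ⟨⟨s, m⟩, hsm⟩ := ih k (by nlinarith [hlp.two_le, Nat.pos_of_ne_zero hk]) hk
        have hsm' : (s : ℕ) * m = k := hsm
        refine ⟨⟨⟨l * s, Nat.mem_factoredNumbers'.2 fun l' hl' h1 => ?_⟩, m⟩, ?_⟩
        · rcases hl'.dvd_mul.1 h1 with h2 | h2
          · exact (Nat.prime_dvd_prime_iff_eq hl' hlp).1 h2 ▸ hl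
          · exact (Nat.mem_factoredNumbers'.1 s.2) l' hl' h2
        · show l * (s : ℕ) * (m : ℕ) = l * k
          rw [mul_assoc, hsm']
  exact (hinj.hasSum_iff (f := F) (a := z) fun n hn => by
    rcases eq_or_ne n 0 with rfl | h
    · exact hF0
    · exact absurd (hsurj n h) hn).2 hF

/-- The series of `g` as a sum of dilated series of `f` with the primes of `N` removed. -/
theorem tg_expand {N : ℕ} (hN : N ≠ 0) {a : ℕ → ℤ} (ha0 : a 0 = 0) (ha1 : a 1 = 1)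
    (hH : HeckeAll N a) {b : ℕ → ℝ} (hb0 : b 0 = 0)
    (hb : ∀ l : ℕ, l.Prime → ¬ l ∣ N → ∀ n : ℕ,
      b (l * n) + (if l ∣ n then (l : ℝ) * b (n / l) else 0) = a l * b n)
    {ω : ℝ → ℕ → ℝ} (hω : TgW ω)
    (hca : ∀ t > (0 : ℝ), Summable fun m : ℕ => |(a m : ℝ) * ω t m|)
    (hcb : ∀ t > (0 : ℝ), Summable fun m : ℕ => |b m * ω t m|)
    {q : ℕ} [NeZero q] {t : ℝ} (ht : 0 < t) (v : ZMod q) :
    HasSum (fun s : Nat.factoredNumbers N.primeFactors => ((b s / (s : ℕ) : ℝ) : ℂ) *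
      sr (tgx ω (fun m => (a m : ℝ)) N.primeFactors ((s : ℕ) * t)) (((s : ℕ) : ZMod q) * v))
      (sr (tgx ω b ∅ t) v) := by
  have h1 := tg_hasSum (tgx_summable hcb ∅ ht) v
  have h2 := tg_hasSum_split (N := N) (by simp [tgx, hb0]) h1
  refine h2.prod_fiberwise fun s => ?_
  have hs : 0 < (s : ℕ) := Nat.pos_of_ne_zero (Nat.ne_zero_of_mem_factoredNumbers s.2)
  have hsR : (0 : ℝ) < (s : ℕ) := by exact_mod_cast hs
  have h3 := (tg_hasSum (tgx_summable hca N.primeFactors (mul_pos hsR ht))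
    (((s : ℕ) : ZMod q) * v)).mul_left ((b s / (s : ℕ) : ℝ) : ℂ)
  have h4 := (hasSum_subtype_iff_of_support_subset
    (s := {m : ℕ | m ≠ 0 ∧ ∀ l ∈ N.primeFactors, ¬ l ∣ m}) ?_).2 h3
  · convert! h4 using 1
    funext m
    have hm : (m : ℕ) ≠ 0 := m.2.1
    have h5 := tg_mul ha1 hH hb (s := (s : ℕ)) (fun l hl h => by
      have := Nat.mem_factoredNumbers'.1 s.2 l hl h
      exact Nat.dvd_of_mem_primeFactors this) (m : ℕ) hm m.2.2 hN
    have h6 : ∀ l ∈ N.primeFactors, ¬ l ∣ (m : ℕ) := m.2.2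
    simp only [tgx, Function.comp_apply, Finset.notMem_empty, false_implies, implies_true, if_true,
      if_pos h6, h5, hω t s m ht hs]
    push_cast
    have h7 : ((s : ℕ) : ZMod q) * ((m : ℕ) : ZMod q) * v = ((m : ℕ) : ZMod q) * (((s : ℕ) : ZMod q) * v) := by
      ring
    rw [h7]
    have h9 : ((s : ℕ) : ℂ) ≠ 0 := by exact_mod_cast hs.ne'
    field_simp
  · intro m hm
    rw [Function.mem_support] at hm
    by_contra h
    simp only [Set.mem_ofPred_eq, not_and_or, not_not] at h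
    apply hm
    rcases h with rfl | h
    · simp [tgx, ha0]
    · simp only [tgx, if_neg h]
      simp

/-- The weights `|b(s)|/s`, `s ∣ N^∞`, are summable. -/
theorem tg_weights (N : ℕ) {b : ℕ → ℝ} {C δ : ℝ} (hδ : 0 < δ)
    (hb : ∀ m : ℕ, 1 ≤ m → |b m| ≤ C * (m : ℝ) ^ (1 - δ)) :
    Summable (fun s : Nat.factoredNumbers N.primeFactors => |b s / (s : ℕ)|) := by
  have hC : 0 ≤ C := by
    have := (abs_nonneg _).trans (hb 1 le_rfl)
    simpa using this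
  let φ : ℕ →* ℝ :=
    { toFun := fun m => (m : ℝ) ^ (-δ)
      map_one' := by simp
      map_mul' := fun x y => by
        push_cast
        exact Real.mul_rpow (Nat.cast_nonneg _) (Nat.cast_nonneg _) }
  have hφ : ∀ {p : ℕ}, p.Prime → ‖φ p‖ < 1 := by
    intro p hp
    show ‖(p : ℝ) ^ (-δ)‖ < 1
    rw [Real.norm_of_nonneg (Real.rpow_nonneg (Nat.cast_nonneg _) _)]
    exact Real.rpow_lt_one_of_one_lt_of_neg (by exact_mod_cast hp.one_lt) (by linarith)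
  have h1 := (EulerProduct.summable_and_hasSum_factoredNumbers_prod_filter_prime_geometric hφ
    N.primeFactors).1
  refine Summable.of_nonneg_of_le (fun s => abs_nonneg _) (fun s => ?_) (h1.mul_left C)
  have hs : 0 < (s : ℕ) := Nat.pos_of_ne_zero (Nat.ne_zero_of_mem_factoredNumbers s.2)
  have hsR : (0 : ℝ) < (s : ℕ) := by exact_mod_cast hs
  rw [abs_div, abs_of_pos hsR, div_le_iff₀ hsR]
  refine (hb s hs).trans ?_
  have h2 : ‖φ (s : ℕ)‖ = ((s : ℕ) : ℝ) ^ (-δ) := by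
    show ‖((s : ℕ) : ℝ) ^ (-δ)‖ = _
    rw [Real.norm_of_nonneg (Real.rpow_nonneg (Nat.cast_nonneg _) _)]
  rw [h2, mul_assoc]
  have h3 : ((s : ℕ) : ℝ) ^ (1 - δ) = ((s : ℕ) : ℝ) ^ (-δ) * (s : ℕ) := by
    rw [← Real.rpow_add_one hsR.ne']
    congr 1
    ring
  rw [h3]

/-- Cauchy-Schwarz with weights, averaged, for a finite sum. -/
theorem tg_cs {q : ℕ} [NeZero q] {ι : Type*} (F : Finset ι) (w : ι → ℝ) (A : ι → ZMod q → ℂ)
    {W M : ℝ} (hW : ∑ s ∈ F, |w s| ≤ W) (hM : ∀ s ∈ F, EE q (fun u => ‖A s u‖ ^ 2) ≤ M)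
    (hM0 : 0 ≤ M) : EE q (fun u => ‖∑ s ∈ F, (w s : ℂ) * A s u‖ ^ 2) ≤ W ^ 2 * M := by
  have hW0 : 0 ≤ ∑ s ∈ F, |w s| := Finset.sum_nonneg fun s _ => abs_nonneg _
  have h1 : ∀ u, ‖∑ s ∈ F, (w s : ℂ) * A s u‖ ^ 2 ≤ (∑ s ∈ F, |w s|) * ∑ s ∈ F, |w s| * ‖A s u‖ ^ 2 := by
    intro u
    have h2 : ‖∑ s ∈ F, (w s : ℂ) * A s u‖ ≤ ∑ s ∈ F, √|w s| * (√|w s| * ‖A s u‖) := by
      refine (norm_sum_le _ _).trans (le_of_eq (Finset.sum_congr rfl fun s _ => ?_))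
      rw [norm_mul, Complex.norm_real, Real.norm_eq_abs, ← mul_assoc,
        Real.mul_self_sqrt (abs_nonneg _)]
    have h3 := Finset.sum_mul_sq_le_sq_mul_sq F (fun s => √|w s|) (fun s => √|w s| * ‖A s u‖)
    have h4 : ∀ s, √|w s| ^ 2 = |w s| := fun s => Real.sq_sqrt (abs_nonneg _)
    simp only [_root_.mul_pow, h4] at h3
    exact (pow_le_pow_left₀ (norm_nonneg _) h2 2).trans h3
  refine (tg_EE_le h1).trans ?_
  rw [tg_EE_mul]
  have h5 : EE q (fun u => ∑ s ∈ F, |w s| * ‖A s u‖ ^ 2) = ∑ s ∈ F, |w s| * EE q (fun u => ‖A s u‖ ^ 2) := by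
    unfold EE
    rw [Finset.sum_comm, Finset.sum_div]
    refine Finset.sum_congr rfl fun s _ => ?_
    rw [← Finset.mul_sum, mul_div_assoc]
  rw [h5]
  have h6 : ∑ s ∈ F, |w s| * EE q (fun u => ‖A s u‖ ^ 2) ≤ (∑ s ∈ F, |w s|) * M := by
    rw [Finset.sum_mul]
    exact Finset.sum_le_sum fun s hs => mul_le_mul_of_nonneg_left (hM s hs) (abs_nonneg _)
  calc (∑ s ∈ F, |w s|) * ∑ s ∈ F, |w s| * EE q (fun u => ‖A s u‖ ^ 2)
      ≤ (∑ s ∈ F, |w s|) * ((∑ s ∈ F, |w s|) * M) := mul_le_mul_of_nonneg_left h6 hW0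
    _ = (∑ s ∈ F, |w s|) ^ 2 * M := by ring
    _ ≤ W ^ 2 * M := by gcongr

/-- The transfer from `a` to `b`. -/
theorem tg_core {N : ℕ} (hN : N ≠ 0) {a : ℕ → ℤ} (ha0 : a 0 = 0) (ha1 : a 1 = 1)
    (hH : HeckeAll N a) {b : ℕ → ℝ} (hb0 : b 0 = 0)
    (hb : ∀ l : ℕ, l.Prime → ¬ l ∣ N → ∀ n : ℕ,
      b (l * n) + (if l ∣ n then (l : ℝ) * b (n / l) else 0) = a l * b n)
    {ω : ℝ → ℕ → ℝ} (hω : TgW ω)
    (hca : ∀ t > (0 : ℝ), Summable fun m : ℕ => |(a m : ℝ) * ω t m|)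
    (hcb : ∀ t > (0 : ℝ), Summable fun m : ℕ => |b m * ω t m|)
    (ha2 : ∀ l : ℕ, l.Prime → ((a l : ℝ) / l) ^ 2 ≤ 2)
    (hw : Summable (fun s : Nat.factoredNumbers N.primeFactors => |b s / (s : ℕ)|))
    {q : ℕ} [NeZero q] (hq : N.Coprime q) (Z : Finset (ZMod q)) {t₀ M : ℝ} (ht₀ : 0 < t₀)
    (hM0 : 0 ≤ M)
    (hM : ∀ t, t₀ ≤ t → EE q (fun u => ‖tgA Z (tgx ω (fun m => (a m : ℝ)) ∅ t) u‖ ^ 2) ≤ M)
    (t : ℝ) (ht : t₀ ≤ t) :
    EE q (fun u => ‖tgA Z (tgx ω b ∅ t) u‖ ^ 2) ≤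
      (∑' s : Nat.factoredNumbers N.primeFactors, |b s / (s : ℕ)|) ^ 2 *
        (6 ^ N.primeFactors.card * M) := by
  have ht0 : 0 < t := ht₀.trans_le ht
  have h1 : ∀ u : ZMod q, HasSum (fun s : Nat.factoredNumbers N.primeFactors =>
      ((b s / (s : ℕ) : ℝ) : ℂ) *
        tgA Z (tgx ω (fun m => (a m : ℝ)) N.primeFactors ((s : ℕ) * t)) (((s : ℕ) : ZMod q) * u))
      (tgA Z (tgx ω b ∅ t) u) := by
    intro u
    unfold tgA
    have h2 := hasSum_sum (s := Z) (fun ζ _ => tg_expand hN ha0 ha1 hH hb0 hb hω hca hcb ht0 (ζ * u))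
    convert! h2 using 1
    funext s
    rw [Finset.mul_sum]
    refine Finset.sum_congr rfl fun ζ _ => ?_
    congr 2
    ring
  have h3 : Filter.Tendsto (fun F : Finset (Nat.factoredNumbers N.primeFactors) =>
      EE q (fun u => ‖∑ s ∈ F, ((b s / (s : ℕ) : ℝ) : ℂ) *
        tgA Z (tgx ω (fun m => (a m : ℝ)) N.primeFactors ((s : ℕ) * t)) (((s : ℕ) : ZMod q) * u)‖ ^ 2))
      Filter.atTop (nhds (EE q (fun u => ‖tgA Z (tgx ω b ∅ t) u‖ ^ 2))) := by
    unfold EE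
    refine Filter.Tendsto.div_const ?_ _
    refine tendsto_finsetSum _ fun u _ => ?_
    have h4 : Filter.Tendsto (fun F : Finset (Nat.factoredNumbers N.primeFactors) =>
      ∑ s ∈ F, ((b s / (s : ℕ) : ℝ) : ℂ) *
        tgA Z (tgx ω (fun m => (a m : ℝ)) N.primeFactors ((s : ℕ) * t)) (((s : ℕ) : ZMod q) * u))
      Filter.atTop (nhds (tgA Z (tgx ω b ∅ t) u)) := h1 u
    exact (h4.norm).pow 2
  refine le_of_tendsto h3 (Filter.Eventually.of_forall fun F => ?_)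
  refine tg_cs F (fun s => b s / (s : ℕ)) (fun s u =>
    tgA Z (tgx ω (fun m => (a m : ℝ)) N.primeFactors ((s : ℕ) * t)) (((s : ℕ) : ZMod q) * u)) ?_ ?_
    (by positivity)
  · exact hw.sum_le_tsum F fun s _ => abs_nonneg _
  · intro s _
    have hs : 0 < (s : ℕ) := Nat.pos_of_ne_zero (Nat.ne_zero_of_mem_factoredNumbers s.2)
    have hs1 : (1 : ℝ) ≤ (s : ℕ) := by exact_mod_cast hs
    have hsq : (s : ℕ).Coprime q := by
      refine Nat.coprime_of_dvd fun l hl h5 h6 => ?_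
      have h7 := Nat.dvd_of_mem_primeFactors (Nat.mem_factoredNumbers'.1 s.2 l hl h5)
      exact Nat.not_coprime_of_dvd_of_dvd hl.one_lt h7 h6 hq
    rw [tg_EE_dil hsq (fun u => ‖tgA Z (tgx ω (fun m => (a m : ℝ)) N.primeFactors ((s : ℕ) * t)) u‖ ^ 2)]
    exact tg_deplete hH hω hca ha2 hq Z ht₀ hM N.primeFactors subset_rfl _ (by nlinarith)

/-- The series of a cusp form converge absolutely. -/
theorem tg_abs {N : ℕ} [NeZero N] (g : CuspForm (Gamma0 N) 2) {b : ℕ → ℝ}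
    (hb : ∀ n, (UpperHalfPlane.qExpansion 1 g).coeff n = b n) (t : ℝ) (ht : 0 < t) :
    Summable fun m : ℕ => |b m| * Real.exp (-(2 * π * m * t)) := by
  refine (summable_coeff g (a := fun n => (b n : ℂ)) hb ht).congr fun m => ?_
  rw [Complex.norm_real, Real.norm_eq_abs]
  congr 2
  ring

theorem tg_image {p q : ℕ} [NeZero q] (x : ℕ → ℝ) (u : ZMod q) :
    tgA ((HH p q).image fun ζ : (ZMod q)ˣ => (ζ : ZMod q)) x u =
      ∑ ζ ∈ HH p q, sr x ((ζ : ZMod q) * u) := by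
  unfold tgA
  exact Finset.sum_image fun ζ _ ζ' _ h => Units.ext h

/-- The weight of the module TOP. -/
noncomputable def tgT (t : ℝ) (m : ℕ) : ℝ := t * Real.exp (-(2 * π * m * t))

/-- The weight of the module LOW. -/
noncomputable def tgL (t : ℝ) (m : ℕ) : ℝ := 1 / m * Real.exp (-(2 * π * m * t))

theorem tgT_W : TgW tgT := by
  intro t s m ht hs
  have hsR : (s : ℝ) ≠ 0 := by exact_mod_cast hs.ne'
  unfold tgT
  push_cast
  have h4 : -(2 * π * (s * m) * t) = -(2 * π * m * (s * t)) := by ring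
  rw [h4]
  field_simp

theorem tgL_W : TgW tgL := by
  intro t s m ht hs
  have hsR : (s : ℝ) ≠ 0 := by exact_mod_cast hs.ne'
  unfold tgL
  push_cast
  have h4 : -(2 * π * (s * m) * t) = -(2 * π * m * (s * t)) := by ring
  rw [h4]
  rcases Nat.eq_zero_or_pos m with rfl | hm
  · simp
  · have hmR : (m : ℝ) ≠ 0 := by exact_mod_cast hm.ne'
    field_simp

theorem tgT_abs {N : ℕ} [NeZero N] (g : CuspForm (Gamma0 N) 2) {b : ℕ → ℝ}
    (hb : ∀ n, (UpperHalfPlane.qExpansion 1 g).coeff n = b n) (t : ℝ) (ht : 0 < t) :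
    Summable fun m : ℕ => |b m * tgT t m| := by
  refine ((tg_abs g hb t ht).mul_left t).congr fun m => ?_
  unfold tgT
  rw [abs_mul, abs_mul, abs_of_pos ht, abs_of_pos (Real.exp_pos _)]
  ring

theorem tgL_abs {N : ℕ} [NeZero N] (g : CuspForm (Gamma0 N) 2) {b : ℕ → ℝ}
    (hb : ∀ n, (UpperHalfPlane.qExpansion 1 g).coeff n = b n) (t : ℝ) (ht : 0 < t) :
    Summable fun m : ℕ => |b m * tgL t m| := by
  refine Summable.of_nonneg_of_le (fun m => abs_nonneg _) (fun m => ?_) (tg_abs g hb t ht)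
  unfold tgL
  rw [abs_mul, abs_mul, abs_of_pos (Real.exp_pos _)]
  have h1 : |1 / (m : ℝ)| ≤ 1 := by
    rcases Nat.eq_zero_or_pos m with rfl | hm
    · simp
    · have hm1 : (1 : ℝ) ≤ m := by exact_mod_cast hm
      rw [abs_of_pos (by positivity), div_le_one (by linarith)]
      exact hm1
  have h2 : |1 / (m : ℝ)| * Real.exp (-(2 * π * m * t)) ≤ 1 * Real.exp (-(2 * π * m * t)) :=
    mul_le_mul_of_nonneg_right h1 (Real.exp_pos _).le
  rw [one_mul] at h2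
  exact mul_le_mul_of_nonneg_left h2 (abs_nonneg _)

/-- The transfer from `f` to `g` for any admissible weight. -/
theorem tg_transfer {N : ℕ} [NeZero N] (f g : CuspForm (Gamma0 N) 2) {b : ℕ → ℝ} {a : ℕ → ℤ}
    (hf : Frm f a) (hg : Eig g b a)
    (hcb : ∃ C δ : ℝ, 0 < δ ∧ ∀ m : ℕ, 1 ≤ m → |b m| ≤ C * (m : ℝ) ^ (1 - δ))
    {ω : ℝ → ℕ → ℝ} (hω : TgW ω) (hωa : ∀ t > (0 : ℝ), Summable fun m : ℕ => |(a m : ℝ) * ω t m|)
    (hωb : ∀ t > (0 : ℝ), Summable fun m : ℕ => |b m * ω t m|) :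
    ∃ C : ℝ, 0 ≤ C ∧ ∀ (p q : ℕ) [NeZero q], N.Coprime q → ∀ t₀ M : ℝ, 0 < t₀ →
      (∀ t, t₀ ≤ t → EE q (fun u => ‖∑ ζ ∈ HH p q,
        sr (fun m => (a m : ℝ) * ω t m) ((ζ : ZMod q) * u)‖ ^ 2) ≤ M) →
      ∀ t, t₀ ≤ t → EE q (fun u => ‖∑ ζ ∈ HH p q,
        sr (fun m => b m * ω t m) ((ζ : ZMod q) * u)‖ ^ 2) ≤ C * M := by
  obtain ⟨C₁, δ, hδ, hC₁⟩ := hcb
  have hw := tg_weights N hδ hC₁
  have hN : N ≠ 0 := NeZero.ne N
  have ha0 : a 0 = 0 := by
    have := coeff_zero f (a := fun n => (a n : ℂ)) hf.coeff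
    exact_mod_cast this
  have hb0 : b 0 = 0 := by
    have := coeff_zero g (a := fun n => (b n : ℂ)) hg.coeff
    exact_mod_cast this
  have ha2 : ∀ l : ℕ, l.Prime → ((a l : ℝ) / l) ^ 2 ≤ 2 := by
    intro l hl
    have h1 := hf.hasse l
    have h2 : l.divisors.card = 2 := by
      rw [hl.divisors, Finset.card_pair hl.one_lt.ne]
    rw [h2] at h1
    have hl2 : (2 : ℝ) ≤ l := by exact_mod_cast hl.two_le
    have hl0 : (0 : ℝ) < l := by linarith
    have h3 : (a l : ℝ) ^ 2 ≤ 4 * l := by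
      rw [← sq_abs]
      refine (pow_le_pow_left₀ (abs_nonneg _) h1 2).trans (le_of_eq ?_)
      rw [_root_.mul_pow, Real.sq_sqrt hl0.le]
      norm_num
    rw [div_pow, div_le_iff₀ (by positivity)]
    nlinarith
  refine ⟨(∑' s : Nat.factoredNumbers N.primeFactors, |b s / (s : ℕ)|) ^ 2 *
    6 ^ N.primeFactors.card, by positivity, fun p q _ hq t₀ M ht₀ hM t ht => ?_⟩
  have hM0 : 0 ≤ M := by
    refine le_trans ?_ (hM t₀ le_rfl)
    exact div_nonneg (Finset.sum_nonneg fun u _ => by positivity) (Nat.cast_nonneg _)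
  have h1 := tg_core hN ha0 hf.one hf.hecke hb0 hg.hecke hω hωa hωb ha2 hw hq
    ((HH p q).image fun ζ : (ZMod q)ˣ => (ζ : ZMod q)) ht₀ hM0 (fun t ht => by
      simp only [tg_image]
      have h2 : tgx ω (fun m => (a m : ℝ)) ∅ t = fun m => (a m : ℝ) * ω t m := by
        funext m
        simp [tgx]
      rw [h2]
      exact hM t ht) t ht
  simp only [tg_image] at h1
  have h2 : tgx ω b ∅ t = fun m => b m * ω t m := by
    funext m
    simp [tgx]
  rw [h2, ← mul_assoc] at h1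
  exact h1

theorem tg_nn {w : ℝ} {N p : ℕ} (hN : N ≠ 0) (hp : p.Prime) (h : N + 1 ≤ p) {q : ℕ}
    (hq : q = p ^ nn w p) : N.Coprime q := by
  rw [hq]
  refine Nat.Coprime.pow_right _ ?_
  rw [Nat.coprime_comm]
  refine (Nat.Prime.coprime_iff_not_dvd hp).2 fun h => ?_
  have := Nat.le_of_dvd (Nat.pos_of_ne_zero hN) h
  omega

/-- The module TOPG with the quantifiers of the skeleton. -/
theorem top_g' {N : ℕ} [NeZero N] (f g : CuspForm (Gamma0 N) 2) {b : ℕ → ℝ} {a : ℕ → ℤ}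
    (hf : Frm f a) (hg : Eig g b a)
    (hcb : ∃ C δ : ℝ, 0 < δ ∧ ∀ m : ℕ, 1 ≤ m → |b m| ≤ C * (m : ℝ) ^ (1 - δ))
    (htop : ∀ w : ℝ, 0 < w → w < 1 / 3 → ∃ p₀ : ℕ, ∀ p : ℕ, p₀ ≤ p → p.Prime →
      ∀ (q : ℕ) [NeZero q], q = p ^ nn w p → ∀ η : ℝ, 1 / (√N * q) ≤ η →
        EE q (fun b => ‖∑ ζ ∈ HH p q, FF a η ((ζ : ZMod q) * b)‖ ^ 2) ≤
          (p : ℝ) ^ (2 - 1 / 12 : ℝ)) :
    ∃ C : ℝ, ∀ w : ℝ, 0 < w → w < 1 / 3 → ∃ p₀ : ℕ, ∀ p : ℕ, p₀ ≤ p → p.Prime →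
    ∀ (q : ℕ) [NeZero q], q = p ^ nn w p → ∀ η : ℝ, 1 / (√N * q) ≤ η →
      EE q (fun u => ‖∑ ζ ∈ HH p q,
        sr (fun m => η * b m * Real.exp (-(2 * π * m * η))) ((ζ : ZMod q) * u)‖ ^ 2) ≤
        C * (p : ℝ) ^ (2 - 1 / 12 : ℝ) := by
  obtain ⟨C, hC, H⟩ := tg_transfer f g hf hg hcb tgT_W
    (fun t ht => tgT_abs f (b := fun n => (a n : ℝ)) (by simpa using hf.coeff) t ht)
    (fun t ht => tgT_abs g hg.coeff t ht)
  refine ⟨C, fun w hw hw' => ?_⟩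
  obtain ⟨p₀, h₀⟩ := htop w hw hw'
  refine ⟨max p₀ (N + 1), fun p hp hpp q _ hq η hη => ?_⟩
  have hp0 : p₀ ≤ p := le_trans (le_max_left _ _) hp
  have hcop : N.Coprime q := tg_nn (NeZero.ne N) hpp (le_trans (le_max_right _ _) hp) hq
  have hN : (0 : ℝ) < N := by exact_mod_cast Nat.pos_of_ne_zero (NeZero.ne N)
  have hqR : (0 : ℝ) < q := by exact_mod_cast Nat.pos_of_ne_zero (NeZero.ne q)
  have e1 : ∀ (c : ℕ → ℝ) (t : ℝ), (fun m => c m * tgT t m) =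
      fun m => t * c m * Real.exp (-(2 * π * m * t)) := by
    intro c t
    funext m
    unfold tgT
    ring
  have h1 := H p q hcop (1 / (√N * q)) ((p : ℝ) ^ (2 - 1 / 12 : ℝ)) (by positivity)
    (fun t ht => by
      rw [e1 (fun m => (a m : ℝ)) t]
      exact h₀ p hp0 hpp q hq t ht) η hη
  rw [e1 b η] at h1
  exact h1

/-- The low frequencies of `g` from those of `f`. -/
theorem low_g' {N : ℕ} [NeZero N] (f g : CuspForm (Gamma0 N) 2) {b : ℕ → ℝ} {a : ℕ → ℤ}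
    (hf : Frm f a) (hg : Eig g b a)
    (hcb : ∃ C δ : ℝ, 0 < δ ∧ ∀ m : ℕ, 1 ≤ m → |b m| ≤ C * (m : ℝ) ^ (1 - δ)) {w₀ : ℝ}
    (hlow : ∀ w : ℝ, 0 < w → w < w₀ → ∀ η > (0 : ℝ), ∃ p₀ : ℕ, ∀ p : ℕ, p₀ ≤ p → p.Prime →
      ∀ (q : ℕ) [NeZero q], q = p ^ nn w p → ∀ t : ℝ, (p : ℝ) ^ 200 / q ≤ t →
        EE q (fun u => ‖∑ ζ ∈ HH p q, sr (fun m => (a m : ℝ) / m * Real.exp (-(2 * π * m * t)))
          ((ζ : ZMod q) * u)‖ ^ 2) ≤ (p : ℝ) ^ (2 - w + η)) :
    ∃ C : ℝ, 0 ≤ C ∧ ∀ w : ℝ, 0 < w → w < w₀ → ∀ η > (0 : ℝ), ∃ p₀ : ℕ, ∀ p : ℕ, p₀ ≤ p →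
      p.Prime → ∀ (q : ℕ) [NeZero q], q = p ^ nn w p → ∀ t : ℝ, (p : ℝ) ^ 200 / q ≤ t →
        EE q (fun u => ‖∑ ζ ∈ HH p q, sr (fun m => b m / m * Real.exp (-(2 * π * m * t)))
          ((ζ : ZMod q) * u)‖ ^ 2) ≤ C * (p : ℝ) ^ (2 - w + η) := by
  obtain ⟨C, hC, H⟩ := tg_transfer f g hf hg hcb tgL_W
    (fun t ht => tgL_abs f (b := fun n => (a n : ℝ)) (by simpa using hf.coeff) t ht)
    (fun t ht => tgL_abs g hg.coeff t ht)
  refine ⟨C, hC, fun w hw hw' η hη => ?_⟩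
  obtain ⟨p₀, h₀⟩ := hlow w hw hw' η hη
  refine ⟨max p₀ (N + 1), fun p hp hpp q _ hq t ht => ?_⟩
  have hp0 : p₀ ≤ p := le_trans (le_max_left _ _) hp
  have hcop : N.Coprime q := tg_nn (NeZero.ne N) hpp (le_trans (le_max_right _ _) hp) hq
  have hqR : (0 : ℝ) < q := by exact_mod_cast Nat.pos_of_ne_zero (NeZero.ne q)
  have hpR : (0 : ℝ) < p := by exact_mod_cast hpp.pos
  have e1 : ∀ (c : ℕ → ℝ) (t : ℝ), (fun m => c m * tgL t m) =
      fun m => c m / m * Real.exp (-(2 * π * m * t)) := by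
    intro c t
    funext m
    unfold tgL
    ring
  have h1 := H p q hcop ((p : ℝ) ^ 200 / q) ((p : ℝ) ^ (2 - w + η)) (by positivity)
    (fun t ht => by
      rw [e1 (fun m => (a m : ℝ)) t]
      exact h₀ p hp0 hpp q hq t ht) t ht
  rw [e1 b t] at h1
  exact h1

end Pool.Agent.MU0
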