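import Pool.Agent.MU0.Defs

/-!
# Assembly of the upper bound: from `upper_one` to `upper`
-/

set_option autoImplicit false

open Finset CongruenceSubgroup
open Pool.Agent.MZ Pool.Agent.MZ.Per Pool.Agent.MU1
open scoped Real

namespace Pool.Agent.MU0

/-- The sum over `H` of `Re G` at the height `t`. -/
noncomputable def UpS {N : ℕ} [NeZero N] (g : CuspForm (Gamma0 N) 2) (p q : ℕ) [NeZero q] (t : ℝ)
    (u : (ZMod q)ˣ) : ℝ :=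
  ∑ ζ ∈ HH p q, (G g (vert ((((ζ * u : (ZMod q)ˣ) : ZMod q).val : ℝ) / q) t)).re

theorem up_EU_nonneg {q : ℕ} [NeZero q] {F : (ZMod q)ˣ → ℝ} (h : ∀ u, 0 ≤ F u) : 0 ≤ EU q F :=
  div_nonneg (Finset.sum_nonneg fun u _ => h u) (Nat.cast_nonneg _)

theorem up_EU_le {q : ℕ} [NeZero q] {F F' : (ZMod q)ˣ → ℝ} (h : ∀ u, F u ≤ F' u) :
    EU q F ≤ EU q F' :=
  div_le_div_of_nonneg_right (Finset.sum_le_sum fun u _ => h u) (Nat.cast_nonneg _)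

theorem up_EU_add {q : ℕ} [NeZero q] (F F' : (ZMod q)ˣ → ℝ) :
    EU q (fun u => F u + F' u) = EU q F + EU q F' := by
  unfold EU
  rw [Finset.sum_add_distrib, add_div]

theorem up_EU_mul {q : ℕ} [NeZero q] (c : ℝ) (F : (ZMod q)ˣ → ℝ) :
    EU q (fun u => c * F u) = c * EU q F := by
  unfold EU
  rw [← Finset.mul_sum, mul_div_assoc]

theorem up_EU_bij {q : ℕ} [NeZero q] (e : (ZMod q)ˣ ≃ (ZMod q)ˣ) (F : (ZMod q)ˣ → ℝ) :
    EU q (fun u => F (e u)) = EU q F := by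
  unfold EU
  rw [Equiv.sum_comp e F]

/-- The second moment of a difference. -/
theorem up_EU_sub {q : ℕ} [NeZero q] (A B : (ZMod q)ˣ → ℝ) :
    EU q (fun u => (A u - B u) ^ 2) ≤ 2 * EU q (fun u => A u ^ 2) + 2 * EU q (fun u => B u ^ 2) := by
  rw [← up_EU_mul, ← up_EU_mul, ← up_EU_add]
  refine up_EU_le fun u => ?_
  nlinarith [sq_nonneg (A u + B u)]

/-- The sum over `H` is invariant under `ζ ↦ ζ⁻¹`. -/
theorem up_sum_inv {p q : ℕ} [NeZero q] (F : (ZMod q)ˣ → ℝ) :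
    ∑ ζ ∈ HH p q, F ζ⁻¹ = ∑ ζ ∈ HH p q, F ζ := by
  refine Finset.sum_bij' (fun ζ _ => ζ⁻¹) (fun ζ _ => ζ⁻¹) ?_ ?_ ?_ ?_ ?_
  · intro ζ hζ
    simp only [HH, Finset.mem_filter, Finset.mem_univ, true_and] at hζ ⊢
    rw [inv_pow, hζ, inv_one]
  · intro ζ hζ
    simp only [HH, Finset.mem_filter, Finset.mem_univ, true_and] at hζ ⊢
    rw [inv_pow, hζ, inv_one]
  · intro ζ _; simp
  · intro ζ _; simp
  · intro ζ _; rfl

/-- Both sides of the boundary value at the height `1 / (√N q)`. -/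
theorem up_TT {N : ℕ} [NeZero N] (f g : CuspForm (Gamma0 N) 2)
    (hbd : ∀ {q : ℕ}, 0 < q → ∀ {b r : ℤ}, (q : ℤ) ∣ N * r * b - 1 → ∀ {y : ℝ}, 0 < y →
      bd (G f) (((b : ℚ) / (q : ℚ) : ℚ) : OnePoint ℚ) =
        G f (vert ((b : ℝ) / q) y) - G g (vert (-(r : ℝ) / q) (1 / (N * q ^ 2 * y))))
    (p q : ℕ) [NeZero q] (nu : (ZMod q)ˣ) (hnu : (nu : ZMod q) = (N : ZMod q)) (u : (ZMod q)ˣ) :
    TT f p q u = UpS f p q (1 / (√N * q)) u - UpS g p q (1 / (√N * q)) (-(nu * u)⁻¹) := by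
  have hq : 0 < q := Nat.pos_of_ne_zero (NeZero.ne q)
  have hqR : (0 : ℝ) < q := by exact_mod_cast hq
  have hN : (0 : ℝ) < N := by exact_mod_cast Nat.pos_of_ne_zero (NeZero.ne N)
  have hsN : 0 < √(N : ℝ) := Real.sqrt_pos.2 hN
  have hy : (0 : ℝ) < 1 / (√N * q) := by positivity
  have h2 : (1 : ℝ) / (N * q ^ 2 * (1 / (√N * q))) = 1 / (√N * q) := by
    have h3 : (N : ℝ) = √N * √N := (Real.mul_self_sqrt hN.le).symm
    rw [h3, Real.sqrt_mul_self hsN.le]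
    field_simp
  unfold TT UpS
  rw [← up_sum_inv (p := p) (fun ζ => (G g (vert ((((ζ * -(nu * u)⁻¹ : (ZMod q)ˣ) : ZMod q).val : ℝ) / q)
    (1 / (√N * q)))).re), ← Finset.sum_sub_distrib]
  refine Finset.sum_congr rfl fun ζ _ => ?_
  set v : (ZMod q)ˣ := ζ * u with hv
  set v' : (ZMod q)ˣ := ζ⁻¹ * -(nu * u)⁻¹ with hv'
  have h4 : (q : ℤ) ∣ N * (-((v' : ZMod q).val : ℤ)) * ((v : ZMod q).val : ℤ) - 1 := by
    rw [← ZMod.intCast_zmod_eq_zero_iff_dvd]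
    push_cast
    rw [ZMod.natCast_zmod_val, ZMod.natCast_zmod_val, ← hnu]
    have h5 : (nu : ZMod q) * -((v' : (ZMod q)ˣ) : ZMod q) * ((v : (ZMod q)ˣ) : ZMod q) =
        ((nu * -v' * v : (ZMod q)ˣ) : ZMod q) := by push_cast; ring
    rw [h5]
    have h6 : nu * -v' * v = 1 := by
      rw [hv, hv']
      simp only [mul_neg, neg_neg, mul_inv]
      have h9 : nu * (ζ⁻¹ * (nu⁻¹ * u⁻¹)) * (ζ * u) = (nu * nu⁻¹) * (ζ⁻¹ * ζ) * (u⁻¹ * u) := by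
        ac_rfl
      rw [h9]
      simp
    rw [h6]
    simp
  have h7 := hbd hq h4 hy
  unfold S
  have h8 : ((((v : ZMod q).val : ℚ) / (q : ℚ) : ℚ) : OnePoint ℚ) =
      (((((v : ZMod q).val : ℤ) : ℚ) / (q : ℚ) : ℚ) : OnePoint ℚ) := by push_cast; rfl
  rw [h8, h7, h2, Complex.sub_re]
  push_cast
  rw [neg_neg]

/-- The negative of the inverse of `nu * u`, as a permutation of the units. -/
def upE {q : ℕ} [NeZero q] (nu : (ZMod q)ˣ) : (ZMod q)ˣ ≃ (ZMod q)ˣ where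
  toFun u := -(nu * u)⁻¹
  invFun u := nu⁻¹ * (-u)⁻¹
  left_inv u := by simp
  right_inv u := by simp

/-- `upper` from `upper_one` (for `f` and for `g`) and `bd_pair`. -/
theorem upper_of {N : ℕ} [NeZero N] (f g : CuspForm (Gamma0 N) 2)
    (hbd : ∀ {q : ℕ}, 0 < q → ∀ {b r : ℤ}, (q : ℤ) ∣ N * r * b - 1 → ∀ {y : ℝ}, 0 < y →
      bd (G f) (((b : ℚ) / (q : ℚ) : ℚ) : OnePoint ℚ) =
        G f (vert ((b : ℝ) / q) y) - G g (vert (-(r : ℝ) / q) (1 / (N * q ^ 2 * y))))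
    (h₁ : ∃ w₀ > (0 : ℝ), ∀ w : ℝ, 0 < w → w < w₀ → ∀ η > (0 : ℝ),
      ∃ p₀ : ℕ, ∀ p : ℕ, p₀ ≤ p → p.Prime → ∀ (q : ℕ) [NeZero q], q = p ^ nn w p →
        EU q (fun u => (∑ ζ ∈ HH p q, (G f (vert ((((ζ * u : (ZMod q)ˣ) : ZMod q).val : ℝ) / q)
          (1 / (√N * q)))).re) ^ 2) ≤ (p : ℝ) ^ (2 - w + η))
    (h₂ : ∃ w₀ > (0 : ℝ), ∀ w : ℝ, 0 < w → w < w₀ → ∀ η > (0 : ℝ),
      ∃ p₀ : ℕ, ∀ p : ℕ, p₀ ≤ p → p.Prime → ∀ (q : ℕ) [NeZero q], q = p ^ nn w p →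
        EU q (fun u => (∑ ζ ∈ HH p q, (G g (vert ((((ζ * u : (ZMod q)ˣ) : ZMod q).val : ℝ) / q)
          (1 / (√N * q)))).re) ^ 2) ≤ (p : ℝ) ^ (2 - w + η)) :
    ∃ w₀ > (0 : ℝ), ∀ w : ℝ, 0 < w → w < w₀ → ∀ η > (0 : ℝ),
    ∃ p₀ : ℕ, ∀ p : ℕ, p₀ ≤ p → p.Prime → ∀ (q : ℕ) [NeZero q], q = p ^ nn w p →
      EU q (fun u => TT f p q u ^ 2) ≤ (p : ℝ) ^ (2 - w + η) := by
  obtain ⟨w₁, hw₁, H₁⟩ := h₁
  obtain ⟨w₂, hw₂, H₂⟩ := h₂
  refine ⟨min w₁ w₂, lt_min hw₁ hw₂, fun w hw hw' η hη => ?_⟩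
  obtain ⟨p₁, P₁⟩ := H₁ w hw (hw'.trans_le (min_le_left _ _)) (η / 2) (by positivity)
  obtain ⟨p₂, P₂⟩ := H₂ w hw (hw'.trans_le (min_le_right _ _)) (η / 2) (by positivity)
  obtain ⟨p₃, hp₃⟩ := exists_nat_gt ((4 : ℝ) ^ (2 / η))
  refine ⟨max (max p₁ p₂) (max p₃ (N + 1)), fun p hp hpp q _ hq => ?_⟩
  have hp1 : p₁ ≤ p := le_trans (le_trans (le_max_left _ _) (le_max_left _ _)) hp
  have hp2 : p₂ ≤ p := le_trans (le_trans (le_max_right _ _) (le_max_left _ _)) hp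
  have hp3 : p₃ ≤ p := le_trans (le_trans (le_max_left _ _) (le_max_right _ _)) hp
  have hp4 : N + 1 ≤ p := le_trans (le_trans (le_max_right _ _) (le_max_right _ _)) hp
  have hpR : (0 : ℝ) < p := by exact_mod_cast hpp.pos
  have hcop : Nat.Coprime N q := by
    rw [hq]
    refine Nat.Coprime.pow_right _ ?_
    rw [Nat.coprime_comm]
    refine (Nat.Prime.coprime_iff_not_dvd hpp).2 fun h => ?_
    have := Nat.le_of_dvd (Nat.pos_of_ne_zero (NeZero.ne N)) h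
    omega
  have hnu : ((ZMod.unitOfCoprime N hcop : (ZMod q)ˣ) : ZMod q) = (N : ZMod q) :=
    ZMod.coe_unitOfCoprime N hcop
  have e1 : ∀ u, TT f p q u ^ 2 = (UpS f p q (1 / (√N * q)) u -
      UpS g p q (1 / (√N * q)) (upE (ZMod.unitOfCoprime N hcop) u)) ^ 2 := fun u => by
    rw [up_TT f g hbd p q _ hnu u]
    rfl
  simp only [e1]
  refine (up_EU_sub _ _).trans ?_
  rw [up_EU_bij (upE (ZMod.unitOfCoprime N hcop)) (fun u => UpS g p q (1 / (√N * q)) u ^ 2)]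
  have h5 := P₁ p hp1 hpp q hq
  have h6 := P₂ p hp2 hpp q hq
  have h7 : (4 : ℝ) ≤ (p : ℝ) ^ (η / 2) := by
    have h8 : (4 : ℝ) ^ (2 / η) ≤ p := hp₃.le.trans (by exact_mod_cast hp3)
    have h9 := Real.rpow_le_rpow (by positivity) h8 (by positivity : 0 ≤ η / 2)
    rw [← Real.rpow_mul (by norm_num), show 2 / η * (η / 2) = 1 by field_simp, Real.rpow_one] at h9
    exact h9
  have h10 : (p : ℝ) ^ (2 - w + η) = (p : ℝ) ^ (η / 2) * (p : ℝ) ^ (2 - w + η / 2) := by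
    rw [← Real.rpow_add hpR]
    congr 1
    ring
  rw [h10]
  have h11 : (0 : ℝ) < (p : ℝ) ^ (2 - w + η / 2) := Real.rpow_pos_of_pos hpR _
  unfold UpS
  nlinarith

end Pool.Agent.MU0
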