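import Pool.Agent.MU0.UpA
import Pool.Agent.MU1.An1

/-!
# Assembly of the upper bound: from the low and the top frequencies to `upper_one`
-/

set_option autoImplicit false

open Finset CongruenceSubgroup UpperHalfPlane
open Pool.Agent.MZ Pool.Agent.MZ.Per Pool.Agent.MU1
open scoped Real

namespace Pool.Agent.MU0

/-- The sum over `H` of the cusp form at the height `t`. -/
noncomputable def UpF {N : ℕ} [NeZero N] (g : CuspForm (Gamma0 N) 2) (p q : ℕ) [NeZero q] (t : ℝ)
    (u : (ZMod q)ˣ) : ℂ :=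
  ∑ ζ ∈ HH p q, g (vert ((((ζ * u : (ZMod q)ˣ) : ZMod q).val : ℝ) / q) t)

section

variable {N : ℕ} [NeZero N]

omit [NeZero N] in
theorem up_cont (f : CuspForm (Gamma0 N) 2) (x : ℝ) {y Y : ℝ} (hy : 0 < y) (hyY : y ≤ Y) :
    ContinuousOn (fun t : ℝ => f (vert x t)) (Set.uIcc y Y) := by
  refine (continuousOn_vert f x).mono ?_
  rw [Set.uIcc_of_le hyY]
  exact fun s hs => hy.trans_le hs.1

/-- The primitive between two heights. -/
theorem up_G (f : CuspForm (Gamma0 N) 2) (x : ℝ) {y Y : ℝ} (hy : 0 < y) (hyY : y ≤ Y) :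
    G f (vert x y) = G f (vert x Y) + 2 * π * ∫ t in y..Y, f (vert x t) := by
  have hderiv : ∀ s ∈ Set.uIcc y Y, HasDerivAt (fun s : ℝ => G f (vert x s))
      (-(2 * π) * f (vert x s)) s := by
    intro s hs
    rw [Set.uIcc_of_le hyY] at hs
    have hs' : 0 < s := hy.trans_le hs.1
    have h1 := (prim_G f).der (vert x s)
    rw [coe_vert hs'] at h1
    have h2 : HasDerivAt (fun t : ℝ => (x : ℂ) + (t : ℂ) * Complex.I) Complex.I s := by
      have := ((hasDerivAt_id (s : ℂ)).comp_ofReal.mul_const Complex.I).const_add (x : ℂ)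
      simpa using this
    have h3 := HasDerivAt.comp s (h₂ := G f ∘ ofComplex) (by simpa using h1) h2
    have h4 : (2 * π * Complex.I * f (vert x s)) * Complex.I = -(2 * π) * f (vert x s) := by
      linear_combination (2 * π * f (vert x s)) * Complex.I_mul_I
    rw [h4] at h3
    exact h3
  have hcont : ContinuousOn (fun s : ℝ => -(2 * π) * f (vert x s)) (Set.uIcc y Y) :=
    continuousOn_const.mul (up_cont f x hy hyY)
  have hint := intervalIntegral.integral_eq_sub_of_hasDerivAt hderiv hcont.intervalIntegrable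
  rw [intervalIntegral.integral_const_mul] at hint
  linear_combination hint

theorem up_contF (g : CuspForm (Gamma0 N) 2) (p q : ℕ) [NeZero q] {y Y : ℝ} (hy : 0 < y)
    (hyY : y ≤ Y) (u : (ZMod q)ˣ) :
    ContinuousOn (fun t : ℝ => UpF g p q t u) (Set.uIcc y Y) := by
  unfold UpF
  exact continuousOn_finsetSum _ fun ζ _ => up_cont g _ hy hyY

theorem up_S (g : CuspForm (Gamma0 N) 2) (p q : ℕ) [NeZero q] {y Y : ℝ} (hy : 0 < y)
    (hyY : y ≤ Y) (u : (ZMod q)ˣ) :
    UpS g p q y u = UpS g p q Y u + 2 * π * ∫ t in y..Y, (UpF g p q t u).re := by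
  have h1 : ∀ ζ ∈ HH p q, (G g (vert ((((ζ * u : (ZMod q)ˣ) : ZMod q).val : ℝ) / q) y)).re =
      (G g (vert ((((ζ * u : (ZMod q)ˣ) : ZMod q).val : ℝ) / q) Y)).re +
        2 * π * ∫ t in y..Y, (g (vert ((((ζ * u : (ZMod q)ˣ) : ZMod q).val : ℝ) / q) t)).re := by
    intro ζ _
    rw [up_G g _ hy hyY, Complex.add_re]
    congr 1
    have h2 : ((2 : ℂ) * π) = ((2 * π : ℝ) : ℂ) := by push_cast; ring
    rw [h2, Complex.re_ofReal_mul]
    congr 1
    exact (intervalIntegral.intervalIntegral_re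
      (up_cont g _ hy hyY).intervalIntegrable).symm
  unfold UpS
  rw [Finset.sum_congr rfl h1, Finset.sum_add_distrib, ← Finset.mul_sum]
  congr 2
  rw [← intervalIntegral.integral_finsetSum]
  · refine intervalIntegral.integral_congr fun t _ => ?_
    unfold UpF
    simp only [Complex.re_sum]
  · intro ζ _
    exact (Complex.continuous_re.comp_continuousOn (up_cont g _ hy hyY)).intervalIntegrable

end

/-- Cauchy-Schwarz with the measure `dt / t`. -/
theorem up_cs {h : ℝ → ℝ} {y Y : ℝ} (hy : 0 < y) (hyY : y ≤ Y) (hh : ContinuousOn h (Set.uIcc y Y)) :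
    (∫ t in y..Y, h t) ^ 2 ≤ Real.log (Y / y) * ∫ t in y..Y, t * h t ^ 2 := by
  have hY : 0 < Y := hy.trans_le hyY
  have hL : ∫ t in y..Y, 1 / t = Real.log (Y / y) := integral_one_div_of_pos hy hY
  have hne : ∀ t ∈ Set.uIcc y Y, t ≠ 0 := by
    intro t ht
    rw [Set.uIcc_of_le hyY] at ht
    exact (hy.trans_le ht.1).ne'
  have c1 : ContinuousOn (fun t : ℝ => 1 / t) (Set.uIcc y Y) :=
    continuousOn_const.div continuousOn_id hne
  have c2 : ContinuousOn (fun t : ℝ => t * h t ^ 2) (Set.uIcc y Y) :=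
    continuousOn_id.mul (hh.pow 2)
  set A := ∫ t in y..Y, h t with hA
  set B := ∫ t in y..Y, t * h t ^ 2 with hB
  have key : ∀ s : ℝ, 0 ≤ s ^ 2 * Real.log (Y / y) - 2 * s * A + B := by
    intro s
    have h1 : ∫ t in y..Y, (s - t * h t) ^ 2 * (1 / t) =
        s ^ 2 * Real.log (Y / y) - 2 * s * A + B := by
      have h2 : ∫ t in y..Y, (s - t * h t) ^ 2 * (1 / t) =
          ∫ t in y..Y, ((s ^ 2 * (1 / t) - 2 * s * h t) + t * h t ^ 2) := by
        refine intervalIntegral.integral_congr fun t ht => ?_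
        have := hne t ht
        field_simp
        ring
      rw [h2, intervalIntegral.integral_add, intervalIntegral.integral_sub,
        intervalIntegral.integral_const_mul, intervalIntegral.integral_const_mul, hL]
      · exact (continuousOn_const.mul c1).intervalIntegrable
      · exact (continuousOn_const.mul hh).intervalIntegrable
      · exact ((continuousOn_const.mul c1).sub (continuousOn_const.mul hh)).intervalIntegrable
      · exact c2.intervalIntegrable
    rw [← h1]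
    refine intervalIntegral.integral_nonneg hyY fun t ht => ?_
    have : 0 < t := hy.trans_le ht.1
    positivity
  rcases hyY.eq_or_lt with h | h
  · rw [hA, h]
    simp [h ▸ hy.ne']
  · have hlog : 0 < Real.log (Y / y) := Real.log_pos (by rwa [one_lt_div hy])
    have h1 := key (A / Real.log (Y / y))
    have h2 : (A / Real.log (Y / y)) ^ 2 * Real.log (Y / y) - 2 * (A / Real.log (Y / y)) * A + B =
        B - A ^ 2 / Real.log (Y / y) := by
      field_simp
      ring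
    rw [h2, sub_nonneg, div_le_iff₀ hlog] at h1
    linarith

/-- The second moment of the integral over the heights. -/
theorem up_int {N : ℕ} [NeZero N] (g : CuspForm (Gamma0 N) 2) (p q : ℕ) [NeZero q] {y Y M : ℝ}
    (hy : 0 < y) (hyY : y ≤ Y)
    (hM : ∀ t, y ≤ t → t ≤ Y → t ^ 2 * EU q (fun u => ‖UpF g p q t u‖ ^ 2) ≤ M) :
    EU q (fun u => (∫ t in y..Y, (UpF g p q t u).re) ^ 2) ≤ M * Real.log (Y / y) ^ 2 := by
  have hY : 0 < Y := hy.trans_le hyY
  have hlog : 0 ≤ Real.log (Y / y) := Real.log_nonneg (by rwa [one_le_div hy])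
  have hL : ∫ t in y..Y, 1 / t = Real.log (Y / y) := integral_one_div_of_pos hy hY
  have hne : ∀ t ∈ Set.uIcc y Y, t ≠ 0 := by
    intro t ht
    rw [Set.uIcc_of_le hyY] at ht
    exact (hy.trans_le ht.1).ne'
  have c0 : ∀ u : (ZMod q)ˣ, ContinuousOn (fun t : ℝ => (UpF g p q t u).re) (Set.uIcc y Y) :=
    fun u => Complex.continuous_re.comp_continuousOn (up_contF g p q hy hyY u)
  have h1 : ∀ u : (ZMod q)ˣ, (∫ t in y..Y, (UpF g p q t u).re) ^ 2 ≤
      Real.log (Y / y) * ∫ t in y..Y, t * (UpF g p q t u).re ^ 2 := fun u => up_cs hy hyY (c0 u)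
  refine (up_EU_le h1).trans ?_
  rw [up_EU_mul]
  have h2 : EU q (fun u => ∫ t in y..Y, t * (UpF g p q t u).re ^ 2) =
      ∫ t in y..Y, t * EU q (fun u => (UpF g p q t u).re ^ 2) := by
    unfold EU
    rw [← intervalIntegral.integral_finsetSum, ← intervalIntegral.integral_div]
    · refine intervalIntegral.integral_congr fun t _ => ?_
      simp only
      rw [← Finset.mul_sum, mul_div_assoc]
    · intro u _
      exact (continuousOn_id.mul ((c0 u).pow 2)).intervalIntegrable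
  rw [h2]
  have h3 : ∫ t in y..Y, t * EU q (fun u => (UpF g p q t u).re ^ 2) ≤ ∫ t in y..Y, M * (1 / t) := by
    refine intervalIntegral.integral_mono_on hyY ?_ ?_ ?_
    · refine ContinuousOn.intervalIntegrable ?_
      unfold EU
      exact continuousOn_id.mul ((continuousOn_finsetSum _ fun u _ => (c0 u).pow 2).div_const _)
    · exact (continuousOn_const.mul (continuousOn_const.div continuousOn_id hne)).intervalIntegrable
    · intro t ht
      have ht0 : 0 < t := hy.trans_le ht.1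
      have h4 : EU q (fun u => (UpF g p q t u).re ^ 2) ≤ EU q (fun u => ‖UpF g p q t u‖ ^ 2) := by
        refine up_EU_le fun u => ?_
        rw [← sq_abs (UpF g p q t u).re]
        exact pow_le_pow_left₀ (abs_nonneg _) (Complex.abs_re_le_norm _) 2
      have h5 := hM t ht.1 ht.2
      rw [mul_one_div, le_div_iff₀ ht0]
      nlinarith [mul_le_mul_of_nonneg_left h4 (sq_nonneg t)]
  rw [intervalIntegral.integral_const_mul, hL] at h3
  nlinarith

/-- `upper_one` from the low frequencies (the height `p^C/q`) and the top frequencies (the heights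
between `1/(√N q)` and `p^C/q`). -/
theorem upper_one_of {N : ℕ} [NeZero N] (g : CuspForm (Gamma0 N) 2) (C : ℕ)
    (hLow : ∃ w₀ > (0 : ℝ), ∀ w : ℝ, 0 < w → w < w₀ → ∀ η > (0 : ℝ),
      ∃ p₀ : ℕ, ∀ p : ℕ, p₀ ≤ p → p.Prime → ∀ (q : ℕ) [NeZero q], q = p ^ nn w p →
        EU q (fun u => UpS g p q ((p : ℝ) ^ C / q) u ^ 2) ≤ (p : ℝ) ^ (2 - w + η))
    (hTop : ∃ w₀ > (0 : ℝ), ∀ w : ℝ, 0 < w → w < w₀ → ∀ η > (0 : ℝ),
      ∃ p₀ : ℕ, ∀ p : ℕ, p₀ ≤ p → p.Prime → ∀ (q : ℕ) [NeZero q], q = p ^ nn w p →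
        ∀ t : ℝ, 1 / (√N * q) ≤ t → t ≤ (p : ℝ) ^ C / q →
          t ^ 2 * EU q (fun u => ‖UpF g p q t u‖ ^ 2) ≤ (p : ℝ) ^ (2 - w + η)) :
    ∃ w₀ > (0 : ℝ), ∀ w : ℝ, 0 < w → w < w₀ → ∀ η > (0 : ℝ),
    ∃ p₀ : ℕ, ∀ p : ℕ, p₀ ≤ p → p.Prime → ∀ (q : ℕ) [NeZero q], q = p ^ nn w p →
      EU q (fun u => (∑ ζ ∈ HH p q, (G g (vert ((((ζ * u : (ZMod q)ˣ) : ZMod q).val : ℝ) / q)
        (1 / (√N * q)))).re) ^ 2) ≤ (p : ℝ) ^ (2 - w + η) := by
  obtain ⟨w₁, hw₁, H₁⟩ := hLow
  obtain ⟨w₂, hw₂, H₂⟩ := hTop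
  refine ⟨min w₁ w₂, lt_min hw₁ hw₂, fun w hw hw' η hη => ?_⟩
  obtain ⟨p₁, P₁⟩ := H₁ w hw (hw'.trans_le (min_le_left _ _)) (η / 2) (by positivity)
  obtain ⟨p₂, P₂⟩ := H₂ w hw (hw'.trans_le (min_le_right _ _)) (η / 2) (by positivity)
  have hN : (0 : ℝ) < N := by exact_mod_cast Nat.pos_of_ne_zero (NeZero.ne N)
  have hN1 : (1 : ℝ) ≤ N := by exact_mod_cast Nat.pos_of_ne_zero (NeZero.ne N)
  have hsN : 1 ≤ √(N : ℝ) := Real.one_le_sqrt.2 hN1
  -- the constant: `2 + 2 (2π)² (C log p + log √N)² ≤ p^(η/2)`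
  have hlim : ∃ p₃ : ℕ, ∀ p : ℕ, p₃ ≤ p → 2 + 2 * (2 * π) ^ 2 *
      (C * Real.log p + Real.log √N) ^ 2 ≤ (p : ℝ) ^ (η / 2) := by
    have h1 : (fun x : ℝ => (C * Real.log x + Real.log √N)) =o[Filter.atTop]
        (fun x : ℝ => x ^ (η / 8)) := by
      refine Asymptotics.IsLittleO.add ?_ ?_
      · exact (isLittleO_log_rpow_atTop (by positivity : 0 < η / 8)).const_mul_left _
      · exact Asymptotics.isLittleO_const_left.2 (Or.inr
          (Filter.tendsto_abs_atTop_atTop.comp (tendsto_rpow_atTop (by positivity : 0 < η / 8))))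
    have h2 := h1.bound (show (0 : ℝ) < 1 by norm_num)
    have h3 : Filter.Tendsto (fun x : ℝ => x ^ (η / 4)) Filter.atTop Filter.atTop :=
      tendsto_rpow_atTop (by positivity)
    have h4 := h3.eventually_ge_atTop (2 + 2 * (2 * π) ^ 2)
    have h5 := (h2.and (h4.and (Filter.eventually_ge_atTop (1 : ℝ))))
    obtain ⟨x₀, hx₀⟩ := Filter.eventually_atTop.1 h5
    refine ⟨⌈x₀⌉₊, fun p hp => ?_⟩
    have hp' : x₀ ≤ p := Nat.ceil_le.1 hp
    obtain ⟨h6, h7, h8⟩ := hx₀ p hp'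
    have hp0 : (0 : ℝ) < p := by linarith
    rw [Real.norm_eq_abs, one_mul, Real.norm_of_nonneg (Real.rpow_nonneg hp0.le _)] at h6
    have h9 : (C * Real.log p + Real.log √N) ^ 2 ≤ (p : ℝ) ^ (η / 4) := by
      rw [← sq_abs]
      refine (pow_le_pow_left₀ (abs_nonneg _) h6 2).trans ?_
      rw [← Real.rpow_natCast, ← Real.rpow_mul hp0.le]
      exact le_of_eq (by congr 1; push_cast; ring)
    have h10 : (1 : ℝ) ≤ (p : ℝ) ^ (η / 4) := Real.one_le_rpow h8 (by positivity)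
    have h11 : (p : ℝ) ^ (η / 2) = (p : ℝ) ^ (η / 4) * (p : ℝ) ^ (η / 4) := by
      rw [← Real.rpow_add hp0]
      congr 1
      ring
    rw [h11]
    have h12 : 0 ≤ 2 * (2 * π) ^ 2 := by positivity
    nlinarith [mul_le_mul_of_nonneg_left h9 h12]
  obtain ⟨p₃, P₃⟩ := hlim
  refine ⟨max (max p₁ p₂) (max p₃ 1), fun p hp hpp q _ hq => ?_⟩
  have hp1 : p₁ ≤ p := le_trans (le_trans (le_max_left _ _) (le_max_left _ _)) hp
  have hp2 : p₂ ≤ p := le_trans (le_trans (le_max_right _ _) (le_max_left _ _)) hp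
  have hp3 : p₃ ≤ p := le_trans (le_trans (le_max_left _ _) (le_max_right _ _)) hp
  have hpR : (0 : ℝ) < p := by exact_mod_cast hpp.pos
  have hp1R : (1 : ℝ) ≤ p := by exact_mod_cast hpp.pos
  have hq0 : 0 < q := Nat.pos_of_ne_zero (NeZero.ne q)
  have hqR : (0 : ℝ) < q := by exact_mod_cast hq0
  have hsN0 : 0 < √(N : ℝ) := by linarith
  set y : ℝ := 1 / (√N * q) with hy
  set Y : ℝ := (p : ℝ) ^ C / q with hY
  have hy0 : 0 < y := by positivity
  have hyY : y ≤ Y := by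
    rw [hy, hY, div_le_div_iff₀ (by positivity) hqR, one_mul]
    have : (1 : ℝ) ≤ (p : ℝ) ^ C := one_le_pow₀ hp1R
    nlinarith [mul_le_mul this hsN zero_le_one (by linarith), mul_pos hsN0 hqR]
  have h1 := P₁ p hp1 hpp q hq
  have h2 := up_int g p q hy0 hyY (M := (p : ℝ) ^ (2 - w + η / 2))
    (fun t ht ht' => P₂ p hp2 hpp q hq t ht ht')
  have hlog : Real.log (Y / y) = C * Real.log p + Real.log √N := by
    have h3 : Y / y = (p : ℝ) ^ C * √N := by
      rw [hy, hY]
      field_simp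
    rw [h3, Real.log_mul (by positivity) hsN0.ne', Real.log_pow]
  rw [hlog] at h2
  have h4 := P₃ p hp3
  have h5 : EU q (fun u => UpS g p q y u ^ 2) ≤ 2 * EU q (fun u => UpS g p q Y u ^ 2) +
      2 * EU q (fun u => (-(2 * π * ∫ t in y..Y, (UpF g p q t u).re)) ^ 2) := by
    refine le_trans (le_of_eq ?_) (up_EU_sub _ _)
    congr 1
    funext u
    rw [up_S g p q hy0 hyY u, sub_neg_eq_add]
  have h6 : EU q (fun u => (-(2 * π * ∫ t in y..Y, (UpF g p q t u).re)) ^ 2) =
      (2 * π) ^ 2 * EU q (fun u => (∫ t in y..Y, (UpF g p q t u).re) ^ 2) := by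
    rw [← up_EU_mul]
    congr 1
    funext u
    ring
  rw [h6] at h5
  have h7 : (p : ℝ) ^ (2 - w + η) = (p : ℝ) ^ (η / 2) * (p : ℝ) ^ (2 - w + η / 2) := by
    rw [← Real.rpow_add hpR]
    congr 1
    ring
  have h8 : (0 : ℝ) < (p : ℝ) ^ (2 - w + η / 2) := Real.rpow_pos_of_pos hpR _
  have h9 : EU q (fun u => UpS g p q y u ^ 2) ≤ (p : ℝ) ^ (2 - w + η) := by
    refine h5.trans ?_
    rw [h7]
    have h10 := mul_le_mul_of_nonneg_left h2 (by positivity : 0 ≤ 2 * (2 * π) ^ 2)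
    have h11 := mul_le_mul_of_nonneg_right h4 h8.le
    nlinarith
  exact h9

end Pool.Agent.MU0
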