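import Pool.Agent.MU0.UpB
import Pool.Agent.MU0.Topg
import Pool.Agent.MU0.Bd
import Pool.Agent.MU0.Cb

/-!
# The top frequencies: from `top` (all `b` modulo `q`) to the form used in `upper_one_of`
-/

set_option autoImplicit false

open Finset CongruenceSubgroup UpperHalfPlane
open Pool.Agent.MZ Pool.Agent.MZ.Per Pool.Agent.MU1
open scoped Real

namespace Pool.Agent.MU0

/-- The series `TS (xb b t)` is `t g(v/q + i t)`. -/
theorem up_TS {N : ℕ} [NeZero N] (g : CuspForm (Gamma0 N) 2) {b : ℕ → ℝ}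
    (hb : ∀ n, (UpperHalfPlane.qExpansion 1 g).coeff n = b n) {q : ℕ} [NeZero q] {t : ℝ}
    (ht : 0 < t) (v : ZMod q) :
    TS (xb b t) v = (t : ℂ) * g (vert ((v.val : ℝ) / q) t) := by
  have hq : (q : ℂ) ≠ 0 := by exact_mod_cast NeZero.ne q
  have hz : 0 < ((((v.val : ℝ) / q : ℝ) : ℂ) + (t : ℂ) * Complex.I).im := by
    simpa using ht
  have h1 := (hasSum_q g (a := fun n => (b n : ℂ)) hb _ hz).mul_left (t : ℂ)
  have h2 : vert ((v.val : ℝ) / q) t =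
      ofComplex ((((v.val : ℝ) / q : ℝ) : ℂ) + (t : ℂ) * Complex.I) := rfl
  rw [h2]
  unfold TS
  rw [← h1.tsum_eq]
  congr 1
  funext m
  have h3 : (m : ZMod q) * v = (((m * v.val : ℕ) : ℤ) : ZMod q) := by
    push_cast
    rw [ZMod.natCast_zmod_val]
  rw [h3, ZMod.stdAddChar_coe, xb]
  push_cast
  have h4 : Complex.exp (2 * π * Complex.I * m * ((v.val : ℂ) / q + t * Complex.I)) =
      Complex.exp (-(2 * π * m * t)) * Complex.exp (2 * π * Complex.I * (m * v.val) / q) := by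
    rw [← Complex.exp_add]
    congr 1
    linear_combination (2 * π * m * t) * Complex.I_mul_I
  rw [h4]
  ring

theorem up_norm_F {N : ℕ} [NeZero N] (g : CuspForm (Gamma0 N) 2) {b : ℕ → ℝ}
    (hb : ∀ n, (UpperHalfPlane.qExpansion 1 g).coeff n = b n) {p q : ℕ} [NeZero q] {t : ℝ}
    (ht : 0 < t) (u : (ZMod q)ˣ) :
    ‖∑ ζ ∈ HH p q, TS (xb b t) ((ζ : ZMod q) * (u : ZMod q))‖ ^ 2 = t ^ 2 * ‖UpF g p q t u‖ ^ 2 := by
  have h1 : ∑ ζ ∈ HH p q, TS (xb b t) ((ζ : ZMod q) * (u : ZMod q)) = (t : ℂ) * UpF g p q t u := by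
    unfold UpF
    rw [Finset.mul_sum]
    refine Finset.sum_congr rfl fun ζ _ => ?_
    rw [up_TS g hb ht, Units.val_mul]
  rw [h1, norm_mul, _root_.mul_pow, Complex.norm_real, Real.norm_of_nonneg ht.le]

/-- The average over the units of a prime power. -/
theorem up_EU_EE {p n q : ℕ} [NeZero q] (hp : p.Prime) (hn : n ≠ 0) (hq : q = p ^ n)
    {F : ZMod q → ℝ} (hF : ∀ b, 0 ≤ F b) : EU q (fun u => F (u : ZMod q)) ≤ 2 * EE q F := by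
  have hqR : (0 : ℝ) < q := by exact_mod_cast Nat.pos_of_ne_zero (NeZero.ne q)
  have hφ : 0 < q.totient := Nat.totient_pos.2 (Nat.pos_of_ne_zero (NeZero.ne q))
  have hφR : (0 : ℝ) < q.totient := by exact_mod_cast hφ
  have h1 : (q : ℝ) ≤ 2 * q.totient := by
    have h2 : q ≤ 2 * q.totient := by
      obtain ⟨m, rfl⟩ := Nat.exists_eq_succ_of_ne_zero hn
      rw [hq, Nat.totient_prime_pow_succ hp, pow_succ]
      have h3 : p ≤ 2 * (p - 1) := by have := hp.two_le; omega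
      nlinarith [Nat.mul_le_mul_left (p ^ m) h3]
    exact_mod_cast h2
  have h2 : ∑ u : (ZMod q)ˣ, F (u : ZMod q) ≤ ∑ b : ZMod q, F b := by
    rw [← Finset.sum_image (f := F) (s := (Finset.univ : Finset (ZMod q)ˣ))
      (g := fun u => (u : ZMod q)) (fun x _ y _ h => Units.ext h)]
    exact Finset.sum_le_sum_of_subset_of_nonneg (Finset.subset_univ _) fun b _ _ => hF b
  have h3 : 0 ≤ ∑ b : ZMod q, F b := Finset.sum_nonneg fun b _ => hF b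
  unfold EU EE
  rw [div_le_iff₀ hφR]
  refine h2.trans ?_
  rw [mul_div_assoc', div_mul_eq_mul_div, le_div_iff₀ hqR]
  nlinarith [mul_le_mul_of_nonneg_left h1 h3]

/-- The hypothesis `hTop` of `upper_one_of` from the theorem `top`. -/
theorem up_top {N : ℕ} [NeZero N] (g : CuspForm (Gamma0 N) 2) {b : ℕ → ℝ}
    (hb : ∀ n, (UpperHalfPlane.qExpansion 1 g).coeff n = b n) (C : ℕ) (D : ℝ)
    (h : ∃ κ > (0 : ℝ), ∃ w₁ > (0 : ℝ), ∀ w : ℝ, 0 < w → w < w₁ → ∃ p₀ : ℕ,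
      ∀ p : ℕ, p₀ ≤ p → p.Prime → ∀ (q : ℕ) [NeZero q], q = p ^ nn w p → ∀ η : ℝ,
      1 / (√N * q) ≤ η → η ≤ (p : ℝ) ^ C / q →
      EE q (fun u => ‖∑ ζ ∈ HH p q, TS (xb b η) ((ζ : ZMod q) * u)‖ ^ 2) ≤ D * (p : ℝ) ^ (2 - κ)) :
    ∃ w₀ > (0 : ℝ), ∀ w : ℝ, 0 < w → w < w₀ → ∀ η > (0 : ℝ),
      ∃ p₀ : ℕ, ∀ p : ℕ, p₀ ≤ p → p.Prime → ∀ (q : ℕ) [NeZero q], q = p ^ nn w p →
        ∀ t : ℝ, 1 / (√N * q) ≤ t → t ≤ (p : ℝ) ^ C / q →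
          t ^ 2 * EU q (fun u => ‖UpF g p q t u‖ ^ 2) ≤ (p : ℝ) ^ (2 - w + η) := by
  obtain ⟨κ, hκ, w₁, hw₁, H⟩ := h
  refine ⟨min w₁ κ, lt_min hw₁ hκ, fun w hw hw' η hη => ?_⟩
  obtain ⟨p₁, P₁⟩ := H w hw (hw'.trans_le (min_le_left _ _))
  obtain ⟨p₂, hp₂⟩ := exists_nat_gt ((2 * (|D| + 1) : ℝ) ^ (1 / η))
  refine ⟨max p₁ p₂, fun p hp hpp q _ hq t ht ht' => ?_⟩
  have hp1 : p₁ ≤ p := le_trans (le_max_left _ _) hp
  have hp2 : p₂ ≤ p := le_trans (le_max_right _ _) hp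
  have hpR : (0 : ℝ) < p := by exact_mod_cast hpp.pos
  have hp1R : (1 : ℝ) ≤ p := by exact_mod_cast hpp.one_lt.le
  have hN : (0 : ℝ) < N := by exact_mod_cast Nat.pos_of_ne_zero (NeZero.ne N)
  have hqR : (0 : ℝ) < q := by exact_mod_cast Nat.pos_of_ne_zero (NeZero.ne q)
  have ht0 : 0 < t := lt_of_lt_of_le (by positivity) ht
  have hn : nn w p ≠ 0 := by
    unfold nn
    have : 0 < ⌈(p : ℝ) ^ (1 - w)⌉₊ := Nat.ceil_pos.2 (Real.rpow_pos_of_pos hpR _)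
    omega
  have h1 := P₁ p hp1 hpp q hq t ht ht'
  have h2 := up_EU_EE hpp hn hq
    (F := fun u => ‖∑ ζ ∈ HH p q, TS (xb b t) ((ζ : ZMod q) * u)‖ ^ 2) (fun b => by positivity)
  simp only [up_norm_F g hb ht0] at h2
  rw [up_EU_mul] at h2
  have h3 : (2 * (|D| + 1) : ℝ) ≤ (p : ℝ) ^ η := by
    have h8 : (2 * (|D| + 1) : ℝ) ^ (1 / η) ≤ p := hp₂.le.trans (by exact_mod_cast hp2)
    have h9 := Real.rpow_le_rpow (by positivity) h8 hη.le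
    rw [← Real.rpow_mul (by positivity), show 1 / η * η = 1 by field_simp, Real.rpow_one] at h9
    exact h9
  have h4 : (p : ℝ) ^ (2 - κ) ≤ (p : ℝ) ^ (2 - w) :=
    Real.rpow_le_rpow_of_exponent_le hp1R (by linarith [hw'.trans_le (min_le_right w₁ κ)])
  have h5 : (p : ℝ) ^ (2 - w + η) = (p : ℝ) ^ (2 - w) * (p : ℝ) ^ η := Real.rpow_add hpR _ _
  rw [h5]
  have h6 : (0 : ℝ) < (p : ℝ) ^ (2 - w) := Real.rpow_pos_of_pos hpR _
  have h7 : (0 : ℝ) < (p : ℝ) ^ (2 - κ) := Real.rpow_pos_of_pos hpR _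
  have h8 : D * (p : ℝ) ^ (2 - κ) ≤ (|D| + 1) * (p : ℝ) ^ (2 - w) := by
    have h9 : D ≤ |D| + 1 := by linarith [le_abs_self D]
    have h10 : 0 ≤ |D| + 1 := by positivity
    calc D * (p : ℝ) ^ (2 - κ) ≤ (|D| + 1) * (p : ℝ) ^ (2 - κ) := mul_le_mul_of_nonneg_right h9 h7.le
      _ ≤ (|D| + 1) * (p : ℝ) ^ (2 - w) := mul_le_mul_of_nonneg_left h4 h10
  nlinarith [mul_le_mul_of_nonneg_right h3 h6.le]

/-- The series of the primitive. -/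
theorem up_srL {N : ℕ} [NeZero N] (g : CuspForm (Gamma0 N) 2) {b : ℕ → ℝ}
    (hb : ∀ n, (UpperHalfPlane.qExpansion 1 g).coeff n = b n) {q : ℕ} [NeZero q] {t : ℝ}
    (ht : 0 < t) (v : ZMod q) :
    sr (fun m => b m / m * Real.exp (-(2 * π * m * t))) v = G g (vert ((v.val : ℝ) / q) t) := by
  have h1 := hasSum_G g (a := fun n => (b n : ℂ)) hb (vert ((v.val : ℝ) / q) t)
  unfold sr
  rw [← h1.tsum_eq]
  congr 1
  funext m
  have h3 : (m : ZMod q) * v = (((m * v.val : ℕ) : ℤ) : ZMod q) := by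
    push_cast
    rw [ZMod.natCast_zmod_val]
  rw [h3, ZMod.stdAddChar_coe, coe_vert ht]
  push_cast
  have h4 : Complex.exp (2 * π * Complex.I * m * ((v.val : ℂ) / q + t * Complex.I)) =
      Complex.exp (-(2 * π * m * t)) * Complex.exp (2 * π * Complex.I * (m * v.val) / q) := by
    rw [← Complex.exp_add]
    congr 1
    linear_combination (2 * π * m * t) * Complex.I_mul_I
  rw [h4]
  ring

/-- The statement of the module LOW for the cusp form `g`. -/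
def LowSt {N : ℕ} [NeZero N] (g : CuspForm (Gamma0 N) 2) : Prop :=
  ∃ w₀ > (0 : ℝ), ∀ w : ℝ, 0 < w → w < w₀ → ∀ η > (0 : ℝ),
      ∃ p₀ : ℕ, ∀ p : ℕ, p₀ ≤ p → p.Prime → ∀ (q : ℕ) [NeZero q], q = p ^ nn w p →
        EU q (fun u => UpS g p q ((p : ℝ) ^ 200 / q) u ^ 2) ≤ (p : ℝ) ^ (2 - w + η)

/-- The statement of the module TOP for the cusp form with the coefficients `a`. -/
def TopSt (N : ℕ) (a : ℕ → ℤ) : Prop :=
  ∀ w : ℝ, 0 < w → w < 1 / 3 → ∃ p₀ : ℕ, ∀ p : ℕ, p₀ ≤ p → p.Prime →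
    ∀ (q : ℕ) [NeZero q], q = p ^ nn w p → ∀ η : ℝ, 1 / (√N * q) ≤ η →
      EE q (fun b => ‖∑ ζ ∈ HH p q, FF a η ((ζ : ZMod q) * b)‖ ^ 2) ≤
        (p : ℝ) ^ (2 - 1 / 12 : ℝ)

/-- The statement of the module LOW for `f` at all the heights. -/
def LowAll (a : ℕ → ℤ) : Prop :=
  ∃ w₀ > (0 : ℝ), ∀ w : ℝ, 0 < w → w < w₀ → ∀ η > (0 : ℝ), ∃ p₀ : ℕ, ∀ p : ℕ, p₀ ≤ p → p.Prime →
      ∀ (q : ℕ) [NeZero q], q = p ^ nn w p → ∀ t : ℝ, (p : ℝ) ^ 200 / q ≤ t →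
        EE q (fun u => ‖∑ ζ ∈ HH p q, sr (fun m => (a m : ℝ) / m * Real.exp (-(2 * π * m * t)))
          ((ζ : ZMod q) * u)‖ ^ 2) ≤ (p : ℝ) ^ (2 - w + η)

/-- From all `b` modulo `q` to the units. -/
theorem up_lowSt {N : ℕ} [NeZero N] (g : CuspForm (Gamma0 N) 2) {b : ℕ → ℝ}
    (hb : ∀ n, (UpperHalfPlane.qExpansion 1 g).coeff n = b n) {C w₀ : ℝ} (hw₀ : 0 < w₀)
    (h : ∀ w : ℝ, 0 < w → w < w₀ → ∀ η > (0 : ℝ), ∃ p₀ : ℕ, ∀ p : ℕ, p₀ ≤ p →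
      p.Prime → ∀ (q : ℕ) [NeZero q], q = p ^ nn w p → ∀ t : ℝ, (p : ℝ) ^ 200 / q ≤ t →
        EE q (fun u => ‖∑ ζ ∈ HH p q, sr (fun m => b m / m * Real.exp (-(2 * π * m * t)))
          ((ζ : ZMod q) * u)‖ ^ 2) ≤ C * (p : ℝ) ^ (2 - w + η)) : LowSt g := by
  refine ⟨w₀, hw₀, fun w hw hw' η hη => ?_⟩
  obtain ⟨p₁, P₁⟩ := h w hw hw' (η / 2) (by positivity)
  obtain ⟨p₂, hp₂⟩ := exists_nat_gt ((2 * (|C| + 1) : ℝ) ^ (2 / η))
  refine ⟨max p₁ p₂, fun p hp hpp q _ hq => ?_⟩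
  have hp1 : p₁ ≤ p := le_trans (le_max_left _ _) hp
  have hp2 : p₂ ≤ p := le_trans (le_max_right _ _) hp
  have hpR : (0 : ℝ) < p := by exact_mod_cast hpp.pos
  have hqR : (0 : ℝ) < q := by exact_mod_cast Nat.pos_of_ne_zero (NeZero.ne q)
  have ht0 : (0 : ℝ) < (p : ℝ) ^ 200 / q := by positivity
  have hn : nn w p ≠ 0 := by
    unfold nn
    have : 0 < ⌈(p : ℝ) ^ (1 - w)⌉₊ := Nat.ceil_pos.2 (Real.rpow_pos_of_pos hpR _)
    omega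
  have h1 := P₁ p hp1 hpp q hq _ le_rfl
  have h2 := up_EU_EE hpp hn hq (F := fun u => ‖∑ ζ ∈ HH p q,
    sr (fun m => b m / m * Real.exp (-(2 * π * m * ((p : ℝ) ^ 200 / q)))) ((ζ : ZMod q) * u)‖ ^ 2)
    (fun b => by positivity)
  have h3 : ∀ u : (ZMod q)ˣ, UpS g p q ((p : ℝ) ^ 200 / q) u ^ 2 ≤ ‖∑ ζ ∈ HH p q,
      sr (fun m => b m / m * Real.exp (-(2 * π * m * ((p : ℝ) ^ 200 / q))))
        ((ζ : ZMod q) * (u : ZMod q))‖ ^ 2 := by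
    intro u
    have h4 : UpS g p q ((p : ℝ) ^ 200 / q) u = (∑ ζ ∈ HH p q,
      sr (fun m => b m / m * Real.exp (-(2 * π * m * ((p : ℝ) ^ 200 / q))))
        ((ζ : ZMod q) * (u : ZMod q))).re := by
      unfold UpS
      rw [Complex.re_sum]
      refine Finset.sum_congr rfl fun ζ _ => ?_
      rw [up_srL g hb ht0, Units.val_mul]
    rw [h4, ← sq_abs]
    exact pow_le_pow_left₀ (abs_nonneg _) (Complex.abs_re_le_norm _) 2
  refine (up_EU_le h3).trans (h2.trans ?_)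
  have h5 : (2 * (|C| + 1) : ℝ) ≤ (p : ℝ) ^ (η / 2) := by
    have h8 : (2 * (|C| + 1) : ℝ) ^ (2 / η) ≤ p := hp₂.le.trans (by exact_mod_cast hp2)
    have h9 := Real.rpow_le_rpow (by positivity) h8 (by positivity : 0 ≤ η / 2)
    rw [← Real.rpow_mul (by positivity), show 2 / η * (η / 2) = 1 by field_simp, Real.rpow_one] at h9
    exact h9
  have h6 : (p : ℝ) ^ (2 - w + η) = (p : ℝ) ^ (η / 2) * (p : ℝ) ^ (2 - w + η / 2) := by
    rw [← Real.rpow_add hpR]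
    congr 1
    ring
  rw [h6]
  have h7 : (0 : ℝ) < (p : ℝ) ^ (2 - w + η / 2) := Real.rpow_pos_of_pos hpR _
  have h8 : C ≤ |C| + 1 := by linarith [le_abs_self C]
  have h9 := mul_le_mul_of_nonneg_right h8 h7.le
  have h10 := mul_le_mul_of_nonneg_right h5 h7.le
  linarith

theorem up_lowSt_f {N : ℕ} [NeZero N] (f : CuspForm (Gamma0 N) 2) {a : ℕ → ℤ} (hf : Frm f a)
    (h : LowAll a) : LowSt f := by
  obtain ⟨w₀, hw₀, h⟩ := h
  refine up_lowSt f (b := fun n => (a n : ℝ)) (by simpa using hf.coeff) (C := 1) hw₀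
    fun w hw hw' η hη => ?_
  obtain ⟨p₀, h⟩ := h w hw hw' η hη
  refine ⟨p₀, fun p hp hpp q _ hq t ht => ?_⟩
  rw [one_mul]
  exact h p hp hpp q hq t ht

theorem up_lowSt_g {N : ℕ} [NeZero N] (f g : CuspForm (Gamma0 N) 2) {a : ℕ → ℤ} {b : ℕ → ℝ}
    (hf : Frm f a) (hg : Eig g b a) (h : LowAll a) : LowSt g := by
  obtain ⟨w₀, hw₀, h⟩ := h
  obtain ⟨C, _, hC⟩ := low_g' f g hf hg (coef_bound g hg.coeff) h
  exact up_lowSt g hg.coeff hw₀ hC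

/-- `upper_one` for `f`. -/
theorem upper_one_f {N : ℕ} [NeZero N] (f : CuspForm (Gamma0 N) 2) {a : ℕ → ℤ} (hf : Frm f a)
    (hlow : LowSt f) (htop : TopSt N a) :
    ∃ w₀ > (0 : ℝ), ∀ w : ℝ, 0 < w → w < w₀ → ∀ η > (0 : ℝ),
    ∃ p₀ : ℕ, ∀ p : ℕ, p₀ ≤ p → p.Prime → ∀ (q : ℕ) [NeZero q], q = p ^ nn w p →
      EU q (fun u => (∑ ζ ∈ HH p q, (G f (vert ((((ζ * u : (ZMod q)ˣ) : ZMod q).val : ℝ) / q)
        (1 / (√N * q)))).re) ^ 2) ≤ (p : ℝ) ^ (2 - w + η) := by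
  refine upper_one_of f 200 hlow (up_top f (b := fun n => (a n : ℝ)) (by simpa using hf.coeff) 200 1
    ⟨1 / 12, by norm_num, 1 / 3, by norm_num, fun w hw hw' => ?_⟩)
  obtain ⟨p₀, h⟩ := htop w hw hw'
  refine ⟨p₀, fun p hp hpp q _ hq η hη _ => ?_⟩
  rw [one_mul]
  exact h p hp hpp q hq η hη

/-- `upper_one` for `g`. -/
theorem upper_one_g {N : ℕ} [NeZero N] (f g : CuspForm (Gamma0 N) 2) {a : ℕ → ℤ} {b : ℕ → ℝ}
    (hf : Frm f a) (hg : Eig g b a) (hlow : LowSt g) (htop : TopSt N a) :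
    ∃ w₀ > (0 : ℝ), ∀ w : ℝ, 0 < w → w < w₀ → ∀ η > (0 : ℝ),
    ∃ p₀ : ℕ, ∀ p : ℕ, p₀ ≤ p → p.Prime → ∀ (q : ℕ) [NeZero q], q = p ^ nn w p →
      EU q (fun u => (∑ ζ ∈ HH p q, (G g (vert ((((ζ * u : (ZMod q)ˣ) : ZMod q).val : ℝ) / q)
        (1 / (√N * q)))).re) ^ 2) ≤ (p : ℝ) ^ (2 - w + η) := by
  obtain ⟨D, hD⟩ := top_g' f g hf hg (coef_bound g hg.coeff) htop
  refine upper_one_of g 200 hlow (up_top g hg.coeff 200 D
    ⟨1 / 12, by norm_num, 1 / 3, by norm_num, fun w hw hw' => ?_⟩)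
  obtain ⟨p₀, h⟩ := hD w hw hw'
  exact ⟨p₀, fun p hp hpp q _ hq η hη _ => h p hp hpp q hq η hη⟩

/-- `upper` from the modules LOW and TOP. -/
theorem upper_fin {N : ℕ} [NeZero N] (f g : CuspForm (Gamma0 N) 2) {a : ℕ → ℤ} {b : ℕ → ℝ}
    (hf : Frm f a) (hW : IsW f g) (hg : Eig g b a) (hlow : LowAll a) (htop : TopSt N a) :
    ∃ w₀ > (0 : ℝ), ∀ w : ℝ, 0 < w → w < w₀ → ∀ η > (0 : ℝ),
    ∃ p₀ : ℕ, ∀ p : ℕ, p₀ ≤ p → p.Prime → ∀ (q : ℕ) [NeZero q], q = p ^ nn w p →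
      EU q (fun u => TT f p q u ^ 2) ≤ (p : ℝ) ^ (2 - w + η) :=
  upper_of f g (fun {_} hq {_ _} hbr {_} hy => bd_pair f g hW hq hbr hy)
    (upper_one_f f hf (up_lowSt_f f hf hlow) htop)
    (upper_one_g f g hf hg (up_lowSt_g f g hf hg hlow) htop)

end Pool.Agent.MU0
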