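import Pool.Agent.MU0.UpC
import Pool.Agent.MU0.Low

/-!
# `upper` from `top`
-/

set_option autoImplicit false

open Finset CongruenceSubgroup
open Pool.Agent.MZ Pool.Agent.MZ.Per Pool.Agent.MU1
open scoped Real

namespace Pool.Agent.MU0

theorem lowAll_of {N : ℕ} [NeZero N] (f : CuspForm (Gamma0 N) 2) {a : ℕ → ℤ} (hf : Frm f a) :
    LowAll a :=
  ⟨1 / 3, by norm_num, fun w hw hw' η hη => low_f f hf w hw hw' η hη⟩

theorem upper_of_top {N : ℕ} [NeZero N] (f g : CuspForm (Gamma0 N) 2) {a : ℕ → ℤ} {b : ℕ → ℝ}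
    (hf : Frm f a) (hW : IsW f g) (hg : Eig g b a) (htop : TopSt N a) :
    ∃ w₀ > (0 : ℝ), ∀ w : ℝ, 0 < w → w < w₀ → ∀ η > (0 : ℝ),
    ∃ p₀ : ℕ, ∀ p : ℕ, p₀ ≤ p → p.Prime → ∀ (q : ℕ) [NeZero q], q = p ^ nn w p →
      EU q (fun u => TT f p q u ^ 2) ≤ (p : ℝ) ^ (2 - w + η) :=
  upper_fin f g hf hW hg (lowAll_of f hf) htop

end Pool.Agent.MU0
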