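import Pool.Agent.MU0.Defs
import Pool.Agent.MU0.E4b

/-!
# Correlations of `f(l₁ x)` and `f(l₂ x)`: the frequencies and the diagonal
-/

set_option autoImplicit false

open Finset CongruenceSubgroup
open Pool.Agent.MZ Pool.Agent.MZ.Per Pool.Agent.MU1
open scoped Real ComplexConjugate

namespace Pool.Agent.MU0.XX

/-- `e(x)` -/
noncomputable def e (x : ℝ) : ℂ := Complex.exp ((2 * π * x : ℝ) * Complex.I)

theorem norm_e (x : ℝ) : ‖e x‖ = 1 := Complex.norm_exp_ofReal_mul_I _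

theorem e_add (x y : ℝ) : e (x + y) = e x * e y := by
  unfold e
  rw [← Complex.exp_add]
  congr 1
  push_cast
  ring

theorem e_zero : e 0 = 1 := by
  simp [e]

theorem conj_e (x : ℝ) : conj (e x) = e (-x) := by
  unfold e
  rw [← Complex.exp_conj]
  congr 1
  rw [map_mul, Complex.conj_ofReal, Complex.conj_I]
  push_cast
  ring

theorem e_int (k : ℤ) : e k = 1 := by
  unfold e
  rw [show ((2 * π * (k : ℝ) : ℝ) : ℂ) * Complex.I = k * (2 * π * Complex.I) by push_cast; ring]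
  exact Complex.exp_int_mul_two_pi_mul_I k

theorem continuous_e : Continuous e := by
  unfold e
  fun_prop

/-- `∫_0^1 e(kx) dx` -/
theorem integral_e (k : ℤ) : ∫ x in (0 : ℝ)..1, e (k * x) = if k = 0 then 1 else 0 := by
  split_ifs with h
  · subst h
    simp [e_zero]
  · have hc : (2 * π * k * Complex.I : ℂ) ≠ 0 := by
      have : (k : ℂ) ≠ 0 := by exact_mod_cast h
      have hπ : (π : ℂ) ≠ 0 := by exact_mod_cast Real.pi_ne_zero
      simp [this, hπ, Complex.I_ne_zero]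
    have h1 := integral_exp_mul_complex (a := 0) (b := 1) hc
    have h2 : ∀ x : ℝ, e (k * x) = Complex.exp ((2 * π * k * Complex.I) * x) := by
      intro x
      unfold e
      congr 1
      push_cast
      ring
    simp_rw [h2]
    rw [h1]
    have h3 : Complex.exp (2 * π * k * Complex.I * (1 : ℝ)) = 1 := by
      have := e_int k
      unfold e at this
      rw [← this]
      congr 1
      push_cast
      ring
    rw [h3]
    simp

/-- `E_u e(k u/q)` -/
theorem avg_e (q : ℕ) [NeZero q] (k : ℤ) :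
    (1 / (q : ℂ)) * ∑ u : ZMod q, e (k * ((u.val : ℝ) / q)) = if (q : ℤ) ∣ k then 1 else 0 := by
  have hq : (q : ℂ) ≠ 0 := by exact_mod_cast NeZero.ne q
  have h1 : ∀ u : ZMod q, e (k * ((u.val : ℝ) / q)) = ZMod.stdAddChar ((k : ZMod q) * u) := by
    intro u
    have h2 : (k : ZMod q) * u = ((k * u.val : ℤ) : ZMod q) := by
      push_cast
      rw [ZMod.natCast_zmod_val]
    rw [h2, ZMod.stdAddChar_coe]
    unfold e
    congr 1
    push_cast
    ring
  simp_rw [h1]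
  have h3 := AddChar.sum_mulShift (R := ZMod q) (R' := ℂ) (k : ZMod q)
    (ZMod.isPrimitive_stdAddChar q)
  have h4 : ∀ u : ZMod q, (k : ZMod q) * u = u * (k : ZMod q) := fun u => mul_comm _ _
  simp_rw [h4]
  rw [h3]
  by_cases h : (q : ℤ) ∣ k
  · rw [if_pos h, if_pos ((ZMod.intCast_zmod_eq_zero_iff_dvd k q).2 h), ZMod.card]
    field_simp
  · rw [if_neg h, if_neg (fun h' => h ((ZMod.intCast_zmod_eq_zero_iff_dvd k q).1 h'))]
    simp

/-- `∑ x(m) e(mt)` -/
noncomputable def FS (x : ℕ → ℝ) (t : ℝ) : ℂ := ∑' m : ℕ, ((x m : ℝ) : ℂ) * e (m * t)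

variable {x : ℕ → ℝ}

theorem norm_term (m : ℕ) (t : ℝ) : ‖((x m : ℝ) : ℂ) * e (m * t)‖ = |x m| := by
  rw [norm_mul, norm_e, mul_one, Complex.norm_real, Real.norm_eq_abs]

theorem hasSum_FS (hx : Summable fun m => |x m|) (t : ℝ) :
    HasSum (fun m : ℕ => ((x m : ℝ) : ℂ) * e (m * t)) (FS x t) := by
  refine (Summable.of_norm ?_).hasSum
  simp_rw [norm_term]
  exact hx

theorem summable_pair (hx : Summable fun m => |x m|) :
    Summable (fun p : ℕ × ℕ => |x p.1| * |x p.2|) :=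
  hx.mul_of_nonneg hx (fun _ => abs_nonneg _) (fun _ => abs_nonneg _)

/-- the product of the two series -/
theorem hasSum_prod (hx : Summable fun m => |x m|) (l₁ l₂ : ℕ) (t s : ℝ) :
    HasSum (fun p : ℕ × ℕ => ((x p.1 * x p.2 : ℝ) : ℂ) * e (((l₁ * p.1 - l₂ * p.2 : ℤ) : ℝ) * t + s))
      (FS x (l₁ * t) * conj (FS x (l₂ * t)) * e s) := by
  have h1 := hasSum_FS hx (l₁ * t)
  have h2 := (hasSum_FS hx (l₂ * t)).map (starRingEnd ℂ) Complex.continuous_conj
  have h3 : Summable (fun p : ℕ × ℕ => (((x p.1 : ℝ) : ℂ) * e (p.1 * (l₁ * t))) *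
      ((starRingEnd ℂ) ∘ fun m : ℕ => ((x m : ℝ) : ℂ) * e (m * (l₂ * t))) p.2) := by
    refine Summable.of_norm ?_
    refine (summable_pair hx).congr fun p => ?_
    rw [norm_mul, norm_term, Function.comp_apply, RCLike.norm_conj, norm_term]
  have h4 := h1.mul h2 h3
  refine ((h4.mul_right (e s)).congr_fun ?_)
  intro p
  simp only [Function.comp_apply, map_mul, Complex.conj_ofReal, conj_e]
  rw [show (((l₁ * p.1 - l₂ * p.2 : ℤ) : ℝ) * t + s) = (p.1 * (l₁ * t)) + (-(p.2 * (l₂ * t))) + s by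
    push_cast; ring, e_add, e_add]
  push_cast
  ring

/-- the average over `b/q` -/
theorem hasSum_avg (hx : Summable fun m => |x m|) (l₁ l₂ q : ℕ) [NeZero q] :
    HasSum (fun p : ℕ × ℕ => ((x p.1 * x p.2 : ℝ) : ℂ) *
        (if (q : ℤ) ∣ l₁ * p.1 - l₂ * p.2 then 1 else 0))
      ((1 / (q : ℂ)) * ∑ u : ZMod q, FS x (l₁ * ((u.val : ℝ) / q)) *
        conj (FS x (l₂ * ((u.val : ℝ) / q)))) := by
  have h1 : ∀ u : ZMod q, HasSum (fun p : ℕ × ℕ => ((x p.1 * x p.2 : ℝ) : ℂ) *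
      e (((l₁ * p.1 - l₂ * p.2 : ℤ) : ℝ) * ((u.val : ℝ) / q)))
      (FS x (l₁ * ((u.val : ℝ) / q)) * conj (FS x (l₂ * ((u.val : ℝ) / q)))) := by
    intro u
    have := hasSum_prod hx l₁ l₂ ((u.val : ℝ) / q) 0
    simpa only [e_zero, mul_one, add_zero] using this
  have h2 := (hasSum_sum (s := (univ : Finset (ZMod q))) fun u _ => h1 u).mul_left (1 / (q : ℂ))
  refine h2.congr_fun ?_
  intro p
  rw [← avg_e q (l₁ * p.1 - l₂ * p.2), mul_left_comm, ← Finset.mul_sum]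

theorem continuous_FS (hx : Summable fun m => |x m|) : Continuous (FS x) := by
  unfold FS
  refine continuous_tsum (fun m => ?_) hx (fun m t => ?_)
  · exact continuous_const.mul (continuous_e.comp (continuous_const.mul continuous_id))
  · rw [norm_term]

/-- the Fourier coefficients -/
theorem hasSum_int (hx : Summable fun m => |x m|) (l₁ l₂ : ℕ) (h : ℤ) :
    HasSum (fun p : ℕ × ℕ => ((x p.1 * x p.2 : ℝ) : ℂ) *
        (if (l₁ * p.1 - l₂ * p.2 : ℤ) = h then 1 else 0))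
      (∫ t in (0 : ℝ)..1, FS x (l₁ * t) * conj (FS x (l₂ * t)) * e (-(h * t))) := by
  set f : ℕ × ℕ → C(ℝ, ℂ) := fun p => ⟨fun t => ((x p.1 * x p.2 : ℝ) : ℂ) *
    e (((l₁ * p.1 - l₂ * p.2 : ℤ) : ℝ) * t + (-(h * t))), by
      refine continuous_const.mul (continuous_e.comp ?_)
      fun_prop⟩ with hf
  have hn : ∀ (p : ℕ × ℕ) (t : ℝ), ‖f p t‖ = |x p.1| * |x p.2| := by
    intro p t
    rw [hf]
    simp only [ContinuousMap.coe_mk]
    rw [norm_mul, norm_e, mul_one, Complex.norm_real, Real.norm_eq_abs, abs_mul]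
  have h1 : Summable fun p : ℕ × ℕ =>
      ‖(f p).restrict (⟨Set.uIcc 0 1, isCompact_uIcc⟩ : TopologicalSpace.Compacts ℝ)‖ := by
    refine Summable.of_nonneg_of_le (fun _ => norm_nonneg _) (fun p => ?_) (summable_pair hx)
    refine (ContinuousMap.norm_le _ (by positivity)).2 fun t => ?_
    rw [ContinuousMap.restrict_apply, hn]
  have h2 := intervalIntegral.hasSum_intervalIntegral_of_summable_norm (a := 0) (b := 1) h1
  have h3 : ∀ t : ℝ, ∑' p : ℕ × ℕ, f p t =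
      FS x (l₁ * t) * conj (FS x (l₂ * t)) * e (-(h * t)) := by
    intro t
    exact (hasSum_prod hx l₁ l₂ t (-(h * t))).tsum_eq
  simp_rw [h3] at h2
  refine h2.congr_fun ?_
  intro p
  have h4 : ∀ t : ℝ, f p t = ((x p.1 * x p.2 : ℝ) : ℂ) *
      e (((l₁ * p.1 - l₂ * p.2 - h : ℤ) : ℝ) * t) := by
    intro t
    rw [hf]
    simp only [ContinuousMap.coe_mk]
    congr 2
    push_cast
    ring
  simp_rw [h4]
  rw [intervalIntegral.integral_const_mul, integral_e]
  congr 1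
  simp only [sub_eq_zero]

/-- the frequencies: `E_b Ψ(b/q) = ∑_j Ψ^(jq)`, `|j| > J` trivially -/
theorem freq (hx : Summable fun m => |x m|) (l₁ l₂ q : ℕ) [NeZero q] (J : ℕ) :
    ‖(1 / (q : ℂ)) * ∑ u : ZMod q, FS x (l₁ * ((u.val : ℝ) / q)) *
        conj (FS x (l₂ * ((u.val : ℝ) / q)))‖ ≤
    (∑ j ∈ Icc (-(J : ℤ)) J, ‖∫ t in (0 : ℝ)..1, FS x (l₁ * t) * conj (FS x (l₂ * t)) *
      e (-(((j * q : ℤ) : ℝ) * t))‖) +
    ∑' p : ℕ × ℕ, |x p.1| * |x p.2| *
      (if ((J + 1) * q : ℝ) ≤ (l₁ + l₂) * (p.1 + p.2) then 1 else 0) := by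
  classical
  have hq0 : (0 : ℤ) < q := by exact_mod_cast NeZero.pos q
  have h1 := hasSum_avg hx l₁ l₂ q
  have h2 : HasSum (fun p : ℕ × ℕ => ∑ j ∈ Icc (-(J : ℤ)) J, ((x p.1 * x p.2 : ℝ) : ℂ) *
        (if (l₁ * p.1 - l₂ * p.2 : ℤ) = j * q then 1 else 0))
      (∑ j ∈ Icc (-(J : ℤ)) J, ∫ t in (0 : ℝ)..1, FS x (l₁ * t) * conj (FS x (l₂ * t)) *
      e (-(((j * q : ℤ) : ℝ) * t))) := hasSum_sum fun j _ => hasSum_int hx l₁ l₂ (j * q)
  have h3 := h1.sub h2
  set T : ℕ × ℕ → ℝ := fun p => |x p.1| * |x p.2| *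
      (if ((J + 1) * q : ℝ) ≤ (l₁ + l₂) * (p.1 + p.2) then 1 else 0) with hT
  have hTs : Summable T := by
    refine Summable.of_nonneg_of_le (fun p => ?_) (fun p => ?_) (summable_pair hx)
    · rw [hT]
      positivity
    · rw [hT]
      simp only
      refine mul_le_of_le_one_right (by positivity) ?_
      split_ifs
      · exact le_rfl
      · exact zero_le_one
  have h4 : ∀ p : ℕ × ℕ, ‖((x p.1 * x p.2 : ℝ) : ℂ) *
        (if (q : ℤ) ∣ l₁ * p.1 - l₂ * p.2 then 1 else 0) - ∑ j ∈ Icc (-(J : ℤ)) J,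
        ((x p.1 * x p.2 : ℝ) : ℂ) * (if (l₁ * p.1 - l₂ * p.2 : ℤ) = j * q then 1 else 0)‖ ≤ T p := by
    intro p
    rw [← Finset.mul_sum, ← mul_sub, norm_mul, Complex.norm_real, Real.norm_eq_abs, abs_mul, hT]
    simp only
    refine mul_le_mul_of_nonneg_left ?_ (by positivity)
    by_cases hd : (q : ℤ) ∣ l₁ * p.1 - l₂ * p.2
    · rw [if_pos hd]
      obtain ⟨i, hi⟩ := hd
      have h5 : ∀ j : ℤ, ((l₁ * p.1 - l₂ * p.2 : ℤ) = j * q) ↔ (i = j) := by
        intro j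
        rw [hi, mul_comm j]
        exact ⟨fun h => mul_left_cancel₀ hq0.ne' h, fun h => by rw [h]⟩
      simp_rw [h5]
      rw [Finset.sum_ite_eq]
      by_cases hiJ : i ∈ Icc (-(J : ℤ)) J
      · rw [if_pos hiJ, sub_self, norm_zero]
        split_ifs
        · exact zero_le_one
        · exact le_rfl
      · rw [if_neg hiJ, sub_zero, norm_one, if_pos]
        rw [Finset.mem_Icc, not_and_or, not_le, not_le] at hiJ
        have h6 : (J + 1 : ℤ) * q ≤ |(l₁ * p.1 - l₂ * p.2 : ℤ)| := by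
          rw [hi, abs_mul, abs_of_pos hq0, mul_comm]
          refine mul_le_mul_of_nonneg_left ?_ hq0.le
          rcases hiJ with h | h
          · rw [abs_of_neg (by omega)]
            omega
          · rw [abs_of_pos (by omega)]
            omega
        have h7 : |(l₁ * p.1 - l₂ * p.2 : ℤ)| ≤ (l₁ + l₂) * (p.1 + p.2) := by
          rw [abs_le]
          constructor
          · have : (0 : ℤ) ≤ l₁ * p.1 + (l₁ * p.1 + l₁ * p.2) + l₂ * p.1 := by positivity
            linarith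
          · have : (0 : ℤ) ≤ l₁ * p.2 + l₂ * p.1 + (l₂ * p.2 + l₂ * p.2) := by positivity
            linarith
        have h8 := h6.trans h7
        exact_mod_cast h8
    · rw [if_neg hd, Finset.sum_eq_zero]
      · rw [sub_zero, norm_zero]
        split_ifs
        · exact zero_le_one
        · exact le_rfl
      · intro j _
        rw [if_neg]
        intro h
        exact hd ⟨j, by rw [h, mul_comm]⟩
  have h9 : ‖(1 / (q : ℂ)) * ∑ u : ZMod q, FS x (l₁ * ((u.val : ℝ) / q)) *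
        conj (FS x (l₂ * ((u.val : ℝ) / q))) - ∑ j ∈ Icc (-(J : ℤ)) J,
        ∫ t in (0 : ℝ)..1, FS x (l₁ * t) * conj (FS x (l₂ * t)) *
      e (-(((j * q : ℤ) : ℝ) * t))‖ ≤ ∑' p, T p := by
    rw [← h3.tsum_eq]
    exact tsum_of_norm_bounded hTs.hasSum h4
  have h10 := norm_sub_norm_le ((1 / (q : ℂ)) * ∑ u : ZMod q, FS x (l₁ * ((u.val : ℝ) / q)) *
        conj (FS x (l₂ * ((u.val : ℝ) / q)))) (∑ j ∈ Icc (-(J : ℤ)) J,
        ∫ t in (0 : ℝ)..1, FS x (l₁ * t) * conj (FS x (l₂ * t)) *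
      e (-(((j * q : ℤ) : ℝ) * t)))
  have h11 := norm_sum_le (Icc (-(J : ℤ)) J) (fun j => ∫ t in (0 : ℝ)..1,
    FS x (l₁ * t) * conj (FS x (l₂ * t)) * e (-(((j * q : ℤ) : ℝ) * t)))
  linarith

/-! ### The trivial bound for the large frequencies -/

theorem sum_nexp {t : ℝ} (ht : 0 < t) : Summable (fun m : ℕ => (m : ℝ) * Real.exp (-(t * m))) ∧
    ∑' m : ℕ, (m : ℝ) * Real.exp (-(t * m)) ≤ (2 / t) * (1 + 2 / t) := by
  have hr0 : 0 ≤ Real.exp (-(t / 2)) := (Real.exp_pos _).le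
  have hr1 : Real.exp (-(t / 2)) < 1 := by
    rw [Real.exp_lt_one_iff]
    linarith
  have hg := (hasSum_geometric_of_lt_one hr0 hr1).mul_left (2 / t)
  have hle : ∀ m : ℕ, (m : ℝ) * Real.exp (-(t * m)) ≤ 2 / t * Real.exp (-(t / 2)) ^ m := by
    intro m
    rw [← Real.exp_nat_mul]
    have h1 : t / 2 * m ≤ Real.exp (t / 2 * m) := by
      have := Real.add_one_le_exp (t / 2 * m)
      linarith
    have h2 : Real.exp (-(t * m)) = Real.exp (-(t / 2 * m)) * Real.exp ((m : ℝ) * -(t / 2)) := by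
      rw [← Real.exp_add]
      congr 1
      ring
    rw [h2, ← mul_assoc]
    refine mul_le_mul_of_nonneg_right ?_ (Real.exp_pos _).le
    rw [Real.exp_neg, ← div_eq_mul_inv, div_le_iff₀ (Real.exp_pos _)]
    calc (m : ℝ) = 2 / t * (t / 2 * m) := by field_simp
      _ ≤ 2 / t * Real.exp (t / 2 * m) := by gcongr
  have hs : Summable (fun m : ℕ => (m : ℝ) * Real.exp (-(t * m))) :=
    Summable.of_nonneg_of_le (fun m => by positivity) hle hg.summable
  refine ⟨hs, (hs.tsum_le_tsum hle hg.summable).trans ?_⟩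
  rw [hg.tsum_eq]
  refine mul_le_mul_of_nonneg_left ?_ (by positivity)
  have h3 : Real.exp (-(t / 2)) ≤ 1 / (1 + t / 2) := by
    rw [Real.exp_neg, ← _root_.one_div]
    refine one_div_le_one_div_of_le (by positivity) ?_
    have := Real.add_one_le_exp (t / 2)
    linarith
  have h4 : t / 2 / (1 + t / 2) ≤ 1 - Real.exp (-(t / 2)) := by
    have : t / 2 / (1 + t / 2) = 1 - 1 / (1 + t / 2) := by field_simp; ring
    rw [this]
    linarith
  calc (1 - Real.exp (-(t / 2)))⁻¹ ≤ (t / 2 / (1 + t / 2))⁻¹ :=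
        inv_anti₀ (by positivity) h4
    _ = 1 + 2 / t := by
        field_simp
        ring

variable {b : ℕ → ℝ} {C₀ : ℝ}

theorem hecke_bd (h : E4.Bdd (fun n => (b n : ℂ)) C₀) (n : ℕ) :
    |b n| ≤ Real.exp (2 * π) * C₀ * n := by
  rcases Nat.eq_zero_or_pos n with rfl | hn
  · have h0 : b 0 = 0 := by exact_mod_cast h.zero
    simp [h0]
  · have := h.hecke n hn
    simpa only [Complex.norm_real, Real.norm_eq_abs] using this

/-- the coefficients of `η g(x + i η)` -/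
noncomputable def co (b : ℕ → ℝ) (η : ℝ) (m : ℕ) : ℝ := η * b m * Real.exp (-(2 * π * m * η))

theorem abs_co {η : ℝ} (hη : 0 < η) (m : ℕ) :
    |co b η m| = η * |b m| * Real.exp (-(2 * π * m * η)) := by
  rw [co, abs_mul, abs_mul, abs_of_pos hη, abs_of_pos (Real.exp_pos _)]

theorem summable_co (h : E4.Bdd (fun n => (b n : ℂ)) C₀) {η : ℝ} (hη : 0 < η) :
    Summable fun m => |co b η m| := by
  refine ((h.summ η hη).mul_left η).congr fun m => ?_
  rw [abs_co hη, Complex.norm_real, Real.norm_eq_abs]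
  ring

theorem half_sum (h : E4.Bdd (fun n => (b n : ℂ)) C₀) {η : ℝ} (hη : 0 < η) (hη1 : η ≤ 1) :
    Summable (fun m : ℕ => η * |b m| * Real.exp (-(π * m * η))) ∧
    ∑' m : ℕ, η * |b m| * Real.exp (-(π * m * η)) ≤ 2 * Real.exp (2 * π) * C₀ / η := by
  have hC0 := h.nonneg
  obtain ⟨h1, h2⟩ := sum_nexp (t := π * η) (by positivity)
  have hle : ∀ m : ℕ, η * |b m| * Real.exp (-(π * m * η)) ≤
      η * (Real.exp (2 * π) * C₀) * ((m : ℝ) * Real.exp (-(π * η * m))) := by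
    intro m
    have h3 := hecke_bd h m
    have h4 : Real.exp (-(π * m * η)) = Real.exp (-(π * η * m)) := by
      congr 1
      ring
    rw [h4]
    calc η * |b m| * Real.exp (-(π * η * m)) ≤
        η * (Real.exp (2 * π) * C₀ * m) * Real.exp (-(π * η * m)) := by gcongr
      _ = _ := by ring
  have hs : Summable (fun m : ℕ => η * |b m| * Real.exp (-(π * m * η))) :=
    Summable.of_nonneg_of_le (fun m => by positivity) hle (h1.mul_left _)
  refine ⟨hs, (hs.tsum_le_tsum hle (h1.mul_left _)).trans ?_⟩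
  rw [tsum_mul_left]
  have h5 : 2 / (π * η) ≤ 1 / η := by
    rw [div_le_div_iff₀ (by positivity) hη]
    nlinarith [Real.pi_gt_three]
  have h6 : 1 + 2 / (π * η) ≤ 2 / η := by
    have : 1 ≤ 1 / η := (one_le_div hη).2 hη1
    calc 1 + 2 / (π * η) ≤ 1 / η + 1 / η := add_le_add this h5
      _ = 2 / η := by ring
  calc η * (Real.exp (2 * π) * C₀) * ∑' m : ℕ, (m : ℝ) * Real.exp (-(π * η * m))
      ≤ η * (Real.exp (2 * π) * C₀) * (2 / (π * η) * (1 + 2 / (π * η))) := by gcongr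
    _ ≤ η * (Real.exp (2 * π) * C₀) * (1 / η * (2 / η)) := by gcongr
    _ = _ := by field_simp

theorem tail_le (h : E4.Bdd (fun n => (b n : ℂ)) C₀) {η : ℝ} (hη : 0 < η) (hη1 : η ≤ 1)
    (l₁ l₂ q J : ℕ) (hl : 0 < l₁ + l₂) :
    ∑' p : ℕ × ℕ, |co b η p.1| * |co b η p.2| *
      (if ((J + 1) * q : ℝ) ≤ (l₁ + l₂) * (p.1 + p.2) then 1 else 0) ≤
    (2 * Real.exp (2 * π) * C₀ / η) ^ 2 * Real.exp (-(π * η * ((J + 1) * q) / (l₁ + l₂))) := by
  obtain ⟨h1, h2⟩ := half_sum h hη hη1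
  have hlR : (0 : ℝ) < (l₁ : ℝ) + l₂ := by exact_mod_cast hl
  have hC0 := h.nonneg
  have hprod := (h1.hasSum.mul h1.hasSum (h1.mul_of_nonneg h1 (fun _ => by positivity)
    (fun _ => by positivity))).mul_left (Real.exp (-(π * η * ((J + 1) * q) / (l₁ + l₂))))
  have hle : ∀ p : ℕ × ℕ, |co b η p.1| * |co b η p.2| *
      (if ((J + 1) * q : ℝ) ≤ (l₁ + l₂) * (p.1 + p.2) then 1 else 0) ≤
      Real.exp (-(π * η * ((J + 1) * q) / (l₁ + l₂))) *
      ((η * |b p.1| * Real.exp (-(π * p.1 * η))) * (η * |b p.2| * Real.exp (-(π * p.2 * η)))) := by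
    intro p
    split_ifs with hp
    · rw [mul_one, abs_co hη, abs_co hη]
      have h3 : Real.exp (-(π * p.1 * η)) * Real.exp (-(π * p.2 * η)) ≤
          Real.exp (-(π * η * ((J + 1) * q) / (l₁ + l₂))) := by
        rw [← Real.exp_add, Real.exp_le_exp]
        have h4 : ((J + 1) * q : ℝ) / (l₁ + l₂) ≤ p.1 + p.2 := by
          rw [div_le_iff₀ hlR]
          linarith
        have h5 : π * η * (((J + 1) * q : ℝ) / (l₁ + l₂)) ≤ π * η * (p.1 + p.2) :=
          mul_le_mul_of_nonneg_left h4 (by positivity)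
        have h6 : π * η * ((J + 1) * q) / (l₁ + l₂) = π * η * (((J + 1) * q : ℝ) / (l₁ + l₂)) := by
          ring
        rw [h6]
        linarith
      have h7 : ∀ m : ℕ, Real.exp (-(2 * π * m * η)) =
          Real.exp (-(π * m * η)) * Real.exp (-(π * m * η)) := by
        intro m
        rw [← Real.exp_add]
        congr 1
        ring
      rw [h7, h7]
      have h8 : 0 ≤ (η * |b p.1| * Real.exp (-(π * p.1 * η))) *
          (η * |b p.2| * Real.exp (-(π * p.2 * η))) := by positivity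
      calc _ = (Real.exp (-(π * p.1 * η)) * Real.exp (-(π * p.2 * η))) *
            ((η * |b p.1| * Real.exp (-(π * p.1 * η))) *
              (η * |b p.2| * Real.exp (-(π * p.2 * η)))) := by ring
        _ ≤ _ := mul_le_mul_of_nonneg_right h3 h8
    · rw [mul_zero]
      positivity
  have hs := Summable.of_nonneg_of_le (fun p => by positivity) hle hprod.summable
  refine (hs.tsum_le_tsum hle hprod.summable).trans ?_
  rw [hprod.tsum_eq, mul_comm, ← sq]
  refine mul_le_mul_of_nonneg_right ?_ (Real.exp_pos _).le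
  exact pow_le_pow_left₀ (tsum_nonneg fun _ => by positivity) h2 2

/-! ### The diagonal -/

theorem dil {N : ℕ} {a : ℕ → ℤ} (h : E4.Bdd (fun n => (b n : ℂ)) C₀)
    (hecke : ∀ l : ℕ, l.Prime → ¬ l ∣ N → ∀ n : ℕ,
      b (l * n) + (if l ∣ n then (l : ℝ) * b (n / l) else 0) = a l * b n)
    (hasse : ∀ l : ℕ, l.Prime → ¬ l ∣ N → (a l : ℝ) ^ 2 ≤ 4 * l)
    {l : ℕ} (hl : l.Prime) (hlN : ¬ l ∣ N) {y : ℝ} (hy : 0 < y) :
    Summable (fun t : ℕ => (|b (l * t)| * Real.exp (-(2 * π * t * y))) ^ 2) ∧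
    ∑' t : ℕ, (|b (l * t)| * Real.exp (-(2 * π * t * y))) ^ 2 ≤ 10 * l * (C₀ / y) ^ 2 := by
  have hl0 : (0 : ℝ) < l := by exact_mod_cast hl.pos
  obtain ⟨h1, h2⟩ := h.l2A hy
  obtain ⟨h3, h4⟩ := h.l2A (y := l * y) (by positivity)
  have hinj : Function.Injective (fun s : ℕ => l * s) := fun s s' hss =>
    Nat.eq_of_mul_eq_mul_left hl.pos hss
  have h5 : HasSum (fun t : ℕ => if l ∣ t then b (t / l) ^ 2 * Real.exp (-(4 * π * t * y)) else 0)
      (∑' n : ℕ, ‖((b n : ℝ) : ℂ)‖ ^ 2 * Real.exp (-(4 * π * n * (l * y)))) := by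
    rw [← hinj.hasSum_iff]
    · refine h3.hasSum.congr_fun ?_
      intro s
      simp only [Function.comp_apply]
      rw [if_pos (dvd_mul_right _ _), Nat.mul_div_cancel_left s hl.pos, Complex.norm_real,
        Real.norm_eq_abs, sq_abs]
      congr 2
      push_cast
      ring
    · intro t ht
      rw [if_neg]
      rintro ⟨s, rfl⟩
      exact ht ⟨s, rfl⟩
  have h6 := (h1.hasSum.mul_left (8 * l : ℝ)).add (h5.mul_left (2 * (l : ℝ) ^ 2))
  have hle : ∀ t : ℕ, (|b (l * t)| * Real.exp (-(2 * π * t * y))) ^ 2 ≤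
      8 * l * (‖((b t : ℝ) : ℂ)‖ ^ 2 * Real.exp (-(4 * π * t * y))) + 2 * (l : ℝ) ^ 2 *
      (if l ∣ t then b (t / l) ^ 2 * Real.exp (-(4 * π * t * y)) else 0) := by
    intro t
    rw [_root_.mul_pow, sq_abs, E4.exp_sq, Complex.norm_real, Real.norm_eq_abs, sq_abs]
    have h7 := hecke l hl hlN t
    have h8 := hasse l hl hlN
    have h9 : b (l * t) ^ 2 ≤ 8 * l * b t ^ 2 + 2 * (l : ℝ) ^ 2 *
        (if l ∣ t then b (t / l) ^ 2 else 0) := by
      split_ifs at h7 ⊢ with hd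
      · have : b (l * t) = a l * b t - l * b (t / l) := by linarith
        rw [this]
        have h10 : (a l : ℝ) ^ 2 * b t ^ 2 ≤ 4 * l * b t ^ 2 :=
          mul_le_mul_of_nonneg_right h8 (sq_nonneg _)
        nlinarith [sq_nonneg ((a l : ℝ) * b t + l * b (t / l))]
      · have : b (l * t) = a l * b t := by linarith
        rw [this]
        have h10 : (a l : ℝ) ^ 2 * b t ^ 2 ≤ 4 * l * b t ^ 2 :=
          mul_le_mul_of_nonneg_right h8 (sq_nonneg _)
        have h11 : 0 ≤ (l : ℝ) * b t ^ 2 := by positivity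
        nlinarith
    have h12 := mul_le_mul_of_nonneg_right h9 (Real.exp_pos (-(4 * π * t * y))).le
    refine h12.trans (le_of_eq ?_)
    split_ifs <;> ring
  have hs := Summable.of_nonneg_of_le (fun t => by positivity) hle h6.summable
  refine ⟨hs, (hs.tsum_le_tsum hle h6.summable).trans ?_⟩
  rw [h6.tsum_eq]
  have h13 : (C₀ / (l * y)) ^ 2 = (C₀ / y) ^ 2 / (l : ℝ) ^ 2 := by
    field_simp
  calc _ ≤ 8 * l * (C₀ / y) ^ 2 + 2 * (l : ℝ) ^ 2 * (C₀ / (l * y)) ^ 2 := by gcongr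
    _ = 8 * l * (C₀ / y) ^ 2 + 2 * (C₀ / y) ^ 2 := by
        rw [h13]
        field_simp
    _ ≤ _ := by
        have h14 : (1 : ℝ) ≤ l := by exact_mod_cast hl.one_lt.le
        have h15 : 0 ≤ (C₀ / y) ^ 2 := sq_nonneg _
        nlinarith

theorem diag {N : ℕ} {a : ℕ → ℤ} (h : E4.Bdd (fun n => (b n : ℂ)) C₀)
    (hecke : ∀ l : ℕ, l.Prime → ¬ l ∣ N → ∀ n : ℕ,
      b (l * n) + (if l ∣ n then (l : ℝ) * b (n / l) else 0) = a l * b n)
    (hasse : ∀ l : ℕ, l.Prime → ¬ l ∣ N → (a l : ℝ) ^ 2 ≤ 4 * l)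
    {l₁ l₂ : ℕ} (h₁ : l₁.Prime) (h₂ : l₂.Prime) (hne : l₁ ≠ l₂) (h₁N : ¬ l₁ ∣ N) (h₂N : ¬ l₂ ∣ N)
    {η : ℝ} (hη : 0 < η) :
    ‖∫ t in (0 : ℝ)..1, FS (co b η) (l₁ * t) * conj (FS (co b η) (l₂ * t)) *
      e (-(((0 : ℤ) : ℝ) * t))‖ ≤ 20 * C₀ ^ 2 * (1 / l₁ + 1 / l₂) := by
  classical
  have hl1 : (0 : ℝ) < l₁ := by exact_mod_cast h₁.pos
  have hl2 : (0 : ℝ) < l₂ := by exact_mod_cast h₂.pos
  set y : ℝ := η * (l₁ + l₂) / 2 with hy
  have hy0 : 0 < y := by positivity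
  obtain ⟨s1, t1⟩ := dil h hecke hasse h₁ h₁N hy0
  obtain ⟨s2, t2⟩ := dil h hecke hasse h₂ h₂N hy0
  obtain ⟨s3, t3⟩ := E4.cs_tsum (fun t => by positivity) (fun t => by positivity) s2 s1
  have hinj : Function.Injective (fun s : ℕ => ((l₂ * s, l₁ * s) : ℕ × ℕ)) := fun s s' hss =>
    Nat.eq_of_mul_eq_mul_left h₂.pos (Prod.ext_iff.1 hss).1
  have hex : ∀ s : ℕ, |co b η (l₂ * s)| * |co b η (l₁ * s)| = η ^ 2 *
      ((|b (l₂ * s)| * Real.exp (-(2 * π * s * y))) *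
        (|b (l₁ * s)| * Real.exp (-(2 * π * s * y)))) := by
    intro s
    rw [abs_co hη, abs_co hη]
    have h1 : Real.exp (-(2 * π * ((l₂ * s : ℕ) : ℝ) * η)) * Real.exp (-(2 * π * ((l₁ * s : ℕ) : ℝ) * η)) =
        Real.exp (-(2 * π * s * y)) * Real.exp (-(2 * π * s * y)) := by
      rw [← Real.exp_add, ← Real.exp_add, hy]
      congr 1
      push_cast
      ring
    calc _ = η ^ 2 * |b (l₂ * s)| * |b (l₁ * s)| * (Real.exp (-(2 * π * ((l₂ * s : ℕ) : ℝ) * η)) *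
          Real.exp (-(2 * π * ((l₁ * s : ℕ) : ℝ) * η))) := by ring
      _ = _ := by rw [h1]; ring
  have hsum : HasSum (fun p : ℕ × ℕ => |co b η p.1| * |co b η p.2| *
      (if (l₁ * p.1 - l₂ * p.2 : ℤ) = 0 then 1 else 0))
      (η ^ 2 * ∑' s : ℕ, (|b (l₂ * s)| * Real.exp (-(2 * π * s * y))) *
        (|b (l₁ * s)| * Real.exp (-(2 * π * s * y)))) := by
    rw [← hinj.hasSum_iff]
    · refine (s3.hasSum.mul_left (η ^ 2)).congr_fun ?_
      intro s
      simp only [Function.comp_apply]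
      rw [if_pos (by push_cast; ring), mul_one, hex]
    · intro p hp
      rw [if_neg, mul_zero]
      intro h0
      apply hp
      have h1 : l₁ * p.1 = l₂ * p.2 := by
        have : (l₁ * p.1 : ℤ) = l₂ * p.2 := by linarith
        exact_mod_cast this
      have h2 : l₂ ∣ p.1 := by
        have h3 : l₂ ∣ l₁ * p.1 := ⟨p.2, h1⟩
        exact ((Nat.coprime_primes h₂ h₁).2 hne.symm).dvd_of_dvd_mul_left h3
      obtain ⟨s, hs⟩ := h2
      refine ⟨s, ?_⟩
      ext
      · exact hs.symm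
      · simp only
        rw [hs] at h1
        have h4 : l₂ * (l₁ * s) = l₂ * p.2 := by
          rw [← h1]
          ring
        exact Nat.eq_of_mul_eq_mul_left h₂.pos h4
  have hint := hasSum_int (summable_co h hη) l₁ l₂ 0
  have hb : ‖∫ t in (0 : ℝ)..1, FS (co b η) (l₁ * t) * conj (FS (co b η) (l₂ * t)) *
      e (-(((0 : ℤ) : ℝ) * t))‖ ≤ η ^ 2 * ∑' s : ℕ, (|b (l₂ * s)| * Real.exp (-(2 * π * s * y))) *
        (|b (l₁ * s)| * Real.exp (-(2 * π * s * y))) := by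
    rw [← hint.tsum_eq]
    refine tsum_of_norm_bounded hsum fun p => ?_
    rw [norm_mul, Complex.norm_real, Real.norm_eq_abs, abs_mul]
    refine mul_le_mul_of_nonneg_left ?_ (by positivity)
    split_ifs <;> simp
  refine hb.trans ?_
  have hT : ∑' s : ℕ, (|b (l₂ * s)| * Real.exp (-(2 * π * s * y))) *
        (|b (l₁ * s)| * Real.exp (-(2 * π * s * y))) ≤ 5 * (l₁ + l₂) * (C₀ / y) ^ 2 := by
    refine le_of_sq_le_sq ?_ (by positivity)
    refine t3.trans ?_
    calc _ ≤ (10 * l₂ * (C₀ / y) ^ 2) * (10 * l₁ * (C₀ / y) ^ 2) :=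
          mul_le_mul t2 t1 (tsum_nonneg fun _ => sq_nonneg _) (by positivity)
      _ ≤ _ := by
          have h5 : 0 ≤ ((C₀ / y) ^ 2) ^ 2 := sq_nonneg _
          nlinarith [mul_nonneg h5 (sq_nonneg ((l₁ : ℝ) - l₂))]
  calc _ ≤ η ^ 2 * (5 * (l₁ + l₂) * (C₀ / y) ^ 2) := by gcongr
    _ = 20 * C₀ ^ 2 * (1 / (l₁ + l₂)) := by
        rw [hy]
        field_simp
        ring
    _ ≤ 20 * C₀ ^ 2 * (1 / l₁ + 1 / l₂) := by
        refine mul_le_mul_of_nonneg_left ?_ (by positivity)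
        have h6 : 1 / ((l₁ : ℝ) + l₂) ≤ 1 / l₁ := one_div_le_one_div_of_le hl1 (by linarith)
        have h7 : 0 ≤ 1 / (l₂ : ℝ) := by positivity
        linarith

end Pool.Agent.MU0.XX
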