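import Mathlib

/-!
# Small integer polynomials with a common zero modulo a prime power
-/

set_option autoImplicit false

open Polynomial

namespace Pool.Agent.MU0

/-- `A` is as small as a product of `N` linear polynomials with coefficients at most `B`. -/
def ZSm (B N : ℕ) (A : ℤ[X]) : Prop :=
  A.natDegree ≤ N ∧ ∀ z : ℂ, ‖aeval z A‖ ≤ (2 * B : ℝ) ^ N * max 1 ‖z‖ ^ N

theorem ZSm.mul {B N M : ℕ} {A A' : ℤ[X]} (h : ZSm B N A) (h' : ZSm B M A') :
    ZSm B (N + M) (A * A') := by
  refine ⟨natDegree_mul_le.trans (add_le_add h.1 h'.1), fun z => ?_⟩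
  rw [map_mul, norm_mul, pow_add, pow_add]
  have h1 := mul_le_mul (h.2 z) (h'.2 z) (norm_nonneg _) (by positivity)
  calc ‖aeval z A‖ * ‖aeval z A'‖ ≤ _ := h1
    _ = _ := by ring

theorem ZSm.one (B : ℕ) : ZSm B 0 1 := ⟨by simp, fun z => by simp⟩

theorem ZSm.neg {B N : ℕ} {A : ℤ[X]} (h : ZSm B N A) : ZSm B N (-A) :=
  ⟨by rw [natDegree_neg]; exact h.1, fun z => by rw [map_neg, norm_neg]; exact h.2 z⟩

theorem ZSm.lin {B : ℕ} {a b : ℤ} (ha : |a| ≤ B) (hb : |b| ≤ B) : ZSm B 1 (C a + C b * X) := by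
  refine ⟨?_, fun z => ?_⟩
  · refine (natDegree_add_le _ _).trans ?_
    simp only [natDegree_C, max_le_iff, zero_le, true_and]
    exact (natDegree_C_mul_le b X).trans natDegree_X_le
  · have ha' : ‖(a : ℂ)‖ ≤ B := by
      rw [Complex.norm_intCast]
      exact_mod_cast ha
    have hb' : ‖(b : ℂ)‖ ≤ B := by
      rw [Complex.norm_intCast]
      exact_mod_cast hb
    have h1 : aeval z (C a + C b * X) = (a : ℂ) + b * z := by
      simp
    rw [h1, pow_one, pow_one]
    have h2 : (1 : ℝ) ≤ max 1 ‖z‖ := le_max_left _ _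
    have h3 : ‖z‖ ≤ max 1 ‖z‖ := le_max_right _ _
    have hB : (0 : ℝ) ≤ B := Nat.cast_nonneg _
    calc ‖(a : ℂ) + b * z‖ ≤ ‖(a : ℂ)‖ + ‖(b : ℂ) * z‖ := norm_add_le _ _
      _ ≤ B * max 1 ‖z‖ + B * max 1 ‖z‖ := by
        rw [norm_mul]
        apply add_le_add
        · calc ‖(a : ℂ)‖ ≤ B * 1 := by linarith
            _ ≤ B * max 1 ‖z‖ := mul_le_mul_of_nonneg_left h2 hB
        · exact mul_le_mul hb' h3 (norm_nonneg _) hB
      _ = 2 * B * max 1 ‖z‖ := by ring

theorem ZSm.const {B : ℕ} {c : ℤ} (hc : |c| ≤ B) : ZSm B 1 (C c) := by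
  refine ⟨by simp, fun z => ?_⟩
  have hc' : ‖(c : ℂ)‖ ≤ B := by
    rw [Complex.norm_intCast]
    exact_mod_cast hc
  have h1 : aeval z (C c) = (c : ℂ) := by simp
  rw [h1, pow_one, pow_one]
  have h2 : (1 : ℝ) ≤ max 1 ‖z‖ := le_max_left _ _
  have hB : (0 : ℝ) ≤ B := Nat.cast_nonneg _
  nlinarith [mul_nonneg hB (by linarith : (0 : ℝ) ≤ max 1 ‖z‖ - 1)]

/-- the Mahler measure of an integer polynomial -/
noncomputable def mm (P : ℤ[X]) : ℝ := (P.map (Int.castRingHom ℂ)).mahlerMeasure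

theorem mm_mul (P Q : ℤ[X]) : mm (P * Q) = mm P * mm Q := by
  rw [mm, Polynomial.map_mul, mahlerMeasure_mul]
  rfl

theorem one_le_mm {P : ℤ[X]} (hP : P ≠ 0) : 1 ≤ mm P := by
  rw [mm]
  apply one_le_mahlerMeasure_of_one_le_norm_leadingCoeff
  rw [leadingCoeff_map_of_injective (RingHom.injective_int (Int.castRingHom ℂ))]
  have h1 : P.leadingCoeff ≠ 0 := leadingCoeff_ne_zero.2 hP
  rw [eq_intCast, Complex.norm_intCast]
  exact_mod_cast Int.one_le_abs h1

theorem mm_le_of_dvd {P Q : ℤ[X]} (hQ : Q ≠ 0) (h : P ∣ Q) : mm P ≤ mm Q := by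
  obtain ⟨R, rfl⟩ := h
  rw [mm_mul]
  have h1 : R ≠ 0 := right_ne_zero_of_mul hQ
  have h2 := one_le_mm h1
  have h3 : 0 ≤ mm P := mahlerMeasure_nonneg _
  nlinarith

/-- a bound on the unit circle bounds the Mahler measure -/
theorem mm_le {P : ℤ[X]} (hP : P ≠ 0) {K : ℝ} (hK : 1 ≤ K)
    (h : ∀ z : ℂ, ‖z‖ = 1 → ‖aeval z P‖ ≤ K) : mm P ≤ K := by
  have hP' : P.map (Int.castRingHom ℂ) ≠ 0 := by
    rw [Ne, Polynomial.map_eq_zero_iff (RingHom.injective_int (Int.castRingHom ℂ))]
    exact hP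
  rw [mm, mahlerMeasure_def_of_ne_zero hP']
  have h1 : Real.circleAverage (fun x ↦ Real.log ‖eval x (P.map (Int.castRingHom ℂ))‖) 0 1 ≤
      Real.log K := by
    apply Real.circleAverage_mono_on_of_le_circle
    · exact intervalIntegrable_mahlerMeasure _
    · intro z hz
      have hz1 : ‖z‖ = 1 := by simpa using hz
      have h2 : eval z (P.map (Int.castRingHom ℂ)) = aeval z P := by
        rw [eval_map, aeval_def]
        rfl
      rw [h2]
      by_cases h3 : aeval z P = 0
      · rw [h3, norm_zero, Real.log_zero]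
        exact Real.log_nonneg hK
      · exact Real.log_le_log (norm_pos_iff.2 h3) (h z hz1)
  calc Real.exp _ ≤ Real.exp (Real.log K) := Real.exp_le_exp.2 h1
    _ = K := Real.exp_log (by linarith)

/-- the bound for the resultant -/
theorem res_le {P F : ℤ[X]} (hP : P ≠ 0) {N : ℕ} {K : ℝ} (hK : 0 ≤ K) (hF : F.natDegree ≤ N)
    (hFb : ∀ z : ℂ, ‖aeval z F‖ ≤ K * max 1 ‖z‖ ^ N) :
    |((resultant P F : ℤ) : ℝ)| ≤ K ^ P.natDegree * mm P ^ N := by
  have hinj := RingHom.injective_int (Int.castRingHom ℂ)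
  set P' := P.map (Int.castRingHom ℂ) with hP'
  set F' := F.map (Int.castRingHom ℂ) with hF'
  have hPd : P'.natDegree = P.natDegree := natDegree_map_eq_of_injective hinj P
  have hFd : F'.natDegree = F.natDegree := natDegree_map_eq_of_injective hinj F
  have h1 : (((resultant P F : ℤ)) : ℂ) = P'.leadingCoeff ^ F.natDegree *
      (P'.roots.map (fun z => eval z F')).prod := by
    have h2 := resultant_map_map P F P.natDegree F.natDegree (Int.castRingHom ℂ)
    rw [eq_intCast] at h2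
    rw [← h2, ← hPd]
    exact resultant_eq_prod_eval P' F' F.natDegree hFd.le (IsAlgClosed.splits P')
  have h2 : |((resultant P F : ℤ) : ℝ)| = ‖((resultant P F : ℤ) : ℂ)‖ := by
    rw [Complex.norm_intCast]
  rw [h2, h1, norm_mul, norm_pow]
  have h3 : ‖(P'.roots.map (fun z => eval z F')).prod‖ ≤
      K ^ P.natDegree * ((P'.roots.map (fun z => max 1 ‖z‖)).prod) ^ N := by
    have h4 : ∀ s : Multiset ℂ, ‖(s.map (fun z => eval z F')).prod‖ ≤
        K ^ (Multiset.card s) * ((s.map (fun z => max 1 ‖z‖)).prod) ^ N := by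
      intro s
      induction s using Multiset.induction_on with
      | empty => simp
      | cons z s ih =>
        rw [Multiset.map_cons, Multiset.prod_cons, norm_mul, Multiset.map_cons,
          Multiset.prod_cons, Multiset.card_cons, pow_succ, _root_.mul_pow]
        have h5 : ‖eval z F'‖ ≤ K * max 1 ‖z‖ ^ N := by
          have h6 : eval z F' = aeval z F := by
            rw [hF', eval_map, aeval_def]
            rfl
          rw [h6]
          exact hFb z
        have h6 := mul_le_mul h5 ih (norm_nonneg _) (by positivity)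
        refine h6.trans (le_of_eq ?_)
        ring
    have h5 := h4 P'.roots
    rwa [(IsAlgClosed.splits P').natDegree_eq_card_roots.symm, hPd] at h5
  have h4 : 1 ≤ ‖P'.leadingCoeff‖ := by
    rw [hP', leadingCoeff_map_of_injective hinj, eq_intCast, Complex.norm_intCast]
    exact_mod_cast Int.one_le_abs (leadingCoeff_ne_zero.2 hP)
  have h5 : ‖P'.leadingCoeff‖ ^ F.natDegree ≤ ‖P'.leadingCoeff‖ ^ N := pow_le_pow_right₀ h4 hF
  have h6 := mul_le_mul h5 h3 (norm_nonneg _) (by positivity)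
  refine h6.trans (le_of_eq ?_)
  rw [mm, mahlerMeasure_eq_leadingCoeff_mul_prod_roots, _root_.mul_pow]
  ring

/-- a small polynomial that vanishes at the zero of an irreducible one modulo a large number is
divisible by it -/
theorem dvd_of_common {P F : ℤ[X]} (hP : Irreducible (P.map (Int.castRingHom ℚ)))
    (hP1 : 0 < P.natDegree) {N : ℕ} {K : ℝ} (hK : 0 ≤ K) (hF : F.natDegree ≤ N)
    (hFb : ∀ z : ℂ, ‖aeval z F‖ ≤ K * max 1 ‖z‖ ^ N) (y : ℤ) (M : ℕ)
    (hPy : (M : ℤ) ∣ P.eval y) (hFy : (M : ℤ) ∣ F.eval y)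
    (hsize : K ^ P.natDegree * mm P ^ N < M) :
    P.map (Int.castRingHom ℚ) ∣ F.map (Int.castRingHom ℚ) := by
  by_contra hnd
  have hinj := RingHom.injective_int (Int.castRingHom ℚ)
  have hP0 : P ≠ 0 := by
    rintro rfl
    simp at hP1
  have hcop : IsCoprime (P.map (Int.castRingHom ℚ)) (F.map (Int.castRingHom ℚ)) :=
    (hP.coprime_iff_not_dvd).2 hnd
  have hres : (resultant P F : ℤ) ≠ 0 := by
    intro h0
    have h1 := resultant_ne_zero _ _ hcop
    rw [natDegree_map_eq_of_injective hinj, natDegree_map_eq_of_injective hinj,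
      resultant_map_map, h0, map_zero] at h1
    exact h1 rfl
  obtain ⟨u, v, -, -, huv⟩ := exists_mul_add_mul_eq_C_resultant P F le_rfl le_rfl
    (Or.inl hP1.ne')
  have h1 : (M : ℤ) ∣ (resultant P F : ℤ) := by
    have h2 := congrArg (eval y) huv
    rw [eval_add, eval_mul, eval_mul, eval_C] at h2
    rw [← h2]
    exact dvd_add (hPy.mul_right _) (hFy.mul_right _)
  have h2 := Int.le_of_dvd (abs_pos.2 hres) ((dvd_abs _ _).2 h1)
  have h3 := res_le hP0 hK hF hFb
  have h4 : (M : ℝ) ≤ |((resultant P F : ℤ) : ℝ)| := by exact_mod_cast h2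
  linarith

/-- selection of an irreducible factor -/
theorem exists_factor {p : ℕ} (hp : p.Prime) (y : ℤ) {m : ℕ} : ∀ (k : ℕ) (P : ℤ[X]), P ≠ 0 →
    P.natDegree ≤ k → mm P < (p : ℝ) ^ m → (p : ℤ) ^ ((k + 1) * m) ∣ P.eval y →
    ∃ P₀ : ℤ[X], P₀.IsPrimitive ∧ Irreducible P₀ ∧ 0 < P₀.natDegree ∧ P₀ ∣ P ∧
      (p : ℤ) ^ m ∣ P₀.eval y := by
  intro k
  induction k with
  | zero =>
    intro P hP hd hm hy
    exfalso
    have h1 : P = C (P.coeff 0) := eq_C_of_natDegree_le_zero hd
    have h2 : P.coeff 0 ≠ 0 := by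
      intro h
      rw [h, C_0] at h1
      exact hP h1
    rw [h1, eval_C, zero_add, one_mul] at hy
    have h3 := Int.le_of_dvd (abs_pos.2 h2) ((dvd_abs _ _).2 hy)
    have h4 : mm P = |((P.coeff 0 : ℤ) : ℝ)| := by
      rw [mm]
      conv_lhs => rw [h1]
      rw [Polynomial.map_C, mahlerMeasure_const, eq_intCast, Complex.norm_intCast]
    rw [h4] at hm
    have h5 : ((p : ℝ)) ^ m ≤ |((P.coeff 0 : ℤ) : ℝ)| := by exact_mod_cast h3
    linarith
  | succ k ih =>
    intro P hP hd hm hy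
    by_cases hd0 : P.natDegree = 0
    · obtain ⟨P₀, h⟩ := ih P hP (by omega) hm ((pow_dvd_pow _ (by nlinarith)).trans hy)
      exact ⟨P₀, h⟩
    · -- an irreducible factor of the primitive part
      have hpp : P.primPart.natDegree ≠ 0 := by
        rw [natDegree_primPart]
        exact hd0
      obtain ⟨P₁, hirr, hdvd⟩ := exists_irreducible_of_natDegree_ne_zero hpp
      have hprim : P₁.IsPrimitive := isPrimitive_of_dvd P.isPrimitive_primPart hdvd
      have hdP : P₁ ∣ P := hdvd.trans (primPart_dvd P)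
      have hd1 : 0 < P₁.natDegree := by
        rw [Nat.pos_iff_ne_zero]
        intro h0
        have h1 : P₁ = C (P₁.coeff 0) := eq_C_of_natDegree_le_zero h0.le
        have h2 := hprim (P₁.coeff 0) (by rw [← h1])
        apply hirr.not_isUnit
        rw [h1]
        exact isUnit_C.2 h2
      by_cases h1 : (p : ℤ) ^ m ∣ P₁.eval y
      · exact ⟨P₁, hprim, hirr, hd1, hdP, h1⟩
      · obtain ⟨Q, rfl⟩ := hdP
        have hP₁0 : P₁ ≠ 0 := left_ne_zero_of_mul hP
        have hQ0 : Q ≠ 0 := right_ne_zero_of_mul hP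
        have hdQ : Q.natDegree ≤ k := by
          rw [natDegree_mul hP₁0 hQ0] at hd
          omega
        have hmQ : mm Q < (p : ℝ) ^ m := lt_of_le_of_lt (mm_le_of_dvd hP (dvd_mul_left _ _)) hm
        have hyQ : (p : ℤ) ^ ((k + 1) * m) ∣ Q.eval y := by
          rw [eval_mul] at hy
          have hpp : Prime (p : ℤ) := Nat.prime_iff_prime_int.1 hp
          have h2 : (k + 1 + 1) * m = m + (k + 1) * m := by ring
          rw [h2] at hy
          have ha0 : P₁.eval y ≠ 0 := by
            intro h0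
            rw [h0] at h1
            exact h1 (dvd_zero _)
          have hfin : FiniteMultiplicity (p : ℤ) (P₁.eval y) :=
            Int.finiteMultiplicity_iff.2 ⟨by
              rw [Int.natAbs_natCast]
              exact hp.one_lt.ne', ha0⟩
          obtain ⟨c, hc, hnc⟩ := hfin.exists_eq_pow_mul_and_not_dvd
          set j := multiplicity (p : ℤ) (P₁.eval y) with hj
          have hjm : j < m := by
            by_contra h3
            push Not at h3
            exact h1 ((pow_dvd_pow _ h3).trans ⟨c, hc⟩)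
          have hp0 : (p : ℤ) ^ j ≠ 0 := pow_ne_zero _ hpp.ne_zero
          have h4 : (p : ℤ) ^ j * (p : ℤ) ^ (m - j + (k + 1) * m) ∣ (p : ℤ) ^ j * (c * Q.eval y) := by
            rw [← pow_add, ← mul_assoc, ← hc]
            have h5 : j + (m - j + (k + 1) * m) = m + (k + 1) * m := by omega
            rw [h5]
            exact hy
          have h5 := (mul_dvd_mul_iff_left hp0).1 h4
          have h6 := hpp.pow_dvd_of_dvd_mul_left _ hnc h5
          exact (pow_dvd_pow _ (by omega)).trans h6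
        obtain ⟨P₀, e1, e2, e3, e4, e5⟩ := ih Q hQ0 hdQ hmQ hyQ
        exact ⟨P₀, e1, e2, e3, e4.mul_left _, e5⟩

end Pool.Agent.MU0
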