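import Pool.Agent.MU0.ZY1

set_option autoImplicit false

open Polynomial
open scoped Pointwise

namespace Pool.Agent.MU0

/-- one step of growth -/
theorem growth {U : Type*} [CommGroup U] [DecidableEq U] {X : Finset U} (h1 : (1 : U) ∈ X)
    (hinv : ∀ x ∈ X, x⁻¹ ∈ X) (J : ℕ) (h : ∀ j < J, X ^ (3 * j + 3) ≠ X ^ (3 * j + 2)) :
    (J + 1) * X.card ≤ (X ^ (3 * J + 1)).card := by
  induction J with
  | zero => simp
  | succ J ih =>
    have ih' := ih (fun j hj => h j (by omega))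
    have hne := h J (by omega)
    have hsub : X ^ (3 * J + 2) ⊆ X ^ (3 * J + 3) := Finset.pow_subset_pow_right h1 (by omega)
    obtain ⟨g, hg, hg'⟩ := Finset.exists_of_ssubset (hsub.ssubset_of_ne hne.symm)
    have hd : Disjoint (X.image (fun x => g * x)) (X ^ (3 * J + 1)) := by
      rw [Finset.disjoint_left]
      intro w hw hw'
      obtain ⟨x, hx, rfl⟩ := Finset.mem_image.1 hw
      apply hg'
      have h2 : g = g * x * x⁻¹ := by group
      rw [h2, pow_succ]
      exact Finset.mul_mem_mul hw' (hinv x hx)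
    have hs2 : X.image (fun x => g * x) ∪ X ^ (3 * J + 1) ⊆ X ^ (3 * (J + 1) + 1) := by
      apply Finset.union_subset
      · intro w hw
        obtain ⟨x, hx, rfl⟩ := Finset.mem_image.1 hw
        have h3 : 3 * (J + 1) + 1 = (3 * J + 3) + 1 := by ring
        rw [h3, pow_succ]
        exact Finset.mul_mem_mul hg hx
      · exact Finset.pow_subset_pow_right h1 (by omega)
    have h4 := Finset.card_le_card hs2
    rw [Finset.card_union_of_disjoint hd,
      Finset.card_image_of_injective _ (mul_right_injective g)] at h4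
    calc (J + 1 + 1) * X.card = X.card + (J + 1) * X.card := by ring
      _ ≤ X.card + (X ^ (3 * J + 1)).card := by omega
      _ ≤ _ := h4

/-- the powers of `X` stabilise early -/
theorem diameter {U : Type*} [CommGroup U] [DecidableEq U] {X : Finset U} (h1 : (1 : U) ∈ X)
    (hinv : ∀ x ∈ X, x⁻¹ ∈ X) {N : ℕ} (hN : ∀ j, (X ^ j).card ≤ N) {L : ℕ}
    (hL : 3 * (N / X.card) + 2 ≤ L) : X ^ L * X ^ L = X ^ L := by
  have hc : 0 < X.card := Finset.card_pos.2 ⟨1, h1⟩
  obtain ⟨j, hj, hjX⟩ : ∃ j < N / X.card + 1, X ^ (3 * j + 3) = X ^ (3 * j + 2) := by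
    by_contra hcon
    push Not at hcon
    have h2 := growth h1 hinv (N / X.card + 1) hcon
    have h3 := hN (3 * (N / X.card + 1) + 1)
    have h4 : N < (N / X.card + 1) * X.card := (Nat.div_lt_iff_lt_mul hc).1 (Nat.lt_succ_self _)
    nlinarith
  have h2 : ∀ i, X ^ (3 * j + 2 + i) = X ^ (3 * j + 2) := by
    intro i
    induction i with
    | zero => rfl
    | succ i ih =>
      rw [← add_assoc, pow_succ, ih, ← pow_succ]
      exact hjX
  have h3 : X ^ L = X ^ (3 * j + 2) := by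
    have h4 := h2 (L - (3 * j + 2))
    have h5 : 3 * j + 2 + (L - (3 * j + 2)) = L := by omega
    rwa [h5] at h4
  rw [← pow_add]
  have h4 := h2 (L + L - (3 * j + 2))
  have h5 : 3 * j + 2 + (L + L - (3 * j + 2)) = L + L := by omega
  rw [h5] at h4
  rw [h4, h3]

/-- a lower bound for the totient -/
theorem le_totient {N : ℕ} : 0 < N → N ≤ 2 * N.totient ^ 2 ∧ (Odd N → N ≤ N.totient ^ 2) := by
  induction N using Nat.recOnPosPrimePosCoprime with
  | prime_pow q e hq he =>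
    intro _
    rw [Nat.totient_prime_pow hq he]
    obtain ⟨e, rfl⟩ : ∃ e', e = e' + 1 := ⟨e - 1, by omega⟩
    rw [Nat.add_sub_cancel]
    have h1 : 1 ≤ q ^ e := Nat.one_le_pow _ _ hq.pos
    have hodd : 3 ≤ q → q ^ (e + 1) ≤ (q ^ e * (q - 1)) ^ 2 := by
      intro h3
      have h2 : q ≤ (q - 1) ^ 2 := by
        obtain ⟨r, rfl⟩ : ∃ r, q = r + 3 := ⟨q - 3, by omega⟩
        have : r + 3 - 1 = r + 2 := by omega
        rw [this]
        nlinarith
      calc q ^ (e + 1) = q ^ e * 1 * q := by ring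
        _ ≤ q ^ e * q ^ e * (q - 1) ^ 2 :=
          Nat.mul_le_mul (Nat.mul_le_mul_left _ h1) h2
        _ = _ := by ring
    constructor
    · rcases hq.two_le.eq_or_lt with h2 | h2
      · subst h2
        rw [pow_succ]
        norm_num
        nlinarith
      · exact (hodd h2).trans (by omega)
    · intro ho
      apply hodd
      rcases hq.two_le.eq_or_lt with h2 | h2
      · subst h2
        exfalso
        rw [pow_succ] at ho
        exact (Nat.not_odd_iff_even.2 (even_two.mul_left _)) ho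
      · exact h2
  | zero => intro h; exact absurd h (lt_irrefl 0)
  | one => intro _; simp
  | coprime a b ha hb hab iha ihb =>
    intro _
    rw [Nat.totient_mul hab]
    obtain ⟨a1, a2⟩ := iha (by omega)
    obtain ⟨b1, b2⟩ := ihb (by omega)
    have key : ∀ x y u v : ℕ, x ≤ u ^ 2 → y ≤ 2 * v ^ 2 → x * y ≤ 2 * (u * v) ^ 2 := by
      intro x y u v h h'
      calc x * y ≤ u ^ 2 * (2 * v ^ 2) := Nat.mul_le_mul h h'
        _ = _ := by ring
    constructor
    · rcases Nat.even_or_odd a with hea | hoa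
      · have hob : Odd b := by
          rw [← Nat.not_even_iff_odd]
          intro heb
          have h2 : 2 ∣ Nat.gcd a b := Nat.dvd_gcd hea.two_dvd heb.two_dvd
          rw [hab] at h2
          omega
        have := key b a _ _ (b2 hob) a1
        rw [mul_comm a b, mul_comm a.totient]
        exact this
      · exact key a b _ _ (a2 hoa) b1
    · intro ho
      rw [Nat.odd_mul] at ho
      calc a * b ≤ a.totient ^ 2 * b.totient ^ 2 := Nat.mul_le_mul (a2 ho.1) (b2 ho.2)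
        _ = _ := by ring

/-- roots of unity of order prime to `p` congruent to 1 are 1 -/
theorem teich_one {p n : ℕ} (hp : p.Prime) (hn : 1 ≤ n) {z : (ZMod (p ^ n))ˣ}
    (hz : z ^ (p - 1) = 1) {c : ℤ} (hc : (c : ZMod (p ^ n)) = z) (h : (p : ℤ) ∣ c - 1) : z = 1 := by
  obtain ⟨n, rfl⟩ : ∃ n', n = n' + 1 := ⟨n - 1, by omega⟩
  have h1 := dvd_sub_pow_of_dvd_sub h n
  rw [one_pow] at h1
  have h2 : z ^ (p ^ n) = 1 := by
    ext
    rw [Units.val_pow_eq_pow_val, ← hc, Units.val_one]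
    have h3 : ((c ^ p ^ n - 1 : ℤ) : ZMod (p ^ (n + 1))) = 0 := by
      rw [ZMod.intCast_zmod_eq_zero_iff_dvd]
      exact_mod_cast h1
    push_cast at h3
    exact sub_eq_zero.1 h3
  have h3 : orderOf z ∣ 1 := by
    have hcop : Nat.Coprime (p ^ n) (p - 1) := by
      apply Nat.Coprime.pow_left
      exact (Nat.coprime_self_sub_right hp.one_le).2 (Nat.coprime_one_right p)
    have h4 := Nat.dvd_gcd (orderOf_dvd_of_pow_eq_one h2) (orderOf_dvd_of_pow_eq_one hz)
    have h5 : Nat.gcd (p ^ n) (p - 1) = 1 := hcop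
    rwa [h5] at h4
  exact orderOf_eq_one_iff.1 (Nat.dvd_one.1 h3)

/-- the number of roots of unity -/
theorem teich_card {p n : ℕ} (hp : p.Prime) (hn : 1 ≤ n) (T : Finset (ZMod (p ^ n))ˣ)
    (hT : ∀ z ∈ T, z ^ (p - 1) = 1) : T.card ≤ p - 1 := by
  have : Fact p.Prime := ⟨hp⟩
  have hd : p ∣ p ^ n := dvd_pow_self p (by omega)
  have h1 : T.card ≤ (Finset.univ : Finset (ZMod p)ˣ).card := by
    apply Finset.card_le_card_of_injOn (fun z => ZMod.unitsMap hd z)
    · intro z _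
      exact Finset.mem_coe.2 (Finset.mem_univ _)
    · intro z hz w hw hzw
      have h2 : ZMod.unitsMap hd (z * w⁻¹) = 1 := by
        rw [map_mul, map_inv]
        exact mul_inv_eq_one.2 hzw
      have h3 : (z * w⁻¹) ^ (p - 1) = 1 := by
        rw [mul_pow, inv_pow, hT z hz, hT w hw]
        simp
      have h4 : z * w⁻¹ = 1 := by
        apply teich_one hp hn h3 (c := (((z * w⁻¹ : (ZMod (p ^ n))ˣ) : ZMod (p ^ n)).val : ℤ))
        · rw [Int.cast_natCast, ZMod.natCast_zmod_val]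
        · have h5 : (((z * w⁻¹ : (ZMod (p ^ n))ˣ) : ZMod (p ^ n)).val : ZMod p) = 1 := by
            have h6 := congrArg (fun u : (ZMod p)ˣ => (u : ZMod p)) h2
            simp only [ZMod.unitsMap_def, Units.coe_map, Units.val_one] at h6
            have h7 : (ZMod.castHom hd (ZMod p)) ((z * w⁻¹ : (ZMod (p ^ n))ˣ) : ZMod (p ^ n)) =
              (((z * w⁻¹ : (ZMod (p ^ n))ˣ) : ZMod (p ^ n)).val : ZMod p) := by
              conv_lhs => rw [← ZMod.natCast_zmod_val ((z * w⁻¹ : (ZMod (p ^ n))ˣ) : ZMod (p ^ n))]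
              rw [map_natCast]
            rw [← h7]
            exact h6
          rw [← ZMod.intCast_zmod_eq_zero_iff_dvd, Int.cast_sub, Int.cast_natCast, h5,
            Int.cast_one, sub_self]
      exact mul_inv_eq_one.1 h4
  rwa [Finset.card_univ, ZMod.card_units_eq_totient, Nat.totient_prime hp] at h1

/-- the coincidence polynomial -/
theorem exists_poly {p n k B : ℕ} (hp : p.Prime) (hn : 1 ≤ n) (hk : 1 ≤ k) (hB : 1 ≤ B) (y : ℤ)
    (S : Finset (ZMod (p ^ n))ˣ) (hS : ∀ z ∈ S, z ^ (p - 1) = 1) (a b c : (ZMod (p ^ n))ˣ → ℤ)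
    (ha : ∀ z ∈ S, |a z| ≤ B) (hb : ∀ z ∈ S, |b z| ≤ B) (hc : ∀ z ∈ S, |c z| ≤ B)
    (hb0 : ∀ z ∈ S, b z ≠ 0) (hc0 : ∀ z ∈ S, c z ≠ 0)
    (hrel : ∀ z ∈ S, (a z : ZMod (p ^ n)) + b z * y + c z * z = 0)
    (hnp : ∀ z ∈ S, ∀ z' ∈ S, z ≠ z' → ∀ α β : ℤ, α ≠ 0 → β ≠ 0 → |α| ≤ B ^ 2 → |β| ≤ B ^ 2 →
      (α : ZMod (p ^ n)) * z ≠ β * z')
    (hpig : k.factorial * p ≤ S.card ^ k) :
    ∃ P : ℤ[X], P ≠ 0 ∧ P.natDegree ≤ k ∧ mm P ≤ (4 * B ^ 2 : ℝ) ^ k ∧
      (p : ℤ) ^ n ∣ P.eval y := by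
  classical
  have hne0 : NeZero (p ^ n) := ⟨pow_ne_zero _ hp.ne_zero⟩
  -- the pigeonhole
  let T : Finset (ZMod (p ^ n))ˣ := Finset.univ.filter (fun z => z ^ (p - 1) = 1)
  have hT : T.card ≤ p - 1 := teich_card hp hn T (fun z hz => (Finset.mem_filter.1 hz).2)
  let π : Sym {z // z ∈ S} k → (ZMod (p ^ n))ˣ :=
    fun M => ((M : Multiset {z // z ∈ S}).map (fun z : {z // z ∈ S} => (z : (ZMod (p ^ n))ˣ))).prod
  have hπ : ∀ M ∈ (Finset.univ : Finset (Sym {z // z ∈ S} k)), π M ∈ T := by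
    intro M _
    refine Finset.mem_filter.2 ⟨Finset.mem_univ _, ?_⟩
    have h1 : ∀ s : Multiset {z // z ∈ S},
        ((s.map (fun z : {z // z ∈ S} => (z : (ZMod (p ^ n))ˣ))).prod) ^ (p - 1) = 1 := by
      intro s
      induction s using Multiset.induction_on with
      | empty => simp
      | cons z s ih => rw [Multiset.map_cons, Multiset.prod_cons, mul_pow, ih, hS z z.2, one_mul]
    exact h1 _
  have hcard : T.card < (Finset.univ : Finset (Sym {z // z ∈ S} k)).card := by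
    rw [Finset.card_univ, Sym.card_sym_eq_multichoose, Fintype.card_coe]
    have h1 : k.factorial * Nat.multichoose S.card k = S.card.ascFactorial k := by
      rw [Nat.multichoose_eq, Nat.ascFactorial_eq_factorial_mul_choose']
    have h2 := Nat.pow_succ_le_ascFactorial S.card k
    have h3 : k.factorial * p ≤ k.factorial * Nat.multichoose S.card k := by
      rw [h1]
      exact hpig.trans h2
    have h4 := Nat.le_of_mul_le_mul_left h3 (Nat.factorial_pos k)
    have h5 := hp.one_lt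
    omega
  obtain ⟨M, -, M', -, hne, heq⟩ := Finset.exists_ne_map_eq_of_card_lt_of_maps_to hcard hπ
  -- the polynomials
  let f : {z // z ∈ S} → ℤ[X] := fun z => C (a z) + C (b z) * X
  have hev : ∀ s : Multiset {z // z ∈ S},
      (((s.map (fun z : {z // z ∈ S} => c z)).prod : ℤ) : ZMod (p ^ n)) *
        (((s.map (fun z : {z // z ∈ S} => (z : (ZMod (p ^ n))ˣ))).prod : (ZMod (p ^ n))ˣ) : ZMod (p ^ n)) =
      (-1) ^ (Multiset.card s) * (((s.map f).prod.eval y : ℤ) : ZMod (p ^ n)) := by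
    intro s
    induction s using Multiset.induction_on with
    | empty => simp
    | cons z s ih =>
      have h1 : (((f z).eval y : ℤ) : ZMod (p ^ n)) = - ((c z : ZMod (p ^ n)) * ((z : (ZMod (p ^ n))ˣ) : ZMod (p ^ n))) := by
        have h2 := hrel z z.2
        simp only [f, eval_add, eval_mul, eval_C, eval_X]
        push_cast
        linear_combination h2
      rw [Multiset.map_cons, Multiset.prod_cons, Multiset.map_cons, Multiset.prod_cons,
        Multiset.map_cons, Multiset.prod_cons, eval_mul, Multiset.card_cons]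
      push_cast
      push_cast at ih
      rw [h1, pow_succ]
      linear_combination ((c z : ZMod (p ^ n)) * ((z : (ZMod (p ^ n))ˣ) : ZMod (p ^ n))) * ih
  have hsm : ∀ s : Multiset {z // z ∈ S}, ZSm B (Multiset.card s) (s.map f).prod := by
    intro s
    induction s using Multiset.induction_on with
    | empty => simpa using ZSm.one B
    | cons z s ih =>
      rw [Multiset.map_cons, Multiset.prod_cons, Multiset.card_cons, add_comm]
      exact (ZSm.lin (ha z z.2) (hb z z.2)).mul ih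
  have hcb : ∀ s : Multiset {z // z ∈ S}, |(s.map (fun z : {z // z ∈ S} => c z)).prod| ≤ (B : ℤ) ^ (Multiset.card s)
      := by
    intro s
    induction s using Multiset.induction_on with
    | empty => simp
    | cons z s ih =>
      rw [Multiset.map_cons, Multiset.prod_cons, Multiset.card_cons, abs_mul, pow_succ, mul_comm]
      exact mul_le_mul ih (hc z z.2) (abs_nonneg _) (by positivity)
  have hcn : ∀ s : Multiset {z // z ∈ S}, (s.map (fun z : {z // z ∈ S} => c z)).prod ≠ 0 := by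
    intro s h0
    obtain ⟨z, -, hz⟩ := Multiset.mem_map.1 (Multiset.prod_eq_zero_iff.1 h0)
    exact hc0 z z.2 hz
  set s : Multiset {z // z ∈ S} := (M : Multiset {z // z ∈ S}) with hs
  set s' : Multiset {z // z ∈ S} := (M' : Multiset {z // z ∈ S}) with hs'
  have hcs : Multiset.card s = k := M.2
  have hcs' : Multiset.card s' = k := M'.2
  set A := (s.map f).prod with hA
  set A' := (s'.map f).prod with hA'
  set D := (s.map (fun z : {z // z ∈ S} => c z)).prod with hD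
  set D' := (s'.map (fun z : {z // z ∈ S} => c z)).prod with hD'
  have hSA : ZSm B k A := hcs ▸ hsm s
  have hSA' : ZSm B k A' := hcs' ▸ hsm s'
  have hDb : |D| ≤ (B : ℤ) ^ k := hcs ▸ hcb s
  have hDb' : |D'| ≤ (B : ℤ) ^ k := hcs' ▸ hcb s'
  have hBR : (1 : ℝ) ≤ B := by exact_mod_cast hB
  have hPne : C D' * A - C D * A' ≠ 0 := by
    intro h0
    have h1 : C D' * A = C D * A' := sub_eq_zero.1 h0
    have h2 := congrArg (fun Q : ℤ[X] => (Q.map (Int.castRingHom ℚ)).roots) h1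
    simp only [Polynomial.map_mul, Polynomial.map_C] at h2
    have hinj := RingHom.injective_int (Int.castRingHom ℚ)
    rw [roots_C_mul _ (by rw [Ne, map_eq_zero_iff _ hinj]; exact hcn s'),
      roots_C_mul _ (by rw [Ne, map_eq_zero_iff _ hinj]; exact hcn s)] at h2
    have hroots : ∀ t : Multiset {z // z ∈ S}, (((t.map f).prod).map (Int.castRingHom ℚ)).roots =
        t.map (fun z : {z // z ∈ S} => -((b z : ℚ)⁻¹ * (a z : ℚ))) := by
      intro t
      have h3 : (((t.map f).prod).map (Int.castRingHom ℚ)) =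
          (t.map (fun z : {z // z ∈ S} => (C ((b z : ℚ)) * X + C ((a z : ℚ)) : ℚ[X]))).prod := by
        rw [Polynomial.map_multiset_prod, Multiset.map_map]
        congr 1
        apply Multiset.map_congr rfl
        intro z _
        simp only [Function.comp_apply, f, Polynomial.map_add, Polynomial.map_mul,
          Polynomial.map_C, Polynomial.map_X]
        exact add_comm _ _
      rw [h3, roots_multiset_prod]
      · rw [Multiset.bind_map]
        have h4 : ∀ u : Multiset {z // z ∈ S},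
            u.bind (fun z : {z // z ∈ S} => (C ((b z : ℚ)) * X + C ((a z : ℚ)) : ℚ[X]).roots) =
            u.map (fun z : {z // z ∈ S} => -((b z : ℚ)⁻¹ * (a z : ℚ))) := by
          intro u
          induction u using Multiset.induction_on with
          | empty => simp
          | cons z u ih =>
            rw [Multiset.cons_bind, Multiset.map_cons, ih,
              roots_C_mul_X_add_C _ (by exact_mod_cast hb0 z z.2 : ((b z : ℤ) : ℚ) ≠ 0)]
            rfl
        exact h4 t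
      · intro h5
        obtain ⟨z, -, hz⟩ := Multiset.mem_map.1 h5
        have h6 : (C ((b z : ℚ)) * X + C ((a z : ℚ)) : ℚ[X]).coeff 1 = (0 : ℚ[X]).coeff 1 := by
          rw [hz]
        rw [coeff_add, coeff_C_mul, coeff_X_one, coeff_C, if_neg one_ne_zero, add_zero, mul_one,
          coeff_zero] at h6
        exact hb0 z z.2 (by exact_mod_cast h6)
    rw [hA, hA', hroots, hroots] at h2
    have hinj2 : Function.Injective (fun z : {z // z ∈ S} => -((b z : ℚ)⁻¹ * (a z : ℚ))) := by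
      intro z w hzw
      by_contra hzw'
      have h3 : (z : (ZMod (p ^ n))ˣ) ≠ w := fun h => hzw' (Subtype.ext h)
      have hbz : ((b z : ℤ) : ℚ) ≠ 0 := by exact_mod_cast hb0 z z.2
      have hbw : ((b w : ℤ) : ℚ) ≠ 0 := by exact_mod_cast hb0 w w.2
      have h4 : (b w * a z : ℤ) = b z * a w := by
        have h5 : (b z : ℚ)⁻¹ * (a z : ℚ) = (b w : ℚ)⁻¹ * (a w : ℚ) := neg_injective hzw
        field_simp at h5
        have h6 : ((b w * a z : ℤ) : ℚ) = ((b z * a w : ℤ) : ℚ) := by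
          push_cast
          linarith
        exact_mod_cast h6
      apply hnp z z.2 w w.2 h3 (b w * c z) (b z * c w) (mul_ne_zero (hb0 w w.2) (hc0 z z.2))
        (mul_ne_zero (hb0 z z.2) (hc0 w w.2))
      · rw [abs_mul, sq]
        exact mul_le_mul (hb w w.2) (hc z z.2) (abs_nonneg _) (by positivity)
      · rw [abs_mul, sq]
        exact mul_le_mul (hb z z.2) (hc w w.2) (abs_nonneg _) (by positivity)
      · have h5 := hrel z z.2
        have h6 := hrel w w.2
        have h7 : ((b w : ℤ) : ZMod (p ^ n)) * a z = b z * a w := by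
          exact_mod_cast congrArg (fun t : ℤ => (t : ZMod (p ^ n))) h4
        push_cast
        linear_combination (b w : ZMod (p ^ n)) * h5 - (b z : ZMod (p ^ n)) * h6 - h7
    have h3 : s = s' := Multiset.map_injective hinj2 h2
    exact hne (Subtype.ext h3)
  refine ⟨C D' * A - C D * A', hPne, ?_, ?_, ?_⟩
  · refine (natDegree_sub_le _ _).trans (max_le ?_ ?_)
    · exact (natDegree_C_mul_le _ _).trans hSA.1
    · exact (natDegree_C_mul_le _ _).trans hSA'.1
  · apply mm_le hPne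
    · apply one_le_pow₀
      nlinarith
    · intro z hz
      have h1 : aeval z (C D' * A - C D * A') = (D' : ℂ) * aeval z A - (D : ℂ) * aeval z A' := by
        simp
      rw [h1]
      have h2 : ∀ (E : ℤ) (Q : ℤ[X]), |E| ≤ (B : ℤ) ^ k → ZSm B k Q →
          ‖(E : ℂ) * aeval z Q‖ ≤ (2 * (B : ℝ) ^ 2) ^ k := by
        intro E Q hE hQ
        have h3 := hQ.2 z
        rw [hz, max_self, one_pow, mul_one] at h3
        rw [norm_mul, Complex.norm_intCast]
        have h4 : |(E : ℝ)| ≤ (B : ℝ) ^ k := by exact_mod_cast hE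
        calc |(E : ℝ)| * ‖aeval z Q‖ ≤ (B : ℝ) ^ k * (2 * B) ^ k :=
              mul_le_mul h4 h3 (norm_nonneg _) (by positivity)
          _ = (2 * (B : ℝ) ^ 2) ^ k := by rw [← mul_pow]; ring
      have h3 := h2 D' A hDb' hSA
      have h4 := h2 D A' hDb hSA'
      calc ‖(D' : ℂ) * aeval z A - (D : ℂ) * aeval z A'‖ ≤ _ := norm_sub_le _ _
        _ ≤ (2 * (B : ℝ) ^ 2) ^ k + (2 * (B : ℝ) ^ 2) ^ k := add_le_add h3 h4
        _ = 2 * (2 * (B : ℝ) ^ 2) ^ k := by ring
        _ ≤ 2 ^ k * (2 * (B : ℝ) ^ 2) ^ k := by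
          apply mul_le_mul_of_nonneg_right _ (by positivity)
          calc (2 : ℝ) = 2 ^ 1 := by norm_num
            _ ≤ 2 ^ k := pow_le_pow_right₀ (by norm_num) hk
        _ = _ := by rw [← mul_pow]; ring
  · have h1 := hev s
    have h2 := hev s'
    rw [hcs] at h1
    rw [hcs'] at h2
    have h3 : (s.map (fun z : {z // z ∈ S} => (z : (ZMod (p ^ n))ˣ))).prod =
      (s'.map (fun z : {z // z ∈ S} => (z : (ZMod (p ^ n))ˣ))).prod := heq
    rw [← h3] at h2
    have h4 : (((C D' * A - C D * A').eval y : ℤ) : ZMod (p ^ n)) = 0 := by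
      rw [eval_sub, eval_mul, eval_mul, eval_C, eval_C]
      push_cast
      have h5 : ((-1 : ZMod (p ^ n)) ^ k) * ((-1 : ZMod (p ^ n)) ^ k) = 1 := by
        rw [← mul_pow]
        simp
      calc (D' : ZMod (p ^ n)) * ((A.eval y : ℤ) : ZMod (p ^ n)) -
            (D : ZMod (p ^ n)) * ((A'.eval y : ℤ) : ZMod (p ^ n)) =
          ((-1 : ZMod (p ^ n)) ^ k * (-1 : ZMod (p ^ n)) ^ k) *
          ((D' : ZMod (p ^ n)) * ((A.eval y : ℤ) : ZMod (p ^ n)) -
            (D : ZMod (p ^ n)) * ((A'.eval y : ℤ) : ZMod (p ^ n))) := by rw [h5, one_mul]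
        _ = (-1 : ZMod (p ^ n)) ^ k * ((D' : ZMod (p ^ n)) *
            ((-1 : ZMod (p ^ n)) ^ k * ((A.eval y : ℤ) : ZMod (p ^ n))) -
            (D : ZMod (p ^ n)) * ((-1 : ZMod (p ^ n)) ^ k * ((A'.eval y : ℤ) : ZMod (p ^ n)))) := by
          ring
        _ = 0 := by
          rw [← h1, ← h2]
          ring
    have h5 := (ZMod.intCast_zmod_eq_zero_iff_dvd _ _).1 h4
    exact_mod_cast h5

/-- quotients of small polynomials at `y` -/
def IsRep {R : Type*} [CommRing R] (B N : ℕ) (y : ℤ) (g : Rˣ) (A D : ℤ[X]) : Prop :=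
  ZSm B N A ∧ ZSm B N D ∧ ((A.eval y : ℤ) : R) = g * ((D.eval y : ℤ) : R) ∧
    ∃ m : ℤ, m ≠ 0 ∧ |m| ≤ (B : ℤ) ^ N ∧ ∃ u : Rˣ, ((D.eval y : ℤ) : R) = m * u

section

variable {R : Type*} [CommRing R] {B : ℕ} {y : ℤ}

theorem IsRep.mul {N M : ℕ} {g h : Rˣ} {A D A' D' : ℤ[X]}
    (H : IsRep B N y g A D) (H' : IsRep B M y h A' D') :
    IsRep B (N + M) y (g * h) (A * A') (D * D') := by
  obtain ⟨h1, h2, h3, m, h4, h5, u, h6⟩ := H
  obtain ⟨h1', h2', h3', m', h4', h5', u', h6'⟩ := H'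
  refine ⟨h1.mul h1', h2.mul h2', ?_, m * m', mul_ne_zero h4 h4', ?_, u * u', ?_⟩
  · rw [eval_mul, eval_mul, Int.cast_mul, Int.cast_mul, h3, h3', Units.val_mul]
    ring
  · rw [abs_mul, pow_add]
    exact mul_le_mul h5 h5' (abs_nonneg _) (by positivity)
  · rw [eval_mul, Int.cast_mul, h6, h6', Int.cast_mul, Units.val_mul]
    ring

theorem isRep_zero : IsRep B 0 y (1 : Rˣ) 1 1 := by
  refine ⟨ZSm.one B, ZSm.one B, ?_, 1, one_ne_zero, by simp, 1, ?_⟩
  · simp
  · simp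

theorem isRep_one (hB : 1 ≤ B) : IsRep B 1 y (1 : Rˣ) (C 1) (C 1) := by
  have h1 : ZSm B 1 (C 1) := ZSm.const (by simpa using hB)
  refine ⟨h1, h1, ?_, 1, one_ne_zero, by simpa using hB, 1, ?_⟩
  · simp
  · simp

theorem isRep_elt {a b c : ℤ} {z : Rˣ} (ha : |a| ≤ B) (hb : |b| ≤ B) (hc : |c| ≤ B) (hc0 : c ≠ 0)
    (h : (a : R) + b * y + c * z = 0) : IsRep B 1 y z (-(C a + C b * X)) (C c) := by
  refine ⟨(ZSm.lin ha hb).neg, ZSm.const hc, ?_, c, hc0, by simpa using hc, 1, ?_⟩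
  · simp only [eval_neg, eval_add, eval_mul, eval_C, eval_X]
    push_cast
    linear_combination -h
  · simp

theorem isRep_inv {a b c : ℤ} {z : Rˣ} (ha : |a| ≤ B) (hb : |b| ≤ B) (hc : |c| ≤ B) (hc0 : c ≠ 0)
    (h : (a : R) + b * y + c * z = 0) : IsRep B 1 y z⁻¹ (C c) (-(C a + C b * X)) := by
  have h1 : (((-(C a + C b * X)).eval y : ℤ) : R) = c * z := by
    simp only [eval_neg, eval_add, eval_mul, eval_C, eval_X]
    push_cast
    linear_combination -h
  refine ⟨ZSm.const hc, (ZSm.lin ha hb).neg, ?_, c, hc0, by simpa using hc, z, h1⟩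
  rw [h1, eval_C, mul_comm (c : R), ← mul_assoc, Units.inv_mul, one_mul]

open scoped Pointwise in
theorem isRep_pow [DecidableEq Rˣ] {X : Finset Rˣ} (hX : ∀ x ∈ X, ∃ A D, IsRep B 1 y x A D)
    (L : ℕ) : ∀ g ∈ X ^ L, ∃ A D, IsRep B L y g A D := by
  induction L with
  | zero =>
    intro g hg
    rw [pow_zero, Finset.mem_one] at hg
    subst hg
    exact ⟨1, 1, isRep_zero⟩
  | succ L ih =>
    intro g hg
    rw [pow_succ, Finset.mem_mul] at hg
    obtain ⟨g', hg', x, hx, rfl⟩ := hg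
    obtain ⟨A, D, h1⟩ := ih g' hg'
    obtain ⟨A', D', h2⟩ := hX x hx
    exact ⟨_, _, h1.mul h2⟩

end

section

variable {p m k : ℕ} {y : ℤ} {P : ℤ[X]} {W : ℝ} {B : ℕ}

/-- the size condition -/
def SizeOK (p m k B N : ℕ) (W : ℝ) : Prop := (2 * (2 * B : ℝ) ^ N) ^ k * W ^ N < (p : ℝ) ^ m

theorem SizeOK.mono {N N' : ℕ} (hB : 1 ≤ B) (hW : 1 ≤ W) (hN : N ≤ N')
    (h : SizeOK p m k B N' W) : SizeOK p m k B N W := by
  refine lt_of_le_of_lt ?_ h
  have hBR : (1 : ℝ) ≤ B := by exact_mod_cast hB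
  have h2 : (1 : ℝ) ≤ 2 * B := by linarith
  gcongr

theorem SizeOK.pow_lt {N : ℕ} (hB : 1 ≤ B) (hW : 1 ≤ W) (hk : 1 ≤ k)
    (h : SizeOK p m k B N W) : (B : ℝ) ^ N < (p : ℝ) ^ m := by
  refine lt_of_le_of_lt ?_ h
  have hBR : (1 : ℝ) ≤ B := by exact_mod_cast hB
  have h1 : (B : ℝ) ^ N ≤ 2 * (2 * B : ℝ) ^ N := by
    have : (B : ℝ) ^ N ≤ (2 * B : ℝ) ^ N := pow_le_pow_left₀ (by linarith) (by linarith) _
    have h0 : (0 : ℝ) ≤ (2 * B : ℝ) ^ N := by positivity
    linarith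
  have h2 : (1 : ℝ) ≤ 2 * (2 * B : ℝ) ^ N := by
    have : (1 : ℝ) ≤ (2 * B : ℝ) ^ N := one_le_pow₀ (by linarith)
    linarith
  have h3 : (1 : ℝ) ≤ W ^ N := one_le_pow₀ hW
  calc (B : ℝ) ^ N ≤ 2 * (2 * B : ℝ) ^ N := h1
    _ = (2 * (2 * B : ℝ) ^ N) ^ 1 * 1 := by ring
    _ ≤ (2 * (2 * B : ℝ) ^ N) ^ k * W ^ N := by
      apply mul_le_mul (pow_le_pow_right₀ h2 hk) h3 zero_le_one (by positivity)

/-- two small quotients with the same value agree modulo `P` -/
theorem rep_unique {n : ℕ} (hmn : m ≤ n) (hB : 1 ≤ B)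
    (hirr : Irreducible (P.map (Int.castRingHom ℚ))) (hP1 : 0 < P.natDegree)
    (hPk : P.natDegree ≤ k) (hmm : mm P ≤ W) (hy : (p : ℤ) ^ m ∣ P.eval y) {N N' : ℕ}
    (hs : SizeOK p m k B (N + N') W) {g : (ZMod (p ^ n))ˣ} {A D A' D' : ℤ[X]}
    (H : IsRep B N y g A D) (H' : IsRep B N' y g A' D') :
    P.map (Int.castRingHom ℚ) ∣ (A * D' - A' * D).map (Int.castRingHom ℚ) := by
  have hBR : (1 : ℝ) ≤ B := by exact_mod_cast hB
  have h1 : ZSm B (N + N') (A * D') := H.1.mul H'.2.1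
  have h2 : ZSm B (N + N') (A' * D) := by
    rw [add_comm]
    exact H'.1.mul H.2.1
  have hP0 : P ≠ 0 := by
    rintro rfl
    simp at hP1
  have hm1 := one_le_mm hP0
  apply dvd_of_common hirr hP1 (K := 2 * (2 * B : ℝ) ^ (N + N')) (by positivity)
    (N := N + N') ?_ ?_ y (p ^ m) (by exact_mod_cast hy) ?_ ?_
  · exact (natDegree_sub_le _ _).trans (max_le h1.1 h2.1)
  · intro z
    rw [map_sub]
    calc ‖aeval z (A * D') - aeval z (A' * D)‖ ≤ _ := norm_sub_le _ _
      _ ≤ _ := add_le_add (h1.2 z) (h2.2 z)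
      _ = _ := by ring
  · have h3 : (((A * D' - A' * D).eval y : ℤ) : ZMod (p ^ n)) = 0 := by
      rw [eval_sub, eval_mul, eval_mul, Int.cast_sub, Int.cast_mul, Int.cast_mul, H.2.2.1,
        H'.2.2.1]
      ring
    have h4 := (ZMod.intCast_zmod_eq_zero_iff_dvd _ _).1 h3
    refine dvd_trans ?_ h4
    exact_mod_cast pow_dvd_pow p hmn
  · rw [Nat.cast_pow]
    refine lt_of_le_of_lt ?_ hs
    have h3 : (1 : ℝ) ≤ 2 * (2 * B : ℝ) ^ (N + N') := by
      have : (1 : ℝ) ≤ (2 * B : ℝ) ^ (N + N') := one_le_pow₀ (by linarith)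
      linarith
    apply mul_le_mul (pow_le_pow_right₀ h3 hPk) (pow_le_pow_left₀ (by linarith) hmm _)
      (by positivity) (by positivity)

theorem dvd_of_eq {n : ℕ} (hmn : m ≤ n) {x : ℤ} {t : ZMod (p ^ n)}
    (h : (x : ZMod (p ^ n)) = (p : ZMod (p ^ n)) ^ m * t) : (p : ℤ) ^ m ∣ x := by
  obtain ⟨t', rfl⟩ := ZMod.intCast_surjective t
  have h1 : ((x - (p : ℤ) ^ m * t' : ℤ) : ZMod (p ^ n)) = 0 := by
    push_cast
    rw [h, sub_self]
  have h2 := (ZMod.intCast_zmod_eq_zero_iff_dvd _ _).1 h1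
  have h3 : (p : ℤ) ^ m ∣ x - (p : ℤ) ^ m * t' := by
    refine dvd_trans ?_ h2
    exact_mod_cast pow_dvd_pow p hmn
  exact (dvd_sub_left (dvd_mul_right _ _)).1 h3

theorem dvd_of_eval {n : ℕ} (hmn : m ≤ n) (hy : (p : ℤ) ^ m ∣ P.eval y) {F : ℤ[X]} (h : P ∣ F)
    {x : ℤ} {u : (ZMod (p ^ n))ˣ} (hF : ((F.eval y : ℤ) : ZMod (p ^ n)) = x * u) :
    (p : ℤ) ^ m ∣ x := by
  have h2 : (p : ℤ) ^ m ∣ F.eval y := by
    obtain ⟨Q, rfl⟩ := h
    rw [eval_mul]
    exact hy.mul_right _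
  obtain ⟨s, hs⟩ := h2
  apply dvd_of_eq hmn (t := (s : ZMod (p ^ n)) * ((u⁻¹ : (ZMod (p ^ n))ˣ) : ZMod (p ^ n)))
  rw [hs] at hF
  push_cast at hF
  calc (x : ZMod (p ^ n)) = x * u * ((u⁻¹ : (ZMod (p ^ n))ˣ) : ZMod (p ^ n)) := by
        rw [mul_assoc, Units.mul_inv, mul_one]
    _ = _ := by rw [← hF]; ring

theorem not_small {N : ℕ} (hs : (B : ℝ) ^ N < (p : ℝ) ^ m) {c : ℤ} (hc : c ≠ 0)
    (hcB : |c| ≤ (B : ℤ) ^ N) : ¬ (p : ℤ) ^ m ∣ c := by
  intro h
  have h1 := Int.le_of_dvd (abs_pos.2 hc) ((dvd_abs _ _).2 h)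
  have h2 : (B : ℤ) ^ N < (p : ℤ) ^ m := by exact_mod_cast hs
  linarith

/-- the denominator is not divisible by `P` -/
theorem rep_ne {n : ℕ} (hmn : m ≤ n) (hP : P.IsPrimitive) (hy : (p : ℤ) ^ m ∣ P.eval y) {N : ℕ}
    (hs : (B : ℝ) ^ N < (p : ℝ) ^ m) {g : (ZMod (p ^ n))ˣ} {A D : ℤ[X]} (H : IsRep B N y g A D) :
    ¬ P.map (Int.castRingHom ℚ) ∣ D.map (Int.castRingHom ℚ) := by
  intro hdvd
  have h1 : P ∣ D := IsPrimitive.dvd_of_fraction_map_dvd_fraction_map (K := ℚ) hP hdvd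
  obtain ⟨-, -, -, c, hc, hcB, u, hu⟩ := H
  exact not_small hs hc hcB (dvd_of_eval hmn hy h1 hu)

/-- a unit represented by `1` is `1` -/
theorem rep_inj {n : ℕ} (hp : p.Prime) (hmn : m ≤ n) (hP : P.IsPrimitive)
    (hy : (p : ℤ) ^ m ∣ P.eval y) {N : ℕ}
    (hs : (B : ℝ) ^ N < (p : ℝ) ^ m) {g : (ZMod (p ^ n))ˣ} {A D : ℤ[X]} (H : IsRep B N y g A D)
    (hdvd : P.map (Int.castRingHom ℚ) ∣ (A - D).map (Int.castRingHom ℚ)) :
    ∀ c : ℤ, (c : ZMod (p ^ n)) = g → (p : ℤ) ∣ c - 1 := by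
  intro c hcg
  have h1 : P ∣ A - D := IsPrimitive.dvd_of_fraction_map_dvd_fraction_map (K := ℚ) hP hdvd
  obtain ⟨-, -, hA, d, hd, hdB, u, hu⟩ := H
  have h2 : (p : ℤ) ^ m ∣ (c - 1) * d := by
    apply dvd_of_eval hmn hy h1 (u := u)
    rw [eval_sub, Int.cast_sub, hA, hu, ← hcg]
    push_cast
    ring
  by_contra h3
  have hpp : Prime (p : ℤ) := Nat.prime_iff_prime_int.1 hp
  exact not_small hs hd hdB (hpp.pow_dvd_of_dvd_mul_left _ h3 h2)

end

section

/-- reduction to the number field -/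
noncomputable def ev (P : ℤ[X]) : ℤ[X] →+* AdjoinRoot (P.map (Int.castRingHom ℚ)) :=
  (AdjoinRoot.mk (P.map (Int.castRingHom ℚ))).comp (mapRingHom (Int.castRingHom ℚ))

theorem ev_eq_zero {P F : ℤ[X]} :
    ev P F = 0 ↔ P.map (Int.castRingHom ℚ) ∣ F.map (Int.castRingHom ℚ) := by
  rw [ev, RingHom.comp_apply, AdjoinRoot.mk_eq_zero]
  rfl

variable {p m n k B L : ℕ} {y : ℤ} {P : ℤ[X]} {W : ℝ}

/-- the order of the group is bounded -/
theorem order_le (hp : p.Prime) (hn : 1 ≤ n) (hmn : m ≤ n) (hB : 1 ≤ B) (hW : 1 ≤ W) (hk : 1 ≤ k)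
    (hprim : P.IsPrimitive) (hirr0 : Irreducible P) (hP1 : 0 < P.natDegree)
    (hPk : P.natDegree ≤ k) (hmm : mm P ≤ W) (hy : (p : ℤ) ^ m ∣ P.eval y)
    (hs : SizeOK p m k B (3 * L) W) (G : Subgroup (ZMod (p ^ n))ˣ)
    (hG : ∀ g ∈ G, g ^ (p - 1) = 1) (hrep : ∀ g ∈ G, ∃ A D, IsRep B L y g A D) :
    Nat.card G ≤ 2 * k ^ 2 := by
  classical
  have hne0 : NeZero (p ^ n) := ⟨pow_ne_zero _ hp.ne_zero⟩
  have hirr : Irreducible (P.map (Int.castRingHom ℚ)) :=
    (IsPrimitive.Int.irreducible_iff_irreducible_map_cast hprim).1 hirr0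
  have hf : Fact (Irreducible (P.map (Int.castRingHom ℚ))) := ⟨hirr⟩
  have hs1 : (B : ℝ) ^ L < (p : ℝ) ^ m := (hs.mono hB hW (by omega : L ≤ 3 * L)).pow_lt hB hW hk
  choose! A D hAD using hrep
  -- the value does not depend on the representation
  have hval : ∀ g ∈ G, ∀ N, N ≤ 2 * L → ∀ A' D' : ℤ[X], IsRep B N y g A' D' →
      ev P A' / ev P D' = ev P (A g) / ev P (D g) := by
    intro g hg N hN A' D' H
    have hsN : (B : ℝ) ^ N < (p : ℝ) ^ m :=
      (hs.mono hB hW (by omega : N ≤ 3 * L)).pow_lt hB hW hk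
    have h1 : ev P D' ≠ 0 := fun h0 => rep_ne hmn hprim hy hsN H (ev_eq_zero.1 h0)
    have h2 : ev P (D g) ≠ 0 := fun h0 => rep_ne hmn hprim hy hs1 (hAD g hg) (ev_eq_zero.1 h0)
    rw [div_eq_div_iff h1 h2, ← sub_eq_zero, ← map_mul, ← map_mul, ← map_sub]
    exact ev_eq_zero.2 (rep_unique hmn hB hirr hP1 hPk hmm hy
      (hs.mono hB hW (by omega : N + L ≤ 3 * L)) H (hAD g hg))
  let φ : G →* AdjoinRoot (P.map (Int.castRingHom ℚ)) :=
    { toFun := fun g => ev P (A g) / ev P (D g)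
      map_one' := by
        have h1 := hval 1 G.one_mem 0 (by omega) 1 1 isRep_zero
        rw [map_one, div_one] at h1
        exact h1.symm
      map_mul' := by
        intro g h
        have h1 := hval (g * h) (G.mul_mem g.2 h.2) (L + L) (by omega) _ _
          ((hAD g g.2).mul (hAD h h.2))
        rw [map_mul, map_mul] at h1
        rw [Subgroup.coe_mul, ← h1, mul_div_mul_comm] }
  have hφ : Function.Injective φ := by
    rw [injective_iff_map_eq_one]
    intro g hg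
    have h1 : ev P (A g) / ev P (D g) = 1 := hg
    have h2 : ev P (D g) ≠ 0 := fun h0 => rep_ne hmn hprim hy hs1 (hAD g g.2) (ev_eq_zero.1 h0)
    rw [div_eq_one_iff_eq h2, ← sub_eq_zero, ← map_sub] at h1
    obtain ⟨c, hc⟩ := ZMod.intCast_surjective ((g : (ZMod (p ^ n))ˣ) : ZMod (p ^ n))
    have h3 := rep_inj hp hmn hprim hy hs1 (hAD g g.2) (ev_eq_zero.1 h1) c hc
    exact Subtype.ext (teich_one hp hn (hG g g.2) hc h3)
  have hcyc : IsCyclic G := isCyclic_of_injective_ringHom φ hφ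
  obtain ⟨g, hg⟩ := hcyc.exists_ofOrder_eq_natCard
  have hprimr : IsPrimitiveRoot (φ g) (Nat.card G) := by
    rw [← hg, ← orderOf_injective φ hφ g]
    exact IsPrimitiveRoot.orderOf _
  have hcard : 0 < Nat.card G := Nat.card_pos
  have hfd : FiniteDimensional ℚ (AdjoinRoot (P.map (Int.castRingHom ℚ))) :=
    (AdjoinRoot.powerBasis hirr.ne_zero).finite
  have h1 := hprimr.lcm_totient_le_finrank hprimr (by
    rw [Nat.lcm_self]
    exact cyclotomic.irreducible_rat hcard)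
  rw [Nat.lcm_self, (AdjoinRoot.powerBasis hirr.ne_zero).finrank, AdjoinRoot.powerBasis_dim,
    natDegree_map_eq_of_injective (RingHom.injective_int (Int.castRingHom ℚ))] at h1
  calc Nat.card G ≤ 2 * (Nat.card G).totient ^ 2 := (le_totient hcard).1
    _ ≤ 2 * k ^ 2 := Nat.mul_le_mul_left _ (Nat.pow_le_pow_left (h1.trans hPk) 2)

end

/-- **the count of solutions of small linear relations among roots of unity** -/
theorem zy_bound {p n k m B L : ℕ} (hp : p.Prime) (hk : 1 ≤ k) (hB : 1 ≤ B) (hm : (k + 1) * m ≤ n)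
    (y : ℤ) (S : Finset (ZMod (p ^ n))ˣ) (hS : ∀ z ∈ S, z ^ (p - 1) = 1)
    (hrel : ∀ z ∈ S, ∃ a b c : ℤ, b ≠ 0 ∧ c ≠ 0 ∧ |a| ≤ B ∧ |b| ≤ B ∧ |c| ≤ B ∧
      (a : ZMod (p ^ n)) + b * y + c * z = 0)
    (hnp : ∀ z ∈ S, ∀ z' ∈ S, z ≠ z' → ∀ α β : ℤ, α ≠ 0 → β ≠ 0 → |α| ≤ B ^ 2 → |β| ≤ B ^ 2 →
      (α : ZMod (p ^ n)) * z ≠ β * z')
    (hpig : k.factorial * p ≤ S.card ^ k) (hbig : 2 * k ^ 2 < S.card)
    (hL : 3 * (p / S.card) + 2 ≤ L)
    (hsize : (2 * (2 * B : ℝ) ^ (3 * L)) ^ k * ((4 * (B : ℝ) ^ 2) ^ k) ^ (3 * L) < (p : ℝ) ^ m) :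
    False := by
  classical
  have hne0 : NeZero (p ^ n) := ⟨pow_ne_zero _ hp.ne_zero⟩
  have hBR : (1 : ℝ) ≤ B := by exact_mod_cast hB
  have hW : (1 : ℝ) ≤ (4 * (B : ℝ) ^ 2) ^ k := one_le_pow₀ (by nlinarith)
  have hf1 : (1 : ℝ) ≤ (2 * (2 * B : ℝ) ^ (3 * L)) ^ k := by
    apply one_le_pow₀
    have : (1 : ℝ) ≤ (2 * B : ℝ) ^ (3 * L) := one_le_pow₀ (by linarith)
    linarith
  have hf2 : (4 * (B : ℝ) ^ 2) ^ k ≤ ((4 * (B : ℝ) ^ 2) ^ k) ^ (3 * L) := by
    calc (4 * (B : ℝ) ^ 2) ^ k = ((4 * (B : ℝ) ^ 2) ^ k) ^ 1 := (pow_one _).symm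
      _ ≤ _ := pow_le_pow_right₀ hW (by omega)
  have hf3 : (4 * (B : ℝ) ^ 2) ^ k < (p : ℝ) ^ m := by
    refine lt_of_le_of_lt ?_ hsize
    calc (4 * (B : ℝ) ^ 2) ^ k ≤ ((4 * (B : ℝ) ^ 2) ^ k) ^ (3 * L) := hf2
      _ = 1 * ((4 * (B : ℝ) ^ 2) ^ k) ^ (3 * L) := (one_mul _).symm
      _ ≤ _ := mul_le_mul_of_nonneg_right hf1 (by positivity)
  have hm1 : 1 ≤ m := by
    rcases Nat.eq_zero_or_pos m with h0 | h0
    · subst h0
      rw [pow_zero] at hf3
      linarith
    · exact h0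
  have hmn : m ≤ n := by nlinarith
  have hn : 1 ≤ n := by omega
  choose! a b c hb0 hc0 ha hb hc hr using hrel
  obtain ⟨P, hP0, hPd, hPm, hPy⟩ := exists_poly hp hn hk hB y S hS a b c ha hb hc hb0 hc0 hr hnp hpig
  have hPm' : mm P < (p : ℝ) ^ m := lt_of_le_of_lt hPm hf3
  obtain ⟨P₀, hprim, hirr, hd0, hdvd, hy0⟩ :=
    exists_factor hp y k P hP0 hPd hPm' ((pow_dvd_pow _ hm).trans hPy)
  -- the generating set
  let E : Finset (ZMod (p ^ n))ˣ := {1} ∪ (S ∪ S⁻¹)
  have h1X : (1 : (ZMod (p ^ n))ˣ) ∈ E := by simp [E]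
  have hXinv : ∀ x ∈ E, x⁻¹ ∈ E := by
    intro x hx
    simp only [E, Finset.mem_union, Finset.mem_singleton, Finset.mem_inv'] at hx ⊢
    rcases hx with h | h | h
    · left
      rw [h, inv_one]
    · right
      right
      rwa [inv_inv]
    · right
      left
      exact h
  have hX1 : ∀ x ∈ E, x ^ (p - 1) = 1 := by
    intro x hx
    simp only [E, Finset.mem_union, Finset.mem_singleton, Finset.mem_inv'] at hx
    rcases hx with h | h | h
    · rw [h, one_pow]
    · exact hS x h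
    · have h2 := hS _ h
      rw [inv_pow, inv_eq_one] at h2
      exact h2
  have hXj : ∀ j, ∀ x ∈ E ^ j, x ^ (p - 1) = 1 := by
    intro j
    induction j with
    | zero =>
      intro x hx
      rw [pow_zero, Finset.mem_one] at hx
      rw [hx, one_pow]
    | succ j ih =>
      intro x hx
      rw [pow_succ, Finset.mem_mul] at hx
      obtain ⟨u, hu, v, hv, rfl⟩ := hx
      rw [mul_pow, ih u hu, hX1 v hv, one_mul]
  have hXrep : ∀ x ∈ E, ∃ A D, IsRep B 1 y x A D := by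
    intro x hx
    simp only [E, Finset.mem_union, Finset.mem_singleton, Finset.mem_inv'] at hx
    rcases hx with h | h | h
    · rw [h]
      exact ⟨_, _, isRep_one hB⟩
    · exact ⟨_, _, isRep_elt (ha x h) (hb x h) (hc x h) (hc0 x h) (hr x h)⟩
    · have h2 := isRep_inv (ha _ h) (hb _ h) (hc _ h) (hc0 _ h) (hr _ h)
      rw [inv_inv] at h2
      exact ⟨_, _, h2⟩
  have hScard : 0 < S.card := by omega
  have hSX : S ⊆ E := fun x hx => by
    simp only [E, Finset.mem_union]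
    exact Or.inr (Or.inl hx)
  have hLX : 3 * ((p - 1) / E.card) + 2 ≤ L := by
    have h2 : (p - 1) / E.card ≤ p / S.card :=
      Nat.div_le_div (Nat.sub_le _ _) (Finset.card_le_card hSX) hScard.ne'
    omega
  have hstab := diameter h1X hXinv (fun j => teich_card hp hn _ (hXj j)) hLX
  have hXi : E⁻¹ = E := by
    ext x
    rw [Finset.mem_inv']
    constructor
    · intro h
      have := hXinv _ h
      rwa [inv_inv] at this
    · exact hXinv x
  let G : Subgroup (ZMod (p ^ n))ˣ :=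
    { carrier := ((E ^ L : Finset (ZMod (p ^ n))ˣ) : Set (ZMod (p ^ n))ˣ)
      mul_mem' := by
        intro u v hu hv
        rw [Finset.mem_coe] at hu hv ⊢
        rw [← hstab]
        exact Finset.mul_mem_mul hu hv
      one_mem' := by
        rw [Finset.mem_coe]
        have := Finset.pow_subset_pow_right h1X (Nat.zero_le L)
        apply this
        simp
      inv_mem' := by
        intro u hu
        rw [Finset.mem_coe] at hu ⊢
        have h2 : (E ^ L)⁻¹ = E ^ L := by rw [← inv_pow, hXi]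
        rw [← h2, Finset.mem_inv', inv_inv]
        exact hu }
  have hle : Nat.card G ≤ 2 * k ^ 2 := by
    apply order_le hp hn hmn hB hW hk hprim hirr hd0
      ((natDegree_le_of_dvd hdvd hP0).trans hPd) ((mm_le_of_dvd hP0 hdvd).trans hPm) hy0 hsize G
    · intro g hg
      exact hXj L g hg
    · intro g hg
      exact isRep_pow hXrep L g hg
  have hSG : S.card ≤ Nat.card G := by
    have h2 : Nat.card G = (E ^ L).card := by
      have : Nat.card G = Nat.card ((E ^ L : Finset (ZMod (p ^ n))ˣ) : Set (ZMod (p ^ n))ˣ) := rfl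
      rw [this, Nat.card_coe_set_eq, Set.ncard_coe_finset]
    rw [h2]
    apply Finset.card_le_card
    refine hSX.trans ?_
    calc E = E ^ 1 := (pow_one E).symm
      _ ⊆ E ^ L := Finset.pow_subset_pow_right h1X (by omega)
  omega

end Pool.Agent.MU0
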